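import Pool.Agent.PGr.PrProd

/-!
# PGr tools: the bounded differences inequality on `ι → Ω`
-/

namespace Pool.Agent.PGr

open Finset

/-- Exponential moment of a centred function with values in an interval of length `c`. -/
theorem mgf_one {Ω : Type*} [Fintype Ω] [Nonempty Ω] (h : Ω → ℝ) (c : ℝ)
    (hc : ∀ a b, |h a - h b| ≤ c) (l : ℝ) :
    Ex (fun a => Real.exp (l * h a)) ≤ Real.exp (l * Ex h + l ^ 2 * c ^ 2 / 2) := by
  -- Jensen
  have hJ : Real.exp (-(l * Ex h)) ≤ Ex (fun b => Real.exp (-(l * h b))) := by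
    -- the tangent line
    have h1 : ∀ b, Real.exp (-(l * Ex h)) * (1 + (-(l * h b) + l * Ex h)) ≤
        Real.exp (-(l * h b)) := by
      intro b
      have h2 := Real.add_one_le_exp (-(l * h b) + l * Ex h)
      have h3 : Real.exp (-(l * h b)) = Real.exp (-(l * Ex h)) *
          Real.exp (-(l * h b) + l * Ex h) := by
        rw [← Real.exp_add]
        congr 1
        ring
      rw [h3]
      exact mul_le_mul_of_nonneg_left (by linarith) (Real.exp_pos _).le
    have h4 := Ex_mono h1
    rw [Ex_const_mul] at h4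
    have h5 : Ex (fun b => 1 + (-(l * h b) + l * Ex h)) = 1 := by
      have e1 : Ex (fun b => 1 + (-(l * h b) + l * Ex h)) =
          Ex (fun b => (1 + l * Ex h) - l * h b) := Ex_congr fun b => by ring
      rw [e1, Ex_sub, Ex_const, Ex_const_mul]
      ring
    rw [h5, mul_one] at h4
    exact h4
  -- symmetrisation
  have hS : Ex (fun a => Real.exp (l * h a)) * Ex (fun b => Real.exp (-(l * h b))) ≤
      Real.exp (l ^ 2 * c ^ 2 / 2) := by
    have e1 : Ex (fun a => Real.exp (l * h a)) * Ex (fun b => Real.exp (-(l * h b))) =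
        Ex (fun a => Ex (fun b => Real.exp (l * (h a - h b)))) := by
      rw [← Ex_mul_const]
      refine Ex_congr fun a => ?_
      rw [← Ex_const_mul]
      refine Ex_congr fun b => ?_
      rw [← Real.exp_add]
      congr 1
      ring
    have e2 : Ex (fun a => Ex (fun b => Real.exp (l * (h a - h b)))) =
        Ex (fun a => Ex (fun b => Real.exp (-(l * (h a - h b))))) := by
      have e3 : Ex (fun a => Ex (fun b => Real.exp (l * (h a - h b)))) =
          Ex (fun b => Ex (fun a => Real.exp (l * (h a - h b)))) := by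
        unfold Ex
        simp only [← Finset.sum_div]
        rw [Finset.sum_comm]
      rw [e3]
      refine Ex_congr fun a => Ex_congr fun b => ?_
      congr 1
      ring
    have e4 : Ex (fun a => Ex (fun b => Real.exp (l * (h a - h b)))) =
        Ex (fun a => Ex (fun b => Real.cosh (l * (h a - h b)))) := by
      have e5 : Ex (fun a => Ex (fun b => Real.cosh (l * (h a - h b)))) =
          (Ex (fun a => Ex (fun b => Real.exp (l * (h a - h b)))) +
            Ex (fun a => Ex (fun b => Real.exp (-(l * (h a - h b)))))) * (1 / 2) := by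
        rw [← Ex_add, ← Ex_mul_const]
        refine Ex_congr fun a => ?_
        rw [← Ex_add, ← Ex_mul_const]
        refine Ex_congr fun b => ?_
        rw [Real.cosh_eq]
        ring
      rw [e5, ← e2]
      ring
    rw [e1, e4]
    have e6 : ∀ a b, Real.cosh (l * (h a - h b)) ≤ Real.exp (l ^ 2 * c ^ 2 / 2) := by
      intro a b
      refine (Real.cosh_le_exp_half_sq _).trans (Real.exp_le_exp.2 ?_)
      have h6 : (h a - h b) ^ 2 ≤ c ^ 2 := by
        rw [← sq_abs]
        exact pow_le_pow_left₀ (abs_nonneg _) (hc a b) 2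
      nlinarith [mul_le_mul_of_nonneg_left h6 (sq_nonneg l)]
    calc Ex (fun a => Ex (fun b => Real.cosh (l * (h a - h b))))
        ≤ Ex (fun _ : Ω => Ex (fun _ : Ω => Real.exp (l ^ 2 * c ^ 2 / 2))) :=
          Ex_mono fun a => Ex_mono fun b => e6 a b
      _ = Real.exp (l ^ 2 * c ^ 2 / 2) := by rw [Ex_const, Ex_const]
  have hpos : 0 ≤ Ex (fun a => Real.exp (l * h a)) := Ex_nonneg fun a => (Real.exp_pos _).le
  have h7 := mul_le_mul_of_nonneg_left hJ hpos
  have h8 := h7.trans hS
  rw [Real.exp_neg, ← div_eq_mul_inv, div_le_iff₀ (Real.exp_pos _), ← Real.exp_add] at h8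
  rwa [add_comm] at h8

/-- The exponential moment for functions on `Fin n → Ω`. -/
theorem mgf_fin {Ω : Type*} [Fintype Ω] [Nonempty Ω] (n : ℕ) :
    ∀ (f : (Fin n → Ω) → ℝ) (c : Fin n → ℝ),
      (∀ s i a, |f (Function.update s i a) - f s| ≤ c i) → ∀ l : ℝ,
      Ex (fun s => Real.exp (l * f s)) ≤
        Real.exp (l * Ex f + l ^ 2 * (∑ i, c i ^ 2) / 2) := by
  induction n with
  | zero =>
    intro f c _ l
    have h1 : ∀ s : Fin 0 → Ω, f s = f default := fun s => by rw [Subsingleton.elim s default]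
    have h2 : Ex (fun s : Fin 0 → Ω => Real.exp (l * f s)) = Real.exp (l * f default) := by
      rw [Ex_congr (g := fun _ => Real.exp (l * f default)) (fun s => by rw [h1 s]), Ex_const]
    have h3 : Ex f = f default := by
      rw [Ex_congr (g := fun _ => f default) h1, Ex_const]
    rw [h2, h3]
    simp
  | succ n ih =>
    intro f c h l
    have hsplit : ∀ F : (Fin (n + 1) → Ω) → ℝ,
        Ex F = Ex (fun s : Fin n → Ω => Ex (fun a : Ω => F (Fin.cons a s))) := by
      intro F
      rw [← Ex_equiv (Fin.consEquiv fun _ => Ω), Ex_prod]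
      unfold Ex
      simp only [← Finset.sum_div]
      rw [Finset.sum_comm]
      rw [div_div, div_div, mul_comm]
      rfl
    set g : (Fin n → Ω) → ℝ := fun s => Ex (fun a => f (Fin.cons a s)) with hg
    have hgd : ∀ s i a, |g (Function.update s i a) - g s| ≤ c i.succ := by
      intro s i a
      have h1 : g (Function.update s i a) - g s =
          Ex (fun b => f (Fin.cons b (Function.update s i a)) - f (Fin.cons b s)) := by
        rw [Ex_sub]
      rw [h1]
      refine (abs_Ex_le _).trans ?_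
      calc Ex (fun b => |f (Fin.cons b (Function.update s i a)) - f (Fin.cons b s)|)
          ≤ Ex (fun _ : Ω => c i.succ) := by
            refine Ex_mono fun b => ?_
            have h2 := h (Fin.cons b s) i.succ a
            rwa [← Fin.cons_update] at h2
        _ = c i.succ := Ex_const _
    have hpoint : ∀ s : Fin n → Ω, Ex (fun a => Real.exp (l * f (Fin.cons a s))) ≤
        Real.exp (l * g s) * Real.exp (l ^ 2 * c 0 ^ 2 / 2) := by
      intro s
      rw [← Real.exp_add]
      refine mgf_one (fun a => f (Fin.cons a s)) (c 0) ?_ l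
      intro a b
      have h2 := h (Fin.cons b s) 0 a
      simpa using h2
    rw [hsplit]
    calc Ex (fun s : Fin n → Ω => Ex (fun a : Ω => Real.exp (l * f (Fin.cons a s))))
        ≤ Ex (fun s : Fin n → Ω => Real.exp (l * g s) * Real.exp (l ^ 2 * c 0 ^ 2 / 2)) :=
          Ex_mono hpoint
      _ = Ex (fun s : Fin n → Ω => Real.exp (l * g s)) * Real.exp (l ^ 2 * c 0 ^ 2 / 2) :=
          Ex_mul_const _ _
      _ ≤ Real.exp (l * Ex g + l ^ 2 * (∑ i : Fin n, c i.succ ^ 2) / 2) *
            Real.exp (l ^ 2 * c 0 ^ 2 / 2) :=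
          mul_le_mul_of_nonneg_right (ih g (fun i => c i.succ) hgd l) (Real.exp_pos _).le
      _ = _ := by
          rw [← Real.exp_add, hsplit f, Fin.sum_univ_succ]
          congr 1
          simp only [hg]
          ring

/-- The exponential moment for functions on `ι → Ω`. -/
theorem mgf_pi {ι Ω : Type*} [Fintype ι] [DecidableEq ι] [Fintype Ω] [Nonempty Ω]
    (f : (ι → Ω) → ℝ) (c : ι → ℝ)
    (h : ∀ s i a, |f (Function.update s i a) - f s| ≤ c i) (l : ℝ) :
    Ex (fun s => Real.exp (l * f s)) ≤ Real.exp (l * Ex f + l ^ 2 * (∑ i, c i ^ 2) / 2) := by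
  classical
  set e := Fintype.equivFin ι with he
  set E : (Fin (Fintype.card ι) → Ω) ≃ (ι → Ω) := (e.arrowCongr (Equiv.refl Ω)).symm with hE
  have hE1 : ∀ s i, E s i = s (e i) := fun s i => rfl
  have hup : ∀ s i a, E (Function.update s i a) = Function.update (E s) (e.symm i) a := by
    intro s i a
    funext k
    rw [hE1]
    by_cases hk : e k = i
    · have : k = e.symm i := by rw [← hk, Equiv.symm_apply_apply]
      subst this
      rw [Equiv.apply_symm_apply, Function.update_self, Function.update_self]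
    · have : k ≠ e.symm i := by
        intro h'
        apply hk
        rw [h', Equiv.apply_symm_apply]
      rw [Function.update_of_ne hk, Function.update_of_ne this, hE1]
  have h1 := mgf_fin (Fintype.card ι) (fun s => f (E s)) (fun i => c (e.symm i)) (by
    intro s i a
    rw [hup]
    exact h (E s) (e.symm i) a) l
  rw [Ex_equiv E (fun s => Real.exp (l * f s)), Ex_equiv E f,
    e.symm.sum_comp (fun i => c i ^ 2)] at h1
  exact h1

/-- Bounded differences inequality, upper tail. -/
theorem mcdiarmid_upper {ι Ω : Type*} [Fintype ι] [DecidableEq ι] [Fintype Ω] [Nonempty Ω]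
    (f : (ι → Ω) → ℝ) (c : ι → ℝ) (h : ∀ s i a, |f (Function.update s i a) - f s| ≤ c i)
    (V : ℝ) (hV : ∑ i, c i ^ 2 ≤ V) (hV0 : 0 < V) (t : ℝ) (ht : 0 ≤ t) :
    Pr (fun s => t ≤ f s - Ex f) ≤ Real.exp (-(t ^ 2 / (2 * V))) := by
  classical
  set l := t / V with hl
  have hl0 : 0 ≤ l := by positivity
  have h1 := mgf_pi f c h l
  have h2 : Pr (fun s => t ≤ f s - Ex f) * Real.exp (l * (t + Ex f)) ≤
      Ex (fun s => Real.exp (l * f s)) := by
    unfold Pr
    rw [← Ex_mul_const]
    refine Ex_mono fun s => ?_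
    split_ifs with hs
    · rw [one_mul]
      refine Real.exp_le_exp.2 (mul_le_mul_of_nonneg_left (by linarith) hl0)
    · rw [zero_mul]
      exact (Real.exp_pos _).le
  have h3 : Pr (fun s => t ≤ f s - Ex f) * Real.exp (l * (t + Ex f)) ≤
      Real.exp (l * Ex f + l ^ 2 * V / 2) := by
    refine h2.trans (h1.trans (Real.exp_le_exp.2 ?_))
    have : l ^ 2 * (∑ i, c i ^ 2) ≤ l ^ 2 * V := mul_le_mul_of_nonneg_left hV (sq_nonneg l)
    linarith
  rw [← le_div_iff₀ (Real.exp_pos _), ← Real.exp_sub] at h3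
  refine h3.trans (Real.exp_le_exp.2 (le_of_eq ?_))
  rw [hl]
  field_simp
  ring

/-- Bounded differences inequality, lower tail. -/
theorem mcdiarmid_lower {ι Ω : Type*} [Fintype ι] [DecidableEq ι] [Fintype Ω] [Nonempty Ω]
    (f : (ι → Ω) → ℝ) (c : ι → ℝ) (h : ∀ s i a, |f (Function.update s i a) - f s| ≤ c i)
    (V : ℝ) (hV : ∑ i, c i ^ 2 ≤ V) (hV0 : 0 < V) (t : ℝ) (ht : 0 ≤ t) :
    Pr (fun s => t ≤ Ex f - f s) ≤ Real.exp (-(t ^ 2 / (2 * V))) := by
  have hE : Ex (fun s => -f s) = -Ex f := by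
    have := Ex_const_mul (-1) f
    simpa using this
  have h1 := mcdiarmid_upper (fun s => -f s) c (by
    intro s i a
    have := h s i a
    rw [abs_sub_comm] at this
    simpa [neg_add_eq_sub] using this) V hV hV0 t ht
  refine le_trans (le_of_eq ?_) h1
  congr 1
  funext s
  rw [hE]
  apply propext
  constructor <;> intro h <;> linarith

/-- Bounded differences inequality, two-sided. -/
theorem mcdiarmid {ι Ω : Type*} [Fintype ι] [DecidableEq ι] [Fintype Ω] [Nonempty Ω]
    (f : (ι → Ω) → ℝ) (c : ι → ℝ) (h : ∀ s i a, |f (Function.update s i a) - f s| ≤ c i)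
    (V : ℝ) (hV : ∑ i, c i ^ 2 ≤ V) (hV0 : 0 < V) (t : ℝ) (ht : 0 ≤ t) :
    Pr (fun s => t ≤ |f s - Ex f|) ≤ 2 * Real.exp (-(t ^ 2 / (2 * V))) := by
  have h1 : Pr (fun s => t ≤ |f s - Ex f|) ≤
      Pr (fun s => t ≤ f s - Ex f ∨ t ≤ Ex f - f s) := by
    refine Pr_mono fun s hs => ?_
    rcases le_abs.1 hs with h | h
    · exact Or.inl h
    · exact Or.inr (by linarith)
  have h2 := Pr_or_le (fun s => t ≤ f s - Ex f) (fun s => t ≤ Ex f - f s)
  have h3 := mcdiarmid_upper f c h V hV hV0 t ht
  have h4 := mcdiarmid_lower f c h V hV hV0 t ht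
  linarith

/-- The form with influences at most `b` and total influence at most `C`. -/
theorem mcdiarmid_influence {ι Ω : Type*} [Fintype ι] [DecidableEq ι] [Fintype Ω] [Nonempty Ω]
    (f : (ι → Ω) → ℝ) (c : ι → ℝ) (h : ∀ s i a, |f (Function.update s i a) - f s| ≤ c i)
    (b C : ℝ) (hb0 : 0 < b) (hC0 : 0 < C) (hb : ∀ i, c i ≤ b) (hC : ∑ i, c i ≤ C)
    (t : ℝ) (ht : 0 ≤ t) :
    Pr (fun s => t ≤ |f s - Ex f|) ≤ 2 * Real.exp (-(t ^ 2 / (2 * (b * C)))) := by
  have hc0 : ∀ i, 0 ≤ c i := by
    intro i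
    obtain ⟨s⟩ : Nonempty (ι → Ω) := inferInstance
    exact (abs_nonneg _).trans (h s i (s i))
  refine mcdiarmid f c h (b * C) ?_ (by positivity) t ht
  calc ∑ i, c i ^ 2 ≤ ∑ i, b * c i := by
        refine sum_le_sum fun i _ => ?_
        rw [sq]
        exact mul_le_mul_of_nonneg_right (hb i) (hc0 i)
    _ = b * ∑ i, c i := by rw [mul_sum]
    _ ≤ b * C := mul_le_mul_of_nonneg_left hC hb0.le

end Pool.Agent.PGr
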