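import Pool.Agent.PGr.NibDefs

/-!
# PGr tools: random subsets with independent elements
-/

namespace Pool.Agent.PGr.Nib

open Finset

variable {I : Type*} [DecidableEq I]

theorem EW_add (A : Finset I) (p : I → ℝ) (f g : Finset I → ℝ) :
    EW A p (fun T => f T + g T) = EW A p f + EW A p g := by
  simp only [EW, mul_add, sum_add_distrib]

theorem EW_sub (A : Finset I) (p : I → ℝ) (f g : Finset I → ℝ) :
    EW A p (fun T => f T - g T) = EW A p f - EW A p g := by
  simp only [EW, mul_sub, sum_sub_distrib]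

theorem EW_const_mul (A : Finset I) (p : I → ℝ) (c : ℝ) (f : Finset I → ℝ) :
    EW A p (fun T => c * f T) = c * EW A p f := by
  simp only [EW, mul_sum]
  exact sum_congr rfl fun T _ => by ring

theorem EW_sum {K : Type*} (A : Finset I) (p : I → ℝ) (s : Finset K) (f : K → Finset I → ℝ) :
    EW A p (fun T => ∑ k ∈ s, f k T) = ∑ k ∈ s, EW A p (f k) := by
  simp only [EW, mul_sum]
  rw [sum_comm]

theorem EW_congr {A : Finset I} {p : I → ℝ} {f g : Finset I → ℝ} (h : ∀ T ⊆ A, f T = g T) :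
    EW A p f = EW A p g :=
  sum_congr rfl fun T hT => by rw [h T (mem_powerset.1 hT)]

theorem EW_mono {A : Finset I} {p : I → ℝ} (h0 : ∀ i ∈ A, 0 ≤ p i) (h1 : ∀ i ∈ A, p i ≤ 1)
    {f g : Finset I → ℝ} (h : ∀ T ⊆ A, f T ≤ g T) : EW A p f ≤ EW A p g := by
  refine sum_le_sum fun T hT => ?_
  have hT' := mem_powerset.1 hT
  refine mul_le_mul_of_nonneg_left (h T hT') (mul_nonneg ?_ ?_)
  · exact prod_nonneg fun i hi => h0 i (hT' hi)
  · exact prod_nonneg fun i hi => sub_nonneg.2 (h1 i (mem_sdiff.1 hi).1)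

/-- General form: the mean of the indicator of `B ⊆ T`, `T ∩ C = ∅`. -/
theorem EW_incl_excl (A : Finset I) (p : I → ℝ) (B C : Finset I) (hB : B ⊆ A) (hC : C ⊆ A)
    (hBC : Disjoint B C) :
    EW A p (fun T => if B ⊆ T ∧ Disjoint T C then 1 else 0) =
      (∏ i ∈ B, p i) * ∏ i ∈ C, (1 - p i) := by
  have h1 := Finset.prod_add (fun i => if i ∈ C then 0 else p i)
    (fun i => if i ∈ B then 0 else 1 - p i) A
  have h2 : ∏ i ∈ A, ((if i ∈ C then 0 else p i) + (if i ∈ B then 0 else 1 - p i)) =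
      (∏ i ∈ B, p i) * ∏ i ∈ C, (1 - p i) := by
    have e1 : ∀ i ∈ A, ((if i ∈ C then 0 else p i) + (if i ∈ B then 0 else 1 - p i)) =
        (if i ∈ B then p i else 1) * (if i ∈ C then 1 - p i else 1) := by
      intro i _
      by_cases hb : i ∈ B
      · have hc : i ∉ C := fun hc => (disjoint_left.1 hBC) hb hc
        simp [hb, hc]
      · by_cases hc : i ∈ C
        · simp [hb, hc]
        · simp [hb, hc]
    rw [prod_congr rfl e1, prod_mul_distrib, Finset.prod_ite_mem, Finset.prod_ite_mem,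
      inter_eq_right.2 hB, inter_eq_right.2 hC]
  rw [← h2, h1]
  unfold EW
  refine sum_congr rfl fun T hT => ?_
  have hT' := mem_powerset.1 hT
  beta_reduce
  by_cases h : B ⊆ T ∧ Disjoint T C
  · rw [if_pos h, mul_one]
    congr 1
    · refine prod_congr rfl fun i hi => ?_
      rw [if_neg (disjoint_left.1 h.2 hi)]
    · refine prod_congr rfl fun i hi => ?_
      rw [if_neg (fun hb => (mem_sdiff.1 hi).2 (h.1 hb))]
  · rw [if_neg h, mul_zero]
    symm
    rw [not_and_or] at h
    rcases h with h | h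
    · obtain ⟨i, hi, hiT⟩ := not_subset.1 h
      refine mul_eq_zero_of_right _ (prod_eq_zero (mem_sdiff.2 ⟨hB hi, hiT⟩) ?_)
      rw [if_pos hi]
    · obtain ⟨i, hi, hiC⟩ := not_disjoint_iff.1 h
      refine mul_eq_zero_of_left (prod_eq_zero hi ?_) _
      rw [if_pos hiC]

theorem EW_one (A : Finset I) (p : I → ℝ) : EW A p (fun _ => 1) = 1 := by
  have h := EW_incl_excl A p ∅ ∅ (empty_subset _) (empty_subset _) (disjoint_empty_left _)
  simpa using h

theorem EW_disj (A : Finset I) (p : I → ℝ) (C : Finset I) (hC : C ⊆ A) :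
    EW A p (fun T => if Disjoint T C then 1 else 0) = ∏ i ∈ C, (1 - p i) := by
  have h := EW_incl_excl A p ∅ C (empty_subset _) hC (disjoint_empty_left _)
  simpa using h

theorem EW_mem_disj (A : Finset I) (p : I → ℝ) (i : I) (hi : i ∈ A) (C : Finset I) (hC : C ⊆ A)
    (hiC : i ∉ C) :
    EW A p (fun T => if i ∈ T ∧ Disjoint T C then 1 else 0) = p i * ∏ j ∈ C, (1 - p j) := by
  have h := EW_incl_excl A p {i} C (singleton_subset_iff.2 hi) hC (disjoint_singleton_left.2 hiC)
  simpa using h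

theorem exists_EW_le {A : Finset I} {p : I → ℝ} (h0 : ∀ i ∈ A, 0 ≤ p i) (h1 : ∀ i ∈ A, p i ≤ 1)
    (f : Finset I → ℝ) : ∃ T ⊆ A, EW A p f ≤ f T := by
  by_contra hcon
  push Not at hcon
  have h2 : EW A p (fun T => f T - EW A p f) = 0 := by
    rw [EW_sub]
    have : EW A p (fun _ => EW A p f) = EW A p f := by
      have h3 := EW_const_mul A p (EW A p f) (fun _ => 1)
      rw [EW_one] at h3
      simpa using h3
    rw [this, sub_self]
  -- all terms are nonpositive, so all weights vanish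
  have h3 : ∀ T ∈ A.powerset, ((∏ i ∈ T, p i) * ∏ i ∈ A \ T, (1 - p i)) * (f T - EW A p f) ≤ 0 := by
    intro T hT
    have hT' := mem_powerset.1 hT
    refine mul_nonpos_of_nonneg_of_nonpos (mul_nonneg ?_ ?_) ?_
    · exact prod_nonneg fun i hi => h0 i (hT' hi)
    · exact prod_nonneg fun i hi => sub_nonneg.2 (h1 i (mem_sdiff.1 hi).1)
    · have := hcon T hT'
      linarith
  have h4 := (sum_eq_zero_iff_of_nonpos h3).1 h2
  have h5 : EW A p (fun _ => 1) = 0 := by
    unfold EW
    refine sum_eq_zero fun T hT => ?_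
    have h6 := h4 T hT
    have h7 : f T - EW A p f ≠ 0 := by
      have := hcon T (mem_powerset.1 hT)
      exact ne_of_lt (by linarith)
    rcases mul_eq_zero.1 h6 with h8 | h8
    · rw [h8, zero_mul]
    · exact absurd h8 h7
  rw [EW_one] at h5
  exact one_ne_zero h5

end Pool.Agent.PGr.Nib
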