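import Pool.Agent.PGr.Prob

/-!
# PGr tools: product spaces
-/

namespace Pool.Agent.PGr

open Finset

/-- The mean of a product of functions of different coordinates. -/
theorem Ex_pi_prod {ι Ω : Type*} [Fintype ι] [DecidableEq ι] [Fintype Ω] [Nonempty Ω]
    (A : Finset ι) (f : ι → Ω → ℝ) :
    Ex (fun ω : ι → Ω => ∏ i ∈ A, f i (ω i)) = ∏ i ∈ A, Ex (f i) := by
  classical
  have h0 : (Fintype.card Ω : ℝ) ≠ 0 := by exact_mod_cast Fintype.card_ne_zero
  have h1 : ∀ ω : ι → Ω, ∏ i ∈ A, f i (ω i) = ∏ i, (if i ∈ A then f i (ω i) else 1) := by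
    intro ω
    rw [Finset.prod_ite_mem, univ_inter]
  have h2 : ∏ i ∈ A, Ex (f i) = ∏ i, (if i ∈ A then Ex (f i) else 1) := by
    rw [Finset.prod_ite_mem, univ_inter]
  rw [h2, Ex_congr h1]
  unfold Ex
  have h3 : ∑ ω : ι → Ω, ∏ i, (if i ∈ A then f i (ω i) else 1) =
      ∏ i, ∑ a : Ω, (if i ∈ A then f i a else 1) := by
    rw [Finset.prod_univ_sum, Fintype.piFinset_univ]
  rw [h3, Fintype.card_fun, Nat.cast_pow, ← Finset.card_univ (α := ι), ← Finset.prod_const,
    ← Finset.prod_div_distrib]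
  refine prod_congr rfl fun i _ => ?_
  split_ifs with h
  · rfl
  · rw [sum_const, card_univ, nsmul_eq_mul, mul_one, div_self h0]

/-- Independence of the coordinates. -/
theorem Pr_pi_forall {ι Ω : Type*} [Fintype ι] [DecidableEq ι] [Fintype Ω] [Nonempty Ω]
    (A : Finset ι) (p : ι → Ω → Prop) :
    Pr (fun ω : ι → Ω => ∀ i ∈ A, p i (ω i)) = ∏ i ∈ A, Pr (p i) := by
  classical
  unfold Pr
  rw [← Ex_pi_prod]
  refine Ex_congr fun ω => ?_
  by_cases h : ∀ i ∈ A, p i (ω i)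
  · rw [if_pos h]
    symm
    refine prod_eq_one fun i hi => ?_
    rw [if_pos (h i hi)]
  · rw [if_neg h]
    push Not at h
    obtain ⟨i, hi, hp⟩ := h
    symm
    exact prod_eq_zero hi (by rw [if_neg hp])

/-- Probability of an event as a quotient of cardinalities. -/
theorem Pr_eq_card {Ω : Type*} [Fintype Ω] (p : Ω → Prop) [DecidablePred p] :
    Pr p = ((univ.filter p).card : ℝ) / Fintype.card Ω := by
  classical
  unfold Pr Ex
  congr 1
  rw [Finset.card_filter]
  push_cast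
  refine sum_congr rfl fun ω _ => ?_
  by_cases h : p ω
  · simp [h]
  · simp [h]

/-- The mean on a product of two spaces. -/
theorem Ex_prod {Ω₁ Ω₂ : Type*} [Fintype Ω₁] [Fintype Ω₂] (f : Ω₁ × Ω₂ → ℝ) :
    Ex f = Ex (fun a => Ex (fun b => f (a, b))) := by
  unfold Ex
  rw [← Finset.sum_div, Fintype.sum_prod_type, Fintype.card_prod, div_div]
  push_cast
  rw [mul_comm]

/-- The mean is invariant under bijections. -/
theorem Ex_equiv {Ω₁ Ω₂ : Type*} [Fintype Ω₁] [Fintype Ω₂] (e : Ω₁ ≃ Ω₂) (f : Ω₂ → ℝ) :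
    Ex (fun a => f (e a)) = Ex f := by
  unfold Ex
  rw [Fintype.card_congr e, e.sum_comp]

theorem Pr_equiv {Ω₁ Ω₂ : Type*} [Fintype Ω₁] [Fintype Ω₂] (e : Ω₁ ≃ Ω₂) (p : Ω₂ → Prop) :
    Pr (fun a => p (e a)) = Pr p := by
  classical
  unfold Pr
  rw [← Ex_equiv e]

/-- The chance that a uniform element of `Fin K` is zero. -/
theorem Pr_fin_zero (K : ℕ) (hK : 0 < K) : Pr (fun a : Fin K => a.val = 0) = 1 / K := by
  classical
  rw [Pr_eq_card, Fintype.card_fin]
  congr 1
  have : (univ.filter fun a : Fin K => a.val = 0) = {⟨0, hK⟩} := by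
    ext a
    simp [Fin.ext_iff]
  rw [this]
  simp

/-- The chance that a uniform element lies in a finset. -/
theorem Pr_mem {Ω : Type*} [Fintype Ω] [DecidableEq Ω] (S : Finset Ω) :
    Pr (fun a : Ω => a ∈ S) = (S.card : ℝ) / Fintype.card Ω := by
  classical
  rw [Pr_eq_card]
  congr 2
  rw [Finset.filter_mem_eq_inter, univ_inter]

end Pool.Agent.PGr
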