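import Pool.Agent.PGr.PRegA

/-!
# PGr, part P, PRegThm: the count 10.6 and the sets `Z0`, `D0`
-/

namespace Pool.Agent.PGr.PR

open Finset

variable {E : Env} {Pn : Plan E} {κ ρ c1 cD cC : ℝ} {b m : ℕ}

theorem n_ge (E : Env) : 3 ≤ E.n := by
  have h1 := E.base.k_pos
  have h2 := E.base.k_lt
  omega

theorem dall_card {n : ℕ} (hn : 3 ≤ n) : (dall n).card = 2 * n := by
  unfold dall
  split_ifs with h
  · rw [Finset.card_erase_of_mem, Finset.card_erase_of_mem, Int.card_Icc]
    · omega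
    · rw [Finset.mem_Icc]; omega
    · rw [Finset.mem_erase, Finset.mem_Icc]; omega
  · rw [Finset.card_erase_of_mem, Int.card_Icc]
    · omega
    · rw [Finset.mem_Icc]; omega

theorem dall_bounds {n : ℕ} {d : ℤ} (hd : d ∈ dall n) : 1 ≤ d ∧ d ≤ 2 * (n : ℤ) + 2 := by
  unfold dall at hd
  split_ifs at hd
  · rw [Finset.mem_erase, Finset.mem_erase, Finset.mem_Icc] at hd
    exact hd.2.2
  · rw [Finset.mem_erase, Finset.mem_Icc] at hd
    omega

/-- vertices: `n = |Bk \ P| + |P| + |Ck|` -/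
theorem card_vertices (hE : E.Ok κ ρ c1) (hP : Pn.Ok κ cD cC b m) :
    (E.Bk \ Pn.P).card + Pn.P.card + E.Ck.card = E.n := by
  have h1 : E.Bk ∪ E.Pk = (E.Bk \ Pn.P) ∪ Pn.P := by
    ext v
    rw [Finset.mem_union, Finset.mem_union, Finset.mem_sdiff]
    constructor
    · rintro (h | h)
      · by_cases h2 : v ∈ Pn.P
        · exact Or.inr h2
        · exact Or.inl ⟨h, h2⟩
      · exact Or.inr (hP.Pk_sub h)
    · rintro (h | h)
      · exact Or.inl h.1
      · have := hP.P_sub h
        rw [Finset.mem_union] at this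
        exact this.symm
  have h2 : (E.Bk ∪ E.Pk).card = (E.Bk \ Pn.P).card + Pn.P.card := by
    rw [h1, Finset.card_union_of_disjoint Finset.sdiff_disjoint]
  have h3 : Disjoint (E.Bk ∪ E.Pk) E.Ck := by
    rw [Finset.disjoint_union_left]
    exact ⟨hE.col.BC, hE.col.CP.symm⟩
  have h4 : (E.Bk ∪ E.Pk) ∪ E.Ck = range E.n := by
    rw [← hE.col.cover]
    ext v; simp only [Finset.mem_union]; tauto
  have h5 := Finset.card_union_of_disjoint h3
  rw [h4, Finset.card_range] at h5
  omega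

/-- edges: `n = 2 |Ck| + |PP|` -/
theorem card_edges (hE : E.Ok κ ρ c1) : 2 * E.Ck.card + E.PP.card = E.n := by
  have hk := E.base.k_lt
  have hn0 : 0 < E.n := by omega
  have hkn : E.k ≤ E.n := by omega
  set X := E.Ck.image (nbm E.n E.k) with hX
  have hXcard : X.card = E.Ck.card := by
    apply Finset.card_image_of_injOn
    intro i hi j hj hij
    have h1 := SC.nbp_nbm hkn (Ck_lt hE hi)
    have h2 := SC.nbp_nbm hkn (Ck_lt hE hj)
    rw [hij] at h1
    exact h1.symm.trans h2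
  have hXmem : ∀ v < E.n, v ∈ X ↔ nbp E.n E.k v ∈ E.Ck := by
    intro v hv
    rw [hX, Finset.mem_image]
    constructor
    · rintro ⟨i, hi, rfl⟩
      rw [SC.nbp_nbm hkn (Ck_lt hE hi)]; exact hi
    · intro h
      exact ⟨_, h, SC.nbm_nbp hkn hv⟩
  have d1 : Disjoint E.Ck X := by
    rw [Finset.disjoint_left]
    intro v hv hvX
    rw [hXmem v (Ck_lt hE hv)] at hvX
    have h1 := (hE.col.nC v hv).1
    rw [Finset.mem_union] at h1
    rcases h1 with h1 | h1
    · exact (Finset.disjoint_left.mp hE.col.BC) h1 hvX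
    · exact (Finset.disjoint_left.mp hE.col.CP) hvX h1
  have d2 : Disjoint (E.Ck ∪ X) E.PP := by
    rw [Finset.disjoint_left]
    intro v hv hvP
    unfold Env.PP at hvP
    rw [Finset.mem_filter] at hvP
    rw [Finset.mem_union] at hv
    rcases hv with hv | hv
    · exact (Finset.disjoint_left.mp hE.col.CP) hv hvP.1
    · rw [hXmem v (Pk_lt hE hvP.1)] at hv
      exact (Finset.disjoint_left.mp hE.col.CP) hv hvP.2
  have hcov : E.Ck ∪ X ∪ E.PP = range E.n := by
    ext v
    rw [Finset.mem_union, Finset.mem_union, Finset.mem_range]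
    constructor
    · rintro ((h | h) | h)
      · exact Ck_lt hE h
      · rw [hX, Finset.mem_image] at h
        obtain ⟨i, -, rfl⟩ := h
        exact SC.nbm_lt hn0 i
      · unfold Env.PP at h
        rw [Finset.mem_filter] at h
        exact Pk_lt hE h.1
    · intro hv
      rw [hXmem v hv]
      by_cases h1 : v ∈ E.Ck
      · exact Or.inl (Or.inl h1)
      by_cases h2 : nbp E.n E.k v ∈ E.Ck
      · exact Or.inl (Or.inr h2)
      right
      have hcv : v ∈ E.Bk ∪ E.Ck ∪ E.Pk := by rw [hE.col.cover, Finset.mem_range]; exact hv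
      have hcw : nbp E.n E.k v ∈ E.Bk ∪ E.Ck ∪ E.Pk := by
        rw [hE.col.cover, Finset.mem_range]; exact SC.nbp_lt hn0 v
      rw [Finset.mem_union, Finset.mem_union] at hcv hcw
      unfold Env.PP
      rw [Finset.mem_filter]
      have h3 : v ∉ E.Bk := fun h => h2 (hE.col.nB v h).1
      have h4 : nbp E.n E.k v ∉ E.Bk := fun h => by
        have h5 := (hE.col.nB _ h).2
        rw [SC.nbm_nbp hkn hv] at h5
        exact h1 h5
      constructor
      · tauto
      · tauto
  have h1 := Finset.card_union_of_disjoint d2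
  rw [hcov, Finset.card_union_of_disjoint d1, hXcard, Finset.card_range] at h1
  omega

open Classical in
/-- the count 10.6: enough unused differences for every `θ` -/
theorem count (hE : E.Ok κ ρ c1) (hP : Pn.Ok κ cD cC b m) (θ : Pn.dat.Om) :
    3 * Pn.It.card + b ≤ (Pn.D0.filter (fun d => ¬ Pn.dat.used θ d)).card := by
  have h1 := card_vertices hE hP
  have h2 := card_edges hE
  -- used differences
  set Us := (E.Bk \ Pn.P).image (fun v => |Pn.dat.lab θ v - anc E.n v|) with hUs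
  have h3 : Us.card ≤ (E.Bk \ Pn.P).card := Finset.card_image_le
  have h4 : dall E.n \ (Pn.UD ∪ Pn.R1 ∪ Us) ⊆ Pn.D0.filter (fun d => ¬ Pn.dat.used θ d) := by
    intro d hd
    rw [Finset.mem_sdiff, Finset.mem_union, not_or] at hd
    rw [Finset.mem_filter]
    refine ⟨?_, ?_⟩
    · unfold Plan.D0
      rw [Finset.mem_sdiff]
      exact ⟨hd.1, hd.2.1⟩
    · rintro ⟨v, hv, hvd⟩
      apply hd.2.2
      rw [hUs, Finset.mem_image]
      exact ⟨v, hv, hvd⟩
  have h5 : (Pn.UD ∪ Pn.R1 ∪ Us).card ≤ Pn.P.card + E.PP.card + Pn.G.card + Pn.R1.card + Us.card := by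
    refine (Finset.card_union_le _ _).trans ?_
    have a1 : (Pn.UD ∪ Pn.R1).card ≤ Pn.UD.card + Pn.R1.card := Finset.card_union_le _ _
    have a2 : Pn.UD.card ≤ Pn.P.card + E.PP.card + Pn.G.card := by
      unfold Plan.UD
      refine (Finset.card_union_le _ _).trans ?_
      have a3 : (Pn.P.image Pn.sp ∪ E.PP.image Pn.ed).card ≤ _ := Finset.card_union_le _ _
      have a4 : (Pn.P.image Pn.sp).card ≤ Pn.P.card := Finset.card_image_le
      have a5 : (E.PP.image Pn.ed).card ≤ E.PP.card := Finset.card_image_le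
      omega
    omega
  have h6 : (dall E.n).card - (Pn.UD ∪ Pn.R1 ∪ Us).card ≤ (dall E.n \ (Pn.UD ∪ Pn.R1 ∪ Us)).card :=
    Finset.le_card_sdiff _ _
  rw [dall_card (n_ge E)] at h6
  have h7 := Finset.card_le_card h4
  have h8 : Pn.It.card = E.Ck.card - (Pn.CR.card + Pn.Ed.card + Pn.Ab.card) := by
    unfold Plan.It
    rw [Finset.card_sdiff_of_subset, Finset.card_union_of_disjoint, Finset.card_union_of_disjoint]
    · exact hP.CR_Ed
    · rw [Finset.disjoint_union_left]; exact ⟨hP.CR_Ab, hP.Ed_Ab⟩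
    · exact Finset.union_subset (Finset.union_subset hP.CR_sub hP.Ed_sub) hP.Ab_sub
  have h9 : Pn.CR.card + Pn.Ed.card + Pn.Ab.card ≤ E.Ck.card := by
    have : (Pn.CR ∪ Pn.Ed ∪ Pn.Ab).card ≤ E.Ck.card :=
      Finset.card_le_card
        (Finset.union_subset (Finset.union_subset hP.CR_sub hP.Ed_sub) hP.Ab_sub)
    rw [Finset.card_union_of_disjoint, Finset.card_union_of_disjoint] at this
    · exact this
    · exact hP.CR_Ed
    · rw [Finset.disjoint_union_left]; exact ⟨hP.CR_Ab, hP.Ed_Ab⟩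
  have c1 := hP.cnt1
  have c2 := hP.cnt2
  omega

theorem Z0_def (Pn : Plan E) (x : ℤ) :
    x ∈ Pn.Z0 ↔ ((E.n : ℤ) < 2 * x ∧ 2 * x < 5 * E.n ∧ unL E.q x ∉ E.Res) := by
  classical
  unfold Plan.Z0
  rw [Finset.mem_filter, Finset.mem_Icc]
  constructor
  · exact fun h => h.2
  · intro h
    refine ⟨?_, h⟩
    omega

theorem PD_res {d : ℤ} (hd : d ∈ E.PD) : unD E.q d ∈ E.Res := by
  classical
  unfold Env.PD at hd
  rw [Finset.mem_filter] at hd
  exact hd.2.2.1

theorem AA_res {d : ℤ} (hd : d ∈ E.AA) : unD E.q d ∈ E.Res := by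
  classical
  unfold Env.AA at hd
  rw [Finset.mem_filter] at hd
  exact hd.2.2.1

theorem D0_mem (hE : E.Ok κ ρ c1) (hP : Pn.Ok κ cD cC b m) (d : ℤ) (h1 : 1 ≤ d)
    (h2 : d ≤ 2 * E.n) (h3 : unD E.q d ∉ E.Res) : d ∈ Pn.D0 := by
  unfold Plan.D0
  rw [Finset.mem_sdiff]
  constructor
  · by_contra hd
    exact h3 (hE.excD d h1 h2 hd)
  · intro hd
    apply h3
    unfold Plan.UD at hd
    rw [Finset.mem_union, Finset.mem_union, Finset.mem_union, Finset.mem_image,
      Finset.mem_image] at hd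
    rcases hd with ((⟨v, hv, rfl⟩ | ⟨v, hv, rfl⟩) | hd) | hd
    · exact PD_res (hP.sp_PD v hv)
    · exact PD_res (hP.ed_PD v hv)
    · have := hP.G_sub hd
      rw [Finset.mem_union] at this
      rcases this with h | h
      · exact PD_res h
      · exact AA_res h
    · exact AA_res (hP.R1_sub hd)

theorem D0_sub (Pn : Plan E) (d : ℤ) (hd : d ∈ Pn.D0) : 1 ≤ d ∧ d ≤ 2 * (E.n : ℤ) + 2 := by
  unfold Plan.D0 at hd
  exact dall_bounds (Finset.mem_sdiff.mp hd).1

end Pool.Agent.PGr.PR
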