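import Mathlib

/-!
# PGr tools: derandomised Chernoff selection

Choose `N` elements one after the other (history = list, newest first); `P` is the invariant of the
history; at every step there is a finite nonempty set of allowed elements in which every `d ∈ D`
is good for at least a fraction `c`. Then there is a run in which every `d` is good for at least
`c N / 2` of the chosen elements, provided `|D| ≤ exp (c N / 8)`.
-/

namespace Pool.Agent.PGr

open Finset

private theorem step_avg {X Y : Type*} (D : Finset Y) (good : X → Y → Prop)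
    [∀ x y, Decidable (good x y)] (c : ℝ) (φ : Y → ℝ) (hφ : ∀ d, 0 ≤ φ d)
    (A : Finset X) (hA : A.Nonempty)
    (h : ∀ d ∈ D, c * A.card ≤ ((A.filter fun x => good x d).card : ℝ)) :
    ∃ x ∈ A, ∑ d ∈ D, φ d * (if good x d then (1 / 2 : ℝ) else 1) ≤
      (1 - c / 2) * ∑ d ∈ D, φ d := by
  by_contra hcon
  push Not at hcon
  have h1 : ∑ _x ∈ A, (1 - c / 2) * ∑ d ∈ D, φ d <
      ∑ x ∈ A, ∑ d ∈ D, φ d * (if good x d then (1 / 2 : ℝ) else 1) :=
    sum_lt_sum_of_nonempty hA hcon
  rw [sum_const, nsmul_eq_mul, sum_comm] at h1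
  have h2 : ∀ d ∈ D, ∑ x ∈ A, φ d * (if good x d then (1 / 2 : ℝ) else 1) ≤
      φ d * ((1 - c / 2) * A.card) := by
    intro d hd
    rw [← mul_sum]
    refine mul_le_mul_of_nonneg_left ?_ (hφ d)
    have e : ∑ x ∈ A, (if good x d then (1 / 2 : ℝ) else 1) =
        A.card - 1 / 2 * ((A.filter fun x => good x d).card : ℝ) := by
      have e1 : ∀ x ∈ A, (if good x d then (1 / 2 : ℝ) else 1) =
          1 - 1 / 2 * (if good x d then (1 : ℝ) else 0) := by
        intro x _
        split_ifs <;> norm_num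
      rw [sum_congr rfl e1, sum_sub_distrib, ← mul_sum, Finset.sum_boole, sum_const,
        nsmul_eq_mul, mul_one]
    rw [e]
    have := h d hd
    linarith
  have h3 := sum_le_sum h2
  rw [← sum_mul] at h3
  linarith [h1, h3, mul_comm (∑ d ∈ D, φ d) ((1 - c / 2) * (A.card : ℝ)),
    mul_assoc (1 - c / 2) (A.card : ℝ) (∑ d ∈ D, φ d),
    mul_left_comm (A.card : ℝ) (1 - c / 2) (∑ d ∈ D, φ d)]

theorem sel_run {X Y : Type*} (D : Finset Y) (good : X → Y → Prop)
    [∀ x y, Decidable (good x y)] (c : ℝ) (hc1 : c ≤ 1) (N : ℕ)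
    (P : List X → Prop) (h0 : P [])
    (hstep : ∀ l : List X, P l → l.length < N → ∃ A : Finset X, A.Nonempty ∧
      (∀ x ∈ A, P (x :: l)) ∧
      ∀ d ∈ D, c * A.card ≤ ((A.filter fun x => good x d).card : ℝ)) :
    ∀ n ≤ N, ∃ l : List X, l.length = n ∧ P l ∧
      ∑ d ∈ D, (1 / 2 : ℝ) ^ (l.countP fun x => good x d) ≤ (1 - c / 2) ^ n * D.card := by
  intro n
  induction n with
  | zero =>
    intro _
    refine ⟨[], rfl, h0, ?_⟩
    simp
  | succ n ih =>
    intro hn
    obtain ⟨l, hl, hP, hs⟩ := ih (by omega)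
    obtain ⟨A, hA, hAP, hAg⟩ := hstep l hP (by omega)
    obtain ⟨x, hx, hx2⟩ := step_avg D good c
      (fun d => (1 / 2 : ℝ) ^ (l.countP fun x => good x d)) (fun d => by positivity) A hA hAg
    refine ⟨x :: l, by simp [hl], hAP x hx, ?_⟩
    have e : ∀ d ∈ D, (1 / 2 : ℝ) ^ ((x :: l).countP fun x => good x d) =
        (1 / 2 : ℝ) ^ (l.countP fun x => good x d) * (if good x d then (1 / 2 : ℝ) else 1) := by
      intro d _
      rw [List.countP_cons]
      by_cases hg : good x d
      · simp [hg, pow_succ]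
      · simp [hg]
    rw [sum_congr rfl e, pow_succ]
    refine hx2.trans ?_
    calc (1 - c / 2) * ∑ d ∈ D, (1 / 2 : ℝ) ^ (l.countP fun x => good x d)
        ≤ (1 - c / 2) * ((1 - c / 2) ^ n * D.card) :=
          mul_le_mul_of_nonneg_left hs (by linarith)
      _ = (1 - c / 2) ^ n * (1 - c / 2) * D.card := by ring

/-- Derandomised Chernoff selection. -/
theorem selection {X Y : Type*} (D : Finset Y) (good : X → Y → Prop)
    [∀ x y, Decidable (good x y)] (c : ℝ) (hc0 : 0 < c) (hc1 : c ≤ 1) (N : ℕ)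
    (hD : (D.card : ℝ) ≤ Real.exp (c * N / 8)) (hN : 0 < N)
    (P : List X → Prop) (h0 : P [])
    (hstep : ∀ l : List X, P l → l.length < N → ∃ A : Finset X, A.Nonempty ∧
      (∀ x ∈ A, P (x :: l)) ∧
      ∀ d ∈ D, c * A.card ≤ ((A.filter fun x => good x d).card : ℝ)) :
    ∃ l : List X, l.length = N ∧ P l ∧
      ∀ d ∈ D, c * N / 2 ≤ ((l.countP fun x => good x d : ℕ) : ℝ) := by
  obtain ⟨l, hl, hP, hs⟩ := sel_run D good c hc1 N P h0 hstep N le_rfl
  refine ⟨l, hl, hP, fun d hd => ?_⟩
  by_contra hcon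
  push Not at hcon
  have hN0 : (0 : ℝ) < N := by exact_mod_cast hN
  have h1 : (1 / 2 : ℝ) ^ (l.countP fun x => good x d) ≤ (1 - c / 2) ^ N * D.card :=
    le_trans (single_le_sum (f := fun d => (1 / 2 : ℝ) ^ (l.countP fun x => good x d))
      (fun d _ => by positivity) hd) hs
  have h2 : (1 / 2 : ℝ) ^ (l.countP fun x => good x d) =
      Real.exp (-(Real.log 2 * (l.countP fun x => good x d : ℕ))) := by
    rw [one_div, inv_pow, Real.exp_neg, mul_comm, Real.exp_nat_mul, Real.exp_log (by norm_num)]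
  have h3 : (1 - c / 2) ^ N ≤ Real.exp (-(c * N / 2)) := by
    have := Real.one_sub_le_exp_neg (c / 2)
    calc (1 - c / 2) ^ N ≤ (Real.exp (-(c / 2))) ^ N := pow_le_pow_left₀ (by linarith) this N
      _ = Real.exp (-(c * N / 2)) := by
          rw [← Real.exp_nat_mul]
          congr 1
          ring
  have h4 : Real.exp (-(Real.log 2 * (l.countP fun x => good x d : ℕ))) ≤
      Real.exp (-(c * N / 2) + c * N / 8) := by
    rw [← h2, Real.exp_add]
    refine h1.trans (mul_le_mul h3 hD (Nat.cast_nonneg _) (Real.exp_pos _).le)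
  rw [Real.exp_le_exp] at h4
  have h5 : Real.log 2 < 0.6931471808 := Real.log_two_lt_d9
  have h6 : (0 : ℝ) < Real.log 2 := Real.log_pos (by norm_num)
  have h7 : Real.log 2 * ((l.countP fun x => good x d : ℕ) : ℝ) < Real.log 2 * (c * N / 2) :=
    mul_lt_mul_of_pos_left hcon h6
  have h8 : 0 < c * N := by positivity
  nlinarith

end Pool.Agent.PGr
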