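import Pool.Agent.PGr.TmpExp

/-!
# PGr tools: the template (robustly matchable bipartite graph)
-/

namespace Pool.Agent.PGr

open Finset

/-- **Template.** Two disjoint sets `X`, `R` of size `2 m`: there are option sets `H z ⊆ X ∪ R`,
`z < 3 m`, of size at least 3 and total size at most `107 m`, such that for every `R' ⊆ R` of size
`m` there is a perfect matching between `{0, ..., 3 m - 1}` and `X ∪ R'` along the option sets. -/
theorem template {α : Type*} [DecidableEq α] (m : ℕ) (hm : 2 ≤ m) (X R : Finset α)
    (hXR : Disjoint X R) (hX : X.card = 2 * m) (hR : R.card = 2 * m) :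
    ∃ H : ℕ → Finset α, (∀ z < 3 * m, H z ⊆ X ∪ R ∧ 3 ≤ (H z).card) ∧
      ∑ z ∈ range (3 * m), (H z).card ≤ 107 * m ∧
      ∀ R' ⊆ R, R'.card = m → ∃ f : ℕ → α, (∀ z < 3 * m, f z ∈ H z) ∧
        Set.InjOn f (Set.Iio (3 * m)) ∧ (range (3 * m)).image f = X ∪ R' := by
  classical
  have hm0 : 0 < 3 * m := by omega
  have : Nonempty (Fin (3 * m)) := ⟨⟨0, hm0⟩⟩
  have : Nonempty ↥X := by
    have : 0 < X.card := by omega
    obtain ⟨x, hx⟩ := card_pos.1 this
    exact ⟨⟨x, hx⟩⟩
  have hXRc : (X ∪ R).card = 4 * m := by
    rw [card_union_of_disjoint hXR, hX, hR]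
    omega
  obtain ⟨p₁, hp₁⟩ := exists_expander ↥(X ∪ R) (Fin (3 * m)) (by
    rw [Fintype.card_coe, Fintype.card_fin, hXRc]
    omega)
  obtain ⟨p₂, hp₂⟩ := exists_expander (Fin (3 * m)) ↥X (by
    rw [Fintype.card_coe, Fintype.card_fin, hX]
    omega)
  rw [Fintype.card_fin] at hp₁
  rw [Fintype.card_coe, hX] at hp₂
  obtain ⟨X₃, hX₃, hX₃c⟩ := exists_subset_card_eq (show 3 ≤ X.card by omega)
  -- the option sets
  set H' : Fin (3 * m) → Finset α := fun z =>
    ((univ.filter fun u : ↥(X ∪ R) => ∃ i, p₁ u i = z).image Subtype.val) ∪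
      ((univ.image (p₂ z)).image Subtype.val) ∪ X₃ with hH'
  have hH'sub : ∀ z, H' z ⊆ X ∪ R := by
    intro z a ha
    simp only [hH', mem_union, mem_image] at ha
    rcases ha with (⟨u, _, rfl⟩ | ⟨u, _, rfl⟩) | ha
    · exact u.2
    · exact mem_union_left _ u.2
    · exact mem_union_left _ (hX₃ ha)
  have hsum : ∑ z, (H' z).card ≤ 107 * m := by
    have h1 : ∀ z, (H' z).card ≤ (univ.filter fun u : ↥(X ∪ R) => ∃ i, p₁ u i = z).card + 14 + 3 := by
      intro z
      simp only [hH']
      refine (card_union_le _ _).trans (Nat.add_le_add ((card_union_le _ _).trans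
        (Nat.add_le_add card_image_le ?_)) hX₃c.le)
      refine card_image_le.trans (card_image_le.trans ?_)
      rw [card_univ, Fintype.card_fin]
    refine (sum_le_sum fun z _ => h1 z).trans ?_
    rw [sum_add_distrib, sum_add_distrib, sum_const, sum_const, card_univ, Fintype.card_fin]
    have h2 : ∑ z : Fin (3 * m), (univ.filter fun u : ↥(X ∪ R) => ∃ i, p₁ u i = z).card ≤
        14 * (4 * m) := by
      simp only [Finset.card_filter]
      rw [sum_comm]
      have h3 : ∀ u ∈ (univ : Finset ↥(X ∪ R)),
          ∑ z : Fin (3 * m), (if ∃ i, p₁ u i = z then 1 else 0) ≤ 14 := by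
        intro u _
        rw [← Finset.card_filter]
        have h4 : (univ.filter fun z => ∃ i, p₁ u i = z) ⊆ univ.image (p₁ u) := by
          intro z hz
          obtain ⟨i, hi⟩ := (mem_filter.1 hz).2
          exact mem_image.2 ⟨i, mem_univ _, hi⟩
        refine (card_le_card h4).trans (card_image_le.trans ?_)
        rw [card_univ, Fintype.card_fin]
      refine (sum_le_sum h3).trans ?_
      rw [sum_const, card_univ, Fintype.card_coe, hXRc, smul_eq_mul]
      omega
    simp only [smul_eq_mul]
    omega
  set H : ℕ → Finset α := fun z => if hz : z < 3 * m then H' ⟨z, hz⟩ else ∅ with hH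
  have hHz : ∀ z : Fin (3 * m), H z = H' z := by
    intro z
    simp only [hH]
    rw [dif_pos z.2]
  refine ⟨H, ?_, ?_, ?_⟩
  · intro z hz
    have e : H z = H' ⟨z, hz⟩ := hHz ⟨z, hz⟩
    rw [e]
    refine ⟨hH'sub _, ?_⟩
    exact hX₃c.symm.le.trans (card_le_card subset_union_right)
  · refine le_trans (le_of_eq ?_) hsum
    rw [Finset.sum_range]
    exact sum_congr rfl fun z _ => by rw [hHz]
  · intro R' hR' hR'c
    have hXR'c : (X ∪ R').card = 3 * m := by
      rw [card_union_of_disjoint (hXR.mono_right hR'), hX, hR'c]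
      omega
    -- Hall
    have hall : ∀ B : Finset (Fin (3 * m)),
        B.card ≤ (B.biUnion fun z => H' z ∩ (X ∪ R')).card := by
      intro B
      by_cases hB : B.card ≤ m
      · have h1 := hp₂ B (by omega)
        refine h1.trans ?_
        rw [← card_image_of_injective (B.biUnion fun u => univ.image (p₂ u))
          Subtype.val_injective]
        refine card_le_card fun a ha => ?_
        obtain ⟨x, hx, rfl⟩ := mem_image.1 ha
        obtain ⟨z, hz, hx2⟩ := mem_biUnion.1 hx
        refine mem_biUnion.2 ⟨z, hz, mem_inter.2 ⟨?_, mem_union_left _ x.2⟩⟩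
        simp only [hH']
        exact mem_union_left _ (mem_union_right _ (mem_image_of_mem _ hx2))
      · by_contra hcon
        push Not at hcon hB
        set NB := B.biUnion fun z => H' z ∩ (X ∪ R') with hNB
        have hNBs : NB ⊆ X ∪ R' := by
          intro a ha
          obtain ⟨z, _, hz⟩ := mem_biUnion.1 ha
          exact (mem_inter.1 hz).2
        have hBle : B.card ≤ 3 * m := by
          have := card_le_univ B
          rwa [Fintype.card_fin] at this
        have h1 : 3 * m - B.card + 1 ≤ ((X ∪ R') \ NB).card := by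
          rw [card_sdiff_of_subset hNBs, hXR'c]
          omega
        obtain ⟨A, hA, hAc⟩ := exists_subset_card_eq h1
        -- the set `A` as a subset of `X ∪ R`
        have hAXR : ∀ a ∈ A, a ∈ X ∪ R := by
          intro a ha
          have h2 := (mem_sdiff.1 (hA ha)).1
          rcases mem_union.1 h2 with h3 | h3
          · exact mem_union_left _ h3
          · exact mem_union_right _ (hR' h3)
        set A' : Finset ↥(X ∪ R) := A.attach.image fun a => ⟨a.1, hAXR a.1 a.2⟩ with hA'
        have hA'c : A'.card = A.card := by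
          rw [hA', card_image_of_injective, card_attach]
          intro a b hab
          simp only [Subtype.mk.injEq] at hab
          exact Subtype.ext hab
        have h4 := hp₁ A' (by rw [hA'c, hAc]; omega)
        have h5 : (A'.biUnion fun u => univ.image (p₁ u)) ⊆ univ \ B := by
          intro z hz
          obtain ⟨u, hu, hz2⟩ := mem_biUnion.1 hz
          obtain ⟨i, _, hi⟩ := mem_image.1 hz2
          rw [mem_sdiff]
          refine ⟨mem_univ _, fun hzB => ?_⟩
          obtain ⟨a, _, ha⟩ := mem_image.1 hu
          have h6 := mem_sdiff.1 (hA a.2)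
          apply h6.2
          rw [hNB, mem_biUnion]
          refine ⟨z, hzB, mem_inter.2 ⟨?_, h6.1⟩⟩
          simp only [hH']
          refine mem_union_left _ (mem_union_left _ (mem_image.2 ⟨u, ?_, ?_⟩))
          · rw [mem_filter]
            exact ⟨mem_univ _, i, hi⟩
          · rw [← ha]
        have h7 := card_le_card h5
        rw [card_sdiff_of_subset (subset_univ _), card_univ, Fintype.card_fin] at h7
        rw [hA'c, hAc] at h4
        omega
    obtain ⟨f, hf, hf2⟩ := (Finset.all_card_le_biUnion_card_iff_exists_injective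
      (fun z => H' z ∩ (X ∪ R'))).1 hall
    obtain ⟨x₀⟩ : Nonempty ↥X := inferInstance
    set F : ℕ → α := fun z => if hz : z < 3 * m then f ⟨z, hz⟩ else x₀ with hF
    have hFz : ∀ z (hz : z < 3 * m), F z = f ⟨z, hz⟩ := by
      intro z hz
      simp only [hF]
      rw [dif_pos hz]
    refine ⟨F, ?_, ?_, ?_⟩
    · intro z hz
      rw [hFz z hz]
      have e : H z = H' ⟨z, hz⟩ := hHz ⟨z, hz⟩
      rw [e]
      exact (mem_inter.1 (hf2 ⟨z, hz⟩)).1
    · intro a ha b hb hab
      rw [Set.mem_Iio] at ha hb
      rw [hFz a ha, hFz b hb] at hab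
      have := hf hab
      simpa using this
    · refine eq_of_subset_of_card_le ?_ ?_
      · intro a ha
        obtain ⟨z, hz, rfl⟩ := mem_image.1 ha
        rw [mem_range] at hz
        rw [hFz z hz]
        exact (mem_inter.1 (hf2 ⟨z, hz⟩)).2
      · rw [hXR'c, card_image_of_injOn, card_range]
        intro a ha b hb hab
        rw [mem_coe, mem_range] at ha hb
        rw [hFz a ha, hFz b hb] at hab
        have := hf hab
        simpa using this

end Pool.Agent.PGr
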