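import Pool.Agent.PGr.Env

/-!
# PGr, part S: existence of the basic numbers (BaseThm)
-/

namespace Pool.Agent.PGr.SS

open Finset

/-- Bertrand: `m` primes in `(x, 2^m x]` -/
theorem exists_primes (m x : ℕ) (hx : 1 ≤ x) :
    ∃ s : Finset ℕ, s.card = m ∧ ∀ p ∈ s, p.Prime ∧ x < p ∧ p ≤ 2 ^ m * x := by
  induction m with
  | zero => exact ⟨∅, by simp, by simp⟩
  | succ m ih =>
    obtain ⟨s, hs, h⟩ := ih
    have hpos : 2 ^ m * x ≠ 0 := by positivity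
    obtain ⟨p, hp, h1, h2⟩ := Nat.exists_prime_lt_and_le_two_mul (2 ^ m * x) hpos
    have hx2 : x ≤ 2 ^ m * x := Nat.le_mul_of_pos_left x (by positivity)
    have hps : p ∉ s := by
      intro hmem
      have := (h p hmem).2.2
      omega
    refine ⟨insert p s, by rw [Finset.card_insert_of_notMem hps, hs], ?_⟩
    intro r hr
    have e : 2 ^ (m + 1) * x = 2 * (2 ^ m * x) := by rw [pow_succ]; ring
    rw [e]
    rcases Finset.mem_insert.mp hr with h3 | h3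
    · rw [h3]; exact ⟨hp, by omega, h2⟩
    · obtain ⟨a, b, c⟩ := h r h3
      exact ⟨a, b, by omega⟩

theorem exists_prime_not_dvd (x N : ℕ) (hx : 1 ≤ x) (hN : 0 < N) (hN' : N < x ^ 17) :
    ∃ p : ℕ, p.Prime ∧ x < p ∧ p ≤ 2 ^ 17 * x ∧ ¬ p ∣ N := by
  obtain ⟨s, hs, h⟩ := exists_primes 17 x hx
  by_contra hcon
  push Not at hcon
  have hall : ∀ p ∈ s, p ∣ N := fun p hp => hcon p (h p hp).1 (h p hp).2.1 (h p hp).2.2
  have h1 : (∏ p ∈ s, p) ∣ N := Finset.prod_primes_dvd N (fun p hp => (h p hp).1.prime) hall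
  have h2 : x ^ 17 ≤ ∏ p ∈ s, p := by
    rw [← hs, ← Finset.prod_const]
    exact Finset.prod_le_prod (fun _ _ => Nat.zero_le _) (fun p hp => (h p hp).2.1.le)
  have h3 := Nat.le_of_dvd hN h1
  omega

theorem aux6 {q : ℕ} (hq17 : 17 < q) : 8 * q ^ 2 + 2 ≤ q ^ 6 := by
  have e : q ^ 6 = q ^ 2 * q ^ 4 := by ring
  have h3 : 9 ≤ q ^ 4 := by
    calc 9 ≤ 17 ^ 4 := by norm_num
      _ ≤ q ^ 4 := Nat.pow_le_pow_left hq17.le 4
  have h4 : 2 ≤ q ^ 2 := by nlinarith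
  have h5 : q ^ 2 * 9 ≤ q ^ 2 * q ^ 4 := Nat.mul_le_mul_left _ h3
  omega

theorem exists_S {n Q : ℕ} (hQ : 0 < Q) (h : 8 * Q + 2 ≤ n) :
    ∃ S, ¬ 3 ∣ S ∧ 2 * Q * (S + 1) + 2 ≤ n ∧ n ≤ 2 * Q * (S + 5) + 2 := by
  obtain ⟨F, hF⟩ : ∃ F, F = (n - 2) / (2 * Q) := ⟨_, rfl⟩
  have hF1 : 2 * Q * F ≤ n - 2 := by rw [hF]; exact Nat.mul_div_le _ _
  have hF2 : n - 2 < 2 * Q * (F + 1) := by
    rw [hF]; exact Nat.lt_mul_div_succ (n - 2) (b := 2 * Q) (by positivity)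
  have hF3 : 4 ≤ F := by
    by_contra hlt
    push Not at hlt
    have h1 : 2 * Q * (F + 1) ≤ 2 * Q * 4 := Nat.mul_le_mul_left _ (by omega)
    omega
  obtain ⟨S, hS1, hS2, hS3⟩ : ∃ S, S + 1 ≤ F ∧ F ≤ S + 2 ∧ ¬ 3 ∣ S := by
    clear hF1 hF2 hF
    by_cases h3 : 3 ∣ F - 1
    · exact ⟨F - 2, by omega, by omega, by omega⟩
    · exact ⟨F - 1, by omega, by omega, h3⟩
  refine ⟨S, hS3, ?_, ?_⟩
  · have h1 : 2 * Q * (S + 1) ≤ 2 * Q * F := Nat.mul_le_mul_left _ hS1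
    omega
  · have h1 : 2 * Q * (F + 1) ≤ 2 * Q * (S + 5) := Nat.mul_le_mul_left _ (by omega)
    omega

theorem exists_B0 (n : ℕ) {Q : ℕ} (hQ : 0 < Q) : ∃ B0, Q ∣ B0 ∧ n ≤ B0 ∧ B0 < n + Q := by
  refine ⟨(n + Q - 1) / Q * Q, Dvd.intro_left _ rfl, ?_, ?_⟩
  · have h1 := Nat.div_add_mod' (n + Q - 1) Q
    have h2 := Nat.mod_lt (n + Q - 1) hQ
    generalize (n + Q - 1) % Q = z at *
    generalize (n + Q - 1) / Q * Q = w at *
    omega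
  · have h1 := Nat.div_add_mod' (n + Q - 1) Q
    generalize (n + Q - 1) % Q = z at *
    generalize (n + Q - 1) / Q * Q = w at *
    omega

theorem base_of_x {n k x : ℕ} (hk : 1 ≤ k) (hk2 : 2 * k < n) (hx1 : n ≤ (x + 1) ^ 8)
    (hx2 : x ^ 8 < n) (hx54 : 2 ^ 54 ≤ x) : ∃ q S B0 : ℕ, Base n k q S B0 := by
  have hxpos : 1 ≤ x + 1 := by omega
  have hN : 0 < k * (n - 2 * k) := Nat.mul_pos hk (by omega)
  have hN' : k * (n - 2 * k) < (x + 1) ^ 17 := by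
    have h1 : k * (n - 2 * k) ≤ n * n := Nat.mul_le_mul (by omega) (by omega)
    have h2 : n * n ≤ (x + 1) ^ 8 * (x + 1) ^ 8 := Nat.mul_le_mul hx1 hx1
    have h3 : (x + 1) ^ 8 * (x + 1) ^ 8 < (x + 1) ^ 17 := by
      rw [← pow_add]; exact Nat.pow_lt_pow_right (by omega) (by norm_num)
    omega
  obtain ⟨q, hq, hxq, hqx, hqN⟩ := exists_prime_not_dvd (x + 1) _ hxpos hN hN'
  have hq17 : 17 < q := by
    have : (2 : ℕ) ^ 54 = 18014398509481984 := by norm_num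
    omega
  have hq8 : n ≤ q ^ 8 := hx1.trans (Nat.pow_le_pow_left hxq.le 8)
  have hq6 : q ^ 6 ≤ n := by
    have h1 : q ≤ 2 ^ 18 * x := by
      have : 2 ^ 17 * (x + 1) ≤ 2 ^ 17 * (2 * x) := Nat.mul_le_mul_left _ (by omega)
      have e : 2 ^ 17 * (2 * x) = 2 ^ 18 * x := by ring
      omega
    have h2 : q ^ 6 ≤ (2 ^ 18 * x) ^ 6 := Nat.pow_le_pow_left h1 6
    have h3 : (2 ^ 18 * x) ^ 6 = (2 ^ 54) ^ 2 * x ^ 6 := by
      rw [mul_pow, ← pow_mul, ← pow_mul]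
    have h4 : (2 ^ 54) ^ 2 * x ^ 6 ≤ x ^ 2 * x ^ 6 :=
      Nat.mul_le_mul_right _ (Nat.pow_le_pow_left hx54 2)
    have h5 : x ^ 2 * x ^ 6 = x ^ 8 := by rw [← pow_add]
    omega
  have hq2 : 0 < q ^ 2 := pow_pos hq.pos 2
  obtain ⟨S, hS3, hSh, hSl⟩ := exists_S (n := n) hq2 ((aux6 hq17).trans hq6)
  obtain ⟨B0, hB1, hB2, hB3⟩ := exists_B0 n hq2
  refine ⟨q, S, B0, ?_⟩
  exact {
    k_pos := hk
    k_lt := hk2
    q_prime := hq
    q_big := hq17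
    q_k := fun h => hqN (h.mul_right _)
    q_nk := fun h => hqN (h.mul_left _)
    q_low := hq8
    q_high := hq6
    S_three := hS3
    S_high := hSh
    S_low := hSl
    B0_dvd := hB1
    B0_low := hB2
    B0_high := hB3 }

theorem baseThm_aux (c : ℕ) (hc : 2 ^ 54 ≤ c) {n k : ℕ} (hn : (c + 1) ^ 8 ≤ n) (hk : 1 ≤ k)
    (hk2 : 2 * k < n) : ∃ q S B0 : ℕ, Base n k q S B0 := by
  have hex : ∃ x, n ≤ x ^ 8 := ⟨n, Nat.le_self_pow (by norm_num) n⟩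
  obtain ⟨x, hx1, hx2⟩ : ∃ x, n ≤ (x + 1) ^ 8 ∧ x ^ 8 < n := by
    have h1 := Nat.find_spec hex
    have h2 : Nat.find hex ≠ 0 := by
      intro h0
      rw [h0] at h1
      omega
    obtain ⟨x, hx⟩ := Nat.exists_eq_succ_of_ne_zero h2
    refine ⟨x, ?_, ?_⟩
    · rw [hx] at h1; exact h1
    · have := Nat.find_min hex (m := x) (by omega)
      omega
  refine base_of_x hk hk2 hx1 hx2 (hc.trans ?_)
  by_contra hlt
  push Not at hlt
  have h1 : (x + 1) ^ 8 ≤ c ^ 8 := Nat.pow_le_pow_left (by omega) 8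
  have h2 : c ^ 8 < (c + 1) ^ 8 := Nat.pow_lt_pow_left (by omega) (by norm_num)
  omega

theorem _root_.Pool.Agent.PGr.baseThm : BaseThm :=
  ⟨(2 ^ 54 + 1) ^ 8, fun _ _ hn hk hk2 => baseThm_aux (2 ^ 54) le_rfl hn hk hk2⟩

end Pool.Agent.PGr.SS
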