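import Pool.Agent.PGr.SCount
import Pool.Agent.PGr.SBase

/-!
# PGr, part S: the facts of sections 2 and 8 in the form used by the other parts

`SS.NS n k i` : none of `i`, `nbp n k i`, `nbm n k i` is special.
* scheme facts for `inVS` vertices: `s_Y_mem, s_Y_res, s_Y_inj, s_Y_ne, s_Y_surj, s_sp_res, s_sp_ne,
  s_sp_hi, s_sp_lo, s_sp_le`; anchors: `s_anc_inj, s_norm, s_norm_bounds`;
* `s_F1, s_F1', s_F2, s_F3`, `s_V`, `s_unit_class`, `s_un_low, s_un_high`, `s_sw`;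
* `baseThm : BaseThm` (SBase).
-/

namespace Pool.Agent.PGr

open Finset

variable {n k q S B0 i j : ℕ}

/-! ## Scheme facts -/

theorem s_Y_mem (hp : Base n k q S B0) (i : ℕ) (θ : ZMod (2 * S)) :
    (B0 : ℤ) ≤ Yl n q S B0 i θ ∧ Yl n q S B0 i θ < B0 + 2 * S * q ^ 2 := SS.Yl_mem hp i θ

theorem s_Y_res (hp : Base n k q S B0) (i : ℕ) (θ : ZMod (2 * S)) :
    ((Yl n q S B0 i θ : ℤ) : ZMod (q ^ 2)) = lam q (un n q i) := SS.Yl_cast hp i θ

theorem s_Y_inj (hp : Base n k q S B0) (i : ℕ) : Function.Injective (Yl n q S B0 i) :=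
  SS.Yl_inj hp i

theorem s_Y_surj (hp : Base n k q S B0) (i : ℕ) {y : ℤ} (h1 : (B0 : ℤ) ≤ y)
    (h2 : y < B0 + 2 * S * q ^ 2)
    (hyc : (y : ZMod (q ^ 2)) = lam q (un n q i)) : ∃ θ : ZMod (2 * S), Yl n q S B0 i θ = y :=
  SS.Yl_surj hp i h1 h2 hyc

theorem s_Y_ne (hp : Base n k q S B0) (hi : inVS n q S B0 i) (hj : inVS n q S B0 j)
    (hu : un n q i = un n q j) (hij : i ≠ j) (θ : ZMod (2 * S)) :
    Yl n q S B0 i θ ≠ Yl n q S B0 j θ := SS.Yl_ne hp hi hj hu hij θ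

/-- all scheme labels are distinct -/
theorem s_Y_ne' (hp : Base n k q S B0) (hi : inVS n q S B0 i) (hj : inVS n q S B0 j)
    (hij : i ≠ j) (θ : ZMod (q ^ 2) → ZMod (2 * S)) :
    Yl n q S B0 i (θ (un n q i)) ≠ Yl n q S B0 j (θ (un n q j)) := SS.Yl_ne' hp hi hj hij θ

theorem s_sp_res (hp : Base n k q S B0) (hi : inVS n q S B0 i) (θ : ZMod (2 * S)) :
    ((|Yl n q S B0 i θ - anc n i| : ℤ) : ZMod (q ^ 2)) = del q (un n q i) :=
  SS.spoke_cast hp hi θ

theorem s_sp_ne (hp : Base n k q S B0) (hi : inVS n q S B0 i) (hj : inVS n q S B0 j)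
    (hu : un n q i = un n q j) (hij : i ≠ j) (θ : ZMod (2 * S)) :
    |Yl n q S B0 i θ - anc n i| ≠ |Yl n q S B0 j θ - anc n j| := SS.spoke_ne hp hi hj hu hij θ

/-- all scheme spokes are distinct -/
theorem s_sp_ne' (hp : Base n k q S B0) (hi : inVS n q S B0 i) (hj : inVS n q S B0 j)
    (hij : i ≠ j) (θ : ZMod (q ^ 2) → ZMod (2 * S)) :
    |Yl n q S B0 i (θ (un n q i)) - anc n i| ≠ |Yl n q S B0 j (θ (un n q j)) - anc n j| :=
  SS.spoke_ne' hp hi hj hij θ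

theorem s_sp_hi (hp : Base n k q S B0) (hi' : inVS n q S B0 i) (h : hi n i = true)
    (θ : ZMod (2 * S)) : Yl n q S B0 i θ < anc n i := SS.sp_hi hp hi' h θ

theorem s_sp_lo (hp : Base n k q S B0) (hi' : inVS n q S B0 i) (h : hi n i = false)
    (θ : ZMod (2 * S)) : anc n i < Yl n q S B0 i θ := SS.sp_lo hp hi' h θ

theorem s_sp_le (hp : Base n k q S B0) (hi' : inVS n q S B0 i) (θ : ZMod (2 * S)) :
    |Yl n q S B0 i θ - anc n i| ≤ 2 * n := SS.sp_le hp hi' θ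

theorem s_anc_inj (hn : 3 ≤ n) (hi : i < n) (hj : j < n) (h : anc n i = anc n j) : i = j :=
  SS.anc_inj hn hi hj h

theorem s_norm (hs : ¬ spec n i) :
    (if hi n i then anc n i else 3 * (n : ℤ) - anc n i) = 3 * (n : ℤ) - (i / 2 : ℕ) :=
  SS.norm_anc hs

theorem s_norm_bounds (hi' : i < n) (hs : ¬ spec n i) :
    5 * (n : ℤ) ≤ 2 * (if hi n i then anc n i else 3 * (n : ℤ) - anc n i) ∧
      (if hi n i then anc n i else 3 * (n : ℤ) - anc n i) ≤ 3 * n :=
  SS.norm_anc_bounds hi' hs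

/-- unit of a low vertex in terms of the residue of its `idx` -/
theorem s_un_low (hp : Base n k q S B0) (h : i % 2 = 0) (u : ZMod (q ^ 2)) :
    un n q i = u ↔ i / 2 % q ^ 2 = u.val := SS.un_eq_iff_low hp h u

/-- unit of a high vertex in terms of the residue of its `idx` -/
theorem s_un_high (hp : Base n k q S B0) (h : i % 2 ≠ 0) (hs : ¬ spec n i)
    (u : ZMod (q ^ 2)) : un n q i = u ↔ i / 2 % q ^ 2 = rr n q u := SS.un_eq_iff_high hp h hs u

theorem s_rr_lt (hp : Base n k q S B0) (u : ZMod (q ^ 2)) : rr n q u < q ^ 2 := SS.rr_lt hp u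

/-- two vertices of the same parity have the same unit iff their `idx` are congruent -/
theorem s_unit_class (hp : Base n k q S B0) (hi : ¬ spec n i) (hj : ¬ spec n j)
    (hij : i % 2 = j % 2) : un n q i = un n q j ↔ i / 2 % q ^ 2 = j / 2 % q ^ 2 := by
  by_cases h : i % 2 = 0
  · rw [s_un_low hp h]
    rw [(s_un_low hp (hij ▸ h) (un n q j)).mp rfl]
  · rw [s_un_high hp h hi]
    rw [(s_un_high hp (hij ▸ h) hj (un n q j)).mp rfl]

open Classical in
/-- few vertices are outside `V_s` -/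
theorem s_V (hp : Base n k q S B0) :
    ((range n).filter (fun i => ¬ inVS n q S B0 i)).card ≤ 20 * q ^ 2 :=
  (SS.card_not_inVS hp).trans (Nat.mul_le_mul_right _ (by norm_num))

/-! ## The counts of section 8 -/

/-- the combination of an item with the scheme classes of its neighbours -/
noncomputable def cmbS (n k q : ℕ) (j : Fin 10) (i : ℕ) : ZMod (q ^ 2) :=
  comb j ((anc n i : ℤ) : ZMod (q ^ 2)) (cls0 n q (nbp n k i)) (cls0 n q (nbm n k i))

theorem cmbS_eq (j : Fin 10) (i : ℕ) : cmbS n k q j i = SS.cmb0 n k q true j i := rfl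

open Classical in
theorem s_F1 (hp : Base n k q S B0) (j : Fin 10) (hj : j ≠ 7) (v : ZMod (q ^ 2)) :
    (((range n).filter (fun i => SS.NS n k i ∧ cmbS n k q j i = v)).card : ℝ)
      ≤ 12 * ((n : ℝ) / (q : ℝ) ^ 2 + 1) := by
  have h := SS.card_cmb0_eq' hp true j hj v
  have hq0 : (0 : ℝ) < (q : ℝ) ^ 2 := by have := hp.q_prime.pos; positivity
  have h2 : (n : ℝ) / (2 * (q : ℝ) ^ 2) ≤ (n : ℝ) / (q : ℝ) ^ 2 :=
    div_le_div_of_nonneg_left (by positivity) hq0 (by linarith)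
  have h3 : (0 : ℝ) ≤ (n : ℝ) / (q : ℝ) ^ 2 := by positivity
  simp only [cmbS_eq]
  calc _ ≤ 6 * ((n : ℝ) / (2 * (q : ℝ) ^ 2) + 1) := h
    _ ≤ 12 * ((n : ℝ) / (q : ℝ) ^ 2 + 1) := by linarith

open Classical in
theorem s_F1' (hp : Base n k q S B0) (j : Fin 10) (v : ZMod (q ^ 2)) :
    (((range n).filter (fun i => SS.NS n k i ∧ cmbS n k q j i = v)).card : ℝ)
      ≤ 3 * (n : ℝ) / q + 6 := by
  have h := SS.card_cmb0_eq hp true j v
  have hq0 : (0 : ℝ) < (q : ℝ) := by exact_mod_cast hp.q_prime.pos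
  simp only [cmbS_eq]
  calc _ ≤ 6 * ((n : ℝ) / (2 * q) + 1) := h
    _ = 3 * (n : ℝ) / q + 6 := by field_simp; ring

open Classical in
theorem s_F2 (hp : Base n k q S B0) (j : Fin 10) (e w : ZMod (q ^ 2)) (he : e = 1 ∨ e = -1)
    (R : Finset (ZMod (q ^ 2))) {κ : ℝ} (hκ : 0 ≤ κ) (h1 : (R.card : ℝ) ≤ κ * (q : ℝ) ^ 2)
    (h2 : ∀ r : ZMod q, ((R.filter (fun u => red q u = r)).card : ℝ) ≤ κ * q) :
    (((range n).filter (fun i => SS.NS n k i ∧ (lamI q (e * cmbS n k q j i + w) ∈ R ∨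
      delI q (e * cmbS n k q j i + w) ∈ R))).card : ℝ) ≤ 18 * κ * n := by
  have h := SS.card_cmb0_mem hp true j e w he R hκ h1 h2
  simp only [cmbS_eq]
  have hq : (q : ℝ) ^ 2 ≤ n := by
    have h3 : q ^ 2 ≤ q ^ 6 := Nat.pow_le_pow_right hp.q_prime.pos (by norm_num)
    have h4 := hp.q_high
    exact_mod_cast h3.trans h4
  calc _ ≤ 12 * (κ * ((n : ℝ) / 2 + (q : ℝ) ^ 2)) := h
    _ ≤ 12 * (κ * ((n : ℝ) / 2 + n)) := by gcongr
    _ = 18 * κ * n := by ring

open Classical in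
theorem s_F3 (hp : Base n k q S B0) :
    (((range n).filter (fun i => SS.NS n k i ∧ ¬ SS.GenI n k q i)).card : ℝ)
      ≤ 9 * (n : ℝ) / q + 18 := by
  have h := SS.card_not_gen hp
  have hq0 : (0 : ℝ) < (q : ℝ) := by exact_mod_cast hp.q_prime.pos
  calc _ ≤ 6 * (3 * ((n : ℝ) / (2 * q) + 1)) := h
    _ = 9 * (n : ℝ) / q + 18 := by field_simp; ring

/-- (SW) an interval `[x, y)` of idx on which the high vertices form one family: the combinations
8 and 9 (all except 7) are bijective functions of idx mod `Q`. -/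
theorem s_sw (hp : Base n k q S B0) (hn : 100 ≤ n) : ∃ x y : ℕ, 21 * n ≤ 100 * x ∧ 100 * y ≤ 44 * n ∧
    n ≤ 20 * (y - x) ∧ ∀ j : Fin 10, j ≠ 7 → ∀ v : ZMod (q ^ 2), ∃ r < q ^ 2, ∀ i < n, i % 2 = 1 →
      SS.NS n k i → x ≤ i / 2 → i / 2 < y → (cmbS n k q j i = v ↔ i / 2 % q ^ 2 = r) := by
  have hNZ : NeZero (q ^ 2) := ⟨hp.q2pos.ne'⟩
  have hk := hp.k_lt
  -- the statement for a constant family
  have main : ∀ (t : ℕ) (x y : ℕ), (∀ i < n, i % 2 = 1 → x ≤ i / 2 → i / 2 < y →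
      SS.fkey n k i = (1, t)) → ∀ j : Fin 10, j ≠ 7 → ∀ v : ZMod (q ^ 2), ∃ r < q ^ 2, ∀ i < n,
      i % 2 = 1 → SS.NS n k i → x ≤ i / 2 → i / 2 < y →
      (cmbS n k q j i = v ↔ i / 2 % q ^ 2 = r) := by
    intro t x y hkey j hj v
    have hinj := SS.Fm_inj hp j hj 1 (SS.sgn n k true t) (SS.sgn n k (!true) t)
    have hbij : Function.Bijective (SS.Fm n q j 1 (SS.sgn n k true t) (SS.sgn n k (!true) t)) :=
      Finite.injective_iff_bijective.mp hinj
    obtain ⟨u, hu⟩ := hbij.2 v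
    refine ⟨u.val, ZMod.val_lt u, ?_⟩
    intro i hin hodd hNS hx hy
    have h1 := SS.cmb0_eq hp hin hNS true j
    rw [hkey i hin hodd hx hy] at h1
    rw [cmbS_eq, h1, ← hu]
    constructor
    · intro h
      have h2 := hinj h
      rw [← h2, ZMod.val_natCast]
    · intro h
      rw [← ZMod.natCast_zmod_val u, ← h, ZMod.natCast_mod]
  by_cases hc : 100 * k ≤ 34 * n
  · refine ⟨21 * n / 100 + 1, 30 * n / 100, by omega, by omega, by omega, main 0 _ _ ?_⟩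
    intro i hin hodd hx hy
    unfold SS.fkey
    rw [if_neg (by omega), if_neg (by omega), hodd]
  · refine ⟨34 * n / 100 + 1, 42 * n / 100, by omega, by omega, by omega, main 1 _ _ ?_⟩
    intro i hin hodd hx hy
    unfold SS.fkey
    rw [if_pos (by omega), hodd]

end Pool.Agent.PGr
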