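import Pool.Agent.PGr.PBase
import Pool.Agent.PGr.SApi

/-!
# PGr, part P, completion: basic facts about the labels of a plan
-/

noncomputable section

namespace Pool.Agent.PGr

open Finset

/-! ### The neighbours -/

namespace PC

theorem nbp_val {n k i : ℕ} (hi : i < n) (hk : 2 * k < n) :
    nbp n k i = if i + k < n then i + k else i + k - n := by
  unfold nbp
  split_ifs with h
  · exact Nat.mod_eq_of_lt h
  · rw [Nat.mod_eq_sub_mod (by omega)]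
    exact Nat.mod_eq_of_lt (by omega)

theorem nbm_val {n k i : ℕ} (hi : i < n) (hk : 2 * k < n) :
    nbm n k i = if k ≤ i then i - k else i + n - k := by
  unfold nbm
  split_ifs with h
  · rw [Nat.mod_eq_sub_mod (by omega)]
    rw [Nat.mod_eq_of_lt (by omega)]
    omega
  · rw [Nat.mod_eq_of_lt (by omega)]
    omega

theorem nbp_lt {n k : ℕ} (hk : 2 * k < n) (i : ℕ) : nbp n k i < n := Nat.mod_lt _ (by omega)

theorem nbm_lt {n k : ℕ} (hk : 2 * k < n) (i : ℕ) : nbm n k i < n := Nat.mod_lt _ (by omega)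

theorem nbm_nbp {n k i : ℕ} (hi : i < n) (hk : 2 * k < n) : nbm n k (nbp n k i) = i := by
  rw [nbm_val (nbp_lt hk i) hk, nbp_val hi hk]
  split_ifs <;> omega

theorem nbp_nbm {n k i : ℕ} (hi : i < n) (hk : 2 * k < n) : nbp n k (nbm n k i) = i := by
  rw [nbp_val (nbm_lt hk i) hk, nbm_val hi hk]
  split_ifs <;> omega

theorem nbp_ne_nbm {n k i : ℕ} (hi : i < n) (hk1 : 1 ≤ k) (hk : 2 * k < n) :
    nbp n k i ≠ nbm n k i := by
  rw [nbp_val hi hk, nbm_val hi hk]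
  split_ifs <;> omega

theorem nbp_ne {n k i : ℕ} (hi : i < n) (hk1 : 1 ≤ k) (hk : 2 * k < n) : nbp n k i ≠ i := by
  rw [nbp_val hi hk]
  split_ifs <;> omega

theorem nbp_inj {n k i j : ℕ} (hi : i < n) (hj : j < n) (hk : 2 * k < n)
    (h : nbp n k i = nbp n k j) : i = j := by
  rw [← nbm_nbp hi hk, ← nbm_nbp hj hk, h]

theorem nbm_inj {n k i j : ℕ} (hi : i < n) (hj : j < n) (hk : 2 * k < n)
    (h : nbm n k i = nbm n k j) : i = j := by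
  rw [← nbp_nbm hi hk, ← nbp_nbm hj hk, h]

/-! ### Vertices -/

variable {E : Env} {Pn : Plan E} {κ ρ c1 κ' cD cC : ℝ} {b m : ℕ}

theorem hk (E : Env) : 2 * E.k < E.n := E.base.k_lt

theorem n_pos (E : Env) : 0 < E.n := by have := hk E; omega

theorem mem_cases (hE : E.Ok κ ρ c1) {i : ℕ} (hi : i < E.n) :
    i ∈ E.Bk ∨ i ∈ E.Ck ∨ i ∈ E.Pk := by
  have h : i ∈ E.Bk ∪ E.Ck ∪ E.Pk := by rw [hE.col.cover]; exact mem_range.2 hi
  simp only [mem_union] at h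
  tauto

theorem lt_B (hE : E.Ok κ ρ c1) {i : ℕ} (hi : i ∈ E.Bk) : i < E.n := by
  have h : i ∈ E.Bk ∪ E.Ck ∪ E.Pk := mem_union_left _ (mem_union_left _ hi)
  rw [hE.col.cover] at h
  exact mem_range.1 h

theorem lt_C (hE : E.Ok κ ρ c1) {i : ℕ} (hi : i ∈ E.Ck) : i < E.n := by
  have h : i ∈ E.Bk ∪ E.Ck ∪ E.Pk := mem_union_left _ (mem_union_right _ hi)
  rw [hE.col.cover] at h
  exact mem_range.1 h

theorem lt_Pk (hE : E.Ok κ ρ c1) {i : ℕ} (hi : i ∈ E.Pk) : i < E.n := by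
  have h : i ∈ E.Bk ∪ E.Ck ∪ E.Pk := mem_union_right _ hi
  rw [hE.col.cover] at h
  exact mem_range.1 h

theorem lt_P (hE : E.Ok κ ρ c1) (hP : Pn.Ok κ' cD cC b m) {i : ℕ} (hi : i ∈ Pn.P) : i < E.n := by
  rcases mem_union.1 (hP.P_sub hi) with h | h
  · exact lt_Pk hE h
  · exact lt_B hE h

/-- the scheme vertices -/
theorem Sv_eq : Pn.dat.Sv = E.Bk \ Pn.P := rfl

theorem lt_Sv (hE : E.Ok κ ρ c1) {i : ℕ} (hi : i ∈ E.Bk \ Pn.P) : i < E.n :=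
  lt_B hE (mem_sdiff.1 hi).1

theorem P_not_C (hE : E.Ok κ ρ c1) (hP : Pn.Ok κ' cD cC b m) {i : ℕ} (hi : i ∈ Pn.P) :
    i ∉ E.Ck := by
  rcases mem_union.1 (hP.P_sub hi) with h | h
  · exact fun h2 => disjoint_left.1 hE.col.CP h2 h
  · exact fun h2 => disjoint_left.1 hE.col.BC h h2

theorem Sv_not_C (hE : E.Ok κ ρ c1) {i : ℕ} (hi : i ∈ E.Bk \ Pn.P) : i ∉ E.Ck :=
  fun h2 => disjoint_left.1 hE.col.BC (mem_sdiff.1 hi).1 h2

/-- every vertex is a scheme vertex, a planted vertex or an item -/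
theorem cases3 (hE : E.Ok κ ρ c1) (hP : Pn.Ok κ' cD cC b m) {i : ℕ} (hi : i < E.n) :
    i ∈ E.Bk \ Pn.P ∨ i ∈ Pn.P ∨ i ∈ E.Ck := by
  by_cases h : i ∈ Pn.P
  · exact Or.inr (Or.inl h)
  · rcases mem_cases hE hi with h1 | h1 | h1
    · exact Or.inl (mem_sdiff.2 ⟨h1, h⟩)
    · exact Or.inr (Or.inr h1)
    · exact absurd (hP.Pk_sub h1) h

theorem nb_C (hE : E.Ok κ ρ c1) (hP : Pn.Ok κ' cD cC b m) {i : ℕ} (hi : i ∈ E.Ck) :
    (nbp E.n E.k i ∈ E.Bk \ Pn.P ∨ nbp E.n E.k i ∈ Pn.P) ∧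
      (nbm E.n E.k i ∈ E.Bk \ Pn.P ∨ nbm E.n E.k i ∈ Pn.P) := by
  have h := hE.col.nC i hi
  constructor
  · by_cases h1 : nbp E.n E.k i ∈ Pn.P
    · exact Or.inr h1
    · rcases mem_union.1 h.1 with h2 | h2
      · exact Or.inl (mem_sdiff.2 ⟨h2, h1⟩)
      · exact absurd (hP.Pk_sub h2) h1
  · by_cases h1 : nbm E.n E.k i ∈ Pn.P
    · exact Or.inr h1
    · rcases mem_union.1 h.2 with h2 | h2
      · exact Or.inl (mem_sdiff.2 ⟨h2, h1⟩)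
      · exact absurd (hP.Pk_sub h2) h1

/-- items are not special -/
theorem C_not_spec (hE : E.Ok κ ρ c1) {i : ℕ} (hi : i ∈ E.Ck) : ¬ spec E.n i := by
  rintro ⟨h1, h2⟩
  have h3 := hE.col.special h1
  have h4 : i = E.n - 1 := by omega
  exact disjoint_left.1 hE.col.CP hi (h4 ▸ h3)

/-- the set of all vertices which are not items -/
theorem range_eq (hE : E.Ok κ ρ c1) (hP : Pn.Ok κ' cD cC b m) :
    range E.n = ((E.Bk \ Pn.P) ∪ Pn.P) ∪ E.Ck := by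
  ext i
  rw [mem_range, mem_union, mem_union]
  constructor
  · intro hi
    rcases cases3 hE hP hi with h | h | h
    · exact Or.inl (Or.inl h)
    · exact Or.inl (Or.inr h)
    · exact Or.inr h
  · rintro ((h | h) | h)
    · exact lt_Sv hE h
    · exact lt_P hE hP h
    · exact lt_C hE h

/-! ### Labels of the vertices which are not items -/

theorem inVS_Sv (hP : Pn.Ok κ' cD cC b m) {v : ℕ} (hv : v ∈ E.Bk \ Pn.P) :
    inVS E.n E.q E.S E.B0 v := by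
  classical
  rw [mem_sdiff] at hv
  have h := hP.B_vs v hv.1 hv.2
  unfold Env.B1 at h
  rw [mem_filter] at h
  exact h.2

theorem lab_Sv {θ : Pn.dat.Om} {v : ℕ} (hv : v ∈ E.Bk \ Pn.P) :
    Pn.dat.lab θ v = Yl E.n E.q E.S E.B0 v (Pn.dat.sh θ (un E.n E.q v)) := by
  unfold Dat.lab
  rw [if_pos (show v ∈ Pn.dat.Sv from hv)]
  rfl

theorem lab_P {θ : Pn.dat.Om} {v : ℕ} (hv : v ∈ Pn.P) : Pn.dat.lab θ v = Pn.pl v := by
  unfold Dat.lab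
  rw [if_neg]
  · rfl
  · intro h
    rw [Sv_eq, mem_sdiff] at h
    exact h.2 hv

theorem sh_res {θ : Pn.dat.Om} {u : ZMod (E.q ^ 2)} (hu : u ∈ E.Res) :
    Pn.dat.sh θ u = E.th0 u := by
  unfold Dat.sh
  exact if_pos hu

theorem unL_Sv (hP : Pn.Ok κ' cD cC b m) {θ : Pn.dat.Om} {v : ℕ} (hv : v ∈ E.Bk \ Pn.P) :
    unL E.q (Pn.dat.lab θ v) = un E.n E.q v := by
  rw [lab_Sv hv]
  unfold unL
  rw [s_Y_res E.base, SS.lamI_lam E.base.q_prime E.base.q_big]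

theorem unD_Sv (hP : Pn.Ok κ' cD cC b m) {θ : Pn.dat.Om} {v : ℕ} (hv : v ∈ E.Bk \ Pn.P) :
    unD E.q |Pn.dat.lab θ v - anc E.n v| = un E.n E.q v := by
  rw [lab_Sv hv]
  unfold unD
  rw [s_sp_res E.base (inVS_Sv hP hv), SS.delI_del]

theorem lab_Sv_y0 (hP : Pn.Ok κ' cD cC b m) {θ : Pn.dat.Om} {v : ℕ} (hv : v ∈ E.Bk \ Pn.P)
    (hu : un E.n E.q v ∈ E.Res) : Pn.dat.lab θ v = E.y0 v := by
  rw [lab_Sv hv, sh_res hu]
  rfl

theorem lab_Sv_range {θ : Pn.dat.Om} {v : ℕ} (hv : v ∈ E.Bk \ Pn.P) :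
    (E.n : ℤ) ≤ Pn.dat.lab θ v ∧ Pn.dat.lab θ v + 3 ≤ 2 * E.n := by
  rw [lab_Sv hv]
  exact ⟨SS.Yl_ge E.base v _, by
    have := (SS.Yl_mem E.base v (Pn.dat.sh θ (un E.n E.q v))).2
    have h2 := E.base.B0_add_le
    have h3 : ((E.B0 + 2 * (E.q ^ 2 * E.S) + 3 : ℕ) : ℤ) ≤ ((2 * E.n : ℕ) : ℤ) := by
      exact_mod_cast h2
    push_cast at h3
    linarith⟩

theorem lab_Sv_zall (hE : E.Ok κ ρ c1) (hP : Pn.Ok κ' cD cC b m) {θ : Pn.dat.Om} {v : ℕ}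
    (hv : v ∈ E.Bk \ Pn.P) : Pn.dat.lab θ v ∈ zall E.n := by
  by_cases hu : un E.n E.q v ∈ E.Res
  · rw [lab_Sv_y0 hP hv hu]
    have hv' := mem_sdiff.1 hv
    exact (hP.own v (hP.B_vs v hv'.1 hv'.2) hv'.2 hu).1
  · by_contra hcon
    apply hu
    rw [← unL_Sv hP (θ := θ) hv]
    have h := lab_Sv_range (θ := θ) hv
    have hn := n_pos E
    exact hE.excL _ (by omega) (by omega) hcon

theorem spoke_range (hP : Pn.Ok κ' cD cC b m) {θ : Pn.dat.Om} {v : ℕ}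
    (hv : v ∈ E.Bk \ Pn.P) : 1 ≤ |Pn.dat.lab θ v - anc E.n v| ∧
      |Pn.dat.lab θ v - anc E.n v| ≤ 2 * E.n := by
  have h1 := inVS_Sv hP hv
  rw [lab_Sv hv]
  refine ⟨?_, s_sp_le E.base h1 _⟩
  have h2 : Yl E.n E.q E.S E.B0 v (Pn.dat.sh θ (un E.n E.q v)) - anc E.n v ≠ 0 := by
    cases hb : hi E.n v with
    | true =>
      have := s_sp_hi E.base h1 hb (Pn.dat.sh θ (un E.n E.q v))
      omega
    | false =>
      have := s_sp_lo E.base h1 hb (Pn.dat.sh θ (un E.n E.q v))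
      omega
  exact Int.one_le_abs h2

theorem spoke_dall (hE : E.Ok κ ρ c1) (hP : Pn.Ok κ' cD cC b m) {θ : Pn.dat.Om} {v : ℕ}
    (hv : v ∈ E.Bk \ Pn.P) : |Pn.dat.lab θ v - anc E.n v| ∈ dall E.n := by
  by_cases hu : un E.n E.q v ∈ E.Res
  · rw [lab_Sv_y0 hP hv hu]
    have hv' := mem_sdiff.1 hv
    exact (hP.own v (hP.B_vs v hv'.1 hv'.2) hv'.2 hu).2
  · by_contra hcon
    apply hu
    rw [← unD_Sv hP (θ := θ) hv]
    have h := spoke_range hP (θ := θ) hv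
    exact hE.excD _ h.1 h.2 hcon

theorem PL_prop {x : ℤ} (hx : x ∈ E.PL) :
    x ∈ zall E.n ∧ unL E.q x ∈ E.Res ∧ ¬ E.occ0 x ∧ E.bL x = true := by
  classical
  unfold Env.PL at hx
  rw [mem_filter] at hx
  exact hx

theorem PD_prop {d : ℤ} (hd : d ∈ E.PD) :
    d ∈ dall E.n ∧ d ≤ 2 * E.n ∧ unD E.q d ∈ E.Res ∧ ¬ E.use0 d ∧ E.bD d = true := by
  classical
  unfold Env.PD at hd
  rw [mem_filter] at hd
  exact hd

theorem LAM_prop {x : ℤ} (hx : x ∈ E.LAM) :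
    x ∈ zall E.n ∧ unL E.q x ∈ E.Res ∧ E.bL x = false ∧
      (inI E.n (505 / 1000) (99 / 100) x ∨ inI E.n (201 / 100) (2495 / 1000) x) := by
  classical
  unfold Env.LAM at hx
  rw [mem_filter] at hx
  exact hx

theorem AA_prop {d : ℤ} (hd : d ∈ E.AA) :
    d ∈ dall E.n ∧ inI E.n (1 / 10) (13 / 10) d ∧ unD E.q d ∈ E.Res ∧ ¬ E.use0 d ∧
      E.bD d = false ∧ gd E.n E.k E.q d := by
  classical
  unfold Env.AA at hd
  rw [mem_filter] at hd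
  exact hd

theorem PL_LAM {x : ℤ} (hx : x ∈ E.PL) (hx' : x ∈ E.LAM) : False := by
  have h1 := (PL_prop hx).2.2.2
  have h2 := (LAM_prop hx').2.2.1
  rw [h1] at h2
  exact absurd h2 (by decide)

theorem PD_AA {d : ℤ} (hd : d ∈ E.PD) (hd' : d ∈ E.AA) : False := by
  have h1 := (PD_prop hd).2.2.2.2
  have h2 := (AA_prop hd').2.2.2.2.1
  rw [h1] at h2
  exact absurd h2 (by decide)

theorem lab_Sv_PL (hP : Pn.Ok κ' cD cC b m) {θ : Pn.dat.Om} {v : ℕ} (hv : v ∈ E.Bk \ Pn.P)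
    (hx : Pn.dat.lab θ v ∈ E.PL) : False := by
  have h1 := PL_prop hx
  rw [unL_Sv hP hv] at h1
  apply h1.2.2.1
  have hv' := mem_sdiff.1 hv
  exact ⟨v, hP.B_vs v hv'.1 hv'.2, (lab_Sv_y0 hP hv h1.2.1).symm⟩

theorem lab_Sv_LAM {θ : Pn.dat.Om} {v : ℕ} (hv : v ∈ E.Bk \ Pn.P)
    (hx : Pn.dat.lab θ v ∈ E.LAM) : False := by
  have h1 := (LAM_prop hx).2.2.2
  have h2 := lab_Sv_range (θ := θ) hv
  have hn : (0 : ℝ) < E.n := by exact_mod_cast n_pos E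
  have h3 : ((E.n : ℕ) : ℝ) ≤ (Pn.dat.lab θ v : ℝ) := by exact_mod_cast h2.1
  have h4 : (Pn.dat.lab θ v : ℝ) + 3 ≤ 2 * (E.n : ℝ) := by exact_mod_cast h2.2
  unfold inI at h1
  rcases h1 with ⟨h5, h6⟩ | ⟨h5, h6⟩ <;> linarith

theorem spoke_PD (hP : Pn.Ok κ' cD cC b m) {θ : Pn.dat.Om} {v : ℕ} (hv : v ∈ E.Bk \ Pn.P)
    (hx : |Pn.dat.lab θ v - anc E.n v| ∈ E.PD) : False := by
  have h1 := PD_prop hx
  rw [unD_Sv hP hv] at h1
  apply h1.2.2.2.1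
  have hv' := mem_sdiff.1 hv
  refine ⟨v, hP.B_vs v hv'.1 hv'.2, ?_⟩
  rw [lab_Sv_y0 hP hv h1.2.2.1]

theorem spoke_AA (hP : Pn.Ok κ' cD cC b m) {θ : Pn.dat.Om} {v : ℕ} (hv : v ∈ E.Bk \ Pn.P)
    (hx : |Pn.dat.lab θ v - anc E.n v| ∈ E.AA) : False := by
  have h1 := AA_prop hx
  rw [unD_Sv hP hv] at h1
  apply h1.2.2.2.1
  have hv' := mem_sdiff.1 hv
  refine ⟨v, hP.B_vs v hv'.1 hv'.2, ?_⟩
  rw [lab_Sv_y0 hP hv h1.2.2.1]

/-- all labels of the vertices which are not items are different -/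
theorem lab_inj (hE : E.Ok κ ρ c1) (hP : Pn.Ok κ' cD cC b m) {θ : Pn.dat.Om} {v v' : ℕ}
    (hv : v ∈ E.Bk \ Pn.P ∨ v ∈ Pn.P) (hv' : v' ∈ E.Bk \ Pn.P ∨ v' ∈ Pn.P)
    (h : Pn.dat.lab θ v = Pn.dat.lab θ v') : v = v' := by
  rcases hv with hv | hv <;> rcases hv' with hv' | hv'
  · by_contra hne
    have h1 := inVS_Sv hP hv
    have h2 := inVS_Sv hP hv'
    rw [lab_Sv hv, lab_Sv hv'] at h
    exact s_Y_ne' E.base h1 h2 hne (fun u => Pn.dat.sh θ u) h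
  · exfalso
    rw [lab_P hv'] at h
    have h1 := hP.pl_PL v' hv'
    rw [← h] at h1
    exact lab_Sv_PL hP hv h1
  · exfalso
    rw [lab_P hv] at h
    have h1 := hP.pl_PL v hv
    rw [h] at h1
    exact lab_Sv_PL hP hv' h1
  · rw [lab_P hv, lab_P hv'] at h
    exact hP.pl_inj v hv v' hv' h

/-- all scheme spokes are different -/
theorem spoke_inj (hP : Pn.Ok κ' cD cC b m) {θ : Pn.dat.Om} {v v' : ℕ}
    (hv : v ∈ E.Bk \ Pn.P) (hv' : v' ∈ E.Bk \ Pn.P)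
    (h : |Pn.dat.lab θ v - anc E.n v| = |Pn.dat.lab θ v' - anc E.n v'|) : v = v' := by
  by_contra hne
  have h1 := inVS_Sv hP hv
  have h2 := inVS_Sv hP hv'
  rw [lab_Sv hv, lab_Sv hv'] at h
  exact s_sp_ne' E.base h1 h2 hne (fun u => Pn.dat.sh θ u) h

theorem used_iff {θ : Pn.dat.Om} {d : ℤ} :
    Pn.dat.used θ d ↔ ∃ v ∈ E.Bk \ Pn.P, |Pn.dat.lab θ v - anc E.n v| = d := Iff.rfl

theorem occ_iff {θ : Pn.dat.Om} {x : ℤ} :
    Pn.dat.occ θ x ↔ ∃ v ∈ E.Bk \ Pn.P, Pn.dat.lab θ v = x := Iff.rfl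

/-! ### Labels of the main items -/

theorem Z0_prop {x : ℤ} (hx : x ∈ Pn.dat.Z0) :
    (E.n : ℤ) < 2 * x ∧ 2 * x < 5 * E.n ∧ unL E.q x ∉ E.Res := by
  classical
  have hx' : x ∈ Pn.Z0 := hx
  unfold Plan.Z0 at hx'
  rw [mem_filter] at hx'
  exact hx'.2

theorem Z0_zall (hE : E.Ok κ ρ c1) {x : ℤ} (hx : x ∈ Pn.dat.Z0) : x ∈ zall E.n := by
  have h := Z0_prop hx
  by_contra hcon
  exact h.2.2 (hE.excL x h.1 h.2.1 hcon)

theorem Z0_PL {x : ℤ} (hx : x ∈ Pn.dat.Z0) (hx' : x ∈ E.PL) : False :=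
  (Z0_prop hx).2.2 (PL_prop hx').2.1

theorem Z0_LAM {x : ℤ} (hx : x ∈ Pn.dat.Z0) (hx' : x ∈ E.LAM) : False :=
  (Z0_prop hx).2.2 (LAM_prop hx').2.1

end PC

end Pool.Agent.PGr
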