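import Pool.Agent.PGr.RUnit

/-!
# PGr-R-Mem: good resources lie in the sets PL, LAM, PD, AA of the environment

PLAN. `(C.env ω)` is a structure with explicit fields: `B1` of the environment is `C.B1`
(`rfl`), `th0 u = (ω u).2.1`, `Res ⊇ {u | (ω u).1 = 0}`, `bL x = (ω (unL x)).2.2 (bix true x)`.
`resv` for `(true, x)`: `uOf q true x = unL q x`.
`¬ occ0 x`: if `i ∈ B1` has `y0 i = Yl .. i (th0 (un i)) = x`, then
`x = B0 + Lab + Q * ..` gives `(x : ZMod Q) = lam (un i)` (`q^2 ∣ B0`), so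
`un i = lamI x = unL x` (`lamI (lam u) = u` for q prime > 3, `linear_combination`), hence
`(ω (unL x)).2.1 ∈ C.bad true x`, contradiction.
`¬ use0 d`: if `|y0 i - anc i| = d` for `i ∈ B1`, then `(d : ZMod Q) = del (un i)` so
`un i = delI d = unD d`: low `i`: `d = Yl - anc`, `anc = i/2`, `un i = (i/2 : ZMod Q)`,
`lam u - u = del u`. high `i` (not special because of `inVS`): `d = anc - Yl`,
`(anc : ZMod Q) = hh (un i)` (`hh (hhI x) = x`), `hh u - lam u = del u`. Signs: `Yl ∈ [n, 2n)`,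
low anchors `< n/2 + 1`, high anchors `≥ 5n/2` (see RBad).
`zall_of`, `dall_of`: unfold, `split_ifs`, `simp [mem_erase, mem_Icc]`, `omega` after turning the
real inequalities into integer ones (`exact_mod_cast`, `C.n ≥ q^6 ≥ 10^24`).
-/

namespace Pool.Agent.PGr

open Finset

theorem zall_of (n : ℕ) (hn : 1000 ≤ n) (x : ℤ) (h1 : 505 * (n : ℤ) ≤ 1000 * x)
    (h2 : 1000 * x ≤ 2495 * (n : ℤ)) (h3 : x ≠ 3 * ((n / 2 : ℕ) : ℤ)) : x ∈ zall n := by
  unfold zall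
  split_ifs with hp
  · rw [mem_erase, mem_Icc]
    refine ⟨h3, ?_, ?_⟩ <;> omega
  · rw [mem_Icc]
    refine ⟨?_, ?_⟩ <;> omega

theorem dall_of (n : ℕ) (d : ℤ) (h1 : 1 ≤ d) (h2 : d ≤ 2 * n) (h3 : d ≠ (n : ℤ) + 1)
    (h4 : d ≠ 3 * ((n / 2 : ℕ) : ℤ)) (h5 : d ≠ (((n - 1) / 2 : ℕ) : ℤ)) : d ∈ dall n := by
  unfold dall
  split_ifs with hp
  · rw [mem_erase, mem_erase, mem_Icc]
    exact ⟨h4, h3, h1, by omega⟩
  · rw [mem_erase, mem_Icc]
    exact ⟨h5, h1, by omega⟩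

private theorem qsq_zero (q : ℕ) : ((q : ℕ) : ZMod (q ^ 2)) ^ 2 = 0 := by
  have h := ZMod.natCast_self (q ^ 2)
  rwa [Nat.cast_pow] at h

private theorem inv_mul_one (q c : ℕ) (hq : q.Prime) (hc : 0 < c) (h2 : c < q) :
    ((c : ℕ) : ZMod (q ^ 2)) * ((c : ℕ) : ZMod (q ^ 2))⁻¹ = 1 := by
  apply ZMod.coe_mul_inv_eq_one
  apply Nat.Coprime.pow_right
  exact Nat.Coprime.symm ((Nat.Prime.coprime_iff_not_dvd hq).2 (Nat.not_dvd_of_pos_of_lt hc h2))

private theorem two_inv (q : ℕ) (hq : q.Prime) (h2 : 3 < q) :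
    (2 : ZMod (q ^ 2)) * (2 : ZMod (q ^ 2))⁻¹ = 1 := by
  have := inv_mul_one q 2 hq (by norm_num) (by omega)
  exact_mod_cast this

private theorem three_inv (q : ℕ) (hq : q.Prime) (h2 : 3 < q) :
    (3 : ZMod (q ^ 2)) * (3 : ZMod (q ^ 2))⁻¹ = 1 := by
  have := inv_mul_one q 3 hq (by norm_num) (by omega)
  exact_mod_cast this

private theorem lamI_lam (q : ℕ) (hq : q.Prime) (h2 : 3 < q) (u : ZMod (q ^ 2)) :
    lamI q (lam q u) = u := by
  have hc := two_inv q hq h2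
  have hz := qsq_zero q
  unfold lamI lam
  generalize (2 : ZMod (q ^ 2))⁻¹ = c at hc ⊢
  generalize ((q : ℕ) : ZMod (q ^ 2)) = z at hz ⊢
  linear_combination (u - z * u ^ 2 * c * (2 * c + 1)) * hc
    + (- c ^ 3 * (4 * u ^ 3 + z * u ^ 4)) * hz

private theorem delI_del (q : ℕ) (u : ZMod (q ^ 2)) : delI q (del q u) = u := by
  have hz := qsq_zero q
  unfold delI del
  generalize ((q : ℕ) : ZMod (q ^ 2)) = z at hz ⊢
  linear_combination (- (2 * u ^ 3 + z * u ^ 4)) * hz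

private theorem hh_hhI (q : ℕ) (hq : q.Prime) (h2 : 3 < q) (x : ZMod (q ^ 2)) :
    hh q (hhI q x) = x := by
  have hc := three_inv q hq h2
  have hz := qsq_zero q
  unfold hh hhI
  generalize (3 : ZMod (q ^ 2))⁻¹ = c at hc ⊢
  generalize ((q : ℕ) : ZMod (q ^ 2)) = z at hz ⊢
  linear_combination (x - 2 * z * x ^ 2 * c ^ 2) * hc
    + (2 * (-4 * c ^ 4 * x ^ 3 + 4 * z * c ^ 6 * x ^ 4)) * hz

private theorem Yl_cast (n q S B0 i : ℕ) [NeZero q] (hB : q ^ 2 ∣ B0) (t : ZMod (2 * S)) :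
    ((Yl n q S B0 i t : ℤ) : ZMod (q ^ 2)) = lam q (un n q i) := by
  have : NeZero (q ^ 2) := ⟨pow_ne_zero 2 (NeZero.ne q)⟩
  have hz := qsq_zero q
  have hB' : ((B0 : ℕ) : ZMod (q ^ 2)) = 0 := (ZMod.natCast_eq_zero_iff _ _).2 hB
  unfold Yl Lab
  push_cast
  rw [hB', hz]
  simp

private theorem Yl_bounds (C : RCtx) (i : ℕ) (t : ZMod (2 * C.S)) :
    (C.n : ℤ) ≤ Yl C.n C.q C.S C.B0 i t ∧ Yl C.n C.q C.S C.B0 i t < 2 * C.n := by
  have : NeZero (C.q ^ 2) := ⟨pow_ne_zero 2 (NeZero.ne C.q)⟩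
  have : NeZero (2 * C.S) := ⟨mul_ne_zero two_ne_zero (NeZero.ne C.S)⟩
  have hb := C.base
  have h1 : Lab C.q (un C.n C.q i) < C.q ^ 2 := ZMod.val_lt _
  have h2 : (t + 3 * (sidx C.n C.q C.S C.B0 i : ZMod (2 * C.S))).val < 2 * C.S := ZMod.val_lt _
  unfold Yl
  generalize (t + 3 * (sidx C.n C.q C.S C.B0 i : ZMod (2 * C.S))).val = v at h2 ⊢
  generalize Lab C.q (un C.n C.q i) = w at h1 ⊢
  have h3 := hb.B0_low
  have h4 := hb.B0_high
  have h5 := hb.S_high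
  have h6 : C.q ^ 2 * v + C.q ^ 2 ≤ C.q ^ 2 * (2 * C.S) := by
    have : C.q ^ 2 * v + C.q ^ 2 = C.q ^ 2 * (v + 1) := by ring
    rw [this]
    exact Nat.mul_le_mul_left _ (by omega)
  have h7 : C.q ^ 2 * (2 * C.S) + 2 * C.q ^ 2 + 2 ≤ C.n := by
    calc C.q ^ 2 * (2 * C.S) + 2 * C.q ^ 2 + 2 = 2 * C.q ^ 2 * (C.S + 1) + 2 := by ring
      _ ≤ C.n := h5
  have e : ((C.B0 : ℤ) + (w : ℤ) + (C.q : ℤ) ^ 2 * ((v : ℕ) : ℤ)) =
      ((C.B0 + w + C.q ^ 2 * v : ℕ) : ℤ) := by push_cast; ring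
  rw [e]
  constructor
  · have : C.n ≤ C.B0 + w + C.q ^ 2 * v := by omega
    exact_mod_cast this
  · have : C.B0 + w + C.q ^ 2 * v < 2 * C.n := by omega
    exact_mod_cast this

/-- a used difference of a scheme vertex lies in its unit -/
private theorem un_of_diff (C : RCtx) (i : ℕ) (hi : inVS C.n C.q C.S C.B0 i)
    (t : ZMod (2 * C.S)) :
    un C.n C.q i = unD C.q |Yl C.n C.q C.S C.B0 i t - anc C.n i| := by
  have hb := C.base
  have hq := hb.q_prime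
  have h17 := hb.q_big
  obtain ⟨hin, hi2⟩ := hi
  have hcast := Yl_cast C.n C.q C.S C.B0 i hb.B0_dvd t
  obtain ⟨hY1, hY2⟩ := Yl_bounds C i t
  by_cases hp : i % 2 = 0
  · have ha : anc C.n i = ((i / 2 : ℕ) : ℤ) := by unfold anc; rw [if_pos hp]
    have hu : un C.n C.q i = ((i / 2 : ℕ) : ZMod (C.q ^ 2)) := by unfold un; rw [if_pos hp]
    rw [abs_of_nonneg (by rw [ha]; omega)]
    unfold unD
    have : ((Yl C.n C.q C.S C.B0 i t - anc C.n i : ℤ) : ZMod (C.q ^ 2)) =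
        del C.q (un C.n C.q i) := by
      rw [Int.cast_sub, hcast, ha, Int.cast_natCast, ← hu]
      unfold lam del
      ring
    rw [this, delI_del]
  · rw [if_neg hp] at hi2
    obtain ⟨hs, -, -⟩ := hi2
    have ha : anc C.n i = 3 * (C.n : ℤ) - ((i / 2 : ℕ) : ℤ) := by
      unfold anc
      rw [if_neg hp, if_neg]
      exact hs
    have hu : un C.n C.q i = hhI C.q ((anc C.n i : ℤ) : ZMod (C.q ^ 2)) := by
      unfold un; rw [if_neg hp]
    rw [abs_of_nonpos (by rw [ha]; omega)]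
    unfold unD
    have : ((-(Yl C.n C.q C.S C.B0 i t - anc C.n i) : ℤ) : ZMod (C.q ^ 2)) =
        del C.q (un C.n C.q i) := by
      have h3 : ((anc C.n i : ℤ) : ZMod (C.q ^ 2)) = hh C.q (un C.n C.q i) := by
        rw [hu, hh_hhI C.q hq (by omega)]
      rw [Int.cast_neg, Int.cast_sub, hcast, h3]
      unfold lam del hh
      ring
    rw [this, delI_del]

private theorem not_occ (C : RCtx) (ω : C.Om) (x : ℤ)
    (h : (ω (unL C.q x)).2.1 ∉ C.bad true x) : ¬ (C.env ω).occ0 x := by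
  classical
  rintro ⟨i, hi, hy⟩
  have hi' : i ∈ C.B1 := hi
  have hy' : Yl C.n C.q C.S C.B0 i (ω (un C.n C.q i)).2.1 = x := hy
  have hb := C.base
  have h17 := hb.q_big
  have hu : un C.n C.q i = unL C.q x := by
    have hcast := Yl_cast C.n C.q C.S C.B0 i hb.B0_dvd (ω (un C.n C.q i)).2.1
    rw [hy'] at hcast
    unfold unL
    rw [hcast, lamI_lam C.q hb.q_prime (by omega)]
  apply h
  unfold RCtx.bad
  rw [mem_filter]
  refine ⟨mem_univ _, i, hi', ?_, ?_⟩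
  · rw [hu]; simp [uOf]
  · rw [if_pos rfl, ← hu]
    exact hy'

private theorem not_use (C : RCtx) (ω : C.Om) (d : ℤ)
    (h : (ω (unD C.q d)).2.1 ∉ C.bad false d) : ¬ (C.env ω).use0 d := by
  classical
  rintro ⟨i, hi, hy⟩
  have hi' : i ∈ C.B1 := hi
  have hy' : |Yl C.n C.q C.S C.B0 i (ω (un C.n C.q i)).2.1 - anc C.n i| = d := hy
  have hiv : inVS C.n C.q C.S C.B0 i := (mem_filter.1 hi').2
  have hu : un C.n C.q i = unD C.q d := by
    have := un_of_diff C i hiv (ω (un C.n C.q i)).2.1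
    rwa [hy'] at this
  apply h
  unfold RCtx.bad
  rw [mem_filter]
  refine ⟨mem_univ _, i, hi', ?_, ?_⟩
  · rw [hu]; simp [uOf]
  · rw [if_neg (by simp), ← hu]
    exact hy'

private theorem mem_Res (C : RCtx) (ω : C.Om) (u : ZMod (C.q ^ 2)) (h : (ω u).1 = 0) :
    u ∈ (C.env ω).Res := by
  classical
  show u ∈ univ.filter (fun u => (ω u).1 = 0) ∪ excU C.n C.q
  exact mem_union_left _ (mem_filter.2 ⟨mem_univ _, h⟩)

theorem mem_PL (C : RCtx) (ω : C.Om) (x : ℤ) (hz : x ∈ zall C.n)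
    (h : resv C.q C.K0 C.S C.E C.bad ω true x true) : x ∈ (C.env ω).PL := by
  classical
  obtain ⟨h1, h2, h3⟩ := h
  have e : uOf C.q true x = unL C.q x := by simp [uOf]
  rw [e] at h1 h2 h3
  unfold Env.PL
  rw [mem_filter]
  exact ⟨hz, mem_Res C ω _ h1, not_occ C ω x h2, h3⟩

theorem mem_LAM (C : RCtx) (ω : C.Om) (x : ℤ) (hz : x ∈ zall C.n)
    (hr : inI C.n (505 / 1000) (99 / 100) x ∨ inI C.n (201 / 100) (2495 / 1000) x)
    (h : resv C.q C.K0 C.S C.E C.bad ω true x false) : x ∈ (C.env ω).LAM := by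
  classical
  obtain ⟨h1, h2, h3⟩ := h
  have e : uOf C.q true x = unL C.q x := by simp [uOf]
  rw [e] at h1 h2 h3
  unfold Env.LAM
  rw [mem_filter]
  exact ⟨hz, mem_Res C ω _ h1, h3, hr⟩

theorem mem_PD (C : RCtx) (ω : C.Om) (d : ℤ) (hz : d ∈ dall C.n) (h2 : d ≤ 2 * C.n)
    (h : resv C.q C.K0 C.S C.E C.bad ω false d true) : d ∈ (C.env ω).PD := by
  classical
  obtain ⟨h1, h2', h3⟩ := h
  have e : uOf C.q false d = unD C.q d := by simp [uOf]
  rw [e] at h1 h2' h3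
  unfold Env.PD
  rw [mem_filter]
  exact ⟨hz, h2, mem_Res C ω _ h1, not_use C ω d h2', h3⟩

theorem mem_AA (C : RCtx) (ω : C.Om) (d : ℤ) (hz : d ∈ dall C.n)
    (hr : inI C.n (1 / 10) (13 / 10) d) (hg : gd C.n C.k C.q d)
    (h : resv C.q C.K0 C.S C.E C.bad ω false d false) : d ∈ (C.env ω).AA := by
  classical
  obtain ⟨h1, h2', h3⟩ := h
  have e : uOf C.q false d = unD C.q d := by simp [uOf]
  rw [e] at h1 h2' h3
  unfold Env.AA
  rw [mem_filter]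
  exact ⟨hz, hr, mem_Res C ω _ h1, not_use C ω d h2', h3, hg⟩

end Pool.Agent.PGr
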