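import Mathlib

/-!
# PGr: uniform expectation and probability on finite types
-/

namespace Pool.Agent.PGr

open Finset

/-- Mean of a real function on a finite type. -/
noncomputable def Ex {Ω : Type*} [Fintype Ω] (f : Ω → ℝ) : ℝ :=
  (∑ ω, f ω) / (Fintype.card Ω : ℝ)

open Classical in
/-- Uniform probability of an event on a finite type. -/
noncomputable def Pr {Ω : Type*} [Fintype Ω] (p : Ω → Prop) : ℝ :=
  Ex (fun ω => if p ω then (1 : ℝ) else 0)

variable {Ω : Type*} [Fintype Ω]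

theorem Ex_add (f g : Ω → ℝ) : Ex (fun ω => f ω + g ω) = Ex f + Ex g := by
  simp only [Ex, sum_add_distrib, add_div]

theorem Ex_sub (f g : Ω → ℝ) : Ex (fun ω => f ω - g ω) = Ex f - Ex g := by
  simp only [Ex, sum_sub_distrib, sub_div]

theorem Ex_const_mul (c : ℝ) (f : Ω → ℝ) : Ex (fun ω => c * f ω) = c * Ex f := by
  simp only [Ex, ← mul_sum, mul_div_assoc]

theorem Ex_mul_const (f : Ω → ℝ) (c : ℝ) : Ex (fun ω => f ω * c) = Ex f * c := by
  simp only [Ex, ← sum_mul, div_mul_eq_mul_div]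

theorem Ex_sum {J : Type*} (s : Finset J) (f : J → Ω → ℝ) :
    Ex (fun ω => ∑ j ∈ s, f j ω) = ∑ j ∈ s, Ex (f j) := by
  simp only [Ex, Finset.sum_div]
  rw [Finset.sum_comm]

theorem Ex_const [Nonempty Ω] (c : ℝ) : Ex (fun _ : Ω => c) = c := by
  have : (Fintype.card Ω : ℝ) ≠ 0 := by
    exact_mod_cast Fintype.card_ne_zero
  simp only [Ex, sum_const, card_univ, nsmul_eq_mul]
  field_simp

theorem Ex_mono {f g : Ω → ℝ} (h : ∀ ω, f ω ≤ g ω) : Ex f ≤ Ex g := by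
  unfold Ex
  gcongr with i
  exact h i

theorem Ex_nonneg {f : Ω → ℝ} (h : ∀ ω, 0 ≤ f ω) : 0 ≤ Ex f := by
  unfold Ex
  have := Finset.sum_nonneg (fun ω (_ : ω ∈ (Finset.univ : Finset Ω)) => h ω)
  positivity

theorem Ex_congr {f g : Ω → ℝ} (h : ∀ ω, f ω = g ω) : Ex f = Ex g := by
  have : f = g := funext h
  rw [this]

theorem abs_Ex_le (f : Ω → ℝ) : |Ex f| ≤ Ex (fun ω => |f ω|) := by
  unfold Ex
  rw [abs_div, abs_of_nonneg (show (0:ℝ) ≤ (Fintype.card Ω : ℝ) by positivity)]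
  gcongr
  exact Finset.abs_sum_le_sum_abs _ _

theorem abs_Ex_sub_le [Nonempty Ω] {f : Ω → ℝ} {c e : ℝ} (h : ∀ ω, |f ω - c| ≤ e) :
    |Ex f - c| ≤ e := by
  have h1 : Ex f - c = Ex (fun ω => f ω - c) := by
    rw [Ex_sub, Ex_const]
  rw [h1]
  refine (abs_Ex_le _).trans ?_
  calc Ex (fun ω => |f ω - c|) ≤ Ex (fun _ : Ω => e) := Ex_mono h
    _ = e := Ex_const e

theorem exists_Ex_le [Nonempty Ω] (f : Ω → ℝ) : ∃ ω, Ex f ≤ f ω := by
  by_contra hcon
  push Not at hcon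
  have h1 : ∑ ω, f ω < ∑ _ω : Ω, Ex f :=
    Finset.sum_lt_sum_of_nonempty Finset.univ_nonempty (fun ω _ => hcon ω)
  have h0 : (0 : ℝ) < (Fintype.card Ω : ℝ) := by exact_mod_cast Fintype.card_pos
  have h2 : ∑ _ω : Ω, Ex f = ∑ ω, f ω := by
    simp only [sum_const, card_univ, nsmul_eq_mul, Ex]
    field_simp
  linarith

theorem exists_le_Ex [Nonempty Ω] (f : Ω → ℝ) : ∃ ω, f ω ≤ Ex f := by
  by_contra hcon
  push Not at hcon
  have h1 : ∑ _ω : Ω, Ex f < ∑ ω, f ω :=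
    Finset.sum_lt_sum_of_nonempty Finset.univ_nonempty (fun ω _ => hcon ω)
  have h0 : (0 : ℝ) < (Fintype.card Ω : ℝ) := by exact_mod_cast Fintype.card_pos
  have h2 : ∑ _ω : Ω, Ex f = ∑ ω, f ω := by
    simp only [sum_const, card_univ, nsmul_eq_mul, Ex]
    field_simp
  linarith

theorem Pr_nonneg (p : Ω → Prop) : 0 ≤ Pr p :=
  Ex_nonneg (fun ω => by split_ifs <;> norm_num)

theorem Pr_le_one [Nonempty Ω] (p : Ω → Prop) : Pr p ≤ 1 := by
  unfold Pr
  calc _ ≤ Ex (fun _ : Ω => (1 : ℝ)) := Ex_mono (fun ω => by split_ifs <;> norm_num)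
    _ = 1 := Ex_const 1

theorem Pr_mono {p p' : Ω → Prop} (h : ∀ ω, p ω → p' ω) : Pr p ≤ Pr p' := by
  classical
  apply Ex_mono
  intro ω
  by_cases hp : p ω
  · simp [hp, h ω hp]
  · simp only [hp, if_false]
    split_ifs <;> norm_num

/-- Union bound over a finite index set. -/
theorem Pr_exists_le {J : Type*} (s : Finset J) (p : J → Ω → Prop) :
    Pr (fun ω => ∃ j ∈ s, p j ω) ≤ ∑ j ∈ s, Pr (p j) := by
  classical
  unfold Pr
  rw [← Ex_sum]
  apply Ex_mono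
  intro ω
  by_cases h : ∃ j ∈ s, p j ω
  · obtain ⟨j, hj, hp⟩ := h
    rw [if_pos ⟨j, hj, hp⟩]
    refine le_trans ?_ (Finset.single_le_sum
      (f := fun j => if p j ω then (1 : ℝ) else 0) (fun i _ => by split_ifs <;> norm_num) hj)
    simp [hp]
  · rw [if_neg h]
    exact Finset.sum_nonneg (fun i _ => by split_ifs <;> norm_num)

theorem Pr_or_le (p p' : Ω → Prop) : Pr (fun ω => p ω ∨ p' ω) ≤ Pr p + Pr p' := by
  classical
  unfold Pr
  rw [← Ex_add]
  apply Ex_mono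
  intro ω
  by_cases h : p ω <;> by_cases h' : p' ω <;> simp [h, h']

theorem Pr_not [Nonempty Ω] (p : Ω → Prop) : Pr (fun ω => ¬ p ω) = 1 - Pr p := by
  classical
  unfold Pr
  rw [eq_sub_iff_add_eq, ← Ex_add]
  refine Eq.trans (Ex_congr (g := fun _ : Ω => (1 : ℝ)) ?_) (Ex_const (Ω := Ω) 1)
  intro ω
  by_cases h : p ω <;> simp [h]

/-- If the bad event has probability less than one, a good outcome exists. -/
theorem exists_not_of_Pr_lt_one [Nonempty Ω] {p : Ω → Prop} (h : Pr p < 1) : ∃ ω, ¬ p ω := by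
  classical
  by_contra hcon
  push Not at hcon
  have : Pr p = 1 := by
    unfold Pr
    have h2 : (fun ω => if p ω then (1 : ℝ) else 0) = fun _ => 1 := by
      funext ω
      simp [hcon ω]
    rw [h2, Ex_const]
  linarith

/-- Splitting an expectation by a rare event. -/
theorem Ex_le_of_Pr [Nonempty Ω] {f : Ω → ℝ} {p : Ω → Prop} {c B : ℝ} (hB : ∀ ω, f ω ≤ B)
    (hc : ∀ ω, ¬ p ω → f ω ≤ c) (_hcB : c ≤ B) : Ex f ≤ c + (B - c) * Pr p := by
  classical
  unfold Pr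
  have h1 : c + (B - c) * Ex (fun ω => if p ω then (1 : ℝ) else 0)
      = Ex (fun ω => c + (B - c) * (if p ω then (1 : ℝ) else 0)) := by
    rw [Ex_add, Ex_const, Ex_const_mul]
  rw [h1]
  apply Ex_mono
  intro ω
  by_cases h : p ω
  · simp [h, hB ω]
  · simp [h, hc ω h]

end Pool.Agent.PGr
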