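import Mathlib
import Pool.Agent.PGr.Prob
import Pool.Agent.Helper20.GracefulDefs

/-!
# PGr: common definitions (paper: pgr/paper.md)

All constants such as `.55 n` are real inequalities between casts.
-/

noncomputable section

namespace Pool.Agent.PGr

open Finset

/-! ## The outer cycle (section 0) -/

/-- Label of the outer vertex `u_i` = anchor of the inner vertex `v_i`. -/
def anc (n i : ℕ) : ℤ :=
  if i % 2 = 0 then ((i / 2 : ℕ) : ℤ)
  else if n % 2 = 0 ∧ i + 1 = n then 3 * ((n / 2 : ℕ) : ℤ)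
  else 3 * (n : ℤ) - ((i / 2 : ℕ) : ℤ)

/-- `i` is a high (odd, not special) vertex. -/
def hi (n i : ℕ) : Bool := decide (i % 2 = 1 ∧ ¬ (n % 2 = 0 ∧ i + 1 = n))

/-- `i` is the special vertex (`n` even, `i = n - 1`). -/
def spec (n i : ℕ) : Prop := n % 2 = 0 ∧ i + 1 = n

instance (n i : ℕ) : Decidable (spec n i) := by unfold spec; infer_instance

/-- The labels not used by the outer cycle. -/
def zall (n : ℕ) : Finset ℤ :=
  if n % 2 = 0 then (Icc ((n / 2 : ℕ) : ℤ) (5 * ((n / 2 : ℕ) : ℤ) + 1)).erase (3 * ((n / 2 : ℕ) : ℤ))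
  else Icc (((n + 1) / 2 : ℕ) : ℤ) (((5 * n + 1) / 2 : ℕ) : ℤ)

/-- The differences not used by the outer cycle. -/
def dall (n : ℕ) : Finset ℤ :=
  if n % 2 = 0 then
    ((Icc (1 : ℤ) (2 * n + 2)).erase ((n : ℤ) + 1)).erase (3 * ((n / 2 : ℕ) : ℤ))
  else (Icc (1 : ℤ) (2 * n + 1)).erase (((n - 1) / 2 : ℕ) : ℤ)

/-- `z` is a labelling of the inner vertices which completes the outer labels to a graceful
labelling: injective, values in `zall`, and every element of `dall` is a spoke or an inner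
difference. -/
def Good (n k : ℕ) (z : ℕ → ℤ) : Prop :=
  (∀ i < n, z i ∈ zall n) ∧ (∀ i < n, ∀ j < n, z i = z j → i = j) ∧
  ∀ d ∈ dall n, (∃ i < n, |z i - anc n i| = d) ∨ (∃ i < n, |z i - z ((i + k) % n)| = d)

/-- The two neighbours of the inner vertex `i`. -/
def nbp (n k i : ℕ) : ℕ := (i + k) % n

/-- The two neighbours of the inner vertex `i`. -/
def nbm (n k i : ℕ) : ℕ := (i + (n - k)) % n

/-! ## Algebra modulo `q^2` (section 2) -/

/-- residue of the labels of a unit -/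
def lam (q : ℕ) (u : ZMod (q ^ 2)) : ZMod (q ^ 2) := 2 * u + q * u ^ 2
/-- residue of the spokes of a unit -/
def del (q : ℕ) (u : ZMod (q ^ 2)) : ZMod (q ^ 2) := u + q * u ^ 2
/-- residue of the high anchors of a unit -/
def hh (q : ℕ) (u : ZMod (q ^ 2)) : ZMod (q ^ 2) := 3 * u + 2 * q * u ^ 2
/-- inverse of `lam` -/
def lamI (q : ℕ) (x : ZMod (q ^ 2)) : ZMod (q ^ 2) := 2⁻¹ * x - q * (2⁻¹) ^ 3 * x ^ 2
/-- inverse of `del` -/
def delI (q : ℕ) (x : ZMod (q ^ 2)) : ZMod (q ^ 2) := x - q * x ^ 2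
/-- inverse of `hh` -/
def hhI (q : ℕ) (x : ZMod (q ^ 2)) : ZMod (q ^ 2) := 3⁻¹ * x - 2 * q * (3⁻¹) ^ 3 * x ^ 2

/-- unit of a label -/
def unL (q : ℕ) (x : ℤ) : ZMod (q ^ 2) := lamI q (x : ZMod (q ^ 2))
/-- unit of a difference -/
def unD (q : ℕ) (d : ℤ) : ZMod (q ^ 2) := delI q (d : ZMod (q ^ 2))

/-- reduction modulo `q` -/
def red (q : ℕ) : ZMod (q ^ 2) →+* ZMod q := ZMod.castHom (dvd_pow_self q two_ne_zero) (ZMod q)

/-- The ten combinations of `(a, c1, c2)` (section 6). -/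
def comb {q : ℕ} (j : Fin 10) (a c1 c2 : ZMod (q ^ 2)) : ZMod (q ^ 2) :=
  match j with
  | 0 => a
  | 1 => c1
  | 2 => c2
  | 3 => -a + c1 + c2
  | 4 => a + c1 - c2
  | 5 => a - c1
  | 6 => a - c2
  | 7 => c1 - c2
  | 8 => -2 * a + c1 + c2
  | 9 => a + c1 - 2 * c2

/-! ### Coincidences of units (section 7.1, exact version modulo `q^2`) -/

/-- sign: `z` is one of `1, -1` -/
def pm {R : Type*} [Ring R] (e : R) : Prop := e = 1 ∨ e = -1

/-- `a - x` for high items, `x - a` for low items (the class of `|x - a|`) -/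
def sg {R : Type*} [Ring R] (b : Bool) (z : R) : R := if b then -z else z

/-- No coincidence for the edges of an item (type `b`, anchor class `a`, classes `c1 c2` of the
labels of the two neighbours) which contain the difference `d`: for the label classes
`x = a ∓ d`, `c1 ± d`, `c2 ± d` the six units (neighbours, label, three differences) are pairwise
different, for all signs. -/
def noQ (q : ℕ) (b : Bool) (a c1 c2 d : ZMod (q ^ 2)) : Prop :=
  (∀ e1 e2 : ZMod (q ^ 2), pm e1 → pm e2 →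
    [lamI q c1, lamI q c2, lamI q (a + sg b d), delI q d, delI q (e1 * (a + sg b d - c1)),
      delI q (e2 * (a + sg b d - c2))].Nodup) ∧
  (∀ e1 e2 : ZMod (q ^ 2), pm e1 → pm e2 →
    [lamI q c1, lamI q c2, lamI q (c1 + e1 * d), delI q d, delI q (sg b (c1 + e1 * d - a)),
      delI q (e2 * (c1 + e1 * d - c2))].Nodup) ∧
  (∀ e1 e2 : ZMod (q ^ 2), pm e1 → pm e2 →
    [lamI q c1, lamI q c2, lamI q (c2 + e1 * d), delI q d, delI q (sg b (c2 + e1 * d - a)),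
      delI q (e2 * (c2 + e1 * d - c1))].Nodup)

/-- No coincidence for the edge of an item with label class `x`. -/
def noZ (q : ℕ) (b : Bool) (a c1 c2 x : ZMod (q ^ 2)) : Prop :=
  ∀ e1 e2 : ZMod (q ^ 2), pm e1 → pm e2 →
    [lamI q c1, lamI q c2, lamI q x, delI q (sg b (x - a)), delI q (e1 * (x - c1)),
      delI q (e2 * (x - c2))].Nodup

/-- No coincidence for the U-switch `x = a - d`, `x'' = c1 + c2 - x`, `d'' = a - x''` of a high
item. -/
def noU (q : ℕ) (a c1 c2 d : ZMod (q ^ 2)) : Prop :=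
  ∀ e1 e2 : ZMod (q ^ 2), pm e1 → pm e2 →
    [lamI q c1, lamI q c2, lamI q (a - d), lamI q (-a + c1 + c2 + d), delI q d,
      delI q (2 * a - c1 - c2 - d), delI q (e1 * (a - d - c1)), delI q (e2 * (a - d - c2))].Nodup

/-- No coincidence for the I-switch `x = c2 + d`, `x'' = a + c1 - x`, `d'' = x'' - c2` of a high
item. -/
def noI (q : ℕ) (a c1 c2 d : ZMod (q ^ 2)) : Prop :=
  ∀ e1 : ZMod (q ^ 2), pm e1 →
    [lamI q c1, lamI q c2, lamI q (c2 + d), lamI q (a + c1 - c2 - d), delI q d,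
      delI q (a + c1 - 2 * c2 - d), delI q (e1 * (c2 + d - c1)), delI q (a - c2 - d)].Nodup

/-- The basic numbers of the construction. `Q = q^2`. -/
structure Base (n k q S B0 : ℕ) : Prop where
  k_pos : 1 ≤ k
  k_lt : 2 * k < n
  q_prime : q.Prime
  q_big : 17 < q
  q_k : ¬ q ∣ k
  q_nk : ¬ q ∣ (n - 2 * k)
  q_low : n ≤ q ^ 8
  q_high : q ^ 6 ≤ n
  S_three : ¬ 3 ∣ S
  S_high : 2 * q ^ 2 * (S + 1) + 2 ≤ n
  S_low : n ≤ 2 * q ^ 2 * (S + 5) + 2
  B0_dvd : q ^ 2 ∣ B0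
  B0_low : n ≤ B0
  B0_high : B0 < n + q ^ 2

/-! ## The scheme (section 2) -/

/-- unit of the inner vertex `i` (for non special `i`) -/
def un (n q i : ℕ) : ZMod (q ^ 2) :=
  if i % 2 = 0 then ((i / 2 : ℕ) : ZMod (q ^ 2)) else hhI q ((anc n i : ℤ) : ZMod (q ^ 2))

/-- `cls0 i = lam (un i)`: residue of the scheme labels of `i` -/
def cls0 (n q i : ℕ) : ZMod (q ^ 2) := lam q (un n q i)

/-- smallest nonnegative representative of `lam u` -/
def Lab (q : ℕ) (u : ZMod (q ^ 2)) : ℕ := (lam q u).val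

/-- smallest nonnegative representative of `3n - hh u` -/
def rr (n q : ℕ) (u : ZMod (q ^ 2)) : ℕ := (((3 * n : ℕ) : ZMod (q ^ 2)) - hh q u).val

/-- the integer `e(u)` of section 2 -/
def ee (n q B0 : ℕ) (u : ZMod (q ^ 2)) : ℤ :=
  (3 * (n : ℤ) - (rr n q u : ℤ) - 2 * (B0 : ℤ) - 2 * (Lab q u : ℤ) + (u.val : ℤ)) / ((q : ℤ) ^ 2)

/-- the offset of a unit: parity of `e(u)` -/
def om (n q B0 : ℕ) (u : ZMod (q ^ 2)) : ℕ := (ee n q B0 u % 2).toNat

/-- the index `s` of a vertex in its unit -/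
def sidx (n q S B0 i : ℕ) : ℕ :=
  if i % 2 = 0 then (i / 2) / q ^ 2 else 2 * S - 1 - ((i / 2) / q ^ 2 - om n q B0 (un n q i))

/-- `i` belongs to `V_s`. -/
def inVS (n q S B0 i : ℕ) : Prop :=
  i < n ∧ (if i % 2 = 0 then (i / 2) / q ^ 2 < S
    else ¬ spec n i ∧ om n q B0 (un n q i) ≤ (i / 2) / q ^ 2 ∧
      (i / 2) / q ^ 2 - om n q B0 (un n q i) < S)

/-- the scheme label of the vertex `i` if the shift of its unit is `t` -/
def Yl (n q S B0 i : ℕ) (t : ZMod (2 * S)) : ℤ :=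
  (B0 : ℤ) + (Lab q (un n q i) : ℤ)
    + (q : ℤ) ^ 2 * (((t + 3 * (sidx n q S B0 i : ZMod (2 * S))).val : ℕ) : ℤ)

/-! ## The colouring (section 1) -/

/-- Colouring of the inner vertices with defect `ρ`. -/
structure Col (n k q : ℕ) (ρ : ℝ) (Bk Ck Pk : Finset ℕ) : Prop where
  cover : Bk ∪ Ck ∪ Pk = range n
  BC : Disjoint Bk Ck
  BP : Disjoint Bk Pk
  CP : Disjoint Ck Pk
  nB : ∀ i ∈ Bk, nbp n k i ∈ Ck ∧ nbm n k i ∈ Ck
  nC : ∀ i ∈ Ck, nbp n k i ∈ Bk ∪ Pk ∧ nbm n k i ∈ Bk ∪ Pk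
  special : n % 2 = 0 → n - 1 ∈ Pk
  cardP : (Pk.card : ℝ) ≤ ρ * n
  balB : ∀ e < 2, ∀ r < q ^ 2, ∀ x y : ℕ,
    |(((Bk.filter (fun i => i % 2 = e ∧ (i / 2) % q ^ 2 = r ∧ x ≤ i / 2 ∧ i / 2 < y)).card : ℕ) : ℝ)
      - (1 / 2) * ((((range n).filter
          (fun i => i % 2 = e ∧ (i / 2) % q ^ 2 = r ∧ x ≤ i / 2 ∧ i / 2 < y)).card : ℕ) : ℝ)|
      ≤ ρ * n / (q : ℝ) ^ 2
  balC : ∀ e < 2, ∀ r < q ^ 2, ∀ x y : ℕ,
    |(((Ck.filter (fun i => i % 2 = e ∧ (i / 2) % q ^ 2 = r ∧ x ≤ i / 2 ∧ i / 2 < y)).card : ℕ) : ℝ)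
      - (1 / 2) * ((((range n).filter
          (fun i => i % 2 = e ∧ (i / 2) % q ^ 2 = r ∧ x ≤ i / 2 ∧ i / 2 < y)).card : ℕ) : ℝ)|
      ≤ ρ * n / (q : ℝ) ^ 2

end Pool.Agent.PGr
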