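import Pool.Agent.PGr.KItems
set_option autoImplicit false

/-!
Part K of project PGr: discrepancy lemmas.
-/

open MeasureTheory intervalIntegral Set

namespace PGrK

theorem ind_mono {I J : Set ℝ} (h : I ⊆ J) (x : ℝ) :
    I.indicator (fun _ => (1 : ℝ)) x ≤ J.indicator (fun _ => (1 : ℝ)) x := by
  by_cases hx : x ∈ I
  · rw [indicator_of_mem hx, indicator_of_mem (h hx)]
  · rw [indicator_of_notMem hx]; exact (ind_bd J x).1

/-- discrepancy from closed and open intervals. -/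
theorem disc_of {ι : Type*} {s : Finset ι} {pt : ι → ℝ} {w rho al be del : ℝ} (hw : 0 ≤ w)
    (hab : al ≤ be) (hpt : ∀ i ∈ s, pt i ∈ Icc al be)
    (hup : ∀ p q, al ≤ p → p ≤ q → q ≤ be →
      w * (∑ i ∈ s, (Icc p q).indicator (fun _ => (1 : ℝ)) (pt i)) ≤ rho * (q - p) + del)
    (hlo : ∀ p q, al ≤ p → p ≤ q → q ≤ be →
      rho * (q - p) - del ≤ w * (∑ i ∈ s, (Ioo p q).indicator (fun _ => (1 : ℝ)) (pt i))) :
    Disc s pt w rho al be del := by
  have hdel : 0 ≤ del := by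
    have h := hup al al le_rfl le_rfl hab
    have h2 : 0 ≤ w * (∑ i ∈ s, (Icc al al).indicator (fun _ => (1 : ℝ)) (pt i)) :=
      mul_nonneg hw (Finset.sum_nonneg (fun i _ => (ind_bd _ _).1))
    linarith
  intro I hI
  have hcount : ∑ i ∈ s, I.indicator (fun _ => (1 : ℝ)) (pt i)
      = ∑ i ∈ s, (I ∩ Icc al be).indicator (fun _ => (1 : ℝ)) (pt i) := by
    apply Finset.sum_congr rfl
    intro i hi
    by_cases h : pt i ∈ I
    · rw [indicator_of_mem h, indicator_of_mem (show pt i ∈ I ∩ Icc al be from ⟨h, hpt i hi⟩)]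
    · rw [indicator_of_notMem h, indicator_of_notMem (fun h' => h h'.1)]
  rw [hcount]
  have hJ : (I ∩ Icc al be).OrdConnected := hI.inter ordConnected_Icc
  have hJsub : I ∩ Icc al be ⊆ Icc al be := inter_subset_right
  generalize I ∩ Icc al be = J at hJ hJsub
  rcases J.eq_empty_or_nonempty with hemp | hne
  · subst hemp
    simp [hdel]
  · have hbA : BddAbove J := ⟨be, fun x hx => (hJsub hx).2⟩
    have hbB : BddBelow J := ⟨al, fun x hx => (hJsub hx).1⟩
    obtain ⟨x0, hx0⟩ := hne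
    have hp1 : al ≤ sInf J := le_csInf ⟨x0, hx0⟩ (fun x hx => (hJsub hx).1)
    have hq1 : sSup J ≤ be := csSup_le ⟨x0, hx0⟩ (fun x hx => (hJsub hx).2)
    have hpq : sInf J ≤ sSup J := le_trans (csInf_le hbB hx0) (le_csSup hbA hx0)
    have hsub1 : J ⊆ Icc (sInf J) (sSup J) := fun x hx => ⟨csInf_le hbB hx, le_csSup hbA hx⟩
    have hsub2 : Ioo (sInf J) (sSup J) ⊆ J := by
      intro x hx
      obtain ⟨a, ha, hax⟩ := exists_lt_of_csInf_lt ⟨x0, hx0⟩ hx.1
      obtain ⟨b, hb, hxb⟩ := exists_lt_of_lt_csSup ⟨x0, hx0⟩ hx.2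
      exact hJ.out ha hb ⟨hax.le, hxb.le⟩
    have hvol : volume.real J = sSup J - sInf J := by
      have hfin : volume (Icc (sInf J) (sSup J)) ≠ ⊤ := isCompact_Icc.measure_lt_top.ne
      have hfinJ : volume J ≠ ⊤ := ((measure_mono hsub1).trans_lt isCompact_Icc.measure_lt_top).ne
      apply le_antisymm
      · have := measureReal_mono hsub1 hfin
        rwa [Real.volume_real_Icc_of_le hpq] at this
      · have := measureReal_mono hsub2 hfinJ
        rwa [Real.volume_real_Ioo_of_le hpq] at this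
    rw [hvol]
    have h1 := hup _ _ hp1 hpq hq1
    have h2 := hlo _ _ hp1 hpq hq1
    have h3 : w * (∑ i ∈ s, J.indicator (fun _ => (1 : ℝ)) (pt i))
        ≤ w * (∑ i ∈ s, (Icc (sInf J) (sSup J)).indicator (fun _ => (1 : ℝ)) (pt i)) :=
      mul_le_mul_of_nonneg_left (Finset.sum_le_sum (fun i _ => ind_mono hsub1 _)) hw
    have h4 : w * (∑ i ∈ s, (Ioo (sInf J) (sSup J)).indicator (fun _ => (1 : ℝ)) (pt i))
        ≤ w * (∑ i ∈ s, J.indicator (fun _ => (1 : ℝ)) (pt i)) :=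
      mul_le_mul_of_nonneg_left (Finset.sum_le_sum (fun i _ => ind_mono hsub2 _)) hw
    rw [abs_le]
    constructor <;> linarith

theorem sum_ind_card {ι : Type*} (s : Finset ι) (pt : ι → ℝ) (I : Set ℝ)
    [DecidablePred (fun i => pt i ∈ I)] :
    ∑ i ∈ s, I.indicator (fun _ => (1 : ℝ)) (pt i) = ((s.filter (fun i => pt i ∈ I)).card : ℝ) := by
  rw [Finset.card_filter]
  push_cast
  apply Finset.sum_congr rfl
  intro i _
  by_cases h : pt i ∈ I
  · rw [indicator_of_mem h, if_pos h]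
  · rw [indicator_of_notMem h, if_neg h]

/-- arithmetic progression, upper bound. -/
theorem ap_up (x0 h : ℝ) (hh : 0 < h) (N : ℕ) {p q : ℝ} (hpq : p ≤ q) :
    ∑ j ∈ Finset.range N, (Icc p q).indicator (fun _ => (1 : ℝ)) (x0 + h * (j : ℝ))
      ≤ (q - p) / h + 1 := by
  classical
  rw [sum_ind_card (Finset.range N) (fun j : ℕ => x0 + h * (j : ℝ)) (Icc p q)]
  obtain ⟨a, ha⟩ : ∃ a, a = (p - x0) / h := ⟨_, rfl⟩
  obtain ⟨b, hb⟩ : ∃ b, b = (q - x0) / h := ⟨_, rfl⟩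
  have hab : (q - p) / h = b - a := by rw [ha, hb]; field_simp; ring
  have hba : a ≤ b := by rw [ha, hb]; gcongr
  rw [hab]
  have hsub : (Finset.range N).filter (fun j : ℕ => x0 + h * (j : ℝ) ∈ Icc p q)
      ⊆ (Finset.range N).filter (fun j : ℕ => a ≤ (j : ℝ) ∧ (j : ℝ) ≤ b) := by
    intro j hj
    rw [Finset.mem_filter] at hj ⊢
    refine ⟨hj.1, ?_, ?_⟩
    · rw [ha, div_le_iff₀ hh]; linarith [hj.2.1]
    · rw [hb, le_div_iff₀ hh]; linarith [hj.2.2]
  by_cases hb0 : b < 0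
  · have : (Finset.range N).filter (fun j : ℕ => a ≤ (j : ℝ) ∧ (j : ℝ) ≤ b) = ∅ := by
      rw [Finset.filter_eq_empty_iff]
      rintro j _ ⟨_, h2⟩
      have : (0 : ℝ) ≤ (j : ℝ) := Nat.cast_nonneg j
      linarith
    rw [this] at hsub
    have := Finset.card_le_card hsub
    simp only [Finset.card_empty, Nat.le_zero] at this
    rw [this]; push_cast; linarith
  · push Not at hb0
    have hsub2 : (Finset.range N).filter (fun j : ℕ => a ≤ (j : ℝ) ∧ (j : ℝ) ≤ b)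
        ⊆ Finset.Icc ⌈a⌉₊ ⌊b⌋₊ := by
      intro j hj
      rw [Finset.mem_filter] at hj
      rw [Finset.mem_Icc]
      exact ⟨Nat.ceil_le.2 hj.2.1, Nat.le_floor hj.2.2⟩
    have h1 := Finset.card_le_card (hsub.trans hsub2)
    rw [Nat.card_Icc] at h1
    have h2 : ((⌊b⌋₊ + 1 - ⌈a⌉₊ : ℕ) : ℝ) ≤ b - a + 1 := by
      by_cases hle : ⌈a⌉₊ ≤ ⌊b⌋₊ + 1
      · rw [Nat.cast_sub hle]
        push_cast
        have := Nat.floor_le hb0
        have := Nat.le_ceil a
        linarith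
      · rw [Nat.sub_eq_zero_of_le (by omega)]
        push_cast; linarith
    exact le_trans (by exact_mod_cast h1) h2

/-- arithmetic progression, lower bound. -/
theorem ap_lo (x0 h : ℝ) (hh : 0 < h) (N : ℕ) (p q : ℝ) :
    (min q (x0 + h * (N : ℝ)) - max p x0) / h - 1 ≤
      ∑ j ∈ Finset.range N, (Ioo p q).indicator (fun _ => (1 : ℝ)) (x0 + h * (j : ℝ)) := by
  classical
  rw [sum_ind_card (Finset.range N) (fun j : ℕ => x0 + h * (j : ℝ)) (Ioo p q)]
  obtain ⟨a, ha⟩ : ∃ a, a = (max p x0 - x0) / h := ⟨_, rfl⟩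
  obtain ⟨b, hb⟩ : ∃ b, b = (min q (x0 + h * (N : ℝ)) - x0) / h := ⟨_, rfl⟩
  have hab : (min q (x0 + h * (N : ℝ)) - max p x0) / h = b - a := by
    rw [ha, hb]; field_simp; ring
  have ha0 : 0 ≤ a := by
    rw [ha]; apply div_nonneg _ hh.le; linarith [le_max_right p x0]
  rw [hab]
  have hsub : Finset.Ico (⌊a⌋₊ + 1) ⌈b⌉₊ ⊆
      (Finset.range N).filter (fun j : ℕ => x0 + h * (j : ℝ) ∈ Ioo p q) := by
    intro j hj
    rw [Finset.mem_Ico] at hj
    have h1 : a < (j : ℝ) := (Nat.floor_lt ha0).1 (by omega)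
    have h2 : (j : ℝ) < b := Nat.lt_ceil.1 hj.2
    have h1' : max p x0 - x0 < h * (j : ℝ) := by
      rw [ha, div_lt_iff₀ hh] at h1; linarith
    have h2' : h * (j : ℝ) < min q (x0 + h * (N : ℝ)) - x0 := by
      rw [hb, lt_div_iff₀ hh] at h2; linarith
    rw [Finset.mem_filter, Finset.mem_range]
    refine ⟨?_, ?_, ?_⟩
    · have : h * (j : ℝ) < h * (N : ℝ) := by
        linarith [min_le_right q (x0 + h * (N : ℝ))]
      have : (j : ℝ) < (N : ℝ) := lt_of_mul_lt_mul_left this hh.le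
      exact_mod_cast this
    · linarith [le_max_left p x0]
    · linarith [min_le_left q (x0 + h * (N : ℝ))]
  have h1 := Finset.card_le_card hsub
  rw [Nat.card_Ico] at h1
  have h2 : b - a - 1 ≤ ((⌈b⌉₊ - (⌊a⌋₊ + 1) : ℕ) : ℝ) := by
    have h3 : (⌈b⌉₊ : ℝ) - ((⌊a⌋₊ : ℝ) + 1) ≤ ((⌈b⌉₊ - (⌊a⌋₊ + 1) : ℕ) : ℝ) := by
      have : ((⌈b⌉₊ : ℕ) : ℝ) ≤ ((⌈b⌉₊ - (⌊a⌋₊ + 1) + (⌊a⌋₊ + 1) : ℕ) : ℝ) := by
        exact_mod_cast (by omega : ⌈b⌉₊ ≤ ⌈b⌉₊ - (⌊a⌋₊ + 1) + (⌊a⌋₊ + 1))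
      push_cast at this
      linarith
    have := Nat.le_ceil b
    have := Nat.floor_le ha0
    linarith
  exact le_trans h2 (by exact_mod_cast h1)

/-- discrepancy of the labels of a unit. -/
theorem ap_disc {x0 h κ : ℝ} (hh : 0 < h) {N : ℕ} (hN : 0 < N) (h1 : 1 ≤ x0)
    (h2 : x0 ≤ 1 + κ + 2 * h) (h3 : 1 - κ ≤ h * (N : ℝ)) (h4 : h * (N : ℝ) ≤ 1)
    (h5 : x0 + h * ((N : ℝ) - 1) ≤ 2) (hκ : κ ≤ 1 / 2) (hκ0 : 0 ≤ κ) :
    Disc (Finset.range N) (fun j : ℕ => x0 + h * (j : ℝ)) (1 / (N : ℝ)) 1 1 2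
      (2 * κ + 4 * h) := by
  have hNr : (0 : ℝ) < (N : ℝ) := by exact_mod_cast hN
  have hhN : 0 < h * (N : ℝ) := mul_pos hh hNr
  have hinv : 1 / (N : ℝ) ≤ 2 * h := by
    rw [div_le_iff₀ hNr]; nlinarith
  refine disc_of (by positivity) (by norm_num) ?_ ?_ ?_
  · intro j hj
    have hjN : (j : ℝ) ≤ (N : ℝ) - 1 := by
      have : j + 1 ≤ N := Finset.mem_range.1 hj
      have : (j : ℝ) + 1 ≤ (N : ℝ) := by exact_mod_cast this
      linarith
    have hj0 : (0 : ℝ) ≤ (j : ℝ) := Nat.cast_nonneg j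
    constructor
    · nlinarith
    · have := mul_le_mul_of_nonneg_left hjN hh.le
      linarith
  · intro p q hp hpq hq
    have hup := ap_up x0 h hh N hpq
    have h6 : 1 / (N : ℝ) * (∑ j ∈ Finset.range N,
        (Icc p q).indicator (fun _ => (1 : ℝ)) (x0 + h * (j : ℝ)))
        ≤ 1 / (N : ℝ) * ((q - p) / h + 1) :=
      mul_le_mul_of_nonneg_left hup (by positivity)
    have h7 : 1 / (N : ℝ) * ((q - p) / h + 1) = (q - p) / (h * (N : ℝ)) + 1 / (N : ℝ) := by
      field_simp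
    have h8 : (q - p) / (h * (N : ℝ)) ≤ (q - p) + 2 * κ := by
      rw [div_le_iff₀ hhN]
      have hqp0 : 0 ≤ q - p := by linarith
      have hqp1 : q - p ≤ 1 := by linarith
      nlinarith [mul_nonneg hκ0 (sub_nonneg.2 hqp1),
        mul_nonneg hqp0 (sub_nonneg.2 h3), mul_nonneg hκ0 (sub_nonneg.2 h3),
        mul_nonneg hκ0 (sub_nonneg.2 hκ)]
    rw [h7] at h6
    linarith
  · intro p q hp hpq hq
    have hlo := ap_lo x0 h hh N p q
    have hpos : 0 ≤ ∑ j ∈ Finset.range N,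
        (Ioo p q).indicator (fun _ => (1 : ℝ)) (x0 + h * (j : ℝ)) :=
      Finset.sum_nonneg (fun i _ => (ind_bd _ _).1)
    have h9 : q - κ ≤ min q (x0 + h * (N : ℝ)) := le_min (by linarith) (by linarith)
    have h10 : max p x0 ≤ p + κ + 2 * h := max_le (by linarith) (by linarith)
    by_cases hneg : q - p - 2 * κ - 2 * h < 0
    · have : 0 ≤ 1 / (N : ℝ) * ∑ j ∈ Finset.range N,
        (Ioo p q).indicator (fun _ => (1 : ℝ)) (x0 + h * (j : ℝ)) := by positivity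
      linarith
    · push Not at hneg
      have h11 : (q - p - 2 * κ - 2 * h) / h - 1 ≤ ∑ j ∈ Finset.range N,
          (Ioo p q).indicator (fun _ => (1 : ℝ)) (x0 + h * (j : ℝ)) := by
        refine le_trans ?_ hlo
        have : (q - p - 2 * κ - 2 * h) / h ≤ (min q (x0 + h * (N : ℝ)) - max p x0) / h :=
          div_le_div_of_nonneg_right (by linarith) hh.le
        linarith
      have h12 : 1 / (N : ℝ) * ((q - p - 2 * κ - 2 * h) / h - 1) ≤ 1 / (N : ℝ) *
          ∑ j ∈ Finset.range N, (Ioo p q).indicator (fun _ => (1 : ℝ)) (x0 + h * (j : ℝ)) :=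
        mul_le_mul_of_nonneg_left h11 (by positivity)
      have h13 : 1 / (N : ℝ) * ((q - p - 2 * κ - 2 * h) / h - 1)
          = (q - p - 2 * κ - 2 * h) / (h * (N : ℝ)) - 1 / (N : ℝ) := by
        field_simp
      have h14 : q - p - 2 * κ - 2 * h ≤ (q - p - 2 * κ - 2 * h) / (h * (N : ℝ)) := by
        rw [le_div_iff₀ hhN]; nlinarith
      rw [h13] at h12
      linarith

/-- reflection `y ↦ 3 - y`. -/
theorem Disc.reflect {ι : Type*} {s : Finset ι} {pt : ι → ℝ} {w rho del : ℝ}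
    (h : Disc s pt w rho 1 2 del) : Disc s (fun i => 3 - pt i) w rho 1 2 del := by
  intro I hI
  have hpre : ((fun x : ℝ => 3 - x) ⁻¹' I).OrdConnected := by
    constructor
    intro a ha b hb x hx
    exact hI.out hb ha ⟨by simp only; linarith [hx.2], by simp only; linarith [hx.1]⟩
  have h1 := h _ hpre
  have e1 : ∀ i, ((fun x : ℝ => 3 - x) ⁻¹' I).indicator (fun _ => (1 : ℝ)) (pt i)
      = I.indicator (fun _ => (1 : ℝ)) (3 - pt i) := by
    intro i
    by_cases hi : 3 - pt i ∈ I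
    · rw [indicator_of_mem hi, indicator_of_mem (show pt i ∈ (fun x : ℝ => 3 - x) ⁻¹' I from hi)]
    · rw [indicator_of_notMem hi,
        indicator_of_notMem (show pt i ∉ (fun x : ℝ => 3 - x) ⁻¹' I from hi)]
  have e2 : volume.real ((fun x : ℝ => 3 - x) ⁻¹' I ∩ Icc 1 2) = volume.real (I ∩ Icc 1 2) := by
    have e3 : (fun x : ℝ => 3 - x) ⁻¹' I ∩ Icc 1 2 = (fun x : ℝ => 3 - x) ⁻¹' (I ∩ Icc 1 2) := by
      ext x
      simp only [mem_inter_iff, mem_preimage, mem_Icc]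
      constructor
      · rintro ⟨h1, h2, h3⟩; exact ⟨h1, by linarith, by linarith⟩
      · rintro ⟨h1, h2, h3⟩; exact ⟨h1, by linarith, by linarith⟩
    rw [e3]
    simp only [Measure.real]
    congr 1
    exact (Measure.measurePreserving_sub_left volume (3:ℝ)).measure_preimage
      ((hI.inter ordConnected_Icc).measurableSet.nullMeasurableSet)
  simp only [e1, e2] at h1
  exact h1

end PGrK
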