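import Mathlib
set_option autoImplicit false

/-!
Part K of project PGr: elementary integration lemmas for piecewise affine functions.
-/

open MeasureTheory intervalIntegral Set

namespace PGrK

/-- `f` is interval integrable on `a..b` with integral `v`. -/
def HI (f : ℝ → ℝ) (a b v : ℝ) : Prop :=
  IntervalIntegrable f volume a b ∧ ∫ x in a..b, f x = v

theorem HI.integrable {f : ℝ → ℝ} {a b v : ℝ} (h : HI f a b v) :
    IntervalIntegrable f volume a b := h.1

theorem HI.integral {f : ℝ → ℝ} {a b v : ℝ} (h : HI f a b v) : ∫ x in a..b, f x = v := h.2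

theorem HI.trans {f : ℝ → ℝ} {a b c v w : ℝ} (h : HI f a b v) (h' : HI f b c w) :
    HI f a c (v + w) := by
  refine ⟨h.1.trans h'.1, ?_⟩
  rw [← integral_add_adjacent_intervals h.1 h'.1, h.2, h'.2]

theorem HI.ends {f : ℝ → ℝ} {a b a' b' v : ℝ} (h : HI f a b v) (ha : a = a') (hb : b = b') :
    HI f a' b' v := by
  subst ha; subst hb; exact h

theorem HI.of_eq {f : ℝ → ℝ} {a b v w : ℝ} (h : HI f a b v) (e : v = w) : HI f a b w := e ▸ h

theorem ae_Ioo {a b : ℝ} {f g : ℝ → ℝ} (hab : a ≤ b) (h : ∀ x ∈ Ioo a b, f x = g x) :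
    g =ᵐ[volume.restrict (uIoc a b)] f := by
  rw [uIoc_of_le hab]
  have : volume.restrict (Ioc a b) = volume.restrict (Ioo a b) :=
    Measure.restrict_congr_set Ioo_ae_eq_Ioc.symm
  rw [this]
  filter_upwards [ae_restrict_mem measurableSet_Ioo] with x hx
  exact (h x hx).symm

theorem HI.congr {f g : ℝ → ℝ} {a b v : ℝ} (hab : a ≤ b) (h : ∀ x ∈ Ioo a b, f x = g x)
    (hg : HI g a b v) : HI f a b v := by
  have hae := ae_Ioo hab h
  refine ⟨hg.1.congr_ae hae, ?_⟩
  rw [← hg.2]
  apply intervalIntegral.integral_congr_ae_restrict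
  exact hae.symm

theorem HI.affine (α β a b : ℝ) :
    HI (fun x => α * x + β) a b ((b - a) * (α * ((a + b) / 2) + β)) := by
  have hc : Continuous (fun x : ℝ => α * x + β) := by fun_prop
  refine ⟨hc.intervalIntegrable _ _, ?_⟩
  rw [intervalIntegral.integral_add (by apply Continuous.intervalIntegrable; fun_prop)
    (by apply Continuous.intervalIntegrable; fun_prop)]
  rw [intervalIntegral.integral_const_mul, integral_id, intervalIntegral.integral_const,
    smul_eq_mul]
  ring

/-- integral of a function which is affine on the open interval (midpoint rule). -/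
theorem HI.of_affine {f : ℝ → ℝ} {a b : ℝ} (hab : a ≤ b) (g : ℝ → ℝ) (α β : ℝ)
    (hg : ∀ x, g x = α * x + β) (h : ∀ x ∈ Ioo a b, f x = g x) :
    HI f a b ((b - a) * g ((a + b) / 2)) := by
  have h1 : HI f a b ((b - a) * (α * ((a + b) / 2) + β)) :=
    HI.congr hab (g := fun x => α * x + β) (fun x hx => by rw [h x hx, hg]) (HI.affine α β a b)
  rw [hg]; exact h1

/-- concatenation over unit cells. -/
theorem HI.sum_cells {f : ℝ → ℝ} (v : ℕ → ℝ) (m : ℕ)
    (h : ∀ x < m, HI f (x : ℝ) ((x : ℝ) + 1) (v x)) :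
    HI f 0 (m : ℝ) (∑ x ∈ Finset.range m, v x) := by
  induction m with
  | zero =>
    simp only [Nat.cast_zero, Finset.range_zero, Finset.sum_empty]
    exact ⟨by simp, by simp⟩
  | succ m ih =>
    rw [Finset.sum_range_succ]
    have h1 := ih (fun x hx => h x (Nat.lt_succ_of_lt hx))
    have h2 := h m (Nat.lt_succ_self m)
    have := h1.trans h2
    push_cast
    exact this

theorem HI.zero {f : ℝ → ℝ} {a b : ℝ} (hab : a ≤ b) (h : ∀ x ∈ Ioo a b, f x = 0) :
    HI f a b 0 := by
  have := HI.of_affine hab (fun _ => 0) 0 0 (fun x => by simp) h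
  exact this.of_eq (by simp)

end PGrK
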