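import Pool.Agent.PGr.NibRound

/-!
# PGr tools: the weighted nibble

A weighted `r`-uniform hypergraph with degrees at most one and small pair degrees has a matching of
size almost the total weight.
-/

namespace Pool.Agent.PGr

open Finset Nib

universe u v

/-- The proportion obtained after `k` rounds. -/
private noncomputable def cs (r : ℕ) (ε γ : ℝ) : ℕ → ℝ
  | 0 => 0
  | k + 1 => ε * (1 - r * ε) + cs r ε γ k * ((1 - ε) * (1 - 2 * γ))

private theorem cs_nonneg {r : ℕ} {ε γ : ℝ} (hε0 : 0 ≤ ε) (hε1 : ε ≤ 1) (hrε : r * ε ≤ 1)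
    (hγ : 2 * γ ≤ 1) (k : ℕ) : 0 ≤ cs r ε γ k := by
  induction k with
  | zero => exact le_rfl
  | succ k ih =>
    unfold cs
    have h1 : 0 ≤ ε * (1 - r * ε) := mul_nonneg hε0 (by linarith)
    have h2 : 0 ≤ (1 - ε) * (1 - 2 * γ) := mul_nonneg (by linarith) (by linarith)
    positivity

private theorem iter {r : ℕ} (hr : 2 ≤ r) {ε γ : ℝ} (hε0 : 0 ≤ ε) (hε1 : ε ≤ 1 / 2)
    (hrε : r * ε ≤ 1) (hγ0 : 0 < γ) (hγ : 2 * γ ≤ 1) (k : ℕ) :
    ∃ δ : ℝ, 0 < δ ∧ ∀ (V : Type u) (J : Type v) [DecidableEq V] [DecidableEq J] (E : Finset J)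
      (S : J → Finset V) (w : J → ℝ), OK r δ E S w →
      ∃ M ⊆ E, (∀ i ∈ M, ∀ j ∈ M, i ≠ j → Disjoint (S i) (S j)) ∧
        cs r ε γ k * ∑ j ∈ E, w j ≤ (M.card : ℝ) := by
  have hr0 : (0 : ℝ) < r := by
    have : 0 < r := by omega
    exact_mod_cast this
  induction k with
  | zero =>
    refine ⟨1, one_pos, fun V J _ _ E S w _ => ⟨∅, empty_subset _, by simp, ?_⟩⟩
    simp [cs]
  | succ k ih =>
    obtain ⟨δ₀, hδ₀, hk⟩ := ih
    set K : ℝ := 16 * (r : ℝ) ^ 2 + 4 ^ r * r with hK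
    have hK0 : 0 < K := by positivity
    set δ : ℝ := min (δ₀ / 2 ^ r) (min (1 / (8 * (r : ℝ) ^ 2)) (γ ^ 3 / (8 * K * r))) with hδ
    have hδ0 : 0 < δ := by
      refine lt_min ?_ (lt_min ?_ ?_) <;> positivity
    have hδa : 2 ^ r * δ ≤ δ₀ := by
      have h1 : δ ≤ δ₀ / 2 ^ r := min_le_left _ _
      rw [le_div_iff₀ (by positivity)] at h1
      linarith
    have hδb : 8 * (r : ℝ) ^ 2 * δ ≤ 1 := by
      have h1 : δ ≤ 1 / (8 * (r : ℝ) ^ 2) := (min_le_right _ _).trans (min_le_left _ _)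
      rw [le_div_iff₀ (by positivity)] at h1
      linarith
    have hδc : 8 * (16 * (r : ℝ) ^ 2 + 4 ^ r * r) * r * δ ≤ γ ^ 3 := by
      have h1 : δ ≤ γ ^ 3 / (8 * K * r) := (min_le_right _ _).trans (min_le_right _ _)
      rw [le_div_iff₀ (by positivity)] at h1
      linarith
    refine ⟨δ, hδ0, fun V J _ _ E S w h => ?_⟩
    have hc0 := cs_nonneg (r := r) (γ := γ) hε0 (by linarith) hrε hγ k
    obtain ⟨M, hM, hMd, E', hE', w', hOK, hdis, hineq⟩ :=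
      round hr hγ0 (by linarith) hc0 hε0 hε1 hδ0.le hδb hδc h
    have hOK' : OK r δ₀ E' S w' :=
      ⟨hOK.card, hOK.nonneg, hOK.deg_le, fun u v huv => (hOK.codeg_le u v huv).trans hδa⟩
    obtain ⟨M', hM', hMd', hineq'⟩ := hk V J E' S w' hOK'
    have hdd : Disjoint M M' := by
      rw [disjoint_left]
      intro i hi hi'
      have h1 := hdis i hi i (hM' hi')
      rw [disjoint_self, bot_eq_empty] at h1
      have h2 := h.card i (hM hi)
      rw [h1, card_empty] at h2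
      omega
    refine ⟨M ∪ M', union_subset hM (hM'.trans hE'), ?_, ?_⟩
    · intro i hi j hj hij
      rw [mem_union] at hi hj
      rcases hi with hi | hi <;> rcases hj with hj | hj
      · exact hMd i hi j hj hij
      · exact hdis i hi j (hM' hj)
      · exact (hdis j hj i (hM' hi)).symm
      · exact hMd' i hi j hj hij
    · rw [card_union_of_disjoint hdd]
      push_cast
      unfold cs
      linarith

private theorem cs_ge {r : ℕ} {ε γ η : ℝ} (hη0 : 0 < η) (hη1 : η ≤ 1) (hε0 : 0 < ε)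
    (hε1 : ε ≤ 1 / 2) (hrε : r * ε = η / 4) (hγ : γ = ε * η / 8) (k : ℕ) :
    (1 - η / 2) * (1 - ((1 - ε) * (1 - 2 * γ)) ^ k) ≤ cs r ε γ k := by
  have hγ0 : 0 ≤ γ := by rw [hγ]; positivity
  have hγ1 : 2 * γ ≤ 1 := by rw [hγ]; nlinarith
  have hq0 : 0 ≤ (1 - ε) * (1 - 2 * γ) := mul_nonneg (by linarith) (by linarith)
  induction k with
  | zero => simp [cs]
  | succ k ih =>
    unfold cs
    rw [hrε]
    set q := (1 - ε) * (1 - 2 * γ) with hq
    have h1 : (1 - η / 2) * (1 - q) ≤ ε * (1 - η / 4) := by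
      have h2 : 1 - q ≤ ε * (1 + η / 4) := by
        rw [hq, hγ]
        nlinarith [mul_nonneg hε0.le hη0.le, mul_nonneg (mul_nonneg hε0.le hη0.le) hε0.le]
      have h3 : (1 - η / 2) * (1 - q) ≤ (1 - η / 2) * (ε * (1 + η / 4)) :=
        mul_le_mul_of_nonneg_left h2 (by linarith)
      have h4 : 0 ≤ ε * η ^ 2 := by positivity
      nlinarith
    have h5 : q * ((1 - η / 2) * (1 - q ^ k)) ≤ q * cs r ε γ k :=
      mul_le_mul_of_nonneg_left ih hq0
    rw [pow_succ]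
    nlinarith

/-- **The weighted nibble.** -/
theorem nibble (r : ℕ) (hr : 2 ≤ r) (η : ℝ) (hη : 0 < η) :
    ∃ δ : ℝ, 0 < δ ∧ ∀ (V : Type u) (J : Type v) [DecidableEq V] [DecidableEq J] (E : Finset J)
      (S : J → Finset V) (w : J → ℝ), (∀ j ∈ E, (S j).card = r) → (∀ j ∈ E, 0 ≤ w j) →
      (∀ v, ∑ j ∈ E.filter (fun j => v ∈ S j), w j ≤ 1) →
      (∀ u v, u ≠ v → ∑ j ∈ E.filter (fun j => u ∈ S j ∧ v ∈ S j), w j ≤ δ) →
      ∃ M ⊆ E, (∀ i ∈ M, ∀ j ∈ M, i ≠ j → Disjoint (S i) (S j)) ∧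
        (1 - η) * ∑ j ∈ E, w j ≤ (M.card : ℝ) := by
  -- reduce to `η ≤ 1`
  wlog hη1 : η ≤ 1 generalizing η with H
  · obtain ⟨δ, hδ, h⟩ := H 1 one_pos le_rfl
    refine ⟨δ, hδ, fun V J _ _ E S w h1 h2 h3 h4 => ?_⟩
    obtain ⟨M, hM, hMd, hineq⟩ := h V J E S w h1 h2 h3 h4
    refine ⟨M, hM, hMd, le_trans ?_ hineq⟩
    refine mul_le_mul_of_nonneg_right ?_ (sum_nonneg h2)
    linarith
  have hr0 : (2 : ℝ) ≤ r := by exact_mod_cast hr
  have hr1 : (0 : ℝ) < r := by linarith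
  set ε : ℝ := η / (4 * r) with hε
  have hε0 : 0 < ε := by positivity
  have hrε : r * ε = η / 4 := by
    rw [hε]
    field_simp
  have hε1 : ε ≤ 1 / 2 := by nlinarith
  set γ : ℝ := ε * η / 8 with hγ
  have hγ0 : 0 < γ := by positivity
  have hγ1 : 2 * γ ≤ 1 := by rw [hγ]; nlinarith
  have hq0 : 0 ≤ (1 - ε) * (1 - 2 * γ) := mul_nonneg (by linarith) (by linarith)
  have hq1 : (1 - ε) * (1 - 2 * γ) < 1 := by nlinarith
  obtain ⟨k, hk⟩ := exists_pow_lt_of_lt_one (by positivity : (0 : ℝ) < η / 2) hq1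
  obtain ⟨δ, hδ, h⟩ := iter.{u, v} hr hε0.le hε1 (by rw [hrε]; linarith) hγ0 hγ1 k
  refine ⟨δ, hδ, fun V J _ _ E S w h1 h2 h3 h4 => ?_⟩
  obtain ⟨M, hM, hMd, hineq⟩ := h V J E S w ⟨h1, h2, h3, h4⟩
  refine ⟨M, hM, hMd, le_trans ?_ hineq⟩
  refine mul_le_mul_of_nonneg_right ?_ (sum_nonneg h2)
  refine le_trans ?_ (cs_ge hη hη1 hε0 hε1 hrε rfl k)
  have h5 : 0 ≤ ((1 - ε) * (1 - 2 * γ)) ^ k := pow_nonneg hq0 k
  nlinarith

end Pool.Agent.PGr
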