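import Mathlib
set_option autoImplicit false

/-!
Part K of project PGr: quadrature for quasi-concave functions (layer cake form of Koksma's inequality).
-/

open MeasureTheory intervalIntegral Set

namespace PGrK

/-- bounded nonnegative quasi-concave functions on the line. -/
structure Q1 (g : ℝ → ℝ) (B : ℝ) : Prop where
  nonneg : ∀ x, 0 ≤ g x
  le : ∀ x, g x ≤ B
  oc : ∀ r : ℝ, 0 ≤ r → OrdConnected {x | r < g x}

theorem Q1.meas {g : ℝ → ℝ} {B : ℝ} (h : Q1 g B) : Measurable g := by
  apply measurable_of_Ioi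
  intro r
  by_cases hr : 0 ≤ r
  · exact (h.oc r hr).measurableSet
  · have : g ⁻¹' Ioi r = univ := by
      ext x
      simp only [mem_preimage, mem_Ioi, mem_univ, iff_true]
      linarith [h.nonneg x, not_le.1 hr]
    rw [this]
    exact MeasurableSet.univ

theorem Q1.B_nonneg {g : ℝ → ℝ} {B : ℝ} (h : Q1 g B) : 0 ≤ B := le_trans (h.nonneg 0) (h.le 0)

/-- measurable bounded functions are interval integrable. -/
theorem ii_of_bdd {g : ℝ → ℝ} (hm : Measurable g) {C : ℝ} (hC : ∀ x, |g x| ≤ C) (a b : ℝ) :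
    IntervalIntegrable g volume a b := by
  have : IntervalIntegrable (fun _ : ℝ => C) volume a b := intervalIntegrable_const
  refine this.mono_fun hm.aestronglyMeasurable ?_
  filter_upwards with x
  rw [Real.norm_eq_abs, Real.norm_eq_abs]
  exact le_trans (hC x) (le_abs_self _)

theorem Q1.ii {g : ℝ → ℝ} {B : ℝ} (h : Q1 g B) (a b : ℝ) : IntervalIntegrable g volume a b :=
  ii_of_bdd h.meas (C := B) (fun x => by rw [abs_of_nonneg (h.nonneg x)]; exact h.le x) a b

/-- the (weighted) number of points in the set `I` is close to the measure of `I`. -/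
def Disc {ι : Type*} (s : Finset ι) (pt : ι → ℝ) (w rho al be del : ℝ) : Prop :=
  ∀ I : Set ℝ, I.OrdConnected →
    |w * (∑ i ∈ s, I.indicator (fun _ => (1 : ℝ)) (pt i)) - rho * volume.real (I ∩ Icc al be)| ≤ del

theorem layer_pt {y B : ℝ} (h0 : 0 ≤ y) (hB : y ≤ B) :
    ∫ r in (0:ℝ)..B, (Iio y).indicator (fun _ => (1 : ℝ)) r = y := by
  rw [intervalIntegral.integral_of_le (le_trans h0 hB)]
  rw [setIntegral_indicator measurableSet_Iio]
  rw [setIntegral_const]
  have : Ioc 0 B ∩ Iio y = Ioo 0 y := by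
    ext r
    simp only [mem_inter_iff, mem_Ioc, mem_Iio, mem_Ioo]
    constructor
    · rintro ⟨⟨h1, _⟩, h3⟩; exact ⟨h1, h3⟩
    · rintro ⟨h1, h2⟩; exact ⟨⟨h1, by linarith⟩, h2⟩
  rw [this]
  simp [Measure.real, h0]

theorem ii_ind (y a b : ℝ) :
    IntervalIntegrable ((Iio y).indicator (fun _ => (1 : ℝ))) volume a b := by
  apply ii_of_bdd (C := 1)
  · exact measurable_const.indicator measurableSet_Iio
  · intro x
    by_cases hx : x ∈ Iio y
    · rw [indicator_of_mem hx]; simp
    · rw [indicator_of_notMem hx]; simp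

theorem anti_vol (g : ℝ → ℝ) (al be : ℝ) :
    Antitone (fun r => volume.real ({x | r < g x} ∩ Icc al be)) := by
  intro r r' hrr
  apply measureReal_mono
  · intro x hx
    exact ⟨lt_of_le_of_lt hrr hx.1, hx.2⟩
  · exact ((measure_mono inter_subset_right).trans_lt isCompact_Icc.measure_lt_top).ne

theorem layer_vol {g : ℝ → ℝ} {B : ℝ} (h : Q1 g B) {al be : ℝ} (hab : al ≤ be) :
    ∫ x in al..be, g x = ∫ r in (0:ℝ)..B, volume.real ({x | r < g x} ∩ Icc al be) := by
  rw [intervalIntegral.integral_of_le hab, ← integral_Icc_eq_integral_Ioc]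
  have hi : Integrable g (volume.restrict (Icc al be)) := by
    have := (h.ii al be).1
    rwa [← integrableOn_Icc_iff_integrableOn_Ioc] at this
  rw [hi.integral_eq_integral_meas_lt (Filter.Eventually.of_forall h.nonneg)]
  rw [intervalIntegral.integral_of_le h.B_nonneg]
  have hsub : Ioc 0 B ⊆ Ioi (0:ℝ) := fun r hr => hr.1
  rw [← setIntegral_eq_of_subset_of_forall_sdiff_eq_zero measurableSet_Ioi hsub]
  · apply setIntegral_congr_fun measurableSet_Ioi
    intro r _
    simp only [Measure.real]
    rw [Measure.restrict_apply (measurableSet_lt measurable_const h.meas)]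
  · rintro r ⟨hr, hr'⟩
    have hr0 : (0:ℝ) < r := hr
    have hBr : B < r := by
      by_contra hcon
      exact hr' ⟨hr0, not_lt.1 hcon⟩
    have : {a | r < g a} = ∅ := by
      ext x
      simp only [mem_ofPred_eq, mem_empty_iff_false, iff_false, not_lt]
      linarith [h.le x]
    rw [this]
    simp

/-- quadrature. -/
theorem quad {ι : Type*} (s : Finset ι) (pt : ι → ℝ) {w rho al be del : ℝ} (hab : al ≤ be)
    (hd : Disc s pt w rho al be del) {g : ℝ → ℝ} {B : ℝ} (hg : Q1 g B) :
    |w * (∑ i ∈ s, g (pt i)) - rho * ∫ x in al..be, g x| ≤ B * del := by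
  have h1 : w * (∑ i ∈ s, g (pt i)) =
      ∫ r in (0:ℝ)..B, w * (∑ i ∈ s, {x | r < g x}.indicator (fun _ => (1 : ℝ)) (pt i)) := by
    rw [intervalIntegral.integral_const_mul, intervalIntegral.integral_finsetSum]
    · congr 1
      apply Finset.sum_congr rfl
      intro i _
      rw [← layer_pt (hg.nonneg (pt i)) (hg.le (pt i))]
      rfl
    · intro i _
      exact ii_ind (g (pt i)) 0 B
  have h2 : rho * ∫ x in al..be, g x =
      ∫ r in (0:ℝ)..B, rho * volume.real ({x | r < g x} ∩ Icc al be) := by
    rw [layer_vol hg hab, intervalIntegral.integral_const_mul]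
  rw [h1, h2, ← intervalIntegral.integral_sub]
  · have := intervalIntegral.norm_integral_le_of_norm_le_const (a := (0:ℝ)) (b := B) (C := del)
      (f := fun r => w * (∑ i ∈ s, {x | r < g x}.indicator (fun _ => (1 : ℝ)) (pt i))
        - rho * volume.real ({x | r < g x} ∩ Icc al be)) ?_
    · rw [Real.norm_eq_abs, sub_zero, abs_of_nonneg hg.B_nonneg] at this
      linarith
    · intro r hr
      rw [uIoc_of_le hg.B_nonneg] at hr
      exact hd _ (hg.oc r hr.1.le)
  · apply IntervalIntegrable.const_mul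
    have hs := IntervalIntegrable.sum (μ := volume) (a := (0:ℝ)) (b := B) s
      (f := fun i r => {x | r < g x}.indicator (fun _ => (1 : ℝ)) (pt i))
      (fun i _ => ii_ind (g (pt i)) 0 B)
    have he : (∑ i ∈ s, fun r => {x | r < g x}.indicator (fun _ => (1 : ℝ)) (pt i))
        = fun r => ∑ i ∈ s, {x | r < g x}.indicator (fun _ => (1 : ℝ)) (pt i) := by
      funext r; simp
    rw [he] at hs
    exact hs
  · apply IntervalIntegrable.const_mul
    exact (anti_vol g al be).intervalIntegrable

end PGrK
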