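import Pool.Agent.PGr.KPiece
import Pool.Agent.PGr.KQuad
set_option autoImplicit false

/-!
Part K of project PGr: quadrature for the kernel along lines.
-/

open MeasureTheory intervalIntegral Set

namespace PGrK

theorem QC.line {F : ℝ × ℝ → ℝ} {B : ℝ} (h : QC F B) (a0 a1 s0 s1 : ℝ) {J : Set ℝ}
    (hJ : J.OrdConnected) :
    Q1 (J.indicator (fun x => F (a0 + a1 * x, s0 + s1 * x))) B := by
  have hB : 0 ≤ B := le_trans (h.nonneg 0) (h.le 0)
  refine ⟨?_, ?_, ?_⟩
  · intro x
    by_cases hx : x ∈ J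
    · rw [indicator_of_mem hx]; exact h.nonneg _
    · rw [indicator_of_notMem hx]
  · intro x
    by_cases hx : x ∈ J
    · rw [indicator_of_mem hx]; exact h.le _
    · rw [indicator_of_notMem hx]; exact hB
  · intro r hr
    have e : {x | r < J.indicator (fun x => F (a0 + a1 * x, s0 + s1 * x)) x}
        = J ∩ (fun x : ℝ => ((a0 + a1 * x, s0 + s1 * x) : ℝ × ℝ)) ⁻¹' {z | r < F z} := by
      ext x
      simp only [mem_ofPred_eq, mem_inter_iff, mem_preimage]
      by_cases hx : x ∈ J
      · rw [indicator_of_mem hx]; simp [hx]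
      · rw [indicator_of_notMem hx]
        constructor
        · intro h; linarith
        · rintro ⟨h, _⟩; exact absurd h hx
    rw [e]
    refine hJ.inter ?_
    refine Convex.ordConnected ?_
    intro x hx y hy u v hu hv huv
    have h3 := h.conv r hr hx hy hu hv huv
    have e2 : u • ((a0 + a1 * x, s0 + s1 * x) : ℝ × ℝ) + v • ((a0 + a1 * y, s0 + s1 * y) : ℝ × ℝ)
        = (a0 + a1 * (u • x + v • y), s0 + s1 * (u • x + v • y)) := by
      ext
      · simp only [Prod.fst_add, Prod.smul_fst, smul_eq_mul]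
        linear_combination a0 * huv
      · simp only [Prod.snd_add, Prod.smul_snd, smul_eq_mul]
        linear_combination s0 * huv
    rw [e2] at h3
    exact h3

/-- the kernel on a line, restricted to `J`. -/
noncomputable def kl (p : ℕ) (a0 a1 s0 s1 : ℝ) (J : Set ℝ) (x : ℝ) : ℝ :=
  J.indicator (fun x => ker p (a0 + a1 * x) (s0 + s1 * x)) x

theorem kl_eq (p : ℕ) (a0 a1 s0 s1 : ℝ) (J : Set ℝ) (x : ℝ) : kl p a0 a1 s0 s1 J x =
    ∑ c ∈ Finset.range 2, ∑ y ∈ Finset.range 8,
      (J.indicator (fun x => pcL p c y (a0 + a1 * x, s0 + s1 * x)) x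
        + J.indicator (fun x => pcU p c y (a0 + a1 * x, s0 + s1 * x)) x) := by
  unfold kl
  by_cases hx : x ∈ J
  · simp only [indicator_of_mem hx]
    exact ker_eq_sum p (a0 + a1 * x, s0 + s1 * x)
  · simp only [indicator_of_notMem hx]
    simp

theorem quad_kl {ι : Type*} (s : Finset ι) (pt : ι → ℝ) {w rho al be del : ℝ} (hab : al ≤ be)
    (hd : Disc s pt w rho al be del) {p : ℕ} (hp : p < 2) (a0 a1 s0 s1 : ℝ) {J : Set ℝ}
    (hJ : J.OrdConnected) :
    |w * (∑ i ∈ s, kl p a0 a1 s0 s1 J (pt i)) - rho * ∫ x in al..be, kl p a0 a1 s0 s1 J x|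
      ≤ 250 * del := by
  have hdel : 0 ≤ del := le_trans (abs_nonneg _) (hd ∅ ordConnected_empty)
  have hQL : ∀ c ∈ Finset.range 2, ∀ y ∈ Finset.range 8,
      Q1 (J.indicator (fun x => pcL p c y (a0 + a1 * x, s0 + s1 * x))) (77 / 10) :=
    fun c hc y hy => (qc_L hp (Finset.mem_range.1 hc) (Finset.mem_range.1 hy)).line _ _ _ _ hJ
  have hQU : ∀ c ∈ Finset.range 2, ∀ y ∈ Finset.range 8,
      Q1 (J.indicator (fun x => pcU p c y (a0 + a1 * x, s0 + s1 * x))) (77 / 10) :=
    fun c hc y hy => (qc_U hp (Finset.mem_range.1 hc) (Finset.mem_range.1 hy)).line _ _ _ _ hJ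
  have e1 : w * (∑ i ∈ s, kl p a0 a1 s0 s1 J (pt i)) =
      ∑ c ∈ Finset.range 2, ∑ y ∈ Finset.range 8,
        (w * (∑ i ∈ s, J.indicator (fun x => pcL p c y (a0 + a1 * x, s0 + s1 * x)) (pt i))
         + w * (∑ i ∈ s, J.indicator (fun x => pcU p c y (a0 + a1 * x, s0 + s1 * x)) (pt i))) := by
    simp only [kl_eq]
    rw [Finset.sum_comm, Finset.mul_sum]
    apply Finset.sum_congr rfl
    intro c _
    rw [Finset.sum_comm, Finset.mul_sum]
    apply Finset.sum_congr rfl
    intro y _
    rw [Finset.sum_add_distrib, mul_add]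
  have e2 : rho * (∫ x in al..be, kl p a0 a1 s0 s1 J x) =
      ∑ c ∈ Finset.range 2, ∑ y ∈ Finset.range 8,
        (rho * (∫ x in al..be, J.indicator (fun x => pcL p c y (a0 + a1 * x, s0 + s1 * x)) x)
         + rho * (∫ x in al..be,
            J.indicator (fun x => pcU p c y (a0 + a1 * x, s0 + s1 * x)) x)) := by
    have : ∀ x, kl p a0 a1 s0 s1 J x = _ := kl_eq p a0 a1 s0 s1 J
    simp only [this]
    rw [intervalIntegral.integral_finsetSum, Finset.mul_sum]
    · apply Finset.sum_congr rfl
      intro c hc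
      rw [intervalIntegral.integral_finsetSum, Finset.mul_sum]
      · apply Finset.sum_congr rfl
        intro y hy
        rw [intervalIntegral.integral_add ((hQL c hc y hy).ii _ _) ((hQU c hc y hy).ii _ _),
          mul_add]
      · intro y hy
        exact ((hQL c hc y hy).ii _ _).add ((hQU c hc y hy).ii _ _)
    · intro c hc
      have hs := IntervalIntegrable.sum (μ := volume) (a := al) (b := be) (Finset.range 8)
        (f := fun y x => J.indicator (fun x => pcL p c y (a0 + a1 * x, s0 + s1 * x)) x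
          + J.indicator (fun x => pcU p c y (a0 + a1 * x, s0 + s1 * x)) x)
        (fun y hy => ((hQL c hc y hy).ii _ _).add ((hQU c hc y hy).ii _ _))
      have he : (∑ y ∈ Finset.range 8,
          fun x => J.indicator (fun x => pcL p c y (a0 + a1 * x, s0 + s1 * x)) x
          + J.indicator (fun x => pcU p c y (a0 + a1 * x, s0 + s1 * x)) x)
          = fun x => ∑ y ∈ Finset.range 8,
          (J.indicator (fun x => pcL p c y (a0 + a1 * x, s0 + s1 * x)) x
          + J.indicator (fun x => pcU p c y (a0 + a1 * x, s0 + s1 * x)) x) := by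
        funext x; simp
      rw [he] at hs
      exact hs
  rw [e1, e2, ← Finset.sum_sub_distrib]
  refine le_trans (Finset.abs_sum_le_sum_abs _ _) ?_
  have hc : ∀ c ∈ Finset.range 2, |(∑ y ∈ Finset.range 8,
        (w * (∑ i ∈ s, J.indicator (fun x => pcL p c y (a0 + a1 * x, s0 + s1 * x)) (pt i))
         + w * (∑ i ∈ s, J.indicator (fun x => pcU p c y (a0 + a1 * x, s0 + s1 * x)) (pt i))))
      - ∑ y ∈ Finset.range 8,
        (rho * (∫ x in al..be, J.indicator (fun x => pcL p c y (a0 + a1 * x, s0 + s1 * x)) x)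
         + rho * (∫ x in al..be,
            J.indicator (fun x => pcU p c y (a0 + a1 * x, s0 + s1 * x)) x))|
      ≤ ∑ y ∈ Finset.range 8, (2 * (77 / 10) * del) := by
    intro c hc
    rw [← Finset.sum_sub_distrib]
    refine le_trans (Finset.abs_sum_le_sum_abs _ _) ?_
    apply Finset.sum_le_sum
    intro y hy
    have q1 := quad s pt hab hd (hQL c hc y hy)
    have q2 := quad s pt hab hd (hQU c hc y hy)
    rw [abs_le] at q1 q2 ⊢
    constructor <;> linarith [q1.1, q1.2, q2.1, q2.2]
  refine le_trans (Finset.sum_le_sum hc) ?_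
  simp only [Finset.sum_const, Finset.card_range, nsmul_eq_mul]
  push_cast
  nlinarith

end PGrK
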