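import Mathlib

/-!
# PGr, module CFlow: the flow lemma (7.6), pure finite linear algebra

PLAN. `N d d' = ∑_{j ∈ J} Q d j * Q d' j`. For `d, d' ∈ A` at most `|J|/10` of the `j` have `Q d j < c4`,
the same for `d'`, so `N d d' ≥ c4^2 (8/10) |J| > 0`. Put
`g d j = (1/|A|) ∑_{d' ∈ A} (E d - E d') * Q d' j / N d d'`. Then
`∑_j Q d j g d j = (1/|A|) ∑_{d'} (E d - E d') = E d - (1/|A|) ∑ E = E d`;
`∑_d Q d j g d j = (1/|A|) ∑_{d,d'} (E d - E d') Q d j Q d' j / N d d' = 0` (the summand changes its sign if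
d and d' are exchanged, N is symmetric);
`|g d j| ≤ 2 ε C4 / ((8/10) c4^2 |J|) ≤ 3 ε C4 / (c4^2 |J|)`.
If `A` is empty everything is trivial (g = 0).
-/

namespace Pool.Agent.PGr

open Finset

private theorem flow_low {X : Type*} (J : Finset X) (q q' : X → ℝ) (c4 : ℝ) (hc : 0 < c4)
    (h0 : ∀ j ∈ J, 0 ≤ q j) (h0' : ∀ j ∈ J, 0 ≤ q' j)
    (h2 : 10 * (J.filter (fun j => q j < c4)).card ≤ J.card)
    (h2' : 10 * (J.filter (fun j => q' j < c4)).card ≤ J.card) :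
    c4 ^ 2 * ((8 / 10 : ℝ) * J.card) ≤ ∑ j ∈ J, q j * q' j := by
  have h1 : ∀ j ∈ J, c4 ^ 2 * (1 - (if q j < c4 then (1 : ℝ) else 0) -
      (if q' j < c4 then (1 : ℝ) else 0)) ≤ q j * q' j := by
    intro j hj
    have a := h0 j hj
    have b := h0' j hj
    have hab : 0 ≤ q j * q' j := mul_nonneg a b
    have hcc : 0 < c4 ^ 2 := by positivity
    by_cases ha : q j < c4
    · rw [if_pos ha]
      split_ifs
      · nlinarith
      · nlinarith
    · rw [if_neg ha]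
      split_ifs with hb
      · nlinarith
      · have := mul_le_mul (not_lt.1 ha) (not_lt.1 hb) hc.le a
        nlinarith
  refine le_trans ?_ (sum_le_sum h1)
  rw [← mul_sum, sum_sub_distrib, sum_sub_distrib, sum_const, nsmul_eq_mul, mul_one,
    ← sum_filter, ← sum_filter, sum_const, sum_const, nsmul_eq_mul, nsmul_eq_mul, mul_one,
    mul_one]
  have e1 : (10 : ℝ) * ((J.filter (fun j => q j < c4)).card : ℝ) ≤ (J.card : ℝ) := by
    exact_mod_cast h2
  have e2 : (10 : ℝ) * ((J.filter (fun j => q' j < c4)).card : ℝ) ≤ (J.card : ℝ) := by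
    exact_mod_cast h2'
  refine mul_le_mul_of_nonneg_left ?_ (by positivity)
  linarith

theorem flow {X : Type*} (A J : Finset X) (Q : X → X → ℝ) (E : X → ℝ) (c4 C4 ε : ℝ)
    (hc : 0 < c4) (hε : 0 ≤ ε) (hJ : J.Nonempty)
    (hQ0 : ∀ d ∈ A, ∀ j ∈ J, 0 ≤ Q d j) (hQ1 : ∀ d ∈ A, ∀ j ∈ J, Q d j ≤ C4)
    (hQ2 : ∀ d ∈ A, 10 * (J.filter (fun j => Q d j < c4)).card ≤ J.card)
    (hE : ∀ d ∈ A, |E d| ≤ ε) (hsum : ∑ d ∈ A, E d = 0) :
    ∃ g : X → X → ℝ, (∀ d ∈ A, ∀ j ∈ J, |g d j| ≤ 3 * ε * C4 / (c4 ^ 2 * J.card)) ∧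
      (∀ d ∈ A, ∑ j ∈ J, Q d j * g d j = E d) ∧
      (∀ j ∈ J, ∑ d ∈ A, Q d j * g d j = 0) := by
  rcases A.eq_empty_or_nonempty with rfl | hA
  · exact ⟨fun _ _ => 0, by simp, by simp, by simp⟩
  have hJc : (0 : ℝ) < J.card := by exact_mod_cast hJ.card_pos
  have hAc : (0 : ℝ) < A.card := by exact_mod_cast hA.card_pos
  have hC4 : 0 ≤ C4 := by
    obtain ⟨d, hd⟩ := hA
    obtain ⟨j, hj⟩ := hJ
    exact (hQ0 d hd j hj).trans (hQ1 d hd j hj)
  obtain ⟨N, hN⟩ : ∃ N : X → X → ℝ, ∀ d d', N d d' = ∑ j ∈ J, Q d j * Q d' j := ⟨_, fun _ _ => rfl⟩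
  have hlow : ∀ d ∈ A, ∀ d' ∈ A, c4 ^ 2 * ((8 / 10 : ℝ) * J.card) ≤ N d d' := by
    intro d hd d' hd'
    rw [hN]
    exact flow_low J (Q d) (Q d') c4 hc (hQ0 d hd) (hQ0 d' hd') (hQ2 d hd) (hQ2 d' hd')
  have hpos : ∀ d ∈ A, ∀ d' ∈ A, 0 < N d d' := by
    intro d hd d' hd'
    refine lt_of_lt_of_le ?_ (hlow d hd d' hd')
    positivity
  have hsymm : ∀ d d', N d d' = N d' d := by
    intro d d'
    rw [hN, hN]
    exact sum_congr rfl fun j _ => mul_comm _ _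
  refine ⟨fun d j => (1 / A.card) * ∑ d' ∈ A, (E d - E d') * Q d' j / N d d', ?_, ?_, ?_⟩
  · intro d hd j hj
    rw [abs_mul, abs_of_nonneg (by positivity : (0 : ℝ) ≤ 1 / A.card)]
    have h1 : |∑ d' ∈ A, (E d - E d') * Q d' j / N d d'| ≤
        ∑ _d' ∈ A, 3 * ε * C4 / (c4 ^ 2 * J.card) := by
      refine (abs_sum_le_sum_abs _ _).trans (sum_le_sum fun d' hd' => ?_)
      rw [abs_div, abs_mul, abs_of_nonneg (hQ0 d' hd' j hj), abs_of_pos (hpos d hd d' hd')]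
      have a1 : |E d - E d'| ≤ 2 * ε := by
        refine (abs_sub _ _).trans ?_
        have := hE d hd
        have := hE d' hd'
        linarith
      have a2 : |E d - E d'| * Q d' j ≤ 2 * ε * C4 :=
        mul_le_mul a1 (hQ1 d' hd' j hj) (hQ0 d' hd' j hj) (by positivity)
      rw [div_le_div_iff₀ (hpos d hd d' hd') (by positivity)]
      have a3 := hlow d hd d' hd'
      have a4 : 0 < c4 ^ 2 * (J.card : ℝ) := by positivity
      calc |E d - E d'| * Q d' j * (c4 ^ 2 * J.card) ≤ 2 * ε * C4 * (c4 ^ 2 * J.card) :=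
            mul_le_mul_of_nonneg_right a2 a4.le
        _ ≤ 3 * ε * C4 * (c4 ^ 2 * ((8 / 10 : ℝ) * J.card)) := by
            have : 0 ≤ ε * C4 * (c4 ^ 2 * (J.card : ℝ)) := by positivity
            nlinarith
        _ ≤ 3 * ε * C4 * N d d' := mul_le_mul_of_nonneg_left a3 (by positivity)
    rw [sum_const, nsmul_eq_mul] at h1
    calc (1 / (A.card : ℝ)) * |∑ d' ∈ A, (E d - E d') * Q d' j / N d d'|
        ≤ (1 / (A.card : ℝ)) * (A.card * (3 * ε * C4 / (c4 ^ 2 * J.card))) :=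
          mul_le_mul_of_nonneg_left h1 (by positivity)
      _ = 3 * ε * C4 / (c4 ^ 2 * J.card) := by
          rw [← mul_assoc, one_div, inv_mul_cancel₀ hAc.ne', one_mul]
  · intro d hd
    have h1 : ∀ j ∈ J, Q d j * ((1 / A.card) * ∑ d' ∈ A, (E d - E d') * Q d' j / N d d') =
        (1 / A.card) * ∑ d' ∈ A, (E d - E d') / N d d' * (Q d j * Q d' j) := by
      intro j _
      rw [mul_left_comm, mul_sum]
      congr 1
      refine sum_congr rfl fun d' _ => ?_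
      ring
    rw [sum_congr rfl h1, ← mul_sum, sum_comm]
    have h2 : ∀ d' ∈ A, ∑ j ∈ J, (E d - E d') / N d d' * (Q d j * Q d' j) = E d - E d' := by
      intro d' hd'
      rw [← mul_sum, ← hN, div_mul_cancel₀ _ (hpos d hd d' hd').ne']
    rw [sum_congr rfl h2, sum_sub_distrib, hsum, sub_zero, sum_const, nsmul_eq_mul, ← mul_assoc,
      one_div, inv_mul_cancel₀ hAc.ne', one_mul]
  · intro j hj
    have h1 : ∀ d ∈ A, Q d j * ((1 / A.card) * ∑ d' ∈ A, (E d - E d') * Q d' j / N d d') =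
        (1 / A.card) * ∑ d' ∈ A, (E d - E d') * (Q d j * Q d' j / N d d') := by
      intro d _
      rw [mul_left_comm, mul_sum]
      congr 1
      refine sum_congr rfl fun d' _ => ?_
      ring
    rw [sum_congr rfl h1, ← mul_sum]
    have h2 : ∑ d ∈ A, ∑ d' ∈ A, (E d - E d') * (Q d j * Q d' j / N d d') =
        - ∑ d ∈ A, ∑ d' ∈ A, (E d - E d') * (Q d j * Q d' j / N d d') := by
      conv_lhs => rw [sum_comm]
      rw [← sum_neg_distrib]
      refine sum_congr rfl fun d _ => ?_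
      rw [← sum_neg_distrib]
      refine sum_congr rfl fun d' _ => ?_
      rw [hsymm d' d, mul_comm (Q d' j) (Q d j)]
      ring
    have h3 : ∑ d ∈ A, ∑ d' ∈ A, (E d - E d') * (Q d j * Q d' j / N d d') = 0 := by linarith
    rw [h3, mul_zero]

end Pool.Agent.PGr
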