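import Mathlib
import Pool.Agent.PGr.Defs

/-!
# PGr: abstract data of Theorem II (section 6), property Reg, partial labellings
-/

noncomputable section

namespace Pool.Agent.PGr

open Finset

/-- The data of section 6. -/
structure Dat where
  n : ℕ
  q : ℕ
  S : ℕ
  B0 : ℕ
  nq : NeZero q
  nS : NeZero S
  /-- scheme vertices (black, in `V_s`, not planted) -/
  Sv : Finset ℕ
  /-- unit of a scheme vertex -/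
  un : ℕ → ZMod (q ^ 2)
  /-- label of a scheme vertex as a function of the shift of its unit -/
  Y : ℕ → ZMod (2 * S) → ℤ
  /-- anchors -/
  anc : ℕ → ℤ
  /-- type high -/
  hi : ℕ → Bool
  /-- main items -/
  It : Finset ℕ
  nb1 : ℕ → ℕ
  nb2 : ℕ → ℕ
  /-- labels of planted vertices -/
  pl : ℕ → ℤ
  /-- reserved units and their fixed shifts -/
  Res : Finset (ZMod (q ^ 2))
  th0 : ZMod (q ^ 2) → ZMod (2 * S)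
  /-- labels and differences available to the main items -/
  Z0 : Finset ℤ
  D0 : Finset ℤ
  /-- bad units (missing scheme vertices) -/
  Bd : Finset (ZMod (q ^ 2))
  /-- items used for the switches -/
  IR : Finset ℕ

namespace Dat

variable (D : Dat)

instance : NeZero D.q := D.nq
instance : NeZero D.S := D.nS

/-- The sample space: one shift for every unit. -/
abbrev Om : Type := ZMod (D.q ^ 2) → ZMod (2 * D.S)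

/-- The shifts after fixing the reserved units. -/
def sh (θ : D.Om) (u : ZMod (D.q ^ 2)) : ZMod (2 * D.S) := if u ∈ D.Res then D.th0 u else θ u

/-- The label of a vertex (scheme vertex or planted vertex). -/
def lab (θ : D.Om) (v : ℕ) : ℤ := if v ∈ D.Sv then D.Y v (D.sh θ (D.un v)) else D.pl v

/-- The residue modulo `Q` of the label of a vertex. -/
def cls (v : ℕ) : ZMod (D.q ^ 2) :=
  if v ∈ D.Sv then lam D.q (D.un v) else ((D.pl v : ℤ) : ZMod (D.q ^ 2))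

/-- The label `x` is occupied by a scheme vertex. -/
def occ (θ : D.Om) (x : ℤ) : Prop := ∃ v ∈ D.Sv, D.lab θ v = x

/-- The difference `d` is the spoke of a scheme vertex. -/
def used (θ : D.Om) (d : ℤ) : Prop := ∃ v ∈ D.Sv, |D.lab θ v - D.anc v| = d

/-- Normalised anchor. -/
def A (v : ℕ) : ℤ := if D.hi v then D.anc v else 3 * (D.n : ℤ) - D.anc v

/-- The three differences of an item with label `x`. -/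
def dif (θ : D.Om) (m : ℕ) (x : ℤ) (j : Fin 3) : ℤ :=
  match j with
  | 0 => |x - D.anc m|
  | 1 => |x - D.lab θ (D.nb1 m)|
  | 2 => |x - D.lab θ (D.nb2 m)|

/-- The combinations of an item. -/
def cmb (j : Fin 10) (m : ℕ) : ZMod (D.q ^ 2) :=
  comb j ((D.anc m : ℤ) : ZMod (D.q ^ 2)) (D.cls (D.nb1 m)) (D.cls (D.nb2 m))

/-- Pure items. -/
def pure (m : ℕ) : Prop :=
  D.nb1 m ∈ D.Sv ∧ D.nb2 m ∈ D.Sv ∧ D.un (D.nb1 m) ∉ D.Res ∧ D.un (D.nb2 m) ∉ D.Res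

/-- The vertices which have a label before the items are labelled. -/
def Nb : Finset ℕ := D.Sv ∪ D.It.image D.nb1 ∪ D.It.image D.nb2

open Classical in
/-- Property Reg of section 6. -/
structure Reg (κ c : ℝ) : Prop where
  q_prime : D.q.Prime
  q_big : 17 < D.q
  q_low : D.n ≤ D.q ^ 8
  q_high : D.q ^ 6 ≤ D.n
  S_low : (1 - κ) * D.n ≤ 2 * D.S * (D.q : ℝ) ^ 2
  B0_dvd : D.q ^ 2 ∣ D.B0
  B0_low : D.n ≤ D.B0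
  B0_high : D.B0 + 2 * D.S * D.q ^ 2 ≤ 2 * D.n
  Y_mem : ∀ v ∈ D.Sv, ∀ t, (D.B0 : ℤ) ≤ D.Y v t ∧ D.Y v t < D.B0 + 2 * D.S * D.q ^ 2
  Y_res : ∀ v ∈ D.Sv, ∀ t, ((D.Y v t : ℤ) : ZMod (D.q ^ 2)) = lam D.q (D.un v)
  Y_inj : ∀ v ∈ D.Sv, Function.Injective (D.Y v)
  Y_ne : ∀ v ∈ D.Sv, ∀ v' ∈ D.Sv, D.un v = D.un v' → v ≠ v' → ∀ t, D.Y v t ≠ D.Y v' t
  sp_res : ∀ v ∈ D.Sv, ∀ t, ((|D.Y v t - D.anc v| : ℤ) : ZMod (D.q ^ 2)) = del D.q (D.un v)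
  sp_ne : ∀ v ∈ D.Sv, ∀ v' ∈ D.Sv, D.un v = D.un v' → v ≠ v' →
    ∀ t, |D.Y v t - D.anc v| ≠ |D.Y v' t - D.anc v'|
  sp_hi : ∀ v ∈ D.Sv, D.hi v = true → ∀ t, D.Y v t < D.anc v
  sp_lo : ∀ v ∈ D.Sv, D.hi v = false → ∀ t, D.anc v < D.Y v t
  sp_le : ∀ v ∈ D.Sv, ∀ t, |D.Y v t - D.anc v| ≤ 2 * D.n
  anc_A : ∀ v ∈ D.Sv ∪ D.It, 5 * (D.n : ℤ) ≤ 2 * D.A v ∧ D.A v ≤ 3 * D.n
  anc_inj : ∀ m ∈ D.It, ∀ m' ∈ D.It, D.anc m = D.anc m' → m = m'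
  nb_ne : ∀ m ∈ D.It, D.nb1 m ≠ D.nb2 m
  nb1_inj : ∀ m ∈ D.It, ∀ m' ∈ D.It, D.nb1 m = D.nb1 m' → m = m'
  nb2_inj : ∀ m ∈ D.It, ∀ m' ∈ D.It, D.nb2 m = D.nb2 m' → m = m'
  pl_mem : ∀ m ∈ D.It, ∀ v, (v = D.nb1 m ∨ v = D.nb2 m) → v ∉ D.Sv →
    (9 / 10 : ℝ) * D.n ≤ D.pl v ∧ (D.pl v : ℝ) ≤ (21 / 10) * D.n
  lab_inj : ∀ θ : D.Om, ∀ v ∈ D.Nb, ∀ v' ∈ D.Nb, D.lab θ v = D.lab θ v' → v = v'
  gen : ∀ m ∈ D.It,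
    red D.q ((D.anc m : ℤ) : ZMod (D.q ^ 2)) ≠ red D.q (D.cls (D.nb1 m)) ∧
    red D.q ((D.anc m : ℤ) : ZMod (D.q ^ 2)) ≠ red D.q (D.cls (D.nb2 m)) ∧
    red D.q (D.cls (D.nb1 m)) ≠ red D.q (D.cls (D.nb2 m))
  inf : ∀ j : Fin 10, (j = 0 ∨ j = 1 ∨ j = 2 ∨ j = 5 ∨ j = 6 ∨ j = 7) → ∀ v : ZMod (D.q ^ 2),
    ((D.It.filter (fun m => D.cmb j m = v)).card : ℝ) * √(D.q : ℝ) ≤ D.n
  infR : ∀ (j : Fin 10) (v : ZMod (D.q ^ 2)),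
    ((D.IR.filter (fun m => D.cmb j m = v)).card : ℝ) * √(D.q : ℝ) ≤ D.n
  res : ∀ (j : Fin 10) (e w : ZMod (D.q ^ 2)), pm e →
    ((D.It.filter (fun m => D.pure m ∧ (lamI D.q (e * D.cmb j m + w) ∈ D.Res ∨
      delI D.q (e * D.cmb j m + w) ∈ D.Res))).card : ℝ) ≤ κ * D.n
  resc : (D.Res.card : ℝ) ≤ κ * (D.q : ℝ) ^ 2
  balc : ∀ (b : Bool) (x y : ℤ), 5 * (D.n : ℤ) ≤ 2 * x → x ≤ y → y ≤ 3 * D.n →
    |((D.It.filter (fun m => D.hi m = b ∧ x ≤ D.A m ∧ D.A m < y)).card : ℝ)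
      - ((y : ℝ) - x) / 2| ≤ κ * D.n
  bals : ∀ u, u ∉ D.Res → u ∉ D.Bd → ∀ (b : Bool) (x y : ℤ), 5 * (D.n : ℤ) ≤ 2 * x → x ≤ y →
    y ≤ 3 * D.n →
    |((D.Sv.filter (fun v => D.un v = u ∧ D.hi v = b ∧ x ≤ D.A v ∧ D.A v < y)).card : ℝ)
      - ((y : ℝ) - x) / (2 * (D.q : ℝ) ^ 2)| ≤ κ * D.n / (D.q : ℝ) ^ 2
  bals_up : ∀ u, u ∉ D.Res → ∀ (b : Bool) (x y : ℤ), 5 * (D.n : ℤ) ≤ 2 * x → x ≤ y →
    y ≤ 3 * D.n →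
    ((D.Sv.filter (fun v => D.un v = u ∧ D.hi v = b ∧ x ≤ D.A v ∧ D.A v < y)).card : ℝ)
      ≤ ((y : ℝ) - x) / (2 * (D.q : ℝ) ^ 2) + κ * D.n / (D.q : ℝ) ^ 2
  bdc : (D.Bd.card : ℝ) * √(D.q : ℝ) ≤ (D.q : ℝ) ^ 2
  svc : ∀ u, ((D.Sv.filter (fun v => D.un v = u)).card : ℝ) ≤ (1 + κ) * D.S
  pure_most : ((D.It.filter (fun m => ¬ D.pure m)).card : ℝ) ≤ κ * D.n
  IR_sub : D.IR ⊆ D.It
  IR_pure : ∀ m ∈ D.IR, D.pure m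
  IR_hi : ∀ m ∈ D.IR, D.hi m = true
  IR_A : ∀ m ∈ D.IR, (255 / 100 : ℝ) * D.n ≤ D.anc m ∧ (D.anc m : ℝ) ≤ (280 / 100) * D.n
  sw_up : ∀ j : Fin 10, (j = 8 ∨ j = 9) → ∀ v : ZMod (D.q ^ 2),
    ((D.IR.filter (fun m => D.cmb j m = v)).card : ℝ) ≤ 2 * D.n / (D.q : ℝ) ^ 2
  sw_lo : ∀ j : Fin 10, (j = 8 ∨ j = 9) →
    (((univ : Finset (ZMod (D.q ^ 2))).filter (fun v =>
      ((D.IR.filter (fun m => D.cmb j m = v)).card : ℝ) < c * D.n / (D.q : ℝ) ^ 2)).card : ℝ)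
      ≤ κ * (D.q : ℝ) ^ 2
  Z0_def : ∀ x : ℤ, x ∈ D.Z0 ↔ ((D.n : ℤ) < 2 * x ∧ 2 * x < 5 * D.n ∧ unL D.q x ∉ D.Res)
  D0_mem : ∀ d : ℤ, 1 ≤ d → d ≤ 2 * D.n → unD D.q d ∉ D.Res → d ∈ D.D0
  D0_sub : ∀ d ∈ D.D0, 1 ≤ d ∧ d ≤ 2 * (D.n : ℤ) + 2
  count : ∃ b : ℕ, D.n ^ 4 ≤ b ^ 4 * D.q ∧
    ∀ θ : D.Om, 3 * D.It.card + b ≤ (D.D0.filter (fun d => ¬ D.used θ d)).card
  anc_injS : ∀ v ∈ D.Sv, ∀ v' ∈ D.Sv, D.anc v = D.anc v' → v = v'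

/-- `z` labels the items of `J` correctly: available unoccupied distinct labels, available unused
distinct differences. -/
def PartLab (θ : D.Om) (J : Finset ℕ) (z : ℕ → ℤ) : Prop :=
  (∀ m ∈ J, z m ∈ D.Z0 ∧ ¬ D.occ θ (z m)) ∧
  (∀ m ∈ J, ∀ m' ∈ J, z m = z m' → m = m') ∧
  (∀ m ∈ J, ∀ j, D.dif θ m (z m) j ∈ D.D0 ∧ ¬ D.used θ (D.dif θ m (z m) j)) ∧
  (∀ m ∈ J, ∀ m' ∈ J, ∀ j j', D.dif θ m (z m) j = D.dif θ m' (z m') j' → m = m' ∧ j = j')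

end Dat

/-- Statement of Theorem II. -/
def ThmII : Prop :=
  ∀ c : ℝ, 0 < c → ∃ κ : ℝ, 0 < κ ∧ ∀ η : ℝ, 0 < η → ∃ n0 : ℕ, ∀ D : Dat, n0 ≤ D.n → D.Reg κ c →
    ∃ (θ : D.Om) (I' : Finset ℕ) (z : ℕ → ℤ), I' ⊆ D.It ∧ (I'.card : ℝ) ≤ η * D.n ∧
      D.PartLab θ (D.It \ I') z

/-- Property Completes of section 9. -/
def Dat.Completes (D : Dat) (k : ℕ) (η : ℝ) : Prop :=
  ∀ (θ : D.Om) (I' : Finset ℕ) (z : ℕ → ℤ), I' ⊆ D.It → (I'.card : ℝ) ≤ η * D.n →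
    D.PartLab θ (D.It \ I') z → ∃ z' : ℕ → ℤ, Good D.n k z'

/-- Statement of Theorem I. -/
def ThmI : Prop :=
  ∃ c : ℝ, 0 < c ∧ ∀ κ : ℝ, 0 < κ → ∃ η : ℝ, 0 < η ∧ ∃ l0 n0 : ℕ, ∀ n k : ℕ, n0 ≤ n → 1 ≤ k →
    2 * k < n → (Even (n / Nat.gcd n k) ∨ l0 ≤ n / Nat.gcd n k) →
    ∃ D : Dat, D.n = n ∧ D.Reg κ c ∧ D.Completes k η

end Pool.Agent.PGr
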