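import Pool.Agent.PGr.KTwo
import Pool.Agent.PGr.KLine
set_option autoImplicit false

/-!
Part K of project PGr: the kernel in normalised coordinates and the identities (K1), (K2), (K3).
-/

open MeasureTheory intervalIntegral Set

namespace PGrK

/-- the kernel: `kern 0` special, `kern 1` ordinary; `A` normalised anchor, `X` normalised label. -/
noncomputable def kern (p : ℕ) (A X : ℝ) : ℝ := ker p (4 * A - 10) (4 * X - 2)

/-- average of the kernel over both neighbour labels. -/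
noncomputable def pbar (A X : ℝ) : ℝ := kern 0 A X / 16 + 15 / 16 * kern 1 A X

/-- average over the second neighbour label, the first being `y`. -/
noncomputable def qk (y A X : ℝ) : ℝ :=
  if y < 5 / 4 then kern 0 A X / 4 + 3 / 4 * kern 1 A X else kern 1 A X

/-- density of the scheme spokes (times two). -/
noncomputable def trap (t : ℝ) : ℝ :=
  if t ≤ 1 / 2 then 0 else if t ≤ 1 then 2 * t - 1 else if t ≤ 3 / 2 then 1 else
    if t ≤ 2 then 4 - 2 * t else 0

/-- density of the differences left over by the scheme. -/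
noncomputable def ff (t : ℝ) : ℝ := 1 - trap t / 2

theorem kern_bd {p : ℕ} (hp : p < 2) (A X : ℝ) : 0 ≤ kern p A X ∧ kern p A X ≤ 77 / 10 :=
  ker_bd hp _ _

theorem kern_nonneg {p : ℕ} (hp : p < 2) (A X : ℝ) : 0 ≤ kern p A X := (kern_bd hp A X).1

theorem kern_abs {p : ℕ} (hp : p < 2) (A X : ℝ) : |kern p A X| ≤ 77 / 10 := by
  rw [abs_of_nonneg (kern_nonneg hp A X)]; exact (kern_bd hp A X).2

theorem kern_lo {p : ℕ} (hp : p < 2) {A X : ℝ} (h0 : 5 / 2 ≤ A) (h2 : A ≤ 3) (hAX : A - X ≤ 2)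
    (hX : X < 5 / 2) : 1 / 50 ≤ kern p A X :=
  ker_lo hp (by linarith) (by linarith) (by linarith) (by linarith)

theorem kern_zero {p : ℕ} (hp : p < 2) {A X : ℝ} (hAX : 2 < A - X) : kern p A X = 0 :=
  ker_zero hp (by linarith)

theorem kern_outside {p : ℕ} {A X : ℝ} (h : X < 1 / 2 ∨ 5 / 2 ≤ X) : kern p A X = 0 := by
  apply ker_outside
  rcases h with h | h
  · left; linarith
  · right; linarith

theorem kern_outside_A {p : ℕ} {A X : ℝ} (h : A < 5 / 2 ∨ 3 < A) : kern p A X = 0 := by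
  apply ker_outside_a
  rcases h with h | h
  · left; linarith
  · right; linarith

theorem kern_meas {p : ℕ} (hp : p < 2) : Measurable (fun z : ℝ × ℝ => kern p z.1 z.2) :=
  (ker_meas hp).comp (((measurable_fst.const_mul 4).sub_const 10).prodMk
    ((measurable_snd.const_mul 4).sub_const 2))

/-- measurability of the kernel along measurable curves. -/
theorem kern_meas_comp {p : ℕ} (hp : p < 2) {α : Type*} [MeasurableSpace α] {f g : α → ℝ}
    (hf : Measurable f) (hg : Measurable g) : Measurable (fun x => kern p (f x) (g x)) :=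
  (kern_meas hp).comp (hf.prodMk hg)

theorem kern_ii {p : ℕ} (hp : p < 2) {f g : ℝ → ℝ} (hf : Measurable f) (hg : Measurable g)
    (a b : ℝ) : IntervalIntegrable (fun x => kern p (f x) (g x)) volume a b :=
  ii_of_bdd (kern_meas_comp hp hf hg) (C := 77 / 10) (fun _ => kern_abs hp _ _) a b

/-- identity (K1). -/
theorem K1 {p : ℕ} (hp : p < 2) {A : ℝ} (h0 : 5 / 2 ≤ A) (h2 : A ≤ 3) :
    ∫ X in (1/2:ℝ)..(5/2), kern p A X = 1 := by
  unfold kern
  rw [intervalIntegral.integral_comp_mul_sub (fun s => ker p (4 * A - 10) s) (by norm_num)]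
  have := (HI_vert hp (a := 4 * A - 10) (by linarith) (by linarith)).integral
  norm_num
  rw [this]
  norm_num

theorem diag_scale (p : ℕ) (t : ℝ) :
    ∫ A in (5/2:ℝ)..3, kern p A (A - t) = (1 / 4) * ∫ a in (0:ℝ)..2, ker p a (a + 8 - 4 * t) := by
  have h := intervalIntegral.integral_comp_mul_sub (a := (5/2:ℝ)) (b := 3) (c := 4)
    (fun a => ker p a (a + 8 - 4 * t)) (by norm_num) 10
  have e : (fun A : ℝ => kern p A (A - t)) = fun x => ker p (4 * x - 10) (4 * x - 10 + 8 - 4 * t) := by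
    funext A; unfold kern; congr 1; ring
  rw [e, h]
  norm_num

theorem horiz_scale (p : ℕ) (X : ℝ) :
    ∫ A in (5/2:ℝ)..3, kern p A X = (1 / 4) * io p (4 * X - 2) := by
  have h := intervalIntegral.integral_comp_mul_sub (a := (5/2:ℝ)) (b := 3) (c := 4)
    (fun a => ker p a (4 * X - 2)) (by norm_num) 10
  unfold kern io
  rw [h]
  norm_num

/-- the function of (K2) in mesh coordinates. -/
noncomputable def Psi (tau s : ℝ) : ℝ :=
  if s < 3 then (io 0 (s + tau) + io 0 (s - tau)) / 4 + 3 / 4 * (io 1 (s + tau) + io 1 (s - tau))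
  else io 1 (s + tau) + io 1 (s - tau)

theorem inner_scale (t y : ℝ) :
    (∫ A in (5/2:ℝ)..3, qk y A (y + t)) + ∫ A in (5/2:ℝ)..3, qk y A (y - t)
      = (1 / 4) * Psi (4 * t) (4 * y - 2) := by
  have e1 : 4 * (y + t) - 2 = 4 * y - 2 + 4 * t := by ring
  have e2 : 4 * (y - t) - 2 = 4 * y - 2 - 4 * t := by ring
  have hk : ∀ (p : ℕ) (_ : p < 2) (X : ℝ),
      IntervalIntegrable (fun A => kern p A X) volume (5/2) 3 :=
    fun p hp X => kern_ii hp measurable_id measurable_const _ _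
  unfold qk Psi
  by_cases hy : y < 5 / 4
  · rw [if_pos (show 4 * y - 2 < 3 by linarith)]
    simp only [if_pos hy]
    rw [intervalIntegral.integral_add ((hk 0 (by norm_num) _).div_const 4)
        ((hk 1 (by norm_num) _).const_mul _),
      intervalIntegral.integral_add ((hk 0 (by norm_num) _).div_const 4)
        ((hk 1 (by norm_num) _).const_mul _),
      intervalIntegral.integral_div, intervalIntegral.integral_div,
      intervalIntegral.integral_const_mul, intervalIntegral.integral_const_mul,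
      horiz_scale, horiz_scale, horiz_scale, horiz_scale, e1, e2]
    ring
  · rw [if_neg (show ¬ 4 * y - 2 < 3 by linarith)]
    simp only [if_neg hy]
    rw [horiz_scale, horiz_scale, e1, e2]
    ring

theorem plus_HI {p k : ℕ} (hp : p < 2) (j : ℕ) {d : ℝ} (hd0 : 0 ≤ d) (hd1 : d ≤ 1) :
    IntervalIntegrable (fun s => io p (s + ((k : ℝ) + d))) volume ((j : ℝ) + 2) ((j : ℝ) + 3) := by
  have h := (HI_plus hp ((j : ℤ) + 2 + k) hd0 hd1).integrable
  have h2 := h.comp_add_right ((k : ℝ) + d)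
  have e1 : (((j : ℤ) + 2 + k : ℤ) : ℝ) + d - ((k : ℝ) + d) = (j : ℝ) + 2 := by push_cast; ring
  have e2 : (((j : ℤ) + 2 + k : ℤ) : ℝ) + 1 + d - ((k : ℝ) + d) = (j : ℝ) + 3 := by
    push_cast; ring
  rw [e1, e2] at h2
  exact h2

theorem minus_HI {p k : ℕ} (hp : p < 2) (j : ℕ) {d : ℝ} (hd0 : 0 ≤ d) (hd1 : d ≤ 1) :
    IntervalIntegrable (fun s => io p (s - ((k : ℝ) + d))) volume ((j : ℝ) + 2) ((j : ℝ) + 3) := by
  have h := (HI_minus hp ((j : ℤ) + 1 - k) hd0 hd1).integrable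
  have h2 := h.comp_sub_right ((k : ℝ) + d)
  have e1 : (((j : ℤ) + 1 - k : ℤ) : ℝ) + 1 - d + ((k : ℝ) + d) = (j : ℝ) + 2 := by
    push_cast; ring
  have e2 : (((j : ℤ) + 1 - k : ℤ) : ℝ) + 1 + 1 - d + ((k : ℝ) + d) = (j : ℝ) + 3 := by
    push_cast; ring
  rw [e1, e2] at h2
  exact h2

theorem Psi_HI {k : ℕ} (j : ℕ) {d : ℝ} (hd0 : 0 ≤ d) (hd1 : d ≤ 1) :
    HI (Psi ((k : ℝ) + d)) ((j : ℝ) + 2) ((j : ℝ) + 3)
      (∑ p ∈ Finset.range 2, (w4 p (j + 2) : ℝ) / 4 *
          ((∫ s in ((j : ℝ) + 2)..((j : ℝ) + 3), io p (s + ((k : ℝ) + d)))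
            + ∫ s in ((j : ℝ) + 2)..((j : ℝ) + 3), io p (s - ((k : ℝ) + d)))) := by
  have hp0 := plus_HI (p := 0) (k := k) (by norm_num) j hd0 hd1
  have hp1 := plus_HI (p := 1) (k := k) (by norm_num) j hd0 hd1
  have hm0 := minus_HI (p := 0) (k := k) (by norm_num) j hd0 hd1
  have hm1 := minus_HI (p := 1) (k := k) (by norm_num) j hd0 hd1
  by_cases hj : j = 0
  · subst hj
    refine HI.congr (by linarith) (g := fun s =>
      (io 0 (s + ((k : ℝ) + d)) + io 0 (s - ((k : ℝ) + d))) / 4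
        + 3 / 4 * (io 1 (s + ((k : ℝ) + d)) + io 1 (s - ((k : ℝ) + d)))) ?_ ⟨?_, ?_⟩
    · intro s hs
      unfold Psi
      rw [if_pos]
      have := hs.2
      push_cast at this
      linarith
    · exact ((hp0.add hm0).div_const 4).add ((hp1.add hm1).const_mul _)
    · rw [intervalIntegral.integral_add ((hp0.add hm0).div_const 4) ((hp1.add hm1).const_mul _),
        intervalIntegral.integral_div, intervalIntegral.integral_const_mul,
        intervalIntegral.integral_add hp0 hm0, intervalIntegral.integral_add hp1 hm1]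
      simp only [Finset.sum_range_succ, Finset.sum_range_zero]
      have w0 : w4 0 (0 + 2) = 1 := by decide
      have w1 : w4 1 (0 + 2) = 3 := by decide
      rw [w0, w1]
      push_cast
      ring
  · have hj1 : (1 : ℝ) ≤ (j : ℝ) := by exact_mod_cast Nat.one_le_iff_ne_zero.2 hj
    refine HI.congr (by linarith) (g := fun s =>
      io 1 (s + ((k : ℝ) + d)) + io 1 (s - ((k : ℝ) + d))) ?_ ⟨?_, ?_⟩
    · intro s hs
      unfold Psi
      rw [if_neg]
      linarith [hs.1]
    · exact hp1.add hm1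
    · rw [intervalIntegral.integral_add hp1 hm1]
      simp only [Finset.sum_range_succ, Finset.sum_range_zero]
      have w0 : w4 0 (j + 2) = 0 := by unfold w4; rw [if_neg (by omega)]; rfl
      have w1 : w4 1 (j + 2) = 4 := by unfold w4; rw [if_neg (by omega)]; rfl
      rw [w0, w1]
      push_cast
      ring

theorem Psi_int {k : ℕ} {d : ℝ} (hd0 : 0 ≤ d) (hd1 : d ≤ 1) :
    HI (Psi ((k : ℝ) + d)) 2 6
      (∑ j ∈ Finset.range 4, ∑ p ∈ Finset.range 2, (w4 p (j + 2) : ℝ) / 4 *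
          ((∫ s in ((j : ℝ) + 2)..((j : ℝ) + 3), io p (s + ((k : ℝ) + d)))
            + ∫ s in ((j : ℝ) + 2)..((j : ℝ) + 3), io p (s - ((k : ℝ) + d)))) := by
  obtain ⟨V, hV⟩ : ∃ V : ℕ → ℝ, V = fun j : ℕ => ∑ p ∈ Finset.range 2, (w4 p (j + 2) : ℝ) / 4 *
          ((∫ s in ((j : ℝ) + 2)..((j : ℝ) + 3), io p (s + ((k : ℝ) + d)))
            + ∫ s in ((j : ℝ) + 2)..((j : ℝ) + 3), io p (s - ((k : ℝ) + d))) := ⟨_, rfl⟩
  have hj : ∀ j : ℕ, HI (Psi ((k : ℝ) + d)) ((j : ℝ) + 2) ((j : ℝ) + 3) (V j) := by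
    intro j
    rw [hV]
    exact Psi_HI (k := k) j hd0 hd1
  have h0' := (hj 0).ends (a' := 2) (b' := 3) (by norm_num) (by norm_num)
  have h1' := (hj 1).ends (a' := 3) (b' := 4) (by norm_num) (by norm_num)
  have h2' := (hj 2).ends (a' := 4) (b' := 5) (by norm_num) (by norm_num)
  have h3' := (hj 3).ends (a' := 5) (b' := 6) (by norm_num) (by norm_num)
  have h := ((h0'.trans h1').trans h2').trans h3'
  have hs : ∑ j ∈ Finset.range 4, V j = V 0 + V 1 + V 2 + V 3 := by
    simp [Finset.sum_range_succ]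
  rw [← hs, hV] at h
  exact h

theorem fq_eq {k : ℕ} (hk : k < 8) {d : ℝ} (hd0 : 0 ≤ d) (hd1 : d ≤ 1) :
    ((fq0 k : ℝ) + (fq1 k : ℝ) * d) / 128 = ff (((k : ℝ) + d) / 4) := by
  unfold fq0 fq1 ff trap
  interval_cases k
  · norm_num
    rw [if_pos (by linarith)]; norm_num
  · norm_num
    rw [if_pos (by linarith)]; norm_num
  · norm_num
    by_cases h : (2 + d) / 4 ≤ 1 / 2
    · have : d = 0 := by linarith
      subst this; norm_num
    · rw [if_neg h, if_pos (by linarith)]; ring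
  · norm_num
    rw [if_neg (by linarith), if_pos (by linarith)]; ring
  · norm_num
    rw [if_neg (by linarith)]
    by_cases h : (4 + d) / 4 ≤ 1
    · have : d = 0 := by linarith
      subst this; norm_num
    · rw [if_neg h, if_pos (by linarith)]; norm_num
  · norm_num
    rw [if_neg (by linarith), if_neg (by linarith), if_pos (by linarith)]; norm_num
  · norm_num
    rw [if_neg (by linarith), if_neg (by linarith)]
    by_cases h : (6 + d) / 4 ≤ 3 / 2
    · have : d = 0 := by linarith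
      subst this; norm_num
    · rw [if_neg h, if_pos (by linarith)]; ring
  · norm_num
    rw [if_neg (by linarith), if_neg (by linarith), if_neg (by linarith), if_pos (by linarith)]
    ring

theorem pbar_diag (t : ℝ) : ∫ A in (5/2:ℝ)..3, pbar A (A - t) =
    (1 / 64) * ((∫ a in (0:ℝ)..2, ker 0 a (a + 8 - 4 * t))
        + 15 * (∫ a in (0:ℝ)..2, ker 1 a (a + 8 - 4 * t))) := by
  have hk : ∀ (p : ℕ) (_ : p < 2),
      IntervalIntegrable (fun A => kern p A (A - t)) volume (5/2) 3 :=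
    fun p hp => kern_ii hp measurable_id (measurable_id.sub_const t) _ _
  unfold pbar
  rw [intervalIntegral.integral_add ((hk 0 (by norm_num)).div_const 16)
    ((hk 1 (by norm_num)).const_mul _), intervalIntegral.integral_div,
    intervalIntegral.integral_const_mul, diag_scale, diag_scale]
  ring

/-- identity (K2). -/
theorem K2 {t : ℝ} (h0 : 0 ≤ t) (h2 : t ≤ 2) :
    (∫ A in (5/2:ℝ)..3, pbar A (A - t))
      + 2 * ∫ y in (1:ℝ)..2, ((∫ A in (5/2:ℝ)..3, qk y A (y + t))
          + ∫ A in (5/2:ℝ)..3, qk y A (y - t)) = ff t := by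
  obtain ⟨k, d, hk, hd0, hd1, hdk, hkd⟩ : ∃ (k : ℕ) (d : ℝ), k < 8 ∧ 0 ≤ d ∧ d ≤ 1 ∧
      (0 < d ∨ k = 0) ∧ 4 * t = (k : ℝ) + d := by
    rcases eq_or_lt_of_le h0 with h | h
    · exact ⟨0, 0, by norm_num, le_rfl, by norm_num, Or.inr rfl, by rw [← h]; norm_num⟩
    · have hc : 0 < ⌈4 * t⌉₊ := Nat.ceil_pos.2 (by linarith)
      have hc8 : ⌈4 * t⌉₊ ≤ 8 := Nat.ceil_le.2 (by push_cast; linarith)
      have h1 := Nat.le_ceil (4 * t)
      have h3 := Nat.ceil_lt_add_one (show 0 ≤ 4 * t by linarith)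
      refine ⟨⌈4 * t⌉₊ - 1, 4 * t - ((⌈4 * t⌉₊ - 1 : ℕ) : ℝ), by omega, ?_, ?_, Or.inl ?_, by ring⟩
      · rw [Nat.cast_sub (by omega)]; push_cast; linarith
      · rw [Nat.cast_sub (by omega)]; push_cast; linarith
      · rw [Nat.cast_sub (by omega)]; push_cast; linarith
  have hm := K2_mesh hk hd0 hd1 hdk
  rw [← (Psi_int (k := k) hd0 hd1).integral, fq_eq hk hd0 hd1, ← hkd] at hm
  rw [pbar_diag]
  have he : ∀ y : ℝ, (∫ A in (5/2:ℝ)..3, qk y A (y + t)) + (∫ A in (5/2:ℝ)..3, qk y A (y - t))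
      = (1 / 4) * Psi (4 * t) (4 * y - 2) := inner_scale t
  simp only [he]
  rw [intervalIntegral.integral_const_mul,
    intervalIntegral.integral_comp_mul_sub (fun s => Psi (4 * t) s) (by norm_num : (4:ℝ) ≠ 0) 2]
  have e1 : (4 : ℝ) * 1 - 2 = 2 := by norm_num
  have e2 : (4 : ℝ) * 2 - 2 = 6 := by norm_num
  have e3 : 4 * t / 4 = t := by ring
  rw [e1, e2, smul_eq_mul]
  rw [e3] at hm
  rw [← hm]
  ring

end PGrK
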