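import Mathlib
import Pool.Agent.PGr.Dat
import Pool.Agent.PGr.KMain

/-!
# PGr, part E (section 7, repaired version): weights, edges, degrees, switches

Changes with respect to the paper (repair by helper82): an edge has no coincidence of units; the
sets Dbad, Zbad are replaced by the set `Ddef` of deficient differences, which stay available; their
weights are reduced by the factor `1/(1+e)`, and only an upper bound is needed for their degrees.
`Ze` = available labels which are not multiples of `n/4`.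
-/

noncomputable section

namespace Pool.Agent.PGr

open Finset

namespace Dat

variable (D : Dat)

/-- normalised coordinate of a label or an anchor for an item of type `b` -/
def nX (b : Bool) (x : ℤ) : ℝ := if b then (x : ℝ) / D.n else 3 - (x : ℝ) / D.n

open Classical in
/-- the kernel for integer data -/
def kerI (b : Bool) (a y1 y2 x : ℤ) : ℝ :=
  PGrK.kern (if D.nX b y1 < 5 / 4 ∧ D.nX b y2 < 5 / 4 then 0 else 1) (D.nX b a) (D.nX b x)

open Classical in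
/-- the labels used by the edges -/
def Ze : Finset ℤ := D.Z0.filter (fun x => ¬ (D.n : ℤ) ∣ 4 * x)

/-- the six units of an edge (with neighbour labels `y1, y2` and label `x`, anchor `a`) -/
def uns (a y1 y2 x : ℤ) : List (ZMod (D.q ^ 2)) :=
  [unL D.q y1, unL D.q y2, unL D.q x, unD D.q |x - a|, unD D.q |x - y1|, unD D.q |x - y2|]

/-- probability that the label `x` is not occupied -/
def pL (x : ℤ) : ℝ := Pr (fun θ : D.Om => ¬ D.occ θ x)

/-- probability that the difference `d` is not used -/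
def pD (d : ℤ) : ℝ := Pr (fun θ : D.Om => ¬ D.used θ d)

open Classical in
/-- deficient differences -/
def Ddef : Finset ℤ :=
  D.D0.filter (fun d => 2 * (D.n : ℤ) < d ∨ (unD D.q d ∉ D.Res ∧ unD D.q d ∈ D.Bd) ∨
    (4000 * (D.n : ℝ) < ((D.It.filter (fun m => D.pure m ∧
      ¬ noQ D.q (D.hi m) ((D.anc m : ℤ) : ZMod (D.q ^ 2)) (D.cls (D.nb1 m)) (D.cls (D.nb2 m))
        ((d : ℤ) : ZMod (D.q ^ 2)))).card : ℝ) * √(D.q : ℝ)) ∨
    (4000 * (D.n : ℝ) < ((D.IR.filter (fun m =>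
      ¬ noU D.q ((D.anc m : ℤ) : ZMod (D.q ^ 2)) (D.cls (D.nb1 m)) (D.cls (D.nb2 m))
        ((d : ℤ) : ZMod (D.q ^ 2)) ∨
      ¬ noI D.q ((D.anc m : ℤ) : ZMod (D.q ^ 2)) (D.cls (D.nb1 m)) (D.cls (D.nb2 m))
        ((d : ℤ) : ZMod (D.q ^ 2)))).card : ℝ) * √(D.q : ℝ)))

open Classical in
/-- the differences whose degrees are corrected -/
def D2 : Finset ℤ := D.D0.filter (fun d => d ∉ D.Ddef ∧ 0 < D.pD d)

open Classical in
/-- normalising probability of a difference -/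
def psD (e : ℝ) (d : ℤ) : ℝ :=
  (if d ∈ D.Ddef then 1 + e else 1) *
    (if unD D.q d ∈ D.Res then PGrK.ff ((d : ℝ) / D.n) else D.pD d)

/-- the weight of an edge -/
def wt (e : ℝ) (b : Bool) (a y1 y2 x : ℤ) : ℝ :=
  D.kerI b a y1 y2 x /
    (D.n * D.pL x * D.psD e |x - a| * D.psD e |x - y1| * D.psD e |x - y2|)

/-- the difference `d` is available to the items -/
def av (θ : D.Om) (d : ℤ) : Prop := d ∈ D.D0 ∧ ¬ D.used θ d

/-- edge: available label, available differences, no coincidence of units -/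
def edg (θ : D.Om) (a y1 y2 x : ℤ) : Prop :=
  x ∈ D.Ze ∧ ¬ D.occ θ x ∧ D.av θ |x - a| ∧ D.av θ |x - y1| ∧ D.av θ |x - y2| ∧
    (D.uns a y1 y2 x).Nodup

/-- edge, without the requirement that the difference `d` is not used -/
def edgD (θ : D.Om) (d a y1 y2 x : ℤ) : Prop :=
  x ∈ D.Ze ∧ ¬ D.occ θ x ∧
    (|x - a| ∈ D.D0 ∧ (|x - a| = d ∨ ¬ D.used θ |x - a|)) ∧
    (|x - y1| ∈ D.D0 ∧ (|x - y1| = d ∨ ¬ D.used θ |x - y1|)) ∧
    (|x - y2| ∈ D.D0 ∧ (|x - y2| = d ∨ ¬ D.used θ |x - y2|)) ∧ (D.uns a y1 y2 x).Nodup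

/-- edge, without the requirement that the label is not occupied -/
def edgX (θ : D.Om) (a y1 y2 x : ℤ) : Prop :=
  x ∈ D.Ze ∧ D.av θ |x - a| ∧ D.av θ |x - y1| ∧ D.av θ |x - y2| ∧ (D.uns a y1 y2 x).Nodup

open Classical in
/-- weight of the edges of a triple `(a,y1,y2)` of type `b` before the normalisation -/
def W0 (e : ℝ) (θ : D.Om) (b : Bool) (a y1 y2 x : ℤ) : ℝ :=
  if D.edg θ a y1 y2 x then D.wt e b a y1 y2 x else 0

/-- sum of the weights of a triple -/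
def Psi (e : ℝ) (θ : D.Om) (b : Bool) (a y1 y2 : ℤ) : ℝ := ∑ x ∈ D.Ze, D.W0 e θ b a y1 y2 x

/-- expected sum of the weights of a triple -/
def sig (e : ℝ) (b : Bool) (a y1 y2 : ℤ) : ℝ := Ex (fun θ : D.Om => D.Psi e θ b a y1 y2)

/-- labels of the neighbours of an item -/
def yy1 (θ : D.Om) (m : ℕ) : ℤ := D.lab θ (D.nb1 m)
def yy2 (θ : D.Om) (m : ℕ) : ℤ := D.lab θ (D.nb2 m)

/-- normalised weight of a pair (item, label), whether or not it is an edge -/
def wn (e : ℝ) (θ : D.Om) (m : ℕ) (x : ℤ) : ℝ :=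
  D.wt e (D.hi m) (D.anc m) (D.yy1 θ m) (D.yy2 θ m) x /
    D.sig e (D.hi m) (D.anc m) (D.yy1 θ m) (D.yy2 θ m)

/-- `(m,x)` is an edge -/
def edge (θ : D.Om) (m : ℕ) (x : ℤ) : Prop := D.edg θ (D.anc m) (D.yy1 θ m) (D.yy2 θ m) x

open Classical in
/-- weight of the edges before the correction -/
def w1 (e : ℝ) (θ : D.Om) (m : ℕ) (x : ℤ) : ℝ := if D.edge θ m x then D.wn e θ m x else 0

/-- `d` is one of the three differences -/
def hasD (a y1 y2 x d : ℤ) : Prop := |x - a| = d ∨ |x - y1| = d ∨ |x - y2| = d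

open Classical in
/-- weighted degree of the difference `d`, not requiring that `d` is unused -/
def degD (e : ℝ) (θ : D.Om) (d : ℤ) : ℝ :=
  ∑ m ∈ D.It, ∑ x ∈ D.Ze, if D.edgD θ d (D.anc m) (D.yy1 θ m) (D.yy2 θ m) x ∧
    hasD (D.anc m) (D.yy1 θ m) (D.yy2 θ m) x d then D.wn e θ m x else 0

open Classical in
/-- weighted degree of the label `x`, not requiring that `x` is not occupied -/
def labX (e : ℝ) (θ : D.Om) (x : ℤ) : ℝ :=
  ∑ m ∈ D.It, if D.edgX θ (D.anc m) (D.yy1 θ m) (D.yy2 θ m) x then D.wn e θ m x else 0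

open Classical in
/-- expected degree of the difference `d` -/
def GG (e : ℝ) (d : ℤ) : ℝ := Ex (fun θ : D.Om => if D.used θ d then 0 else D.degD e θ d)

/-- generic triples -/
def gen3 (b : Bool) (a y1 y2 : ℤ) : Prop :=
  5 / 2 ≤ D.nX b a ∧ D.nX b a ≤ 3 ∧
  (9 / 10 : ℝ) * D.n ≤ y1 ∧ (y1 : ℝ) ≤ (21 / 10) * D.n ∧
  (9 / 10 : ℝ) * D.n ≤ y2 ∧ (y2 : ℝ) ≤ (21 / 10) * D.n ∧
  ((a : ℤ) : ZMod D.q) ≠ ((y1 : ℤ) : ZMod D.q) ∧ ((a : ℤ) : ZMod D.q) ≠ ((y2 : ℤ) : ZMod D.q) ∧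
  ((y1 : ℤ) : ZMod D.q) ≠ ((y2 : ℤ) : ZMod D.q)

/-! ## Switches -/

/-- the I-switch of `m` from `x = y2 + d` to `x'' = y2 + d''` is valid -/
def swI (θ : D.Om) (m : ℕ) (d d'' : ℤ) : Prop :=
  2 * D.yy2 θ m + d + d'' = D.yy1 θ m + D.anc m ∧
  D.edge θ m (D.yy2 θ m + d) ∧ D.edge θ m (D.yy2 θ m + d'') ∧
  [unL D.q (D.yy1 θ m), unL D.q (D.yy2 θ m), unL D.q (D.yy2 θ m + d), unL D.q (D.yy2 θ m + d''),
    unD D.q d, unD D.q d'', unD D.q |D.yy2 θ m + d - D.yy1 θ m|,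
    unD D.q |D.yy2 θ m + d - D.anc m|].Nodup

/-- the U-switch of `m` from `x = a - d` to `x'' = a - d''` is valid -/
def swU (θ : D.Om) (m : ℕ) (d d'' : ℤ) : Prop :=
  D.yy1 θ m + D.yy2 θ m = 2 * D.anc m - d - d'' ∧
  D.edge θ m (D.anc m - d) ∧ D.edge θ m (D.anc m - d'') ∧
  [unL D.q (D.yy1 θ m), unL D.q (D.yy2 θ m), unL D.q (D.anc m - d), unL D.q (D.anc m - d''),
    unD D.q d, unD D.q d'', unD D.q |D.anc m - d - D.yy1 θ m|,
    unD D.q |D.anc m - d - D.yy2 θ m|].Nodup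

/-- the switch of `m` for the pair `(d, d'')`: I-switch for `d ≤ n`, U-switch for `d > n` -/
def swv (θ : D.Om) (m : ℕ) (d d'' : ℤ) : Prop :=
  if d ≤ D.n then D.swI θ m d d'' else D.swU θ m d d''

open Classical in
/-- expected number of valid switches -/
def QQ (d d'' : ℤ) : ℝ := ∑ m ∈ D.IR, Pr (fun θ : D.Om => D.swv θ m d d'')

open Classical in
/-- the hub -/
def JJ : Finset ℤ := D.D2.filter (fun d => (95 / 100 : ℝ) * D.n ≤ d ∧ (d : ℝ) ≤ (105 / 100) * D.n)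

end Dat

end Pool.Agent.PGr
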