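import Mathlib
import Pool.Agent.PGr.EDefs

/-!
# PGr, part C: definitions for 7.3, 7.6, 7.7 (switch sums, final weights)

`r` is the difference whose availability is not required.
-/

noncomputable section

namespace Pool.Agent.PGr

open Finset

namespace Dat

variable (D : Dat)

/-- the I-switch of `m` between `y2 + d` and `y2 + d''` is valid, except possibly that `r` is used -/
def swIr (θ : D.Om) (r : ℤ) (m : ℕ) (d d'' : ℤ) : Prop :=
  2 * D.yy2 θ m + d + d'' = D.yy1 θ m + D.anc m ∧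
  D.edgD θ r (D.anc m) (D.yy1 θ m) (D.yy2 θ m) (D.yy2 θ m + d) ∧
  D.edgD θ r (D.anc m) (D.yy1 θ m) (D.yy2 θ m) (D.yy2 θ m + d'') ∧
  [unL D.q (D.yy1 θ m), unL D.q (D.yy2 θ m), unL D.q (D.yy2 θ m + d), unL D.q (D.yy2 θ m + d''),
    unD D.q d, unD D.q d'', unD D.q |D.yy2 θ m + d - D.yy1 θ m|,
    unD D.q |D.yy2 θ m + d - D.anc m|].Nodup

/-- the U-switch of `m` between `a - d` and `a - d''` is valid, except possibly that `r` is used -/
def swUr (θ : D.Om) (r : ℤ) (m : ℕ) (d d'' : ℤ) : Prop :=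
  D.yy1 θ m + D.yy2 θ m = 2 * D.anc m - d - d'' ∧
  D.edgD θ r (D.anc m) (D.yy1 θ m) (D.yy2 θ m) (D.anc m - d) ∧
  D.edgD θ r (D.anc m) (D.yy1 θ m) (D.yy2 θ m) (D.anc m - d'') ∧
  [unL D.q (D.yy1 θ m), unL D.q (D.yy2 θ m), unL D.q (D.anc m - d), unL D.q (D.anc m - d''),
    unD D.q d, unD D.q d'', unD D.q |D.anc m - d - D.yy1 θ m|,
    unD D.q |D.anc m - d - D.yy2 θ m|].Nodup

open Classical in
/-- weighted number of the I-switches at the difference `d` (with partners in `S`), not requiring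
that `d` is unused -/
def SI (θ : D.Om) (d : ℤ) (S : Finset ℤ) (γ : ℤ → ℝ) : ℝ :=
  ∑ m ∈ D.IR, ∑ d' ∈ S, if D.swIr θ d m d d' then γ d' else 0

open Classical in
/-- weighted number of the U-switches at the difference `d` -/
def SU (θ : D.Om) (d : ℤ) (S : Finset ℤ) (γ : ℤ → ℝ) : ℝ :=
  ∑ m ∈ D.IR, ∑ d' ∈ S, if D.swUr θ d m d d' then γ d' else 0

open Classical in
/-- the differences of `D2` up to `n`, and above `n` -/
def D2lo : Finset ℤ := D.D2.filter (fun d => d ≤ D.n)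
open Classical in
def D2hi : Finset ℤ := D.D2.filter (fun d => ¬ d ≤ D.n)

/-- the weight moved away from `d` -/
def Tsrc (g : ℤ → ℤ → ℝ) (θ : D.Om) (d : ℤ) : ℝ :=
  if d ≤ D.n then D.SI θ d D.JJ (fun d' => g d d') else D.SU θ d D.JJ (fun d' => g d d')

/-- the weight moved to `d` -/
def Ttgt (g : ℤ → ℤ → ℝ) (θ : D.Om) (d : ℤ) : ℝ :=
  D.SI θ d D.D2lo (fun d' => g d' d) + D.SU θ d D.D2hi (fun d' => g d' d)

open Classical in
/-- the corrected degree of `d`, not requiring that `d` is unused -/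
def FF (e : ℝ) (g : ℤ → ℤ → ℝ) (θ : D.Om) (d : ℤ) : ℝ :=
  D.degD e θ d - (if d ∈ D.D2 then D.Tsrc g θ d else 0) + (if d ∈ D.JJ then D.Ttgt g θ d else 0)

/-- source label and target label of a switch -/
def xs (θ : D.Om) (m : ℕ) (d : ℤ) : ℤ := if d ≤ D.n then D.yy2 θ m + d else D.anc m - d
def xt (θ : D.Om) (m : ℕ) (d d'' : ℤ) : ℤ := if d ≤ D.n then D.yy2 θ m + d'' else D.anc m - d''

open Classical in
/-- the final weights -/
def wf (e : ℝ) (g : ℤ → ℤ → ℝ) (θ : D.Om) (m : ℕ) (x : ℤ) : ℝ :=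
  D.w1 e θ m x
    - (∑ d ∈ D.D2, ∑ d'' ∈ D.JJ, if m ∈ D.IR ∧ D.swv θ m d d'' ∧ x = D.xs θ m d then g d d'' else 0)
    + ∑ d ∈ D.D2, ∑ d'' ∈ D.JJ, if m ∈ D.IR ∧ D.swv θ m d d'' ∧ x = D.xt θ m d d'' then g d d''
        else 0

/-- the exponential bound used in all concentration statements -/
def cbd (t : ℝ) : ℝ := 2 * Real.exp (-(t ^ 2 * √(D.q : ℝ) / 10 ^ 12))

end Dat

end Pool.Agent.PGr
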