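import Mathlib
import Pool.Agent.PGr.Defs

/-!
# PGr, module Alg: algebra modulo `q^2`

All statements for a prime `q > 3` (so that 2 and 3 are units of `ZMod (q^2)`).

PLAN. `hq : q.Prime`, `3 < q`. In `R = ZMod (q^2)`: `(q:R)^2 = 0` (`ZMod.natCast_self` and
`Nat.cast_pow`). 2 and 3 are units: `ZMod.coe_mul_inv_eq_one` (coprimality of 2, 3 with `q^2`), so
`(2:R) * 2⁻¹ = 1`, `(3:R) * 3⁻¹ = 1`. Then every identity is `linear_combination` of
`h2 : 2 * 2⁻¹ = 1`, `h3 : 3 * 3⁻¹ = 1`, `hq2 : (q:R)^2 = 0` (expand in powers of `q`: all terms with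
`q^2` vanish). E.g. `lamI (lam u) = 2⁻¹ (2u + q u^2) - q (2⁻¹)^3 (2u + q u^2)^2
= u + 2⁻¹ q u^2 - q (2⁻¹)^3 4 u^2 = u`.
The reductions: `red q (lam q u) = 2 * red q u` because `red q (q : R) = 0` (`ZMod.natCast_self`),
`red q (2⁻¹) = 2⁻¹` (from `red q 2 * red q 2⁻¹ = 1` and the uniqueness of inverses in the field
`ZMod q`). `red q ((z : ℤ) : R) = (z : ZMod q)` is `map_intCast`.
-/

namespace Pool.Agent.PGr

theorem qsq (q : ℕ) : (q : ZMod (q ^ 2)) ^ 2 = 0 := by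
  rw [← Nat.cast_pow, ZMod.natCast_self]

private theorem two_inv {q : ℕ} (hq : q.Prime) (h3 : 3 < q) :
    (2 : ZMod (q ^ 2)) * 2⁻¹ = 1 := by
  have h : Nat.Coprime 2 (q ^ 2) := by
    apply Nat.Coprime.pow_right
    exact (Nat.coprime_primes Nat.prime_two hq).2 (by omega)
  have := ZMod.coe_mul_inv_eq_one 2 h
  rwa [Nat.cast_ofNat] at this

private theorem three_inv {q : ℕ} (hq : q.Prime) (h3 : 3 < q) :
    (3 : ZMod (q ^ 2)) * 3⁻¹ = 1 := by
  have h : Nat.Coprime 3 (q ^ 2) := by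
    apply Nat.Coprime.pow_right
    exact (Nat.coprime_primes Nat.prime_three hq).2 (by omega)
  have := ZMod.coe_mul_inv_eq_one 3 h
  rwa [Nat.cast_ofNat] at this

theorem lamI_lam {q : ℕ} (hq : q.Prime) (h3 : 3 < q) (u : ZMod (q ^ 2)) :
    lamI q (lam q u) = u := by
  have h2 := two_inv hq h3
  have hq2 := qsq q
  unfold lamI lam
  generalize (2 : ZMod (q ^ 2))⁻¹ = t at *
  linear_combination (u - q * u ^ 2 * t * (2 * t + 1)) * h2 -
    (4 * t ^ 3 * u ^ 3 + q * t ^ 3 * u ^ 4) * hq2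

theorem lam_lamI {q : ℕ} (hq : q.Prime) (h3 : 3 < q) (x : ZMod (q ^ 2)) :
    lam q (lamI q x) = x := by
  have h2 := two_inv hq h3
  have hq2 := qsq q
  unfold lamI lam
  generalize (2 : ZMod (q ^ 2))⁻¹ = t at *
  linear_combination (x - q * t ^ 2 * x ^ 2) * h2 - (2 * t ^ 4 * x ^ 3 - q * t ^ 6 * x ^ 4) * hq2

theorem delI_del {q : ℕ} (u : ZMod (q ^ 2)) : delI q (del q u) = u := by
  have hq2 := qsq q
  unfold delI del
  linear_combination (-(2 * u ^ 3 + q * u ^ 4)) * hq2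

theorem del_delI {q : ℕ} (x : ZMod (q ^ 2)) : del q (delI q x) = x := by
  have hq2 := qsq q
  unfold delI del
  linear_combination (-(2 * x ^ 3 - q * x ^ 4)) * hq2

theorem hhI_hh {q : ℕ} (hq : q.Prime) (h3 : 3 < q) (u : ZMod (q ^ 2)) :
    hhI q (hh q u) = u := by
  have h := three_inv hq h3
  have hq2 := qsq q
  unfold hhI hh
  generalize (3 : ZMod (q ^ 2))⁻¹ = t at *
  linear_combination (u - 2 * q * t * u ^ 2 * (3 * t + 1)) * h -
    (24 * t ^ 3 * u ^ 3 + 8 * q * t ^ 3 * u ^ 4) * hq2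

theorem hh_hhI {q : ℕ} (hq : q.Prime) (h3 : 3 < q) (x : ZMod (q ^ 2)) :
    hh q (hhI q x) = x := by
  have h := three_inv hq h3
  have hq2 := qsq q
  unfold hhI hh
  generalize (3 : ZMod (q ^ 2))⁻¹ = t at *
  linear_combination (x - 2 * q * t ^ 2 * x ^ 2) * h -
    (8 * t ^ 4 * x ^ 3 - 8 * q * t ^ 6 * x ^ 4) * hq2

theorem hh_eq (q : ℕ) (u : ZMod (q ^ 2)) : hh q u = lam q u + del q u := by
  unfold hh lam del
  ring

theorem lam_sub_self (q : ℕ) (u : ZMod (q ^ 2)) : lam q u - u = del q u := by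
  unfold lam del
  ring

theorem lamI_inj {q : ℕ} (hq : q.Prime) (h3 : 3 < q) {x y : ZMod (q ^ 2)} :
    lamI q x = lamI q y ↔ x = y := by
  constructor
  · intro h
    rw [← lam_lamI hq h3 x, h, lam_lamI hq h3 y]
  · intro h
    rw [h]

theorem delI_inj {q : ℕ} {x y : ZMod (q ^ 2)} : delI q x = delI q y ↔ x = y := by
  constructor
  · intro h
    rw [← del_delI x, h, del_delI y]
  · intro h
    rw [h]

theorem red_int (q : ℕ) (z : ℤ) : red q ((z : ℤ) : ZMod (q ^ 2)) = ((z : ℤ) : ZMod q) :=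
  map_intCast (red q) z

theorem red_q (q : ℕ) : red q (q : ZMod (q ^ 2)) = 0 := by
  rw [map_natCast, ZMod.natCast_self]

theorem red_lam {q : ℕ} (u : ZMod (q ^ 2)) : red q (lam q u) = 2 * red q u := by
  unfold lam
  rw [map_add, map_mul, map_mul, red_q, zero_mul, add_zero, map_ofNat]

theorem red_del {q : ℕ} (u : ZMod (q ^ 2)) : red q (del q u) = red q u := by
  unfold del
  rw [map_add, map_mul, red_q, zero_mul, add_zero]

theorem red_hh {q : ℕ} (u : ZMod (q ^ 2)) : red q (hh q u) = 3 * red q u := by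
  unfold hh
  rw [map_add, map_mul, map_mul, map_mul, red_q, mul_zero, zero_mul, add_zero, map_ofNat]

theorem two_red_lamI {q : ℕ} (hq : q.Prime) (h3 : 3 < q) (x : ZMod (q ^ 2)) :
    2 * red q (lamI q x) = red q x := by
  rw [← red_lam, lam_lamI hq h3]

theorem red_delI {q : ℕ} (x : ZMod (q ^ 2)) : red q (delI q x) = red q x := by
  rw [← red_del, del_delI]

theorem three_red_hhI {q : ℕ} (hq : q.Prime) (h3 : 3 < q) (x : ZMod (q ^ 2)) :
    3 * red q (hhI q x) = red q x := by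
  rw [← red_hh, hh_hhI hq h3]

/-- the number of classes modulo `q^2` with given reduction is `q` -/
theorem card_red_fiber {q : ℕ} [NeZero q] (r : ZMod q) :
    ((Finset.univ : Finset (ZMod (q ^ 2))).filter (fun u => red q u = r)).card = q := by
  have hsurj : Function.Surjective (red q) := ZMod.ringHom_surjective (red q)
  have hcard : ∀ r : ZMod q,
      ((Finset.univ : Finset (ZMod (q ^ 2))).filter (fun u => red q u = r)).card =
      ((Finset.univ : Finset (ZMod (q ^ 2))).filter (fun u => red q u = 0)).card := by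
    intro r
    obtain ⟨s, hs⟩ := hsurj r
    refine Finset.card_bij (fun u _ => u - s) ?_ ?_ ?_
    · intro u hu
      rw [Finset.mem_filter] at hu ⊢
      refine ⟨Finset.mem_univ _, ?_⟩
      rw [map_sub, hu.2, hs, sub_self]
    · intro u _ v _ h
      exact sub_left_injective h
    · intro v hv
      rw [Finset.mem_filter] at hv
      refine ⟨v + s, ?_, add_sub_cancel_right v s⟩
      rw [Finset.mem_filter]
      refine ⟨Finset.mem_univ _, ?_⟩
      rw [map_add, hv.2, hs, zero_add]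
  have htot : (Finset.univ : Finset (ZMod (q ^ 2))).card =
      ∑ r ∈ (Finset.univ : Finset (ZMod q)),
        ((Finset.univ : Finset (ZMod (q ^ 2))).filter (fun u => red q u = r)).card :=
    Finset.card_eq_sum_card_fiberwise (fun u _ => Finset.mem_univ (red q u))
  rw [Finset.sum_congr rfl (fun r _ => hcard r), Finset.sum_const, Finset.card_univ,
    Finset.card_univ, ZMod.card, ZMod.card, smul_eq_mul] at htot
  rw [hcard r]
  have h2 : q * q = q * ((Finset.univ : Finset (ZMod (q ^ 2))).filter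
      (fun u => red q u = 0)).card := (sq q).symm.trans htot
  exact (Nat.eq_of_mul_eq_mul_left (Nat.pos_of_ne_zero (NeZero.ne q)) h2).symm

private theorem card_class_eq (Q : ℕ) (hQ : 0 < Q) (a b : ℤ) (r : ZMod Q) : ∃ A B v : ℤ,
    A * Q ≤ b - v ∧ b - v + 1 ≤ (A + 1) * Q ∧ B * Q ≤ a - 1 - v ∧ a - v ≤ (B + 1) * Q ∧
    ((((Finset.Icc a b).filter (fun x : ℤ => ((x : ℤ) : ZMod Q) = r)).card : ℕ) : ℤ)
      = max (A - B) 0 := by
  obtain ⟨v, hv⟩ := ZMod.intCast_surjective r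
  have hQ' : (0 : ℚ) < ((Q : ℤ) : ℚ) := by exact_mod_cast hQ
  have hset : (Finset.Icc a b).filter (fun x : ℤ => ((x : ℤ) : ZMod Q) = r) =
      (Finset.Ioc (a - 1) b).filter (fun x : ℤ => x ≡ v [ZMOD (Q : ℤ)]) := by
    ext x
    rw [Finset.mem_filter, Finset.mem_filter, Finset.mem_Icc, Finset.mem_Ioc, ← hv,
      ZMod.intCast_eq_intCast_iff]
    constructor
    · rintro ⟨⟨h1, h2⟩, h3⟩
      exact ⟨⟨by omega, h2⟩, h3⟩
    · rintro ⟨⟨h1, h2⟩, h3⟩
      exact ⟨⟨by omega, h2⟩, h3⟩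
  have hc := Int.Ioc_filter_modEq_card (a - 1) b (r := (Q : ℤ)) (by exact_mod_cast hQ) v
  refine ⟨⌊((b : ℚ) - v) / ((Q : ℤ) : ℚ)⌋, ⌊(((a - 1 : ℤ) : ℚ) - v) / ((Q : ℤ) : ℚ)⌋, v,
    ?_, ?_, ?_, ?_, ?_⟩
  · have h := Int.floor_le (((b : ℚ) - v) / ((Q : ℤ) : ℚ))
    rw [le_div_iff₀ hQ'] at h
    exact_mod_cast h
  · have h := Int.lt_floor_add_one (((b : ℚ) - v) / ((Q : ℤ) : ℚ))
    rw [div_lt_iff₀ hQ'] at h
    have h' : b - v < (⌊((b : ℚ) - v) / ((Q : ℤ) : ℚ)⌋ + 1) * (Q : ℤ) := by exact_mod_cast h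
    omega
  · have h := Int.floor_le ((((a - 1 : ℤ) : ℚ) - v) / ((Q : ℤ) : ℚ))
    rw [le_div_iff₀ hQ'] at h
    exact_mod_cast h
  · have h := Int.lt_floor_add_one ((((a - 1 : ℤ) : ℚ) - v) / ((Q : ℤ) : ℚ))
    rw [div_lt_iff₀ hQ'] at h
    have h' : a - 1 - v < (⌊(((a - 1 : ℤ) : ℚ) - v) / ((Q : ℤ) : ℚ)⌋ + 1) * (Q : ℤ) := by
      exact_mod_cast h
    omega
  · rw [hset]
    exact hc

/-- integers of an interval in a class modulo `Q` -/
theorem card_class_le (Q : ℕ) (hQ : 0 < Q) (a b : ℤ) (r : ZMod Q) :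
    (((Finset.Icc a b).filter (fun x : ℤ => ((x : ℤ) : ZMod Q) = r)).card : ℝ)
      ≤ max 0 (((b : ℝ) - a) / Q + 1) := by
  obtain ⟨A, B, v, h1, h2, h3, h4, h5⟩ := card_class_eq Q hQ a b r
  have hQ' : (0 : ℝ) < Q := by exact_mod_cast hQ
  have h6 : (((Finset.Icc a b).filter (fun x : ℤ => ((x : ℤ) : ZMod Q) = r)).card : ℝ) =
      max ((A : ℝ) - B) 0 := by exact_mod_cast h5
  rw [h6, max_comm]
  apply max_le_max le_rfl
  have h7 : (A - B) * (Q : ℤ) ≤ (b - a) + Q := by linarith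
  have h8 : ((A : ℝ) - B) * Q ≤ ((b : ℝ) - a) + Q := by exact_mod_cast h7
  have h9 : ((b : ℝ) - a) / Q + 1 = (((b : ℝ) - a) + Q) / Q := by field_simp
  rw [h9, le_div_iff₀ hQ']
  exact h8

/-- integers of an interval in a class modulo `Q`, lower bound -/
theorem card_class_ge (Q : ℕ) (hQ : 0 < Q) (a b : ℤ) (r : ZMod Q) :
    ((b : ℝ) - a) / Q - 1
      ≤ (((Finset.Icc a b).filter (fun x : ℤ => ((x : ℤ) : ZMod Q) = r)).card : ℝ) := by
  obtain ⟨A, B, v, h1, h2, h3, h4, h5⟩ := card_class_eq Q hQ a b r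
  have hQ' : (0 : ℝ) < Q := by exact_mod_cast hQ
  have h6 : (((Finset.Icc a b).filter (fun x : ℤ => ((x : ℤ) : ZMod Q) = r)).card : ℝ) =
      max ((A : ℝ) - B) 0 := by exact_mod_cast h5
  rw [h6]
  refine le_trans ?_ (le_max_left _ _)
  have h7 : (b - a) - Q ≤ (A - B) * (Q : ℤ) := by linarith
  have h8 : ((b : ℝ) - a) - Q ≤ ((A : ℝ) - B) * Q := by exact_mod_cast h7
  have h9 : ((b : ℝ) - a) / Q - 1 = (((b : ℝ) - a) - Q) / Q := by field_simp
  rw [h9, div_le_iff₀ hQ']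
  exact h8

end Pool.Agent.PGr
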