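import Mathlib
import Pool.Agent.PGr.EDefs
import Pool.Agent.PGr.Alg

/-!
# PGr, module EBas: dependence of `occ` and `used` on the shifts

Always `h : D.Reg κ c`. `Q = q^2`.

PLAN.
* `unL_lab`: `lab θ v = Y v t` with `t = sh θ (un v)`, `h.Y_res` gives `((Y v t : ℤ) : ZMod Q) =
  lam (un v)`, so `unL = lamI (lam (un v)) = un v` (Alg.lamI_lam; `17 < q` from `h.q_big`).
* `unD_spoke`: the same with `h.sp_res` and `Alg.delI_del`.
* `occ_iff`: `→` from `⟨v, hv, e⟩`: `unL x = unL (lab θ v) = un v`, and unfold `lab`.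
  `←` is immediate.
* `used_iff`: the same with `unD`.
* `occ_congr`, `used_congr`: from the `iff` lemmas: `sh θ u` depends only on `θ u`.
* `occ_res`: if `unL x ∈ Res` then `sh θ (unL x) = th0 (unL x)`.
* `lab_congr`: `lab θ v` depends only on `θ (un v)` (and not on `θ` if `v ∉ Sv`).
* `cls_lab`: `v ∈ Sv`: `h.Y_res`; `v ∉ Sv`: both sides are the cast of `pl v`.
* `lamI_cls`: for `v ∈ Sv`, `lamI q (cls v) = un v`.
* `lab_range`: `v ∈ Sv`: `h.Y_mem` with `h.B0_low`, `h.B0_high` (so the label is in `[n, 2n)`);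
  `v ∉ Sv`: `h.pl_mem`.
* `gen3_item`: `D.gen3 (hi m) (anc m) (yy1 θ m) (yy2 θ m)` for `m ∈ It`: the range of `nX` of the
  anchor from `h.anc_A` (unfold `A`, `nX`), the labels from `lab_range`, the residues modulo `q`
  from `h.gen` by `Alg.red_int` and `cls_lab`.
* `occ_window`: an occupied label lies in `[B0, B0 + 2 S Q)`.
* `used_range`: a used difference lies in `[1, 2n]` (`h.sp_hi`, `h.sp_lo`, `h.sp_le`).
* `free_const`: if `unD d ∈ Res` then `pD d = 1` or `pD d = 0`, and `0 < pD d` iff `¬ used θ d` for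
  all `θ` iff for some `θ`.
-/

noncomputable section

namespace Pool.Agent.PGr

open Finset

namespace Dat

variable {D : Dat} {κ c : ℝ}

theorem unL_lab (h : D.Reg κ c) (θ : D.Om) {v : ℕ} (hv : v ∈ D.Sv) :
    unL D.q (D.lab θ v) = D.un v := by
  have h3 : 3 < D.q := lt_trans (by norm_num) h.q_big
  unfold unL lab
  rw [if_pos hv, h.Y_res v hv, lamI_lam h.q_prime h3]

theorem unD_spoke (h : D.Reg κ c) (θ : D.Om) {v : ℕ} (hv : v ∈ D.Sv) :
    unD D.q |D.lab θ v - D.anc v| = D.un v := by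
  unfold unD lab
  rw [if_pos hv, h.sp_res v hv, delI_del]

theorem occ_iff (h : D.Reg κ c) (θ : D.Om) (x : ℤ) :
    D.occ θ x ↔ ∃ v ∈ D.Sv, D.un v = unL D.q x ∧ D.Y v (D.sh θ (unL D.q x)) = x := by
  constructor
  · rintro ⟨v, hv, e⟩
    have h1 : D.un v = unL D.q x := by rw [← e, unL_lab h θ hv]
    refine ⟨v, hv, h1, ?_⟩
    rw [← h1]
    unfold lab at e
    rw [if_pos hv] at e
    exact e
  · rintro ⟨v, hv, h1, h2⟩
    refine ⟨v, hv, ?_⟩
    unfold lab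
    rw [if_pos hv, h1]
    exact h2

theorem used_iff (h : D.Reg κ c) (θ : D.Om) (d : ℤ) :
    D.used θ d ↔ ∃ v ∈ D.Sv, D.un v = unD D.q d ∧
      |D.Y v (D.sh θ (unD D.q d)) - D.anc v| = d := by
  constructor
  · rintro ⟨v, hv, e⟩
    have h1 : D.un v = unD D.q d := by rw [← e, unD_spoke h θ hv]
    refine ⟨v, hv, h1, ?_⟩
    rw [← h1]
    unfold lab at e
    rw [if_pos hv] at e
    exact e
  · rintro ⟨v, hv, h1, h2⟩
    refine ⟨v, hv, ?_⟩
    unfold lab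
    rw [if_pos hv, h1]
    exact h2

theorem occ_congr (h : D.Reg κ c) (θ θ' : D.Om) (x : ℤ)
    (e : θ (unL D.q x) = θ' (unL D.q x)) : D.occ θ x ↔ D.occ θ' x := by
  have h1 : D.sh θ (unL D.q x) = D.sh θ' (unL D.q x) := by
    unfold sh
    rw [e]
  rw [occ_iff h θ x, occ_iff h θ' x, h1]

theorem used_congr (h : D.Reg κ c) (θ θ' : D.Om) (d : ℤ)
    (e : θ (unD D.q d) = θ' (unD D.q d)) : D.used θ d ↔ D.used θ' d := by
  have h1 : D.sh θ (unD D.q d) = D.sh θ' (unD D.q d) := by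
    unfold sh
    rw [e]
  rw [used_iff h θ d, used_iff h θ' d, h1]

theorem occ_res (h : D.Reg κ c) (θ θ' : D.Om) (x : ℤ) (hx : unL D.q x ∈ D.Res) :
    D.occ θ x ↔ D.occ θ' x := by
  have h1 : D.sh θ (unL D.q x) = D.sh θ' (unL D.q x) := by
    unfold sh
    rw [if_pos hx, if_pos hx]
  rw [occ_iff h θ x, occ_iff h θ' x, h1]

theorem used_res (h : D.Reg κ c) (θ θ' : D.Om) (d : ℤ) (hd : unD D.q d ∈ D.Res) :
    D.used θ d ↔ D.used θ' d := by
  have h1 : D.sh θ (unD D.q d) = D.sh θ' (unD D.q d) := by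
    unfold sh
    rw [if_pos hd, if_pos hd]
  rw [used_iff h θ d, used_iff h θ' d, h1]

theorem lab_congr (θ θ' : D.Om) (v : ℕ) (e : θ (D.un v) = θ' (D.un v)) :
    D.lab θ v = D.lab θ' v := by
  unfold lab sh
  rw [e]

theorem lab_notin (θ : D.Om) {v : ℕ} (hv : v ∉ D.Sv) : D.lab θ v = D.pl v := by
  unfold lab
  rw [if_neg hv]

theorem cls_lab (h : D.Reg κ c) (θ : D.Om) (v : ℕ) :
    ((D.lab θ v : ℤ) : ZMod (D.q ^ 2)) = D.cls v := by
  unfold lab cls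
  by_cases hv : v ∈ D.Sv
  · rw [if_pos hv, if_pos hv, h.Y_res v hv]
  · rw [if_neg hv, if_neg hv]

theorem lamI_cls (h : D.Reg κ c) {v : ℕ} (hv : v ∈ D.Sv) : lamI D.q (D.cls v) = D.un v := by
  have h3 : 3 < D.q := lt_trans (by norm_num) h.q_big
  unfold cls
  rw [if_pos hv, lamI_lam h.q_prime h3]

theorem lab_range (h : D.Reg κ c) (θ : D.Om) {m : ℕ} (hm : m ∈ D.It) {v : ℕ}
    (hv : v = D.nb1 m ∨ v = D.nb2 m) :
    (9 / 10 : ℝ) * D.n ≤ D.lab θ v ∧ (D.lab θ v : ℝ) ≤ (21 / 10) * D.n := by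
  by_cases hvS : v ∈ D.Sv
  · have e : D.lab θ v = D.Y v (D.sh θ (D.un v)) := by
      unfold lab
      rw [if_pos hvS]
    obtain ⟨h1, h2⟩ := h.Y_mem v hvS (D.sh θ (D.un v))
    rw [← e] at h1 h2
    have h3 : (D.n : ℤ) ≤ (D.B0 : ℤ) := by exact_mod_cast h.B0_low
    have h4 : (D.B0 : ℤ) + 2 * D.S * D.q ^ 2 ≤ 2 * D.n := by exact_mod_cast h.B0_high
    have h5 : (D.n : ℤ) ≤ D.lab θ v := h3.trans h1
    have h6 : D.lab θ v ≤ 2 * (D.n : ℤ) := (h2.le).trans h4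
    have h7 : (D.n : ℝ) ≤ (D.lab θ v : ℝ) := by exact_mod_cast h5
    have h8 : (D.lab θ v : ℝ) ≤ 2 * (D.n : ℝ) := by exact_mod_cast h6
    have h9 : (0 : ℝ) ≤ D.n := Nat.cast_nonneg _
    constructor <;> linarith
  · rw [lab_notin θ hvS]
    exact h.pl_mem m hm v hv hvS

theorem gen3_item (h : D.Reg κ c) (θ : D.Om) {m : ℕ} (hm : m ∈ D.It) :
    D.gen3 (D.hi m) (D.anc m) (D.yy1 θ m) (D.yy2 θ m) := by
  have hn : (0 : ℝ) < D.n := by
    have h1 : 0 < D.q ^ 6 := pow_pos (lt_trans (by norm_num) h.q_big) 6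
    have h2 : 0 < D.n := lt_of_lt_of_le h1 h.q_high
    exact_mod_cast h2
  obtain ⟨a1, a2⟩ := h.anc_A m (Finset.mem_union_right _ hm)
  have hA : D.nX (D.hi m) (D.anc m) = (D.A m : ℝ) / D.n := by
    unfold nX A
    by_cases hh : D.hi m = true
    · rw [if_pos hh, if_pos hh]
    · rw [if_neg hh, if_neg hh]
      push_cast
      field_simp
  have a1' : 5 * (D.n : ℝ) ≤ 2 * (D.A m : ℝ) := by exact_mod_cast a1
  have a2' : (D.A m : ℝ) ≤ 3 * (D.n : ℝ) := by exact_mod_cast a2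
  obtain ⟨b1, b2⟩ := lab_range h θ hm (v := D.nb1 m) (Or.inl rfl)
  obtain ⟨c1, c2⟩ := lab_range h θ hm (v := D.nb2 m) (Or.inr rfl)
  obtain ⟨g1, g2, g3⟩ := h.gen m hm
  have k1 : red D.q (D.cls (D.nb1 m)) = ((D.lab θ (D.nb1 m) : ℤ) : ZMod D.q) := by
    rw [← cls_lab h θ, red_int]
  have k2 : red D.q (D.cls (D.nb2 m)) = ((D.lab θ (D.nb2 m) : ℤ) : ZMod D.q) := by
    rw [← cls_lab h θ, red_int]
  have k0 : red D.q ((D.anc m : ℤ) : ZMod (D.q ^ 2)) = ((D.anc m : ℤ) : ZMod D.q) := red_int _ _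
  rw [k0, k1] at g1
  rw [k0, k2] at g2
  rw [k1, k2] at g3
  refine ⟨?_, ?_, b1, b2, c1, c2, g1, g2, g3⟩
  · rw [hA, le_div_iff₀ hn]
    linarith
  · rw [hA, div_le_iff₀ hn]
    linarith

theorem occ_window (h : D.Reg κ c) (θ : D.Om) {x : ℤ} (hx : D.occ θ x) :
    (D.B0 : ℤ) ≤ x ∧ x < D.B0 + 2 * D.S * D.q ^ 2 := by
  obtain ⟨v, hv, e⟩ := hx
  unfold lab at e
  rw [if_pos hv] at e
  rw [← e]
  exact h.Y_mem v hv _

theorem used_range (h : D.Reg κ c) (θ : D.Om) {d : ℤ} (hd : D.used θ d) :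
    1 ≤ d ∧ d ≤ 2 * D.n := by
  obtain ⟨v, hv, e⟩ := hd
  unfold lab at e
  rw [if_pos hv] at e
  rw [← e]
  refine ⟨?_, h.sp_le v hv _⟩
  cases hh : D.hi v with
  | true =>
    have h1 := h.sp_hi v hv hh (D.sh θ (D.un v))
    have h2 : D.Y v (D.sh θ (D.un v)) - D.anc v ≠ 0 := by omega
    exact Int.one_le_abs h2
  | false =>
    have h1 := h.sp_lo v hv hh (D.sh θ (D.un v))
    have h2 : D.Y v (D.sh θ (D.un v)) - D.anc v ≠ 0 := by omega
    exact Int.one_le_abs h2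

theorem pD_res (h : D.Reg κ c) {d : ℤ} (hd : unD D.q d ∈ D.Res) :
    (D.pD d = 1 ∧ ∀ θ, ¬ D.used θ d) ∨ (D.pD d = 0 ∧ ∀ θ, D.used θ d) := by
  classical
  by_cases hu : D.used (fun _ => 0) d
  · right
    have h1 : ∀ θ, D.used θ d := fun θ => (used_res h (fun _ => 0) θ d hd).1 hu
    refine ⟨?_, h1⟩
    unfold pD Pr
    rw [Ex_congr (g := fun _ => (0 : ℝ)) (fun θ => by simp [h1 θ])]
    exact Ex_const 0
  · left
    have h1 : ∀ θ, ¬ D.used θ d := fun θ hθ => hu ((used_res h (fun _ => 0) θ d hd).2 hθ)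
    refine ⟨?_, h1⟩
    unfold pD Pr
    rw [Ex_congr (g := fun _ => (1 : ℝ)) (fun θ => by simp [h1 θ])]
    exact Ex_const 1

/-- a label of `Z0` is in normalised range and its unit is not reserved -/
theorem Ze_prop (h : D.Reg κ c) {x : ℤ} (hx : x ∈ D.Ze) :
    (D.n : ℤ) < 2 * x ∧ 2 * x < 5 * D.n ∧ unL D.q x ∉ D.Res ∧ ¬ (D.n : ℤ) ∣ 4 * x := by
  unfold Ze at hx
  rw [Finset.mem_filter, h.Z0_def] at hx
  exact ⟨hx.1.1, hx.1.2.1, hx.1.2.2, hx.2⟩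

end Dat

end Pool.Agent.PGr
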