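import Mathlib
import Pool.Agent.PGr.CDefs
import Pool.Agent.PGr.EBas

/-!
# PGr, module CExp: expected corrected degrees

PLAN. `swv_lo`: for `d ≤ n`, `¬ used θ d ∧ swIr θ d m d d' ↔ swv θ m d d'` (= `swI`): the equation and the
list are the same. If `¬ used θ d`, then `edgD θ d .. x ↔ edg .. x` whenever... in general
`edg .. x → edgD θ d .. x`, and `edgD θ d .. x ∧ ¬ used θ d → edg .. x` (in the case `|x - y| = d` use
`¬ used θ d`). Conversely `swI θ m d d'` gives `edge θ m (y2 + d)`, one of whose differences is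
`|x - y2| = |d| = d` for `d ≥ 0` (`d ∈ D0`, h.D0_sub), so `¬ used θ d`. The same for swU:
`|x - a| = |-d| = d`.
`swIr_symm`: `swIr θ r m d d' ↔ swIr θ r m d' d`: the equation is symmetric, the two edges are exchanged,
and in the list of 8 units `|y2 + d' - y1| = |a - (y2 + d)|` and `|y2 + d' - a| = |y1 - (y2 + d)|` by the
equation, so the second list is a permutation of the first. `swUr_symm`: the same
(`|a - d' - y1| = |y2 - (a - d)|`, `|a - d' - y2| = |y1 - (a - d)|`).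
`Ex_FF`: for `d ∈ D2`: multiply out: `Ex (if used then 0 else FF) = GG e d
 - Ex (if used then 0 else Tsrc) + [d ∈ JJ] Ex (if used then 0 else Ttgt)`.
`Ex (if used then 0 else SI θ d JJ (g d ·)) = ∑_{m ∈ IR} ∑_{d' ∈ JJ} g d d' Pr (swv θ m d d')` for `d ≤ n`
(swv_lo), = `∑_{d'} QQ d d' * g d d'`; for `d > n` the same with SU. For the target (d ∈ JJ):
`∑_{d' ∈ D2lo} ∑_m Pr (¬ used θ d ∧ swIr θ d m d d') g d' d`, and
`¬ used θ d ∧ swIr θ d m d d' ↔ ¬ used θ d ∧ swIr θ d m d' d ↔ swI θ m d' d = swv θ m d' d` (as `d' ≤ n`);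
together with D2hi: `∑_{d' ∈ D2} QQ d' d * g d' d` (`D2 = D2lo ∪ D2hi` disjoint).
`Ex_FF_def`: for `d ∈ D0 \ D2` the two corrections are absent (`JJ ⊆ D2`).
-/

noncomputable section

namespace Pool.Agent.PGr

open Finset

namespace Dat

variable {D : Dat} {κ c : ℝ}

private theorem perm8 {α : Type*} {a b x y u v p r : α} (h : [a, b, x, y, u, v, p, r].Nodup) :
    [a, b, y, x, v, u, r, p].Nodup := by
  have hp : List.Perm [a, b, x, y, u, v, p, r] [a, b, y, x, v, u, r, p] :=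
    List.Perm.cons a (List.Perm.cons b ((List.Perm.swap y x _).trans
      (List.Perm.cons y (List.Perm.cons x ((List.Perm.swap v u _).trans
        (List.Perm.cons v (List.Perm.cons u (List.Perm.swap r p []))))))))
  exact hp.nodup_iff.1 h

private theorem edgD_iff {θ : D.Om} {r : ℤ} (hr : ¬ D.used θ r) (a y1 y2 x : ℤ) :
    D.edgD θ r a y1 y2 x ↔ D.edg θ a y1 y2 x := by
  have key : ∀ z : ℤ, (z = r ∨ ¬ D.used θ z) ↔ ¬ D.used θ z := by
    intro z
    constructor
    · rintro (h | h)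
      · rw [h]
        exact hr
      · exact h
    · exact Or.inr
  unfold edgD edg av
  rw [key, key, key]

private theorem swIr_symm' (θ : D.Om) (r : ℤ) (m : ℕ) (d d' : ℤ)
    (hs : D.swIr θ r m d d') : D.swIr θ r m d' d := by
  obtain ⟨h1, h2, h3, h4⟩ := hs
  refine ⟨by linarith, h3, h2, ?_⟩
  have e1 : |D.yy2 θ m + d' - D.yy1 θ m| = |D.yy2 θ m + d - D.anc m| := by
    rw [← abs_neg]
    congr 1
    linarith
  have e2 : |D.yy2 θ m + d' - D.anc m| = |D.yy2 θ m + d - D.yy1 θ m| := by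
    rw [← abs_neg]
    congr 1
    linarith
  rw [e1, e2]
  exact perm8 h4

private theorem swUr_symm' (θ : D.Om) (r : ℤ) (m : ℕ) (d d' : ℤ)
    (hs : D.swUr θ r m d d') : D.swUr θ r m d' d := by
  obtain ⟨h1, h2, h3, h4⟩ := hs
  refine ⟨by linarith, h3, h2, ?_⟩
  have e1 : |D.anc m - d' - D.yy1 θ m| = |D.anc m - d - D.yy2 θ m| := by
    rw [← abs_neg]
    congr 1
    linarith
  have e2 : |D.anc m - d' - D.yy2 θ m| = |D.anc m - d - D.yy1 θ m| := by
    rw [← abs_neg]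
    congr 1
    linarith
  rw [e1, e2]
  exact perm8 h4

private theorem swI_gen (θ : D.Om) (m : ℕ) (d d' r : ℤ)
    (hr : D.swI θ m d d' → ¬ D.used θ r) :
    D.swI θ m d d' ↔ (¬ D.used θ r ∧ D.swIr θ r m d d') := by
  constructor
  · intro h
    have h0 := hr h
    refine ⟨h0, ?_⟩
    obtain ⟨h1, h2, h3, h4⟩ := h
    exact ⟨h1, (edgD_iff h0 _ _ _ _).2 h2, (edgD_iff h0 _ _ _ _).2 h3, h4⟩
  · rintro ⟨h0, h1, h2, h3, h4⟩
    exact ⟨h1, (edgD_iff h0 _ _ _ _).1 h2, (edgD_iff h0 _ _ _ _).1 h3, h4⟩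

private theorem swU_gen (θ : D.Om) (m : ℕ) (d d' r : ℤ)
    (hr : D.swU θ m d d' → ¬ D.used θ r) :
    D.swU θ m d d' ↔ (¬ D.used θ r ∧ D.swUr θ r m d d') := by
  constructor
  · intro h
    have h0 := hr h
    refine ⟨h0, ?_⟩
    obtain ⟨h1, h2, h3, h4⟩ := h
    exact ⟨h1, (edgD_iff h0 _ _ _ _).2 h2, (edgD_iff h0 _ _ _ _).2 h3, h4⟩
  · rintro ⟨h0, h1, h2, h3, h4⟩
    exact ⟨h1, (edgD_iff h0 _ _ _ _).1 h2, (edgD_iff h0 _ _ _ _).1 h3, h4⟩

private theorem edge_y2 {θ : D.Om} {m : ℕ} {d : ℤ} (hd : 0 ≤ d)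
    (h : D.edge θ m (D.yy2 θ m + d)) : ¬ D.used θ d := by
  obtain ⟨-, -, -, -, h5, -⟩ := h
  have h6 := h5.2
  rw [add_sub_cancel_left, abs_of_nonneg hd] at h6
  exact h6

private theorem edge_anc {θ : D.Om} {m : ℕ} {d : ℤ} (hd : 0 ≤ d)
    (h : D.edge θ m (D.anc m - d)) : ¬ D.used θ d := by
  obtain ⟨-, -, h5, -⟩ := h
  have h6 := h5.2
  have h7 : D.anc m - d - D.anc m = -d := by ring
  rw [h7, abs_neg, abs_of_nonneg hd] at h6
  exact h6

theorem swIr_symm (θ : D.Om) (r : ℤ) (m : ℕ) (d d' : ℤ) :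
    D.swIr θ r m d d' ↔ D.swIr θ r m d' d := by
  exact ⟨swIr_symm' θ r m d d', swIr_symm' θ r m d' d⟩

theorem swUr_symm (θ : D.Om) (r : ℤ) (m : ℕ) (d d' : ℤ) :
    D.swUr θ r m d d' ↔ D.swUr θ r m d' d := by
  exact ⟨swUr_symm' θ r m d d', swUr_symm' θ r m d' d⟩

theorem swI_iff (θ : D.Om) (m : ℕ) {d : ℤ} (hd : 0 ≤ d) (d' : ℤ) :
    D.swI θ m d d' ↔ (¬ D.used θ d ∧ D.swIr θ d m d d') := by
  exact swI_gen θ m d d' d (fun h => edge_y2 hd h.2.1)

theorem swU_iff (θ : D.Om) (m : ℕ) {d : ℤ} (hd : 0 ≤ d) (d' : ℤ) :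
    D.swU θ m d d' ↔ (¬ D.used θ d ∧ D.swUr θ d m d d') := by
  exact swU_gen θ m d d' d (fun h => edge_anc hd h.2.1)

/-- the same for the target difference -/
theorem swI_iff' (θ : D.Om) (m : ℕ) (d : ℤ) {d' : ℤ} (hd' : 0 ≤ d') :
    D.swI θ m d d' ↔ (¬ D.used θ d' ∧ D.swIr θ d' m d' d) := by
  rw [← swIr_symm]
  exact swI_gen θ m d d' d' (fun h => edge_y2 hd' h.2.2.1)

theorem swU_iff' (θ : D.Om) (m : ℕ) (d : ℤ) {d' : ℤ} (hd' : 0 ≤ d') :
    D.swU θ m d d' ↔ (¬ D.used θ d' ∧ D.swUr θ d' m d' d) := by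
  rw [← swUr_symm]
  exact swU_gen θ m d d' d' (fun h => edge_anc hd' h.2.2.1)

open Classical in
private theorem Ex_double {Ω : Type*} [Fintype Ω] (A : Finset ℕ) (S : Finset ℤ)
    (P : Ω → ℕ → ℤ → Prop) (γ : ℤ → ℝ) :
    Ex (fun ω => ∑ m ∈ A, ∑ d' ∈ S, if P ω m d' then γ d' else 0) =
      ∑ d' ∈ S, (∑ m ∈ A, Pr (fun ω => P ω m d')) * γ d' := by
  have e1 : (fun ω : Ω => ∑ m ∈ A, ∑ d' ∈ S, if P ω m d' then γ d' else 0) =
      fun ω => ∑ d' ∈ S, ∑ m ∈ A, (if P ω m d' then (1 : ℝ) else 0) * γ d' := by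
    funext ω
    rw [Finset.sum_comm]
    refine Finset.sum_congr rfl (fun d' _ => Finset.sum_congr rfl (fun m _ => ?_))
    split_ifs
    · rw [one_mul]
    · rw [zero_mul]
  rw [e1, Ex_sum]
  refine Finset.sum_congr rfl (fun d' _ => ?_)
  rw [Ex_sum, Finset.sum_mul]
  refine Finset.sum_congr rfl (fun m _ => ?_)
  rw [Ex_mul_const]
  rfl

open Classical in
private theorem Ex_src (g : ℤ → ℤ → ℝ) {d : ℤ} (hd : 0 ≤ d) :
    Ex (fun θ : D.Om => if D.used θ d then 0 else D.Tsrc g θ d) =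
      ∑ j ∈ D.JJ, D.QQ d j * g d j := by
  have e1 : (fun θ : D.Om => if D.used θ d then 0 else D.Tsrc g θ d) =
      fun θ => ∑ m ∈ D.IR, ∑ d' ∈ D.JJ, if D.swv θ m d d' then g d d' else 0 := by
    funext θ
    by_cases hu : D.used θ d
    · rw [if_pos hu]
      symm
      refine Finset.sum_eq_zero (fun m _ => Finset.sum_eq_zero (fun d' _ => ?_))
      rw [if_neg]
      intro hs
      unfold swv at hs
      split_ifs at hs with hn
      · exact ((swI_iff θ m hd d').1 hs).1 hu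
      · exact ((swU_iff θ m hd d').1 hs).1 hu
    · rw [if_neg hu]
      unfold Tsrc swv
      by_cases hn : d ≤ D.n
      · rw [if_pos hn]
        unfold SI
        refine Finset.sum_congr rfl (fun m _ => Finset.sum_congr rfl (fun d' _ => ?_))
        rw [if_pos hn]
        have k := swI_iff (D := D) θ m hd d'
        by_cases hs : D.swIr θ d m d d'
        · rw [if_pos hs, if_pos (k.2 ⟨hu, hs⟩)]
        · rw [if_neg hs, if_neg (fun h' => hs (k.1 h').2)]
      · rw [if_neg hn]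
        unfold SU
        refine Finset.sum_congr rfl (fun m _ => Finset.sum_congr rfl (fun d' _ => ?_))
        rw [if_neg hn]
        have k := swU_iff (D := D) θ m hd d'
        by_cases hs : D.swUr θ d m d d'
        · rw [if_pos hs, if_pos (k.2 ⟨hu, hs⟩)]
        · rw [if_neg hs, if_neg (fun h' => hs (k.1 h').2)]
  rw [e1, Ex_double]
  rfl

open Classical in
private theorem Ex_tgt (g : ℤ → ℤ → ℝ) {d : ℤ} (hd : 0 ≤ d) :
    Ex (fun θ : D.Om => if D.used θ d then 0 else D.Ttgt g θ d) =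
      ∑ d' ∈ D.D2, D.QQ d' d * g d' d := by
  have e1 : (fun θ : D.Om => if D.used θ d then 0 else D.Ttgt g θ d) =
      fun θ => ∑ m ∈ D.IR, ∑ d' ∈ D.D2, if D.swv θ m d' d then g d' d else 0 := by
    funext θ
    by_cases hu : D.used θ d
    · rw [if_pos hu]
      symm
      refine Finset.sum_eq_zero (fun m _ => Finset.sum_eq_zero (fun d' _ => ?_))
      rw [if_neg]
      intro hs
      unfold swv at hs
      split_ifs at hs with hn
      · exact ((swI_iff' θ m d' hd).1 hs).1 hu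
      · exact ((swU_iff' θ m d' hd).1 hs).1 hu
    · rw [if_neg hu]
      unfold Ttgt SI SU
      rw [← Finset.sum_add_distrib]
      refine Finset.sum_congr rfl (fun m _ => ?_)
      rw [← Finset.sum_filter_add_sum_filter_not D.D2 (fun d' => d' ≤ (D.n : ℤ))
        (fun d' => if D.swv θ m d' d then g d' d else 0)]
      congr 1
      · unfold D2lo
        refine Finset.sum_congr rfl (fun d' hd' => ?_)
        have hn := (Finset.mem_filter.1 hd').2
        have k := swI_iff' (D := D) θ m d' hd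
        have k' : D.swv θ m d' d ↔ D.swI θ m d' d := by
          unfold swv
          rw [if_pos hn]
        by_cases hs : D.swIr θ d m d d'
        · rw [if_pos hs, if_pos (k'.2 (k.2 ⟨hu, hs⟩))]
        · rw [if_neg hs, if_neg (fun h' => hs (k.1 (k'.1 h')).2)]
      · unfold D2hi
        refine Finset.sum_congr rfl (fun d' hd' => ?_)
        have hn := (Finset.mem_filter.1 hd').2
        have k := swU_iff' (D := D) θ m d' hd
        have k' : D.swv θ m d' d ↔ D.swU θ m d' d := by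
          unfold swv
          rw [if_neg hn]
        by_cases hs : D.swUr θ d m d d'
        · rw [if_pos hs, if_pos (k'.2 (k.2 ⟨hu, hs⟩))]
        · rw [if_neg hs, if_neg (fun h' => hs (k.1 (k'.1 h')).2)]
  rw [e1]
  exact Ex_double D.IR D.D2 (fun θ m d' => D.swv θ m d' d) (fun d' => g d' d)

open Classical in
theorem Ex_FF (h : D.Reg κ c) (e : ℝ) (g : ℤ → ℤ → ℝ) {d : ℤ} (hd : d ∈ D.D2) :
    Ex (fun θ : D.Om => if D.used θ d then 0 else D.FF e g θ d)
      = D.GG e d - ∑ j ∈ D.JJ, D.QQ d j * g d j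
        + (if d ∈ D.JJ then ∑ d' ∈ D.D2, D.QQ d' d * g d' d else 0) := by
  have hd0 : 0 ≤ d := by
    unfold D2 at hd
    rw [Finset.mem_filter] at hd
    have h1 := (h.D0_sub d hd.1).1
    linarith
  have e1 : Ex (fun θ : D.Om => if D.used θ d then 0 else D.FF e g θ d) =
      D.GG e d - Ex (fun θ : D.Om => if D.used θ d then 0 else D.Tsrc g θ d) +
      Ex (fun θ : D.Om => if D.used θ d then 0 else (if d ∈ D.JJ then D.Ttgt g θ d else 0)) := by
    unfold GG
    rw [← Ex_sub, ← Ex_add]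
    refine Ex_congr (fun θ => ?_)
    unfold FF
    by_cases hu : D.used θ d
    · rw [if_pos hu, if_pos hu, if_pos hu, if_pos hu]
      ring
    · rw [if_neg hu, if_neg hu, if_neg hu, if_neg hu, if_pos hd]
  have e2 := Ex_src (D := D) g hd0
  rw [e1, e2]
  congr 1
  by_cases hJ : d ∈ D.JJ
  · rw [if_pos hJ, ← Ex_tgt (D := D) g hd0]
    refine Ex_congr (fun θ => ?_)
    rw [if_pos hJ]
  · rw [if_neg hJ]
    have e3 : Ex (fun θ : D.Om => if D.used θ d then 0 else
        (if d ∈ D.JJ then D.Ttgt g θ d else 0)) = Ex (fun _ : D.Om => (0 : ℝ)) := by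
      refine Ex_congr (fun θ => ?_)
      rw [if_neg hJ, ite_self]
    rw [e3]
    exact Ex_const 0

open Classical in
theorem Ex_FF_def (h : D.Reg κ c) (e : ℝ) (g : ℤ → ℤ → ℝ) {d : ℤ} (hd : d ∉ D.D2) :
    Ex (fun θ : D.Om => if D.used θ d then 0 else D.FF e g θ d) = D.GG e d := by
  have hJ : d ∉ D.JJ := by
    intro hj
    unfold JJ at hj
    exact hd (Finset.mem_filter.1 hj).1
  unfold GG
  refine Ex_congr (fun θ => ?_)
  unfold FF
  rw [if_neg hd, if_neg hJ, sub_zero, add_zero]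

end Dat

end Pool.Agent.PGr
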