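import Mathlib
import Pool.Agent.PGr.Prob

/-!
# PGr, module CMu: from the mean on an event to the mean

STATEMENT. `X : Ω → ℝ` bounded by B in absolute value, `U` an event with `p = Pr (¬ U) > 0`,
`Ex (if U then 0 else X) ≤ a * p + β`, and `|X - Ex X| ≤ ε` except on an event of probability at
most ε (0 < ε). Then `Ex X ≤ a + (β + (2 B + 1) ε) / p`.

PLAN. `μ = Ex X`. `μ p = Ex (if U then 0 else μ) = Ex (if U then 0 else X) - Ex (if U then 0 else X - μ)`
`≤ a p + β + Ex |X - μ|`, and `Ex |X - μ| ≤ ε + 2 B ε` (Prob.Ex_le_of_Pr with the bad event, c = ε, bound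
`2B`; in the case `2B < ε` bound by ε directly). Divide by p.
-/

namespace Pool.Agent.PGr

open Finset

open Classical in
theorem mean_on_event {Ω : Type*} [Fintype Ω] [Nonempty Ω] (X : Ω → ℝ) (U : Ω → Prop)
    (B a β ε : ℝ) (hB : ∀ ω, |X ω| ≤ B) (hε : 0 < ε) (hp : 0 < Pr (fun ω => ¬ U ω))
    (hU : Ex (fun ω => if U ω then 0 else X ω) ≤ a * Pr (fun ω => ¬ U ω) + β)
    (hc : Pr (fun ω => ¬ (|X ω - Ex X| ≤ ε)) ≤ ε) :
    Ex X ≤ a + (β + (2 * B + 1) * ε) / Pr (fun ω => ¬ U ω) := by
  have hB0 : 0 ≤ B := (abs_nonneg _).trans (hB (Classical.arbitrary Ω))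
  set μ := Ex X with hμ
  have hμB : |μ| ≤ B := by
    refine (abs_Ex_le X).trans ?_
    calc Ex (fun ω => |X ω|) ≤ Ex (fun _ : Ω => B) := Ex_mono hB
      _ = B := Ex_const B
  have h2B : ∀ ω, |X ω - μ| ≤ 2 * B := by
    intro ω
    have h1 := abs_sub (X ω) μ
    have h2 := hB ω
    linarith
  have hdev : Ex (fun ω => |X ω - μ|) ≤ ε + 2 * B * ε := by
    have h1 : Ex (fun ω => |X ω - μ|)
        ≤ Ex (fun ω => ε + 2 * B * (if ¬ (|X ω - μ| ≤ ε) then (1 : ℝ) else 0)) := by
      apply Ex_mono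
      intro ω
      by_cases h : |X ω - μ| ≤ ε
      · simp only [h, not_true_eq_false, if_false]
        linarith
      · simp only [h, not_false_eq_true, if_true]
        have := h2B ω
        linarith
    rw [Ex_add, Ex_const, Ex_const_mul] at h1
    refine h1.trans ?_
    have h3 : Ex (fun ω => if ¬ (|X ω - μ| ≤ ε) then (1 : ℝ) else 0) ≤ ε := by
      have h5 := hc
      unfold Pr at h5
      convert h5
    have h4 := mul_le_mul_of_nonneg_left h3 (by linarith : (0 : ℝ) ≤ 2 * B)
    linarith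
  have hmul : μ * Pr (fun ω => ¬ U ω) ≤ a * Pr (fun ω => ¬ U ω) + β + (ε + 2 * B * ε) := by
    have h1 : μ * Pr (fun ω => ¬ U ω)
        ≤ Ex (fun ω => (if U ω then 0 else X ω) + |X ω - μ|) := by
      unfold Pr
      rw [← Ex_const_mul]
      apply Ex_mono
      intro ω
      by_cases h : U ω
      · simp only [h, not_true_eq_false, if_false, if_true]
        have := abs_nonneg (X ω - μ)
        linarith
      · simp only [h, not_false_eq_true, if_false, if_true]
        have := neg_abs_le (X ω - μ)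
        linarith
    rw [Ex_add] at h1
    linarith
  have hfin : μ - a ≤ (β + (2 * B + 1) * ε) / Pr (fun ω => ¬ U ω) := by
    rw [le_div_iff₀ hp]
    linarith
  linarith

end Pool.Agent.PGr
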