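import Mathlib
import Pool.Agent.PGr.CDefs
import Pool.Agent.PGr.Nib

/-!
# PGr, module CNib: from weights to a partial labelling

PLAN. Take `δ` from `nibble 5` with the same `η`. Hypergraph: `V = ℕ ⊕ (ℤ ⊕ ℤ)` (items, labels,
differences), `J = ℕ × ℤ`, edges `E = (It ×ˢ Ze).filter (fun p => edge θ p.1 p.2)`,
`S (m, x) = {inl m, inr (inl x), inr (inr |x - a|), inr (inr |x - y1|), inr (inr |x - y2|)}`
(a = anc m, y_i = yy_i θ m), which has exactly 5 elements since the three differences are pairwise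
different (their units are: `(uns ..).Nodup`). Weights `W p.1 p.2`. The degree of `inl m` is `hI`, of
`inr (inl x)` is `hX`, of `inr (inr z)`: if `z ∈ D0` and unused: `hD`, otherwise no edge contains it
(an edge has its differences in D0 and unused). Pair degrees: two items or two labels: no edge;
(item, label): one edge at most, `p1`; (item, difference) `p2`, (label, difference) `p3`, two
differences `p4`; all symmetric. So there is a matching `M ⊆ E` with `(1-η) ∑ W ≤ |M|`. The first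
components of the elements of M are pairwise different (disjointness of the S), so
`I' = It \ (M.image Prod.fst)` has `|It| - |M|` elements, and `z m` = the label x with `(m,x) ∈ M`.
`PartLab`: labels in Z0 (`Ze ⊆ Z0`), not occupied, different for different items; differences in
D0, unused, and different for different pairs (item, j): for different items by disjointness, for the
same item and j ≠ j' by `Nodup` of the units.
-/

noncomputable section

namespace Pool.Agent.PGr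

open Finset

namespace Dat

private theorem cn_ite {α : Type} {P Q : Prop} {_ : Decidable P} {_ : Decidable Q} (h : P ↔ Q)
    (a b : α) :
    (if P then a else b) = (if Q then a else b) := by
  by_cases hP : P
  · rw [if_pos hP, if_pos (h.1 hP)]
  · rw [if_neg hP, if_neg (fun hq => hP (h.2 hq))]

/-- the vertex set of an edge -/
private def vS (D : Dat) (θ : D.Om) (p : ℕ × ℤ) : Finset (ℕ ⊕ (ℤ ⊕ ℤ)) :=
  insert (Sum.inl p.1) (insert (Sum.inr (Sum.inl p.2))
    ((univ : Finset (Fin 3)).image (fun j => Sum.inr (Sum.inr (D.dif θ p.1 p.2 j)))))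

private theorem vS_inl (D : Dat) (θ : D.Om) (p : ℕ × ℤ) (m : ℕ) :
    (Sum.inl m : ℕ ⊕ (ℤ ⊕ ℤ)) ∈ vS D θ p ↔ m = p.1 := by
  simp [vS]

private theorem vS_inrl (D : Dat) (θ : D.Om) (p : ℕ × ℤ) (x : ℤ) :
    (Sum.inr (Sum.inl x) : ℕ ⊕ (ℤ ⊕ ℤ)) ∈ vS D θ p ↔ x = p.2 := by
  simp [vS]

private theorem vS_inrr (D : Dat) (θ : D.Om) (p : ℕ × ℤ) (z : ℤ) :
    (Sum.inr (Sum.inr z) : ℕ ⊕ (ℤ ⊕ ℤ)) ∈ vS D θ p ↔
      hasD (D.anc p.1) (D.yy1 θ p.1) (D.yy2 θ p.1) p.2 z := by
  unfold vS hasD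
  rw [mem_insert, mem_insert, mem_image]
  constructor
  · rintro (h | h | ⟨j, -, h⟩)
    · exact absurd h (by simp)
    · exact absurd h (by simp)
    · have h' : D.dif θ p.1 p.2 j = z := by simpa using h
      fin_cases j
      · exact Or.inl h'
      · exact Or.inr (Or.inl h')
      · exact Or.inr (Or.inr h')
  · rintro (h | h | h)
    · exact Or.inr (Or.inr ⟨0, mem_univ _, by rw [← h]; rfl⟩)
    · exact Or.inr (Or.inr ⟨1, mem_univ _, by rw [← h]; rfl⟩)
    · exact Or.inr (Or.inr ⟨2, mem_univ _, by rw [← h]; rfl⟩)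

private theorem dif_inj (D : Dat) (θ : D.Om) (m : ℕ) (x : ℤ) (h : D.edge θ m x) :
    Function.Injective (D.dif θ m x) := by
  have hn : (D.uns (D.anc m) (D.yy1 θ m) (D.yy2 θ m) x).Nodup := h.2.2.2.2.2
  unfold uns at hn
  simp only [List.nodup_cons, List.mem_cons, List.not_mem_nil, or_false, not_or] at hn
  obtain ⟨-, -, -, ⟨h1, h2⟩, h3, -⟩ := hn
  have e0 : D.dif θ m x 0 = |x - D.anc m| := rfl
  have e1 : D.dif θ m x 1 = |x - D.yy1 θ m| := rfl
  have e2 : D.dif θ m x 2 = |x - D.yy2 θ m| := rfl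
  have k01 : D.dif θ m x 0 ≠ D.dif θ m x 1 := fun hh => h1 (by rw [← e0, ← e1, hh])
  have k02 : D.dif θ m x 0 ≠ D.dif θ m x 2 := fun hh => h2 (by rw [← e0, ← e2, hh])
  have k12 : D.dif θ m x 1 ≠ D.dif θ m x 2 := fun hh => h3 (by rw [← e1, ← e2, hh])
  intro j j' hj
  fin_cases j <;> fin_cases j'
  · rfl
  · exact absurd hj k01
  · exact absurd hj k02
  · exact absurd hj.symm k01
  · rfl
  · exact absurd hj k12
  · exact absurd hj.symm k02
  · exact absurd hj.symm k12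
  · rfl

private theorem dif_av (D : Dat) (θ : D.Om) (m : ℕ) (x : ℤ) (h : D.edge θ m x) (j : Fin 3) :
    D.dif θ m x j ∈ D.D0 ∧ ¬ D.used θ (D.dif θ m x j) := by
  obtain ⟨-, -, h1, h2, h3, -⟩ := h
  fin_cases j
  · exact h1
  · exact h2
  · exact h3

private theorem vS_card (D : Dat) (θ : D.Om) (p : ℕ × ℤ) (h : D.edge θ p.1 p.2) :
    (vS D θ p).card = 5 := by
  unfold vS
  rw [card_insert_of_notMem (by simp), card_insert_of_notMem (by simp), card_image_of_injective]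
  · rw [card_univ, Fintype.card_fin]
  · intro j j' hj
    apply dif_inj D θ p.1 p.2 h
    simpa using hj

open Classical in
/-- weighted sums over edges -/
private def TT (D : Dat) (θ : D.Om) (W : ℕ → ℤ → ℝ) (P : ℕ → ℤ → Prop) : ℝ :=
  ∑ m ∈ D.It, ∑ x ∈ D.Ze, (if D.edge θ m x ∧ P m x then W m x else 0)

open Classical in
private theorem TT_eq (D : Dat) (θ : D.Om) (W : ℕ → ℤ → ℝ) (P : ℕ × ℤ → Prop) [DecidablePred P] :
    ∑ p ∈ ((D.It ×ˢ D.Ze).filter (fun p => D.edge θ p.1 p.2)).filter P, W p.1 p.2 =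
      TT D θ W (fun m x => P (m, x)) := by
  rw [filter_filter, sum_filter, sum_product]
  unfold TT
  refine sum_congr rfl fun m _ => sum_congr rfl fun x _ => ?_
  exact cn_ite Iff.rfl _ _

private theorem TT_zero (D : Dat) (θ : D.Om) (W : ℕ → ℤ → ℝ) (P : ℕ → ℤ → Prop)
    (h : ∀ m x, D.edge θ m x → ¬ P m x) : TT D θ W P = 0 := by
  unfold TT
  refine sum_eq_zero fun m _ => sum_eq_zero fun x _ => ?_
  rw [if_neg]
  rintro ⟨h1, h2⟩
  exact h m x h1 h2

open Classical in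
private theorem TT_row (D : Dat) (θ : D.Om) (W : ℕ → ℤ → ℝ) (P : ℕ → ℤ → Prop) (m0 : ℕ) {c : ℝ}
    (hP : ∀ m x, P m x → m = m0)
    (h : m0 ∈ D.It → ∑ x ∈ D.Ze, (if D.edge θ m0 x ∧ P m0 x then W m0 x else 0) ≤ c)
    (hc : 0 ≤ c) : TT D θ W P ≤ c := by
  unfold TT
  by_cases hm : m0 ∈ D.It
  · rw [sum_eq_single m0]
    · exact h hm
    · intro m _ hne
      refine sum_eq_zero fun x _ => ?_
      rw [if_neg]
      rintro ⟨-, h2⟩
      exact hne (hP m x h2)
    · exact fun hh => absurd hm hh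
  · rw [sum_eq_zero]
    · exact hc
    · intro m hmI
      refine sum_eq_zero fun x _ => ?_
      rw [if_neg]
      rintro ⟨-, h2⟩
      exact hm (hP m x h2 ▸ hmI)

open Classical in
private theorem TT_col (D : Dat) (θ : D.Om) (W : ℕ → ℤ → ℝ) (P : ℕ → ℤ → Prop) (x0 : ℤ) {c : ℝ}
    (hP : ∀ m x, P m x → x = x0)
    (h : x0 ∈ D.Ze → ∑ m ∈ D.It, (if D.edge θ m x0 ∧ P m x0 then W m x0 else 0) ≤ c)
    (hc : 0 ≤ c) : TT D θ W P ≤ c := by
  unfold TT
  rw [sum_comm]
  by_cases hm : x0 ∈ D.Ze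
  · rw [sum_eq_single x0]
    · exact h hm
    · intro x _ hne
      refine sum_eq_zero fun m _ => ?_
      rw [if_neg]
      rintro ⟨-, h2⟩
      exact hne (hP m x h2)
    · exact fun hh => absurd hm hh
  · rw [sum_eq_zero]
    · exact hc
    · intro x hmI
      refine sum_eq_zero fun m _ => ?_
      rw [if_neg]
      rintro ⟨-, h2⟩
      exact hm (hP m x h2 ▸ hmI)

open Classical in
theorem partlab (η : ℝ) (hη : 0 < η) : ∃ δ : ℝ, 0 < δ ∧ ∀ (D : Dat) (θ : D.Om) (W : ℕ → ℤ → ℝ),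
    (∀ m ∈ D.It, ∀ x ∈ D.Ze, D.edge θ m x → 0 ≤ W m x) →
    (∀ m ∈ D.It, ∑ x ∈ D.Ze, (if D.edge θ m x then W m x else 0) ≤ 1) →
    (∀ x ∈ D.Ze, ∑ m ∈ D.It, (if D.edge θ m x then W m x else 0) ≤ 1) →
    (∀ z ∈ D.D0, ¬ D.used θ z → ∑ m ∈ D.It, ∑ x ∈ D.Ze,
      (if D.edge θ m x ∧ hasD (D.anc m) (D.yy1 θ m) (D.yy2 θ m) x z then W m x else 0) ≤ 1) →
    (∀ m ∈ D.It, ∀ x ∈ D.Ze, D.edge θ m x → W m x ≤ δ) →
    (∀ m ∈ D.It, ∀ z : ℤ, ∑ x ∈ D.Ze,
      (if D.edge θ m x ∧ hasD (D.anc m) (D.yy1 θ m) (D.yy2 θ m) x z then W m x else 0) ≤ δ) →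
    (∀ x ∈ D.Ze, ∀ z : ℤ, ∑ m ∈ D.It,
      (if D.edge θ m x ∧ hasD (D.anc m) (D.yy1 θ m) (D.yy2 θ m) x z then W m x else 0) ≤ δ) →
    (∀ z z' : ℤ, z ≠ z' → ∑ m ∈ D.It, ∑ x ∈ D.Ze,
      (if D.edge θ m x ∧ hasD (D.anc m) (D.yy1 θ m) (D.yy2 θ m) x z ∧
        hasD (D.anc m) (D.yy1 θ m) (D.yy2 θ m) x z' then W m x else 0) ≤ δ) →
    ∃ (I' : Finset ℕ) (z : ℕ → ℤ), I' ⊆ D.It ∧
      (I'.card : ℝ) ≤ D.It.card - (1 - η) * ∑ m ∈ D.It, ∑ x ∈ D.Ze,
        (if D.edge θ m x then W m x else 0) ∧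
      D.PartLab θ (D.It \ I') z := by
  obtain ⟨δ, hδ, hN⟩ := nibble.{0, 0} 5 (by norm_num) η hη
  refine ⟨δ, hδ, fun D θ W h0 hI hX hD p1 p2 p3 p4 => ?_⟩
  -- the pair degrees
  have hitem : ∀ (m0 : ℕ) (x0 : ℤ), TT D θ W (fun m x => m0 = m ∧ x0 = x) ≤ δ := by
    intro m0 x0
    refine TT_row D θ W _ m0 (fun m x hh => hh.1.symm) (fun hm => ?_) hδ.le
    by_cases hx : x0 ∈ D.Ze ∧ D.edge θ m0 x0
    · rw [sum_eq_single x0]
      · rw [if_pos ⟨hx.2, rfl, rfl⟩]
        exact p1 m0 hm x0 hx.1 hx.2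
      · intro x _ hne
        rw [if_neg]
        rintro ⟨-, -, h3⟩
        exact hne h3.symm
      · exact fun hh => absurd hx.1 hh
    · rw [sum_eq_zero]
      · exact hδ.le
      · intro x hxZ
        rw [if_neg]
        rintro ⟨h1, -, h3⟩
        subst h3
        exact hx ⟨hxZ, h1⟩
  have hid : ∀ (m0 : ℕ) (z : ℤ), TT D θ W (fun m x => m0 = m ∧
      hasD (D.anc m) (D.yy1 θ m) (D.yy2 θ m) x z) ≤ δ := by
    intro m0 z
    refine TT_row D θ W _ m0 (fun m x hh => hh.1.symm) (fun hm => ?_) hδ.le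
    refine le_trans (le_of_eq ?_) (p2 m0 hm z)
    refine sum_congr rfl fun x _ => cn_ite ⟨fun hh => ⟨hh.1, hh.2.2⟩, fun hh => ⟨hh.1, rfl, hh.2⟩⟩ _ _
  have hxd : ∀ (x0 : ℤ) (z : ℤ), TT D θ W (fun m x => x0 = x ∧
      hasD (D.anc m) (D.yy1 θ m) (D.yy2 θ m) x z) ≤ δ := by
    intro x0 z
    refine TT_col D θ W _ x0 (fun m x hh => hh.1.symm) (fun hm => ?_) hδ.le
    refine le_trans (le_of_eq ?_) (p3 x0 hm z)
    refine sum_congr rfl fun m _ => cn_ite ⟨fun hh => ⟨hh.1, hh.2.2⟩, fun hh => ⟨hh.1, rfl, hh.2⟩⟩ _ _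
  have hdd : ∀ z z' : ℤ, z ≠ z' → TT D θ W (fun m x =>
      hasD (D.anc m) (D.yy1 θ m) (D.yy2 θ m) x z ∧
      hasD (D.anc m) (D.yy1 θ m) (D.yy2 θ m) x z') ≤ δ := by
    intro z z' hz
    refine le_trans (le_of_eq ?_) (p4 z z' hz)
    unfold TT
    exact sum_congr rfl fun m _ => sum_congr rfl fun x _ => cn_ite Iff.rfl _ _
  have hcongr : ∀ P Q : ℕ → ℤ → Prop, (∀ m x, P m x ↔ Q m x) → TT D θ W P = TT D θ W Q := by
    intro P Q hPQ
    unfold TT
    exact sum_congr rfl fun m _ => sum_congr rfl fun x _ =>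
      cn_ite (and_congr_right fun _ => hPQ m x) _ _
  obtain ⟨M, hM, hMd, hMc⟩ := hN (ℕ ⊕ (ℤ ⊕ ℤ)) (ℕ × ℤ)
    ((D.It ×ˢ D.Ze).filter (fun p => D.edge θ p.1 p.2)) (vS D θ) (fun p => W p.1 p.2)
    (by
      intro p hp
      exact vS_card D θ p (mem_filter.1 hp).2)
    (by
      intro p hp
      obtain ⟨h1, h2⟩ := mem_filter.1 hp
      obtain ⟨h3, h4⟩ := mem_product.1 h1
      exact h0 p.1 h3 p.2 h4 h2)
    (by
      intro v
      rw [TT_eq]
      rcases v with m0 | x0 | z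
      · rw [hcongr _ (fun m x => m0 = m) (fun m x => vS_inl D θ (m, x) m0)]
        refine TT_row D θ W _ m0 (fun m x hh => hh.symm) (fun hm => ?_) zero_le_one
        refine le_trans (le_of_eq ?_) (hI m0 hm)
        exact sum_congr rfl fun x _ => cn_ite ⟨fun hh => hh.1, fun hh => ⟨hh, rfl⟩⟩ _ _
      · rw [hcongr _ (fun m x => x0 = x) (fun m x => vS_inrl D θ (m, x) x0)]
        refine TT_col D θ W _ x0 (fun m x hh => hh.symm) (fun hm => ?_) zero_le_one
        refine le_trans (le_of_eq ?_) (hX x0 hm)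
        exact sum_congr rfl fun x _ => cn_ite ⟨fun hh => hh.1, fun hh => ⟨hh, rfl⟩⟩ _ _
      · rw [hcongr _ (fun m x => hasD (D.anc m) (D.yy1 θ m) (D.yy2 θ m) x z)
          (fun m x => vS_inrr D θ (m, x) z)]
        by_cases hz : z ∈ D.D0 ∧ ¬ D.used θ z
        · refine le_trans (le_of_eq ?_) (hD z hz.1 hz.2)
          unfold TT
          exact sum_congr rfl fun m _ => sum_congr rfl fun x _ => cn_ite Iff.rfl _ _
        · rw [TT_zero]
          · exact zero_le_one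
          · intro m x he hh
            obtain ⟨-, -, h1, h2, h3, -⟩ := he
            apply hz
            rcases hh with hh | hh | hh
            · rw [← hh]; exact h1
            · rw [← hh]; exact h2
            · rw [← hh]; exact h3)
    (by
      intro u v huv
      rw [TT_eq]
      rcases u with m0 | x0 | z <;> rcases v with m1 | x1 | z1
      · rw [hcongr _ (fun m x => m0 = m ∧ m1 = m)
          (fun m x => and_congr (vS_inl D θ (m, x) m0) (vS_inl D θ (m, x) m1)), TT_zero]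
        · exact hδ.le
        · rintro m x - ⟨rfl, rfl⟩
          exact huv rfl
      · rw [hcongr _ (fun m x => m0 = m ∧ x1 = x)
          (fun m x => and_congr (vS_inl D θ (m, x) m0) (vS_inrl D θ (m, x) x1))]
        exact hitem m0 x1
      · rw [hcongr _ (fun m x => m0 = m ∧ hasD (D.anc m) (D.yy1 θ m) (D.yy2 θ m) x z1)
          (fun m x => and_congr (vS_inl D θ (m, x) m0) (vS_inrr D θ (m, x) z1))]
        exact hid m0 z1
      · rw [hcongr _ (fun m x => m1 = m ∧ x0 = x)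
          (fun m x => (and_congr (vS_inrl D θ (m, x) x0) (vS_inl D θ (m, x) m1)).trans and_comm)]
        exact hitem m1 x0
      · rw [hcongr _ (fun m x => x0 = x ∧ x1 = x)
          (fun m x => and_congr (vS_inrl D θ (m, x) x0) (vS_inrl D θ (m, x) x1)), TT_zero]
        · exact hδ.le
        · rintro m x - ⟨rfl, rfl⟩
          exact huv rfl
      · rw [hcongr _ (fun m x => x0 = x ∧ hasD (D.anc m) (D.yy1 θ m) (D.yy2 θ m) x z1)
          (fun m x => and_congr (vS_inrl D θ (m, x) x0) (vS_inrr D θ (m, x) z1))]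
        exact hxd x0 z1
      · rw [hcongr _ (fun m x => m1 = m ∧ hasD (D.anc m) (D.yy1 θ m) (D.yy2 θ m) x z)
          (fun m x => (and_congr (vS_inrr D θ (m, x) z) (vS_inl D θ (m, x) m1)).trans and_comm)]
        exact hid m1 z
      · rw [hcongr _ (fun m x => x1 = x ∧ hasD (D.anc m) (D.yy1 θ m) (D.yy2 θ m) x z)
          (fun m x => (and_congr (vS_inrr D θ (m, x) z) (vS_inrl D θ (m, x) x1)).trans and_comm)]
        exact hxd x1 z
      · rw [hcongr _ (fun m x => hasD (D.anc m) (D.yy1 θ m) (D.yy2 θ m) x z ∧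
          hasD (D.anc m) (D.yy1 θ m) (D.yy2 θ m) x z1)
          (fun m x => and_congr (vS_inrr D θ (m, x) z) (vS_inrr D θ (m, x) z1))]
        exact hdd z z1 (fun hh => huv (by rw [hh])))
  -- facts on the matching
  have hMe : ∀ p ∈ M, (p.1 ∈ D.It ∧ p.2 ∈ D.Ze) ∧ D.edge θ p.1 p.2 := by
    intro p hp
    obtain ⟨h1, h2⟩ := mem_filter.1 (hM hp)
    exact ⟨mem_product.1 h1, h2⟩
  have hcommon : ∀ p ∈ M, ∀ p' ∈ M, ∀ v, v ∈ vS D θ p → v ∈ vS D θ p' → p = p' := by
    intro p hp p' hp' v hv hv'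
    by_contra hne
    exact (disjoint_left.1 (hMd p hp p' hp' hne)) hv hv'
  set A := M.image Prod.fst with hA
  have hAI : A ⊆ D.It := by
    intro m hm
    obtain ⟨p, hp, rfl⟩ := mem_image.1 hm
    exact (hMe p hp).1.1
  have hAc : A.card = M.card := by
    rw [hA]
    apply card_image_of_injOn
    intro p hp p' hp' h
    exact hcommon p hp p' hp' (Sum.inl p.1) ((vS_inl D θ p p.1).2 rfl)
      ((vS_inl D θ p' p.1).2 h)
  have hz : ∀ m : ℕ, ∃ x : ℤ, m ∈ A → (m, x) ∈ M := by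
    intro m
    by_cases hm : m ∈ A
    · obtain ⟨p, hp, rfl⟩ := mem_image.1 hm
      exact ⟨p.2, fun _ => hp⟩
    · exact ⟨0, fun h => absurd h hm⟩
  choose z hz using hz
  refine ⟨D.It \ A, z, sdiff_subset, ?_, ?_⟩
  · have h1 : (D.It \ A).card + A.card = D.It.card := card_sdiff_add_card_eq_card hAI
    have h2 : ((D.It \ A).card : ℝ) + A.card = D.It.card := by exact_mod_cast h1
    have h3 : ∑ p ∈ (D.It ×ˢ D.Ze).filter (fun p => D.edge θ p.1 p.2), W p.1 p.2 =
        ∑ m ∈ D.It, ∑ x ∈ D.Ze, (if D.edge θ m x then W m x else 0) := by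
      rw [sum_filter, sum_product]
    rw [← h3]
    rw [hAc] at h2
    linarith
  · have hsd : D.It \ (D.It \ A) = A := Finset.sdiff_sdiff_eq_self hAI
    rw [hsd]
    refine ⟨?_, ?_, ?_, ?_⟩
    · intro m hm
      obtain ⟨-, h2⟩ := hMe _ (hz m hm)
      have h3 : z m ∈ D.Ze := h2.1
      unfold Ze at h3
      exact ⟨(mem_filter.1 h3).1, h2.2.1⟩
    · intro m hm m' hm' hh
      have h1 := hcommon _ (hz m hm) _ (hz m' hm') (Sum.inr (Sum.inl (z m)))
        ((vS_inrl D θ _ _).2 rfl) ((vS_inrl D θ _ _).2 hh)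
      exact congrArg Prod.fst h1
    · intro m hm j
      exact dif_av D θ m (z m) (hMe _ (hz m hm)).2 j
    · intro m hm m' hm' j j' hh
      have key : ∀ (p : ℕ × ℤ) (j : Fin 3), (Sum.inr (Sum.inr (D.dif θ p.1 p.2 j)) : ℕ ⊕ (ℤ ⊕ ℤ)) ∈
          vS D θ p := by
        intro p j
        unfold vS
        rw [mem_insert, mem_insert, mem_image]
        exact Or.inr (Or.inr ⟨j, mem_univ _, rfl⟩)
      have k1 := key (m, z m) j
      have k2 := key (m', z m') j'
      simp only at k1 k2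
      rw [← hh] at k2
      have h1 := hcommon _ (hz m hm) _ (hz m' hm') _ k1 k2
      have h2 : m = m' := congrArg Prod.fst h1
      subst h2
      exact ⟨rfl, dif_inj D θ m (z m) (hMe _ (hz m hm)).2 hh⟩

end Dat

end Pool.Agent.PGr
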