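import Mathlib
import Pool.Agent.PGr.CDefs
import Pool.Agent.PGr.EBas

/-!
# PGr, module CPair: counts for the pair degrees

`h : D.Reg κ c`.

PLAN.
* `card1`: `hasD a y1 y2 x d` means `x ∈ {a + d, a - d, y1 + d, y1 - d, y2 + d, y2 - d}`.
* `card2`: `|x - anc m| = d`: `anc m = x ± d`, at most 2 items (`h.anc_inj`); `|x - yy1 θ m| = d`:
  `lab θ (nb1 m) = x ± d`, `nb1 m ∈ Nb` determined by its label (`h.lab_inj`) and m by `nb1 m`
  (`h.nb1_inj`): at most 2; the same for nb2.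
* `card3`: for `d ≠ d'` both in `hasD .. x`: they come from two different reference points `r ≠ r'`
  among `a, y1, y2` (one reference point gives `|x - r| = d = d'`), so `x = r + s d`, `x = r' + s' d'` with
  signs s, s', hence `r - r' = s' d' - s d`: in `ZMod Q` one of the combinations `a - c1` (cmb 5),
  `a - c2` (cmb 6), `c1 - c2` (cmb 7) of `m` (EBas.cls_lab), or its negative, has a given value:
  at most `n/√q` items m (`h.inf`), and x is determined by `m, r, s`. There are 6 ordered pairs (r, r')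
  and 4 pairs of signs: at most `24 n/√q` pairs (m, x).
-/

noncomputable section

namespace Pool.Agent.PGr

open Finset

namespace Dat

variable {D : Dat} {κ c : ℝ}

private theorem eq_or_of_abs {x a d : ℤ} (h : |x - a| = d) : x = a + d ∨ x = a - d := by
  rcases eq_or_eq_neg_of_abs_eq h with h1 | h1
  · left; omega
  · right; omega

open Classical in
private theorem card_two (I : Finset ℕ) (f : ℕ → ℤ)
    (hf : ∀ m ∈ I, ∀ m' ∈ I, f m = f m' → m = m') (x d : ℤ) :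
    (I.filter (fun m => |x - f m| = d)).card ≤ 2 := by
  have h1 : (I.filter (fun m => |x - f m| = d)).card ≤ ({x - d, x + d} : Finset ℤ).card := by
    refine Finset.card_le_card_of_injOn f (fun m hm => ?_) (fun m hm m' hm' e => ?_)
    · have h2 := (Finset.mem_filter.1 (Finset.mem_coe.1 hm)).2
      simp only [Finset.coe_insert, Finset.coe_singleton, Set.mem_insert_iff,
        Set.mem_singleton_iff]
      rcases eq_or_of_abs h2 with h3 | h3
      · left; omega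
      · right; omega
    · exact hf m (Finset.mem_filter.1 (Finset.mem_coe.1 hm)).1 m'
        (Finset.mem_filter.1 (Finset.mem_coe.1 hm')).1 e
  exact h1.trans Finset.card_le_two

open Classical in
theorem card1 (S : Finset ℤ) (a y1 y2 d : ℤ) :
    (S.filter (fun x => hasD a y1 y2 x d)).card ≤ 6 := by
  have h1 : S.filter (fun x => hasD a y1 y2 x d) ⊆
      {a + d, a - d, y1 + d, y1 - d, y2 + d, y2 - d} := by
    intro x hx
    have h2 := (Finset.mem_filter.1 hx).2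
    simp only [Finset.mem_insert, Finset.mem_singleton]
    rcases h2 with h2 | h2 | h2 <;> rcases eq_or_of_abs h2 with h3 | h3 <;> simp [h3]
  exact (Finset.card_le_card h1).trans Finset.card_le_six

private theorem yy1_inj (h : D.Reg κ c) (θ : D.Om) : ∀ m ∈ D.It, ∀ m' ∈ D.It,
    D.yy1 θ m = D.yy1 θ m' → m = m' := by
  intro m hm m' hm' e
  refine h.nb1_inj m hm m' hm' (h.lab_inj θ _ ?_ _ ?_ e)
  · exact Finset.mem_union_left _ (Finset.mem_union_right _ (Finset.mem_image_of_mem _ hm))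
  · exact Finset.mem_union_left _ (Finset.mem_union_right _ (Finset.mem_image_of_mem _ hm'))

private theorem yy2_inj (h : D.Reg κ c) (θ : D.Om) : ∀ m ∈ D.It, ∀ m' ∈ D.It,
    D.yy2 θ m = D.yy2 θ m' → m = m' := by
  intro m hm m' hm' e
  refine h.nb2_inj m hm m' hm' (h.lab_inj θ _ ?_ _ ?_ e)
  · exact Finset.mem_union_right _ (Finset.mem_image_of_mem _ hm)
  · exact Finset.mem_union_right _ (Finset.mem_image_of_mem _ hm')

open Classical in
theorem card2 (h : D.Reg κ c) (θ : D.Om) (x d : ℤ) :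
    (D.It.filter (fun m => hasD (D.anc m) (D.yy1 θ m) (D.yy2 θ m) x d)).card ≤ 6 := by
  have h0 : D.It.filter (fun m => hasD (D.anc m) (D.yy1 θ m) (D.yy2 θ m) x d) ⊆
      D.It.filter (fun m => |x - D.anc m| = d) ∪ (D.It.filter (fun m => |x - D.yy1 θ m| = d) ∪
        D.It.filter (fun m => |x - D.yy2 θ m| = d)) := by
    intro m hm
    obtain ⟨hm1, hm2⟩ := Finset.mem_filter.1 hm
    rcases hm2 with h2 | h2 | h2
    · exact Finset.mem_union_left _ (Finset.mem_filter.2 ⟨hm1, h2⟩)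
    · exact Finset.mem_union_right _ (Finset.mem_union_left _ (Finset.mem_filter.2 ⟨hm1, h2⟩))
    · exact Finset.mem_union_right _ (Finset.mem_union_right _ (Finset.mem_filter.2 ⟨hm1, h2⟩))
  have h1 := card_two D.It D.anc h.anc_inj x d
  have h2 := card_two D.It (D.yy1 θ) (yy1_inj h θ) x d
  have h3 := card_two D.It (D.yy2 θ) (yy2_inj h θ) x d
  have h4 := Finset.card_union_le (D.It.filter (fun m => |x - D.anc m| = d))
    (D.It.filter (fun m => |x - D.yy1 θ m| = d) ∪ D.It.filter (fun m => |x - D.yy2 θ m| = d))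
  have h5 := Finset.card_union_le (D.It.filter (fun m => |x - D.yy1 θ m| = d))
    (D.It.filter (fun m => |x - D.yy2 θ m| = d))
  have h6 := Finset.card_le_card h0
  omega

/-- the three reference points -/
private def rp (D : Dat) (θ : D.Om) (i : Fin 3) (m : ℕ) : ℤ :=
  match i with
  | 0 => D.anc m
  | 1 => D.yy1 θ m
  | 2 => D.yy2 θ m

private def sgi (b : Bool) (z : ℤ) : ℤ := if b then z else -z

private theorem abs_sgi {x a d : ℤ} (h : |x - a| = d) : ∃ b : Bool, x = a + sgi b d := by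
  rcases eq_or_of_abs h with h1 | h1
  · exact ⟨true, by simp [sgi, h1]⟩
  · exact ⟨false, by simp [sgi, h1, sub_eq_add_neg]⟩

private theorem hasD_rp (θ : D.Om) (m : ℕ) (x d : ℤ)
    (h : hasD (D.anc m) (D.yy1 θ m) (D.yy2 θ m) x d) :
    ∃ (i : Fin 3) (b : Bool), x = rp D θ i m + sgi b d ∧ |x - rp D θ i m| = d := by
  rcases h with h | h | h
  · obtain ⟨b, hb⟩ := abs_sgi h
    exact ⟨0, b, hb, h⟩
  · obtain ⟨b, hb⟩ := abs_sgi h
    exact ⟨1, b, hb, h⟩
  · obtain ⟨b, hb⟩ := abs_sgi h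
    exact ⟨2, b, hb, h⟩

open Classical in
private theorem card_rp (h : D.Reg κ c) (θ : D.Om) {i j : Fin 3} (hij : i ≠ j) (v : ℤ) :
    ((D.It.filter (fun m => rp D θ i m - rp D θ j m = v)).card : ℝ) * √(D.q : ℝ) ≤ D.n := by
  have c1 : ∀ m, ((D.yy1 θ m : ℤ) : ZMod (D.q ^ 2)) = D.cls (D.nb1 m) := fun m =>
    cls_lab h θ _
  have c2 : ∀ m, ((D.yy2 θ m : ℤ) : ZMod (D.q ^ 2)) = D.cls (D.nb2 m) := fun m =>
    cls_lab h θ _
  have e5 : ∀ m, D.cmb 5 m = ((D.anc m - D.yy1 θ m : ℤ) : ZMod (D.q ^ 2)) := by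
    intro m
    rw [Int.cast_sub, c1]
    rfl
  have e6 : ∀ m, D.cmb 6 m = ((D.anc m - D.yy2 θ m : ℤ) : ZMod (D.q ^ 2)) := by
    intro m
    rw [Int.cast_sub, c2]
    rfl
  have e7 : ∀ m, D.cmb 7 m = ((D.yy1 θ m - D.yy2 θ m : ℤ) : ZMod (D.q ^ 2)) := by
    intro m
    rw [Int.cast_sub, c1, c2]
    rfl
  obtain ⟨k, hk, w, hw⟩ : ∃ k : Fin 10, (k = 0 ∨ k = 1 ∨ k = 2 ∨ k = 5 ∨ k = 6 ∨ k = 7) ∧
      ∃ w : ZMod (D.q ^ 2), ∀ m, rp D θ i m - rp D θ j m = v → D.cmb k m = w := by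
    fin_cases i <;> fin_cases j
    · exact absurd rfl hij
    · refine ⟨5, by decide, ((v : ℤ) : ZMod (D.q ^ 2)), fun m hm => ?_⟩
      have hm' : D.anc m - D.yy1 θ m = v := hm
      rw [e5, hm']
    · refine ⟨6, by decide, ((v : ℤ) : ZMod (D.q ^ 2)), fun m hm => ?_⟩
      have hm' : D.anc m - D.yy2 θ m = v := hm
      rw [e6, hm']
    · refine ⟨5, by decide, ((-v : ℤ) : ZMod (D.q ^ 2)), fun m hm => ?_⟩
      have hm' : D.yy1 θ m - D.anc m = v := hm
      have hm'' : D.anc m - D.yy1 θ m = -v := by linarith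
      rw [e5, hm'']
    · exact absurd rfl hij
    · refine ⟨7, by decide, ((v : ℤ) : ZMod (D.q ^ 2)), fun m hm => ?_⟩
      have hm' : D.yy1 θ m - D.yy2 θ m = v := hm
      rw [e7, hm']
    · refine ⟨6, by decide, ((-v : ℤ) : ZMod (D.q ^ 2)), fun m hm => ?_⟩
      have hm' : D.yy2 θ m - D.anc m = v := hm
      have hm'' : D.anc m - D.yy2 θ m = -v := by linarith
      rw [e6, hm'']
    · refine ⟨7, by decide, ((-v : ℤ) : ZMod (D.q ^ 2)), fun m hm => ?_⟩
      have hm' : D.yy2 θ m - D.yy1 θ m = v := hm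
      have hm'' : D.yy1 θ m - D.yy2 θ m = -v := by linarith
      rw [e7, hm'']
    · exact absurd rfl hij
  refine le_trans ?_ (h.inf k hk w)
  refine mul_le_mul_of_nonneg_right ?_ (Real.sqrt_nonneg _)
  refine Nat.cast_le.2 (Finset.card_le_card ?_)
  intro m hm
  obtain ⟨h2, h3⟩ := Finset.mem_filter.1 hm
  exact Finset.mem_filter.2 ⟨h2, hw m h3⟩

open Classical in
theorem card3 (h : D.Reg κ c) (θ : D.Om) {d d' : ℤ} (hd : d ≠ d') :
    (((D.It ×ˢ D.Ze).filter (fun p => hasD (D.anc p.1) (D.yy1 θ p.1) (D.yy2 θ p.1) p.2 d ∧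
      hasD (D.anc p.1) (D.yy1 θ p.1) (D.yy2 θ p.1) p.2 d')).card : ℝ) * √(D.q : ℝ)
      ≤ 24 * D.n := by
  set T : Finset ((Fin 3 × Fin 3) × (Bool × Bool)) :=
    (univ : Finset ((Fin 3 × Fin 3) × (Bool × Bool))).filter (fun t => t.1.1 ≠ t.1.2) with hT
  have hTc : T.card = 24 := by
    rw [hT]
    decide
  let F : (Fin 3 × Fin 3) × (Bool × Bool) → Finset (ℕ × ℤ) := fun t =>
    (D.It ×ˢ D.Ze).filter (fun p => p.2 = rp D θ t.1.1 p.1 + sgi t.2.1 d ∧
      rp D θ t.1.1 p.1 - rp D θ t.1.2 p.1 = sgi t.2.2 d' - sgi t.2.1 d)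
  have hF : ∀ t ∈ T, ((F t).card : ℝ) * √(D.q : ℝ) ≤ D.n := by
    intro t ht
    have hne : t.1.1 ≠ t.1.2 := (Finset.mem_filter.1 ht).2
    refine le_trans ?_ (card_rp h θ hne (sgi t.2.2 d' - sgi t.2.1 d))
    refine mul_le_mul_of_nonneg_right ?_ (Real.sqrt_nonneg _)
    have h1 : (F t).card ≤ (D.It.filter (fun m => rp D θ t.1.1 m - rp D θ t.1.2 m =
        sgi t.2.2 d' - sgi t.2.1 d)).card := by
      refine Finset.card_le_card_of_injOn Prod.fst (fun p hp => ?_) (fun p hp p' hp' e => ?_)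
      · obtain ⟨h2, -, h3⟩ := Finset.mem_filter.1 (Finset.mem_coe.1 hp)
        exact Finset.mem_coe.2 (Finset.mem_filter.2 ⟨(Finset.mem_product.1 h2).1, h3⟩)
      · obtain ⟨-, h3, -⟩ := Finset.mem_filter.1 (Finset.mem_coe.1 hp)
        obtain ⟨-, h4, -⟩ := Finset.mem_filter.1 (Finset.mem_coe.1 hp')
        refine Prod.ext e ?_
        rw [h3, h4, e]
    exact_mod_cast h1
  have hsub : (D.It ×ˢ D.Ze).filter (fun p => hasD (D.anc p.1) (D.yy1 θ p.1) (D.yy2 θ p.1) p.2 d ∧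
      hasD (D.anc p.1) (D.yy1 θ p.1) (D.yy2 θ p.1) p.2 d') ⊆ T.biUnion F := by
    intro p hp
    obtain ⟨hp1, hp2, hp3⟩ := Finset.mem_filter.1 hp
    obtain ⟨i, b, hb, hb'⟩ := hasD_rp θ p.1 p.2 d hp2
    obtain ⟨j, b', hc, hc'⟩ := hasD_rp θ p.1 p.2 d' hp3
    have hij : i ≠ j := by
      rintro rfl
      exact hd (hb'.symm.trans hc')
    refine Finset.mem_biUnion.2 ⟨((i, j), (b, b')), ?_, ?_⟩
    · exact Finset.mem_filter.2 ⟨Finset.mem_univ _, hij⟩
    · refine Finset.mem_filter.2 ⟨hp1, hb, ?_⟩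
      show rp D θ i p.1 - rp D θ j p.1 = sgi b' d' - sgi b d
      linarith
  have h2 : (((D.It ×ˢ D.Ze).filter (fun p => hasD (D.anc p.1) (D.yy1 θ p.1) (D.yy2 θ p.1) p.2 d ∧
      hasD (D.anc p.1) (D.yy1 θ p.1) (D.yy2 θ p.1) p.2 d')).card : ℝ) ≤
      ∑ t ∈ T, ((F t).card : ℝ) := by
    exact_mod_cast (Finset.card_le_card hsub).trans Finset.card_biUnion_le
  calc _ ≤ (∑ t ∈ T, ((F t).card : ℝ)) * √(D.q : ℝ) :=
        mul_le_mul_of_nonneg_right h2 (Real.sqrt_nonneg _)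
    _ = ∑ t ∈ T, ((F t).card : ℝ) * √(D.q : ℝ) := Finset.sum_mul _ _ _
    _ ≤ ∑ t ∈ T, (D.n : ℝ) := Finset.sum_le_sum hF
    _ = 24 * D.n := by
        rw [Finset.sum_const, hTc, nsmul_eq_mul]
        norm_num

end Dat

end Pool.Agent.PGr
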