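import Mathlib
import Pool.Agent.PGr.Prob
import Pool.Agent.PGr.McD

/-!
# PGr, module CSum: concentration of sums with local dependence

PLAN. Apply `mcdiarmid_influence` (McD.lean) to `f s = ∑ j ∈ A, g j s` with
`c u = 2 B #{j ∈ A | u ∈ U j}`: if only the coordinate `u` is changed, only the terms with `u ∈ U j`
change (`hdep`, because for `u ∉ U j` the points agree on `U j`), each by at most `2B`. `b = 2 B M`,
`C = 2 B h N`: `∑_u c u = 2B ∑_j |U j| ≤ 2 B h |A| ≤ 2 B h N` (exchange the sums: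
`∑_u #{j | u ∈ U j} = ∑_j |U j|`). Then `2 (b C) = 8 B^2 M h N`.
-/

namespace Pool.Agent.PGr

open Finset

theorem conc_sum {ι Ω J : Type*} [Fintype ι] [DecidableEq ι] [Fintype Ω] [Nonempty Ω]
    (A : Finset J) (g : J → (ι → Ω) → ℝ) (U : J → Finset ι) (B M h N : ℝ) (hB : 0 < B)
    (hM : 0 < M) (hh : 0 < h) (hN : 0 < N) (hcard : (A.card : ℝ) ≤ N)
    (hdep : ∀ j ∈ A, ∀ s s' : ι → Ω, (∀ u ∈ U j, s u = s' u) → g j s = g j s')
    (hbd : ∀ j ∈ A, ∀ s, |g j s| ≤ B) (hU : ∀ j ∈ A, ((U j).card : ℝ) ≤ h)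
    (hinf : ∀ u : ι, ((A.filter (fun j => u ∈ U j)).card : ℝ) ≤ M) (t : ℝ) (ht : 0 ≤ t) :
    Pr (fun s => t ≤ |∑ j ∈ A, g j s - Ex (fun s => ∑ j ∈ A, g j s)|)
      ≤ 2 * Real.exp (-(t ^ 2 / (8 * B ^ 2 * M * h * N))) := by
  have hcardU : ∀ u : ι, ((A.filter (fun j => u ∈ U j)).card : ℝ)
      = ∑ j ∈ A, if u ∈ U j then (1 : ℝ) else 0 := by
    intro u
    rw [Finset.sum_boole]
  have key := mcdiarmid_influence (f := fun s => ∑ j ∈ A, g j s)
    (c := fun u => 2 * B * ((A.filter (fun j => u ∈ U j)).card : ℝ))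
    (h := by
      intro s i a
      show |∑ j ∈ A, g j (Function.update s i a) - ∑ j ∈ A, g j s| ≤ _
      rw [← Finset.sum_sub_distrib, hcardU i, Finset.mul_sum]
      refine (Finset.abs_sum_le_sum_abs _ _).trans (Finset.sum_le_sum fun j hj => ?_)
      by_cases hi : i ∈ U j
      · rw [if_pos hi]
        have h1 := hbd j hj (Function.update s i a)
        have h2 := hbd j hj s
        rw [abs_le] at h1 h2 ⊢
        constructor <;> linarith [h1.1, h1.2, h2.1, h2.2]
      · rw [if_neg hi, mul_zero]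
        have : g j (Function.update s i a) = g j s := by
          apply hdep j hj
          intro u hu
          have hne : u ≠ i := fun he => hi (he ▸ hu)
          rw [Function.update_of_ne hne]
        rw [this, sub_self, abs_zero])
    (b := 2 * B * M) (C := 2 * B * h * N) (by positivity) (by positivity)
    (by
      intro i
      exact mul_le_mul_of_nonneg_left (hinf i) (by positivity))
    (by
      rw [← Finset.mul_sum]
      have h1 : ∑ i, ((A.filter (fun j => i ∈ U j)).card : ℝ) = ∑ j ∈ A, ((U j).card : ℝ) := by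
        simp only [hcardU]
        rw [Finset.sum_comm]
        refine Finset.sum_congr rfl fun j _ => ?_
        rw [Finset.sum_boole]
        congr 2
        ext u
        simp
      have h2 : ∑ j ∈ A, ((U j).card : ℝ) ≤ h * N := by
        calc ∑ j ∈ A, ((U j).card : ℝ) ≤ ∑ _j ∈ A, h := Finset.sum_le_sum hU
          _ = h * (A.card : ℝ) := by
              rw [Finset.sum_const, nsmul_eq_mul, mul_comm]
          _ ≤ h * N := mul_le_mul_of_nonneg_left hcard hh.le
      calc 2 * B * ∑ i, ((A.filter (fun j => i ∈ U j)).card : ℝ)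
          = 2 * B * ∑ j ∈ A, ((U j).card : ℝ) := by rw [h1]
        _ ≤ 2 * B * (h * N) := mul_le_mul_of_nonneg_left h2 (by positivity)
        _ = 2 * B * h * N := by ring)
    t ht
  have h8 : 2 * (2 * B * M * (2 * B * h * N)) = 8 * B ^ 2 * M * h * N := by ring
  rw [h8] at key
  exact key

end Pool.Agent.PGr
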