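import Mathlib
import Pool.Agent.PGr.EDefs
import Pool.Agent.PGr.Alg

/-!
# PGr, module ECo: coincidences of units, counted modulo `q`

For `q` prime, `q > 17`, and `a, c1, c2` with pairwise different reductions modulo `q`, all but at
most 400 residues of `d` modulo `q` have no coincidence.

PLAN (the same for the four theorems). Multiply the reduction of every unit by 2: by
`Alg.two_red_lamI`, `2 * red (lamI x) = red x`, and `2 * red (delI x) = 2 * red x`. So if two entries
of a list are equal, then two affine functions `α_i t + β_i`, `α_j t + β_j` of `t = red d` are equal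
(in the field `ZMod q`), where (noQ, first list, s = sg b 1 = -1 or 1, A = red a, C1, C2)
  `[C1, C2, A + s t, 2 t, 2 e1 (A + s t - C1), 2 e2 (A + s t - C2)]`,
second list: `[C1, C2, C1 + e1 t, 2 t, 2 sg (C1 + e1 t - A), 2 e2 (C1 + e1 t - C2)]`, third: the same
with 1 and 2 exchanged; noU:
  `[C1, C2, A - t, -A + C1 + C2 + t, 2 t, 2 (2A - C1 - C2 - t), 2 e1 (A - t - C1), 2 e2 (A - t - C2)]`;
noI: `[C1, C2, C2 + t, A + C1 - C2 - t, 2 t, 2 (A + C1 - 2 C2 - t), 2 e1 (C2 + t - C1),
2 (A - C2 - t)]`.
For every pair `i < j` of positions: either `α_i ≠ α_j` (the slopes are in `{0, 1, -1, 2, -2}` and their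
differences, of absolute value at most 4, are not zero modulo `q`), and then
`t = (β_j - β_i) / (α_i - α_j)` is one residue; or `α_i = α_j`, and then `β_i - β_j` is, up to a factor
2 or 4 and sign, one of `A - C1`, `A - C2`, `C1 - C2`, hence not zero: no `t`. (Check: slope 0: `C1, C2`;
slope ±1: in noQ one entry only, noU: `A - t` and `.. + t` have opposite slopes; slopes ±2: e.g.
`2t` and `2(A + t - C1)`: difference `2 (A - C1)`; `2(A + t - C1)` and `2 (A + t - C2)`: `2(C2 - C1)`;
noU: `2(2A - C1 - C2 - t)` and `2(A - t - C1)`: `2 (A - C2)`; noI: `2(A + C1 - 2 C2 - t)` and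
`-2(C2 + t - C1) = 2 (C1 - C2 - t)`: `2 (A - C2)`; and `2 (A - C2 - t)`: `2 (C1 - C2)`.)
Define `F` as the union over the lists, the signs (`pm e` in `ZMod (q^2)`: e = 1 or e = -1, at most 4
choices) and the pairs of these residues: at most `3 * 4 * 15 = 180` (noQ), `4 * 28` (noU), `2 * 28`
(noI), `4 * 15` (uns) elements.
A convenient way: prove first the general lemma `few_of_affine`: for finitely many (N) pairs
`(α, β) : ZMod q × ZMod q` with `(α ≠ 0 ∨ β ≠ 0)` there is a finset of at most N residues outside
of which all `α t + β ≠ 0`; and apply it to the explicit list of differences. `List.Nodup` of an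
explicit list unfolds by `simp [List.nodup_cons]` to the conjunction of the `≠`.
-/

noncomputable section

namespace Pool.Agent.PGr

open Finset

theorem few_of_affine {q : ℕ} [Fact q.Prime] (l : List (ZMod q × ZMod q))
    (h : ∀ p ∈ l, p.1 ≠ 0 ∨ p.2 ≠ 0) :
    ∃ F : Finset (ZMod q), F.card ≤ l.length ∧ ∀ t ∉ F, ∀ p ∈ l, p.1 * t + p.2 ≠ 0 := by
  classical
  refine ⟨(l.map (fun p => -p.2 / p.1)).toFinset, ?_, ?_⟩
  · refine (List.toFinset_card_le _).trans ?_
    rw [List.length_map]
  · intro t ht p hp h0
    rcases eq_or_ne p.1 0 with h1 | h1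
    · rw [h1, zero_mul, zero_add] at h0
      rcases h p hp with h2 | h2
      · exact h2 h1
      · exact h2 h0
    · apply ht
      rw [List.mem_toFinset, List.mem_map]
      refine ⟨p, hp, ?_⟩
      rw [div_eq_iff h1]
      linear_combination -h0

/-- evaluation of an affine function -/
private def ev {q : ℕ} (t : ZMod q) (p : ZMod q × ZMod q) : ZMod q := p.1 * t + p.2

private theorem few_list {q : ℕ} [Fact q.Prime] (P : List (ZMod q × ZMod q)) (hP : P.Nodup) :
    ∃ F : Finset (ZMod q), F.card ≤ P.length.choose 2 ∧ ∀ t ∉ F, (P.map (ev t)).Nodup := by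
  classical
  induction P with
  | nil => exact ⟨∅, by simp, fun t _ => by simp⟩
  | cons p l ih =>
    rw [List.nodup_cons] at hP
    obtain ⟨F1, hF1, h1⟩ := ih hP.2
    obtain ⟨F2, hF2, h2⟩ := few_of_affine (l.map fun r => (p.1 - r.1, p.2 - r.2)) (by
      intro x hx
      rw [List.mem_map] at hx
      obtain ⟨r, hr, rfl⟩ := hx
      by_contra hcon
      push Not at hcon
      apply hP.1
      have : p = r := Prod.ext (sub_eq_zero.1 hcon.1) (sub_eq_zero.1 hcon.2)
      rw [this]
      exact hr)
    rw [List.length_map] at hF2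
    refine ⟨F1 ∪ F2, ?_, ?_⟩
    · refine (Finset.card_union_le _ _).trans ?_
      have e1 : (p :: l).length.choose 2 = l.length + l.length.choose 2 := by
        rw [List.length_cons, Nat.choose_succ_succ' l.length 1, Nat.choose_one_right]
      rw [e1]
      omega
    · intro t ht
      rw [Finset.mem_union, not_or] at ht
      rw [List.map_cons, List.nodup_cons]
      refine ⟨?_, h1 t ht.1⟩
      intro hmem
      rw [List.mem_map] at hmem
      obtain ⟨r, hr, he⟩ := hmem
      refine h2 t ht.2 (p.1 - r.1, p.2 - r.2) (List.mem_map.2 ⟨r, hr, rfl⟩) ?_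
      unfold ev at he
      linear_combination -he

private theorem few_all {q : ℕ} [Fact q.Prime] {ι : Type} [Fintype ι]
    (P : ι → List (ZMod q × ZMod q)) (m : ℕ) (hP : ∀ i, (P i).Nodup)
    (hm : ∀ i, (P i).length = m) :
    ∃ F : Finset (ZMod q), F.card ≤ Fintype.card ι * m.choose 2 ∧
      ∀ t ∉ F, ∀ i, ((P i).map (ev t)).Nodup := by
  classical
  choose F hF h using fun i => few_list (P i) (hP i)
  refine ⟨Finset.univ.biUnion F, ?_, ?_⟩
  · refine (Finset.card_biUnion_le_card_mul _ _ (m.choose 2) fun i _ => ?_).trans ?_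
    · have := hF i
      rwa [hm i] at this
    · rfl
  · intro t ht i
    apply h
    intro hi
    apply ht
    rw [Finset.mem_biUnion]
    exact ⟨i, Finset.mem_univ _, hi⟩

/-- sign of a boolean -/
private def sn {q : ℕ} (b : Bool) : ZMod q := if b then -1 else 1

private theorem sn_t {q : ℕ} : (sn true : ZMod q) = -1 := rfl
private theorem sn_f {q : ℕ} : (sn false : ZMod q) = 1 := rfl

private theorem nd_of {q : ℕ} {L : List (ZMod (q ^ 2))} {P : List (ZMod q × ZMod q)} {t : ZMod q}
    (h : (P.map (ev t)).Nodup) (he : L.map (fun u => 2 * red q u) = P.map (ev t)) : L.Nodup := by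
  rw [← he] at h
  exact List.Nodup.of_map _ h

private theorem num_ne {q : ℕ} (hb : 17 < q) {k : ℕ} (h0 : 0 < k) (h1 : k ≤ 17) :
    ((k : ℕ) : ZMod q) ≠ 0 := by
  intro h
  rw [ZMod.natCast_eq_zero_iff] at h
  have := Nat.le_of_dvd h0 h
  omega

/-- the differences are not zero -/
private structure Ne3 (q : ℕ) (A C1 C2 : ZMod q) : Prop where
  z1 : (0 : ZMod q) ≠ 1
  z2 : (0 : ZMod q) ≠ -1
  z3 : (0 : ZMod q) ≠ 2
  z4 : (0 : ZMod q) ≠ -2
  z5 : (1 : ZMod q) ≠ -1
  z6 : (1 : ZMod q) ≠ 2
  z7 : (1 : ZMod q) ≠ -2
  z8 : (-1 : ZMod q) ≠ 2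
  z9 : (-1 : ZMod q) ≠ -2
  z10 : (2 : ZMod q) ≠ -2
  a1 : A - C1 ≠ 0
  a2 : A - C2 ≠ 0
  a3 : C1 - C2 ≠ 0
  b1 : 2 * (A - C1) ≠ 0
  b2 : 2 * (A - C2) ≠ 0
  b3 : 2 * (C1 - C2) ≠ 0

private theorem mk_ne3 {q : ℕ} [Fact q.Prime] (hb : 17 < q) {A C1 C2 : ZMod q} (h1 : A ≠ C1)
    (h2 : A ≠ C2) (h3 : C1 ≠ C2) : Ne3 q A C1 C2 := by
  have n1 : (1 : ZMod q) ≠ 0 := one_ne_zero
  have n2 : (2 : ZMod q) ≠ 0 := by
    have := num_ne hb (k := 2) (by norm_num) (by norm_num)
    simpa using this
  have n3 : (3 : ZMod q) ≠ 0 := by
    have := num_ne hb (k := 3) (by norm_num) (by norm_num)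
    simpa using this
  have n4 : (4 : ZMod q) ≠ 0 := by
    have := num_ne hb (k := 4) (by norm_num) (by norm_num)
    simpa using this
  exact ⟨fun h => n1 (by linear_combination -h), fun h => n1 (by linear_combination h),
    fun h => n2 (by linear_combination -h), fun h => n2 (by linear_combination h),
    fun h => n2 (by linear_combination h), fun h => n1 (by linear_combination -h),
    fun h => n3 (by linear_combination h), fun h => n3 (by linear_combination -h),
    fun h => n1 (by linear_combination h), fun h => n4 (by linear_combination h),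
    sub_ne_zero.2 h1, sub_ne_zero.2 h2, sub_ne_zero.2 h3,
    mul_ne_zero n2 (sub_ne_zero.2 h1), mul_ne_zero n2 (sub_ne_zero.2 h2),
    mul_ne_zero n2 (sub_ne_zero.2 h3)⟩

/-- first list of `noQ` -/
private def LQ1 {q : ℕ} (A C1 C2 s e1 e2 : ZMod q) : List (ZMod q × ZMod q) :=
  [(0, C1), (0, C2), (s, A), (2, 0), (2 * (e1 * s), 2 * (e1 * (A - C1))),
    (2 * (e2 * s), 2 * (e2 * (A - C2)))]

/-- second list of `noQ`, `s` is the sign of the type -/
private def LQ2 {q : ℕ} (A C1 C2 s e1 e2 : ZMod q) : List (ZMod q × ZMod q) :=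
  [(0, C1), (0, C2), (e1, C1), (2, 0), (2 * (s * e1), 2 * (s * (C1 - A))),
    (2 * (e2 * e1), 2 * (e2 * (C1 - C2)))]

private theorem nd_Q1 {q : ℕ} {A C1 C2 : ZMod q} (H : Ne3 q A C1 C2) (b c1 c2 : Bool) :
    (LQ1 A C1 C2 (sn b) (sn c1) (sn c2)).Nodup := by
  obtain ⟨z1, z2, z3, z4, z5, z6, z7, z8, z9, z10, a1, a2, a3, b1, b2, b3⟩ := H
  unfold LQ1
  cases b <;> cases c1 <;> cases c2 <;>
  (simp only [sn_t, sn_f, one_mul, mul_one, neg_mul, mul_neg, neg_neg, List.nodup_cons,
      List.mem_cons, List.not_mem_nil, or_false, not_or, Prod.mk.injEq,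
      not_and, List.nodup_nil, and_true, not_false_eq_true, true_imp_iff]
   repeat' apply And.intro
   all_goals
     intro h
     first
     | exact absurd h z1
     | exact absurd h.symm z1
     | exact absurd h z2
     | exact absurd h.symm z2
     | exact absurd h z3
     | exact absurd h.symm z3
     | exact absurd h z4
     | exact absurd h.symm z4
     | exact absurd h z5
     | exact absurd h.symm z5
     | exact absurd h z6
     | exact absurd h.symm z6
     | exact absurd h z7
     | exact absurd h.symm z7
     | exact absurd h z8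
     | exact absurd h.symm z8
     | exact absurd h z9
     | exact absurd h.symm z9
     | exact absurd h z10
     | exact absurd h.symm z10
     | exact a1 (by linear_combination h)
     | exact a1 (by linear_combination -h)
     | exact a2 (by linear_combination h)
     | exact a2 (by linear_combination -h)
     | exact a3 (by linear_combination h)
     | exact a3 (by linear_combination -h)
     | exact b1 (by linear_combination h)
     | exact b1 (by linear_combination -h)
     | exact b2 (by linear_combination h)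
     | exact b2 (by linear_combination -h)
     | exact b3 (by linear_combination h)
     | exact b3 (by linear_combination -h))

private theorem nd_Q2 {q : ℕ} {A C1 C2 : ZMod q} (H : Ne3 q A C1 C2) (b c1 c2 : Bool) :
    (LQ2 A C1 C2 (sn b) (sn c1) (sn c2)).Nodup := by
  obtain ⟨z1, z2, z3, z4, z5, z6, z7, z8, z9, z10, a1, a2, a3, b1, b2, b3⟩ := H
  unfold LQ2
  cases b <;> cases c1 <;> cases c2 <;>
  (simp only [sn_t, sn_f, one_mul, mul_one, neg_mul, mul_neg, neg_neg, List.nodup_cons,
      List.mem_cons, List.not_mem_nil, or_false, not_or, Prod.mk.injEq,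
      not_and, List.nodup_nil, and_true, not_false_eq_true, true_imp_iff]
   repeat' apply And.intro
   all_goals
     intro h
     first
     | exact absurd h z1
     | exact absurd h.symm z1
     | exact absurd h z2
     | exact absurd h.symm z2
     | exact absurd h z3
     | exact absurd h.symm z3
     | exact absurd h z4
     | exact absurd h.symm z4
     | exact absurd h z5
     | exact absurd h.symm z5
     | exact absurd h z6
     | exact absurd h.symm z6
     | exact absurd h z7
     | exact absurd h.symm z7
     | exact absurd h z8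
     | exact absurd h.symm z8
     | exact absurd h z9
     | exact absurd h.symm z9
     | exact absurd h z10
     | exact absurd h.symm z10
     | exact a1 (by linear_combination h)
     | exact a1 (by linear_combination -h)
     | exact a2 (by linear_combination h)
     | exact a2 (by linear_combination -h)
     | exact a3 (by linear_combination h)
     | exact a3 (by linear_combination -h)
     | exact b1 (by linear_combination h)
     | exact b1 (by linear_combination -h)
     | exact b2 (by linear_combination h)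
     | exact b2 (by linear_combination -h)
     | exact b3 (by linear_combination h)
     | exact b3 (by linear_combination -h))


/-- third list of `noQ`, `s` is the sign of the type -/
private def LQ3 {q : ℕ} (A C1 C2 s e1 e2 : ZMod q) : List (ZMod q × ZMod q) :=
  [(0, C1), (0, C2), (e1, C2), (2, 0), (2 * (s * e1), 2 * (s * (C2 - A))),
    (2 * (e2 * e1), 2 * (e2 * (C2 - C1)))]

/-- list of `noU` -/
private def LU {q : ℕ} (A C1 C2 e1 e2 : ZMod q) : List (ZMod q × ZMod q) :=
  [(0, C1), (0, C2), (-1, A), (1, -A + C1 + C2), (2, 0), (-2, 2 * (2 * A - C1 - C2)),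
    (-2 * e1, 2 * (e1 * (A - C1))), (-2 * e2, 2 * (e2 * (A - C2)))]

/-- list of `noI` -/
private def LI {q : ℕ} (A C1 C2 e1 : ZMod q) : List (ZMod q × ZMod q) :=
  [(0, C1), (0, C2), (1, C2), (-1, A + C1 - C2), (2, 0), (-2, 2 * (A + C1 - 2 * C2)),
    (2 * e1, 2 * (e1 * (C2 - C1))), (-2, 2 * (A - C2))]

/-- list of `uns` -/
private def LN {q : ℕ} (A C1 C2 e0 e1 e2 : ZMod q) : List (ZMod q × ZMod q) :=
  [(0, C1), (0, C2), (1, 0), (2 * e0, -(2 * (e0 * A))), (2 * e1, -(2 * (e1 * C1))),
    (2 * e2, -(2 * (e2 * C2)))]

private theorem nd_Q3 {q : ℕ} {A C1 C2 : ZMod q} (H : Ne3 q A C1 C2) (b c1 c2 : Bool) :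
    (LQ3 A C1 C2 (sn b) (sn c1) (sn c2)).Nodup := by
  obtain ⟨z1, z2, z3, z4, z5, z6, z7, z8, z9, z10, a1, a2, a3, b1, b2, b3⟩ := H
  unfold LQ3
  cases b <;> cases c1 <;> cases c2 <;>
  (simp only [sn_t, sn_f, one_mul, mul_one, neg_mul, mul_neg, neg_neg, List.nodup_cons,
      List.mem_cons, List.not_mem_nil, or_false, not_or, Prod.mk.injEq,
      not_and, List.nodup_nil, and_true, not_false_eq_true, true_imp_iff]
   repeat' apply And.intro
   all_goals
     intro h
     first
     | exact absurd h z1
     | exact absurd h.symm z1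
     | exact absurd h z2
     | exact absurd h.symm z2
     | exact absurd h z3
     | exact absurd h.symm z3
     | exact absurd h z4
     | exact absurd h.symm z4
     | exact absurd h z5
     | exact absurd h.symm z5
     | exact absurd h z6
     | exact absurd h.symm z6
     | exact absurd h z7
     | exact absurd h.symm z7
     | exact absurd h z8
     | exact absurd h.symm z8
     | exact absurd h z9
     | exact absurd h.symm z9
     | exact absurd h z10
     | exact absurd h.symm z10
     | exact a1 (by linear_combination h)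
     | exact a1 (by linear_combination -h)
     | exact a2 (by linear_combination h)
     | exact a2 (by linear_combination -h)
     | exact a3 (by linear_combination h)
     | exact a3 (by linear_combination -h)
     | exact b1 (by linear_combination h)
     | exact b1 (by linear_combination -h)
     | exact b2 (by linear_combination h)
     | exact b2 (by linear_combination -h)
     | exact b3 (by linear_combination h)
     | exact b3 (by linear_combination -h))

private theorem nd_U {q : ℕ} {A C1 C2 : ZMod q} (H : Ne3 q A C1 C2) (c1 c2 : Bool) :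
    (LU A C1 C2 (sn c1) (sn c2)).Nodup := by
  obtain ⟨z1, z2, z3, z4, z5, z6, z7, z8, z9, z10, a1, a2, a3, b1, b2, b3⟩ := H
  unfold LU
  cases c1 <;> cases c2 <;>
  (simp only [sn_t, sn_f, one_mul, mul_one, neg_mul, mul_neg, neg_neg, List.nodup_cons,
      List.mem_cons, List.not_mem_nil, or_false, not_or, Prod.mk.injEq,
      not_and, List.nodup_nil, and_true, not_false_eq_true, true_imp_iff]
   repeat' apply And.intro
   all_goals
     intro h
     first
     | exact absurd h z1
     | exact absurd h.symm z1
     | exact absurd h z2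
     | exact absurd h.symm z2
     | exact absurd h z3
     | exact absurd h.symm z3
     | exact absurd h z4
     | exact absurd h.symm z4
     | exact absurd h z5
     | exact absurd h.symm z5
     | exact absurd h z6
     | exact absurd h.symm z6
     | exact absurd h z7
     | exact absurd h.symm z7
     | exact absurd h z8
     | exact absurd h.symm z8
     | exact absurd h z9
     | exact absurd h.symm z9
     | exact absurd h z10
     | exact absurd h.symm z10
     | exact a1 (by linear_combination h)
     | exact a1 (by linear_combination -h)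
     | exact a2 (by linear_combination h)
     | exact a2 (by linear_combination -h)
     | exact a3 (by linear_combination h)
     | exact a3 (by linear_combination -h)
     | exact b1 (by linear_combination h)
     | exact b1 (by linear_combination -h)
     | exact b2 (by linear_combination h)
     | exact b2 (by linear_combination -h)
     | exact b3 (by linear_combination h)
     | exact b3 (by linear_combination -h))

private theorem nd_I {q : ℕ} {A C1 C2 : ZMod q} (H : Ne3 q A C1 C2) (c1 : Bool) :
    (LI A C1 C2 (sn c1)).Nodup := by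
  obtain ⟨z1, z2, z3, z4, z5, z6, z7, z8, z9, z10, a1, a2, a3, b1, b2, b3⟩ := H
  unfold LI
  cases c1 <;>
  (simp only [sn_t, sn_f, one_mul, mul_one, neg_mul, mul_neg, neg_neg, List.nodup_cons,
      List.mem_cons, List.not_mem_nil, or_false, not_or, Prod.mk.injEq,
      not_and, List.nodup_nil, and_true, not_false_eq_true, true_imp_iff]
   repeat' apply And.intro
   all_goals
     intro h
     first
     | exact absurd h z1
     | exact absurd h.symm z1
     | exact absurd h z2
     | exact absurd h.symm z2
     | exact absurd h z3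
     | exact absurd h.symm z3
     | exact absurd h z4
     | exact absurd h.symm z4
     | exact absurd h z5
     | exact absurd h.symm z5
     | exact absurd h z6
     | exact absurd h.symm z6
     | exact absurd h z7
     | exact absurd h.symm z7
     | exact absurd h z8
     | exact absurd h.symm z8
     | exact absurd h z9
     | exact absurd h.symm z9
     | exact absurd h z10
     | exact absurd h.symm z10
     | exact a1 (by linear_combination h)
     | exact a1 (by linear_combination -h)
     | exact a2 (by linear_combination h)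
     | exact a2 (by linear_combination -h)
     | exact a3 (by linear_combination h)
     | exact a3 (by linear_combination -h)
     | exact b1 (by linear_combination h)
     | exact b1 (by linear_combination -h)
     | exact b2 (by linear_combination h)
     | exact b2 (by linear_combination -h)
     | exact b3 (by linear_combination h)
     | exact b3 (by linear_combination -h))

private theorem nd_N {q : ℕ} {A C1 C2 : ZMod q} (H : Ne3 q A C1 C2) (c0 c1 c2 : Bool) :
    (LN A C1 C2 (sn c0) (sn c1) (sn c2)).Nodup := by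
  obtain ⟨z1, z2, z3, z4, z5, z6, z7, z8, z9, z10, a1, a2, a3, b1, b2, b3⟩ := H
  unfold LN
  cases c0 <;> cases c1 <;> cases c2 <;>
  (simp only [sn_t, sn_f, one_mul, mul_one, neg_mul, mul_neg, neg_neg, List.nodup_cons,
      List.mem_cons, List.not_mem_nil, or_false, not_or, Prod.mk.injEq,
      not_and, List.nodup_nil, and_true, not_false_eq_true, true_imp_iff]
   repeat' apply And.intro
   all_goals
     intro h
     first
     | exact absurd h z1
     | exact absurd h.symm z1
     | exact absurd h z2
     | exact absurd h.symm z2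
     | exact absurd h z3
     | exact absurd h.symm z3
     | exact absurd h z4
     | exact absurd h.symm z4
     | exact absurd h z5
     | exact absurd h.symm z5
     | exact absurd h z6
     | exact absurd h.symm z6
     | exact absurd h z7
     | exact absurd h.symm z7
     | exact absurd h z8
     | exact absurd h.symm z8
     | exact absurd h z9
     | exact absurd h.symm z9
     | exact absurd h z10
     | exact absurd h.symm z10
     | exact a1 (by linear_combination h)
     | exact a1 (by linear_combination -h)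
     | exact a2 (by linear_combination h)
     | exact a2 (by linear_combination -h)
     | exact a3 (by linear_combination h)
     | exact a3 (by linear_combination -h)
     | exact b1 (by linear_combination h)
     | exact b1 (by linear_combination -h)
     | exact b2 (by linear_combination h)
     | exact b2 (by linear_combination -h)
     | exact b3 (by linear_combination h)
     | exact b3 (by linear_combination -h))

private theorem pm_sn {q : ℕ} {e : ZMod (q ^ 2)} (h : pm e) :
    ∃ c : Bool, red q e = sn c := by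
  rcases h with h | h
  · exact ⟨false, by rw [h, map_one, sn_f]⟩
  · exact ⟨true, by rw [h, map_neg, map_one, sn_t]⟩

private theorem red_sg {q : ℕ} (b : Bool) (z : ZMod (q ^ 2)) :
    red q (sg b z) = sn b * red q z := by
  cases b
  · rw [sn_f, one_mul]
    rfl
  · rw [sn_t]
    unfold sg
    rw [if_pos rfl, map_neg]
    ring

/-- the lists of `noQ` -/
private def PQ {q : ℕ} (A C1 C2 s : ZMod q) : Fin 3 × Bool × Bool → List (ZMod q × ZMod q)
  | (0, c1, c2) => LQ1 A C1 C2 s (sn c1) (sn c2)
  | (1, c1, c2) => LQ2 A C1 C2 s (sn c1) (sn c2)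
  | (2, c1, c2) => LQ3 A C1 C2 s (sn c1) (sn c2)

theorem noQ_few {q : ℕ} (hq : q.Prime) (hb : 17 < q) (b : Bool) (a c1 c2 : ZMod (q ^ 2))
    (h1 : red q a ≠ red q c1) (h2 : red q a ≠ red q c2) (h3 : red q c1 ≠ red q c2) :
    ∃ F : Finset (ZMod q), F.card ≤ 400 ∧ ∀ d : ZMod (q ^ 2), red q d ∉ F → noQ q b a c1 c2 d := by
  have : Fact q.Prime := ⟨hq⟩
  have H := mk_ne3 hb h1 h2 h3
  have hq3 : 3 < q := by omega
  obtain ⟨F, hF, h⟩ := few_all (PQ (red q a) (red q c1) (red q c2) (sn b)) 6
    (by
      rintro ⟨i, d1, d2⟩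
      fin_cases i
      · exact nd_Q1 H b d1 d2
      · exact nd_Q2 H b d1 d2
      · exact nd_Q3 H b d1 d2)
    (by
      rintro ⟨i, d1, d2⟩
      fin_cases i <;> rfl)
  refine ⟨F, hF.trans (by decide), fun d hd => ⟨?_, ?_, ?_⟩⟩
  · intro e1 e2 he1 he2
    obtain ⟨d1, g1⟩ := pm_sn he1
    obtain ⟨d2, g2⟩ := pm_sn he2
    refine nd_of (h _ hd (0, d1, d2)) ?_
    simp only [List.map_cons, List.map_nil, PQ, LQ1, ev, List.cons.injEq, and_true,
      two_red_lamI hq hq3, red_delI, map_add, map_sub, map_mul, red_sg, g1, g2]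
    repeat' apply And.intro
    all_goals ring
  · intro e1 e2 he1 he2
    obtain ⟨d1, g1⟩ := pm_sn he1
    obtain ⟨d2, g2⟩ := pm_sn he2
    refine nd_of (h _ hd (1, d1, d2)) ?_
    simp only [List.map_cons, List.map_nil, PQ, LQ2, ev, List.cons.injEq, and_true,
      two_red_lamI hq hq3, red_delI, map_add, map_sub, map_mul, red_sg, g1, g2]
    repeat' apply And.intro
    all_goals ring
  · intro e1 e2 he1 he2
    obtain ⟨d1, g1⟩ := pm_sn he1
    obtain ⟨d2, g2⟩ := pm_sn he2
    refine nd_of (h _ hd (2, d1, d2)) ?_
    simp only [List.map_cons, List.map_nil, PQ, LQ3, ev, List.cons.injEq, and_true,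
      two_red_lamI hq hq3, red_delI, map_add, map_sub, map_mul, red_sg, g1, g2]
    repeat' apply And.intro
    all_goals ring

theorem noU_few {q : ℕ} (hq : q.Prime) (hb : 17 < q) (a c1 c2 : ZMod (q ^ 2))
    (h1 : red q a ≠ red q c1) (h2 : red q a ≠ red q c2) (h3 : red q c1 ≠ red q c2) :
    ∃ F : Finset (ZMod q), F.card ≤ 200 ∧ ∀ d : ZMod (q ^ 2), red q d ∉ F → noU q a c1 c2 d := by
  have : Fact q.Prime := ⟨hq⟩
  have H := mk_ne3 hb h1 h2 h3
  have hq3 : 3 < q := by omega
  obtain ⟨F, hF, h⟩ := few_all
    (fun i : Bool × Bool => LU (red q a) (red q c1) (red q c2) (sn i.1) (sn i.2)) 8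
    (fun i => nd_U H i.1 i.2) (fun i => rfl)
  refine ⟨F, hF.trans (by decide), fun d hd => ?_⟩
  intro e1 e2 he1 he2
  obtain ⟨d1, g1⟩ := pm_sn he1
  obtain ⟨d2, g2⟩ := pm_sn he2
  refine nd_of (h _ hd (d1, d2)) ?_
  simp only [List.map_cons, List.map_nil, LU, ev, List.cons.injEq, and_true,
    two_red_lamI hq hq3, red_delI, map_add, map_sub, map_mul, map_neg, map_ofNat, g1, g2]
  repeat' apply And.intro
  all_goals ring

theorem noI_few {q : ℕ} (hq : q.Prime) (hb : 17 < q) (a c1 c2 : ZMod (q ^ 2))
    (h1 : red q a ≠ red q c1) (h2 : red q a ≠ red q c2) (h3 : red q c1 ≠ red q c2) :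
    ∃ F : Finset (ZMod q), F.card ≤ 200 ∧ ∀ d : ZMod (q ^ 2), red q d ∉ F → noI q a c1 c2 d := by
  have : Fact q.Prime := ⟨hq⟩
  have H := mk_ne3 hb h1 h2 h3
  have hq3 : 3 < q := by omega
  obtain ⟨F, hF, h⟩ := few_all
    (fun i : Bool => LI (red q a) (red q c1) (red q c2) (sn i)) 8
    (fun i => nd_I H i) (fun i => rfl)
  refine ⟨F, hF.trans (by decide), fun d hd => ?_⟩
  intro e1 he1
  obtain ⟨d1, g1⟩ := pm_sn he1
  refine nd_of (h _ hd d1) ?_
  simp only [List.map_cons, List.map_nil, LI, ev, List.cons.injEq, and_true,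
    two_red_lamI hq hq3, red_delI, map_add, map_sub, map_mul, map_neg, map_ofNat, g1]
  repeat' apply And.intro
  all_goals ring

private theorem abs_sn (q : ℕ) (z : ℤ) : ∃ c : Bool, ((|z| : ℤ) : ZMod q) = sn c * (z : ZMod q) := by
  rcases abs_choice z with h | h
  · exact ⟨false, by rw [h, sn_f, one_mul]⟩
  · refine ⟨true, ?_⟩
    rw [h, sn_t]
    push_cast
    ring

/-- coincidences of a label with a triple -/
theorem uns_few (D : Dat) (hq : D.q.Prime) (hb : 17 < D.q) (a y1 y2 : ℤ)
    (h1 : ((a : ℤ) : ZMod D.q) ≠ ((y1 : ℤ) : ZMod D.q))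
    (h2 : ((a : ℤ) : ZMod D.q) ≠ ((y2 : ℤ) : ZMod D.q))
    (h3 : ((y1 : ℤ) : ZMod D.q) ≠ ((y2 : ℤ) : ZMod D.q)) :
    ∃ F : Finset (ZMod D.q), F.card ≤ 400 ∧ ∀ x : ℤ, ((x : ℤ) : ZMod D.q) ∉ F →
      (D.uns a y1 y2 x).Nodup := by
  have : Fact D.q.Prime := ⟨hq⟩
  have H := mk_ne3 hb h1 h2 h3
  have hq3 : 3 < D.q := by omega
  obtain ⟨F, hF, h⟩ := few_all
    (fun i : Bool × Bool × Bool => LN (a : ZMod D.q) (y1 : ZMod D.q) (y2 : ZMod D.q) (sn i.1)
      (sn i.2.1) (sn i.2.2)) 6
    (fun i => nd_N H i.1 i.2.1 i.2.2) (fun i => rfl)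
  refine ⟨F, hF.trans (by decide), fun x hx => ?_⟩
  obtain ⟨d0, g0⟩ := abs_sn D.q (x - a)
  obtain ⟨d1, g1⟩ := abs_sn D.q (x - y1)
  obtain ⟨d2, g2⟩ := abs_sn D.q (x - y2)
  refine nd_of (h _ hx (d0, d1, d2)) ?_
  simp only [Dat.uns, unL, unD, List.map_cons, List.map_nil, LN, ev, List.cons.injEq, and_true,
    two_red_lamI hq hq3, red_delI, red_int, g0, g1, g2, Int.cast_sub]
  repeat' apply And.intro
  all_goals ring

end Pool.Agent.PGr
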