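import Mathlib
import Pool.Agent.PGr.ECo
import Pool.Agent.PGr.EBas

/-!
# PGr, module EDc: there are few deficient differences

STATEMENT. `Ddef_card`: `|Ddef| √q ≤ 10 n`; `It_card`: `|It| ≤ 2n`; `ZeZ0`: few labels are lost.

PLAN. `h : D.Reg κ c`, `n ≥ q^6`, `q > 17`.
`It_card`: `anc` is injective on `It` (`h.anc_inj`) with values in
`[0, n/2] ∪ [5n/2, 3n]` (`h.anc_A`, unfold `A`, cases on `hi`), at most `n + 2 ≤ 2n` integers.
`Ddef_card`: `Ddef ⊆ D0`, and `D0 ⊆ [1, 2n+2]` (`h.D0_sub`). Split by the four conditions.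
1. `2n < d`: at most 2.
2. `unD d ∈ Bd`, `1 ≤ d ≤ 2n`: for every `u ∈ Bd` the `d` with `unD d = u` satisfy
   `(d : ZMod Q) = del u` (Alg.del_delI): by Alg.card_class_le at most `2n/Q + 1 ≤ 3n/Q`; with
   `h.bdc`: `|Bd| √q ≤ Q` the total times `√q` is at most `3n`.
3. `cnt d = #{m ∈ It | pure m ∧ ¬ noQ .. d}`, `4000 n < cnt d √q`, `1 ≤ d ≤ 2n`:
   `∑_{1≤d≤2n} cnt d = ∑_{m ∈ It} #{1 ≤ d ≤ 2n | ¬ noQ .. d} ≤ |It| * 400 * (2n/q + 1)` by
   ECo.noQ_few (with `h.gen m`) and Alg.card_class_le with `Q := q` (the condition `red q d ∈ F`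
   gives `((d:ℤ) : ZMod q) ∈ F` by Alg.red_int), `≤ 2n * 400 * 3n/q = 2400 n^2/q`. So the number N3
   of these `d` satisfies `N3 * 4000 n / √q ≤ 2400 n^2 / q`, i.e. `N3 √q ≤ 0.6 n`.
4. the same with `IR ⊆ It`, ECo.noU_few, noI_few (together at most 400 residues).
Sum: `√q (2 + ..) ≤ 2√q + 3n + 0.6n + 0.6n ≤ 10 n`.
-/

noncomputable section

namespace Pool.Agent.PGr

open Finset

private theorem cnt_lem (n q : ℕ) (hq0 : 0 < q) (hqn : q ≤ n) (I : Finset ℕ)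
    (hI : (I.card : ℝ) ≤ 2 * n) (P : ℕ → ℤ → Prop) [∀ d, DecidablePred (fun m => P m d)]
    (hP : ∀ m ∈ I, ∃ F : Finset (ZMod q), F.card ≤ 400 ∧
      ∀ d : ℤ, P m d → ((d : ℤ) : ZMod q) ∈ F)
    (B : Finset ℤ) (hB : ∀ d ∈ B, 1 ≤ d ∧ d ≤ 2 * (n : ℤ) ∧
      4000 * (n : ℝ) < ((I.filter (fun m => P m d)).card : ℝ) * √(q : ℝ)) :
    (B.card : ℝ) * √(q : ℝ) ≤ n := by
  classical
  have hqr : (0 : ℝ) < q := by exact_mod_cast hq0
  have hnr : (0 : ℝ) < n := by exact_mod_cast (lt_of_lt_of_le hq0 hqn)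
  have hqn' : (q : ℝ) ≤ n := by exact_mod_cast hqn
  have hsq : 0 < √(q : ℝ) := Real.sqrt_pos.2 hqr
  have hss : √(q : ℝ) * √(q : ℝ) = q := Real.mul_self_sqrt hqr.le
  have h1 : (B.card : ℝ) * (4000 * n) ≤
      ∑ d ∈ B, ((I.filter (fun m => P m d)).card : ℝ) * √(q : ℝ) := by
    rw [← nsmul_eq_mul, ← Finset.sum_const]
    exact Finset.sum_le_sum fun d hd => (hB d hd).2.2.le
  have h2 : ∑ d ∈ B, ((I.filter (fun m => P m d)).card : ℝ) =
      ∑ m ∈ I, ((B.filter (fun d => P m d)).card : ℝ) := by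
    have e : ∑ d ∈ B, (I.filter (fun m => P m d)).card =
        ∑ m ∈ I, (B.filter (fun d => P m d)).card := by
      simp_rw [Finset.card_filter]
      exact Finset.sum_comm
    exact_mod_cast e
  have h3 : ∀ m ∈ I, ((B.filter (fun d => P m d)).card : ℝ) ≤ 400 * (3 * n / q) := by
    intro m hm
    obtain ⟨F, hF, hF2⟩ := hP m hm
    have hsub : B.filter (fun d => P m d) ⊆
        F.biUnion (fun r => (Icc (1 : ℤ) (2 * (n : ℤ))).filter
          (fun x : ℤ => ((x : ℤ) : ZMod q) = r)) := by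
      intro d hd
      rw [Finset.mem_filter] at hd
      obtain ⟨b1, b2, _⟩ := hB d hd.1
      exact Finset.mem_biUnion.2 ⟨_, hF2 d hd.2,
        Finset.mem_filter.2 ⟨Finset.mem_Icc.2 ⟨b1, b2⟩, rfl⟩⟩
    have hc := (Finset.card_le_card hsub).trans Finset.card_biUnion_le
    have hc2 : ((B.filter (fun d => P m d)).card : ℝ) ≤
        ∑ r ∈ F, (((Icc (1 : ℤ) (2 * (n : ℤ))).filter
          (fun x : ℤ => ((x : ℤ) : ZMod q) = r)).card : ℝ) := by
      exact_mod_cast hc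
    have hb : ∀ r ∈ F, (((Icc (1 : ℤ) (2 * (n : ℤ))).filter
          (fun x : ℤ => ((x : ℤ) : ZMod q) = r)).card : ℝ) ≤ 3 * n / q := by
      intro r _
      refine (card_class_le q hq0 1 (2 * (n : ℤ)) r).trans ?_
      refine max_le (by positivity) ?_
      push_cast
      rw [div_add_one hqr.ne', div_le_div_iff_of_pos_right hqr]
      linarith
    have hF' : (F.card : ℝ) ≤ 400 := by exact_mod_cast hF
    calc ((B.filter (fun d => P m d)).card : ℝ) ≤ _ := hc2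
      _ ≤ ∑ _r ∈ F, (3 * (n : ℝ) / q) := Finset.sum_le_sum hb
      _ = F.card * (3 * n / q) := by rw [Finset.sum_const, nsmul_eq_mul]
      _ ≤ 400 * (3 * n / q) := mul_le_mul_of_nonneg_right hF' (by positivity)
  have h4 : ∑ m ∈ I, ((B.filter (fun d => P m d)).card : ℝ) ≤ 2 * n * (400 * (3 * n / q)) := by
    calc ∑ m ∈ I, ((B.filter (fun d => P m d)).card : ℝ) ≤ ∑ _m ∈ I, (400 * (3 * (n : ℝ) / q)) :=
          Finset.sum_le_sum h3
      _ = I.card * (400 * (3 * n / q)) := by rw [Finset.sum_const, nsmul_eq_mul]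
      _ ≤ 2 * n * (400 * (3 * n / q)) := mul_le_mul_of_nonneg_right hI (by positivity)
  have h5 : (B.card : ℝ) * (4000 * n) ≤ 2 * n * (400 * (3 * n / q)) * √(q : ℝ) := by
    refine h1.trans ?_
    rw [← Finset.sum_mul, h2]
    exact mul_le_mul_of_nonneg_right h4 hsq.le
  have h6 : (B.card : ℝ) * (4000 * n) * √(q : ℝ) ≤ 2400 * n * n := by
    calc (B.card : ℝ) * (4000 * n) * √(q : ℝ) ≤
          2 * n * (400 * (3 * n / q)) * √(q : ℝ) * √(q : ℝ) :=
          mul_le_mul_of_nonneg_right h5 hsq.le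
      _ = 2 * n * (400 * (3 * n / q)) * (√(q : ℝ) * √(q : ℝ)) := by ring
      _ = 2400 * n * n := by
          rw [hss]
          field_simp
          ring
  have h7 : ((B.card : ℝ) * √(q : ℝ)) * n ≤ n * n := by nlinarith
  exact le_of_mul_le_mul_right h7 hnr

namespace Dat

variable {D : Dat} {κ c : ℝ}

private theorem q_le_n (h : D.Reg κ c) : D.q ^ 2 ≤ D.n ∧ D.q ≤ D.n ∧ 0 < D.q := by
  have h0 : 0 < D.q := by have := h.q_big; omega
  have h1 : D.q ^ 2 ≤ D.q ^ 6 := Nat.pow_le_pow_right h0 (by norm_num)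
  have h2 : D.q ^ 1 ≤ D.q ^ 6 := Nat.pow_le_pow_right h0 (by norm_num)
  rw [pow_one] at h2
  exact ⟨h1.trans h.q_high, h2.trans h.q_high, h0⟩

theorem It_card (h : D.Reg κ c) : (D.It.card : ℝ) ≤ 2 * D.n := by
  classical
  obtain ⟨_, hqn, _⟩ := q_le_n h
  have hq := h.q_big
  have hsub : D.It.image D.anc ⊆ Icc (0 : ℤ) ((D.n : ℤ) / 2) ∪
      Icc ((5 * (D.n : ℤ)) / 2) (3 * (D.n : ℤ)) := by
    intro a ha
    obtain ⟨m, hm, rfl⟩ := Finset.mem_image.1 ha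
    have hA := h.anc_A m (Finset.mem_union_right _ hm)
    unfold A at hA
    rw [Finset.mem_union, Finset.mem_Icc, Finset.mem_Icc]
    by_cases hh : D.hi m
    · rw [if_pos hh] at hA
      right
      omega
    · rw [if_neg hh] at hA
      left
      omega
  have hinj : (D.It.image D.anc).card = D.It.card :=
    Finset.card_image_of_injOn fun m hm m' hm' e => h.anc_inj m hm m' hm' e
  have hc := (Finset.card_le_card hsub).trans (Finset.card_union_le _ _)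
  rw [hinj, Int.card_Icc, Int.card_Icc] at hc
  have h2 : D.It.card ≤ 2 * D.n := by omega
  exact_mod_cast h2

theorem Ddef_card (h : D.Reg κ c) : (D.Ddef.card : ℝ) * √(D.q : ℝ) ≤ 10 * D.n := by
  classical
  obtain ⟨hQn, hqn, hq0⟩ := q_le_n h
  have hqr : (0 : ℝ) < D.q := by exact_mod_cast hq0
  have hnr : (0 : ℝ) < D.n := by exact_mod_cast (lt_of_lt_of_le hq0 hqn)
  have hqn' : (D.q : ℝ) ≤ D.n := by exact_mod_cast hqn
  have hQn' : (D.q : ℝ) ^ 2 ≤ D.n := by exact_mod_cast hQn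
  have hsq : 0 < √(D.q : ℝ) := Real.sqrt_pos.2 hqr
  have hq1 : (1 : ℝ) ≤ D.q := by exact_mod_cast hq0
  have hsle : √(D.q : ℝ) ≤ D.q := by
    rw [Real.sqrt_le_left hqr.le]
    nlinarith
  -- the four parts
  set B1 : Finset ℤ := {2 * (D.n : ℤ) + 1, 2 * (D.n : ℤ) + 2} with hB1
  set B2 : Finset ℤ := (Icc (1 : ℤ) (2 * (D.n : ℤ))).filter (fun d => unD D.q d ∈ D.Bd) with hB2
  set B3 : Finset ℤ := (Icc (1 : ℤ) (2 * (D.n : ℤ))).filter (fun d =>
    4000 * (D.n : ℝ) < ((D.It.filter (fun m => D.pure m ∧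
      ¬ noQ D.q (D.hi m) ((D.anc m : ℤ) : ZMod (D.q ^ 2)) (D.cls (D.nb1 m)) (D.cls (D.nb2 m))
        ((d : ℤ) : ZMod (D.q ^ 2)))).card : ℝ) * √(D.q : ℝ)) with hB3
  set B4 : Finset ℤ := (Icc (1 : ℤ) (2 * (D.n : ℤ))).filter (fun d =>
    4000 * (D.n : ℝ) < ((D.IR.filter (fun m =>
      ¬ noU D.q ((D.anc m : ℤ) : ZMod (D.q ^ 2)) (D.cls (D.nb1 m)) (D.cls (D.nb2 m))
        ((d : ℤ) : ZMod (D.q ^ 2)) ∨
      ¬ noI D.q ((D.anc m : ℤ) : ZMod (D.q ^ 2)) (D.cls (D.nb1 m)) (D.cls (D.nb2 m))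
        ((d : ℤ) : ZMod (D.q ^ 2)))).card : ℝ) * √(D.q : ℝ)) with hB4
  have hsub : D.Ddef ⊆ B1 ∪ (B2 ∪ (B3 ∪ B4)) := by
    intro d hd
    unfold Ddef at hd
    rw [Finset.mem_filter] at hd
    obtain ⟨hd0, hd1⟩ := hd
    obtain ⟨b1, b2⟩ := h.D0_sub d hd0
    by_cases hlt : 2 * (D.n : ℤ) < d
    · refine Finset.mem_union_left _ ?_
      rw [hB1, Finset.mem_insert, Finset.mem_singleton]
      omega
    · have hI : d ∈ Icc (1 : ℤ) (2 * (D.n : ℤ)) := Finset.mem_Icc.2 ⟨b1, by omega⟩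
      refine Finset.mem_union_right _ ?_
      rcases hd1 with h1 | h1 | h1 | h1
      · exact absurd h1 hlt
      · exact Finset.mem_union_left _ (Finset.mem_filter.2 ⟨hI, h1.2⟩)
      · refine Finset.mem_union_right _ (Finset.mem_union_left _ (Finset.mem_filter.2 ⟨hI, ?_⟩))
        exact h1
      · refine Finset.mem_union_right _ (Finset.mem_union_right _ (Finset.mem_filter.2 ⟨hI, ?_⟩))
        exact h1
  have hc1 : (B1.card : ℝ) ≤ 2 := by
    have : B1.card ≤ 2 := Finset.card_le_two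
    exact_mod_cast this
  have hc2 : (B2.card : ℝ) * √(D.q : ℝ) ≤ 3 * D.n := by
    have hs : B2 ⊆ D.Bd.biUnion (fun u => (Icc (1 : ℤ) (2 * (D.n : ℤ))).filter
        (fun x : ℤ => ((x : ℤ) : ZMod (D.q ^ 2)) = del D.q u)) := by
      intro d hd
      rw [hB2, Finset.mem_filter] at hd
      refine Finset.mem_biUnion.2 ⟨_, hd.2, Finset.mem_filter.2 ⟨hd.1, ?_⟩⟩
      unfold unD
      rw [del_delI]
    have hc := (Finset.card_le_card hs).trans Finset.card_biUnion_le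
    have hcr : (B2.card : ℝ) ≤ ∑ u ∈ D.Bd, (((Icc (1 : ℤ) (2 * (D.n : ℤ))).filter
        (fun x : ℤ => ((x : ℤ) : ZMod (D.q ^ 2)) = del D.q u)).card : ℝ) := by
      exact_mod_cast hc
    have hQ0 : (0 : ℝ) < (D.q : ℝ) ^ 2 := by positivity
    have hb : ∀ u ∈ D.Bd, (((Icc (1 : ℤ) (2 * (D.n : ℤ))).filter
        (fun x : ℤ => ((x : ℤ) : ZMod (D.q ^ 2)) = del D.q u)).card : ℝ) ≤
        3 * D.n / (D.q : ℝ) ^ 2 := by
      intro u _
      refine (card_class_le (D.q ^ 2) (by positivity) 1 (2 * (D.n : ℤ)) (del D.q u)).trans ?_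
      refine max_le (by positivity) ?_
      push_cast
      rw [div_add_one hQ0.ne', div_le_div_iff_of_pos_right hQ0]
      linarith
    have hB : (B2.card : ℝ) ≤ D.Bd.card * (3 * D.n / (D.q : ℝ) ^ 2) := by
      refine hcr.trans ((Finset.sum_le_sum hb).trans (le_of_eq ?_))
      rw [Finset.sum_const, nsmul_eq_mul]
    calc (B2.card : ℝ) * √(D.q : ℝ) ≤ D.Bd.card * (3 * D.n / (D.q : ℝ) ^ 2) * √(D.q : ℝ) :=
          mul_le_mul_of_nonneg_right hB hsq.le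
      _ = (D.Bd.card * √(D.q : ℝ)) * (3 * D.n / (D.q : ℝ) ^ 2) := by ring
      _ ≤ (D.q : ℝ) ^ 2 * (3 * D.n / (D.q : ℝ) ^ 2) :=
          mul_le_mul_of_nonneg_right h.bdc (by positivity)
      _ = 3 * D.n := by field_simp
  have hc3 : (B3.card : ℝ) * √(D.q : ℝ) ≤ D.n := by
    refine cnt_lem D.n D.q hq0 hqn D.It (It_card h) (fun m d => D.pure m ∧
      ¬ noQ D.q (D.hi m) ((D.anc m : ℤ) : ZMod (D.q ^ 2)) (D.cls (D.nb1 m)) (D.cls (D.nb2 m))
        ((d : ℤ) : ZMod (D.q ^ 2))) ?_ B3 ?_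
    · intro m hm
      obtain ⟨g1, g2, g3⟩ := h.gen m hm
      obtain ⟨F, hF, hF2⟩ := noQ_few h.q_prime h.q_big (D.hi m)
        ((D.anc m : ℤ) : ZMod (D.q ^ 2)) (D.cls (D.nb1 m)) (D.cls (D.nb2 m)) g1 g2 g3
      refine ⟨F, hF, fun d hd => ?_⟩
      by_contra hc
      rw [← red_int] at hc
      exact hd.2 (hF2 _ hc)
    · intro d hd
      rw [hB3, Finset.mem_filter, Finset.mem_Icc] at hd
      refine ⟨hd.1.1, hd.1.2, ?_⟩
      exact hd.2
  have hc4 : (B4.card : ℝ) * √(D.q : ℝ) ≤ D.n := by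
    have hIR : (D.IR.card : ℝ) ≤ 2 * D.n := by
      refine le_trans ?_ (It_card h)
      exact_mod_cast Finset.card_le_card h.IR_sub
    refine cnt_lem D.n D.q hq0 hqn D.IR hIR (fun m d =>
      ¬ noU D.q ((D.anc m : ℤ) : ZMod (D.q ^ 2)) (D.cls (D.nb1 m)) (D.cls (D.nb2 m))
        ((d : ℤ) : ZMod (D.q ^ 2)) ∨
      ¬ noI D.q ((D.anc m : ℤ) : ZMod (D.q ^ 2)) (D.cls (D.nb1 m)) (D.cls (D.nb2 m))
        ((d : ℤ) : ZMod (D.q ^ 2))) ?_ B4 ?_
    · intro m hm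
      obtain ⟨g1, g2, g3⟩ := h.gen m (h.IR_sub hm)
      obtain ⟨F, hF, hF2⟩ := noU_few h.q_prime h.q_big
        ((D.anc m : ℤ) : ZMod (D.q ^ 2)) (D.cls (D.nb1 m)) (D.cls (D.nb2 m)) g1 g2 g3
      obtain ⟨G, hG, hG2⟩ := noI_few h.q_prime h.q_big
        ((D.anc m : ℤ) : ZMod (D.q ^ 2)) (D.cls (D.nb1 m)) (D.cls (D.nb2 m)) g1 g2 g3
      refine ⟨F ∪ G, (Finset.card_union_le _ _).trans (by omega), fun d hd => ?_⟩
      by_contra hc
      rw [← red_int, Finset.mem_union, not_or] at hc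
      rcases hd with hd | hd
      · exact hd (hF2 _ hc.1)
      · exact hd (hG2 _ hc.2)
    · intro d hd
      rw [hB4, Finset.mem_filter, Finset.mem_Icc] at hd
      refine ⟨hd.1.1, hd.1.2, ?_⟩
      exact hd.2
  have hcard : (D.Ddef.card : ℝ) ≤ B1.card + (B2.card + (B3.card + B4.card)) := by
    have hc := Finset.card_le_card hsub
    have u1 := Finset.card_union_le B1 (B2 ∪ (B3 ∪ B4))
    have u2 := Finset.card_union_le B2 (B3 ∪ B4)
    have u3 := Finset.card_union_le B3 B4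
    have hN : D.Ddef.card ≤ B1.card + (B2.card + (B3.card + B4.card)) := by omega
    exact_mod_cast hN
  calc (D.Ddef.card : ℝ) * √(D.q : ℝ) ≤
        ((B1.card : ℝ) + (B2.card + (B3.card + B4.card))) * √(D.q : ℝ) :=
        mul_le_mul_of_nonneg_right hcard hsq.le
    _ = (B1.card : ℝ) * √(D.q : ℝ) + (B2.card * √(D.q : ℝ) + (B3.card * √(D.q : ℝ) +
        B4.card * √(D.q : ℝ))) := by ring
    _ ≤ 2 * D.n + (3 * D.n + (D.n + D.n)) := by
        have : (B1.card : ℝ) * √(D.q : ℝ) ≤ 2 * D.n := by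
          calc (B1.card : ℝ) * √(D.q : ℝ) ≤ 2 * √(D.q : ℝ) :=
                mul_le_mul_of_nonneg_right hc1 hsq.le
            _ ≤ 2 * D.n := by linarith
        linarith
    _ ≤ 10 * D.n := by linarith

end Dat

end Pool.Agent.PGr
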