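import Mathlib
import Pool.Agent.PGr.EBas
import Pool.Agent.PGr.PrProd

/-!
# PGr, module EPr: the probabilities `pL`, `pD` (section 2, RANDOMNESS)

Always `h : D.Reg κ c`. `Q = q^2`, `T = 2 S = card (ZMod (2 S))`.

PLAN.
* `pL_formula`: `unL x ∉ Res`. By `occ_iff` and `sh θ u = θ u` for `u ∉ Res`:
  `¬ occ θ x ↔ θ u ∉ B`, `u = unL x`, `B = {t | ∃ v ∈ Sv, un v = u ∧ Y v t = x}`; the probability of
  `θ u ∈ B` for uniform `θ` is `|B| / (2S)` (PrProd: `Ex_pi_prod` or `Pr_pi_forall` with the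
  one-element set `{u}`, `Pr_mem`). The sets `{t | Y v t = x}`, `v ∈ Sv`, `un v = u`, have
  exactly one element if `x` is in the window: `Y v` is injective (`h.Y_inj`) from a type with `2S`
  elements into `{y : B0 <= y < B0 + 2SQ, y ≡ lam u mod Q}`, which has exactly `2S` elements (the
  residue class meets every block of Q consecutive integers once; use `B0 ∣ Q`... or the bijection
  `s ↦ B0 + (lam u - B0 mod Q) + Q s`), so it is surjective, and `x` is in the target since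
  `(x : ZMod Q) = lam (lamI x) = lam u` (Alg.lam_lamI). They are disjoint for different v
  (`h.Y_ne`). So `|B| = #{v ∈ Sv | un v = u}`.
* `pL_out`: outside of the window nothing is occupied (`occ_window`).
* `pD_formula`: the same for `|Y v t - anc v| = d`: for `hi v` it means `Y v t = anc v - d`, otherwise
  `Y v t = anc v + d` (`h.sp_hi`, `h.sp_lo`, `d >= 1`); there is exactly one such `t` if
  this number is in the window and `un v = unD d` (its class is `lam (un v)`: for `hi v`, for any t0: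
  `(anc v - Y v t0 : ZMod Q) = del (un v)` by `h.sp_res`, `(d : ZMod Q) = del (unD d)`, so
  `anc v - d ≡ Y v t0 ≡ lam (un v)`), none otherwise; disjoint by `h.sp_ne`.
* bounds: `h.svc`: at most `(1+κ) S` vertices per unit, so `pL >= 1 - (1+κ)/2`.
-/

noncomputable section

namespace Pool.Agent.PGr

open Finset

namespace Dat

variable {D : Dat} {κ c : ℝ}

private theorem Pr_coord (u : ZMod (D.q ^ 2)) (B : Finset (ZMod (2 * D.S))) :
    Pr (fun θ : D.Om => θ u ∈ B) = (B.card : ℝ) / (2 * D.S) := by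
  classical
  have h1 := Pr_pi_forall (Ω := ZMod (2 * D.S)) ({u} : Finset (ZMod (D.q ^ 2)))
    (fun _ t => t ∈ B)
  rw [prod_singleton, Pr_mem, ZMod.card] at h1
  simp only [mem_singleton, forall_eq] at h1
  rw [h1]
  push_cast
  rfl

open Classical in
private theorem key (u : ZMod (D.q ^ 2)) (P : ℕ → ZMod (2 * D.S) → Prop) (C : ℕ → Prop)
    (hdisj : ∀ v ∈ D.Sv, ∀ v' ∈ D.Sv, D.un v = u → D.un v' = u → v ≠ v' → ∀ t, P v t → ¬ P v' t)
    (hone : ∀ v ∈ D.Sv, D.un v = u → C v → ∃ t, ∀ s, P v s ↔ s = t)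
    (hnone : ∀ v ∈ D.Sv, D.un v = u → ¬ C v → ∀ t, ¬ P v t) :
    Pr (fun θ : D.Om => ∃ v ∈ D.Sv, D.un v = u ∧ P v (θ u)) =
      ((D.Sv.filter (fun v => D.un v = u ∧ C v)).card : ℝ) / (2 * D.S) := by
  have h1 : (fun θ : D.Om => ∃ v ∈ D.Sv, D.un v = u ∧ P v (θ u)) =
      fun θ : D.Om => θ u ∈ (univ.filter (fun t => ∃ v ∈ D.Sv, D.un v = u ∧ P v t) :
        Finset (ZMod (2 * D.S))) := by
    funext θ
    simp only [mem_filter, mem_univ, true_and]
  rw [h1, Pr_coord]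
  congr 2
  symm
  refine Finset.card_bij (fun v hv => (hone v (mem_filter.1 hv).1 (mem_filter.1 hv).2.1
    (mem_filter.1 hv).2.2).choose) ?_ ?_ ?_
  · intro v hv
    have h2 := (hone v (mem_filter.1 hv).1 (mem_filter.1 hv).2.1 (mem_filter.1 hv).2.2).choose_spec
    rw [mem_filter]
    exact ⟨mem_univ _, v, (mem_filter.1 hv).1, (mem_filter.1 hv).2.1, (h2 _).2 rfl⟩
  · intro v hv v' hv' e
    by_contra hne
    have h2 := (hone v (mem_filter.1 hv).1 (mem_filter.1 hv).2.1 (mem_filter.1 hv).2.2).choose_spec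
    have h3 := (hone v' (mem_filter.1 hv').1 (mem_filter.1 hv').2.1
      (mem_filter.1 hv').2.2).choose_spec
    refine hdisj v (mem_filter.1 hv).1 v' (mem_filter.1 hv').1 (mem_filter.1 hv).2.1
      (mem_filter.1 hv').2.1 hne _ ((h2 _).2 rfl) ?_
    exact (h3 _).2 e
  · intro t ht
    obtain ⟨-, v, hv, hu, hP⟩ := mem_filter.1 ht
    have hC : C v := by
      by_contra hC
      exact hnone v hv hu hC t hP
    refine ⟨v, mem_filter.2 ⟨hv, hu, hC⟩, ?_⟩
    have h2 := (hone v hv hu hC).choose_spec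
    exact ((h2 t).1 hP).symm

private theorem Y_surj (h : D.Reg κ c) {v : ℕ} (hv : v ∈ D.Sv) {x : ℤ}
    (hx : ((x : ℤ) : ZMod (D.q ^ 2)) = lam D.q (D.un v))
    (hw : (D.B0 : ℤ) ≤ x ∧ x < D.B0 + 2 * D.S * D.q ^ 2) : ∃ t, D.Y v t = x := by
  classical
  have hq0 : 0 < D.q := h.q_prime.pos
  have hQ : (0 : ℤ) < (D.q : ℤ) ^ 2 := by positivity
  obtain ⟨W, hW⟩ : ∃ W : Finset ℤ, W = (Finset.Ico (D.B0 : ℤ) (D.B0 + 2 * D.S * D.q ^ 2)).filter
    (fun y : ℤ => ((y : ℤ) : ZMod (D.q ^ 2)) = lam D.q (D.un v)) := ⟨_, rfl⟩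
  have hWc : W.card ≤ (range (2 * D.S)).card := by
    refine Finset.card_le_card_of_injOn (fun y => ((y - D.B0) / (D.q : ℤ) ^ 2).toNat) ?_ ?_
    · intro y hy
      rw [hW] at hy
      have hy1 := Finset.mem_Ico.1 (mem_filter.1 (Finset.mem_coe.1 hy)).1
      have h0 : 0 ≤ (y - D.B0) / (D.q : ℤ) ^ 2 := Int.ediv_nonneg (by linarith) hQ.le
      have h1 : (y - D.B0) / (D.q : ℤ) ^ 2 < 2 * D.S := by
        apply Int.ediv_lt_of_lt_mul hQ
        linarith [hy1.2]
      simp only [Finset.coe_range, Set.mem_Iio]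
      zify
      rw [Int.toNat_of_nonneg h0]
      exact h1
    · intro y hy y' hy' e
      rw [hW] at hy hy'
      have hy1 := Finset.mem_Ico.1 (mem_filter.1 (Finset.mem_coe.1 hy)).1
      have hy1' := Finset.mem_Ico.1 (mem_filter.1 (Finset.mem_coe.1 hy')).1
      have hy2 := (mem_filter.1 (Finset.mem_coe.1 hy)).2
      have hy2' := (mem_filter.1 (Finset.mem_coe.1 hy')).2
      have h0 : 0 ≤ (y - D.B0) / (D.q : ℤ) ^ 2 := Int.ediv_nonneg (by linarith) hQ.le
      have h0' : 0 ≤ (y' - D.B0) / (D.q : ℤ) ^ 2 := Int.ediv_nonneg (by linarith) hQ.le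
      have e1 : (y - D.B0) / (D.q : ℤ) ^ 2 = (y' - D.B0) / (D.q : ℤ) ^ 2 := by
        have e2 : (((y - D.B0) / (D.q : ℤ) ^ 2).toNat : ℤ) =
            (((y' - D.B0) / (D.q : ℤ) ^ 2).toNat : ℤ) := by
          exact_mod_cast e
        rwa [Int.toNat_of_nonneg h0, Int.toNat_of_nonneg h0'] at e2
      have e3 : (((y - D.B0 : ℤ)) : ZMod (D.q ^ 2)) = ((y' - D.B0 : ℤ) : ZMod (D.q ^ 2)) := by
        push_cast
        rw [hy2, hy2']
      have e4 := (ZMod.intCast_eq_intCast_iff' _ _ _).1 e3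
      push_cast at e4
      have e5 := Int.mul_ediv_add_emod (y - D.B0) ((D.q : ℤ) ^ 2)
      have e6 := Int.mul_ediv_add_emod (y' - D.B0) ((D.q : ℤ) ^ 2)
      rw [e1, e4, e6] at e5
      linarith
  have hsub : (univ.image (D.Y v)) ⊆ W := by
    intro y hy
    obtain ⟨t, -, rfl⟩ := mem_image.1 hy
    rw [hW, mem_filter, Finset.mem_Ico]
    exact ⟨h.Y_mem v hv t, h.Y_res v hv t⟩
  have hcard : (univ.image (D.Y v)).card = 2 * D.S := by
    rw [Finset.card_image_of_injective _ (h.Y_inj v hv), card_univ, ZMod.card]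
  have heq : univ.image (D.Y v) = W := by
    apply Finset.eq_of_subset_of_card_le hsub
    rw [hcard]
    rw [card_range] at hWc
    exact hWc
  have hxW : x ∈ univ.image (D.Y v) := by
    rw [heq, hW, mem_filter, Finset.mem_Ico]
    exact ⟨hw, hx⟩
  obtain ⟨t, -, ht⟩ := mem_image.1 hxW
  exact ⟨t, ht⟩

private theorem three_lt (h : D.Reg κ c) : 3 < D.q := lt_trans (by norm_num) h.q_big

private theorem n_pos (h : D.Reg κ c) : (0 : ℝ) < D.n := by
  have h1 : 0 < D.q ^ 6 := pow_pos h.q_prime.pos 6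
  have h2 := h.q_high
  have h3 : 0 < D.n := lt_of_lt_of_le h1 h2
  exact_mod_cast h3

private theorem S_pos : (0 : ℝ) < D.S := by
  have h1 : 0 < D.S := Nat.pos_of_ne_zero (NeZero.ne D.S)
  exact_mod_cast h1

private theorem kap_ge (h : D.Reg κ c) : -1 ≤ κ := by
  have h1 := h.svc 0
  have h2 : (0 : ℝ) ≤ (1 + κ) * D.S := le_trans (Nat.cast_nonneg _) h1
  by_contra h3
  push Not at h3
  have h4 : (1 + κ) * (D.S : ℝ) < 0 := mul_neg_of_neg_of_pos (by linarith) S_pos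
  linarith

open Classical in
theorem pL_formula (h : D.Reg κ c) {x : ℤ} (hx : unL D.q x ∉ D.Res)
    (hw : (D.B0 : ℤ) ≤ x ∧ x < D.B0 + 2 * D.S * D.q ^ 2) :
    D.pL x = 1 - ((D.Sv.filter (fun v => D.un v = unL D.q x)).card : ℝ) / (2 * D.S) := by
  have hq3 := three_lt h
  obtain ⟨u, hu⟩ : ∃ u, u = unL D.q x := ⟨_, rfl⟩
  have hlam : ((x : ℤ) : ZMod (D.q ^ 2)) = lam D.q u := by
    rw [hu]
    unfold unL
    rw [lam_lamI h.q_prime hq3]
  have h1 : (fun θ : D.Om => D.occ θ x) =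
      fun θ : D.Om => ∃ v ∈ D.Sv, D.un v = u ∧ (D.Y v (θ u) = x) := by
    funext θ
    rw [eq_iff_iff, D.occ_iff h, ← hu]
    have h2 : D.sh θ u = θ u := if_neg (by rw [hu]; exact hx)
    rw [h2]
  have h3 := key (D := D) u (fun v t => D.Y v t = x) (fun _ => True) ?_ ?_ ?_
  · unfold pL
    rw [Pr_not, h1, h3, ← hu]
    simp only [and_true]
  · intro v hv v' hv' e e' hne t ht ht'
    exact h.Y_ne v hv v' hv' (e.trans e'.symm) hne t (ht.trans ht'.symm)
  · intro v hv e _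
    obtain ⟨t, ht⟩ := Y_surj h hv (x := x) (by rw [e]; exact hlam) hw
    refine ⟨t, fun s => ⟨fun hs => h.Y_inj v hv (hs.trans ht.symm), ?_⟩⟩
    rintro rfl
    exact ht
  · intro v hv e hn
    exact absurd trivial hn

theorem pL_out (h : D.Reg κ c) {x : ℤ}
    (hw : ¬ ((D.B0 : ℤ) ≤ x ∧ x < D.B0 + 2 * D.S * D.q ^ 2)) : D.pL x = 1 := by
  unfold pL
  have h1 : (fun θ : D.Om => ¬ D.occ θ x) = fun _ => True := by
    funext θ
    rw [eq_iff_iff]
    exact ⟨fun _ => trivial, fun _ ho => hw (D.occ_window h θ ho)⟩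
  rw [h1]
  unfold Pr
  simp only [if_true]
  exact Ex_const 1

open Classical in
theorem pD_formula (h : D.Reg κ c) {d : ℤ} (hd : unD D.q d ∉ D.Res) (hd1 : 1 ≤ d) :
    D.pD d = 1 - ((D.Sv.filter (fun v => D.un v = unD D.q d ∧
      ((D.hi v = true ∧ (D.B0 : ℤ) ≤ D.anc v - d ∧ D.anc v - d < D.B0 + 2 * D.S * D.q ^ 2) ∨
       (D.hi v = false ∧ (D.B0 : ℤ) ≤ D.anc v + d ∧
         D.anc v + d < D.B0 + 2 * D.S * D.q ^ 2)))).card : ℝ) / (2 * D.S) := by
  obtain ⟨u, hu⟩ : ∃ u, u = unD D.q d := ⟨_, rfl⟩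
  have hdel : ((d : ℤ) : ZMod (D.q ^ 2)) = del D.q u := by
    rw [hu]
    unfold unD
    rw [del_delI]
  have h1 : (fun θ : D.Om => D.used θ d) =
      fun θ : D.Om => ∃ v ∈ D.Sv, D.un v = u ∧ (|D.Y v (θ u) - D.anc v| = d) := by
    funext θ
    rw [eq_iff_iff, D.used_iff h, ← hu]
    have h2 : D.sh θ u = θ u := if_neg (by rw [hu]; exact hd)
    rw [h2]
  have hHi : ∀ v ∈ D.Sv, D.hi v = true → ∀ t, |D.Y v t - D.anc v| = d ↔ D.Y v t = D.anc v - d := by
    intro v hv hh t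
    have h2 := h.sp_hi v hv hh t
    rw [abs_of_neg (by linarith)]
    constructor <;> intro h3 <;> linarith
  have hLo : ∀ v ∈ D.Sv, D.hi v = false → ∀ t, |D.Y v t - D.anc v| = d ↔
      D.Y v t = D.anc v + d := by
    intro v hv hh t
    have h2 := h.sp_lo v hv hh t
    rw [abs_of_pos (by linarith)]
    constructor <;> intro h3 <;> linarith
  have h3 := key (D := D) u (fun v t => |D.Y v t - D.anc v| = d) (fun v =>
      ((D.hi v = true ∧ (D.B0 : ℤ) ≤ D.anc v - d ∧ D.anc v - d < D.B0 + 2 * D.S * D.q ^ 2) ∨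
       (D.hi v = false ∧ (D.B0 : ℤ) ≤ D.anc v + d ∧
         D.anc v + d < D.B0 + 2 * D.S * D.q ^ 2))) ?_ ?_ ?_
  · unfold pD
    rw [Pr_not, h1, h3, ← hu]
    refine congrArg (fun r : ℕ => 1 - (r : ℝ) / (2 * D.S)) (congrArg Finset.card ?_)
    ext v
    simp only [mem_filter]
  · intro v hv v' hv' e e' hne t ht ht'
    exact h.sp_ne v hv v' hv' (e.trans e'.symm) hne t (ht.trans ht'.symm)
  · rintro v hv e (⟨hh, hw⟩ | ⟨hh, hw⟩)
    · have h4 := h.sp_res v hv 0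
      have h5 := h.Y_res v hv 0
      rw [abs_of_neg (by linarith [h.sp_hi v hv hh 0])] at h4
      push_cast at h4
      rw [h5] at h4
      obtain ⟨t, ht⟩ := Y_surj h hv (x := D.anc v - d) (by
        push_cast
        rw [hdel, ← e]
        linear_combination h4) hw
      refine ⟨t, fun s => ?_⟩
      show |D.Y v s - D.anc v| = d ↔ s = t
      rw [hHi v hv hh s]
      constructor
      · intro hs
        exact h.Y_inj v hv (hs.trans ht.symm)
      · rintro rfl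
        exact ht
    · have h4 := h.sp_res v hv 0
      have h5 := h.Y_res v hv 0
      rw [abs_of_pos (by linarith [h.sp_lo v hv hh 0])] at h4
      push_cast at h4
      rw [h5] at h4
      obtain ⟨t, ht⟩ := Y_surj h hv (x := D.anc v + d) (by
        push_cast
        rw [hdel, ← e]
        linear_combination - h4) hw
      refine ⟨t, fun s => ?_⟩
      show |D.Y v s - D.anc v| = d ↔ s = t
      rw [hLo v hv hh s]
      constructor
      · intro hs
        exact h.Y_inj v hv (hs.trans ht.symm)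
      · rintro rfl
        exact ht
  · intro v hv e hn t ht
    apply hn
    cases hh : D.hi v with
    | true =>
      left
      have h4 := (hHi v hv hh t).1 ht
      have h5 := h.Y_mem v hv t
      rw [h4] at h5
      exact ⟨rfl, h5⟩
    | false =>
      right
      have h4 := (hLo v hv hh t).1 ht
      have h5 := h.Y_mem v hv t
      rw [h4] at h5
      exact ⟨rfl, h5⟩

theorem pL_le_one (x : ℤ) : D.pL x ≤ 1 := by
  exact Pr_le_one _

theorem pD_le_one (d : ℤ) : D.pD d ≤ 1 := by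
  exact Pr_le_one _

theorem pL_ge (h : D.Reg κ c) (hκ : κ ≤ 1 / 4) {x : ℤ} (hx : unL D.q x ∉ D.Res) :
    (1 - κ) / 2 ≤ D.pL x := by
  by_cases hw : (D.B0 : ℤ) ≤ x ∧ x < D.B0 + 2 * D.S * D.q ^ 2
  · rw [pL_formula h hx hw]
    have h1 := h.svc (unL D.q x)
    have hS := S_pos (D := D)
    have h2 : ((D.Sv.filter (fun v => D.un v = unL D.q x)).card : ℝ) / (2 * D.S) ≤ (1 + κ) / 2 := by
      rw [div_le_div_iff₀ (by linarith) (by norm_num)]
      nlinarith
    linarith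
  · rw [pL_out h hw]
    linarith [kap_ge h]

theorem pD_ge (h : D.Reg κ c) (hκ : κ ≤ 1 / 4) {d : ℤ} (hd : unD D.q d ∉ D.Res) (hd1 : 1 ≤ d) :
    (1 - κ) / 2 ≤ D.pD d := by
  rw [pD_formula h hd hd1]
  have h1 := h.svc (unD D.q d)
  have hS := S_pos (D := D)
  have h3 : ((D.Sv.filter (fun v => D.un v = unD D.q d ∧
      ((D.hi v = true ∧ (D.B0 : ℤ) ≤ D.anc v - d ∧ D.anc v - d < D.B0 + 2 * D.S * D.q ^ 2) ∨
       (D.hi v = false ∧ (D.B0 : ℤ) ≤ D.anc v + d ∧
         D.anc v + d < D.B0 + 2 * D.S * D.q ^ 2)))).card : ℝ) ≤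
      ((D.Sv.filter (fun v => D.un v = unD D.q d)).card : ℝ) := by
    exact_mod_cast Finset.card_le_card (fun v hv => by
      rw [mem_filter] at hv ⊢
      exact ⟨hv.1, hv.2.1⟩)
  have h2 : ((D.Sv.filter (fun v => D.un v = unD D.q d ∧
      ((D.hi v = true ∧ (D.B0 : ℤ) ≤ D.anc v - d ∧ D.anc v - d < D.B0 + 2 * D.S * D.q ^ 2) ∨
       (D.hi v = false ∧ (D.B0 : ℤ) ≤ D.anc v + d ∧
         D.anc v + d < D.B0 + 2 * D.S * D.q ^ 2)))).card : ℝ) / (2 * D.S) ≤ (1 + κ) / 2 := by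
    rw [div_le_div_iff₀ (by linarith) (by norm_num)]
    nlinarith
  linarith

theorem ff_range (t : ℝ) : 1 / 2 ≤ PGrK.ff t ∧ PGrK.ff t ≤ 1 := by
  have h1 : 0 ≤ PGrK.trap t ∧ PGrK.trap t ≤ 1 := by
    unfold PGrK.trap
    split_ifs <;> constructor <;> linarith
  unfold PGrK.ff
  constructor <;> linarith [h1.1, h1.2]

/-- bounds for the normalising probability of an available difference -/
theorem psD_range (h : D.Reg κ c) (hκ : κ ≤ 1 / 4) {e : ℝ} (he : 0 ≤ e) (he1 : e ≤ 1 / 10) {d : ℤ}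
    (hd : d ∈ D.D0) : 3 / 8 ≤ D.psD e d ∧ D.psD e d ≤ 11 / 10 := by
  have hd1 := (h.D0_sub d hd).1
  have h1 : 3 / 8 ≤ (if unD D.q d ∈ D.Res then PGrK.ff ((d : ℝ) / D.n) else D.pD d) ∧
      (if unD D.q d ∈ D.Res then PGrK.ff ((d : ℝ) / D.n) else D.pD d) ≤ 1 := by
    split_ifs with hr
    · have h2 := ff_range ((d : ℝ) / D.n)
      constructor <;> linarith [h2.1, h2.2]
    · have h2 := pD_ge h hκ hr hd1
      exact ⟨by linarith, pD_le_one d⟩
  have h2 : 1 ≤ (if d ∈ D.Ddef then 1 + e else 1) ∧ (if d ∈ D.Ddef then 1 + e else 1) ≤ 11 / 10 := by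
    split_ifs <;> constructor <;> linarith
  unfold psD
  obtain ⟨h11, h12⟩ := h1
  obtain ⟨h21, h22⟩ := h2
  constructor
  · nlinarith
  · nlinarith

private theorem kerI_bd (b : Bool) (a y1 y2 x : ℤ) :
    0 ≤ D.kerI b a y1 y2 x ∧ D.kerI b a y1 y2 x ≤ 77 / 10 := by
  unfold kerI
  apply PGrK.kern_bd
  split_ifs <;> norm_num

private theorem den_bd (h : D.Reg κ c) (hκ : κ ≤ 1 / 4) {e : ℝ} (he : 0 ≤ e) (he1 : e ≤ 1 / 10)
    (a y1 y2 x : ℤ) (hx : x ∈ D.Ze) (ha : |x - a| ∈ D.D0) (h1 : |x - y1| ∈ D.D0)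
    (h2 : |x - y2| ∈ D.D0) :
    D.n * (81 / 4096) ≤ D.n * D.pL x * D.psD e |x - a| * D.psD e |x - y1| * D.psD e |x - y2| ∧
    D.n * D.pL x * D.psD e |x - a| * D.psD e |x - y1| * D.psD e |x - y2| ≤ D.n * (1331 / 1000) := by
  have hn := n_pos h
  have hxr := (D.Ze_prop h hx).2.2.1
  have hp1 : 3 / 8 ≤ D.pL x := by linarith [pL_ge h hκ hxr]
  have hp2 := pL_le_one (D := D) x
  obtain ⟨a1, a2⟩ := psD_range h hκ he he1 ha
  obtain ⟨b1, b2⟩ := psD_range h hκ he he1 h1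
  obtain ⟨c1, c2⟩ := psD_range h hκ he he1 h2
  have e1 : D.n * D.pL x * D.psD e |x - a| * D.psD e |x - y1| * D.psD e |x - y2| =
      D.n * ((D.pL x * D.psD e |x - a|) * (D.psD e |x - y1| * D.psD e |x - y2|)) := by ring
  rw [e1]
  have f1 : (3 / 8) * (3 / 8) ≤ D.pL x * D.psD e |x - a| :=
    mul_le_mul hp1 a1 (by norm_num) (by linarith)
  have f2 : (3 / 8) * (3 / 8) ≤ D.psD e |x - y1| * D.psD e |x - y2| :=
    mul_le_mul b1 c1 (by norm_num) (by linarith)
  have f3 : D.pL x * D.psD e |x - a| ≤ 1 * (11 / 10) :=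
    mul_le_mul hp2 a2 (by linarith) (by norm_num)
  have f4 : D.psD e |x - y1| * D.psD e |x - y2| ≤ (11 / 10) * (11 / 10) :=
    mul_le_mul b2 c2 (by linarith) (by norm_num)
  constructor
  · apply mul_le_mul_of_nonneg_left _ hn.le
    have f5 := mul_le_mul f1 f2 (by norm_num) (by linarith)
    linarith
  · apply mul_le_mul_of_nonneg_left _ hn.le
    have f5 := mul_le_mul f3 f4 (by linarith) (by norm_num)
    linarith

/-- bounds for the weights -/
theorem wt_nonneg (h : D.Reg κ c) (hκ : κ ≤ 1 / 4) {e : ℝ} (he : 0 ≤ e) (he1 : e ≤ 1 / 10)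
    (b : Bool) (a y1 y2 x : ℤ) (hx : x ∈ D.Ze) (ha : |x - a| ∈ D.D0) (h1 : |x - y1| ∈ D.D0)
    (h2 : |x - y2| ∈ D.D0) : 0 ≤ D.wt e b a y1 y2 x := by
  have hn := n_pos h
  have h3 := (den_bd h hκ he he1 a y1 y2 x hx ha h1 h2).1
  unfold wt
  exact div_nonneg (kerI_bd b a y1 y2 x).1 (by linarith)

theorem wt_le (h : D.Reg κ c) (hκ : κ ≤ 1 / 4) {e : ℝ} (he : 0 ≤ e) (he1 : e ≤ 1 / 10)
    (b : Bool) (a y1 y2 x : ℤ) (hx : x ∈ D.Ze) (ha : |x - a| ∈ D.D0) (h1 : |x - y1| ∈ D.D0)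
    (h2 : |x - y2| ∈ D.D0) : D.wt e b a y1 y2 x ≤ 400 / D.n := by
  have hn := n_pos h
  have h3 := (den_bd h hκ he he1 a y1 y2 x hx ha h1 h2).1
  have h4 := (kerI_bd (D := D) b a y1 y2 x)
  unfold wt
  rw [div_le_div_iff₀ (by linarith) hn]
  nlinarith [h4.1, h4.2]

/-- lower bound of the weights of edges (kernel at least `1/50`) -/
theorem wt_ge (h : D.Reg κ c) (hκ : κ ≤ 1 / 4) {e : ℝ} (he : 0 ≤ e) (he1 : e ≤ 1 / 10)
    (b : Bool) (a y1 y2 x : ℤ) (hx : x ∈ D.Ze) (hA : 5 / 2 ≤ D.nX b a ∧ D.nX b a ≤ 3)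
    (ha : |x - a| ∈ D.D0) (ha2 : |x - a| ≤ 2 * D.n) (h1 : |x - y1| ∈ D.D0)
    (h2 : |x - y2| ∈ D.D0) : 1 / (75 * D.n) ≤ D.wt e b a y1 y2 x := by
  have hn := n_pos h
  obtain ⟨h3, h5⟩ := (den_bd h hκ he he1 a y1 y2 x hx ha h1 h2)
  obtain ⟨hx1, hx2, -, -⟩ := D.Ze_prop h hx
  have hx1' : (D.n : ℝ) < 2 * (x : ℝ) := by exact_mod_cast hx1
  have hx2' : 2 * (x : ℝ) < 5 * (D.n : ℝ) := by exact_mod_cast hx2
  have ha3 : |(x : ℝ) - (a : ℝ)| ≤ 2 * (D.n : ℝ) := by exact_mod_cast ha2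
  have ha4 := abs_le.1 ha3
  have h6 : 1 / 50 ≤ D.kerI b a y1 y2 x := by
    unfold kerI
    apply PGrK.kern_lo _ hA.1 hA.2
    · cases b with
      | true =>
        simp only [nX, if_true]
        rw [← sub_div, div_le_iff₀ hn]
        linarith [ha4.1]
      | false =>
        simp only [nX, Bool.false_eq_true, if_false]
        have e1 : 3 - (a : ℝ) / D.n - (3 - (x : ℝ) / D.n) = ((x : ℝ) - a) / D.n := by ring
        rw [e1, div_le_iff₀ hn]
        linarith [ha4.2]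
    · cases b with
      | true =>
        simp only [nX, if_true]
        rw [div_lt_iff₀ hn]
        linarith
      | false =>
        simp only [nX, Bool.false_eq_true, if_false]
        have e1 : 1 / 2 < (x : ℝ) / D.n := by
          rw [lt_div_iff₀ hn]
          linarith
        linarith
    · split_ifs <;> norm_num
  unfold wt
  rw [div_le_div_iff₀ (by linarith) (by linarith)]
  nlinarith

end Dat

end Pool.Agent.PGr
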