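import Mathlib
import Pool.Agent.PGr.CDefs
import Pool.Agent.PGr.CSum
import Pool.Agent.PGr.EPr
import Pool.Agent.PGr.EDc

/-!
# PGr, module CDeg: concentration of `degD`

Always `h : D.Reg κ c`, `κ ≤ 1/4`, `0 ≤ e ≤ 1/10`, `hs`: the factors `sig` of generic triples are at
least 1/2. `Q = q^2`.

PLAN.
`wn_bd`: if `edgD θ d a y1 y2 x` (or `edgX`) holds for the item `m` (`a = anc m`, `y1 = yy1 θ m`,
`y2 = yy2 θ m`), then `0 ≤ wn e θ m x ≤ 800 / n`: EPr.wt_nonneg, wt_le, EBas.gen3_item and `hs`.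
`degD_bd`: for fixed `m` at most six `x` satisfy `hasD` (x = a ± d, y1 ± d, y2 ± d), and `|It| ≤ 2n`
(EDc.It_card): `0 ≤ degD ≤ 9600`.
`degD_conc`: apply `CSum.conc_sum` with `A = It`,
`g m θ = ∑ x ∈ Ze, if edgD .. ∧ hasD .. then wn else 0` (so `|g| ≤ B = 4800/n`), and
`U m` = the finite set of the units (a = class of `anc m`, c1 = `cls (nb1 m)`, c2 = `cls (nb2 m)`, d its
class, s, e1 ∈ {1,-1}; all classes in `ZMod Q`)
  `lamI c1, lamI c2, lamI (a + s d), delI (e1 (a + s d - c1)), delI (e1 (a + s d - c2)),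
   lamI (c1 + s d), delI (e1 (c1 + s d - a)), delI (e1 (c1 + s d - c2)),
   lamI (c2 + s d), delI (e1 (c2 + s d - a)), delI (e1 (c2 + s d - c1))`:
at most `2 + 3 * (2 + 4 + 4) = 32 ≤ 34 = h` elements.
DEPENDENCE: if `θ, θ'` agree on `U m`, then the labels `yy1, yy2` agree (EBas.lab_congr: for `nb ∈ Sv`
its unit is `lamI (cls nb)` by EBas.lamI_cls; for `nb ∉ Sv` the label is constant), hence `sig`, `wt`
agree; for an `x` with `hasD`: x = a + s d or y1 + s d or y2 + s d as integers, the class of x is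
`a + s d`, `c1 + s d`, `c2 + s d` (EBas.cls_lab), so `occ θ x ↔ occ θ' x` (EBas.occ_congr,
`unL x = lamI (class)`); for a difference `|x - y|` different from `d`, its class is
`e1 * (class of x - class of y)` with a sign, and it is one of the listed forms (the only pairs (x,y)
not listed are those with `|x - y| = d`, where `edgD` does not ask for `used`): EBas.used_congr.
INFLUENCE: for a unit `u`, `u ∈ U m` means one of 32 equations, each fixing one of the combinations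
`cmb j m`, `j ∈ {0, 1, 2, 5, 6, 7}`: `lamI c1 = u ↔ c1 = lam u` (Alg.lam_lamI / lamI_lam) (j = 1),
`lamI (a + s d) = u ↔ a = lam u - s d` (j = 0), `delI (e1 (a + s d - c1)) = u ↔ a - c1 = e1 * del u - s d`
(e1 * e1 = 1, Alg.del_delI) (j = 5), .. a - c2 (j = 6), c1 - c2 (j = 7), c2 (j = 2). By `h.inf` each
has at most `n/√q` solutions `m ∈ It`: `M = 34 n / √q`.
With `N = 2n`: `8 B^2 M h N = 8 * 4800^2 * 34 * 34 * 2 / √q ≤ 10^12 / √q`, so the bound of
`conc_sum` is at most `cbd t`.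
-/

noncomputable section

namespace Pool.Agent.PGr

open Finset

namespace Dat

variable {D : Dat} {κ c : ℝ}

private theorem n_pos' (h : D.Reg κ c) : (0 : ℝ) < D.n := by
  have h1 : 0 < D.q ^ 6 := pow_pos h.q_prime.pos 6
  have h3 : 0 < D.n := lt_of_lt_of_le h1 h.q_high
  exact_mod_cast h3

theorem wn_bd (h : D.Reg κ c) (hκ : κ ≤ 1 / 4) {e : ℝ} (he : 0 ≤ e) (he1 : e ≤ 1 / 10)
    (hs : ∀ (b : Bool) (a y1 y2 : ℤ), D.gen3 b a y1 y2 → 1 / 2 ≤ D.sig e b a y1 y2)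
    (θ : D.Om) {m : ℕ} (hm : m ∈ D.It) {x : ℤ} (hx : x ∈ D.Ze) (ha : |x - D.anc m| ∈ D.D0)
    (h1 : |x - D.yy1 θ m| ∈ D.D0) (h2 : |x - D.yy2 θ m| ∈ D.D0) :
    0 ≤ D.wn e θ m x ∧ D.wn e θ m x ≤ 800 / D.n := by
  have hn := n_pos' h
  have hg := hs _ _ _ _ (gen3_item h θ hm)
  have hw0 := wt_nonneg h hκ he he1 (D.hi m) (D.anc m) (D.yy1 θ m) (D.yy2 θ m) x hx ha h1 h2
  have hw1 := wt_le h hκ he he1 (D.hi m) (D.anc m) (D.yy1 θ m) (D.yy2 θ m) x hx ha h1 h2
  unfold wn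
  have hsp : 0 < D.sig e (D.hi m) (D.anc m) (D.yy1 θ m) (D.yy2 θ m) := by linarith
  refine ⟨div_nonneg hw0 hsp.le, ?_⟩
  rw [div_le_iff₀ hsp]
  have h8 : (800 : ℝ) / D.n = 2 * (400 / D.n) := by ring
  rw [h8]
  have hp : 0 ≤ 400 / (D.n : ℝ) := by positivity
  nlinarith

open Classical in
/-- the term of the item `m` -/
private def gm (D : Dat) (e : ℝ) (d : ℤ) (m : ℕ) (θ : D.Om) : ℝ :=
  ∑ x ∈ D.Ze, if D.edgD θ d (D.anc m) (D.yy1 θ m) (D.yy2 θ m) x ∧
    hasD (D.anc m) (D.yy1 θ m) (D.yy2 θ m) x d then D.wn e θ m x else 0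

private theorem degD_eq (e : ℝ) (d : ℤ) (θ : D.Om) :
    D.degD e θ d = ∑ m ∈ D.It, gm D e d m θ := rfl

open Classical in
private theorem six (a y1 y2 d : ℤ) (Z : Finset ℤ) :
    (Z.filter (fun x => hasD a y1 y2 x d)).card ≤ 6 := by
  have hsub : Z.filter (fun x => hasD a y1 y2 x d) ⊆
      {a + d, a - d, y1 + d, y1 - d, y2 + d, y2 - d} := by
    intro x hx
    rw [mem_filter] at hx
    have key : ∀ z : ℤ, |x - z| = d → x = z + d ∨ x = z - d := by
      intro z hz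
      rcases abs_choice (x - z) with h1 | h1 <;> rw [h1] at hz
      · left; linarith
      · right; linarith
    simp only [mem_insert, mem_singleton]
    rcases hx.2 with h1 | h1 | h1
    · rcases key _ h1 with h2 | h2 <;> tauto
    · rcases key _ h1 with h2 | h2 <;> tauto
    · rcases key _ h1 with h2 | h2 <;> tauto
  exact (card_le_card hsub).trans card_le_six

private theorem gm_bd (h : D.Reg κ c) (hκ : κ ≤ 1 / 4) {e : ℝ} (he : 0 ≤ e) (he1 : e ≤ 1 / 10)
    (hs : ∀ (b : Bool) (a y1 y2 : ℤ), D.gen3 b a y1 y2 → 1 / 2 ≤ D.sig e b a y1 y2)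
    (θ : D.Om) (d : ℤ) {m : ℕ} (hm : m ∈ D.It) :
    0 ≤ gm D e d m θ ∧ gm D e d m θ ≤ 4800 / D.n := by
  classical
  have hn := n_pos' h
  have h8 : (0 : ℝ) ≤ 800 / D.n := by positivity
  constructor
  · unfold gm
    refine sum_nonneg fun x hx => ?_
    split_ifs with hc
    · obtain ⟨⟨_, _, ⟨ha, _⟩, ⟨h1, _⟩, ⟨h2, _⟩, _⟩, _⟩ := hc
      exact (wn_bd h hκ he he1 hs θ hm hx ha h1 h2).1
    · exact le_rfl
  · calc gm D e d m θ ≤ ∑ x ∈ D.Ze, (if hasD (D.anc m) (D.yy1 θ m) (D.yy2 θ m) x d then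
          (800 : ℝ) / D.n else 0) := by
          unfold gm
          refine sum_le_sum fun x hx => ?_
          by_cases hc : D.edgD θ d (D.anc m) (D.yy1 θ m) (D.yy2 θ m) x ∧
            hasD (D.anc m) (D.yy1 θ m) (D.yy2 θ m) x d
          · rw [if_pos hc, if_pos hc.2]
            obtain ⟨⟨_, _, ⟨ha, _⟩, ⟨h1, _⟩, ⟨h2, _⟩, _⟩, _⟩ := hc
            exact (wn_bd h hκ he he1 hs θ hm hx ha h1 h2).2
          · rw [if_neg hc]
            split_ifs
            · exact h8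
            · exact le_rfl
      _ = ((D.Ze.filter (fun x => hasD (D.anc m) (D.yy1 θ m) (D.yy2 θ m) x d)).card : ℝ) *
            (800 / D.n) := by
          rw [← sum_filter, sum_const, nsmul_eq_mul]
      _ ≤ 6 * (800 / D.n) := by
          refine mul_le_mul_of_nonneg_right ?_ h8
          exact_mod_cast six (D.anc m) (D.yy1 θ m) (D.yy2 θ m) d D.Ze
      _ = 4800 / D.n := by ring

theorem degD_bd (h : D.Reg κ c) (hκ : κ ≤ 1 / 4) {e : ℝ} (he : 0 ≤ e) (he1 : e ≤ 1 / 10)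
    (hs : ∀ (b : Bool) (a y1 y2 : ℤ), D.gen3 b a y1 y2 → 1 / 2 ≤ D.sig e b a y1 y2)
    (θ : D.Om) (d : ℤ) : 0 ≤ D.degD e θ d ∧ D.degD e θ d ≤ 9600 := by
  have hn := n_pos' h
  rw [degD_eq]
  constructor
  · exact sum_nonneg fun m hm => (gm_bd h hκ he he1 hs θ d hm).1
  · calc ∑ m ∈ D.It, gm D e d m θ ≤ ∑ _m ∈ D.It, (4800 : ℝ) / D.n :=
          sum_le_sum fun m hm => (gm_bd h hκ he he1 hs θ d hm).2
      _ = (D.It.card : ℝ) * (4800 / D.n) := by rw [sum_const, nsmul_eq_mul]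
      _ ≤ (2 * D.n) * (4800 / D.n) :=
          mul_le_mul_of_nonneg_right (It_card h) (by positivity)
      _ = 9600 := by field_simp; norm_num

/-- the dependence functions: a unit of the term of `m` is `p.1 (cmb p.2 m)` for one `p` -/
private def LL (q : ℕ) (δ : ZMod (q ^ 2)) : List ((ZMod (q ^ 2) → ZMod (q ^ 2)) × Fin 10) :=
  [(fun z => lamI q z, 1), (fun z => lamI q z, 2),
    (fun z => lamI q (z + δ), 0), (fun z => lamI q (z - δ), 0),
    (fun z => lamI q (z + δ), 1), (fun z => lamI q (z - δ), 1),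
    (fun z => lamI q (z + δ), 2), (fun z => lamI q (z - δ), 2),
    (fun z => delI q (z + δ), 5), (fun z => delI q (z - δ), 5),
    (fun z => delI q (-(z + δ)), 5), (fun z => delI q (-(z - δ)), 5),
    (fun z => delI q (z + δ), 6), (fun z => delI q (z - δ), 6),
    (fun z => delI q (-(z + δ)), 6), (fun z => delI q (-(z - δ)), 6),
    (fun z => delI q (z + δ), 7), (fun z => delI q (z - δ), 7),
    (fun z => delI q (-(z + δ)), 7), (fun z => delI q (-(z - δ)), 7)]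

private theorem LL_length (q : ℕ) (δ : ZMod (q ^ 2)) : (LL q δ).length = 20 := rfl

private theorem LL_prop {q : ℕ} (hq : q.Prime) (h3 : 3 < q) (δ : ZMod (q ^ 2)) :
    ∀ p ∈ LL q δ, Function.Injective p.1 ∧
      (p.2 = 0 ∨ p.2 = 1 ∨ p.2 = 2 ∨ p.2 = 5 ∨ p.2 = 6 ∨ p.2 = 7) := by
  have i0 : Function.Injective (fun z : ZMod (q ^ 2) => lamI q z) := fun x y hxy =>
    (lamI_inj hq h3).1 hxy
  have i1 : Function.Injective (fun z : ZMod (q ^ 2) => lamI q (z + δ)) := fun x y hxy =>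
    add_right_cancel ((lamI_inj hq h3).1 hxy)
  have i2 : Function.Injective (fun z : ZMod (q ^ 2) => lamI q (z - δ)) := fun x y hxy =>
    sub_left_injective ((lamI_inj hq h3).1 hxy)
  have i3 : Function.Injective (fun z : ZMod (q ^ 2) => delI q (z + δ)) := fun x y hxy =>
    add_right_cancel (delI_inj.1 hxy)
  have i4 : Function.Injective (fun z : ZMod (q ^ 2) => delI q (z - δ)) := fun x y hxy =>
    sub_left_injective (delI_inj.1 hxy)
  have i5 : Function.Injective (fun z : ZMod (q ^ 2) => delI q (-(z + δ))) := fun x y hxy =>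
    add_right_cancel (neg_injective (delI_inj.1 hxy))
  have i6 : Function.Injective (fun z : ZMod (q ^ 2) => delI q (-(z - δ))) := fun x y hxy =>
    sub_left_injective (neg_injective (delI_inj.1 hxy))
  intro p hp
  simp only [LL, List.mem_cons, List.not_mem_nil, or_false] at hp
  rcases hp with rfl | rfl | rfl | rfl | rfl | rfl | rfl | rfl | rfl | rfl | rfl | rfl | rfl |
    rfl | rfl | rfl | rfl | rfl | rfl | rfl
  · exact ⟨i0, by simp⟩
  · exact ⟨i0, by simp⟩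
  · exact ⟨i1, by simp⟩
  · exact ⟨i2, by simp⟩
  · exact ⟨i1, by simp⟩
  · exact ⟨i2, by simp⟩
  · exact ⟨i1, by simp⟩
  · exact ⟨i2, by simp⟩
  · exact ⟨i3, by simp⟩
  · exact ⟨i4, by simp⟩
  · exact ⟨i5, by simp⟩
  · exact ⟨i6, by simp⟩
  · exact ⟨i3, by simp⟩
  · exact ⟨i4, by simp⟩
  · exact ⟨i5, by simp⟩
  · exact ⟨i6, by simp⟩
  · exact ⟨i3, by simp⟩
  · exact ⟨i4, by simp⟩
  · exact ⟨i5, by simp⟩
  · exact ⟨i6, by simp⟩

private theorem sqrt_q_pos (h : D.Reg κ c) : 0 < √(D.q : ℝ) :=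
  Real.sqrt_pos.2 (by exact_mod_cast h.q_prime.pos)

open Classical in
private theorem infl (h : D.Reg κ c)
    (L : List ((ZMod (D.q ^ 2) → ZMod (D.q ^ 2)) × Fin 10))
    (hL : ∀ p ∈ L, Function.Injective p.1 ∧
      (p.2 = 0 ∨ p.2 = 1 ∨ p.2 = 2 ∨ p.2 = 5 ∨ p.2 = 6 ∨ p.2 = 7)) (u : ZMod (D.q ^ 2)) :
    ((D.It.filter (fun m => u ∈ L.map (fun p => p.1 (D.cmb p.2 m)))).card : ℝ) ≤
      L.length * (D.n / √(D.q : ℝ)) := by
  have hsq := sqrt_q_pos h
  have hn := n_pos' h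
  induction L with
  | nil => simp
  | cons p L ih =>
    have ih' := ih (fun p' hp' => hL p' (List.mem_cons_of_mem _ hp'))
    obtain ⟨hinj, hj⟩ := hL p List.mem_cons_self
    have hone : ((D.It.filter (fun m => u = p.1 (D.cmb p.2 m))).card : ℝ) ≤
        D.n / √(D.q : ℝ) := by
      by_cases hv : ∃ v, p.1 v = u
      · obtain ⟨v, rfl⟩ := hv
        have h1 := h.inf p.2 hj v
        rw [le_div_iff₀ hsq]
        have h2 : D.It.filter (fun m => p.1 v = p.1 (D.cmb p.2 m)) =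
            D.It.filter (fun m => D.cmb p.2 m = v) := by
          apply filter_congr
          intro m _
          exact ⟨fun hh => (hinj hh).symm, fun hh => by rw [hh]⟩
        rw [h2]
        exact h1
      · have h2 : D.It.filter (fun m => u = p.1 (D.cmb p.2 m)) = ∅ := by
          apply filter_eq_empty_iff.2
          intro m _ hh
          exact hv ⟨_, hh.symm⟩
        rw [h2]
        simp only [card_empty, Nat.cast_zero]
        positivity
    have hsub : D.It.filter (fun m => u ∈ (p :: L).map (fun p => p.1 (D.cmb p.2 m))) ⊆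
        D.It.filter (fun m => u = p.1 (D.cmb p.2 m)) ∪
          D.It.filter (fun m => u ∈ L.map (fun p => p.1 (D.cmb p.2 m))) := by
      intro m hm
      rw [mem_filter, List.map_cons, List.mem_cons] at hm
      rw [mem_union, mem_filter, mem_filter]
      rcases hm.2 with h2 | h2
      · exact Or.inl ⟨hm.1, h2⟩
      · exact Or.inr ⟨hm.1, h2⟩
    have hc := (card_le_card hsub).trans (card_union_le _ _)
    have hc' : ((D.It.filter (fun m => u ∈ (p :: L).map (fun p => p.1 (D.cmb p.2 m)))).card : ℝ) ≤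
        ((D.It.filter (fun m => u = p.1 (D.cmb p.2 m))).card : ℝ) +
          ((D.It.filter (fun m => u ∈ L.map (fun p => p.1 (D.cmb p.2 m)))).card : ℝ) := by
      exact_mod_cast hc
    rw [List.length_cons]
    push_cast
    linarith

private theorem edgD_congr (h : D.Reg κ c) (θ θ' : D.Om) (d a y1 y2 x : ℤ)
    (ho : θ (unL D.q x) = θ' (unL D.q x))
    (ha : |x - a| = d ∨ θ (unD D.q |x - a|) = θ' (unD D.q |x - a|))
    (h1 : |x - y1| = d ∨ θ (unD D.q |x - y1|) = θ' (unD D.q |x - y1|))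
    (h2 : |x - y2| = d ∨ θ (unD D.q |x - y2|) = θ' (unD D.q |x - y2|)) :
    D.edgD θ d a y1 y2 x ↔ D.edgD θ' d a y1 y2 x := by
  have key : ∀ z : ℤ, (|x - z| = d ∨ θ (unD D.q |x - z|) = θ' (unD D.q |x - z|)) →
      ((|x - z| = d ∨ ¬ D.used θ |x - z|) ↔ (|x - z| = d ∨ ¬ D.used θ' |x - z|)) := by
    intro z hz
    rcases hz with hz | hz
    · exact ⟨fun _ => Or.inl hz, fun _ => Or.inl hz⟩
    · rw [used_congr h θ θ' _ hz]
  unfold edgD
  rw [occ_congr h θ θ' x ho, key a ha, key y1 h1, key y2 h2]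

/-- the units on which the term of `m` depends -/
private def UU (D : Dat) (d : ℤ) (m : ℕ) : Finset (ZMod (D.q ^ 2)) :=
  ((LL D.q ((d : ℤ) : ZMod (D.q ^ 2))).map (fun p => p.1 (D.cmb p.2 m))).toFinset

private theorem mem_UU (d : ℤ) (m : ℕ) {f : ZMod (D.q ^ 2) → ZMod (D.q ^ 2)} {j : Fin 10}
    (hf : (f, j) ∈ LL D.q ((d : ℤ) : ZMod (D.q ^ 2))) : f (D.cmb j m) ∈ UU D d m := by
  unfold UU
  rw [List.mem_toFinset, List.mem_map]
  exact ⟨(f, j), hf, rfl⟩

private theorem abs_cls (Q : ℕ) (z : ℤ) :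
    ((|z| : ℤ) : ZMod Q) = ((z : ℤ) : ZMod Q) ∨ ((|z| : ℤ) : ZMod Q) = -((z : ℤ) : ZMod Q) := by
  rcases abs_choice z with h1 | h1
  · left; rw [h1]
  · right; rw [h1, Int.cast_neg]

/-- the units of a difference with class `±(cmb j m ± δ)`, `j = 5, 6, 7` -/
private theorem mem_UU_dif (d : ℤ) (m : ℕ) (z : ℤ) (j : Fin 10) (hj : j = 5 ∨ j = 6 ∨ j = 7)
    (hz : ((z : ℤ) : ZMod (D.q ^ 2)) = D.cmb j m + ((d : ℤ) : ZMod (D.q ^ 2)) ∨
      ((z : ℤ) : ZMod (D.q ^ 2)) = D.cmb j m - ((d : ℤ) : ZMod (D.q ^ 2)) ∨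
      ((z : ℤ) : ZMod (D.q ^ 2)) = -(D.cmb j m + ((d : ℤ) : ZMod (D.q ^ 2))) ∨
      ((z : ℤ) : ZMod (D.q ^ 2)) = -(D.cmb j m - ((d : ℤ) : ZMod (D.q ^ 2)))) :
    unD D.q |z| ∈ UU D d m := by
  have k1 : delI D.q (D.cmb j m + ((d : ℤ) : ZMod (D.q ^ 2))) ∈ UU D d m := by
    refine mem_UU d m (f := fun z => delI D.q (z + ((d : ℤ) : ZMod (D.q ^ 2)))) (j := j) ?_
    rcases hj with rfl | rfl | rfl <;>
    simp only [LL, List.mem_cons, true_or, or_true]
  have k2 : delI D.q (D.cmb j m - ((d : ℤ) : ZMod (D.q ^ 2))) ∈ UU D d m := by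
    refine mem_UU d m (f := fun z => delI D.q (z - ((d : ℤ) : ZMod (D.q ^ 2)))) (j := j) ?_
    rcases hj with rfl | rfl | rfl <;>
    simp only [LL, List.mem_cons, true_or, or_true]
  have k3 : delI D.q (-(D.cmb j m + ((d : ℤ) : ZMod (D.q ^ 2)))) ∈ UU D d m := by
    refine mem_UU d m (f := fun z => delI D.q (-(z + ((d : ℤ) : ZMod (D.q ^ 2))))) (j := j) ?_
    rcases hj with rfl | rfl | rfl <;>
    simp only [LL, List.mem_cons, true_or, or_true]
  have k4 : delI D.q (-(D.cmb j m - ((d : ℤ) : ZMod (D.q ^ 2)))) ∈ UU D d m := by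
    refine mem_UU d m (f := fun z => delI D.q (-(z - ((d : ℤ) : ZMod (D.q ^ 2))))) (j := j) ?_
    rcases hj with rfl | rfl | rfl <;>
    simp only [LL, List.mem_cons, true_or, or_true]
  unfold unD
  rcases abs_cls (D.q ^ 2) z with h1 | h1
  · rw [h1]
    rcases hz with hz | hz | hz | hz <;> rw [hz]
    · exact k1
    · exact k2
    · exact k3
    · exact k4
  · rw [h1]
    rcases hz with hz | hz | hz | hz <;> rw [hz]
    · exact k3
    · exact k4
    · rw [neg_neg]; exact k1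
    · rw [neg_neg]; exact k2

private theorem mem_UU_lab (d : ℤ) (m : ℕ) (x : ℤ) (j : Fin 10) (hj : j = 0 ∨ j = 1 ∨ j = 2)
    (hx : ((x : ℤ) : ZMod (D.q ^ 2)) = D.cmb j m + ((d : ℤ) : ZMod (D.q ^ 2)) ∨
      ((x : ℤ) : ZMod (D.q ^ 2)) = D.cmb j m - ((d : ℤ) : ZMod (D.q ^ 2))) :
    unL D.q x ∈ UU D d m := by
  have k1 : lamI D.q (D.cmb j m + ((d : ℤ) : ZMod (D.q ^ 2))) ∈ UU D d m := by
    refine mem_UU d m (f := fun z => lamI D.q (z + ((d : ℤ) : ZMod (D.q ^ 2)))) (j := j) ?_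
    rcases hj with rfl | rfl | rfl <;>
    simp only [LL, List.mem_cons, true_or, or_true]
  have k2 : lamI D.q (D.cmb j m - ((d : ℤ) : ZMod (D.q ^ 2))) ∈ UU D d m := by
    refine mem_UU d m (f := fun z => lamI D.q (z - ((d : ℤ) : ZMod (D.q ^ 2)))) (j := j) ?_
    rcases hj with rfl | rfl | rfl <;>
    simp only [LL, List.mem_cons, true_or, or_true]
  unfold unL
  rcases hx with hx | hx <;> rw [hx]
  · exact k1
  · exact k2

private theorem lab_agree (h : D.Reg κ c) (d : ℤ) (m : ℕ) (θ θ' : D.Om)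
    (hU : ∀ u ∈ UU D d m, θ u = θ' u) :
    D.yy1 θ m = D.yy1 θ' m ∧ D.yy2 θ m = D.yy2 θ' m := by
  constructor
  · unfold yy1
    by_cases hv : D.nb1 m ∈ D.Sv
    · apply lab_congr
      apply hU
      rw [← lamI_cls h hv]
      exact mem_UU d m (f := fun z => lamI D.q z) (j := 1)
        (by simp only [LL, List.mem_cons, true_or, or_true])
    · rw [lab_notin θ hv, lab_notin θ' hv]
  · unfold yy2
    by_cases hv : D.nb2 m ∈ D.Sv
    · apply lab_congr
      apply hU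
      rw [← lamI_cls h hv]
      exact mem_UU d m (f := fun z => lamI D.q z) (j := 2)
        (by simp only [LL, List.mem_cons, true_or, or_true])
    · rw [lab_notin θ hv, lab_notin θ' hv]

private theorem edg_agree (h : D.Reg κ c) (d : ℤ) (m : ℕ) (θ θ' : D.Om)
    (hU : ∀ u ∈ UU D d m, θ u = θ' u) (x : ℤ)
    (hd : hasD (D.anc m) (D.yy1 θ m) (D.yy2 θ m) x d) :
    D.edgD θ d (D.anc m) (D.yy1 θ m) (D.yy2 θ m) x ↔
      D.edgD θ' d (D.anc m) (D.yy1 θ m) (D.yy2 θ m) x := by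
  have c0 : ((D.anc m : ℤ) : ZMod (D.q ^ 2)) = D.cmb 0 m := rfl
  have c1 : ((D.yy1 θ m : ℤ) : ZMod (D.q ^ 2)) = D.cmb 1 m := cls_lab h θ _
  have c2 : ((D.yy2 θ m : ℤ) : ZMod (D.q ^ 2)) = D.cmb 2 m := cls_lab h θ _
  have e5 : D.cmb 5 m = D.cmb 0 m - D.cmb 1 m := rfl
  have e6 : D.cmb 6 m = D.cmb 0 m - D.cmb 2 m := rfl
  have e7 : D.cmb 7 m = D.cmb 1 m - D.cmb 2 m := rfl
  have key : ∀ z : ℤ, |x - z| = d → ((x : ℤ) : ZMod (D.q ^ 2)) =
      ((z : ℤ) : ZMod (D.q ^ 2)) + ((d : ℤ) : ZMod (D.q ^ 2)) ∨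
      ((x : ℤ) : ZMod (D.q ^ 2)) = ((z : ℤ) : ZMod (D.q ^ 2)) - ((d : ℤ) : ZMod (D.q ^ 2)) := by
    intro z hz
    rcases abs_choice (x - z) with h1 | h1 <;> rw [h1] at hz
    · left
      rw [← Int.cast_add]
      congr 1
      linarith
    · right
      rw [← Int.cast_sub]
      congr 1
      linarith
  rcases hd with hd | hd | hd
  · -- `x = a ± d`
    have hx := key _ hd
    rw [c0] at hx
    refine edgD_congr h θ θ' d _ _ _ x (hU _ (mem_UU_lab d m x 0 (by simp) hx)) (Or.inl hd)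
      (Or.inr (hU _ ?_)) (Or.inr (hU _ ?_))
    · apply mem_UU_dif d m _ 5 (by simp)
      rw [Int.cast_sub, c1, e5]
      rcases hx with hx | hx <;> rw [hx]
      · left; ring
      · right; left; ring
    · apply mem_UU_dif d m _ 6 (by simp)
      rw [Int.cast_sub, c2, e6]
      rcases hx with hx | hx <;> rw [hx]
      · left; ring
      · right; left; ring
  · -- `x = y1 ± d`
    have hx := key _ hd
    rw [c1] at hx
    refine edgD_congr h θ θ' d _ _ _ x (hU _ (mem_UU_lab d m x 1 (by simp) hx))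
      (Or.inr (hU _ ?_)) (Or.inl hd) (Or.inr (hU _ ?_))
    · apply mem_UU_dif d m _ 5 (by simp)
      rw [Int.cast_sub, c0, e5]
      rcases hx with hx | hx <;> rw [hx]
      · right; right; right; ring
      · right; right; left; ring
    · apply mem_UU_dif d m _ 7 (by simp)
      rw [Int.cast_sub, c2, e7]
      rcases hx with hx | hx <;> rw [hx]
      · left; ring
      · right; left; ring
  · -- `x = y2 ± d`
    have hx := key _ hd
    rw [c2] at hx
    refine edgD_congr h θ θ' d _ _ _ x (hU _ (mem_UU_lab d m x 2 (by simp) hx))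
      (Or.inr (hU _ ?_)) (Or.inr (hU _ ?_)) (Or.inl hd)
    · apply mem_UU_dif d m _ 6 (by simp)
      rw [Int.cast_sub, c0, e6]
      rcases hx with hx | hx <;> rw [hx]
      · right; right; right; ring
      · right; right; left; ring
    · apply mem_UU_dif d m _ 7 (by simp)
      rw [Int.cast_sub, c1, e7]
      rcases hx with hx | hx <;> rw [hx]
      · right; right; right; ring
      · right; right; left; ring

private theorem gm_dep (h : D.Reg κ c) (e : ℝ) (d : ℤ) (m : ℕ) (θ θ' : D.Om)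
    (hU : ∀ u ∈ UU D d m, θ u = θ' u) : gm D e d m θ = gm D e d m θ' := by
  classical
  obtain ⟨l1, l2⟩ := lab_agree h d m θ θ' hU
  unfold gm
  refine sum_congr rfl fun x _ => ?_
  have hw : D.wn e θ m x = D.wn e θ' m x := by
    unfold wn
    rw [l1, l2]
  have hP : (D.edgD θ d (D.anc m) (D.yy1 θ m) (D.yy2 θ m) x ∧
      hasD (D.anc m) (D.yy1 θ m) (D.yy2 θ m) x d) ↔
      (D.edgD θ' d (D.anc m) (D.yy1 θ' m) (D.yy2 θ' m) x ∧
      hasD (D.anc m) (D.yy1 θ' m) (D.yy2 θ' m) x d) := by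
    rw [← l1, ← l2]
    constructor
    · rintro ⟨hh1, hh2⟩
      exact ⟨(edg_agree h d m θ θ' hU x hh2).1 hh1, hh2⟩
    · rintro ⟨hh1, hh2⟩
      exact ⟨(edg_agree h d m θ θ' hU x hh2).2 hh1, hh2⟩
  by_cases hc : (D.edgD θ d (D.anc m) (D.yy1 θ m) (D.yy2 θ m) x ∧
      hasD (D.anc m) (D.yy1 θ m) (D.yy2 θ m) x d)
  · rw [if_pos hc, if_pos (hP.1 hc), hw]
  · rw [if_neg hc, if_neg (fun hc' => hc (hP.2 hc'))]

private theorem UU_card (d : ℤ) (m : ℕ) : ((UU D d m).card : ℝ) ≤ 20 := by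
  have h1 : (UU D d m).card ≤ 20 := by
    unfold UU
    refine (List.toFinset_card_le _).trans ?_
    rw [List.length_map, LL_length]
  exact_mod_cast h1

private theorem UU_inf (h : D.Reg κ c) (d : ℤ) (u : ZMod (D.q ^ 2)) :
    ((D.It.filter (fun m => u ∈ UU D d m)).card : ℝ) ≤ 20 * (D.n / √(D.q : ℝ)) := by
  classical
  have h3 : 3 < D.q := lt_trans (by norm_num) h.q_big
  have h1 := infl h (LL D.q ((d : ℤ) : ZMod (D.q ^ 2))) (LL_prop h.q_prime h3 _) u
  rw [LL_length] at h1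
  have h2 : ((20 : ℕ) : ℝ) = 20 := by norm_num
  rw [h2] at h1
  refine le_trans (le_of_eq ?_) h1
  have h4 : D.It.filter (fun m => u ∈ UU D d m) = D.It.filter (fun m => u ∈
      (LL D.q ((d : ℤ) : ZMod (D.q ^ 2))).map (fun p => p.1 (D.cmb p.2 m))) := by
    apply filter_congr
    intro m _
    unfold UU
    rw [List.mem_toFinset]
  rw [h4]

private theorem final_bd (h : D.Reg κ c) (t : ℝ) :
    2 * Real.exp (-(t ^ 2 / (8 * (4800 / (D.n : ℝ)) ^ 2 * (20 * (D.n / √(D.q : ℝ))) * 20 *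
      (2 * D.n)))) ≤ D.cbd t := by
  have hn := n_pos' h
  have hsq := sqrt_q_pos h
  unfold cbd
  have hexp : Real.exp (-(t ^ 2 / (8 * (4800 / (D.n : ℝ)) ^ 2 * (20 * (D.n / √(D.q : ℝ))) * 20 *
      (2 * D.n)))) ≤ Real.exp (-(t ^ 2 * √(D.q : ℝ) / 10 ^ 12)) := by
    apply Real.exp_le_exp.2
    apply neg_le_neg
    have e1 : 8 * (4800 / (D.n : ℝ)) ^ 2 * (20 * (D.n / √(D.q : ℝ))) * 20 * (2 * D.n) =
        147456000000 / √(D.q : ℝ) := by
      field_simp
      norm_num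
    rw [e1, div_div_eq_mul_div]
    apply div_le_div_of_nonneg_left
    · positivity
    · norm_num
    · norm_num
  linarith

private theorem conc_gm (h : D.Reg κ c) (hκ : κ ≤ 1 / 4) {e : ℝ} (he : 0 ≤ e) (he1 : e ≤ 1 / 10)
    (hs : ∀ (b : Bool) (a y1 y2 : ℤ), D.gen3 b a y1 y2 → 1 / 2 ≤ D.sig e b a y1 y2)
    (d : ℤ) (t : ℝ) (ht : 0 ≤ t) :
    Pr (fun s : ZMod (D.q ^ 2) → ZMod (2 * D.S) => t ≤ |∑ j ∈ D.It, gm D e d j s -
        Ex (fun s : ZMod (D.q ^ 2) → ZMod (2 * D.S) => ∑ j ∈ D.It, gm D e d j s)|) ≤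
      2 * Real.exp (-(t ^ 2 / (8 * (4800 / (D.n : ℝ)) ^ 2 * (20 * (D.n / √(D.q : ℝ))) * 20 *
      (2 * D.n)))) := by
  have hn := n_pos' h
  have hsq := sqrt_q_pos h
  refine conc_sum D.It (fun m θ => gm D e d m θ) (UU D d) (4800 / D.n)
    (20 * (D.n / √(D.q : ℝ))) 20 (2 * D.n) (by positivity) (by positivity) (by norm_num)
    (by positivity) (It_card h) ?_ ?_ ?_ ?_ t ht
  · intro m _ θ θ' hU
    exact gm_dep h e d m θ θ' hU
  · intro m hm θ
    have := gm_bd h hκ he he1 hs θ d hm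
    rw [abs_of_nonneg this.1]
    exact this.2
  · intro m _
    exact UU_card d m
  · intro u
    exact UU_inf h d u

theorem degD_conc (h : D.Reg κ c) (hκ : κ ≤ 1 / 4) {e : ℝ} (he : 0 ≤ e) (he1 : e ≤ 1 / 10)
    (hs : ∀ (b : Bool) (a y1 y2 : ℤ), D.gen3 b a y1 y2 → 1 / 2 ≤ D.sig e b a y1 y2)
    (d : ℤ) (t : ℝ) (ht : 0 ≤ t) :
    Pr (fun θ : D.Om => t ≤ |D.degD e θ d - Ex (fun θ : D.Om => D.degD e θ d)|) ≤ D.cbd t :=
  (conc_gm h hκ he he1 hs d t ht).trans (final_bd h t)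

end Dat

end Pool.Agent.PGr
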