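import Mathlib
import Pool.Agent.PGr.CDefs
import Pool.Agent.PGr.CSum
import Pool.Agent.PGr.EPr
import Pool.Agent.PGr.EDc

/-!
# PGr, module CLab: concentration of `labX`

Always `h : D.Reg κ c`, `κ ≤ 1/4`, `0 ≤ e ≤ 1/10`, `hs`: `sig ≥ 1/2` for generic triples.

PLAN. As CDeg (read its header). `labX e θ x = ∑ m ∈ It, (if edgX .. then wn else 0)`, every term is in
`[0, 800/n]` (EPr.wt_nonneg, wt_le, EBas.gen3_item, hs), `|It| ≤ 2n`: `0 ≤ labX ≤ 1600`.
`conc_sum` with `A = It`, `B = 800/n`, `U m` = the units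
`lamI c1, lamI c2, delI (±(x - a)), delI (±(x - c1)), delI (±(x - c2))` (classes; 8 units, h = 8).
Dependence: labels of the neighbours (lab_congr, lamI_cls, lab_notin), `used θ |x - a|` etc.
(used_congr: the class of `|x - y|` is `± (x - class of y)`). `occ θ x` is not required.
Influence: `lamI c1 = u ↔ c1 = lam u` (j = 1), c2 (j = 2), `delI (s (x - a)) = u ↔ a = x - s del u`
(j = 0), `c1 = x - s del u` (j = 1), `c2 = ..` (j = 2): at most `8 n/√q` items by `h.inf`, `M = 8 n/√q`.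
`8 B^2 M h N = 8 * 640000 * 8 * 8 * 2 / √q ≤ 10^12/√q`.
-/

noncomputable section

namespace Pool.Agent.PGr

open Finset

namespace Dat

variable {D : Dat} {κ c : ℝ}

private theorem n_pos' (h : D.Reg κ c) : (0 : ℝ) < D.n := by
  have h1 : 0 < D.q ^ 6 := pow_pos (lt_trans (by norm_num) h.q_big) 6
  have h2 : 0 < D.n := lt_of_lt_of_le h1 h.q_high
  exact_mod_cast h2

open Classical in
private theorem term_bd (h : D.Reg κ c) (hκ : κ ≤ 1 / 4) {e : ℝ} (he : 0 ≤ e) (he1 : e ≤ 1 / 10)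
    (hs : ∀ (b : Bool) (a y1 y2 : ℤ), D.gen3 b a y1 y2 → 1 / 2 ≤ D.sig e b a y1 y2)
    (θ : D.Om) (x : ℤ) {m : ℕ} (hm : m ∈ D.It) :
    0 ≤ (if D.edgX θ (D.anc m) (D.yy1 θ m) (D.yy2 θ m) x then D.wn e θ m x else 0) ∧
    (if D.edgX θ (D.anc m) (D.yy1 θ m) (D.yy2 θ m) x then D.wn e θ m x else 0) ≤ 800 / D.n := by
  have hn := n_pos' h
  split_ifs with hE
  · obtain ⟨hx, ha, h1, h2, -⟩ := hE
    have hw1 := wt_nonneg h hκ he he1 (D.hi m) (D.anc m) (D.yy1 θ m) (D.yy2 θ m) x hx ha.1 h1.1 h2.1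
    have hw2 := wt_le h hκ he he1 (D.hi m) (D.anc m) (D.yy1 θ m) (D.yy2 θ m) x hx ha.1 h1.1 h2.1
    have hg := hs _ _ _ _ (gen3_item h θ hm)
    have hpos : 0 < D.sig e (D.hi m) (D.anc m) (D.yy1 θ m) (D.yy2 θ m) := by linarith
    unfold wn
    constructor
    · exact div_nonneg hw1 hpos.le
    · rw [div_le_iff₀ hpos]
      have h800 : (0 : ℝ) ≤ 800 / D.n := by positivity
      have h5 : 800 / (D.n : ℝ) * (1 / 2) ≤
          800 / D.n * D.sig e (D.hi m) (D.anc m) (D.yy1 θ m) (D.yy2 θ m) :=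
        mul_le_mul_of_nonneg_left hg h800
      have h6 : 800 / (D.n : ℝ) * (1 / 2) = 400 / D.n := by ring
      linarith
  · exact ⟨le_rfl, by positivity⟩

theorem labX_bd (h : D.Reg κ c) (hκ : κ ≤ 1 / 4) {e : ℝ} (he : 0 ≤ e) (he1 : e ≤ 1 / 10)
    (hs : ∀ (b : Bool) (a y1 y2 : ℤ), D.gen3 b a y1 y2 → 1 / 2 ≤ D.sig e b a y1 y2)
    (θ : D.Om) (x : ℤ) : 0 ≤ D.labX e θ x ∧ D.labX e θ x ≤ 1600 := by
  have hn := n_pos' h
  unfold labX
  constructor
  · exact Finset.sum_nonneg fun m hm => (term_bd h hκ he he1 hs θ x hm).1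
  · refine (Finset.sum_le_sum fun m hm => (term_bd h hκ he he1 hs θ x hm).2).trans ?_
    rw [Finset.sum_const, nsmul_eq_mul]
    have h1 := It_card h
    calc (D.It.card : ℝ) * (800 / D.n) ≤ (2 * D.n) * (800 / D.n) :=
          mul_le_mul_of_nonneg_right h1 (by positivity)
      _ = 1600 := by field_simp; norm_num

private theorem yy_congr (h : D.Reg κ c) (θ θ' : D.Om) (v : ℕ)
    (e : θ (lamI D.q (D.cls v)) = θ' (lamI D.q (D.cls v))) : D.lab θ v = D.lab θ' v := by
  by_cases hv : v ∈ D.Sv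
  · rw [lamI_cls h hv] at e
    exact lab_congr θ θ' v e
  · rw [lab_notin θ hv, lab_notin θ' hv]

private theorem used_abs (h : D.Reg κ c) (θ θ' : D.Om) (z : ℤ)
    (e1 : θ (delI D.q ((z : ℤ) : ZMod (D.q ^ 2))) = θ' (delI D.q ((z : ℤ) : ZMod (D.q ^ 2))))
    (e2 : θ (delI D.q (-((z : ℤ) : ZMod (D.q ^ 2)))) =
      θ' (delI D.q (-((z : ℤ) : ZMod (D.q ^ 2))))) :
    D.used θ |z| ↔ D.used θ' |z| := by
  apply used_congr h
  unfold unD
  rcases abs_choice z with hz | hz
  · rw [hz]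
    exact e1
  · rw [hz, Int.cast_neg]
    exact e2

open Classical in
/-- the units of an item -/
private def Um (D : Dat) (x : ZMod (D.q ^ 2)) (m : ℕ) : Finset (ZMod (D.q ^ 2)) :=
  {lamI D.q (D.cls (D.nb1 m)), lamI D.q (D.cls (D.nb2 m)),
    delI D.q (x - ((D.anc m : ℤ) : ZMod (D.q ^ 2))),
    delI D.q (-(x - ((D.anc m : ℤ) : ZMod (D.q ^ 2)))),
    delI D.q (x - D.cls (D.nb1 m)), delI D.q (-(x - D.cls (D.nb1 m))),
    delI D.q (x - D.cls (D.nb2 m)), delI D.q (-(x - D.cls (D.nb2 m)))}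

private theorem Um_card (x : ZMod (D.q ^ 2)) (m : ℕ) : ((Um D x m).card : ℝ) ≤ 8 := by
  classical
  have h1 : (Um D x m).card ≤ 8 := by
    unfold Um
    refine (Finset.card_insert_le _ _).trans (Nat.succ_le_succ ?_)
    refine (Finset.card_insert_le _ _).trans (Nat.succ_le_succ ?_)
    exact Finset.card_le_six
  exact_mod_cast h1

private theorem Um_inf (h : D.Reg κ c) (x u : ZMod (D.q ^ 2)) :
    ((D.It.filter (fun m => u ∈ Um D x m)).card : ℝ) ≤ 8 * (D.n / √(D.q : ℝ)) := by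
  classical
  have h3 : 3 < D.q := lt_trans (by norm_num) h.q_big
  have hq0 : (0 : ℝ) < D.q := by exact_mod_cast (lt_trans (by norm_num) h.q_big : 0 < D.q)
  have hsq : 0 < √(D.q : ℝ) := Real.sqrt_pos.2 hq0
  have key : ∀ j : Fin 10, (j = 0 ∨ j = 1 ∨ j = 2 ∨ j = 5 ∨ j = 6 ∨ j = 7) →
      ∀ v : ZMod (D.q ^ 2),
      ((D.It.filter (fun m => D.cmb j m = v)).card : ℝ) ≤ D.n / √(D.q : ℝ) := by
    intro j hj v
    rw [le_div_iff₀ hsq]
    exact h.inf j hj v
  have hsub : D.It.filter (fun m => u ∈ Um D x m) ⊆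
      D.It.filter (fun m => D.cmb 1 m = lam D.q u) ∪
      (D.It.filter (fun m => D.cmb 2 m = lam D.q u) ∪
      (D.It.filter (fun m => D.cmb 0 m = x - del D.q u) ∪
      (D.It.filter (fun m => D.cmb 0 m = x + del D.q u) ∪
      (D.It.filter (fun m => D.cmb 1 m = x - del D.q u) ∪
      (D.It.filter (fun m => D.cmb 1 m = x + del D.q u) ∪
      (D.It.filter (fun m => D.cmb 2 m = x - del D.q u) ∪
      D.It.filter (fun m => D.cmb 2 m = x + del D.q u))))))) := by
    intro m hm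
    rw [Finset.mem_filter] at hm
    obtain ⟨hmI, hu⟩ := hm
    unfold Um at hu
    simp only [Finset.mem_insert, Finset.mem_singleton] at hu
    simp only [Finset.mem_union, Finset.mem_filter, hmI, true_and]
    have c0 : D.cmb 0 m = ((D.anc m : ℤ) : ZMod (D.q ^ 2)) := rfl
    have c1 : D.cmb 1 m = D.cls (D.nb1 m) := rfl
    have c2 : D.cmb 2 m = D.cls (D.nb2 m) := rfl
    rw [c0, c1, c2]
    rcases hu with hu | hu | hu | hu | hu | hu | hu | hu
    · left
      rw [hu, lam_lamI h.q_prime h3]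
    · right; left
      rw [hu, lam_lamI h.q_prime h3]
    · right; right; left
      rw [hu, del_delI]; ring
    · right; right; right; left
      rw [hu, del_delI]; ring
    · right; right; right; right; left
      rw [hu, del_delI]; ring
    · right; right; right; right; right; left
      rw [hu, del_delI]; ring
    · right; right; right; right; right; right; left
      rw [hu, del_delI]; ring
    · right; right; right; right; right; right; right
      rw [hu, del_delI]; ring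
  have hc := (Finset.card_le_card hsub).trans ((Finset.card_union_le _ _).trans
    (Nat.add_le_add_left ((Finset.card_union_le _ _).trans
    (Nat.add_le_add_left ((Finset.card_union_le _ _).trans
    (Nat.add_le_add_left ((Finset.card_union_le _ _).trans
    (Nat.add_le_add_left ((Finset.card_union_le _ _).trans
    (Nat.add_le_add_left ((Finset.card_union_le _ _).trans
    (Nat.add_le_add_left (Finset.card_union_le _ _) _)) _)) _)) _)) _)) _))
  have hc' := (Nat.cast_le (α := ℝ)).2 hc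
  push_cast at hc'
  have k1 := key 1 (by simp) (lam D.q u)
  have k2 := key 2 (by simp) (lam D.q u)
  have k3 := key 0 (by simp) (x - del D.q u)
  have k4 := key 0 (by simp) (x + del D.q u)
  have k5 := key 1 (by simp) (x - del D.q u)
  have k6 := key 1 (by simp) (x + del D.q u)
  have k7 := key 2 (by simp) (x - del D.q u)
  have k8 := key 2 (by simp) (x + del D.q u)
  linarith

open Classical in
private theorem term_dep (h : D.Reg κ c) (e : ℝ) (x : ℤ) (m : ℕ) (θ θ' : D.Om)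
    (hU : ∀ u ∈ Um D ((x : ℤ) : ZMod (D.q ^ 2)) m, θ u = θ' u) :
    (if D.edgX θ (D.anc m) (D.yy1 θ m) (D.yy2 θ m) x then D.wn e θ m x else 0) =
    (if D.edgX θ' (D.anc m) (D.yy1 θ' m) (D.yy2 θ' m) x then D.wn e θ' m x else 0) := by
  have y1 : D.yy1 θ m = D.yy1 θ' m := by
    unfold yy1
    apply yy_congr h
    apply hU
    unfold Um
    simp
  have y2 : D.yy2 θ m = D.yy2 θ' m := by
    unfold yy2
    apply yy_congr h
    apply hU
    unfold Um
    simp
  have z1 : ((D.yy1 θ' m : ℤ) : ZMod (D.q ^ 2)) = D.cls (D.nb1 m) := cls_lab h θ' _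
  have z2 : ((D.yy2 θ' m : ℤ) : ZMod (D.q ^ 2)) = D.cls (D.nb2 m) := cls_lab h θ' _
  have ua : D.used θ |x - D.anc m| ↔ D.used θ' |x - D.anc m| := by
    apply used_abs h
    · apply hU
      rw [Int.cast_sub]
      unfold Um
      simp
    · apply hU
      rw [Int.cast_sub]
      unfold Um
      simp
  have u1 : D.used θ |x - D.yy1 θ' m| ↔ D.used θ' |x - D.yy1 θ' m| := by
    apply used_abs h
    · apply hU
      rw [Int.cast_sub, z1]
      unfold Um
      simp
    · apply hU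
      rw [Int.cast_sub, z1]
      unfold Um
      simp
  have u2 : D.used θ |x - D.yy2 θ' m| ↔ D.used θ' |x - D.yy2 θ' m| := by
    apply used_abs h
    · apply hU
      rw [Int.cast_sub, z2]
      unfold Um
      simp
    · apply hU
      rw [Int.cast_sub, z2]
      unfold Um
      simp
  have hwn : D.wn e θ m x = D.wn e θ' m x := by
    unfold wn
    rw [y1, y2]
  have hE : D.edgX θ (D.anc m) (D.yy1 θ m) (D.yy2 θ m) x ↔
      D.edgX θ' (D.anc m) (D.yy1 θ' m) (D.yy2 θ' m) x := by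
    rw [y1, y2]
    unfold edgX av
    rw [ua, u1, u2]
  by_cases hc : D.edgX θ' (D.anc m) (D.yy1 θ' m) (D.yy2 θ' m) x
  · rw [if_pos hc, if_pos (hE.2 hc), hwn]
  · rw [if_neg hc, if_neg (fun hc' => hc (hE.1 hc'))]

theorem labX_conc (h : D.Reg κ c) (hκ : κ ≤ 1 / 4) {e : ℝ} (he : 0 ≤ e) (he1 : e ≤ 1 / 10)
    (hs : ∀ (b : Bool) (a y1 y2 : ℤ), D.gen3 b a y1 y2 → 1 / 2 ≤ D.sig e b a y1 y2)
    (x : ℤ) (t : ℝ) (ht : 0 ≤ t) :
    Pr (fun θ : D.Om => t ≤ |D.labX e θ x - Ex (fun θ : D.Om => D.labX e θ x)|) ≤ D.cbd t := by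
  classical
  have hn := n_pos' h
  have hq0 : (0 : ℝ) < D.q := by exact_mod_cast (lt_trans (by norm_num) h.q_big : 0 < D.q)
  have hsq : 0 < √(D.q : ℝ) := Real.sqrt_pos.2 hq0
  have hM : (0 : ℝ) < 8 * (D.n / √(D.q : ℝ)) := by positivity
  have key := conc_sum (ι := ZMod (D.q ^ 2)) (Ω := ZMod (2 * D.S)) D.It
    (fun m (θ : ZMod (D.q ^ 2) → ZMod (2 * D.S)) =>
      if D.edgX θ (D.anc m) (D.yy1 θ m) (D.yy2 θ m) x then D.wn e θ m x else 0)
    (fun m => Um D ((x : ℤ) : ZMod (D.q ^ 2)) m) (800 / D.n) (8 * (D.n / √(D.q : ℝ))) 8 (2 * D.n)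
    (by positivity) hM (by norm_num) (by positivity) (It_card h)
    (fun m _ θ θ' hU => term_dep h e x m θ θ' hU)
    (fun m hm θ => by
      obtain ⟨a1, a2⟩ := term_bd h hκ he he1 hs θ x hm
      rw [abs_of_nonneg a1]
      exact a2)
    (fun m _ => Um_card _ m)
    (fun u => by
      have := Um_inf h ((x : ℤ) : ZMod (D.q ^ 2)) u
      exact this) t ht
  have e0 : (fun θ : D.Om => t ≤ |D.labX e θ x - Ex (fun θ : D.Om => D.labX e θ x)|) =
    (fun s : ZMod (D.q ^ 2) → ZMod (2 * D.S) => t ≤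
      |∑ j ∈ D.It, (fun m (θ : ZMod (D.q ^ 2) → ZMod (2 * D.S)) =>
      if D.edgX θ (D.anc m) (D.yy1 θ m) (D.yy2 θ m) x then D.wn e θ m x else 0) j s -
        Ex (fun s => ∑ j ∈ D.It, (fun m (θ : ZMod (D.q ^ 2) → ZMod (2 * D.S)) =>
      if D.edgX θ (D.anc m) (D.yy1 θ m) (D.yy2 θ m) x then D.wn e θ m x else 0) j s)|) := by
    funext θ
    rfl
  rw [e0]
  refine key.trans ?_
  unfold cbd
  apply mul_le_mul_of_nonneg_left _ (by norm_num)
  apply Real.exp_le_exp.2
  apply neg_le_neg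
  have e1 : 8 * (800 / (D.n : ℝ)) ^ 2 * (8 * (D.n / √(D.q : ℝ))) * 8 * (2 * D.n) =
      655360000 / √(D.q : ℝ) := by
    field_simp
    norm_num
  rw [e1, div_div_eq_mul_div]
  apply div_le_div_of_nonneg_left (by positivity) (by norm_num) (by norm_num)

end Dat

end Pool.Agent.PGr
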