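import Mathlib
import Pool.Agent.PGr.CDefs
import Pool.Agent.PGr.CSum
import Pool.Agent.PGr.EPr

/-!
# PGr, module CPsi: concentration of `Psi`

Always `h : D.Reg κ c`, `κ ≤ 1/4`, `0 ≤ e ≤ 1/10`. `Q = q^2`, `n ≥ q^6`.

PLAN. `Psi e θ b a y1 y2 = ∑ x ∈ Ze, W0 e θ b a y1 y2 x`; every term is in `[0, 400/n]` (EPr.wt_nonneg,
wt_le: an edge has its differences in `D0`), `|Ze| ≤ 2n` (integers x with n < 2x < 5n): `0 ≤ Psi ≤ 800`.
`conc_sum` with `A = Ze`, `B = 400/n`, `U x = {unL x, unD |x-a|, unD |x-y1|, unD |x-y2|}`, h = 4.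
Dependence: EBas.occ_congr, used_congr (the weight `wt` and the other conditions do not depend on
`θ`). Influence: `unL x = u` fixes the class of x modulo Q (`(x : ZMod Q) = lam u`, Alg.lam_lamI), so by
Alg.card_class_le at most `2n/Q + 1 ≤ 3n/Q` elements x; `unD |x - a| = u` means
`(|x-a| : ZMod Q) = del u`, i.e. the class of x is `a ± del u`: at most `2 * 3n/Q`. Together at most
`21 n / Q`, `M = 21 n/Q`. `8 B^2 M h N = 8 * 160000 * 21 * 4 * 2 / Q ≤ 10^12/√q` because `√q ≤ Q`.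
-/

noncomputable section

namespace Pool.Agent.PGr

open Finset

namespace Dat

variable {D : Dat} {κ c : ℝ}

private theorem Ze_sub (h : D.Reg κ c) :
    D.Ze ⊆ Finset.Icc ((D.n : ℤ) / 2 + 1) ((5 * (D.n : ℤ) - 1) / 2) := by
  intro x hx
  obtain ⟨h1, h2, -, -⟩ := Ze_prop h hx
  rw [Finset.mem_Icc]
  constructor <;> omega

private theorem npos (h : D.Reg κ c) : 0 < D.n := by
  have h1 : 0 < D.q ^ 6 := pow_pos (lt_trans (by norm_num) h.q_big) 6
  exact lt_of_lt_of_le h1 h.q_high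

private theorem Ze_card (h : D.Reg κ c) : (D.Ze.card : ℝ) ≤ 2 * D.n := by
  have h1 := Finset.card_le_card (Ze_sub h)
  rw [Int.card_Icc] at h1
  have hn := npos h
  have h2 : ((5 * (D.n : ℤ) - 1) / 2 + 1 - ((D.n : ℤ) / 2 + 1)).toNat ≤ 2 * D.n := by omega
  have h3 : D.Ze.card ≤ 2 * D.n := h1.trans h2
  exact_mod_cast h3

private theorem W0_bd (h : D.Reg κ c) (hκ : κ ≤ 1 / 4) {e : ℝ} (he : 0 ≤ e) (he1 : e ≤ 1 / 10)
    (θ : D.Om) (b : Bool) (a y1 y2 x : ℤ) :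
    0 ≤ D.W0 e θ b a y1 y2 x ∧ D.W0 e θ b a y1 y2 x ≤ 400 / D.n := by
  unfold W0
  split_ifs with hE
  · obtain ⟨hx, -, ha, h1, h2, -⟩ := hE
    exact ⟨wt_nonneg h hκ he he1 b a y1 y2 x hx ha.1 h1.1 h2.1,
      wt_le h hκ he he1 b a y1 y2 x hx ha.1 h1.1 h2.1⟩
  · exact ⟨le_rfl, by positivity⟩

theorem Psi_bd (h : D.Reg κ c) (hκ : κ ≤ 1 / 4) {e : ℝ} (he : 0 ≤ e) (he1 : e ≤ 1 / 10)
    (θ : D.Om) (b : Bool) (a y1 y2 : ℤ) :
    0 ≤ D.Psi e θ b a y1 y2 ∧ D.Psi e θ b a y1 y2 ≤ 800 := by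
  have hn : (0 : ℝ) < D.n := by exact_mod_cast npos h
  unfold Psi
  refine ⟨Finset.sum_nonneg (fun x _ => (W0_bd h hκ he he1 θ b a y1 y2 x).1), ?_⟩
  have h1 : ∑ x ∈ D.Ze, D.W0 e θ b a y1 y2 x ≤ ∑ _x ∈ D.Ze, (400 / (D.n : ℝ)) :=
    Finset.sum_le_sum (fun x _ => (W0_bd h hκ he he1 θ b a y1 y2 x).2)
  rw [Finset.sum_const, nsmul_eq_mul] at h1
  refine h1.trans ?_
  have h2 := Ze_card h
  calc (D.Ze.card : ℝ) * (400 / D.n) ≤ (2 * D.n) * (400 / D.n) := by gcongr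
    _ = 800 := by field_simp; norm_num

private theorem Q_le_n (h : D.Reg κ c) : ((D.q : ℝ) ^ 2) ≤ D.n := by
  have h1 : (1 : ℕ) ≤ D.q := le_trans (by norm_num) h.q_big.le
  have h2 : D.q ^ 2 ≤ D.q ^ 6 := Nat.pow_le_pow_right h1 (by norm_num)
  exact_mod_cast h2.trans h.q_high

private theorem cls_bd (h : D.Reg κ c) (r : ZMod (D.q ^ 2)) :
    (((Finset.Icc ((D.n : ℤ) / 2 + 1) ((5 * (D.n : ℤ) - 1) / 2)).filter
      (fun x : ℤ => ((x : ℤ) : ZMod (D.q ^ 2)) = r)).card : ℝ) ≤ 3 * D.n / (D.q : ℝ) ^ 2 := by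
  have hq : 0 < D.q := lt_trans (by norm_num) h.q_big
  have hQ : 0 < D.q ^ 2 := pow_pos hq 2
  have hQ' : (0 : ℝ) < (D.q : ℝ) ^ 2 := by exact_mod_cast hQ
  have hn := npos h
  have h1 := card_class_le (D.q ^ 2) hQ ((D.n : ℤ) / 2 + 1) ((5 * (D.n : ℤ) - 1) / 2) r
  refine h1.trans ?_
  apply max_le
  · positivity
  · have h2 : ((5 * (D.n : ℤ) - 1) / 2) - ((D.n : ℤ) / 2 + 1) ≤ 2 * D.n := by omega
    have h3 : ((((5 * (D.n : ℤ) - 1) / 2 : ℤ) : ℝ) - (((D.n : ℤ) / 2 + 1 : ℤ) : ℝ)) ≤ 2 * D.n := by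
      exact_mod_cast h2
    have h4 := Q_le_n h
    have h5 : (1 : ℝ) ≤ D.n / (D.q : ℝ) ^ 2 := by
      rw [le_div_iff₀ hQ', one_mul]
      exact h4
    push_cast at h3 ⊢
    calc _ ≤ 2 * (D.n : ℝ) / (D.q : ℝ) ^ 2 + D.n / (D.q : ℝ) ^ 2 := by
          apply add_le_add _ h5
          gcongr
      _ = 3 * D.n / (D.q : ℝ) ^ 2 := by ring

open Classical in
private theorem uL_bd (h : D.Reg κ c) (u : ZMod (D.q ^ 2)) :
    ((D.Ze.filter (fun x => u = unL D.q x)).card : ℝ) ≤ 3 * D.n / (D.q : ℝ) ^ 2 := by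
  have h3 : 3 < D.q := lt_trans (by norm_num) h.q_big
  refine le_trans ?_ (cls_bd h (lam D.q u))
  have h1 : D.Ze.filter (fun x => u = unL D.q x) ⊆
      (Finset.Icc ((D.n : ℤ) / 2 + 1) ((5 * (D.n : ℤ) - 1) / 2)).filter
        (fun x : ℤ => ((x : ℤ) : ZMod (D.q ^ 2)) = lam D.q u) := by
    intro x hx
    rw [Finset.mem_filter] at hx ⊢
    refine ⟨Ze_sub h hx.1, ?_⟩
    rw [hx.2]
    unfold unL
    rw [lam_lamI h.q_prime h3]
  exact_mod_cast Finset.card_le_card h1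

open Classical in
private theorem uD_bd (h : D.Reg κ c) (u : ZMod (D.q ^ 2)) (a : ℤ) :
    ((D.Ze.filter (fun x => u = unD D.q |x - a|)).card : ℝ) ≤ 6 * D.n / (D.q : ℝ) ^ 2 := by
  have h1 : D.Ze.filter (fun x => u = unD D.q |x - a|) ⊆
      (Finset.Icc ((D.n : ℤ) / 2 + 1) ((5 * (D.n : ℤ) - 1) / 2)).filter
        (fun x : ℤ => ((x : ℤ) : ZMod (D.q ^ 2)) = a + del D.q u) ∪
      (Finset.Icc ((D.n : ℤ) / 2 + 1) ((5 * (D.n : ℤ) - 1) / 2)).filter
        (fun x : ℤ => ((x : ℤ) : ZMod (D.q ^ 2)) = a - del D.q u) := by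
    intro x hx
    rw [Finset.mem_filter] at hx
    have h2 : ((|x - a| : ℤ) : ZMod (D.q ^ 2)) = del D.q u := by
      rw [hx.2]
      unfold unD
      rw [del_delI]
    rw [Finset.mem_union, Finset.mem_filter, Finset.mem_filter]
    rcases abs_choice (x - a) with h3 | h3
    · left
      refine ⟨Ze_sub h hx.1, ?_⟩
      rw [← h2, h3]
      push_cast
      ring
    · right
      refine ⟨Ze_sub h hx.1, ?_⟩
      rw [← h2, h3]
      push_cast
      ring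
  have h4 := (Finset.card_le_card h1).trans (Finset.card_union_le _ _)
  have h5 := cls_bd h ((a : ZMod (D.q ^ 2)) + del D.q u)
  have h6 := cls_bd h ((a : ZMod (D.q ^ 2)) - del D.q u)
  have h7 : ((D.Ze.filter (fun x => u = unD D.q |x - a|)).card : ℝ) ≤
      3 * D.n / (D.q : ℝ) ^ 2 + 3 * D.n / (D.q : ℝ) ^ 2 := by
    refine le_trans ?_ (add_le_add h5 h6)
    exact_mod_cast h4
  refine h7.trans (le_of_eq ?_)
  ring

open Classical in
private theorem inf_bd (h : D.Reg κ c) (u : ZMod (D.q ^ 2)) (a y1 y2 : ℤ) :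
    ((D.Ze.filter (fun x => u ∈ ({unL D.q x, unD D.q |x - a|, unD D.q |x - y1|,
      unD D.q |x - y2|} : Finset (ZMod (D.q ^ 2))))).card : ℝ) ≤ 21 * D.n / (D.q : ℝ) ^ 2 := by
  have h1 : D.Ze.filter (fun x => u ∈ ({unL D.q x, unD D.q |x - a|, unD D.q |x - y1|,
      unD D.q |x - y2|} : Finset (ZMod (D.q ^ 2)))) ⊆
      (D.Ze.filter (fun x => u = unL D.q x) ∪ D.Ze.filter (fun x => u = unD D.q |x - a|)) ∪
      (D.Ze.filter (fun x => u = unD D.q |x - y1|) ∪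
        D.Ze.filter (fun x => u = unD D.q |x - y2|)) := by
    intro x hx
    simp only [Finset.mem_filter, Finset.mem_insert, Finset.mem_singleton, Finset.mem_union]
      at hx ⊢
    tauto
  have h2 := Finset.card_le_card h1
  have h3 := h2.trans (Finset.card_union_le _ _)
  have h4 := h3.trans (add_le_add (Finset.card_union_le _ _) (Finset.card_union_le _ _))
  have h5 := uL_bd h u
  have h6 := uD_bd h u a
  have h7 := uD_bd h u y1
  have h8 := uD_bd h u y2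
  have h9 : ((D.Ze.filter (fun x => u ∈ ({unL D.q x, unD D.q |x - a|, unD D.q |x - y1|,
      unD D.q |x - y2|} : Finset (ZMod (D.q ^ 2))))).card : ℝ) ≤
      (3 * D.n / (D.q : ℝ) ^ 2 + 6 * D.n / (D.q : ℝ) ^ 2) +
      (6 * D.n / (D.q : ℝ) ^ 2 + 6 * D.n / (D.q : ℝ) ^ 2) := by
    refine le_trans ?_ (add_le_add (add_le_add h5 h6) (add_le_add h7 h8))
    exact_mod_cast h4
  refine h9.trans (le_of_eq ?_)
  ring

theorem Psi_conc (h : D.Reg κ c) (hκ : κ ≤ 1 / 4) {e : ℝ} (he : 0 ≤ e) (he1 : e ≤ 1 / 10)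
    (b : Bool) (a y1 y2 : ℤ) (t : ℝ) (ht : 0 ≤ t) :
    Pr (fun θ : D.Om => t ≤ |D.Psi e θ b a y1 y2 - D.sig e b a y1 y2|) ≤ D.cbd t := by
  classical
  have hn : (0 : ℝ) < D.n := by exact_mod_cast npos h
  have hq : 0 < D.q := lt_trans (by norm_num) h.q_big
  have hq' : (0 : ℝ) < D.q := by exact_mod_cast hq
  have hQ' : (0 : ℝ) < (D.q : ℝ) ^ 2 := by positivity
  have key := conc_sum (ι := ZMod (D.q ^ 2)) (Ω := ZMod (2 * D.S)) D.Ze
    (fun x θ => D.W0 e θ b a y1 y2 x)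
    (fun x => ({unL D.q x, unD D.q |x - a|, unD D.q |x - y1|, unD D.q |x - y2|} :
      Finset (ZMod (D.q ^ 2))))
    (400 / D.n) (21 * D.n / (D.q : ℝ) ^ 2) 4 (2 * D.n) (by positivity) (by positivity)
    (by norm_num) (by positivity) (Ze_card h)
    (by
      intro x _ s s' hs
      have e1 := hs (unL D.q x) (by simp)
      have e2 := hs (unD D.q |x - a|) (by simp)
      have e3 := hs (unD D.q |x - y1|) (by simp)
      have e4 := hs (unD D.q |x - y2|) (by simp)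
      have k1 := occ_congr h s s' x e1
      have k2 := used_congr h s s' |x - a| e2
      have k3 := used_congr h s s' |x - y1| e3
      have k4 := used_congr h s s' |x - y2| e4
      have k5 : D.edg s a y1 y2 x ↔ D.edg s' a y1 y2 x := by
        unfold edg av
        rw [k1, k2, k3, k4]
      unfold W0
      by_cases hE : D.edg s a y1 y2 x
      · rw [if_pos hE, if_pos (k5.1 hE)]
      · rw [if_neg hE, if_neg (fun h' => hE (k5.2 h'))])
    (by
      intro x _ s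
      obtain ⟨h1, h2⟩ := W0_bd h hκ he he1 s b a y1 y2 x
      rw [abs_of_nonneg h1]
      exact h2)
    (by
      intro x _
      have h1 : (({unL D.q x, unD D.q |x - a|, unD D.q |x - y1|, unD D.q |x - y2|} :
        Finset (ZMod (D.q ^ 2))).card) ≤ 4 := Finset.card_le_four
      exact_mod_cast h1)
    (fun u => by
      have h1 := inf_bd h u a y1 y2
      refine le_trans (le_of_eq ?_) h1
      congr 2)
    t ht
  have h2 : Pr (fun θ : D.Om => t ≤ |D.Psi e θ b a y1 y2 - D.sig e b a y1 y2|) ≤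
      2 * Real.exp (-(t ^ 2 / (8 * (400 / (D.n : ℝ)) ^ 2 * (21 * D.n / (D.q : ℝ) ^ 2) * 4 *
        (2 * D.n)))) := key
  refine h2.trans ?_
  unfold cbd
  have h3 : t ^ 2 * √(D.q : ℝ) / 10 ^ 12 ≤
      t ^ 2 / (8 * (400 / (D.n : ℝ)) ^ 2 * (21 * D.n / (D.q : ℝ) ^ 2) * 4 * (2 * D.n)) := by
    have h4 : 8 * (400 / (D.n : ℝ)) ^ 2 * (21 * D.n / (D.q : ℝ) ^ 2) * 4 * (2 * D.n) =
        215040000 / (D.q : ℝ) ^ 2 := by
      field_simp
      norm_num
    rw [h4]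
    have h5 : t ^ 2 / (215040000 / (D.q : ℝ) ^ 2) = t ^ 2 * (D.q : ℝ) ^ 2 / 215040000 := by
      field_simp
    rw [h5]
    have h6 : √(D.q : ℝ) ≤ (D.q : ℝ) ^ 2 := by
      have h7 : (1 : ℝ) ≤ D.q := by exact_mod_cast hq
      rw [Real.sqrt_le_left (by positivity)]
      nlinarith [sq_nonneg ((D.q : ℝ)), pow_le_pow_right₀ h7 (show 1 ≤ 4 by norm_num)]
    have h8 : t ^ 2 * √(D.q : ℝ) ≤ t ^ 2 * (D.q : ℝ) ^ 2 := by gcongr
    have h9 : 0 ≤ t ^ 2 * √(D.q : ℝ) := by positivity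
    rw [div_le_div_iff₀ (by norm_num) (by norm_num)]
    nlinarith
  gcongr

end Dat

end Pool.Agent.PGr
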