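import Mathlib
import Pool.Agent.PGr.CDefs
import Pool.Agent.PGr.CSum
import Pool.Agent.PGr.EBas
import Pool.Agent.PGr.EDc

/-!
# PGr, module CSw: concentration of the switch sums `SI`, `SU`

Always `h : D.Reg κ c`. `|γ d'| ≤ 1/n` for `d' ∈ S`.

PLAN (SI; SU is the same with other forms). For fixed `m, θ` at most one `d' ∈ S` satisfies
`swIr θ d m d d'` (`d' = yy1 + anc m - 2 yy2 - d`), so the inner sum is bounded by `1/n`;
`|IR| ≤ |It| ≤ 2n` (h.IR_sub, EDc.It_card): `|SI| ≤ 2`.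
`conc_sum` with `A = IR`, `B = 1/n`, and `U m` = the units (classes a, c1, c2, d in `ZMod Q`, s = ±1)
SI: `lamI c1, lamI c2, lamI (c2 + d), lamI (a + c1 - c2 - d), delI (s (c2 + d - c1)),
  delI (s (c2 + d - a)), delI (a + c1 - 2 c2 - d)` and `delI (-(a + c1 - 2 c2 - d))` (10 units);
SU: `lamI c1, lamI c2, lamI (a - d), lamI (-a + c1 + c2 + d), delI (s (a - d - c1)),
  delI (s (a - d - c2)), delI (s (2a - c1 - c2 - d))` (10 units). h = 10.
DEPENDENCE (θ, θ' equal on `U m`): `m ∈ IR` is pure (h.IR_pure), so `nb1, nb2 ∈ Sv` and their units are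
`lamI c1, lamI c2` (EBas.lamI_cls): the labels agree (lab_congr), so the equation and the list
condition agree, and so do the label conditions and the differences, which are given by
the labels: x = y2 + d has class c2 + d, x'' = y2 + d' = y1 + a - x has class a + c1 - c2 - d
(EBas.cls_lab); the differences of x are `|x - a|, |x - y1|, |x - y2| = |d|`, those of x'' are
`|x'' - y1| = |x - a|`, `|x'' - a| = |x - y1|`, `|x'' - y2| = |d'|` where `d'` has class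
`a + c1 - 2 c2 - d`. In `edgD θ d` the condition on `used θ z` is not asked for `z = d`; if `|d| ≠ d`
(d < 0), then both edges are impossible or the difference |d| is in the list up to sign: simplest: add
the two units `delI (± d)` only if `d < 0`... NOTE: `edgD θ d .. (y2 + d)` requires `|x - y2| = |d| ∈ D0`
and (`|d| = d` or `¬ used θ |d|`). To avoid this case the theorems assume `0 ≤ d`.
For `d' < 0`: `|d'|` has class `-(a + c1 - 2c2 - d)`, therefore both signs are in `U m`.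
INFLUENCE: for each u every one of the 10 equations fixes one combination `cmb j m` (SI: j = 1, 2, 2,
4, 7, 6, 9; SU: 1, 2, 0, 3, 5, 6, 8): at most `n/√q` items of IR by `h.infR`: `M = 10 n/√q`.
`8 B^2 M h N = 8 * 10 * 10 * 2 / √q ≤ 10^12/√q`.
-/

noncomputable section

namespace Pool.Agent.PGr

open Finset

namespace Dat

variable {D : Dat} {κ c : ℝ}

private theorem npos (h : D.Reg κ c) : (0 : ℝ) < D.n := by
  have h1 : 0 < D.q ^ 6 := pow_pos (lt_trans (by norm_num) h.q_big) 6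
  have h2 : 0 < D.n := lt_of_lt_of_le h1 h.q_high
  exact_mod_cast h2

private theorem sqpos (h : D.Reg κ c) : 0 < √(D.q : ℝ) := by
  have h1 : 0 < D.q := lt_trans (by norm_num) h.q_big
  exact Real.sqrt_pos.2 (by exact_mod_cast h1)

private theorem q3 (h : D.Reg κ c) : 3 < D.q := lt_trans (by norm_num) h.q_big

private theorem sum_one {S : Finset ℤ} (P : ℤ → Prop) [DecidablePred P] {γ : ℤ → ℝ} {B : ℝ}
    (hB : 0 ≤ B) (hγ : ∀ d ∈ S, |γ d| ≤ B) (hu : ∀ d d', P d → P d' → d = d') :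
    |∑ d ∈ S, if P d then γ d else 0| ≤ B := by
  by_cases hex : ∃ d0 ∈ S, P d0
  · obtain ⟨d0, h0, hP⟩ := hex
    rw [Finset.sum_eq_single_of_mem d0 h0]
    · rw [if_pos hP]
      exact hγ d0 h0
    · intro b _ hne
      rw [if_neg (fun hb => hne (hu b d0 hb hP))]
  · push Not at hex
    rw [Finset.sum_eq_zero]
    · simpa using hB
    · intro d hd
      rw [if_neg (hex d hd)]

open Classical in
private def gI (D : Dat) (d : ℤ) (S : Finset ℤ) (γ : ℤ → ℝ) (m : ℕ) (θ : D.Om) : ℝ :=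
  ∑ d' ∈ S, if D.swIr θ d m d d' then γ d' else 0

open Classical in
private def gU (D : Dat) (d : ℤ) (S : Finset ℤ) (γ : ℤ → ℝ) (m : ℕ) (θ : D.Om) : ℝ :=
  ∑ d' ∈ S, if D.swUr θ d m d d' then γ d' else 0

private theorem SI_eq (θ : D.Om) (d : ℤ) (S : Finset ℤ) (γ : ℤ → ℝ) :
    D.SI θ d S γ = ∑ m ∈ D.IR, gI D d S γ m θ := rfl

private theorem SU_eq (θ : D.Om) (d : ℤ) (S : Finset ℤ) (γ : ℤ → ℝ) :
    D.SU θ d S γ = ∑ m ∈ D.IR, gU D d S γ m θ := rfl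

private theorem gI_bd (D : Dat) (d : ℤ) (S : Finset ℤ) (γ : ℤ → ℝ)
    (hγ : ∀ d' ∈ S, |γ d'| ≤ 1 / D.n) (m : ℕ) (θ : D.Om) : |gI D d S γ m θ| ≤ 1 / D.n := by
  classical
  unfold gI
  refine sum_one _ (by positivity) hγ ?_
  intro d1 d2 h1 h2
  have e1 := h1.1
  have e2 := h2.1
  linarith

private theorem gU_bd (D : Dat) (d : ℤ) (S : Finset ℤ) (γ : ℤ → ℝ)
    (hγ : ∀ d' ∈ S, |γ d'| ≤ 1 / D.n) (m : ℕ) (θ : D.Om) : |gU D d S γ m θ| ≤ 1 / D.n := by
  classical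
  unfold gU
  refine sum_one _ (by positivity) hγ ?_
  intro d1 d2 h1 h2
  have e1 := h1.1
  have e2 := h2.1
  linarith

private theorem IR_card (h : D.Reg κ c) : (D.IR.card : ℝ) ≤ 2 * D.n := by
  have h1 : D.IR.card ≤ D.It.card := Finset.card_le_card h.IR_sub
  have h2 : (D.IR.card : ℝ) ≤ D.It.card := by exact_mod_cast h1
  exact h2.trans (It_card h)

private theorem sum_bd (h : D.Reg κ c) (g : ℕ → ℝ) (hg : ∀ m ∈ D.IR, |g m| ≤ 1 / D.n) :
    |∑ m ∈ D.IR, g m| ≤ 2 := by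
  have hn := npos h
  refine (Finset.abs_sum_le_sum_abs _ _).trans ?_
  refine (Finset.sum_le_sum hg).trans ?_
  rw [Finset.sum_const, nsmul_eq_mul]
  calc (D.IR.card : ℝ) * (1 / D.n) ≤ (2 * D.n) * (1 / D.n) :=
        mul_le_mul_of_nonneg_right (IR_card h) (by positivity)
    _ = 2 := by field_simp

private theorem conc_IR (h : D.Reg κ c) (g : ℕ → D.Om → ℝ) (U : ℕ → Finset (ZMod (D.q ^ 2)))
    (hdep : ∀ m ∈ D.IR, ∀ θ θ' : D.Om, (∀ u ∈ U m, θ u = θ' u) → g m θ = g m θ')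
    (hbd : ∀ m ∈ D.IR, ∀ θ, |g m θ| ≤ 1 / D.n)
    (hU : ∀ m ∈ D.IR, ((U m).card : ℝ) ≤ 10)
    (hinf : ∀ u, ((D.IR.filter (fun m => u ∈ U m)).card : ℝ) ≤ 10 * D.n / √(D.q : ℝ))
    (t : ℝ) (ht : 0 ≤ t) :
    Pr (fun θ : D.Om => t ≤ |∑ m ∈ D.IR, g m θ - Ex (fun θ : D.Om => ∑ m ∈ D.IR, g m θ)|) ≤
      D.cbd t := by
  have hn := npos h
  have hs := sqpos h
  refine (conc_sum D.IR g U (1 / D.n) (10 * D.n / √(D.q : ℝ)) 10 (2 * D.n) (by positivity)
    (by positivity) (by norm_num) (by positivity) (IR_card h) hdep hbd hU hinf t ht).trans ?_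
  unfold cbd
  refine mul_le_mul_of_nonneg_left ?_ (by norm_num)
  refine Real.exp_le_exp.2 (neg_le_neg ?_)
  have e : 8 * (1 / (D.n : ℝ)) ^ 2 * (10 * D.n / √(D.q : ℝ)) * 10 * (2 * D.n) =
      1600 / √(D.q : ℝ) := by
    field_simp
    norm_num
  rw [e, div_div_eq_mul_div]
  have : 0 ≤ t ^ 2 * √(D.q : ℝ) := by positivity
  rw [div_le_div_iff₀ (by norm_num) (by norm_num)]
  nlinarith

private theorem infl (h : D.Reg κ c) (U : ℕ → Finset (ZMod (D.q ^ 2))) (u : ZMod (D.q ^ 2))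
    (T : List (Fin 10 × ZMod (D.q ^ 2))) (hT : T.length ≤ 10)
    (hU : ∀ m ∈ D.IR, u ∈ U m → ∃ p ∈ T, D.cmb p.1 m = p.2) :
    ((D.IR.filter (fun m => u ∈ U m)).card : ℝ) ≤ 10 * D.n / √(D.q : ℝ) := by
  classical
  have hn := npos h
  have hs := sqpos h
  have hsub : D.IR.filter (fun m => u ∈ U m) ⊆
      T.toFinset.biUnion (fun p => D.IR.filter (fun m => D.cmb p.1 m = p.2)) := by
    intro m hm
    rw [Finset.mem_filter] at hm
    obtain ⟨p, hp, e⟩ := hU m hm.1 hm.2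
    exact Finset.mem_biUnion.2 ⟨p, List.mem_toFinset.2 hp, Finset.mem_filter.2 ⟨hm.1, e⟩⟩
  have h1 := (Finset.card_le_card hsub).trans Finset.card_biUnion_le
  have h2 : ((D.IR.filter (fun m => u ∈ U m)).card : ℝ) ≤
      ∑ p ∈ T.toFinset, ((D.IR.filter (fun m => D.cmb p.1 m = p.2)).card : ℝ) := by
    exact_mod_cast h1
  refine h2.trans ?_
  have h3 : ∀ p ∈ T.toFinset, ((D.IR.filter (fun m => D.cmb p.1 m = p.2)).card : ℝ) ≤
      D.n / √(D.q : ℝ) := by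
    intro p _
    rw [le_div_iff₀ hs]
    have := h.infR p.1 p.2
    convert this using 3
  refine (Finset.sum_le_sum h3).trans ?_
  rw [Finset.sum_const, nsmul_eq_mul]
  have h4 : (T.toFinset.card : ℝ) ≤ 10 := by
    exact_mod_cast (List.toFinset_card_le T).trans hT
  calc (T.toFinset.card : ℝ) * (D.n / √(D.q : ℝ)) ≤ 10 * (D.n / √(D.q : ℝ)) :=
        mul_le_mul_of_nonneg_right h4 (by positivity)
    _ = _ := by ring

/-- The ten units. -/
private def Ug (D : Dat) (l1 l2 w1 w2 v1 v2 v3 : ZMod (D.q ^ 2)) : List (ZMod (D.q ^ 2)) :=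
  [lamI D.q l1, lamI D.q l2, lamI D.q w1, lamI D.q w2, delI D.q v1, delI D.q (-v1), delI D.q v2,
    delI D.q (-v2), delI D.q v3, delI D.q (-v3)]

private theorem Ug_card (D : Dat) (l1 l2 w1 w2 v1 v2 v3 : ZMod (D.q ^ 2)) :
    (((Ug D l1 l2 w1 w2 v1 v2 v3).toFinset.card : ℕ) : ℝ) ≤ 10 := by
  have := List.toFinset_card_le (Ug D l1 l2 w1 w2 v1 v2 v3)
  have h2 : (Ug D l1 l2 w1 w2 v1 v2 v3).length = 10 := rfl
  rw [h2] at this
  exact_mod_cast this

private theorem lam_eq (h : D.Reg κ c) {x u : ZMod (D.q ^ 2)} (e : u = lamI D.q x) :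
    x = lam D.q u := by
  rw [e, lam_lamI h.q_prime (q3 h)]

private theorem del_eq {x u : ZMod (D.q ^ 2)} (e : u = delI D.q x) : x = del D.q u := by
  rw [e, del_delI]

private theorem used_abs (h : D.Reg κ c) {θ θ' : D.Om} (z : ℤ) (v : ZMod (D.q ^ 2))
    (hv : ((z : ℤ) : ZMod (D.q ^ 2)) = v)
    (e1 : θ (delI D.q v) = θ' (delI D.q v)) (e2 : θ (delI D.q (-v)) = θ' (delI D.q (-v))) :
    D.used θ |z| ↔ D.used θ' |z| := by
  apply used_congr h
  unfold unD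
  rcases abs_choice z with hz | hz
  · rw [hz, hv]
    exact e1
  · rw [hz]
    push_cast
    rw [hv]
    exact e2

private theorem edgD_imp {θ θ' : D.Om} {r a y1 y2 x : ℤ} (ho : D.occ θ x ↔ D.occ θ' x)
    (h0 : |x - a| = r ∨ (D.used θ |x - a| ↔ D.used θ' |x - a|))
    (h1 : |x - y1| = r ∨ (D.used θ |x - y1| ↔ D.used θ' |x - y1|))
    (h2 : |x - y2| = r ∨ (D.used θ |x - y2| ↔ D.used θ' |x - y2|))
    (he : D.edgD θ r a y1 y2 x) : D.edgD θ' r a y1 y2 x := by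
  obtain ⟨a1, a2, ⟨a3, a4⟩, ⟨a5, a6⟩, ⟨a7, a8⟩, a9⟩ := he
  refine ⟨a1, fun hh => a2 (ho.2 hh), ⟨a3, ?_⟩, ⟨a5, ?_⟩, ⟨a7, ?_⟩, a9⟩
  · rcases h0 with h0 | h0
    · exact Or.inl h0
    · exact a4.imp id fun hh hh' => hh (h0.2 hh')
  · rcases h1 with h1 | h1
    · exact Or.inl h1
    · exact a6.imp id fun hh hh' => hh (h1.2 hh')
  · rcases h2 with h2 | h2
    · exact Or.inl h2
    · exact a8.imp id fun hh hh' => hh (h2.2 hh')

/-- the units of the I-switches -/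
private def UI (D : Dat) (d : ℤ) (m : ℕ) : Finset (ZMod (D.q ^ 2)) :=
  (Ug D (D.cls (D.nb1 m)) (D.cls (D.nb2 m)) (D.cls (D.nb2 m) + d)
    ((D.anc m : ℤ) + D.cls (D.nb1 m) - D.cls (D.nb2 m) - d)
    (D.cls (D.nb2 m) + d - D.cls (D.nb1 m)) (D.cls (D.nb2 m) + d - (D.anc m : ℤ))
    ((D.anc m : ℤ) + D.cls (D.nb1 m) - 2 * D.cls (D.nb2 m) - d)).toFinset

/-- the units of the U-switches -/
private def UU (D : Dat) (d : ℤ) (m : ℕ) : Finset (ZMod (D.q ^ 2)) :=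
  (Ug D (D.cls (D.nb1 m)) (D.cls (D.nb2 m)) ((D.anc m : ℤ) - d)
    (-(D.anc m : ℤ) + D.cls (D.nb1 m) + D.cls (D.nb2 m) + d)
    ((D.anc m : ℤ) - d - D.cls (D.nb1 m)) ((D.anc m : ℤ) - d - D.cls (D.nb2 m))
    (2 * (D.anc m : ℤ) - D.cls (D.nb1 m) - D.cls (D.nb2 m) - d)).toFinset

private theorem agree {D : Dat} {l1 l2 w1 w2 v1 v2 v3 : ZMod (D.q ^ 2)} {θ θ' : D.Om}
    (hU : ∀ u ∈ (Ug D l1 l2 w1 w2 v1 v2 v3).toFinset, θ u = θ' u) :
    θ (lamI D.q l1) = θ' (lamI D.q l1) ∧ θ (lamI D.q l2) = θ' (lamI D.q l2) ∧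
    θ (lamI D.q w1) = θ' (lamI D.q w1) ∧ θ (lamI D.q w2) = θ' (lamI D.q w2) ∧
    (θ (delI D.q v1) = θ' (delI D.q v1) ∧ θ (delI D.q (-v1)) = θ' (delI D.q (-v1))) ∧
    (θ (delI D.q v2) = θ' (delI D.q v2) ∧ θ (delI D.q (-v2)) = θ' (delI D.q (-v2))) ∧
    (θ (delI D.q v3) = θ' (delI D.q v3) ∧ θ (delI D.q (-v3)) = θ' (delI D.q (-v3))) := by
  have hU' : ∀ u ∈ Ug D l1 l2 w1 w2 v1 v2 v3, θ u = θ' u := fun u hu =>
    hU u (List.mem_toFinset.2 hu)
  refine ⟨?_, ?_, ?_, ?_, ⟨?_, ?_⟩, ⟨?_, ?_⟩, ⟨?_, ?_⟩⟩ <;>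
  · apply hU'
    simp [Ug]

private theorem lab_eq (h : D.Reg κ c) {θ θ' : D.Om} {v : ℕ} (hv : v ∈ D.Sv)
    (e : θ (lamI D.q (D.cls v)) = θ' (lamI D.q (D.cls v))) : D.lab θ v = D.lab θ' v := by
  rw [lamI_cls h hv] at e
  exact lab_congr θ θ' v e

private theorem swIr_imp (h : D.Reg κ c) {m : ℕ} (hm : m ∈ D.IR) {d : ℤ} (hd : 0 ≤ d)
    {θ θ' : D.Om} (hU : ∀ u ∈ UI D d m, θ u = θ' u) (d' : ℤ) (hs : D.swIr θ d m d d') :
    D.swIr θ' d m d d' := by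
  obtain ⟨a1, a2, a3, a4, ⟨a5, a6⟩, ⟨a7, a8⟩, a9, a10⟩ := agree hU
  obtain ⟨p1, p2, -, -⟩ := h.IR_pure m hm
  have y1 : D.yy1 θ' m = D.yy1 θ m := (lab_eq h p1 a1).symm
  have y2 : D.yy2 θ' m = D.yy2 θ m := (lab_eq h p2 a2).symm
  have c1 : ((D.yy1 θ m : ℤ) : ZMod (D.q ^ 2)) = D.cls (D.nb1 m) := cls_lab h θ _
  have c2 : ((D.yy2 θ m : ℤ) : ZMod (D.q ^ 2)) = D.cls (D.nb2 m) := cls_lab h θ _
  obtain ⟨s1, s2, s3, s4⟩ := hs
  have ha := used_abs h (θ := θ) (θ' := θ') (D.yy2 θ m + d - D.anc m)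
    (D.cls (D.nb2 m) + d - (D.anc m : ℤ)) (by push_cast; rw [c2]) a7 a8
  have hb := used_abs h (θ := θ) (θ' := θ') (D.yy2 θ m + d - D.yy1 θ m)
    (D.cls (D.nb2 m) + d - D.cls (D.nb1 m)) (by push_cast; rw [c1, c2]) a5 a6
  have hd' : d' = D.yy1 θ m + D.anc m - 2 * D.yy2 θ m - d := by linarith
  have hc := used_abs h (θ := θ) (θ' := θ') d'
    ((D.anc m : ℤ) + D.cls (D.nb1 m) - 2 * D.cls (D.nb2 m) - d)
    (by rw [hd']; push_cast; rw [c1, c2]; ring) a9 a10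
  have o1 : D.occ θ (D.yy2 θ m + d) ↔ D.occ θ' (D.yy2 θ m + d) := by
    apply occ_congr h
    unfold unL
    push_cast
    rw [c2]
    exact a3
  have o2 : D.occ θ (D.yy2 θ m + d') ↔ D.occ θ' (D.yy2 θ m + d') := by
    apply occ_congr h
    have e : ((D.yy2 θ m + d' : ℤ) : ZMod (D.q ^ 2)) =
        (D.anc m : ℤ) + D.cls (D.nb1 m) - D.cls (D.nb2 m) - d := by
      rw [hd']
      push_cast
      rw [c1, c2]
      ring
    unfold unL
    rw [e]
    exact a4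
  unfold swIr
  rw [y1, y2]
  refine ⟨s1, ?_, ?_, s4⟩
  · refine edgD_imp o1 (Or.inr ha) (Or.inr hb) (Or.inl ?_) s2
    rw [add_sub_cancel_left, abs_of_nonneg hd]
  · have e0 : |D.yy2 θ m + d' - D.anc m| = |D.yy2 θ m + d - D.yy1 θ m| := by
      rw [← abs_neg]
      congr 1
      rw [hd']
      ring
    have e1 : |D.yy2 θ m + d' - D.yy1 θ m| = |D.yy2 θ m + d - D.anc m| := by
      rw [← abs_neg]
      congr 1
      rw [hd']
      ring
    have e2 : |D.yy2 θ m + d' - D.yy2 θ m| = |d'| := by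
      rw [add_sub_cancel_left]
    refine edgD_imp o2 (Or.inr ?_) (Or.inr ?_) (Or.inr ?_) s3
    · rw [e0]
      exact hb
    · rw [e1]
      exact ha
    · rw [e2]
      exact hc

private theorem swUr_imp (h : D.Reg κ c) {m : ℕ} (hm : m ∈ D.IR) {d : ℤ} (hd : 0 ≤ d)
    {θ θ' : D.Om} (hU : ∀ u ∈ UU D d m, θ u = θ' u) (d' : ℤ) (hs : D.swUr θ d m d d') :
    D.swUr θ' d m d d' := by
  obtain ⟨a1, a2, a3, a4, ⟨a5, a6⟩, ⟨a7, a8⟩, a9, a10⟩ := agree hU
  obtain ⟨p1, p2, -, -⟩ := h.IR_pure m hm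
  have y1 : D.yy1 θ' m = D.yy1 θ m := (lab_eq h p1 a1).symm
  have y2 : D.yy2 θ' m = D.yy2 θ m := (lab_eq h p2 a2).symm
  have c1 : ((D.yy1 θ m : ℤ) : ZMod (D.q ^ 2)) = D.cls (D.nb1 m) := cls_lab h θ _
  have c2 : ((D.yy2 θ m : ℤ) : ZMod (D.q ^ 2)) = D.cls (D.nb2 m) := cls_lab h θ _
  obtain ⟨s1, s2, s3, s4⟩ := hs
  have ha := used_abs h (θ := θ) (θ' := θ') (D.anc m - d - D.yy1 θ m)
    ((D.anc m : ℤ) - d - D.cls (D.nb1 m)) (by push_cast; rw [c1]) a5 a6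
  have hb := used_abs h (θ := θ) (θ' := θ') (D.anc m - d - D.yy2 θ m)
    ((D.anc m : ℤ) - d - D.cls (D.nb2 m)) (by push_cast; rw [c2]) a7 a8
  have hd' : d' = 2 * D.anc m - D.yy1 θ m - D.yy2 θ m - d := by linarith
  have hc := used_abs h (θ := θ) (θ' := θ') d'
    (2 * (D.anc m : ℤ) - D.cls (D.nb1 m) - D.cls (D.nb2 m) - d)
    (by rw [hd']; push_cast; rw [c1, c2]) a9 a10
  have o1 : D.occ θ (D.anc m - d) ↔ D.occ θ' (D.anc m - d) := by
    apply occ_congr h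
    unfold unL
    push_cast
    exact a3
  have o2 : D.occ θ (D.anc m - d') ↔ D.occ θ' (D.anc m - d') := by
    apply occ_congr h
    have e : ((D.anc m - d' : ℤ) : ZMod (D.q ^ 2)) =
        -(D.anc m : ℤ) + D.cls (D.nb1 m) + D.cls (D.nb2 m) + d := by
      rw [hd']
      push_cast
      rw [c1, c2]
      ring
    unfold unL
    rw [e]
    exact a4
  unfold swUr
  rw [y1, y2]
  refine ⟨s1, ?_, ?_, s4⟩
  · refine edgD_imp o1 (Or.inl ?_) (Or.inr ha) (Or.inr hb) s2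
    rw [sub_sub_cancel_left, abs_neg, abs_of_nonneg hd]
  · have e0 : |D.anc m - d' - D.anc m| = |d'| := by
      rw [sub_sub_cancel_left, abs_neg]
    have e1 : |D.anc m - d' - D.yy1 θ m| = |D.anc m - d - D.yy2 θ m| := by
      rw [← abs_neg]
      congr 1
      rw [hd']
      ring
    have e2 : |D.anc m - d' - D.yy2 θ m| = |D.anc m - d - D.yy1 θ m| := by
      rw [← abs_neg]
      congr 1
      rw [hd']
      ring
    refine edgD_imp o2 (Or.inr ?_) (Or.inr ?_) (Or.inr ?_) s3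
    · rw [e0]
      exact hc
    · rw [e1]
      exact hb
    · rw [e2]
      exact ha

private theorem gI_dep (h : D.Reg κ c) {m : ℕ} (hm : m ∈ D.IR) {d : ℤ} (hd : 0 ≤ d)
    (S : Finset ℤ) (γ : ℤ → ℝ) (θ θ' : D.Om) (hU : ∀ u ∈ UI D d m, θ u = θ' u) :
    gI D d S γ m θ = gI D d S γ m θ' := by
  unfold gI
  refine Finset.sum_congr rfl fun d' _ => ?_
  have e : D.swIr θ d m d d' ↔ D.swIr θ' d m d d' :=
    ⟨swIr_imp h hm hd hU d', swIr_imp h hm hd (fun u hu => (hU u hu).symm) d'⟩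
  by_cases hs : D.swIr θ d m d d'
  · rw [if_pos hs, if_pos (e.1 hs)]
  · rw [if_neg hs, if_neg fun hs' => hs (e.2 hs')]

private theorem gU_dep (h : D.Reg κ c) {m : ℕ} (hm : m ∈ D.IR) {d : ℤ} (hd : 0 ≤ d)
    (S : Finset ℤ) (γ : ℤ → ℝ) (θ θ' : D.Om) (hU : ∀ u ∈ UU D d m, θ u = θ' u) :
    gU D d S γ m θ = gU D d S γ m θ' := by
  unfold gU
  refine Finset.sum_congr rfl fun d' _ => ?_
  have e : D.swUr θ d m d d' ↔ D.swUr θ' d m d d' :=
    ⟨swUr_imp h hm hd hU d', swUr_imp h hm hd (fun u hu => (hU u hu).symm) d'⟩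
  by_cases hs : D.swUr θ d m d d'
  · rw [if_pos hs, if_pos (e.1 hs)]
  · rw [if_neg hs, if_neg fun hs' => hs (e.2 hs')]

private theorem UI_inf (h : D.Reg κ c) (d : ℤ) (u : ZMod (D.q ^ 2)) :
    ((D.IR.filter (fun m => u ∈ UI D d m)).card : ℝ) ≤ 10 * D.n / √(D.q : ℝ) := by
  refine infl h (UI D d) u [(1, lam D.q u), (2, lam D.q u), (2, lam D.q u - d),
    (4, lam D.q u + d), (7, d - del D.q u), (7, d + del D.q u), (6, d - del D.q u),
    (6, d + del D.q u), (9, del D.q u + d), (9, d - del D.q u)] (by simp) ?_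
  intro m _ hu
  have hu' := List.mem_toFinset.1 hu
  unfold Ug at hu'
  simp only [List.mem_cons, List.not_mem_nil, or_false] at hu'
  rcases hu' with e | e | e | e | e | e | e | e | e | e
  · exact ⟨(1, lam D.q u), by simp, lam_eq h e⟩
  · exact ⟨(2, lam D.q u), by simp, lam_eq h e⟩
  · refine ⟨(2, lam D.q u - d), by simp, ?_⟩
    have := lam_eq h e
    simp only [cmb, comb]
    rw [← this]
    ring
  · refine ⟨(4, lam D.q u + d), by simp, ?_⟩
    have := lam_eq h e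
    simp only [cmb, comb]
    rw [← this]
    ring
  · refine ⟨(7, d - del D.q u), by simp, ?_⟩
    have := del_eq e
    simp only [cmb, comb]
    rw [← this]
    ring
  · refine ⟨(7, d + del D.q u), by simp, ?_⟩
    have := del_eq e
    simp only [cmb, comb]
    rw [← this]
    ring
  · refine ⟨(6, d - del D.q u), by simp, ?_⟩
    have := del_eq e
    simp only [cmb, comb]
    rw [← this]
    ring
  · refine ⟨(6, d + del D.q u), by simp, ?_⟩
    have := del_eq e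
    simp only [cmb, comb]
    rw [← this]
    ring
  · refine ⟨(9, del D.q u + d), by simp, ?_⟩
    have := del_eq e
    simp only [cmb, comb]
    rw [← this]
    ring
  · refine ⟨(9, d - del D.q u), by simp, ?_⟩
    have := del_eq e
    simp only [cmb, comb]
    rw [← this]
    ring

private theorem UU_inf (h : D.Reg κ c) (d : ℤ) (u : ZMod (D.q ^ 2)) :
    ((D.IR.filter (fun m => u ∈ UU D d m)).card : ℝ) ≤ 10 * D.n / √(D.q : ℝ) := by
  refine infl h (UU D d) u [(1, lam D.q u), (2, lam D.q u), (0, lam D.q u + d),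
    (3, lam D.q u - d), (5, d + del D.q u), (5, d - del D.q u), (6, d + del D.q u),
    (6, d - del D.q u), (8, -(del D.q u + d)), (8, -(d - del D.q u))] (by simp) ?_
  intro m _ hu
  have hu' := List.mem_toFinset.1 hu
  unfold Ug at hu'
  simp only [List.mem_cons, List.not_mem_nil, or_false] at hu'
  rcases hu' with e | e | e | e | e | e | e | e | e | e
  · exact ⟨(1, lam D.q u), by simp, lam_eq h e⟩
  · exact ⟨(2, lam D.q u), by simp, lam_eq h e⟩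
  · refine ⟨(0, lam D.q u + d), by simp, ?_⟩
    have := lam_eq h e
    simp only [cmb, comb]
    rw [← this]
    ring
  · refine ⟨(3, lam D.q u - d), by simp, ?_⟩
    have := lam_eq h e
    simp only [cmb, comb]
    rw [← this]
    ring
  · refine ⟨(5, d + del D.q u), by simp, ?_⟩
    have := del_eq e
    simp only [cmb, comb]
    rw [← this]
    ring
  · refine ⟨(5, d - del D.q u), by simp, ?_⟩
    have := del_eq e
    simp only [cmb, comb]
    rw [← this]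
    ring
  · refine ⟨(6, d + del D.q u), by simp, ?_⟩
    have := del_eq e
    simp only [cmb, comb]
    rw [← this]
    ring
  · refine ⟨(6, d - del D.q u), by simp, ?_⟩
    have := del_eq e
    simp only [cmb, comb]
    rw [← this]
    ring
  · refine ⟨(8, -(del D.q u + d)), by simp, ?_⟩
    have := del_eq e
    simp only [cmb, comb]
    rw [← this]
    ring
  · refine ⟨(8, -(d - del D.q u)), by simp, ?_⟩
    have := del_eq e
    simp only [cmb, comb]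
    rw [← this]
    ring

theorem SI_bd (h : D.Reg κ c) (θ : D.Om) (d : ℤ) (S : Finset ℤ) (γ : ℤ → ℝ)
    (hγ : ∀ d' ∈ S, |γ d'| ≤ 1 / D.n) : |D.SI θ d S γ| ≤ 2 := by
  rw [SI_eq]
  exact sum_bd h _ fun m _ => gI_bd D d S γ hγ m θ

theorem SU_bd (h : D.Reg κ c) (θ : D.Om) (d : ℤ) (S : Finset ℤ) (γ : ℤ → ℝ)
    (hγ : ∀ d' ∈ S, |γ d'| ≤ 1 / D.n) : |D.SU θ d S γ| ≤ 2 := by
  rw [SU_eq]
  exact sum_bd h _ fun m _ => gU_bd D d S γ hγ m θ

theorem SI_conc (h : D.Reg κ c) {d : ℤ} (hd : 0 ≤ d) (S : Finset ℤ) (γ : ℤ → ℝ)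
    (hγ : ∀ d' ∈ S, |γ d'| ≤ 1 / D.n) (t : ℝ) (ht : 0 ≤ t) :
    Pr (fun θ : D.Om => t ≤ |D.SI θ d S γ - Ex (fun θ : D.Om => D.SI θ d S γ)|) ≤ D.cbd t := by
  simp only [SI_eq]
  exact conc_IR h (gI D d S γ) (UI D d) (fun m hm θ θ' hU => gI_dep h hm hd S γ θ θ' hU)
    (fun m _ θ => gI_bd D d S γ hγ m θ) (fun m _ => Ug_card D _ _ _ _ _ _ _)
    (fun u => UI_inf h d u) t ht

theorem SU_conc (h : D.Reg κ c) {d : ℤ} (hd : 0 ≤ d) (S : Finset ℤ) (γ : ℤ → ℝ)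
    (hγ : ∀ d' ∈ S, |γ d'| ≤ 1 / D.n) (t : ℝ) (ht : 0 ≤ t) :
    Pr (fun θ : D.Om => t ≤ |D.SU θ d S γ - Ex (fun θ : D.Om => D.SU θ d S γ)|) ≤ D.cbd t := by
  simp only [SU_eq]
  exact conc_IR h (gU D d S γ) (UU D d) (fun m hm θ θ' hU => gU_dep h hm hd S γ θ θ' hU)
    (fun m _ θ => gU_bd D d S γ hγ m θ) (fun m _ => Ug_card D _ _ _ _ _ _ _)
    (fun u => UU_inf h d u) t ht

end Dat

end Pool.Agent.PGr
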