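import Mathlib
import Pool.Agent.PGr.CDeg
import Pool.Agent.PGr.CLab
import Pool.Agent.PGr.CPsi
import Pool.Agent.PGr.CSw

/-!
# PGr, module CTheta: almost all shifts are good (union bound)

`GoodTh e g ε θ`: all item sums, corrected degrees and label sums are within `ε` of their means.
`T1bd`: the total probability of the bad shifts is at most `ε`.

PLAN. `n0` is chosen such that for `n ≥ n0`: `200 n^3 * 2 exp(-(ε/8)^2 √q / 10^12) ≤ ε`; this is possible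
since `√q ≥ n^(1/16)` (`h.q_low : n ≤ q^8`). (Existence of n0: `Filter.Tendsto` of
`x^48 exp(-a x)` to 0, with `x = √q`, `n ≤ x^16`.)
1. Psi: `gen3 b a y1 y2` restricts a to integers with `nX b a ∈ [5/2,3]` (at most n/2+1 values) and
   `y1, y2` to at most `1.2 n + 1` values each: at most `2 * (n+1) * (2n)^2 ≤ 16 n^3` events of probability
   `cbd ε` (CPsi.Psi_conc; `sig` is the mean by definition).
2. FF: for `d ∈ D0` (at most `2n+2` of them, h.D0_sub): `FF = degD - (Tsrc) + (Ttgt)`; `Ex` is additive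
   (Prob.Ex_add, Ex_sub); `Tsrc = SI .. JJ (g d ·)` or `SU .. JJ (g d ·)`, `Ttgt = SI .. D2lo (g · d) +
   SU .. D2hi (g · d)`: four sums, each within `ε/4` of its mean except with probability `cbd (ε/4)`
   (CDeg.degD_conc, CSw.SI_conc, SU_conc; `|g| ≤ 1/n` on `D2 × JJ`, `JJ ⊆ D2`, `D2lo, D2hi ⊆ D2`;
   `0 ≤ d` by h.D0_sub). The sum for the target is only present for `d ∈ JJ`.
3. labX: `x ∈ Ze`: at most 2n events of probability `cbd ε`.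
Union bound `Pr_exists_le`, `Pr_or_le`; `cbd` is decreasing in t.
-/

noncomputable section

namespace Pool.Agent.PGr

open Finset

namespace Dat

variable {D : Dat} {κ c : ℝ}

/-- good shifts -/
def GoodTh (D : Dat) (e : ℝ) (g : ℤ → ℤ → ℝ) (ε : ℝ) (θ : D.Om) : Prop :=
  (∀ (b : Bool) (a y1 y2 : ℤ), D.gen3 b a y1 y2 → |D.Psi e θ b a y1 y2 - D.sig e b a y1 y2| ≤ ε) ∧
  (∀ d ∈ D.D0, |D.FF e g θ d - Ex (fun θ : D.Om => D.FF e g θ d)| ≤ ε) ∧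
  (∀ x ∈ D.Ze, |D.labX e θ x - Ex (fun θ : D.Om => D.labX e θ x)| ≤ ε)

private theorem cbd_nn (D : Dat) (t : ℝ) : 0 ≤ D.cbd t := by
  unfold cbd
  positivity

private theorem cbd_anti (D : Dat) {s t : ℝ} (hs : 0 ≤ s) (hst : s ≤ t) : D.cbd t ≤ D.cbd s := by
  unfold cbd
  refine mul_le_mul_of_nonneg_left (Real.exp_le_exp.2 (neg_le_neg ?_)) (by norm_num)
  refine div_le_div_of_nonneg_right ?_ (by norm_num)
  exact mul_le_mul_of_nonneg_right (pow_le_pow_left₀ hs hst 2) (Real.sqrt_nonneg _)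

private theorem Pr_false (D : Dat) : Pr (fun _ : D.Om => False) = 0 := by
  classical
  unfold Pr
  rw [Ex_congr (g := fun _ : D.Om => (0 : ℝ)) (fun θ => by simp)]
  exact Ex_const 0

private theorem conc_zero (D : Dat) {t : ℝ} (ht : 0 < t) :
    Pr (fun _ : D.Om => t ≤ |(0 : ℝ) - Ex (fun _ : D.Om => (0 : ℝ))|) ≤ D.cbd t := by
  have e : ∀ θ : D.Om, t ≤ |(0 : ℝ) - Ex (fun _ : D.Om => (0 : ℝ))| → False := by
    intro _ hh
    rw [Ex_const, sub_zero, abs_zero] at hh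
    linarith
  exact (Pr_mono e).trans ((Pr_false D).le.trans (cbd_nn D t))

private theorem D2_sub {x : ℤ} (hx : x ∈ D.D2) : x ∈ D.D0 := by
  unfold D2 at hx
  exact (Finset.mem_filter.1 hx).1

private theorem JJ_sub {x : ℤ} (hx : x ∈ D.JJ) : x ∈ D.D2 := by
  unfold JJ at hx
  exact (Finset.mem_filter.1 hx).1

private theorem lo_sub {x : ℤ} (hx : x ∈ D.D2lo) : x ∈ D.D2 := by
  unfold D2lo at hx
  exact (Finset.mem_filter.1 hx).1

private theorem hi_sub {x : ℤ} (hx : x ∈ D.D2hi) : x ∈ D.D2 := by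
  unfold D2hi at hx
  exact (Finset.mem_filter.1 hx).1

theorem FF_bd (h : D.Reg κ c) (hκ : κ ≤ 1 / 4) {e : ℝ} (he : 0 ≤ e) (he1 : e ≤ 1 / 10)
    (hs : ∀ (b : Bool) (a y1 y2 : ℤ), D.gen3 b a y1 y2 → 1 / 2 ≤ D.sig e b a y1 y2)
    (g : ℤ → ℤ → ℝ) (hg : ∀ d ∈ D.D2, ∀ j ∈ D.JJ, |g d j| ≤ 1 / D.n) (θ : D.Om) (d : ℤ) :
    |D.FF e g θ d| ≤ 10000 := by
  classical
  obtain ⟨a1, a2⟩ := degD_bd h hκ he he1 hs θ d
  have b1 : |(if d ∈ D.D2 then D.Tsrc g θ d else 0)| ≤ 2 := by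
    split_ifs with hd
    · unfold Tsrc
      split_ifs
      · exact SI_bd h θ d _ _ fun j hj => hg d hd j hj
      · exact SU_bd h θ d _ _ fun j hj => hg d hd j hj
    · norm_num
  have b2 : |(if d ∈ D.JJ then D.Ttgt g θ d else 0)| ≤ 4 := by
    split_ifs with hd
    · unfold Ttgt
      refine (abs_add_le _ _).trans ?_
      have c1 := SI_bd h θ d D.D2lo (fun d' => g d' d) fun j hj => hg j (lo_sub hj) d hd
      have c2 := SU_bd h θ d D.D2hi (fun d' => g d' d) fun j hj => hg j (hi_sub hj) d hd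
      linarith
    · norm_num
  unfold FF
  rw [abs_le] at b1 b2 ⊢
  constructor
  · linarith [b1.1, b1.2, b2.1, b2.2]
  · linarith [b1.1, b1.2, b2.1, b2.2]

private theorem FF_conc (h : D.Reg κ c) (hκ : κ ≤ 1 / 4) {e : ℝ} (he : 0 ≤ e) (he1 : e ≤ 1 / 10)
    (hs : ∀ (b : Bool) (a y1 y2 : ℤ), D.gen3 b a y1 y2 → 1 / 2 ≤ D.sig e b a y1 y2)
    (g : ℤ → ℤ → ℝ) (hg : ∀ d ∈ D.D2, ∀ j ∈ D.JJ, |g d j| ≤ 1 / D.n) {d : ℤ} (hd : d ∈ D.D0)
    {ε : ℝ} (hε : 0 < ε) :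
    Pr (fun θ : D.Om => ε ≤ |D.FF e g θ d - Ex (fun θ : D.Om => D.FF e g θ d)|) ≤
      4 * D.cbd (ε / 4) := by
  classical
  have hd0 : 0 ≤ d := by
    have := (h.D0_sub d hd).1
    linarith
  have hε4 : 0 < ε / 4 := by positivity
  -- the four parts
  let P2 : D.Om → ℝ := fun θ => if d ∈ D.D2 then D.Tsrc g θ d else 0
  let P3 : D.Om → ℝ := fun θ => if d ∈ D.JJ then D.SI θ d D.D2lo (fun d' => g d' d) else 0
  let P4 : D.Om → ℝ := fun θ => if d ∈ D.JJ then D.SU θ d D.D2hi (fun d' => g d' d) else 0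
  have c1 := degD_conc h hκ he he1 hs d (ε / 4) hε4.le
  have c2 : Pr (fun θ : D.Om => ε / 4 ≤ |P2 θ - Ex P2|) ≤ D.cbd (ε / 4) := by
    by_cases hd2 : d ∈ D.D2
    · have e2 : P2 = fun θ => D.Tsrc g θ d := by
        funext θ
        exact if_pos hd2
      rw [e2]
      by_cases hdn : d ≤ D.n
      · have e3 : (fun θ : D.Om => D.Tsrc g θ d) =
            fun θ => D.SI θ d D.JJ (fun d' => g d d') := by
          funext θ
          exact if_pos hdn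
        rw [e3]
        exact SI_conc h hd0 D.JJ (fun d' => g d d') (fun j hj => hg d hd2 j hj) (ε / 4) hε4.le
      · have e3 : (fun θ : D.Om => D.Tsrc g θ d) =
            fun θ => D.SU θ d D.JJ (fun d' => g d d') := by
          funext θ
          exact if_neg hdn
        rw [e3]
        exact SU_conc h hd0 D.JJ (fun d' => g d d') (fun j hj => hg d hd2 j hj) (ε / 4) hε4.le
    · have e2 : P2 = fun _ => 0 := by
        funext θ
        exact if_neg hd2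
      rw [e2]
      exact conc_zero D hε4
  have c3 : Pr (fun θ : D.Om => ε / 4 ≤ |P3 θ - Ex P3|) ≤ D.cbd (ε / 4) := by
    by_cases hdj : d ∈ D.JJ
    · have e2 : P3 = fun θ => D.SI θ d D.D2lo (fun d' => g d' d) := by
        funext θ
        exact if_pos hdj
      rw [e2]
      exact SI_conc h hd0 D.D2lo (fun d' => g d' d) (fun j hj => hg j (lo_sub hj) d hdj) (ε / 4)
        hε4.le
    · have e2 : P3 = fun _ => 0 := by
        funext θ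
        exact if_neg hdj
      rw [e2]
      exact conc_zero D hε4
  have c4 : Pr (fun θ : D.Om => ε / 4 ≤ |P4 θ - Ex P4|) ≤ D.cbd (ε / 4) := by
    by_cases hdj : d ∈ D.JJ
    · have e2 : P4 = fun θ => D.SU θ d D.D2hi (fun d' => g d' d) := by
        funext θ
        exact if_pos hdj
      rw [e2]
      exact SU_conc h hd0 D.D2hi (fun d' => g d' d) (fun j hj => hg j (hi_sub hj) d hdj) (ε / 4)
        hε4.le
    · have e2 : P4 = fun _ => 0 := by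
        funext θ
        exact if_neg hdj
      rw [e2]
      exact conc_zero D hε4
  have hFF : ∀ θ : D.Om, D.FF e g θ d = D.degD e θ d - P2 θ + (P3 θ + P4 θ) := by
    intro θ
    unfold FF
    congr 1
    by_cases hdj : d ∈ D.JJ
    · simp only [P3, P4, if_pos hdj]
      rfl
    · simp only [P3, P4, if_neg hdj, add_zero]
  have hE : Ex (fun θ : D.Om => D.FF e g θ d) =
      Ex (fun θ : D.Om => D.degD e θ d) - Ex P2 + (Ex P3 + Ex P4) := by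
    rw [Ex_congr hFF, Ex_add, Ex_sub, Ex_add]
  have hsub : ∀ θ : D.Om, ε ≤ |D.FF e g θ d - Ex (fun θ : D.Om => D.FF e g θ d)| →
      (ε / 4 ≤ |D.degD e θ d - Ex (fun θ : D.Om => D.degD e θ d)| ∨ ε / 4 ≤ |P2 θ - Ex P2|) ∨
      (ε / 4 ≤ |P3 θ - Ex P3| ∨ ε / 4 ≤ |P4 θ - Ex P4|) := by
    intro θ hh
    by_contra hcon
    push Not at hcon
    obtain ⟨⟨d1, d2⟩, d3, d4⟩ := hcon
    rw [hE, hFF θ] at hh
    rw [abs_lt] at d1 d2 d3 d4
    have : |D.degD e θ d - P2 θ + (P3 θ + P4 θ) -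
        (Ex (fun θ : D.Om => D.degD e θ d) - Ex P2 + (Ex P3 + Ex P4))| < ε := by
      rw [abs_lt]
      constructor
      · linarith [d1.1, d1.2, d2.1, d2.2, d3.1, d3.2, d4.1, d4.2]
      · linarith [d1.1, d1.2, d2.1, d2.2, d3.1, d3.2, d4.1, d4.2]
    linarith
  refine (Pr_mono hsub).trans ((Pr_or_le _ _).trans ?_)
  have f1 := Pr_or_le (fun θ : D.Om => ε / 4 ≤ |D.degD e θ d - Ex (fun θ : D.Om => D.degD e θ d)|)
    (fun θ : D.Om => ε / 4 ≤ |P2 θ - Ex P2|)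
  have f2 := Pr_or_le (fun θ : D.Om => ε / 4 ≤ |P3 θ - Ex P3|)
    (fun θ : D.Om => ε / 4 ≤ |P4 θ - Ex P4|)
  linarith

private theorem exp_small (a ε : ℝ) (ha : 0 < a) (hε : 0 < ε) :
    ∃ x0 : ℝ, ∀ x : ℝ, x0 ≤ x → 400 * x ^ 48 * Real.exp (-(a * x)) ≤ ε := by
  have h1 := tendsto_rpow_mul_exp_neg_mul_atTop_nhds_zero (48 : ℝ) a ha
  have h2 := h1.eventually (gt_mem_nhds (show (0 : ℝ) < ε / 400 by positivity))
  obtain ⟨x0, hx0⟩ := Filter.eventually_atTop.1 h2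
  refine ⟨x0, fun x hx => ?_⟩
  have h3 := hx0 x hx
  have h4 : x ^ (48 : ℝ) = x ^ 48 := by
    rw [← Real.rpow_natCast]
    norm_num
  rw [h4, neg_mul] at h3
  have h5 : 400 * x ^ 48 * Real.exp (-(a * x)) = 400 * (x ^ 48 * Real.exp (-(a * x))) := by ring
  rw [h5]
  linarith

private theorem card_D0 (h : D.Reg κ c) (hn : 1 ≤ D.n) : (D.D0.card : ℝ) ≤ 4 * D.n := by
  have h1 : D.D0 ⊆ Icc (1 : ℤ) (2 * (D.n : ℤ) + 2) := by
    intro d hd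
    exact Finset.mem_Icc.2 (h.D0_sub d hd)
  have h2 := Finset.card_le_card h1
  rw [Int.card_Icc] at h2
  have h3 : (2 * (D.n : ℤ) + 2 + 1 - 1).toNat ≤ 4 * D.n := by omega
  exact_mod_cast h2.trans h3

private theorem card_Ze (h : D.Reg κ c) (hn : 1 ≤ D.n) : (D.Ze.card : ℝ) ≤ 4 * D.n := by
  have h1 : D.Ze ⊆ Icc (0 : ℤ) (3 * (D.n : ℤ)) := by
    intro x hx
    obtain ⟨a1, a2, -, -⟩ := Ze_prop h hx
    exact Finset.mem_Icc.2 ⟨by omega, by omega⟩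
  have h2 := Finset.card_le_card h1
  rw [Int.card_Icc] at h2
  have h3 : (3 * (D.n : ℤ) + 1 - 0).toNat ≤ 4 * D.n := by omega
  exact_mod_cast h2.trans h3

private theorem gen_mem (hn : (0 : ℝ) < D.n) {b : Bool} {a y1 y2 : ℤ}
    (hg : D.gen3 b a y1 y2) :
    (b, a, y1, y2) ∈ (Finset.univ : Finset Bool) ×ˢ Icc (0 : ℤ) (3 * (D.n : ℤ)) ×ˢ
      Icc (0 : ℤ) (3 * (D.n : ℤ)) ×ˢ Icc (0 : ℤ) (3 * (D.n : ℤ)) := by
  obtain ⟨g1, g2, g3, g4, g5, g6, -⟩ := hg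
  simp only [Finset.mem_product, Finset.mem_univ, true_and, Finset.mem_Icc]
  have hy : ∀ y : ℤ, (9 / 10 : ℝ) * D.n ≤ y → (y : ℝ) ≤ (21 / 10) * D.n →
      0 ≤ y ∧ y ≤ 3 * (D.n : ℤ) := by
    intro y h1 h2
    constructor
    · have : (0 : ℝ) ≤ y := by linarith
      exact_mod_cast this
    · have : (y : ℝ) ≤ 3 * (D.n : ℝ) := by linarith
      exact_mod_cast this
  refine ⟨?_, hy y1 g3 g4, hy y2 g5 g6⟩
  unfold nX at g1 g2
  cases b with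
  | true =>
    simp only [if_true] at g1 g2
    rw [le_div_iff₀ hn] at g1
    rw [div_le_iff₀ hn] at g2
    constructor
    · have : (0 : ℝ) ≤ a := by nlinarith
      exact_mod_cast this
    · exact_mod_cast g2
  | false =>
    simp only [Bool.false_eq_true, if_false] at g1 g2
    have k1 : (a : ℝ) / D.n ≤ 3 := by linarith
    have k2 : 0 ≤ (a : ℝ) / D.n := by linarith
    rw [div_le_iff₀ hn] at k1
    constructor
    · have : (0 : ℝ) ≤ a := by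
        have := mul_nonneg k2 hn.le
        rwa [div_mul_cancel₀ _ hn.ne'] at this
      exact_mod_cast this
    · exact_mod_cast k1

private theorem T1_fin (h : D.Reg κ c) (hκ : κ ≤ 1 / 4) {e : ℝ} (he : 0 ≤ e) (he1 : e ≤ 1 / 10)
    (hs : ∀ (b : Bool) (a y1 y2 : ℤ), D.gen3 b a y1 y2 → 1 / 2 ≤ D.sig e b a y1 y2)
    (g : ℤ → ℤ → ℝ) (hg : ∀ d ∈ D.D2, ∀ j ∈ D.JJ, |g d j| ≤ 1 / D.n) (hn : 1 ≤ D.n)
    {ε : ℝ} (hε : 0 < ε) :
    Pr (fun θ : D.Om => ¬ GoodTh D e g ε θ) ≤ 200 * (D.n : ℝ) ^ 3 * D.cbd (ε / 4) := by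
  classical
  have hnr : (1 : ℝ) ≤ D.n := by exact_mod_cast hn
  set T : Finset (Bool × ℤ × ℤ × ℤ) := (Finset.univ : Finset Bool) ×ˢ
    Icc (0 : ℤ) (3 * (D.n : ℤ)) ×ˢ Icc (0 : ℤ) (3 * (D.n : ℤ)) ×ˢ Icc (0 : ℤ) (3 * (D.n : ℤ))
    with hT
  have hsub : ∀ θ : D.Om, ¬ GoodTh D e g ε θ →
      (∃ p ∈ T, ε ≤ |D.Psi e θ p.1 p.2.1 p.2.2.1 p.2.2.2 - D.sig e p.1 p.2.1 p.2.2.1 p.2.2.2|) ∨
      ((∃ d ∈ D.D0, ε ≤ |D.FF e g θ d - Ex (fun θ : D.Om => D.FF e g θ d)|) ∨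
      (∃ x ∈ D.Ze, ε ≤ |D.labX e θ x - Ex (fun θ : D.Om => D.labX e θ x)|)) := by
    intro θ hG
    by_contra hcon
    push Not at hcon
    obtain ⟨k1, k2, k3⟩ := hcon
    refine hG ⟨?_, ?_, ?_⟩
    · intro b a y1 y2 hgen
      exact (k1 (b, a, y1, y2) (gen_mem (by linarith) hgen)).le
    · intro d hd
      exact (k2 d hd).le
    · intro x hx
      exact (k3 x hx).le
  have hTc : (T.card : ℝ) ≤ 128 * (D.n : ℝ) ^ 3 := by
    have h3 : (3 * (D.n : ℤ) + 1 - 0).toNat = 3 * D.n + 1 := by omega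
    have h4 : T.card = 2 * ((3 * D.n + 1) * ((3 * D.n + 1) * (3 * D.n + 1))) := by
      rw [hT, Finset.card_product, Finset.card_product, Finset.card_product, Int.card_Icc, h3]
      simp
    rw [h4]
    push_cast
    have h5 : 3 * (D.n : ℝ) + 1 ≤ 4 * D.n := by linarith
    have h6 : (0 : ℝ) ≤ 3 * (D.n : ℝ) + 1 := by linarith
    calc 2 * ((3 * (D.n : ℝ) + 1) * ((3 * (D.n : ℝ) + 1) * (3 * (D.n : ℝ) + 1))) ≤
          2 * ((4 * D.n) * ((4 * D.n) * (4 * D.n))) := by gcongr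
      _ = 128 * (D.n : ℝ) ^ 3 := by ring
  have hcc : D.cbd ε ≤ D.cbd (ε / 4) := cbd_anti D (by positivity) (by linarith)
  have hc0 : 0 ≤ D.cbd (ε / 4) := cbd_nn D _
  have q1 : Pr (fun θ : D.Om => ∃ p ∈ T,
      ε ≤ |D.Psi e θ p.1 p.2.1 p.2.2.1 p.2.2.2 - D.sig e p.1 p.2.1 p.2.2.1 p.2.2.2|) ≤
      128 * (D.n : ℝ) ^ 3 * D.cbd (ε / 4) := by
    refine (Pr_exists_le T _).trans ?_
    refine (Finset.sum_le_sum (g := fun _ => D.cbd (ε / 4)) fun p _ =>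
      (Psi_conc h hκ he he1 p.1 p.2.1 p.2.2.1 p.2.2.2 ε hε.le).trans hcc).trans ?_
    rw [Finset.sum_const, nsmul_eq_mul]
    exact mul_le_mul_of_nonneg_right hTc hc0
  have q2 : Pr (fun θ : D.Om => ∃ d ∈ D.D0,
      ε ≤ |D.FF e g θ d - Ex (fun θ : D.Om => D.FF e g θ d)|) ≤
      (4 * D.n) * (4 * D.cbd (ε / 4)) := by
    refine (Pr_exists_le D.D0 _).trans ?_
    refine (Finset.sum_le_sum (g := fun _ => 4 * D.cbd (ε / 4)) fun d hd =>
      FF_conc h hκ he he1 hs g hg hd hε).trans ?_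
    rw [Finset.sum_const, nsmul_eq_mul]
    exact mul_le_mul_of_nonneg_right (card_D0 h hn) (by positivity)
  have q3 : Pr (fun θ : D.Om => ∃ x ∈ D.Ze,
      ε ≤ |D.labX e θ x - Ex (fun θ : D.Om => D.labX e θ x)|) ≤
      (4 * D.n) * D.cbd (ε / 4) := by
    refine (Pr_exists_le D.Ze _).trans ?_
    refine (Finset.sum_le_sum (g := fun _ => D.cbd (ε / 4)) fun x _ =>
      (labX_conc h hκ he he1 hs x ε hε.le).trans hcc).trans ?_
    rw [Finset.sum_const, nsmul_eq_mul]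
    exact mul_le_mul_of_nonneg_right (card_Ze h hn) hc0
  have hn3 : (D.n : ℝ) ≤ (D.n : ℝ) ^ 3 := by
    have : (D.n : ℝ) ^ 1 ≤ (D.n : ℝ) ^ 3 := pow_le_pow_right₀ hnr (by norm_num)
    simpa using this
  calc Pr (fun θ : D.Om => ¬ GoodTh D e g ε θ) ≤ _ := Pr_mono hsub
    _ ≤ _ := Pr_or_le _ _
    _ ≤ 128 * (D.n : ℝ) ^ 3 * D.cbd (ε / 4) + ((4 * D.n) * (4 * D.cbd (ε / 4)) +
        (4 * D.n) * D.cbd (ε / 4)) := add_le_add q1 ((Pr_or_le _ _).trans (add_le_add q2 q3))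
    _ = 128 * (D.n : ℝ) ^ 3 * D.cbd (ε / 4) + 20 * (D.n * D.cbd (ε / 4)) := by ring
    _ ≤ 128 * (D.n : ℝ) ^ 3 * D.cbd (ε / 4) + 20 * ((D.n : ℝ) ^ 3 * D.cbd (ε / 4)) := by
        have := mul_le_mul_of_nonneg_right hn3 hc0
        linarith
    _ ≤ 200 * (D.n : ℝ) ^ 3 * D.cbd (ε / 4) := by
        have : 0 ≤ (D.n : ℝ) ^ 3 * D.cbd (ε / 4) := by positivity
        nlinarith

theorem T1bd (ε : ℝ) (hε : 0 < ε) : ∃ n0 : ℕ, ∀ (D : Dat) (κ c : ℝ), n0 ≤ D.n → D.Reg κ c →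
    κ ≤ 1 / 4 → ∀ e : ℝ, 0 ≤ e → e ≤ 1 / 10 →
    (∀ (b : Bool) (a y1 y2 : ℤ), D.gen3 b a y1 y2 → 1 / 2 ≤ D.sig e b a y1 y2) →
    ∀ g : ℤ → ℤ → ℝ, (∀ d ∈ D.D2, ∀ j ∈ D.JJ, |g d j| ≤ 1 / D.n) →
    Pr (fun θ : D.Om => ¬ GoodTh D e g ε θ) ≤ ε := by
  have ha : 0 < (ε / 4) ^ 2 / 10 ^ 12 := by positivity
  obtain ⟨x0, hx0⟩ := exp_small ((ε / 4) ^ 2 / 10 ^ 12) ε ha hε
  refine ⟨⌈(max x0 1) ^ 16⌉₊ + 1, ?_⟩
  intro D κ c hn h hκ e he he1 hs g hg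
  have hn1 : 1 ≤ D.n := by omega
  refine (T1_fin h hκ he he1 hs g hg hn1 hε).trans ?_
  have hqn : (D.n : ℝ) ≤ (√(D.q : ℝ)) ^ 16 := by
    have h1 : (D.n : ℝ) ≤ (D.q : ℝ) ^ 8 := by exact_mod_cast h.q_low
    have h2 : (√(D.q : ℝ)) ^ 2 = (D.q : ℝ) := Real.sq_sqrt (Nat.cast_nonneg _)
    calc (D.n : ℝ) ≤ (D.q : ℝ) ^ 8 := h1
      _ = ((√(D.q : ℝ)) ^ 2) ^ 8 := by rw [h2]
      _ = _ := by ring
  have hx : x0 ≤ √(D.q : ℝ) := by
    by_contra hcon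
    push Not at hcon
    have h1 : √(D.q : ℝ) ≤ max x0 1 := hcon.le.trans (le_max_left _ _)
    have h2 : (√(D.q : ℝ)) ^ 16 ≤ (max x0 1) ^ 16 := pow_le_pow_left₀ (Real.sqrt_nonneg _) h1 16
    have h3 : (D.n : ℝ) ≤ (⌈(max x0 1) ^ 16⌉₊ : ℝ) := (hqn.trans h2).trans (Nat.le_ceil _)
    have h4 : D.n ≤ ⌈(max x0 1) ^ 16⌉₊ := by exact_mod_cast h3
    omega
  have hb := hx0 _ hx
  have hn3 : (D.n : ℝ) ^ 3 ≤ (√(D.q : ℝ)) ^ 48 := by
    calc (D.n : ℝ) ^ 3 ≤ ((√(D.q : ℝ)) ^ 16) ^ 3 :=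
          pow_le_pow_left₀ (Nat.cast_nonneg _) hqn 3
      _ = _ := by ring
  unfold cbd
  calc 200 * (D.n : ℝ) ^ 3 * (2 * Real.exp (-((ε / 4) ^ 2 * √(D.q : ℝ) / 10 ^ 12))) =
        400 * (D.n : ℝ) ^ 3 * Real.exp (-((ε / 4) ^ 2 / 10 ^ 12 * √(D.q : ℝ))) := by
        rw [show (ε / 4) ^ 2 * √(D.q : ℝ) / 10 ^ 12 = (ε / 4) ^ 2 / 10 ^ 12 * √(D.q : ℝ) by ring]
        ring
    _ ≤ 400 * (√(D.q : ℝ)) ^ 48 * Real.exp (-((ε / 4) ^ 2 / 10 ^ 12 * √(D.q : ℝ))) := by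
        gcongr
    _ ≤ ε := hb

end Dat

end Pool.Agent.PGr
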