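import Mathlib
import Pool.Agent.PGr.CTheta

/-!
# PGr, module CTau: `τ ≤ 1 + o(1)`

STATEMENT. Let `h : D.Reg κ c`, `κ ≤ 1/4`, `0 ≤ e ≤ 1/10`, `hs` (sig ≥ 1/2 for generic triples), `0 < ε ≤ 1`,
`|Ddef| ≤ b` for the number b of `h.count`: this follows for `q ≥ 10^4` (`hq4`), and
`Pr (¬ items within ε) ≤ ε` (`hP`; part of T1bd). Then `∑_{d ∈ D2} GG e d ≤ (1 + 1700 ε) ∑_{d ∈ D2} pD d`.

PLAN.
1. `deg_sum`: for every θ: `∑_{d ∈ D0} (if used θ d then 0 else degD e θ d) = 3 ∑_{m ∈ It} ∑_{x ∈ Ze} w1 e θ m x`: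
   exchange the sums; for fixed (m,x) and `d ∈ D0`, `¬ used θ d`:
   `edgD θ d .. x ∧ hasD .. x d ↔ edge θ m x ∧ hasD .. x d` (if `d` is one of the three differences and all
   three are in D0 and unused, or equal to the unused d), and for an edge exactly three `d ∈ D0`, all
   unused, satisfy `hasD`: the three differences are pairwise different, as their units are
   (`uns .. Nodup`).
2. `∑_{x ∈ Ze} w1 e θ m x = Psi e θ b a y1 y2 / sig e b a y1 y2` (b = hi m, a = anc m, y_i = yy_i θ m) is at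
   most `1 + 2ε` if `|Psi - sig| ≤ ε` for generic triples (EBas.gen3_item, sig ≥ 1/2), and at most 1600
   always (CPsi.Psi_bd). So its mean is at most `1 + 2ε + 1600 ε` (Prob.Ex_le_of_Pr with `hP`), and
   `∑_{d ∈ D2} GG e d ≤ ∑_{d ∈ D0} GG e d ≤ 3 |It| (1 + 1602 ε)` (`GG ≥ 0`: CDeg.degD_bd).
3. `∑_{d ∈ D2} pD d ≥ 3 |It|`: for every θ, `#{d ∈ D0 | ¬ used θ d} ≥ 3 |It| + b` (h.count), its mean is
   `∑_{d ∈ D0} pD d`; `D0 ⊆ D2 ∪ Ddef ∪ {pD = 0}`, `pD ≤ 1`, so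
   `∑_{D2} pD ≥ 3|It| + b - |Ddef| ≥ 3 |It|` because `|Ddef| ≤ 10 n/√q` (EDc.Ddef_card) and
   `b ≥ n / q^(1/4)` (from `n^4 ≤ b^4 q`), `10 ≤ q^(1/4)` (`10^4 ≤ q`).
-/

noncomputable section

namespace Pool.Agent.PGr

open Finset

namespace Dat

variable {D : Dat} {κ c : ℝ}

theorem item_sum (e : ℝ) (θ : D.Om) (m : ℕ) :
    ∑ x ∈ D.Ze, D.w1 e θ m x = D.Psi e θ (D.hi m) (D.anc m) (D.yy1 θ m) (D.yy2 θ m) /
      D.sig e (D.hi m) (D.anc m) (D.yy1 θ m) (D.yy2 θ m) := by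
  unfold Psi
  rw [Finset.sum_div]
  refine Finset.sum_congr rfl fun x _ => ?_
  unfold w1 W0 wn edge
  split_ifs
  · rfl
  · rw [zero_div]

open Classical in
theorem deg_sum (h : D.Reg κ c) (e : ℝ) (θ : D.Om) :
    ∑ d ∈ D.D0, (if D.used θ d then 0 else D.degD e θ d)
      = 3 * ∑ m ∈ D.It, ∑ x ∈ D.Ze, D.w1 e θ m x := by
  have hin : ∀ m ∈ D.It, ∀ x ∈ D.Ze,
      ∑ d ∈ D.D0, (if D.used θ d then 0 else
        if D.edgD θ d (D.anc m) (D.yy1 θ m) (D.yy2 θ m) x ∧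
          hasD (D.anc m) (D.yy1 θ m) (D.yy2 θ m) x d then D.wn e θ m x else 0)
      = 3 * D.w1 e θ m x := by
    intro m _ x _
    by_cases he : D.edge θ m x
    · have hw : D.w1 e θ m x = D.wn e θ m x := by
        unfold w1
        rw [if_pos he]
      rw [hw]
      obtain ⟨hx, hocc, ha, h1, h2, hnd⟩ := he
      have hne : |x - D.anc m| ≠ |x - D.yy1 θ m| ∧ |x - D.anc m| ≠ |x - D.yy2 θ m| ∧
          |x - D.yy1 θ m| ≠ |x - D.yy2 θ m| := by
        unfold uns at hnd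
        simp only [List.nodup_cons, List.mem_cons, not_or] at hnd
        refine ⟨fun h0 => ?_, fun h0 => ?_, fun h0 => ?_⟩
        · exact hnd.2.2.2.1.1 (congrArg (unD D.q) h0)
        · exact hnd.2.2.2.1.2.1 (congrArg (unD D.q) h0)
        · exact hnd.2.2.2.2.1.1 (congrArg (unD D.q) h0)
      have hsub : ({|x - D.anc m|, |x - D.yy1 θ m|, |x - D.yy2 θ m|} : Finset ℤ) ⊆ D.D0 := by
        intro d hd
        rw [Finset.mem_insert, Finset.mem_insert, Finset.mem_singleton] at hd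
        rcases hd with rfl | rfl | rfl
        · exact ha.1
        · exact h1.1
        · exact h2.1
      have hun : ∀ d ∈ ({|x - D.anc m|, |x - D.yy1 θ m|, |x - D.yy2 θ m|} : Finset ℤ),
          ¬ D.used θ d := by
        intro d hd
        rw [Finset.mem_insert, Finset.mem_insert, Finset.mem_singleton] at hd
        rcases hd with rfl | rfl | rfl
        · exact ha.2
        · exact h1.2
        · exact h2.2
      have hE : ∀ d, D.edgD θ d (D.anc m) (D.yy1 θ m) (D.yy2 θ m) x := fun d =>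
        ⟨hx, hocc, ⟨ha.1, Or.inr ha.2⟩, ⟨h1.1, Or.inr h1.2⟩, ⟨h2.1, Or.inr h2.2⟩, hnd⟩
      rw [← Finset.sum_subset hsub]
      · have hc : ({|x - D.anc m|, |x - D.yy1 θ m|, |x - D.yy2 θ m|} : Finset ℤ).card = 3 := by
          rw [Finset.card_insert_of_notMem, Finset.card_insert_of_notMem,
            Finset.card_singleton]
          · rw [Finset.mem_singleton]
            exact hne.2.2
          · rw [Finset.mem_insert, Finset.mem_singleton, not_or]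
            exact ⟨hne.1, hne.2.1⟩
        rw [Finset.sum_congr rfl (g := fun _ => D.wn e θ m x)]
        · rw [Finset.sum_const, hc, nsmul_eq_mul]
          norm_num
        · intro d hd
          rw [if_neg (hun d hd), if_pos]
          refine ⟨hE d, ?_⟩
          rw [Finset.mem_insert, Finset.mem_insert, Finset.mem_singleton] at hd
          rcases hd with hd | hd | hd
          · exact Or.inl hd.symm
          · exact Or.inr (Or.inl hd.symm)
          · exact Or.inr (Or.inr hd.symm)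
      · intro d _ hd
        split_ifs with hu hc
        · rfl
        · exfalso
          apply hd
          rw [Finset.mem_insert, Finset.mem_insert, Finset.mem_singleton]
          rcases hc.2 with hd | hd | hd
          · exact Or.inl hd.symm
          · exact Or.inr (Or.inl hd.symm)
          · exact Or.inr (Or.inr hd.symm)
        · rfl
    · have hw : D.w1 e θ m x = 0 := by
        unfold w1
        rw [if_neg he]
      rw [hw, mul_zero]
      refine Finset.sum_eq_zero fun d _ => ?_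
      split_ifs with hu hc
      · rfl
      · exfalso
        apply he
        obtain ⟨⟨hx, hocc, ha, h1, h2, hnd⟩, -⟩ := hc
        have hfix : ∀ z : ℤ, (z = d ∨ ¬ D.used θ z) → ¬ D.used θ z := by
          intro z hz
          rcases hz with rfl | hz
          · exact hu
          · exact hz
        exact ⟨hx, hocc, ⟨ha.1, hfix _ ha.2⟩, ⟨h1.1, hfix _ h1.2⟩, ⟨h2.1, hfix _ h2.2⟩, hnd⟩
      · rfl
  calc ∑ d ∈ D.D0, (if D.used θ d then 0 else D.degD e θ d)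
      = ∑ d ∈ D.D0, ∑ m ∈ D.It, ∑ x ∈ D.Ze, (if D.used θ d then 0 else
          if D.edgD θ d (D.anc m) (D.yy1 θ m) (D.yy2 θ m) x ∧
            hasD (D.anc m) (D.yy1 θ m) (D.yy2 θ m) x d then D.wn e θ m x else 0) := by
        refine Finset.sum_congr rfl fun d _ => ?_
        split_ifs with hu
        · simp
        · rfl
    _ = ∑ m ∈ D.It, ∑ x ∈ D.Ze, ∑ d ∈ D.D0, (if D.used θ d then 0 else
          if D.edgD θ d (D.anc m) (D.yy1 θ m) (D.yy2 θ m) x ∧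
            hasD (D.anc m) (D.yy1 θ m) (D.yy2 θ m) x d then D.wn e θ m x else 0) := by
        rw [Finset.sum_comm]
        refine Finset.sum_congr rfl fun m _ => ?_
        rw [Finset.sum_comm]
    _ = ∑ m ∈ D.It, ∑ x ∈ D.Ze, 3 * D.w1 e θ m x :=
        Finset.sum_congr rfl fun m hm => Finset.sum_congr rfl fun x hx => hin m hm x hx
    _ = 3 * ∑ m ∈ D.It, ∑ x ∈ D.Ze, D.w1 e θ m x := by
        rw [Finset.mul_sum]
        refine Finset.sum_congr rfl fun m _ => ?_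
        rw [Finset.mul_sum]

theorem pD_sum (h : D.Reg κ c) (hq4 : 10 ^ 4 ≤ D.q) :
    3 * (D.It.card : ℝ) ≤ ∑ d ∈ D.D2, D.pD d := by
  classical
  obtain ⟨b, hb4, hb⟩ := h.count
  have hpD : ∑ d ∈ D.D0, D.pD d = Ex (fun θ : D.Om => ∑ d ∈ D.D0,
      if ¬ D.used θ d then (1 : ℝ) else 0) := by
    rw [Ex_sum]
    refine Finset.sum_congr rfl fun d _ => ?_
    unfold pD Pr
    refine Ex_congr fun θ => ?_
    by_cases hu : D.used θ d
    · rw [if_neg (not_not.2 hu), if_neg (not_not.2 hu)]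
    · rw [if_pos hu, if_pos hu]
  have h1 : 3 * (D.It.card : ℝ) + b ≤ ∑ d ∈ D.D0, D.pD d := by
    rw [hpD]
    calc 3 * (D.It.card : ℝ) + b = Ex (fun _ : D.Om => 3 * (D.It.card : ℝ) + b) :=
          (Ex_const _).symm
      _ ≤ _ := by
          refine Ex_mono fun θ => ?_
          rw [← Finset.sum_filter, Finset.sum_const, nsmul_eq_mul, mul_one]
          have h2 : 3 * D.It.card + b ≤ (D.D0.filter (fun d => ¬ D.used θ d)).card := by
            refine (hb θ).trans (Finset.card_le_card fun d hd => ?_)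
            rw [Finset.mem_filter] at hd ⊢
            exact hd
          exact_mod_cast h2
  have hD2 : D.D2 ⊆ D.D0 := fun d hd => (Finset.mem_filter.1 hd).1
  have h3 : ∑ d ∈ D.D0, D.pD d = ∑ d ∈ D.D0 \ D.D2, D.pD d + ∑ d ∈ D.D2, D.pD d :=
    (Finset.sum_sdiff hD2).symm
  have h4 : ∑ d ∈ D.D0 \ D.D2, D.pD d ≤ (D.Ddef.card : ℝ) := by
    calc ∑ d ∈ D.D0 \ D.D2, D.pD d ≤ ∑ d ∈ D.D0 \ D.D2, (if d ∈ D.Ddef then (1 : ℝ) else 0) := by
          refine Finset.sum_le_sum fun d hd => ?_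
          rw [Finset.mem_sdiff] at hd
          split_ifs with hdd
          · exact pD_le_one d
          · by_contra hcon
            exact hd.2 (Finset.mem_filter.2 ⟨hd.1, hdd, not_le.1 hcon⟩)
      _ = (((D.D0 \ D.D2).filter (fun d => d ∈ D.Ddef)).card : ℝ) := by
          rw [← Finset.sum_filter, Finset.sum_const, nsmul_eq_mul, mul_one]
      _ ≤ (D.Ddef.card : ℝ) := by
          have h5 : ((D.D0 \ D.D2).filter (fun d => d ∈ D.Ddef)).card ≤ D.Ddef.card :=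
            Finset.card_le_card fun d hd => (Finset.mem_filter.1 hd).2
          exact_mod_cast h5
  have h6 : (D.Ddef.card : ℝ) ≤ b := by
    have h7 := Ddef_card h
    have hq0 : (0 : ℝ) < D.q := by
      have h8 : 0 < D.q := h.q_prime.pos
      exact_mod_cast h8
    have hq4' : (10 : ℝ) ^ 4 ≤ D.q := by exact_mod_cast hq4
    have hX0 : (0 : ℝ) ≤ D.Ddef.card := Nat.cast_nonneg _
    have hb4' : (D.n : ℝ) ^ 4 ≤ (b : ℝ) ^ 4 * D.q := by exact_mod_cast hb4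
    have h9 : ((D.Ddef.card : ℝ) * √(D.q : ℝ)) ^ 4 ≤ (10 * (D.n : ℝ)) ^ 4 :=
      pow_le_pow_left₀ (mul_nonneg hX0 (Real.sqrt_nonneg _)) h7 4
    have h10 : (√(D.q : ℝ)) ^ 4 = (D.q : ℝ) ^ 2 := by
      have h11 : (√(D.q : ℝ)) ^ 2 = D.q := Real.sq_sqrt hq0.le
      calc (√(D.q : ℝ)) ^ 4 = ((√(D.q : ℝ)) ^ 2) ^ 2 := by ring
        _ = (D.q : ℝ) ^ 2 := by rw [h11]
    rw [mul_pow, h10, mul_pow] at h9
    have h12 : (D.Ddef.card : ℝ) ^ 4 * D.q ≤ 10 ^ 4 * (b : ℝ) ^ 4 := by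
      have h13 : ((D.Ddef.card : ℝ) ^ 4 * D.q) * D.q ≤ (10 ^ 4 * (b : ℝ) ^ 4) * D.q := by
        calc ((D.Ddef.card : ℝ) ^ 4 * D.q) * D.q = (D.Ddef.card : ℝ) ^ 4 * (D.q : ℝ) ^ 2 := by ring
          _ ≤ 10 ^ 4 * (D.n : ℝ) ^ 4 := h9
          _ ≤ 10 ^ 4 * ((b : ℝ) ^ 4 * D.q) := by linarith
          _ = (10 ^ 4 * (b : ℝ) ^ 4) * D.q := by ring
      exact le_of_mul_le_mul_right h13 hq0
    have h14 : (D.Ddef.card : ℝ) ^ 4 * 10 ^ 4 ≤ (D.Ddef.card : ℝ) ^ 4 * D.q :=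
      mul_le_mul_of_nonneg_left hq4' (pow_nonneg hX0 4)
    have h15 : (D.Ddef.card : ℝ) ^ 4 ≤ (b : ℝ) ^ 4 := by linarith
    exact le_of_pow_le_pow_left₀ (by norm_num) (Nat.cast_nonneg b) h15
  linarith

theorem tau_le (h : D.Reg κ c) (hκ : κ ≤ 1 / 4) {e : ℝ} (he : 0 ≤ e) (he1 : e ≤ 1 / 10)
    (hs : ∀ (b : Bool) (a y1 y2 : ℤ), D.gen3 b a y1 y2 → 1 / 2 ≤ D.sig e b a y1 y2)
    (hq4 : 10 ^ 4 ≤ D.q) {ε : ℝ} (hε : 0 < ε) (hε1 : ε ≤ 1)
    (hP : Pr (fun θ : D.Om => ¬ ∀ (b : Bool) (a y1 y2 : ℤ), D.gen3 b a y1 y2 →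
      |D.Psi e θ b a y1 y2 - D.sig e b a y1 y2| ≤ ε) ≤ ε) :
    ∑ d ∈ D.D2, D.GG e d ≤ (1 + 1700 * ε) * ∑ d ∈ D.D2, D.pD d := by
  classical
  have hD2 : D.D2 ⊆ D.D0 := fun d hd => (Finset.mem_filter.1 hd).1
  have hGG : ∀ d, 0 ≤ D.GG e d := by
    intro d
    unfold GG
    refine Ex_nonneg fun θ => ?_
    split_ifs
    · exact le_rfl
    · exact (degD_bd h hκ he he1 hs θ d).1
  have h1 : ∑ d ∈ D.D2, D.GG e d ≤ ∑ d ∈ D.D0, D.GG e d :=
    Finset.sum_le_sum_of_subset_of_nonneg hD2 fun d _ _ => hGG d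
  have h2 : ∑ d ∈ D.D0, D.GG e d = ∑ m ∈ D.It, 3 * Ex (fun θ : D.Om =>
      D.Psi e θ (D.hi m) (D.anc m) (D.yy1 θ m) (D.yy2 θ m) /
      D.sig e (D.hi m) (D.anc m) (D.yy1 θ m) (D.yy2 θ m)) := by
    unfold GG
    rw [← Ex_sum]
    have h3 : ∀ θ : D.Om, ∑ d ∈ D.D0, (if D.used θ d then 0 else D.degD e θ d) =
        ∑ m ∈ D.It, 3 * (D.Psi e θ (D.hi m) (D.anc m) (D.yy1 θ m) (D.yy2 θ m) /
          D.sig e (D.hi m) (D.anc m) (D.yy1 θ m) (D.yy2 θ m)) := by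
      intro θ
      rw [deg_sum h e θ, Finset.mul_sum]
      refine Finset.sum_congr rfl fun m _ => ?_
      rw [item_sum]
    rw [Ex_congr h3, Ex_sum]
    refine Finset.sum_congr rfl fun m _ => ?_
    rw [Ex_const_mul]
  have h4 : ∀ m ∈ D.It, 3 * Ex (fun θ : D.Om =>
      D.Psi e θ (D.hi m) (D.anc m) (D.yy1 θ m) (D.yy2 θ m) /
      D.sig e (D.hi m) (D.anc m) (D.yy1 θ m) (D.yy2 θ m)) ≤ 3 * (1 + 1602 * ε) := by
    intro m hm
    have h5 : Ex (fun θ : D.Om =>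
        D.Psi e θ (D.hi m) (D.anc m) (D.yy1 θ m) (D.yy2 θ m) /
        D.sig e (D.hi m) (D.anc m) (D.yy1 θ m) (D.yy2 θ m)) ≤
        (1 + 2 * ε) + (1600 - (1 + 2 * ε)) * Pr (fun θ : D.Om => ¬ ∀ (b : Bool) (a y1 y2 : ℤ),
          D.gen3 b a y1 y2 → |D.Psi e θ b a y1 y2 - D.sig e b a y1 y2| ≤ ε) := by
      refine Ex_le_of_Pr (fun θ => ?_) (fun θ hθ => ?_) (by linarith)
      · have h6 := hs _ _ _ _ (gen3_item h θ hm)
        have h7 := (Psi_bd h hκ he he1 θ (D.hi m) (D.anc m) (D.yy1 θ m) (D.yy2 θ m)).2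
        rw [div_le_iff₀ (by linarith)]
        linarith
      · have h6 := hs _ _ _ _ (gen3_item h θ hm)
        have h7 := not_not.1 hθ _ _ _ _ (gen3_item h θ hm)
        have h8 := (abs_le.1 h7).2
        rw [div_le_iff₀ (by linarith)]
        have h9 : ε ≤ 2 * ε * D.sig e (D.hi m) (D.anc m) (D.yy1 θ m) (D.yy2 θ m) := by
          have h10 := mul_le_mul_of_nonneg_left h6 (by linarith : (0 : ℝ) ≤ 2 * ε)
          linarith
        linarith
    have hPr0 := Pr_nonneg (fun θ : D.Om => ¬ ∀ (b : Bool) (a y1 y2 : ℤ),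
      D.gen3 b a y1 y2 → |D.Psi e θ b a y1 y2 - D.sig e b a y1 y2| ≤ ε)
    have h11 : (1600 - (1 + 2 * ε)) * Pr (fun θ : D.Om => ¬ ∀ (b : Bool) (a y1 y2 : ℤ),
        D.gen3 b a y1 y2 → |D.Psi e θ b a y1 y2 - D.sig e b a y1 y2| ≤ ε) ≤ 1600 * ε := by
      refine mul_le_mul (by linarith) hP hPr0 (by norm_num)
    linarith
  have h12 : ∑ d ∈ D.D0, D.GG e d ≤ (D.It.card : ℝ) * (3 * (1 + 1602 * ε)) := by
    rw [h2]
    refine (Finset.sum_le_sum h4).trans (le_of_eq ?_)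
    rw [Finset.sum_const, nsmul_eq_mul]
  have h13 := pD_sum h hq4
  have h14 : (0 : ℝ) ≤ ∑ d ∈ D.D2, D.pD d := Finset.sum_nonneg fun d _ => Pr_nonneg _
  calc ∑ d ∈ D.D2, D.GG e d ≤ (D.It.card : ℝ) * (3 * (1 + 1602 * ε)) := h1.trans h12
    _ = (1 + 1602 * ε) * (3 * (D.It.card : ℝ)) := by ring
    _ ≤ (1 + 1602 * ε) * ∑ d ∈ D.D2, D.pD d :=
        mul_le_mul_of_nonneg_left h13 (by linarith)
    _ ≤ (1 + 1700 * ε) * ∑ d ∈ D.D2, D.pD d :=
        mul_le_mul_of_nonneg_right (by linarith) h14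

end Dat

end Pool.Agent.PGr
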