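import Mathlib
import Pool.Agent.PGr.CExp
import Pool.Agent.PGr.CDeg
import Pool.Agent.PGr.CTau

/-!
# PGr, module CW: the final weights (deterministic facts for fixed shifts)

`h : D.Reg κ c`. `G` = bound of `|g|` on `D2 × JJ`.

PLAN.
* `wf_zero`: if `edge θ m x` does not hold, then `w1 = 0` and all the conditions
  `swv θ m d d'' ∧ x = xs ..` are false, because a valid switch has the edges `xs` and `xt`
  (unfold `swv`, `swI`, `swU`, `xs`, `xt`).
* `wf_near`: `|wf - w1| ≤ 4 G`: in the first double sum at most two pairs `(d, d'')` satisfy the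
  condition: if `d ≤ n`: `x = yy2 + d` and the equation of swI give `d = x - yy2`,
  `d'' = yy1 + anc - 2 yy2 - d`; if `d > n`: `d = anc - x`, `d'' = 2 anc - yy1 - yy2 - d`. The same for the
  second one: `d ≤ n`: `d'' = x - yy2`, `d = yy1 + anc - 2 yy2 - d''`; `d > n`: `d'' = anc - x`, ..
* `wf_item`: for every `m`: `∑_{x ∈ Ze} wf = ∑_{x ∈ Ze} w1`: exchange the sums; for a valid switch exactly
  one `x ∈ Ze` equals `xs`, one equals `xt` (they are labels of edges, so in Ze): both double sums become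
  `∑_d ∑_d'' [m ∈ IR ∧ swv] g d d''`.
* `wf_deg`: for `z ∈ D0`, `¬ used θ z`:
  `∑_{m ∈ It} ∑_{x ∈ Ze} [hasD .. x z] wf e g θ m x = FF e g θ z`.
  w1 part: `= degD e θ z` (as `¬ used θ z`: `edgD θ z .. x ∧ hasD ↔ edge ∧ hasD`; see CTau.deg_sum).
  Switch part: `∑_{m ∈ IR} ∑_{d ∈ D2} ∑_{d'' ∈ JJ} [swv θ m d d''] ([hasD at xt] - [hasD at xs]) g d d''`
  (IR ⊆ It). For a valid I-switch the differences at `xs = y2 + d` are `|x - a|, |x - y1|, d`, those at
  `xt = y1 + a - x` are `|x - y1|, |x - a|, d''` (`d, d'' ≥ 1` by h.D0_sub), and `d, d'', |x-a|, |x-y1|` are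
  pairwise different (their units are, by the list in swI), so `[hasD at xt] - [hasD at xs] = [z = d''] -
  [z = d]`; the same for U-switches (`xs = a - d`, `xt = y1 + y2 - x`). So the total is
  `[z ∈ JJ] ∑_m ∑_{d ∈ D2} [swv θ m d z] g d z - [z ∈ D2] ∑_m ∑_{d'' ∈ JJ} [swv θ m z d''] g z d''`
  which is `[z ∈ JJ] Ttgt - [z ∈ D2] Tsrc` by CExp.swI_iff, swU_iff, swI_iff', swU_iff' and `¬ used θ z`
  (split D2 into D2lo and D2hi).
* `wf_nonneg`: for an edge with `|x - a| ≤ 2n`: `wf ≥ w1 - 4 G ≥ 1/(120 n) - 4 G ≥ 0`. For an edge with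
  `|x - a| > 2n` the kernel vanishes (`PGrK.kern_zero`: `nX b a - nX b x = |x - a|/n > 2`; for b = true
  `x < 5n/2 ≤ a`, for b = false `a ≤ n/2 < x`), so `w1 = 0`, and `x` is not the label of a valid switch of
  an `m ∈ IR` (so `wf = w1 = 0`): for `d ≤ n`: `xs = y2 + d`, `xt = y2 + d''` with `d, d'' ≥ 1`,
  `y2 ≥ 9n/10` (EBas.lab_range), `a ≤ 28n/10` (h.IR_A, h.IR_hi), `x < 5n/2 ≤ a`: `|x - a| ≤ 19n/10`; for
  `d > n`: `|xs - a| = d ≤ 2n`, `|xt - a| = d'' ≤ 2n` because elements of D2 are not in Ddef.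
* `w1_lab`: `∑_{m ∈ It} w1 e θ m x ≤ labX e θ x` (an edge satisfies edgX; terms nonnegative: CDeg.wn_bd).
-/

noncomputable section

namespace Pool.Agent.PGr

open Finset

namespace Dat

variable {D : Dat} {κ c : ℝ}

private theorem swv_edge_s {θ : D.Om} {m : ℕ} {d d'' : ℤ} (hv : D.swv θ m d d'') :
    D.edge θ m (D.xs θ m d) := by
  unfold swv at hv
  unfold xs
  by_cases hd : d ≤ D.n
  · rw [if_pos hd] at hv ⊢
    exact hv.2.1
  · rw [if_neg hd] at hv ⊢
    exact hv.2.1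

private theorem swv_edge_t {θ : D.Om} {m : ℕ} {d d'' : ℤ} (hv : D.swv θ m d d'') :
    D.edge θ m (D.xt θ m d d'') := by
  unfold swv at hv
  unfold xt
  by_cases hd : d ≤ D.n
  · rw [if_pos hd] at hv ⊢
    exact hv.2.2.1
  · rw [if_neg hd] at hv ⊢
    exact hv.2.2.1

theorem wf_zero (e : ℝ) (g : ℤ → ℤ → ℝ) (θ : D.Om) (m : ℕ) (x : ℤ) (hx : ¬ D.edge θ m x) :
    D.wf e g θ m x = 0 := by
  classical
  unfold wf w1
  rw [if_neg hx]
  have h1 : (∑ d ∈ D.D2, ∑ d'' ∈ D.JJ,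
      if m ∈ D.IR ∧ D.swv θ m d d'' ∧ x = D.xs θ m d then g d d'' else 0) = 0 := by
    refine Finset.sum_eq_zero fun d _ => Finset.sum_eq_zero fun d'' _ => ?_
    rw [if_neg]
    rintro ⟨-, hv, rfl⟩
    exact hx (swv_edge_s hv)
  have h2 : (∑ d ∈ D.D2, ∑ d'' ∈ D.JJ,
      if m ∈ D.IR ∧ D.swv θ m d d'' ∧ x = D.xt θ m d d'' then g d d'' else 0) = 0 := by
    refine Finset.sum_eq_zero fun d _ => Finset.sum_eq_zero fun d'' _ => ?_
    rw [if_neg]
    rintro ⟨-, hv, rfl⟩
    exact hx (swv_edge_t hv)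
  rw [h1, h2]
  ring

private theorem two_bd (A B : Finset ℤ) (g : ℤ → ℤ → ℝ) (G : ℝ) (hG : 0 ≤ G)
    (hg : ∀ d ∈ A, ∀ j ∈ B, |g d j| ≤ G) (P : ℤ → ℤ → Prop) [∀ d j, Decidable (P d j)]
    (p q : ℤ × ℤ) (hP : ∀ d j, P d j → (d, j) = p ∨ (d, j) = q) :
    |∑ d ∈ A, ∑ j ∈ B, if P d j then g d j else 0| ≤ 2 * G := by
  classical
  have h1 : ∑ d ∈ A, ∑ j ∈ B, (if P d j then g d j else 0)
      = ∑ z ∈ (A ×ˢ B).filter (fun z => P z.1 z.2), g z.1 z.2 := by
    rw [Finset.sum_filter, Finset.sum_product]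
  rw [h1]
  have h2 : ((A ×ˢ B).filter (fun z => P z.1 z.2)).card ≤ 2 := by
    have h3 : (A ×ˢ B).filter (fun z => P z.1 z.2) ⊆ {p, q} := by
      intro z hz
      rw [Finset.mem_filter] at hz
      have := hP z.1 z.2 hz.2
      rw [Finset.mem_insert, Finset.mem_singleton]
      exact this
    exact (Finset.card_le_card h3).trans Finset.card_le_two
  calc |∑ z ∈ (A ×ˢ B).filter (fun z => P z.1 z.2), g z.1 z.2|
      ≤ ∑ z ∈ (A ×ˢ B).filter (fun z => P z.1 z.2), |g z.1 z.2| := Finset.abs_sum_le_sum_abs _ _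
    _ ≤ ∑ _z ∈ (A ×ˢ B).filter (fun z => P z.1 z.2), G := by
        refine Finset.sum_le_sum fun z hz => ?_
        rw [Finset.mem_filter, Finset.mem_product] at hz
        exact hg z.1 hz.1.1 z.2 hz.1.2
    _ = (((A ×ˢ B).filter (fun z => P z.1 z.2)).card : ℝ) * G := by
        rw [Finset.sum_const, nsmul_eq_mul]
    _ ≤ 2 * G := by
        apply mul_le_mul_of_nonneg_right _ hG
        exact_mod_cast h2

theorem wf_near (e : ℝ) (g : ℤ → ℤ → ℝ) (G : ℝ) (hG : 0 ≤ G)
    (hg : ∀ d ∈ D.D2, ∀ j ∈ D.JJ, |g d j| ≤ G) (θ : D.Om) (m : ℕ) (x : ℤ) :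
    |D.wf e g θ m x - D.w1 e θ m x| ≤ 4 * G := by
  classical
  have h1 := two_bd D.D2 D.JJ g G hG hg
    (fun d d'' => m ∈ D.IR ∧ D.swv θ m d d'' ∧ x = D.xs θ m d)
    (x - D.yy2 θ m, D.yy1 θ m + D.anc m - D.yy2 θ m - x)
    (D.anc m - x, D.anc m + x - D.yy1 θ m - D.yy2 θ m)
    (by
      rintro d d'' ⟨-, hv, hx⟩
      unfold swv at hv
      unfold xs at hx
      by_cases hd : d ≤ D.n
      · rw [if_pos hd] at hv hx
        left
        have := hv.1
        ext <;> simp <;> omega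
      · rw [if_neg hd] at hv hx
        right
        have := hv.1
        ext <;> simp <;> omega)
  have h2 := two_bd D.D2 D.JJ g G hG hg
    (fun d d'' => m ∈ D.IR ∧ D.swv θ m d d'' ∧ x = D.xt θ m d d'')
    (D.yy1 θ m + D.anc m - D.yy2 θ m - x, x - D.yy2 θ m)
    (D.anc m + x - D.yy1 θ m - D.yy2 θ m, D.anc m - x)
    (by
      rintro d d'' ⟨-, hv, hx⟩
      unfold swv at hv
      unfold xt at hx
      by_cases hd : d ≤ D.n
      · rw [if_pos hd] at hv hx
        left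
        have := hv.1
        ext <;> simp <;> omega
      · rw [if_neg hd] at hv hx
        right
        have := hv.1
        ext <;> simp <;> omega)
  unfold wf
  rw [abs_le] at h1 h2 ⊢
  obtain ⟨a1, a2⟩ := h1
  obtain ⟨b1, b2⟩ := h2
  constructor
  · linarith
  · linarith

private theorem edge_Ze {θ : D.Om} {m : ℕ} {x : ℤ} (hx : D.edge θ m x) : x ∈ D.Ze := hx.1

/-- exchange of sums over the labels -/
private theorem sum_lab (g : ℤ → ℤ → ℝ) (θ : D.Om) (m : ℕ) (X : ℤ → ℤ → ℤ)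
    (hX : ∀ d d'', D.swv θ m d d'' → X d d'' ∈ D.Ze) (H : ℤ → Prop)
    [DecidablePred H] [∀ d d'' x, Decidable (m ∈ D.IR ∧ D.swv θ m d d'' ∧ x = X d d'')]
    [∀ d d'', Decidable (m ∈ D.IR ∧ D.swv θ m d d'')] :
    ∑ x ∈ D.Ze, (if H x then ∑ d ∈ D.D2, ∑ d'' ∈ D.JJ,
        (if m ∈ D.IR ∧ D.swv θ m d d'' ∧ x = X d d'' then g d d'' else 0) else 0)
      = ∑ d ∈ D.D2, ∑ d'' ∈ D.JJ, if m ∈ D.IR ∧ D.swv θ m d d'' then
          (if H (X d d'') then g d d'' else 0) else 0 := by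
  classical
  have h1 : ∀ x ∈ D.Ze, (if H x then ∑ d ∈ D.D2, ∑ d'' ∈ D.JJ,
        (if m ∈ D.IR ∧ D.swv θ m d d'' ∧ x = X d d'' then g d d'' else 0) else 0)
      = ∑ d ∈ D.D2, ∑ d'' ∈ D.JJ, (if x = X d d'' then
          (if m ∈ D.IR ∧ D.swv θ m d d'' then (if H x then g d d'' else 0) else 0) else 0) := by
    intro x _
    by_cases hH : H x
    · rw [if_pos hH]
      refine Finset.sum_congr rfl fun d _ => Finset.sum_congr rfl fun d'' _ => ?_
      by_cases h2 : x = X d d''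
      · by_cases h3 : m ∈ D.IR ∧ D.swv θ m d d''
        · rw [if_pos ⟨h3.1, h3.2, h2⟩, if_pos h2, if_pos h3, if_pos hH]
        · rw [if_neg (fun h4 => h3 ⟨h4.1, h4.2.1⟩), if_pos h2, if_neg h3]
      · rw [if_neg (fun h4 => h2 h4.2.2), if_neg h2]
    · rw [if_neg hH]
      symm
      refine Finset.sum_eq_zero fun d _ => Finset.sum_eq_zero fun d'' _ => ?_
      rw [if_neg hH]
      simp
  rw [Finset.sum_congr rfl h1, Finset.sum_comm]
  refine Finset.sum_congr rfl fun d _ => ?_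
  rw [Finset.sum_comm]
  refine Finset.sum_congr rfl fun d'' _ => ?_
  by_cases h3 : m ∈ D.IR ∧ D.swv θ m d d''
  · have hm := hX d d'' h3.2
    rw [Finset.sum_eq_single (X d d'')]
    · rw [if_pos rfl]
    · intro b _ hb
      rw [if_neg hb]
    · intro hn
      exact absurd hm hn
  · rw [if_neg h3]
    refine Finset.sum_eq_zero fun x _ => ?_
    rw [if_neg h3]
    simp

theorem wf_item (e : ℝ) (g : ℤ → ℤ → ℝ) (θ : D.Om) (m : ℕ) :
    ∑ x ∈ D.Ze, D.wf e g θ m x = ∑ x ∈ D.Ze, D.w1 e θ m x := by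
  classical
  have h1 := sum_lab g θ m (fun d _ => D.xs θ m d)
    (fun d d'' hv => edge_Ze (swv_edge_s hv)) (fun _ => True)
  have h2 := sum_lab g θ m (fun d d'' => D.xt θ m d d'')
    (fun d d'' hv => edge_Ze (swv_edge_t hv)) (fun _ => True)
  simp only [if_true] at h1 h2
  unfold wf
  rw [Finset.sum_add_distrib, Finset.sum_sub_distrib, h1, h2]
  ring

private theorem edgD_iff {θ : D.Om} {z : ℤ} (hu : ¬ D.used θ z) (a y1 y2 x : ℤ) :
    D.edgD θ z a y1 y2 x ↔ D.edg θ a y1 y2 x := by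
  have key : ∀ w : ℤ, (w ∈ D.D0 ∧ (w = z ∨ ¬ D.used θ w)) ↔ D.av θ w := by
    intro w
    unfold av
    constructor
    · rintro ⟨h1, h2 | h2⟩
      · exact ⟨h1, by rw [h2]; exact hu⟩
      · exact ⟨h1, h2⟩
    · rintro ⟨h1, h2⟩
      exact ⟨h1, Or.inr h2⟩
  unfold edgD edg
  rw [key, key, key]

/-- the differences of the two labels of a switch -/
private theorem sw_diff {θ : D.Om} {m : ℕ} {d d'' : ℤ} (hd : 1 ≤ d) (hd'' : 1 ≤ d'')
    (hv : D.swv θ m d d'') (z : ℤ) (g : ℝ)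
    [Decidable (hasD (D.anc m) (D.yy1 θ m) (D.yy2 θ m) (D.xt θ m d d'') z)]
    [Decidable (hasD (D.anc m) (D.yy1 θ m) (D.yy2 θ m) (D.xs θ m d) z)] :
    (if hasD (D.anc m) (D.yy1 θ m) (D.yy2 θ m) (D.xt θ m d d'') z then g else 0)
      - (if hasD (D.anc m) (D.yy1 θ m) (D.yy2 θ m) (D.xs θ m d) z then g else 0)
      = (if z = d'' then g else 0) - (if z = d then g else 0) := by
  obtain ⟨P, R, hs, ht, n1, n2, n3, n4, n5, n6⟩ : ∃ P R : ℤ,
      (hasD (D.anc m) (D.yy1 θ m) (D.yy2 θ m) (D.xs θ m d) z ↔ (z = P ∨ z = R ∨ z = d)) ∧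
      (hasD (D.anc m) (D.yy1 θ m) (D.yy2 θ m) (D.xt θ m d d'') z ↔ (z = P ∨ z = R ∨ z = d'')) ∧
      d ≠ d'' ∧ d ≠ P ∧ d ≠ R ∧ d'' ≠ P ∧ d'' ≠ R ∧ P ≠ R := by
    unfold swv at hv
    unfold xs xt
    by_cases hdn : d ≤ D.n
    · rw [if_pos hdn] at hv
      rw [if_pos hdn, if_pos hdn]
      obtain ⟨e1, -, -, hnd⟩ := hv
      simp only [List.nodup_cons, List.mem_cons, List.not_mem_nil, or_false, not_or,
        List.nodup_nil, not_false_eq_true, and_true] at hnd
      obtain ⟨-, -, -, -, ⟨q1, q2, q3⟩, ⟨q4, q5⟩, q6⟩ := hnd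
      have a1 : |D.yy2 θ m + d - D.yy2 θ m| = d := by
        rw [show D.yy2 θ m + d - D.yy2 θ m = d by ring, abs_of_nonneg (by omega)]
      have a2 : |D.yy2 θ m + d'' - D.yy2 θ m| = d'' := by
        rw [show D.yy2 θ m + d'' - D.yy2 θ m = d'' by ring, abs_of_nonneg (by omega)]
      have a3 : |D.yy2 θ m + d'' - D.anc m| = |D.yy2 θ m + d - D.yy1 θ m| := by
        rw [show D.yy2 θ m + d'' - D.anc m = -(D.yy2 θ m + d - D.yy1 θ m) by omega, abs_neg]
      have a4 : |D.yy2 θ m + d'' - D.yy1 θ m| = |D.yy2 θ m + d - D.anc m| := by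
        rw [show D.yy2 θ m + d'' - D.yy1 θ m = -(D.yy2 θ m + d - D.anc m) by omega, abs_neg]
      refine ⟨|D.yy2 θ m + d - D.anc m|, |D.yy2 θ m + d - D.yy1 θ m|, ?_, ?_,
        fun h => q1 (by rw [h]), fun h => q3 (by rw [← h]), fun h => q2 (by rw [← h]),
        fun h => q5 (by rw [← h]), fun h => q4 (by rw [← h]), fun h => q6 (by rw [h])⟩
      · unfold hasD
        rw [a1]
        constructor
        · rintro (h | h | h)
          · exact Or.inl h.symm
          · exact Or.inr (Or.inl h.symm)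
          · exact Or.inr (Or.inr h.symm)
        · rintro (h | h | h)
          · exact Or.inl h.symm
          · exact Or.inr (Or.inl h.symm)
          · exact Or.inr (Or.inr h.symm)
      · unfold hasD
        rw [a2, a3, a4]
        constructor
        · rintro (h | h | h)
          · exact Or.inr (Or.inl h.symm)
          · exact Or.inl h.symm
          · exact Or.inr (Or.inr h.symm)
        · rintro (h | h | h)
          · exact Or.inr (Or.inl h.symm)
          · exact Or.inl h.symm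
          · exact Or.inr (Or.inr h.symm)
    · rw [if_neg hdn] at hv
      rw [if_neg hdn, if_neg hdn]
      obtain ⟨e1, -, -, hnd⟩ := hv
      simp only [List.nodup_cons, List.mem_cons, List.not_mem_nil, or_false, not_or,
        List.nodup_nil, not_false_eq_true, and_true] at hnd
      obtain ⟨-, -, -, -, ⟨q1, q2, q3⟩, ⟨q4, q5⟩, q6⟩ := hnd
      have a1 : |D.anc m - d - D.anc m| = d := by
        rw [show D.anc m - d - D.anc m = -d by ring, abs_neg, abs_of_nonneg (by omega)]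
      have a2 : |D.anc m - d'' - D.anc m| = d'' := by
        rw [show D.anc m - d'' - D.anc m = -d'' by ring, abs_neg, abs_of_nonneg (by omega)]
      have a3 : |D.anc m - d'' - D.yy1 θ m| = |D.anc m - d - D.yy2 θ m| := by
        rw [show D.anc m - d'' - D.yy1 θ m = -(D.anc m - d - D.yy2 θ m) by omega, abs_neg]
      have a4 : |D.anc m - d'' - D.yy2 θ m| = |D.anc m - d - D.yy1 θ m| := by
        rw [show D.anc m - d'' - D.yy2 θ m = -(D.anc m - d - D.yy1 θ m) by omega, abs_neg]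
      refine ⟨|D.anc m - d - D.yy1 θ m|, |D.anc m - d - D.yy2 θ m|, ?_, ?_,
        fun h => q1 (by rw [h]), fun h => q2 (by rw [← h]), fun h => q3 (by rw [← h]),
        fun h => q4 (by rw [← h]), fun h => q5 (by rw [← h]), fun h => q6 (by rw [h])⟩
      · unfold hasD
        rw [a1]
        constructor
        · rintro (h | h | h)
          · exact Or.inr (Or.inr h.symm)
          · exact Or.inl h.symm
          · exact Or.inr (Or.inl h.symm)
        · rintro (h | h | h)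
          · exact Or.inr (Or.inl h.symm)
          · exact Or.inr (Or.inr h.symm)
          · exact Or.inl h.symm
      · unfold hasD
        rw [a2, a3, a4]
        constructor
        · rintro (h | h | h)
          · exact Or.inr (Or.inr h.symm)
          · exact Or.inr (Or.inl h.symm)
          · exact Or.inl h.symm
        · rintro (h | h | h)
          · exact Or.inr (Or.inr h.symm)
          · exact Or.inr (Or.inl h.symm)
          · exact Or.inl h.symm
  by_cases hz1 : z = P ∨ z = R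
  · have b1 : z ≠ d := by
      rintro rfl
      rcases hz1 with h | h
      · exact n2 h
      · exact n3 h
    have b2 : z ≠ d'' := by
      rintro rfl
      rcases hz1 with h | h
      · exact n4 h
      · exact n5 h
    rw [if_pos (ht.2 (by tauto)), if_pos (hs.2 (by tauto)), if_neg b1, if_neg b2]
    ring
  · by_cases b1 : z = d
    · have b2 : z ≠ d'' := fun h => n1 (by rw [← b1, ← h])
      rw [if_neg (fun h => by have := ht.1 h; tauto), if_pos (hs.2 (by tauto)), if_neg b2,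
        if_pos b1]
    · by_cases b2 : z = d''
      · rw [if_pos (ht.2 (by tauto)), if_neg (fun h => by have := hs.1 h; tauto), if_pos b2,
          if_neg b1]
      · rw [if_neg (fun h => by have := ht.1 h; tauto), if_neg (fun h => by have := hs.1 h; tauto),
          if_neg b2, if_neg b1]

open Classical in
theorem wf_deg (h : D.Reg κ c) (e : ℝ) (g : ℤ → ℤ → ℝ) (θ : D.Om) {z : ℤ} (hz : z ∈ D.D0)
    (hu : ¬ D.used θ z) :
    ∑ m ∈ D.It, ∑ x ∈ D.Ze, (if hasD (D.anc m) (D.yy1 θ m) (D.yy2 θ m) x z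
      then D.wf e g θ m x else 0) = D.FF e g θ z := by
  have hz0 : 0 ≤ z := by have := (h.D0_sub z hz).1; omega
  have hD2 : ∀ d ∈ D.D2, 1 ≤ d := by
    intro d hd
    unfold D2 at hd
    rw [Finset.mem_filter] at hd
    exact (h.D0_sub d hd.1).1
  have hJJ : ∀ d ∈ D.JJ, 1 ≤ d := by
    intro d hd
    unfold JJ at hd
    rw [Finset.mem_filter] at hd
    exact hD2 d hd.1
  -- the part of `w1`
  have hdeg : ∑ m ∈ D.It, ∑ x ∈ D.Ze, (if hasD (D.anc m) (D.yy1 θ m) (D.yy2 θ m) x z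
      then D.w1 e θ m x else 0) = D.degD e θ z := by
    unfold degD
    refine Finset.sum_congr rfl fun m _ => Finset.sum_congr rfl fun x _ => ?_
    unfold w1 edge
    by_cases h1 : hasD (D.anc m) (D.yy1 θ m) (D.yy2 θ m) x z
    · by_cases h2 : D.edg θ (D.anc m) (D.yy1 θ m) (D.yy2 θ m) x
      · rw [if_pos h1, if_pos h2, if_pos ⟨(edgD_iff hu _ _ _ _).2 h2, h1⟩]
      · rw [if_pos h1, if_neg h2, if_neg (fun h3 => h2 ((edgD_iff hu _ _ _ _).1 h3.1))]
    · rw [if_neg h1, if_neg (fun h3 => h1 h3.2)]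
  -- the sum of one item
  have hitem : ∀ m ∈ D.It, ∑ x ∈ D.Ze, (if hasD (D.anc m) (D.yy1 θ m) (D.yy2 θ m) x z
      then D.wf e g θ m x else 0)
      = ∑ x ∈ D.Ze, (if hasD (D.anc m) (D.yy1 θ m) (D.yy2 θ m) x z then D.w1 e θ m x else 0)
        + if m ∈ D.IR then ∑ d ∈ D.D2, ∑ d'' ∈ D.JJ, (if D.swv θ m d d'' then
          ((if z = d'' then g d d'' else 0) - (if z = d then g d d'' else 0)) else 0) else 0 := by
    intro m _
    have h1 := sum_lab g θ m (fun d _ => D.xs θ m d)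
      (fun d d'' hv => edge_Ze (swv_edge_s hv))
      (fun x => hasD (D.anc m) (D.yy1 θ m) (D.yy2 θ m) x z)
    have h2 := sum_lab g θ m (fun d d'' => D.xt θ m d d'')
      (fun d d'' hv => edge_Ze (swv_edge_t hv))
      (fun x => hasD (D.anc m) (D.yy1 θ m) (D.yy2 θ m) x z)
    have h3 : ∀ x ∈ D.Ze, (if hasD (D.anc m) (D.yy1 θ m) (D.yy2 θ m) x z
        then D.wf e g θ m x else 0)
        = (if hasD (D.anc m) (D.yy1 θ m) (D.yy2 θ m) x z then D.w1 e θ m x else 0)
          - (if hasD (D.anc m) (D.yy1 θ m) (D.yy2 θ m) x z then ∑ d ∈ D.D2, ∑ d'' ∈ D.JJ,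
            (if m ∈ D.IR ∧ D.swv θ m d d'' ∧ x = D.xs θ m d then g d d'' else 0) else 0)
          + (if hasD (D.anc m) (D.yy1 θ m) (D.yy2 θ m) x z then ∑ d ∈ D.D2, ∑ d'' ∈ D.JJ,
            (if m ∈ D.IR ∧ D.swv θ m d d'' ∧ x = D.xt θ m d d'' then g d d'' else 0) else 0) := by
      intro x _
      unfold wf
      by_cases hh : hasD (D.anc m) (D.yy1 θ m) (D.yy2 θ m) x z
      · rw [if_pos hh, if_pos hh, if_pos hh, if_pos hh]
      · rw [if_neg hh, if_neg hh, if_neg hh, if_neg hh]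
        ring
    rw [Finset.sum_congr rfl h3, Finset.sum_add_distrib, Finset.sum_sub_distrib, h1, h2]
    have h4 : (∑ d ∈ D.D2, ∑ d'' ∈ D.JJ, if m ∈ D.IR ∧ D.swv θ m d d'' then
          (if hasD (D.anc m) (D.yy1 θ m) (D.yy2 θ m) (D.xt θ m d d'') z then g d d'' else 0)
            else 0)
        - (∑ d ∈ D.D2, ∑ d'' ∈ D.JJ, if m ∈ D.IR ∧ D.swv θ m d d'' then
          (if hasD (D.anc m) (D.yy1 θ m) (D.yy2 θ m) (D.xs θ m d) z then g d d'' else 0) else 0)
        = if m ∈ D.IR then ∑ d ∈ D.D2, ∑ d'' ∈ D.JJ, (if D.swv θ m d d'' then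
          ((if z = d'' then g d d'' else 0) - (if z = d then g d d'' else 0)) else 0) else 0 := by
      rw [← Finset.sum_sub_distrib]
      by_cases hm : m ∈ D.IR
      · rw [if_pos hm]
        refine Finset.sum_congr rfl fun d hd => ?_
        rw [← Finset.sum_sub_distrib]
        refine Finset.sum_congr rfl fun d'' hd'' => ?_
        by_cases hv : D.swv θ m d d''
        · have hc : m ∈ D.IR ∧ D.swv θ m d d'' := ⟨hm, hv⟩
          rw [if_pos hc, if_pos hc, if_pos hv,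
            sw_diff (hD2 d hd) (hJJ d'' hd'') hv z (g d d'')]
        · rw [if_neg (fun h5 => hv h5.2), if_neg (fun h5 => hv h5.2), if_neg hv]
          ring
      · rw [if_neg hm]
        refine Finset.sum_eq_zero fun d hd => ?_
        rw [← Finset.sum_sub_distrib]
        refine Finset.sum_eq_zero fun d'' hd'' => ?_
        rw [if_neg (fun h5 => hm h5.1), if_neg (fun h5 => hm h5.1)]
        ring
    rw [← h4]
    ring
  rw [Finset.sum_congr rfl hitem, Finset.sum_add_distrib, hdeg]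
  have hIR : ∑ m ∈ D.It, (if m ∈ D.IR then ∑ d ∈ D.D2, ∑ d'' ∈ D.JJ, (if D.swv θ m d d'' then
          ((if z = d'' then g d d'' else 0) - (if z = d then g d d'' else 0)) else 0) else 0)
      = ∑ m ∈ D.IR, ∑ d ∈ D.D2, ∑ d'' ∈ D.JJ, (if D.swv θ m d d'' then
          ((if z = d'' then g d d'' else 0) - (if z = d then g d d'' else 0)) else 0) := by
    rw [← Finset.sum_filter]
    congr 1
    ext m
    rw [Finset.mem_filter]
    exact ⟨fun h1 => h1.2, fun h1 => ⟨h.IR_sub h1, h1⟩⟩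
  rw [hIR]
  -- split
  have hsplit : ∑ m ∈ D.IR, ∑ d ∈ D.D2, ∑ d'' ∈ D.JJ, (if D.swv θ m d d'' then
          ((if z = d'' then g d d'' else 0) - (if z = d then g d d'' else 0)) else 0)
      = (∑ m ∈ D.IR, ∑ d ∈ D.D2, ∑ d'' ∈ D.JJ, if z = d'' then
          (if D.swv θ m d d'' then g d d'' else 0) else 0)
        - ∑ m ∈ D.IR, ∑ d ∈ D.D2, ∑ d'' ∈ D.JJ, if z = d then
          (if D.swv θ m d d'' then g d d'' else 0) else 0 := by
    rw [← Finset.sum_sub_distrib]
    refine Finset.sum_congr rfl fun m _ => ?_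
    rw [← Finset.sum_sub_distrib]
    refine Finset.sum_congr rfl fun d _ => ?_
    rw [← Finset.sum_sub_distrib]
    refine Finset.sum_congr rfl fun d'' _ => ?_
    split_ifs <;> ring
  rw [hsplit]
  -- target
  have ht : (∑ m ∈ D.IR, ∑ d ∈ D.D2, ∑ d'' ∈ D.JJ, if z = d'' then
          (if D.swv θ m d d'' then g d d'' else 0) else 0)
      = if z ∈ D.JJ then D.Ttgt g θ z else 0 := by
    have h1 : ∀ m ∈ D.IR, ∀ d ∈ D.D2, (∑ d'' ∈ D.JJ, if z = d'' then
          (if D.swv θ m d d'' then g d d'' else 0) else 0)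
        = if z ∈ D.JJ then (if D.swv θ m d z then g d z else 0) else 0 := by
      intro m _ d _
      rw [Finset.sum_ite_eq]
    rw [Finset.sum_congr rfl fun m hm => Finset.sum_congr rfl fun d hd => h1 m hm d hd]
    by_cases hJ : z ∈ D.JJ
    · rw [if_pos hJ]
      simp only [if_pos hJ]
      unfold Ttgt SI SU
      rw [← Finset.sum_add_distrib]
      refine Finset.sum_congr rfl fun m _ => ?_
      unfold D2lo D2hi
      rw [← Finset.sum_filter_add_sum_filter_not D.D2 (fun d => d ≤ (D.n : ℤ))]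
      congr 1
      · refine Finset.sum_congr rfl fun d hd => ?_
        rw [Finset.mem_filter] at hd
        have h2 : D.swv θ m d z ↔ D.swIr θ z m z d := by
          unfold swv
          rw [if_pos hd.2, swI_iff' θ m d hz0]
          exact ⟨fun h3 => h3.2, fun h3 => ⟨hu, h3⟩⟩
        by_cases h3 : D.swv θ m d z
        · rw [if_pos h3, if_pos (h2.1 h3)]
        · rw [if_neg h3, if_neg (fun h4 => h3 (h2.2 h4))]
      · refine Finset.sum_congr rfl fun d hd => ?_
        rw [Finset.mem_filter] at hd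
        have h2 : D.swv θ m d z ↔ D.swUr θ z m z d := by
          unfold swv
          rw [if_neg hd.2, swU_iff' θ m d hz0]
          exact ⟨fun h3 => h3.2, fun h3 => ⟨hu, h3⟩⟩
        by_cases h3 : D.swv θ m d z
        · rw [if_pos h3, if_pos (h2.1 h3)]
        · rw [if_neg h3, if_neg (fun h4 => h3 (h2.2 h4))]
    · rw [if_neg hJ]
      simp only [if_neg hJ]
      simp
  -- source
  have hs : (∑ m ∈ D.IR, ∑ d ∈ D.D2, ∑ d'' ∈ D.JJ, if z = d then
          (if D.swv θ m d d'' then g d d'' else 0) else 0)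
      = if z ∈ D.D2 then D.Tsrc g θ z else 0 := by
    have h1 : ∀ m ∈ D.IR, (∑ d ∈ D.D2, ∑ d'' ∈ D.JJ, if z = d then
          (if D.swv θ m d d'' then g d d'' else 0) else 0)
        = if z ∈ D.D2 then ∑ d'' ∈ D.JJ, (if D.swv θ m z d'' then g z d'' else 0) else 0 := by
      intro m _
      rw [Finset.sum_comm]
      by_cases h2 : z ∈ D.D2
      · rw [if_pos h2]
        refine Finset.sum_congr rfl fun d'' _ => ?_
        rw [Finset.sum_ite_eq, if_pos h2]
      · rw [if_neg h2]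
        refine Finset.sum_eq_zero fun d'' _ => ?_
        rw [Finset.sum_ite_eq, if_neg h2]
    rw [Finset.sum_congr rfl h1]
    by_cases hJ : z ∈ D.D2
    · rw [if_pos hJ]
      simp only [if_pos hJ]
      unfold Tsrc SI SU
      by_cases hzn : z ≤ D.n
      · rw [if_pos hzn]
        refine Finset.sum_congr rfl fun m _ => Finset.sum_congr rfl fun d'' _ => ?_
        have h2 : D.swv θ m z d'' ↔ D.swIr θ z m z d'' := by
          unfold swv
          rw [if_pos hzn, swI_iff θ m hz0]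
          exact ⟨fun h3 => h3.2, fun h3 => ⟨hu, h3⟩⟩
        by_cases h3 : D.swv θ m z d''
        · rw [if_pos h3, if_pos (h2.1 h3)]
        · rw [if_neg h3, if_neg (fun h4 => h3 (h2.2 h4))]
      · rw [if_neg hzn]
        refine Finset.sum_congr rfl fun m _ => Finset.sum_congr rfl fun d'' _ => ?_
        have h2 : D.swv θ m z d'' ↔ D.swUr θ z m z d'' := by
          unfold swv
          rw [if_neg hzn, swU_iff θ m hz0]
          exact ⟨fun h3 => h3.2, fun h3 => ⟨hu, h3⟩⟩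
        by_cases h3 : D.swv θ m z d''
        · rw [if_pos h3, if_pos (h2.1 h3)]
        · rw [if_neg h3, if_neg (fun h4 => h3 (h2.2 h4))]
    · rw [if_neg hJ]
      simp only [if_neg hJ]
      simp
  rw [ht, hs]
  unfold FF
  ring

theorem w1_lab (h : D.Reg κ c) (hκ : κ ≤ 1 / 4) {e : ℝ} (he : 0 ≤ e) (he1 : e ≤ 1 / 10)
    (hs : ∀ (b : Bool) (a y1 y2 : ℤ), D.gen3 b a y1 y2 → 1 / 2 ≤ D.sig e b a y1 y2)
    (θ : D.Om) (x : ℤ) (hx : x ∈ D.Ze) :
    ∑ m ∈ D.It, D.w1 e θ m x ≤ D.labX e θ x := by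
  unfold labX
  refine Finset.sum_le_sum fun m hm => ?_
  unfold w1
  by_cases h1 : D.edge θ m x
  · have h2 : D.edgX θ (D.anc m) (D.yy1 θ m) (D.yy2 θ m) x :=
      ⟨h1.1, h1.2.2.1, h1.2.2.2.1, h1.2.2.2.2.1, h1.2.2.2.2.2⟩
    rw [if_pos h1, if_pos h2]
  · rw [if_neg h1]
    by_cases h2 : D.edgX θ (D.anc m) (D.yy1 θ m) (D.yy2 θ m) x
    · rw [if_pos h2]
      exact (wn_bd h hκ he he1 hs θ hm hx h2.2.1.1 h2.2.2.1.1 h2.2.2.2.1.1).1
    · rw [if_neg h2]

/-- lower and upper bounds of the weights of the edges -/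
theorem w1_bounds (h : D.Reg κ c) (hκ : κ ≤ 1 / 4) {e : ℝ} (he : 0 ≤ e) (he1 : e ≤ 1 / 10)
    (hs : ∀ (b : Bool) (a y1 y2 : ℤ), D.gen3 b a y1 y2 →
      1 / 2 ≤ D.sig e b a y1 y2 ∧ D.sig e b a y1 y2 ≤ 3 / 2)
    (θ : D.Om) {m : ℕ} (hm : m ∈ D.It) {x : ℤ} (hx : D.edge θ m x)
    (ha : |x - D.anc m| ≤ 2 * D.n) :
    1 / (120 * D.n) ≤ D.w1 e θ m x ∧ D.w1 e θ m x ≤ 800 / D.n := by
  have hn : (0 : ℝ) < D.n := by
    have h1 : 0 < D.q ^ 6 := pow_pos h.q_prime.pos 6
    have h3 : 0 < D.n := lt_of_lt_of_le h1 h.q_high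
    exact_mod_cast h3
  have hg := gen3_item h θ hm
  obtain ⟨s1, s2⟩ := hs _ _ _ _ hg
  have hx' : D.edg θ (D.anc m) (D.yy1 θ m) (D.yy2 θ m) x := hx
  unfold w1
  rw [if_pos hx]
  refine ⟨?_, (wn_bd h hκ he he1 (fun b a y1 y2 h3 => (hs b a y1 y2 h3).1) θ hm hx'.1
    hx'.2.2.1.1 hx'.2.2.2.1.1 hx'.2.2.2.2.1.1).2⟩
  have h4 := wt_ge h hκ he he1 (D.hi m) (D.anc m) (D.yy1 θ m) (D.yy2 θ m) x hx'.1
    ⟨hg.1, hg.2.1⟩ hx'.2.2.1.1 ha hx'.2.2.2.1.1 hx'.2.2.2.2.1.1
  unfold wn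
  rw [le_div_iff₀ (by linarith)]
  refine le_trans ?_ h4
  have h5 : (0 : ℝ) ≤ 1 / (120 * D.n) := by positivity
  calc 1 / (120 * (D.n : ℝ)) * D.sig e (D.hi m) (D.anc m) (D.yy1 θ m) (D.yy2 θ m)
      ≤ 1 / (120 * (D.n : ℝ)) * (3 / 2) := mul_le_mul_of_nonneg_left s2 h5
    _ ≤ 1 / (75 * (D.n : ℝ)) := by
        rw [div_mul_div_comm, div_le_div_iff₀ (by positivity) (by positivity)]
        linarith

private theorem D2_le {d : ℤ} (hd : d ∈ D.D2) : d ≤ 2 * D.n := by
  classical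
  by_contra hcon
  unfold D2 at hd
  rw [Finset.mem_filter] at hd
  apply hd.2.1
  unfold Ddef
  rw [Finset.mem_filter]
  exact ⟨hd.1, Or.inl (by omega)⟩

theorem wf_nonneg (h : D.Reg κ c) (hκ : κ ≤ 1 / 4) {e : ℝ} (he : 0 ≤ e) (he1 : e ≤ 1 / 10)
    (hs : ∀ (b : Bool) (a y1 y2 : ℤ), D.gen3 b a y1 y2 →
      1 / 2 ≤ D.sig e b a y1 y2 ∧ D.sig e b a y1 y2 ≤ 3 / 2)
    (g : ℤ → ℤ → ℝ) (G : ℝ) (hG : 0 ≤ G) (hG1 : G ≤ 1 / (480 * D.n))
    (hg : ∀ d ∈ D.D2, ∀ j ∈ D.JJ, |g d j| ≤ G) (θ : D.Om) {m : ℕ} (hm : m ∈ D.It) {x : ℤ}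
    (hx : D.edge θ m x) : 0 ≤ D.wf e g θ m x := by
  classical
  have hn : (0 : ℝ) < D.n := by
    have h1 : 0 < D.q ^ 6 := pow_pos h.q_prime.pos 6
    have h3 : 0 < D.n := lt_of_lt_of_le h1 h.q_high
    exact_mod_cast h3
  by_cases ha : |x - D.anc m| ≤ 2 * D.n
  · have h1 := wf_near e g G hG hg θ m x
    have h2 := (w1_bounds h hκ he he1 hs θ hm hx ha).1
    have h3 := (abs_le.1 h1).1
    have h4 : 1 / (480 * (D.n : ℝ)) = 1 / (120 * D.n) / 4 := by
      field_simp
      norm_num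
    linarith
  · -- the weight is zero
    have hxe : x ∈ D.Ze := hx.1
    obtain ⟨x1, x2, -, -⟩ := D.Ze_prop h hxe
    obtain ⟨a1, a2⟩ := h.anc_A m (Finset.mem_union_right _ hm)
    have hnX : (2 : ℝ) < D.nX (D.hi m) (D.anc m) - D.nX (D.hi m) x := by
      have ha' : 2 * (D.n : ℤ) < |x - D.anc m| := not_le.1 ha
      unfold nX
      unfold A at a1 a2
      by_cases hh : D.hi m = true
      · rw [if_pos hh] at a1 a2
        rw [if_pos hh, if_pos hh, ← sub_div, lt_div_iff₀ hn]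
        have h5 : x - D.anc m < 0 := by omega
        rw [abs_of_neg h5] at ha'
        have h6 : 2 * (D.n : ℝ) < (D.anc m : ℝ) - x := by
          have h7 : 2 * (D.n : ℤ) < D.anc m - x := by omega
          exact_mod_cast h7
        exact h6
      · rw [if_neg hh] at a1 a2
        rw [if_neg hh, if_neg hh]
        have h5 : 0 < x - D.anc m := by omega
        rw [abs_of_pos h5] at ha'
        have h6 : 2 * (D.n : ℝ) < (x : ℝ) - D.anc m := by exact_mod_cast ha'
        have e1 : 3 - (D.anc m : ℝ) / D.n - (3 - (x : ℝ) / D.n) = ((x : ℝ) - D.anc m) / D.n := by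
          ring
        rw [e1, lt_div_iff₀ hn]
        exact h6
    have hw1 : D.w1 e θ m x = 0 := by
      unfold w1 wn wt kerI
      rw [PGrK.kern_zero _ hnX]
      · simp
      · split_ifs <;> norm_num
    have hfar : ∀ d ∈ D.D2, ∀ d'' ∈ D.JJ, m ∈ D.IR → D.swv θ m d d'' →
        x ≠ D.xs θ m d ∧ x ≠ D.xt θ m d d'' := by
      intro d hd d'' hd'' hmR hv
      have hhi := h.IR_hi m hmR
      obtain ⟨r1, r2⟩ := h.IR_A m hmR
      have hd1 : 1 ≤ d := by
        unfold D2 at hd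
        rw [Finset.mem_filter] at hd
        exact (h.D0_sub d hd.1).1
      have hd''2 : d'' ∈ D.D2 := by
        unfold JJ at hd''
        rw [Finset.mem_filter] at hd''
        exact hd''.1
      have hd''1 : 1 ≤ d'' := by
        have h5 := hd''2
        unfold D2 at h5
        rw [Finset.mem_filter] at h5
        exact (h.D0_sub d'' h5.1).1
      have hd3 := D2_le hd
      have hd''3 := D2_le hd''2
      obtain ⟨l1, l2⟩ := lab_range h θ hm (v := D.nb2 m) (Or.inr rfl)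
      have ha' : 2 * (D.n : ℤ) < |x - D.anc m| := not_le.1 ha
      unfold A at a1 a2
      rw [if_pos hhi] at a1 a2
      have h5 : x - D.anc m < 0 := by omega
      rw [abs_of_neg h5] at ha'
      have ha3 : 2 * (D.n : ℝ) < (D.anc m : ℝ) - x := by
        have h7 : 2 * (D.n : ℤ) < D.anc m - x := by omega
        exact_mod_cast h7
      have l1' : (9 / 10 : ℝ) * D.n ≤ D.yy2 θ m := l1
      have hd1r : (1 : ℝ) ≤ d := by exact_mod_cast hd1
      have hd''1r : (1 : ℝ) ≤ d'' := by exact_mod_cast hd''1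
      unfold xs xt
      by_cases hdn : d ≤ D.n
      · rw [if_pos hdn, if_pos hdn]
        constructor
        · intro h6
          have h7 : (x : ℝ) = D.yy2 θ m + d := by exact_mod_cast h6
          linarith
        · intro h6
          have h7 : (x : ℝ) = D.yy2 θ m + d'' := by exact_mod_cast h6
          linarith
      · rw [if_neg hdn, if_neg hdn]
        constructor
        · intro h6
          omega
        · intro h6
          omega
    unfold wf
    rw [hw1]
    have h1 : (∑ d ∈ D.D2, ∑ d'' ∈ D.JJ,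
        if m ∈ D.IR ∧ D.swv θ m d d'' ∧ x = D.xs θ m d then g d d'' else 0) = 0 := by
      refine Finset.sum_eq_zero fun d hd => Finset.sum_eq_zero fun d'' hd'' => ?_
      rw [if_neg]
      rintro ⟨hm1, hv, h3⟩
      exact (hfar d hd d'' hd'' hm1 hv).1 h3
    have h2 : (∑ d ∈ D.D2, ∑ d'' ∈ D.JJ,
        if m ∈ D.IR ∧ D.swv θ m d d'' ∧ x = D.xt θ m d d'' then g d d'' else 0) = 0 := by
      refine Finset.sum_eq_zero fun d hd => Finset.sum_eq_zero fun d'' hd'' => ?_
      rw [if_neg]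
      rintro ⟨hm1, hv, h3⟩
      exact (hfar d hd d'' hd'' hm1 hv).2 h3
    rw [h1, h2]
    norm_num

end Dat

end Pool.Agent.PGr
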