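import Mathlib
import Pool.Agent.PGr.EDefs

/-!
# PGr, part E: the statements E1-E4 (section 7, repaired version)
-/

noncomputable section

namespace Pool.Agent.PGr

open Finset

/-- (E1) the normalising factors of generic triples are close to one. -/
def E1Stmt : Prop :=
  ∀ δ : ℝ, 0 < δ → ∃ κ0 : ℝ, 0 < κ0 ∧ ∃ n0 : ℕ, ∀ (D : Dat) (κ c : ℝ), κ ≤ κ0 → n0 ≤ D.n →
    D.Reg κ c → ∀ e : ℝ, 0 ≤ e → e ≤ 1 / 10 → ∀ (b : Bool) (a y1 y2 : ℤ), D.gen3 b a y1 y2 →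
    |D.sig e b a y1 y2 - 1| ≤ δ

/-- (E2) expected label sums. -/
def E2Stmt : Prop :=
  ∃ κ0 : ℝ, 0 < κ0 ∧ ∃ n0 : ℕ, ∀ (D : Dat) (κ c : ℝ), κ ≤ κ0 → n0 ≤ D.n →
    D.Reg κ c → ∀ e : ℝ, 0 ≤ e → e ≤ 1 / 10 → ∀ x ∈ D.Ze, Ex (fun θ => D.labX e θ x) ≤ 7 / 10

/-- (E3) expected degrees of the differences. -/
def E3Stmt : Prop :=
  ∀ δ : ℝ, 0 < δ → ∃ κ0 : ℝ, 0 < κ0 ∧ ∃ n0 : ℕ, ∀ (D : Dat) (κ c : ℝ), κ ≤ κ0 → n0 ≤ D.n →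
    D.Reg κ c → ∀ e : ℝ, 0 ≤ e → e ≤ 1 / 10 →
    (∀ d ∈ D.D2, |D.GG e d - D.pD d| ≤ δ + 3 * e) ∧
    (∀ d ∈ D.Ddef, (1 + e) * D.GG e d ≤ D.pD d + δ)

/-- (E4) the switches. -/
def E4Stmt : Prop :=
  ∀ c : ℝ, 0 < c → ∃ κ0 : ℝ, 0 < κ0 ∧ ∃ C4 c4 : ℝ, 0 < C4 ∧ 0 < c4 ∧ ∃ n0 : ℕ,
    ∀ (D : Dat) (κ : ℝ), κ ≤ κ0 → n0 ≤ D.n → D.Reg κ c →
    (∀ d ∈ D.D2, ∀ d'' ∈ D.JJ, D.QQ d d'' ≤ C4) ∧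
    (∀ d ∈ D.D2, 10 * (D.JJ.filter (fun d'' => D.QQ d d'' < c4)).card ≤ D.JJ.card) ∧
    (9 / 100 : ℝ) * D.n ≤ D.JJ.card

end Pool.Agent.PGr
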