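import Mathlib
import Pool.Agent.PGr.EStat
import Pool.Agent.PGr.CFlow
import Pool.Agent.PGr.CTheta
import Pool.Agent.PGr.CExp
import Pool.Agent.PGr.CTau
import Pool.Agent.PGr.CMu
import Pool.Agent.PGr.CW
import Pool.Agent.PGr.CPair
import Pool.Agent.PGr.CNib

/-!
# PGr, module CMain: Theorem II from E1-E4
-/

noncomputable section

namespace Pool.Agent.PGr

open Finset

namespace Dat

variable {D : Dat} {κ c : ℝ}

/-- The correction exists: `g` small, and the corrected expected degrees are `τ pD`. -/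
theorem exists_corr (h : D.Reg κ c) {e : ℝ} {C4 c4 ρ : ℝ} (hc4 : 0 < c4) (hC4 : 0 < C4)
    (hρ : 0 ≤ ρ) (hn : 0 < D.n)
    (hpD : ∀ d ∈ D.D2, 3 / 8 ≤ D.pD d)
    (h3 : ∀ d ∈ D.D2, |D.GG e d - D.pD d| ≤ ρ)
    (q1 : ∀ d ∈ D.D2, ∀ d'' ∈ D.JJ, D.QQ d d'' ≤ C4)
    (q2 : ∀ d ∈ D.D2, 10 * (D.JJ.filter (fun d'' => D.QQ d d'' < c4)).card ≤ D.JJ.card)
    (q3 : (9 / 100 : ℝ) * D.n ≤ D.JJ.card)
    (hsmall : 3 * (4 * ρ) * C4 ≤ c4 ^ 2 * (9 / 100) / 2000) :
    ∃ (g : ℤ → ℤ → ℝ) (τ : ℝ), (∀ d ∈ D.D2, ∀ j ∈ D.JJ, |g d j| ≤ 1 / (2000 * D.n)) ∧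
      τ * ∑ d ∈ D.D2, D.pD d = ∑ d ∈ D.D2, D.GG e d ∧
      (∀ d ∈ D.D2, D.GG e d - ∑ j ∈ D.JJ, D.QQ d j * g d j = τ * D.pD d) ∧
      (∀ j ∈ D.JJ, ∑ d ∈ D.D2, D.QQ d j * g d j = 0) := by
  classical
  have hn0 : (0 : ℝ) < D.n := by exact_mod_cast hn
  have hJpos : (0 : ℝ) < D.JJ.card := lt_of_lt_of_le (by positivity) q3
  have hJne : D.JJ.Nonempty := by
    rw [← card_pos]; exact_mod_cast hJpos
  have hJD : D.JJ ⊆ D.D2 := filter_subset _ _
  have hD2ne : D.D2.Nonempty := hJne.mono hJD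
  have hDpos : (0 : ℝ) < D.D2.card := by exact_mod_cast hD2ne.card_pos
  set P : ℝ := ∑ d ∈ D.D2, D.pD d with hP
  have hP1 : 3 / 8 * (D.D2.card : ℝ) ≤ P := by
    rw [hP]
    calc 3 / 8 * (D.D2.card : ℝ) = ∑ d ∈ D.D2, (3 / 8 : ℝ) := by
          rw [sum_const, nsmul_eq_mul]; ring
      _ ≤ _ := sum_le_sum hpD
  have hPpos : 0 < P := lt_of_lt_of_le (by positivity) hP1
  set Gs : ℝ := ∑ d ∈ D.D2, D.GG e d with hGs
  have hGP : |Gs - P| ≤ ρ * D.D2.card := by
    rw [hGs, hP, ← sum_sub_distrib]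
    refine (abs_sum_le_sum_abs _ _).trans ?_
    calc ∑ d ∈ D.D2, |D.GG e d - D.pD d| ≤ ∑ d ∈ D.D2, ρ := sum_le_sum h3
      _ = ρ * D.D2.card := by rw [sum_const, nsmul_eq_mul]; ring
  set τ : ℝ := Gs / P with hτ
  have hτP : τ * P = Gs := by rw [hτ]; field_simp
  have hτ1 : |τ - 1| ≤ 8 / 3 * ρ := by
    have : τ - 1 = (Gs - P) / P := by rw [hτ]; field_simp
    rw [this, abs_div, abs_of_pos hPpos, div_le_iff₀ hPpos]
    calc |Gs - P| ≤ ρ * D.D2.card := hGP
      _ = 8 / 3 * ρ * (3 / 8 * D.D2.card) := by ring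
      _ ≤ 8 / 3 * ρ * P := by gcongr
  have hE : ∀ d ∈ D.D2, |D.GG e d - τ * D.pD d| ≤ 4 * ρ := by
    intro d hd
    have e1 : D.GG e d - τ * D.pD d = (D.GG e d - D.pD d) - (τ - 1) * D.pD d := by ring
    rw [e1]
    have hp1 : D.pD d ≤ 1 := pD_le_one d
    have hp0 : 0 ≤ D.pD d := le_trans (by norm_num) (hpD d hd)
    calc |(D.GG e d - D.pD d) - (τ - 1) * D.pD d|
        ≤ |D.GG e d - D.pD d| + |(τ - 1) * D.pD d| := abs_sub _ _
      _ ≤ ρ + 8 / 3 * ρ * 1 := by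
          refine add_le_add (h3 d hd) ?_
          rw [abs_mul, abs_of_nonneg hp0]
          gcongr
      _ ≤ 4 * ρ := by linarith
  have hsum : ∑ d ∈ D.D2, (D.GG e d - τ * D.pD d) = 0 := by
    rw [sum_sub_distrib, ← mul_sum, ← hP, ← hGs, hτP, sub_self]
  have hQ0 : ∀ d ∈ D.D2, ∀ j ∈ D.JJ, 0 ≤ D.QQ d j := by
    intro d _ j _
    exact sum_nonneg (fun m _ => Pr_nonneg _)
  obtain ⟨g, hg1, hg2, hg3⟩ := flow D.D2 D.JJ D.QQ (fun d => D.GG e d - τ * D.pD d) c4 C4 (4 * ρ)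
    hc4 (by positivity) hJne hQ0 q1 q2 hE hsum
  refine ⟨g, τ, ?_, hτP, ?_, hg3⟩
  · intro d hd j hj
    refine (hg1 d hd j hj).trans ?_
    rw [div_le_div_iff₀ (by positivity) (by positivity)]
    calc 3 * (4 * ρ) * C4 * (2000 * D.n) = (3 * (4 * ρ) * C4) * 2000 * D.n := by ring
      _ ≤ (c4 ^ 2 * (9 / 100) / 2000) * 2000 * D.n := by gcongr
      _ = c4 ^ 2 * ((9 / 100) * D.n) := by ring
      _ ≤ c4 ^ 2 * D.JJ.card := by gcongr
      _ = 1 * (c4 ^ 2 * D.JJ.card) := by ring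
  · intro d hd
    have := hg2 d hd
    rw [this]; ring

/-- available differences have probability at least 3/8 or 0 of being unused -/
theorem pD_ge_cm (h : D.Reg κ c) (hκ : κ ≤ 1 / 4) {d : ℤ} (hd : d ∈ D.D0) (hp : 0 < D.pD d) :
    3 / 8 ≤ D.pD d := by
  by_cases hr : unD D.q d ∈ D.Res
  · rcases pD_res h hr with ⟨h1, _⟩ | ⟨h1, _⟩
    · rw [h1]; norm_num
    · rw [h1] at hp; exact absurd hp (lt_irrefl _)
  · have := pD_ge h hκ hr (h.D0_sub d hd).1
    linarith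

/-- if `d` is unused for some shifts, the probability is positive -/
theorem pD_pos {θ : D.Om} {d : ℤ} (hu : ¬ D.used θ d) : 0 < D.pD d := by
  classical
  unfold pD Pr Ex
  apply div_pos
  · refine lt_of_lt_of_le (zero_lt_one (α := ℝ)) ?_
    have h1 := single_le_sum (f := fun ω : D.Om => if ¬ D.used ω d then (1 : ℝ) else 0)
      (fun i _ => by split_ifs <;> norm_num) (mem_univ θ)
    have h2 : (if ¬ D.used θ d then (1 : ℝ) else 0) = 1 := if_pos hu
    simp only [h2] at h1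
    refine h1.trans (le_of_eq (sum_congr rfl (fun x _ => ?_)))
    by_cases hx : D.used x d <;> simp [hx]
  · exact_mod_cast Fintype.card_pos

/-- bound of the corrected degree at good shifts -/
theorem FF_good (h : D.Reg κ c) (hκ : κ ≤ 1 / 4) {e : ℝ} (he : 0 ≤ e) (he1 : e ≤ 1 / 10)
    (hs : ∀ (b : Bool) (a y1 y2 : ℤ), D.gen3 b a y1 y2 → 1 / 2 ≤ D.sig e b a y1 y2)
    {g : ℤ → ℤ → ℝ} {τ ε : ℝ} (hg : ∀ d ∈ D.D2, ∀ j ∈ D.JJ, |g d j| ≤ 1 / D.n)
    (hε : 0 < ε) (hεe : 10 ^ 6 * ε ≤ e)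
    (hτ : τ ≤ 1 + 1700 * ε)
    (hc1 : ∀ d ∈ D.D2, D.GG e d - ∑ j ∈ D.JJ, D.QQ d j * g d j = τ * D.pD d)
    (hc2 : ∀ j ∈ D.JJ, ∑ d ∈ D.D2, D.QQ d j * g d j = 0)
    (hdef : ∀ d ∈ D.Ddef, (1 + e) * D.GG e d ≤ D.pD d + e / 8)
    (hT : Pr (fun θ : D.Om => ¬ GoodTh D e g ε θ) ≤ ε)
    {θ : D.Om} (hθ : GoodTh D e g ε θ) {d : ℤ} (hd : d ∈ D.D0) (hu : ¬ D.used θ d) :
    D.FF e g θ d ≤ 1 + 10 ^ 5 * ε := by
  classical
  have hp := pD_pos hu
  have hp8 := pD_ge_cm h hκ hd hp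
  have hP : D.pD d = Pr (fun θ : D.Om => ¬ D.used θ d) := rfl
  have hc : Pr (fun ω : D.Om => ¬ (|D.FF e g ω d - Ex (fun ω : D.Om => D.FF e g ω d)| ≤ ε)) ≤ ε := by
    refine le_trans (Pr_mono ?_) hT
    intro ω hω hgood
    exact hω (hgood.2.1 d hd)
  have hB : ∀ ω : D.Om, |D.FF e g ω d| ≤ 10000 := fun ω => FF_bd h hκ he he1 hs g hg ω d
  have hinv : ∀ β : ℝ, 0 ≤ β → β / D.pD d ≤ 8 / 3 * β := by
    intro β hβ
    rw [div_le_iff₀ hp]
    nlinarith
  have hmean : Ex (fun ω : D.Om => D.FF e g ω d) ≤ 1 + 62000 * ε := by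
    by_cases hd2 : d ∈ D.D2
    · have hx := Ex_FF h e g hd2
      have hx2 : (if d ∈ D.JJ then ∑ d' ∈ D.D2, D.QQ d' d * g d' d else 0) = 0 := by
        split_ifs with hj
        · exact hc2 d hj
        · rfl
      rw [hx2, add_zero, hc1 d hd2] at hx
      have := mean_on_event (fun ω : D.Om => D.FF e g ω d) (fun ω => D.used ω d) 10000 τ 0 ε hB hε
        (by rw [← hP]; exact hp) (by rw [← hP, hx]; linarith) hc
      rw [← hP] at this
      have h2 := hinv (0 + (2 * 10000 + 1) * ε) (by positivity)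
      linarith
    · have hdd : d ∈ D.Ddef := by
        by_contra hcon
        exact hd2 (mem_filter.2 ⟨hd, hcon, hp⟩)
      have hx := Ex_FF_def h e g hd2
      have hGG := hdef d hdd
      have h1e : (0 : ℝ) < 1 + e := by linarith
      have hGG2 : D.GG e d ≤ 1 / (1 + e) * D.pD d + (e / 8) := by
        have h3 : D.GG e d ≤ (D.pD d + e / 8) / (1 + e) := by
          rw [le_div_iff₀ h1e]; linarith
        have h4 : (e / 8) / (1 + e) ≤ e / 8 := div_le_self (by positivity) (by linarith)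
        calc D.GG e d ≤ (D.pD d + e / 8) / (1 + e) := h3
          _ = 1 / (1 + e) * D.pD d + (e / 8) / (1 + e) := by ring
          _ ≤ _ := by linarith
      have := mean_on_event (fun ω : D.Om => D.FF e g ω d) (fun ω => D.used ω d) 10000
        (1 / (1 + e)) (e / 8) ε hB hε (by rw [← hP]; exact hp)
        (by rw [← hP, hx]; exact hGG2) hc
      rw [← hP] at this
      have h2 := hinv (e / 8 + (2 * 10000 + 1) * ε) (by positivity)
      have h5 : 1 / (1 + e) ≤ 1 - e * (10 / 11) := by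
        rw [div_le_iff₀ h1e]
        nlinarith
      nlinarith
  have h6 := (abs_le.1 (hθ.2.1 d hd)).2
  nlinarith

end Dat

open Dat in
/-- Theorem II. -/
theorem thmII_of (h1 : E1Stmt) (h2 : E2Stmt) (h3 : E3Stmt) (h4 : E4Stmt) : ThmII := by
  classical
  intro c hc
  obtain ⟨κ4, hκ4, C4, c4, hC4, hc4, n4, h4⟩ := h4 c hc
  obtain ⟨e, he0, he1, he2⟩ : ∃ e : ℝ, 0 < e ∧ e ≤ 1 / 10 ∧ e * (10 ^ 7 * C4) ≤ c4 ^ 2 := by
    refine ⟨min (1 / 10) (c4 ^ 2 / (10 ^ 7 * C4)), by positivity, min_le_left _ _, ?_⟩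
    calc min (1 / 10) (c4 ^ 2 / (10 ^ 7 * C4)) * (10 ^ 7 * C4)
        ≤ (c4 ^ 2 / (10 ^ 7 * C4)) * (10 ^ 7 * C4) := by
          gcongr
          exact min_le_right _ _
      _ = c4 ^ 2 := by field_simp
  obtain ⟨κ1, hκ1, n1, h1⟩ := h1 (1 / 2) (by norm_num)
  obtain ⟨κ2, hκ2, n2, h2⟩ := h2
  obtain ⟨κ3, hκ3, n3, h3⟩ := h3 (e / 8) (by positivity)
  refine ⟨min (min κ1 κ2) (min κ3 (min κ4 (1 / 4))), by positivity, ?_⟩
  intro η hη
  obtain ⟨ε, hε0, hε1, hε2, hε3⟩ : ∃ ε : ℝ, 0 < ε ∧ 10 ^ 6 * ε ≤ e ∧ 10 ^ 7 * ε ≤ η ∧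
      100 * ε ≤ 1 := by
    refine ⟨min (e / 10 ^ 6) (min (η / 10 ^ 7) (1 / 100)), by positivity, ?_, ?_, ?_⟩
    · have := min_le_left (e / 10 ^ 6) (min (η / 10 ^ 7) (1 / 100))
      linarith
    · have := (min_le_right (e / 10 ^ 6) (min (η / 10 ^ 7) (1 / 100))).trans (min_le_left _ _)
      linarith
    · have := (min_le_right (e / 10 ^ 6) (min (η / 10 ^ 7) (1 / 100))).trans (min_le_right _ _)
      linarith
  obtain ⟨δ, hδ, hnib⟩ := partlab (η / 8) (by positivity)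
  obtain ⟨n5, hT⟩ := T1bd ε hε0
  -- a large bound for q
  obtain ⟨q0, hq0⟩ : ∃ q0 : ℕ, 10 ^ 4 ≤ q0 ∧ ∀ q : ℕ, q0 ≤ q → 24 * 801 ≤ δ * √(q : ℝ) := by
    obtain ⟨N, hN⟩ := exists_nat_gt ((24 * 801 / δ) ^ 2)
    refine ⟨max (10 ^ 4) N, le_max_left _ _, ?_⟩
    intro q hq
    have h5 : (24 * 801 / δ) ^ 2 ≤ (q : ℝ) := by
      have : (N : ℝ) ≤ q := by exact_mod_cast (le_max_right _ _).trans hq
      linarith
    have h6 : 24 * 801 / δ ≤ √(q : ℝ) := Real.le_sqrt_of_sq_le h5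
    rw [div_le_iff₀ hδ] at h6
    linarith
  refine ⟨max (max (max n1 n2) (max n3 n4)) (max n5 (q0 ^ 8 + 1)), ?_⟩
  intro D hn hReg
  have hnn1 : n1 ≤ D.n := by omega
  have hnn2 : n2 ≤ D.n := by omega
  have hnn3 : n3 ≤ D.n := by omega
  have hnn4 : n4 ≤ D.n := by omega
  have hnn5 : n5 ≤ D.n := by omega
  have hqq : q0 ^ 8 < D.n := by omega
  set κ := min (min κ1 κ2) (min κ3 (min κ4 (1 / 4))) with hκdef
  have k1 : κ ≤ κ1 := (min_le_left _ _).trans (min_le_left _ _)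
  have k2 : κ ≤ κ2 := (min_le_left _ _).trans (min_le_right _ _)
  have k3 : κ ≤ κ3 := (min_le_right _ _).trans (min_le_left _ _)
  have k4 : κ ≤ κ4 := (min_le_right _ _).trans ((min_le_right _ _).trans (min_le_left _ _))
  have k5 : κ ≤ 1 / 4 := (min_le_right _ _).trans ((min_le_right _ _).trans (min_le_right _ _))
  have hq0q : q0 ≤ D.q := by
    by_contra hcon
    push Not at hcon
    have : D.q ^ 8 ≤ q0 ^ 8 := Nat.pow_le_pow_left hcon.le 8
    have := hReg.q_low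
    omega
  have hq4 : 10 ^ 4 ≤ D.q := hq0.1.trans hq0q
  have hnpos : 0 < D.n := by omega
  have hn0 : (0 : ℝ) < D.n := by exact_mod_cast hnpos
  have he0' : 0 ≤ e := he0.le
  -- E1
  have hsig : ∀ (b : Bool) (a y1 y2 : ℤ), D.gen3 b a y1 y2 →
      1 / 2 ≤ D.sig e b a y1 y2 ∧ D.sig e b a y1 y2 ≤ 3 / 2 := by
    intro b a y1 y2 hg
    have := h1 D κ c k1 hnn1 hReg e he0' he1 b a y1 y2 hg
    rw [abs_le] at this
    constructor <;> linarith [this.1, this.2]
  have hs : ∀ (b : Bool) (a y1 y2 : ℤ), D.gen3 b a y1 y2 → 1 / 2 ≤ D.sig e b a y1 y2 :=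
    fun b a y1 y2 hg => (hsig b a y1 y2 hg).1
  have hE2 := h2 D κ c k2 hnn2 hReg e he0' he1
  obtain ⟨hE3, hE3'⟩ := h3 D κ c k3 hnn3 hReg e he0' he1
  obtain ⟨q1, q2, q3⟩ := h4 D κ k4 hnn4 hReg
  have hpD : ∀ d ∈ D.D2, 3 / 8 ≤ D.pD d := by
    intro d hd
    have := mem_filter.1 hd
    exact pD_ge_cm hReg k5 this.1 this.2.2
  have hsmall : 3 * (4 * (e / 8 + 3 * e)) * C4 ≤ c4 ^ 2 * (9 / 100) / 2000 := by
    have : 0 ≤ e * C4 := by positivity
    nlinarith
  obtain ⟨g, τ, hg, hτ, hc1, hc2⟩ := exists_corr hReg (e := e) hc4 hC4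
    (ρ := e / 8 + 3 * e) (by positivity) hnpos hpD hE3 q1 q2 q3 hsmall
  have hg' : ∀ d ∈ D.D2, ∀ j ∈ D.JJ, |g d j| ≤ 1 / D.n := by
    intro d hd j hj
    refine (hg d hd j hj).trans ?_
    apply one_div_le_one_div_of_le hn0
    linarith
  have hPbad := hT D κ c hnn5 hReg k5 e he0' he1 hs g hg'
  have hP1 : Pr (fun θ : D.Om => ¬ ∀ (b : Bool) (a y1 y2 : ℤ), D.gen3 b a y1 y2 →
      |D.Psi e θ b a y1 y2 - D.sig e b a y1 y2| ≤ ε) ≤ ε := by
    refine le_trans (Pr_mono ?_) hPbad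
    intro ω hω hgood
    exact hω hgood.1
  have hτle := tau_le hReg k5 he0' he1 hs hq4 hε0 (by linarith) hP1
  have hJpos : (0 : ℝ) < D.JJ.card := lt_of_lt_of_le (by positivity) q3
  have hJne : D.JJ.Nonempty := by
    rw [← card_pos]; exact_mod_cast hJpos
  have hD2ne : D.D2.Nonempty := hJne.mono (filter_subset _ _)
  have hPpos : 0 < ∑ d ∈ D.D2, D.pD d :=
    sum_pos (fun d hd => lt_of_lt_of_le (by norm_num) (hpD d hd)) hD2ne
  have hτ1 : τ ≤ 1 + 1700 * ε := by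
    rw [← hτ] at hτle
    exact le_of_mul_le_mul_right hτle hPpos
  obtain ⟨θ, hθ⟩ := exists_not_of_Pr_lt_one (lt_of_le_of_lt hPbad (by linarith : ε < 1))
  push Not at hθ
  have hFF : ∀ d ∈ D.D0, ¬ D.used θ d → D.FF e g θ d ≤ 1 + 10 ^ 5 * ε := fun d hd hu =>
    FF_good hReg k5 he0' he1 hs hg' hε0 hε1 hτ1 hc1 hc2 hE3' hPbad hθ hd hu
  -- the weights
  set L : ℝ := 1 + 10 ^ 5 * ε with hL
  have hL1 : 1 ≤ L := by rw [hL]; linarith
  have hL0 : 0 < L := by linarith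
  have hG0 : (0 : ℝ) ≤ 1 / (2000 * D.n) := by positivity
  have hG1 : (1 : ℝ) / (2000 * D.n) ≤ 1 / (480 * D.n) := by
    apply one_div_le_one_div_of_le (by positivity)
    linarith
  have hwn : ∀ m ∈ D.It, ∀ x : ℤ, D.edge θ m x → 0 ≤ D.wf e g θ m x := fun m hm x hx =>
    wf_nonneg hReg k5 he0' he1 hsig g _ hG0 hG1 hg θ hm hx
  have hwle : ∀ m ∈ D.It, ∀ x : ℤ, D.edge θ m x → D.wf e g θ m x ≤ 801 / D.n := by
    intro m hm x hx
    have ha := wf_near e g _ hG0 hg θ m x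
    have hb : D.w1 e θ m x ≤ 800 / D.n := by
      unfold w1
      rw [if_pos hx]
      exact (wn_bd hReg k5 he0' he1 hs θ hm hx.1 hx.2.2.1.1 hx.2.2.2.1.1 hx.2.2.2.2.1.1).2
    have hc' := (abs_le.1 ha).2
    have hd : 4 * (1 / (2000 * (D.n : ℝ))) ≤ 1 / D.n := by
      rw [show 4 * (1 / (2000 * (D.n : ℝ))) = 1 / (500 * D.n) by field_simp; norm_num]
      apply one_div_le_one_div_of_le hn0
      linarith
    have he' : (801 : ℝ) / D.n = 800 / D.n + 1 / D.n := by ring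
    rw [he']
    linarith
  -- sums
  have hitem : ∀ m ∈ D.It, |∑ x ∈ D.Ze, D.wf e g θ m x - 1| ≤ 2 * ε := by
    intro m hm
    rw [wf_item, item_sum]
    have hgen := gen3_item hReg θ hm
    have ha := hθ.1 _ _ _ _ hgen
    have hb := hsig _ _ _ _ hgen
    set s := D.sig e (D.hi m) (D.anc m) (D.yy1 θ m) (D.yy2 θ m) with hsdef
    have hs0 : 0 < s := by linarith [hb.1]
    have : D.Psi e θ (D.hi m) (D.anc m) (D.yy1 θ m) (D.yy2 θ m) / s - 1
        = (D.Psi e θ (D.hi m) (D.anc m) (D.yy1 θ m) (D.yy2 θ m) - s) / s := by field_simp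
    rw [this, abs_div, abs_of_pos hs0, div_le_iff₀ hs0]
    nlinarith [hb.1]
  have hIf : ∀ (m : ℕ) (x : ℤ), (if D.edge θ m x then D.wf e g θ m x / L else 0)
      = D.wf e g θ m x / L := by
    intro m x
    split_ifs with hx
    · rfl
    · rw [wf_zero e g θ m x hx, zero_div]
  have hItc := It_card hReg
  have hδ1 : 801 / (D.n : ℝ) ≤ δ ∧ 6 * (801 / (D.n : ℝ)) ≤ δ ∧
      24 * D.n / √(D.q : ℝ) * (801 / D.n) ≤ δ := by
    have hqd := hq0.2 D.q hq0q
    have hqpos : (0 : ℝ) < √(D.q : ℝ) := by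
      apply Real.sqrt_pos.2
      have : 0 < D.q := by omega
      exact_mod_cast this
    have hqn : √(D.q : ℝ) ≤ D.n := by
      have h5 : (1 : ℝ) ≤ D.q := by
        have : 1 ≤ D.q := by omega
        exact_mod_cast this
      have h6 : √(D.q : ℝ) ≤ D.q := by
        rw [Real.sqrt_le_left (by linarith)]
        nlinarith
      have h7 : D.q ≤ D.n := by
        calc D.q ≤ D.q ^ 6 := Nat.le_self_pow (by norm_num) _
          _ ≤ D.n := hReg.q_high
      have h8 : (D.q : ℝ) ≤ D.n := by exact_mod_cast h7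
      linarith
    have h9 : 24 * 801 ≤ δ * D.n := by nlinarith
    refine ⟨?_, ?_, ?_⟩
    · rw [div_le_iff₀ hn0]; linarith
    · rw [← mul_div_assoc, div_le_iff₀ hn0]; linarith
    · rw [show 24 * (D.n : ℝ) / √(D.q : ℝ) * (801 / D.n) = 24 * 801 / √(D.q : ℝ) by
        field_simp]
      rw [div_le_iff₀ hqpos]
      exact hqd
  have hWle : ∀ m ∈ D.It, ∀ x : ℤ, D.edge θ m x → D.wf e g θ m x / L ≤ 801 / D.n := by
    intro m hm x hx
    refine le_trans (div_le_self (hwn m hm x hx) hL1) (hwle m hm x hx)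
  have hWn : ∀ m ∈ D.It, ∀ x : ℤ, D.edge θ m x → 0 ≤ D.wf e g θ m x / L := by
    intro m hm x hx
    exact div_nonneg (hwn m hm x hx) hL0.le
  obtain ⟨I', z, hI', hIc, hz⟩ := hnib D θ (fun m x => D.wf e g θ m x / L)
    (fun m hm x _ hx => hWn m hm x hx)
    (by
      intro m hm
      simp only [hIf]
      rw [← sum_div, div_le_one hL0]
      have := (abs_le.1 (hitem m hm)).2
      rw [hL]; linarith)
    (by
      intro x hx
      have h5 : ∑ m ∈ D.It, (if D.edge θ m x then D.wf e g θ m x / L else 0)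
          ≤ ∑ m ∈ D.It, (D.w1 e θ m x + 4 * (1 / (2000 * D.n))) := by
        refine sum_le_sum ?_
        intro m hm
        split_ifs with hx'
        · refine le_trans (div_le_self (hwn m hm x hx') hL1) ?_
          have := (abs_le.1 (wf_near e g _ hG0 hg θ m x)).2
          linarith
        · have : 0 ≤ D.w1 e θ m x := by
            unfold w1; rw [if_neg hx']
          positivity
      refine h5.trans ?_
      rw [sum_add_distrib, sum_const, nsmul_eq_mul]
      have h6 := w1_lab hReg k5 he0' he1 hs θ x hx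
      have h7 := (abs_le.1 (hθ.2.2 x hx)).2
      have h8 := hE2 x hx
      have h9 : (D.It.card : ℝ) * (4 * (1 / (2000 * D.n))) ≤ 2 * D.n * (4 * (1 / (2000 * D.n))) := by
        gcongr
      have h10 : 2 * (D.n : ℝ) * (4 * (1 / (2000 * D.n))) = 1 / 250 := by
        field_simp; norm_num
      linarith)
    (by
      intro w hw hu
      have h5 : ∑ m ∈ D.It, ∑ x ∈ D.Ze, (if D.edge θ m x ∧
          hasD (D.anc m) (D.yy1 θ m) (D.yy2 θ m) x w then D.wf e g θ m x / L else 0)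
          = (∑ m ∈ D.It, ∑ x ∈ D.Ze, (if hasD (D.anc m) (D.yy1 θ m) (D.yy2 θ m) x w
            then D.wf e g θ m x else 0)) / L := by
        rw [sum_div]
        refine sum_congr rfl (fun m _ => ?_)
        rw [sum_div]
        refine sum_congr rfl (fun x _ => ?_)
        by_cases hx : D.edge θ m x
        · by_cases hy : hasD (D.anc m) (D.yy1 θ m) (D.yy2 θ m) x w
          · simp [hx, hy]
          · simp [hy]
        · rw [wf_zero e g θ m x hx]
          simp [hx]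
      rw [h5, wf_deg hReg e g θ hw hu, div_le_one hL0]
      exact hFF w hw hu)
    (by
      intro m hm x _ hx
      exact (hWle m hm x hx).trans hδ1.1)
    (by
      intro m hm w
      refine le_trans ?_ hδ1.2.1
      calc ∑ x ∈ D.Ze, (if D.edge θ m x ∧ hasD (D.anc m) (D.yy1 θ m) (D.yy2 θ m) x w
            then D.wf e g θ m x / L else 0)
          ≤ ∑ x ∈ D.Ze, (if hasD (D.anc m) (D.yy1 θ m) (D.yy2 θ m) x w
            then 801 / (D.n : ℝ) else 0) := by
            refine sum_le_sum (fun x _ => ?_)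
            by_cases hy : hasD (D.anc m) (D.yy1 θ m) (D.yy2 θ m) x w
            · by_cases hx : D.edge θ m x
              · simp only [hx, hy, and_self, if_true]
                exact hWle m hm x hx
              · simp only [hx, hy, false_and, if_false, if_true]
                positivity
            · simp [hy]
        _ = ((D.Ze.filter (fun x => hasD (D.anc m) (D.yy1 θ m) (D.yy2 θ m) x w)).card : ℝ)
            * (801 / D.n) := by
            rw [← sum_filter, sum_const, nsmul_eq_mul]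
        _ ≤ 6 * (801 / D.n) := by
            have := card1 D.Ze (D.anc m) (D.yy1 θ m) (D.yy2 θ m) w
            gcongr
            exact_mod_cast this)
    (by
      intro x hx w
      refine le_trans ?_ hδ1.2.1
      calc ∑ m ∈ D.It, (if D.edge θ m x ∧ hasD (D.anc m) (D.yy1 θ m) (D.yy2 θ m) x w
            then D.wf e g θ m x / L else 0)
          ≤ ∑ m ∈ D.It, (if hasD (D.anc m) (D.yy1 θ m) (D.yy2 θ m) x w
            then 801 / (D.n : ℝ) else 0) := by
            refine sum_le_sum (fun m hm => ?_)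
            by_cases hy : hasD (D.anc m) (D.yy1 θ m) (D.yy2 θ m) x w
            · by_cases hx : D.edge θ m x
              · simp only [hx, hy, and_self, if_true]
                exact hWle m hm x hx
              · simp only [hx, hy, false_and, if_false, if_true]
                positivity
            · simp [hy]
        _ = ((D.It.filter (fun m => hasD (D.anc m) (D.yy1 θ m) (D.yy2 θ m) x w)).card : ℝ)
            * (801 / D.n) := by
            rw [← sum_filter, sum_const, nsmul_eq_mul]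
        _ ≤ 6 * (801 / D.n) := by
            have := card2 hReg θ x w
            gcongr
            exact_mod_cast this)
    (by
      intro w w' hww
      refine le_trans ?_ hδ1.2.2
      have hqpos : (0 : ℝ) < √(D.q : ℝ) := by
        apply Real.sqrt_pos.2
        have : 0 < D.q := by omega
        exact_mod_cast this
      rw [← sum_product' (f := fun m x => if D.edge θ m x ∧
        hasD (D.anc m) (D.yy1 θ m) (D.yy2 θ m) x w ∧
        hasD (D.anc m) (D.yy1 θ m) (D.yy2 θ m) x w' then D.wf e g θ m x / L else 0)]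
      calc ∑ p ∈ D.It ×ˢ D.Ze, (if D.edge θ p.1 p.2 ∧
            hasD (D.anc p.1) (D.yy1 θ p.1) (D.yy2 θ p.1) p.2 w ∧
            hasD (D.anc p.1) (D.yy1 θ p.1) (D.yy2 θ p.1) p.2 w' then D.wf e g θ p.1 p.2 / L else 0)
          ≤ ∑ p ∈ D.It ×ˢ D.Ze, (if hasD (D.anc p.1) (D.yy1 θ p.1) (D.yy2 θ p.1) p.2 w ∧
            hasD (D.anc p.1) (D.yy1 θ p.1) (D.yy2 θ p.1) p.2 w' then 801 / (D.n : ℝ) else 0) := by
            refine sum_le_sum (fun p hp => ?_)
            have hp1 := (mem_product.1 hp).1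
            by_cases hy : hasD (D.anc p.1) (D.yy1 θ p.1) (D.yy2 θ p.1) p.2 w ∧
              hasD (D.anc p.1) (D.yy1 θ p.1) (D.yy2 θ p.1) p.2 w'
            · by_cases hx : D.edge θ p.1 p.2
              · simp only [hx, hy, and_self, if_true]
                exact hWle p.1 hp1 p.2 hx
              · simp only [hx, hy, false_and, if_false, if_true, and_self]
                positivity
            · rw [if_neg hy, if_neg (fun hcon => hy hcon.2)]
        _ = (((D.It ×ˢ D.Ze).filter (fun p => hasD (D.anc p.1) (D.yy1 θ p.1) (D.yy2 θ p.1) p.2 w ∧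
            hasD (D.anc p.1) (D.yy1 θ p.1) (D.yy2 θ p.1) p.2 w')).card : ℝ) * (801 / D.n) := by
            rw [← sum_filter, sum_const, nsmul_eq_mul]
        _ ≤ 24 * D.n / √(D.q : ℝ) * (801 / D.n) := by
            have := card3 hReg θ hww
            gcongr
            rw [le_div_iff₀ hqpos]
            exact this)
  refine ⟨θ, I', z, hI', ?_, hz⟩
  refine hIc.trans ?_
  have hsumW : (1 - 2 * ε) / L * D.It.card ≤ ∑ m ∈ D.It, ∑ x ∈ D.Ze,
      (if D.edge θ m x then D.wf e g θ m x / L else 0) := by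
    simp only [hIf]
    calc (1 - 2 * ε) / L * D.It.card = ∑ m ∈ D.It, (1 - 2 * ε) / L := by
          rw [sum_const, nsmul_eq_mul]; ring
      _ ≤ _ := by
          refine sum_le_sum (fun m hm => ?_)
          rw [← sum_div]
          gcongr
          have := (abs_le.1 (hitem m hm)).1
          linarith
  have hLinv : 1 - 10 ^ 5 * ε ≤ 1 / L := by
    rw [le_div_iff₀ hL0, hL]
    nlinarith [sq_nonneg ε]
  have hfrac : 1 - (10 ^ 5 + 2) * ε ≤ (1 - 2 * ε) / L := by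
    have : (1 - 2 * ε) / L = (1 - 2 * ε) * (1 / L) := by ring
    rw [this]
    have h12 : 0 ≤ 1 - 2 * ε := by linarith
    nlinarith
  by_cases hη8 : 8 ≤ η
  · have h13 : 0 ≤ ∑ m ∈ D.It, ∑ x ∈ D.Ze, (if D.edge θ m x then D.wf e g θ m x / L else 0) := by
      refine sum_nonneg (fun m hm => sum_nonneg (fun x _ => ?_))
      split_ifs with hx
      · exact hWn m hm x hx
      · exact le_rfl
    have h14 : ∑ m ∈ D.It, ∑ x ∈ D.Ze, (if D.edge θ m x then D.wf e g θ m x / L else 0)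
        ≤ 2 * D.n := by
      calc _ ≤ ∑ m ∈ D.It, (1 : ℝ) := by
            refine sum_le_sum (fun m hm => ?_)
            simp only [hIf]
            rw [← sum_div, div_le_one hL0]
            have := (abs_le.1 (hitem m hm)).2
            rw [hL]; linarith
        _ = D.It.card := by rw [sum_const, nsmul_eq_mul, mul_one]
        _ ≤ _ := hItc
    nlinarith
  · push Not at hη8
    have h15 : 0 ≤ 1 - η / 8 := by linarith
    have h16 : (1 - η / 8) * ((1 - (10 ^ 5 + 2) * ε) * D.It.card) ≤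
        (1 - η / 8) * ∑ m ∈ D.It, ∑ x ∈ D.Ze, (if D.edge θ m x then D.wf e g θ m x / L else 0) := by
      refine mul_le_mul_of_nonneg_left ?_ h15
      refine le_trans ?_ hsumW
      gcongr
    have hc0 : (0 : ℝ) ≤ D.It.card := by positivity
    have h17 : (D.It.card : ℝ) - (1 - η / 8) * ((1 - (10 ^ 5 + 2) * ε) * D.It.card)
        ≤ (η / 8 + (10 ^ 5 + 2) * ε) * D.It.card := by
      have h18 : 0 ≤ η / 8 * ((10 ^ 5 + 2) * ε) * D.It.card := by positivity
      nlinarith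
    have h19 : (η / 8 + (10 ^ 5 + 2) * ε) * D.It.card ≤ (η / 8 + (10 ^ 5 + 2) * ε) * (2 * D.n) := by
      gcongr
    nlinarith

end Pool.Agent.PGr
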