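import Pool.Agent.PGr.KDat
set_option autoImplicit false

/-!
Part K of project PGr: the deterministic parts of (E1), (E2), (E3) for `D : Dat` with `D.Reg κ c`.
-/

open MeasureTheory Set

namespace PGrK

theorem Disc.sub {ι : Type*} [DecidableEq ι] {s s' : Finset ι} {pt : ι → ℝ}
    {w rho al be del e : ℝ} (h : Disc s pt w rho al be del) (hw : 0 ≤ w) (hs : s' ⊆ s)
    (he : w * ((s \ s').card : ℝ) ≤ e) : Disc s' pt w rho al be (del + e) := by
  intro I hI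
  have h1 := h I hI
  have h2 : ∑ i ∈ s, I.indicator (fun _ => (1 : ℝ)) (pt i) =
      (∑ i ∈ s \ s', I.indicator (fun _ => (1 : ℝ)) (pt i))
        + ∑ i ∈ s', I.indicator (fun _ => (1 : ℝ)) (pt i) := (Finset.sum_sdiff hs).symm
  have h3 : 0 ≤ w * ∑ i ∈ s \ s', I.indicator (fun _ => (1 : ℝ)) (pt i) :=
    mul_nonneg hw (Finset.sum_nonneg (fun i _ => (ind_bd _ _).1))
  have h4 : w * ∑ i ∈ s \ s', I.indicator (fun _ => (1 : ℝ)) (pt i) ≤ e := by
    refine le_trans (mul_le_mul_of_nonneg_left ?_ hw) he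
    calc ∑ i ∈ s \ s', I.indicator (fun _ => (1 : ℝ)) (pt i) ≤ ∑ _i ∈ s \ s', (1 : ℝ) :=
          Finset.sum_le_sum (fun i _ => (ind_bd _ _).2)
      _ = ((s \ s').card : ℝ) := by simp
  rw [h2, mul_add] at h1
  rw [abs_le] at h1 ⊢
  constructor <;> linarith [h1.1, h1.2]

theorem Disc.mono {ι : Type*} {s : Finset ι} {pt : ι → ℝ}
    {w rho al be del del' : ℝ} (h : Disc s pt w rho al be del) (hd : del ≤ del') :
    Disc s pt w rho al be del' := fun I hI => le_trans (h I hI) hd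

theorem Disc.card_le {ι : Type*} {s : Finset ι} {pt : ι → ℝ} {w del : ℝ}
    (h : Disc s pt w (1 / 2) (5 / 2) 3 del) (hdel : del ≤ 1 / 2) : w * (s.card : ℝ) ≤ 1 := by
  have h1 := h univ ordConnected_univ
  simp only [indicator_univ, Finset.sum_const, nsmul_eq_mul, mul_one, univ_inter] at h1
  rw [Real.volume_real_Icc_of_le (by norm_num)] at h1
  have := (abs_le.1 h1).2
  linarith

/-- integers. -/
theorem disc_int {n : ℕ} (hn : 0 < n) :
    Disc ((Finset.Icc (0 : ℤ) (3 * n)).filter (fun x : ℤ => (n : ℤ) < 2 * x ∧ 2 * x < 5 * n))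
      (fun x : ℤ => (x : ℝ) / n) (1 / (n : ℝ)) 1 (1 / 2) (5 / 2) (1 / (n : ℝ)) := by
  have hnr : (0 : ℝ) < n := by exact_mod_cast hn
  classical
  refine disc_of (by positivity) (by norm_num) ?_ ?_ ?_
  · intro x hx
    rw [Finset.mem_filter] at hx
    have h1 : (n : ℝ) < 2 * (x : ℝ) := by exact_mod_cast hx.2.1
    have h2 : 2 * (x : ℝ) < 5 * (n : ℝ) := by exact_mod_cast hx.2.2
    constructor
    · rw [le_div_iff₀ hnr]; linarith
    · rw [div_le_iff₀ hnr]; linarith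
  · intro p q hp hpq hq
    rw [sum_ind_card _ (fun x : ℤ => (x : ℝ) / n) (Icc p q)]
    have hsub : ((Finset.Icc (0 : ℤ) (3 * n)).filter
        (fun x : ℤ => (n : ℤ) < 2 * x ∧ 2 * x < 5 * n)).filter (fun x : ℤ => (x : ℝ) / n ∈ Icc p q)
        ⊆ Finset.Icc ⌈p * n⌉ ⌊q * n⌋ := by
      intro x hx
      rw [Finset.mem_filter] at hx
      obtain ⟨_, h1, h2⟩ := hx
      rw [le_div_iff₀ hnr] at h1
      rw [div_le_iff₀ hnr] at h2
      rw [Finset.mem_Icc]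
      exact ⟨Int.ceil_le.2 h1, Int.le_floor.2 h2⟩
    have hc := Finset.card_le_card hsub
    rw [Int.card_Icc] at hc
    have h1 : ((⌊q * n⌋ + 1 - ⌈p * n⌉).toNat : ℝ) ≤ (q - p) * n + 1 := by
      have h2 := Int.floor_le (q * n)
      have h3 := Int.le_ceil (p * n)
      have h4 : 0 ≤ (q - p) * n := mul_nonneg (by linarith) hnr.le
      by_cases h5 : 0 ≤ ⌊q * n⌋ + 1 - ⌈p * n⌉
      · have h6 : ((⌊q * n⌋ + 1 - ⌈p * n⌉).toNat : ℝ) = ((⌊q * n⌋ + 1 - ⌈p * n⌉ : ℤ) : ℝ) := by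
          exact_mod_cast Int.toNat_of_nonneg h5
        rw [h6]; push_cast; linarith
      · rw [Int.toNat_of_nonpos (by omega)]; push_cast; linarith
    have h7 : (((((Finset.Icc (0 : ℤ) (3 * n)).filter
        (fun x : ℤ => (n : ℤ) < 2 * x ∧ 2 * x < 5 * n)).filter
          (fun x : ℤ => (x : ℝ) / n ∈ Icc p q)).card : ℕ) : ℝ) ≤ (q - p) * n + 1 :=
      le_trans (by exact_mod_cast hc) h1
    rw [one_div_mul_eq_div, div_le_iff₀ hnr]
    refine le_trans h7 (le_of_eq ?_)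
    field_simp
  · intro p q hp hpq hq
    rw [sum_ind_card _ (fun x : ℤ => (x : ℝ) / n) (Ioo p q)]
    have hsub : Finset.Icc (⌊p * n⌋ + 1) (⌈q * n⌉ - 1) ⊆ ((Finset.Icc (0 : ℤ) (3 * n)).filter
        (fun x : ℤ => (n : ℤ) < 2 * x ∧ 2 * x < 5 * n)).filter (fun x : ℤ => (x : ℝ) / n ∈ Ioo p q) := by
      intro x hx
      rw [Finset.mem_Icc] at hx
      have h1 : p * n < (x : ℝ) := Int.floor_lt.1 (by omega)
      have h2 : (x : ℝ) < q * n := Int.lt_ceil.1 (by omega)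
      have h3 : (n : ℝ) < 2 * (x : ℝ) := by nlinarith
      have h4 : 2 * (x : ℝ) < 5 * n := by nlinarith
      have h3' : (n : ℤ) < 2 * x := by exact_mod_cast h3
      have h4' : 2 * x < 5 * (n : ℤ) := by exact_mod_cast h4
      rw [Finset.mem_filter, Finset.mem_filter, Finset.mem_Icc]
      refine ⟨⟨⟨by omega, by omega⟩, h3', h4'⟩, ?_, ?_⟩
      · rw [lt_div_iff₀ hnr]; exact h1
      · rw [div_lt_iff₀ hnr]; exact h2
    have hc := Finset.card_le_card hsub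
    rw [Int.card_Icc] at hc
    have h1 : (q - p) * n - 1 ≤ ((⌈q * n⌉ - 1 + 1 - (⌊p * n⌋ + 1)).toNat : ℝ) := by
      have h2 := Int.floor_le (p * n)
      have h3 := Int.le_ceil (q * n)
      have h6 : ((⌈q * n⌉ - 1 + 1 - (⌊p * n⌋ + 1) : ℤ) : ℝ)
          ≤ ((⌈q * n⌉ - 1 + 1 - (⌊p * n⌋ + 1)).toNat : ℝ) := by
        exact_mod_cast Int.self_le_toNat _
      refine le_trans ?_ h6
      push_cast
      linarith
    have h7 : (q - p) * n - 1 ≤ (((((Finset.Icc (0 : ℤ) (3 * n)).filter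
        (fun x : ℤ => (n : ℤ) < 2 * x ∧ 2 * x < 5 * n)).filter
          (fun x : ℤ => (x : ℝ) / n ∈ Ioo p q)).card : ℕ) : ℝ) :=
      le_trans h1 (by exact_mod_cast hc)
    refine le_trans ?_ (le_of_eq (one_div_mul_eq_div (n : ℝ) _).symm)
    rw [le_div_iff₀ hnr]
    refine le_trans (le_of_eq ?_) h7
    field_simp

end PGrK

namespace Pool.Agent.PGr

open PGrK

/-- the integers strictly between `n/2` and `5n/2`. -/
noncomputable def Zr (n : ℕ) : Finset ℤ :=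
  (Finset.Icc (0 : ℤ) (3 * n)).filter (fun x : ℤ => (n : ℤ) < 2 * x ∧ 2 * x < 5 * n)

theorem mem_Zr {n : ℕ} {x : ℤ} : x ∈ Zr n ↔ (n : ℤ) < 2 * x ∧ 2 * x < 5 * n := by
  unfold Zr
  rw [Finset.mem_filter, Finset.mem_Icc]
  constructor
  · rintro ⟨_, h⟩; exact h
  · rintro ⟨h1, h2⟩; exact ⟨⟨by omega, by omega⟩, h1, h2⟩

/-- (E1), deterministic part. -/
theorem E1det {n : ℕ} (hn : 0 < n) (b : Bool) {p : ℕ} (hp : p < 2) {A : ℝ} (hA : 5 / 2 ≤ A)
    (hA3 : A ≤ 3) :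
    |(1 / (n : ℝ)) * (∑ x ∈ Zr n, kern p A (nrm n b x)) - 1| ≤ 250 * (1 / (n : ℝ)) := by
  have hnr : (0 : ℝ) < n := by exact_mod_cast hn
  have hd := disc_int hn
  have q := quad_kn _ _ (by norm_num : (1/2:ℝ) ≤ 5/2) hd hp A 0 0 1 (J := univ) ordConnected_univ
  have hkn : ∀ x, kn p A 0 0 1 univ x = kern p A x := by
    intro x
    unfold kn
    rw [indicator_univ]
    congr 1 <;> ring
  simp only [hkn] at q
  rw [K1 hp hA hA3, one_mul] at q
  cases b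
  · have e : ∑ x ∈ Zr n, kern p A (nrm n false x) = ∑ x ∈ Zr n, kern p A ((x : ℝ) / n) := by
      apply Finset.sum_nbij' (fun x : ℤ => 3 * (n : ℤ) - x) (fun x : ℤ => 3 * (n : ℤ) - x)
      · intro x hx; rw [mem_Zr] at hx ⊢; constructor <;> omega
      · intro x hx; rw [mem_Zr] at hx ⊢; constructor <;> omega
      · intro x _; ring
      · intro x _; ring
      · intro x _
        congr 1
        unfold nrm
        simp only [Bool.false_eq_true, if_false]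
        push_cast
        field_simp
    rw [e]
    exact q
  · exact q

namespace Dat

variable {D : Dat} {κ c : ℝ}

open Classical in
/-- the pure main items of one type. -/
noncomputable def Pu (D : Dat) (b : Bool) : Finset ℕ :=
  D.It.filter (fun m => D.hi m = b ∧ D.pure m)

theorem Reg.disc_Pu (h : D.Reg κ c) (b : Bool) :
    Disc (D.Pu b) (fun m => (D.A m : ℝ) / D.n) (1 / (D.n : ℝ)) (1 / 2) (5 / 2) 3
      (2 * κ + 1 / D.n) := by
  have hn : (0 : ℝ) < D.n := by exact_mod_cast h.n_pos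
  classical
  have h1 := h.disc_A b
  have hs : D.Pu b ⊆ D.It.filter (fun m => D.hi m = b) := by
    intro m hm
    unfold Pu at hm
    rw [Finset.mem_filter] at hm ⊢
    exact ⟨hm.1, hm.2.1⟩
  have h2 : (1 / (D.n : ℝ)) * (((D.It.filter (fun m => D.hi m = b)) \ D.Pu b).card : ℝ) ≤ κ := by
    have h3 : (D.It.filter (fun m => D.hi m = b)) \ D.Pu b ⊆ D.It.filter (fun m => ¬ D.pure m) := by
      intro m hm
      unfold Pu at hm
      rw [Finset.mem_sdiff, Finset.mem_filter, Finset.mem_filter] at hm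
      rw [Finset.mem_filter]
      exact ⟨hm.1.1, fun hp => hm.2 ⟨hm.1.1, hm.1.2, hp⟩⟩
    have h4 : ((((D.It.filter (fun m => D.hi m = b)) \ D.Pu b).card : ℕ) : ℝ) ≤ κ * D.n :=
      le_trans (by exact_mod_cast Finset.card_le_card h3) h.pure_most
    rw [one_div_mul_eq_div, div_le_iff₀ hn]
    exact h4
  refine (h1.sub (by positivity) hs h2).mono (by linarith)

theorem mem_Pu {b : Bool} {m : ℕ} (hm : m ∈ D.Pu b) : m ∈ D.It ∧ D.hi m = b ∧ D.pure m := by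
  unfold Pu at hm
  classical
  rwa [Finset.mem_filter] at hm

/-- (E3), deterministic part. -/
theorem Reg.E3det (h : D.Reg κ c) (hκ0 : 0 ≤ κ) (hκ : κ ≤ 1 / 5) (hn : 10 ≤ D.n) (b : Bool)
    {d : ℤ} (hd0 : 0 ≤ d) (hd2 : d ≤ 2 * D.n) :
    |(1 / (D.n : ℝ)) * (∑ m ∈ D.Pu b, (1 / (2 * (D.S : ℝ))) * (∑ t1 : ZMod (2 * D.S),
        (1 / (2 * (D.S : ℝ))) * (∑ t2 : ZMod (2 * D.S),
          roles ((D.A m : ℝ) / D.n) (nrm D.n b (D.Y (D.nb1 m) t1)) (nrm D.n b (D.Y (D.nb2 m) t2))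
            ((d : ℝ) / D.n)))) - ff ((d : ℝ) / D.n) / 2|
      ≤ 6600 * κ + 9450 * ((D.q : ℝ) ^ 2 / D.n) := by
  have hnr : (0 : ℝ) < D.n := by exact_mod_cast h.n_pos
  have hn10 : (10 : ℝ) ≤ D.n := by exact_mod_cast hn
  have hS : (0 : ℝ) < D.S := by exact_mod_cast D.S_pos
  have hq1 : (1 : ℝ) ≤ (D.q : ℝ) ^ 2 := by
    have : 1 ≤ D.q ^ 2 := Nat.one_le_pow _ _ D.q_pos
    exact_mod_cast this
  have : NeZero (2 * D.S) := ⟨by have := D.S_pos; omega⟩
  have hA := h.disc_Pu b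
  have h1n : 1 / (D.n : ℝ) ≤ (D.q : ℝ) ^ 2 / D.n := by gcongr
  have h1n' : 1 / (D.n : ℝ) ≤ 1 / 10 := by
    rw [div_le_div_iff₀ hnr (by norm_num)]; linarith
  have hcard := hA.card_le (by linarith)
  have hw : (1 / (2 * (D.S : ℝ))) * (Fintype.card (ZMod (2 * D.S)) : ℝ) = 1 := by
    rw [ZMod.card]; push_cast; field_simp
  have hY0 : 0 ≤ 2 * κ + 4 * ((D.q : ℝ) ^ 2 / D.n) := by positivity
  have key := deg_sum (D.Pu b) (fun m => (D.A m : ℝ) / D.n) (by positivity) hcard hA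
    (fun m t => nrm D.n b (D.Y (D.nb1 m) t)) (fun m t => nrm D.n b (D.Y (D.nb2 m) t))
    (w := 1 / (2 * (D.S : ℝ))) (delY := 2 * κ + 4 * ((D.q : ℝ) ^ 2 / D.n)) (by positivity) hw hY0
    (fun m hm => h.disc_Y hκ0 (by linarith) (mem_Pu hm).2.2.1 b)
    (fun m hm => h.disc_Y hκ0 (by linarith) (mem_Pu hm).2.2.2.1 b)
    (t := (d : ℝ) / D.n) (by positivity) (by
      rw [div_le_iff₀ hnr]
      have : (d : ℝ) ≤ 2 * (D.n : ℝ) := by exact_mod_cast hd2
      linarith)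
  refine le_trans key ?_
  linarith

/-- (E2), deterministic part. -/
theorem Reg.E2det (h : D.Reg κ c) (hκ0 : 0 ≤ κ) (hκ : κ ≤ 1 / 5) (hn : 10 ≤ D.n) (b : Bool)
    (x : ℤ) :
    |(1 / (D.n : ℝ)) * (∑ m ∈ D.Pu b, (1 / (2 * (D.S : ℝ))) * (∑ t1 : ZMod (2 * D.S),
        (1 / (2 * (D.S : ℝ))) * (∑ t2 : ZMod (2 * D.S),
          kern (cc (nrm D.n b (D.Y (D.nb1 m) t1)) (nrm D.n b (D.Y (D.nb2 m) t2)))
            ((D.A m : ℝ) / D.n) (nrm D.n b x))))
        - 1 / 2 * ∫ a in (5/2:ℝ)..3, pbar a (nrm D.n b x)|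
      ≤ 600 * κ + 300 * ((D.q : ℝ) ^ 2 / D.n) := by
  have hnr : (0 : ℝ) < D.n := by exact_mod_cast h.n_pos
  have hn10 : (10 : ℝ) ≤ D.n := by exact_mod_cast hn
  have hS : (0 : ℝ) < D.S := by exact_mod_cast D.S_pos
  have hq1 : (1 : ℝ) ≤ (D.q : ℝ) ^ 2 := by
    have : 1 ≤ D.q ^ 2 := Nat.one_le_pow _ _ D.q_pos
    exact_mod_cast this
  have : NeZero (2 * D.S) := ⟨by have := D.S_pos; omega⟩
  have hA := h.disc_Pu b
  have h1n : 1 / (D.n : ℝ) ≤ (D.q : ℝ) ^ 2 / D.n := by gcongr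
  have h1n' : 1 / (D.n : ℝ) ≤ 1 / 10 := by
    rw [div_le_div_iff₀ hnr (by norm_num)]; linarith
  have hcard := hA.card_le (by linarith)
  have hw : (1 / (2 * (D.S : ℝ))) * (Fintype.card (ZMod (2 * D.S)) : ℝ) = 1 := by
    rw [ZMod.card]; push_cast; field_simp
  have hY0 : 0 ≤ 2 * κ + 4 * ((D.q : ℝ) ^ 2 / D.n) := by positivity
  have key := lab_sum (D.Pu b) (fun m => (D.A m : ℝ) / D.n) (by positivity) hcard hA
    (fun m t => nrm D.n b (D.Y (D.nb1 m) t)) (fun m t => nrm D.n b (D.Y (D.nb2 m) t))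
    (w := 1 / (2 * (D.S : ℝ))) (delY := 2 * κ + 4 * ((D.q : ℝ) ^ 2 / D.n)) (by positivity) hw hY0
    (fun m hm => h.disc_Y hκ0 (by linarith) (mem_Pu hm).2.2.1 b)
    (fun m hm => h.disc_Y hκ0 (by linarith) (mem_Pu hm).2.2.2.1 b) (nrm D.n b x)
  refine le_trans key ?_
  linarith

/-- (K3) at a label. -/
theorem cap_label {n : ℕ} (hn : 0 < n) {x : ℤ} (hx : x ∈ Zr n) :
    (1 / 2 * ∫ a in (5/2:ℝ)..3, pbar a (nrm n true x))
      + (1 / 2 * ∫ a in (5/2:ℝ)..3, pbar a (nrm n false x)) ≤ 6 / 10 * phi ((x : ℝ) / n) := by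
  have hnr : (0 : ℝ) < n := by exact_mod_cast hn
  rw [mem_Zr] at hx
  have h1 : (n : ℝ) < 2 * (x : ℝ) := by exact_mod_cast hx.1
  have h2 : 2 * (x : ℝ) < 5 * (n : ℝ) := by exact_mod_cast hx.2
  have := K3 (X := (x : ℝ) / n) (by rw [le_div_iff₀ hnr]; linarith)
    (by rw [div_le_iff₀ hnr]; linarith)
  unfold nrm
  simp only [Bool.false_eq_true, if_true, if_false]
  linarith

end Dat

end Pool.Agent.PGr
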