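import Mathlib
import Pool.Agent.PGr.EPr
import Pool.Agent.PGr.PrProd
import Pool.Agent.PGr.KE

/-!
# PGr, module EInd: independence of the units of an edge, exact formulas for the expectations
-/

noncomputable section

namespace Pool.Agent.PGr

open Finset

/-- independence of finitely many pairwise different coordinates -/
theorem Pr_list {ι Ω : Type*} [Fintype ι] [DecidableEq ι] [Fintype Ω] [Nonempty Ω]
    (l : List (ι × (Ω → Prop))) (hl : (l.map Prod.fst).Nodup) :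
    Pr (fun ω : ι → Ω => ∀ p ∈ l, p.2 (ω p.1)) = (l.map (fun p => Pr p.2)).prod := by
  classical
  have h1 := Pr_pi_forall (Ω := Ω) (l.map Prod.fst).toFinset
    (fun i t => ∀ p ∈ l, p.1 = i → p.2 t)
  have h2 : (fun ω : ι → Ω => ∀ i ∈ (l.map Prod.fst).toFinset, ∀ p ∈ l, p.1 = i → p.2 (ω i))
      = fun ω => ∀ p ∈ l, p.2 (ω p.1) := by
    funext ω
    apply propext
    constructor
    · intro h p hp
      exact h p.1 (List.mem_toFinset.2 (List.mem_map_of_mem hp)) p hp rfl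
    · intro h i _ p hp hpi
      rw [← hpi]
      exact h p hp
  rw [h2] at h1
  rw [h1, List.prod_toFinset _ hl, List.map_map]
  congr 1
  apply List.map_congr_left
  intro p hp
  simp only [Function.comp]
  congr 1
  funext t
  apply propext
  constructor
  · intro h
    exact h p hp rfl
  · intro h p' hp' he
    have : p' = p := by
      have hinj := List.inj_on_of_nodup_map hl
      exact hinj hp' hp he
    rw [this]
    exact h

theorem Ex_ite {Ω : Type*} [Fintype Ω] (p : Ω → Prop) [∀ ω, Decidable (p ω)] :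
    Ex (fun ω => if p ω then (1 : ℝ) else 0) = Pr p := by
  unfold Pr
  apply Ex_congr
  intro ω
  by_cases h : p ω
  · rw [if_pos h, if_pos h]
  · rw [if_neg h, if_neg h]

theorem Pr_coord1 {ι Ω : Type*} [Fintype ι] [DecidableEq ι] [Fintype Ω] [Nonempty Ω]
    (i : ι) (p : Ω → Prop) : Pr (fun ω : ι → Ω => p (ω i)) = Pr p := by
  have := Pr_list (Ω := Ω) [(i, p)] (by simp)
  simpa using this

/-- splitting an expectation according to the values of two coordinates -/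
theorem Ex_split {ι Ω : Type*} [Fintype ι] [DecidableEq ι] [Fintype Ω] [DecidableEq Ω]
    (u1 u2 : ι) (F : (ι → Ω) → ℝ) (G : Ω → Ω → (ι → Ω) → ℝ)
    (hFG : ∀ ω, F ω = G (ω u1) (ω u2) ω) :
    Ex F = ∑ t1, ∑ t2, Ex (fun ω => if ω u1 = t1 ∧ ω u2 = t2 then G t1 t2 ω else 0) := by
  have h1 : ∀ ω, F ω = ∑ t1, ∑ t2, (if ω u1 = t1 ∧ ω u2 = t2 then G t1 t2 ω else 0) := by
    intro ω
    rw [Finset.sum_eq_single (ω u1)]
    · rw [Finset.sum_eq_single (ω u2)]
      · rw [if_pos ⟨rfl, rfl⟩]; exact hFG ω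
      · intro t _ ht
        rw [if_neg (fun h => ht h.2.symm)]
      · intro h; exact absurd (mem_univ _) h
    · intro t _ ht
      apply Finset.sum_eq_zero
      intro t2 _
      rw [if_neg (fun h => ht h.1.symm)]
    · intro h; exact absurd (mem_univ _) h
  rw [Ex_congr h1]
  rw [Ex_sum]
  apply Finset.sum_congr rfl
  intro t1 _
  rw [Ex_sum]

namespace Dat

variable {D : Dat} {κ c : ℝ}

instance neTwoS : NeZero (2 * D.S) := ⟨by have := D.S_pos; omega⟩

theorem occ_const (h : D.Reg κ c) (θ : D.Om) (x : ℤ) :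
    D.occ θ x ↔ D.occ (fun _ => θ (unL D.q x)) x := occ_congr h _ _ x rfl

theorem used_const (h : D.Reg κ c) (θ : D.Om) (d : ℤ) :
    D.used θ d ↔ D.used (fun _ => θ (unD D.q d)) d := used_congr h _ _ d rfl

theorem pL_const (h : D.Reg κ c) (x : ℤ) :
    D.pL x = Pr (fun t : ZMod (2 * D.S) => ¬ D.occ (fun _ => t) x) := by
  unfold pL
  rw [← Pr_coord1 (ι := ZMod (D.q ^ 2)) (unL D.q x)
    (fun t : ZMod (2 * D.S) => ¬ D.occ (fun _ => t) x)]
  congr 1
  funext θ
  rw [occ_const h θ x]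

theorem pD_const (h : D.Reg κ c) (d : ℤ) :
    D.pD d = Pr (fun t : ZMod (2 * D.S) => ¬ D.used (fun _ => t) d) := by
  unfold pD
  rw [← Pr_coord1 (ι := ZMod (D.q ^ 2)) (unD D.q d)
    (fun t : ZMod (2 * D.S) => ¬ D.used (fun _ => t) d)]
  congr 1
  funext θ
  rw [used_const h θ d]

theorem Pr_pt (t1 : ZMod (2 * D.S)) : Pr (fun t : ZMod (2 * D.S) => t = t1) = 1 / (2 * (D.S : ℝ)) := by
  have h := Pr_mem (Ω := ZMod (2 * D.S)) {t1}
  simp only [mem_singleton, card_singleton, ZMod.card] at h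
  rw [h]
  push_cast
  ring

/-- six independent events -/
theorem Pr_six (h : D.Reg κ c) {u1 u2 : ZMod (D.q ^ 2)} {x d1 d2 d3 : ℤ}
    (hnd : [u1, u2, unL D.q x, unD D.q d1, unD D.q d2, unD D.q d3].Nodup)
    (t1 t2 : ZMod (2 * D.S)) :
    Pr (fun θ : D.Om => (θ u1 = t1 ∧ θ u2 = t2) ∧ ¬ D.occ θ x ∧ ¬ D.used θ d1 ∧ ¬ D.used θ d2 ∧
      ¬ D.used θ d3) = (1 / (2 * (D.S : ℝ))) * (1 / (2 * (D.S : ℝ))) *
        (D.pL x * (D.pD d1 * D.pD d2 * D.pD d3)) := by
  have h1 := Pr_list (ι := ZMod (D.q ^ 2)) (Ω := ZMod (2 * D.S))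
    [(u1, fun t => t = t1), (u2, fun t => t = t2), (unL D.q x, fun t => ¬ D.occ (fun _ => t) x),
      (unD D.q d1, fun t => ¬ D.used (fun _ => t) d1), (unD D.q d2, fun t => ¬ D.used (fun _ => t) d2),
      (unD D.q d3, fun t => ¬ D.used (fun _ => t) d3)] (by simpa using hnd)
  simp only [List.mem_cons, List.not_mem_nil, or_false, forall_eq_or_imp, forall_eq,
    List.map_cons, List.map_nil, List.prod_cons, List.prod_nil, mul_one] at h1
  rw [Pr_pt, Pr_pt, ← pL_const h, ← pD_const h, ← pD_const h, ← pD_const h] at h1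
  have h2 : (fun θ : D.Om => (θ u1 = t1 ∧ θ u2 = t2) ∧ ¬ D.occ θ x ∧ ¬ D.used θ d1 ∧
      ¬ D.used θ d2 ∧ ¬ D.used θ d3) = fun θ : D.Om => θ u1 = t1 ∧ θ u2 = t2 ∧
        ¬ D.occ (fun _ => θ (unL D.q x)) x ∧ ¬ D.used (fun _ => θ (unD D.q d1)) d1 ∧
        ¬ D.used (fun _ => θ (unD D.q d2)) d2 ∧ ¬ D.used (fun _ => θ (unD D.q d3)) d3 := by
    funext θ
    rw [occ_const h θ x, used_const h θ d1, used_const h θ d2, used_const h θ d3]
    apply propext
    tauto
  rw [h2, h1]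
  ring

/-- five independent events (without the label) -/
theorem Pr_five (h : D.Reg κ c) {u1 u2 : ZMod (D.q ^ 2)} {d1 d2 d3 : ℤ}
    (hnd : [u1, u2, unD D.q d1, unD D.q d2, unD D.q d3].Nodup)
    (t1 t2 : ZMod (2 * D.S)) :
    Pr (fun θ : D.Om => (θ u1 = t1 ∧ θ u2 = t2) ∧ ¬ D.used θ d1 ∧ ¬ D.used θ d2 ∧
      ¬ D.used θ d3) = (1 / (2 * (D.S : ℝ))) * (1 / (2 * (D.S : ℝ))) *
        (D.pD d1 * D.pD d2 * D.pD d3) := by
  have h1 := Pr_list (ι := ZMod (D.q ^ 2)) (Ω := ZMod (2 * D.S))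
    [(u1, fun t => t = t1), (u2, fun t => t = t2),
      (unD D.q d1, fun t => ¬ D.used (fun _ => t) d1), (unD D.q d2, fun t => ¬ D.used (fun _ => t) d2),
      (unD D.q d3, fun t => ¬ D.used (fun _ => t) d3)] (by simpa using hnd)
  simp only [List.mem_cons, List.not_mem_nil, or_false, forall_eq_or_imp, forall_eq,
    List.map_cons, List.map_nil, List.prod_cons, List.prod_nil, mul_one] at h1
  rw [Pr_pt, Pr_pt, ← pD_const h, ← pD_const h, ← pD_const h] at h1
  have h2 : (fun θ : D.Om => (θ u1 = t1 ∧ θ u2 = t2) ∧ ¬ D.used θ d1 ∧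
      ¬ D.used θ d2 ∧ ¬ D.used θ d3) = fun θ : D.Om => θ u1 = t1 ∧ θ u2 = t2 ∧
        ¬ D.used (fun _ => θ (unD D.q d1)) d1 ∧
        ¬ D.used (fun _ => θ (unD D.q d2)) d2 ∧ ¬ D.used (fun _ => θ (unD D.q d3)) d3 := by
    funext θ
    rw [used_const h θ d1, used_const h θ d2, used_const h θ d3]
    apply propext
    tauto
  rw [h2, h1]
  ring

/-- four independent events -/
theorem Pr_four (h : D.Reg κ c) {x d1 d2 d3 : ℤ}
    (hnd : [unL D.q x, unD D.q d1, unD D.q d2, unD D.q d3].Nodup) :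
    Pr (fun θ : D.Om => ¬ D.occ θ x ∧ ¬ D.used θ d1 ∧ ¬ D.used θ d2 ∧
      ¬ D.used θ d3) = D.pL x * (D.pD d1 * D.pD d2 * D.pD d3) := by
  have h1 := Pr_list (ι := ZMod (D.q ^ 2)) (Ω := ZMod (2 * D.S))
    [(unL D.q x, fun t => ¬ D.occ (fun _ => t) x),
      (unD D.q d1, fun t => ¬ D.used (fun _ => t) d1), (unD D.q d2, fun t => ¬ D.used (fun _ => t) d2),
      (unD D.q d3, fun t => ¬ D.used (fun _ => t) d3)] (by simpa using hnd)
  simp only [List.mem_cons, List.not_mem_nil, or_false, forall_eq_or_imp, forall_eq,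
    List.map_cons, List.map_nil, List.prod_cons, List.prod_nil, mul_one] at h1
  rw [← pL_const h, ← pD_const h, ← pD_const h, ← pD_const h] at h1
  have h2 : (fun θ : D.Om => ¬ D.occ θ x ∧ ¬ D.used θ d1 ∧
      ¬ D.used θ d2 ∧ ¬ D.used θ d3) = fun θ : D.Om =>
        ¬ D.occ (fun _ => θ (unL D.q x)) x ∧ ¬ D.used (fun _ => θ (unD D.q d1)) d1 ∧
        ¬ D.used (fun _ => θ (unD D.q d2)) d2 ∧ ¬ D.used (fun _ => θ (unD D.q d3)) d3 := by
    funext θ
    rw [occ_const h θ x, used_const h θ d1, used_const h θ d2, used_const h θ d3]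
  rw [h2, h1]
  ring

end Dat

end Pool.Agent.PGr
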