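import Mathlib
import Pool.Agent.PGr.EInd

/-!
# PGr, module EForm: exact formulas for `sig`, the expected degrees and the expected label sums
-/

noncomputable section

namespace Pool.Agent.PGr

open Finset

namespace Dat

variable {D : Dat} {κ c : ℝ}

/-- correction factor of a difference -/
def rho (D : Dat) (e : ℝ) (d : ℤ) : ℝ := D.pD d / D.psD e d

/-- the deterministic part of the conditions for an edge -/
def cond (D : Dat) (a y1 y2 x : ℤ) : Prop :=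
  |x - a| ∈ D.D0 ∧ |x - y1| ∈ D.D0 ∧ |x - y2| ∈ D.D0 ∧ (D.uns a y1 y2 x).Nodup

/-- the expected weight of an edge, given the labels of the neighbours -/
def val (D : Dat) (e : ℝ) (b : Bool) (a y1 y2 x : ℤ) : ℝ :=
  D.kerI b a y1 y2 x * (D.rho e |x - a| * D.rho e |x - y1| * D.rho e |x - y2|) / D.n

theorem wt_val {e : ℝ} {b : Bool} {a y1 y2 x : ℤ} (hx : D.pL x ≠ 0) :
    D.wt e b a y1 y2 x * (D.pL x * (D.pD |x - a| * D.pD |x - y1| * D.pD |x - y2|)) =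
      D.val e b a y1 y2 x := by
  unfold wt val rho
  simp only [div_eq_mul_inv, mul_inv]
  have : D.pL x * (D.pL x)⁻¹ = 1 := mul_inv_cancel₀ hx
  linear_combination (D.kerI b a y1 y2 x * (D.n : ℝ)⁻¹ * (D.psD e |x - a|)⁻¹ *
    (D.psD e |x - y1|)⁻¹ * (D.psD e |x - y2|)⁻¹ * D.pD |x - a| * D.pD |x - y1| *
    D.pD |x - y2|) * this

theorem pL_pos (h : D.Reg κ c) (hκ : κ ≤ 1 / 4) {x : ℤ} (hx : x ∈ D.Ze) : 0 < D.pL x := by
  have h1 := pL_ge h hκ (Ze_prop h hx).2.2.1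
  linarith

theorem nodup_tail4 {α : Type*} {a b c d e f : α} (h : [a, b, c, d, e, f].Nodup) :
    [c, d, e, f].Nodup := by
  have h1 := (List.nodup_cons.1 h).2
  exact (List.nodup_cons.1 h1).2

theorem nodup_drop3 {α : Type*} {a b c d e f : α} (h : [a, b, c, d, e, f].Nodup) :
    [a, b, d, e, f].Nodup := by
  have : [a, b, d, e, f].Sublist [a, b, c, d, e, f] :=
    ((List.Sublist.refl _).cons c).cons_cons b |>.cons_cons a
  exact h.sublist this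

open Classical in
/-- exact formula for the normalising factor -/
theorem sig_formula (h : D.Reg κ c) (hκ : κ ≤ 1 / 4) (e : ℝ) (b : Bool) (a y1 y2 : ℤ) :
    D.sig e b a y1 y2 =
      ∑ x ∈ D.Ze, if D.cond a y1 y2 x then D.val e b a y1 y2 x else 0 := by
  unfold sig Psi
  rw [Ex_sum]
  apply Finset.sum_congr rfl
  intro x hx
  by_cases hc : D.cond a y1 y2 x
  · rw [if_pos hc]
    obtain ⟨c1, c2, c3, c4⟩ := hc
    have h1 : ∀ θ : D.Om, D.W0 e θ b a y1 y2 x = D.wt e b a y1 y2 x *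
        (if (¬ D.occ θ x ∧ ¬ D.used θ |x - a| ∧ ¬ D.used θ |x - y1| ∧
          ¬ D.used θ |x - y2|) then (1 : ℝ) else 0) := by
      intro θ
      unfold W0 edg av
      by_cases hE : (¬ D.occ θ x ∧ ¬ D.used θ |x - a| ∧ ¬ D.used θ |x - y1| ∧
          ¬ D.used θ |x - y2|)
      · rw [if_pos hE, if_pos ⟨hx, hE.1, ⟨c1, hE.2.1⟩, ⟨c2, hE.2.2.1⟩, ⟨c3, hE.2.2.2⟩, c4⟩]
        ring
      · rw [if_neg hE, if_neg (fun hh => hE ⟨hh.2.1, hh.2.2.1.2, hh.2.2.2.1.2, hh.2.2.2.2.1.2⟩)]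
        ring
    rw [Ex_congr h1, Ex_const_mul]
    have h2 := Pr_four h (x := x) (d1 := |x - a|) (d2 := |x - y1|) (d3 := |x - y2|)
      (nodup_tail4 c4)
    rw [Ex_ite, h2, wt_val (pL_pos h hκ hx).ne']
  · rw [if_neg hc]
    have h1 : ∀ θ : D.Om, D.W0 e θ b a y1 y2 x = 0 := by
      intro θ
      unfold W0 edg av
      rw [if_neg]
      rintro ⟨_, _, ⟨g1, _⟩, ⟨g2, _⟩, ⟨g3, _⟩, g4⟩
      exact hc ⟨g1, g2, g3, g4⟩
    rw [Ex_congr h1, Ex_const]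

/-- units of the neighbours of a pure item -/
theorem yy_pure {m : ℕ} (hm : D.pure m) (θ : D.Om) :
    D.yy1 θ m = D.Y (D.nb1 m) (θ (D.un (D.nb1 m))) ∧
    D.yy2 θ m = D.Y (D.nb2 m) (θ (D.un (D.nb2 m))) := by
  obtain ⟨h1, h2, h3, h4⟩ := hm
  unfold yy1 yy2 lab sh
  rw [if_pos h1, if_pos h2, if_neg h3, if_neg h4]
  exact ⟨rfl, rfl⟩

theorem unL_Y (h : D.Reg κ c) {v : ℕ} (hv : v ∈ D.Sv) (t : ZMod (2 * D.S)) :
    unL D.q (D.Y v t) = D.un v := by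
  have h3 : 3 < D.q := lt_trans (by norm_num) h.q_big
  unfold unL
  rw [h.Y_res v hv, lamI_lam h.q_prime h3]

open Classical in
/-- expected degree contribution of a pure item -/
theorem deg_formula (h : D.Reg κ c) (hκ : κ ≤ 1 / 4) (e : ℝ) {m : ℕ} (hm : D.pure m) (d : ℤ) :
    Ex (fun θ : D.Om => if D.used θ d then 0 else
      ∑ x ∈ D.Ze, if D.edgD θ d (D.anc m) (D.yy1 θ m) (D.yy2 θ m) x ∧
        hasD (D.anc m) (D.yy1 θ m) (D.yy2 θ m) x d then D.wn e θ m x else 0) =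
    ∑ t1 : ZMod (2 * D.S), ∑ t2 : ZMod (2 * D.S), (1 / (2 * (D.S : ℝ))) * (1 / (2 * (D.S : ℝ))) *
      ∑ x ∈ D.Ze, if D.cond (D.anc m) (D.Y (D.nb1 m) t1) (D.Y (D.nb2 m) t2) x ∧
        hasD (D.anc m) (D.Y (D.nb1 m) t1) (D.Y (D.nb2 m) t2) x d then
          D.val e (D.hi m) (D.anc m) (D.Y (D.nb1 m) t1) (D.Y (D.nb2 m) t2) x /
            D.sig e (D.hi m) (D.anc m) (D.Y (D.nb1 m) t1) (D.Y (D.nb2 m) t2) else 0 := by
  have hm' := hm
  obtain ⟨p1, p2, _, _⟩ := hm'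
  rw [Ex_split (ι := ZMod (D.q ^ 2)) (Ω := ZMod (2 * D.S)) (D.un (D.nb1 m)) (D.un (D.nb2 m)) _
    (fun t1 t2 θ => if D.used θ d then 0 else
      ∑ x ∈ D.Ze, if D.edgD θ d (D.anc m) (D.Y (D.nb1 m) t1) (D.Y (D.nb2 m) t2) x ∧
        hasD (D.anc m) (D.Y (D.nb1 m) t1) (D.Y (D.nb2 m) t2) x d then
          D.wt e (D.hi m) (D.anc m) (D.Y (D.nb1 m) t1) (D.Y (D.nb2 m) t2) x /
            D.sig e (D.hi m) (D.anc m) (D.Y (D.nb1 m) t1) (D.Y (D.nb2 m) t2) else 0)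
    (fun θ => by
      unfold wn
      rw [(yy_pure hm θ).1, (yy_pure hm θ).2])]
  apply Finset.sum_congr rfl
  intro t1 _
  apply Finset.sum_congr rfl
  intro t2 _
  obtain ⟨y1, hy1⟩ : ∃ y1, y1 = D.Y (D.nb1 m) t1 := ⟨_, rfl⟩
  obtain ⟨y2, hy2⟩ : ∃ y2, y2 = D.Y (D.nb2 m) t2 := ⟨_, rfl⟩
  have hu1 : unL D.q y1 = D.un (D.nb1 m) := by rw [hy1]; exact unL_Y h p1 t1
  have hu2 : unL D.q y2 = D.un (D.nb2 m) := by rw [hy2]; exact unL_Y h p2 t2
  rw [← hy1, ← hy2]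
  have h1 : ∀ θ : D.Om, (if θ (D.un (D.nb1 m)) = t1 ∧ θ (D.un (D.nb2 m)) = t2 then
      (if D.used θ d then 0 else ∑ x ∈ D.Ze, if D.edgD θ d (D.anc m) y1 y2 x ∧
        hasD (D.anc m) y1 y2 x d then D.wt e (D.hi m) (D.anc m) y1 y2 x /
            D.sig e (D.hi m) (D.anc m) y1 y2 else 0) else 0) =
      ∑ x ∈ D.Ze, if D.cond (D.anc m) y1 y2 x ∧ hasD (D.anc m) y1 y2 x d then
        D.wt e (D.hi m) (D.anc m) y1 y2 x / D.sig e (D.hi m) (D.anc m) y1 y2 *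
        (if ((θ (D.un (D.nb1 m)) = t1 ∧ θ (D.un (D.nb2 m)) = t2) ∧ ¬ D.occ θ x ∧
          ¬ D.used θ |x - D.anc m| ∧ ¬ D.used θ |x - y1| ∧ ¬ D.used θ |x - y2|)
          then (1 : ℝ) else 0) else 0 := by
    intro θ
    by_cases hT : θ (D.un (D.nb1 m)) = t1 ∧ θ (D.un (D.nb2 m)) = t2
    · rw [if_pos hT]
      by_cases hd : D.used θ d
      · rw [if_pos hd]
        symm
        apply Finset.sum_eq_zero
        intro x _
        by_cases hC : D.cond (D.anc m) y1 y2 x ∧ hasD (D.anc m) y1 y2 x d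
        · rw [if_pos hC, if_neg, mul_zero]
          rintro ⟨_, _, g1, g2, g3⟩
          rcases hC.2 with h4 | h4 | h4
          · rw [h4] at g1; exact g1 hd
          · rw [h4] at g2; exact g2 hd
          · rw [h4] at g3; exact g3 hd
        · rw [if_neg hC]
      · rw [if_neg hd]
        apply Finset.sum_congr rfl
        intro x hx
        by_cases hC : D.cond (D.anc m) y1 y2 x ∧ hasD (D.anc m) y1 y2 x d
        · rw [if_pos hC]
          obtain ⟨⟨c1, c2, c3, c4⟩, c5⟩ := hC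
          by_cases hE : (θ (D.un (D.nb1 m)) = t1 ∧ θ (D.un (D.nb2 m)) = t2) ∧ ¬ D.occ θ x ∧
            ¬ D.used θ |x - D.anc m| ∧ ¬ D.used θ |x - y1| ∧ ¬ D.used θ |x - y2|
          · rw [if_pos hE, mul_one, if_pos]
            exact ⟨⟨hx, hE.2.1, ⟨c1, Or.inr hE.2.2.1⟩, ⟨c2, Or.inr hE.2.2.2.1⟩,
              ⟨c3, Or.inr hE.2.2.2.2⟩, c4⟩, c5⟩
          · rw [if_neg hE, mul_zero, if_neg]
            rintro ⟨⟨_, g0, ⟨_, g1⟩, ⟨_, g2⟩, ⟨_, g3⟩, _⟩, _⟩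
            apply hE
            refine ⟨hT, g0, ?_, ?_, ?_⟩
            · rcases g1 with g | g
              · rw [g]; exact hd
              · exact g
            · rcases g2 with g | g
              · rw [g]; exact hd
              · exact g
            · rcases g3 with g | g
              · rw [g]; exact hd
              · exact g
        · rw [if_neg hC, if_neg]
          rintro ⟨⟨_, _, ⟨g1, _⟩, ⟨g2, _⟩, ⟨g3, _⟩, g4⟩, g5⟩
          exact hC ⟨⟨g1, g2, g3, g4⟩, g5⟩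
    · rw [if_neg hT]
      symm
      apply Finset.sum_eq_zero
      intro x _
      by_cases hC : D.cond (D.anc m) y1 y2 x ∧ hasD (D.anc m) y1 y2 x d
      · rw [if_pos hC, if_neg (fun hh => hT hh.1), mul_zero]
      · rw [if_neg hC]
  rw [Ex_congr h1, Ex_sum, Finset.mul_sum]
  apply Finset.sum_congr rfl
  intro x hx
  by_cases hC : D.cond (D.anc m) y1 y2 x ∧ hasD (D.anc m) y1 y2 x d
  · simp only [if_pos hC]
    rw [Ex_const_mul]
    have hnd : [D.un (D.nb1 m), D.un (D.nb2 m), unL D.q x, unD D.q |x - D.anc m|,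
        unD D.q |x - y1|, unD D.q |x - y2|].Nodup := by
      have := hC.1.2.2.2
      unfold uns at this
      rw [hu1, hu2] at this
      exact this
    have h2 := Pr_six h hnd t1 t2
    rw [Ex_ite, h2, ← wt_val (e := e) (b := D.hi m) (a := D.anc m) (y1 := y1) (y2 := y2)
      (pL_pos h hκ hx).ne']
    ring
  · simp only [if_neg hC]
    rw [Ex_const, mul_zero]

open Classical in
/-- expected label contribution of a pure item -/
theorem lab_formula (h : D.Reg κ c) (hκ : κ ≤ 1 / 4) (e : ℝ) {m : ℕ} (hm : D.pure m) {x : ℤ}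
    (hx : x ∈ D.Ze) :
    Ex (fun θ : D.Om => if D.edgX θ (D.anc m) (D.yy1 θ m) (D.yy2 θ m) x then
      D.wn e θ m x else 0) =
    ∑ t1 : ZMod (2 * D.S), ∑ t2 : ZMod (2 * D.S), (1 / (2 * (D.S : ℝ))) * (1 / (2 * (D.S : ℝ))) *
      (if D.cond (D.anc m) (D.Y (D.nb1 m) t1) (D.Y (D.nb2 m) t2) x then
          D.val e (D.hi m) (D.anc m) (D.Y (D.nb1 m) t1) (D.Y (D.nb2 m) t2) x /
            (D.pL x * D.sig e (D.hi m) (D.anc m) (D.Y (D.nb1 m) t1) (D.Y (D.nb2 m) t2))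
              else 0) := by
  have hm' := hm
  obtain ⟨p1, p2, _, _⟩ := hm'
  rw [Ex_split (ι := ZMod (D.q ^ 2)) (Ω := ZMod (2 * D.S)) (D.un (D.nb1 m)) (D.un (D.nb2 m)) _
    (fun t1 t2 θ => if D.edgX θ (D.anc m) (D.Y (D.nb1 m) t1) (D.Y (D.nb2 m) t2) x then
          D.wt e (D.hi m) (D.anc m) (D.Y (D.nb1 m) t1) (D.Y (D.nb2 m) t2) x /
            D.sig e (D.hi m) (D.anc m) (D.Y (D.nb1 m) t1) (D.Y (D.nb2 m) t2) else 0)
    (fun θ => by
      unfold wn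
      rw [(yy_pure hm θ).1, (yy_pure hm θ).2])]
  apply Finset.sum_congr rfl
  intro t1 _
  apply Finset.sum_congr rfl
  intro t2 _
  obtain ⟨y1, hy1⟩ : ∃ y1, y1 = D.Y (D.nb1 m) t1 := ⟨_, rfl⟩
  obtain ⟨y2, hy2⟩ : ∃ y2, y2 = D.Y (D.nb2 m) t2 := ⟨_, rfl⟩
  have hu1 : unL D.q y1 = D.un (D.nb1 m) := by rw [hy1]; exact unL_Y h p1 t1
  have hu2 : unL D.q y2 = D.un (D.nb2 m) := by rw [hy2]; exact unL_Y h p2 t2
  rw [← hy1, ← hy2]
  by_cases hC : D.cond (D.anc m) y1 y2 x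
  · rw [if_pos hC]
    obtain ⟨c1, c2, c3, c4⟩ := hC
    have h1 : ∀ θ : D.Om, (if θ (D.un (D.nb1 m)) = t1 ∧ θ (D.un (D.nb2 m)) = t2 then
      (if D.edgX θ (D.anc m) y1 y2 x then D.wt e (D.hi m) (D.anc m) y1 y2 x /
            D.sig e (D.hi m) (D.anc m) y1 y2 else 0) else 0) =
        D.wt e (D.hi m) (D.anc m) y1 y2 x / D.sig e (D.hi m) (D.anc m) y1 y2 *
        (if ((θ (D.un (D.nb1 m)) = t1 ∧ θ (D.un (D.nb2 m)) = t2) ∧
          ¬ D.used θ |x - D.anc m| ∧ ¬ D.used θ |x - y1| ∧ ¬ D.used θ |x - y2|)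
          then (1 : ℝ) else 0) := by
      intro θ
      by_cases hT : θ (D.un (D.nb1 m)) = t1 ∧ θ (D.un (D.nb2 m)) = t2
      · rw [if_pos hT]
        by_cases hE : (θ (D.un (D.nb1 m)) = t1 ∧ θ (D.un (D.nb2 m)) = t2) ∧
            ¬ D.used θ |x - D.anc m| ∧ ¬ D.used θ |x - y1| ∧ ¬ D.used θ |x - y2|
        · rw [if_pos hE, mul_one, if_pos]
          exact ⟨hx, ⟨c1, hE.2.1⟩, ⟨c2, hE.2.2.1⟩, ⟨c3, hE.2.2.2⟩, c4⟩
        · rw [if_neg hE, mul_zero, if_neg]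
          rintro ⟨_, ⟨_, g1⟩, ⟨_, g2⟩, ⟨_, g3⟩, _⟩
          exact hE ⟨hT, g1, g2, g3⟩
      · rw [if_neg hT, if_neg (fun hh => hT hh.1), mul_zero]
    rw [Ex_congr h1, Ex_const_mul]
    have hnd : [D.un (D.nb1 m), D.un (D.nb2 m), unD D.q |x - D.anc m|,
        unD D.q |x - y1|, unD D.q |x - y2|].Nodup := by
      have := nodup_drop3 c4
      rw [hu1, hu2] at this
      exact this
    have h2 := Pr_five h hnd t1 t2
    have hpL := (pL_pos h hκ hx).ne'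
    rw [Ex_ite, h2, ← wt_val (e := e) (b := D.hi m) (a := D.anc m) (y1 := y1) (y2 := y2) hpL]
    rw [mul_comm (D.pL x) (D.sig e (D.hi m) (D.anc m) y1 y2)]
    rw [← div_div]
    rw [mul_div_assoc (D.wt e (D.hi m) (D.anc m) y1 y2 x)]
    field_simp
  · rw [if_neg hC, mul_zero]
    have h1 : ∀ θ : D.Om, (if θ (D.un (D.nb1 m)) = t1 ∧ θ (D.un (D.nb2 m)) = t2 then
      (if D.edgX θ (D.anc m) y1 y2 x then D.wt e (D.hi m) (D.anc m) y1 y2 x /
            D.sig e (D.hi m) (D.anc m) y1 y2 else 0) else 0) = 0 := by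
      intro θ
      rw [if_neg (show ¬ D.edgX θ (D.anc m) y1 y2 x from ?_), ite_self]
      rintro ⟨_, ⟨g1, _⟩, ⟨g2, _⟩, ⟨g3, _⟩, g4⟩
      exact hC ⟨g1, g2, g3, g4⟩
    rw [Ex_congr h1, Ex_const]

end Dat

end Pool.Agent.PGr
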