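import Mathlib
import Pool.Agent.PGr.EForm
import Pool.Agent.PGr.EDc

/-!
# PGr, module ECnt: counting bad labels
-/

noncomputable section

namespace Pool.Agent.PGr

open Finset

namespace Dat

variable {D : Dat} {κ c : ℝ}

theorem Reg.q2_le (h : D.Reg κ c) : (D.q : ℝ) ^ 2 ≤ D.n := by
  have h1 : D.q ^ 2 ≤ D.q ^ 6 := Nat.pow_le_pow_right D.q_pos (by norm_num)
  exact_mod_cast h1.trans h.q_high

theorem Reg.q_ge (h : D.Reg κ c) {K : ℕ} (hn : K ^ 8 ≤ D.n) : K ≤ D.q := by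
  by_contra hcon
  push Not at hcon
  have h1 : D.q ^ 8 < K ^ 8 := Nat.pow_lt_pow_left hcon (by norm_num)
  have h2 := h.q_low
  omega

theorem kappa_nonneg (h : D.Reg κ c) : 0 ≤ κ := by
  have h1 := h.kn_nonneg
  have h2 : (0 : ℝ) < D.n := by exact_mod_cast h.n_pos
  by_contra hcon
  push Not at hcon
  nlinarith

open Classical in
/-- elements of `Zr` in given classes modulo `Q` -/
theorem cnt_cls (h : D.Reg κ c) (U : Finset (ZMod (D.q ^ 2))) (f : ZMod (D.q ^ 2) → ZMod (D.q ^ 2)) :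
    (((Zr D.n).filter (fun x : ℤ => ∃ u ∈ U, ((x : ℤ) : ZMod (D.q ^ 2)) = f u)).card : ℝ) ≤
      U.card * (4 * D.n / (D.q : ℝ) ^ 2) := by
  have hn : (0 : ℝ) < D.n := by exact_mod_cast h.n_pos
  have hQ : 0 < D.q ^ 2 := pow_pos D.q_pos 2
  have hQr : (0 : ℝ) < (D.q : ℝ) ^ 2 := by exact_mod_cast hQ
  have hQn := h.q2_le
  have hsub : (Zr D.n).filter (fun x : ℤ => ∃ u ∈ U, ((x : ℤ) : ZMod (D.q ^ 2)) = f u) ⊆
      U.biUnion (fun u => (Finset.Icc (0 : ℤ) (3 * D.n)).filter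
        (fun x : ℤ => ((x : ℤ) : ZMod (D.q ^ 2)) = f u)) := by
    intro x hx
    rw [mem_filter, mem_Zr] at hx
    obtain ⟨⟨h1, h2⟩, u, hu, hxu⟩ := hx
    rw [mem_biUnion]
    refine ⟨u, hu, ?_⟩
    rw [mem_filter, Finset.mem_Icc]
    exact ⟨⟨by omega, by omega⟩, hxu⟩
  have hc := (Finset.card_le_card hsub).trans Finset.card_biUnion_le
  have hc' : (((Zr D.n).filter (fun x : ℤ => ∃ u ∈ U,
      ((x : ℤ) : ZMod (D.q ^ 2)) = f u)).card : ℝ) ≤ ∑ u ∈ U,
      (((Finset.Icc (0 : ℤ) (3 * D.n)).filter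
        (fun x : ℤ => ((x : ℤ) : ZMod (D.q ^ 2)) = f u)).card : ℝ) := by
    exact_mod_cast hc
  refine hc'.trans ?_
  rw [← nsmul_eq_mul, ← Finset.sum_const]
  apply Finset.sum_le_sum
  intro u _
  refine (card_class_le (D.q ^ 2) hQ 0 (3 * D.n) (f u)).trans ?_
  apply max_le (by positivity)
  push_cast
  rw [le_div_iff₀ hQr, add_mul, div_mul_cancel₀ _ hQr.ne']
  linarith

theorem cnt_mono {s t : Finset ℤ} {P R : ℤ → Prop} [DecidablePred P] [DecidablePred R]
    (hst : ∀ x ∈ s, P x → x ∈ t ∧ R x) : ((s.filter P).card : ℝ) ≤ ((t.filter R).card : ℝ) := by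
  have : s.filter P ⊆ t.filter R := by
    intro x hx
    rw [mem_filter] at hx ⊢
    exact hst x hx.1 hx.2
  exact_mod_cast Finset.card_le_card this

open Classical in
/-- labels with reserved unit -/
theorem cnt_unL (h : D.Reg κ c) :
    (((Zr D.n).filter (fun x : ℤ => unL D.q x ∈ D.Res)).card : ℝ) ≤ 4 * κ * D.n := by
  have h3 : 3 < D.q := lt_trans (by norm_num) h.q_big
  have hn : (0 : ℝ) < D.n := by exact_mod_cast h.n_pos
  have hQr : (0 : ℝ) < (D.q : ℝ) ^ 2 := by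
    have := D.q_pos; positivity
  have h1 := cnt_cls h D.Res (lam D.q)
  have h2 : (((Zr D.n).filter (fun x : ℤ => unL D.q x ∈ D.Res)).card : ℝ) ≤
      (((Zr D.n).filter (fun x : ℤ => ∃ u ∈ D.Res,
        ((x : ℤ) : ZMod (D.q ^ 2)) = lam D.q u)).card : ℝ) := by
    apply cnt_mono
    intro x hx hr
    refine ⟨hx, unL D.q x, hr, ?_⟩
    unfold unL
    rw [lam_lamI h.q_prime h3]
  refine h2.trans (h1.trans ?_)
  have h4 := h.resc
  calc (D.Res.card : ℝ) * (4 * D.n / (D.q : ℝ) ^ 2)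
      ≤ (κ * (D.q : ℝ) ^ 2) * (4 * D.n / (D.q : ℝ) ^ 2) :=
        mul_le_mul_of_nonneg_right h4 (by positivity)
    _ = 4 * κ * D.n := by field_simp

open Classical in
/-- labels whose distance to `z` has a reserved unit -/
theorem cnt_unD (h : D.Reg κ c) (z : ℤ) :
    (((Zr D.n).filter (fun x : ℤ => unD D.q |x - z| ∈ D.Res)).card : ℝ) ≤ 8 * κ * D.n := by
  have hn : (0 : ℝ) < D.n := by exact_mod_cast h.n_pos
  have hq0 : (0 : ℝ) < D.q := by exact_mod_cast D.q_pos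
  have hQr : (0 : ℝ) < (D.q : ℝ) ^ 2 := by
    have := D.q_pos; positivity
  have h1 := cnt_cls h D.Res (fun u => (z : ZMod (D.q ^ 2)) + del D.q u)
  have h1' := cnt_cls h D.Res (fun u => (z : ZMod (D.q ^ 2)) - del D.q u)
  have h2 : (Zr D.n).filter (fun x : ℤ => unD D.q |x - z| ∈ D.Res) ⊆
      ((Zr D.n).filter (fun x : ℤ => ∃ u ∈ D.Res,
        ((x : ℤ) : ZMod (D.q ^ 2)) = (z : ZMod (D.q ^ 2)) + del D.q u)) ∪
      ((Zr D.n).filter (fun x : ℤ => ∃ u ∈ D.Res,
        ((x : ℤ) : ZMod (D.q ^ 2)) = (z : ZMod (D.q ^ 2)) - del D.q u)) := by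
    intro x hx
    rw [mem_filter] at hx
    rw [mem_union, mem_filter, mem_filter]
    have hd : del D.q (unD D.q |x - z|) = ((|x - z| : ℤ) : ZMod (D.q ^ 2)) := by
      unfold unD
      rw [del_delI]
    rcases abs_choice (x - z) with e | e
    · left
      refine ⟨hx.1, unD D.q |x - z|, hx.2, ?_⟩
      rw [hd, e]; push_cast; ring
    · right
      refine ⟨hx.1, unD D.q |x - z|, hx.2, ?_⟩
      rw [hd, e]; push_cast; ring
  have h3 := (Finset.card_le_card h2).trans (Finset.card_union_le _ _)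
  have h3' : (((Zr D.n).filter (fun x : ℤ => unD D.q |x - z| ∈ D.Res)).card : ℝ) ≤
      (((Zr D.n).filter (fun x : ℤ => ∃ u ∈ D.Res,
        ((x : ℤ) : ZMod (D.q ^ 2)) = (z : ZMod (D.q ^ 2)) + del D.q u)).card : ℝ) +
      (((Zr D.n).filter (fun x : ℤ => ∃ u ∈ D.Res,
        ((x : ℤ) : ZMod (D.q ^ 2)) = (z : ZMod (D.q ^ 2)) - del D.q u)).card : ℝ) := by
    exact_mod_cast h3
  refine h3'.trans ?_
  have h4 := h.resc
  have h5 : (D.Res.card : ℝ) * (4 * D.n / (D.q : ℝ) ^ 2) ≤ 4 * κ * D.n := by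
    calc (D.Res.card : ℝ) * (4 * D.n / (D.q : ℝ) ^ 2)
        ≤ (κ * (D.q : ℝ) ^ 2) * (4 * D.n / (D.q : ℝ) ^ 2) :=
          mul_le_mul_of_nonneg_right h4 (by positivity)
      _ = 4 * κ * D.n := by field_simp
  linarith

open Classical in
/-- labels whose distance to `z` is deficient -/
theorem cnt_Ddef (z : ℤ) (s : Finset ℤ) :
    ((s.filter (fun x : ℤ => |x - z| ∈ D.Ddef)).card : ℝ) ≤ 2 * D.Ddef.card := by
  have h2 : s.filter (fun x : ℤ => |x - z| ∈ D.Ddef) ⊆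
      (D.Ddef.image (fun d => z + d)) ∪ (D.Ddef.image (fun d => z - d)) := by
    intro x hx
    rw [mem_filter] at hx
    rw [mem_union, mem_image, mem_image]
    rcases abs_choice (x - z) with e | e
    · left; exact ⟨|x - z|, hx.2, by rw [e]; ring⟩
    · right; exact ⟨|x - z|, hx.2, by rw [e]; ring⟩
  have h3 := (Finset.card_le_card h2).trans (Finset.card_union_le _ _)
  have h4 : (D.Ddef.image (fun d => z + d)).card ≤ D.Ddef.card := Finset.card_image_le
  have h5 : (D.Ddef.image (fun d => z - d)).card ≤ D.Ddef.card := Finset.card_image_le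
  have h6 : (s.filter (fun x : ℤ => |x - z| ∈ D.Ddef)).card ≤ 2 * D.Ddef.card := by omega
  exact_mod_cast h6

open Classical in
/-- labels in given classes modulo `q` -/
theorem cnt_mod (h : D.Reg κ c) (F : Finset (ZMod D.q)) (hF : F.card ≤ 400) :
    (((Zr D.n).filter (fun x : ℤ => ((x : ℤ) : ZMod D.q) ∈ F)).card : ℝ) ≤ 1600 * D.n / D.q := by
  have hn : (0 : ℝ) < D.n := by exact_mod_cast h.n_pos
  have hq : 0 < D.q := D.q_pos
  have hqr : (0 : ℝ) < D.q := by exact_mod_cast hq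
  have hqn : (D.q : ℝ) ≤ D.n := by
    have h1 : D.q ^ 1 ≤ D.q ^ 6 := Nat.pow_le_pow_right hq (by norm_num)
    rw [pow_one] at h1
    exact_mod_cast h1.trans h.q_high
  have hsub : (Zr D.n).filter (fun x : ℤ => ((x : ℤ) : ZMod D.q) ∈ F) ⊆
      F.biUnion (fun r => (Finset.Icc (0 : ℤ) (3 * D.n)).filter
        (fun x : ℤ => ((x : ℤ) : ZMod D.q) = r)) := by
    intro x hx
    rw [mem_filter, mem_Zr] at hx
    obtain ⟨⟨h1, h2⟩, hu⟩ := hx
    rw [mem_biUnion]
    refine ⟨_, hu, ?_⟩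
    rw [mem_filter, Finset.mem_Icc]
    exact ⟨⟨by omega, by omega⟩, rfl⟩
  have hc := (Finset.card_le_card hsub).trans Finset.card_biUnion_le
  have hc' : (((Zr D.n).filter (fun x : ℤ => ((x : ℤ) : ZMod D.q) ∈ F)).card : ℝ) ≤ ∑ r ∈ F,
      (((Finset.Icc (0 : ℤ) (3 * D.n)).filter (fun x : ℤ => ((x : ℤ) : ZMod D.q) = r)).card : ℝ) := by
    exact_mod_cast hc
  refine hc'.trans ?_
  have h5 : ∀ r ∈ F, (((Finset.Icc (0 : ℤ) (3 * D.n)).filter
      (fun x : ℤ => ((x : ℤ) : ZMod D.q) = r)).card : ℝ) ≤ 4 * D.n / D.q := by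
    intro r _
    refine (card_class_le D.q hq 0 (3 * D.n) r).trans ?_
    apply max_le (by positivity)
    push_cast
    rw [le_div_iff₀ hqr, add_mul, div_mul_cancel₀ _ hqr.ne']
    linarith
  refine (Finset.sum_le_sum h5).trans ?_
  rw [Finset.sum_const, nsmul_eq_mul]
  have hFr : (F.card : ℝ) ≤ 400 := by exact_mod_cast hF
  calc (F.card : ℝ) * (4 * D.n / D.q) ≤ 400 * (4 * D.n / D.q) :=
        mul_le_mul_of_nonneg_right hFr (by positivity)
    _ = 1600 * D.n / D.q := by ring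

open Classical in
/-- multiples of `n/4` -/
theorem cnt_quart {n : ℕ} (hn : 0 < n) :
    (((Zr n).filter (fun x : ℤ => (n : ℤ) ∣ 4 * x)).card : ℝ) ≤ 10 := by
  have hsub : (Zr n).filter (fun x : ℤ => (n : ℤ) ∣ 4 * x) ⊆
      (Finset.Icc (2 : ℤ) 10).image (fun j => (n : ℤ) * j / 4) := by
    intro x hx
    rw [mem_filter, mem_Zr] at hx
    obtain ⟨⟨h1, h2⟩, j, hj⟩ := hx
    have hn' : (0 : ℤ) < n := by exact_mod_cast hn
    rw [mem_image]
    refine ⟨j, ?_, ?_⟩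
    · rw [Finset.mem_Icc]
      constructor
      · by_contra hcon
        push Not at hcon
        have : j ≤ 1 := by omega
        nlinarith
      · by_contra hcon
        push Not at hcon
        have : 11 ≤ j := by omega
        nlinarith
    · omega
  have hc := (Finset.card_le_card hsub).trans Finset.card_image_le
  have : ((Finset.Icc (2 : ℤ) 10)).card = 9 := by decide
  rw [this] at hc
  have : (((Zr n).filter (fun x : ℤ => (n : ℤ) ∣ 4 * x)).card : ℝ) ≤ 9 := by exact_mod_cast hc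
  linarith

end Dat

end Pool.Agent.PGr
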