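import Mathlib
import Pool.Agent.PGr.ECnt
import Pool.Agent.PGr.EStat

/-!
# PGr, module E1: proof of `E1Stmt`
-/

noncomputable section

namespace Pool.Agent.PGr

open Finset

namespace Dat

variable {D : Dat} {κ c : ℝ}

theorem nX_nrm (b : Bool) (x : ℤ) : D.nX b x = nrm D.n b x := rfl

theorem kerI_kern (b : Bool) (a y1 y2 x : ℤ) : D.kerI b a y1 y2 x =
    PGrK.kern (PGrK.cc (nrm D.n b y1) (nrm D.n b y2)) (nrm D.n b a) (nrm D.n b x) := by
  unfold kerI PGrK.cc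
  by_cases hc : D.nX b y1 < 5 / 4 ∧ D.nX b y2 < 5 / 4
  · rw [if_pos hc, if_pos (show nrm D.n b y1 < 5 / 4 ∧ nrm D.n b y2 < 5 / 4 from hc)]
    rfl
  · rw [if_neg hc, if_neg (show ¬ (nrm D.n b y1 < 5 / 4 ∧ nrm D.n b y2 < 5 / 4) from hc)]
    rfl

theorem kerI_bd' (b : Bool) (a y1 y2 x : ℤ) :
    0 ≤ D.kerI b a y1 y2 x ∧ D.kerI b a y1 y2 x ≤ 77 / 10 := by
  rw [kerI_kern]
  exact PGrK.kern_bd (PGrK.cc_lt _ _) _ _

/-- the kernel vanishes if the spoke is longer than `2n` -/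
theorem kerI_far (h : D.Reg κ c) {b : Bool} {a y1 y2 x : ℤ} (hg : 5 / 2 ≤ D.nX b a)
    (hx : x ∈ Zr D.n) (hf : 2 * (D.n : ℤ) < |x - a|) : D.kerI b a y1 y2 x = 0 := by
  have hn : (0 : ℝ) < D.n := by exact_mod_cast h.n_pos
  rw [kerI_kern]
  apply PGrK.kern_zero (PGrK.cc_lt _ _)
  rw [mem_Zr] at hx
  have h1 : (D.n : ℝ) < 2 * (x : ℝ) := by exact_mod_cast hx.1
  have h2 : 2 * (x : ℝ) < 5 * (D.n : ℝ) := by exact_mod_cast hx.2
  have h3 : 2 * (D.n : ℝ) < |(x : ℝ) - a| := by exact_mod_cast hf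
  unfold nX at hg
  unfold nrm
  cases b
  · simp only [Bool.false_eq_true, if_false] at hg ⊢
    have h4 : (a : ℝ) / D.n ≤ 1 / 2 := by linarith
    rw [div_le_iff₀ hn] at h4
    rw [abs_of_pos (by linarith)] at h3
    have h5 : 2 < ((x : ℝ) - a) / D.n := by rw [lt_div_iff₀ hn]; linarith
    have h6 : ((x : ℝ) - a) / D.n = (x : ℝ) / D.n - (a : ℝ) / D.n := by ring
    linarith
  · simp only [if_true] at hg ⊢
    rw [le_div_iff₀ hn] at hg
    rw [abs_of_neg (by linarith)] at h3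
    have h5 : 2 < ((a : ℝ) - x) / D.n := by rw [lt_div_iff₀ hn]; linarith
    have h6 : ((a : ℝ) - x) / D.n = (a : ℝ) / D.n - (x : ℝ) / D.n := by ring
    linarith

theorem Ze_sub (h : D.Reg κ c) : D.Ze ⊆ Zr D.n := by
  intro x hx
  have := Ze_prop h hx
  rw [mem_Zr]
  exact ⟨this.1, this.2.1⟩

theorem rho_bd (h : D.Reg κ c) (hκ : κ ≤ 1 / 4) {e : ℝ} (he : 0 ≤ e) (he1 : e ≤ 1 / 10) {d : ℤ}
    (hd : d ∈ D.D0) : 0 ≤ D.rho e d ∧ D.rho e d ≤ 8 / 3 := by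
  have h1 := psD_range h hκ he he1 hd
  have h2 : 0 ≤ D.pD d := Pr_nonneg _
  have h3 := pD_le_one (D := D) d
  unfold rho
  constructor
  · exact div_nonneg h2 (by linarith [h1.1])
  · rw [div_le_iff₀ (by linarith [h1.1])]
    linarith [h1.1]

theorem rho_one (h : D.Reg κ c) (hκ : κ ≤ 1 / 4) {e : ℝ} {d : ℤ} (hd1 : 1 ≤ d)
    (hR : unD D.q d ∉ D.Res) (hD : d ∉ D.Ddef) : D.rho e d = 1 := by
  have h1 := pD_ge h hκ hR hd1
  unfold rho psD
  rw [if_neg hD, if_neg hR, one_mul]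
  apply div_self
  intro h0
  rw [h0] at h1
  linarith

theorem val_bd (h : D.Reg κ c) (hκ : κ ≤ 1 / 4) {e : ℝ} (he : 0 ≤ e) (he1 : e ≤ 1 / 10)
    (b : Bool) {a y1 y2 x : ℤ} (hc : D.cond a y1 y2 x) :
    0 ≤ D.val e b a y1 y2 x ∧ D.val e b a y1 y2 x ≤ 150 / D.n := by
  have hn : (0 : ℝ) < D.n := by exact_mod_cast h.n_pos
  obtain ⟨c1, c2, c3, _⟩ := hc
  have r1 := rho_bd h hκ he he1 c1
  have r2 := rho_bd h hκ he he1 c2
  have r3 := rho_bd h hκ he he1 c3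
  have k1 := kerI_bd' (D := D) b a y1 y2 x
  have r12 : D.rho e |x - a| * D.rho e |x - y1| ≤ 64 / 9 := by
    have := mul_le_mul r1.2 r2.2 r2.1 (by norm_num)
    linarith
  have r12' : 0 ≤ D.rho e |x - a| * D.rho e |x - y1| := mul_nonneg r1.1 r2.1
  have r123 : D.rho e |x - a| * D.rho e |x - y1| * D.rho e |x - y2| ≤ 512 / 27 := by
    have := mul_le_mul r12 r3.2 r3.1 (by norm_num)
    linarith
  have r123' : 0 ≤ D.rho e |x - a| * D.rho e |x - y1| * D.rho e |x - y2| := mul_nonneg r12' r3.1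
  unfold val
  constructor
  · exact div_nonneg (mul_nonneg k1.1 r123') hn.le
  · apply div_le_div_of_nonneg_right _ hn.le
    have := mul_le_mul k1.2 r123 r123' (by norm_num)
    linarith

open Classical in
/-- the bad labels of a triple -/
def bad1 (D : Dat) (F : Finset (ZMod D.q)) (a y1 y2 : ℤ) (x : ℤ) : Prop :=
  unL D.q x ∈ D.Res ∨ (D.n : ℤ) ∣ 4 * x ∨ (((x : ℤ) : ZMod D.q) ∈ F) ∨
  (x = a ∨ x = y1 ∨ x = y2) ∨
  (unD D.q |x - a| ∈ D.Res ∨ unD D.q |x - y1| ∈ D.Res ∨ unD D.q |x - y2| ∈ D.Res) ∨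
  (|x - a| ∈ D.Ddef ∨ |x - y1| ∈ D.Ddef ∨ |x - y2| ∈ D.Ddef)

open Classical in
theorem bad1_card (h : D.Reg κ c) {F : Finset (ZMod D.q)} (hF : F.card ≤ 400) (a y1 y2 : ℤ) :
    (((Zr D.n).filter (fun x => D.bad1 F a y1 y2 x)).card : ℝ) ≤
      28 * κ * D.n + 13 + 1600 * D.n / D.q + 6 * D.Ddef.card := by
  have hsub : (Zr D.n).filter (fun x => D.bad1 F a y1 y2 x) ⊆
      ((Zr D.n).filter (fun x : ℤ => unL D.q x ∈ D.Res)) ∪
      (((Zr D.n).filter (fun x : ℤ => (D.n : ℤ) ∣ 4 * x)) ∪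
      (((Zr D.n).filter (fun x : ℤ => ((x : ℤ) : ZMod D.q) ∈ F)) ∪
      (({a, y1, y2} : Finset ℤ) ∪
      (((Zr D.n).filter (fun x : ℤ => unD D.q |x - a| ∈ D.Res)) ∪
      (((Zr D.n).filter (fun x : ℤ => unD D.q |x - y1| ∈ D.Res)) ∪
      (((Zr D.n).filter (fun x : ℤ => unD D.q |x - y2| ∈ D.Res)) ∪
      (((Zr D.n).filter (fun x : ℤ => |x - a| ∈ D.Ddef)) ∪
      (((Zr D.n).filter (fun x : ℤ => |x - y1| ∈ D.Ddef)) ∪
      ((Zr D.n).filter (fun x : ℤ => |x - y2| ∈ D.Ddef)))))))))) := by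
    intro x hx
    rw [mem_filter] at hx
    obtain ⟨hx, hb⟩ := hx
    simp only [mem_union, mem_filter, mem_insert, mem_singleton]
    rcases hb with hb | hb | hb | hb | hb | hb
    · left; exact ⟨hx, hb⟩
    · right; left; exact ⟨hx, hb⟩
    · right; right; left; exact ⟨hx, hb⟩
    · right; right; right; left; exact hb
    · rcases hb with hb | hb | hb
      · right; right; right; right; left; exact ⟨hx, hb⟩
      · right; right; right; right; right; left; exact ⟨hx, hb⟩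
      · right; right; right; right; right; right; left; exact ⟨hx, hb⟩
    · rcases hb with hb | hb | hb
      · right; right; right; right; right; right; right; left; exact ⟨hx, hb⟩
      · right; right; right; right; right; right; right; right; left; exact ⟨hx, hb⟩
      · right; right; right; right; right; right; right; right; right; exact ⟨hx, hb⟩
  have h1 := Finset.card_le_card hsub
  have u : ∀ s t : Finset ℤ, ((s ∪ t).card : ℝ) ≤ (s.card : ℝ) + (t.card : ℝ) := by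
    intro s t; exact_mod_cast Finset.card_union_le s t
  have h2 := (Nat.cast_le (α := ℝ)).2 h1
  refine h2.trans ?_
  have e0 : ((({a, y1, y2} : Finset ℤ).card : ℕ) : ℝ) ≤ 3 := by
    exact_mod_cast Finset.card_le_three
  refine (u _ _).trans ?_
  refine (add_le_add (cnt_unL h) ((u _ _).trans (add_le_add (cnt_quart h.n_pos)
    ((u _ _).trans (add_le_add (cnt_mod h F hF) ((u _ _).trans (add_le_add e0
    ((u _ _).trans (add_le_add (cnt_unD h a) ((u _ _).trans (add_le_add (cnt_unD h y1)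
    ((u _ _).trans (add_le_add (cnt_unD h y2) ((u _ _).trans (add_le_add (cnt_Ddef a _)
    ((u _ _).trans (add_le_add (cnt_Ddef y1 _) (cnt_Ddef y2 _)))))))))))))))))).trans ?_
  linarith

/-- a good label: the expected weight is the kernel -/
theorem val_good (h : D.Reg κ c) (hκ : κ ≤ 1 / 4) {e : ℝ} {b : Bool} {a y1 y2 x : ℤ}
    (hg : D.gen3 b a y1 y2) {F : Finset (ZMod D.q)}
    (hF : ∀ x : ℤ, ((x : ℤ) : ZMod D.q) ∉ F → (D.uns a y1 y2 x).Nodup)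
    (hx : x ∈ Zr D.n) (hb : ¬ D.bad1 F a y1 y2 x) :
    (x ∈ D.Ze ∧ D.cond a y1 y2 x ∧ D.val e b a y1 y2 x = D.kerI b a y1 y2 x / D.n) ∨
    (D.kerI b a y1 y2 x = 0) := by
  have hn : (0 : ℝ) < D.n := by exact_mod_cast h.n_pos
  unfold bad1 at hb
  push Not at hb
  obtain ⟨b1, b2, b3, ⟨b4, b5, b6⟩, ⟨b7, b8, b9⟩, b10, b11, b12⟩ := hb
  by_cases hf : 2 * (D.n : ℤ) < |x - a|
  · right
    exact kerI_far h hg.1 hx hf
  · left
    push Not at hf
    have hx' := mem_Zr.1 hx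
    have hZ : x ∈ D.Ze := by
      classical
      unfold Ze
      rw [mem_filter, h.Z0_def]
      exact ⟨⟨hx'.1, hx'.2, b1⟩, b2⟩
    have h1 : (D.n : ℝ) < 2 * (x : ℝ) := by exact_mod_cast hx'.1
    have h2 : 2 * (x : ℝ) < 5 * (D.n : ℝ) := by exact_mod_cast hx'.2
    obtain ⟨_, _, g3, g4, g5, g6, _, _, _⟩ := hg
    have hy1 : |x - y1| ≤ 2 * (D.n : ℤ) := by
      have : |(x : ℝ) - y1| ≤ 2 * (D.n : ℝ) := by rw [abs_le]; constructor <;> linarith
      exact_mod_cast this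
    have hy2 : |x - y2| ≤ 2 * (D.n : ℤ) := by
      have : |(x : ℝ) - y2| ≤ 2 * (D.n : ℝ) := by rw [abs_le]; constructor <;> linarith
      exact_mod_cast this
    have p0 : 1 ≤ |x - a| := Int.one_le_abs (sub_ne_zero.2 b4)
    have p1 : 1 ≤ |x - y1| := Int.one_le_abs (sub_ne_zero.2 b5)
    have p2 : 1 ≤ |x - y2| := Int.one_le_abs (sub_ne_zero.2 b6)
    refine ⟨hZ, ⟨h.D0_mem _ p0 hf b7, h.D0_mem _ p1 hy1 b8, h.D0_mem _ p2 hy2 b9, hF x b3⟩, ?_⟩
    unfold val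
    rw [rho_one h hκ p0 b7 b10, rho_one h hκ p1 b8 b11, rho_one h hκ p2 b9 b12]
    ring

open Classical in
theorem sig_close (h : D.Reg κ c) (hκ : κ ≤ 1 / 4) {e : ℝ} (he : 0 ≤ e) (he1 : e ≤ 1 / 10)
    {b : Bool} {a y1 y2 : ℤ} (hg : D.gen3 b a y1 y2) :
    |D.sig e b a y1 y2 - 1| ≤ 150 * (28 * κ + 13 / D.n + 1600 / D.q + 6 * (D.Ddef.card / D.n))
      + 250 / D.n := by
  have hn : (0 : ℝ) < D.n := by exact_mod_cast h.n_pos
  obtain ⟨F, hF, hF'⟩ := uns_few D h.q_prime h.q_big a y1 y2 hg.2.2.2.2.2.2.1 hg.2.2.2.2.2.2.2.1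
    hg.2.2.2.2.2.2.2.2
  have hE1 := E1det h.n_pos b (PGrK.cc_lt (nrm D.n b y1) (nrm D.n b y2)) (A := nrm D.n b a)
    hg.1 hg.2.1
  have e1 : (1 / (D.n : ℝ)) * (∑ x ∈ Zr D.n, PGrK.kern (PGrK.cc (nrm D.n b y1) (nrm D.n b y2))
      (nrm D.n b a) (nrm D.n b x)) = ∑ x ∈ Zr D.n, D.kerI b a y1 y2 x / D.n := by
    rw [Finset.mul_sum]
    apply Finset.sum_congr rfl
    intro x _
    rw [kerI_kern]; ring
  rw [e1] at hE1
  have e2 : D.sig e b a y1 y2 = ∑ x ∈ Zr D.n,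
      (if x ∈ D.Ze ∧ D.cond a y1 y2 x then D.val e b a y1 y2 x else 0) := by
    rw [sig_formula h hκ]
    rw [← Finset.sum_subset (Ze_sub h) (f := fun x =>
      (if x ∈ D.Ze ∧ D.cond a y1 y2 x then D.val e b a y1 y2 x else 0))]
    · apply Finset.sum_congr rfl
      intro x hx
      by_cases hc : D.cond a y1 y2 x
      · rw [if_pos hc, if_pos ⟨hx, hc⟩]
      · rw [if_neg hc, if_neg (fun h => hc h.2)]
    · intro x _ hx
      rw [if_neg (fun h => hx h.1)]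
  have hb : |(∑ x ∈ Zr D.n, (if x ∈ D.Ze ∧ D.cond a y1 y2 x then D.val e b a y1 y2 x else 0))
      - ∑ x ∈ Zr D.n, D.kerI b a y1 y2 x / D.n| ≤
      (((Zr D.n).filter (fun x => D.bad1 F a y1 y2 x)).card : ℝ) * (150 / D.n) := by
    rw [← Finset.sum_sub_distrib, Finset.card_filter]
    push_cast
    rw [Finset.sum_mul]
    refine (Finset.abs_sum_le_sum_abs _ _).trans (Finset.sum_le_sum ?_)
    intro x hx
    have hk := kerI_bd' (D := D) b a y1 y2 x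
    have hk2 : D.kerI b a y1 y2 x / D.n ≤ 150 / D.n :=
      div_le_div_of_nonneg_right (by linarith [hk.2]) hn.le
    have hk3 : 0 ≤ D.kerI b a y1 y2 x / D.n := div_nonneg hk.1 hn.le
    have h150 : (0 : ℝ) ≤ 150 / D.n := by positivity
    by_cases hbx : D.bad1 F a y1 y2 x
    · rw [if_pos hbx, one_mul]
      by_cases hc : x ∈ D.Ze ∧ D.cond a y1 y2 x
      · rw [if_pos hc]
        have hv := val_bd h hκ he he1 b hc.2
        rw [abs_le]; constructor <;> linarith [hv.1, hv.2]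
      · rw [if_neg hc, abs_le]; constructor <;> linarith
    · rw [if_neg hbx, zero_mul]
      rcases val_good (e := e) h hκ hg hF' hx hbx with ⟨g1, g2, g3⟩ | g0
      · rw [if_pos ⟨g1, g2⟩, g3, sub_self, abs_zero]
      · have : D.val e b a y1 y2 x = 0 := by unfold val; rw [g0]; ring
        rw [this, g0]
        simp
  have hcard := bad1_card h hF a y1 y2
  have h5 : (((Zr D.n).filter (fun x => D.bad1 F a y1 y2 x)).card : ℝ) * (150 / D.n) ≤
      150 * (28 * κ + 13 / D.n + 1600 / D.q + 6 * (D.Ddef.card / D.n)) := by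
    refine (mul_le_mul_of_nonneg_right hcard (by positivity)).trans (le_of_eq ?_)
    have hq0 : (0 : ℝ) < D.q := by exact_mod_cast D.q_pos
    field_simp
  rw [e2]
  have e6 : 250 * (1 / (D.n : ℝ)) = 250 / D.n := by ring
  rw [e6] at hE1
  rw [abs_le] at hE1 hb ⊢
  constructor <;> linarith [hE1.1, hE1.2, hb.1, hb.2]

/-- deficient differences are rare -/
theorem Ddef_frac (h : D.Reg κ c) : (D.Ddef.card : ℝ) / D.n ≤ 10 / √(D.q : ℝ) := by
  have hn : (0 : ℝ) < D.n := by exact_mod_cast h.n_pos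
  have hq0 : (0 : ℝ) < D.q := by exact_mod_cast D.q_pos
  have hs : 0 < √(D.q : ℝ) := Real.sqrt_pos.2 hq0
  rw [div_le_div_iff₀ hn hs]
  exact Ddef_card h

/-- all small quantities are small -/
theorem small_of (K : ℕ) (hK : 1 ≤ K) (h : D.Reg κ c) (hn : (K ^ 2) ^ 8 ≤ D.n) :
    1 / (D.n : ℝ) ≤ 1 / K ∧ 1 / (D.q : ℝ) ≤ 1 / K ∧ 1 / √(D.q : ℝ) ≤ 1 / K ∧
      (D.q : ℝ) ^ 2 / D.n ≤ 1 / K := by
  have hq := h.q_ge hn
  have hKr : (1 : ℝ) ≤ K := by exact_mod_cast hK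
  have hK0 : (0 : ℝ) < K := by linarith
  have hqr : (K : ℝ) ^ 2 ≤ D.q := by exact_mod_cast hq
  have hq0 : (0 : ℝ) < D.q := by exact_mod_cast D.q_pos
  have hKq : (K : ℝ) ≤ D.q := by nlinarith
  have hn0 : (0 : ℝ) < D.n := by exact_mod_cast h.n_pos
  have hq6 : (D.q : ℝ) ^ 6 ≤ D.n := by exact_mod_cast h.q_high
  have hq1 : (1 : ℝ) ≤ D.q := le_trans hKr hKq
  have hqn : (D.q : ℝ) ≤ D.n := by
    refine le_trans ?_ hq6
    calc (D.q : ℝ) = (D.q : ℝ) ^ 1 := (pow_one _).symm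
      _ ≤ (D.q : ℝ) ^ 6 := pow_le_pow_right₀ hq1 (by norm_num)
  refine ⟨?_, ?_, ?_, ?_⟩
  · exact one_div_le_one_div_of_le hK0 (hKq.trans hqn)
  · exact one_div_le_one_div_of_le hK0 hKq
  · apply one_div_le_one_div_of_le hK0
    rw [show (K : ℝ) = √((K : ℝ) ^ 2) from (Real.sqrt_sq hK0.le).symm]
    exact Real.sqrt_le_sqrt hqr
  · rw [div_le_div_iff₀ hn0 hK0, one_mul]
    calc (D.q : ℝ) ^ 2 * K ≤ (D.q : ℝ) ^ 2 * D.q := by gcongr
      _ = (D.q : ℝ) ^ 3 := by ring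
      _ ≤ (D.q : ℝ) ^ 6 := pow_le_pow_right₀ hq1 (by norm_num)
      _ ≤ D.n := hq6

end Dat

theorem E1_holds : E1Stmt := by
  intro δ hδ
  obtain ⟨K, hK⟩ := exists_nat_gt (1000000 / δ)
  have hK1 : 1 ≤ K := by
    by_contra hcon
    have : K = 0 := by omega
    rw [this] at hK
    have : 0 < 1000000 / δ := by positivity
    push_cast at hK
    linarith
  refine ⟨min (1 / 4) (δ / 10000), by positivity, (K ^ 2) ^ 8, ?_⟩
  intro D κ c hκ hn h e he he1 b a y1 y2 hg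
  obtain ⟨s1, s2, s3, s4⟩ := Dat.small_of K hK1 h hn
  have hκ1 : κ ≤ 1 / 4 := hκ.trans (min_le_left _ _)
  have hκ2 : κ ≤ δ / 10000 := hκ.trans (min_le_right _ _)
  have hKr : (0 : ℝ) < K := by exact_mod_cast hK1
  have hKd : 1 / (K : ℝ) ≤ δ / 1000000 := by
    rw [div_le_div_iff₀ hKr (by norm_num)]
    rw [div_lt_iff₀ hδ] at hK
    linarith
  refine (Dat.sig_close h hκ1 he he1 hg).trans ?_
  have hD := Dat.Ddef_frac h
  have e1 : (13 : ℝ) / D.n = 13 * (1 / D.n) := by ring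
  have e2 : (1600 : ℝ) / D.q = 1600 * (1 / D.q) := by ring
  have e3 : (10 : ℝ) / √(D.q : ℝ) = 10 * (1 / √(D.q : ℝ)) := by ring
  have e4 : (250 : ℝ) / D.n = 250 * (1 / D.n) := by ring
  rw [e3] at hD
  rw [e1, e2, e4]
  linarith

end Pool.Agent.PGr
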