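import Mathlib
import Pool.Agent.PGr.E1

/-!
# PGr, module E2: proof of `E2Stmt`
-/

noncomputable section

namespace Pool.Agent.PGr

open Finset

namespace Dat

variable {D : Dat} {κ c : ℝ}

theorem rho_nonneg {e : ℝ} (he : 0 ≤ e) (d : ℤ) : 0 ≤ D.rho e d := by
  have h2 : 0 ≤ D.pD d := Pr_nonneg _
  have h3 := (ff_range ((d : ℝ) / D.n)).1
  unfold rho psD
  apply div_nonneg h2
  apply mul_nonneg
  · split_ifs <;> linarith
  · split_ifs <;> linarith

theorem rho_le_one {e : ℝ} (he : 0 ≤ e) {d : ℤ} (hR : unD D.q d ∉ D.Res) :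
    D.rho e d ≤ 1 := by
  have h2 : 0 ≤ D.pD d := Pr_nonneg _
  unfold rho psD
  rw [if_neg hR]
  by_cases hD : d ∈ D.Ddef
  · rw [if_pos hD]
    exact div_le_one_of_le₀ (by nlinarith) (by positivity)
  · rw [if_neg hD, one_mul]
    exact div_le_one_of_le₀ le_rfl h2

theorem un_ne_of_pure (h : D.Reg κ c) {m : ℕ} (hm : m ∈ D.It) (hp : D.pure m) :
    D.un (D.nb1 m) ≠ D.un (D.nb2 m) := by
  intro e
  apply (h.gen m hm).2.2
  unfold cls
  rw [if_pos hp.1, if_pos hp.2.1, e]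

theorem gen3_Y (h : D.Reg κ c) {m : ℕ} (hm : m ∈ D.It) (hp : D.pure m) (t1 t2 : ZMod (2 * D.S)) :
    D.gen3 (D.hi m) (D.anc m) (D.Y (D.nb1 m) t1) (D.Y (D.nb2 m) t2) := by
  classical
  have hne := un_ne_of_pure h hm hp
  have h1 := gen3_item h (fun u => if u = D.un (D.nb1 m) then t1 else t2) hm
  have h2 := yy_pure hp (fun u => if u = D.un (D.nb1 m) then t1 else t2)
  rw [h2.1, h2.2, if_pos rfl, if_neg hne.symm] at h1
  exact h1

/-- class of a distance -/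
theorem unD_abs (D : Dat) (x z : ℤ) (u : ZMod (D.q ^ 2)) (hu : ((z : ℤ) : ZMod (D.q ^ 2)) = u) :
    unD D.q |x - z| = delI D.q (1 * u + -((x : ℤ) : ZMod (D.q ^ 2))) ∨
    unD D.q |x - z| = delI D.q (-1 * u + ((x : ℤ) : ZMod (D.q ^ 2))) := by
  unfold unD
  rcases abs_choice (x - z) with hc | hc
  · right
    rw [hc]
    congr 1
    push_cast
    rw [hu]
    ring
  · left
    rw [hc]
    congr 1
    push_cast
    rw [hu]
    ring

theorem Y_cls (h : D.Reg κ c) {v : ℕ} (hv : v ∈ D.Sv) (t : ZMod (2 * D.S)) :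
    ((D.Y v t : ℤ) : ZMod (D.q ^ 2)) = D.cls v := by
  unfold cls
  rw [if_pos hv, h.Y_res v hv]

open Classical in
/-- pure items for which one of finitely many combinations is a reserved unit -/
def badL (D : Dat) (L : List (Fin 10 × ZMod (D.q ^ 2) × ZMod (D.q ^ 2))) : Finset ℕ :=
  D.It.filter (fun m => D.pure m ∧ ∃ p ∈ L, (lamI D.q (p.2.1 * D.cmb p.1 m + p.2.2) ∈ D.Res ∨
      delI D.q (p.2.1 * D.cmb p.1 m + p.2.2) ∈ D.Res))

theorem badL_card (h : D.Reg κ c) (L : List (Fin 10 × ZMod (D.q ^ 2) × ZMod (D.q ^ 2)))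
    (hL : ∀ p ∈ L, pm p.2.1) : ((D.badL L).card : ℝ) ≤ L.length * (κ * D.n) := by
  classical
  induction L with
  | nil =>
    have : D.badL [] = ∅ := by
      unfold badL
      apply Finset.filter_eq_empty_iff.2
      rintro m _ ⟨_, p, hp, _⟩
      exact List.not_mem_nil hp
    rw [this]
    simp
  | cons p L ih =>
    have h1 := ih (fun p' hp' => hL p' (List.mem_cons_of_mem _ hp'))
    have h2 := h.res p.1 p.2.1 p.2.2 (hL p List.mem_cons_self)
    have h3 : D.badL (p :: L) ⊆ (D.It.filter (fun m => D.pure m ∧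
        (lamI D.q (p.2.1 * D.cmb p.1 m + p.2.2) ∈ D.Res ∨
        delI D.q (p.2.1 * D.cmb p.1 m + p.2.2) ∈ D.Res))) ∪ D.badL L := by
      intro m hm
      unfold badL at hm ⊢
      rw [Finset.mem_filter] at hm
      obtain ⟨hI, hp, p', hp', hr⟩ := hm
      rw [Finset.mem_union, Finset.mem_filter, Finset.mem_filter]
      rcases List.mem_cons.1 hp' with rfl | hp''
      · exact Or.inl ⟨hI, hp, hr⟩
      · exact Or.inr ⟨hI, hp, p', hp'', hr⟩
    have h4 := Finset.card_le_card h3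
    have h5 := Finset.card_union_le (D.It.filter (fun m => D.pure m ∧
        (lamI D.q (p.2.1 * D.cmb p.1 m + p.2.2) ∈ D.Res ∨
        delI D.q (p.2.1 * D.cmb p.1 m + p.2.2) ∈ D.Res))) (D.badL L)
    have h6 : ((D.badL (p :: L)).card : ℝ) ≤ ((D.It.filter (fun m => D.pure m ∧
        (lamI D.q (p.2.1 * D.cmb p.1 m + p.2.2) ∈ D.Res ∨
        delI D.q (p.2.1 * D.cmb p.1 m + p.2.2) ∈ D.Res))).card : ℝ) + ((D.badL L).card : ℝ) := by
      exact_mod_cast h4.trans h5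
    rw [List.length_cons]
    push_cast
    linarith

theorem not_badL {L : List (Fin 10 × ZMod (D.q ^ 2) × ZMod (D.q ^ 2))} {m : ℕ} (hm : m ∈ D.It)
    (hp : D.pure m) (hb : m ∉ D.badL L) {j : Fin 10} {e w : ZMod (D.q ^ 2)}
    (hj : (j, e, w) ∈ L) : lamI D.q (e * D.cmb j m + w) ∉ D.Res ∧
      delI D.q (e * D.cmb j m + w) ∉ D.Res := by
  classical
  unfold badL at hb
  rw [Finset.mem_filter] at hb
  constructor
  · intro hh
    exact hb ⟨hm, hp, (j, e, w), hj, Or.inl hh⟩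
  · intro hh
    exact hb ⟨hm, hp, (j, e, w), hj, Or.inr hh⟩

/-- upper bound for the value without reserved differences -/
theorem val_le_good (h : D.Reg κ c) {e : ℝ} (he : 0 ≤ e) {b : Bool} {a y1 y2 x : ℤ}
    (r1 : unD D.q |x - a| ∉ D.Res) (r2 : unD D.q |x - y1| ∉ D.Res)
    (r3 : unD D.q |x - y2| ∉ D.Res) : D.val e b a y1 y2 x ≤ D.kerI b a y1 y2 x / D.n := by
  have hn : (0 : ℝ) < D.n := by exact_mod_cast h.n_pos
  have k1 := (kerI_bd' (D := D) b a y1 y2 x).1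
  have a1 := rho_le_one (D := D) he r1
  have a2 := rho_le_one (D := D) he r2
  have a3 := rho_le_one (D := D) he r3
  have b1 := rho_nonneg (D := D) he |x - a|
  have b2 := rho_nonneg (D := D) he |x - y1|
  have b3 := rho_nonneg (D := D) he |x - y2|
  unfold val
  apply div_le_div_of_nonneg_right _ hn.le
  have e1 : D.rho e |x - a| * D.rho e |x - y1| ≤ 1 := mul_le_one₀ a1 b2 a2
  have e2 : D.rho e |x - a| * D.rho e |x - y1| * D.rho e |x - y2| ≤ 1 :=
    mul_le_one₀ e1 b3 a3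
  calc D.kerI b a y1 y2 x * (D.rho e |x - a| * D.rho e |x - y1| * D.rho e |x - y2|)
      ≤ D.kerI b a y1 y2 x * 1 := mul_le_mul_of_nonneg_left e2 k1
    _ = D.kerI b a y1 y2 x := mul_one _

/-- averaged kernel of a pure item at a label -/
def avK (D : Dat) (m : ℕ) (x : ℤ) : ℝ :=
  (1 / (2 * (D.S : ℝ))) * (∑ t1 : ZMod (2 * D.S), (1 / (2 * (D.S : ℝ))) *
    (∑ t2 : ZMod (2 * D.S), D.kerI (D.hi m) (D.anc m) (D.Y (D.nb1 m) t1) (D.Y (D.nb2 m) t2) x))

theorem avK_nonneg (m : ℕ) (x : ℤ) : 0 ≤ D.avK m x := by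
  unfold avK
  apply mul_nonneg (by positivity)
  apply Finset.sum_nonneg
  intro t1 _
  apply mul_nonneg (by positivity)
  apply Finset.sum_nonneg
  intro t2 _
  exact (kerI_bd' _ _ _ _ _).1

theorem A_div (h : D.Reg κ c) (m : ℕ) : nrm D.n (D.hi m) (D.anc m) = (D.A m : ℝ) / D.n := by
  have hn : (D.n : ℝ) ≠ 0 := by
    have := h.n_pos
    positivity
  unfold nrm A
  cases D.hi m
  · simp only [Bool.false_eq_true, if_false]
    push_cast
    field_simp
  · simp only [if_true]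

theorem avK_eq (h : D.Reg κ c) (b : Bool) {m : ℕ} (hm : D.hi m = b) (x : ℤ) :
    D.avK m x = (1 / (2 * (D.S : ℝ))) * (∑ t1 : ZMod (2 * D.S),
        (1 / (2 * (D.S : ℝ))) * (∑ t2 : ZMod (2 * D.S),
          PGrK.kern (PGrK.cc (nrm D.n b (D.Y (D.nb1 m) t1)) (nrm D.n b (D.Y (D.nb2 m) t2)))
            ((D.A m : ℝ) / D.n) (nrm D.n b x))) := by
  subst hm
  unfold avK
  simp only [kerI_kern, A_div h]

open Classical in
/-- sum over the pure items -/
theorem sum_pure_split (f : ℕ → ℝ) : (∑ m ∈ D.It, if D.pure m then f m else 0) =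
    ∑ m ∈ D.Pu true, f m + ∑ m ∈ D.Pu false, f m := by
  rw [← Finset.sum_filter]
  have e1 : D.Pu true = (D.It.filter D.pure).filter (fun m => D.hi m = true) := by
    unfold Pu
    rw [Finset.filter_filter]
    apply Finset.filter_congr
    intro m _
    exact and_comm
  have e2 : D.Pu false = (D.It.filter D.pure).filter (fun m => ¬ D.hi m = true) := by
    unfold Pu
    rw [Finset.filter_filter]
    apply Finset.filter_congr
    intro m _
    rw [Bool.not_eq_true]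
    exact and_comm
  rw [e1, e2, Finset.sum_filter_add_sum_filter_not]

/-- the sum of the averaged kernels at a label -/
theorem sum_avK (h : D.Reg κ c) (hκ : κ ≤ 1 / 5) (hn : 10 ≤ D.n) {x : ℤ} (hx : x ∈ Zr D.n) :
    (1 / (D.n : ℝ)) * (∑ m ∈ D.Pu true, D.avK m x + ∑ m ∈ D.Pu false, D.avK m x) ≤
      6 / 10 * PGrK.phi ((x : ℝ) / D.n) + 2 * (600 * κ + 300 * ((D.q : ℝ) ^ 2 / D.n)) := by
  have hκ0 := kappa_nonneg h
  have h1 := h.E2det hκ0 hκ hn true x
  have h2 := h.E2det hκ0 hκ hn false x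
  have h3 := cap_label h.n_pos hx
  have e1 : ∀ b, ∑ m ∈ D.Pu b, D.avK m x = ∑ m ∈ D.Pu b, (1 / (2 * (D.S : ℝ))) *
      (∑ t1 : ZMod (2 * D.S), (1 / (2 * (D.S : ℝ))) * (∑ t2 : ZMod (2 * D.S),
          PGrK.kern (PGrK.cc (nrm D.n b (D.Y (D.nb1 m) t1)) (nrm D.n b (D.Y (D.nb2 m) t2)))
            ((D.A m : ℝ) / D.n) (nrm D.n b x))) := by
    intro b
    apply Finset.sum_congr rfl
    intro m hm
    exact avK_eq h b (mem_Pu hm).2.1 x
  rw [e1 true, e1 false, mul_add]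
  have h1' := (abs_le.1 h1).2
  have h2' := (abs_le.1 h2).2
  linarith

open Classical in
/-- contribution of an item to the label sum -/
def labC (D : Dat) (e : ℝ) (m : ℕ) (x : ℤ) : ℝ :=
  Ex (fun θ : D.Om => if D.edgX θ (D.anc m) (D.yy1 θ m) (D.yy2 θ m) x then
      D.wn e θ m x else 0)

theorem labC_le (h : D.Reg κ c) (hκ : κ ≤ 1 / 4) {e : ℝ} (he : 0 ≤ e) (he1 : e ≤ 1 / 10)
    {m : ℕ} (hm : m ∈ D.It)
    (hs : ∀ (b : Bool) (a y1 y2 : ℤ), D.gen3 b a y1 y2 → 9 / 10 ≤ D.sig e b a y1 y2) (x : ℤ) :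
    D.labC e m x ≤ 450 / D.n := by
  have hn : (0 : ℝ) < D.n := by exact_mod_cast h.n_pos
  unfold labC
  refine (Ex_mono (g := fun _ => 450 / (D.n : ℝ)) ?_).trans (Ex_const _).le
  intro θ
  by_cases hE : D.edgX θ (D.anc m) (D.yy1 θ m) (D.yy2 θ m) x
  · rw [if_pos hE]
    obtain ⟨hx, ⟨g1, _⟩, ⟨g2, _⟩, ⟨g3, _⟩, _⟩ := hE
    have h1 := wt_le h hκ he he1 (D.hi m) (D.anc m) (D.yy1 θ m) (D.yy2 θ m) x hx g1 g2 g3
    have h2 := hs _ _ _ _ (gen3_item h θ hm)
    unfold wn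
    rw [div_le_div_iff₀ (by linarith) hn]
    rw [le_div_iff₀ hn] at h1
    nlinarith
  · rw [if_neg hE]
    positivity

open Classical in
theorem labC_pure (h : D.Reg κ c) (hκ : κ ≤ 1 / 4) {e : ℝ} (he : 0 ≤ e) {δ : ℝ} (hδ : δ < 1)
    {m : ℕ} (hm : m ∈ D.It) (hp : D.pure m)
    (hs : ∀ (b : Bool) (a y1 y2 : ℤ), D.gen3 b a y1 y2 → 1 - δ ≤ D.sig e b a y1 y2) {x : ℤ}
    (hx : x ∈ D.Ze)
    (hb : m ∉ D.badL [(0, 1, -((x : ℤ) : ZMod (D.q ^ 2))), (0, -1, ((x : ℤ) : ZMod (D.q ^ 2))),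
      (1, 1, -((x : ℤ) : ZMod (D.q ^ 2))), (1, -1, ((x : ℤ) : ZMod (D.q ^ 2))),
      (2, 1, -((x : ℤ) : ZMod (D.q ^ 2))), (2, -1, ((x : ℤ) : ZMod (D.q ^ 2)))]) :
    D.labC e m x ≤ 1 / (D.n * (D.pL x * (1 - δ))) * D.avK m x := by
  have hn : (0 : ℝ) < D.n := by exact_mod_cast h.n_pos
  have hpL := pL_pos h hκ hx
  have hδ' : 0 < 1 - δ := by linarith
  have hS : (0 : ℝ) < D.S := by exact_mod_cast D.S_pos
  unfold labC
  rw [lab_formula h hκ e hp hx]
  have hR : ∀ z : ℤ, ∀ j : Fin 10, (j = 0 ∨ j = 1 ∨ j = 2) →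
      ((z : ℤ) : ZMod (D.q ^ 2)) = D.cmb j m → unD D.q |x - z| ∉ D.Res := by
    intro z j hj hz
    rcases unD_abs D x z _ hz with h1 | h1
    · rw [h1]
      apply (not_badL hm hp hb (j := j) (e := 1) (w := -((x : ℤ) : ZMod (D.q ^ 2))) ?_).2
      rcases hj with rfl | rfl | rfl <;> simp
    · rw [h1]
      apply (not_badL hm hp hb (j := j) (e := -1) (w := ((x : ℤ) : ZMod (D.q ^ 2))) ?_).2
      rcases hj with rfl | rfl | rfl <;> simp
  have key : ∀ t1 t2 : ZMod (2 * D.S),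
      (if D.cond (D.anc m) (D.Y (D.nb1 m) t1) (D.Y (D.nb2 m) t2) x then
          D.val e (D.hi m) (D.anc m) (D.Y (D.nb1 m) t1) (D.Y (D.nb2 m) t2) x /
            (D.pL x * D.sig e (D.hi m) (D.anc m) (D.Y (D.nb1 m) t1) (D.Y (D.nb2 m) t2))
              else 0) ≤ 1 / (D.n * (D.pL x * (1 - δ))) *
        D.kerI (D.hi m) (D.anc m) (D.Y (D.nb1 m) t1) (D.Y (D.nb2 m) t2) x := by
    intro t1 t2
    have hk := (kerI_bd' (D := D) (D.hi m) (D.anc m) (D.Y (D.nb1 m) t1) (D.Y (D.nb2 m) t2) x).1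
    by_cases hc : D.cond (D.anc m) (D.Y (D.nb1 m) t1) (D.Y (D.nb2 m) t2) x
    · rw [if_pos hc]
      have hsg := hs _ _ _ _ (gen3_Y h hm hp t1 t2)
      have hv := val_le_good h he (b := D.hi m) (hR (D.anc m) 0 (Or.inl rfl) rfl)
        (hR (D.Y (D.nb1 m) t1) 1 (Or.inr (Or.inl rfl)) (Y_cls h hp.1 t1))
        (hR (D.Y (D.nb2 m) t2) 2 (Or.inr (Or.inr rfl)) (Y_cls h hp.2.1 t2))
      calc D.val e (D.hi m) (D.anc m) (D.Y (D.nb1 m) t1) (D.Y (D.nb2 m) t2) x /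
            (D.pL x * D.sig e (D.hi m) (D.anc m) (D.Y (D.nb1 m) t1) (D.Y (D.nb2 m) t2))
          ≤ (D.kerI (D.hi m) (D.anc m) (D.Y (D.nb1 m) t1) (D.Y (D.nb2 m) t2) x / D.n) /
            (D.pL x * (1 - δ)) := by
            apply div_le_div₀ (by positivity) hv (by positivity)
            exact mul_le_mul_of_nonneg_left hsg hpL.le
        _ = _ := by field_simp
    · rw [if_neg hc]
      positivity
  calc ∑ t1 : ZMod (2 * D.S), ∑ t2 : ZMod (2 * D.S),
        (1 / (2 * (D.S : ℝ))) * (1 / (2 * (D.S : ℝ))) *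
      (if D.cond (D.anc m) (D.Y (D.nb1 m) t1) (D.Y (D.nb2 m) t2) x then
          D.val e (D.hi m) (D.anc m) (D.Y (D.nb1 m) t1) (D.Y (D.nb2 m) t2) x /
            (D.pL x * D.sig e (D.hi m) (D.anc m) (D.Y (D.nb1 m) t1) (D.Y (D.nb2 m) t2))
              else 0)
      ≤ ∑ t1 : ZMod (2 * D.S), ∑ t2 : ZMod (2 * D.S),
        (1 / (2 * (D.S : ℝ))) * (1 / (2 * (D.S : ℝ))) * (1 / (D.n * (D.pL x * (1 - δ))) *
        D.kerI (D.hi m) (D.anc m) (D.Y (D.nb1 m) t1) (D.Y (D.nb2 m) t2) x) := by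
          apply Finset.sum_le_sum
          intro t1 _
          apply Finset.sum_le_sum
          intro t2 _
          exact mul_le_mul_of_nonneg_left (key t1 t2) (by positivity)
    _ = _ := by
      unfold avK
      simp only [Finset.mul_sum]
      apply Finset.sum_congr rfl
      intro t1 _
      apply Finset.sum_congr rfl
      intro t2 _
      ring

/-- expected label sums -/
theorem labX_le (h : D.Reg κ c) (hκ : κ ≤ 1 / 5) (hn : 10 ≤ D.n) {e : ℝ} (he : 0 ≤ e)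
    (he1 : e ≤ 1 / 10) {δ : ℝ} (hδ0 : 0 ≤ δ) (hδ : δ ≤ 1 / 10)
    (hs : ∀ (b : Bool) (a y1 y2 : ℤ), D.gen3 b a y1 y2 → 1 - δ ≤ D.sig e b a y1 y2) {x : ℤ}
    (hx : x ∈ D.Ze) :
    Ex (fun θ => D.labX e θ x) ≤ 1 / (D.pL x * (1 - δ)) *
      (6 / 10 * PGrK.phi ((x : ℝ) / D.n) + 2 * (600 * κ + 300 * ((D.q : ℝ) ^ 2 / D.n))) +
      3150 * κ := by
  classical
  have hnr : (0 : ℝ) < D.n := by exact_mod_cast h.n_pos
  have hκ1 : κ ≤ 1 / 4 := by linarith
  have hpL := pL_pos h hκ1 hx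
  have hδ' : 0 < 1 - δ := by linarith
  have hs' : ∀ (b : Bool) (a y1 y2 : ℤ), D.gen3 b a y1 y2 → 9 / 10 ≤ D.sig e b a y1 y2 :=
    fun b a y1 y2 hg => by linarith [hs b a y1 y2 hg]
  obtain ⟨L, hL⟩ : ∃ L : List (Fin 10 × ZMod (D.q ^ 2) × ZMod (D.q ^ 2)), L =
    [(0, 1, -((x : ℤ) : ZMod (D.q ^ 2))), (0, -1, ((x : ℤ) : ZMod (D.q ^ 2))),
      (1, 1, -((x : ℤ) : ZMod (D.q ^ 2))), (1, -1, ((x : ℤ) : ZMod (D.q ^ 2))),
      (2, 1, -((x : ℤ) : ZMod (D.q ^ 2))), (2, -1, ((x : ℤ) : ZMod (D.q ^ 2)))] := ⟨_, rfl⟩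
  have hLc : ((D.badL L).card : ℝ) ≤ 6 * (κ * D.n) := by
    have h1 := badL_card h L (by
      rw [hL]
      intro p hp
      simp only [List.mem_cons, List.not_mem_nil, or_false] at hp
      rcases hp with rfl | rfl | rfl | rfl | rfl | rfl
      · exact Or.inl rfl
      · exact Or.inr rfl
      · exact Or.inl rfl
      · exact Or.inr rfl
      · exact Or.inl rfl
      · exact Or.inr rfl)
    rw [hL] at h1 ⊢
    refine h1.trans (le_of_eq ?_)
    simp
  have e0 : Ex (fun θ => D.labX e θ x) = ∑ m ∈ D.It, D.labC e m x := by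
    unfold labX labC
    rw [Ex_sum]
  have step : ∀ m ∈ D.It, D.labC e m x ≤
      (if D.pure m then 1 / (D.n * (D.pL x * (1 - δ))) * D.avK m x else 0) +
      ((if m ∈ D.badL L then 450 / (D.n : ℝ) else 0) +
        (if ¬ D.pure m then 450 / (D.n : ℝ) else 0)) := by
    intro m hm
    have hk := avK_nonneg (D := D) m x
    by_cases hp : D.pure m
    · rw [if_pos hp, if_neg (not_not.2 hp), add_zero]
      by_cases hb : m ∈ D.badL L
      · rw [if_pos hb]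
        have h1 := labC_le h hκ1 he he1 hm hs' x
        have h2 : 0 ≤ 1 / (D.n * (D.pL x * (1 - δ))) * D.avK m x := by positivity
        linarith
      · rw [if_neg hb, add_zero]
        apply labC_pure h hκ1 he (by linarith) hm hp hs hx
        rw [← hL]
        exact hb
    · rw [if_neg hp, if_pos hp, zero_add]
      have h1 := labC_le h hκ1 he he1 hm hs' x
      have h2 : (0 : ℝ) ≤ (if m ∈ D.badL L then 450 / (D.n : ℝ) else 0) := by
        split_ifs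
        · positivity
        · exact le_rfl
      linarith
  rw [e0]
  refine (Finset.sum_le_sum step).trans ?_
  rw [Finset.sum_add_distrib, Finset.sum_add_distrib, sum_pure_split]
  have hsum := sum_avK h hκ hn (Ze_sub h hx)
  have t1 : ∑ m ∈ D.Pu true, 1 / (D.n * (D.pL x * (1 - δ))) * D.avK m x +
      ∑ m ∈ D.Pu false, 1 / (D.n * (D.pL x * (1 - δ))) * D.avK m x =
      1 / (D.pL x * (1 - δ)) * ((1 / (D.n : ℝ)) * (∑ m ∈ D.Pu true, D.avK m x +
        ∑ m ∈ D.Pu false, D.avK m x)) := by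
    rw [← Finset.mul_sum, ← Finset.mul_sum]
    field_simp
  have t2 : (∑ m ∈ D.It, if m ∈ D.badL L then 450 / (D.n : ℝ) else 0) ≤ 2700 * κ := by
    rw [← Finset.sum_filter, Finset.sum_const, nsmul_eq_mul]
    have h1 : ((D.It.filter (fun m => m ∈ D.badL L)).card : ℝ) ≤ (D.badL L).card := by
      have : D.It.filter (fun m => m ∈ D.badL L) ⊆ D.badL L := by
        intro m hm
        exact (Finset.mem_filter.1 hm).2
      exact_mod_cast Finset.card_le_card this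
    calc ((D.It.filter (fun m => m ∈ D.badL L)).card : ℝ) * (450 / (D.n : ℝ))
        ≤ (6 * (κ * D.n)) * (450 / (D.n : ℝ)) := by
          apply mul_le_mul_of_nonneg_right (h1.trans hLc) (by positivity)
      _ = 2700 * κ := by field_simp; ring
  have t3 : (∑ m ∈ D.It, if ¬ D.pure m then 450 / (D.n : ℝ) else 0) ≤ 450 * κ := by
    rw [← Finset.sum_filter, Finset.sum_const, nsmul_eq_mul]
    have h1 := h.pure_most
    calc ((D.It.filter (fun m => ¬ D.pure m)).card : ℝ) * (450 / (D.n : ℝ))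
        ≤ (κ * D.n) * (450 / (D.n : ℝ)) := by
          apply mul_le_mul_of_nonneg_right _ (by positivity)
          refine le_trans (le_of_eq ?_) h1
          congr
      _ = 450 * κ := by field_simp
  rw [t1]
  have t4 : 1 / (D.pL x * (1 - δ)) * ((1 / (D.n : ℝ)) * (∑ m ∈ D.Pu true, D.avK m x +
        ∑ m ∈ D.Pu false, D.avK m x)) ≤ 1 / (D.pL x * (1 - δ)) *
      (6 / 10 * PGrK.phi ((x : ℝ) / D.n) + 2 * (600 * κ + 300 * ((D.q : ℝ) ^ 2 / D.n))) :=
    mul_le_mul_of_nonneg_left hsum (by positivity)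
  linarith

/-- the capacity divided by the probability -/
theorem phi_pL (h : D.Reg κ c) (hκ : κ ≤ 1 / 4) {x : ℤ} (hx : x ∈ D.Ze) :
    PGrK.phi ((x : ℝ) / D.n) * (1 - κ) ≤ D.pL x ∧ (1 - κ) / 2 ≤ D.pL x := by
  have hn : (0 : ℝ) < D.n := by exact_mod_cast h.n_pos
  have hκ0 := kappa_nonneg h
  have h1 := pL_ge h hκ (Ze_prop h hx).2.2.1
  refine ⟨?_, h1⟩
  by_cases hw : (D.B0 : ℤ) ≤ x ∧ x < D.B0 + 2 * D.S * D.q ^ 2
  · have e1 : PGrK.phi ((x : ℝ) / D.n) = 1 / 2 := by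
      unfold PGrK.phi
      rw [if_pos]
      have g1 : (D.n : ℤ) ≤ x := le_trans (by exact_mod_cast h.B0_low) hw.1
      have g2 : x ≤ 2 * (D.n : ℤ) := by
        have := h.B0_high
        have h3 : ((D.B0 + 2 * D.S * D.q ^ 2 : ℕ) : ℤ) ≤ ((2 * D.n : ℕ) : ℤ) := by
          exact_mod_cast this
        push_cast at h3
        linarith [hw.2]
      constructor
      · rw [le_div_iff₀ hn, one_mul]
        exact_mod_cast g1
      · rw [div_le_iff₀ hn]
        exact_mod_cast g2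
    rw [e1]
    linarith
  · rw [pL_out h hw]
    have h3 : PGrK.phi ((x : ℝ) / D.n) ≤ 1 := by
      unfold PGrK.phi
      split_ifs <;> norm_num
    have h4 : 0 ≤ PGrK.phi ((x : ℝ) / D.n) := by
      unfold PGrK.phi
      split_ifs <;> norm_num
    nlinarith

end Dat

theorem E2_holds : E2Stmt := by
  obtain ⟨κ1, hκ1, n1, H⟩ := E1_holds (1 / 100) (by norm_num)
  refine ⟨min κ1 (1 / 1000000), by positivity, max n1 ((1000000 ^ 2) ^ 8), ?_⟩
  intro D κ c hκ hn h e he he1 x hx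
  have hκ2 : κ ≤ κ1 := hκ.trans (min_le_left _ _)
  have hκ3 : κ ≤ 1 / 1000000 := hκ.trans (min_le_right _ _)
  have hn1 : n1 ≤ D.n := (le_max_left _ _).trans hn
  have hn2 : (1000000 ^ 2) ^ 8 ≤ D.n := (le_max_right _ _).trans hn
  obtain ⟨s1, s2, s3, s4⟩ := Dat.small_of 1000000 (by norm_num) h hn2
  have hκ0 := Dat.kappa_nonneg h
  have hn10 : 10 ≤ D.n := le_trans (by norm_num) hn2
  have hs : ∀ (b : Bool) (a y1 y2 : ℤ), D.gen3 b a y1 y2 → 1 - 1 / 100 ≤ D.sig e b a y1 y2 := by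
    intro b a y1 y2 hg
    have := (abs_le.1 (H D κ c hκ2 hn1 h e he he1 b a y1 y2 hg)).1
    linarith
  have h1 := Dat.labX_le h (by linarith) hn10 he he1 (δ := 1 / 100) (by norm_num) (by norm_num)
    hs hx
  obtain ⟨p1, p2⟩ := Dat.phi_pL h (by linarith) hx
  have hp0 : 0 < D.pL x := by linarith
  refine h1.trans ?_
  have h3 : 1 / (D.pL x * (1 - 1 / 100)) *
      (6 / 10 * PGrK.phi ((x : ℝ) / D.n) + 2 * (600 * κ + 300 * ((D.q : ℝ) ^ 2 / D.n))) ≤
      65 / 100 := by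
    rw [one_div_mul_eq_div, div_le_iff₀ (by positivity)]
    have h4 : PGrK.phi ((x : ℝ) / D.n) ≤ 1 := by
      unfold PGrK.phi
      split_ifs <;> norm_num
    push_cast at s4
    nlinarith
  linarith

end Pool.Agent.PGr
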