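import Mathlib
import Pool.Agent.PGr.E2

/-!
# PGr, module E3a: the five positions of a label with a given difference
-/

noncomputable section

namespace Pool.Agent.PGr

open Finset

namespace Dat

variable {D : Dat} {κ c : ℝ}

/-- position of the label in the role of the anchor -/
def xa (b : Bool) (a d : ℤ) : ℤ := if b then a - d else a + d

open Classical in
/-- expected value of a label -/
def F3e (D : Dat) (e : ℝ) (b : Bool) (a y1 y2 x : ℤ) : ℝ :=
  if x ∈ D.Ze ∧ D.cond a y1 y2 x then D.val e b a y1 y2 x / D.sig e b a y1 y2 else 0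

theorem gen_hi (h : D.Reg κ c) {a y1 y2 : ℤ} (hg : D.gen3 true a y1 y2) : 5 * (D.n : ℤ) ≤ 2 * a := by
  have hn : (0 : ℝ) < D.n := by exact_mod_cast h.n_pos
  have h1 := hg.1
  unfold nX at h1
  rw [if_pos rfl, le_div_iff₀ hn] at h1
  have : 5 * (D.n : ℝ) ≤ 2 * (a : ℝ) := by linarith
  exact_mod_cast this

theorem gen_lo (h : D.Reg κ c) {a y1 y2 : ℤ} (hg : D.gen3 false a y1 y2) : 2 * a ≤ (D.n : ℤ) := by
  have hn : (0 : ℝ) < D.n := by exact_mod_cast h.n_pos
  have h1 := hg.1
  unfold nX at h1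
  simp only [Bool.false_eq_true, if_false] at h1
  have h2 : (a : ℝ) / D.n ≤ 1 / 2 := by linarith
  rw [div_le_iff₀ hn] at h2
  have : 2 * (a : ℝ) ≤ (D.n : ℝ) := by linarith
  exact_mod_cast this

open Classical in
theorem sum_role (s : Finset ℤ) (P : ℤ → Prop) (g : ℤ → ℝ) (z : ℤ) {d : ℤ} (hd : 1 ≤ d) :
    (∑ x ∈ s, if P x ∧ |x - z| = d then g x else 0) =
      (if z + d ∈ s ∧ P (z + d) then g (z + d) else 0) +
      (if z - d ∈ s ∧ P (z - d) then g (z - d) else 0) := by
  have key : ∀ x, (if P x ∧ |x - z| = d then g x else 0) =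
      (if x = z + d then (if P x then g x else 0) else 0) +
      (if x = z - d then (if P x then g x else 0) else 0) := by
    intro x
    by_cases hp : P x
    · by_cases h1 : x = z + d
      · have h2 : ¬ x = z - d := by omega
        have h3 : |x - z| = d := by rw [h1, add_sub_cancel_left]; exact abs_of_pos (by omega)
        rw [if_pos ⟨hp, h3⟩, if_pos h1, if_pos hp, if_neg h2, add_zero]
      · by_cases h2 : x = z - d
        · have h3 : |x - z| = d := by
            rw [h2, show z - d - z = -d by ring, abs_neg]; exact abs_of_pos (by omega)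
          rw [if_pos ⟨hp, h3⟩, if_neg h1, if_pos h2, if_pos hp, zero_add]
        · have h3 : ¬ |x - z| = d := by
            intro h3
            rcases abs_choice (x - z) with h4 | h4
            · rw [h4] at h3; exact h1 (by omega)
            · rw [h4] at h3; exact h2 (by omega)
          rw [if_neg (fun hh => h3 hh.2), if_neg h1, if_neg h2, add_zero]
    · rw [if_neg (fun hh => hp hh.1), if_neg hp]
      simp
  rw [Finset.sum_congr rfl (fun x _ => key x), Finset.sum_add_distrib, Finset.sum_ite_eq',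
    Finset.sum_ite_eq']
  simp only [ite_and]

theorem uns_dist {a y1 y2 x : ℤ} (hN : (D.uns a y1 y2 x).Nodup) :
    |x - a| ≠ |x - y1| ∧ |x - a| ≠ |x - y2| ∧ |x - y1| ≠ |x - y2| ∧ x ≠ y1 ∧ x ≠ y2 := by
  unfold uns at hN
  simp only [List.nodup_cons, List.mem_cons, List.not_mem_nil, or_false, not_or] at hN
  obtain ⟨⟨_, g1, _⟩, ⟨g2, _⟩, _, ⟨g3, g4⟩, g5, _⟩ := hN
  refine ⟨fun hh => g3 (by rw [hh]), fun hh => g4 (by rw [hh]), fun hh => g5 (by rw [hh]),
    fun hh => g1 (by rw [hh]), fun hh => g2 (by rw [hh])⟩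

open Classical in
/-- the labels with the difference `d` are at five positions -/
theorem role_sum (h : D.Reg κ c) {e : ℝ} {b : Bool} {a y1 y2 d : ℤ} (hd : 1 ≤ d)
    (hg : D.gen3 b a y1 y2) :
    (∑ x ∈ D.Ze, if D.cond a y1 y2 x ∧ hasD a y1 y2 x d then
      D.val e b a y1 y2 x / D.sig e b a y1 y2 else 0) =
    D.F3e e b a y1 y2 (xa b a d) + (D.F3e e b a y1 y2 (y1 + d) + D.F3e e b a y1 y2 (y1 - d)) +
      (D.F3e e b a y1 y2 (y2 + d) + D.F3e e b a y1 y2 (y2 - d)) := by
  obtain ⟨g, hg'⟩ : ∃ g : ℤ → ℝ, g = fun x => D.val e b a y1 y2 x / D.sig e b a y1 y2 :=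
    ⟨_, rfl⟩
  have hgx : ∀ x, D.val e b a y1 y2 x / D.sig e b a y1 y2 = g x := fun x => by rw [hg']
  have key : ∀ x, (if D.cond a y1 y2 x ∧ hasD a y1 y2 x d then
      D.val e b a y1 y2 x / D.sig e b a y1 y2 else 0) =
      (if D.cond a y1 y2 x ∧ |x - a| = d then g x else 0) +
      (if D.cond a y1 y2 x ∧ |x - y1| = d then g x else 0) +
      (if D.cond a y1 y2 x ∧ |x - y2| = d then g x else 0) := by
    intro x
    rw [hgx]
    by_cases hc : D.cond a y1 y2 x
    · obtain ⟨n1, n2, n3, _, _⟩ := uns_dist hc.2.2.2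
      by_cases h1 : |x - a| = d
      · rw [if_pos ⟨hc, Or.inl h1⟩, if_pos ⟨hc, h1⟩, if_neg (fun hh => n1 (h1.trans hh.2.symm)),
          if_neg (fun hh => n2 (h1.trans hh.2.symm))]
        ring
      · by_cases h2 : |x - y1| = d
        · rw [if_pos ⟨hc, Or.inr (Or.inl h2)⟩, if_neg (fun hh => h1 hh.2), if_pos ⟨hc, h2⟩,
            if_neg (fun hh => n3 (h2.trans hh.2.symm))]
          ring
        · by_cases h3 : |x - y2| = d
          · rw [if_pos ⟨hc, Or.inr (Or.inr h3)⟩, if_neg (fun hh => h1 hh.2),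
              if_neg (fun hh => h2 hh.2), if_pos ⟨hc, h3⟩]
            ring
          · rw [if_neg, if_neg (fun hh => h1 hh.2), if_neg (fun hh => h2 hh.2),
              if_neg (fun hh => h3 hh.2)]
            · ring
            · rintro ⟨_, h4 | h4 | h4⟩
              · exact h1 h4
              · exact h2 h4
              · exact h3 h4
    · rw [if_neg (fun hh => hc hh.1), if_neg (fun hh => hc hh.1), if_neg (fun hh => hc hh.1),
        if_neg (fun hh => hc hh.1)]
      ring
  rw [Finset.sum_congr rfl (fun x _ => key x), Finset.sum_add_distrib, Finset.sum_add_distrib,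
    sum_role D.Ze _ g a hd, sum_role D.Ze _ g y1 hd, sum_role D.Ze _ g y2 hd]
  have hF : ∀ x, (if x ∈ D.Ze ∧ D.cond a y1 y2 x then g x else 0) = D.F3e e b a y1 y2 x := by
    intro x
    unfold F3e
    rw [hgx]
  simp only [hF]
  have hA : D.F3e e b a y1 y2 (a + d) + D.F3e e b a y1 y2 (a - d) = D.F3e e b a y1 y2 (xa b a d) := by
    cases b
    · have h1 := gen_lo h hg
      have h2 : D.F3e e false a y1 y2 (a - d) = 0 := by
        unfold F3e
        rw [if_neg]
        rintro ⟨hx, _⟩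
        have := (Ze_prop h hx).1
        omega
      rw [h2, add_zero]
      rfl
    · have h1 := gen_hi h hg
      have h2 : D.F3e e true a y1 y2 (a + d) = 0 := by
        unfold F3e
        rw [if_neg]
        rintro ⟨hx, _⟩
        have := (Ze_prop h hx).2.1
        omega
      rw [h2, zero_add]
      rfl
  rw [hA]

/-- the kernels at the five positions -/
theorem ker_roles (h : D.Reg κ c) (b : Bool) (a y1 y2 d : ℤ) :
    D.kerI b a y1 y2 (xa b a d) + (D.kerI b a y1 y2 (y1 + d) + D.kerI b a y1 y2 (y1 - d)) +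
      (D.kerI b a y1 y2 (y2 + d) + D.kerI b a y1 y2 (y2 - d)) =
    PGrK.roles (nrm D.n b a) (nrm D.n b y1) (nrm D.n b y2) ((d : ℝ) / D.n) := by
  have hn : (D.n : ℝ) ≠ 0 := by
    have := h.n_pos
    positivity
  simp only [kerI_kern]
  unfold PGrK.roles
  cases b
  · have e1 : ∀ z : ℤ, nrm D.n false (z + d) = nrm D.n false z - (d : ℝ) / D.n := by
      intro z
      unfold nrm
      simp only [Bool.false_eq_true, if_false]
      push_cast
      ring
    have e2 : ∀ z : ℤ, nrm D.n false (z - d) = nrm D.n false z + (d : ℝ) / D.n := by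
      intro z
      unfold nrm
      simp only [Bool.false_eq_true, if_false]
      push_cast
      ring
    have e3 : xa false a d = a + d := rfl
    rw [e3, e1, e1, e1, e2, e2]
    ring
  · have e1 : ∀ z : ℤ, nrm D.n true (z + d) = nrm D.n true z + (d : ℝ) / D.n := by
      intro z
      unfold nrm
      simp only [if_true]
      push_cast
      ring
    have e2 : ∀ z : ℤ, nrm D.n true (z - d) = nrm D.n true z - (d : ℝ) / D.n := by
      intro z
      unfold nrm
      simp only [if_true]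
      push_cast
      ring
    have e3 : xa true a d = a - d := rfl
    rw [e3, e1, e1, e2, e2, e2]

/-- the label `x` has the difference `d`, the other two differences have no reserved unit -/
def role3 (D : Dat) (a y1 y2 x d : ℤ) : Prop :=
  (|x - a| = d ∧ unD D.q |x - y1| ∉ D.Res ∧ unD D.q |x - y2| ∉ D.Res) ∨
  (|x - y1| = d ∧ unD D.q |x - a| ∉ D.Res ∧ unD D.q |x - y2| ∉ D.Res) ∨
  (|x - y2| = d ∧ unD D.q |x - a| ∉ D.Res ∧ unD D.q |x - y1| ∉ D.Res)

theorem rho3_le {e : ℝ} (he : 0 ≤ e) {a y1 y2 x d : ℤ} (hr : D.role3 a y1 y2 x d) :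
    D.rho e |x - a| * D.rho e |x - y1| * D.rho e |x - y2| ≤ D.rho e d := by
  have b1 := rho_nonneg (D := D) he |x - a|
  have b2 := rho_nonneg (D := D) he |x - y1|
  have b3 := rho_nonneg (D := D) he |x - y2|
  have b4 := rho_nonneg (D := D) he d
  rcases hr with ⟨g, r1, r2⟩ | ⟨g, r1, r2⟩ | ⟨g, r1, r2⟩
  · rw [g]
    have a1 := rho_le_one (D := D) he r1
    have a2 := rho_le_one (D := D) he r2
    calc D.rho e d * D.rho e |x - y1| * D.rho e |x - y2|
        ≤ D.rho e d * 1 * 1 := by gcongr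
      _ = D.rho e d := by ring
  · rw [g]
    have a1 := rho_le_one (D := D) he r1
    have a2 := rho_le_one (D := D) he r2
    calc D.rho e |x - a| * D.rho e d * D.rho e |x - y2|
        ≤ 1 * D.rho e d * 1 := by gcongr
      _ = D.rho e d := by ring
  · rw [g]
    have a1 := rho_le_one (D := D) he r1
    have a2 := rho_le_one (D := D) he r2
    calc D.rho e |x - a| * D.rho e |x - y1| * D.rho e d
        ≤ 1 * 1 * D.rho e d := by gcongr
      _ = D.rho e d := by ring

theorem rho_ge (h : D.Reg κ c) (hκ : κ ≤ 1 / 4) {e : ℝ} (he : 0 ≤ e) {d : ℤ} (hd1 : 1 ≤ d)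
    (hR : unD D.q d ∉ D.Res) : 1 / (1 + e) ≤ D.rho e d := by
  have h1 := pD_ge h hκ hR hd1
  have h2 : 0 < D.pD d := by linarith
  unfold rho psD
  rw [if_neg hR]
  by_cases hD : d ∈ D.Ddef
  · rw [if_pos hD, div_le_div_iff₀ (by linarith) (by positivity)]
    linarith
  · rw [if_neg hD, one_mul, div_self h2.ne', div_le_one (by linarith)]
    linarith

theorem rho3_ge (h : D.Reg κ c) (hκ : κ ≤ 1 / 4) {e : ℝ} (he : 0 ≤ e) {a y1 y2 x d : ℤ}
    (hr : D.role3 a y1 y2 x d) (c1 : 1 ≤ |x - a|) (c2 : 1 ≤ |x - y1|) (c3 : 1 ≤ |x - y2|) :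
    D.rho e d / (1 + e) ^ 2 ≤ D.rho e |x - a| * D.rho e |x - y1| * D.rho e |x - y2| := by
  have b1 := rho_nonneg (D := D) he |x - a|
  have b2 := rho_nonneg (D := D) he |x - y1|
  have b3 := rho_nonneg (D := D) he |x - y2|
  have b4 := rho_nonneg (D := D) he d
  have hi : 0 ≤ 1 / (1 + e) := by positivity
  rcases hr with ⟨g, r1, r2⟩ | ⟨g, r1, r2⟩ | ⟨g, r1, r2⟩
  · have a1 := rho_ge h hκ he c2 r1
    have a2 := rho_ge h hκ he c3 r2
    rw [g]
    calc D.rho e d / (1 + e) ^ 2 = D.rho e d * (1 / (1 + e)) * (1 / (1 + e)) := by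
          field_simp
      _ ≤ D.rho e d * D.rho e |x - y1| * D.rho e |x - y2| := by
          apply mul_le_mul _ a2 hi (by positivity)
          gcongr
  · have a1 := rho_ge h hκ he c1 r1
    have a2 := rho_ge h hκ he c3 r2
    rw [g]
    calc D.rho e d / (1 + e) ^ 2 = (1 / (1 + e)) * D.rho e d * (1 / (1 + e)) := by
          field_simp
      _ ≤ D.rho e |x - a| * D.rho e d * D.rho e |x - y2| := by
          apply mul_le_mul _ a2 hi (by positivity)
          gcongr
  · have a1 := rho_ge h hκ he c1 r1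
    have a2 := rho_ge h hκ he c2 r2
    rw [g]
    calc D.rho e d / (1 + e) ^ 2 = (1 / (1 + e)) * (1 / (1 + e)) * D.rho e d := by
          field_simp
      _ ≤ D.rho e |x - a| * D.rho e |x - y1| * D.rho e d := by
          apply mul_le_mul_of_nonneg_right _ b4
          exact mul_le_mul a1 a2 hi b1

/-- upper bound at a position -/
theorem FF_up (h : D.Reg κ c) {e : ℝ} (he : 0 ≤ e) {δ : ℝ} (hδ : δ < 1) {b : Bool}
    {a y1 y2 x d : ℤ} (hs : 1 - δ ≤ D.sig e b a y1 y2) (hr : D.role3 a y1 y2 x d) :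
    D.F3e e b a y1 y2 x ≤ D.rho e d / (D.n * (1 - δ)) * D.kerI b a y1 y2 x := by
  have hn : (0 : ℝ) < D.n := by exact_mod_cast h.n_pos
  have hk := (kerI_bd' (D := D) b a y1 y2 x).1
  have b4 := rho_nonneg (D := D) he d
  have hδ' : 0 < 1 - δ := by linarith
  unfold F3e
  by_cases hc : x ∈ D.Ze ∧ D.cond a y1 y2 x
  · rw [if_pos hc]
    have h1 : D.val e b a y1 y2 x ≤ D.rho e d * D.kerI b a y1 y2 x / D.n := by
      unfold val
      apply div_le_div_of_nonneg_right _ hn.le
      calc D.kerI b a y1 y2 x * (D.rho e |x - a| * D.rho e |x - y1| * D.rho e |x - y2|)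
          ≤ D.kerI b a y1 y2 x * D.rho e d := mul_le_mul_of_nonneg_left (rho3_le he hr) hk
        _ = _ := mul_comm _ _
    calc D.val e b a y1 y2 x / D.sig e b a y1 y2
        ≤ (D.rho e d * D.kerI b a y1 y2 x / D.n) / (1 - δ) := by
          apply div_le_div₀ (by positivity) h1 hδ' hs
      _ = _ := by field_simp
  · rw [if_neg hc]
    positivity

open Classical in
/-- multiples of `n/4` in the closed range -/
def quart (D : Dat) (x : ℤ) : ℝ :=
  if (D.n : ℤ) ∣ 4 * x ∧ (D.n : ℤ) ≤ 2 * x ∧ 2 * x ≤ 5 * D.n then 1 else 0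

theorem quart_nonneg (x : ℤ) : 0 ≤ D.quart x := by
  unfold quart
  split_ifs <;> norm_num

theorem FF_nonneg (h : D.Reg κ c) {e : ℝ} (he : 0 ≤ e) {b : Bool}
    {a y1 y2 x : ℤ} (hs : 0 ≤ D.sig e b a y1 y2) : 0 ≤ D.F3e e b a y1 y2 x := by
  have hn : (0 : ℝ) < D.n := by exact_mod_cast h.n_pos
  have hk := (kerI_bd' (D := D) b a y1 y2 x).1
  have b1 := rho_nonneg (D := D) he |x - a|
  have b2 := rho_nonneg (D := D) he |x - y1|
  have b3 := rho_nonneg (D := D) he |x - y2|
  unfold F3e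
  split_ifs
  · apply div_nonneg _ hs
    unfold val
    positivity
  · exact le_rfl

/-- lower bound at a position -/
theorem FF_low (h : D.Reg κ c) (hκ : κ ≤ 1 / 4) {e : ℝ} (he : 0 ≤ e) {δ : ℝ} (hδ : 0 ≤ δ)
    {b : Bool} {a y1 y2 x d : ℤ} (hg : D.gen3 b a y1 y2) (hs : D.sig e b a y1 y2 ≤ 1 + δ)
    (hs0 : 0 < D.sig e b a y1 y2) (hd : d ∈ D.D0) (hr : D.role3 a y1 y2 x d)
    (hL : unL D.q x ∉ D.Res) (hN : x ∈ Zr D.n → (D.uns a y1 y2 x).Nodup) :
    D.rho e d / (D.n * ((1 + e) ^ 2 * (1 + δ))) * D.kerI b a y1 y2 x -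
      8 * D.rho e d / D.n * D.quart x ≤ D.F3e e b a y1 y2 x := by
  have hn : (0 : ℝ) < D.n := by exact_mod_cast h.n_pos
  have hk := kerI_bd' (D := D) b a y1 y2 x
  have b4 := rho_nonneg (D := D) he d
  have hF := FF_nonneg h he (x := x) hs0.le
  have hq := quart_nonneg (D := D) x
  have hzero : D.kerI b a y1 y2 x = 0 → D.rho e d / (D.n * ((1 + e) ^ 2 * (1 + δ))) *
      D.kerI b a y1 y2 x - 8 * D.rho e d / D.n * D.quart x ≤ D.F3e e b a y1 y2 x := by
    intro h0
    rw [h0, mul_zero]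
    have : 0 ≤ 8 * D.rho e d / D.n * D.quart x := by positivity
    linarith
  by_cases ho : (D.n : ℤ) ≤ 2 * x ∧ 2 * x ≤ 5 * D.n
  swap
  · apply hzero
    rw [kerI_kern]
    apply PGrK.kern_outside
    unfold nrm
    rcases not_and_or.1 ho with ho | ho
    · have h1 : 2 * (x : ℝ) < D.n := by
        have : 2 * x < (D.n : ℤ) := by omega
        exact_mod_cast this
      cases b
      · right
        simp only [Bool.false_eq_true, if_false]
        have : (x : ℝ) / D.n ≤ 1 / 2 := by rw [div_le_iff₀ hn]; linarith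
        linarith
      · left
        simp only [if_true]
        rw [div_lt_iff₀ hn]; linarith
    · have h1 : 5 * (D.n : ℝ) < 2 * (x : ℝ) := by
        have : 5 * (D.n : ℤ) < 2 * x := by omega
        exact_mod_cast this
      cases b
      · left
        simp only [Bool.false_eq_true, if_false]
        have : 5 / 2 < (x : ℝ) / D.n := by rw [lt_div_iff₀ hn]; linarith
        linarith
      · right
        simp only [if_true]
        rw [le_div_iff₀ hn]; linarith
  by_cases hq4 : (D.n : ℤ) ∣ 4 * x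
  · have e1 : D.quart x = 1 := by
      unfold quart
      rw [if_pos ⟨hq4, ho⟩]
    rw [e1, mul_one]
    have h1 : D.rho e d / (D.n * ((1 + e) ^ 2 * (1 + δ))) * D.kerI b a y1 y2 x ≤
        8 * D.rho e d / D.n := by
      have h2 : D.rho e d / (D.n * ((1 + e) ^ 2 * (1 + δ))) ≤ D.rho e d / D.n := by
        apply div_le_div_of_nonneg_left b4 hn
        have : 1 ≤ (1 + e) ^ 2 * (1 + δ) := by
          have h3 : 1 ≤ (1 + e) ^ 2 := one_le_pow₀ (by linarith)
          nlinarith
        nlinarith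
      calc D.rho e d / (D.n * ((1 + e) ^ 2 * (1 + δ))) * D.kerI b a y1 y2 x
          ≤ D.rho e d / D.n * 8 :=
            mul_le_mul h2 (by linarith [hk.2]) hk.1 (by positivity)
        _ = _ := by ring
    linarith
  have hZ : x ∈ Zr D.n := by
    rw [mem_Zr]
    constructor
    · rcases lt_or_eq_of_le ho.1 with h1 | h1
      · exact h1
      · exfalso
        exact hq4 ⟨2, by omega⟩
    · rcases lt_or_eq_of_le ho.2 with h1 | h1
      · exact h1
      · exfalso
        exact hq4 ⟨10, by omega⟩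
  by_cases hf : 2 * (D.n : ℤ) < |x - a|
  · exact hzero (kerI_far h hg.1 hZ hf)
  have hnd := hN hZ
  obtain ⟨_, _, _, n4, n5⟩ := uns_dist hnd
  have hZ' := mem_Zr.1 hZ
  have n6 : x ≠ a := by
    intro hh
    cases b
    · have := gen_lo h hg; omega
    · have := gen_hi h hg; omega
  have c1 : 1 ≤ |x - a| := Int.one_le_abs (sub_ne_zero.2 n6)
  have c2 : 1 ≤ |x - y1| := Int.one_le_abs (sub_ne_zero.2 n4)
  have c3 : 1 ≤ |x - y2| := Int.one_le_abs (sub_ne_zero.2 n5)
  have hx1 : (D.n : ℝ) < 2 * (x : ℝ) := by exact_mod_cast hZ'.1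
  have hx2 : 2 * (x : ℝ) < 5 * (D.n : ℝ) := by exact_mod_cast hZ'.2
  obtain ⟨_, _, gy1, gy1', gy2, gy2', _⟩ := id hg
  have d2 : |x - y1| ≤ 2 * (D.n : ℤ) := by
    have : |(x : ℝ) - y1| ≤ 2 * (D.n : ℝ) := by
      rw [abs_le]; constructor <;> linarith
    exact_mod_cast this
  have d3 : |x - y2| ≤ 2 * (D.n : ℤ) := by
    have : |(x : ℝ) - y2| ≤ 2 * (D.n : ℝ) := by
      rw [abs_le]; constructor <;> linarith
    exact_mod_cast this
  have hZe : x ∈ D.Ze := by
    unfold Ze
    rw [Finset.mem_filter, h.Z0_def]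
    exact ⟨⟨hZ'.1, hZ'.2, hL⟩, hq4⟩
  have hcond : D.cond a y1 y2 x := by
    refine ⟨?_, ?_, ?_, hnd⟩
    · rcases hr with ⟨g, r1, r2⟩ | ⟨g, r1, r2⟩ | ⟨g, r1, r2⟩
      · rw [g]; exact hd
      · exact h.D0_mem _ c1 (not_lt.1 hf) r1
      · exact h.D0_mem _ c1 (not_lt.1 hf) r1
    · rcases hr with ⟨g, r1, r2⟩ | ⟨g, r1, r2⟩ | ⟨g, r1, r2⟩
      · exact h.D0_mem _ c2 d2 r1
      · rw [g]; exact hd
      · exact h.D0_mem _ c2 d2 r2
    · rcases hr with ⟨g, r1, r2⟩ | ⟨g, r1, r2⟩ | ⟨g, r1, r2⟩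
      · exact h.D0_mem _ c3 d3 r2
      · exact h.D0_mem _ c3 d3 r2
      · rw [g]; exact hd
  have e0 : D.F3e e b a y1 y2 x = D.val e b a y1 y2 x / D.sig e b a y1 y2 := by
    unfold F3e
    rw [if_pos ⟨hZe, hcond⟩]
  rw [e0]
  have h3 := rho3_ge h hκ he hr c1 c2 c3
  have h4 : D.rho e d / (1 + e) ^ 2 * D.kerI b a y1 y2 x / D.n ≤ D.val e b a y1 y2 x := by
    unfold val
    apply div_le_div_of_nonneg_right _ hn.le
    rw [mul_comm]
    exact mul_le_mul_of_nonneg_left h3 hk.1
  have h5 : D.rho e d / (D.n * ((1 + e) ^ 2 * (1 + δ))) * D.kerI b a y1 y2 x ≤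
      D.val e b a y1 y2 x / D.sig e b a y1 y2 := by
    calc D.rho e d / (D.n * ((1 + e) ^ 2 * (1 + δ))) * D.kerI b a y1 y2 x
        = (D.rho e d / (1 + e) ^ 2 * D.kerI b a y1 y2 x / D.n) / (1 + δ) := by field_simp
      _ ≤ D.val e b a y1 y2 x / D.sig e b a y1 y2 := by
          have hk1 := hk.1
          apply div_le_div₀ (le_trans (by positivity) h4) h4 hs0 hs
  have : 0 ≤ 8 * D.rho e d / D.n * D.quart x := by positivity
  linarith

end Dat

end Pool.Agent.PGr
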