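import Mathlib
import Pool.Agent.PGr.E3a

/-!
# PGr, module E3b: the expected degree contributions of pure items
-/

noncomputable section

namespace Pool.Agent.PGr

open Finset

namespace Dat

variable {D : Dat} {κ c : ℝ}

/-- the combinations which must not be reserved for the difference `d` -/
def Ld (D : Dat) (d : ℤ) : List (Fin 10 × ZMod (D.q ^ 2) × ZMod (D.q ^ 2)) :=
  ([0, 1, 2, 5, 6, 7] : List (Fin 10)).product
    (([1, -1] : List (ZMod (D.q ^ 2))).product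
      [((d : ℤ) : ZMod (D.q ^ 2)), -((d : ℤ) : ZMod (D.q ^ 2))])

theorem Ld_length (d : ℤ) : (D.Ld d).length = 24 := by
  rfl

theorem Ld_pm (d : ℤ) : ∀ p ∈ D.Ld d, pm p.2.1 := by
  rintro ⟨j, e, w⟩ hp
  unfold Ld at hp
  rw [List.pair_mem_product, List.pair_mem_product] at hp
  have := hp.2.1
  simp only [List.mem_cons, List.not_mem_nil, or_false] at this
  exact this

theorem mem_Ld {d : ℤ} {j : Fin 10} {e w : ZMod (D.q ^ 2)}
    (hj : j ∈ ([0, 1, 2, 5, 6, 7] : List (Fin 10))) (he : pm e)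
    (hw : w = ((d : ℤ) : ZMod (D.q ^ 2)) ∨ w = -((d : ℤ) : ZMod (D.q ^ 2))) :
    (j, e, w) ∈ D.Ld d := by
  unfold Ld
  rw [List.pair_mem_product, List.pair_mem_product]
  refine ⟨hj, ?_, ?_⟩
  · simp only [List.mem_cons, List.not_mem_nil, or_false]
    exact he
  · simp only [List.mem_cons, List.not_mem_nil, or_false]
    exact hw

theorem unL_good {m : ℕ} (hm : m ∈ D.It) (hp : D.pure m) {d : ℤ} (hb : m ∉ D.badL (D.Ld d))
    {j : Fin 10} (hj : j ∈ ([0, 1, 2, 5, 6, 7] : List (Fin 10))) {e w : ZMod (D.q ^ 2)}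
    (he : pm e) (hw : w = ((d : ℤ) : ZMod (D.q ^ 2)) ∨ w = -((d : ℤ) : ZMod (D.q ^ 2))) {x : ℤ}
    (hx : ((x : ℤ) : ZMod (D.q ^ 2)) = e * D.cmb j m + w) : unL D.q x ∉ D.Res := by
  unfold unL
  rw [hx]
  exact (not_badL hm hp hb (mem_Ld hj he hw)).1

theorem unD_good {m : ℕ} (hm : m ∈ D.It) (hp : D.pure m) {d : ℤ} (hb : m ∉ D.badL (D.Ld d))
    {j : Fin 10} (hj : j ∈ ([0, 1, 2, 5, 6, 7] : List (Fin 10))) {e w : ZMod (D.q ^ 2)}
    (he : pm e) (hw : w = ((d : ℤ) : ZMod (D.q ^ 2)) ∨ w = -((d : ℤ) : ZMod (D.q ^ 2)))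
    {x z : ℤ}
    (hx : ((x : ℤ) : ZMod (D.q ^ 2)) - ((z : ℤ) : ZMod (D.q ^ 2)) = e * D.cmb j m + w) :
    unD D.q |x - z| ∉ D.Res := by
  unfold unD
  rcases abs_choice (x - z) with hc | hc
  · rw [hc]
    push_cast
    rw [hx]
    exact (not_badL hm hp hb (mem_Ld hj he hw)).2
  · rw [hc]
    have e1 : ((-(x - z) : ℤ) : ZMod (D.q ^ 2)) = -e * D.cmb j m + -w := by
      push_cast
      rw [hx]
      ring
    rw [e1]
    refine (not_badL hm hp hb (mem_Ld hj ?_ ?_)).2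
    · rcases he with he | he
      · right; rw [he]
      · left; rw [he, neg_neg]
    · rcases hw with hw | hw
      · right; rw [hw]
      · left; rw [hw, neg_neg]

theorem abs_pm (D : Dat) (z : ℤ) : ∃ e : ZMod (D.q ^ 2), pm e ∧
    ((|z| : ℤ) : ZMod (D.q ^ 2)) = e * ((z : ℤ) : ZMod (D.q ^ 2)) := by
  rcases abs_choice z with hc | hc
  · exact ⟨1, Or.inl rfl, by rw [hc, one_mul]⟩
  · exact ⟨-1, Or.inr rfl, by rw [hc]; push_cast; ring⟩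

theorem abs_sg (h : D.Reg κ c) {b : Bool} {a y1 y2 x : ℤ} (hg : D.gen3 b a y1 y2)
    (hx : x ∈ Zr D.n) : ((|x - a| : ℤ) : ZMod (D.q ^ 2)) =
      sg b (((x : ℤ) : ZMod (D.q ^ 2)) - ((a : ℤ) : ZMod (D.q ^ 2))) := by
  rw [mem_Zr] at hx
  cases b
  · have h1 := gen_lo h hg
    rw [abs_of_pos (by omega)]
    unfold sg
    simp only [Bool.false_eq_true, if_false]
    push_cast
    ring
  · have h1 := gen_hi h hg
    rw [abs_of_neg (by omega)]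
    unfold sg
    simp only [if_true]
    push_cast
    ring

theorem xa_cls (D : Dat) (b : Bool) (a d : ℤ) : ((xa b a d : ℤ) : ZMod (D.q ^ 2)) =
    ((a : ℤ) : ZMod (D.q ^ 2)) + sg b ((d : ℤ) : ZMod (D.q ^ 2)) := by
  unfold xa sg
  cases b
  · simp only [Bool.false_eq_true, if_false]
    push_cast
    ring
  · simp only [if_true]
    push_cast
    ring

theorem sg_cases (D : Dat) (b : Bool) (d : ℤ) : sg b ((d : ℤ) : ZMod (D.q ^ 2)) =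
    ((d : ℤ) : ZMod (D.q ^ 2)) ∨ sg b ((d : ℤ) : ZMod (D.q ^ 2)) = -((d : ℤ) : ZMod (D.q ^ 2)) := by
  unfold sg
  cases b
  · left; simp
  · right; simp

/-- good position -/
def posG (D : Dat) (m : ℕ) (y1 y2 x d : ℤ) : Prop :=
  D.role3 (D.anc m) y1 y2 x d ∧ unL D.q x ∉ D.Res ∧
    (noQ D.q (D.hi m) ((D.anc m : ℤ) : ZMod (D.q ^ 2)) (D.cls (D.nb1 m)) (D.cls (D.nb2 m))
        ((d : ℤ) : ZMod (D.q ^ 2)) → x ∈ Zr D.n → (D.uns (D.anc m) y1 y2 x).Nodup)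

theorem pos_a (_h : D.Reg κ c) {m : ℕ} (hm : m ∈ D.It) (hp : D.pure m) {d : ℤ} (hd : 1 ≤ d)
    (hb : m ∉ D.badL (D.Ld d)) {y1 y2 : ℤ}
    (h1 : ((y1 : ℤ) : ZMod (D.q ^ 2)) = D.cls (D.nb1 m))
    (h2 : ((y2 : ℤ) : ZMod (D.q ^ 2)) = D.cls (D.nb2 m)) :
    D.posG m y1 y2 (xa (D.hi m) (D.anc m) d) d := by
  have hx := xa_cls D (D.hi m) (D.anc m) d
  have hs := sg_cases D (D.hi m) d
  have hab : |xa (D.hi m) (D.anc m) d - D.anc m| = d := by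
    unfold xa
    cases D.hi m
    · simp only [Bool.false_eq_true, if_false]
      rw [add_sub_cancel_left]
      exact abs_of_pos (by omega)
    · simp only [if_true]
      rw [show D.anc m - d - D.anc m = -d by ring, abs_neg]
      exact abs_of_pos (by omega)
  refine ⟨Or.inl ⟨hab, ?_, ?_⟩, ?_, ?_⟩
  · apply unD_good hm hp hb (j := 5) (by simp) (e := 1) (Or.inl rfl) hs
    rw [hx, h1]
    show _ = 1 * (((D.anc m : ℤ) : ZMod (D.q ^ 2)) - D.cls (D.nb1 m)) + _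
    ring
  · apply unD_good hm hp hb (j := 6) (by simp) (e := 1) (Or.inl rfl) hs
    rw [hx, h2]
    show _ = 1 * (((D.anc m : ℤ) : ZMod (D.q ^ 2)) - D.cls (D.nb2 m)) + _
    ring
  · apply unL_good hm hp hb (j := 0) (by simp) (e := 1) (Or.inl rfl) hs
    rw [hx]
    show _ = 1 * ((D.anc m : ℤ) : ZMod (D.q ^ 2)) + _
    ring
  · intro hq _
    obtain ⟨e1, he1, g1⟩ := abs_pm D (xa (D.hi m) (D.anc m) d - y1)
    obtain ⟨e2, he2, g2⟩ := abs_pm D (xa (D.hi m) (D.anc m) d - y2)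
    have := hq.1 e1 e2 he1 he2
    unfold uns unL unD
    rw [hab, g1, g2]
    push_cast
    rw [hx, h1, h2]
    exact this

theorem pos_1 (h : D.Reg κ c) {m : ℕ} (hm : m ∈ D.It) (hp : D.pure m) {d : ℤ} (hd : 1 ≤ d)
    (hb : m ∉ D.badL (D.Ld d)) {y1 y2 : ℤ}
    (h1 : ((y1 : ℤ) : ZMod (D.q ^ 2)) = D.cls (D.nb1 m))
    (h2 : ((y2 : ℤ) : ZMod (D.q ^ 2)) = D.cls (D.nb2 m))
    (hg : D.gen3 (D.hi m) (D.anc m) y1 y2) {s : ℤ} (hs : s = 1 ∨ s = -1) :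
    D.posG m y1 y2 (y1 + s * d) d := by
  have hx : ((y1 + s * d : ℤ) : ZMod (D.q ^ 2)) =
      D.cls (D.nb1 m) + ((s : ℤ) : ZMod (D.q ^ 2)) * ((d : ℤ) : ZMod (D.q ^ 2)) := by
    push_cast
    rw [h1]
  have hs' : ((s : ℤ) : ZMod (D.q ^ 2)) * ((d : ℤ) : ZMod (D.q ^ 2)) =
      ((d : ℤ) : ZMod (D.q ^ 2)) ∨ ((s : ℤ) : ZMod (D.q ^ 2)) * ((d : ℤ) : ZMod (D.q ^ 2)) =
      -((d : ℤ) : ZMod (D.q ^ 2)) := by
    rcases hs with hs | hs
    · left; rw [hs]; simp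
    · right; rw [hs]; simp
  have hpm : pm ((s : ℤ) : ZMod (D.q ^ 2)) := by
    rcases hs with hs | hs
    · left; rw [hs]; simp
    · right; rw [hs]; simp
  have hab : |y1 + s * d - y1| = d := by
    rw [add_sub_cancel_left]
    rcases hs with hs | hs
    · rw [hs, one_mul]; exact abs_of_pos (by omega)
    · rw [hs, show -1 * d = -d by ring, abs_neg]; exact abs_of_pos (by omega)
  refine ⟨Or.inr (Or.inl ⟨hab, ?_, ?_⟩), ?_, ?_⟩
  · apply unD_good hm hp hb (j := 5) (by simp) (e := -1) (Or.inr rfl) hs'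
    rw [hx]
    show _ = -1 * (((D.anc m : ℤ) : ZMod (D.q ^ 2)) - D.cls (D.nb1 m)) + _
    ring
  · apply unD_good hm hp hb (j := 7) (by simp) (e := 1) (Or.inl rfl) hs'
    rw [hx, h2]
    show _ = 1 * (D.cls (D.nb1 m) - D.cls (D.nb2 m)) + _
    ring
  · apply unL_good hm hp hb (j := 1) (by simp) (e := 1) (Or.inl rfl) hs'
    rw [hx]
    show _ = 1 * (D.cls (D.nb1 m)) + _
    ring
  · intro hq hZ
    obtain ⟨e2, he2, g2⟩ := abs_pm D (y1 + s * d - y2)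
    have g1 := abs_sg h hg hZ
    have := hq.2.1 _ e2 hpm he2
    unfold uns unL unD
    rw [hab, g1, g2, Int.cast_sub (y1 + s * d) y2, hx, h1, h2]
    refine (List.Perm.nodup_iff ?_).1 this
    exact List.Perm.cons _ (List.Perm.cons _ (List.Perm.cons _ (List.Perm.swap _ _ _)))

theorem pos_2 (h : D.Reg κ c) {m : ℕ} (hm : m ∈ D.It) (hp : D.pure m) {d : ℤ} (hd : 1 ≤ d)
    (hb : m ∉ D.badL (D.Ld d)) {y1 y2 : ℤ}
    (h1 : ((y1 : ℤ) : ZMod (D.q ^ 2)) = D.cls (D.nb1 m))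
    (h2 : ((y2 : ℤ) : ZMod (D.q ^ 2)) = D.cls (D.nb2 m))
    (hg : D.gen3 (D.hi m) (D.anc m) y1 y2) {s : ℤ} (hs : s = 1 ∨ s = -1) :
    D.posG m y1 y2 (y2 + s * d) d := by
  have hx : ((y2 + s * d : ℤ) : ZMod (D.q ^ 2)) =
      D.cls (D.nb2 m) + ((s : ℤ) : ZMod (D.q ^ 2)) * ((d : ℤ) : ZMod (D.q ^ 2)) := by
    push_cast
    rw [h2]
  have hs' : ((s : ℤ) : ZMod (D.q ^ 2)) * ((d : ℤ) : ZMod (D.q ^ 2)) =
      ((d : ℤ) : ZMod (D.q ^ 2)) ∨ ((s : ℤ) : ZMod (D.q ^ 2)) * ((d : ℤ) : ZMod (D.q ^ 2)) =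
      -((d : ℤ) : ZMod (D.q ^ 2)) := by
    rcases hs with hs | hs
    · left; rw [hs]; simp
    · right; rw [hs]; simp
  have hpm : pm ((s : ℤ) : ZMod (D.q ^ 2)) := by
    rcases hs with hs | hs
    · left; rw [hs]; simp
    · right; rw [hs]; simp
  have hab : |y2 + s * d - y2| = d := by
    rw [add_sub_cancel_left]
    rcases hs with hs | hs
    · rw [hs, one_mul]; exact abs_of_pos (by omega)
    · rw [hs, show -1 * d = -d by ring, abs_neg]; exact abs_of_pos (by omega)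
  refine ⟨Or.inr (Or.inr ⟨hab, ?_, ?_⟩), ?_, ?_⟩
  · apply unD_good hm hp hb (j := 6) (by simp) (e := -1) (Or.inr rfl) hs'
    rw [hx]
    show _ = -1 * (((D.anc m : ℤ) : ZMod (D.q ^ 2)) - D.cls (D.nb2 m)) + _
    ring
  · apply unD_good hm hp hb (j := 7) (by simp) (e := -1) (Or.inr rfl) hs'
    rw [hx, h1]
    show _ = -1 * (D.cls (D.nb1 m) - D.cls (D.nb2 m)) + _
    ring
  · apply unL_good hm hp hb (j := 2) (by simp) (e := 1) (Or.inl rfl) hs'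
    rw [hx]
    show _ = 1 * (D.cls (D.nb2 m)) + _
    ring
  · intro hq hZ
    obtain ⟨e1, he1, g2⟩ := abs_pm D (y2 + s * d - y1)
    have g1 := abs_sg h hg hZ
    have := hq.2.2 _ e1 hpm he1
    unfold uns unL unD
    rw [hab, g1, g2, Int.cast_sub (y2 + s * d) y1, hx, h1, h2]
    refine (List.Perm.nodup_iff ?_).1 this
    exact List.Perm.cons _ (List.Perm.cons _ (List.Perm.cons _
      ((List.Perm.swap _ _ _).trans (List.Perm.cons _ (List.Perm.swap _ _ _)))))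

open Classical in
/-- sum over the labels for fixed neighbour labels -/
def inner (D : Dat) (e : ℝ) (m : ℕ) (d y1 y2 : ℤ) : ℝ :=
  ∑ x ∈ D.Ze, if D.cond (D.anc m) y1 y2 x ∧ hasD (D.anc m) y1 y2 x d then
    D.val e (D.hi m) (D.anc m) y1 y2 x / D.sig e (D.hi m) (D.anc m) y1 y2 else 0

/-- roles of an item for integer data -/
def rol (D : Dat) (m : ℕ) (d y1 y2 : ℤ) : ℝ :=
  PGrK.roles ((D.A m : ℝ) / D.n) (nrm D.n (D.hi m) y1) (nrm D.n (D.hi m) y2) ((d : ℝ) / D.n)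

theorem rol_eq (h : D.Reg κ c) (m : ℕ) (d y1 y2 : ℤ) :
    D.kerI (D.hi m) (D.anc m) y1 y2 (xa (D.hi m) (D.anc m) d) +
      (D.kerI (D.hi m) (D.anc m) y1 y2 (y1 + d) + D.kerI (D.hi m) (D.anc m) y1 y2 (y1 - d)) +
      (D.kerI (D.hi m) (D.anc m) y1 y2 (y2 + d) + D.kerI (D.hi m) (D.anc m) y1 y2 (y2 - d)) =
    D.rol m d y1 y2 := by
  rw [ker_roles h, A_div h]
  rfl

theorem rol_bd (h : D.Reg κ c) (m : ℕ) (d y1 y2 : ℤ) :
    0 ≤ D.rol m d y1 y2 ∧ D.rol m d y1 y2 ≤ 39 := by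
  rw [← rol_eq h]
  have k1 := kerI_bd' (D := D) (D.hi m) (D.anc m) y1 y2 (xa (D.hi m) (D.anc m) d)
  have k2 := kerI_bd' (D := D) (D.hi m) (D.anc m) y1 y2 (y1 + d)
  have k3 := kerI_bd' (D := D) (D.hi m) (D.anc m) y1 y2 (y1 - d)
  have k4 := kerI_bd' (D := D) (D.hi m) (D.anc m) y1 y2 (y2 + d)
  have k5 := kerI_bd' (D := D) (D.hi m) (D.anc m) y1 y2 (y2 - d)
  constructor <;> linarith [k1.1, k1.2, k2.1, k2.2, k3.1, k3.2, k4.1, k4.2, k5.1, k5.2]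

/-- quarters at the five positions -/
def q5 (D : Dat) (m : ℕ) (d y1 y2 : ℤ) : ℝ :=
  D.quart (xa (D.hi m) (D.anc m) d) + (D.quart (y1 + d) + D.quart (y1 - d)) +
    (D.quart (y2 + d) + D.quart (y2 - d))

theorem inner_up (h : D.Reg κ c) {e : ℝ} (he : 0 ≤ e) {δ : ℝ} (hδ : δ < 1) {m : ℕ}
    (hm : m ∈ D.It) (hp : D.pure m) {d : ℤ} (hd : 1 ≤ d) (hb : m ∉ D.badL (D.Ld d)) {y1 y2 : ℤ}
    (h1 : ((y1 : ℤ) : ZMod (D.q ^ 2)) = D.cls (D.nb1 m))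
    (h2 : ((y2 : ℤ) : ZMod (D.q ^ 2)) = D.cls (D.nb2 m))
    (hg : D.gen3 (D.hi m) (D.anc m) y1 y2)
    (hs : 1 - δ ≤ D.sig e (D.hi m) (D.anc m) y1 y2) :
    D.inner e m d y1 y2 ≤ D.rho e d / (D.n * (1 - δ)) * D.rol m d y1 y2 := by
  unfold inner
  rw [role_sum h hd hg, ← rol_eq h]
  have p1 := (pos_a h hm hp hd hb h1 h2).1
  have p2 := (pos_1 h hm hp hd hb h1 h2 hg (s := 1) (Or.inl rfl)).1
  have p3 := (pos_1 h hm hp hd hb h1 h2 hg (s := -1) (Or.inr rfl)).1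
  have p4 := (pos_2 h hm hp hd hb h1 h2 hg (s := 1) (Or.inl rfl)).1
  have p5 := (pos_2 h hm hp hd hb h1 h2 hg (s := -1) (Or.inr rfl)).1
  rw [one_mul] at p2 p4
  rw [show y1 + -1 * d = y1 - d by ring] at p3
  rw [show y2 + -1 * d = y2 - d by ring] at p5
  have f1 := FF_up h he hδ hs p1
  have f2 := FF_up h he hδ hs p2
  have f3 := FF_up h he hδ hs p3
  have f4 := FF_up h he hδ hs p4
  have f5 := FF_up h he hδ hs p5
  linarith

theorem inner_low (h : D.Reg κ c) (hκ : κ ≤ 1 / 4) {e : ℝ} (he : 0 ≤ e) {δ : ℝ} (hδ : 0 ≤ δ)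
    {m : ℕ} (hm : m ∈ D.It) (hp : D.pure m) {d : ℤ} (hd : d ∈ D.D0) (hb : m ∉ D.badL (D.Ld d))
    (hq : noQ D.q (D.hi m) ((D.anc m : ℤ) : ZMod (D.q ^ 2)) (D.cls (D.nb1 m)) (D.cls (D.nb2 m))
        ((d : ℤ) : ZMod (D.q ^ 2))) {y1 y2 : ℤ}
    (h1 : ((y1 : ℤ) : ZMod (D.q ^ 2)) = D.cls (D.nb1 m))
    (h2 : ((y2 : ℤ) : ZMod (D.q ^ 2)) = D.cls (D.nb2 m))
    (hg : D.gen3 (D.hi m) (D.anc m) y1 y2)
    (hs : D.sig e (D.hi m) (D.anc m) y1 y2 ≤ 1 + δ)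
    (hs0 : 0 < D.sig e (D.hi m) (D.anc m) y1 y2) :
    D.rho e d / (D.n * ((1 + e) ^ 2 * (1 + δ))) * D.rol m d y1 y2 -
      8 * D.rho e d / D.n * D.q5 m d y1 y2 ≤ D.inner e m d y1 y2 := by
  have hd1 := (h.D0_sub d hd).1
  unfold inner q5
  rw [role_sum h hd1 hg, ← rol_eq h]
  have p1 := (pos_a h hm hp hd1 hb h1 h2)
  have p2 := (pos_1 h hm hp hd1 hb h1 h2 hg (s := 1) (Or.inl rfl))
  have p3 := (pos_1 h hm hp hd1 hb h1 h2 hg (s := -1) (Or.inr rfl))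
  have p4 := (pos_2 h hm hp hd1 hb h1 h2 hg (s := 1) (Or.inl rfl))
  have p5 := (pos_2 h hm hp hd1 hb h1 h2 hg (s := -1) (Or.inr rfl))
  rw [one_mul] at p2 p4
  rw [show y1 + -1 * d = y1 - d by ring] at p3
  rw [show y2 + -1 * d = y2 - d by ring] at p5
  have f1 := FF_low h hκ he hδ hg hs hs0 hd p1.1 p1.2.1 (p1.2.2 hq)
  have f2 := FF_low h hκ he hδ hg hs hs0 hd p2.1 p2.2.1 (p2.2.2 hq)
  have f3 := FF_low h hκ he hδ hg hs hs0 hd p3.1 p3.2.1 (p3.2.2 hq)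
  have f4 := FF_low h hκ he hδ hg hs hs0 hd p4.1 p4.2.1 (p4.2.2 hq)
  have f5 := FF_low h hκ he hδ hg hs hs0 hd p5.1 p5.2.1 (p5.2.2 hq)
  linarith

open Classical in
/-- contribution of an item to the degree of `d` -/
def degC (D : Dat) (e : ℝ) (m : ℕ) (d : ℤ) : ℝ :=
  Ex (fun θ : D.Om => if D.used θ d then 0 else
      ∑ x ∈ D.Ze, if D.edgD θ d (D.anc m) (D.yy1 θ m) (D.yy2 θ m) x ∧
        hasD (D.anc m) (D.yy1 θ m) (D.yy2 θ m) x d then D.wn e θ m x else 0)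

open Classical in
theorem GG_sum (e : ℝ) (d : ℤ) : D.GG e d = ∑ m ∈ D.It, D.degC e m d := by
  unfold GG degC degD
  rw [← Ex_sum]
  apply Ex_congr
  intro θ
  by_cases hu : D.used θ d
  · simp only [if_pos hu, Finset.sum_const_zero]
  · simp only [if_neg hu]

/-- averages over the neighbour labels -/
def avg2 (D : Dat) (m : ℕ) (f : ℤ → ℤ → ℝ) : ℝ :=
  ∑ t1 : ZMod (2 * D.S), ∑ t2 : ZMod (2 * D.S), (1 / (2 * (D.S : ℝ))) * (1 / (2 * (D.S : ℝ))) *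
    f (D.Y (D.nb1 m) t1) (D.Y (D.nb2 m) t2)

theorem degC_avg (h : D.Reg κ c) (hκ : κ ≤ 1 / 4) (e : ℝ) {m : ℕ} (hm : D.pure m) (d : ℤ) :
    D.degC e m d = D.avg2 m (D.inner e m d) :=
  deg_formula h hκ e hm d

theorem avg2_mono (m : ℕ) {f g : ℤ → ℤ → ℝ}
    (hfg : ∀ t1 t2, f (D.Y (D.nb1 m) t1) (D.Y (D.nb2 m) t2) ≤
      g (D.Y (D.nb1 m) t1) (D.Y (D.nb2 m) t2)) : D.avg2 m f ≤ D.avg2 m g := by
  unfold avg2
  apply Finset.sum_le_sum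
  intro t1 _
  apply Finset.sum_le_sum
  intro t2 _
  exact mul_le_mul_of_nonneg_left (hfg t1 t2) (by positivity)

theorem avg2_lin (m : ℕ) (f g : ℤ → ℤ → ℝ) (p r : ℝ) :
    D.avg2 m (fun y1 y2 => p * f y1 y2 - r * g y1 y2) = p * D.avg2 m f - r * D.avg2 m g := by
  unfold avg2
  simp only [Finset.mul_sum, ← Finset.sum_sub_distrib]
  apply Finset.sum_congr rfl
  intro t1 _
  apply Finset.sum_congr rfl
  intro t2 _
  ring

theorem avg2_const (m : ℕ) (p : ℝ) : D.avg2 m (fun _ _ => p) = p := by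
  have hS : (D.S : ℝ) ≠ 0 := by
    have := D.S_pos
    positivity
  have : NeZero (2 * D.S) := ⟨by have := D.S_pos; omega⟩
  unfold avg2
  simp only [Finset.sum_const, Finset.card_univ, nsmul_eq_mul]
  rw [ZMod.card]
  push_cast
  field_simp

theorem avg2_mul (m : ℕ) (f : ℤ → ℤ → ℝ) (p : ℝ) :
    D.avg2 m (fun y1 y2 => p * f y1 y2) = p * D.avg2 m f := by
  have := avg2_lin (D := D) m f (fun _ _ => 0) p 0
  simp only [mul_zero, sub_zero, zero_mul] at this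
  exact this

theorem degC_up (h : D.Reg κ c) (hκ : κ ≤ 1 / 4) {e : ℝ} (he : 0 ≤ e) {δ : ℝ} (hδ : δ < 1)
    {m : ℕ} (hm : m ∈ D.It) (hp : D.pure m) {d : ℤ} (hd : 1 ≤ d) (hb : m ∉ D.badL (D.Ld d))
    (hs : ∀ (b : Bool) (a y1 y2 : ℤ), D.gen3 b a y1 y2 → 1 - δ ≤ D.sig e b a y1 y2) :
    D.degC e m d ≤ D.rho e d / (D.n * (1 - δ)) * D.avg2 m (D.rol m d) := by
  rw [degC_avg h hκ e hp, ← avg2_mul]
  apply avg2_mono
  intro t1 t2
  exact inner_up h he hδ hm hp hd hb (Y_cls h hp.1 t1) (Y_cls h hp.2.1 t2) (gen3_Y h hm hp t1 t2)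
    (hs _ _ _ _ (gen3_Y h hm hp t1 t2))

theorem degC_low (h : D.Reg κ c) (hκ : κ ≤ 1 / 4) {e : ℝ} (he : 0 ≤ e) {δ : ℝ} (hδ0 : 0 ≤ δ)
    (hδ : δ < 1)
    {m : ℕ} (hm : m ∈ D.It) (hp : D.pure m) {d : ℤ} (hd : d ∈ D.D0) (hb : m ∉ D.badL (D.Ld d))
    (hq : noQ D.q (D.hi m) ((D.anc m : ℤ) : ZMod (D.q ^ 2)) (D.cls (D.nb1 m)) (D.cls (D.nb2 m))
        ((d : ℤ) : ZMod (D.q ^ 2)))
    (hs : ∀ (b : Bool) (a y1 y2 : ℤ), D.gen3 b a y1 y2 → |D.sig e b a y1 y2 - 1| ≤ δ) :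
    D.rho e d / (D.n * ((1 + e) ^ 2 * (1 + δ))) * D.avg2 m (D.rol m d) -
      8 * D.rho e d / D.n * D.avg2 m (D.q5 m d) ≤ D.degC e m d := by
  rw [degC_avg h hκ e hp, ← avg2_lin]
  apply avg2_mono
  intro t1 t2
  have hg := gen3_Y h hm hp t1 t2
  have h1 := abs_le.1 (hs _ _ _ _ hg)
  exact inner_low h hκ he hδ0 hm hp hd hb hq (Y_cls h hp.1 t1) (Y_cls h hp.2.1 t2) hg
    (by linarith [h1.2]) (by linarith [h1.1])

end Dat

end Pool.Agent.PGr
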