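import Mathlib
import Pool.Agent.PGr.E3b

/-!
# PGr, module E3c: upper and lower bounds for the expected degrees
-/

noncomputable section

namespace Pool.Agent.PGr

open Finset

namespace Dat

variable {D : Dat} {κ c : ℝ}

theorem sum_quart {ι : Type*} (s : Finset ι) (f : ι → ℤ) (hf : Set.InjOn f s) (hn : 0 < D.n) :
    ∑ i ∈ s, D.quart (f i) ≤ 10 := by
  classical
  have e1 : ∑ i ∈ s, D.quart (f i) = ((s.filter (fun i => (D.n : ℤ) ∣ 4 * f i ∧
      (D.n : ℤ) ≤ 2 * f i ∧ 2 * f i ≤ 5 * D.n)).card : ℝ) := by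
    unfold quart
    rw [Finset.card_filter]
    push_cast
    apply Finset.sum_congr rfl
    intro i _
    by_cases hc : (D.n : ℤ) ∣ 4 * f i ∧ (D.n : ℤ) ≤ 2 * f i ∧ 2 * f i ≤ 5 * D.n
    · rw [if_pos hc]
    · rw [if_neg hc]
  have hnz : (0 : ℤ) < D.n := by exact_mod_cast hn
  have h1 : (s.filter (fun i => (D.n : ℤ) ∣ 4 * f i ∧
      (D.n : ℤ) ≤ 2 * f i ∧ 2 * f i ≤ 5 * D.n)).card ≤ (Finset.Icc (2 : ℤ) 10).card := by
    apply Finset.card_le_card_of_injOn (fun i => 4 * f i / (D.n : ℤ))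
    · intro i hi
      have hi' := (Finset.mem_filter.1 hi).2
      obtain ⟨⟨k, hk⟩, h2, h3⟩ := hi'
      have h4 : 4 * f i / (D.n : ℤ) = k := by
        rw [hk]; exact Int.mul_ediv_cancel_left _ hnz.ne'
      simp only [Finset.coe_Icc, Set.mem_Icc]
      rw [h4]
      constructor
      · by_contra hcon
        have h5 : k ≤ 1 := by omega
        have : (D.n : ℤ) * k ≤ D.n * 1 := mul_le_mul_of_nonneg_left h5 hnz.le
        omega
      · by_contra hcon
        have h5 : 11 ≤ k := by omega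
        have : (D.n : ℤ) * 11 ≤ D.n * k := mul_le_mul_of_nonneg_left h5 hnz.le
        omega
    · intro i hi j hj hij
      have hi' := (Finset.mem_filter.1 hi)
      have hj' := (Finset.mem_filter.1 hj)
      apply hf hi'.1 hj'.1
      have h2 : 4 * f i / (D.n : ℤ) = 4 * f j / (D.n : ℤ) := hij
      have h3 := Int.mul_ediv_cancel' hi'.2.1
      have h4 := Int.mul_ediv_cancel' hj'.2.1
      rw [h2, h4] at h3
      omega
  rw [e1]
  have h2 : (Finset.Icc (2 : ℤ) 10).card = 9 := by simp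
  rw [h2] at h1
  have : ((s.filter (fun i => (D.n : ℤ) ∣ 4 * f i ∧
      (D.n : ℤ) ≤ 2 * f i ∧ 2 * f i ≤ 5 * D.n)).card : ℝ) ≤ 9 := by exact_mod_cast h1
  linarith

theorem avg2_add (m : ℕ) (f g : ℤ → ℤ → ℝ) :
    D.avg2 m (fun y1 y2 => f y1 y2 + g y1 y2) = D.avg2 m f + D.avg2 m g := by
  unfold avg2
  simp only [← Finset.sum_add_distrib]
  apply Finset.sum_congr rfl
  intro t1 _
  apply Finset.sum_congr rfl
  intro t2 _
  ring

theorem avg2_fst (m : ℕ) (f : ℤ → ℝ) : D.avg2 m (fun y1 _ => f y1) =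
    (1 / (2 * (D.S : ℝ))) * ∑ t : ZMod (2 * D.S), f (D.Y (D.nb1 m) t) := by
  have hS : (D.S : ℝ) ≠ 0 := by
    have := D.S_pos
    positivity
  have : NeZero (2 * D.S) := ⟨by have := D.S_pos; omega⟩
  unfold avg2
  rw [Finset.mul_sum]
  apply Finset.sum_congr rfl
  intro t1 _
  rw [Finset.sum_const, Finset.card_univ, nsmul_eq_mul, ZMod.card]
  push_cast
  field_simp

theorem avg2_snd (m : ℕ) (f : ℤ → ℝ) : D.avg2 m (fun _ y2 => f y2) =
    (1 / (2 * (D.S : ℝ))) * ∑ t : ZMod (2 * D.S), f (D.Y (D.nb2 m) t) := by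
  have hS : (D.S : ℝ) ≠ 0 := by
    have := D.S_pos
    positivity
  have : NeZero (2 * D.S) := ⟨by have := D.S_pos; omega⟩
  unfold avg2
  rw [Finset.sum_comm, Finset.mul_sum]
  apply Finset.sum_congr rfl
  intro t2 _
  rw [Finset.sum_const, Finset.card_univ, nsmul_eq_mul, ZMod.card]
  push_cast
  field_simp

theorem avg2_q5 (h : D.Reg κ c) {m : ℕ} (hp : D.pure m) (d : ℤ) :
    D.avg2 m (D.q5 m d) ≤ D.quart (xa (D.hi m) (D.anc m) d) + 20 / D.S := by
  have hS : (0 : ℝ) < D.S := by exact_mod_cast D.S_pos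
  have : NeZero (2 * D.S) := ⟨by have := D.S_pos; omega⟩
  have e1 : D.avg2 m (D.q5 m d) = D.quart (xa (D.hi m) (D.anc m) d) +
      ((1 / (2 * (D.S : ℝ))) * ∑ t : ZMod (2 * D.S), D.quart (D.Y (D.nb1 m) t + d) +
       (1 / (2 * (D.S : ℝ))) * ∑ t : ZMod (2 * D.S), D.quart (D.Y (D.nb1 m) t - d)) +
      ((1 / (2 * (D.S : ℝ))) * ∑ t : ZMod (2 * D.S), D.quart (D.Y (D.nb2 m) t + d) +
       (1 / (2 * (D.S : ℝ))) * ∑ t : ZMod (2 * D.S), D.quart (D.Y (D.nb2 m) t - d)) := by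
    have e2 : D.q5 m d = fun y1 y2 => (fun _ _ : ℤ => D.quart (xa (D.hi m) (D.anc m) d)) y1 y2 +
        (fun y1 _ : ℤ => D.quart (y1 + d) + D.quart (y1 - d)) y1 y2 +
        (fun _ y2 : ℤ => D.quart (y2 + d) + D.quart (y2 - d)) y1 y2 := by
      funext y1 y2
      rfl
    rw [e2]
    have s1 := avg2_add (D := D) m (fun y1 y2 => (fun _ _ : ℤ => D.quart (xa (D.hi m) (D.anc m) d)) y1 y2 +
        (fun y1 _ : ℤ => D.quart (y1 + d) + D.quart (y1 - d)) y1 y2)
        (fun _ y2 : ℤ => D.quart (y2 + d) + D.quart (y2 - d))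
    have s2 := avg2_add (D := D) m (fun _ _ : ℤ => D.quart (xa (D.hi m) (D.anc m) d))
        (fun y1 _ : ℤ => D.quart (y1 + d) + D.quart (y1 - d))
    have s3 := avg2_const (D := D) m (D.quart (xa (D.hi m) (D.anc m) d))
    have s4 := avg2_fst (D := D) m (fun y => D.quart (y + d) + D.quart (y - d))
    have s5 := avg2_snd (D := D) m (fun y => D.quart (y + d) + D.quart (y - d))
    rw [s1, s2, s3, s4, s5]
    simp only [Finset.sum_add_distrib, mul_add]
  have hinj : ∀ v ∈ D.Sv, ∀ s : ℤ, ∑ t : ZMod (2 * D.S), D.quart (D.Y v t + s) ≤ 10 := by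
    intro v hv s
    apply sum_quart Finset.univ (fun t => D.Y v t + s) _ h.n_pos
    intro t _ t' _ htt
    apply h.Y_inj v hv
    have : D.Y v t + s = D.Y v t' + s := htt
    omega
  have i1 := hinj _ hp.1 d
  have i2 := hinj _ hp.1 (-d)
  have i3 := hinj _ hp.2.1 d
  have i4 := hinj _ hp.2.1 (-d)
  simp only [← sub_eq_add_neg] at i2 i4
  rw [e1]
  have hw : 0 ≤ 1 / (2 * (D.S : ℝ)) := by positivity
  have j1 := mul_le_mul_of_nonneg_left i1 hw
  have j2 := mul_le_mul_of_nonneg_left i2 hw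
  have j3 := mul_le_mul_of_nonneg_left i3 hw
  have j4 := mul_le_mul_of_nonneg_left i4 hw
  have e3 : 20 / (D.S : ℝ) = 1 / (2 * (D.S : ℝ)) * 10 + 1 / (2 * (D.S : ℝ)) * 10 +
      (1 / (2 * (D.S : ℝ)) * 10 + 1 / (2 * (D.S : ℝ)) * 10) := by
    field_simp
    norm_num
  rw [e3]
  linarith

theorem sum_quart_items (h : D.Reg κ c) (b : Bool) (d : ℤ) :
    ∑ m ∈ D.Pu b, D.quart (xa (D.hi m) (D.anc m) d) ≤ 10 := by
  apply sum_quart _ _ _ h.n_pos
  intro m hm m' hm' hmm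
  have h1 := mem_Pu hm
  have h2 := mem_Pu hm'
  have h3 : xa (D.hi m) (D.anc m) d = xa (D.hi m') (D.anc m') d := hmm
  rw [h1.2.1, h2.2.1] at h3
  apply h.anc_inj m h1.1 m' h2.1
  unfold xa at h3
  cases b
  · simp only [Bool.false_eq_true, if_false] at h3
    omega
  · simp only [if_true] at h3
    omega

/-- the sum of the averaged roles -/
theorem sum_rol (h : D.Reg κ c) (hκ : κ ≤ 1 / 5) (hn : 10 ≤ D.n) {d : ℤ} (hd0 : 0 ≤ d)
    (hd2 : d ≤ 2 * D.n) :
    |(1 / (D.n : ℝ)) * (∑ m ∈ D.Pu true, D.avg2 m (D.rol m d) +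
      ∑ m ∈ D.Pu false, D.avg2 m (D.rol m d)) - PGrK.ff ((d : ℝ) / D.n)| ≤
      2 * (6600 * κ + 9450 * ((D.q : ℝ) ^ 2 / D.n)) := by
  have hκ0 := kappa_nonneg h
  have h1 := h.E3det hκ0 hκ hn true hd0 hd2
  have h2 := h.E3det hκ0 hκ hn false hd0 hd2
  have e1 : ∀ b, ∑ m ∈ D.Pu b, D.avg2 m (D.rol m d) = ∑ m ∈ D.Pu b, (1 / (2 * (D.S : ℝ))) *
      (∑ t1 : ZMod (2 * D.S), (1 / (2 * (D.S : ℝ))) * (∑ t2 : ZMod (2 * D.S),
          PGrK.roles ((D.A m : ℝ) / D.n) (nrm D.n b (D.Y (D.nb1 m) t1))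
            (nrm D.n b (D.Y (D.nb2 m) t2)) ((d : ℝ) / D.n))) := by
    intro b
    apply Finset.sum_congr rfl
    intro m hm
    unfold avg2 rol
    rw [(mem_Pu hm).2.1]
    simp only [Finset.mul_sum, mul_assoc]
  rw [e1 true, e1 false, mul_add]
  rw [abs_le] at h1 h2 ⊢
  constructor <;> linarith [h1.1, h1.2, h2.1, h2.2]

open Classical in
theorem sum_one_role (s : Finset ℤ) (z d : ℤ) {C : ℝ} (hC : 0 ≤ C) :
    (∑ x ∈ s, if |x - z| = d then C else 0) ≤ 2 * C := by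
  rw [← Finset.sum_filter, Finset.sum_const, nsmul_eq_mul]
  apply mul_le_mul_of_nonneg_right _ hC
  have hsub : s.filter (fun x => |x - z| = d) ⊆ {z + d, z - d} := by
    intro x hx
    have h1 := (Finset.mem_filter.1 hx).2
    simp only [Finset.mem_insert, Finset.mem_singleton]
    rcases abs_choice (x - z) with h2 | h2
    · left; omega
    · right; omega
  have h2 := Finset.card_le_card hsub
  have h3 : ({z + d, z - d} : Finset ℤ).card ≤ 2 := Finset.card_le_two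
  exact_mod_cast h2.trans h3

theorem degC_le (h : D.Reg κ c) (hκ : κ ≤ 1 / 4) {e : ℝ} (he : 0 ≤ e) (he1 : e ≤ 1 / 10)
    {m : ℕ} (hm : m ∈ D.It)
    (hs : ∀ (b : Bool) (a y1 y2 : ℤ), D.gen3 b a y1 y2 → 9 / 10 ≤ D.sig e b a y1 y2) (d : ℤ) :
    0 ≤ D.degC e m d ∧ D.degC e m d ≤ 2700 / D.n := by
  classical
  have hn : (0 : ℝ) < D.n := by exact_mod_cast h.n_pos
  have hw : ∀ θ : D.Om, ∀ x, (D.edgD θ d (D.anc m) (D.yy1 θ m) (D.yy2 θ m) x ∧
        hasD (D.anc m) (D.yy1 θ m) (D.yy2 θ m) x d) → 0 ≤ D.wn e θ m x ∧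
        D.wn e θ m x ≤ 450 / D.n := by
    rintro θ x ⟨⟨hx, _, ⟨g1, _⟩, ⟨g2, _⟩, ⟨g3, _⟩, _⟩, _⟩
    have h1 := wt_le h hκ he he1 (D.hi m) (D.anc m) (D.yy1 θ m) (D.yy2 θ m) x hx g1 g2 g3
    have h1' := wt_nonneg h hκ he he1 (D.hi m) (D.anc m) (D.yy1 θ m) (D.yy2 θ m) x hx g1 g2 g3
    have h2 := hs _ _ _ _ (gen3_item h θ hm)
    unfold wn
    constructor
    · exact div_nonneg h1' (by linarith)
    · rw [div_le_div_iff₀ (by linarith) hn]
      rw [le_div_iff₀ hn] at h1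
      nlinarith
  unfold degC
  constructor
  · apply Ex_nonneg
    intro θ
    split_ifs
    · exact le_rfl
    · apply Finset.sum_nonneg
      intro x _
      split_ifs with hc
      · exact (hw θ x hc).1
      · exact le_rfl
  · refine (Ex_mono (g := fun _ => 2700 / (D.n : ℝ)) ?_).trans (Ex_const _).le
    intro θ
    by_cases hu : D.used θ d
    · rw [if_pos hu]; positivity
    · rw [if_neg hu]
      obtain ⟨C, hC⟩ : ∃ C : ℝ, C = 450 / (D.n : ℝ) := ⟨_, rfl⟩
      have hC0 : 0 ≤ C := by rw [hC]; positivity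
      calc (∑ x ∈ D.Ze, if D.edgD θ d (D.anc m) (D.yy1 θ m) (D.yy2 θ m) x ∧
        hasD (D.anc m) (D.yy1 θ m) (D.yy2 θ m) x d then D.wn e θ m x else 0)
          ≤ ∑ x ∈ D.Ze, ((if |x - D.anc m| = d then C else 0) +
            (if |x - D.yy1 θ m| = d then C else 0) + (if |x - D.yy2 θ m| = d then C else 0)) := by
            apply Finset.sum_le_sum
            intro x _
            by_cases hc : D.edgD θ d (D.anc m) (D.yy1 θ m) (D.yy2 θ m) x ∧
              hasD (D.anc m) (D.yy1 θ m) (D.yy2 θ m) x d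
            · rw [if_pos hc]
              have h1 := (hw θ x hc).2
              rw [← hC] at h1
              have p1 : (0 : ℝ) ≤ (if |x - D.anc m| = d then C else 0) := by
                split_ifs <;> linarith
              have p2 : (0 : ℝ) ≤ (if |x - D.yy1 θ m| = d then C else 0) := by
                split_ifs <;> linarith
              have p3 : (0 : ℝ) ≤ (if |x - D.yy2 θ m| = d then C else 0) := by
                split_ifs <;> linarith
              rcases hc.2 with g | g | g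
              · rw [if_pos g]; linarith
              · rw [if_pos g]; linarith
              · rw [if_pos g]; linarith
            · rw [if_neg hc]
              split_ifs <;> linarith
        _ ≤ 2 * C + 2 * C + 2 * C := by
            rw [Finset.sum_add_distrib, Finset.sum_add_distrib]
            have s1 := sum_one_role D.Ze (D.anc m) d hC0
            have s2 := sum_one_role D.Ze (D.yy1 θ m) d hC0
            have s3 := sum_one_role D.Ze (D.yy2 θ m) d hC0
            linarith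
        _ = 2700 / D.n := by rw [hC]; ring

open Classical in
theorem sum_ind_le (B : Finset ℕ) {C K : ℝ} (hC : 0 ≤ C) (hB : (B.card : ℝ) ≤ K) :
    (∑ m ∈ D.It, if m ∈ B then C else 0) ≤ K * C := by
  rw [← Finset.sum_filter, Finset.sum_const, nsmul_eq_mul]
  apply mul_le_mul_of_nonneg_right _ hC
  have : D.It.filter (fun m => m ∈ B) ⊆ B := fun m hm => (Finset.mem_filter.1 hm).2
  have h1 : ((D.It.filter (fun m => m ∈ B)).card : ℝ) ≤ (B.card : ℝ) := by
    exact_mod_cast Finset.card_le_card this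
  exact h1.trans hB

/-- upper bound for the expected degree -/
theorem GG_up (h : D.Reg κ c) (hκ : κ ≤ 1 / 5) (hn : 10 ≤ D.n) {e : ℝ} (he : 0 ≤ e)
    (he1 : e ≤ 1 / 10) {δ : ℝ} (hδ : δ ≤ 1 / 10)
    (hs : ∀ (b : Bool) (a y1 y2 : ℤ), D.gen3 b a y1 y2 → |D.sig e b a y1 y2 - 1| ≤ δ)
    {d : ℤ} (hd : 1 ≤ d) (hd2 : d ≤ 2 * D.n) :
    D.GG e d ≤ D.rho e d / (1 - δ) * (PGrK.ff ((d : ℝ) / D.n) +
      2 * (6600 * κ + 9450 * ((D.q : ℝ) ^ 2 / D.n))) + 67500 * κ := by
  classical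
  have hnr : (0 : ℝ) < D.n := by exact_mod_cast h.n_pos
  have hκ1 : κ ≤ 1 / 4 := by linarith
  have hδ' : 0 < 1 - δ := by linarith
  have hρ := rho_nonneg (D := D) he d
  have hs1 : ∀ (b : Bool) (a y1 y2 : ℤ), D.gen3 b a y1 y2 → 1 - δ ≤ D.sig e b a y1 y2 :=
    fun b a y1 y2 hg => by linarith [(abs_le.1 (hs b a y1 y2 hg)).1]
  have hs' : ∀ (b : Bool) (a y1 y2 : ℤ), D.gen3 b a y1 y2 → 9 / 10 ≤ D.sig e b a y1 y2 :=
    fun b a y1 y2 hg => by linarith [hs1 b a y1 y2 hg]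
  have hbad : ((D.badL (D.Ld d)).card : ℝ) ≤ 24 * (κ * D.n) := by
    have := badL_card h (D.Ld d) (Ld_pm d)
    rw [Ld_length] at this
    exact_mod_cast this
  have havg : ∀ m, 0 ≤ D.avg2 m (D.rol m d) := by
    intro m
    have h1 := avg2_mono (D := D) m (f := fun _ _ => 0) (g := D.rol m d)
      (fun t1 t2 => (rol_bd h m d _ _).1)
    rwa [avg2_const] at h1
  have step : ∀ m ∈ D.It, D.degC e m d ≤
      (if D.pure m then D.rho e d / (D.n * (1 - δ)) * D.avg2 m (D.rol m d) else 0) +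
      ((if m ∈ D.badL (D.Ld d) then 2700 / (D.n : ℝ) else 0) +
        (if m ∈ D.It.filter (fun m => ¬ D.pure m) then 2700 / (D.n : ℝ) else 0)) := by
    intro m hm
    have hk := havg m
    have hc := (degC_le h hκ1 he he1 hm hs' d).2
    have p1 : (0 : ℝ) ≤ (if m ∈ D.badL (D.Ld d) then 2700 / (D.n : ℝ) else 0) := by
      split_ifs
      · positivity
      · exact le_rfl
    have p2 : (0 : ℝ) ≤ (if m ∈ D.It.filter (fun m => ¬ D.pure m) then 2700 / (D.n : ℝ)
        else 0) := by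
      split_ifs
      · positivity
      · exact le_rfl
    by_cases hp : D.pure m
    · rw [if_pos hp]
      by_cases hb : m ∈ D.badL (D.Ld d)
      · rw [if_pos hb]
        have h2 : 0 ≤ D.rho e d / (D.n * (1 - δ)) * D.avg2 m (D.rol m d) := by positivity
        linarith
      · have := degC_up h hκ1 he (by linarith : δ < 1) hm hp hd hb hs1
        linarith
    · rw [if_neg hp, if_pos (Finset.mem_filter.2 ⟨hm, hp⟩)]
      linarith
  rw [GG_sum]
  refine (Finset.sum_le_sum step).trans ?_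
  rw [Finset.sum_add_distrib, Finset.sum_add_distrib, sum_pure_split]
  have hsum := (abs_le.1 (sum_rol h hκ hn (by omega : (0 : ℤ) ≤ d) hd2)).2
  have t1 : ∑ m ∈ D.Pu true, D.rho e d / (D.n * (1 - δ)) * D.avg2 m (D.rol m d) +
      ∑ m ∈ D.Pu false, D.rho e d / (D.n * (1 - δ)) * D.avg2 m (D.rol m d) =
      D.rho e d / (1 - δ) * ((1 / (D.n : ℝ)) * (∑ m ∈ D.Pu true, D.avg2 m (D.rol m d) +
        ∑ m ∈ D.Pu false, D.avg2 m (D.rol m d))) := by
    rw [← Finset.mul_sum, ← Finset.mul_sum]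
    field_simp
  have t2 := sum_ind_le (D := D) (D.badL (D.Ld d)) (C := 2700 / (D.n : ℝ)) (by positivity) hbad
  have t3 := sum_ind_le (D := D) (D.It.filter (fun m => ¬ D.pure m)) (C := 2700 / (D.n : ℝ))
    (by positivity) (by
      have := h.pure_most
      refine le_trans (le_of_eq ?_) this
      congr)
  have t4 : 24 * (κ * D.n) * (2700 / (D.n : ℝ)) = 64800 * κ := by field_simp; ring
  have t5 : κ * D.n * (2700 / (D.n : ℝ)) = 2700 * κ := by field_simp
  rw [t4] at t2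
  rw [t5] at t3
  rw [t1]
  have t6 : D.rho e d / (1 - δ) * ((1 / (D.n : ℝ)) * (∑ m ∈ D.Pu true, D.avg2 m (D.rol m d) +
        ∑ m ∈ D.Pu false, D.avg2 m (D.rol m d))) ≤ D.rho e d / (1 - δ) *
        (PGrK.ff ((d : ℝ) / D.n) + 2 * (6600 * κ + 9450 * ((D.q : ℝ) ^ 2 / D.n))) :=
    mul_le_mul_of_nonneg_left (by linarith) (by positivity)
  linarith

end Dat

end Pool.Agent.PGr
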