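import Pool.Agent.PGr.KDisc
import Pool.Agent.PGr.Dat
set_option autoImplicit false

/-!
Part K of project PGr: the quadrature statements for the data `D : Dat` with property `Reg`.
-/

open MeasureTheory Set

namespace Pool.Agent.PGr

open PGrK

/-- normalised label, reflected for low items. -/
noncomputable def nrm (n : ℕ) (b : Bool) (x : ℤ) : ℝ := if b then (x : ℝ) / n else 3 - (x : ℝ) / n

theorem Disc.transfer {ι κ : Type*} {s : Finset ι} {s' : Finset κ} {pt : ι → ℝ} {pt' : κ → ℝ}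
    {w rho al be del : ℝ} (h : Disc s pt w rho al be del)
    (he : ∀ g : ℝ → ℝ, ∑ i ∈ s, g (pt i) = ∑ i ∈ s', g (pt' i)) :
    Disc s' pt' w rho al be del := by
  intro I hI
  have := h I hI
  rwa [he (I.indicator (fun _ => (1 : ℝ)))] at this

namespace Dat

variable {D : Dat} {κ c : ℝ}

theorem q_pos (D : Dat) : 0 < D.q := Nat.pos_of_ne_zero D.nq.out
theorem S_pos (D : Dat) : 0 < D.S := Nat.pos_of_ne_zero D.nS.out

theorem Reg.n_pos (h : D.Reg κ c) : 0 < D.n :=
  lt_of_lt_of_le (pow_pos D.q_pos 6) h.q_high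

/-- sums over the labels of a scheme vertex are sums over an arithmetic progression. -/
theorem Reg.sum_Y (h : D.Reg κ c) {v : ℕ} (hv : v ∈ D.Sv) (g : ℤ → ℝ) :
    ∑ t : ZMod (2 * D.S), g (D.Y v t) = ∑ j ∈ Finset.range (2 * D.S),
      g ((D.B0 : ℤ) + (lam D.q (D.un v)).val + (D.q : ℤ) ^ 2 * (j : ℤ)) := by
  have : NeZero (2 * D.S) := ⟨by have := D.S_pos; omega⟩
  have : NeZero (D.q ^ 2) := ⟨by have := pow_pos D.q_pos 2; omega⟩
  have hQ : (0 : ℤ) < (D.q : ℤ) ^ 2 := by have := D.q_pos; positivity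
  set L : ℕ := (lam D.q (D.un v)).val with hL
  have hLlt : L < D.q ^ 2 := ZMod.val_lt _
  classical
  have hinjR : Set.InjOn (fun j : ℕ => (D.B0 : ℤ) + L + (D.q : ℤ) ^ 2 * (j : ℤ))
      (Finset.range (2 * D.S) : Set ℕ) := by
    intro a _ b _ hab
    simp only at hab
    have : (D.q : ℤ) ^ 2 * (a : ℤ) = (D.q : ℤ) ^ 2 * (b : ℤ) := by linarith
    exact_mod_cast mul_left_cancel₀ hQ.ne' this
  have himg : (Finset.univ.image (D.Y v)) =
      (Finset.range (2 * D.S)).image (fun j : ℕ => (D.B0 : ℤ) + L + (D.q : ℤ) ^ 2 * (j : ℤ)) := by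
    apply Finset.eq_of_subset_of_card_le
    · intro y hy
      obtain ⟨t, _, rfl⟩ := Finset.mem_image.1 hy
      have hm := h.Y_mem v hv t
      have hr := h.Y_res v hv t
      obtain ⟨m, hm'⟩ := h.B0_dvd
      have hB : ((D.B0 : ℤ) : ZMod (D.q ^ 2)) = 0 := by
        rw [hm']
        push_cast
        have : ((D.q : ZMod (D.q ^ 2)) ^ 2) = 0 := by
          have := ZMod.natCast_self (D.q ^ 2)
          push_cast at this
          exact this
        rw [this, zero_mul]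
      have hLc : ((L : ℤ) : ZMod (D.q ^ 2)) = lam D.q (D.un v) := by
        rw [hL]; push_cast; exact ZMod.natCast_zmod_val _
      have hdvd : ((D.q ^ 2 : ℕ) : ℤ) ∣ D.Y v t - (D.B0 : ℤ) - L := by
        rw [← ZMod.intCast_zmod_eq_zero_iff_dvd]
        · push_cast
          push_cast at hB hLc
          rw [hr, hB, hLc]; ring
      obtain ⟨j, hj⟩ := hdvd
      push_cast at hj
      have hLz : (L : ℤ) < (D.q : ℤ) ^ 2 := by exact_mod_cast hLlt
      have hj0 : 0 ≤ j := by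
        by_contra hcon
        push Not at hcon
        have : j ≤ -1 := by omega
        nlinarith [hm.1]
      have hj1 : j < 2 * (D.S : ℤ) := by
        by_contra hcon
        push Not at hcon
        have : (D.q : ℤ) ^ 2 * (2 * (D.S : ℤ)) ≤ (D.q : ℤ) ^ 2 * j :=
          mul_le_mul_of_nonneg_left hcon hQ.le
        have hm2 := hm.2
        have : (0:ℤ) ≤ L := Int.natCast_nonneg _
        nlinarith
      obtain ⟨i, rfl⟩ := Int.eq_ofNat_of_zero_le hj0
      rw [Finset.mem_image]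
      refine ⟨i, Finset.mem_range.2 (by exact_mod_cast hj1), ?_⟩
      linarith
    · rw [Finset.card_image_of_injOn hinjR, Finset.card_image_of_injective _ (h.Y_inj v hv)]
      simp [ZMod.card]
  have e1 : ∑ t : ZMod (2 * D.S), g (D.Y v t) = ∑ y ∈ Finset.univ.image (D.Y v), g y := by
    rw [Finset.sum_image (fun a _ b _ hab => h.Y_inj v hv hab)]
  rw [e1, himg, Finset.sum_image hinjR]

/-- discrepancy of the normalised labels of a scheme vertex. -/
theorem Reg.disc_Y (h : D.Reg κ c) (hκ0 : 0 ≤ κ) (hκ : κ ≤ 1 / 2) {v : ℕ} (hv : v ∈ D.Sv)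
    (b : Bool) :
    Disc Finset.univ (fun t : ZMod (2 * D.S) => nrm D.n b (D.Y v t)) (1 / (2 * (D.S : ℝ))) 1 1 2
      (2 * κ + 4 * ((D.q : ℝ) ^ 2 / D.n)) := by
  have hn : (0 : ℝ) < D.n := by exact_mod_cast h.n_pos
  have hq : (0 : ℝ) < D.q := by exact_mod_cast D.q_pos
  have hS : (0 : ℝ) < D.S := by exact_mod_cast D.S_pos
  have : NeZero (D.q ^ 2) := ⟨by have := pow_pos D.q_pos 2; omega⟩
  set L : ℕ := (lam D.q (D.un v)).val with hL
  have hLlt : (L : ℝ) < (D.q : ℝ) ^ 2 := by exact_mod_cast ZMod.val_lt (lam D.q (D.un v))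
  have hL0 : (0 : ℝ) ≤ (L : ℝ) := Nat.cast_nonneg _
  have hB1 : (D.n : ℝ) ≤ D.B0 := by exact_mod_cast h.B0_low
  have hB2 : (D.B0 : ℝ) + 2 * D.S * (D.q : ℝ) ^ 2 ≤ 2 * D.n := by exact_mod_cast h.B0_high
  have hS1 := h.S_low
  have hY : D.B0 + L + D.q ^ 2 * (2 * D.S - 1) ≤ 2 * D.n := by
    have h1 := h.B0_high
    have h2 : L ≤ D.q ^ 2 := (ZMod.val_lt (lam D.q (D.un v))).le
    have h3 : D.q ^ 2 * (2 * D.S - 1) + D.q ^ 2 = 2 * D.S * D.q ^ 2 := by
      obtain ⟨m, hm⟩ : ∃ m, 2 * D.S = m + 1 := ⟨2 * D.S - 1, by have := D.S_pos; omega⟩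
      rw [hm]; simp; ring
    omega
  have hYr : (D.B0 : ℝ) + L + (D.q : ℝ) ^ 2 * (2 * D.S - 1) ≤ 2 * D.n := by
    have h4 : ((2 * D.S - 1 : ℕ) : ℝ) = 2 * D.S - 1 := by
      rw [Nat.cast_sub (by have := D.S_pos; omega)]; push_cast; ring
    have : ((D.B0 + L + D.q ^ 2 * (2 * D.S - 1) : ℕ) : ℝ) ≤ ((2 * D.n : ℕ) : ℝ) := by
      exact_mod_cast hY
    push_cast [h4] at this
    exact this
  have hd : Disc (Finset.range (2 * D.S))
      (fun j : ℕ => ((D.B0 : ℝ) + L) / D.n + (D.q : ℝ) ^ 2 / D.n * (j : ℝ))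
      (1 / ((2 * D.S : ℕ) : ℝ)) 1 1 2 (2 * κ + 4 * ((D.q : ℝ) ^ 2 / D.n)) := by
    apply ap_disc
    · positivity
    · have := D.S_pos; omega
    · rw [le_div_iff₀ hn]; linarith
    · rw [div_le_iff₀ hn]
      have e : (1 + κ + 2 * ((D.q : ℝ) ^ 2 / D.n)) * D.n = D.n + κ * D.n + 2 * (D.q : ℝ) ^ 2 := by
        field_simp
      rw [e]
      have : 0 < (D.q : ℝ) ^ 2 := by positivity
      linarith
    · rw [div_mul_eq_mul_div, le_div_iff₀ hn]; push_cast; linarith
    · rw [div_mul_eq_mul_div, div_le_iff₀ hn]; push_cast; linarith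
    · have e : ((D.B0 : ℝ) + L) / D.n + (D.q : ℝ) ^ 2 / D.n * (((2 * D.S : ℕ) : ℝ) - 1)
          = ((D.B0 : ℝ) + L + (D.q : ℝ) ^ 2 * (2 * D.S - 1)) / D.n := by
        push_cast; field_simp
      rw [e, div_le_iff₀ hn]; linarith
    · exact hκ
    · exact hκ0
  have hd2 : Disc (Finset.univ : Finset (ZMod (2 * D.S)))
      (fun t : ZMod (2 * D.S) => (D.Y v t : ℝ) / D.n) (1 / (2 * (D.S : ℝ))) 1 1 2
      (2 * κ + 4 * ((D.q : ℝ) ^ 2 / D.n)) := by
    have e : ((2 * D.S : ℕ) : ℝ) = 2 * (D.S : ℝ) := by push_cast; ring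
    rw [e] at hd
    refine Disc.transfer hd ?_
    intro g
    have := h.sum_Y hv (fun y => g ((y : ℝ) / D.n))
    rw [this, ← hL]
    apply Finset.sum_congr rfl
    intro j _
    congr 1
    push_cast
    field_simp
  cases b
  · exact hd2.reflect
  · exact hd2

theorem Reg.kn_nonneg (h : D.Reg κ c) : 0 ≤ κ * D.n := by
  have := h.balc true (3 * D.n) (3 * D.n) (by have := h.n_pos; omega) le_rfl le_rfl
  exact le_trans (abs_nonneg _) this

open Classical in
theorem Reg.count_up (h : D.Reg κ c) (b : Bool) {p q : ℝ} (hp : 5 / 2 ≤ p) (hpq : p ≤ q)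
    (hq : q ≤ 3) :
    (((D.It.filter (fun m => D.hi m = b)).filter
      (fun m => (D.A m : ℝ) / D.n ∈ Set.Icc p q)).card : ℝ) ≤ (q - p) * D.n / 2 + κ * D.n + 1 := by
  have hn : (0 : ℝ) < D.n := by exact_mod_cast h.n_pos
  have hκn := h.kn_nonneg
  obtain ⟨x, hx⟩ : ∃ x, x = ⌈p * (D.n : ℝ)⌉ := ⟨_, rfl⟩
  obtain ⟨y, hy⟩ : ∃ y, y = ⌊q * (D.n : ℝ)⌋ := ⟨_, rfl⟩
  have hx1 : p * D.n ≤ (x : ℝ) := by rw [hx]; exact Int.le_ceil _
  have hy1 : (y : ℝ) ≤ q * D.n := by rw [hy]; exact Int.floor_le _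
  have hmem : ∀ m ∈ (D.It.filter (fun m => D.hi m = b)).filter
      (fun m => (D.A m : ℝ) / D.n ∈ Set.Icc p q), m ∈ D.It ∧ D.hi m = b ∧ x ≤ D.A m ∧ D.A m ≤ y := by
    intro m hm
    rw [Finset.mem_filter, Finset.mem_filter] at hm
    obtain ⟨⟨h1, h2⟩, h3, h4⟩ := hm
    rw [le_div_iff₀ hn] at h3
    rw [div_le_iff₀ hn] at h4
    refine ⟨h1, h2, ?_, ?_⟩
    · rw [hx]; exact Int.ceil_le.2 h3
    · rw [hy]; exact Int.le_floor.2 h4
  by_cases hxy : x ≤ y
  · have hsub : (D.It.filter (fun m => D.hi m = b)).filter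
        (fun m => (D.A m : ℝ) / D.n ∈ Set.Icc p q) ⊆
        (D.It.filter (fun m => D.hi m = b ∧ x ≤ D.A m ∧ D.A m < y)) ∪
        (D.It.filter (fun m => D.hi m = b ∧ D.A m = y)) := by
      intro m hm
      obtain ⟨h1, h2, h3, h4⟩ := hmem m hm
      rw [Finset.mem_union, Finset.mem_filter, Finset.mem_filter]
      rcases lt_or_eq_of_le h4 with h5 | h5
      · exact Or.inl ⟨h1, h2, h3, h5⟩
      · exact Or.inr ⟨h1, h2, h5⟩
    have hone : (D.It.filter (fun m => D.hi m = b ∧ D.A m = y)).card ≤ 1 := by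
      rw [Finset.card_le_one]
      intro m hm m' hm'
      rw [Finset.mem_filter] at hm hm'
      apply h.anc_inj m hm.1 m' hm'.1
      have e1 := hm.2.2
      have e2 := hm'.2.2
      unfold Dat.A at e1 e2
      rw [hm.2.1] at e1
      rw [hm'.2.1] at e2
      cases b
      · simp only [Bool.false_eq_true, if_false] at e1 e2; linarith
      · simp only [if_true] at e1 e2; linarith
    have hb := h.balc b x y (by
        have h1 : 5 * (D.n : ℝ) ≤ 2 * (x : ℝ) := by nlinarith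
        exact_mod_cast h1) hxy (by
        have h1 : (y : ℝ) ≤ 3 * (D.n : ℝ) := by nlinarith
        exact_mod_cast h1)
    have hb2 := (abs_le.1 hb).2
    have hc := Finset.card_le_card hsub
    have hc2 := le_trans hc (Finset.card_union_le _ _)
    have hc3 : (((D.It.filter (fun m => D.hi m = b)).filter
        (fun m => (D.A m : ℝ) / D.n ∈ Set.Icc p q)).card : ℝ) ≤
        ((D.It.filter (fun m => D.hi m = b ∧ x ≤ D.A m ∧ D.A m < y)).card : ℝ) + 1 := by
      have : ((D.It.filter (fun m => D.hi m = b)).filter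
        (fun m => (D.A m : ℝ) / D.n ∈ Set.Icc p q)).card ≤
        (D.It.filter (fun m => D.hi m = b ∧ x ≤ D.A m ∧ D.A m < y)).card + 1 := by omega
      exact_mod_cast this
    linarith
  · have : (D.It.filter (fun m => D.hi m = b)).filter
        (fun m => (D.A m : ℝ) / D.n ∈ Set.Icc p q) = ∅ := by
      rw [Finset.eq_empty_iff_forall_notMem]
      intro m hm
      obtain ⟨_, _, h3, h4⟩ := hmem m hm
      exact hxy (le_trans h3 h4)
    rw [this]
    have : 0 ≤ (q - p) * D.n := mul_nonneg (by linarith) hn.le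
    push_cast [Finset.card_empty]
    linarith

open Classical in
theorem Reg.count_lo (h : D.Reg κ c) (b : Bool) {p q : ℝ} (hp : 5 / 2 ≤ p) (hq : q ≤ 3) :
    (q - p) * D.n / 2 - κ * D.n - 1 ≤ (((D.It.filter (fun m => D.hi m = b)).filter
      (fun m => (D.A m : ℝ) / D.n ∈ Set.Ioo p q)).card : ℝ) := by
  have hn : (0 : ℝ) < D.n := by exact_mod_cast h.n_pos
  have hκn := h.kn_nonneg
  obtain ⟨x, hx⟩ : ∃ x, x = ⌊p * (D.n : ℝ)⌋ + 1 := ⟨_, rfl⟩
  obtain ⟨y, hy⟩ : ∃ y, y = ⌈q * (D.n : ℝ)⌉ := ⟨_, rfl⟩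
  have hx1 : (x : ℝ) ≤ p * D.n + 1 := by
    rw [hx]; push_cast; linarith [Int.floor_le (p * (D.n : ℝ))]
  have hx2 : p * D.n < (x : ℝ) := by
    rw [hx]; push_cast; linarith [Int.lt_floor_add_one (p * (D.n : ℝ))]
  have hy1 : q * D.n ≤ (y : ℝ) := by rw [hy]; exact Int.le_ceil _
  by_cases hxy : x ≤ y
  · have hsub : (D.It.filter (fun m => D.hi m = b ∧ x ≤ D.A m ∧ D.A m < y)) ⊆
        (D.It.filter (fun m => D.hi m = b)).filter
        (fun m => (D.A m : ℝ) / D.n ∈ Set.Ioo p q) := by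
      intro m hm
      rw [Finset.mem_filter] at hm
      obtain ⟨h1, h2, h3, h4⟩ := hm
      rw [Finset.mem_filter, Finset.mem_filter]
      refine ⟨⟨h1, h2⟩, ?_, ?_⟩
      · rw [lt_div_iff₀ hn]
        have : (x : ℝ) ≤ (D.A m : ℝ) := by exact_mod_cast h3
        linarith
      · rw [div_lt_iff₀ hn]
        rw [hy] at h4
        exact Int.lt_ceil.1 h4
    have hb := h.balc b x y (by
        have h1 : 5 * (D.n : ℝ) ≤ 2 * (x : ℝ) := by nlinarith
        exact_mod_cast h1) hxy (by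
        rw [hy]
        apply Int.ceil_le.2
        push_cast
        nlinarith)
    have hb1 := (abs_le.1 hb).1
    have hc : ((D.It.filter (fun m => D.hi m = b ∧ x ≤ D.A m ∧ D.A m < y)).card : ℝ) ≤
        (((D.It.filter (fun m => D.hi m = b)).filter
        (fun m => (D.A m : ℝ) / D.n ∈ Set.Ioo p q)).card : ℝ) := by
      exact_mod_cast Finset.card_le_card hsub
    linarith
  · have h1 : (y : ℝ) < (x : ℝ) := by exact_mod_cast not_le.1 hxy
    have h2 : (0 : ℝ) ≤ (((D.It.filter (fun m => D.hi m = b)).filter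
      (fun m => (D.A m : ℝ) / D.n ∈ Set.Ioo p q)).card : ℝ) := Nat.cast_nonneg _
    linarith

/-- discrepancy of the anchors of the main items of one type. -/
theorem Reg.disc_A (h : D.Reg κ c) (b : Bool) :
    Disc (D.It.filter (fun m => D.hi m = b)) (fun m => (D.A m : ℝ) / D.n) (1 / (D.n : ℝ)) (1 / 2)
      (5 / 2) 3 (κ + 1 / D.n) := by
  have hn : (0 : ℝ) < D.n := by exact_mod_cast h.n_pos
  classical
  refine disc_of (by positivity) (by norm_num) ?_ ?_ ?_
  · intro m hm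
    have hm' := h.anc_A m (Finset.mem_union_right _ (Finset.mem_filter.1 hm).1)
    have h1 : 5 * (D.n : ℝ) ≤ 2 * (D.A m : ℝ) := by exact_mod_cast hm'.1
    have h2 : (D.A m : ℝ) ≤ 3 * D.n := by exact_mod_cast hm'.2
    constructor
    · rw [le_div_iff₀ hn]; linarith
    · rw [div_le_iff₀ hn]; linarith
  · intro p q hp hpq hq
    rw [sum_ind_card (D.It.filter (fun m => D.hi m = b)) (fun m => (D.A m : ℝ) / D.n) (Set.Icc p q)]
    rw [one_div, inv_mul_le_iff₀ hn]
    refine le_trans (h.count_up b hp hpq hq) (le_of_eq ?_)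
    field_simp
    ring
  · intro p q hp hpq hq
    rw [sum_ind_card (D.It.filter (fun m => D.hi m = b)) (fun m => (D.A m : ℝ) / D.n) (Set.Ioo p q)]
    refine le_trans ?_ (le_of_eq (one_div_mul_eq_div (D.n : ℝ) _).symm)
    rw [le_div_iff₀ hn]
    refine le_trans (le_of_eq ?_) (h.count_lo b hp hq)
    field_simp
    ring

end Dat

end Pool.Agent.PGr
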