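import Mathlib
import Pool.Agent.PGr.EPr
import Pool.Agent.PGr.KDat

/-!
# PGr, module EFf: the probability `pD d` is close to `ff (d/n)`

`h : D.Reg κ c`, `Q = q^2`, `T = 2 S Q`, `u = unD d`. `h.n_pos : 0 < D.n` (KDat.lean), `D.q_pos`, `D.S_pos`.

PLAN. `pD_formula h hR hd1` (EPr.lean): `pD d = 1 - #F / (2 S)` with
`F = {v ∈ Sv | un v = u ∧ ((hi v = true ∧ B0 ≤ anc v - d ∧ anc v - d < B0 + T) ∨
      (hi v = false ∧ B0 ≤ anc v + d ∧ anc v + d < B0 + T))}`; F is the disjoint union of the high part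
`FH` and the low part `FL`.
Unfold `D.A v` (`= anc v` for high, `3n - anc v` for low v):
 `FH = {v | un v = u ∧ hi v = true ∧ B0 + d ≤ A v ∧ A v < B0 + T + d}`,
 `FL = {v | un v = u ∧ hi v = false ∧ 3n + d - B0 - T + 1 ≤ A v ∧ A v < 3n + d - B0 + 1}`,
and always `5n ≤ 2 A v`, `A v ≤ 3n` (`h.anc_A`). With integers `x := max ⌈5n/2⌉ (B0+d)`,
`y := min (3n) (B0+T+d)` (similarly for FL) and, if `x ≤ y`, `h.bals_up` / `h.bals` for `[x,y)`:
 `#FH ≤ (y-x)/(2Q) + κ n/Q + 1` (`+1`: the vertices with `A v = 3n`, `hi v = b` have equal anchors, so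
  by `hA` there is at most one), and `#FH ≥ (y-x)/(2Q) - κ n/Q` if `u ∉ Bd`; if `y < x`: `#FH ≤ 1`.
Sizes: `n ≤ B0 ≤ (1+κ) n` and `(2-κ) n ≤ B0 + T ≤ 2n` (`B0_low`, `B0_high`, `S_low`), so for `t = d/n` the
length `max(y-x,0)/n` is within `κ + 2/n` of `trap t / 2` (cases `t ≤ 1/2`, `≤ 1`, `≤ 3/2`, `≤ 2`; e.g.
`1/2 ≤ t ≤ 1`: `x = 5n/2`, `y = B0+T+d`, length/n = `2 + t - 5/2 ± κ = t - 1/2 ± κ = trap t / 2 ± κ`; for FL the
interval is `[3n + d - 2n, 3n + d - n) ∩ [5n/2, 3n]` up to `κ n`: the same length). Hence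
`#F = trap t * n / (2Q) ± (3 κ n/Q + 2 n.../Q ...)`, and `(1-κ) n ≤ 2 S Q ≤ n` gives
`#F/(2S) = trap t / 2 ± (20 κ + 20 Q/n)`; `ff t = 1 - trap t / 2` (`PGrK.ff`, `PGrK.trap`, KMain.lean).
The constants in the statements are generous.
-/

noncomputable section

namespace Pool.Agent.PGr

open Finset

namespace Dat

variable {D : Dat} {κ c : ℝ}

/-- the number of vertices with maximal normalised anchor -/
private theorem top_card (hA : ∀ v ∈ D.Sv, ∀ v' ∈ D.Sv, D.anc v = D.anc v' → v = v') (b : Bool)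
    (E : Finset ℕ) (hE : ∀ v ∈ E, v ∈ D.Sv ∧ D.hi v = b ∧ D.A v = 3 * (D.n : ℤ)) :
    E.card ≤ 1 := by
  rw [Finset.card_le_one]
  intro v hv v' hv'
  obtain ⟨h1, h2, h3⟩ := hE v hv
  obtain ⟨h1', h2', h3'⟩ := hE v' hv'
  refine hA v h1 v' h1' ?_
  unfold Dat.A at h3 h3'
  rw [h2] at h3
  rw [h2'] at h3'
  cases b with
  | true =>
    simp only [if_true] at h3 h3'
    rw [h3, h3']
  | false =>
    simp only [Bool.false_eq_true, if_false] at h3 h3'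
    linarith

open Classical in
private theorem cnt_up (h : D.Reg κ c) (hκ0 : 0 ≤ κ)
    (hA : ∀ v ∈ D.Sv, ∀ v' ∈ D.Sv, D.anc v = D.anc v' → v = v')
    {u : ZMod (D.q ^ 2)} (hu : u ∉ D.Res) (b : Bool) (p r : ℤ) :
    ((D.Sv.filter (fun v => D.un v = u ∧ D.hi v = b ∧ p ≤ D.A v ∧ D.A v < r)).card : ℝ) ≤
      max (min (3 * (D.n : ℝ)) r - max (5 / 2 * (D.n : ℝ)) p) 0 / (2 * (D.q : ℝ) ^ 2) +
        κ * D.n / (D.q : ℝ) ^ 2 + 1 := by
  have hn : (0 : ℝ) < D.n := by exact_mod_cast h.n_pos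
  have hQ : (0 : ℝ) < (D.q : ℝ) ^ 2 := by
    have : (0 : ℝ) < D.q := by exact_mod_cast h.q_prime.pos
    positivity
  obtain ⟨x, hx⟩ : ∃ x : ℤ, x = max ((5 * (D.n : ℤ) + 1) / 2) p := ⟨_, rfl⟩
  obtain ⟨y, hy⟩ : ∃ y : ℤ, y = min (3 * (D.n : ℤ)) r := ⟨_, rfl⟩
  have hx1 : 5 * (D.n : ℤ) ≤ 2 * x := by
    have : (5 * (D.n : ℤ) + 1) / 2 ≤ x := by rw [hx]; exact le_max_left _ _
    omega
  have hx2 : p ≤ x := by rw [hx]; exact le_max_right _ _
  have hy1 : y ≤ 3 * D.n := by rw [hy]; exact min_le_left _ _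
  have hterm : 0 ≤ κ * D.n / (D.q : ℝ) ^ 2 := by positivity
  by_cases hxy : x ≤ y
  · have hb := h.bals_up u hu b x y hx1 hxy hy1
    have hsub : (D.Sv.filter (fun v => D.un v = u ∧ D.hi v = b ∧ p ≤ D.A v ∧ D.A v < r)) ⊆
        (D.Sv.filter (fun v => D.un v = u ∧ D.hi v = b ∧ x ≤ D.A v ∧ D.A v < y)) ∪
        (D.Sv.filter (fun v => D.hi v = b ∧ D.A v = 3 * (D.n : ℤ))) := by
      intro v hv
      rw [mem_filter] at hv
      obtain ⟨h1, h2, h3, h4, h5⟩ := hv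
      have h6 := h.anc_A v (Finset.mem_union_left _ h1)
      rw [mem_union, mem_filter, mem_filter]
      by_cases h7 : D.A v = 3 * (D.n : ℤ)
      · exact Or.inr ⟨h1, h3, h7⟩
      · refine Or.inl ⟨h1, h2, h3, ?_, ?_⟩
        · rw [hx]
          refine max_le ?_ h4
          omega
        · rw [hy]
          refine lt_min ?_ h5
          omega
    have htop := top_card hA b (D.Sv.filter (fun v => D.hi v = b ∧ D.A v = 3 * (D.n : ℤ)))
      (fun v hv => by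
        rw [mem_filter] at hv
        exact hv)
    have hcard := (Finset.card_le_card hsub).trans (Finset.card_union_le _ _)
    have hcard' : ((D.Sv.filter (fun v => D.un v = u ∧ D.hi v = b ∧ p ≤ D.A v ∧
        D.A v < r)).card : ℝ) ≤
        ((D.Sv.filter (fun v => D.un v = u ∧ D.hi v = b ∧ x ≤ D.A v ∧ D.A v < y)).card : ℝ) + 1 := by
      have : (D.Sv.filter (fun v => D.un v = u ∧ D.hi v = b ∧ p ≤ D.A v ∧ D.A v < r)).card ≤
          (D.Sv.filter (fun v => D.un v = u ∧ D.hi v = b ∧ x ≤ D.A v ∧ D.A v < y)).card + 1 := by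
        omega
      exact_mod_cast this
    have hlen : (y : ℝ) - x ≤ max (min (3 * (D.n : ℝ)) r - max (5 / 2 * (D.n : ℝ)) p) 0 := by
      refine le_trans ?_ (le_max_left _ _)
      have e1 : (y : ℝ) = min (3 * (D.n : ℝ)) r := by rw [hy]; push_cast; rfl
      have e2 : max (5 / 2 * (D.n : ℝ)) p ≤ x := by
        refine max_le ?_ (by exact_mod_cast hx2)
        have : 5 * (D.n : ℝ) ≤ 2 * (x : ℝ) := by exact_mod_cast hx1
        linarith
      linarith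
    have hdiv : ((y : ℝ) - x) / (2 * (D.q : ℝ) ^ 2) ≤
        max (min (3 * (D.n : ℝ)) r - max (5 / 2 * (D.n : ℝ)) p) 0 / (2 * (D.q : ℝ) ^ 2) :=
      div_le_div_of_nonneg_right hlen (by positivity)
    linarith
  · have hemp : D.Sv.filter (fun v => D.un v = u ∧ D.hi v = b ∧ p ≤ D.A v ∧ D.A v < r) = ∅ := by
      rw [Finset.filter_eq_empty_iff]
      rintro v hv ⟨-, -, h4, h5⟩
      have h6 := h.anc_A v (Finset.mem_union_left _ hv)
      apply hxy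
      have h7 : x ≤ D.A v := by
        rw [hx]
        refine max_le ?_ h4
        omega
      have h8 : D.A v ≤ y := by
        rw [hy]
        exact le_min h6.2 h5.le
      exact h7.trans h8
    rw [hemp, Finset.card_empty]
    have : 0 ≤ max (min (3 * (D.n : ℝ)) r - max (5 / 2 * (D.n : ℝ)) p) 0 / (2 * (D.q : ℝ) ^ 2) :=
      div_nonneg (le_max_right _ _) (by positivity)
    push_cast
    linarith

open Classical in
private theorem cnt_lo (h : D.Reg κ c) (hκ0 : 0 ≤ κ)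
    {u : ZMod (D.q ^ 2)} (hu : u ∉ D.Res) (hB : u ∉ D.Bd) (b : Bool) (p r : ℤ) :
    (min (3 * (D.n : ℝ)) r - max (5 / 2 * (D.n : ℝ)) p - 1) / (2 * (D.q : ℝ) ^ 2) -
        κ * D.n / (D.q : ℝ) ^ 2 ≤
    ((D.Sv.filter (fun v => D.un v = u ∧ D.hi v = b ∧ p ≤ D.A v ∧ D.A v < r)).card : ℝ) := by
  have hn : (0 : ℝ) < D.n := by exact_mod_cast h.n_pos
  have hQ : (0 : ℝ) < (D.q : ℝ) ^ 2 := by
    have : (0 : ℝ) < D.q := by exact_mod_cast h.q_prime.pos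
    positivity
  obtain ⟨x, hx⟩ : ∃ x : ℤ, x = max ((5 * (D.n : ℤ) + 1) / 2) p := ⟨_, rfl⟩
  obtain ⟨y, hy⟩ : ∃ y : ℤ, y = min (3 * (D.n : ℤ)) r := ⟨_, rfl⟩
  have hx1 : 5 * (D.n : ℤ) ≤ 2 * x := by
    have : (5 * (D.n : ℤ) + 1) / 2 ≤ x := by rw [hx]; exact le_max_left _ _
    omega
  have hy1 : y ≤ 3 * D.n := by rw [hy]; exact min_le_left _ _
  have e1 : (y : ℝ) = min (3 * (D.n : ℝ)) r := by rw [hy]; push_cast; rfl
  have e2 : (x : ℝ) ≤ max (5 / 2 * (D.n : ℝ)) p + 1 := by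
    have h1 := le_max_left (5 / 2 * (D.n : ℝ)) (p : ℝ)
    have h2 := le_max_right (5 / 2 * (D.n : ℝ)) (p : ℝ)
    rcases le_total ((5 * (D.n : ℤ) + 1) / 2) p with h3 | h3
    · have : x = p := by rw [hx]; exact max_eq_right h3
      rw [this]; linarith
    · have h4 : x = (5 * (D.n : ℤ) + 1) / 2 := by rw [hx]; exact max_eq_left h3
      have h5 : 2 * x ≤ 5 * (D.n : ℤ) + 1 := by omega
      have h6 : 2 * (x : ℝ) ≤ 5 * (D.n : ℝ) + 1 := by exact_mod_cast h5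
      linarith
  have hterm : 0 ≤ κ * D.n / (D.q : ℝ) ^ 2 := by positivity
  have hlen : min (3 * (D.n : ℝ)) r - max (5 / 2 * (D.n : ℝ)) p - 1 ≤ (y : ℝ) - x := by linarith
  have hdiv : (min (3 * (D.n : ℝ)) r - max (5 / 2 * (D.n : ℝ)) p - 1) / (2 * (D.q : ℝ) ^ 2) ≤
      ((y : ℝ) - x) / (2 * (D.q : ℝ) ^ 2) :=
    div_le_div_of_nonneg_right hlen (by positivity)
  by_cases hxy : x ≤ y
  · have hb := (abs_le.1 (h.bals u hu hB b x y hx1 hxy hy1)).1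
    have hsub : (D.Sv.filter (fun v => D.un v = u ∧ D.hi v = b ∧ x ≤ D.A v ∧ D.A v < y)) ⊆
        (D.Sv.filter (fun v => D.un v = u ∧ D.hi v = b ∧ p ≤ D.A v ∧ D.A v < r)) := by
      intro v hv
      rw [mem_filter] at hv ⊢
      obtain ⟨h1, h2, h3, h4, h5⟩ := hv
      refine ⟨h1, h2, h3, ?_, ?_⟩
      · exact le_trans (by rw [hx]; exact le_max_right _ _) h4
      · exact lt_of_lt_of_le h5 (by rw [hy]; exact min_le_right _ _)
    have hcard : ((D.Sv.filter (fun v => D.un v = u ∧ D.hi v = b ∧ x ≤ D.A v ∧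
        D.A v < y)).card : ℝ) ≤
        ((D.Sv.filter (fun v => D.un v = u ∧ D.hi v = b ∧ p ≤ D.A v ∧ D.A v < r)).card : ℝ) := by
      exact_mod_cast Finset.card_le_card hsub
    linarith
  · have h1 : (y : ℝ) < (x : ℝ) := by exact_mod_cast not_le.1 hxy
    have h2 : ((y : ℝ) - x) / (2 * (D.q : ℝ) ^ 2) ≤ 0 :=
      div_nonpos_of_nonpos_of_nonneg (by linarith) (by positivity)
    have h3 : (0 : ℝ) ≤ ((D.Sv.filter (fun v => D.un v = u ∧ D.hi v = b ∧ p ≤ D.A v ∧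
      D.A v < r)).card : ℝ) := Nat.cast_nonneg _
    linarith

/-- the length of the truncated interval, upper bound -/
private theorem len_up {n t p r : ℝ} (hn : 0 < n) (ht2 : t ≤ 2) (hp : n + t * n ≤ p)
    (hr : r ≤ 2 * n + t * n + 1) :
    max (min (3 * n) r - max (5 / 2 * n) p) 0 ≤ n * PGrK.trap t / 2 + 1 := by
  have m1 := min_le_left (3 * n) r
  have m2 := min_le_right (3 * n) r
  have m3 := le_max_left (5 / 2 * n) p
  have m4 := le_max_right (5 / 2 * n) p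
  unfold PGrK.trap
  split_ifs with h1 h2 h3
  · have : t * n ≤ 1 / 2 * n := mul_le_mul_of_nonneg_right h1 hn.le
    exact max_le (by linarith) (by linarith)
  · push Not at h1
    have k1 : t * n ≤ 1 * n := mul_le_mul_of_nonneg_right h2 hn.le
    have k2 : 1 / 2 * n ≤ t * n := mul_le_mul_of_nonneg_right h1.le hn.le
    exact max_le (by nlinarith) (by nlinarith)
  · exact max_le (by nlinarith) (by nlinarith)
  · have k1 : t * n ≤ 2 * n := mul_le_mul_of_nonneg_right ht2 hn.le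
    exact max_le (by nlinarith) (by nlinarith)

/-- the length of the truncated interval, lower bound -/
private theorem len_lo {n t p r κ : ℝ} (hn : 0 < n) (hκ : 0 ≤ κ) (ht1 : 1 / 2 < t) (ht2 : t ≤ 2)
    (hp : p ≤ n + t * n + κ * n + 1) (hr : 2 * n + t * n - κ * n ≤ r) :
    n * PGrK.trap t / 2 - 2 * (κ * n) - 1 ≤ min (3 * n) r - max (5 / 2 * n) p := by
  have hκn : 0 ≤ κ * n := by positivity
  unfold PGrK.trap
  split_ifs with h1 h2 h3
  · exact absurd h1 (not_le.2 ht1)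
  · have k1 : t * n ≤ 1 * n := mul_le_mul_of_nonneg_right h2 hn.le
    have a1 : 2 * n + t * n - κ * n ≤ min (3 * n) r := le_min (by linarith) hr
    have a2 : max (5 / 2 * n) p ≤ 5 / 2 * n + κ * n + 1 := max_le (by linarith) (by linarith)
    nlinarith
  · push Not at h2
    have k1 : 1 * n ≤ t * n := mul_le_mul_of_nonneg_right h2.le hn.le
    have k2 : t * n ≤ 3 / 2 * n := mul_le_mul_of_nonneg_right h3 hn.le
    have a1 : 3 * n - κ * n ≤ min (3 * n) r := le_min (by linarith) (by linarith)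
    have a2 : max (5 / 2 * n) p ≤ 5 / 2 * n + κ * n + 1 := max_le (by linarith) (by linarith)
    linarith
  · push Not at h3
    have k1 : 3 / 2 * n ≤ t * n := mul_le_mul_of_nonneg_right h3.le hn.le
    have a1 : 3 * n - κ * n ≤ min (3 * n) r := le_min (by linarith) (by linarith)
    have a2 : max (5 / 2 * n) p ≤ n + t * n + κ * n + 1 := max_le (by linarith) (by linarith)
    nlinarith

private theorem trap_bd (t : ℝ) : 0 ≤ PGrK.trap t ∧ PGrK.trap t ≤ 1 := by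
  unfold PGrK.trap
  split_ifs <;> constructor <;> linarith

open Classical in
/-- the set of the formula for `pD` is the disjoint union of the high and the low part -/
private theorem F_card (D : Dat) (u : ZMod (D.q ^ 2)) (d : ℤ) :
    (D.Sv.filter (fun v => D.un v = u ∧
      ((D.hi v = true ∧ (D.B0 : ℤ) ≤ D.anc v - d ∧ D.anc v - d < D.B0 + 2 * D.S * D.q ^ 2) ∨
       (D.hi v = false ∧ (D.B0 : ℤ) ≤ D.anc v + d ∧
         D.anc v + d < D.B0 + 2 * D.S * D.q ^ 2)))).card =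
    (D.Sv.filter (fun v => D.un v = u ∧ D.hi v = true ∧ (D.B0 : ℤ) + d ≤ D.A v ∧
      D.A v < D.B0 + 2 * D.S * D.q ^ 2 + d)).card +
    (D.Sv.filter (fun v => D.un v = u ∧ D.hi v = false ∧
      3 * (D.n : ℤ) + d - D.B0 - 2 * D.S * D.q ^ 2 + 1 ≤ D.A v ∧
      D.A v < 3 * (D.n : ℤ) + d - D.B0 + 1)).card := by
  rw [← Finset.card_union_of_disjoint]
  · congr 1
    ext v
    simp only [mem_union, mem_filter]
    unfold Dat.A
    cases hh : D.hi v with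
    | true =>
      simp only [if_true, true_and, Bool.true_eq_false, false_and, or_false, and_false]
      constructor
      · rintro ⟨h1, h2, h3, h4⟩
        exact ⟨h1, h2, by linarith, by linarith⟩
      · rintro ⟨h1, h2, h3, h4⟩
        exact ⟨h1, h2, by linarith, by linarith⟩
    | false =>
      simp only [Bool.false_eq_true, if_false, true_and, false_and, false_or, and_false]
      constructor
      · rintro ⟨h1, h2, h3, h4⟩
        exact ⟨h1, h2, by linarith, by linarith⟩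
      · rintro ⟨h1, h2, h3, h4⟩
        exact ⟨h1, h2, by linarith, by linarith⟩
  · rw [Finset.disjoint_left]
    intro v hv hv'
    rw [mem_filter] at hv hv'
    have h1 := hv.2.2.1
    rw [hv'.2.2.1] at h1
    exact absurd h1 (by simp)

/-- the sizes of the window -/
private theorem sizes (h : D.Reg κ c) :
    (0 : ℝ) < D.n ∧ (1 : ℝ) ≤ (D.q : ℝ) ^ 2 ∧ (0 : ℝ) < D.S ∧ (D.n : ℝ) ≤ D.B0 ∧
    (D.B0 : ℝ) + 2 * D.S * (D.q : ℝ) ^ 2 ≤ 2 * D.n ∧
    (1 - κ) * D.n ≤ 2 * D.S * (D.q : ℝ) ^ 2 := by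
  refine ⟨by exact_mod_cast h.n_pos, ?_, ?_, by exact_mod_cast h.B0_low, ?_, h.S_low⟩
  · have : 1 ≤ D.q ^ 2 := Nat.one_le_pow _ _ h.q_prime.pos
    exact_mod_cast this
  · have h1 : 0 < D.S := Nat.pos_of_ne_zero (NeZero.ne D.S)
    exact_mod_cast h1
  · exact_mod_cast h.B0_high

theorem pD_ff_ge (h : D.Reg κ c) (hκ0 : 0 ≤ κ) (hκ : κ ≤ 1 / 5)
    (hA : ∀ v ∈ D.Sv, ∀ v' ∈ D.Sv, D.anc v = D.anc v' → v = v')
    {d : ℤ} (hd1 : 1 ≤ d) (hd2 : d ≤ 2 * D.n) (hR : unD D.q d ∉ D.Res) :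
    PGrK.ff ((d : ℝ) / D.n) - (20 * κ + 20 * ((D.q : ℝ) ^ 2 / D.n)) ≤ D.pD d := by
  classical
  obtain ⟨hn, hQ, hS, hB1, hB2, hT⟩ := sizes h
  obtain ⟨t, ht⟩ : ∃ t : ℝ, t = (d : ℝ) / D.n := ⟨_, rfl⟩
  have htn : t * D.n = d := by rw [ht]; field_simp
  have ht2 : t ≤ 2 := by
    rw [ht, div_le_iff₀ hn]
    exact_mod_cast hd2
  have hH := cnt_up h hκ0 hA hR true ((D.B0 : ℤ) + d) (D.B0 + 2 * D.S * D.q ^ 2 + d)
  have hL := cnt_up h hκ0 hA hR false (3 * (D.n : ℤ) + d - D.B0 - 2 * D.S * D.q ^ 2 + 1)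
    (3 * (D.n : ℤ) + d - D.B0 + 1)
  have lH := len_up (n := (D.n : ℝ)) (t := t) (p := (((D.B0 : ℤ) + d : ℤ) : ℝ))
    (r := ((D.B0 + 2 * D.S * D.q ^ 2 + d : ℤ) : ℝ)) hn ht2
    (by push_cast; linarith) (by push_cast; linarith)
  have lL := len_up (n := (D.n : ℝ)) (t := t)
    (p := ((3 * (D.n : ℤ) + d - D.B0 - 2 * D.S * D.q ^ 2 + 1 : ℤ) : ℝ))
    (r := ((3 * (D.n : ℤ) + d - D.B0 + 1 : ℤ) : ℝ)) hn ht2
    (by push_cast; linarith) (by push_cast; linarith)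
  have hform := pD_formula h hR hd1
  rw [F_card] at hform
  rw [hform, ← ht]
  obtain ⟨a, ha⟩ : ∃ a : ℝ, a = ((D.Sv.filter (fun v => D.un v = unD D.q d ∧ D.hi v = true ∧
      (D.B0 : ℤ) + d ≤ D.A v ∧ D.A v < D.B0 + 2 * D.S * D.q ^ 2 + d)).card : ℝ) := ⟨_, rfl⟩
  obtain ⟨b, hb⟩ : ∃ b : ℝ, b = ((D.Sv.filter (fun v => D.un v = unD D.q d ∧ D.hi v = false ∧
      3 * (D.n : ℤ) + d - D.B0 - 2 * D.S * D.q ^ 2 + 1 ≤ D.A v ∧
      D.A v < 3 * (D.n : ℤ) + d - D.B0 + 1)).card : ℝ) := ⟨_, rfl⟩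
  rw [← ha] at hH
  rw [← hb] at hL
  rw [Nat.cast_add, ← ha, ← hb]
  obtain ⟨tb1, tb2⟩ := trap_bd t
  have hQ0 : (0 : ℝ) < (D.q : ℝ) ^ 2 := by linarith
  have h2Q : (0 : ℝ) < 2 * (D.q : ℝ) ^ 2 := by linarith
  have hq0 : (D.q : ℝ) ≠ 0 := by
    have := h.q_prime.pos
    exact_mod_cast this.ne'
  have uH : a ≤ (D.n * PGrK.trap t / 2 + 1) / (2 * (D.q : ℝ) ^ 2) + κ * D.n / (D.q : ℝ) ^ 2 + 1 := by
    have := div_le_div_of_nonneg_right lH h2Q.le
    linarith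
  have uL : b ≤ (D.n * PGrK.trap t / 2 + 1) / (2 * (D.q : ℝ) ^ 2) + κ * D.n / (D.q : ℝ) ^ 2 + 1 := by
    have := div_le_div_of_nonneg_right lL h2Q.le
    linarith
  have uS : (a + b) * (D.q : ℝ) ^ 2 ≤
      D.n * PGrK.trap t / 2 + 1 + 2 * (κ * D.n) + 2 * (D.q : ℝ) ^ 2 := by
    have e1 : a + b ≤ (D.n * PGrK.trap t / 2 + 1 + 2 * (κ * D.n) + 2 * (D.q : ℝ) ^ 2) /
        (D.q : ℝ) ^ 2 := by
      refine (add_le_add uH uL).trans (le_of_eq ?_)
      field_simp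
      ring
    rwa [le_div_iff₀ hQ0] at e1
  have key : (a + b) / (2 * D.S) ≤ PGrK.trap t / 2 + (20 * κ + 20 * ((D.q : ℝ) ^ 2 / D.n)) := by
    have e2 : (a + b) / (2 * D.S) = (a + b) * (D.q : ℝ) ^ 2 / (2 * D.S * (D.q : ℝ) ^ 2) := by
      field_simp
    have hTpos : 0 < (1 - κ) * (D.n : ℝ) := mul_pos (by linarith) hn
    have hTT : 0 < 2 * (D.S : ℝ) * (D.q : ℝ) ^ 2 := by linarith
    rw [e2, div_le_iff₀ hTT]
    have e3 : (PGrK.trap t / 2 + (20 * κ + 20 * ((D.q : ℝ) ^ 2 / D.n))) * ((1 - κ) * D.n) ≤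
        (PGrK.trap t / 2 + (20 * κ + 20 * ((D.q : ℝ) ^ 2 / D.n))) *
          (2 * D.S * (D.q : ℝ) ^ 2) := by
      refine mul_le_mul_of_nonneg_left hT ?_
      positivity
    refine uS.trans (le_trans ?_ e3)
    have e4 : (PGrK.trap t / 2 + (20 * κ + 20 * ((D.q : ℝ) ^ 2 / D.n))) * ((1 - κ) * D.n) =
        (1 - κ) * (D.n * PGrK.trap t / 2 + 20 * (κ * D.n) + 20 * (D.q : ℝ) ^ 2) := by
      field_simp
      ring
    rw [e4]
    have hκn : 0 ≤ κ * (D.n : ℝ) := by positivity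
    have e5 : κ * (D.n * PGrK.trap t / 2) ≤ κ * D.n / 2 := by
      have : D.n * PGrK.trap t ≤ D.n := mul_le_of_le_one_right hn.le tb2
      have := mul_le_mul_of_nonneg_left this hκ0
      linarith
    have e6 : κ * (20 * (κ * D.n)) ≤ 4 * (κ * D.n) := by
      have := mul_le_mul_of_nonneg_right hκ (show 0 ≤ 20 * (κ * (D.n : ℝ)) by positivity)
      linarith
    have e7 : κ * (20 * (D.q : ℝ) ^ 2) ≤ 4 * (D.q : ℝ) ^ 2 := by
      have := mul_le_mul_of_nonneg_right hκ (show 0 ≤ 20 * ((D.q : ℝ) ^ 2) by positivity)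
      linarith
    have e8 : (1 - κ) * (D.n * PGrK.trap t / 2 + 20 * (κ * D.n) + 20 * (D.q : ℝ) ^ 2) =
        D.n * PGrK.trap t / 2 + 20 * (κ * D.n) + 20 * (D.q : ℝ) ^ 2 -
          κ * (D.n * PGrK.trap t / 2) - κ * (20 * (κ * D.n)) - κ * (20 * (D.q : ℝ) ^ 2) := by ring
    rw [e8]
    linarith
  unfold PGrK.ff
  linarith

theorem pD_ff_le (h : D.Reg κ c) (hκ0 : 0 ≤ κ) (hκ : κ ≤ 1 / 5)
    (hA : ∀ v ∈ D.Sv, ∀ v' ∈ D.Sv, D.anc v = D.anc v' → v = v')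
    {d : ℤ} (hd1 : 1 ≤ d) (hd2 : d ≤ 2 * D.n) (hR : unD D.q d ∉ D.Res) (hB : unD D.q d ∉ D.Bd) :
    D.pD d ≤ PGrK.ff ((d : ℝ) / D.n) + (20 * κ + 20 * ((D.q : ℝ) ^ 2 / D.n)) := by
  classical
  obtain ⟨hn, hQ, hS, hB1, hB2, hT⟩ := sizes h
  obtain ⟨t, ht⟩ : ∃ t : ℝ, t = (d : ℝ) / D.n := ⟨_, rfl⟩
  have htn : t * D.n = d := by rw [ht]; field_simp
  have ht2 : t ≤ 2 := by
    rw [ht, div_le_iff₀ hn]
    exact_mod_cast hd2
  have hH := cnt_lo h hκ0 hR hB true ((D.B0 : ℤ) + d) (D.B0 + 2 * D.S * D.q ^ 2 + d)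
  have hL := cnt_lo h hκ0 hR hB false (3 * (D.n : ℤ) + d - D.B0 - 2 * D.S * D.q ^ 2 + 1)
    (3 * (D.n : ℤ) + d - D.B0 + 1)
  have hform := pD_formula h hR hd1
  rw [F_card] at hform
  rw [hform, ← ht]
  obtain ⟨a, ha⟩ : ∃ a : ℝ, a = ((D.Sv.filter (fun v => D.un v = unD D.q d ∧ D.hi v = true ∧
      (D.B0 : ℤ) + d ≤ D.A v ∧ D.A v < D.B0 + 2 * D.S * D.q ^ 2 + d)).card : ℝ) := ⟨_, rfl⟩
  obtain ⟨b, hb⟩ : ∃ b : ℝ, b = ((D.Sv.filter (fun v => D.un v = unD D.q d ∧ D.hi v = false ∧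
      3 * (D.n : ℤ) + d - D.B0 - 2 * D.S * D.q ^ 2 + 1 ≤ D.A v ∧
      D.A v < 3 * (D.n : ℤ) + d - D.B0 + 1)).card : ℝ) := ⟨_, rfl⟩
  have ha0 : 0 ≤ a := by rw [ha]; exact Nat.cast_nonneg _
  have hb0 : 0 ≤ b := by rw [hb]; exact Nat.cast_nonneg _
  rw [← ha] at hH
  rw [← hb] at hL
  rw [Nat.cast_add, ← ha, ← hb]
  obtain ⟨tb1, tb2⟩ := trap_bd t
  have hQ0 : (0 : ℝ) < (D.q : ℝ) ^ 2 := by linarith
  have h2Q : (0 : ℝ) < 2 * (D.q : ℝ) ^ 2 := by linarith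
  have hq0 : (D.q : ℝ) ≠ 0 := by
    have := h.q_prime.pos
    exact_mod_cast this.ne'
  have hκn : 0 ≤ κ * (D.n : ℝ) := by positivity
  have uS : D.n * PGrK.trap t / 2 - 4 * (κ * D.n) - 2 ≤ (a + b) * (D.q : ℝ) ^ 2 := by
    by_cases ht1 : 1 / 2 < t
    · have lH := len_lo (n := (D.n : ℝ)) (t := t) (p := (((D.B0 : ℤ) + d : ℤ) : ℝ))
        (r := ((D.B0 + 2 * D.S * D.q ^ 2 + d : ℤ) : ℝ)) hn hκ0 ht1 ht2
        (by push_cast; linarith) (by push_cast; linarith)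
      have lL := len_lo (n := (D.n : ℝ)) (t := t)
        (p := ((3 * (D.n : ℤ) + d - D.B0 - 2 * D.S * D.q ^ 2 + 1 : ℤ) : ℝ))
        (r := ((3 * (D.n : ℤ) + d - D.B0 + 1 : ℤ) : ℝ)) hn hκ0 ht1 ht2
        (by push_cast; linarith) (by push_cast; linarith)
      have uH : (D.n * PGrK.trap t / 2 - 2 * (κ * D.n) - 2) / (2 * (D.q : ℝ) ^ 2) -
          κ * D.n / (D.q : ℝ) ^ 2 ≤ a := by
        refine le_trans ?_ hH
        have h1 := div_le_div_of_nonneg_right (sub_le_sub_right lH 1) h2Q.le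
        have e0 : D.n * PGrK.trap t / 2 - 2 * (κ * D.n) - 2 =
            D.n * PGrK.trap t / 2 - 2 * (κ * D.n) - 1 - 1 := by ring
        rw [e0]
        linarith
      have uL : (D.n * PGrK.trap t / 2 - 2 * (κ * D.n) - 2) / (2 * (D.q : ℝ) ^ 2) -
          κ * D.n / (D.q : ℝ) ^ 2 ≤ b := by
        refine le_trans ?_ hL
        have h1 := div_le_div_of_nonneg_right (sub_le_sub_right lL 1) h2Q.le
        have e0 : D.n * PGrK.trap t / 2 - 2 * (κ * D.n) - 2 =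
            D.n * PGrK.trap t / 2 - 2 * (κ * D.n) - 1 - 1 := by ring
        rw [e0]
        linarith
      have e1 : (D.n * PGrK.trap t / 2 - 4 * (κ * D.n) - 2) / (D.q : ℝ) ^ 2 ≤ a + b := by
        refine (le_of_eq ?_).trans (add_le_add uH uL)
        field_simp
        ring
      rwa [div_le_iff₀ hQ0] at e1
    · have e1 : PGrK.trap t = 0 := by
        unfold PGrK.trap
        rw [if_pos (not_lt.1 ht1)]
      rw [e1]
      have : 0 ≤ (a + b) * (D.q : ℝ) ^ 2 := by positivity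
      linarith
  have key : PGrK.trap t / 2 - (20 * κ + 20 * ((D.q : ℝ) ^ 2 / D.n)) ≤ (a + b) / (2 * D.S) := by
    have e2 : (a + b) / (2 * D.S) = (a + b) * (D.q : ℝ) ^ 2 / (2 * D.S * (D.q : ℝ) ^ 2) := by
      field_simp
    have hTT : 0 < 2 * (D.S : ℝ) * (D.q : ℝ) ^ 2 := by positivity
    have hTn : 2 * (D.S : ℝ) * (D.q : ℝ) ^ 2 ≤ D.n := by linarith
    rw [e2, le_div_iff₀ hTT]
    by_cases h0 : PGrK.trap t / 2 - (20 * κ + 20 * ((D.q : ℝ) ^ 2 / D.n)) ≤ 0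
    · have e3 : (PGrK.trap t / 2 - (20 * κ + 20 * ((D.q : ℝ) ^ 2 / D.n))) *
          (2 * D.S * (D.q : ℝ) ^ 2) ≤ 0 := mul_nonpos_of_nonpos_of_nonneg h0 hTT.le
      have : 0 ≤ (a + b) * (D.q : ℝ) ^ 2 := by positivity
      linarith
    · push Not at h0
      refine (mul_le_mul_of_nonneg_left hTn h0.le).trans (le_trans ?_ uS)
      have e4 : (PGrK.trap t / 2 - (20 * κ + 20 * ((D.q : ℝ) ^ 2 / D.n))) * D.n =
          D.n * PGrK.trap t / 2 - 20 * (κ * D.n) - 20 * (D.q : ℝ) ^ 2 := by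
        field_simp
        ring
      rw [e4]
      linarith
  unfold PGrK.ff
  linarith

end Dat

end Pool.Agent.PGr
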