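import Mathlib
import Pool.Agent.PGr.E3c
import Pool.Agent.PGr.EFf

/-!
# PGr, module E3: lower bound for the expected degrees, proof of `E3Stmt`
-/

noncomputable section

namespace Pool.Agent.PGr

open Finset

namespace Dat

variable {D : Dat} {κ c : ℝ}

/-- lower bound for the expected degree -/
theorem GG_low (h : D.Reg κ c) (hκ : κ ≤ 1 / 5) (hn : 10 ≤ D.n) {e : ℝ} (he : 0 ≤ e)
    (he1 : e ≤ 1 / 10) {δ : ℝ} (hδ0 : 0 ≤ δ) (hδ : δ ≤ 1 / 10)
    (hs : ∀ (b : Bool) (a y1 y2 : ℤ), D.gen3 b a y1 y2 → |D.sig e b a y1 y2 - 1| ≤ δ)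
    {d : ℤ} (hd : d ∈ D.D0) (hD : d ∉ D.Ddef) (hd2 : d ≤ 2 * D.n) :
    D.rho e d / ((1 + e) ^ 2 * (1 + δ)) * (PGrK.ff ((d : ℝ) / D.n) -
      2 * (6600 * κ + 9450 * ((D.q : ℝ) ^ 2 / D.n))) -
      D.rho e d * (936 * κ + 156000 * (1 / √(D.q : ℝ)) + 160 * (1 / D.n) +
        800 * ((D.q : ℝ) ^ 2 / D.n)) ≤ D.GG e d := by
  classical
  have hd1 := (h.D0_sub d hd).1
  have hnr : (0 : ℝ) < D.n := by exact_mod_cast h.n_pos
  have hq0 : (0 : ℝ) < D.q := by exact_mod_cast D.q_pos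
  have hsq : 0 < √(D.q : ℝ) := Real.sqrt_pos.2 hq0
  have hS : (0 : ℝ) < D.S := by exact_mod_cast D.S_pos
  have hκ1 : κ ≤ 1 / 4 := by linarith
  have hρ := rho_nonneg (D := D) he d
  have hs' : ∀ (b : Bool) (a y1 y2 : ℤ), D.gen3 b a y1 y2 → 9 / 10 ≤ D.sig e b a y1 y2 :=
    fun b a y1 y2 hg => by linarith [(abs_le.1 (hs b a y1 y2 hg)).1]
  have hbad : ((D.badL (D.Ld d)).card : ℝ) ≤ 24 * (κ * D.n) := by
    have := badL_card h (D.Ld d) (Ld_pm d)
    rw [Ld_length] at this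
    exact_mod_cast this
  obtain ⟨NQ, hNQ⟩ : ∃ NQ : Finset ℕ, NQ = D.It.filter (fun m => D.pure m ∧
      ¬ noQ D.q (D.hi m) ((D.anc m : ℤ) : ZMod (D.q ^ 2)) (D.cls (D.nb1 m)) (D.cls (D.nb2 m))
        ((d : ℤ) : ZMod (D.q ^ 2))) := ⟨_, rfl⟩
  have hNQc : (NQ.card : ℝ) ≤ 4000 * (D.n : ℝ) * (1 / √(D.q : ℝ)) := by
    have h1 : ¬ 4000 * (D.n : ℝ) < ((D.It.filter (fun m => D.pure m ∧
      ¬ noQ D.q (D.hi m) ((D.anc m : ℤ) : ZMod (D.q ^ 2)) (D.cls (D.nb1 m)) (D.cls (D.nb2 m))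
        ((d : ℤ) : ZMod (D.q ^ 2)))).card : ℝ) * √(D.q : ℝ) := by
      intro h1
      apply hD
      unfold Ddef
      rw [Finset.mem_filter]
      refine ⟨hd, Or.inr (Or.inr (Or.inl ?_))⟩
      convert h1
    have h2 : (NQ.card : ℝ) * √(D.q : ℝ) ≤ 4000 * (D.n : ℝ) := by
      rw [hNQ]
      exact not_lt.1 h1
    rw [mul_one_div, le_div_iff₀ hsq]
    exact h2
  have havg : ∀ m, 0 ≤ D.avg2 m (D.rol m d) ∧ D.avg2 m (D.rol m d) ≤ 39 := by
    intro m
    have h1 := avg2_mono (D := D) m (f := fun _ _ => 0) (g := D.rol m d)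
      (fun t1 t2 => (rol_bd h m d _ _).1)
    have h2 := avg2_mono (D := D) m (f := D.rol m d) (g := fun _ _ => 39)
      (fun t1 t2 => (rol_bd h m d _ _).2)
    rw [avg2_const] at h1 h2
    exact ⟨h1, h2⟩
  obtain ⟨C, hC⟩ : ∃ C : ℝ, C = (1 + e) ^ 2 * (1 + δ) := ⟨_, rfl⟩
  have hC1 : 1 ≤ C := by
    rw [hC]
    have h3 : 1 ≤ (1 + e) ^ 2 := one_le_pow₀ (by linarith)
    nlinarith
  have hC0 : 0 < C := by linarith
  have step : ∀ m ∈ D.It,
      (if D.pure m then D.rho e d / (D.n * C) * D.avg2 m (D.rol m d) else 0) -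
      ((if m ∈ D.badL (D.Ld d) then 39 * D.rho e d / D.n else 0) +
        (if m ∈ NQ then 39 * D.rho e d / D.n else 0) +
        (if D.pure m then 8 * D.rho e d / D.n *
          (D.quart (xa (D.hi m) (D.anc m) d) + 20 / D.S) else 0)) ≤ D.degC e m d := by
    intro m hm
    have hk := havg m
    have hc := (degC_le h hκ1 he he1 hm hs' d).1
    have hqn := quart_nonneg (D := D) (xa (D.hi m) (D.anc m) d)
    have p1 : (0 : ℝ) ≤ (if m ∈ D.badL (D.Ld d) then 39 * D.rho e d / D.n else 0) := by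
      split_ifs
      · positivity
      · exact le_rfl
    have p2 : (0 : ℝ) ≤ (if m ∈ NQ then 39 * D.rho e d / D.n else 0) := by
      split_ifs
      · positivity
      · exact le_rfl
    by_cases hp : D.pure m
    · rw [if_pos hp, if_pos hp]
      have p3 : 0 ≤ 8 * D.rho e d / D.n *
          (D.quart (xa (D.hi m) (D.anc m) d) + 20 / D.S) := by positivity
      have p4 : D.rho e d / (D.n * C) * D.avg2 m (D.rol m d) ≤ 39 * D.rho e d / D.n := by
        calc D.rho e d / (D.n * C) * D.avg2 m (D.rol m d)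
            ≤ D.rho e d / D.n * 39 := by
              apply mul_le_mul _ hk.2 hk.1 (by positivity)
              apply div_le_div_of_nonneg_left hρ hnr
              nlinarith
          _ = 39 * D.rho e d / D.n := by ring
      by_cases hb : m ∈ D.badL (D.Ld d)
      · rw [if_pos hb]
        linarith
      · by_cases hN : m ∈ NQ
        · rw [if_pos hN]
          linarith
        · have hq : noQ D.q (D.hi m) ((D.anc m : ℤ) : ZMod (D.q ^ 2)) (D.cls (D.nb1 m))
              (D.cls (D.nb2 m)) ((d : ℤ) : ZMod (D.q ^ 2)) := by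
            by_contra hcon
            apply hN
            rw [hNQ, Finset.mem_filter]
            exact ⟨hm, hp, hcon⟩
          have h1 := degC_low h hκ1 he hδ0 (by linarith : δ < 1) hm hp hd hb hq hs
          rw [← hC] at h1
          have h2 := avg2_q5 h hp d
          have h3 : 8 * D.rho e d / D.n * D.avg2 m (D.q5 m d) ≤ 8 * D.rho e d / D.n *
            (D.quart (xa (D.hi m) (D.anc m) d) + 20 / D.S) :=
            mul_le_mul_of_nonneg_left h2 (by positivity)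
          linarith
    · rw [if_neg hp, if_neg hp]
      linarith
  rw [GG_sum]
  refine le_trans ?_ (Finset.sum_le_sum step)
  rw [Finset.sum_sub_distrib, Finset.sum_add_distrib, Finset.sum_add_distrib, sum_pure_split,
    sum_pure_split]
  have hsum := (abs_le.1 (sum_rol h hκ hn (by omega : (0 : ℤ) ≤ d) hd2)).1
  have t1 : ∑ m ∈ D.Pu true, D.rho e d / (D.n * C) * D.avg2 m (D.rol m d) +
      ∑ m ∈ D.Pu false, D.rho e d / (D.n * C) * D.avg2 m (D.rol m d) =
      D.rho e d / C * ((1 / (D.n : ℝ)) * (∑ m ∈ D.Pu true, D.avg2 m (D.rol m d) +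
        ∑ m ∈ D.Pu false, D.avg2 m (D.rol m d))) := by
    rw [← Finset.mul_sum, ← Finset.mul_sum]
    field_simp
  have t2 := sum_ind_le (D := D) (D.badL (D.Ld d)) (C := 39 * D.rho e d / D.n)
    (by positivity) hbad
  have t3 := sum_ind_le (D := D) NQ (C := 39 * D.rho e d / D.n) (by positivity) hNQc
  have t4 : 24 * (κ * D.n) * (39 * D.rho e d / D.n) = D.rho e d * (936 * κ) := by
    field_simp
    ring
  have t5 : 4000 * (D.n : ℝ) * (1 / √(D.q : ℝ)) * (39 * D.rho e d / D.n) =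
      D.rho e d * (156000 * (1 / √(D.q : ℝ))) := by
    field_simp
    ring
  rw [t4] at t2
  rw [t5] at t3
  have t6 : ∑ m ∈ D.Pu true, 8 * D.rho e d / D.n *
        (D.quart (xa (D.hi m) (D.anc m) d) + 20 / D.S) +
      ∑ m ∈ D.Pu false, 8 * D.rho e d / D.n *
        (D.quart (xa (D.hi m) (D.anc m) d) + 20 / D.S) ≤
      D.rho e d * (160 * (1 / D.n) + 800 * ((D.q : ℝ) ^ 2 / D.n)) := by
    rw [← Finset.mul_sum, ← Finset.mul_sum, Finset.sum_add_distrib, Finset.sum_add_distrib]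
    have s1 := sum_quart_items h true d
    have s2 := sum_quart_items h false d
    have s3 : ((D.Pu true).card : ℝ) + (D.Pu false).card ≤ 2 * D.n := by
      have h1 := sum_pure_split (D := D) (fun _ => (1 : ℝ))
      simp only [Finset.sum_const, nsmul_eq_mul, mul_one] at h1
      rw [← h1]
      calc (∑ m ∈ D.It, if D.pure m then (1 : ℝ) else 0) ≤ ∑ _m ∈ D.It, (1 : ℝ) := by
            apply Finset.sum_le_sum
            intro m _
            split_ifs <;> norm_num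
        _ = (D.It.card : ℝ) := by simp
        _ ≤ 2 * D.n := It_card h
    have s4 : 1 / (D.S : ℝ) ≤ 5 / 2 * ((D.q : ℝ) ^ 2 / D.n) := by
      have h1 := h.S_low
      have h2 : 4 / 5 * (D.n : ℝ) ≤ 2 * D.S * (D.q : ℝ) ^ 2 := by nlinarith
      rw [div_le_iff₀ hS]
      have h3 : 5 / 2 * ((D.q : ℝ) ^ 2 / D.n) * D.S =
          (5 / 4) * (2 * D.S * (D.q : ℝ) ^ 2) / D.n := by ring
      rw [h3, le_div_iff₀ hnr]
      linarith
    simp only [Finset.sum_const, nsmul_eq_mul]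
    have s5 : 0 ≤ 8 * D.rho e d / D.n := by positivity
    calc 8 * D.rho e d / D.n * (∑ m ∈ D.Pu true, D.quart (xa (D.hi m) (D.anc m) d) +
          ((D.Pu true).card : ℝ) * (20 / D.S)) +
        8 * D.rho e d / D.n * (∑ m ∈ D.Pu false, D.quart (xa (D.hi m) (D.anc m) d) +
          ((D.Pu false).card : ℝ) * (20 / D.S))
        = 8 * D.rho e d / D.n * ((∑ m ∈ D.Pu true, D.quart (xa (D.hi m) (D.anc m) d) +
          ∑ m ∈ D.Pu false, D.quart (xa (D.hi m) (D.anc m) d)) +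
          (((D.Pu true).card : ℝ) + (D.Pu false).card) * (20 * (1 / D.S))) := by ring
      _ ≤ 8 * D.rho e d / D.n * (20 + (2 * D.n) * (20 * (5 / 2 * ((D.q : ℝ) ^ 2 / D.n)))) := by
          apply mul_le_mul_of_nonneg_left _ s5
          apply add_le_add (by linarith)
          apply mul_le_mul s3 _ (by positivity) (by positivity)
          linarith
      _ = D.rho e d * (160 * (1 / D.n) + 800 * ((D.q : ℝ) ^ 2 / D.n)) := by
          field_simp
          ring
  rw [t1, ← hC]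
  have t7 : D.rho e d / C * (PGrK.ff ((d : ℝ) / D.n) -
      2 * (6600 * κ + 9450 * ((D.q : ℝ) ^ 2 / D.n))) ≤
      D.rho e d / C * ((1 / (D.n : ℝ)) * (∑ m ∈ D.Pu true, D.avg2 m (D.rol m d) +
        ∑ m ∈ D.Pu false, D.avg2 m (D.rol m d))) :=
    mul_le_mul_of_nonneg_left (by linarith) (by positivity)
  linarith

/-- differences larger than `2n` have degree zero -/
theorem GG_far (h : D.Reg κ c) (e : ℝ) {d : ℤ} (hd : 2 * (D.n : ℤ) < d) : D.GG e d = 0 := by
  classical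
  rw [GG_sum]
  apply Finset.sum_eq_zero
  intro m hm
  unfold degC
  refine Eq.trans ?_ (Ex_const (Ω := D.Om) 0)
  apply Ex_congr
  intro θ
  by_cases hu : D.used θ d
  · rw [if_pos hu]
  · rw [if_neg hu]
    apply Finset.sum_eq_zero
    intro x hx
    by_cases hc : D.edgD θ d (D.anc m) (D.yy1 θ m) (D.yy2 θ m) x ∧
        hasD (D.anc m) (D.yy1 θ m) (D.yy2 θ m) x d
    · rw [if_pos hc]
      have hZ := Ze_sub h hx
      have hZ' := mem_Zr.1 hZ
      have hg := gen3_item h θ hm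
      have hn : (0 : ℝ) < D.n := by exact_mod_cast h.n_pos
      have hx1 : (D.n : ℝ) < 2 * (x : ℝ) := by exact_mod_cast hZ'.1
      have hx2 : 2 * (x : ℝ) < 5 * (D.n : ℝ) := by exact_mod_cast hZ'.2
      obtain ⟨_, _, gy1, gy1', gy2, gy2', _⟩ := id hg
      have d2 : |x - D.yy1 θ m| ≤ 2 * (D.n : ℤ) := by
        have : |(x : ℝ) - D.yy1 θ m| ≤ 2 * (D.n : ℝ) := by
          rw [abs_le]; constructor <;> linarith
        exact_mod_cast this
      have d3 : |x - D.yy2 θ m| ≤ 2 * (D.n : ℤ) := by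
        have : |(x : ℝ) - D.yy2 θ m| ≤ 2 * (D.n : ℝ) := by
          rw [abs_le]; constructor <;> linarith
        exact_mod_cast this
      have hf : 2 * (D.n : ℤ) < |x - D.anc m| := by
        rcases hc.2 with g | g | g
        · omega
        · omega
        · omega
      have h0 : D.kerI (D.hi m) (D.anc m) (D.yy1 θ m) (D.yy2 θ m) x = 0 := kerI_far h hg.1 hZ hf
      unfold wn wt
      rw [h0, zero_div, zero_div]
    · rw [if_neg hc]

theorem up_aux {ψ f ε δ : ℝ} (h1 : 0 ≤ ψ) (h2 : ψ ≤ 3) (h3 : 0 ≤ f) (h4 : f ≤ 1) (h5 : 0 ≤ ε)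
    (h6 : ε ≤ 1 / 100) (h7 : 0 ≤ δ) (h8 : δ ≤ 1 / 10) :
    ψ / (1 - δ) * (f + ε) ≤ ψ * f + 3 * ε + 4 * δ := by
  have hδ : 0 < 1 - δ := by linarith
  have hX : ψ * (f + ε) ≤ 35 / 10 := by nlinarith
  have hX2 : ψ * (f + ε) ≤ ψ * f + 3 * ε := by nlinarith
  rw [div_mul_eq_mul_div, div_le_iff₀ hδ]
  obtain ⟨X, hXX⟩ : ∃ X : ℝ, X = ψ * (f + ε) := ⟨_, rfl⟩
  rw [← hXX] at hX hX2 ⊢
  have hX0 : 0 ≤ X := by rw [hXX]; positivity
  calc X ≤ X + δ * (4 - X - 4 * δ) := by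
        have : 0 ≤ δ * (4 - X - 4 * δ) := mul_nonneg h7 (by linarith)
        linarith
    _ = (X + 4 * δ) * (1 - δ) := by ring
    _ ≤ (ψ * f + 3 * ε + 4 * δ) * (1 - δ) := mul_le_mul_of_nonneg_right (by linarith) hδ.le

theorem low_aux {ψ f ε δ e : ℝ} (h1 : 0 ≤ ψ) (h2 : ψ ≤ 3) (h3 : 0 ≤ f) (h5 : 0 ≤ ε)
    (h7 : 0 ≤ δ) (h8 : δ ≤ 1 / 10) (he : 0 ≤ e) (he1 : e ≤ 1 / 10) (hf : ψ * f ≤ 1) :
    ψ * f - 2 * e - δ - 3 * ε ≤ ψ / ((1 + e) ^ 2 * (1 + δ)) * (f - ε) := by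
  obtain ⟨C, hC⟩ : ∃ C : ℝ, C = (1 + e) ^ 2 * (1 + δ) := ⟨_, rfl⟩
  have hC1 : 1 ≤ C := by
    rw [hC]
    have h3 : 1 ≤ (1 + e) ^ 2 := one_le_pow₀ (by linarith)
    nlinarith
  have hC0 : 0 < C := by linarith
  have hC2 : (1 - 2 * e - δ) * C ≤ 1 := by
    rw [hC]
    have g1 : (1 - 2 * e) * (1 + e) ^ 2 ≤ 1 := by nlinarith [mul_nonneg he he, mul_nonneg he (mul_nonneg he he)]
    have g2 : 0 ≤ (1 - 2 * e) * (1 + e) ^ 2 := mul_nonneg (by linarith) (by positivity)
    calc (1 - 2 * e - δ) * ((1 + e) ^ 2 * (1 + δ)) ≤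
          ((1 - 2 * e) * (1 - δ)) * ((1 + e) ^ 2 * (1 + δ)) := by
            apply mul_le_mul_of_nonneg_right _ (by positivity)
            nlinarith [mul_nonneg he h7]
      _ = ((1 - 2 * e) * (1 + e) ^ 2) * ((1 - δ) * (1 + δ)) := by ring
      _ ≤ 1 * 1 := by
            apply mul_le_mul g1 (by nlinarith) (mul_nonneg (by linarith) (by linarith))
              (by norm_num)
      _ = 1 := by ring
  rw [← hC, div_mul_eq_mul_div, le_div_iff₀ hC0]
  have h9 : 0 ≤ ψ * f := mul_nonneg h1 h3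
  have g1 : (1 - 2 * e - δ) * (ψ * f) ≥ ψ * f - 2 * e - δ := by nlinarith
  have g2 : (1 - 2 * e - δ) * (ψ * f) * C ≤ ψ * f := by
    calc (1 - 2 * e - δ) * (ψ * f) * C = (ψ * f) * ((1 - 2 * e - δ) * C) := by ring
      _ ≤ (ψ * f) * 1 := mul_le_mul_of_nonneg_left hC2 h9
      _ = ψ * f := mul_one _
  have g3 : ψ * ε ≤ 3 * ε * C := by
    calc ψ * ε ≤ 3 * ε := mul_le_mul_of_nonneg_right h2 h5
      _ = 3 * ε * 1 := by ring
      _ ≤ 3 * ε * C := mul_le_mul_of_nonneg_left hC1 (by positivity)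
  calc (ψ * f - 2 * e - δ - 3 * ε) * C = (ψ * f - 2 * e - δ) * C - 3 * ε * C := by ring
    _ ≤ (1 - 2 * e - δ) * (ψ * f) * C - 3 * ε * C := by
        have := mul_le_mul_of_nonneg_right g1 hC0.le
        linarith
    _ ≤ ψ * f - ψ * ε := by linarith
    _ = ψ * (f - ε) := by ring

end Dat

/-- (E3) for data with injective anchors of the scheme vertices. -/
theorem E3_core : ∀ δ : ℝ, 0 < δ → ∃ κ0 : ℝ, 0 < κ0 ∧ ∃ n0 : ℕ, ∀ (D : Dat) (κ c : ℝ),
    κ ≤ κ0 → n0 ≤ D.n → D.Reg κ c →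
    (∀ v ∈ D.Sv, ∀ v' ∈ D.Sv, D.anc v = D.anc v' → v = v') →
    ∀ e : ℝ, 0 ≤ e → e ≤ 1 / 10 →
    (∀ d ∈ D.D2, |D.GG e d - D.pD d| ≤ δ + 3 * e) ∧
    (∀ d ∈ D.Ddef, (1 + e) * D.GG e d ≤ D.pD d + δ) := by
  intro δ0 hδ0
  obtain ⟨δ, hδe⟩ : ∃ δ : ℝ, δ = min δ0 1 := ⟨_, rfl⟩
  have hδ : 0 < δ := by rw [hδe]; positivity
  have hδ1 : δ ≤ 1 := by rw [hδe]; exact min_le_right _ _
  have hδ2 : δ ≤ δ0 := by rw [hδe]; exact min_le_left _ _
  obtain ⟨κ1, hκ1, n1, H⟩ := E1_holds (δ / 100) (by positivity)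
  obtain ⟨K, hK⟩ := exists_nat_gt (100000000 / δ)
  have hK1 : 1 ≤ K := by
    by_contra hcon
    have : K = 0 := by omega
    rw [this] at hK
    have : 0 < 100000000 / δ := by positivity
    push_cast at hK
    linarith
  refine ⟨min κ1 (δ / 100000000), by positivity, max (max n1 10) ((K ^ 2) ^ 8), ?_⟩
  intro D κ c hκ hn h hA e he he1
  have hκ2 : κ ≤ κ1 := hκ.trans (min_le_left _ _)
  have hκ3 : κ ≤ δ / 100000000 := hκ.trans (min_le_right _ _)
  have hn1 : n1 ≤ D.n := ((le_max_left _ _).trans (le_max_left _ _)).trans hn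
  have hn10 : 10 ≤ D.n := ((le_max_right _ _).trans (le_max_left _ _)).trans hn
  have hn2 : (K ^ 2) ^ 8 ≤ D.n := (le_max_right _ _).trans hn
  obtain ⟨s1, s2, s3, s4⟩ := Dat.small_of K hK1 h hn2
  have hκ0 := Dat.kappa_nonneg h
  have hKr : (0 : ℝ) < K := by exact_mod_cast hK1
  have hKd : 1 / (K : ℝ) ≤ δ / 100000000 := by
    rw [div_le_div_iff₀ hKr (by norm_num)]
    rw [div_lt_iff₀ hδ] at hK
    linarith
  have hκ5 : κ ≤ 1 / 5 := by linarith
  have hκ4 : κ ≤ 1 / 4 := by linarith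
  have hs : ∀ (b : Bool) (a y1 y2 : ℤ), D.gen3 b a y1 y2 → |D.sig e b a y1 y2 - 1| ≤ δ / 100 :=
    fun b a y1 y2 hg => H D κ c hκ2 hn1 h e he he1 b a y1 y2 hg
  obtain ⟨w, hw⟩ : ∃ w : ℝ, w = (D.q : ℝ) ^ 2 / D.n := ⟨_, rfl⟩
  have hw0 : 0 ≤ w := by rw [hw]; positivity
  have hw1 : w ≤ δ / 100000000 := by rw [hw]; linarith
  obtain ⟨ε, hε⟩ : ∃ ε : ℝ, ε = 2 * (6600 * κ + 9450 * w) := ⟨_, rfl⟩
  have hε0 : 0 ≤ ε := by rw [hε]; positivity
  have hε1 : ε ≤ δ / 1000 := by rw [hε]; linarith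
  have hsq0 : 0 ≤ 1 / √(D.q : ℝ) := by positivity
  have hn0 : 0 ≤ 1 / (D.n : ℝ) := by positivity
  constructor
  · intro d hd
    classical
    unfold Dat.D2 at hd
    rw [Finset.mem_filter] at hd
    obtain ⟨hd0, hdd, hpD⟩ := hd
    have hd1 := (h.D0_sub d hd0).1
    have hd2 : d ≤ 2 * D.n := by
      by_contra hcon
      apply hdd
      unfold Dat.Ddef
      rw [Finset.mem_filter]
      exact ⟨hd0, Or.inl (by omega)⟩
    have hB : unD D.q d ∉ D.Res → unD D.q d ∉ D.Bd := by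
      intro hR hB
      apply hdd
      unfold Dat.Ddef
      rw [Finset.mem_filter]
      exact ⟨hd0, Or.inr (Or.inl ⟨hR, hB⟩)⟩
    have hf := Dat.ff_range ((d : ℝ) / D.n)
    have hψ := Dat.rho_bd h hκ4 he he1 hd0
    have key : D.rho e d * PGrK.ff ((d : ℝ) / D.n) ≤ 1 ∧
        |D.rho e d * PGrK.ff ((d : ℝ) / D.n) - D.pD d| ≤ 20 * κ + 20 * w := by
      by_cases hR : unD D.q d ∈ D.Res
      · rcases Dat.pD_res h hR with ⟨g, _⟩ | ⟨g, _⟩
        · have e1 : D.rho e d * PGrK.ff ((d : ℝ) / D.n) = 1 := by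
            unfold Dat.rho Dat.psD
            rw [if_neg hdd, if_pos hR, g, one_mul]
            have : PGrK.ff ((d : ℝ) / D.n) ≠ 0 := by linarith [hf.1]
            field_simp
          rw [e1, g]
          constructor
          · exact le_rfl
          · rw [sub_self, abs_zero]
            positivity
        · linarith
      · rw [Dat.rho_one h hκ4 hd1 hR hdd, one_mul]
        have g1 := Dat.pD_ff_ge h hκ0 hκ5 hA hd1 hd2 hR
        have g2 := Dat.pD_ff_le h hκ0 hκ5 hA hd1 hd2 hR (hB hR)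
        rw [← hw] at g1 g2
        refine ⟨hf.2, ?_⟩
        rw [abs_le]
        constructor <;> linarith
    have u1 := Dat.GG_up h hκ5 hn10 he he1 (δ := δ / 100) (by linarith) hs hd1 hd2
    have u2 := Dat.up_aux (ψ := D.rho e d) (f := PGrK.ff ((d : ℝ) / D.n)) (ε := ε)
      (δ := δ / 100) hψ.1 (by linarith [hψ.2]) (by linarith [hf.1]) hf.2 hε0 (by linarith)
      (by linarith) (by linarith)
    have l1 := Dat.GG_low h hκ5 hn10 he he1 (δ := δ / 100) (by linarith) (by linarith) hs hd0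
      hdd hd2
    have l2 := Dat.low_aux (ψ := D.rho e d) (f := PGrK.ff ((d : ℝ) / D.n)) (ε := ε)
      (δ := δ / 100) (e := e) hψ.1 (by linarith [hψ.2]) (by linarith [hf.1]) hε0
      (by linarith) (by linarith) he he1 key.1
    rw [← hw, ← hε] at u1 l1
    have l3 : D.rho e d * (936 * κ + 156000 * (1 / √(D.q : ℝ)) + 160 * (1 / D.n) + 800 * w) ≤
        3 * (δ / 500) := by
      apply mul_le_mul (by linarith [hψ.2]) (by linarith) (by positivity) (by norm_num)
    have k2 := abs_le.1 key.2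
    rw [abs_le]
    constructor
    · linarith [k2.1, k2.2]
    · linarith [k2.1, k2.2]
  · intro d hd
    classical
    have hdd := hd
    unfold Dat.Ddef at hd
    rw [Finset.mem_filter] at hd
    have hd0 := hd.1
    have hd1 := (h.D0_sub d hd0).1
    have hpD0 : 0 ≤ D.pD d := Pr_nonneg _
    by_cases hd2 : 2 * (D.n : ℤ) < d
    · rw [Dat.GG_far h e hd2, mul_zero]
      linarith
    · have hd2' : d ≤ 2 * D.n := not_lt.1 hd2
      have hf := Dat.ff_range ((d : ℝ) / D.n)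
      have hψ := Dat.rho_bd h hκ4 he he1 hd0
      have key : (1 + e) * D.rho e d * PGrK.ff ((d : ℝ) / D.n) ≤ D.pD d + (20 * κ + 20 * w) := by
        by_cases hR : unD D.q d ∈ D.Res
        · have e1 : (1 + e) * D.rho e d * PGrK.ff ((d : ℝ) / D.n) = D.pD d := by
            unfold Dat.rho Dat.psD
            rw [if_pos hdd, if_pos hR]
            have h1 : PGrK.ff ((d : ℝ) / D.n) ≠ 0 := by linarith [hf.1]
            have h2 : 1 + e ≠ 0 := by linarith
            field_simp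
          rw [e1]
          have : 0 ≤ 20 * κ + 20 * w := by positivity
          linarith
        · have h3 := Dat.pD_ge h hκ4 hR hd1
          have h4 : D.pD d ≠ 0 := by linarith
          have h2 : 1 + e ≠ 0 := by linarith
          have e1 : (1 + e) * D.rho e d = 1 := by
            unfold Dat.rho Dat.psD
            rw [if_pos hdd, if_neg hR]
            field_simp
          rw [e1, one_mul]
          have g1 := Dat.pD_ff_ge h hκ0 hκ5 hA hd1 hd2' hR
          rw [← hw] at g1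
          linarith
      have u1 := Dat.GG_up h hκ5 hn10 he he1 (δ := δ / 100) (by linarith) hs hd1 hd2'
      rw [← hw, ← hε] at u1
      have hψ1 : (1 + e) * D.rho e d ≤ 3 := by
        calc (1 + e) * D.rho e d ≤ (11 / 10) * (8 / 3) :=
              mul_le_mul (by linarith) hψ.2 hψ.1 (by norm_num)
          _ ≤ 3 := by norm_num
      have u2 := Dat.up_aux (ψ := (1 + e) * D.rho e d) (f := PGrK.ff ((d : ℝ) / D.n)) (ε := ε)
        (δ := δ / 100) (mul_nonneg (by linarith) hψ.1) hψ1 (by linarith [hf.1]) hf.2 hε0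
        (by linarith) (by linarith) (by linarith)
      have u3 : (1 + e) * D.GG e d ≤ (1 + e) * (D.rho e d / (1 - δ / 100) *
          (PGrK.ff ((d : ℝ) / D.n) + ε) + 67500 * κ) :=
        mul_le_mul_of_nonneg_left u1 (by linarith)
      have u4 : (1 + e) * (D.rho e d / (1 - δ / 100) *
          (PGrK.ff ((d : ℝ) / D.n) + ε) + 67500 * κ) =
          (1 + e) * D.rho e d / (1 - δ / 100) * (PGrK.ff ((d : ℝ) / D.n) + ε) +
          (1 + e) * (67500 * κ) := by ring
      have u5 : (1 + e) * (67500 * κ) ≤ 2 * (67500 * κ) :=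
        mul_le_mul_of_nonneg_right (by linarith) (by positivity)
      rw [u4] at u3
      linarith

theorem E3_holds : E3Stmt := by
  intro δ hδ
  obtain ⟨κ0, hκ0, n0, H⟩ := E3_core δ hδ
  exact ⟨κ0, hκ0, n0, fun D κ c h1 h2 h3 => H D κ c h1 h2 h3 h3.anc_injS⟩

end Pool.Agent.PGr
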