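import Mathlib
import Pool.Agent.PGr.ECnt
import Pool.Agent.PGr.EStat

/-!
# PGr, module E4Sa: the switches: eight independent units, edges of a switch
-/

noncomputable section

namespace Pool.Agent.PGr

open Finset

theorem nd8a {α : Type*} {a b c d e f g h : α} (H : [a, b, c, d, e, f, g, h].Nodup) :
    [a, b, c, e, g, h].Nodup := by
  refine H.sublist ?_
  refine List.Sublist.cons_cons _ (List.Sublist.cons_cons _ (List.Sublist.cons_cons _ ?_))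
  refine List.Sublist.cons _ (List.Sublist.cons_cons _ ?_)
  exact List.Sublist.cons _ (List.Sublist.refl _)

theorem nd8b {α : Type*} {a b c d e f g h : α} (H : [a, b, c, d, e, f, g, h].Nodup) :
    [a, b, d, f, h, g].Nodup := by
  have h1 : [a, b, d, f, g, h].Nodup := by
    refine H.sublist ?_
    refine List.Sublist.cons_cons _ (List.Sublist.cons_cons _ (List.Sublist.cons _ ?_))
    exact List.Sublist.cons_cons _ (List.Sublist.cons _ (List.Sublist.refl _))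
  refine (List.Perm.nodup_iff ?_).1 h1
  refine List.Perm.cons _ (List.Perm.cons _ (List.Perm.cons _ (List.Perm.cons _ ?_)))
  exact List.Perm.swap _ _ _

/-- the list of the first edge of an I-switch: `[y1, y2, x, |x-a|, |x-y1|, d]` -/
theorem nd8c {α : Type*} {a b c d e f g h : α} (H : [a, b, c, d, e, f, g, h].Nodup) :
    [a, b, c, h, g, e].Nodup := by
  have h1 := nd8a H
  refine (List.Perm.nodup_iff ?_).1 h1
  refine List.Perm.cons _ (List.Perm.cons _ (List.Perm.cons _ ?_))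
  have h2 : [e, g, h].reverse = [h, g, e] := rfl
  rw [← h2]
  exact (List.reverse_perm _).symm

/-- the list of the second edge of an I-switch: `[y1, y2, x'', |x''-a|, |x''-y1|, d'']` -/
theorem nd8d {α : Type*} {a b c d e f g h : α} (H : [a, b, c, d, e, f, g, h].Nodup) :
    [a, b, d, g, h, f].Nodup := by
  have h1 := nd8b H
  refine (List.Perm.nodup_iff ?_).1 h1
  refine List.Perm.cons _ (List.Perm.cons _ (List.Perm.cons _ ?_))
  have h2 : [f, h, g].reverse = [g, h, f] := rfl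
  rw [← h2]
  exact (List.reverse_perm _).symm

theorem abs_pmS (Q : ℕ) (z : ℤ) : ∃ e : ZMod Q, pm e ∧ ((|z| : ℤ) : ZMod Q) = e * ((z : ℤ) : ZMod Q) := by
  rcases abs_choice z with h | h
  · exact ⟨1, Or.inl rfl, by rw [h, one_mul]⟩
  · refine ⟨-1, Or.inr rfl, ?_⟩
    rw [h]
    push_cast
    ring

/-- disjoint events -/
theorem Pr_pairs_ge {ι Ω : Type*} [Fintype ι] [DecidableEq ι] [Fintype Ω] [DecidableEq Ω]
    [Nonempty Ω]
    (u1 u2 : ι) (P : Finset (Ω × Ω)) (E : (ι → Ω) → Prop) (R : Ω × Ω → (ι → Ω) → Prop) (p : ℝ)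
    (hE : ∀ t ∈ P, ∀ ω, ω u1 = t.1 → ω u2 = t.2 → R t ω → E ω)
    (hp : ∀ t ∈ P, p ≤ Pr (fun ω => (ω u1 = t.1 ∧ ω u2 = t.2) ∧ R t ω)) :
    P.card * p ≤ Pr E := by
  classical
  have h1 : P.card * p ≤ ∑ t ∈ P, Pr (fun ω : ι → Ω => (ω u1 = t.1 ∧ ω u2 = t.2) ∧ R t ω) := by
    rw [← nsmul_eq_mul]
    exact Finset.card_nsmul_le_sum _ _ _ hp
  refine h1.trans ?_
  unfold Pr
  rw [← Ex_sum]
  apply Ex_mono
  intro ω
  by_cases hex : ∃ t ∈ P, (ω u1 = t.1 ∧ ω u2 = t.2) ∧ R t ω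
  · obtain ⟨t, ht, ⟨h2, h3⟩, h4⟩ := hex
    rw [if_pos (hE t ht ω h2 h3 h4), Finset.sum_eq_single t]
    · rw [if_pos ⟨⟨h2, h3⟩, h4⟩]
    · intro t' _ hne
      rw [if_neg]
      rintro ⟨⟨h5, h6⟩, _⟩
      exact hne (Prod.ext (h5.symm.trans h2) (h6.symm.trans h3))
    · intro hn
      exact absurd ht hn
  · rw [Finset.sum_eq_zero]
    · split_ifs <;> norm_num
    · intro t ht
      rw [if_neg]
      intro h5
      exact hex ⟨t, ht, h5⟩

/-- disjoint events, upper bound -/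
theorem Pr_graph_le {ι Ω : Type*} [Fintype ι] [DecidableEq ι] [Fintype Ω] [DecidableEq Ω]
    [Nonempty Ω]
    (u1 u2 : ι) (hu : u1 ≠ u2) (E : (ι → Ω) → Prop) (f : Ω → Ω → Prop)
    (hf : ∀ t2 t1 t1', f t1 t2 → f t1' t2 → t1 = t1')
    (hE : ∀ ω, E ω → f (ω u1) (ω u2)) :
    Pr E ≤ 1 / Fintype.card Ω := by
  classical
  have hc : (0 : ℝ) < Fintype.card Ω := by exact_mod_cast Fintype.card_pos
  have hone : ∀ t : Ω, Pr (fun s : Ω => s = t) = 1 / Fintype.card Ω := by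
    intro t
    have h := Pr_mem (Ω := Ω) {t}
    simp only [mem_singleton, card_singleton] at h
    rw [h]
    push_cast
    ring
  have h1 : Pr E ≤ Pr (fun ω : ι → Ω => ∃ t ∈ (univ : Finset Ω),
      ω u2 = t ∧ ∃ s, f s t ∧ ω u1 = s) := by
    apply Pr_mono
    intro ω hω
    exact ⟨ω u2, mem_univ _, rfl, ω u1, hE ω hω, rfl⟩
  refine h1.trans ((Pr_exists_le _ _).trans ?_)
  have h2 : ∀ t ∈ (univ : Finset Ω), Pr (fun ω : ι → Ω => ω u2 = t ∧ ∃ s, f s t ∧ ω u1 = s) ≤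
      1 / Fintype.card Ω * (1 / Fintype.card Ω) := by
    intro t _
    by_cases hs : ∃ s, f s t
    · obtain ⟨s, hs⟩ := hs
      have h3 := Pr_list (ι := ι) (Ω := Ω) [(u2, fun x => x = t), (u1, fun x => x = s)]
        (by simpa using fun h => hu h.symm)
      simp only [List.mem_cons, List.not_mem_nil, or_false, forall_eq_or_imp, forall_eq,
        List.map_cons, List.map_nil, List.prod_cons, List.prod_nil, mul_one] at h3
      rw [hone, hone] at h3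
      rw [← h3]
      apply Pr_mono
      rintro ω ⟨h4, s', h5, h6⟩
      exact ⟨h4, h6.trans (hf t s' s h5 hs)⟩
    · have h3 : Pr (fun ω : ι → Ω => ω u2 = t ∧ ∃ s, f s t ∧ ω u1 = s) ≤
          Pr (fun _ : ι → Ω => False) := by
        apply Pr_mono
        rintro ω ⟨_, s, h5, _⟩
        exact hs ⟨s, h5⟩
      refine h3.trans ?_
      unfold Pr
      simp only [if_false]
      rw [Ex_const]
      positivity
  refine (Finset.sum_le_sum h2).trans ?_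
  rw [Finset.sum_const, nsmul_eq_mul, card_univ]
  field_simp
  rfl

namespace Dat

variable {D : Dat} {κ c : ℝ}

/-- eight independent events -/
theorem Pr_eight (h : D.Reg κ c) {u1 u2 : ZMod (D.q ^ 2)} {x x' d1 d2 d3 d4 : ℤ}
    (hnd : [u1, u2, unL D.q x, unL D.q x', unD D.q d1, unD D.q d2, unD D.q d3,
      unD D.q d4].Nodup)
    (t1 t2 : ZMod (2 * D.S)) :
    Pr (fun θ : D.Om => (θ u1 = t1 ∧ θ u2 = t2) ∧ ¬ D.occ θ x ∧ ¬ D.occ θ x' ∧ ¬ D.used θ d1 ∧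
      ¬ D.used θ d2 ∧ ¬ D.used θ d3 ∧ ¬ D.used θ d4) =
        (1 / (2 * (D.S : ℝ))) * (1 / (2 * (D.S : ℝ))) *
        (D.pL x * D.pL x' * (D.pD d1 * D.pD d2 * (D.pD d3 * D.pD d4))) := by
  have h1 := Pr_list (ι := ZMod (D.q ^ 2)) (Ω := ZMod (2 * D.S))
    [(u1, fun t => t = t1), (u2, fun t => t = t2), (unL D.q x, fun t => ¬ D.occ (fun _ => t) x),
      (unL D.q x', fun t => ¬ D.occ (fun _ => t) x'),
      (unD D.q d1, fun t => ¬ D.used (fun _ => t) d1), (unD D.q d2, fun t => ¬ D.used (fun _ => t) d2),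
      (unD D.q d3, fun t => ¬ D.used (fun _ => t) d3),
      (unD D.q d4, fun t => ¬ D.used (fun _ => t) d4)] (by simpa using hnd)
  simp only [List.mem_cons, List.not_mem_nil, or_false, forall_eq_or_imp, forall_eq,
    List.map_cons, List.map_nil, List.prod_cons, List.prod_nil, mul_one] at h1
  rw [Pr_pt, Pr_pt, ← pL_const h, ← pL_const h, ← pD_const h, ← pD_const h, ← pD_const h,
    ← pD_const h] at h1
  have h2 : (fun θ : D.Om => (θ u1 = t1 ∧ θ u2 = t2) ∧ ¬ D.occ θ x ∧ ¬ D.occ θ x' ∧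
      ¬ D.used θ d1 ∧ ¬ D.used θ d2 ∧ ¬ D.used θ d3 ∧ ¬ D.used θ d4) =
        fun θ : D.Om => θ u1 = t1 ∧ θ u2 = t2 ∧
        ¬ D.occ (fun _ => θ (unL D.q x)) x ∧ ¬ D.occ (fun _ => θ (unL D.q x')) x' ∧
        ¬ D.used (fun _ => θ (unD D.q d1)) d1 ∧ ¬ D.used (fun _ => θ (unD D.q d2)) d2 ∧
        ¬ D.used (fun _ => θ (unD D.q d3)) d3 ∧ ¬ D.used (fun _ => θ (unD D.q d4)) d4 := by
    funext θ
    rw [occ_const h θ x, occ_const h θ x', used_const h θ d1, used_const h θ d2,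
      used_const h θ d3, used_const h θ d4]
    apply propext
    tauto
  rw [h2, h1]
  ring

theorem Pr_eight_ge (h : D.Reg κ c) (hκ : κ ≤ 1 / 5) {u1 u2 : ZMod (D.q ^ 2)}
    {x x' d1 d2 d3 d4 : ℤ}
    (hnd : [u1, u2, unL D.q x, unL D.q x', unD D.q d1, unD D.q d2, unD D.q d3,
      unD D.q d4].Nodup)
    (hx : unL D.q x ∉ D.Res) (hx' : unL D.q x' ∉ D.Res)
    (h1 : 2 / 5 ≤ D.pD d1) (h2 : 2 / 5 ≤ D.pD d2) (h3 : 2 / 5 ≤ D.pD d3) (h4 : 2 / 5 ≤ D.pD d4)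
    (t1 t2 : ZMod (2 * D.S)) :
    (1 / (2 * (D.S : ℝ))) * (1 / (2 * (D.S : ℝ))) * (2 / 5 : ℝ) ^ 6 ≤
    Pr (fun θ : D.Om => (θ u1 = t1 ∧ θ u2 = t2) ∧ ¬ D.occ θ x ∧ ¬ D.occ θ x' ∧ ¬ D.used θ d1 ∧
      ¬ D.used θ d2 ∧ ¬ D.used θ d3 ∧ ¬ D.used θ d4) := by
  rw [Pr_eight h hnd]
  have hκ' : κ ≤ 1 / 4 := by linarith
  have p1 : (2 / 5 : ℝ) ≤ D.pL x := le_trans (by linarith) (pL_ge h hκ' hx)
  have p2 : (2 / 5 : ℝ) ≤ D.pL x' := le_trans (by linarith) (pL_ge h hκ' hx')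
  apply mul_le_mul_of_nonneg_left
  · have h6 : (2 / 5 : ℝ) ^ 6 = (2 / 5) * (2 / 5) * ((2 / 5) * (2 / 5) * ((2 / 5) * (2 / 5))) := by
      norm_num
    rw [h6]
    gcongr
  · positivity

theorem pD_ge' (h : D.Reg κ c) (hκ : κ ≤ 1 / 5) {d : ℤ} (hd : unD D.q d ∉ D.Res) (hd1 : 1 ≤ d) :
    2 / 5 ≤ D.pD d := le_trans (by linarith) (pD_ge h (by linarith) hd hd1)

theorem pD_D2 (h : D.Reg κ c) (hκ : κ ≤ 1 / 5) {d : ℤ} (hd : d ∈ D.D2) :
    d ∈ D.D0 ∧ 1 ≤ d ∧ 2 / 5 ≤ D.pD d := by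
  classical
  unfold D2 at hd
  rw [mem_filter] at hd
  obtain ⟨h1, h2, h3⟩ := hd
  have h4 := h.D0_sub d h1
  refine ⟨h1, h4.1, ?_⟩
  by_cases hr : unD D.q d ∈ D.Res
  · rcases pD_res h hr with ⟨h5, _⟩ | ⟨h5, _⟩
    · rw [h5]; norm_num
    · rw [h5] at h3; exact absurd h3 (lt_irrefl _)
  · exact pD_ge' h hκ hr h4.1

/-- the two neighbours of a pure item have different units -/
theorem un_ne (h : D.Reg κ c) {m : ℕ} (hm : m ∈ D.It) (hp : D.pure m) :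
    D.un (D.nb1 m) ≠ D.un (D.nb2 m) := by
  intro he
  obtain ⟨_, _, g3⟩ := h.gen m hm
  apply g3
  unfold cls
  rw [if_pos hp.1, if_pos hp.2.1, he]

/-- the list of the U-switch -/
theorem nodupU {a y1 y2 d d'' : ℤ} {c1 c2 : ZMod (D.q ^ 2)}
    (hy1 : ((y1 : ℤ) : ZMod (D.q ^ 2)) = c1) (hy2 : ((y2 : ℤ) : ZMod (D.q ^ 2)) = c2)
    (hs : y1 + y2 = 2 * a - d - d'')
    (hno : noU D.q ((a : ℤ) : ZMod (D.q ^ 2)) c1 c2 ((d : ℤ) : ZMod (D.q ^ 2))) :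
    [unL D.q y1, unL D.q y2, unL D.q (a - d), unL D.q (a - d''), unD D.q d, unD D.q d'',
      unD D.q |a - d - y1|, unD D.q |a - d - y2|].Nodup := by
  obtain ⟨e1, he1, h1⟩ := abs_pmS (D.q ^ 2) (a - d - y1)
  obtain ⟨e2, he2, h2⟩ := abs_pmS (D.q ^ 2) (a - d - y2)
  have h3 := hno e1 e2 he1 he2
  have hd : ((d'' : ℤ) : ZMod (D.q ^ 2)) = 2 * (a : ZMod (D.q ^ 2)) - c1 - c2 - (d : ZMod (D.q ^ 2)) := by
    have h4 : d'' = 2 * a - y1 - y2 - d := by linarith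
    rw [h4]
    push_cast
    rw [hy1, hy2]
  unfold unL unD
  rw [h1, h2]
  push_cast
  rw [hd, hy1, hy2]
  have h5 : (a : ZMod (D.q ^ 2)) - (2 * (a : ZMod (D.q ^ 2)) - c1 - c2 - (d : ZMod (D.q ^ 2))) =
      -(a : ZMod (D.q ^ 2)) + c1 + c2 + d := by ring
  rw [h5]
  exact h3

/-- the list of the I-switch -/
theorem nodupI {a y1 y2 d d'' : ℤ} {c1 c2 : ZMod (D.q ^ 2)}
    (hy1 : ((y1 : ℤ) : ZMod (D.q ^ 2)) = c1) (hy2 : ((y2 : ℤ) : ZMod (D.q ^ 2)) = c2)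
    (hs : 2 * y2 + d + d'' = y1 + a) (hlt : y2 + d ≤ a)
    (hno : noI D.q ((a : ℤ) : ZMod (D.q ^ 2)) c1 c2 ((d : ℤ) : ZMod (D.q ^ 2))) :
    [unL D.q y1, unL D.q y2, unL D.q (y2 + d), unL D.q (y2 + d''), unD D.q d, unD D.q d'',
      unD D.q |y2 + d - y1|, unD D.q |y2 + d - a|].Nodup := by
  obtain ⟨e1, he1, h1⟩ := abs_pmS (D.q ^ 2) (y2 + d - y1)
  have h3 := hno e1 he1
  have h2 : |y2 + d - a| = a - y2 - d := by
    rw [abs_of_nonpos (by linarith)]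
    ring
  have hd : ((d'' : ℤ) : ZMod (D.q ^ 2)) = (a : ZMod (D.q ^ 2)) + c1 - 2 * c2 - (d : ZMod (D.q ^ 2)) := by
    have h4 : d'' = a + y1 - 2 * y2 - d := by linarith
    rw [h4]
    push_cast
    rw [hy1, hy2]
  unfold unL unD
  rw [h1, h2]
  push_cast
  rw [hd, hy1, hy2]
  have h5 : c2 + ((a : ZMod (D.q ^ 2)) + c1 - 2 * c2 - (d : ZMod (D.q ^ 2))) =
      (a : ZMod (D.q ^ 2)) + c1 - c2 - d := by ring
  rw [h5]
  exact h3

end Dat

end Pool.Agent.PGr
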