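import Mathlib
import Pool.Agent.PGr.E4Sa

/-!
# PGr, module E4Sb: windows of labels, pairs of shifts
-/

noncomputable section

namespace Pool.Agent.PGr

open Finset

namespace Dat

variable {D : Dat} {κ c : ℝ}

theorem Y_surj' (h : D.Reg κ c) {v : ℕ} (hv : v ∈ D.Sv) {x : ℤ}
    (hx : ((x : ℤ) : ZMod (D.q ^ 2)) = lam D.q (D.un v))
    (hw : (D.B0 : ℤ) ≤ x ∧ x < D.B0 + 2 * D.S * D.q ^ 2) : ∃ t, D.Y v t = x := by
  classical
  by_contra hcon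
  push Not at hcon
  have h1 := h.sum_Y hv (fun y => if y = x then 1 else 0)
  rw [Finset.sum_eq_zero] at h1
  · have hQ : (0 : ℤ) < (D.q : ℤ) ^ 2 := by have := D.q_pos; positivity
    have : NeZero (D.q ^ 2) := ⟨by have := pow_pos D.q_pos 2; omega⟩
    obtain ⟨L, hL⟩ : ∃ L : ℕ, L = (lam D.q (D.un v)).val := ⟨_, rfl⟩
    have hLlt : L < D.q ^ 2 := by rw [hL]; exact ZMod.val_lt _
    have hLc : ((L : ℕ) : ZMod (D.q ^ 2)) = lam D.q (D.un v) := by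
      rw [hL, ZMod.natCast_zmod_val]
    have hB : ((D.B0 : ℕ) : ZMod (D.q ^ 2)) = 0 := by
      rw [ZMod.natCast_eq_zero_iff]
      exact h.B0_dvd
    have h2 : ((x - D.B0 - L : ℤ) : ZMod (D.q ^ 2)) = 0 := by
      push_cast
      rw [hx, hB, hLc]
      ring
    rw [ZMod.intCast_zmod_eq_zero_iff_dvd] at h2
    obtain ⟨j, hj⟩ := h2
    push_cast at hj
    have hLlt' : (L : ℤ) < (D.q : ℤ) ^ 2 := by exact_mod_cast hLlt
    have hj0 : 0 ≤ j := by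
      by_contra hneg
      push Not at hneg
      have : j ≤ -1 := by omega
      have h3 : (D.q : ℤ) ^ 2 * j ≤ (D.q : ℤ) ^ 2 * (-1) := mul_le_mul_of_nonneg_left this hQ.le
      omega
    have hjS : j < 2 * D.S := by
      by_contra hneg
      push Not at hneg
      have h3 : (D.q : ℤ) ^ 2 * (2 * D.S) ≤ (D.q : ℤ) ^ 2 * j := mul_le_mul_of_nonneg_left hneg hQ.le
      have h4 : (D.q : ℤ) ^ 2 * (2 * D.S) = 2 * D.S * (D.q : ℤ) ^ 2 := by ring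
      have h5 := hw.2
      omega
    have h3 : ∑ j ∈ Finset.range (2 * D.S), (if ((D.B0 : ℤ) + (lam D.q (D.un v)).val +
        (D.q : ℤ) ^ 2 * (j : ℤ)) = x then (1 : ℝ) else 0) ≥ 1 := by
      have h4 : (if ((D.B0 : ℤ) + (lam D.q (D.un v)).val +
          (D.q : ℤ) ^ 2 * ((j.toNat : ℕ) : ℤ)) = x then (1 : ℝ) else 0) = 1 := by
        rw [if_pos]
        rw [Int.toNat_of_nonneg hj0, ← hL]
        omega
      refine h4.ge.trans ?_
      apply Finset.single_le_sum (f := fun j : ℕ => (if ((D.B0 : ℤ) + (lam D.q (D.un v)).val +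
        (D.q : ℤ) ^ 2 * (j : ℤ)) = x then (1 : ℝ) else 0))
      · intro i _
        split_ifs <;> norm_num
      · rw [mem_range]
        omega
    linarith
  · intro t _
    rw [if_neg (hcon t)]

/-- number of shifts with label in an interval of the window -/
theorem card_Y_ge (h : D.Reg κ c) {v : ℕ} (hv : v ∈ D.Sv) {al be : ℤ}
    (hal : (D.B0 : ℤ) ≤ al) (hbe : be < D.B0 + 2 * D.S * D.q ^ 2) :
    ((be : ℝ) - al) / (D.q : ℝ) ^ 2 - 1 ≤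
      ((univ.filter (fun t : ZMod (2 * D.S) => al ≤ D.Y v t ∧ D.Y v t ≤ be)).card : ℝ) := by
  classical
  have hQ : 0 < D.q ^ 2 := pow_pos D.q_pos 2
  have h1 := card_class_ge (D.q ^ 2) hQ al be (lam D.q (D.un v))
  push_cast at h1
  refine h1.trans ?_
  have h2 : (Finset.Icc al be).filter (fun x : ℤ => ((x : ℤ) : ZMod (D.q ^ 2)) =
      lam D.q (D.un v)) ⊆ (univ.filter (fun t : ZMod (2 * D.S) => al ≤ D.Y v t ∧
        D.Y v t ≤ be)).image (D.Y v) := by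
    intro x hx
    rw [mem_filter, Finset.mem_Icc] at hx
    obtain ⟨t, ht⟩ := Y_surj' h hv hx.2 ⟨hal.trans hx.1.1, lt_of_le_of_lt hx.1.2 hbe⟩
    rw [mem_image]
    refine ⟨t, ?_, ht⟩
    rw [mem_filter, ht]
    exact ⟨mem_univ _, hx.1⟩
  exact_mod_cast (Finset.card_le_card h2).trans Finset.card_image_le

/-- number of shifts with a label which is a multiple of `n/4` after a translation -/
theorem card_Y_quart (h : D.Reg κ c) {v : ℕ} (hv : v ∈ D.Sv) (z : ℤ) :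
    ((univ.filter (fun t : ZMod (2 * D.S) => ((D.n : ℤ) < 2 * (D.Y v t + z) ∧
      2 * (D.Y v t + z) < 5 * D.n) ∧ (D.n : ℤ) ∣ 4 * (D.Y v t + z))).card : ℝ) ≤ 10 := by
  classical
  refine le_trans ?_ (cnt_quart h.n_pos)
  refine Nat.cast_le.2 ?_
  apply Finset.card_le_card_of_injOn (fun t => D.Y v t + z)
  · intro t ht
    have ht' := (mem_filter.1 (Finset.mem_coe.1 ht)).2
    apply Finset.mem_coe.2
    rw [mem_filter, mem_Zr]
    exact ht'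
  · intro t _ t' _ he
    exact h.Y_inj v hv (by simpa using he)

/-- pairs of shifts with a given sum of labels -/
theorem card_pairsU (h : D.Reg κ c) {v1 v2 : ℕ} (hv1 : v1 ∈ D.Sv) (hv2 : v2 ∈ D.Sv) (s : ℤ)
    (hs : ((s : ℤ) : ZMod (D.q ^ 2)) = lam D.q (D.un v1) + lam D.q (D.un v2)) {al be : ℤ}
    (hal : (D.B0 : ℤ) ≤ al) (hbe : be < D.B0 + 2 * D.S * D.q ^ 2)
    (hal' : s - al < D.B0 + 2 * D.S * D.q ^ 2) (hbe' : (D.B0 : ℤ) ≤ s - be) :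
    ((be : ℝ) - al) / (D.q : ℝ) ^ 2 - 1 ≤
      (((univ : Finset (ZMod (2 * D.S) × ZMod (2 * D.S))).filter
        (fun t => D.Y v1 t.1 + D.Y v2 t.2 = s)).card : ℝ) := by
  classical
  refine (card_Y_ge h hv1 hal hbe).trans ?_
  have h1 : univ.filter (fun t : ZMod (2 * D.S) => al ≤ D.Y v1 t ∧ D.Y v1 t ≤ be) ⊆
      ((univ : Finset (ZMod (2 * D.S) × ZMod (2 * D.S))).filter
        (fun t => D.Y v1 t.1 + D.Y v2 t.2 = s)).image Prod.fst := by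
    intro t ht
    rw [mem_filter] at ht
    obtain ⟨t2, ht2⟩ := Y_surj' h hv2 (x := s - D.Y v1 t) (by
      push_cast
      rw [hs, h.Y_res v1 hv1 t]
      ring) ⟨by linarith [ht.2.2], by linarith [ht.2.1]⟩
    rw [mem_image]
    refine ⟨(t, t2), ?_, rfl⟩
    rw [mem_filter]
    refine ⟨mem_univ _, ?_⟩
    show D.Y v1 t + D.Y v2 t2 = s
    rw [ht2]
    ring
  exact_mod_cast (Finset.card_le_card h1).trans Finset.card_image_le

/-- pairs of shifts for the I-switch -/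
theorem card_pairsI (h : D.Reg κ c) {v1 v2 : ℕ} (hv1 : v1 ∈ D.Sv) (hv2 : v2 ∈ D.Sv)
    (s d d'' : ℤ)
    (hs : 2 * lam D.q (D.un v2) + ((s : ℤ) : ZMod (D.q ^ 2)) = lam D.q (D.un v1)) {al be : ℤ}
    (hal : (D.B0 : ℤ) ≤ al) (hbe : be < D.B0 + 2 * D.S * D.q ^ 2)
    (hal' : (D.B0 : ℤ) ≤ 2 * al + s) (hbe' : 2 * be + s < D.B0 + 2 * D.S * D.q ^ 2)
    (h1 : (D.n : ℤ) < 2 * (al + d)) (h2 : 2 * (be + d) < 5 * D.n)
    (h3 : (D.n : ℤ) < 2 * (al + d'')) (h4 : 2 * (be + d'') < 5 * D.n) :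
    ((be : ℝ) - al) / (D.q : ℝ) ^ 2 - 1 - 20 ≤
      (((univ : Finset (ZMod (2 * D.S) × ZMod (2 * D.S))).filter
        (fun t => D.Y v1 t.1 = 2 * D.Y v2 t.2 + s ∧
          (((D.n : ℤ) < 2 * (D.Y v2 t.2 + d) ∧ 2 * (D.Y v2 t.2 + d) < 5 * D.n) ∧
            ¬ (D.n : ℤ) ∣ 4 * (D.Y v2 t.2 + d)) ∧
          (((D.n : ℤ) < 2 * (D.Y v2 t.2 + d'') ∧ 2 * (D.Y v2 t.2 + d'') < 5 * D.n) ∧
            ¬ (D.n : ℤ) ∣ 4 * (D.Y v2 t.2 + d'')))).card : ℝ) := by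
  classical
  have k1 := card_Y_ge h hv2 hal hbe
  have k2 := card_Y_quart h hv2 d
  have k3 := card_Y_quart h hv2 d''
  obtain ⟨A, hA⟩ : ∃ A : Finset (ZMod (2 * D.S)), A = univ.filter
    (fun t : ZMod (2 * D.S) => al ≤ D.Y v2 t ∧ D.Y v2 t ≤ be) := ⟨_, rfl⟩
  obtain ⟨B, hB⟩ : ∃ B : Finset (ZMod (2 * D.S)), B = univ.filter
    (fun t : ZMod (2 * D.S) => ((D.n : ℤ) < 2 * (D.Y v2 t + d) ∧
      2 * (D.Y v2 t + d) < 5 * D.n) ∧ (D.n : ℤ) ∣ 4 * (D.Y v2 t + d)) := ⟨_, rfl⟩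
  obtain ⟨C, hC⟩ : ∃ C : Finset (ZMod (2 * D.S)), C = univ.filter
    (fun t : ZMod (2 * D.S) => ((D.n : ℤ) < 2 * (D.Y v2 t + d'') ∧
      2 * (D.Y v2 t + d'') < 5 * D.n) ∧ (D.n : ℤ) ∣ 4 * (D.Y v2 t + d'')) := ⟨_, rfl⟩
  rw [← hA] at k1
  rw [← hB] at k2
  rw [← hC] at k3
  have k4 : A \ (B ∪ C) ⊆ ((univ : Finset (ZMod (2 * D.S) × ZMod (2 * D.S))).filter
        (fun t => D.Y v1 t.1 = 2 * D.Y v2 t.2 + s ∧
          (((D.n : ℤ) < 2 * (D.Y v2 t.2 + d) ∧ 2 * (D.Y v2 t.2 + d) < 5 * D.n) ∧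
            ¬ (D.n : ℤ) ∣ 4 * (D.Y v2 t.2 + d)) ∧
          (((D.n : ℤ) < 2 * (D.Y v2 t.2 + d'') ∧ 2 * (D.Y v2 t.2 + d'') < 5 * D.n) ∧
            ¬ (D.n : ℤ) ∣ 4 * (D.Y v2 t.2 + d'')))).image Prod.snd := by
    intro t ht
    rw [mem_sdiff, mem_union, not_or] at ht
    obtain ⟨ht1, ht2, ht3⟩ := ht
    rw [hA, mem_filter] at ht1
    obtain ⟨_, hl, hr⟩ := ht1
    obtain ⟨t1, ht4⟩ := Y_surj' h hv1 (x := 2 * D.Y v2 t + s) (by
      push_cast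
      rw [h.Y_res v2 hv2 t, hs]) ⟨by linarith, by linarith⟩
    have r1 : (D.n : ℤ) < 2 * (D.Y v2 t + d) ∧ 2 * (D.Y v2 t + d) < 5 * D.n :=
      ⟨by linarith, by linarith⟩
    have r2 : (D.n : ℤ) < 2 * (D.Y v2 t + d'') ∧ 2 * (D.Y v2 t + d'') < 5 * D.n :=
      ⟨by linarith, by linarith⟩
    rw [mem_image]
    refine ⟨(t1, t), ?_, rfl⟩
    rw [mem_filter]
    refine ⟨mem_univ _, ht4, ⟨r1, ?_⟩, ⟨r2, ?_⟩⟩
    · intro hd
      apply ht2
      rw [hB, mem_filter]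
      exact ⟨mem_univ _, r1, hd⟩
    · intro hd
      apply ht3
      rw [hC, mem_filter]
      exact ⟨mem_univ _, r2, hd⟩
  have k5 := (Finset.card_le_card k4).trans Finset.card_image_le
  have k6 : A.card ≤ (A \ (B ∪ C)).card + (B ∪ C).card := by
    have := Finset.le_card_sdiff (B ∪ C) A
    omega
  have k7 := Finset.card_union_le B C
  have k8 : (A.card : ℝ) ≤ (A \ (B ∪ C)).card + (B.card + C.card) := by
    exact_mod_cast k6.trans (Nat.add_le_add_left k7 _)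
  have k9 := (Nat.cast_le (α := ℝ)).2 k5
  linarith

/-- the interval for the U-switch -/
theorem windowU {n B W a d e : ℤ} (hn : 10000 ≤ n) (hB : n ≤ B) (hW : 999 * n ≤ 1000 * W)
    (hBW : B + W ≤ 2 * n) (ha : 255 * n ≤ 100 * a) (ha' : a * 100 ≤ 280 * n)
    (hd : n < d) (hd' : d ≤ 2 * n) (he : 95 * n ≤ 100 * e) (he' : 100 * e ≤ 105 * n) :
    ∃ al be : ℤ, B ≤ al ∧ be < B + W ∧ (2 * a - d - e) - al < B + W ∧ B ≤ (2 * a - d - e) - be ∧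
      4 * n ≤ 100 * (be - al) := by
  refine ⟨max B (2 * a - d - e - B - W + 1), min (B + W - 1) (2 * a - d - e - B), ?_⟩
  omega

/-- the interval for the I-switch -/
theorem windowI {n B W a d e : ℤ} (hn : 10000 ≤ n) (hB : n ≤ B) (hW : 999 * n ≤ 1000 * W)
    (hBW : B + W ≤ 2 * n) (ha : 255 * n ≤ 100 * a) (ha' : a * 100 ≤ 280 * n)
    (hd : 0 ≤ d) (hd' : d ≤ n) (he : 95 * n ≤ 100 * e) (he' : 100 * e ≤ 105 * n) :
    ∃ al be : ℤ, B ≤ al ∧ be < B + W ∧ B ≤ 2 * al + (d + e - a) ∧ 2 * be + (d + e - a) < B + W ∧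
      n < 2 * (al + d) ∧ 2 * (be + d) < 5 * n ∧ n < 2 * (al + e) ∧ 2 * (be + e) < 5 * n ∧
      4 * n ≤ 100 * (be - al) := by
  refine ⟨max B ((B + a - d - e + 1) / 2), min (B + W - 1) (min ((B + W - 1 + a - d - e) / 2)
    (min ((5 * n - 1) / 2 - d) ((5 * n - 1) / 2 - e))), ?_⟩
  omega

end Dat

end Pool.Agent.PGr
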