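import Mathlib
import Pool.Agent.PGr.E4Sb

/-!
# PGr, module E4Sc: probability of a switch of one item
-/

noncomputable section

namespace Pool.Agent.PGr

open Finset

namespace Dat

variable {D : Dat} {κ c : ℝ}

theorem Ze_mk (h : D.Reg κ c) {x : ℤ} (h1 : (D.n : ℤ) < 2 * x) (h2 : 2 * x < 5 * D.n)
    (h3 : unL D.q x ∉ D.Res) (h4 : ¬ (D.n : ℤ) ∣ 4 * x) : x ∈ D.Ze := by
  classical
  unfold Ze
  rw [mem_filter, h.Z0_def]
  exact ⟨⟨h1, h2, h3⟩, h4⟩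

theorem win (h : D.Reg κ c) (hκ : κ ≤ 1 / 1000) :
    (D.n : ℤ) ≤ D.B0 ∧ 999 * (D.n : ℤ) ≤ 1000 * (2 * D.S * D.q ^ 2) ∧
      (D.B0 : ℤ) + 2 * D.S * D.q ^ 2 ≤ 2 * D.n := by
  refine ⟨by exact_mod_cast h.B0_low, ?_, by exact_mod_cast h.B0_high⟩
  have h1 := h.S_low
  have hn : (0 : ℝ) ≤ D.n := Nat.cast_nonneg _
  have h2 : (999 : ℝ) * D.n ≤ 1000 * (2 * D.S * (D.q : ℝ) ^ 2) := by nlinarith
  exact_mod_cast h2

theorem n_bigS (h : D.Reg κ c) : (83521 : ℝ) * (D.q : ℝ) ^ 2 ≤ D.n ∧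
    2 * (D.S : ℝ) * (D.q : ℝ) ^ 2 ≤ D.n ∧ 10000 ≤ D.n := by
  have h1 := h.q_big
  have h2 : 17 ^ 4 ≤ D.q ^ 4 := Nat.pow_le_pow_left h1.le 4
  have h3 : 83521 * D.q ^ 2 ≤ D.q ^ 6 := by
    have : D.q ^ 6 = D.q ^ 4 * D.q ^ 2 := by ring
    rw [this]
    exact Nat.mul_le_mul_right _ (by simpa using h2)
  have h4 : 83521 * D.q ^ 2 ≤ D.n := h3.trans h.q_high
  have h5 : 1 ≤ D.q ^ 2 := Nat.one_le_pow _ _ D.q_pos
  refine ⟨by exact_mod_cast h4, ?_, by omega⟩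
  have h6 : 2 * D.S * D.q ^ 2 ≤ D.n := by
    have := h.B0_high
    have := h.B0_low
    omega
  exact_mod_cast h6

theorem IR_anc (h : D.Reg κ c) {m : ℕ} (hm : m ∈ D.IR) :
    255 * (D.n : ℤ) ≤ 100 * D.anc m ∧ D.anc m * 100 ≤ 280 * (D.n : ℤ) := by
  obtain ⟨h1, h2⟩ := h.IR_A m hm
  constructor
  · have h3 : (255 : ℝ) * D.n ≤ 100 * D.anc m := by linarith
    exact_mod_cast h3
  · have h3 : (D.anc m : ℝ) * 100 ≤ 280 * D.n := by linarith
    exact_mod_cast h3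

theorem JJ_mem {d : ℤ} (hd : d ∈ D.JJ) :
    d ∈ D.D2 ∧ 95 * (D.n : ℤ) ≤ 100 * d ∧ 100 * d ≤ 105 * (D.n : ℤ) := by
  classical
  unfold JJ at hd
  rw [mem_filter] at hd
  obtain ⟨h1, h2, h3⟩ := hd
  refine ⟨h1, ?_, ?_⟩
  · have h3 : (95 : ℝ) * D.n ≤ 100 * d := by linarith
    exact_mod_cast h3
  · have h3 : 100 * (d : ℝ) ≤ 105 * D.n := by linarith
    exact_mod_cast h3

/-- a reserved unit in the U-switch -/
def resU (D : Dat) (m : ℕ) (d : ℤ) : Prop :=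
  lamI D.q (1 * D.cmb 0 m + (-((d : ℤ) : ZMod (D.q ^ 2)))) ∈ D.Res ∨
  lamI D.q (1 * D.cmb 3 m + ((d : ℤ) : ZMod (D.q ^ 2))) ∈ D.Res ∨
  delI D.q (1 * D.cmb 5 m + (-((d : ℤ) : ZMod (D.q ^ 2)))) ∈ D.Res ∨
  delI D.q ((-1) * D.cmb 5 m + ((d : ℤ) : ZMod (D.q ^ 2))) ∈ D.Res ∨
  delI D.q (1 * D.cmb 6 m + (-((d : ℤ) : ZMod (D.q ^ 2)))) ∈ D.Res ∨
  delI D.q ((-1) * D.cmb 6 m + ((d : ℤ) : ZMod (D.q ^ 2))) ∈ D.Res

/-- a reserved unit in the I-switch -/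
def resI (D : Dat) (m : ℕ) (d : ℤ) : Prop :=
  lamI D.q (1 * D.cmb 2 m + ((d : ℤ) : ZMod (D.q ^ 2))) ∈ D.Res ∨
  lamI D.q (1 * D.cmb 4 m + (-((d : ℤ) : ZMod (D.q ^ 2)))) ∈ D.Res ∨
  delI D.q (1 * D.cmb 6 m + (-((d : ℤ) : ZMod (D.q ^ 2)))) ∈ D.Res ∨
  delI D.q (1 * D.cmb 7 m + (-((d : ℤ) : ZMod (D.q ^ 2)))) ∈ D.Res ∨
  delI D.q ((-1) * D.cmb 7 m + ((d : ℤ) : ZMod (D.q ^ 2))) ∈ D.Res

theorem final_count (h : D.Reg κ c) {N : ℝ} {al be : ℤ}
    (hN : ((be : ℝ) - al) / (D.q : ℝ) ^ 2 - 1 - 20 ≤ N)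
    (hab : 4 * (D.n : ℤ) ≤ 100 * (be - al)) {P : ℝ}
    (hP : N * ((1 / (2 * (D.S : ℝ))) * (1 / (2 * (D.S : ℝ))) * (2 / 5 : ℝ) ^ 6) ≤ P) :
    3 / 100 * (2 / 5 : ℝ) ^ 6 * (1 / (2 * (D.S : ℝ))) ≤ P := by
  obtain ⟨h1, h2, _⟩ := n_bigS h
  have hS : (0 : ℝ) < D.S := by exact_mod_cast D.S_pos
  have hQ : (0 : ℝ) < (D.q : ℝ) ^ 2 := by
    have : (0 : ℝ) < D.q := by exact_mod_cast D.q_pos
    positivity
  have hab' : 4 * (D.n : ℝ) ≤ 100 * ((be : ℝ) - al) := by exact_mod_cast hab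
  have h3 : 2 * (D.S : ℝ) ≤ D.n / (D.q : ℝ) ^ 2 := by
    rw [le_div_iff₀ hQ]
    exact h2
  have h4 : (83521 : ℝ) ≤ D.n / (D.q : ℝ) ^ 2 := by
    rw [le_div_iff₀ hQ]
    exact h1
  have h5 : 4 / 100 * (D.n / (D.q : ℝ) ^ 2) ≤ ((be : ℝ) - al) / (D.q : ℝ) ^ 2 := by
    rw [← mul_div_assoc, div_le_div_iff_of_pos_right hQ]
    linarith
  have h6 : 3 / 100 * (2 * (D.S : ℝ)) ≤ N := by linarith
  refine le_trans ?_ hP
  have h7 : 3 / 100 * (2 / 5 : ℝ) ^ 6 * (1 / (2 * (D.S : ℝ))) =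
      (3 / 100 * (2 * (D.S : ℝ))) * ((1 / (2 * (D.S : ℝ))) * (1 / (2 * (D.S : ℝ))) *
        (2 / 5 : ℝ) ^ 6) := by
    field_simp
  rw [h7]
  exact mul_le_mul_of_nonneg_right h6 (by positivity)

theorem cls_eqS {v : ℕ} (hv : v ∈ D.Sv) : D.cls v = lam D.q (D.un v) := by
  unfold cls
  rw [if_pos hv]

/-- the U-switch of a good item -/
theorem swU_ge (h : D.Reg κ c) (hκ : κ ≤ 1 / 1000) {m : ℕ} (hm : m ∈ D.IR)
    {d d'' : ℤ} (hd : d ∈ D.D2) (hd0 : (D.n : ℤ) < d) (hd1 : d ≤ 2 * D.n) (hj : d'' ∈ D.JJ)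
    (hc : D.cmb 8 m = -(((d + d'' : ℤ)) : ZMod (D.q ^ 2)))
    (hno : noU D.q ((D.anc m : ℤ) : ZMod (D.q ^ 2)) (D.cls (D.nb1 m)) (D.cls (D.nb2 m))
      ((d : ℤ) : ZMod (D.q ^ 2)))
    (hr : ¬ D.resU m d) (h4 : ¬ (D.n : ℤ) ∣ 4 * (D.anc m - d))
    (h4' : ¬ (D.n : ℤ) ∣ 4 * (D.anc m - d'')) :
    3 / 100 * (2 / 5 : ℝ) ^ 6 * (1 / (2 * (D.S : ℝ))) ≤
      Pr (fun θ : D.Om => D.swU θ m d d'') := by
  classical
  have hIt := h.IR_sub hm
  have hpure := h.IR_pure m hm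
  obtain ⟨hv1, hv2, hr1, hr2⟩ := id hpure
  obtain ⟨w1, w2, w3⟩ := win h hκ
  obtain ⟨b1, b2, b3⟩ := n_bigS h
  obtain ⟨ha1, ha2⟩ := IR_anc h hm
  obtain ⟨hj1, hj2, hj3⟩ := JJ_mem hj
  have hκ5 : κ ≤ 1 / 5 := by linarith
  obtain ⟨p1, p2, p3⟩ := pD_D2 h hκ5 hd
  obtain ⟨q1, q2, q3⟩ := pD_D2 h hκ5 hj1
  have hn' : (10000 : ℤ) ≤ D.n := by exact_mod_cast b3
  obtain ⟨al, be, k1, k2, k3, k4, k5⟩ := windowU (n := (D.n : ℤ)) (B := (D.B0 : ℤ))
    (W := 2 * D.S * (D.q : ℤ) ^ 2) (a := D.anc m) (d := d) (e := d'') hn' w1 w2 w3 ha1 ha2 hd0 hd1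
    hj2 hj3
  have hcc : ((2 * D.anc m - d - d'' : ℤ) : ZMod (D.q ^ 2)) =
      lam D.q (D.un (D.nb1 m)) + lam D.q (D.un (D.nb2 m)) := by
    have e1 : D.cmb 8 m = -2 * ((D.anc m : ℤ) : ZMod (D.q ^ 2)) + D.cls (D.nb1 m) +
      D.cls (D.nb2 m) := rfl
    rw [e1, cls_eqS hv1, cls_eqS hv2] at hc
    push_cast at hc ⊢
    linear_combination -hc
  have kc := card_pairsU h hv1 hv2 (2 * D.anc m - d - d'') hcc k1 k2 k3 k4
  obtain ⟨P, hP⟩ : ∃ P : Finset (ZMod (2 * D.S) × ZMod (2 * D.S)), P = univ.filter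
    (fun t => D.Y (D.nb1 m) t.1 + D.Y (D.nb2 m) t.2 = 2 * D.anc m - d - d'') := ⟨_, rfl⟩
  rw [← hP] at kc
  refine final_count h (N := (P.card : ℝ)) (al := al) (be := be) ?_ k5 ?_
  · linarith
  · -- facts on the labels
    have hx1 : unL D.q (D.anc m - d) ∉ D.Res := by
      intro hin
      apply hr
      left
      unfold unL at hin
      push_cast at hin
      have e0 : D.cmb 0 m = ((D.anc m : ℤ) : ZMod (D.q ^ 2)) := rfl
      rw [one_mul, e0, ← sub_eq_add_neg]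
      exact hin
    have hx2 : unL D.q (D.anc m - d'') ∉ D.Res := by
      intro hin
      apply hr
      right; left
      unfold unL at hin
      have e2 : ((D.anc m - d'' : ℤ) : ZMod (D.q ^ 2)) = 1 * D.cmb 3 m + ((d : ℤ) : ZMod (D.q ^ 2)) := by
        have e3 : D.cmb 3 m = -((D.anc m : ℤ) : ZMod (D.q ^ 2)) + D.cls (D.nb1 m) +
          D.cls (D.nb2 m) := rfl
        rw [e3, cls_eqS hv1, cls_eqS hv2]
        push_cast at hcc ⊢
        linear_combination hcc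
      rw [e2] at hin
      exact hin
    have hu1 : ∀ y : ℤ, ((y : ℤ) : ZMod (D.q ^ 2)) = D.cls (D.nb1 m) →
        unD D.q |D.anc m - d - y| ∉ D.Res := by
      intro y hy hin
      apply hr
      unfold unD at hin
      rcases abs_choice (D.anc m - d - y) with he | he
      · right; right; left
        have e3 : D.cmb 5 m = ((D.anc m : ℤ) : ZMod (D.q ^ 2)) - D.cls (D.nb1 m) := rfl
        rw [he] at hin
        have e4 : ((D.anc m - d - y : ℤ) : ZMod (D.q ^ 2)) =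
            1 * D.cmb 5 m + (-((d : ℤ) : ZMod (D.q ^ 2))) := by
          rw [e3, ← hy]
          push_cast
          ring
        rw [e4] at hin
        exact hin
      · right; right; right; left
        have e3 : D.cmb 5 m = ((D.anc m : ℤ) : ZMod (D.q ^ 2)) - D.cls (D.nb1 m) := rfl
        rw [he] at hin
        have e4 : ((-(D.anc m - d - y) : ℤ) : ZMod (D.q ^ 2)) =
            (-1) * D.cmb 5 m + ((d : ℤ) : ZMod (D.q ^ 2)) := by
          rw [e3, ← hy]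
          push_cast
          ring
        rw [e4] at hin
        exact hin
    have hu2 : ∀ y : ℤ, ((y : ℤ) : ZMod (D.q ^ 2)) = D.cls (D.nb2 m) →
        unD D.q |D.anc m - d - y| ∉ D.Res := by
      intro y hy hin
      apply hr
      unfold unD at hin
      rcases abs_choice (D.anc m - d - y) with he | he
      · right; right; right; right; left
        have e3 : D.cmb 6 m = ((D.anc m : ℤ) : ZMod (D.q ^ 2)) - D.cls (D.nb2 m) := rfl
        rw [he] at hin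
        have e4 : ((D.anc m - d - y : ℤ) : ZMod (D.q ^ 2)) =
            1 * D.cmb 6 m + (-((d : ℤ) : ZMod (D.q ^ 2))) := by
          rw [e3, ← hy]
          push_cast
          ring
        rw [e4] at hin
        exact hin
      · right; right; right; right; right
        have e3 : D.cmb 6 m = ((D.anc m : ℤ) : ZMod (D.q ^ 2)) - D.cls (D.nb2 m) := rfl
        rw [he] at hin
        have e4 : ((-(D.anc m - d - y) : ℤ) : ZMod (D.q ^ 2)) =
            (-1) * D.cmb 6 m + ((d : ℤ) : ZMod (D.q ^ 2)) := by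
          rw [e3, ← hy]
          push_cast
          ring
        rw [e4] at hin
        exact hin
    have hY1 : ∀ t, ((D.Y (D.nb1 m) t : ℤ) : ZMod (D.q ^ 2)) = D.cls (D.nb1 m) := by
      intro t
      rw [h.Y_res _ hv1 t, cls_eqS hv1]
    have hY2 : ∀ t, ((D.Y (D.nb2 m) t : ℤ) : ZMod (D.q ^ 2)) = D.cls (D.nb2 m) := by
      intro t
      rw [h.Y_res _ hv2 t, cls_eqS hv2]
    have hnd : ∀ t : ZMod (2 * D.S) × ZMod (2 * D.S),
        D.Y (D.nb1 m) t.1 + D.Y (D.nb2 m) t.2 = 2 * D.anc m - d - d'' →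
        [unL D.q (D.Y (D.nb1 m) t.1), unL D.q (D.Y (D.nb2 m) t.2), unL D.q (D.anc m - d),
          unL D.q (D.anc m - d''), unD D.q d, unD D.q d'',
          unD D.q |D.anc m - d - D.Y (D.nb1 m) t.1|,
          unD D.q |D.anc m - d - D.Y (D.nb2 m) t.2|].Nodup := by
      intro t ht
      exact nodupU (hY1 t.1) (hY2 t.2) ht hno
    have hrg : ∀ v ∈ D.Sv, ∀ t, (D.n : ℤ) ≤ D.Y v t ∧ D.Y v t ≤ 2 * D.n := by
      intro v hv t
      have := h.Y_mem v hv t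
      constructor <;> linarith [this.1, this.2]
    -- differences to the neighbours
    have hD1 : ∀ t, unL D.q (D.Y (D.nb1 m) t) ≠ unL D.q (D.anc m - d) →
        |D.anc m - d - D.Y (D.nb1 m) t| ∈ D.D0 ∧ 1 ≤ |D.anc m - d - D.Y (D.nb1 m) t| := by
      intro t hne
      have hne' : D.anc m - d - D.Y (D.nb1 m) t ≠ 0 := by
        intro h0
        apply hne
        congr 1
        linarith
      have h1 : 1 ≤ |D.anc m - d - D.Y (D.nb1 m) t| := Int.one_le_abs hne'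
      refine ⟨h.D0_mem _ h1 ?_ (hu1 _ (hY1 t)), h1⟩
      rw [abs_le]
      have := hrg _ hv1 t
      constructor <;> omega
    have hD2 : ∀ t, unL D.q (D.Y (D.nb2 m) t) ≠ unL D.q (D.anc m - d) →
        |D.anc m - d - D.Y (D.nb2 m) t| ∈ D.D0 ∧ 1 ≤ |D.anc m - d - D.Y (D.nb2 m) t| := by
      intro t hne
      have hne' : D.anc m - d - D.Y (D.nb2 m) t ≠ 0 := by
        intro h0
        apply hne
        congr 1
        linarith
      have h1 : 1 ≤ |D.anc m - d - D.Y (D.nb2 m) t| := Int.one_le_abs hne'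
      refine ⟨h.D0_mem _ h1 ?_ (hu2 _ (hY2 t)), h1⟩
      rw [abs_le]
      have := hrg _ hv2 t
      constructor <;> omega
    have hZ1 : D.anc m - d ∈ D.Ze := Ze_mk h (by omega) (by omega) hx1 h4
    have hZ2 : D.anc m - d'' ∈ D.Ze := Ze_mk h (by omega) (by omega) hx2 h4'
    have hunne : ∀ t : ZMod (2 * D.S) × ZMod (2 * D.S),
        D.Y (D.nb1 m) t.1 + D.Y (D.nb2 m) t.2 = 2 * D.anc m - d - d'' →
        unL D.q (D.Y (D.nb1 m) t.1) ≠ unL D.q (D.anc m - d) ∧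
        unL D.q (D.Y (D.nb2 m) t.2) ≠ unL D.q (D.anc m - d) := by
      intro t ht
      have := hnd t ht
      simp only [List.nodup_cons, List.mem_cons, not_or] at this
      exact ⟨this.1.2.1, this.2.1.1⟩
    refine Pr_pairs_ge (D.un (D.nb1 m)) (D.un (D.nb2 m)) P _ (fun t θ =>
      ¬ D.occ θ (D.anc m - d) ∧ ¬ D.occ θ (D.anc m - d'') ∧ ¬ D.used θ d ∧ ¬ D.used θ d'' ∧
      ¬ D.used θ |D.anc m - d - D.Y (D.nb1 m) t.1| ∧
      ¬ D.used θ |D.anc m - d - D.Y (D.nb2 m) t.2|) _ ?_ ?_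
    · intro t ht θ e1 e2 hR
      rw [hP, mem_filter] at ht
      obtain ⟨r1, r2, r3, r4, r5, r6⟩ := hR
      obtain ⟨y1, y2⟩ := yy_pure hpure θ
      rw [e1] at y1
      rw [e2] at y2
      have hN := hnd t ht.2
      obtain ⟨n1, n2⟩ := hunne t ht.2
      have dd1 := hD1 t.1 n1
      have dd2 := hD2 t.2 n2
      have a1 : |D.anc m - d - D.anc m| = d := by
        rw [show D.anc m - d - D.anc m = -d by ring, abs_neg, abs_of_nonneg (by omega)]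
      have a2 : |D.anc m - d'' - D.anc m| = d'' := by
        rw [show D.anc m - d'' - D.anc m = -d'' by ring, abs_neg, abs_of_nonneg (by omega)]
      have a3 : |D.anc m - d'' - D.Y (D.nb1 m) t.1| = |D.anc m - d - D.Y (D.nb2 m) t.2| := by
        rw [abs_sub_comm (D.anc m - d) (D.Y (D.nb2 m) t.2)]
        congr 1
        linarith [ht.2]
      have a4 : |D.anc m - d'' - D.Y (D.nb2 m) t.2| = |D.anc m - d - D.Y (D.nb1 m) t.1| := by
        rw [abs_sub_comm (D.anc m - d) (D.Y (D.nb1 m) t.1)]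
        congr 1
        linarith [ht.2]
      unfold swU edge
      rw [y1, y2]
      refine ⟨ht.2, ?_, ?_, hN⟩
      · refine ⟨hZ1, r1, ?_, ⟨dd1.1, r5⟩, ⟨dd2.1, r6⟩, ?_⟩
        · rw [a1]
          exact ⟨p1, r3⟩
        · unfold uns
          rw [a1]
          exact nd8a hN
      · refine ⟨hZ2, r2, ?_, ?_, ?_, ?_⟩
        · rw [a2]
          exact ⟨q1, r4⟩
        · rw [a3]
          exact ⟨dd2.1, r6⟩
        · rw [a4]
          exact ⟨dd1.1, r5⟩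
        · unfold uns
          rw [a2, a3, a4]
          exact nd8b hN
    · intro t ht
      rw [hP, mem_filter] at ht
      have hN := hnd t ht.2
      obtain ⟨n1, n2⟩ := hunne t ht.2
      have dd1 := hD1 t.1 n1
      have dd2 := hD2 t.2 n2
      rw [unL_Y h hv1, unL_Y h hv2] at hN
      exact Pr_eight_ge h hκ5 hN hx1 hx2 p3 q3 (pD_ge' h hκ5 (hu1 _ (hY1 t.1)) dd1.2)
        (pD_ge' h hκ5 (hu2 _ (hY2 t.2)) dd2.2) t.1 t.2

end Dat

end Pool.Agent.PGr
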