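import Mathlib
import Pool.Agent.PGr.E4Sc

/-!
# PGr, module E4Sd: probability of the I-switch of one item, upper bounds
-/

noncomputable section

namespace Pool.Agent.PGr

open Finset

namespace Dat

variable {D : Dat} {κ c : ℝ}

/-- the I-switch of a good item -/
theorem swI_ge (h : D.Reg κ c) (hκ : κ ≤ 1 / 1000) {m : ℕ} (hm : m ∈ D.IR)
    {d d'' : ℤ} (hd : d ∈ D.D2) (hd1 : d ≤ D.n) (hj : d'' ∈ D.JJ)
    (hc : D.cmb 9 m = (((d + d'' : ℤ)) : ZMod (D.q ^ 2)))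
    (hno : noI D.q ((D.anc m : ℤ) : ZMod (D.q ^ 2)) (D.cls (D.nb1 m)) (D.cls (D.nb2 m))
      ((d : ℤ) : ZMod (D.q ^ 2)))
    (hr : ¬ D.resI m d) :
    3 / 100 * (2 / 5 : ℝ) ^ 6 * (1 / (2 * (D.S : ℝ))) ≤
      Pr (fun θ : D.Om => D.swI θ m d d'') := by
  classical
  have hIt := h.IR_sub hm
  have hpure := h.IR_pure m hm
  obtain ⟨hv1, hv2, hr1, hr2⟩ := id hpure
  obtain ⟨w1, w2, w3⟩ := win h hκ
  obtain ⟨b1, b2, b3⟩ := n_bigS h
  obtain ⟨ha1, ha2⟩ := IR_anc h hm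
  obtain ⟨hj1, hj2, hj3⟩ := JJ_mem hj
  have hκ5 : κ ≤ 1 / 5 := by linarith
  obtain ⟨p1, p2, p3⟩ := pD_D2 h hκ5 hd
  obtain ⟨q1, q2, q3⟩ := pD_D2 h hκ5 hj1
  have hn' : (10000 : ℤ) ≤ D.n := by exact_mod_cast b3
  obtain ⟨al, be, k1, k2, k3, k4, k6, k7, k8, k9, k5⟩ := windowI (n := (D.n : ℤ)) (B := (D.B0 : ℤ))
    (W := 2 * D.S * (D.q : ℤ) ^ 2) (a := D.anc m) (d := d) (e := d'') hn' w1 w2 w3 ha1 ha2
    (by omega) hd1 hj2 hj3
  have hcc : 2 * lam D.q (D.un (D.nb2 m)) + ((d + d'' - D.anc m : ℤ) : ZMod (D.q ^ 2)) =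
      lam D.q (D.un (D.nb1 m)) := by
    have e1 : D.cmb 9 m = ((D.anc m : ℤ) : ZMod (D.q ^ 2)) + D.cls (D.nb1 m) -
      2 * D.cls (D.nb2 m) := rfl
    rw [e1, cls_eqS hv1, cls_eqS hv2] at hc
    push_cast at hc ⊢
    linear_combination -hc
  have kc := card_pairsI h hv1 hv2 (d + d'' - D.anc m) d d'' hcc k1 k2 k3 k4 k6 k7 k8 k9
  obtain ⟨P, hP⟩ : ∃ P : Finset (ZMod (2 * D.S) × ZMod (2 * D.S)), P = univ.filter
    (fun t => D.Y (D.nb1 m) t.1 = 2 * D.Y (D.nb2 m) t.2 + (d + d'' - D.anc m) ∧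
          (((D.n : ℤ) < 2 * (D.Y (D.nb2 m) t.2 + d) ∧ 2 * (D.Y (D.nb2 m) t.2 + d) < 5 * D.n) ∧
            ¬ (D.n : ℤ) ∣ 4 * (D.Y (D.nb2 m) t.2 + d)) ∧
          (((D.n : ℤ) < 2 * (D.Y (D.nb2 m) t.2 + d'') ∧
            2 * (D.Y (D.nb2 m) t.2 + d'') < 5 * D.n) ∧
            ¬ (D.n : ℤ) ∣ 4 * (D.Y (D.nb2 m) t.2 + d''))) := ⟨_, rfl⟩
  rw [← hP] at kc
  have hY1 : ∀ t, ((D.Y (D.nb1 m) t : ℤ) : ZMod (D.q ^ 2)) = D.cls (D.nb1 m) := by
    intro t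
    rw [h.Y_res _ hv1 t, cls_eqS hv1]
  have hY2 : ∀ t, ((D.Y (D.nb2 m) t : ℤ) : ZMod (D.q ^ 2)) = D.cls (D.nb2 m) := by
    intro t
    rw [h.Y_res _ hv2 t, cls_eqS hv2]
  refine final_count h (N := (P.card : ℝ)) (al := al) (be := be) kc k5 ?_
  -- facts on the labels
  have hx1 : ∀ t, unL D.q (D.Y (D.nb2 m) t + d) ∉ D.Res := by
    intro t hin
    apply hr
    left
    unfold unL at hin
    push_cast at hin
    have e0 : D.cmb 2 m = D.cls (D.nb2 m) := rfl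
    rw [hY2] at hin
    rw [one_mul, e0]
    exact hin
  have hx2 : ∀ t, unL D.q (D.Y (D.nb2 m) t + d'') ∉ D.Res := by
    intro t hin
    apply hr
    right; left
    unfold unL at hin
    have e2 : ((D.Y (D.nb2 m) t + d'' : ℤ) : ZMod (D.q ^ 2)) =
        1 * D.cmb 4 m + (-((d : ℤ) : ZMod (D.q ^ 2))) := by
      have e3 : D.cmb 4 m = ((D.anc m : ℤ) : ZMod (D.q ^ 2)) + D.cls (D.nb1 m) -
        D.cls (D.nb2 m) := rfl
      rw [e3]
      push_cast at hcc ⊢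
      rw [hY2, cls_eqS hv1, cls_eqS hv2]
      linear_combination hcc
    rw [e2] at hin
    exact hin
  have hu1 : ∀ y1 y2 : ℤ, ((y1 : ℤ) : ZMod (D.q ^ 2)) = D.cls (D.nb1 m) →
      ((y2 : ℤ) : ZMod (D.q ^ 2)) = D.cls (D.nb2 m) → unD D.q |y2 + d - y1| ∉ D.Res := by
    intro y1 y2 hy1 hy2 hin
    apply hr
    unfold unD at hin
    have e3 : D.cmb 7 m = D.cls (D.nb1 m) - D.cls (D.nb2 m) := rfl
    rcases abs_choice (y2 + d - y1) with he | he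
    · right; right; right; right
      rw [he] at hin
      have e4 : ((y2 + d - y1 : ℤ) : ZMod (D.q ^ 2)) =
          (-1) * D.cmb 7 m + ((d : ℤ) : ZMod (D.q ^ 2)) := by
        rw [e3, ← hy1, ← hy2]
        push_cast
        ring
      rw [e4] at hin
      exact hin
    · right; right; right; left
      rw [he] at hin
      have e4 : ((-(y2 + d - y1) : ℤ) : ZMod (D.q ^ 2)) =
          1 * D.cmb 7 m + (-((d : ℤ) : ZMod (D.q ^ 2))) := by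
        rw [e3, ← hy1, ← hy2]
        push_cast
        ring
      rw [e4] at hin
      exact hin
  have hu2 : ∀ y2 : ℤ, ((y2 : ℤ) : ZMod (D.q ^ 2)) = D.cls (D.nb2 m) → y2 + d ≤ D.anc m →
      unD D.q |y2 + d - D.anc m| ∉ D.Res := by
    intro y2 hy2 hle hin
    apply hr
    unfold unD at hin
    rw [abs_of_nonpos (by linarith)] at hin
    right; right; left
    have e3 : D.cmb 6 m = ((D.anc m : ℤ) : ZMod (D.q ^ 2)) - D.cls (D.nb2 m) := rfl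
    have e4 : ((-(y2 + d - D.anc m) : ℤ) : ZMod (D.q ^ 2)) =
        1 * D.cmb 6 m + (-((d : ℤ) : ZMod (D.q ^ 2))) := by
      rw [e3, ← hy2]
      push_cast
      ring
    rw [e4] at hin
    exact hin
  have hrg : ∀ v ∈ D.Sv, ∀ t, (D.n : ℤ) ≤ D.Y v t ∧ D.Y v t ≤ 2 * D.n := by
    intro v hv t
    have := h.Y_mem v hv t
    constructor <;> linarith [this.1, this.2]
  -- the main facts of a pair
  have main : ∀ t ∈ P,
      [unL D.q (D.Y (D.nb1 m) t.1), unL D.q (D.Y (D.nb2 m) t.2),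
        unL D.q (D.Y (D.nb2 m) t.2 + d), unL D.q (D.Y (D.nb2 m) t.2 + d''), unD D.q d, unD D.q d'',
        unD D.q |D.Y (D.nb2 m) t.2 + d - D.Y (D.nb1 m) t.1|,
        unD D.q |D.Y (D.nb2 m) t.2 + d - D.anc m|].Nodup ∧
      2 * D.Y (D.nb2 m) t.2 + d + d'' = D.Y (D.nb1 m) t.1 + D.anc m ∧
      D.Y (D.nb2 m) t.2 + d ∈ D.Ze ∧ D.Y (D.nb2 m) t.2 + d'' ∈ D.Ze ∧
      |D.Y (D.nb2 m) t.2 + d - D.Y (D.nb1 m) t.1| ∈ D.D0 ∧
      1 ≤ |D.Y (D.nb2 m) t.2 + d - D.Y (D.nb1 m) t.1| ∧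
      |D.Y (D.nb2 m) t.2 + d - D.anc m| ∈ D.D0 ∧ 1 ≤ |D.Y (D.nb2 m) t.2 + d - D.anc m| ∧
      D.Y (D.nb2 m) t.2 + d ≤ D.anc m := by
    intro t ht
    rw [hP, mem_filter] at ht
    obtain ⟨_, hs, ⟨⟨z1, z2⟩, z3⟩, ⟨⟨z4, z5⟩, z6⟩⟩ := ht
    have hs' : 2 * D.Y (D.nb2 m) t.2 + d + d'' = D.Y (D.nb1 m) t.1 + D.anc m := by linarith
    have hle : D.Y (D.nb2 m) t.2 + d ≤ D.anc m := by omega
    have hlt : D.Y (D.nb2 m) t.2 + d < D.anc m := by omega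
    have hN := nodupI (hY1 t.1) (hY2 t.2) hs' hle hno
    have hne : unL D.q (D.Y (D.nb1 m) t.1) ≠ unL D.q (D.Y (D.nb2 m) t.2 + d) := by
      have := hN
      simp only [List.nodup_cons, List.mem_cons, not_or] at this
      exact this.1.2.1
    have hne' : D.Y (D.nb2 m) t.2 + d - D.Y (D.nb1 m) t.1 ≠ 0 := by
      intro h0
      apply hne
      congr 1
      linarith
    have g1 := hrg _ hv1 t.1
    have g2 := hrg _ hv2 t.2
    have r1 : 1 ≤ |D.Y (D.nb2 m) t.2 + d - D.Y (D.nb1 m) t.1| := Int.one_le_abs hne'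
    have r2 : 1 ≤ |D.Y (D.nb2 m) t.2 + d - D.anc m| := Int.one_le_abs (by omega)
    refine ⟨hN, hs', Ze_mk h z1 z2 (hx1 t.2) z3, Ze_mk h z4 z5 (hx2 t.2) z6, ?_, r1, ?_, r2, hle⟩
    · refine h.D0_mem _ r1 ?_ (hu1 _ _ (hY1 t.1) (hY2 t.2))
      rw [abs_le]
      constructor <;> omega
    · refine h.D0_mem _ r2 ?_ (hu2 _ (hY2 t.2) hle)
      rw [abs_le]
      constructor <;> omega
  refine Pr_pairs_ge (D.un (D.nb1 m)) (D.un (D.nb2 m)) P _ (fun t θ =>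
    ¬ D.occ θ (D.Y (D.nb2 m) t.2 + d) ∧ ¬ D.occ θ (D.Y (D.nb2 m) t.2 + d'') ∧ ¬ D.used θ d ∧
    ¬ D.used θ d'' ∧ ¬ D.used θ |D.Y (D.nb2 m) t.2 + d - D.Y (D.nb1 m) t.1| ∧
    ¬ D.used θ |D.Y (D.nb2 m) t.2 + d - D.anc m|) _ ?_ ?_
  · intro t ht θ e1 e2 hR
    obtain ⟨hN, hs, z1, z2, f1, f2, f3, f4, f5⟩ := main t ht
    obtain ⟨r1, r2, r3, r4, r5, r6⟩ := hR
    obtain ⟨y1, y2⟩ := yy_pure hpure θ
    rw [e1] at y1
    rw [e2] at y2
    have a1 : |D.Y (D.nb2 m) t.2 + d - D.Y (D.nb2 m) t.2| = d := by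
      rw [show D.Y (D.nb2 m) t.2 + d - D.Y (D.nb2 m) t.2 = d by ring, abs_of_nonneg (by omega)]
    have a2 : |D.Y (D.nb2 m) t.2 + d'' - D.Y (D.nb2 m) t.2| = d'' := by
      rw [show D.Y (D.nb2 m) t.2 + d'' - D.Y (D.nb2 m) t.2 = d'' by ring,
        abs_of_nonneg (by omega)]
    have a3 : |D.Y (D.nb2 m) t.2 + d'' - D.Y (D.nb1 m) t.1| =
        |D.Y (D.nb2 m) t.2 + d - D.anc m| := by
      rw [abs_sub_comm (D.Y (D.nb2 m) t.2 + d) (D.anc m)]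
      congr 1
      linarith
    have a4 : |D.Y (D.nb2 m) t.2 + d'' - D.anc m| =
        |D.Y (D.nb2 m) t.2 + d - D.Y (D.nb1 m) t.1| := by
      rw [abs_sub_comm (D.Y (D.nb2 m) t.2 + d) (D.Y (D.nb1 m) t.1)]
      congr 1
      linarith
    unfold swI edge
    rw [y1, y2]
    refine ⟨hs, ?_, ?_, hN⟩
    · refine ⟨z1, r1, ⟨f3, r6⟩, ⟨f1, r5⟩, ?_, ?_⟩
      · rw [a1]
        exact ⟨p1, r3⟩
      · unfold uns
        rw [a1]
        exact nd8c hN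
    · refine ⟨z2, r2, ?_, ?_, ?_, ?_⟩
      · rw [a4]
        exact ⟨f1, r5⟩
      · rw [a3]
        exact ⟨f3, r6⟩
      · rw [a2]
        exact ⟨q1, r4⟩
      · unfold uns
        rw [a2, a3, a4]
        exact nd8d hN
  · intro t ht
    obtain ⟨hN, hs, z1, z2, f1, f2, f3, f4, f5⟩ := main t ht
    rw [unL_Y h hv1, unL_Y h hv2] at hN
    exact Pr_eight_ge h hκ5 hN (hx1 t.2) (hx2 t.2) p3 q3
      (pD_ge' h hκ5 (hu1 _ _ (hY1 t.1) (hY2 t.2)) f2)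
      (pD_ge' h hκ5 (hu2 _ (hY2 t.2) f5) f4) t.1 t.2

/-- upper bound for one item -/
theorem swv_le (h : D.Reg κ c) {m : ℕ} (hm : m ∈ D.IR) (d d'' : ℤ) :
    Pr (fun θ : D.Om => D.swv θ m d d'') ≤ 1 / (2 * (D.S : ℝ)) := by
  classical
  have hIt := h.IR_sub hm
  have hpure := h.IR_pure m hm
  obtain ⟨hv1, hv2, hr1, hr2⟩ := id hpure
  have hcard : (Fintype.card (ZMod (2 * D.S)) : ℝ) = 2 * (D.S : ℝ) := by
    rw [ZMod.card]
    push_cast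
    ring
  rw [← hcard]
  by_cases hd : d ≤ D.n
  · refine Pr_graph_le (D.un (D.nb1 m)) (D.un (D.nb2 m)) (un_ne h hIt hpure) _
      (fun t1 t2 => 2 * D.Y (D.nb2 m) t2 + d + d'' = D.Y (D.nb1 m) t1 + D.anc m) ?_ ?_
    · intro t2 t1 t1' e1 e2
      apply h.Y_inj _ hv1
      linarith
    · intro θ hθ
      unfold swv at hθ
      rw [if_pos hd] at hθ
      obtain ⟨y1, y2⟩ := yy_pure hpure θ
      have := hθ.1
      rw [y1, y2] at this
      exact this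
  · refine Pr_graph_le (D.un (D.nb1 m)) (D.un (D.nb2 m)) (un_ne h hIt hpure) _
      (fun t1 t2 => D.Y (D.nb1 m) t1 + D.Y (D.nb2 m) t2 = 2 * D.anc m - d - d'') ?_ ?_
    · intro t2 t1 t1' e1 e2
      apply h.Y_inj _ hv1
      linarith
    · intro θ hθ
      unfold swv at hθ
      rw [if_neg hd] at hθ
      obtain ⟨y1, y2⟩ := yy_pure hpure θ
      have := hθ.1
      rw [y1, y2] at this
      exact this

theorem swv_zero (h : D.Reg κ c) {m : ℕ} (d d'' : ℤ)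
    (hc : if d ≤ D.n then D.cmb 9 m ≠ (((d + d'' : ℤ)) : ZMod (D.q ^ 2)) else
      D.cmb 8 m ≠ -(((d + d'' : ℤ)) : ZMod (D.q ^ 2))) :
    Pr (fun θ : D.Om => D.swv θ m d d'') = 0 := by
  classical
  have h1 : ∀ θ : D.Om, ¬ D.swv θ m d d'' := by
    intro θ hθ
    have e1 : ((D.yy1 θ m : ℤ) : ZMod (D.q ^ 2)) = D.cls (D.nb1 m) := cls_lab h θ _
    have e2 : ((D.yy2 θ m : ℤ) : ZMod (D.q ^ 2)) = D.cls (D.nb2 m) := cls_lab h θ _
    unfold swv at hθ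
    by_cases hd : d ≤ D.n
    · rw [if_pos hd] at hθ hc
      apply hc
      have e3 : D.cmb 9 m = ((D.anc m : ℤ) : ZMod (D.q ^ 2)) + D.cls (D.nb1 m) -
        2 * D.cls (D.nb2 m) := rfl
      have e4 := congrArg (fun z : ℤ => (z : ZMod (D.q ^ 2))) hθ.1
      push_cast at e4
      rw [e3, ← e1, ← e2]
      push_cast
      linear_combination -e4
    · rw [if_neg hd] at hθ hc
      apply hc
      have e3 : D.cmb 8 m = -2 * ((D.anc m : ℤ) : ZMod (D.q ^ 2)) + D.cls (D.nb1 m) +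
        D.cls (D.nb2 m) := rfl
      have e4 := congrArg (fun z : ℤ => (z : ZMod (D.q ^ 2))) hθ.1
      push_cast at e4
      rw [e3, ← e1, ← e2]
      push_cast
      linear_combination e4
  unfold Pr
  rw [Ex_congr (g := fun _ => (0 : ℝ)) (fun θ => by simp [h1 θ])]
  exact Ex_const 0

/-- part (a) of E4 -/
theorem QQ_le (h : D.Reg κ c) (hκ : κ ≤ 1 / 2) (d d'' : ℤ) : D.QQ d d'' ≤ 4 := by
  classical
  obtain ⟨j, v, hj, hjv⟩ : ∃ (j : Fin 10) (v : ZMod (D.q ^ 2)), (j = 8 ∨ j = 9) ∧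
      ∀ m, D.cmb j m ≠ v → Pr (fun θ : D.Om => D.swv θ m d d'') = 0 := by
    by_cases hd : d ≤ D.n
    · refine ⟨9, ((d + d'' : ℤ) : ZMod (D.q ^ 2)), Or.inr rfl, fun m hm => swv_zero h d d'' ?_⟩
      rw [if_pos hd]
      exact hm
    · refine ⟨8, -((d + d'' : ℤ) : ZMod (D.q ^ 2)), Or.inl rfl, fun m hm => swv_zero h d d'' ?_⟩
      rw [if_neg hd]
      exact hm
  have hS : (0 : ℝ) < D.S := by exact_mod_cast D.S_pos
  have hn : (0 : ℝ) < D.n := by exact_mod_cast h.n_pos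
  have hQ : (0 : ℝ) < (D.q : ℝ) ^ 2 := by
    have : (0 : ℝ) < D.q := by exact_mod_cast D.q_pos
    positivity
  unfold QQ
  have h1 : ∑ m ∈ D.IR, Pr (fun θ : D.Om => D.swv θ m d d'') =
      ∑ m ∈ D.IR.filter (fun m => D.cmb j m = v), Pr (fun θ : D.Om => D.swv θ m d d'') := by
    rw [Finset.sum_filter]
    apply Finset.sum_congr rfl
    intro m _
    split_ifs with hm
    · rfl
    · exact hjv m hm
  rw [h1]
  have h2 : ∑ m ∈ D.IR.filter (fun m => D.cmb j m = v), Pr (fun θ : D.Om => D.swv θ m d d'') ≤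
      ∑ _m ∈ D.IR.filter (fun m => D.cmb j m = v), (1 / (2 * (D.S : ℝ))) := by
    apply Finset.sum_le_sum
    intro m hm
    exact swv_le h (mem_filter.1 hm).1 d d''
  refine h2.trans ?_
  rw [Finset.sum_const, nsmul_eq_mul]
  have h3 := h.sw_up j hj v
  have h3' : ((D.IR.filter (fun m => D.cmb j m = v)).card : ℝ) ≤ 2 * D.n / (D.q : ℝ) ^ 2 := by
    convert h3 using 3
  have h4 : ((D.IR.filter (fun m => D.cmb j m = v)).card : ℝ) * (1 / (2 * (D.S : ℝ))) ≤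
      2 * D.n / (D.q : ℝ) ^ 2 * (1 / (2 * (D.S : ℝ))) :=
    mul_le_mul_of_nonneg_right h3' (by positivity)
  refine h4.trans ?_
  have h5 := h.S_low
  have h6 : 2 * D.n / (D.q : ℝ) ^ 2 * (1 / (2 * (D.S : ℝ))) =
      2 * D.n / (2 * D.S * (D.q : ℝ) ^ 2) := by
    field_simp
  rw [h6, div_le_iff₀ (by positivity)]
  nlinarith

end Dat

end Pool.Agent.PGr
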