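import Mathlib
import Pool.Agent.PGr.E4Sd

/-!
# PGr, module E4Se: bad classes of the switches, size of the hub
-/

noncomputable section

namespace Pool.Agent.PGr

open Finset

namespace Dat

variable {D : Dat} {κ c : ℝ}

/-- an item which is bad for the difference `d` -/
def badD (D : Dat) (d : ℤ) (m : ℕ) : Prop :=
  (¬ noU D.q ((D.anc m : ℤ) : ZMod (D.q ^ 2)) (D.cls (D.nb1 m)) (D.cls (D.nb2 m))
        ((d : ℤ) : ZMod (D.q ^ 2)) ∨
    ¬ noI D.q ((D.anc m : ℤ) : ZMod (D.q ^ 2)) (D.cls (D.nb1 m)) (D.cls (D.nb2 m))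
        ((d : ℤ) : ZMod (D.q ^ 2))) ∨ D.resU m d ∨ D.resI m d

open Classical in
/-- filter with a hidden instance -/
def flt (s : Finset ℕ) (P : ℕ → Prop) : Finset ℕ := s.filter P

theorem mem_flt {s : Finset ℕ} {P : ℕ → Prop} {m : ℕ} : m ∈ flt s P ↔ m ∈ s ∧ P m := by
  classical
  unfold flt
  rw [mem_filter]

theorem card_flt_or (s : Finset ℕ) (P R : ℕ → Prop) {a b : ℝ} (ha : ((flt s P).card : ℝ) ≤ a)
    (hb : ((flt s R).card : ℝ) ≤ b) : ((flt s (fun m => P m ∨ R m)).card : ℝ) ≤ a + b := by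
  classical
  have h1 : flt s (fun m => P m ∨ R m) ⊆ flt s P ∪ flt s R := by
    intro m hm
    rw [mem_flt] at hm
    rw [mem_union, mem_flt, mem_flt]
    rcases hm.2 with h | h
    · exact Or.inl ⟨hm.1, h⟩
    · exact Or.inr ⟨hm.1, h⟩
  have h2 := (Nat.cast_le (α := ℝ)).2 ((Finset.card_le_card h1).trans (Finset.card_union_le _ _))
  push_cast at h2
  linarith

theorem res_one (h : D.Reg κ c) (P : ℕ → Prop) (j : Fin 10) (e w : ZMod (D.q ^ 2)) (he : pm e)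
    (hP : ∀ m, P m → (lamI D.q (e * D.cmb j m + w) ∈ D.Res ∨
      delI D.q (e * D.cmb j m + w) ∈ D.Res)) :
    ((flt D.IR P).card : ℝ) ≤ κ * D.n := by
  classical
  refine le_trans ?_ (h.res j e w he)
  refine Nat.cast_le.2 (Finset.card_le_card ?_)
  intro m hm
  rw [mem_flt] at hm
  rw [mem_filter]
  exact ⟨h.IR_sub hm.1, h.IR_pure m hm.1, hP m hm.2⟩

theorem card_resU (h : D.Reg κ c) (d : ℤ) :
    ((flt D.IR (fun m => D.resU m d)).card : ℝ) ≤ 6 * (κ * D.n) := by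
  have hp : pm (1 : ZMod (D.q ^ 2)) := Or.inl rfl
  have hm : pm (-1 : ZMod (D.q ^ 2)) := Or.inr rfl
  have e6 : 6 * (κ * D.n) = κ * D.n + (κ * D.n + (κ * D.n + (κ * D.n +
    (κ * D.n + κ * D.n)))) := by ring
  rw [e6]
  unfold resU
  refine card_flt_or _ _ _ (res_one h _ 0 1 (-((d : ℤ) : ZMod (D.q ^ 2))) hp
    (fun m hm => Or.inl hm)) ?_
  refine card_flt_or _ _ _ (res_one h _ 3 1 ((d : ℤ) : ZMod (D.q ^ 2)) hp
    (fun m hm => Or.inl hm)) ?_
  refine card_flt_or _ _ _ (res_one h _ 5 1 (-((d : ℤ) : ZMod (D.q ^ 2))) hp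
    (fun m hm => Or.inr hm)) ?_
  refine card_flt_or _ _ _ (res_one h _ 5 (-1) ((d : ℤ) : ZMod (D.q ^ 2)) hm
    (fun m hm => Or.inr hm)) ?_
  exact card_flt_or _ _ _ (res_one h _ 6 1 (-((d : ℤ) : ZMod (D.q ^ 2))) hp
    (fun m hm => Or.inr hm)) (res_one h _ 6 (-1) ((d : ℤ) : ZMod (D.q ^ 2)) hm
    (fun m hm => Or.inr hm))

theorem card_resI (h : D.Reg κ c) (d : ℤ) :
    ((flt D.IR (fun m => D.resI m d)).card : ℝ) ≤ 5 * (κ * D.n) := by
  have hp : pm (1 : ZMod (D.q ^ 2)) := Or.inl rfl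
  have hm : pm (-1 : ZMod (D.q ^ 2)) := Or.inr rfl
  have e6 : 5 * (κ * D.n) = κ * D.n + (κ * D.n + (κ * D.n + (κ * D.n + κ * D.n))) := by ring
  rw [e6]
  unfold resI
  refine card_flt_or _ _ _ (res_one h _ 2 1 ((d : ℤ) : ZMod (D.q ^ 2)) hp
    (fun m hm => Or.inl hm)) ?_
  refine card_flt_or _ _ _ (res_one h _ 4 1 (-((d : ℤ) : ZMod (D.q ^ 2))) hp
    (fun m hm => Or.inl hm)) ?_
  refine card_flt_or _ _ _ (res_one h _ 6 1 (-((d : ℤ) : ZMod (D.q ^ 2))) hp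
    (fun m hm => Or.inr hm)) ?_
  exact card_flt_or _ _ _ (res_one h _ 7 1 (-((d : ℤ) : ZMod (D.q ^ 2))) hp
    (fun m hm => Or.inr hm)) (res_one h _ 7 (-1) ((d : ℤ) : ZMod (D.q ^ 2)) hm
    (fun m hm => Or.inr hm))

/-- number of bad items -/
theorem card_badD' (h : D.Reg κ c) {d : ℤ} (hd : d ∈ D.D2) :
    ((flt D.IR (D.badD d)).card : ℝ) ≤ 4000 * D.n / √(D.q : ℝ) + 11 * (κ * D.n) := by
  classical
  have hq : (0 : ℝ) < D.q := by exact_mod_cast D.q_pos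
  have hsq : 0 < √(D.q : ℝ) := Real.sqrt_pos.2 hq
  have e : 11 * (κ * D.n) = 6 * (κ * D.n) + 5 * (κ * D.n) := by ring
  rw [e]
  unfold badD
  refine card_flt_or _ _ _ ?_ (card_flt_or _ _ _ (card_resU h d) (card_resI h d))
  rw [le_div_iff₀ hsq]
  by_contra hcon
  push Not at hcon
  unfold D2 at hd
  rw [mem_filter] at hd
  apply hd.2.1
  unfold Ddef
  rw [mem_filter]
  refine ⟨hd.1, Or.inr (Or.inr (Or.inr ?_))⟩
  refine lt_of_lt_of_le hcon ?_
  refine mul_le_mul_of_nonneg_right (Nat.cast_le.2 (Finset.card_le_card ?_)) hsq.le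
  intro m hm
  rw [mem_flt] at hm
  rw [mem_filter]
  exact hm

open Classical in
theorem card_badD (h : D.Reg κ c) {d : ℤ} (hd : d ∈ D.D2) :
    ((D.IR.filter (D.badD d)).card : ℝ) ≤ 4000 * D.n / √(D.q : ℝ) + 11 * (κ * D.n) :=
  card_badD' h hd

open Classical in
/-- the bad classes -/
def badV (D : Dat) (c : ℝ) (j : Fin 10) (d : ℤ) : Finset (ZMod (D.q ^ 2)) :=
  (univ.filter (fun v => ((D.IR.filter (fun m => D.cmb j m = v)).card : ℝ) <
    c * D.n / (D.q : ℝ) ^ 2)) ∪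
  (univ.filter (fun v => c / 2 * D.n / (D.q : ℝ) ^ 2 <
    ((D.IR.filter (fun m => D.badD d m ∧ D.cmb j m = v)).card : ℝ)))

open Classical in
theorem card_badV (h : D.Reg κ c) (hc : 0 < c) (hκ : κ ≤ 1 / 1000) (hκc : κ ≤ c / 1000)
    (hq : 1000000 / c ≤ √(D.q : ℝ)) {d : ℤ} (hd : d ∈ D.D2) {j : Fin 10} (hj : j = 8 ∨ j = 9) :
    ((D.badV c j d).card : ℝ) ≤ (D.q : ℝ) ^ 2 / 20 := by
  have hn : (0 : ℝ) < D.n := by exact_mod_cast h.n_pos
  have hq0 : (0 : ℝ) < D.q := by exact_mod_cast D.q_pos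
  have hsq : 0 < √(D.q : ℝ) := Real.sqrt_pos.2 hq0
  have hQ : (0 : ℝ) < (D.q : ℝ) ^ 2 := by positivity
  unfold badV
  have h1 := h.sw_lo j hj
  have h2 : ((univ.filter (fun v => c / 2 * D.n / (D.q : ℝ) ^ 2 <
    ((D.IR.filter (fun m => D.badD d m ∧ D.cmb j m = v)).card : ℝ))).card : ℝ) *
      (c / 2 * D.n / (D.q : ℝ) ^ 2) ≤ 4000 * D.n / √(D.q : ℝ) + 11 * (κ * D.n) := by
    refine le_trans ?_ (card_badD h hd)
    have e1 : ((univ.filter (fun v => c / 2 * D.n / (D.q : ℝ) ^ 2 <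
        ((D.IR.filter (fun m => D.badD d m ∧ D.cmb j m = v)).card : ℝ))).card : ℝ) *
        (c / 2 * D.n / (D.q : ℝ) ^ 2) ≤ ∑ v ∈ univ.filter (fun v => c / 2 * D.n / (D.q : ℝ) ^ 2 <
        ((D.IR.filter (fun m => D.badD d m ∧ D.cmb j m = v)).card : ℝ)),
          ((D.IR.filter (fun m => D.badD d m ∧ D.cmb j m = v)).card : ℝ) := by
      rw [← nsmul_eq_mul]
      apply Finset.card_nsmul_le_sum
      intro v hv
      exact (mem_filter.1 hv).2.le
    refine e1.trans ?_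
    have e2 : ∑ v ∈ univ.filter (fun v => c / 2 * D.n / (D.q : ℝ) ^ 2 <
        ((D.IR.filter (fun m => D.badD d m ∧ D.cmb j m = v)).card : ℝ)),
          ((D.IR.filter (fun m => D.badD d m ∧ D.cmb j m = v)).card : ℝ) ≤
        ∑ v : ZMod (D.q ^ 2), ((D.IR.filter (fun m => D.badD d m ∧ D.cmb j m = v)).card : ℝ) := by
      apply Finset.sum_le_sum_of_subset_of_nonneg (Finset.filter_subset _ _)
      intro v _ _
      exact Nat.cast_nonneg _
    refine e2.trans (le_of_eq ?_)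
    rw [Finset.card_eq_sum_card_fiberwise (f := D.cmb j) (t := (univ : Finset (ZMod (D.q ^ 2))))
      (fun _ _ => Finset.mem_coe.2 (mem_univ _))]
    push_cast
    apply Finset.sum_congr rfl
    intro v _
    rw [Finset.filter_filter]
  have h3 : ((univ.filter (fun v => c / 2 * D.n / (D.q : ℝ) ^ 2 <
    ((D.IR.filter (fun m => D.badD d m ∧ D.cmb j m = v)).card : ℝ))).card : ℝ) ≤
      (D.q : ℝ) ^ 2 * (3 / 100) := by
    have e1 : 4000 * D.n / √(D.q : ℝ) ≤ D.n * (c / 250) := by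
      rw [div_le_iff₀ hsq]
      have : 1000000 ≤ √(D.q : ℝ) * c := by
        rw [div_le_iff₀ hc] at hq
        exact hq
      nlinarith
    have e2 : 11 * (κ * D.n) ≤ D.n * (c * (11 / 1000)) := by nlinarith
    have e3 : 0 < c / 2 * D.n / (D.q : ℝ) ^ 2 := by positivity
    refine le_of_mul_le_mul_right (h2.trans ?_) e3
    have e4 : (D.q : ℝ) ^ 2 * (3 / 100) * (c / 2 * D.n / (D.q : ℝ) ^ 2) = D.n * (c * (3 / 200)) := by
      field_simp
      ring
    rw [e4]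
    nlinarith
  have h4 : ((univ.filter (fun v => ((D.IR.filter (fun m => D.cmb j m = v)).card : ℝ) <
    c * D.n / (D.q : ℝ) ^ 2)).card : ℝ) ≤ (D.q : ℝ) ^ 2 * (1 / 1000) := by
    refine h1.trans ?_
    rw [mul_comm]
    exact mul_le_mul_of_nonneg_left hκ hQ.le
  have h5 := Finset.card_union_le (univ.filter (fun v =>
    ((D.IR.filter (fun m => D.cmb j m = v)).card : ℝ) < c * D.n / (D.q : ℝ) ^ 2))
    (univ.filter (fun v => c / 2 * D.n / (D.q : ℝ) ^ 2 <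
      ((D.IR.filter (fun m => D.badD d m ∧ D.cmb j m = v)).card : ℝ)))
  have h6 := (Nat.cast_le (α := ℝ)).2 h5
  push_cast at h6
  linarith

open Classical in
/-- good items of a good class -/
theorem good_class {j : Fin 10} {d : ℤ} {v : ZMod (D.q ^ 2)} (hv : v ∉ D.badV c j d) :
    c / 2 * D.n / (D.q : ℝ) ^ 2 ≤
      ((D.IR.filter (fun m => ¬ D.badD d m ∧ D.cmb j m = v)).card : ℝ) := by
  unfold badV at hv
  rw [mem_union, not_or, mem_filter, mem_filter] at hv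
  obtain ⟨h1, h2⟩ := hv
  have h3 : c * D.n / (D.q : ℝ) ^ 2 ≤ ((D.IR.filter (fun m => D.cmb j m = v)).card : ℝ) := by
    by_contra hcon
    push Not at hcon
    exact h1 ⟨mem_univ _, hcon⟩
  have h4 : ((D.IR.filter (fun m => D.badD d m ∧ D.cmb j m = v)).card : ℝ) ≤
      c / 2 * D.n / (D.q : ℝ) ^ 2 := by
    by_contra hcon
    push Not at hcon
    exact h2 ⟨mem_univ _, hcon⟩
  have h5 : D.IR.filter (fun m => D.cmb j m = v) ⊆
      D.IR.filter (fun m => ¬ D.badD d m ∧ D.cmb j m = v) ∪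
      D.IR.filter (fun m => D.badD d m ∧ D.cmb j m = v) := by
    intro m hm
    rw [mem_filter] at hm
    rw [mem_union, mem_filter, mem_filter]
    by_cases hb : D.badD d m
    · exact Or.inr ⟨hm.1, hb, hm.2⟩
    · exact Or.inl ⟨hm.1, hb, hm.2⟩
  have h6 := (Nat.cast_le (α := ℝ)).2 ((Finset.card_le_card h5).trans (Finset.card_union_le _ _))
  push_cast at h6
  have h7 : c * D.n / (D.q : ℝ) ^ 2 = c / 2 * D.n / (D.q : ℝ) ^ 2 + c / 2 * D.n / (D.q : ℝ) ^ 2 := by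
    ring
  linarith

open Classical in
/-- few items with a label which is a multiple of `n/4` -/
theorem card_item_quart (h : D.Reg κ c) (z : ℤ)
    (hz : ∀ m ∈ D.IR, (D.n : ℤ) < 2 * (D.anc m - z) ∧ 2 * (D.anc m - z) < 5 * D.n) :
    ((D.IR.filter (fun m => (D.n : ℤ) ∣ 4 * (D.anc m - z))).card : ℝ) ≤ 10 := by
  refine le_trans ?_ (cnt_quart h.n_pos)
  refine Nat.cast_le.2 ?_
  apply Finset.card_le_card_of_injOn (fun m => D.anc m - z)
  · intro m hm
    have hm' := mem_filter.1 (Finset.mem_coe.1 hm)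
    apply Finset.mem_coe.2
    rw [mem_filter, mem_Zr]
    exact ⟨hz m hm'.1, hm'.2⟩
  · intro m hm m' hm' he
    have h1 := mem_filter.1 (Finset.mem_coe.1 hm)
    have h2 := mem_filter.1 (Finset.mem_coe.1 hm')
    refine h.anc_inj m (h.IR_sub h1.1) m' (h.IR_sub h2.1) ?_
    simp only at he
    linarith

end Dat

end Pool.Agent.PGr
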