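import Mathlib
import Pool.Agent.PGr.E4Se

/-!
# PGr, module E4Sf: the statement E4
-/

noncomputable section

namespace Pool.Agent.PGr

open Finset

namespace Dat

variable {D : Dat} {κ c : ℝ}

/-- the constant of E4 -/
def p0 : ℝ := 3 / 100 * (2 / 5 : ℝ) ^ 6

theorem p0_pos : 0 < p0 := by unfold p0; positivity

theorem D2_leS {d : ℤ} (hd : d ∈ D.D2) : d ≤ 2 * D.n := by
  classical
  unfold D2 at hd
  rw [mem_filter] at hd
  by_contra hcon
  push Not at hcon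
  apply hd.2.1
  unfold Ddef
  rw [mem_filter]
  exact ⟨hd.1, Or.inl hcon⟩

theorem sum_ge_card (h : D.Reg κ c) {d d'' : ℤ} (G : Finset ℕ) (hG : G ⊆ D.IR) {x : ℝ}
    (hx : x * (D.n / (D.q : ℝ) ^ 2) ≤ G.card) (hx0 : 0 ≤ x)
    (hp : ∀ m ∈ G, p0 * (1 / (2 * (D.S : ℝ))) ≤ Pr (fun θ : D.Om => D.swv θ m d d'')) :
    x * p0 ≤ D.QQ d d'' := by
  have hS : (0 : ℝ) < D.S := by exact_mod_cast D.S_pos
  have hQ : (0 : ℝ) < (D.q : ℝ) ^ 2 := by
    have : (0 : ℝ) < D.q := by exact_mod_cast D.q_pos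
    positivity
  obtain ⟨_, b2, _⟩ := n_bigS h
  have h1 : (G.card : ℝ) * (p0 * (1 / (2 * (D.S : ℝ)))) ≤ D.QQ d d'' := by
    unfold QQ
    refine le_trans ?_ (Finset.sum_le_sum_of_subset_of_nonneg hG (fun m _ _ => Pr_nonneg _))
    rw [← nsmul_eq_mul]
    exact Finset.card_nsmul_le_sum _ _ _ hp
  refine le_trans ?_ h1
  have h2 : 1 ≤ D.n / (D.q : ℝ) ^ 2 * (1 / (2 * (D.S : ℝ))) := by
    rw [div_mul_div_comm, mul_one, le_div_iff₀ (by positivity)]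
    linarith
  have hp0 := p0_pos
  calc x * p0 = x * p0 * 1 := by ring
    _ ≤ x * p0 * (D.n / (D.q : ℝ) ^ 2 * (1 / (2 * (D.S : ℝ)))) :=
        mul_le_mul_of_nonneg_left h2 (by positivity)
    _ = (x * (D.n / (D.q : ℝ) ^ 2)) * (p0 * (1 / (2 * (D.S : ℝ)))) := by ring
    _ ≤ (G.card : ℝ) * (p0 * (1 / (2 * (D.S : ℝ)))) :=
        mul_le_mul_of_nonneg_right hx (by positivity)

theorem QQ_ge_I (h : D.Reg κ c) (hc : 0 < c) (hκ : κ ≤ 1 / 1000) {d d'' : ℤ} (hd : d ∈ D.D2)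
    (hd1 : d ≤ D.n) (hj : d'' ∈ D.JJ)
    (hv : ((d + d'' : ℤ) : ZMod (D.q ^ 2)) ∉ D.badV c 9 d) :
    c / 4 * p0 ≤ D.QQ d d'' := by
  classical
  have h1 := good_class hv
  have hp0 := p0_pos
  have h2 : c / 2 * p0 ≤ D.QQ d d'' := by
    refine sum_ge_card h (flt D.IR (fun m => ¬ D.badD d m ∧
      D.cmb 9 m = ((d + d'' : ℤ) : ZMod (D.q ^ 2)))) (fun m hm => (mem_flt.1 hm).1)
      (x := c / 2) ?_ (by positivity) ?_
    · refine le_trans (le_of_eq (by ring)) (h1.trans (Nat.cast_le.2 (Finset.card_le_card ?_)))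
      intro m hm
      rw [mem_filter] at hm
      rw [mem_flt]
      exact hm
    · intro m hm
      rw [mem_flt] at hm
      obtain ⟨hm1, hm2, hm3⟩ := hm
      unfold badD at hm2
      push Not at hm2
      obtain ⟨⟨_, n2⟩, _, n4⟩ := hm2
      have h3 := swI_ge h hκ hm1 hd hd1 hj hm3 n2 n4
      unfold p0 swv
      simp only [if_pos hd1]
      exact h3
  have h3 : c / 4 * p0 ≤ c / 2 * p0 := by
    apply mul_le_mul_of_nonneg_right _ hp0.le
    linarith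
  linarith

theorem QQ_ge_U (h : D.Reg κ c) (hc : 0 < c) (hκ : κ ≤ 1 / 1000)
    (hn : 80 / c ≤ D.n / (D.q : ℝ) ^ 2) {d d'' : ℤ} (hd : d ∈ D.D2)
    (hd1 : ¬ d ≤ D.n) (hj : d'' ∈ D.JJ)
    (hv : -((d + d'' : ℤ) : ZMod (D.q ^ 2)) ∉ D.badV c 8 d) :
    c / 4 * p0 ≤ D.QQ d d'' := by
  classical
  have h1 := good_class hv
  have hp0 := p0_pos
  have hd2 := D2_leS hd
  obtain ⟨hj1, hj2, hj3⟩ := JJ_mem hj
  obtain ⟨_, _, b3⟩ := n_bigS h
  have k1 := card_item_quart h d (fun m hm => by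
    obtain ⟨ha1, ha2⟩ := IR_anc h hm
    constructor <;> omega)
  have k2 := card_item_quart h d'' (fun m hm => by
    obtain ⟨ha1, ha2⟩ := IR_anc h hm
    constructor <;> omega)
  obtain ⟨G, hG⟩ : ∃ G : Finset ℕ, G = flt D.IR (fun m => ¬ D.badD d m ∧
    D.cmb 8 m = -((d + d'' : ℤ) : ZMod (D.q ^ 2))) := ⟨_, rfl⟩
  obtain ⟨A, hA⟩ : ∃ A : Finset ℕ, A = flt D.IR (fun m => (D.n : ℤ) ∣ 4 * (D.anc m - d)) :=
    ⟨_, rfl⟩
  obtain ⟨B, hB⟩ : ∃ B : Finset ℕ, B = flt D.IR (fun m => (D.n : ℤ) ∣ 4 * (D.anc m - d'')) :=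
    ⟨_, rfl⟩
  have k1' : (A.card : ℝ) ≤ 10 := by
    refine le_trans (Nat.cast_le.2 (Finset.card_le_card ?_)) k1
    intro m hm
    rw [hA, mem_flt] at hm
    rw [mem_filter]
    exact hm
  have k2' : (B.card : ℝ) ≤ 10 := by
    refine le_trans (Nat.cast_le.2 (Finset.card_le_card ?_)) k2
    intro m hm
    rw [hB, mem_flt] at hm
    rw [mem_filter]
    exact hm
  have k3 : c / 2 * D.n / (D.q : ℝ) ^ 2 ≤ G.card := by
    refine h1.trans (Nat.cast_le.2 (Finset.card_le_card ?_))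
    intro m hm
    rw [mem_filter] at hm
    rw [hG, mem_flt]
    exact hm
  have k4 : G.card ≤ (G \ (A ∪ B)).card + (A ∪ B).card := by
    have := Finset.le_card_sdiff (A ∪ B) G
    omega
  have k5 := Finset.card_union_le A B
  have k6 : (G.card : ℝ) ≤ (G \ (A ∪ B)).card + (A.card + B.card) := by
    exact_mod_cast k4.trans (Nat.add_le_add_left k5 _)
  have k7 : 20 ≤ c / 4 * (D.n / (D.q : ℝ) ^ 2) := by
    rw [div_le_iff₀ hc] at hn
    linarith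
  have hsub : G \ (A ∪ B) ⊆ D.IR := by
    intro m hm
    rw [mem_sdiff, hG, mem_flt] at hm
    exact hm.1.1
  refine sum_ge_card h (G \ (A ∪ B)) hsub (x := c / 4) ?_ (by positivity) ?_
  · have k8 : c / 2 * D.n / (D.q : ℝ) ^ 2 = c / 4 * (D.n / (D.q : ℝ) ^ 2) +
      c / 4 * (D.n / (D.q : ℝ) ^ 2) := by ring
    linarith
  · intro m hm
    rw [mem_sdiff, mem_union, not_or, hG, mem_flt, hA, mem_flt, hB, mem_flt] at hm
    obtain ⟨⟨hm1, hm2, hm3⟩, hm4, hm5⟩ := hm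
    unfold badD at hm2
    push Not at hm2
    obtain ⟨⟨n1, _⟩, n3, _⟩ := hm2
    have h3 := swU_ge h hκ hm1 hd (by omega) hd2 hj hm3 n1 n3 (fun hh => hm4 ⟨hm1, hh⟩)
      (fun hh => hm5 ⟨hm1, hh⟩)
    unfold p0 swv
    simp only [if_neg hd1]
    exact h3

theorem nQ_big (h : D.Reg κ c) : (83521 : ℝ) ≤ D.n / (D.q : ℝ) ^ 2 := by
  have hQ : (0 : ℝ) < (D.q : ℝ) ^ 2 := by
    have : (0 : ℝ) < D.q := by exact_mod_cast D.q_pos
    positivity
  rw [le_div_iff₀ hQ]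
  exact (n_bigS h).1

/-- number of integers of a class in the hub interval -/
theorem hub_class (h : D.Reg κ c) (r : ZMod (D.q ^ 2)) {a b : ℤ}
    (hab : 100 * (b - a) ≤ 10 * D.n + 200) :
    (((Finset.Icc a b).filter (fun x : ℤ => ((x : ℤ) : ZMod (D.q ^ 2)) = r)).card : ℝ) ≤
      11 / 100 * (D.n / (D.q : ℝ) ^ 2) := by
  have hQ : 0 < D.q ^ 2 := pow_pos D.q_pos 2
  have hQr : (0 : ℝ) < (D.q : ℝ) ^ 2 := by exact_mod_cast hQ
  have hQ1 : (1 : ℝ) ≤ (D.q : ℝ) ^ 2 := by exact_mod_cast hQ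
  have hb := nQ_big h
  refine (card_class_le (D.q ^ 2) hQ a b r).trans (max_le (by positivity) ?_)
  push_cast
  have hab' : 100 * ((b : ℝ) - a) ≤ 10 * D.n + 200 := by exact_mod_cast hab
  have h1 : ((b : ℝ) - a) / (D.q : ℝ) ^ 2 ≤ 1 / 10 * (D.n / (D.q : ℝ) ^ 2) + 2 := by
    rw [div_le_iff₀ hQr, add_mul, mul_assoc, div_mul_cancel₀ _ hQr.ne']
    nlinarith
  linarith

open Classical in
/-- part (c) of E4 -/
theorem JJ_card_ge (h : D.Reg κ c) (hκ : κ ≤ 1 / 1000) (hq : 10000 ≤ √(D.q : ℝ)) :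
    (9 / 100 : ℝ) * D.n ≤ D.JJ.card := by
  obtain ⟨_, _, b3⟩ := n_bigS h
  have hn' : (10000 : ℤ) ≤ D.n := by exact_mod_cast b3
  have hnr : (10000 : ℝ) ≤ D.n := by exact_mod_cast b3
  have hκ0 := kappa_nonneg h
  have hqr0 : (0 : ℝ) < D.q := by exact_mod_cast D.q_pos
  have hQr : (0 : ℝ) < (D.q : ℝ) ^ 2 := by positivity
  obtain ⟨a, ha⟩ : ∃ a : ℤ, a = (95 * (D.n : ℤ) + 99) / 100 := ⟨_, rfl⟩
  obtain ⟨b, hb⟩ : ∃ b : ℤ, b = 105 * (D.n : ℤ) / 100 := ⟨_, rfl⟩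
  have hab : 100 * (b - a) ≤ 10 * D.n + 200 := by omega
  have hab2 : 10 * (D.n : ℤ) - 200 ≤ 100 * (b - a) := by omega
  obtain ⟨E, hE⟩ : ∃ E : Finset ℤ, E = D.Res.biUnion (fun u => (Finset.Icc a b).filter
    (fun x : ℤ => ((x : ℤ) : ZMod (D.q ^ 2)) = del D.q u)) := ⟨_, rfl⟩
  have hEc : (E.card : ℝ) ≤ 11 / 100 * (κ * D.n) := by
    have h1 := (Nat.cast_le (α := ℝ)).2 (Finset.card_biUnion_le (s := D.Res)
      (t := fun u => (Finset.Icc a b).filter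
        (fun x : ℤ => ((x : ℤ) : ZMod (D.q ^ 2)) = del D.q u)))
    rw [← hE] at h1
    push_cast at h1
    refine h1.trans ?_
    refine (Finset.sum_le_sum (fun u _ => hub_class h (del D.q u) hab)).trans ?_
    rw [Finset.sum_const, nsmul_eq_mul]
    calc (D.Res.card : ℝ) * (11 / 100 * (D.n / (D.q : ℝ) ^ 2)) ≤
        κ * (D.q : ℝ) ^ 2 * (11 / 100 * (D.n / (D.q : ℝ) ^ 2)) :=
          mul_le_mul_of_nonneg_right h.resc (by positivity)
      _ = 11 / 100 * (κ * D.n) := by field_simp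
  have hsub : Finset.Icc a b ⊆ D.JJ ∪ (E ∪ D.Ddef) := by
    intro x hx
    rw [Finset.mem_Icc] at hx
    rw [mem_union, mem_union]
    by_cases h1 : unD D.q x ∈ D.Res
    · right; left
      rw [hE, mem_biUnion]
      refine ⟨_, h1, ?_⟩
      rw [mem_filter, Finset.mem_Icc]
      refine ⟨hx, ?_⟩
      unfold unD
      rw [del_delI]
    · by_cases h2 : x ∈ D.Ddef
      · right; right; exact h2
      · left
        have hx1 : 1 ≤ x := by omega
        have hx2 : x ≤ 2 * D.n := by omega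
        have hx3 : 95 * (D.n : ℤ) ≤ 100 * x := by omega
        have hx4 : 100 * x ≤ 105 * (D.n : ℤ) := by omega
        have hx3' : 95 * (D.n : ℝ) ≤ 100 * (x : ℝ) := by exact_mod_cast hx3
        have hx4' : 100 * (x : ℝ) ≤ 105 * (D.n : ℝ) := by exact_mod_cast hx4
        have hp := pD_ge' h (by linarith) h1 hx1
        unfold JJ D2
        rw [mem_filter, mem_filter]
        exact ⟨⟨h.D0_mem x hx1 hx2 h1, h2, by linarith⟩, by linarith, by linarith⟩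
  have h1 := (Finset.card_le_card hsub).trans (Finset.card_union_le _ _)
  have h2 := Finset.card_union_le E D.Ddef
  have h3 : ((Finset.Icc a b).card : ℝ) ≤ D.JJ.card + (E.card + D.Ddef.card) := by
    exact_mod_cast h1.trans (Nat.add_le_add_left h2 _)
  have h4 : (b : ℝ) - a ≤ ((Finset.Icc a b).card : ℝ) := by
    rw [Int.card_Icc]
    have : b - a ≤ ((b + 1 - a).toNat : ℤ) := by omega
    exact_mod_cast this
  have h5 := Ddef_card h
  have h6 : (D.Ddef.card : ℝ) ≤ D.n / 1000 := by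
    have : (D.Ddef.card : ℝ) * 10000 ≤ 10 * D.n := by
      refine le_trans ?_ h5
      exact mul_le_mul_of_nonneg_left hq (Nat.cast_nonneg _)
    linarith
  have h7 : 10 * (D.n : ℝ) - 200 ≤ 100 * ((b : ℝ) - a) := by exact_mod_cast hab2
  have h8 : κ * D.n ≤ 1 / 1000 * D.n := mul_le_mul_of_nonneg_right hκ (by linarith)
  linarith

open Classical in
/-- part (b) of E4 -/
theorem bad_JJ (h : D.Reg κ c) (hc : 0 < c) (hκ : κ ≤ 1 / 1000) (hκc : κ ≤ c / 1000)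
    (hq : 1000000 / c ≤ √(D.q : ℝ)) (hq2 : 10000 ≤ √(D.q : ℝ)) {d : ℤ} (hd : d ∈ D.D2) :
    10 * (D.JJ.filter (fun d'' => D.QQ d d'' < c / 4 * p0)).card ≤ D.JJ.card := by
  have hn : (0 : ℝ) < D.n := by exact_mod_cast h.n_pos
  have hQr : (0 : ℝ) < (D.q : ℝ) ^ 2 := by
    have : (0 : ℝ) < D.q := by exact_mod_cast D.q_pos
    positivity
  have hq1 : (1 : ℝ) ≤ D.q := by exact_mod_cast D.q_pos
  have hnQ : 80 / c ≤ D.n / (D.q : ℝ) ^ 2 := by
    have e1 : √(D.q : ℝ) ≤ D.q := by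
      rw [Real.sqrt_le_left (by linarith)]
      nlinarith
    have e2 : (D.q : ℝ) ≤ D.n / (D.q : ℝ) ^ 2 := by
      rw [le_div_iff₀ hQr]
      have e3 : D.q * D.q ^ 2 ≤ D.q ^ 6 := by
        calc D.q * D.q ^ 2 = D.q ^ 3 := by ring
          _ ≤ D.q ^ 6 := Nat.pow_le_pow_right D.q_pos (by norm_num)
      exact_mod_cast e3.trans h.q_high
    have e4 : 80 / c ≤ 1000000 / c := div_le_div_of_nonneg_right (by norm_num) hc.le
    linarith
  obtain ⟨a, ha⟩ : ∃ a : ℤ, a = 95 * (D.n : ℤ) / 100 := ⟨_, rfl⟩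
  obtain ⟨b, hb⟩ : ∃ b : ℤ, b = 105 * (D.n : ℤ) / 100 := ⟨_, rfl⟩
  have hab : 100 * (b - a) ≤ 10 * D.n + 200 := by omega
  obtain ⟨V, g, hV, hVJ⟩ : ∃ (V : Finset (ZMod (D.q ^ 2))) (g : ZMod (D.q ^ 2) → ZMod (D.q ^ 2)),
      (V.card : ℝ) ≤ (D.q : ℝ) ^ 2 / 20 ∧ ∀ d'' ∈ D.JJ, D.QQ d d'' < c / 4 * p0 →
        ∃ v ∈ V, ((d'' : ℤ) : ZMod (D.q ^ 2)) = g v := by
    by_cases hd1 : d ≤ D.n
    · refine ⟨D.badV c 9 d, fun v => v - ((d : ℤ) : ZMod (D.q ^ 2)),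
        card_badV h hc hκ hκc hq hd (Or.inr rfl), ?_⟩
      intro d'' hj hlt
      refine ⟨((d + d'' : ℤ) : ZMod (D.q ^ 2)), ?_, ?_⟩
      · by_contra hv
        exact absurd (QQ_ge_I h hc hκ hd hd1 hj hv) (not_le.2 hlt)
      · push_cast
        ring
    · refine ⟨D.badV c 8 d, fun v => -v - ((d : ℤ) : ZMod (D.q ^ 2)),
        card_badV h hc hκ hκc hq hd (Or.inl rfl), ?_⟩
      intro d'' hj hlt
      refine ⟨-((d + d'' : ℤ) : ZMod (D.q ^ 2)), ?_, ?_⟩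
      · by_contra hv
        exact absurd (QQ_ge_U h hc hκ hnQ hd hd1 hj hv) (not_le.2 hlt)
      · push_cast
        ring
  have hsub : D.JJ.filter (fun d'' => D.QQ d d'' < c / 4 * p0) ⊆
      V.biUnion (fun v => (Finset.Icc a b).filter
        (fun x : ℤ => ((x : ℤ) : ZMod (D.q ^ 2)) = g v)) := by
    intro x hx
    rw [mem_filter] at hx
    obtain ⟨hx1, hx2⟩ := hx
    obtain ⟨v, hv, hxv⟩ := hVJ x hx1 hx2
    obtain ⟨_, hj2, hj3⟩ := JJ_mem hx1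
    rw [mem_biUnion]
    refine ⟨v, hv, ?_⟩
    rw [mem_filter, Finset.mem_Icc]
    exact ⟨⟨by omega, by omega⟩, hxv⟩
  have h1 := (Nat.cast_le (α := ℝ)).2 ((Finset.card_le_card hsub).trans Finset.card_biUnion_le)
  push_cast at h1
  have h2 : ∑ v ∈ V, (((Finset.Icc a b).filter
      (fun x : ℤ => ((x : ℤ) : ZMod (D.q ^ 2)) = g v)).card : ℝ) ≤
      V.card * (11 / 100 * (D.n / (D.q : ℝ) ^ 2)) := by
    refine (Finset.sum_le_sum (fun v _ => hub_class h (g v) hab)).trans (le_of_eq ?_)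
    rw [Finset.sum_const, nsmul_eq_mul]
  have h3 : (V.card : ℝ) * (11 / 100 * (D.n / (D.q : ℝ) ^ 2)) ≤ 11 / 2000 * D.n := by
    calc (V.card : ℝ) * (11 / 100 * (D.n / (D.q : ℝ) ^ 2)) ≤
        (D.q : ℝ) ^ 2 / 20 * (11 / 100 * (D.n / (D.q : ℝ) ^ 2)) :=
          mul_le_mul_of_nonneg_right hV (by positivity)
      _ = 11 / 2000 * D.n := by
          field_simp
          ring
  have h4 := JJ_card_ge h hκ hq2
  have h5 : (10 : ℝ) * ((D.JJ.filter (fun d'' => D.QQ d d'' < c / 4 * p0)).card : ℝ) ≤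
      D.JJ.card := by linarith
  exact_mod_cast h5

end Dat

open Dat in
/-- the statement E4 -/
theorem e4Stmt : E4Stmt := by
  intro c hc
  have hp0 := Dat.p0_pos
  refine ⟨min (1 / 1000) (c / 1000), by positivity, 4, c / 4 * Dat.p0, by norm_num, by positivity,
    (⌈(1000000 / c + 10000) ^ 2⌉₊) ^ 8, ?_⟩
  intro D κ hκ hn h
  have hκ1 : κ ≤ 1 / 1000 := hκ.trans (min_le_left _ _)
  have hκ2 : κ ≤ c / 1000 := hκ.trans (min_le_right _ _)
  have h1 := h.q_ge hn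
  have h2 : (1000000 / c + 10000) ^ 2 ≤ (D.q : ℝ) :=
    (Nat.le_ceil _).trans (by exact_mod_cast h1)
  have h3 : 1000000 / c + 10000 ≤ √(D.q : ℝ) := Real.le_sqrt_of_sq_le h2
  have h4 : 0 < 1000000 / c := by positivity
  refine ⟨?_, ?_, ?_⟩
  · intro d _ d'' _
    exact QQ_le h (by linarith) d d''
  · intro d hd
    exact bad_JJ h hc hκ1 hκ2 (by linarith) (by linarith) hd
  · exact JJ_card_ge h hκ1 (by linarith)

end Pool.Agent.PGr
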