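import Pool.Agent.PGr.PCItems

/-!
# PGr, part P: completion (section 10.7)
-/

noncomputable section

namespace Pool.Agent.PGr

open Finset

namespace PC

variable {E : Env} {Pn : Plan E} {κ ρ c1 κ' cD cC : ℝ} {b m : ℕ}

theorem good_of_items (hE : E.Ok κ ρ c1) (hP : Pn.Ok κ' cD cC b m) (θ : Pn.dat.Om)
    (y : ℕ → ℤ) (X T : Finset ℤ) (hX : goodX θ X) (hPc : Pc Pn.dat θ E.Ck y X T)
    (hT : ∀ d ∈ Pn.dat.D0, ¬ Pn.dat.used θ d → d ∈ T) (hG : Pn.G ⊆ T) (hR : Pn.R1 ⊆ T) :
    ∃ z' : ℕ → ℤ, Good E.n E.k z' := by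
  classical
  have hk2 := hk E
  set z' : ℕ → ℤ := fun i => if i ∈ E.Ck then y i else Pn.dat.lab θ i with hz'
  have eC : ∀ i ∈ E.Ck, z' i = y i := fun i hi => by simp only [hz']; rw [if_pos hi]
  have eN : ∀ i, i ∉ E.Ck → z' i = Pn.dat.lab θ i := fun i hi => by
    simp only [hz']; rw [if_neg hi]
  have eB : ∀ i, (i ∈ E.Bk \ Pn.P ∨ i ∈ Pn.P) → z' i = Pn.dat.lab θ i := by
    rintro i (hi | hi)
    · exact eN i (Sv_not_C hE hi)
    · exact eN i (P_not_C hE hP hi)
  have hcase : ∀ i < E.n, i ∈ E.Ck ∨ (i ∈ E.Bk \ Pn.P ∨ i ∈ Pn.P) := by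
    intro i hi
    rcases cases3 hE hP hi with h | h | h
    · exact Or.inr (Or.inl h)
    · exact Or.inr (Or.inr h)
    · exact Or.inl h
  -- differences of the items
  have hItem : ∀ d ∈ T, (∃ i < E.n, |z' i - anc E.n i| = d) ∨
      (∃ i < E.n, |z' i - z' ((i + E.k) % E.n)| = d) := by
    intro d hd
    obtain ⟨i, hi, j, hj⟩ := hPc.2.2 d hd
    have hin := lt_C hE hi
    have hnb := nb_C hE hP hi
    fin_cases j
    · left
      refine ⟨i, hin, ?_⟩
      rw [eC i hi]
      exact hj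
    · right
      refine ⟨i, hin, ?_⟩
      have e1 : z' ((i + E.k) % E.n) = Pn.dat.lab θ (nbp E.n E.k i) := eB _ hnb.1
      rw [eC i hi, e1]
      exact hj
    · right
      refine ⟨nbm E.n E.k i, nbm_lt hk2 i, ?_⟩
      have e1 : (nbm E.n E.k i + E.k) % E.n = i := nbp_nbm hin hk2
      rw [e1, eC i hi, eB _ hnb.2, abs_sub_comm]
      exact hj
  refine ⟨z', ?_, ?_, ?_⟩
  · intro i hi
    rcases hcase i hi with h | h
    · rw [eC i h]
      exact (hX _ (hPc.1 i h)).1
    · rw [eB i h]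
      rcases h with h | h
      · exact lab_Sv_zall hE hP h
      · rw [lab_P h]
        exact (PL_prop (hP.pl_PL i h)).1
  · intro i hi j hj hij
    rcases hcase i hi with h | h <;> rcases hcase j hj with h' | h'
    · rw [eC i h, eC j h'] at hij
      exact hPc.2.1 i h j h' hij
    · rw [eC i h, eB j h'] at hij
      exact absurd hij.symm ((hX _ (hPc.1 i h)).2 j h')
    · rw [eB i h, eC j h'] at hij
      exact absurd hij ((hX _ (hPc.1 j h')).2 i h)
    · rw [eB i h, eB j h'] at hij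
      exact lab_inj hE hP h h' hij
  · intro d hd
    by_cases h1 : d ∈ Pn.UD
    · unfold Plan.UD at h1
      rw [mem_union, mem_union, mem_image, mem_image] at h1
      rcases h1 with (⟨v, hv, rfl⟩ | ⟨v, hv, rfl⟩) | h1
      · left
        refine ⟨v, lt_P hE hP hv, ?_⟩
        rw [eB v (Or.inr hv), lab_P hv]
        rfl
      · right
        have h2 := PP_P hP hv
        refine ⟨v, lt_P hE hP h2.1, ?_⟩
        have e1 : z' ((v + E.k) % E.n) = Pn.pl (nbp E.n E.k v) := by
          have e2 : z' (nbp E.n E.k v) = Pn.pl (nbp E.n E.k v) := by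
            rw [eB _ (Or.inr h2.2), lab_P h2.2]
          exact e2
        rw [eB v (Or.inr h2.1), lab_P h2.1, e1]
        rfl
      · exact hItem d (hG h1)
    · by_cases h2 : d ∈ Pn.R1
      · exact hItem d (hR h2)
      · have h3 : d ∈ Pn.dat.D0 := by
          rw [D0_eq, mem_sdiff, mem_union]
          exact ⟨hd, fun h4 => h4.elim h1 h2⟩
        by_cases h4 : Pn.dat.used θ d
        · obtain ⟨v, hv, h5⟩ := h4
          left
          refine ⟨v, lt_Sv hE hv, ?_⟩
          rw [eB v (Or.inl hv)]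
          exact h5
        · exact hItem d (hT d h3 h4)

end PC

theorem pCompThm : PCompThm := by
  intro κ1 c1 cD cC _ _ hcD hcC
  refine ⟨min (cC / 60) (cD / 240), lt_min (by positivity) (by positivity), 3, ?_⟩
  intro E Pn ρ b m hn hE hP θ I' z hI' hI'c hPL
  have hn0 : (0 : ℝ) < E.n := by exact_mod_cast PC.n_pos E
  have hI'c' : (I'.card : ℝ) ≤ min (cC / 60) (cD / 240) * E.n := hI'c
  have h1 : min (cC / 60) (cD / 240) * (E.n : ℝ) ≤ cC / 60 * E.n :=
    mul_le_mul_of_nonneg_right (min_le_left _ _) hn0.le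
  have h2 : min (cC / 60) (cD / 240) * (E.n : ℝ) ≤ cD / 240 * E.n :=
    mul_le_mul_of_nonneg_right (min_le_right _ _) hn0.le
  obtain ⟨y, X, T, hX, hPc, hT, hG, hR⟩ := PC.items hE hP hn θ I' z hI' hPL
    (by linarith) (by linarith) hcC hcD
  exact PC.good_of_items hE hP θ y X T hX hPc hT hG hR

end Pool.Agent.PGr
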