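import Mathlib
import Pool.Agent.PGr.Dat

/-!
# PGr: the environment of sections 9 and 10, the counts of 9.3, interface of parts R and P
-/

noncomputable section

namespace Pool.Agent.PGr

open Finset

/-- The environment: basic numbers, colouring, reserved units with shifts, bits. -/
structure Env where
  n : ℕ
  k : ℕ
  q : ℕ
  S : ℕ
  B0 : ℕ
  nq : NeZero q
  nS : NeZero S
  base : Base n k q S B0
  Bk : Finset ℕ
  Ck : Finset ℕ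
  Pk : Finset ℕ
  Res : Finset (ZMod (q ^ 2))
  th0 : ZMod (q ^ 2) → ZMod (2 * S)
  /-- the random bits of labels and differences -/
  bL : ℤ → Bool
  bD : ℤ → Bool

/-- Generic differences: `d` is not congruent mod `q` to `0, ±k/2, ±(n-k)/2`. -/
def gd (n k q : ℕ) (d : ℤ) : Prop :=
  ¬ (q : ℤ) ∣ d ∧ ¬ (q : ℤ) ∣ 2 * d - k ∧ ¬ (q : ℤ) ∣ 2 * d + k ∧
    ¬ (q : ℤ) ∣ 2 * d - ((n : ℤ) - k) ∧ ¬ (q : ℤ) ∣ 2 * d + ((n : ℤ) - k)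

/-- `x` lies in the real interval `[a n, b n]`. -/
def inI (n : ℕ) (a b : ℝ) (x : ℤ) : Prop := a * (n : ℝ) ≤ (x : ℝ) ∧ (x : ℝ) ≤ b * (n : ℝ)

/-- `a` is a possible anchor. -/
def isAnc (n : ℕ) (a : ℤ) : Prop :=
  (0 ≤ a ∧ 2 * a ≤ n) ∨ (5 * (n : ℤ) ≤ 2 * a ∧ a ≤ 3 * n) ∨ 2 * a = 3 * n

namespace Env

variable (E : Env)

instance : NeZero E.q := E.nq
instance : NeZero E.S := E.nS

open Classical in
/-- black vertices in `V_s` -/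
def B1 : Finset ℕ := E.Bk.filter (fun i => inVS E.n E.q E.S E.B0 i)

/-- the scheme label of `i` for the shifts `th0` -/
def y0 (i : ℕ) : ℤ := Yl E.n E.q E.S E.B0 i (E.th0 (un E.n E.q i))

/-- not FREE0 (label) -/
def occ0 (x : ℤ) : Prop := ∃ i ∈ E.B1, E.y0 i = x

/-- not FREE0 (difference) -/
def use0 (d : ℤ) : Prop := ∃ i ∈ E.B1, |E.y0 i - anc E.n i| = d

open Classical in
def PL : Finset ℤ :=
  (zall E.n).filter (fun x => unL E.q x ∈ E.Res ∧ ¬ E.occ0 x ∧ E.bL x = true)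

open Classical in
def PD : Finset ℤ :=
  (dall E.n).filter (fun d => d ≤ 2 * E.n ∧ unD E.q d ∈ E.Res ∧ ¬ E.use0 d ∧ E.bD d = true)

open Classical in
def LAM : Finset ℤ :=
  (zall E.n).filter (fun x => unL E.q x ∈ E.Res ∧ E.bL x = false ∧
    (inI E.n (505 / 1000) (99 / 100) x ∨ inI E.n (201 / 100) (2495 / 1000) x))

open Classical in
def AA : Finset ℤ :=
  (dall E.n).filter (fun d => inI E.n (1 / 10) (13 / 10) d ∧ unD E.q d ∈ E.Res ∧ ¬ E.use0 d ∧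
    E.bD d = false ∧ gd E.n E.k E.q d)

/-- The neighbour of `m` in the direction `o`. -/
def nb (o : Bool) (m : ℕ) : ℕ := if o then nbp E.n E.k m else nbm E.n E.k m

/-- `m` is a high item with both neighbours in `B1`. -/
def pureItem (m : ℕ) : Prop :=
  m ∈ E.Ck ∧ hi E.n m = true ∧ E.nb true m ∈ E.B1 ∧ E.nb false m ∈ E.B1

/-- three integers are pairwise incongruent modulo `q` -/
def inc3 (a b c : ℤ) : Prop := ¬ (E.q : ℤ) ∣ a - b ∧ ¬ (E.q : ℤ) ∣ a - c ∧ ¬ (E.q : ℤ) ∣ b - c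

/-! ### (SV) and (DEF) -/

open Classical in
def SV (c1 : ℝ) : Prop :=
  ∀ a z1 z2 : ℤ, isAnc E.n a → inI E.n (9 / 10) (21 / 10) z1 → inI E.n (9 / 10) (21 / 10) z2 →
    E.inc3 a z1 z2 →
    c1 * E.n ≤ ((E.PL.filter (fun y => inI E.n (11 / 10) (19 / 10) y ∧
      |y - a| ∈ E.PD ∧ |y - z1| ∈ E.PD ∧ |y - z2| ∈ E.PD ∧
      |y - a| ≠ |y - z1| ∧ |y - a| ≠ |y - z2| ∧ |y - z1| ≠ |y - z2|)).card : ℝ)

open Classical in
/-- labels in `LAM ∩ [lo n, hi n]` whose three differences with `a, z1, z2` lie in `R` and are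
distinct -/
def defSet (R : Finset ℤ) (lo hi' : ℝ) (a z1 z2 : ℤ) : Finset ℤ :=
  E.LAM.filter (fun x => inI E.n lo hi' x ∧ |x - a| ∈ R ∧ |x - z1| ∈ R ∧ |x - z2| ∈ R ∧
      |x - a| ≠ |x - z1| ∧ |x - a| ≠ |x - z2| ∧ |x - z1| ≠ |x - z2|)

/-- the four default situations: `(high or low anchor, range of z1 z2, range of x)` -/
def defCase (a z1 z2 : ℤ) (lo hi' : ℝ) : Prop :=
  (5 * (E.n : ℤ) ≤ 2 * a ∧ a ≤ 3 * E.n ∧ inI E.n (9 / 10) 2 z1 ∧ inI E.n (9 / 10) 2 z2 ∧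
    lo = 211 / 100 ∧ hi' = 219 / 100) ∨
  (5 * (E.n : ℤ) ≤ 2 * a ∧ a ≤ 3 * E.n ∧ inI E.n 1 (21 / 10) z1 ∧ inI E.n 1 (21 / 10) z2 ∧
    lo = 221 / 100 ∧ hi' = 229 / 100) ∨
  (0 ≤ a ∧ 2 * a ≤ E.n ∧ inI E.n 1 (21 / 10) z1 ∧ inI E.n 1 (21 / 10) z2 ∧
    lo = 81 / 100 ∧ hi' = 89 / 100) ∨
  (0 ≤ a ∧ 2 * a ≤ E.n ∧ inI E.n (9 / 10) 2 z1 ∧ inI E.n (9 / 10) 2 z2 ∧
    lo = 71 / 100 ∧ hi' = 79 / 100)

def DEF (c1 : ℝ) : Prop :=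
  ∀ (a z1 z2 : ℤ) (lo hi' : ℝ), E.inc3 a z1 z2 → E.defCase a z1 z2 lo hi' →
    c1 * E.n ≤ ((E.defSet E.AA lo hi' a z1 z2).card : ℝ)

/-! ### (COV) -/

/-- Ranges of the six groups: `![Dlo, Dhi, Y1lo, Y1hi, Y2lo, Y2hi, Alo, Ahi]`. For group 5 the
upper bound of `d` is `2 n + 2`. -/
def covT (g : Fin 6) : Fin 8 → ℝ :=
  match g with
  | 0 => ![0, 35 / 100, 2, 21 / 10, 13 / 10, 14 / 10, 26 / 10, 285 / 100]
  | 1 => ![35 / 100, 8 / 10, 165 / 100, 168 / 100, 13 / 10, 14 / 10, 26 / 10, 285 / 100]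
  | 2 => ![8 / 10, 125 / 100, 12 / 10, 123 / 100, 14 / 10, 15 / 10, 26 / 10, 285 / 100]
  | 3 => ![125 / 100, 145 / 100, 1, 104 / 100, 14 / 10, 15 / 10, 26 / 10, 285 / 100]
  | 4 => ![145 / 100, 155 / 100, 9 / 10, 94 / 100, 14 / 10, 15 / 10, 26 / 10, 285 / 100]
  | 5 => ![155 / 100, 3, 12 / 10, 13 / 10, 16 / 10, 17 / 10, 252 / 100, 254 / 100]

/-- the differences covered by the group `g` -/
def covD (g : Fin 6) (d : ℤ) : Prop := d ∈ dall E.n ∧ inI E.n (covT g 0) (covT g 1) d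

/-- the base conditions of an item of the group `g`: `m` with first neighbour in direction `o`,
labels `y1, y2` of the first and second neighbour -/
def covB (g : Fin 6) (m : ℕ) (o : Bool) (y1 y2 : ℤ) : Prop :=
  E.pureItem m ∧ inI E.n (covT g 6) (covT g 7) (anc E.n m) ∧
  inI E.n (covT g 2) (covT g 3) y1 ∧ inI E.n (covT g 4) (covT g 5) y2 ∧
  y1 ∈ E.PL ∧ y2 ∈ E.PL ∧
  |y1 - anc E.n (E.nb o m)| ∈ E.PD ∧ |y2 - anc E.n (E.nb (!o) m)| ∈ E.PD ∧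
  |y1 - anc E.n (E.nb o m)| ≠ |y2 - anc E.n (E.nb (!o) m)| ∧
  E.inc3 (anc E.n m) y1 y2

/-- the label given to an item of the group `g` in order to cover `d` -/
def covX (g : Fin 6) (m : ℕ) (y1 : ℤ) (d : ℤ) : ℤ := if g = 5 then anc E.n m - d else y1 + d

/-- the two other differences -/
def covD2 (g : Fin 6) (m : ℕ) (y1 y2 : ℤ) (d : ℤ) : ℤ × ℤ :=
  if g = 5 then (|E.covX g m y1 d - y1|, |E.covX g m y1 d - y2|)
  else (|E.covX g m y1 d - y2|, |E.covX g m y1 d - anc E.n m|)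

/-- the item is good for `d` with the other differences in `R` -/
def covG (R : Finset ℤ) (g : Fin 6) (m : ℕ) (y1 y2 : ℤ) (d : ℤ) : Prop :=
  E.covX g m y1 d ∈ E.LAM ∧ (E.covD2 g m y1 y2 d).1 ∈ R ∧ (E.covD2 g m y1 y2 d).2 ∈ R ∧
    (E.covD2 g m y1 y2 d).1 ≠ (E.covD2 g m y1 y2 d).2

open Classical in
def COV (c1 : ℝ) : Prop :=
  ∀ (g : Fin 6) (d : ℤ), E.covD g d →
    c1 * (E.n : ℝ) ^ 3 ≤ ((((range E.n) ×ˢ (univ : Finset Bool) ×ˢ E.PL ×ˢ E.PL).filter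
      (fun p => E.covB g p.1 p.2.1 p.2.2.1 p.2.2.2 ∧
        E.covG E.AA g p.1 p.2.2.1 p.2.2.2 d)).card : ℝ)

/-! ### (TW1) and (EO): switch gadgets. The first neighbour is `nb true`. -/

/-- type I two-way gadget: item `m`, label `y2` of the second neighbour; options `d, d'` -/
def tw1 (d d' : ℤ) (m : ℕ) (y2 : ℤ) : Prop :=
  let a := anc E.n m
  let y1 := 2 * y2 + d + d' - a
  E.pureItem m ∧ inI E.n 1 2 y1 ∧ inI E.n 1 2 y2 ∧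
  (∀ z ∈ [y1, y2, y2 + d, y2 + d'], z ∈ E.PL) ∧ [y1, y2, y2 + d, y2 + d'].Nodup ∧
  (∀ z ∈ [a - (y2 + d), a - (y2 + d'), |y1 - anc E.n (E.nb true m)|,
    |y2 - anc E.n (E.nb false m)|], z ∈ E.PD) ∧
  [a - (y2 + d), a - (y2 + d'), |y1 - anc E.n (E.nb true m)|, |y2 - anc E.n (E.nb false m)|].Nodup

open Classical in
def TW1 (c1 : ℝ) : Prop :=
  ∀ d d' : ℤ, inI E.n (7 / 100) (13 / 10) d → inI E.n (7 / 100) (13 / 10) d' →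
    gd E.n E.k E.q d → gd E.n E.k E.q d' → ¬ (E.q : ℤ) ∣ d - d' →
    c1 * (E.n : ℝ) ^ 2 ≤ ((((range E.n) ×ˢ E.PL).filter (fun p => E.tw1 d d' p.1 p.2)).card : ℝ)

/-- the differences `al', be, ga, al'', be'` of the three-way gadget with option `d`, anchor `a`,
item label `x`, second neighbour `b2` (first neighbour `b1 = x - d`) -/
def eoD (d a x b2 : ℤ) : Fin 5 → ℤ :=
  ![|b2 + a - x - (x - d)|, x - b2, a - x, 2 * a - b2 - x, |x + b2 - a - (x - d)|]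

/-- three-way gadget: item `m`, label `x` of the item, label `b2` of the second neighbour -/
def eo (d : ℤ) (m : ℕ) (x b2 : ℤ) : Prop :=
  let a := anc E.n m
  let b1 := x - d
  E.pureItem m ∧ inI E.n 1 2 b1 ∧ inI E.n 1 2 b2 ∧
  (∀ z ∈ [b1, b2, x, b2 + a - x, x + b2 - a], z ∈ E.PL) ∧
  [b1, b2, x, b2 + a - x, x + b2 - a].Nodup ∧
  (∀ z ∈ [eoD d a x b2 0, eoD d a x b2 1, eoD d a x b2 2, eoD d a x b2 3, eoD d a x b2 4,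
    |b1 - anc E.n (E.nb true m)|, |b2 - anc E.n (E.nb false m)|], z ∈ E.PD) ∧
  [eoD d a x b2 0, eoD d a x b2 1, eoD d a x b2 2, eoD d a x b2 3, eoD d a x b2 4,
    |b1 - anc E.n (E.nb true m)|, |b2 - anc E.n (E.nb false m)|].Nodup ∧
  inI E.n (7 / 100) (13 / 10) (eoD d a x b2 0) ∧ gd E.n E.k E.q (eoD d a x b2 0) ∧
  inI E.n (7 / 100) (13 / 10) (eoD d a x b2 1) ∧ gd E.n E.k E.q (eoD d a x b2 1) ∧
  inI E.n (7 / 100) (13 / 10) (eoD d a x b2 3) ∧ gd E.n E.k E.q (eoD d a x b2 3) ∧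
  inI E.n (7 / 100) (13 / 10) (eoD d a x b2 4) ∧ gd E.n E.k E.q (eoD d a x b2 4) ∧
  ¬ (E.q : ℤ) ∣ eoD d a x b2 1 - eoD d a x b2 4

open Classical in
def EO (c1 : ℝ) : Prop :=
  ∀ d : ℤ, inI E.n (1 / 10) (13 / 10) d → gd E.n E.k E.q d →
    c1 * (E.n : ℝ) ^ 3 ≤ ((((range E.n) ×ˢ E.PL ×ˢ E.PL).filter
      (fun p => E.eo d p.1 p.2.1 p.2.2)).card : ℝ)

open Classical in
/-- Everything that part P needs from the parts C (colouring) and R (random reservation). -/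
structure Ok (κ ρ c1 : ℝ) : Prop where
  col : Col E.n E.k E.q ρ E.Bk E.Ck E.Pk
  resc : (E.Res.card : ℝ) ≤ κ * (E.q : ℝ) ^ 2
  resq : ∀ r : ZMod E.q, ((E.Res.filter (fun u => red E.q u = r)).card : ℝ) ≤ κ * E.q
  excL : ∀ x : ℤ, (E.n : ℤ) < 2 * x → 2 * x < 5 * E.n → x ∉ zall E.n → unL E.q x ∈ E.Res
  excD : ∀ d : ℤ, 1 ≤ d → d ≤ 2 * E.n → d ∉ dall E.n → unD E.q d ∈ E.Res
  sv : E.SV c1
  df : E.DEF c1
  cov : E.COV c1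
  t1 : E.TW1 c1
  eo3 : E.EO c1

end Env

/-- Output of part R (with part C). -/
def ResThm : Prop :=
  ∀ κ : ℝ, 0 < κ → ∃ c1 : ℝ, 0 < c1 ∧ ∀ ρ : ℝ, 0 < ρ → ∃ l0 n0 : ℕ, ∀ n k : ℕ, n0 ≤ n → 1 ≤ k →
    2 * k < n → (Even (n / Nat.gcd n k) ∨ l0 ≤ n / Nat.gcd n k) →
    ∃ E : Env, E.n = n ∧ E.k = k ∧ E.Ok κ ρ c1

/-- Output of part P. -/
def PlantThm : Prop :=
  ∃ c : ℝ, 0 < c ∧ ∀ κ : ℝ, 0 < κ → ∃ κ1 : ℝ, 0 < κ1 ∧ ∀ c1 : ℝ, 0 < c1 →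
    ∃ ρ η : ℝ, 0 < ρ ∧ 0 < η ∧ ∃ n0 : ℕ, ∀ E : Env, n0 ≤ E.n → E.Ok κ1 ρ c1 →
      ∃ D : Dat, D.n = E.n ∧ D.Reg κ c ∧ D.Completes E.k η

/-- Output of part C. -/
def ColThm : Prop :=
  ∀ ρ : ℝ, 0 < ρ → ∃ l0 n0 : ℕ, ∀ n k q S B0 : ℕ, n0 ≤ n → Base n k q S B0 →
    (Even (n / Nat.gcd n k) ∨ l0 ≤ n / Nat.gcd n k) →
    ∃ Bk Ck Pk : Finset ℕ, Col n k q ρ Bk Ck Pk

/-- Existence of the basic numbers. -/
def BaseThm : Prop :=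
  ∃ n0 : ℕ, ∀ n k : ℕ, n0 ≤ n → 1 ≤ k → 2 * k < n → ∃ q S B0 : ℕ, Base n k q S B0

theorem thmI_of (hR : ResThm) (hP : PlantThm) : ThmI := by
  obtain ⟨c, hc, hP⟩ := hP
  refine ⟨c, hc, ?_⟩
  intro κ hκ
  obtain ⟨κ1, hκ1, hP⟩ := hP κ hκ
  obtain ⟨c1, hc1, hR⟩ := hR κ1 hκ1
  obtain ⟨ρ, η, hρ, hη, n1, hP⟩ := hP c1 hc1
  obtain ⟨l0, n2, hR⟩ := hR ρ hρ
  refine ⟨η, hη, l0, max n1 n2, ?_⟩
  intro n k hn hk1 hk hL
  obtain ⟨E, hEn, hEk, hE⟩ := hR n k (by omega) hk1 hk hL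
  obtain ⟨D, hD, hReg, hComp⟩ := hP E (by omega) hE
  exact ⟨D, by rw [hD, hEn], hReg, by rw [← hEk]; exact hComp⟩

end Pool.Agent.PGr
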