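import Mathlib
import Pool.Agent.PGr.Env

/-!
# PGr, part P: planting and completion. Basic definitions

`Plan` = the planted configuration of section 10 (planted vertices with labels, cover items,
default items, absorber items, the reserved differences `R1`), `Plan.Ok` = everything needed for
`Reg` and `Completes`, `Plan.dat` = the data of Theorem II.
-/

noncomputable section

namespace Pool.Agent.PGr

open Finset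

/-- `i` and its two neighbours are not special -/
def nsp (n k i : ℕ) : Prop := i < n ∧ ¬ spec n i ∧ ¬ spec n (nbp n k i) ∧ ¬ spec n (nbm n k i)

/-- the combinations with the scheme classes of the neighbours -/
def cb0 (n k q : ℕ) (j : Fin 10) (i : ℕ) : ZMod (q ^ 2) :=
  comb j ((anc n i : ℤ) : ZMod (q ^ 2)) (cls0 n q (nbp n k i)) (cls0 n q (nbm n k i))

/-- three classes modulo `q^2` are pairwise different modulo `q` -/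
def red3 (q : ℕ) (a c1 c2 : ZMod (q ^ 2)) : Prop :=
  red q a ≠ red q c1 ∧ red q a ≠ red q c2 ∧ red q c1 ≠ red q c2

/-- the three differences of the item `m` with label `x`, `l` = labels of the neighbours -/
def d3 (n k : ℕ) (l : ℕ → ℤ) (m : ℕ) (x : ℤ) (j : Fin 3) : ℤ :=
  match j with
  | 0 => |x - anc n m|
  | 1 => |x - l (nbp n k m)|
  | 2 => |x - l (nbm n k m)|

/-- the items of `s` with labels `z` have exactly the differences `T`, each one once -/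
def Exact3 (n k : ℕ) (l : ℕ → ℤ) (s : Finset ℕ) (z : ℕ → ℤ) (T : Finset ℤ) : Prop :=
  (s ×ˢ (univ : Finset (Fin 3))).image (fun u => d3 n k l u.1 (z u.1) u.2) = T ∧
    T.card = 3 * s.card

/-- class of the label of a vertex which is not an item (`P` = planted vertices with labels `pl`) -/
def clw (E : Env) (P : Finset ℕ) (pl : ℕ → ℤ) (v : ℕ) : ZMod (E.q ^ 2) :=
  if v ∈ P then ((pl v : ℤ) : ZMod (E.q ^ 2)) else cls0 E.n E.q v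

/-- edges between planted vertices: `v ∈ PP` stands for the edge from `v` to `nbp v` -/
def Env.PP (E : Env) : Finset ℕ := E.Pk.filter (fun v => nbp E.n E.k v ∈ E.Pk)

/-- The planted configuration. -/
structure Plan (E : Env) where
  /-- planted vertices and their labels -/
  P : Finset ℕ
  pl : ℕ → ℤ
  /-- cover items, default items, absorber items -/
  CR : Finset ℕ
  Ed : Finset ℕ
  Ab : Finset ℕ
  /-- the differences of the final absorption -/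
  R1 : Finset ℤ
  /-- the differences always used by the absorber items -/
  G : Finset ℤ
  /-- the labels of the absorber items -/
  Lb : Finset ℤ
  /-- bad units, switch items -/
  Bd : Finset (ZMod (E.q ^ 2))

namespace Plan

variable {E : Env} (Pn : Plan E)

/-- class of the label of a vertex which is not an item -/
def cl (v : ℕ) : ZMod (E.q ^ 2) := clw E Pn.P Pn.pl v

/-- main items -/
def It : Finset ℕ := E.Ck \ (Pn.CR ∪ Pn.Ed ∪ Pn.Ab)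

/-- spoke of a planted vertex -/
def sp (v : ℕ) : ℤ := |Pn.pl v - anc E.n v|

/-- difference of the edge from `v` to `nbp v` -/
def ed (v : ℕ) : ℤ := |Pn.pl v - Pn.pl (nbp E.n E.k v)|

/-- used differences -/
def UD : Finset ℤ := Pn.P.image Pn.sp ∪ E.PP.image Pn.ed ∪ Pn.G

/-- differences available to the main items -/
def D0 : Finset ℤ := dall E.n \ (Pn.UD ∪ Pn.R1)

open Classical in
/-- labels available to the main items -/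
def Z0 (_ : Plan E) : Finset ℤ :=
  (Icc (0 : ℤ) (3 * E.n)).filter (fun x => (E.n : ℤ) < 2 * x ∧ 2 * x < 5 * E.n ∧ unL E.q x ∉ E.Res)

open Classical in
/-- switch items: high main items with unplanted neighbours in non reserved units -/
def IR : Finset ℕ :=
  Pn.It.filter (fun m => hi E.n m = true ∧ nbp E.n E.k m ∉ Pn.P ∧ nbm E.n E.k m ∉ Pn.P ∧
    un E.n E.q (nbp E.n E.k m) ∉ E.Res ∧ un E.n E.q (nbm E.n E.k m) ∉ E.Res ∧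
    inI E.n (255 / 100) (280 / 100) (anc E.n m))

/-- The data of Theorem II. -/
def dat : Dat where
  n := E.n
  q := E.q
  S := E.S
  B0 := E.B0
  nq := E.nq
  nS := E.nS
  Sv := E.Bk \ Pn.P
  un := un E.n E.q
  Y := Yl E.n E.q E.S E.B0
  anc := anc E.n
  hi := hi E.n
  It := Pn.It
  nb1 := nbp E.n E.k
  nb2 := nbm E.n E.k
  pl := Pn.pl
  Res := E.Res
  th0 := E.th0
  Z0 := Pn.Z0
  D0 := Pn.D0
  Bd := Pn.Bd
  IR := Pn.IR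

open Classical in
/-- Everything about the planted configuration that is needed for `Reg` and `Completes`.
`κ` small, `cD` = constant of the default counts, `cC` = constant of the cover counts,
`b` = surplus of differences, `m` = number of absorbed differences. -/
structure Ok (κ cD cC : ℝ) (b m : ℕ) : Prop where
  P_sub : Pn.P ⊆ E.Pk ∪ E.Bk
  Pk_sub : E.Pk ⊆ Pn.P
  B_vs : ∀ v ∈ E.Bk, v ∉ Pn.P → v ∈ E.B1
  own : ∀ v ∈ E.B1, v ∉ Pn.P → un E.n E.q v ∈ E.Res →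
    E.y0 v ∈ zall E.n ∧ |E.y0 v - anc E.n v| ∈ dall E.n
  -- labels and differences of the planted vertices
  pl_PL : ∀ v ∈ Pn.P, Pn.pl v ∈ E.PL
  pl_inj : ∀ v ∈ Pn.P, ∀ v' ∈ Pn.P, Pn.pl v = Pn.pl v' → v = v'
  sp_PD : ∀ v ∈ Pn.P, Pn.sp v ∈ E.PD
  sp_inj : ∀ v ∈ Pn.P, ∀ v' ∈ Pn.P, Pn.sp v = Pn.sp v' → v = v'
  ed_PD : ∀ v ∈ E.PP, Pn.ed v ∈ E.PD
  ed_inj : ∀ v ∈ E.PP, ∀ v' ∈ E.PP, Pn.ed v = Pn.ed v' → v = v'
  sp_ed : ∀ v ∈ Pn.P, ∀ v' ∈ E.PP, Pn.sp v ≠ Pn.ed v'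
  -- labels and differences of the absorber
  Lb_PL : Pn.Lb ⊆ E.PL
  Lb_pl : ∀ v ∈ Pn.P, Pn.pl v ∉ Pn.Lb
  G_sub : Pn.G ⊆ E.PD ∪ E.AA
  G_sp : ∀ v ∈ Pn.P, Pn.sp v ∉ Pn.G
  G_ed : ∀ v ∈ E.PP, Pn.ed v ∉ Pn.G
  R1_sub : Pn.R1 ⊆ E.AA
  G_R1 : Disjoint Pn.G Pn.R1
  -- items
  CR_sub : Pn.CR ⊆ E.Ck
  Ed_sub : Pn.Ed ⊆ E.Ck
  Ab_sub : Pn.Ab ⊆ E.Ck
  CR_Ed : Disjoint Pn.CR Pn.Ed
  CR_Ab : Disjoint Pn.CR Pn.Ab
  Ed_Ab : Disjoint Pn.Ed Pn.Ab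
  CR_nb : ∀ i ∈ Pn.CR, nbp E.n E.k i ∈ Pn.P ∧ nbm E.n E.k i ∈ Pn.P
  Ab_nb : ∀ i ∈ Pn.Ab, nbp E.n E.k i ∈ Pn.P ∧ nbm E.n E.k i ∈ Pn.P
  gen : ∀ i ∈ E.Ck, i ∉ Pn.Ab → red3 E.q ((anc E.n i : ℤ) : ZMod (E.q ^ 2))
    (Pn.cl (nbp E.n E.k i)) (Pn.cl (nbm E.n E.k i))
  rng : ∀ v ∈ Pn.P, inI E.n (9 / 10) (21 / 10) (Pn.pl v)
  rng2 : ∀ i ∈ E.Ck, i ∉ Pn.Ab →
    (∀ v, (v = nbp E.n E.k i ∨ v = nbm E.n E.k i) → v ∈ Pn.P → inI E.n (9 / 10) 2 (Pn.pl v)) ∨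
    (∀ v, (v = nbp E.n E.k i ∨ v = nbm E.n E.k i) → v ∈ Pn.P → inI E.n 1 (21 / 10) (Pn.pl v))
  absorb : ∀ R' ⊆ Pn.R1, R'.card = m → ∃ z : ℕ → ℤ, (∀ i ∈ Pn.Ab, z i ∈ Pn.Lb) ∧
    (∀ i ∈ Pn.Ab, ∀ i' ∈ Pn.Ab, z i = z i' → i = i') ∧
    Exact3 E.n E.k Pn.pl Pn.Ab z (Pn.G ∪ R')
  cover : ∀ d ∈ dall E.n, ∃ (M : Finset ℕ) (x e1 e2 : ℕ → ℤ), M ⊆ Pn.CR ∧
    cC * E.n ≤ (M.card : ℝ) ∧
    (∀ i ∈ M, x i ∈ E.LAM ∧ e1 i ∈ Pn.R1 ∧ e2 i ∈ Pn.R1 ∧ e1 i ≠ e2 i ∧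
      (univ : Finset (Fin 3)).image (d3 E.n E.k Pn.pl i (x i)) = {d, e1 i, e2 i}) ∧
    (∀ i ∈ M, ∀ i' ∈ M, x i = x i' → i = i') ∧
    ∀ r : ℤ, (M.filter (fun i => e1 i = r ∨ e2 i = r)).card ≤ 4
  deflt : ∀ (a z1 z2 : ℤ) (lo hi' : ℝ), E.inc3 a z1 z2 → E.defCase a z1 z2 lo hi' →
    cD * E.n ≤ ((E.defSet Pn.R1 lo hi' a z1 z2).card : ℝ)
  -- sizes and counts
  szP : (Pn.P.card : ℝ) ≤ κ * E.n
  szI : ((Pn.CR.card + Pn.Ed.card + Pn.Ab.card : ℕ) : ℝ) ≤ κ * E.n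
  szD : 40 * ((Pn.CR.card + Pn.Ed.card : ℕ) : ℝ) ≤ cD * E.n
  cnt1 : Pn.G.card + m = 3 * Pn.Ab.card
  cnt2 : m + 3 * Pn.CR.card + 3 * Pn.Ed.card = Pn.R1.card + b
  b_lo : E.n ^ 4 ≤ b ^ 4 * E.q
  b_hi : 200 * (b : ℝ) ≤ cD * E.n ∧ 200 * (b : ℝ) ≤ cC * E.n
  -- loads of the units, tags
  bdc : (Pn.Bd.card : ℝ) * √(E.q : ℝ) ≤ (E.q : ℝ) ^ 2
  load : ∀ u, u ∉ Pn.Bd → (((E.Bk ∩ Pn.P).filter (fun v => un E.n E.q v = u)).card : ℝ)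
    ≤ κ * E.n / (E.q : ℝ) ^ 2
  tg5 : ∀ v, ((Pn.It.filter (fun i => nbp E.n E.k i ∈ Pn.P ∧
    ((anc E.n i : ℤ) : ZMod (E.q ^ 2)) - Pn.cl (nbp E.n E.k i) = v)).card : ℝ)
      ≤ κ * E.n / (E.q : ℝ) ^ 2
  tg6 : ∀ v, ((Pn.It.filter (fun i => nbm E.n E.k i ∈ Pn.P ∧
    ((anc E.n i : ℤ) : ZMod (E.q ^ 2)) - Pn.cl (nbm E.n E.k i) = v)).card : ℝ)
      ≤ κ * E.n / (E.q : ℝ) ^ 2
  tg7 : ∀ v, ((Pn.It.filter (fun i => (nbp E.n E.k i ∈ Pn.P ∨ nbm E.n E.k i ∈ Pn.P) ∧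
    Pn.cl (nbp E.n E.k i) - Pn.cl (nbm E.n E.k i) = v)).card : ℝ) ≤ κ * E.n / (E.q : ℝ) ^ 2

end Plan

/-! ### The three parts of part P -/

/-- Reg of the data of a plan -/
def PRegThm : Prop :=
  ∃ c : ℝ, 0 < c ∧ ∀ κ : ℝ, 0 < κ → ∃ κ1 : ℝ, 0 < κ1 ∧ ∀ c1 cD cC : ℝ, 0 < c1 → 0 < cD → 0 < cC →
    ∃ n0 : ℕ, ∀ (E : Env) (Pn : Plan E) (ρ : ℝ) (b m : ℕ), n0 ≤ E.n → ρ ≤ κ1 → E.Ok κ1 ρ c1 →
      Pn.Ok κ1 cD cC b m → Pn.dat.Reg κ c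

/-- Completes of the data of a plan -/
def PCompThm : Prop :=
  ∀ κ1 c1 cD cC : ℝ, 0 < κ1 → 0 < c1 → 0 < cD → 0 < cC → ∃ η : ℝ, 0 < η ∧
    ∃ n0 : ℕ, ∀ (E : Env) (Pn : Plan E) (ρ : ℝ) (b m : ℕ), n0 ≤ E.n → E.Ok κ1 ρ c1 →
      Pn.Ok κ1 cD cC b m → Pn.dat.Completes E.k η

/-- Existence of a plan -/
def PExThm : Prop :=
  ∀ κ1 c1 : ℝ, 0 < κ1 → 0 < c1 → ∃ cD cC ρ : ℝ, 0 < cD ∧ 0 < cC ∧ 0 < ρ ∧ ρ ≤ κ1 ∧
    ∃ n0 : ℕ, ∀ E : Env, n0 ≤ E.n → E.Ok κ1 ρ c1 →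
      ∃ (Pn : Plan E) (b m : ℕ), Pn.Ok κ1 cD cC b m

theorem plantThm_of (h1 : PRegThm) (h2 : PCompThm) (h3 : PExThm) : PlantThm := by
  obtain ⟨c, hc, h1⟩ := h1
  refine ⟨c, hc, ?_⟩
  intro κ hκ
  obtain ⟨κ1, hκ1, h1⟩ := h1 κ hκ
  refine ⟨κ1, hκ1, ?_⟩
  intro c1 hc1
  obtain ⟨cD, cC, ρ, hcD, hcC, hρ, hρκ, n1, h3⟩ := h3 κ1 c1 hκ1 hc1
  obtain ⟨η, hη, n2, h2⟩ := h2 κ1 c1 cD cC hκ1 hc1 hcD hcC
  obtain ⟨n3, h1⟩ := h1 c1 cD cC hc1 hcD hcC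
  refine ⟨ρ, η, hρ, hη, max n1 (max n2 n3), ?_⟩
  intro E hE hOk
  obtain ⟨Pn, b, m, hP⟩ := h3 E (by omega) hOk
  exact ⟨Pn.dat, rfl, h1 E Pn ρ b m (by omega) hρκ hOk hP, h2 E Pn ρ b m (by omega) hOk hP⟩

end Pool.Agent.PGr
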