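import Mathlib
import Pool.Agent.PGr.PBase

/-!
# PGr, part P: packs (an item with two planted neighbours), families of packs, gadgets
-/

noncomputable section

namespace Pool.Agent.PGr.PPk

open Finset

/-- A pack: the item `m`, the labels `a1` of `nbp m` and `a2` of `nbm m`, the labels `J` reserved
for the item, the private differences `G`. -/
structure Pack where
  m : ℕ
  a1 : ℤ
  a2 : ℤ
  J : Finset ℤ
  G : Finset ℤ
deriving DecidableEq

namespace Pack

/-- all reserved labels -/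
def L (p : Pack) : Finset ℤ := insert p.a1 (insert p.a2 p.J)

/-- spoke of the first planted neighbour -/
def s1 (E : Env) (p : Pack) : ℤ := |p.a1 - anc E.n (nbp E.n E.k p.m)|

/-- spoke of the second planted neighbour -/
def s2 (E : Env) (p : Pack) : ℤ := |p.a2 - anc E.n (nbm E.n E.k p.m)|

/-- all reserved differences -/
def F (E : Env) (p : Pack) : Finset ℤ := insert (p.s1 E) (insert (p.s2 E) p.G)

end Pack

variable (E : Env)

/-- vertices at inner distance at most three -/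
def ball (m : ℕ) : Finset ℕ :=
  {m, nbp E.n E.k m, nbm E.n E.k m, nbp E.n E.k (nbp E.n E.k m), nbm E.n E.k (nbm E.n E.k m),
    nbp E.n E.k (nbp E.n E.k (nbp E.n E.k m)), nbm E.n E.k (nbm E.n E.k (nbm E.n E.k m))}

/-- the two items next to the planted neighbours of `m` -/
def w1 (m : ℕ) : ℕ := nbp E.n E.k (nbp E.n E.k m)
def w2 (m : ℕ) : ℕ := nbm E.n E.k (nbm E.n E.k m)

/-- classes after planting the neighbours of `p.m` -/
def pcl (p : Pack) (v : ℕ) : ZMod (E.q ^ 2) :=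
  if v = nbp E.n E.k p.m then ((p.a1 : ℤ) : ZMod (E.q ^ 2))
  else if v = nbm E.n E.k p.m then ((p.a2 : ℤ) : ZMod (E.q ^ 2)) else cls0 E.n E.q v

/-- the six tags of a pack: units of the two planted vertices, combinations of the two items next
to them -/
def tag (p : Pack) (t : Fin 6) : ZMod (E.q ^ 2) :=
  match t with
  | 0 => un E.n E.q (nbp E.n E.k p.m)
  | 1 => un E.n E.q (nbm E.n E.k p.m)
  | 2 => ((anc E.n (w1 E p.m) : ℤ) : ZMod (E.q ^ 2)) - ((p.a1 : ℤ) : ZMod (E.q ^ 2))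
  | 3 => pcl E p (nbp E.n E.k (w1 E p.m)) - ((p.a1 : ℤ) : ZMod (E.q ^ 2))
  | 4 => ((anc E.n (w2 E p.m) : ℤ) : ZMod (E.q ^ 2)) - ((p.a2 : ℤ) : ZMod (E.q ^ 2))
  | 5 => ((p.a2 : ℤ) : ZMod (E.q ^ 2)) - pcl E p (nbm E.n E.k (w2 E p.m))

/-- admissible packs -/
structure PackOk (P3 : Finset ℕ) (p : Pack) : Prop where
  item : E.pureItem p.m
  fresh : Disjoint (ball E p.m) P3
  LPL : p.L ⊆ E.PL
  FPD : p.F E ⊆ E.PD
  cJ : p.J.card ≤ 3
  cG : p.G.card ≤ 5
  a12 : p.a1 ≠ p.a2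
  a1J : p.a1 ∉ p.J
  a2J : p.a2 ∉ p.J
  s12 : p.s1 E ≠ p.s2 E
  s1G : p.s1 E ∉ p.G
  s2G : p.s2 E ∉ p.G
  r1 : inI E.n (9 / 10) (21 / 10) p.a1
  r2 : inI E.n (9 / 10) (21 / 10) p.a2
  r12 : (inI E.n (9 / 10) 2 p.a1 ∧ inI E.n (9 / 10) 2 p.a2) ∨
    (inI E.n 1 (21 / 10) p.a1 ∧ inI E.n 1 (21 / 10) p.a2)
  g1 : red3 E.q ((anc E.n (w1 E p.m) : ℤ) : ZMod (E.q ^ 2)) (pcl E p (nbp E.n E.k (w1 E p.m)))
    ((p.a1 : ℤ) : ZMod (E.q ^ 2))
  g2 : red3 E.q ((anc E.n (w2 E p.m) : ℤ) : ZMod (E.q ^ 2)) ((p.a2 : ℤ) : ZMod (E.q ^ 2))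
    (pcl E p (nbm E.n E.k (w2 E p.m)))

/-- compatible packs -/
def Compat (p p' : Pack) : Prop :=
  Disjoint (ball E p.m) (ball E p'.m) ∧ Disjoint p.L p'.L ∧ Disjoint (p.F E) (p'.F E)

/-- families of compatible packs. `L3, D3` = labels and differences of the vertices `P3`,
`T` = bound for the multiplicities of the tags. -/
structure PFam (P3 : Finset ℕ) (L3 D3 : Finset ℤ) (T : ℝ) (Ps : Finset Pack) : Prop where
  ok : ∀ p ∈ Ps, PackOk E P3 p
  dj : ∀ p ∈ Ps, ∀ p' ∈ Ps, p ≠ p' → Compat E p p'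
  l3 : ∀ p ∈ Ps, Disjoint p.L L3
  d3 : ∀ p ∈ Ps, Disjoint (p.F E) D3
  tg : ∀ (t : Fin 6) (v : ZMod (E.q ^ 2)), ((Ps.filter (fun p => tag E p t = v)).card : ℝ) ≤ T

/-- the items with a neighbour outside of `P3` are generic -/
def Gen0 (P3 : Finset ℕ) : Prop :=
  ∀ i ∈ E.Ck, (nbp E.n E.k i ∉ P3 ∨ nbm E.n E.k i ∉ P3) →
    red3 E.q ((anc E.n i : ℤ) : ZMod (E.q ^ 2)) (cls0 E.n E.q (nbp E.n E.k i))
      (cls0 E.n E.q (nbm E.n E.k i))

/-- the pack of the two-way gadget with options `d, d'` -/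
def twPack (d d' : ℤ) (m : ℕ) (y2 : ℤ) : Pack where
  m := m
  a1 := 2 * y2 + d + d' - anc E.n m
  a2 := y2
  J := {y2 + d, y2 + d'}
  G := {anc E.n m - (y2 + d), anc E.n m - (y2 + d')}

/-- the pack of the three-way gadget with option `d` -/
def eoPack (d : ℤ) (m : ℕ) (x b2 : ℤ) : Pack where
  m := m
  a1 := x - d
  a2 := b2
  J := {x, b2 + anc E.n m - x, x + b2 - anc E.n m}
  G := (univ : Finset (Fin 5)).image (Env.eoD d (anc E.n m) x b2)

/-- the pack of a cover item: `y1` is the label of the neighbour in direction `o` -/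
def covPack (m : ℕ) (o : Bool) (y1 y2 : ℤ) : Pack where
  m := m
  a1 := if o then y1 else y2
  a2 := if o then y2 else y1
  J := ∅
  G := ∅

/-- the three differences of the item of a pack with label `x` -/
def pd3 (p : Pack) (x : ℤ) (j : Fin 3) : ℤ :=
  match j with
  | 0 => |x - anc E.n p.m|
  | 1 => |x - p.a1|
  | 2 => |x - p.a2|

/-- the differences of the items of `Ps` with labels `z` -/
def DS (Ps : Finset Pack) (z : Pack → ℤ) : Finset ℤ :=
  (Ps ×ˢ (univ : Finset (Fin 3))).image (fun u => pd3 E u.1 (z u.1) u.2)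

/-- `Ps` is a gadget with options `O` and private differences `W`: for every option `o` the items
can be labelled from their reserved labels with exactly the differences `W` and `o`. -/
def PGad (Ps : Finset Pack) (O W : Finset ℤ) : Prop :=
  W.card + 1 = 3 * Ps.card ∧ (∀ o ∈ O, o ∉ W) ∧
    ∀ o ∈ O, ∃ z : Pack → ℤ, (∀ p ∈ Ps, z p ∈ p.J) ∧ DS E Ps z = insert o W

/-- all private differences of a set of packs -/
def pGG (Ps : Finset Pack) : Finset ℤ := Ps.biUnion (fun p => p.G)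

/-- the labels of the items of a set of packs -/
def pJJ (Ps : Finset Pack) : Finset ℤ := Ps.biUnion (fun p => p.J)

/-- admissible options: differences in the range of the gadgets, generic -/
def optOk (d : ℤ) : Prop := inI E.n (7 / 100) (13 / 10) d ∧ gd E.n E.k E.q d

open Classical in
/-- at least `c` packs of `Ps` can cover `d` with the other two differences in `R` -/
def CovM (E : Env) (R : Finset ℤ) (Ps : Finset Pack) (c : ℝ) (d : ℤ) : Prop :=
  ∃ (M : Finset Pack) (x e1 e2 : Pack → ℤ), M ⊆ Ps ∧ c ≤ (M.card : ℝ) ∧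
    (∀ p ∈ M, x p ∈ E.LAM ∧ e1 p ∈ R ∧ e2 p ∈ R ∧ e1 p ≠ e2 p ∧
      (univ : Finset (Fin 3)).image (pd3 E p (x p)) = {d, e1 p, e2 p}) ∧
    (∀ p ∈ M, ∀ p' ∈ M, x p = x p' → p = p') ∧
    ∀ r : ℤ, (M.filter (fun p => e1 p = r ∨ e2 p = r)).card ≤ 4

/-- cover packs: no item labels, no private differences, generic item -/
def CvOk (E : Env) (p : Pack) : Prop :=
  p.J = ∅ ∧ p.G = ∅ ∧ red3 E.q ((anc E.n p.m : ℤ) : ZMod (E.q ^ 2))
    ((p.a1 : ℤ) : ZMod (E.q ^ 2)) ((p.a2 : ℤ) : ZMod (E.q ^ 2))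

end Pool.Agent.PGr.PPk
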