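import Mathlib
import Pool.Agent.PGr.PPack

/-!
# PGr, part P: the vertices planted first, definitions
-/

noncomputable section

namespace Pool.Agent.PGr.PPk

open Finset

open Classical in
/-- the set `P3` of the vertices planted first, bad units `Bd` -/
structure P3Set (E : Env) (P3 : Finset ℕ) (Bd : Finset (ZMod (E.q ^ 2))) (κ : ℝ) : Prop where
  P_sub : P3 ⊆ E.Pk ∪ E.Bk
  Pk_sub : E.Pk ⊆ P3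
  B_vs : ∀ v ∈ E.Bk, v ∉ P3 → v ∈ E.B1
  own : ∀ v ∈ E.B1, v ∉ P3 → un E.n E.q v ∈ E.Res →
    E.y0 v ∈ zall E.n ∧ |E.y0 v - anc E.n v| ∈ dall E.n
  gen0 : Gen0 E P3
  card : (P3.card : ℝ) ≤ κ * E.n
  bdc : (Bd.card : ℝ) * √(E.q : ℝ) ≤ (E.q : ℝ) ^ 2
  load : ∀ u, u ∉ Bd → (((E.Bk ∩ P3).filter (fun v => un E.n E.q v = u)).card : ℝ)
    ≤ κ * E.n / (E.q : ℝ) ^ 2

/-- spoke and edge difference of the first planted vertices -/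
def sp3 (E : Env) (pl3 : ℕ → ℤ) (v : ℕ) : ℤ := |pl3 v - anc E.n v|
def ed3 (E : Env) (pl3 : ℕ → ℤ) (v : ℕ) : ℤ := |pl3 v - pl3 (nbp E.n E.k v)|

/-- the labels of `P3` -/
structure P3Lab (E : Env) (P3 : Finset ℕ) (pl3 : ℕ → ℤ) : Prop where
  pl_PL : ∀ v ∈ P3, pl3 v ∈ E.PL ∧ inI E.n (11 / 10) (19 / 10) (pl3 v)
  pl_inj : ∀ v ∈ P3, ∀ v' ∈ P3, pl3 v = pl3 v' → v = v'
  sp_PD : ∀ v ∈ P3, sp3 E pl3 v ∈ E.PD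
  sp_inj : ∀ v ∈ P3, ∀ v' ∈ P3, sp3 E pl3 v = sp3 E pl3 v' → v = v'
  ed_PD : ∀ v ∈ E.PP, ed3 E pl3 v ∈ E.PD
  ed_inj : ∀ v ∈ E.PP, ∀ v' ∈ E.PP, ed3 E pl3 v = ed3 E pl3 v' → v = v'
  sp_ed : ∀ v ∈ P3, ∀ v' ∈ E.PP, sp3 E pl3 v ≠ ed3 E pl3 v'
  gen : ∀ i ∈ E.Ck, red3 E.q ((anc E.n i : ℤ) : ZMod (E.q ^ 2))
    (clw E P3 pl3 (nbp E.n E.k i)) (clw E P3 pl3 (nbm E.n E.k i))

/-- labels and differences of `P3` -/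
def L3 (P3 : Finset ℕ) (pl3 : ℕ → ℤ) : Finset ℤ := P3.image pl3
def D3 (E : Env) (P3 : Finset ℕ) (pl3 : ℕ → ℤ) : Finset ℤ :=
  P3.image (sp3 E pl3) ∪ E.PP.image (ed3 E pl3)

end Pool.Agent.PGr.PPk
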