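import Mathlib
import Pool.Agent.PGr.PPack
import Pool.Agent.PGr.SApi

/-!
# PGr, part P: inputs from sections 2 and 8 (scheme facts), from SApi
-/

noncomputable section

namespace Pool.Agent.PGr.PPk

open Finset

private theorem class_card (n q e r : ℕ) (_hq : 0 < q ^ 2) :
    ((range n).filter (fun v => v % 2 = e ∧ v / 2 % q ^ 2 = r)).card ≤ n / 2 / q ^ 2 + 1 := by
  rw [← card_range (n / 2 / q ^ 2 + 1)]
  refine card_le_card_of_injOn (fun v => v / 2 / q ^ 2) ?_ ?_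
  · intro v hv
    rw [mem_coe, mem_filter, mem_range] at hv
    rw [mem_coe, mem_range]
    have : v / 2 / q ^ 2 ≤ n / 2 / q ^ 2 := Nat.div_le_div_right (by omega)
    exact Nat.lt_succ_of_le this
  · intro v hv w hw h
    rw [mem_coe, mem_filter, mem_range] at hv hw
    have h1 := Nat.div_add_mod (v / 2) (q ^ 2)
    have h2 := Nat.div_add_mod (w / 2) (q ^ 2)
    have h3 : v / 2 / q ^ 2 = w / 2 / q ^ 2 := h
    rw [h3, hv.2.2] at h1
    rw [hw.2.2] at h2
    omega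

open Classical in
/-- number of vertices of a unit -/
theorem in_unit {n k q S B0 : ℕ} (hB : Base n k q S B0) (u : ZMod (q ^ 2)) :
    (((range n).filter (fun v => ¬ spec n v ∧ un n q v = u)).card : ℝ) ≤ n / (q : ℝ) ^ 2 + 4 := by
  have hq : 0 < q ^ 2 := pow_pos hB.q_prime.pos 2
  have hsub : (range n).filter (fun v => ¬ spec n v ∧ un n q v = u) ⊆
      (range n).filter (fun v => v % 2 = 0 ∧ v / 2 % q ^ 2 = u.val) ∪
      (range n).filter (fun v => v % 2 = 1 ∧ v / 2 % q ^ 2 = rr n q u) := by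
    intro v hv
    rw [mem_filter] at hv
    rw [mem_union, mem_filter, mem_filter]
    by_cases h : v % 2 = 0
    · exact Or.inl ⟨hv.1, h, (s_un_low hB h u).mp hv.2.2⟩
    · exact Or.inr ⟨hv.1, by omega, (s_un_high hB h hv.2.1 u).mp hv.2.2⟩
  have h1 := (card_le_card hsub).trans (card_union_le _ _)
  have h2 := class_card n q 0 u.val hq
  have h3 := class_card n q 1 (rr n q u) hq
  have h4 : ((range n).filter (fun v => ¬ spec n v ∧ un n q v = u)).card ≤
      2 * (n / 2 / q ^ 2) + 2 := by omega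
  have h5 : (((n / 2 / q ^ 2 : ℕ)) : ℝ) ≤ n / 2 / (q : ℝ) ^ 2 := by
    calc (((n / 2 / q ^ 2 : ℕ)) : ℝ) ≤ ((n / 2 : ℕ) : ℝ) / ((q ^ 2 : ℕ) : ℝ) := Nat.cast_div_le
      _ ≤ ((n : ℝ) / 2) / ((q ^ 2 : ℕ) : ℝ) := by
        gcongr
        exact_mod_cast (Nat.cast_div_le (α := ℝ) (m := n) (n := 2))
      _ = n / 2 / (q : ℝ) ^ 2 := by push_cast; rfl
  calc (((range n).filter (fun v => ¬ spec n v ∧ un n q v = u)).card : ℝ)
      ≤ ((2 * (n / 2 / q ^ 2) + 2 : ℕ) : ℝ) := by exact_mod_cast h4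
    _ = 2 * ((n / 2 / q ^ 2 : ℕ) : ℝ) + 2 := by push_cast; ring
    _ ≤ 2 * (n / 2 / (q : ℝ) ^ 2) + 2 := by gcongr
    _ ≤ n / (q : ℝ) ^ 2 + 4 := by
      have : 2 * ((n : ℝ) / 2 / (q : ℝ) ^ 2) = n / (q : ℝ) ^ 2 := by ring
      linarith

open Classical in
/-- few vertices are not in `V_s` -/
theorem in_vs {n k q S B0 : ℕ} (hB : Base n k q S B0) :
    ((range n).filter (fun v => ¬ inVS n q S B0 v)).card ≤ 20 * q ^ 2 := s_V hB

open Classical in
/-- few items are not generic -/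
theorem in_gen {n k q S B0 : ℕ} (hB : Base n k q S B0) :
    (((range n).filter (fun i => nsp n k i ∧ ¬ red3 q ((anc n i : ℤ) : ZMod (q ^ 2))
      (cls0 n q (nbp n k i)) (cls0 n q (nbm n k i)))).card : ℝ) ≤ 100 * (n / (q : ℝ) + 1) := by
  have h := s_F3 hB
  have hsub : (range n).filter (fun i => nsp n k i ∧ ¬ red3 q ((anc n i : ℤ) : ZMod (q ^ 2))
      (cls0 n q (nbp n k i)) (cls0 n q (nbm n k i))) ⊆
      (range n).filter (fun i => SS.NS n k i ∧ ¬ SS.GenI n k q i) := by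
    intro i hi
    rw [mem_filter] at hi ⊢
    exact ⟨hi.1, hi.2.1.2, hi.2.2⟩
  have h2 : (((range n).filter (fun i => nsp n k i ∧ ¬ red3 q ((anc n i : ℤ) : ZMod (q ^ 2))
      (cls0 n q (nbp n k i)) (cls0 n q (nbm n k i)))).card : ℝ) ≤
      (((range n).filter (fun i => SS.NS n k i ∧ ¬ SS.GenI n k q i)).card : ℝ) := by
    exact_mod_cast card_le_card hsub
  have h3 : (0 : ℝ) ≤ n / (q : ℝ) := by positivity
  have h4 : 9 * (n : ℝ) / q = 9 * (n / (q : ℝ)) := by ring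
  rw [h4] at h
  linarith

/-- scheme labels lie in the window -/
theorem in_win {n k q S B0 : ℕ} (hB : Base n k q S B0) [NeZero S] (i : ℕ) (h : inVS n q S B0 i)
    (t : ZMod (2 * S)) : (n : ℤ) ≤ Yl n q S B0 i t ∧ Yl n q S B0 i t < 2 * n ∧
      1 ≤ |Yl n q S B0 i t - anc n i| ∧ |Yl n q S B0 i t - anc n i| ≤ 2 * n := by
  have h1 := s_Y_mem hB i t
  have h2 : (n : ℤ) ≤ B0 := by exact_mod_cast hB.B0_low
  have h3 : (B0 : ℤ) + 2 * S * q ^ 2 ≤ 2 * n := by
    have e1 := hB.B0_high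
    have e2 := hB.S_high
    have e3 : B0 + 2 * S * q ^ 2 ≤ 2 * n := by nlinarith
    exact_mod_cast e3
  refine ⟨h2.trans h1.1, lt_of_lt_of_le h1.2 h3, ?_, s_sp_le hB h t⟩
  have h4 : Yl n q S B0 i t ≠ anc n i := by
    by_cases hh : hi n i = true
    · exact (s_sp_hi hB h hh t).ne
    · rw [Bool.not_eq_true] at hh
      exact (s_sp_lo hB h hh t).ne'
  have h5 : Yl n q S B0 i t - anc n i ≠ 0 := sub_ne_zero.mpr h4
  exact Int.one_le_abs h5

/-- scheme labels are distinct -/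
theorem in_lab {n k q S B0 : ℕ} (hB : Base n k q S B0) [NeZero q] [NeZero S]
    (θ : ZMod (q ^ 2) → ZMod (2 * S)) (i j : ℕ) (hi : inVS n q S B0 i) (hj : inVS n q S B0 j)
    (h : Yl n q S B0 i (θ (un n q i)) = Yl n q S B0 j (θ (un n q j))) : i = j := by
  by_contra hc
  exact s_Y_ne' hB hi hj hc θ h

/-- scheme spokes are distinct -/
theorem in_spo {n k q S B0 : ℕ} (hB : Base n k q S B0) [NeZero q] [NeZero S]
    (θ : ZMod (q ^ 2) → ZMod (2 * S)) (i j : ℕ) (hi : inVS n q S B0 i) (hj : inVS n q S B0 j)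
    (h : |Yl n q S B0 i (θ (un n q i)) - anc n i| = |Yl n q S B0 j (θ (un n q j)) - anc n j|) :
    i = j := by
  by_contra hc
  exact s_sp_ne' hB hi hj hc θ h

end Pool.Agent.PGr.PPk
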