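import Mathlib
import Pool.Agent.PGr.PIn

/-!
# PGr-P-Vert: vertex arithmetic, neighbours, balls, anchors, sizes

PLAN. `nbp n k i = (i + k) % n`, `nbm n k i = (i + (n - k)) % n`; for `i < n`, `1 ≤ k`, `2 k < n`
use `Nat.mod_eq_of_lt` / `Nat.mod_eq_sub_mod` after deciding `i + k < n` (`i < k` respectively),
then `omega`. `ball_card`: `card_insert_le`. `ball_kill`: for every `s ∈ S` the `m < n` with
`s ∈ ball m` are among the seven vertices `s, nbm s, nbp s, nbm (nbm s), ...` (invert the maps), so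
the set is contained in `S.biUnion (fun s => ball s)`. `PL_card`: `PL ⊆ zall n`, `|zall n| = 2n+1`
(even n: `Icc` of `2n+2` elements minus one; odd n: `2n+1`). `dall_card = 2 n`.
`unit_kill`: fiber the set over the units: `nbp` is injective on `range n`, so
`#{m < n : un (nbp m) ∈ B, nbp m not special} ≤ ∑_{u ∈ B} #{v < n : ¬ spec v, un v = u}`, `in_unit`.
`res_kill`: an interval of at most `3n+1` integers contains at most `(3n+1)/w + 1` elements of each
residue class mod `w` (`Int.card ...` or injection `y ↦ y / w`), sum over the classes in `R`.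
`anc_isAnc`: cases on parity; `omega`.
-/

noncomputable section

namespace Pool.Agent.PGr.PPk

open Finset

section
variable {n k : ℕ}

theorem nbp_lt (h : 2 * k < n) (i : ℕ) : nbp n k i < n :=
  Nat.mod_lt _ (by omega)

private theorem nbp_val (h : 2 * k < n) {i : ℕ} (hi : i < n) :
    (i + k < n ∧ nbp n k i = i + k) ∨ (n ≤ i + k ∧ nbp n k i = i + k - n) := by
  unfold nbp
  by_cases h1 : i + k < n
  · exact Or.inl ⟨h1, Nat.mod_eq_of_lt h1⟩
  · refine Or.inr ⟨by omega, ?_⟩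
    rw [Nat.mod_eq_sub_mod (by omega), Nat.mod_eq_of_lt (by omega)]

private theorem nbm_val (h : 2 * k < n) {i : ℕ} (hi : i < n) :
    (i < k ∧ nbm n k i = i + (n - k)) ∨ (k ≤ i ∧ nbm n k i = i - k) := by
  unfold nbm
  by_cases h1 : i < k
  · exact Or.inl ⟨h1, Nat.mod_eq_of_lt (by omega)⟩
  · refine Or.inr ⟨by omega, ?_⟩
    rw [Nat.mod_eq_sub_mod (by omega), Nat.mod_eq_of_lt (by omega)]
    omega

theorem nbm_lt (h : 2 * k < n) (i : ℕ) : nbm n k i < n :=
  Nat.mod_lt _ (by omega)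

theorem nbp_nbm (hk : 1 ≤ k) (h : 2 * k < n) {i : ℕ} (hi : i < n) :
    nbp n k (nbm n k i) = i := by
  have h1 := nbm_val h hi
  have h2 := nbp_val h (nbm_lt h i)
  omega

theorem nbm_nbp (hk : 1 ≤ k) (h : 2 * k < n) {i : ℕ} (hi : i < n) :
    nbm n k (nbp n k i) = i := by
  have h1 := nbp_val h hi
  have h2 := nbm_val h (nbp_lt h i)
  omega

theorem nbp_ne (hk : 1 ≤ k) (h : 2 * k < n) {i : ℕ} (hi : i < n) : nbp n k i ≠ i := by
  have h1 := nbp_val h hi
  omega

theorem nbm_ne (hk : 1 ≤ k) (h : 2 * k < n) {i : ℕ} (hi : i < n) : nbm n k i ≠ i := by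
  have h1 := nbm_val h hi
  omega

theorem nbp_ne_nbm (hk : 1 ≤ k) (h : 2 * k < n) {i : ℕ} (hi : i < n) :
    nbp n k i ≠ nbm n k i := by
  have h1 := nbp_val h hi
  have h2 := nbm_val h hi
  omega

theorem anc_isAnc {i : ℕ} (hi : i < n) : isAnc n (anc n i) := by
  unfold isAnc anc
  split_ifs with h1 h2
  · left
    omega
  · right; right
    omega
  · right; left
    omega

theorem anc_inj {i j : ℕ} (hi : i < n) (hj : j < n) (h : anc n i = anc n j) : i = j := by
  unfold anc at h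
  split_ifs at h <;> omega

theorem zall_card (hn : 3 ≤ n) : (zall n).card = 2 * n + 1 := by
  unfold zall
  split_ifs with h
  · rw [card_erase_of_mem (by rw [mem_Icc]; omega), Int.card_Icc]
    omega
  · rw [Int.card_Icc]
    omega

theorem dall_card (hn : 3 ≤ n) : (dall n).card = 2 * n := by
  unfold dall
  split_ifs with h
  · rw [card_erase_of_mem (by rw [mem_erase, mem_Icc]; omega),
      card_erase_of_mem (by rw [mem_Icc]; omega), Int.card_Icc]
    omega
  · rw [card_erase_of_mem (by rw [mem_Icc]; omega), Int.card_Icc]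
    omega

end

variable (E : Env)

theorem ball_card (m : ℕ) : (ball E m).card ≤ 7 := by
  unfold ball
  have c1 : ∀ a : ℕ, (({a} : Finset ℕ)).card ≤ 1 := fun a => (card_singleton a).le
  have st : ∀ (a c : ℕ) (s : Finset ℕ), s.card ≤ c → (insert a s).card ≤ c + 1 :=
    fun a c s h => (card_insert_le a s).trans (by omega)
  exact st _ 6 _ (st _ 5 _ (st _ 4 _ (st _ 3 _ (st _ 2 _ (st _ 1 _ (c1 _))))))

theorem ball_kill (hE : Base E.n E.k E.q E.S E.B0) (S : Finset ℕ) :
    ((range E.n).filter (fun m => ¬ Disjoint (ball E m) S)).card ≤ 7 * S.card := by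
  have hk := hE.k_pos
  have h := hE.k_lt
  have hsub : (range E.n).filter (fun m => ¬ Disjoint (ball E m) S) ⊆
      S.biUnion (fun s => ball E s) := by
    intro m hm
    rw [mem_filter, mem_range, not_disjoint_iff] at hm
    obtain ⟨hmn, s, hs, hsS⟩ := hm
    rw [mem_biUnion]
    refine ⟨s, hsS, ?_⟩
    unfold ball at hs ⊢
    simp only [mem_insert, mem_singleton] at hs ⊢
    have p1 := nbp_lt h m
    have p2 := nbp_lt h (nbp E.n E.k m)
    have m1 := nbm_lt h m
    have m2 := nbm_lt h (nbm E.n E.k m)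
    rcases hs with hs | hs | hs | hs | hs | hs | hs
    · exact Or.inl hs.symm
    · right; right; left
      rw [hs, nbm_nbp hk h hmn]
    · right; left
      rw [hs, nbp_nbm hk h hmn]
    · right; right; right; right; left
      rw [hs, nbm_nbp hk h p1, nbm_nbp hk h hmn]
    · right; right; right; left
      rw [hs, nbp_nbm hk h m1, nbp_nbm hk h hmn]
    · right; right; right; right; right; right
      rw [hs, nbm_nbp hk h p2, nbm_nbp hk h p1, nbm_nbp hk h hmn]
    · right; right; right; right; right; left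
      rw [hs, nbp_nbm hk h m2, nbp_nbm hk h m1, nbp_nbm hk h hmn]
  refine (card_le_card hsub).trans ?_
  rw [mul_comm]
  exact card_biUnion_le_card_mul _ _ _ (fun s _ => ball_card E s)

private theorem card_le_via {n : ℕ} (f g : ℕ → ℕ) (hf : ∀ m < n, f m < n)
    (hg : ∀ m < n, g (f m) = m) (P : ℕ → Prop) [DecidablePred P] :
    ((range n).filter (fun m => P (f m))).card ≤ ((range n).filter P).card := by
  refine card_le_card_of_injOn f ?_ ?_
  · intro m hm
    rw [mem_coe, mem_filter, mem_range] at hm ⊢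
    exact ⟨hf m hm.1, hm.2⟩
  · intro a ha b hb hab
    rw [mem_coe, mem_filter, mem_range] at ha hb
    rw [← hg a ha.1, ← hg b hb.1]
    exact congrArg g hab

open Classical in
private theorem unit_total (hE : Base E.n E.k E.q E.S E.B0) (B : Finset (ZMod (E.q ^ 2))) :
    (((range E.n).filter (fun v => ¬ spec E.n v ∧ un E.n E.q v ∈ B)).card : ℝ) ≤
      B.card * (E.n / (E.q : ℝ) ^ 2 + 4) := by
  have h1 : (range E.n).filter (fun v => ¬ spec E.n v ∧ un E.n E.q v ∈ B) ⊆
      B.biUnion (fun u => (range E.n).filter (fun v => ¬ spec E.n v ∧ un E.n E.q v = u)) := by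
    intro v hv
    rw [mem_filter] at hv
    rw [mem_biUnion]
    exact ⟨un E.n E.q v, hv.2.2, mem_filter.mpr ⟨hv.1, hv.2.1, rfl⟩⟩
  have h2 := (card_le_card h1).trans card_biUnion_le
  calc (((range E.n).filter (fun v => ¬ spec E.n v ∧ un E.n E.q v ∈ B)).card : ℝ)
      ≤ ((∑ u ∈ B, ((range E.n).filter (fun v => ¬ spec E.n v ∧ un E.n E.q v = u)).card : ℕ) : ℝ) := by
        exact_mod_cast h2
    _ = ∑ u ∈ B, (((range E.n).filter (fun v => ¬ spec E.n v ∧ un E.n E.q v = u)).card : ℝ) := by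
        push_cast; rfl
    _ ≤ ∑ _u ∈ B, ((E.n : ℝ) / (E.q : ℝ) ^ 2 + 4) := sum_le_sum (fun u _ => in_unit hE u)
    _ = B.card * (E.n / (E.q : ℝ) ^ 2 + 4) := by rw [sum_const, nsmul_eq_mul]

open Classical in
theorem unit_kill (hE : Base E.n E.k E.q E.S E.B0) (B : Finset (ZMod (E.q ^ 2))) :
    (((range E.n).filter (fun m => ¬ spec E.n (nbp E.n E.k m) ∧
      un E.n E.q (nbp E.n E.k m) ∈ B)).card : ℝ) ≤ B.card * (E.n / (E.q : ℝ) ^ 2 + 4) ∧
    (((range E.n).filter (fun m => ¬ spec E.n (nbm E.n E.k m) ∧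
      un E.n E.q (nbm E.n E.k m) ∈ B)).card : ℝ) ≤ B.card * (E.n / (E.q : ℝ) ^ 2 + 4) := by
  have hk := hE.k_pos
  have h := hE.k_lt
  have h0 := unit_total E hE B
  constructor
  · refine le_trans ?_ h0
    exact_mod_cast card_le_via (nbp E.n E.k) (nbm E.n E.k) (fun m _ => nbp_lt h m)
      (fun m hm => nbm_nbp hk h hm) (fun v => ¬ spec E.n v ∧ un E.n E.q v ∈ B)
  · refine le_trans ?_ h0
    exact_mod_cast card_le_via (nbm E.n E.k) (nbp E.n E.k) (fun m _ => nbm_lt h m)
      (fun m hm => nbp_nbm hk h hm) (fun v => ¬ spec E.n v ∧ un E.n E.q v ∈ B)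

open Classical in
/-- integers of `[0, 3n]` with residue in a given set -/
theorem res_kill (n w : ℕ) [NeZero w] (R : Finset (ZMod w)) :
    (((Icc (0 : ℤ) (3 * n)).filter (fun y : ℤ => ((y : ℤ) : ZMod w) ∈ R)).card : ℝ)
      ≤ R.card * (3 * n / (w : ℝ) + 2) := by
  have hw : 0 < w := Nat.pos_of_ne_zero (NeZero.ne w)
  have hw' : (0 : ℤ) < w := by exact_mod_cast hw
  have hfib : ∀ r : ZMod w, (((Icc (0 : ℤ) (3 * n)).filter
      (fun y : ℤ => ((y : ℤ) : ZMod w) = r)).card : ℝ) ≤ 3 * n / (w : ℝ) + 2 := by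
    intro r
    have hc : ((Icc (0 : ℤ) (3 * n)).filter (fun y : ℤ => ((y : ℤ) : ZMod w) = r)).card ≤
        (Icc (0 : ℤ) (((3 * n / w : ℕ)) : ℤ)).card := by
      refine card_le_card_of_injOn (fun y : ℤ => y / (w : ℤ)) ?_ ?_
      · intro y hy
        rw [mem_coe, mem_filter, mem_Icc] at hy
        rw [mem_coe, mem_Icc]
        constructor
        · exact Int.ediv_nonneg hy.1.1 hw'.le
        · have h1 : y / (w : ℤ) ≤ (3 * n : ℤ) / (w : ℤ) := Int.ediv_le_ediv hw' hy.1.2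
          have h2 : ((3 * n / w : ℕ) : ℤ) = (3 * n : ℤ) / (w : ℤ) := by push_cast; rfl
          rw [h2]; exact h1
      · intro a ha b hb hab
        rw [mem_coe, mem_filter] at ha hb
        have h1 : ((a : ℤ) : ZMod w) = ((b : ℤ) : ZMod w) := ha.2.trans hb.2.symm
        rw [ZMod.intCast_eq_intCast_iff] at h1
        have h2 : a % (w : ℤ) = b % (w : ℤ) := h1
        have h3 : a / (w : ℤ) = b / (w : ℤ) := hab
        rw [← Int.mul_ediv_add_emod a (w : ℤ), ← Int.mul_ediv_add_emod b (w : ℤ), h2, h3]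
    rw [Int.card_Icc] at hc
    have hc2 : ((Icc (0 : ℤ) (3 * n)).filter (fun y : ℤ => ((y : ℤ) : ZMod w) = r)).card ≤
        3 * n / w + 1 := by
      refine hc.trans ?_
      have h0 : (0 : ℤ) ≤ ((3 * n / w : ℕ) : ℤ) := Int.natCast_nonneg _
      generalize (3 * n / w : ℕ) = c at h0 ⊢
      omega
    have h5 : (((3 * n / w : ℕ)) : ℝ) ≤ (3 * n : ℝ) / (w : ℝ) := by
      refine (Nat.cast_div_le (α := ℝ) (m := 3 * n) (n := w)).trans ?_
      push_cast
      exact le_refl _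
    calc (((Icc (0 : ℤ) (3 * n)).filter (fun y : ℤ => ((y : ℤ) : ZMod w) = r)).card : ℝ)
        ≤ ((3 * n / w + 1 : ℕ) : ℝ) := by exact_mod_cast hc2
      _ = ((3 * n / w : ℕ) : ℝ) + 1 := by push_cast; rfl
      _ ≤ 3 * n / (w : ℝ) + 2 := by linarith
  have h1 : (Icc (0 : ℤ) (3 * n)).filter (fun y : ℤ => ((y : ℤ) : ZMod w) ∈ R) ⊆
      R.biUnion (fun r => (Icc (0 : ℤ) (3 * n)).filter (fun y : ℤ => ((y : ℤ) : ZMod w) = r)) := by
    intro v hv
    rw [mem_filter] at hv
    rw [mem_biUnion]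
    exact ⟨(v : ZMod w), hv.2, mem_filter.mpr ⟨hv.1, rfl⟩⟩
  have h2 := (card_le_card h1).trans card_biUnion_le
  calc (((Icc (0 : ℤ) (3 * n)).filter (fun y : ℤ => ((y : ℤ) : ZMod w) ∈ R)).card : ℝ)
      ≤ ((∑ r ∈ R, ((Icc (0 : ℤ) (3 * n)).filter
          (fun y : ℤ => ((y : ℤ) : ZMod w) = r)).card : ℕ) : ℝ) := by
        exact_mod_cast h2
    _ = ∑ r ∈ R, (((Icc (0 : ℤ) (3 * n)).filter
          (fun y : ℤ => ((y : ℤ) : ZMod w) = r)).card : ℝ) := by
        push_cast; rfl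
    _ ≤ ∑ _r ∈ R, (3 * n / (w : ℝ) + 2) := sum_le_sum (fun r _ => hfib r)
    _ = R.card * (3 * n / (w : ℝ) + 2) := by rw [sum_const, nsmul_eq_mul]

private theorem zall_bd' {n : ℕ} (hn : 1 ≤ n) {x : ℤ} (h : x ∈ zall n) : 0 ≤ x ∧ x ≤ 3 * n := by
  unfold zall at h
  split_ifs at h with h1
  · rw [mem_erase, mem_Icc] at h
    omega
  · rw [mem_Icc] at h
    omega

private theorem n_pos : 1 ≤ E.n := by
  have := E.base.k_lt
  omega

theorem PL_bd {x : ℤ} (h : x ∈ E.PL) : 0 ≤ x ∧ x ≤ 3 * E.n := by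
  simp only [Env.PL, mem_filter] at h
  exact zall_bd' (n_pos E) h.1

theorem zall_bd {x : ℤ} (h : x ∈ zall E.n) : 0 ≤ x ∧ x ≤ 3 * E.n :=
  zall_bd' (n_pos E) h

theorem PD_AA : Disjoint E.PD E.AA := by
  rw [disjoint_left]
  intro d h1 h2
  simp only [Env.PD, mem_filter] at h1
  simp only [Env.AA, mem_filter] at h2
  have a := h1.2.2.2.2
  have b := h2.2.2.2.2.1
  rw [a] at b
  exact absurd b (by decide)

/-- an item is not special, its colours -/
theorem pure_facts (hE : Base E.n E.k E.q E.S E.B0) {ρ : ℝ}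
    (hc : Col E.n E.k E.q ρ E.Bk E.Ck E.Pk) {m : ℕ} (h : E.pureItem m) :
    m < E.n ∧ ¬ spec E.n m ∧ w1 E m ∈ E.Ck ∧ w2 E m ∈ E.Ck ∧
      ¬ spec E.n (nbp E.n E.k m) ∧ ¬ spec E.n (nbm E.n E.k m) := by
  have _ := hE.k_pos
  obtain ⟨hC, _, hp, hm⟩ := h
  have hp' : nbp E.n E.k m ∈ E.B1 := by simpa [Env.nb] using hp
  have hm' : nbm E.n E.k m ∈ E.B1 := by simpa [Env.nb] using hm
  simp only [Env.B1, mem_filter] at hp' hm'
  have hlt : ∀ v, v ∈ E.Bk ∪ E.Ck ∪ E.Pk → v < E.n := by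
    intro v hv
    rw [hc.cover, mem_range] at hv
    exact hv
  have hsB : ∀ v ∈ E.Bk, ¬ spec E.n v := by
    intro v hv hs
    have h1 : v = E.n - 1 := by have := hs.2; omega
    have h2 := hc.special hs.1
    rw [← h1] at h2
    exact (disjoint_left.mp hc.BP hv) h2
  have hsC : ∀ v ∈ E.Ck, ¬ spec E.n v := by
    intro v hv hs
    have h1 : v = E.n - 1 := by have := hs.2; omega
    have h2 := hc.special hs.1
    rw [← h1] at h2
    exact (disjoint_left.mp hc.CP hv) h2
  refine ⟨hlt m (by simp [hC]), hsC m hC, ?_, ?_, hsB _ hp'.1, hsB _ hm'.1⟩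
  · exact (hc.nB _ hp'.1).1
  · exact (hc.nB _ hm'.1).2

end Pool.Agent.PGr.PPk
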