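import Mathlib
import Pool.Agent.PGr.P3D
import Pool.Agent.PGr.PVert

/-!
# PGr-P-3L: labels of the vertices planted first

PLAN. Induction over subsets `Q ⊆ P3` (`Finset.induction_on` for `Q`), statement `Lab Q pl`: all
conditions of `P3Lab` restricted to `Q`: labels of `Q` in `PL ∩ [1.1n, 1.9n]`, injective, spokes in `PD`,
injective; for `v ∈ PP` with `v, nbp v ∈ Q` (`PPQ`) the edge differences in `PD`, injective, different from the
spokes of `Q`; and (G) for EVERY vertex `i < n` (item or planted): for a neighbour `u ∈ Q` of `i`: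
`pl u ≢ anc i`; if both neighbours are in `Q`: `pl (nbp i) ≢ pl (nbm i)`; if `u ∈ Q` and the other neighbour
`u'` of `i` is in `Bk \ P3`: `pl u ≢ cls0 u'` (all modulo q, `red`).
Step `Q → insert v Q`, `v ∈ P3 \ Q`, `a := anc v`: if `nbp v ∈ Q` put `z1 := pl (nbp v)`, otherwise choose an
integer `z1 ∈ [n, 2n]` with `z1 ≢ a` (and the same for `z2` with `nbm v`, also `z2 ≢ z1`); by (G) for `i = v`
the three numbers `a, z1, z2` are pairwise incongruent mod q. `Ok.sv` (SV) gives `≥ c1 n` labels `y`. Exclude: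
`y ∈ pl Q` (`≤ |P3|`), `|y - a|, |y - z1|, |y - z2|` in the set of used differences (`≤ 2 |P3|` differences, two
`y` each: `≤ 12 |P3|`), and the residues mod q: `y ≡ anc i`, `y ≡ pl (u')` or `cls0 (u')` for `i ∈ {nbp v, nbm v}`
and the other neighbour `u'` of `i` (`≤ 4` classes, `res_kill`: `≤ 4 (3n/q+2)`): total
`≤ 13 ε n + o(n) < c1 n` for `ε = c1/20`. Define `pl v := y` (`Function.update`). The new edges of `PPQ` are
`v → nbp v` (if `nbp v ∈ Q`, difference `|y - z1|`) and `nbm v → v` (if `nbm v ∈ Q`, difference `|y - z2|`);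
SV contains that `|y-a|, |y-z1|, |y-z2|` are different.
(The neighbours of a vertex of `P3 ∩ Bk` are items, so edges inside `P3` join vertices of `Pk`: `PP`.)
At the end `Q = P3`: `gen` for `i ∈ Ck`: both neighbours in `P3`: (G); one neighbour `u` in `P3` and the
other one `u'` outside (so `u' ∈ Bk`): `pl u ≢ anc i`, `pl u ≢ cls0 u'` by (G), `anc i ≢ cls0 u'` by `Gen0`; both
outside of `P3`: `Gen0`.
`red q ((x : ℤ) : ZMod (q^2)) = (x : ZMod q)` (`map_intCast`), incongruence as `¬ (q:ℤ) ∣ x - y` via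
`ZMod.intCast_eq_intCast_iff_dvd_sub`.
-/

noncomputable section

namespace Pool.Agent.PGr.PPk

open Finset

section step

variable (E : Env) (P3 : Finset ℕ)

/-- class modulo `q` of the label or of the scheme labels -/
private def oth (Q : Finset ℕ) (pl : ℕ → ℤ) (u : ℕ) : ZMod E.q :=
  if u ∈ Q then ((pl u : ℤ) : ZMod E.q) else red E.q (cls0 E.n E.q u)

/-- indices of the differences: spokes and edges -/
private def idx (Q : Finset ℕ) : Finset (Bool × ℕ) :=
  (Q.image fun v => (false, v)) ∪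
    ((E.PP.filter fun v => v ∈ Q ∧ nbp E.n E.k v ∈ Q).image fun v => (true, v))

private def dfn (pl : ℕ → ℤ) (i : Bool × ℕ) : ℤ :=
  if i.1 = true then ed3 E pl i.2 else sp3 E pl i.2

private theorem dfn_f (pl : ℕ → ℤ) (v : ℕ) : dfn E pl (false, v) = |pl v - anc E.n v| := rfl

private theorem dfn_t (pl : ℕ → ℤ) (v : ℕ) :
    dfn E pl (true, v) = |pl v - pl (nbp E.n E.k v)| := rfl

/-- the conditions for the labels of the vertices of `Q` -/
private structure LabQ (Q : Finset ℕ) (pl : ℕ → ℤ) : Prop where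
  pl_PL : ∀ v ∈ Q, pl v ∈ E.PL ∧ inI E.n (11 / 10) (19 / 10) (pl v)
  pl_inj : ∀ v ∈ Q, ∀ v' ∈ Q, pl v = pl v' → v = v'
  d_PD : ∀ i ∈ idx E Q, dfn E pl i ∈ E.PD
  d_inj : ∀ i ∈ idx E Q, ∀ i' ∈ idx E Q, dfn E pl i = dfn E pl i' → i = i'
  g1 : ∀ i < E.n, ∀ b, E.nb b i ∈ Q →
    ((pl (E.nb b i) : ℤ) : ZMod E.q) ≠ ((anc E.n i : ℤ) : ZMod E.q)
  g2 : ∀ i < E.n, ∀ b, E.nb b i ∈ Q →
    (E.nb (!b) i ∈ Q ∨ (E.nb (!b) i ∈ E.Bk ∧ E.nb (!b) i ∉ P3)) →
      ((pl (E.nb b i) : ℤ) : ZMod E.q) ≠ oth E Q pl (E.nb (!b) i)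

private theorem nb_lt (b : Bool) (i : ℕ) : E.nb b i < E.n := by
  cases b
  · exact nbm_lt E.base.k_lt i
  · exact nbp_lt E.base.k_lt i

private theorem nb_nb (b : Bool) {i : ℕ} (hi : i < E.n) : E.nb (!b) (E.nb b i) = i := by
  cases b
  · exact nbp_nbm E.base.k_pos E.base.k_lt hi
  · exact nbm_nbp E.base.k_pos E.base.k_lt hi

private theorem nb_nb' (b : Bool) {i : ℕ} (hi : i < E.n) : E.nb b (E.nb (!b) i) = i := by
  have := nb_nb E (!b) hi
  rwa [Bool.not_not] at this

private theorem nb_ne (b : Bool) {i : ℕ} (hi : i < E.n) : E.nb b i ≠ i := by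
  cases b
  · exact nbm_ne E.base.k_pos E.base.k_lt hi
  · exact nbp_ne E.base.k_pos E.base.k_lt hi

private theorem nb_ne_nb (b : Bool) {i : ℕ} (hi : i < E.n) : E.nb b i ≠ E.nb (!b) i := by
  cases b
  · exact (nbp_ne_nbm E.base.k_pos E.base.k_lt hi).symm
  · exact nbp_ne_nbm E.base.k_pos E.base.k_lt hi

private theorem idx_card (Q : Finset ℕ) : (idx E Q).card ≤ 2 * Q.card := by
  unfold idx
  refine (card_union_le _ _).trans ?_
  have h1 : (Q.image fun v => (false, v)).card ≤ Q.card := card_image_le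
  have h2 : ((E.PP.filter fun v => v ∈ Q ∧ nbp E.n E.k v ∈ Q).image fun v => (true, v)).card
      ≤ Q.card := by
    refine card_image_le.trans (card_le_card ?_)
    intro v hv
    rw [mem_filter] at hv
    exact hv.2.1
  omega

private theorem choose_z (α β : ZMod E.q) : ∃ z : ℤ, (E.n : ℤ) ≤ z ∧ z ≤ E.n + 2 ∧
    ((z : ℤ) : ZMod E.q) ≠ α ∧ ((z : ℤ) : ZMod E.q) ≠ β := by
  have : Fact E.q.Prime := ⟨E.base.q_prime⟩
  have hq := E.base.q_big
  have h1 : (1 : ZMod E.q) ≠ 0 := one_ne_zero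
  have h2 : (2 : ZMod E.q) ≠ 0 := by
    have h3 : ((2 : ℕ) : ZMod E.q) ≠ 0 := by
      rw [Ne, ZMod.natCast_eq_zero_iff]
      intro h4
      have := Nat.le_of_dvd (by norm_num) h4
      omega
    exact_mod_cast h3
  by_contra hcon
  push Not at hcon
  have e0 := hcon (E.n : ℤ) le_rfl (by omega)
  have e1 := hcon ((E.n : ℤ) + 1) (by omega) (by omega)
  have e2 := hcon ((E.n : ℤ) + 2) (by omega) le_rfl
  push_cast at e0 e1 e2
  have n01 : ((E.n : ℕ) : ZMod E.q) ≠ (E.n : ZMod E.q) + 1 := by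
    intro h
    apply h1
    have : (E.n : ZMod E.q) + 1 - E.n = 0 := by rw [← h]; ring
    linear_combination this
  have n02 : ((E.n : ℕ) : ZMod E.q) ≠ (E.n : ZMod E.q) + 2 := by
    intro h
    apply h2
    have : (E.n : ZMod E.q) + 2 - E.n = 0 := by rw [← h]; ring
    linear_combination this
  have n12 : (E.n : ZMod E.q) + 1 ≠ (E.n : ZMod E.q) + 2 := by
    intro h
    apply h1
    linear_combination -h
  by_cases a0 : ((E.n : ℕ) : ZMod E.q) = α
  · have a1 : (E.n : ZMod E.q) + 1 = β := e1 (fun h => n01 (a0.trans h.symm))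
    have a2 : (E.n : ZMod E.q) + 2 = β := e2 (fun h => n02 (a0.trans h.symm))
    exact n12 (a1.trans a2.symm)
  · have b0 := e0 a0
    by_cases a1 : (E.n : ZMod E.q) + 1 = α
    · have a2 : (E.n : ZMod E.q) + 2 = β := e2 (fun h => n12 (a1.trans h.symm))
      exact n02 (b0.trans a2.symm)
    · exact n01 (b0.trans (e1 a1).symm)

private theorem inc3_iff (a b c : ℤ) : E.inc3 a b c ↔
    ((a : ℤ) : ZMod E.q) ≠ ((b : ℤ) : ZMod E.q) ∧ ((a : ℤ) : ZMod E.q) ≠ ((c : ℤ) : ZMod E.q) ∧
      ((b : ℤ) : ZMod E.q) ≠ ((c : ℤ) : ZMod E.q) := by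
  have key : ∀ x y : ℤ, ¬ (E.q : ℤ) ∣ x - y ↔ ((x : ℤ) : ZMod E.q) ≠ ((y : ℤ) : ZMod E.q) := by
    intro x y
    rw [Ne, eq_comm, ZMod.intCast_eq_intCast_iff_dvd_sub]
  unfold Env.inc3
  rw [key, key, key]

/-- the two reference labels -/
private theorem ref_labels {Q : Finset ℕ} {pl : ℕ → ℤ} (hL : LabQ E P3 Q pl) {v : ℕ}
    (hv : v < E.n) (hn : 20 ≤ E.n) : ∃ z : Bool → ℤ,
    (∀ b, inI E.n (9 / 10) (21 / 10) (z b)) ∧ E.inc3 (anc E.n v) (z true) (z false) ∧
      ∀ b, E.nb b v ∈ Q → z b = pl (E.nb b v) := by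
  have hnr : (20 : ℝ) ≤ E.n := by exact_mod_cast hn
  have hrange : ∀ b, E.nb b v ∈ Q → inI E.n (9 / 10) (21 / 10) (pl (E.nb b v)) := by
    intro b hb
    obtain ⟨h1, h2⟩ := (hL.pl_PL _ hb).2
    constructor <;> linarith
  have hz : ∀ z : ℤ, (E.n : ℤ) ≤ z → z ≤ E.n + 2 → inI E.n (9 / 10) (21 / 10) z := by
    intro z h1 h2
    have h1' : (E.n : ℝ) ≤ z := by exact_mod_cast h1
    have h2' : (z : ℝ) ≤ E.n + 2 := by exact_mod_cast h2
    constructor <;> linarith
  by_cases ht : E.nb true v ∈ Q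
  · by_cases hf : E.nb false v ∈ Q
    · refine ⟨fun b => pl (E.nb b v), ?_, ?_, fun b _ => rfl⟩
      · intro b
        cases b
        · exact hrange false hf
        · exact hrange true ht
      · rw [inc3_iff]
        refine ⟨(hL.g1 v hv true ht).symm, (hL.g1 v hv false hf).symm, ?_⟩
        have h3 := hL.g2 v hv true ht (Or.inl hf)
        unfold oth at h3
        rw [Bool.not_true, if_pos hf] at h3
        exact h3
    · obtain ⟨z, z1, z2, z3, z4⟩ := choose_z E ((anc E.n v : ℤ) : ZMod E.q)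
        ((pl (E.nb true v) : ℤ) : ZMod E.q)
      refine ⟨fun b => if b = true then pl (E.nb true v) else z, ?_, ?_, ?_⟩
      · intro b
        cases b
        · exact hz z z1 z2
        · exact hrange true ht
      · rw [inc3_iff]
        exact ⟨(hL.g1 v hv true ht).symm, z3.symm, z4.symm⟩
      · intro b hb
        cases b
        · exact absurd hb hf
        · rfl
  · by_cases hf : E.nb false v ∈ Q
    · obtain ⟨z, z1, z2, z3, z4⟩ := choose_z E ((anc E.n v : ℤ) : ZMod E.q)
        ((pl (E.nb false v) : ℤ) : ZMod E.q)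
      refine ⟨fun b => if b = true then z else pl (E.nb false v), ?_, ?_, ?_⟩
      · intro b
        cases b
        · exact hrange false hf
        · exact hz z z1 z2
      · rw [inc3_iff]
        exact ⟨z3.symm, (hL.g1 v hv false hf).symm, z4⟩
      · intro b hb
        cases b
        · rfl
        · exact absurd hb ht
    · obtain ⟨z, z1, z2, z3, -⟩ := choose_z E ((anc E.n v : ℤ) : ZMod E.q)
        ((anc E.n v : ℤ) : ZMod E.q)
      obtain ⟨w, w1, w2, w3, w4⟩ := choose_z E ((anc E.n v : ℤ) : ZMod E.q)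
        ((z : ℤ) : ZMod E.q)
      refine ⟨fun b => if b = true then z else w, ?_, ?_, ?_⟩
      · intro b
        cases b
        · exact hz w w1 w2
        · exact hz z z1 z2
      · rw [inc3_iff]
        exact ⟨z3.symm, w3.symm, w4.symm⟩
      · intro b hb
        cases b
        · exact absurd hb hf
        · exact absurd hb ht

/-- the choice of the label -/
private theorem choose_y {c1 : ℝ} (hsv : E.SV c1) {Q : Finset ℕ} {pl : ℕ → ℤ} (hQP : Q ⊆ P3)
    {v : ℕ} (hv : v < E.n) (z : Bool → ℤ) (hz : ∀ b, inI E.n (9 / 10) (21 / 10) (z b))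
    (hinc : E.inc3 (anc E.n v) (z true) (z false)) (R : Finset (ZMod E.q)) (hR : R.card ≤ 4)
    (hcount : 13 * (P3.card : ℝ) + 4 * (3 * E.n / (E.q : ℝ) + 2) < c1 * E.n) :
    ∃ y : ℤ, (y ∈ E.PL ∧ inI E.n (11 / 10) (19 / 10) y) ∧ (|y - anc E.n v| ∈ E.PD ∧
      ∀ b, |y - z b| ∈ E.PD) ∧ ((∀ b, |y - anc E.n v| ≠ |y - z b|) ∧
        |y - z true| ≠ |y - z false|) ∧ (∀ u ∈ Q, pl u ≠ y) ∧
      (∀ i ∈ idx E Q, dfn E pl i ≠ |y - anc E.n v| ∧ ∀ b, dfn E pl i ≠ |y - z b|) ∧
      ((y : ℤ) : ZMod E.q) ∉ R := by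
  classical
  obtain ⟨U, hU⟩ : ∃ U : Finset ℤ, U = (idx E Q).image (dfn E pl) := ⟨_, rfl⟩
  obtain ⟨B2, hB2⟩ : ∃ B2 : ℤ → Finset ℤ, B2 = fun w => U.image (fun d => w + d) ∪
    U.image (fun d => w - d) := ⟨_, rfl⟩
  obtain ⟨B3, hB3⟩ : ∃ B3 : Finset ℤ, B3 = (Icc (0 : ℤ) (3 * E.n)).filter
    (fun y : ℤ => ((y : ℤ) : ZMod E.q) ∈ R) := ⟨_, rfl⟩
  have hcard : (Q.card : ℝ) ≤ P3.card := by exact_mod_cast card_le_card hQP
  have hUc : (U.card : ℝ) ≤ 2 * P3.card := by
    have h1 : U.card ≤ 2 * Q.card := by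
      rw [hU]
      exact card_image_le.trans (idx_card E Q)
    have h2 : (U.card : ℝ) ≤ 2 * Q.card := by exact_mod_cast h1
    linarith
  have hB2c : ∀ w, ((B2 w).card : ℝ) ≤ 4 * P3.card := by
    intro w
    have h1 : (B2 w).card ≤ U.card + U.card := by
      rw [hB2]
      exact (card_union_le _ _).trans (Nat.add_le_add card_image_le card_image_le)
    have h2 : ((B2 w).card : ℝ) ≤ U.card + U.card := by exact_mod_cast h1
    linarith
  have hB3c : (B3.card : ℝ) ≤ 4 * (3 * E.n / (E.q : ℝ) + 2) := by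
    have h1 := res_kill E.n E.q R
    have h2 : (B3.card : ℝ) ≤ R.card * (3 * E.n / (E.q : ℝ) + 2) := by
      rw [hB3]
      convert h1 using 3
    have h3 : (R.card : ℝ) ≤ 4 := by exact_mod_cast hR
    have h4 : (0 : ℝ) ≤ 3 * E.n / (E.q : ℝ) + 2 := by positivity
    exact h2.trans (mul_le_mul_of_nonneg_right h3 h4)
  have hB1c : ((Q.image pl).card : ℝ) ≤ P3.card := by
    have h1 : (Q.image pl).card ≤ Q.card := card_image_le
    have h2 : ((Q.image pl).card : ℝ) ≤ Q.card := by exact_mod_cast h1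
    linarith
  have hS := hsv (anc E.n v) (z true) (z false) (anc_isAnc hv) (hz true) (hz false) hinc
  obtain ⟨S, hSd⟩ : ∃ S : Finset ℤ, S = E.PL.filter (fun y => inI E.n (11 / 10) (19 / 10) y ∧
      |y - anc E.n v| ∈ E.PD ∧ |y - z true| ∈ E.PD ∧ |y - z false| ∈ E.PD ∧
      |y - anc E.n v| ≠ |y - z true| ∧ |y - anc E.n v| ≠ |y - z false| ∧
      |y - z true| ≠ |y - z false|) := ⟨_, rfl⟩
  have hS' : c1 * E.n ≤ (S.card : ℝ) := by
    rw [hSd]
    convert hS using 3
  have hex : ∃ y ∈ S, y ∉ Q.image pl ∪ (B2 (anc E.n v) ∪ (B2 (z true) ∪ (B2 (z false) ∪ B3))) := by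
    by_contra hcon
    push Not at hcon
    have h1 : S.card ≤ (Q.image pl).card + ((B2 (anc E.n v)).card + ((B2 (z true)).card +
        ((B2 (z false)).card + B3.card))) := by
      refine (card_le_card hcon).trans ((card_union_le _ _).trans (Nat.add_le_add_left ?_ _))
      refine (card_union_le _ _).trans (Nat.add_le_add_left ?_ _)
      refine (card_union_le _ _).trans (Nat.add_le_add_left ?_ _)
      exact card_union_le _ _
    have h2 : (S.card : ℝ) ≤ (Q.image pl).card + ((B2 (anc E.n v)).card + ((B2 (z true)).card +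
        ((B2 (z false)).card + B3.card))) := by exact_mod_cast h1
    have h3 := hB2c (anc E.n v)
    have h4 := hB2c (z true)
    have h5 := hB2c (z false)
    linarith
  obtain ⟨y, hyS, hyB⟩ := hex
  rw [hSd, mem_filter] at hyS
  obtain ⟨hyPL, hyI, p0, p1, p2, n0, n1, n2⟩ := hyS
  rw [mem_union, mem_union, mem_union, mem_union, not_or, not_or, not_or, not_or] at hyB
  obtain ⟨b1, b2, b3, b4, b5⟩ := hyB
  have hkey : ∀ w, y ∉ B2 w → ∀ i ∈ idx E Q, dfn E pl i ≠ |y - w| := by
    intro w hw i hi he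
    apply hw
    rw [hB2]
    have hm : dfn E pl i ∈ U := by
      rw [hU]
      exact mem_image_of_mem _ hi
    rw [mem_union, mem_image, mem_image]
    rcases abs_choice (y - w) with h | h
    · left
      exact ⟨dfn E pl i, hm, by rw [he, h]; ring⟩
    · right
      exact ⟨dfn E pl i, hm, by rw [he, h]; ring⟩
  refine ⟨y, ⟨hyPL, hyI⟩, ⟨p0, ?_⟩, ⟨?_, n2⟩, ?_, ?_, ?_⟩
  · intro b
    cases b
    · exact p2
    · exact p1
  · intro b
    cases b
    · exact n1
    · exact n0
  · intro u hu he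
    apply b1
    rw [mem_image]
    exact ⟨u, hu, he⟩
  · intro i hi
    refine ⟨hkey _ b2 i hi, ?_⟩
    intro b
    cases b
    · exact hkey _ b4 i hi
    · exact hkey _ b3 i hi
  · intro hyR
    apply b5
    rw [hB3, mem_filter, mem_Icc]
    exact ⟨PL_bd E hyPL, hyR⟩

private theorem step {c1 : ℝ} (hsv : E.SV c1) {Q : Finset ℕ} {pl : ℕ → ℤ}
    (hL : LabQ E P3 Q pl) (hQP : Q ⊆ P3) {v : ℕ} (hv : v < E.n) (hvQ : v ∉ Q) (hvP : v ∈ P3)
    (hn : 20 ≤ E.n) (hPkn : ∀ u ∈ E.Pk, u < E.n)
    (hcount : 13 * (P3.card : ℝ) + 4 * (3 * E.n / (E.q : ℝ) + 2) < c1 * E.n) :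
    ∃ pl' : ℕ → ℤ, LabQ E P3 (insert v Q) pl' := by
  classical
  obtain ⟨z, hz, hinc, hzp⟩ := ref_labels E P3 hL hv hn
  obtain ⟨y, hy1, hy2, hy3, hy4, hy5, hy6⟩ := choose_y E P3 hsv (pl := pl) hQP hv z hz hinc
    {((anc E.n (E.nb true v) : ℤ) : ZMod E.q), ((anc E.n (E.nb false v) : ℤ) : ZMod E.q),
      oth E Q pl (E.nb true (E.nb true v)), oth E Q pl (E.nb false (E.nb false v))}
    card_le_four hcount
  simp only [mem_insert, mem_singleton, not_or] at hy6
  obtain ⟨r1, r2, r3, r4⟩ := hy6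
  have ranc : ∀ b, ((y : ℤ) : ZMod E.q) ≠ ((anc E.n (E.nb b v) : ℤ) : ZMod E.q) := by
    intro b
    cases b
    · exact r2
    · exact r1
  have roth : ∀ b, ((y : ℤ) : ZMod E.q) ≠ oth E Q pl (E.nb b (E.nb b v)) := by
    intro b
    cases b
    · exact r4
    · exact r3
  have hup : Function.update pl v y v = y := Function.update_self v y pl
  have hne : ∀ u, u ≠ v → Function.update pl v y u = pl u := fun u hu =>
    Function.update_of_ne hu y pl
  have hQne : ∀ u ∈ Q, u ≠ v := by
    rintro u hu rfl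
    exact hvQ hu
  have hoth : ∀ u, u ≠ v → oth E (insert v Q) (Function.update pl v y) u = oth E Q pl u := by
    intro u hu
    unfold oth
    by_cases h1 : u ∈ Q
    · rw [if_pos h1, if_pos (mem_insert_of_mem h1), hne u hu]
    · rw [if_neg h1, if_neg]
      rw [mem_insert]
      rintro (h2 | h2)
      · exact hu h2
      · exact h1 h2
  -- classification of the indices
  have hcl : ∀ i ∈ idx E (insert v Q),
      (i ∈ idx E Q ∧ dfn E (Function.update pl v y) i = dfn E pl i) ∨
      (i = (false, v) ∧ dfn E (Function.update pl v y) i = |y - anc E.n v|) ∨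
      (i = (true, v) ∧ dfn E (Function.update pl v y) i = |y - z true|) ∨
      (i = (true, E.nb false v) ∧ dfn E (Function.update pl v y) i = |y - z false|) := by
    intro i hi
    unfold idx at hi
    rw [mem_union, mem_image, mem_image] at hi
    rcases hi with ⟨u, hu, rfl⟩ | ⟨u, hu, rfl⟩
    · rw [mem_insert] at hu
      by_cases huv : u = v
      · right; left
        subst huv
        refine ⟨rfl, ?_⟩
        rw [dfn_f, hup]
      · have huQ : u ∈ Q := hu.resolve_left huv
        left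
        refine ⟨?_, ?_⟩
        · unfold idx
          rw [mem_union, mem_image]
          exact Or.inl ⟨u, huQ, rfl⟩
        · rw [dfn_f, dfn_f, hne u huv]
    · rw [mem_filter] at hu
      obtain ⟨huPP, hu1, hu2⟩ := hu
      have hun : u < E.n := by
        have h2 : u ∈ E.PP := huPP
        unfold Env.PP at h2
        rw [mem_filter] at h2
        exact hPkn u h2.1
      by_cases huv : u = v
      · have h3 : nbp E.n E.k u ∈ Q := by
          rw [mem_insert] at hu2
          rcases hu2 with h4 | h4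
          · exfalso
            exact nb_ne E true hun (h4.trans huv.symm)
          · exact h4
        right; right; left
        subst huv
        refine ⟨rfl, ?_⟩
        have h4 : z true = pl (nbp E.n E.k u) := hzp true h3
        rw [dfn_t, hup, hne (nbp E.n E.k u) (nb_ne E true hun), h4]
      · have huQ : u ∈ Q := by
          rw [mem_insert] at hu1
          exact hu1.resolve_left huv
        by_cases h3 : nbp E.n E.k u = v
        · right; right; right
          have h4 : E.nb false v = u := by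
            rw [← h3]
            exact nb_nb E true hun
          refine ⟨by rw [h4], ?_⟩
          have h5 : z false = pl u := by
            rw [hzp false (by rw [h4]; exact huQ), h4]
          rw [dfn_t, h3, hup, hne u huv, h5, abs_sub_comm]
        · have h4 : nbp E.n E.k u ∈ Q := by
            rw [mem_insert] at hu2
            exact hu2.resolve_left h3
          left
          refine ⟨?_, ?_⟩
          · unfold idx
            rw [mem_union, mem_image, mem_image]
            exact Or.inr ⟨u, mem_filter.2 ⟨huPP, huQ, h4⟩, rfl⟩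
          · rw [dfn_t, dfn_t, hne u huv, hne _ h3]
  refine ⟨Function.update pl v y, ?_, ?_, ?_, ?_, ?_, ?_⟩
  · intro u hu
    rw [mem_insert] at hu
    by_cases huv : u = v
    · rw [huv, hup]
      exact hy1
    · rw [hne u huv]
      exact hL.pl_PL u (hu.resolve_left huv)
  · intro u hu u' hu' he
    rw [mem_insert] at hu hu'
    by_cases huv : u = v
    · by_cases huv' : u' = v
      · rw [huv, huv']
      · exfalso
        rw [huv, hup, hne u' huv'] at he
        exact hy4 u' (hu'.resolve_left huv') he.symm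
    · by_cases huv' : u' = v
      · exfalso
        rw [huv', hup, hne u huv] at he
        exact hy4 u (hu.resolve_left huv) he
      · rw [hne u huv, hne u' huv'] at he
        exact hL.pl_inj u (hu.resolve_left huv) u' (hu'.resolve_left huv') he
  · intro i hi
    rcases hcl i hi with ⟨h1, h2⟩ | ⟨h1, h2⟩ | ⟨h1, h2⟩ | ⟨h1, h2⟩
    · rw [h2]; exact hL.d_PD i h1
    · rw [h2]; exact hy2.1
    · rw [h2]; exact hy2.2 true
    · rw [h2]; exact hy2.2 false
  · intro i hi i' hi' he
    rcases hcl i hi with ⟨h1, h2⟩ | ⟨h1, h2⟩ | ⟨h1, h2⟩ | ⟨h1, h2⟩ <;>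
    rcases hcl i' hi' with ⟨h1', h2'⟩ | ⟨h1', h2'⟩ | ⟨h1', h2'⟩ | ⟨h1', h2'⟩ <;>
    rw [h2, h2'] at he
    · exact hL.d_inj i h1 i' h1' he
    · exact absurd he (hy5 i h1).1
    · exact absurd he ((hy5 i h1).2 true)
    · exact absurd he ((hy5 i h1).2 false)
    · exact absurd he.symm (hy5 i' h1').1
    · rw [h1, h1']
    · exact absurd he (hy3.1 true)
    · exact absurd he (hy3.1 false)
    · exact absurd he.symm ((hy5 i' h1').2 true)
    · exact absurd he.symm (hy3.1 true)
    · rw [h1, h1']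
    · exact absurd he hy3.2
    · exact absurd he.symm ((hy5 i' h1').2 false)
    · exact absurd he.symm (hy3.1 false)
    · exact absurd he.symm hy3.2
    · rw [h1, h1']
  · intro i hi b hb
    rw [mem_insert] at hb
    by_cases h1 : E.nb b i = v
    · have h2 : i = E.nb (!b) v := by
        rw [← h1]
        exact (nb_nb E b hi).symm
      rw [h1, hup, h2]
      exact ranc _
    · rw [hne _ h1]
      exact hL.g1 i hi b (hb.resolve_left h1)
  · intro i hi b hb hb'
    rw [mem_insert] at hb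
    by_cases h1 : E.nb b i = v
    · have h2 : i = E.nb (!b) v := by
        rw [← h1]
        exact (nb_nb E b hi).symm
      have h3 : E.nb (!b) i ≠ v := by
        rw [← h1]
        exact (nb_ne_nb E b hi).symm
      rw [hoth _ h3, h1, hup, h2]
      exact roth _
    · have hbQ := hb.resolve_left h1
      by_cases h2 : E.nb (!b) i = v
      · have h3 : i = E.nb b v := by
          rw [← h2]
          exact (nb_nb' E b hi).symm
        rw [hne _ h1]
        have h4 := roth b
        rw [← h3] at h4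
        unfold oth at h4 ⊢
        rw [if_pos hbQ] at h4
        rw [h2, if_pos (mem_insert_self v Q), hup]
        exact h4.symm
      · rw [hne _ h1, hoth _ h2]
        refine hL.g2 i hi b hbQ ?_
        rcases hb' with h3 | h3
        · rw [mem_insert] at h3
          exact Or.inl (h3.resolve_left h2)
        · exact Or.inr h3

end step

theorem p3lab_exists (c1 : ℝ) (hc1 : 0 < c1) : ∃ ε : ℝ, 0 < ε ∧ ∃ n0 : ℕ,
    ∀ (E : Env) (κ1 ρ : ℝ) (P3 : Finset ℕ) (Bd : Finset (ZMod (E.q ^ 2))), n0 ≤ E.n →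
      E.Ok κ1 ρ c1 → P3Set E P3 Bd ε → ∃ pl3 : ℕ → ℤ, P3Lab E P3 pl3 := by
  obtain ⟨M, hM⟩ := exists_nat_gt (48 / c1)
  obtain ⟨M2, hM2⟩ := exists_nat_gt (32 / c1)
  refine ⟨c1 / 26, by positivity, M ^ 8 + M2 + 20, ?_⟩
  intro E κ1 ρ P3 Bd hn hOk hP
  have hM0 : (0 : ℝ) < M := lt_trans (by positivity) hM
  have hqM : (M : ℝ) ≤ E.q := by
    by_contra hcon
    push Not at hcon
    have h1 : E.q < M := by exact_mod_cast hcon
    have h2 : E.q ^ 8 ≤ M ^ 8 := Nat.pow_le_pow_left h1.le 8
    have h3 := E.base.q_low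
    omega
  have hq0 : (0 : ℝ) < E.q := lt_of_lt_of_le hM0 hqM
  have hn1 : (M2 : ℝ) ≤ E.n := by
    have h1 : M2 ≤ E.n := by omega
    exact_mod_cast h1
  have hn0 : (0 : ℝ) < E.n := by
    have h1 : 0 < E.n := by omega
    exact_mod_cast h1
  have hcount : 13 * (P3.card : ℝ) + 4 * (3 * E.n / (E.q : ℝ) + 2) < c1 * E.n := by
    have h1 := hP.card
    have h2 : 3 * E.n / (E.q : ℝ) ≤ c1 * E.n / 16 := by
      rw [div_le_div_iff₀ hq0 (by norm_num)]
      have h3 : 48 ≤ c1 * E.q := by
        have h4 : 48 / c1 ≤ E.q := le_trans hM.le hqM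
        rwa [div_le_iff₀ hc1, mul_comm] at h4
      nlinarith
    have h5 : 32 < c1 * E.n := by
      have h6 : 32 / c1 < E.n := lt_of_lt_of_le hM2 hn1
      rwa [div_lt_iff₀ hc1, mul_comm] at h6
    have h7 : c1 / 26 * (E.n : ℝ) = c1 * E.n / 26 := by ring
    rw [h7] at h1
    linarith
  have hlt : ∀ v ∈ P3, v < E.n := by
    intro v hv
    have h1 := hP.P_sub hv
    have h2 := hOk.col.cover
    rw [← mem_range, ← h2]
    rw [mem_union] at h1 ⊢
    rw [mem_union]
    tauto
  have hind : ∀ Q : Finset ℕ, Q ⊆ P3 → ∃ pl : ℕ → ℤ, LabQ E P3 Q pl := by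
    intro Q
    induction Q using Finset.induction_on with
    | empty =>
      intro _
      refine ⟨fun _ => 0, ?_, ?_, ?_, ?_, ?_, ?_⟩
      · intro v hv; simp at hv
      · intro v hv; simp at hv
      · intro i hi; simp [idx] at hi
      · intro i hi; simp [idx] at hi
      · intro i _ b hb; simp at hb
      · intro i _ b hb; simp at hb
    | insert v Q hvQ ih =>
      intro hsub
      obtain ⟨pl, hpl⟩ := ih ((subset_insert v Q).trans hsub)
      have hvP : v ∈ P3 := hsub (mem_insert_self v Q)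
      exact step E P3 hOk.sv hpl ((subset_insert v Q).trans hsub) (hlt v hvP) hvQ hvP
        (by omega) (fun u hu => hlt u (hP.Pk_sub hu)) hcount
  obtain ⟨pl, hpl⟩ := hind P3 (Subset.refl _)
  have hsp : ∀ v ∈ P3, (false, v) ∈ idx E P3 := by
    intro v hv
    unfold idx
    rw [mem_union, mem_image]
    exact Or.inl ⟨v, hv, rfl⟩
  have hed : ∀ v ∈ E.PP, (true, v) ∈ idx E P3 := by
    intro v hv
    unfold idx
    rw [mem_union, mem_image, mem_image]
    refine Or.inr ⟨v, mem_filter.2 ⟨hv, ?_, ?_⟩, rfl⟩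
    · unfold Env.PP at hv
      rw [mem_filter] at hv
      exact hP.Pk_sub hv.1
    · unfold Env.PP at hv
      rw [mem_filter] at hv
      exact hP.Pk_sub hv.2
  refine ⟨pl, hpl.pl_PL, hpl.pl_inj, ?_, ?_, ?_, ?_, ?_, ?_⟩
  · intro v hv
    exact hpl.d_PD (false, v) (hsp v hv)
  · intro v hv v' hv' he
    have := hpl.d_inj (false, v) (hsp v hv) (false, v') (hsp v' hv') he
    exact congrArg Prod.snd this
  · intro v hv
    exact hpl.d_PD (true, v) (hed v hv)
  · intro v hv v' hv' he
    have := hpl.d_inj (true, v) (hed v hv) (true, v') (hed v' hv') he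
    exact congrArg Prod.snd this
  · intro v hv v' hv' he
    have := hpl.d_inj (false, v) (hsp v hv) (true, v') (hed v' hv') he
    exact absurd (congrArg Prod.fst this) Bool.false_ne_true
  · intro i hi
    have hin : i < E.n := by
      have h2 := hOk.col.cover
      rw [← mem_range, ← h2, mem_union, mem_union]
      exact Or.inl (Or.inr hi)
    obtain ⟨c2, c3⟩ := hOk.col.nC i hi
    have hPB : ∀ u, u ∈ E.Bk ∪ E.Pk → u ∉ P3 → u ∈ E.Bk ∧ u ∉ P3 := by
      intro u hu hu2
      rw [mem_union] at hu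
      rcases hu with h3 | h3
      · exact ⟨h3, hu2⟩
      · exact absurd (hP.Pk_sub h3) hu2
    have hred : ∀ x : ℤ, red E.q ((x : ℤ) : ZMod (E.q ^ 2)) = ((x : ℤ) : ZMod E.q) := by
      intro x
      exact map_intCast (red E.q) x
    by_cases h1 : nbp E.n E.k i ∈ P3
    · by_cases h2 : nbm E.n E.k i ∈ P3
      · have g1 := hpl.g1 i hin true h1
        have g2 := hpl.g1 i hin false h2
        have g3 := hpl.g2 i hin true h1 (Or.inl h2)
        unfold oth at g3
        rw [Bool.not_true, if_pos (show E.nb false i ∈ P3 from h2)] at g3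
        unfold red3 clw
        rw [if_pos h1, if_pos h2, hred, hred, hred]
        exact ⟨g1.symm, g2.symm, g3⟩
      · have g1 := hpl.g1 i hin true h1
        have g3 := hpl.g2 i hin true h1 (Or.inr (hPB _ c3 h2))
        unfold oth at g3
        rw [Bool.not_true, if_neg (show ¬ E.nb false i ∈ P3 from h2)] at g3
        have g4 := hP.gen0 i hi (Or.inr h2)
        unfold red3 clw
        unfold red3 at g4
        rw [hred] at g4
        rw [if_pos h1, if_neg h2, hred, hred]
        exact ⟨g1.symm, g4.2.1, g3⟩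
    · by_cases h2 : nbm E.n E.k i ∈ P3
      · have g1 := hpl.g1 i hin false h2
        have g3 := hpl.g2 i hin false h2 (Or.inr (hPB _ c2 h1))
        unfold oth at g3
        rw [Bool.not_false, if_neg (show ¬ E.nb true i ∈ P3 from h1)] at g3
        have g4 := hP.gen0 i hi (Or.inl h1)
        unfold red3 clw
        unfold red3 at g4
        rw [hred] at g4
        rw [if_neg h1, if_pos h2, hred, hred]
        exact ⟨g4.1, g1.symm, g3.symm⟩
      · have g4 := hP.gen0 i hi (Or.inl h1)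
        unfold clw
        rw [if_neg h1, if_neg h2]
        exact g4

end Pool.Agent.PGr.PPk
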