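import Mathlib
import Pool.Agent.PGr.P3D
import Pool.Agent.PGr.PVert

/-!
# PGr-P-3S: the set of the vertices planted first

PLAN. `P3 := Pk ∪ {v ∈ Bk : v not in V_s} ∪ {v ∈ B1 : y0 v ∉ zall or |y0 v - anc v| ∉ dall} ∪ {v ∈ Bk : v is a
neighbour of an item i ∈ Ck which is not generic (red3 fails for anc i, cls0 (nbp i), cls0 (nbm i))}`.
* owners: `y0 v ∈ [n, 2n)` (`in_win`); `y0 v ∉ zall` only if `n` is even and `y0 v = 3(n/2)`: at most one
  such `v` (`in_lab`); `|y0 v - anc v| ∈ [1, 2n] \ dall` is one of `n+1, 3(n/2), (n-1)/2`: at most 3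
  such `v` (`in_spo`).
* items in `Ck` are not special (`special ∈ Pk`, disjoint); the non generic items with non special
  neighbours (`nsp`) are counted by `in_gen`: at most `100 (n/q + 1)`; at most 2 items have a special
  neighbour (`i = nbm (n-1)` or `i = nbp (n-1)`); two neighbours each: at most `200 (n/q+1) + 4`.
* `Gen0`: an item `i ∈ Ck` with a neighbour `v` outside of `P3`: `v ∈ Bk` (`nC`, `Pk ⊆ P3`), so `i` is generic.
* cardinality: `|Pk| ≤ ρ n`, `20 q^2`, `4`, `200 (n/q+1) + 4`: `≤ 2 ρ n ≤ κ n` for large `n` (`n/q, q^2 = o(n)`: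
  `q^6 ≤ n ≤ q^8`).
* load: `Bk ∩ P3 ⊆ R := P3 \ Pk` (`Bk, Pk` disjoint), `|R| ≤ 20 q^2 + 8 + 200 (n/q+1)`. `Bd := {u : #{v ∈ R :
  un v = u} > κ n / q^2}`; `|Bd| κ n / q^2 ≤ |R|`, so `|Bd| ≤ q^2 |R| / (κ n) ≤ q^2 / √q` for large `n` because
  `|R| √q ≤ κ n` (`|R| ≤ 21 q^2 + 400 n/q`, `q^2 √q ≤ n/ q^3`, `√q / q → 0`).
So `ρ := min κ 1 / 2`.
-/

noncomputable section

namespace Pool.Agent.PGr.PPk

open Finset

/-- the item `i` is not generic -/
private def bad0 (E : Env) (i : ℕ) : Prop :=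
  ¬ red3 E.q ((anc E.n i : ℤ) : ZMod (E.q ^ 2)) (cls0 E.n E.q (nbp E.n E.k i))
      (cls0 E.n E.q (nbm E.n E.k i))

open Classical in
private def RA (E : Env) : Finset ℕ := E.Bk.filter (fun v => ¬ inVS E.n E.q E.S E.B0 v)

open Classical in
private def RB (E : Env) : Finset ℕ := E.B1.filter (fun v => E.y0 v ∉ zall E.n)

open Classical in
private def RC (E : Env) : Finset ℕ := E.B1.filter (fun v => |E.y0 v - anc E.n v| ∉ dall E.n)

open Classical in
private def RI (E : Env) : Finset ℕ := E.Ck.filter (fun i => bad0 E i)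

private def RD (E : Env) : Finset ℕ :=
  ((RI E).image (nbp E.n E.k) ∪ (RI E).image (nbm E.n E.k)) ∩ E.Bk

private def RR (E : Env) : Finset ℕ := RA E ∪ RB E ∪ RC E ∪ RD E

open Classical in
private theorem mem_B1 {E : Env} {v : ℕ} (h : v ∈ E.B1) :
    v ∈ E.Bk ∧ inVS E.n E.q E.S E.B0 v := by
  unfold Env.B1 at h
  rw [mem_filter] at h
  exact h

open Classical in
private theorem RR_sub (E : Env) : RR E ⊆ E.Bk := by
  intro v hv
  unfold RR at hv
  rw [mem_union, mem_union, mem_union] at hv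
  rcases hv with ((hv | hv) | hv) | hv
  · unfold RA at hv
    exact (mem_filter.mp hv).1
  · unfold RB at hv
    exact (mem_B1 (mem_filter.mp hv).1).1
  · unfold RC at hv
    exact (mem_B1 (mem_filter.mp hv).1).1
  · unfold RD at hv
    exact (mem_inter.mp hv).2

open Classical in
private theorem RA_card {E : Env} {ρ : ℝ} (hc : Col E.n E.k E.q ρ E.Bk E.Ck E.Pk) :
    (RA E).card ≤ 20 * E.q ^ 2 := by
  refine le_trans (card_le_card ?_) (in_vs E.base)
  intro v hv
  unfold RA at hv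
  rw [mem_filter] at hv ⊢
  refine ⟨?_, hv.2⟩
  rw [← hc.cover]
  exact mem_union_left _ (mem_union_left _ hv.1)

private theorem RB_card (E : Env) : (RB E).card ≤ 1 := by
  have h : ∀ v ∈ RB E, E.y0 v = 3 * ((E.n / 2 : ℕ) : ℤ) := by
    intro v hv
    unfold RB at hv
    rw [mem_filter] at hv
    obtain ⟨h1, h2⟩ := hv
    obtain ⟨w1, w2, w3, w4⟩ := in_win E.base v (mem_B1 h1).2 (E.th0 (un E.n E.q v))
    change (E.n : ℤ) ≤ E.y0 v at w1
    change E.y0 v < 2 * E.n at w2
    unfold zall at h2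
    by_contra hc
    apply h2
    split_ifs with hn
    · rw [mem_erase, mem_Icc]
      refine ⟨hc, ?_, ?_⟩
      · omega
      · omega
    · rw [mem_Icc]
      refine ⟨?_, ?_⟩
      · omega
      · omega
  rw [card_le_one]
  intro a ha b hb
  have e : E.y0 a = E.y0 b := (h a ha).trans (h b hb).symm
  unfold RB at ha hb
  rw [mem_filter] at ha hb
  exact in_lab E.base E.th0 a b (mem_B1 ha.1).2 (mem_B1 hb.1).2 e

private theorem RC_card (E : Env) : (RC E).card ≤ 3 := by
  have hcard : ({(E.n : ℤ) + 1, 3 * ((E.n / 2 : ℕ) : ℤ), (((E.n - 1) / 2 : ℕ) : ℤ)} :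
      Finset ℤ).card ≤ 3 := card_le_three
  refine le_trans (card_le_card_of_injOn (fun v => |E.y0 v - anc E.n v|) ?_ ?_) hcard
  · intro v hv
    rw [mem_coe] at hv ⊢
    unfold RC at hv
    rw [mem_filter] at hv
    obtain ⟨h1, h2⟩ := hv
    obtain ⟨w1, w2, w3, w4⟩ := in_win E.base v (mem_B1 h1).2 (E.th0 (un E.n E.q v))
    change 1 ≤ |E.y0 v - anc E.n v| at w3
    change |E.y0 v - anc E.n v| ≤ 2 * E.n at w4
    show |E.y0 v - anc E.n v| ∈ _
    generalize |E.y0 v - anc E.n v| = d at *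
    rw [mem_insert, mem_insert, mem_singleton]
    by_contra hc
    push Not at hc
    apply h2
    unfold dall
    split_ifs with hn
    · rw [mem_erase, mem_erase, mem_Icc]
      refine ⟨hc.2.1, hc.1, w3, ?_⟩
      omega
    · rw [mem_erase, mem_Icc]
      refine ⟨hc.2.2, w3, ?_⟩
      omega
  · intro a ha b hb hab
    rw [mem_coe] at ha hb
    unfold RC at ha hb
    rw [mem_filter] at ha hb
    exact in_spo E.base E.th0 a b (mem_B1 ha.1).2 (mem_B1 hb.1).2 hab

open Classical in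
private theorem RI_card {E : Env} {ρ : ℝ} (hc : Col E.n E.k E.q ρ E.Bk E.Ck E.Pk) :
    ((RI E).card : ℝ) ≤ 100 * (E.n / (E.q : ℝ) + 1) + 2 := by
  have hsub : RI E ⊆ (range E.n).filter (fun i => nsp E.n E.k i ∧
      ¬ red3 E.q ((anc E.n i : ℤ) : ZMod (E.q ^ 2)) (cls0 E.n E.q (nbp E.n E.k i))
      (cls0 E.n E.q (nbm E.n E.k i))) ∪ {nbm E.n E.k (E.n - 1), nbp E.n E.k (E.n - 1)} := by
    intro i hi
    unfold RI at hi
    rw [mem_filter] at hi
    obtain ⟨h1, h2⟩ := hi
    have hin : i < E.n := by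
      rw [← mem_range, ← hc.cover]
      exact mem_union_left _ (mem_union_right _ h1)
    have hsp : ¬ spec E.n i := by
      intro hs
      have h3 := hc.special hs.1
      have h4 : i = E.n - 1 := by
        have := hs.2
        omega
      rw [← h4] at h3
      exact (disjoint_left.mp hc.CP h1) h3
    rw [mem_union]
    by_cases hn : nsp E.n E.k i
    · left
      rw [mem_filter, mem_range]
      exact ⟨hin, hn, h2⟩
    · right
      rw [mem_insert, mem_singleton]
      unfold nsp at hn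
      have h5 : spec E.n (nbp E.n E.k i) ∨ spec E.n (nbm E.n E.k i) := by
        by_contra hcc
        push Not at hcc
        exact hn ⟨hin, hsp, hcc.1, hcc.2⟩
      rcases h5 with h5 | h5
      · left
        have e : nbp E.n E.k i = E.n - 1 := by
          have := h5.2
          omega
        rw [← e, nbm_nbp E.base.k_pos E.base.k_lt hin]
      · right
        have e : nbm E.n E.k i = E.n - 1 := by
          have := h5.2
          omega
        rw [← e, nbp_nbm E.base.k_pos E.base.k_lt hin]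
  have h1 := (card_le_card hsub).trans (card_union_le _ _)
  have h2 := in_gen E.base
  have h3 : ({nbm E.n E.k (E.n - 1), nbp E.n E.k (E.n - 1)} : Finset ℕ).card ≤ 2 := card_le_two
  have h4 : ((RI E).card : ℝ) ≤ (((range E.n).filter (fun i => nsp E.n E.k i ∧
      ¬ red3 E.q ((anc E.n i : ℤ) : ZMod (E.q ^ 2)) (cls0 E.n E.q (nbp E.n E.k i))
      (cls0 E.n E.q (nbm E.n E.k i)))).card : ℝ) + 2 := by
    exact_mod_cast h1.trans (Nat.add_le_add_left h3 _)
  linarith

private theorem RD_card {E : Env} {ρ : ℝ} (hc : Col E.n E.k E.q ρ E.Bk E.Ck E.Pk) :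
    ((RD E).card : ℝ) ≤ 200 * (E.n / (E.q : ℝ) + 1) + 4 := by
  have h1 : (RD E).card ≤ (RI E).card + (RI E).card := by
    unfold RD
    exact (card_le_card inter_subset_left).trans ((card_union_le _ _).trans
      (Nat.add_le_add card_image_le card_image_le))
  have h2 := RI_card hc
  have h3 : ((RD E).card : ℝ) ≤ (RI E).card + (RI E).card := by exact_mod_cast h1
  linarith

private theorem RR_card {E : Env} {ρ : ℝ} (hc : Col E.n E.k E.q ρ E.Bk E.Ck E.Pk) :
    ((RR E).card : ℝ) ≤ 428 * (E.n / (E.q : ℝ)) := by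
  have h1 : (RR E).card ≤ (RA E).card + (RB E).card + (RC E).card + (RD E).card := by
    unfold RR
    exact (card_union_le _ _).trans (Nat.add_le_add_right ((card_union_le _ _).trans
      (Nat.add_le_add_right (card_union_le _ _) _)) _)
  have hA := RA_card hc
  have hB := RB_card E
  have hC := RC_card E
  have hD := RD_card hc
  have h2 : ((RR E).card : ℝ) ≤ 20 * (E.q : ℝ) ^ 2 + 4 + (RD E).card := by
    have : (RR E).card ≤ 20 * E.q ^ 2 + 4 + (RD E).card := by omega
    exact_mod_cast this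
  have hq17 : (17 : ℝ) < E.q := by exact_mod_cast E.base.q_big
  have hq0 : (0 : ℝ) < E.q := by linarith
  have hn : (E.q : ℝ) ^ 6 ≤ E.n := by exact_mod_cast E.base.q_high
  have h3 : (E.q : ℝ) ^ 5 ≤ E.n / (E.q : ℝ) := by
    rw [le_div_iff₀ hq0]
    have h6 : (E.q : ℝ) ^ 5 * (E.q : ℝ) = (E.q : ℝ) ^ 6 := by ring
    rw [h6]
    exact hn
  have h4 : (E.q : ℝ) ^ 2 ≤ (E.q : ℝ) ^ 5 := pow_le_pow_right₀ (by linarith) (by norm_num)
  have h5 : (1 : ℝ) ≤ (E.q : ℝ) ^ 5 := one_le_pow₀ (by linarith)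
  nlinarith

theorem p3set_exists (κ : ℝ) (hκ : 0 < κ) : ∃ ρ : ℝ, 0 < ρ ∧ ρ ≤ κ ∧ ∃ n0 : ℕ,
    ∀ (E : Env) (κ1 c1 : ℝ), n0 ≤ E.n → E.Ok κ1 ρ c1 →
      ∃ (P3 : Finset ℕ) (Bd : Finset (ZMod (E.q ^ 2))), P3Set E P3 Bd κ := by
  classical
  refine ⟨min κ 1 / 2, ?_, ?_, ⌈(428 / κ) ^ 2⌉₊ ^ 8, ?_⟩
  · have : 0 < min κ 1 := lt_min hκ one_pos
    linarith
  · have h1 : 0 < min κ 1 := lt_min hκ one_pos
    have h2 : min κ 1 ≤ κ := min_le_left _ _
    linarith
  intro E κ1 c1 hn0 hok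
  have hc := hok.col
  have hn8 : ⌈(428 / κ) ^ 2⌉₊ ≤ E.q := by
    have h1 : ⌈(428 / κ) ^ 2⌉₊ ^ 8 ≤ E.q ^ 8 := hn0.trans E.base.q_low
    exact (Nat.pow_le_pow_iff_left (by norm_num)).mp h1
  have hq17 : (17 : ℝ) < E.q := by exact_mod_cast E.base.q_big
  have hq0 : (0 : ℝ) < E.q := by linarith
  have hsq : 428 / κ ≤ √(E.q : ℝ) := by
    apply Real.le_sqrt_of_sq_le
    exact (Nat.le_ceil _).trans (by exact_mod_cast hn8)
  have hs0 : 0 < √(E.q : ℝ) := Real.sqrt_pos.mpr hq0
  have hss : √(E.q : ℝ) * √(E.q : ℝ) = E.q := Real.mul_self_sqrt hq0.le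
  have hs2 : 2 ≤ √(E.q : ℝ) := by
    apply Real.le_sqrt_of_sq_le
    linarith
  have hqn : (E.q : ℝ) ^ 6 ≤ E.n := by exact_mod_cast E.base.q_high
  have hnpos : (0 : ℝ) < E.n := lt_of_lt_of_le (by positivity) hqn
  -- the main estimate
  have hR : ((RR E).card : ℝ) * √(E.q : ℝ) ≤ κ * E.n := by
    have h1 := RR_card hc
    have h2 : (E.n : ℝ) / E.q * √(E.q : ℝ) = E.n / √(E.q : ℝ) := by
      rw [div_mul_eq_mul_div, div_eq_div_iff hq0.ne' hs0.ne', mul_assoc, hss]
    calc ((RR E).card : ℝ) * √(E.q : ℝ) ≤ 428 * (E.n / (E.q : ℝ)) * √(E.q : ℝ) :=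
          mul_le_mul_of_nonneg_right h1 hs0.le
      _ = 428 * (E.n / √(E.q : ℝ)) := by rw [mul_assoc, h2]
      _ ≤ κ * E.n := by
          rw [mul_div_assoc', div_le_iff₀ hs0]
          have h3 : 428 ≤ κ * √(E.q : ℝ) := by
            rw [div_le_iff₀ hκ] at hsq
            linarith
          nlinarith
  have hRc : ((RR E).card : ℝ) ≤ κ * E.n / 2 := by
    have h1 : (0 : ℝ) ≤ (RR E).card := Nat.cast_nonneg _
    have h2 : ((RR E).card : ℝ) * 2 ≤ ((RR E).card : ℝ) * √(E.q : ℝ) :=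
      mul_le_mul_of_nonneg_left hs2 h1
    linarith
  -- memberships
  have hnotR : ∀ v, v ∉ E.Pk ∪ RR E → v ∉ E.Pk ∧ v ∉ RA E ∧ v ∉ RB E ∧ v ∉ RC E ∧ v ∉ RD E := by
    intro v hv
    rw [mem_union] at hv
    unfold RR at hv
    rw [mem_union, mem_union, mem_union] at hv
    push Not at hv
    exact ⟨hv.1, hv.2.1.1.1, hv.2.1.1.2, hv.2.1.2, hv.2.2⟩
  refine ⟨E.Pk ∪ RR E, univ.filter (fun u => κ * E.n / (E.q : ℝ) ^ 2 <
    (((RR E).filter (fun v => un E.n E.q v = u)).card : ℝ)), ?_⟩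
  refine
    { P_sub := union_subset_union_right (RR_sub E)
      Pk_sub := subset_union_left
      B_vs := ?_
      own := ?_
      gen0 := ?_
      card := ?_
      bdc := ?_
      load := ?_ }
  · intro v hv hv3
    obtain ⟨-, h1, -, -, -⟩ := hnotR v hv3
    unfold RA at h1
    unfold Env.B1
    rw [mem_filter] at h1 ⊢
    refine ⟨hv, ?_⟩
    by_contra hcc
    exact h1 ⟨hv, hcc⟩
  · intro v hv hv3 _
    obtain ⟨-, -, h1, h2, -⟩ := hnotR v hv3
    unfold RB at h1
    unfold RC at h2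
    rw [mem_filter] at h1 h2
    constructor
    · by_contra hcc
      exact h1 ⟨hv, hcc⟩
    · by_contra hcc
      exact h2 ⟨hv, hcc⟩
  · intro i hi hnb
    by_contra hcc
    have hI : i ∈ RI E := by
      unfold RI
      rw [mem_filter]
      exact ⟨hi, hcc⟩
    have hn := hc.nC i hi
    rcases hnb with hnb | hnb
    · obtain ⟨h0, -, -, -, h1⟩ := hnotR _ hnb
      apply h1
      unfold RD
      rw [mem_inter, mem_union]
      refine ⟨Or.inl (mem_image_of_mem _ hI), ?_⟩
      rcases mem_union.mp hn.1 with h | h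
      · exact h
      · exact absurd h h0
    · obtain ⟨h0, -, -, -, h1⟩ := hnotR _ hnb
      apply h1
      unfold RD
      rw [mem_inter, mem_union]
      refine ⟨Or.inr (mem_image_of_mem _ hI), ?_⟩
      rcases mem_union.mp hn.2 with h | h
      · exact h
      · exact absurd h h0
  · have h1 : ((E.Pk ∪ RR E).card : ℝ) ≤ E.Pk.card + (RR E).card := by
      exact_mod_cast card_union_le _ _
    have h2 := hc.cardP
    have h3 : min κ 1 / 2 * (E.n : ℝ) ≤ κ / 2 * E.n := by
      apply mul_le_mul_of_nonneg_right _ hnpos.le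
      have := min_le_left κ 1
      linarith
    linarith
  · set Bd := univ.filter (fun u => κ * E.n / (E.q : ℝ) ^ 2 <
      (((RR E).filter (fun v => un E.n E.q v = u)).card : ℝ)) with hBd
    have h1 : ∑ u ∈ Bd, ((RR E).filter (fun v => un E.n E.q v = u)).card ≤ (RR E).card := by
      rw [← card_biUnion]
      · apply card_le_card
        intro v hv
        rw [mem_biUnion] at hv
        obtain ⟨u, -, hv⟩ := hv
        exact (mem_filter.mp hv).1
      · intro u _ u' _ hne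
        refine disjoint_left.mpr ?_
        intro v hv hv'
        rw [mem_filter] at hv hv'
        exact hne (hv.2.symm.trans hv'.2)
    have h2 : (Bd.card : ℝ) * (κ * E.n / (E.q : ℝ) ^ 2) ≤ (RR E).card := by
      calc (Bd.card : ℝ) * (κ * E.n / (E.q : ℝ) ^ 2) = ∑ _u ∈ Bd, (κ * E.n / (E.q : ℝ) ^ 2) := by
            rw [sum_const, nsmul_eq_mul]
        _ ≤ ∑ u ∈ Bd, (((RR E).filter (fun v => un E.n E.q v = u)).card : ℝ) := by
            apply sum_le_sum
            intro u hu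
            rw [hBd, mem_filter] at hu
            exact hu.2.le
        _ ≤ (RR E).card := by exact_mod_cast h1
    have hq2 : (0 : ℝ) < (E.q : ℝ) ^ 2 := by positivity
    have h3 : (Bd.card : ℝ) * (κ * E.n) ≤ (RR E).card * (E.q : ℝ) ^ 2 := by
      rw [← mul_div_assoc, div_le_iff₀ hq2] at h2
      exact h2
    have hκn : 0 < κ * E.n := mul_pos hκ hnpos
    have h4 : (Bd.card : ℝ) * √(E.q : ℝ) * (κ * E.n) ≤ (E.q : ℝ) ^ 2 * (κ * E.n) := by
      calc (Bd.card : ℝ) * √(E.q : ℝ) * (κ * E.n)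
          = ((Bd.card : ℝ) * (κ * E.n)) * √(E.q : ℝ) := by ring
        _ ≤ ((RR E).card * (E.q : ℝ) ^ 2) * √(E.q : ℝ) := mul_le_mul_of_nonneg_right h3 hs0.le
        _ = (E.q : ℝ) ^ 2 * ((RR E).card * √(E.q : ℝ)) := by ring
        _ ≤ (E.q : ℝ) ^ 2 * (κ * E.n) := mul_le_mul_of_nonneg_left hR hq2.le
    exact le_of_mul_le_mul_right h4 hκn
  · intro u hu
    rw [mem_filter] at hu
    push Not at hu
    have h1 := hu (mem_univ u)
    refine le_trans ?_ h1
    have h2 : (E.Bk ∩ (E.Pk ∪ RR E)).filter (fun v => un E.n E.q v = u) ⊆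
        (RR E).filter (fun v => un E.n E.q v = u) := by
      intro v hv
      rw [mem_filter, mem_inter, mem_union] at hv
      rw [mem_filter]
      refine ⟨?_, hv.2⟩
      rcases hv.1.2 with h | h
      · exact absurd h (disjoint_left.mp hc.BP hv.1.1)
      · exact h
    exact_mod_cast card_le_card h2

end Pool.Agent.PGr.PPk
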