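import Mathlib
import Pool.Agent.PGr.PVert

/-!
# PGr-P-Fm: families of packs: blocked tags, used labels and differences, insertion

PLAN. `Bl_card`: double counting: `∑_v #{p ∈ Ps : tag p t = v} = |Ps|`
(`Finset.card_eq_sum_card_fiberwise`), and every blocked `v` has at least `T - 1 ≥ T / 2` packs.
`UL_card`, `UD_card`, `US_card`: `card_union_le`, `card_biUnion_le_card_mul`; `|p.L| ≤ |p.J| + 2 ≤ 5`,
`|p.F| ≤ |p.G| + 2 ≤ 7` (`card_insert_le`, `PackOk.cJ`, `PackOk.cG`), `ball_card`.
`fam_insert`: `p ∉ Ps` because `p.m ∈ ball p.m` and the ball is disjoint from `US`; `Compat` is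
symmetric; the tags: `filter_insert`, for the tag value of `p` the old count is `≤ T - 1`, otherwise it
does not change.
-/

noncomputable section

namespace Pool.Agent.PGr.PPk

open Finset

variable (E : Env)

open Classical in
/-- blocked values of the tag `t` -/
def Bl (T : ℝ) (Ps : Finset Pack) (t : Fin 6) : Finset (ZMod (E.q ^ 2)) :=
  univ.filter (fun v => T < ((Ps.filter (fun p => tag E p t = v)).card : ℝ) + 1)

/-- used labels -/
def UL (L3 : Finset ℤ) (Ps : Finset Pack) : Finset ℤ := L3 ∪ Ps.biUnion (fun p => p.L)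

/-- used differences -/
def UD (D3 : Finset ℤ) (Ps : Finset Pack) : Finset ℤ := D3 ∪ Ps.biUnion (fun p => p.F E)

/-- vertices near planted vertices -/
def US (P3 : Finset ℕ) (Ps : Finset Pack) : Finset ℕ := P3 ∪ Ps.biUnion (fun p => ball E p.m)

theorem Bl_card (T : ℝ) (hT : 2 ≤ T) (Ps : Finset Pack) (t : Fin 6) :
    ((Bl E T Ps t).card : ℝ) * T ≤ 2 * Ps.card := by
  have h1 : ((Bl E T Ps t).card : ℝ) * T = ∑ _v ∈ Bl E T Ps t, T := by
    rw [sum_const, nsmul_eq_mul]
  have h2 : ∀ v ∈ Bl E T Ps t, T ≤ 2 * ((Ps.filter (fun p => tag E p t = v)).card : ℝ) := by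
    intro v hv
    have := (mem_filter.1 hv).2
    linarith
  have h3 : (Ps.card : ℝ) = ∑ v, ((Ps.filter (fun p => tag E p t = v)).card : ℝ) := by
    have := card_eq_sum_card_fiberwise (f := fun p => tag E p t) (s := Ps) (t := univ)
      (fun _ _ => by simp)
    rw [this]
    push_cast
    rfl
  calc ((Bl E T Ps t).card : ℝ) * T = ∑ _v ∈ Bl E T Ps t, T := h1
    _ ≤ ∑ v ∈ Bl E T Ps t, 2 * ((Ps.filter (fun p => tag E p t = v)).card : ℝ) := sum_le_sum h2
    _ ≤ ∑ v, 2 * ((Ps.filter (fun p => tag E p t = v)).card : ℝ) :=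
        sum_le_sum_of_subset_of_nonneg (subset_univ _) (fun _ _ _ => by positivity)
    _ = 2 * Ps.card := by rw [← mul_sum, ← h3]

variable {P3 : Finset ℕ} {L3 D3 : Finset ℤ} {T : ℝ} {Ps : Finset Pack}

theorem UL_card (h : PFam E P3 L3 D3 T Ps) : (UL L3 Ps).card ≤ L3.card + 5 * Ps.card := by
  have h1 : (Ps.biUnion (fun p => p.L)).card ≤ Ps.card * 5 := by
    refine card_biUnion_le_card_mul _ _ _ fun p hp => ?_
    have h2 := (h.ok p hp).cJ
    have h3 : p.L.card ≤ (insert p.a2 p.J).card + 1 := card_insert_le _ _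
    have h4 : (insert p.a2 p.J).card ≤ p.J.card + 1 := card_insert_le _ _
    omega
  have h5 : (UL L3 Ps).card ≤ L3.card + (Ps.biUnion (fun p => p.L)).card := card_union_le _ _
  omega

theorem UD_card (h : PFam E P3 L3 D3 T Ps) : (UD E D3 Ps).card ≤ D3.card + 7 * Ps.card := by
  have h1 : (Ps.biUnion (fun p => p.F E)).card ≤ Ps.card * 7 := by
    refine card_biUnion_le_card_mul _ _ _ fun p hp => ?_
    have h2 := (h.ok p hp).cG
    have h3 : (p.F E).card ≤ (insert (p.s2 E) p.G).card + 1 := card_insert_le _ _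
    have h4 : (insert (p.s2 E) p.G).card ≤ p.G.card + 1 := card_insert_le _ _
    omega
  have h5 : (UD E D3 Ps).card ≤ D3.card + (Ps.biUnion (fun p => p.F E)).card := card_union_le _ _
  omega

theorem US_card : (US E P3 Ps).card ≤ P3.card + 7 * Ps.card := by
  have h1 : (Ps.biUnion (fun p => ball E p.m)).card ≤ Ps.card * 7 :=
    card_biUnion_le_card_mul _ _ _ fun p _ => ball_card E p.m
  have h5 : (US E P3 Ps).card ≤ P3.card + (Ps.biUnion (fun p => ball E p.m)).card :=
    card_union_le _ _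
  omega

theorem fam_insert (h : PFam E P3 L3 D3 T Ps) {p : Pack} (hp : PackOk E P3 p)
    (h1 : Disjoint (ball E p.m) (US E P3 Ps)) (h2 : Disjoint p.L (UL L3 Ps))
    (h3 : Disjoint (p.F E) (UD E D3 Ps)) (h4 : ∀ t, tag E p t ∉ Bl E T Ps t) :
    p ∉ Ps ∧ PFam E P3 L3 D3 T (insert p Ps) := by
  have hc : ∀ p' ∈ Ps, Compat E p p' := by
    intro p' hp'
    refine ⟨disjoint_of_subset_right ?_ h1, disjoint_of_subset_right ?_ h2,
      disjoint_of_subset_right ?_ h3⟩
    · intro x hx
      exact mem_union_right _ (mem_biUnion.2 ⟨p', hp', hx⟩)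
    · intro x hx
      exact mem_union_right _ (mem_biUnion.2 ⟨p', hp', hx⟩)
    · intro x hx
      exact mem_union_right _ (mem_biUnion.2 ⟨p', hp', hx⟩)
  refine ⟨?_, ?_, ?_, ?_, ?_, ?_⟩
  · intro hmem
    have hm : p.m ∈ ball E p.m := mem_insert_self _ _
    exact (disjoint_left.1 h1 hm) (mem_union_right _ (mem_biUnion.2 ⟨p, hmem, hm⟩))
  · intro p' hp'
    rcases mem_insert.1 hp' with rfl | h'
    · exact hp
    · exact h.ok p' h'
  · intro x hx y hy hxy
    rcases mem_insert.1 hx with rfl | hx'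
    · rcases mem_insert.1 hy with rfl | hy'
      · exact absurd rfl hxy
      · exact hc y hy'
    · rcases mem_insert.1 hy with rfl | hy'
      · obtain ⟨a, b, c⟩ := hc x hx'
        exact ⟨a.symm, b.symm, c.symm⟩
      · exact h.dj x hx' y hy' hxy
  · intro p' hp'
    rcases mem_insert.1 hp' with rfl | h'
    · exact disjoint_of_subset_right subset_union_left h2
    · exact h.l3 p' h'
  · intro p' hp'
    rcases mem_insert.1 hp' with rfl | h'
    · exact disjoint_of_subset_right subset_union_left h3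
    · exact h.d3 p' h'
  · intro t v
    rw [filter_insert]
    split_ifs with hv
    · subst hv
      have h5 := h4 t
      have h6 : ¬ T < ((Ps.filter (fun p' => tag E p' t = tag E p t)).card : ℝ) + 1 := by
        intro h7
        exact h5 (mem_filter.2 ⟨mem_univ _, h7⟩)
      have h7 : ((insert p (Ps.filter (fun p' => tag E p' t = tag E p t))).card : ℝ)
          ≤ ((Ps.filter (fun p' => tag E p' t = tag E p t)).card : ℝ) + 1 := by
        exact_mod_cast card_insert_le _ _
      linarith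
    · exact h.tg t v

/-- subfamilies -/
theorem fam_mono (h : PFam E P3 L3 D3 T Ps) {Qs : Finset Pack} (hQ : Qs ⊆ Ps) :
    PFam E P3 L3 D3 T Qs := by
  refine ⟨fun p hp => h.ok p (hQ hp), fun p hp p' hp' => h.dj p (hQ hp) p' (hQ hp'),
    fun p hp => h.l3 p (hQ hp), fun p hp => h.d3 p (hQ hp), fun t v => ?_⟩
  refine le_trans ?_ (h.tg t v)
  exact_mod_cast card_le_card (filter_subset_filter _ hQ)

theorem fam_empty (hT : 0 ≤ T) : PFam E P3 L3 D3 T ∅ := by
  refine ⟨fun p hp => absurd hp (notMem_empty p), fun p hp => absurd hp (notMem_empty p),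
    fun p hp => absurd hp (notMem_empty p), fun p hp => absurd hp (notMem_empty p),
    fun t v => ?_⟩
  rw [filter_empty, card_empty, Nat.cast_zero]
  exact hT

end Pool.Agent.PGr.PPk
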