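import Mathlib
import Pool.Agent.PGr.PFm

/-!
# PGr-P-Eo: one more three-way pack

PLAN. As in PTw.lean (read the plan there; same `T, S, A, D, B t` and sizes). Parameters
`(m, x, b2) ∈ range n ×ˢ PL ×ˢ PL` with `eo d m x b2`, at least `c1 n^3` of them (`Ok.eo3`; `d` lies in
`[.1 n, 1.3 n]`). `a = anc m`, `b1 = x - d`; `eoD 0 = |b2 + a - 2x + d|`, `eoD 1 = x - b2`,
`eoD 2 = a - x`, `eoD 3 = 2a - b2 - x`, `eoD 4 = |b2 - a + d|`.
BAD `m`: as in PTw: at most `7 |S| + (|B 0| + |B 1|)(n/q^2 + 4)`.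
For a remaining `m` BAD `b2` (conditions not depending on `x`): `b2 ∈ A`; `eoD 4 ∈ D` (two values),
`|b2 - anc (nbm m)| ∈ D` (two values); tag 4 = `anc w2 - b2 ∈ B 4`; tag 5 = `b2 - c' ∈ B 5` if
`c' = cls0 (nbm w2)`; mod q: `anc w2 ≠ b2`, `b2 ≠ c'` if `c' = cls0`, `anc w1 ≠ c` if `c = b2`:
at most `|A| + 4 |D| + (|B 4| + |B 5|)(3n/q^2+2) + 3 (3n/q+2)`.
For remaining `(m, b2)` BAD `x`: `x, x - d, b2 + a - x, x + b2 - a ∈ A`; `eoD 0, 1, 2, 3 ∈ D` (2+1+1+1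
values), `|x - d - anc (nbp m)| ∈ D` (two values); tag 2 = `anc w1 - (x-d)`, tag 3 = `c - (x-d)`
(`c = cls0` or `b2`), tag 5 = `b2 - (x - d)` if `c' = b1` (case `n/gcd = 4`): slopes `±1`; mod q:
`anc w1 ≠ x - d`, `c ≠ x - d`, `anc w2 ≠ c'` and `b2 ≠ c'` if `c' = b1`; the two extra conditions
`¬ q ∣ eoD 0 - r` (`eoD 0 = ±(b2+a-2x+d)`: at most two classes of `x` mod q, 2 is invertible) and
`¬ q ∣ eoD 3 - t` (one class): at most `4 |A| + 7 |D| + (|B 2|+|B 3|+|B 5|)(3n/q^2+2) + 7 (3n/q+2)`.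
Total bad `≤ (bad m) (3n+1)^2 + n (bad b2) (3n+1) + n (3n+1) (bad x) < c1 n^3`.
`PackOk`: `L = {b1, b2, x, b2+a-x, x+b2-a}` (the `Nodup` and `∈ PL` lists of `eo`), `G = image eoD`
(`card_image_le`), the `Nodup` of the seven differences gives `s12, s1G, s2G`.
-/

noncomputable section

namespace Pool.Agent.PGr.PPk

open Finset

open Classical in
private theorem count3 (n : ℕ) (H : Finset (ℕ × ℤ × ℤ)) (I : Finset ℤ) (BM : Finset ℕ)
    (B2 : ℕ → Finset ℤ) (B1 : ℕ → ℤ → Finset ℤ)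
    (hH : ∀ p ∈ H, p.1 ∈ range n ∧ p.2.1 ∈ I ∧ p.2.2 ∈ I)
    (hbad : ∀ p ∈ H, p.1 ∈ BM ∨ p.2.2 ∈ B2 p.1 ∨ p.2.1 ∈ B1 p.1 p.2.2)
    {u0 u1 u2 : ℝ} (h0 : (BM.card : ℝ) ≤ u0) (h1 : ∀ m, ((B2 m).card : ℝ) ≤ u1)
    (h2 : ∀ m b, ((B1 m b).card : ℝ) ≤ u2) :
    (H.card : ℝ) ≤ u0 * (I.card : ℝ) ^ 2 + n * u1 * I.card + n * I.card * u2 := by
  have hsub : H ⊆ (BM ×ˢ I ×ˢ I) ∪ ((range n).biUnion fun m =>
      (B2 m ×ˢ I).image fun y => (m, y.2, y.1)) ∪
      ((range n ×ˢ I).biUnion fun mb => (B1 mb.1 mb.2).image fun x => (mb.1, x, mb.2)) := by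
    intro p hp
    obtain ⟨g1, g2, g3⟩ := hH p hp
    rcases hbad p hp with h | h | h
    · refine mem_union_left _ (mem_union_left _ ?_)
      exact mem_product.2 ⟨h, mem_product.2 ⟨g2, g3⟩⟩
    · refine mem_union_left _ (mem_union_right _ ?_)
      rw [mem_biUnion]
      exact ⟨p.1, g1, mem_image.2 ⟨(p.2.2, p.2.1), mem_product.2 ⟨h, g2⟩, rfl⟩⟩
    · refine mem_union_right _ ?_
      rw [mem_biUnion]
      exact ⟨(p.1, p.2.2), mem_product.2 ⟨g1, g3⟩, mem_image.2 ⟨p.2.1, h, rfl⟩⟩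
  have hc := (card_le_card hsub).trans ((card_union_le _ _).trans
    (Nat.add_le_add_right (card_union_le _ _) _))
  have hc' : (H.card : ℝ) ≤ ((BM ×ˢ I ×ˢ I).card : ℝ) + (((range n).biUnion fun m =>
      (B2 m ×ˢ I).image fun y => (m, y.2, y.1)).card : ℝ) +
      (((range n ×ˢ I).biUnion fun mb => (B1 mb.1 mb.2).image fun x =>
        (mb.1, x, mb.2)).card : ℝ) := by
    exact_mod_cast hc
  have c1 : ((BM ×ˢ I ×ˢ I).card : ℝ) ≤ u0 * (I.card : ℝ) ^ 2 := by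
    rw [card_product, card_product]
    push_cast
    rw [sq]
    exact mul_le_mul_of_nonneg_right h0 (by positivity)
  have c2 : (((range n).biUnion fun m =>
      (B2 m ×ˢ I).image fun y => (m, y.2, y.1)).card : ℝ) ≤ n * u1 * I.card := by
    have e1 : (((range n).biUnion fun m =>
      (B2 m ×ˢ I).image fun y => (m, y.2, y.1)).card : ℝ) ≤
        ∑ m ∈ range n, (((B2 m ×ˢ I).image fun y => (m, y.2, y.1)).card : ℝ) := by
      exact_mod_cast card_biUnion_le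
    refine e1.trans ?_
    have e2 : ∀ m ∈ range n, (((B2 m ×ˢ I).image fun y => (m, y.2, y.1)).card : ℝ) ≤
        u1 * I.card := by
      intro m _
      have e3 : (((B2 m ×ˢ I).image fun y => (m, y.2, y.1)).card : ℝ) ≤
          ((B2 m ×ˢ I).card : ℝ) := by
        exact_mod_cast card_image_le
      refine e3.trans ?_
      rw [card_product]
      push_cast
      exact mul_le_mul_of_nonneg_right (h1 m) (by positivity)
    refine (sum_le_sum e2).trans ?_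
    rw [sum_const, card_range, nsmul_eq_mul, mul_assoc]
  have c3 : (((range n ×ˢ I).biUnion fun mb => (B1 mb.1 mb.2).image fun x =>
        (mb.1, x, mb.2)).card : ℝ) ≤ n * I.card * u2 := by
    have e1 : (((range n ×ˢ I).biUnion fun mb => (B1 mb.1 mb.2).image fun x =>
        (mb.1, x, mb.2)).card : ℝ) ≤
        ∑ mb ∈ range n ×ˢ I, (((B1 mb.1 mb.2).image fun x => (mb.1, x, mb.2)).card : ℝ) := by
      exact_mod_cast card_biUnion_le
    refine e1.trans ?_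
    have e2 : ∀ mb ∈ range n ×ˢ I, (((B1 mb.1 mb.2).image fun x =>
        (mb.1, x, mb.2)).card : ℝ) ≤ u2 := by
      intro mb _
      have e3 : (((B1 mb.1 mb.2).image fun x => (mb.1, x, mb.2)).card : ℝ) ≤
          ((B1 mb.1 mb.2).card : ℝ) := by
        exact_mod_cast card_image_le
      exact e3.trans (h2 _ _)
    refine (sum_le_sum e2).trans ?_
    rw [sum_const, card_product, card_range, nsmul_eq_mul]
    push_cast
    exact le_rfl
  linarith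

/-- the elements of `I` with the property `P` -/
private def fl (I : Finset ℤ) (P : ℤ → Prop) : Finset ℤ :=
  @Finset.filter ℤ P (Classical.decPred P) I

private theorem mem_fl {I : Finset ℤ} {P : ℤ → Prop} {y : ℤ} : y ∈ fl I P ↔ y ∈ I ∧ P y := by
  unfold fl
  exact @Finset.mem_filter ℤ P (Classical.decPred P) I y

private theorem cnt_or (I : Finset ℤ) (P Q : ℤ → Prop) :
    ((fl I (fun y => P y ∨ Q y)).card : ℝ) ≤ ((fl I P).card : ℝ) + ((fl I Q).card : ℝ) := by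
  have h : fl I (fun y => P y ∨ Q y) ⊆ fl I P ∪ fl I Q := by
    intro y hy
    rw [mem_fl] at hy
    rw [mem_union, mem_fl, mem_fl]
    rcases hy.2 with h | h
    · exact Or.inl ⟨hy.1, h⟩
    · exact Or.inr ⟨hy.1, h⟩
  exact_mod_cast (card_le_card h).trans (card_union_le _ _)

private theorem cnt_mono (I : Finset ℤ) (P Q : ℤ → Prop) (h : ∀ y, P y → Q y) :
    ((fl I P).card : ℝ) ≤ ((fl I Q).card : ℝ) := by
  have h : fl I P ⊆ fl I Q := by
    intro y hy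
    rw [mem_fl] at hy ⊢
    exact ⟨hy.1, h y hy.2⟩
  exact_mod_cast card_le_card h

private theorem cnt_inj (I A : Finset ℤ) (f : ℤ → ℤ) (hf : Function.Injective f) :
    ((fl I (fun y => f y ∈ A)).card : ℝ) ≤ A.card := by
  have : (fl I (fun y => f y ∈ A)).card ≤ A.card := by
    refine card_le_card_of_injOn f ?_ (fun a _ b _ h => hf h)
    intro y hy
    rw [mem_coe, mem_fl] at hy
    exact hy.2
  exact_mod_cast this

private theorem cnt_abs (I A : Finset ℤ) (f : ℤ → ℤ) (hf : Function.Injective f) :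
    ((fl I (fun y => |f y| ∈ A)).card : ℝ) ≤ 2 * A.card := by
  have h1 := cnt_inj I A f hf
  have h2 := cnt_inj I A (fun y => -f y) (fun a b h => hf (neg_injective h))
  have h3 := cnt_or I (fun y => f y ∈ A) (fun y => -f y ∈ A)
  have h4 := cnt_mono I (fun y => |f y| ∈ A) (fun y => f y ∈ A ∨ -f y ∈ A) (by
    intro y hy
    rcases abs_choice (f y) with h | h
    · left
      rw [← h]
      exact hy
    · right
      rw [← h]
      exact hy)
  linarith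

private theorem cnt_res (n w : ℕ) [NeZero w] (B : Finset (ZMod w)) (g : ZMod w → ZMod w)
    (hg : Function.Injective g) :
    ((fl (Icc (0 : ℤ) (3 * n)) (fun y : ℤ => g ((y : ℤ) : ZMod w) ∈ B)).card : ℝ) ≤
      B.card * (3 * n / (w : ℝ) + 2) := by
  classical
  have h := res_kill n w (univ.filter fun r => g r ∈ B)
  refine le_trans ?_ (h.trans ?_)
  · have hs : fl (Icc (0 : ℤ) (3 * n)) (fun y : ℤ => g ((y : ℤ) : ZMod w) ∈ B) ⊆
        (Icc (0 : ℤ) (3 * n)).filter (fun y : ℤ => ((y : ℤ) : ZMod w) ∈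
        (univ.filter fun r => g r ∈ B)) := by
      intro y hy
      rw [mem_fl] at hy
      rw [mem_filter, mem_filter]
      exact ⟨hy.1, mem_univ _, hy.2⟩
    have := card_le_card hs
    have h2 : ((fl (Icc (0 : ℤ) (3 * n)) (fun y : ℤ => g ((y : ℤ) : ZMod w) ∈ B)).card : ℝ) ≤
      (((Icc (0 : ℤ) (3 * n)).filter (fun y : ℤ => ((y : ℤ) : ZMod w) ∈
        (univ.filter fun r => g r ∈ B))).card : ℝ) := by exact_mod_cast this
    refine h2.trans (le_of_eq ?_)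
    congr!
  · have e2 : (univ.filter fun r => g r ∈ B).card ≤ B.card := by
      refine card_le_card_of_injOn g ?_ (fun a _ b _ h => hg h)
      intro y hy
      rw [mem_coe, mem_filter] at hy
      exact hy.2
    have e3 : (((univ.filter fun r => g r ∈ B).card : ℕ) : ℝ) ≤ (B.card : ℝ) := by
      exact_mod_cast e2
    exact mul_le_mul_of_nonneg_right e3 (by positivity)

private theorem cnt_cls (n w : ℕ) [NeZero w] (v : ZMod w) (g : ZMod w → ZMod w)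
    (hg : Function.Injective g) :
    ((fl (Icc (0 : ℤ) (3 * n)) (fun y : ℤ => g ((y : ℤ) : ZMod w) = v)).card : ℝ) ≤
      3 * n / (w : ℝ) + 2 := by
  have h := cnt_res n w {v} g hg
  rw [card_singleton, Nat.cast_one, one_mul] at h
  refine le_trans (cnt_mono _ _ _ ?_) h
  intro y hy
  rw [mem_singleton]
  exact hy

section bad

variable (E : Env) (L3 D3 : Finset ℤ) (P3 : Finset ℕ) (Ps : Finset Pack) (T : ℝ) (d r t : ℤ)

/-- the class of the label of the neighbour of `w1` -/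
private def cP (m : ℕ) (b : ℤ) : ZMod (E.q ^ 2) :=
  if nbp E.n E.k (w1 E m) = nbm E.n E.k m then ((b : ℤ) : ZMod (E.q ^ 2))
  else cls0 E.n E.q (nbp E.n E.k (w1 E m))

private def badM (m : ℕ) : Prop :=
  ¬ Disjoint (ball E m) (US E P3 Ps) ∨
  (¬ spec E.n (nbp E.n E.k m) ∧ un E.n E.q (nbp E.n E.k m) ∈ Bl E T Ps 0) ∨
  (¬ spec E.n (nbm E.n E.k m) ∧ un E.n E.q (nbm E.n E.k m) ∈ Bl E T Ps 1)

private def badB (m : ℕ) (y : ℤ) : Prop :=
  y ∈ UL L3 Ps ∨ |y - anc E.n m + d| ∈ UD E D3 Ps ∨ |y - anc E.n (nbm E.n E.k m)| ∈ UD E D3 Ps ∨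
  ((anc E.n (w2 E m) : ℤ) : ZMod (E.q ^ 2)) - ((y : ℤ) : ZMod (E.q ^ 2)) ∈ Bl E T Ps 4 ∨
  ((y : ℤ) : ZMod (E.q ^ 2)) - cls0 E.n E.q (nbm E.n E.k (w2 E m)) ∈ Bl E T Ps 5 ∨
  ((y : ℤ) : ZMod E.q) = ((anc E.n (w2 E m) : ℤ) : ZMod E.q) ∨
  ((y : ℤ) : ZMod E.q) = red E.q (cls0 E.n E.q (nbm E.n E.k (w2 E m))) ∨
  ((y : ℤ) : ZMod E.q) = ((anc E.n (w1 E m) : ℤ) : ZMod E.q)

private def badX (m : ℕ) (b x : ℤ) : Prop :=
  x - d ∈ UL L3 Ps ∨ x ∈ UL L3 Ps ∨ b + anc E.n m - x ∈ UL L3 Ps ∨ x + b - anc E.n m ∈ UL L3 Ps ∨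
  |b + anc E.n m - x - (x - d)| ∈ UD E D3 Ps ∨ x - b ∈ UD E D3 Ps ∨ anc E.n m - x ∈ UD E D3 Ps ∨
  2 * anc E.n m - b - x ∈ UD E D3 Ps ∨ |x - d - anc E.n (nbp E.n E.k m)| ∈ UD E D3 Ps ∨
  ((anc E.n (w1 E m) : ℤ) : ZMod (E.q ^ 2)) - (((x : ℤ) : ZMod (E.q ^ 2)) - ((d : ℤ) : ZMod (E.q ^ 2)))
    ∈ Bl E T Ps 2 ∨
  cP E m b - (((x : ℤ) : ZMod (E.q ^ 2)) - ((d : ℤ) : ZMod (E.q ^ 2))) ∈ Bl E T Ps 3 ∨
  ((b : ℤ) : ZMod (E.q ^ 2)) - (((x : ℤ) : ZMod (E.q ^ 2)) - ((d : ℤ) : ZMod (E.q ^ 2)))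
    ∈ Bl E T Ps 5 ∨
  ((x : ℤ) : ZMod E.q) - ((d : ℤ) : ZMod E.q) = ((anc E.n (w1 E m) : ℤ) : ZMod E.q) ∨
  ((x : ℤ) : ZMod E.q) - ((d : ℤ) : ZMod E.q) = red E.q (cP E m b) ∨
  ((x : ℤ) : ZMod E.q) - ((d : ℤ) : ZMod E.q) = ((anc E.n (w2 E m) : ℤ) : ZMod E.q) ∨
  ((x : ℤ) : ZMod E.q) - ((d : ℤ) : ZMod E.q) = ((b : ℤ) : ZMod E.q) ∨
  -2 * ((x : ℤ) : ZMod E.q) + ((b + anc E.n m + d : ℤ) : ZMod E.q) = ((r : ℤ) : ZMod E.q) ∨
  2 * ((x : ℤ) : ZMod E.q) - ((b + anc E.n m + d : ℤ) : ZMod E.q) = ((r : ℤ) : ZMod E.q) ∨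
  ((2 * anc E.n m - b : ℤ) : ZMod E.q) - ((x : ℤ) : ZMod E.q) = ((t : ℤ) : ZMod E.q)

private theorem two_ne' (hE : Base E.n E.k E.q E.S E.B0) : (2 : ZMod E.q) ≠ 0 := by
  have h1 : ((2 : ℕ) : ZMod E.q) ≠ 0 := by
    intro h
    rw [ZMod.natCast_eq_zero_iff] at h
    have := Nat.le_of_dvd (by norm_num) h
    have := hE.q_big
    omega
  simpa using h1

private theorem badB_card (hE : Base E.n E.k E.q E.S E.B0) {a0 d0 β w2' w1' : ℝ}
    (hA : ((UL L3 Ps).card : ℝ) ≤ a0) (hD : ((UD E D3 Ps).card : ℝ) ≤ d0)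
    (hB : ∀ j, ((Bl E T Ps j).card : ℝ) ≤ β) (hw2 : 3 * E.n / (((E.q ^ 2 : ℕ)) : ℝ) + 2 ≤ w2')
    (hw1 : 3 * E.n / (E.q : ℝ) + 2 ≤ w1') (m : ℕ) :
    ((fl (Icc (0 : ℤ) (3 * E.n)) (badB E L3 D3 Ps T d m)).card : ℝ) ≤
      a0 + 4 * d0 + 2 * (β * w2') + 3 * w1' := by
  set I := Icc (0 : ℤ) (3 * E.n)
  have hw20 : 0 ≤ 3 * E.n / (((E.q ^ 2 : ℕ)) : ℝ) + 2 := by positivity
  have c1 := cnt_inj I (UL L3 Ps) (fun y => y) (fun a b h => h)
  have c2 := cnt_abs I (UD E D3 Ps) (fun y => y - anc E.n m + d) (fun a b h => by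
    simp only at h
    linarith)
  have c3 := cnt_abs I (UD E D3 Ps) (fun y => y - anc E.n (nbm E.n E.k m)) (fun a b h => by
    simp only at h
    linarith)
  have c4 := cnt_res E.n (E.q ^ 2) (Bl E T Ps 4)
    (fun z => ((anc E.n (w2 E m) : ℤ) : ZMod (E.q ^ 2)) - z) (fun a b h => sub_right_injective h)
  have c5 := cnt_res E.n (E.q ^ 2) (Bl E T Ps 5)
    (fun z => z - cls0 E.n E.q (nbm E.n E.k (w2 E m))) (fun a b h => sub_left_injective h)
  have c6 := cnt_cls E.n E.q ((anc E.n (w2 E m) : ℤ) : ZMod E.q) (fun z => z) (fun a b h => h)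
  have c7 := cnt_cls E.n E.q (red E.q (cls0 E.n E.q (nbm E.n E.k (w2 E m)))) (fun z => z)
    (fun a b h => h)
  have c8 := cnt_cls E.n E.q ((anc E.n (w1 E m) : ℤ) : ZMod E.q) (fun z => z) (fun a b h => h)
  have m4 : ((Bl E T Ps 4).card : ℝ) * (3 * E.n / (((E.q ^ 2 : ℕ)) : ℝ) + 2) ≤ β * w2' :=
    mul_le_mul (hB 4) hw2 hw20 ((Nat.cast_nonneg _).trans (hB 4))
  have m5 : ((Bl E T Ps 5).card : ℝ) * (3 * E.n / (((E.q ^ 2 : ℕ)) : ℝ) + 2) ≤ β * w2' :=
    mul_le_mul (hB 5) hw2 hw20 ((Nat.cast_nonneg _).trans (hB 5))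
  unfold badB
  refine (cnt_or I _ _).trans ?_
  refine (add_le_add c1 ((cnt_or I _ _).trans (add_le_add c2 ((cnt_or I _ _).trans
    (add_le_add c3 ((cnt_or I _ _).trans (add_le_add c4 ((cnt_or I _ _).trans
    (add_le_add c5 ((cnt_or I _ _).trans (add_le_add c6 ((cnt_or I _ _).trans
    (add_le_add c7 c8))))))))))))).trans ?_
  linarith

private theorem badX_card (hE : Base E.n E.k E.q E.S E.B0) {a0 d0 β w2' w1' : ℝ}
    (hA : ((UL L3 Ps).card : ℝ) ≤ a0) (hD : ((UD E D3 Ps).card : ℝ) ≤ d0)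
    (hB : ∀ j, ((Bl E T Ps j).card : ℝ) ≤ β) (hw2 : 3 * E.n / (((E.q ^ 2 : ℕ)) : ℝ) + 2 ≤ w2')
    (hw1 : 3 * E.n / (E.q : ℝ) + 2 ≤ w1') (m : ℕ) (b : ℤ) :
    ((fl (Icc (0 : ℤ) (3 * E.n)) (badX E L3 D3 Ps T d r t m b)).card : ℝ) ≤
      4 * a0 + 7 * d0 + 3 * (β * w2') + 7 * w1' := by
  have : Fact E.q.Prime := ⟨hE.q_prime⟩
  have h2 := two_ne' E hE
  set I := Icc (0 : ℤ) (3 * E.n)
  have hw20 : 0 ≤ 3 * E.n / (((E.q ^ 2 : ℕ)) : ℝ) + 2 := by positivity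
  have c1 := cnt_inj I (UL L3 Ps) (fun x => x - d) (fun a b h => sub_left_injective h)
  have c2 := cnt_inj I (UL L3 Ps) (fun x => x) (fun a b h => h)
  have c3 := cnt_inj I (UL L3 Ps) (fun x => b + anc E.n m - x) (fun a b h =>
    sub_right_injective h)
  have c4 := cnt_inj I (UL L3 Ps) (fun x => x + b - anc E.n m) (fun a b h => by
    simp only at h
    linarith)
  have c5 := cnt_abs I (UD E D3 Ps) (fun x => b + anc E.n m - x - (x - d)) (fun a b h => by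
    simp only at h
    linarith)
  have c6 := cnt_inj I (UD E D3 Ps) (fun x => x - b) (fun a b h => sub_left_injective h)
  have c7 := cnt_inj I (UD E D3 Ps) (fun x => anc E.n m - x) (fun a b h =>
    sub_right_injective h)
  have c8 := cnt_inj I (UD E D3 Ps) (fun x => 2 * anc E.n m - b - x) (fun a b h =>
    sub_right_injective h)
  have c9 := cnt_abs I (UD E D3 Ps) (fun x => x - d - anc E.n (nbp E.n E.k m)) (fun a b h => by
    simp only at h
    linarith)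
  have gi : ∀ c : ZMod (E.q ^ 2), Function.Injective
      (fun z : ZMod (E.q ^ 2) => c - (z - ((d : ℤ) : ZMod (E.q ^ 2)))) := fun c a b h =>
    sub_left_injective (sub_right_injective h)
  have c10 := cnt_res E.n (E.q ^ 2) (Bl E T Ps 2) _
    (gi ((anc E.n (w1 E m) : ℤ) : ZMod (E.q ^ 2)))
  have c11 := cnt_res E.n (E.q ^ 2) (Bl E T Ps 3) _ (gi (cP E m b))
  have c12 := cnt_res E.n (E.q ^ 2) (Bl E T Ps 5) _ (gi ((b : ℤ) : ZMod (E.q ^ 2)))
  have gj : Function.Injective (fun z : ZMod E.q => z - ((d : ℤ) : ZMod E.q)) :=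
    sub_left_injective
  have c13 := cnt_cls E.n E.q ((anc E.n (w1 E m) : ℤ) : ZMod E.q) _ gj
  have c14 := cnt_cls E.n E.q (red E.q (cP E m b)) _ gj
  have c15 := cnt_cls E.n E.q ((anc E.n (w2 E m) : ℤ) : ZMod E.q) _ gj
  have c16 := cnt_cls E.n E.q ((b : ℤ) : ZMod E.q) _ gj
  have c17 := cnt_cls E.n E.q ((r : ℤ) : ZMod E.q)
    (fun z => -2 * z + ((b + anc E.n m + d : ℤ) : ZMod E.q)) (fun a b h => by
      simp only at h
      exact mul_right_injective₀ (neg_ne_zero.2 h2) (add_right_cancel h))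
  have c18 := cnt_cls E.n E.q ((r : ℤ) : ZMod E.q)
    (fun z => 2 * z - ((b + anc E.n m + d : ℤ) : ZMod E.q)) (fun a b h => by
      simp only at h
      exact mul_right_injective₀ h2 (sub_left_injective h))
  have c19 := cnt_cls E.n E.q ((t : ℤ) : ZMod E.q)
    (fun z => ((2 * anc E.n m - b : ℤ) : ZMod E.q) - z) (fun a b h => sub_right_injective h)
  have m10 : ((Bl E T Ps 2).card : ℝ) * (3 * E.n / (((E.q ^ 2 : ℕ)) : ℝ) + 2) ≤ β * w2' :=
    mul_le_mul (hB 2) hw2 hw20 ((Nat.cast_nonneg _).trans (hB 2))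
  have m11 : ((Bl E T Ps 3).card : ℝ) * (3 * E.n / (((E.q ^ 2 : ℕ)) : ℝ) + 2) ≤ β * w2' :=
    mul_le_mul (hB 3) hw2 hw20 ((Nat.cast_nonneg _).trans (hB 3))
  have m12 : ((Bl E T Ps 5).card : ℝ) * (3 * E.n / (((E.q ^ 2 : ℕ)) : ℝ) + 2) ≤ β * w2' :=
    mul_le_mul (hB 5) hw2 hw20 ((Nat.cast_nonneg _).trans (hB 5))
  unfold badX
  refine (cnt_or I _ _).trans ?_
  refine (add_le_add c1 ((cnt_or I _ _).trans (add_le_add c2 ((cnt_or I _ _).trans
    (add_le_add c3 ((cnt_or I _ _).trans (add_le_add c4 ((cnt_or I _ _).trans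
    (add_le_add c5 ((cnt_or I _ _).trans (add_le_add c6 ((cnt_or I _ _).trans
    (add_le_add c7 ((cnt_or I _ _).trans (add_le_add c8 ((cnt_or I _ _).trans
    (add_le_add c9 ((cnt_or I _ _).trans (add_le_add c10 ((cnt_or I _ _).trans
    (add_le_add c11 ((cnt_or I _ _).trans (add_le_add c12 ((cnt_or I _ _).trans
    (add_le_add c13 ((cnt_or I _ _).trans (add_le_add c14 ((cnt_or I _ _).trans
    (add_le_add c15 ((cnt_or I _ _).trans (add_le_add c16 ((cnt_or I _ _).trans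
    (add_le_add c17 ((cnt_or I _ _).trans (add_le_add c18
    c19))))))))))))))))))))))))))))))))))).trans ?_
  linarith

/-- the set of the bad items -/
private def BM : Finset ℕ := @Finset.filter ℕ (badM E P3 Ps T) (Classical.decPred _) (range E.n)

private theorem mem_BM {m : ℕ} : m ∈ BM E P3 Ps T ↔ m ∈ range E.n ∧ badM E P3 Ps T m := by
  unfold BM
  exact @Finset.mem_filter ℕ (badM E P3 Ps T) (Classical.decPred _) (range E.n) m

private theorem badM_card (hE : Base E.n E.k E.q E.S E.B0) {s0 β w3 : ℝ}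
    (hS : ((US E P3 Ps).card : ℝ) ≤ s0)
    (hB : ∀ j, ((Bl E T Ps j).card : ℝ) ≤ β) (hw3 : E.n / (E.q : ℝ) ^ 2 + 4 ≤ w3) :
    ((BM E P3 Ps T).card : ℝ) ≤ 7 * s0 + 2 * (β * w3) := by
  classical
  have h1 := ball_kill E hE (US E P3 Ps)
  obtain ⟨h2, -⟩ := unit_kill E hE (Bl E T Ps 0)
  obtain ⟨-, h3⟩ := unit_kill E hE (Bl E T Ps 1)
  have hw0 : 0 ≤ E.n / (E.q : ℝ) ^ 2 + 4 := by positivity
  have m0 : ((Bl E T Ps 0).card : ℝ) * (E.n / (E.q : ℝ) ^ 2 + 4) ≤ β * w3 :=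
    mul_le_mul (hB 0) hw3 hw0 ((Nat.cast_nonneg _).trans (hB 0))
  have m1 : ((Bl E T Ps 1).card : ℝ) * (E.n / (E.q : ℝ) ^ 2 + 4) ≤ β * w3 :=
    mul_le_mul (hB 1) hw3 hw0 ((Nat.cast_nonneg _).trans (hB 1))
  have hs : BM E P3 Ps T ⊆ ((range E.n).filter (fun m => ¬ Disjoint (ball E m) (US E P3 Ps))) ∪
      (((range E.n).filter (fun m => ¬ spec E.n (nbp E.n E.k m) ∧
        un E.n E.q (nbp E.n E.k m) ∈ Bl E T Ps 0)) ∪
      ((range E.n).filter (fun m => ¬ spec E.n (nbm E.n E.k m) ∧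
        un E.n E.q (nbm E.n E.k m) ∈ Bl E T Ps 1))) := by
    intro m hm
    rw [mem_BM] at hm
    rw [mem_union, mem_union, mem_filter, mem_filter, mem_filter]
    rcases hm.2 with h | h | h
    · exact Or.inl ⟨hm.1, h⟩
    · exact Or.inr (Or.inl ⟨hm.1, h⟩)
    · exact Or.inr (Or.inr ⟨hm.1, h⟩)
  have h4 := (card_le_card hs).trans ((card_union_le _ _).trans
    (Nat.add_le_add_left (card_union_le _ _) _))
  have h5 : ((BM E P3 Ps T).card : ℝ) ≤
      (((range E.n).filter (fun m => ¬ Disjoint (ball E m) (US E P3 Ps))).card : ℝ) +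
      ((((range E.n).filter (fun m => ¬ spec E.n (nbp E.n E.k m) ∧
        un E.n E.q (nbp E.n E.k m) ∈ Bl E T Ps 0)).card : ℝ) +
      (((range E.n).filter (fun m => ¬ spec E.n (nbm E.n E.k m) ∧
        un E.n E.q (nbm E.n E.k m) ∈ Bl E T Ps 1)).card : ℝ)) := by
    exact_mod_cast h4
  have h6 : (((range E.n).filter (fun m => ¬ Disjoint (ball E m) (US E P3 Ps))).card : ℝ) ≤
      7 * (US E P3 Ps).card := by exact_mod_cast h1
  have h2' := h2
  have h3' := h3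
  refine h5.trans ?_
  have a1 : (((range E.n).filter (fun m => ¬ spec E.n (nbp E.n E.k m) ∧
        un E.n E.q (nbp E.n E.k m) ∈ Bl E T Ps 0)).card : ℝ) ≤ β * w3 := by
    refine le_trans (le_of_eq ?_) (h2.trans m0)
    congr!
  have a2 : (((range E.n).filter (fun m => ¬ spec E.n (nbm E.n E.k m) ∧
        un E.n E.q (nbm E.n E.k m) ∈ Bl E T Ps 1)).card : ℝ) ≤ β * w3 := by
    refine le_trans (le_of_eq ?_) (h3.trans m1)
    congr!
  linarith

variable {E L3 D3 P3 Ps T d r t}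

private theorem nb3p (hE : Base E.n E.k E.q E.S E.B0) {m : ℕ} (hm : m < E.n) :
    nbp E.n E.k (w1 E m) ≠ nbp E.n E.k m := by
  have hk := hE.k_pos
  have hk2 := hE.k_lt
  intro h
  unfold w1 at h
  have h1 := congrArg (nbm E.n E.k) h
  rw [nbm_nbp hk hk2 (nbp_lt hk2 _), nbm_nbp hk hk2 hm] at h1
  have h2 := congrArg (nbm E.n E.k) h1
  rw [nbm_nbp hk hk2 (nbp_lt hk2 _)] at h2
  exact nbp_ne_nbm hk hk2 hm h2

private theorem nb3m (hE : Base E.n E.k E.q E.S E.B0) {m : ℕ} (hm : m < E.n) :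
    nbm E.n E.k (w2 E m) ≠ nbm E.n E.k m := by
  have hk := hE.k_pos
  have hk2 := hE.k_lt
  intro h
  unfold w2 at h
  have h1 := congrArg (nbp E.n E.k) h
  rw [nbp_nbm hk hk2 (nbm_lt hk2 _), nbp_nbm hk hk2 hm] at h1
  have h2 := congrArg (nbp E.n E.k) h1
  rw [nbp_nbm hk hk2 (nbm_lt hk2 _)] at h2
  exact nbp_ne_nbm hk hk2 hm h2.symm

private theorem red_cast (z : ℤ) : red E.q ((z : ℤ) : ZMod (E.q ^ 2)) = ((z : ℤ) : ZMod E.q) :=
  map_intCast (red E.q) z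

private theorem good_case {κ1 ρ c1 : ℝ} (hOk : E.Ok κ1 ρ c1) (hG : Gen0 E P3)
    (hF : PFam E P3 L3 D3 T Ps) {m : ℕ} {x b2 : ℤ} (heo : E.eo d m x b2)
    (h1 : ¬ badM E P3 Ps T m) (h2 : ¬ badB E L3 D3 Ps T d m b2)
    (h3 : ¬ badX E L3 D3 Ps T d r t m b2 x) :
    ¬ (E.q : ℤ) ∣ Env.eoD d (anc E.n m) x b2 0 - r ∧
      ¬ (E.q : ℤ) ∣ Env.eoD d (anc E.n m) x b2 3 - t ∧ eoPack E d m x b2 ∉ Ps ∧
      PFam E P3 L3 D3 T (insert (eoPack E d m x b2) Ps) ∧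
      Disjoint ((eoPack E d m x b2).F E) (UD E D3 Ps) := by
  obtain ⟨hp, hb1, hb2, hL, hLn, hD, hDn, -⟩ := heo
  have hE := E.base
  have hk := hE.k_pos
  have hk2 := hE.k_lt
  obtain ⟨f1, f2, f3, f4, f5, f6⟩ := pure_facts E hE hOk.col hp
  unfold badM at h1
  unfold badB at h2
  unfold badX at h3
  rw [not_or, not_or, not_not] at h1
  obtain ⟨g1, g2, g3⟩ := h1
  have g2' : un E.n E.q (nbp E.n E.k m) ∉ Bl E T Ps 0 := fun h => g2 ⟨f5, h⟩
  have g3' : un E.n E.q (nbm E.n E.k m) ∉ Bl E T Ps 1 := fun h => g3 ⟨f6, h⟩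
  simp only [not_or] at h2 h3
  obtain ⟨y1, y2, y3, y4, y5, y6, y7, y8⟩ := h2
  obtain ⟨x1, x2, x3, x4, x5, x6, x7, x8, x9, x10, x11, x12, x13, x14, x15, x16, x17, x18, x19⟩ := h3
  set a := anc E.n m with ha
  have L1 : x - d ∈ E.PL := hL _ (by simp)
  have L2 : b2 ∈ E.PL := hL _ (by simp)
  have L3' : x ∈ E.PL := hL _ (by simp)
  have L4 : b2 + a - x ∈ E.PL := hL _ (by simp)
  have L5 : x + b2 - a ∈ E.PL := hL _ (by simp)
  have D0' : Env.eoD d a x b2 0 ∈ E.PD := hD _ (by simp)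
  have D1' : Env.eoD d a x b2 1 ∈ E.PD := hD _ (by simp)
  have D2' : Env.eoD d a x b2 2 ∈ E.PD := hD _ (by simp)
  have D3' : Env.eoD d a x b2 3 ∈ E.PD := hD _ (by simp)
  have D4' : Env.eoD d a x b2 4 ∈ E.PD := hD _ (by simp)
  have D5' : |x - d - anc E.n (E.nb true m)| ∈ E.PD := hD _ (by simp)
  have D6' : |b2 - anc E.n (E.nb false m)| ∈ E.PD := hD _ (by simp)
  have v0 : Env.eoD d a x b2 0 = |b2 + a - x - (x - d)| := rfl
  have v1 : Env.eoD d a x b2 1 = x - b2 := rfl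
  have v2 : Env.eoD d a x b2 2 = a - x := rfl
  have v3 : Env.eoD d a x b2 3 = 2 * a - b2 - x := rfl
  have v4 : Env.eoD d a x b2 4 = |x + b2 - a - (x - d)| := rfl
  have s1e : (eoPack E d m x b2).s1 E = |x - d - anc E.n (E.nb true m)| := rfl
  have s2e : (eoPack E d m x b2).s2 E = |b2 - anc E.n (E.nb false m)| := rfl
  have hGm : ∀ z, z ∈ (eoPack E d m x b2).G → z = Env.eoD d a x b2 0 ∨ z = Env.eoD d a x b2 1 ∨
      z = Env.eoD d a x b2 2 ∨ z = Env.eoD d a x b2 3 ∨ z = Env.eoD d a x b2 4 := by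
    intro z hz
    change z ∈ (univ : Finset (Fin 5)).image (Env.eoD d a x b2) at hz
    rw [mem_image] at hz
    obtain ⟨j, -, rfl⟩ := hz
    fin_cases j
    · exact Or.inl rfl
    · exact Or.inr (Or.inl rfl)
    · exact Or.inr (Or.inr (Or.inl rfl))
    · exact Or.inr (Or.inr (Or.inr (Or.inl rfl)))
    · exact Or.inr (Or.inr (Or.inr (Or.inr rfl)))
  have hFm : ∀ z, z ∈ (eoPack E d m x b2).F E → z = |x - d - anc E.n (E.nb true m)| ∨
      z = |b2 - anc E.n (E.nb false m)| ∨ z ∈ (eoPack E d m x b2).G := by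
    intro z hz
    unfold Pack.F at hz
    rw [mem_insert, mem_insert, s1e, s2e] at hz
    exact hz
  have hLm : ∀ z, z ∈ (eoPack E d m x b2).L → z = x - d ∨ z = b2 ∨ z = x ∨ z = b2 + a - x ∨
      z = x + b2 - a := by
    intro z hz
    unfold Pack.L eoPack at hz
    simp only [mem_insert, mem_singleton] at hz
    exact hz
  have hdis : Disjoint ((eoPack E d m x b2).F E) (UD E D3 Ps) := by
    rw [disjoint_left]
    intro z hz
    rcases hFm z hz with h | h | h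
    · rw [h]
      exact x9
    · rw [h]
      exact y3
    · rcases hGm z h with h | h | h | h | h
      · rw [h, v0]
        exact x5
      · rw [h, v1]
        exact x6
      · rw [h, v2]
        exact x7
      · rw [h, v3]
        exact x8
      · rw [h, v4]
        have : x + b2 - a - (x - d) = b2 - a + d := by ring
        rw [this]
        exact y2
  have hdisL : Disjoint (eoPack E d m x b2).L (UL L3 Ps) := by
    rw [disjoint_left]
    intro z hz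
    rcases hLm z hz with h | h | h | h | h
    · rw [h]
      exact x1
    · rw [h]
      exact y1
    · rw [h]
      exact x2
    · rw [h]
      exact x3
    · rw [h]
      exact x4
  have hP3 : Disjoint (ball E m) P3 := by
    refine disjoint_of_subset_right ?_ g1
    unfold US
    exact subset_union_left
  have hnm : nbm E.n E.k m ∉ P3 := by
    refine disjoint_left.1 hP3 ?_
    unfold ball
    simp
  have hnp : nbp E.n E.k m ∉ P3 := by
    refine disjoint_left.1 hP3 ?_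
    unfold ball
    simp
  -- the classes
  have hc1 : pcl E (eoPack E d m x b2) (nbp E.n E.k (w1 E m)) = cP E m b2 := by
    unfold pcl cP
    have : nbp E.n E.k (w1 E m) ≠ nbp E.n E.k (eoPack E d m x b2).m := nb3p hE f1
    rw [if_neg this]
    rfl
  have hc2 : pcl E (eoPack E d m x b2) (nbm E.n E.k (w2 E m)) =
      if nbm E.n E.k (w2 E m) = nbp E.n E.k m then (((x - d : ℤ)) : ZMod (E.q ^ 2))
      else cls0 E.n E.q (nbm E.n E.k (w2 E m)) := by
    unfold pcl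
    have : nbm E.n E.k (w2 E m) ≠ nbm E.n E.k (eoPack E d m x b2).m := nb3m hE f1
    rw [if_neg this]
    rfl
  have hxd : (((x - d : ℤ)) : ZMod (E.q ^ 2)) = ((x : ℤ) : ZMod (E.q ^ 2)) -
      ((d : ℤ) : ZMod (E.q ^ 2)) := Int.cast_sub _ _
  have hxq : (((x - d : ℤ)) : ZMod E.q) = ((x : ℤ) : ZMod E.q) - ((d : ℤ) : ZMod E.q) :=
    Int.cast_sub _ _
  have ht : ∀ j, tag E (eoPack E d m x b2) j ∉ Bl E T Ps j := by
    intro j
    fin_cases j
    · exact g2'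
    · exact g3'
    · change ((anc E.n (w1 E m) : ℤ) : ZMod (E.q ^ 2)) - (((x - d : ℤ)) : ZMod (E.q ^ 2)) ∉ _
      rw [hxd]
      exact x10
    · change pcl E (eoPack E d m x b2) (nbp E.n E.k (w1 E m)) - (((x - d : ℤ)) : ZMod (E.q ^ 2)) ∉ _
      rw [hc1, hxd]
      exact x11
    · exact y4
    · change ((b2 : ℤ) : ZMod (E.q ^ 2)) - pcl E (eoPack E d m x b2) (nbm E.n E.k (w2 E m)) ∉ _
      rw [hc2]
      split_ifs with h
      · rw [hxd]
        exact x12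
      · exact y5
  have hg1 : red3 E.q ((anc E.n (w1 E m) : ℤ) : ZMod (E.q ^ 2))
      (pcl E (eoPack E d m x b2) (nbp E.n E.k (w1 E m)))
      (((x - d : ℤ)) : ZMod (E.q ^ 2)) := by
    rw [hc1]
    refine ⟨?_, ?_, ?_⟩
    · unfold cP
      split_ifs with h
      · rw [red_cast, red_cast]
        exact fun h => y8 h.symm
      · refine (hG (w1 E m) f3 (Or.inr ?_)).1
        unfold w1
        rw [nbm_nbp hk hk2 (nbp_lt hk2 _)]
        exact hnp
    · rw [red_cast, red_cast, hxq]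
      exact fun h => x13 h.symm
    · rw [red_cast, hxq]
      exact fun h => x14 h.symm
  have hg2 : red3 E.q ((anc E.n (w2 E m) : ℤ) : ZMod (E.q ^ 2)) ((b2 : ℤ) : ZMod (E.q ^ 2))
      (pcl E (eoPack E d m x b2) (nbm E.n E.k (w2 E m))) := by
    rw [hc2]
    refine ⟨?_, ?_, ?_⟩
    · rw [red_cast, red_cast]
      exact fun h => y6 h.symm
    · split_ifs with h
      · rw [red_cast, red_cast, hxq]
        exact fun h => x15 h.symm
      · refine (hG (w2 E m) f4 (Or.inl ?_)).2.1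
        unfold w2
        rw [nbp_nbm hk hk2 (nbm_lt hk2 _)]
        exact hnm
    · split_ifs with h
      · rw [red_cast, red_cast, hxq]
        exact fun h => x16 h.symm
      · rw [red_cast]
        exact y7
  simp only [List.nodup_cons, List.mem_cons, List.not_mem_nil, or_false, not_or,
    List.nodup_nil, and_true, not_false_eq_true] at hLn hDn
  have h0 : (0 : ℝ) ≤ E.n := Nat.cast_nonneg _
  have r1' : inI E.n (9 / 10) (21 / 10) (x - d) := ⟨by linarith [hb1.1], by linarith [hb1.2]⟩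
  have r2' : inI E.n (9 / 10) (21 / 10) b2 := ⟨by linarith [hb2.1], by linarith [hb2.2]⟩
  have hok : PackOk E P3 (eoPack E d m x b2) := by
    refine ⟨hp, hP3, ?_, ?_, ?_, ?_, ?_, ?_, ?_, ?_, ?_, ?_, ?_, ?_, ?_, hg1, hg2⟩
    · intro z hz
      rcases hLm z hz with h | h | h | h | h <;> rw [h] <;> assumption
    · intro z hz
      rcases hFm z hz with h | h | h
      · rw [h]
        exact D5'
      · rw [h]
        exact D6'
      · rcases hGm z h with h | h | h | h | h <;> rw [h] <;> assumption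
    · exact card_le_three
    · exact card_image_le.trans (by simp)
    · exact hLn.1.1
    · change x - d ∉ ({x, b2 + a - x, x + b2 - a} : Finset ℤ)
      simp only [mem_insert, mem_singleton, not_or]
      exact hLn.1.2
    · change b2 ∉ ({x, b2 + a - x, x + b2 - a} : Finset ℤ)
      simp only [mem_insert, mem_singleton, not_or]
      exact hLn.2.1
    · rw [s1e, s2e]
      exact hDn.2.2.2.2.2
    · rw [s1e]
      intro hmem
      rcases hGm _ hmem with h | h | h | h | h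
      · exact hDn.1.2.2.2.2.1 h.symm
      · exact hDn.2.1.2.2.2.1 h.symm
      · exact hDn.2.2.1.2.2.1 h.symm
      · exact hDn.2.2.2.1.2.1 h.symm
      · exact hDn.2.2.2.2.1.1 h.symm
    · rw [s2e]
      intro hmem
      rcases hGm _ hmem with h | h | h | h | h
      · exact hDn.1.2.2.2.2.2 h.symm
      · exact hDn.2.1.2.2.2.2 h.symm
      · exact hDn.2.2.1.2.2.2 h.symm
      · exact hDn.2.2.2.1.2.2 h.symm
      · exact hDn.2.2.2.2.1.2 h.symm
    · exact r1'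
    · exact r2'
    · right
      exact ⟨⟨hb1.1, r1'.2⟩, ⟨hb2.1, r2'.2⟩⟩
  obtain ⟨q1, q2⟩ := fam_insert E hF hok g1 hdisL hdis ht
  have hdvd : ∀ u v : ℤ, (E.q : ℤ) ∣ u - v → ((u : ℤ) : ZMod E.q) = ((v : ℤ) : ZMod E.q) := by
    intro u v h
    have := (ZMod.intCast_zmod_eq_zero_iff_dvd (u - v) E.q).2 h
    rw [Int.cast_sub, sub_eq_zero] at this
    exact this
  refine ⟨?_, ?_, q1, q2, hdis⟩
  · intro h
    have h4 := hdvd _ _ h
    rw [v0] at h4
    rcases abs_choice (b2 + a - x - (x - d)) with h5 | h5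
    · rw [h5] at h4
      apply x17
      rw [← h4]
      push_cast
      ring
    · rw [h5] at h4
      apply x18
      rw [← h4]
      push_cast
      ring
  · intro h
    have h4 := hdvd _ _ h
    rw [v3] at h4
    apply x19
    rw [← h4]
    push_cast
    ring

end bad

theorem eo_step (c1 κ : ℝ) (hc1 : 0 < c1) (hκ : 0 < κ) : ∃ ε : ℝ, 0 < ε ∧ ∃ n0 : ℕ,
    ∀ (E : Env) (κ1 ρ : ℝ) (P3 : Finset ℕ) (L3 D3 : Finset ℤ) (Ps : Finset Pack),
      n0 ≤ E.n → E.Ok κ1 ρ c1 → Gen0 E P3 → PFam E P3 L3 D3 (κ * E.n / (E.q : ℝ) ^ 2) Ps →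
      (P3.card : ℝ) ≤ ε * E.n → (L3.card : ℝ) ≤ ε * E.n → (D3.card : ℝ) ≤ ε * E.n →
      (Ps.card : ℝ) ≤ ε * E.n → ∀ d r t : ℤ, inI E.n (1 / 10) (13 / 10) d → gd E.n E.k E.q d →
      ∃ (m : ℕ) (x b2 : ℤ), E.eo d m x b2 ∧ ¬ (E.q : ℤ) ∣ Env.eoD d (anc E.n m) x b2 0 - r ∧
        ¬ (E.q : ℤ) ∣ Env.eoD d (anc E.n m) x b2 3 - t ∧ eoPack E d m x b2 ∉ Ps ∧
        PFam E P3 L3 D3 (κ * E.n / (E.q : ℝ) ^ 2) (insert (eoPack E d m x b2) Ps) ∧
        Disjoint ((eoPack E d m x b2).F E) (UD E D3 Ps) := by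
  have hP : 0 < 4 * (1368 + 520 / κ) := by positivity
  set δ : ℝ := c1 / 160 with hδ
  have hδ0 : 0 < δ := by positivity
  refine ⟨c1 / (4 * (1368 + 520 / κ)), by positivity, ?_⟩
  set ε : ℝ := c1 / (4 * (1368 + 520 / κ)) with hε
  have hε0 : 0 < ε := by positivity
  have hεe : ε * (1368 + 520 / κ) = c1 / 4 := by
    rw [hε]
    field_simp
  obtain ⟨Q, hQ⟩ := exists_nat_gt (6 / δ + 2 / κ + 1)
  obtain ⟨N, hN⟩ := exists_nat_gt (4 / δ)
  refine ⟨max (Q ^ 8 + 1) (N + 1), ?_⟩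
  intro E κ1 ρ P3 L3 D3 Ps hn hOk hG hF hP3 hL3 hD3 hPs d r t hd1 hd2
  have hE := E.base
  have hq0 : 0 < E.q := hE.q_prime.pos
  have hqR : (0 : ℝ) < E.q := by exact_mod_cast hq0
  have h6 : 0 < 6 / δ := by positivity
  have h2κ : 0 < 2 / κ := by positivity
  have hQq : Q < E.q := by
    by_contra hcon
    push Not at hcon
    have h1 : E.q ^ 8 ≤ Q ^ 8 := Nat.pow_le_pow_left hcon 8
    have h2 := hE.q_low
    have h3 := (le_max_left _ _).trans hn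
    omega
  have hQq' : (Q : ℝ) < E.q := by exact_mod_cast hQq
  have hNn : (N : ℝ) < E.n := by
    have h3 := (le_max_right _ _).trans hn
    exact_mod_cast h3
  have hn0 : (0 : ℝ) < E.n := lt_of_le_of_lt (Nat.cast_nonneg N) hNn
  have hn1 : (1 : ℝ) ≤ E.n := by
    have : 0 < E.n := by exact_mod_cast hn0
    exact_mod_cast this
  have hq1 : (1 : ℝ) ≤ E.q := by exact_mod_cast hq0
  have hq6 : (E.q : ℝ) ^ 6 ≤ E.n := by exact_mod_cast hE.q_high
  have hq2 : (E.q : ℝ) ^ 2 ≤ E.n :=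
    (pow_le_pow_right₀ hq1 (by norm_num : 2 ≤ 6)).trans hq6
  -- T ≥ 2
  set T : ℝ := κ * E.n / (E.q : ℝ) ^ 2 with hT
  have hT2 : 2 ≤ T := by
    rw [hT, le_div_iff₀ (by positivity)]
    have h1 : 2 / κ < E.q := by linarith
    rw [div_lt_iff₀ hκ] at h1
    have h2 : (E.q : ℝ) ^ 2 * E.q ≤ E.n := by
      have : (E.q : ℝ) ^ 2 * E.q = (E.q : ℝ) ^ 3 := by ring
      rw [this]
      exact (pow_le_pow_right₀ hq1 (by norm_num : 3 ≤ 6)).trans hq6
    have h3 : 2 * (E.q : ℝ) ^ 2 ≤ (E.q * κ) * (E.q : ℝ) ^ 2 :=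
      mul_le_mul_of_nonneg_right h1.le (by positivity)
    have h4 : κ * ((E.q : ℝ) ^ 2 * E.q) ≤ κ * E.n := mul_le_mul_of_nonneg_left h2 hκ.le
    have h5 : (E.q * κ) * (E.q : ℝ) ^ 2 = κ * ((E.q : ℝ) ^ 2 * E.q) := by ring
    linarith
  have hT0 : 0 < T := by linarith
  have hβ : ∀ j, ((Bl E T Ps j).card : ℝ) ≤ 2 * ε / κ * (E.q : ℝ) ^ 2 := by
    intro j
    have h1 := Bl_card E T hT2 Ps j
    have h2 : ((Bl E T Ps j).card : ℝ) * T ≤ 2 * (ε * E.n) := by linarith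
    have h3 : 2 * ε / κ * (E.q : ℝ) ^ 2 * T = 2 * (ε * E.n) := by
      rw [hT]
      field_simp
    rw [← h3] at h2
    exact le_of_mul_le_mul_right h2 hT0
  have hUL : ((UL L3 Ps).card : ℝ) ≤ 6 * ε * E.n := by
    have h1 : ((UL L3 Ps).card : ℝ) ≤ L3.card + 5 * Ps.card := by
      exact_mod_cast UL_card E hF
    linarith
  have hUD : ((UD E D3 Ps).card : ℝ) ≤ 8 * ε * E.n := by
    have h1 : ((UD E D3 Ps).card : ℝ) ≤ D3.card + 7 * Ps.card := by
      exact_mod_cast UD_card E hF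
    linarith
  have hUS : ((US E P3 Ps).card : ℝ) ≤ 8 * ε * E.n := by
    have h1 : ((US E P3 Ps).card : ℝ) ≤ P3.card + 7 * Ps.card := by
      exact_mod_cast US_card E
    linarith
  have hw2 : 3 * (E.n : ℝ) / (((E.q ^ 2 : ℕ)) : ℝ) + 2 ≤ 5 * E.n / (E.q : ℝ) ^ 2 := by
    push_cast
    rw [div_add' _ _ _ (by positivity)]
    apply div_le_div_of_nonneg_right _ (by positivity)
    linarith
  have hw3 : (E.n : ℝ) / (E.q : ℝ) ^ 2 + 4 ≤ 5 * E.n / (E.q : ℝ) ^ 2 := by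
    rw [div_add' _ _ _ (by positivity)]
    apply div_le_div_of_nonneg_right _ (by positivity)
    linarith
  have hβw : 2 * ε / κ * (E.q : ℝ) ^ 2 * (5 * E.n / (E.q : ℝ) ^ 2) = 10 * ε / κ * E.n := by
    field_simp
    ring
  have hw1 : 3 * (E.n : ℝ) / (E.q : ℝ) + 2 ≤ δ * E.n := by
    have h1 : 6 / δ < E.q := by linarith
    rw [div_lt_iff₀ hδ0] at h1
    have h2 : 3 * (E.n : ℝ) / (E.q : ℝ) ≤ δ / 2 * E.n := by
      rw [div_le_iff₀ hqR]
      have := mul_le_mul_of_nonneg_right h1.le hn0.le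
      linarith
    have h3 : 4 / δ < E.n := by linarith
    rw [div_lt_iff₀ hδ0] at h3
    linarith
  by_contra hcon
  push Not at hcon
  obtain ⟨H, hH, hcount⟩ : ∃ H : Finset (ℕ × ℤ × ℤ), (∀ p ∈ H, p.1 ∈ range E.n ∧
      p.2.1 ∈ E.PL ∧ p.2.2 ∈ E.PL ∧ E.eo d p.1 p.2.1 p.2.2) ∧
      c1 * (E.n : ℝ) ^ 3 ≤ (H.card : ℝ) := by
    refine ⟨_, ?_, hOk.eo3 d hd1 hd2⟩
    intro p hp
    simp only [mem_filter, mem_product] at hp
    exact ⟨hp.1.1, hp.1.2.1, hp.1.2.2, hp.2⟩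
  have hI : ((Icc (0 : ℤ) (3 * E.n)).card : ℝ) ≤ 4 * E.n := by
    rw [Int.card_Icc]
    have : ((3 * (E.n : ℤ) + 1 - 0).toNat : ℝ) = 3 * E.n + 1 := by
      have h1 : (3 * (E.n : ℤ) + 1 - 0).toNat = 3 * E.n + 1 := by omega
      rw [h1]
      push_cast
      ring
    rw [this]
    linarith
  have key := count3 E.n H (Icc (0 : ℤ) (3 * E.n)) (BM E P3 Ps T)
      (fun m => fl (Icc (0 : ℤ) (3 * E.n)) (badB E L3 D3 Ps T d m))
      (fun m b => fl (Icc (0 : ℤ) (3 * E.n)) (badX E L3 D3 Ps T d r t m b))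
      (by
        intro p hp
        obtain ⟨a1, a2, a3, -⟩ := hH p hp
        exact ⟨a1, mem_Icc.2 (PL_bd E a2), mem_Icc.2 (PL_bd E a3)⟩)
      (by
        intro p hp
        obtain ⟨a1, a2, a3, a4⟩ := hH p hp
        by_contra hc
        rw [not_or, not_or, mem_BM, mem_fl, mem_fl] at hc
        obtain ⟨b1, b2, b3⟩ := hc
        have h1 : ¬ badM E P3 Ps T p.1 := fun h => b1 ⟨a1, h⟩
        have h2 : ¬ badB E L3 D3 Ps T d p.1 p.2.2 := fun h => b2 ⟨mem_Icc.2 (PL_bd E a3), h⟩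
        have h3 : ¬ badX E L3 D3 Ps T d r t p.1 p.2.2 p.2.1 :=
          fun h => b3 ⟨mem_Icc.2 (PL_bd E a2), h⟩
        obtain ⟨g1, g2, g3, g4, g5⟩ := good_case hOk hG hF a4 h1 h2 h3
        exact hcon p.1 p.2.1 p.2.2 a4 g1 g2 g3 g4 g5)
      (badM_card E P3 Ps T hE hUS hβ hw3)
      (fun m => badB_card E L3 D3 Ps T d hE hUL hUD hβ hw2 hw1 m)
      (fun m b => badX_card E L3 D3 Ps T d r t hE hUL hUD hβ hw2 hw1 m b)
  rw [hβw] at key
  have hII : 0 ≤ ((Icc (0 : ℤ) (3 * E.n)).card : ℝ) := Nat.cast_nonneg _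
  set K : ℝ := ((Icc (0 : ℤ) (3 * E.n)).card : ℝ) with hK
  have u0 : 0 ≤ 7 * (8 * ε * E.n) + 2 * (10 * ε / κ * E.n) := by positivity
  have u1 : 0 ≤ 6 * ε * E.n + 4 * (8 * ε * E.n) + 2 * (10 * ε / κ * E.n) + 3 * (δ * E.n) := by
    positivity
  have u2 : 0 ≤ 4 * (6 * ε * E.n) + 7 * (8 * ε * E.n) + 3 * (10 * ε / κ * E.n) +
    7 * (δ * E.n) := by positivity
  have v0 : (7 * (8 * ε * E.n) + 2 * (10 * ε / κ * E.n)) * K ^ 2 ≤
      (7 * (8 * ε * E.n) + 2 * (10 * ε / κ * E.n)) * (4 * E.n) ^ 2 :=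
    mul_le_mul_of_nonneg_left (pow_le_pow_left₀ hII hI 2) u0
  have v1 : E.n * (6 * ε * E.n + 4 * (8 * ε * E.n) + 2 * (10 * ε / κ * E.n) +
      3 * (δ * E.n)) * K ≤
      E.n * (6 * ε * E.n + 4 * (8 * ε * E.n) + 2 * (10 * ε / κ * E.n) +
      3 * (δ * E.n)) * (4 * E.n) :=
    mul_le_mul_of_nonneg_left hI (mul_nonneg hn0.le u1)
  have v2 : E.n * K * (4 * (6 * ε * E.n) + 7 * (8 * ε * E.n) + 3 * (10 * ε / κ * E.n) +
      7 * (δ * E.n)) ≤ E.n * (4 * E.n) * (4 * (6 * ε * E.n) + 7 * (8 * ε * E.n) +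
      3 * (10 * ε / κ * E.n) + 7 * (δ * E.n)) :=
    mul_le_mul_of_nonneg_right (mul_le_mul_of_nonneg_left hI hn0.le) u2
  have hfin : (7 * (8 * ε * E.n) + 2 * (10 * ε / κ * E.n)) * (4 * E.n) ^ 2 +
      E.n * (6 * ε * E.n + 4 * (8 * ε * E.n) + 2 * (10 * ε / κ * E.n) +
      3 * (δ * E.n)) * (4 * E.n) + E.n * (4 * E.n) * (4 * (6 * ε * E.n) + 7 * (8 * ε * E.n) +
      3 * (10 * ε / κ * E.n) + 7 * (δ * E.n)) =
      (ε * (1368 + 520 / κ) + 40 * δ) * (E.n : ℝ) ^ 3 := by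
    field_simp
    ring
  have h9 : ε * (1368 + 520 / κ) + 40 * δ = c1 / 2 := by
    rw [hεe, hδ]
    ring
  rw [h9] at hfin
  have h7 : 0 < c1 * (E.n : ℝ) ^ 3 := by positivity
  linarith

end Pool.Agent.PGr.PPk
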