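import Mathlib
import Pool.Agent.PGr.PFm

/-!
# PGr-P-Gad: the two-way and the three-way gadget, composition

PLAN. Elements of `PD` are `≥ 1` (`PD ⊆ dall ⊆ [1, ..]`), this gives the signs of the absolute
values.
`tw_gad`: `a = anc m`, label `y2 + d`: `|y2+d-a| = a-(y2+d)`, `|y2+d-a1| = |a-(y2+d')| = a-(y2+d')`,
`|y2+d-a2| = d`. Label `y2 + d'` symmetric. `DS E {p} z` = image over `Fin 3`
(`Finset.singleton_product`, `Fin.univ_succ`, `simp`), compare as sets with `ext`.
`eo_gad`: states: `x`: differences `ga = a-x`, `d`, `be = x-b2`; `b2+a-x`: `be`, `al'`, `ga`;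
`x+b2-a`: `al''`, `be'`, `ga` (computations: `|b2+a-x-a| = x-b2`, `|b2+a-x-(x-d)| = al'`,
`|b2+a-x-b2| = a-x`; `|x+b2-a-a| = 2a-b2-x`, `|x+b2-a-(x-d)| = be'`, `|x+b2-a-b2| = a-x`). The
two-way pack `tp` (options `be, be'`) takes `be'` in the first two states and `be` in the third
(`tw_gad`). `z` is a function on packs: `fun p => if p = ep then .. else ..`.
`gad_comp`: `z := fun p => if p ∈ Ps1 then z1 p else z2 p`; `DS` of a disjoint union is the union;
option of the first: `insert o W1 ∪ insert r W2 = insert o (insert r (W1 ∪ W2))`; cardinality of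
`insert r (W1 ∪ W2)` is `|W1| + |W2| + 1`.
-/

noncomputable section

namespace Pool.Agent.PGr.PPk

open Finset

variable (E : Env)

theorem PD_pos {d : ℤ} (h : d ∈ E.PD) : 1 ≤ d := by
  have h1 : d ∈ dall E.n := by
    classical
    exact Finset.mem_of_mem_filter d h
  unfold dall at h1
  split_ifs at h1
  · have h2 := (Finset.mem_erase.1 (Finset.mem_erase.1 h1).2).2
    exact (Finset.mem_Icc.1 h2).1
  · have h2 := (Finset.mem_erase.1 h1).2
    exact (Finset.mem_Icc.1 h2).1

theorem DS_union (Ps Qs : Finset Pack) (z : Pack → ℤ) :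
    DS E (Ps ∪ Qs) z = DS E Ps z ∪ DS E Qs z := by
  unfold DS
  rw [Finset.union_product, Finset.image_union]

theorem DS_congr {Ps : Finset Pack} {z z' : Pack → ℤ} (h : ∀ p ∈ Ps, z p = z' p) :
    DS E Ps z = DS E Ps z' := by
  unfold DS
  refine Finset.image_congr ?_
  intro u hu
  have h1 : u.1 ∈ Ps := (Finset.mem_product.1 hu).1
  change pd3 E u.1 (z u.1) u.2 = pd3 E u.1 (z' u.1) u.2
  rw [h u.1 h1]

private theorem pg_s1 (a b r o : ℤ) (G : Finset ℤ) :
    ({a, o, b} : Finset ℤ) ∪ insert r G = insert o ({b, a, r} ∪ G) := by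
  ext w
  simp only [Finset.mem_insert, Finset.mem_singleton, Finset.mem_union]
  tauto

private theorem pg_s2 (a b r o : ℤ) (G : Finset ℤ) :
    ({b, o, a} : Finset ℤ) ∪ insert r G = insert o ({b, a, r} ∪ G) := by
  ext w
  simp only [Finset.mem_insert, Finset.mem_singleton, Finset.mem_union]
  tauto

private theorem pg_s3 (a b r o : ℤ) (G : Finset ℤ) :
    ({o, r, a} : Finset ℤ) ∪ insert b G = insert o ({b, a, r} ∪ G) := by
  ext w
  simp only [Finset.mem_insert, Finset.mem_singleton, Finset.mem_union]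
  tauto

private theorem pg_s4 (a b o : ℤ) : ({a, b, o} : Finset ℤ) = {o, a, b} := by
  ext w
  simp only [Finset.mem_insert, Finset.mem_singleton]
  tauto

private theorem pg_s5 (a b o : ℤ) : ({b, a, o} : Finset ℤ) = {o, a, b} := by
  ext w
  simp only [Finset.mem_insert, Finset.mem_singleton]
  tauto

private theorem pg_s6 (o r : ℤ) (W1 W2 : Finset ℤ) :
    insert o W1 ∪ insert r W2 = insert o (insert r (W1 ∪ W2)) := by
  ext w
  simp only [Finset.mem_insert, Finset.mem_union]
  tauto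

private theorem pg_s7 (o r : ℤ) (W1 W2 : Finset ℤ) :
    insert r W1 ∪ insert o W2 = insert o (insert r (W1 ∪ W2)) := by
  ext w
  simp only [Finset.mem_insert, Finset.mem_union]
  tauto

private theorem pg_DS_single (p : Pack) (z : Pack → ℤ) :
    DS E {p} z = {|z p - anc E.n p.m|, |z p - p.a1|, |z p - p.a2|} := by
  ext w
  unfold DS
  simp only [Finset.mem_image, Finset.mem_product, Finset.mem_singleton, Finset.mem_univ,
    and_true, Finset.mem_insert]
  constructor
  · rintro ⟨⟨p', j⟩, hp', rfl⟩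
    simp only at hp'
    subst hp'
    fin_cases j
    · exact Or.inl rfl
    · exact Or.inr (Or.inl rfl)
    · exact Or.inr (Or.inr rfl)
  · rintro (rfl | rfl | rfl)
    · exact ⟨(p, 0), rfl, rfl⟩
    · exact ⟨(p, 1), rfl, rfl⟩
    · exact ⟨(p, 2), rfl, rfl⟩

private theorem pg_tw_facts {d d' : ℤ} {m : ℕ} {y2 : ℤ} (h : E.tw1 d d' m y2) :
    1 ≤ anc E.n m - (y2 + d) ∧ 1 ≤ anc E.n m - (y2 + d') ∧
      anc E.n m - (y2 + d) ≠ anc E.n m - (y2 + d') := by
  obtain ⟨-, -, -, -, -, h1, h2⟩ := h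
  refine ⟨PD_pos E (h1 _ (by simp)), PD_pos E (h1 _ (by simp)), ?_⟩
  intro h3
  rw [List.nodup_cons] at h2
  exact h2.1 (by rw [h3]; simp)

private theorem pg_tw_card {d d' : ℤ} {m : ℕ} {y2 : ℤ} (h : E.tw1 d d' m y2) :
    (twPack E d d' m y2).G.card = 2 :=
  Finset.card_pair (pg_tw_facts E h).2.2

theorem tw_gad {d d' : ℤ} {m : ℕ} {y2 : ℤ} (h : E.tw1 d d' m y2) (hd : 0 < d) (hd' : 0 < d')
    (h1 : d ∉ (twPack E d d' m y2).G) (h2 : d' ∉ (twPack E d d' m y2).G) :
    PGad E {twPack E d d' m y2} {d, d'} (twPack E d d' m y2).G := by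
  obtain ⟨ha, ha', -⟩ := pg_tw_facts E h
  refine ⟨?_, ?_, ?_⟩
  · rw [pg_tw_card E h, Finset.card_singleton]
  · intro o ho
    rcases Finset.mem_insert.1 ho with rfl | ho
    · exact h1
    · rw [Finset.mem_singleton.1 ho]; exact h2
  · intro o ho
    rcases Finset.mem_insert.1 ho with rfl | ho
    · refine ⟨fun _ => y2 + o, ?_, ?_⟩
      · intro p hp
        rw [Finset.mem_singleton.1 hp]
        exact Finset.mem_insert_self _ _
      · rw [pg_DS_single]
        change ({|y2 + o - anc E.n m|, |y2 + o - (2 * y2 + o + d' - anc E.n m)|,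
          |y2 + o - y2|} : Finset ℤ) = {o, anc E.n m - (y2 + o), anc E.n m - (y2 + d')}
        have e1 : |y2 + o - anc E.n m| = anc E.n m - (y2 + o) := by
          rw [abs_sub_comm, abs_of_pos (by omega)]
        have e2 : |y2 + o - (2 * y2 + o + d' - anc E.n m)| = anc E.n m - (y2 + d') := by
          rw [show y2 + o - (2 * y2 + o + d' - anc E.n m) = anc E.n m - (y2 + d') by ring,
            abs_of_pos (by omega)]
        have e3 : |y2 + o - y2| = o := by
          rw [add_sub_cancel_left, abs_of_pos hd]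
        rw [e1, e2, e3, pg_s4]
    · rw [Finset.mem_singleton.1 ho]
      refine ⟨fun _ => y2 + d', ?_, ?_⟩
      · intro p hp
        rw [Finset.mem_singleton.1 hp]
        exact Finset.mem_insert_of_mem (Finset.mem_singleton_self _)
      · rw [pg_DS_single]
        change ({|y2 + d' - anc E.n m|, |y2 + d' - (2 * y2 + d + d' - anc E.n m)|,
          |y2 + d' - y2|} : Finset ℤ) = {d', anc E.n m - (y2 + d), anc E.n m - (y2 + d')}
        have e1 : |y2 + d' - anc E.n m| = anc E.n m - (y2 + d') := by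
          rw [abs_sub_comm, abs_of_pos (by omega)]
        have e2 : |y2 + d' - (2 * y2 + d + d' - anc E.n m)| = anc E.n m - (y2 + d) := by
          rw [show y2 + d' - (2 * y2 + d + d' - anc E.n m) = anc E.n m - (y2 + d) by ring,
            abs_of_pos (by omega)]
        have e3 : |y2 + d' - y2| = d' := by
          rw [add_sub_cancel_left, abs_of_pos hd']
        rw [e1, e2, e3, pg_s5]

/-- two packs with labels `A` and those of `z'` -/
private theorem pg_two {ep tp : Pack} (hne : ep ≠ tp) {A : ℤ} {z' : Pack → ℤ} {o r : ℤ}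
    {D W W' : Finset ℤ} (hA : A ∈ ep.J) (hz' : ∀ p ∈ ({tp} : Finset Pack), z' p ∈ p.J)
    (hD : ({|A - anc E.n ep.m|, |A - ep.a1|, |A - ep.a2|} : Finset ℤ) = D)
    (hDS : DS E {tp} z' = insert r W') (hT : D ∪ insert r W' = insert o W) :
    ∃ z : Pack → ℤ, (∀ p ∈ ({ep, tp} : Finset Pack), z p ∈ p.J) ∧
      DS E {ep, tp} z = insert o W := by
  classical
  refine ⟨fun p => if p = ep then A else z' p, ?_, ?_⟩
  · intro p hp
    rcases Finset.mem_insert.1 hp with rfl | hp
    · simpa using hA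
    · have h1 : p = tp := Finset.mem_singleton.1 hp
      subst h1
      have h2 := hz' p (Finset.mem_singleton_self p)
      simpa [hne.symm] using h2
  · have h1 : ({ep, tp} : Finset Pack) = {ep} ∪ {tp} := rfl
    rw [h1, DS_union, pg_DS_single, DS_congr E (z' := z')]
    · rw [hDS, ← hT, ← hD]
      simp
    · intro p hp
      rw [Finset.mem_singleton.1 hp]
      simp [hne.symm]

theorem eo_gad {d : ℤ} {m : ℕ} {x b2 : ℤ} (h : E.eo d m x b2) {m' : ℕ} {y : ℤ}
    (ht : E.tw1 (Env.eoD d (anc E.n m) x b2 1) (Env.eoD d (anc E.n m) x b2 4) m' y)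
    (hne : eoPack E d m x b2 ≠
      twPack E (Env.eoD d (anc E.n m) x b2 1) (Env.eoD d (anc E.n m) x b2 4) m' y)
    (hdis : Disjoint (eoPack E d m x b2).G
      (twPack E (Env.eoD d (anc E.n m) x b2 1) (Env.eoD d (anc E.n m) x b2 4) m' y).G)
    (hd : 0 < d) (hd1 : d ∉ (eoPack E d m x b2).G)
    (hd2 : d ∉ (twPack E (Env.eoD d (anc E.n m) x b2 1)
      (Env.eoD d (anc E.n m) x b2 4) m' y).G) :
    PGad E {eoPack E d m x b2,
        twPack E (Env.eoD d (anc E.n m) x b2 1) (Env.eoD d (anc E.n m) x b2 4) m' y}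
      {d, Env.eoD d (anc E.n m) x b2 0, Env.eoD d (anc E.n m) x b2 3}
      ({Env.eoD d (anc E.n m) x b2 1, Env.eoD d (anc E.n m) x b2 2,
        Env.eoD d (anc E.n m) x b2 4} ∪
        (twPack E (Env.eoD d (anc E.n m) x b2 1) (Env.eoD d (anc E.n m) x b2 4) m' y).G) := by
  obtain ⟨-, -, -, -, -, hPD, hnd, -⟩ := h
  have p0 := PD_pos E (hPD (Env.eoD d (anc E.n m) x b2 0) (by simp))
  have p1 := PD_pos E (hPD (Env.eoD d (anc E.n m) x b2 1) (by simp))
  have p2 := PD_pos E (hPD (Env.eoD d (anc E.n m) x b2 2) (by simp))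
  have p3 := PD_pos E (hPD (Env.eoD d (anc E.n m) x b2 3) (by simp))
  have p4 := PD_pos E (hPD (Env.eoD d (anc E.n m) x b2 4) (by simp))
  have e0 : Env.eoD d (anc E.n m) x b2 0 = |b2 + anc E.n m - x - (x - d)| := rfl
  have e1 : Env.eoD d (anc E.n m) x b2 1 = x - b2 := rfl
  have e2 : Env.eoD d (anc E.n m) x b2 2 = anc E.n m - x := rfl
  have e3 : Env.eoD d (anc E.n m) x b2 3 = 2 * anc E.n m - b2 - x := rfl
  have e4 : Env.eoD d (anc E.n m) x b2 4 = |x + b2 - anc E.n m - (x - d)| := rfl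
  have hG : ∀ i : Fin 5, Env.eoD d (anc E.n m) x b2 i ∈ (eoPack E d m x b2).G := fun i =>
    Finset.mem_image_of_mem _ (Finset.mem_univ i)
  have hnG : ∀ i : Fin 5, Env.eoD d (anc E.n m) x b2 i ∉
      (twPack E (Env.eoD d (anc E.n m) x b2 1) (Env.eoD d (anc E.n m) x b2 4) m' y).G :=
    fun i => Finset.disjoint_left.1 hdis (hG i)
  obtain ⟨-, -, hz⟩ := tw_gad E ht (by omega) (by omega) (hnG 1) (hnG 4)
  obtain ⟨z1, hz1, hz1'⟩ := hz (Env.eoD d (anc E.n m) x b2 1) (Finset.mem_insert_self _ _)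
  obtain ⟨z4, hz4, hz4'⟩ := hz (Env.eoD d (anc E.n m) x b2 4)
    (Finset.mem_insert_of_mem (Finset.mem_singleton_self _))
  have hcard := pg_tw_card E ht
  simp only [List.nodup_cons, List.mem_cons, not_or] at hnd
  obtain ⟨⟨n01, n02, n03, n04, -⟩, ⟨n12, n13, n14, -⟩, ⟨n23, n24, -⟩, ⟨n34, -⟩, -⟩ := hnd
  have hd1' : ∀ i : Fin 5, d ≠ Env.eoD d (anc E.n m) x b2 i := fun i hi => by
    have h1 := hG i
    rw [← hi] at h1
    exact hd1 h1
  refine ⟨?_, ?_, ?_⟩
  · have c3 : ({Env.eoD d (anc E.n m) x b2 1, Env.eoD d (anc E.n m) x b2 2,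
        Env.eoD d (anc E.n m) x b2 4} : Finset ℤ).card = 3 :=
      Finset.card_eq_three.2 ⟨_, _, _, n12, n14, n24, rfl⟩
    rw [Finset.card_union_of_disjoint, c3, hcard, Finset.card_pair hne]
    rw [Finset.disjoint_left]
    intro w hw
    simp only [Finset.mem_insert, Finset.mem_singleton] at hw
    rcases hw with rfl | rfl | rfl
    · exact hnG 1
    · exact hnG 2
    · exact hnG 4
  · intro o ho
    simp only [Finset.mem_insert, Finset.mem_singleton] at ho
    rw [Finset.mem_union, not_or]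
    rcases ho with rfl | rfl | rfl
    · refine ⟨?_, hd2⟩
      simp only [Finset.mem_insert, Finset.mem_singleton, not_or]
      exact ⟨hd1' 1, hd1' 2, hd1' 4⟩
    · refine ⟨?_, hnG 0⟩
      simp only [Finset.mem_insert, Finset.mem_singleton, not_or]
      exact ⟨n01, n02, n04⟩
    · refine ⟨?_, hnG 3⟩
      simp only [Finset.mem_insert, Finset.mem_singleton, not_or]
      exact ⟨fun h => n13 h.symm, fun h => n23 h.symm, n34⟩
  · intro o ho
    simp only [Finset.mem_insert, Finset.mem_singleton] at ho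
    rcases ho with rfl | rfl | rfl
    · -- option d, item label x
      refine pg_two E hne (A := x) (r := Env.eoD o (anc E.n m) x b2 4) ?_ hz4 ?_ hz4' ?_
        (D := {Env.eoD o (anc E.n m) x b2 2, o, Env.eoD o (anc E.n m) x b2 1})
      · exact Finset.mem_insert_self _ _
      · change ({|x - anc E.n m|, |x - (x - o)|, |x - b2|} : Finset ℤ) = _
        have f1 : |x - anc E.n m| = Env.eoD o (anc E.n m) x b2 2 := by
          rw [e2, abs_sub_comm, abs_of_pos (by omega)]
        have f2 : |x - (x - o)| = o := by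
          rw [sub_sub_cancel, abs_of_pos hd]
        have f3 : |x - b2| = Env.eoD o (anc E.n m) x b2 1 := by
          rw [e1, abs_of_pos (by omega)]
        rw [f1, f2, f3]
      · exact pg_s1 _ _ _ _ _
    · -- option al'
      refine pg_two E hne (A := b2 + anc E.n m - x)
        (r := Env.eoD d (anc E.n m) x b2 4) ?_ hz4 ?_ hz4' ?_
        (D := {Env.eoD d (anc E.n m) x b2 1, Env.eoD d (anc E.n m) x b2 0,
          Env.eoD d (anc E.n m) x b2 2})
      · exact Finset.mem_insert_of_mem (Finset.mem_insert_self _ _)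
      · change ({|b2 + anc E.n m - x - anc E.n m|, |b2 + anc E.n m - x - (x - d)|,
          |b2 + anc E.n m - x - b2|} : Finset ℤ) = _
        have f1 : |b2 + anc E.n m - x - anc E.n m| = Env.eoD d (anc E.n m) x b2 1 := by
          rw [e1, show b2 + anc E.n m - x - anc E.n m = -(x - b2) by ring, abs_neg,
            abs_of_pos (by omega)]
        have f3 : |b2 + anc E.n m - x - b2| = Env.eoD d (anc E.n m) x b2 2 := by
          rw [e2, show b2 + anc E.n m - x - b2 = anc E.n m - x by ring, abs_of_pos (by omega)]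
        rw [f1, f3]
        rfl
      · exact pg_s2 _ _ _ _ _
    · -- option al''
      refine pg_two E hne (A := x + b2 - anc E.n m)
        (r := Env.eoD d (anc E.n m) x b2 1) ?_ hz1 ?_ hz1' ?_
        (D := {Env.eoD d (anc E.n m) x b2 3, Env.eoD d (anc E.n m) x b2 4,
          Env.eoD d (anc E.n m) x b2 2})
      · exact Finset.mem_insert_of_mem (Finset.mem_insert_of_mem (Finset.mem_singleton_self _))
      · change ({|x + b2 - anc E.n m - anc E.n m|, |x + b2 - anc E.n m - (x - d)|,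
          |x + b2 - anc E.n m - b2|} : Finset ℤ) = _
        have f1 : |x + b2 - anc E.n m - anc E.n m| = Env.eoD d (anc E.n m) x b2 3 := by
          rw [e3, show x + b2 - anc E.n m - anc E.n m = -(2 * anc E.n m - b2 - x) by ring,
            abs_neg, abs_of_pos (by omega)]
        have f3 : |x + b2 - anc E.n m - b2| = Env.eoD d (anc E.n m) x b2 2 := by
          rw [e2, show x + b2 - anc E.n m - b2 = -(anc E.n m - x) by ring, abs_neg,
            abs_of_pos (by omega)]
        rw [f1, f3]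
        rfl
      · exact pg_s3 _ _ _ _ _

theorem gad_comp {Ps1 Ps2 : Finset Pack} {O1 O2 W1 W2 : Finset ℤ} {r : ℤ}
    (h1 : PGad E Ps1 (insert r O1) W1) (h2 : PGad E Ps2 (insert r O2) W2)
    (hP : Disjoint Ps1 Ps2) (hW : Disjoint W1 W2) (h3 : ∀ o ∈ O1, o ∉ W2 ∧ o ≠ r)
    (h4 : ∀ o ∈ O2, o ∉ W1 ∧ o ≠ r) :
    PGad E (Ps1 ∪ Ps2) (O1 ∪ O2) (insert r (W1 ∪ W2)) := by
  classical
  obtain ⟨c1, n1, z1⟩ := h1
  obtain ⟨c2, n2, z2⟩ := h2
  have hr1 : r ∉ W1 := n1 r (Finset.mem_insert_self _ _)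
  have hr2 : r ∉ W2 := n2 r (Finset.mem_insert_self _ _)
  have key : ∀ (z z' : Pack → ℤ), (∀ p ∈ Ps1, z p ∈ p.J) → (∀ p ∈ Ps2, z' p ∈ p.J) →
      ∃ y : Pack → ℤ, (∀ p ∈ Ps1 ∪ Ps2, y p ∈ p.J) ∧
        DS E (Ps1 ∪ Ps2) y = DS E Ps1 z ∪ DS E Ps2 z' := by
    intro z z' hz hz'
    refine ⟨fun p => if p ∈ Ps1 then z p else z' p, ?_, ?_⟩
    · intro p hp
      by_cases h : p ∈ Ps1
      · simpa [h] using hz p h
      · have h' : p ∈ Ps2 := (Finset.mem_union.1 hp).resolve_left h
        simpa [h] using hz' p h'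
    · rw [DS_union]
      congr 1
      · exact DS_congr E fun p hp => by simp [hp]
      · exact DS_congr E fun p hp => by
          have : p ∉ Ps1 := Finset.disjoint_right.1 hP hp
          simp [this]
  refine ⟨?_, ?_, ?_⟩
  · rw [Finset.card_insert_of_notMem, Finset.card_union_of_disjoint hW,
      Finset.card_union_of_disjoint hP]
    · omega
    · rw [Finset.mem_union, not_or]
      exact ⟨hr1, hr2⟩
  · intro o ho
    rw [Finset.mem_insert, Finset.mem_union, not_or, not_or]
    rcases Finset.mem_union.1 ho with ho | ho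
    · exact ⟨(h3 o ho).2, n1 o (Finset.mem_insert_of_mem ho), (h3 o ho).1⟩
    · exact ⟨(h4 o ho).2, (h4 o ho).1, n2 o (Finset.mem_insert_of_mem ho)⟩
  · intro o ho
    rcases Finset.mem_union.1 ho with ho | ho
    · obtain ⟨a, ha, ha'⟩ := z1 o (Finset.mem_insert_of_mem ho)
      obtain ⟨b, hb, hb'⟩ := z2 r (Finset.mem_insert_self _ _)
      obtain ⟨y, hy, hy'⟩ := key a b ha hb
      refine ⟨y, hy, ?_⟩
      rw [hy', ha', hb', pg_s6]
    · obtain ⟨a, ha, ha'⟩ := z1 r (Finset.mem_insert_self _ _)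
      obtain ⟨b, hb, hb'⟩ := z2 o (Finset.mem_insert_of_mem ho)
      obtain ⟨y, hy, hy'⟩ := key a b ha hb
      refine ⟨y, hy, ?_⟩
      rw [hy', ha', hb', pg_s7]

theorem gad_mono {Ps : Finset Pack} {O O' W : Finset ℤ} (h : PGad E Ps O W) (hO : O' ⊆ O) :
    PGad E Ps O' W :=
  ⟨h.1, fun o ho => h.2.1 o (hO ho), fun o ho => h.2.2 o (hO ho)⟩

end Pool.Agent.PGr.PPk
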