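import Mathlib
import Pool.Agent.PGr.PFm

/-!
# PGr-P-Tw: one more two-way pack

PLAN. Put `T := κ n / q^2` (`T ≥ 2` for large `n`, since `n / q^2 ≥ n^(2/3)`: `q^6 ≤ n`),
`S := US P3 Ps`, `A := UL L3 Ps`, `D := UD D3 Ps`, `B t := Bl T Ps t`. Sizes: `|S| ≤ 8 ε n`,
`|A| ≤ 6 ε n`, `|D| ≤ 8 ε n`, `|B t| ≤ 2 ε n / T = (2 ε / κ) q^2` (`Bl_card`).
Let `G` be the set of the pairs `(m, y2) ∈ range n ×ˢ PL` with `tw1 d d' m y2`, `|G| ≥ c1 n^2`.
It suffices to find a pair in `G` such that the pack `p := twPack d d' m y2` satisfies the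
hypotheses of `fam_insert`. Write `a = anc m`, `s = d + d' - a`, `y1 = 2 y2 + s`.
BAD `m`: (i) `ball m` meets `S`: at most `7 |S|` (`ball_kill`); (ii) `tag p 0 ∈ B 0` or
`tag p 1 ∈ B 1` (they depend only on `m`): at most `(|B 0| + |B 1|)(n/q^2 + 4)` (`unit_kill`; the
neighbours are not special, `pure_facts`). For the remaining `m` (all `m` with some `(m,y2) ∈ G` are
pure items) the BAD `y2 ∈ PL ⊆ [0, 3n]`:
* labels: `y2 ∈ A`, `2 y2 + s ∈ A`, `y2 + d ∈ A`, `y2 + d' ∈ A`: at most `4 |A|` (injective maps);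
* differences: `a - (y2+d) ∈ D`, `a - (y2+d') ∈ D`, `|y1 - anc (nbp m)| ∈ D`,
  `|y2 - anc (nbm m)| ∈ D`: at most `6 |D|` (an absolute value has two preimages);
* tags 2..5 in the blocked sets. Let `c := pcl p (nbp (w1 m))`: if `nbp (w1 m) = nbm m` (this is the
  case `n/gcd = 4`) then `c = y2`, else `c = cls0 (nbp (w1 m))` (it is not `nbp m` because
  `nbp (nbp (nbp m)) = nbp m` is impossible by `nbp_ne_nbm`); symmetrically `c' := pcl p (nbm (w2 m))`
  is `y1` or `cls0`. tag 2 = `anc w1 - y1`, tag 3 = `c - y1`, tag 4 = `anc w2 - y2`,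
  tag 5 = `y2 - c'` are affine functions of the residue of `y2` in `ZMod (q^2)` with slopes
  `-2`; `-2` or `-1`; `-1`; `1` or `-1`, all units (q odd prime), so at most `|B t|` residue classes
  modulo `q^2` are bad for each `t`: `res_kill`: at most `∑ |B t| (3n/q^2 + 2)`;
* `g1`, `g2` (three classes different mod q): for `w1`: `anc w1 ≠ c`, `anc w1 ≠ y1`, `c ≠ y1`
  (mod q). If `c = cls0 ..`, then `anc w1 ≠ c` mod q by `Gen0` for the item `w1 m ∈ Ck`
  (`nbm (w1 m) = nbp m ∉ P3` and `nbp (w1 m) ∉ P3` because the ball is disjoint from `P3 ⊆ S`); each of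
  the other conditions excludes at most one residue class of `y2` modulo `q`. The same for `w2`.
  At most 6 classes modulo `q`: `res_kill` with `w = q`: at most `6 (3n/q + 2)`.
The remaining fields of `PackOk` follow from `tw1` (`item`, `LPL`, `FPD`, distinctness from the two
`Nodup`s: note that `tw1` lists the labels `[y1, y2, y2+d, y2+d']` and the differences
`[a-(y2+d), a-(y2+d'), spoke1, spoke2]`; `r1 r2 r12` from `inI 1 2`; `cJ, cG` by `card_insert_le`).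
Total number of bad pairs `≤ (56 ε + (4 ε/κ)(1+o(1))) n * (3n+1) + n (24 ε + 48 ε + (8 ε/κ)·4 + o(1)) n
< c1 n^2` for `ε` small enough (depending on `c1, κ`) and `n` large (`n/q → ∞`, `n / q^2 → ∞`: use
`q^6 ≤ n ≤ q^8`, so `q ≥ n^(1/8)`). Some pair of `G` is not bad.
-/

noncomputable section

namespace Pool.Agent.PGr.PPk

open Finset

open Classical in
private def cnt {α : Type} (s : Finset α) (P : α → Prop) : ℝ := ((s.filter P).card : ℝ)

private theorem cnt_eq {α : Type} (s : Finset α) (P : α → Prop) [DecidablePred P] :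
    cnt s P = ((s.filter P).card : ℝ) := by
  unfold cnt
  rw [Finset.filter_congr_decidable]

open Classical in
private theorem cnt_sub {α : Type} (s : Finset α) (P Q R : α → Prop) (h : ∀ y, P y → Q y ∨ R y) :
    cnt s P ≤ cnt s Q + cnt s R := by
  unfold cnt
  rw [← Nat.cast_add]
  refine Nat.cast_le.mpr ((card_le_card ?_).trans (card_union_le _ _))
  intro y hy
  rw [mem_filter] at hy
  rw [mem_union, mem_filter, mem_filter]
  rcases h y hy.2 with h' | h'
  · exact Or.inl ⟨hy.1, h'⟩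
  · exact Or.inr ⟨hy.1, h'⟩

private theorem cnt_or {α : Type} (s : Finset α) (P Q : α → Prop) :
    cnt s (fun y => P y ∨ Q y) ≤ cnt s P + cnt s Q := cnt_sub s _ P Q (fun _ h => h)

open Classical in
private theorem cnt_mono {α : Type} (s : Finset α) {P Q : α → Prop} (h : ∀ y, P y → Q y) :
    cnt s P ≤ cnt s Q := by
  unfold cnt
  refine Nat.cast_le.mpr (card_le_card ?_)
  intro y hy
  rw [mem_filter] at hy ⊢
  exact ⟨hy.1, h y hy.2⟩

open Classical in
private theorem cnt_map (s A : Finset ℤ) (P : ℤ → Prop) (f : ℤ → ℤ) (hf : Function.Injective f)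
    (h : ∀ y, P y → f y ∈ A) : cnt s P ≤ A.card := by
  unfold cnt
  refine Nat.cast_le.mpr (card_le_card_of_injOn f ?_ hf.injOn)
  intro y hy
  rw [mem_coe, mem_filter] at hy
  exact h y hy.2

private theorem cnt_inj (s A : Finset ℤ) (f : ℤ → ℤ) (hf : Function.Injective f) :
    cnt s (fun y => f y ∈ A) ≤ A.card := cnt_map s A _ f hf (fun _ h => h)

private theorem cnt14 (s : Finset ℤ) (P1 P2 P3 P4 P5 P6 P7 P8 P9 P10 P11 P12 P13 P14 : ℤ → Prop) :
    cnt s (fun y => P1 y ∨ P2 y ∨ P3 y ∨ P4 y ∨ P5 y ∨ P6 y ∨ P7 y ∨ P8 y ∨ P9 y ∨ P10 y ∨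
      P11 y ∨ P12 y ∨ P13 y ∨ P14 y) ≤
    cnt s P1 + cnt s P2 + cnt s P3 + cnt s P4 + cnt s P5 + cnt s P6 + cnt s P7 + cnt s P8 +
      cnt s P9 + cnt s P10 + cnt s P11 + cnt s P12 + cnt s P13 + cnt s P14 := by
  have h1 := cnt_or s P1 (fun y => P2 y ∨ P3 y ∨ P4 y ∨ P5 y ∨ P6 y ∨ P7 y ∨ P8 y ∨ P9 y ∨
    P10 y ∨ P11 y ∨ P12 y ∨ P13 y ∨ P14 y)
  have h2 := cnt_or s P2 (fun y => P3 y ∨ P4 y ∨ P5 y ∨ P6 y ∨ P7 y ∨ P8 y ∨ P9 y ∨
    P10 y ∨ P11 y ∨ P12 y ∨ P13 y ∨ P14 y)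
  have h3 := cnt_or s P3 (fun y => P4 y ∨ P5 y ∨ P6 y ∨ P7 y ∨ P8 y ∨ P9 y ∨
    P10 y ∨ P11 y ∨ P12 y ∨ P13 y ∨ P14 y)
  have h4 := cnt_or s P4 (fun y => P5 y ∨ P6 y ∨ P7 y ∨ P8 y ∨ P9 y ∨
    P10 y ∨ P11 y ∨ P12 y ∨ P13 y ∨ P14 y)
  have h5 := cnt_or s P5 (fun y => P6 y ∨ P7 y ∨ P8 y ∨ P9 y ∨
    P10 y ∨ P11 y ∨ P12 y ∨ P13 y ∨ P14 y)
  have h6 := cnt_or s P6 (fun y => P7 y ∨ P8 y ∨ P9 y ∨
    P10 y ∨ P11 y ∨ P12 y ∨ P13 y ∨ P14 y)
  have h7 := cnt_or s P7 (fun y => P8 y ∨ P9 y ∨ P10 y ∨ P11 y ∨ P12 y ∨ P13 y ∨ P14 y)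
  have h8 := cnt_or s P8 (fun y => P9 y ∨ P10 y ∨ P11 y ∨ P12 y ∨ P13 y ∨ P14 y)
  have h9 := cnt_or s P9 (fun y => P10 y ∨ P11 y ∨ P12 y ∨ P13 y ∨ P14 y)
  have h10 := cnt_or s P10 (fun y => P11 y ∨ P12 y ∨ P13 y ∨ P14 y)
  have h11 := cnt_or s P11 (fun y => P12 y ∨ P13 y ∨ P14 y)
  have h12 := cnt_or s P12 (fun y => P13 y ∨ P14 y)
  have h13 := cnt_or s P13 P14
  linarith

private theorem cnt_abs (s A : Finset ℤ) (f : ℤ → ℤ) (hf : Function.Injective f) :
    cnt s (fun y => |f y| ∈ A) ≤ 2 * A.card := by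
  have h1 := cnt_mono s (P := fun y => |f y| ∈ A) (Q := fun y => f y ∈ A ∨ (-f y) ∈ A) (by
    intro y hy
    rcases abs_choice (f y) with h | h
    · left
      rwa [h] at hy
    · right
      rwa [h] at hy)
  have h2 := cnt_or s (fun y => f y ∈ A) (fun y => (-f y) ∈ A)
  have h3 := cnt_inj s A f hf
  have h4 := cnt_inj s A (fun y => -f y) (neg_injective.comp hf)
  linarith

private theorem cnt_aff (n w : ℕ) [NeZero w] (B : Finset (ZMod w)) (A c : ZMod w)
    (hc : IsUnit c) (P : ℤ → Prop) (hP : ∀ y : ℤ, P y → A + c * (y : ZMod w) ∈ B) :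
    cnt (Icc (0 : ℤ) (3 * n)) P ≤ B.card * (3 * n / (w : ℝ) + 2) := by
  classical
  obtain ⟨u, rfl⟩ := hc
  set R : Finset (ZMod w) := B.image (fun v => ((u⁻¹ : (ZMod w)ˣ) : ZMod w) * (v - A)) with hR
  have h1 : cnt (Icc (0 : ℤ) (3 * n)) P ≤
      cnt (Icc (0 : ℤ) (3 * n)) (fun y => ((y : ℤ) : ZMod w) ∈ R) := by
    refine cnt_mono _ ?_
    intro y hy
    rw [hR, mem_image]
    refine ⟨_, hP y hy, ?_⟩
    rw [add_sub_cancel_left, ← mul_assoc, Units.inv_mul, one_mul]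
  have h2 := res_kill n w R
  have h3 : cnt (Icc (0 : ℤ) (3 * n)) (fun y => ((y : ℤ) : ZMod w) ∈ R) ≤
      R.card * (3 * n / (w : ℝ) + 2) := by
    rw [cnt_eq]
    refine le_trans (le_of_eq ?_) h2
    congr
  have h4 : (R.card : ℝ) ≤ B.card := by exact_mod_cast card_image_le
  have h5 : (0 : ℝ) ≤ 3 * n / (w : ℝ) + 2 := by positivity
  exact (h1.trans h3).trans (mul_le_mul_of_nonneg_right h4 h5)

private theorem nbp2_ne {n k : ℕ} (hk : 1 ≤ k) (h : 2 * k < n) {i : ℕ} (hi : i < n) :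
    nbp n k (nbp n k i) ≠ i := by
  intro e
  have h1 := nbm_nbp hk h (nbp_lt h i)
  rw [e] at h1
  exact nbp_ne_nbm hk h hi h1.symm

private theorem nbm2_ne {n k : ℕ} (hk : 1 ≤ k) (h : 2 * k < n) {i : ℕ} (hi : i < n) :
    nbm n k (nbm n k i) ≠ i := by
  intro e
  have h1 := nbp_nbm hk h (nbm_lt h i)
  rw [e] at h1
  exact nbp_ne_nbm hk h hi h1

private theorem two_unit {w q : ℕ} (hq : q.Prime) (h2 : 17 < q) (hw : w = q ∨ w = q ^ 2) :
    IsUnit (2 : ZMod w) := by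
  have h3 : Nat.Coprime 2 q := by
    rw [Nat.coprime_primes Nat.prime_two hq]
    omega
  have h : Nat.Coprime 2 w := by
    rcases hw with rfl | rfl
    · exact h3
    · exact h3.pow_right 2
  have := (ZMod.isUnit_iff_coprime 2 w).mpr h
  simpa using this

variable (E : Env)

/-- the conditions on `y` for the item `m` -/
private def BadY (L3 D3 : Finset ℤ) (T : ℝ) (Ps : Finset Pack) (d d' : ℤ) (m : ℕ) (y : ℤ) :
    Prop :=
  y ∈ UL L3 Ps ∨ 2 * y + d + d' - anc E.n m ∈ UL L3 Ps ∨ y + d ∈ UL L3 Ps ∨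
  y + d' ∈ UL L3 Ps ∨ anc E.n m - (y + d) ∈ UD E D3 Ps ∨ anc E.n m - (y + d') ∈ UD E D3 Ps ∨
  |2 * y + d + d' - anc E.n m - anc E.n (nbp E.n E.k m)| ∈ UD E D3 Ps ∨
  |y - anc E.n (nbm E.n E.k m)| ∈ UD E D3 Ps ∨
  tag E (twPack E d d' m y) 2 ∈ Bl E T Ps 2 ∨ tag E (twPack E d d' m y) 3 ∈ Bl E T Ps 3 ∨
  tag E (twPack E d d' m y) 4 ∈ Bl E T Ps 4 ∨ tag E (twPack E d d' m y) 5 ∈ Bl E T Ps 5 ∨
  ¬ red3 E.q ((anc E.n (w1 E m) : ℤ) : ZMod (E.q ^ 2))
    (pcl E (twPack E d d' m y) (nbp E.n E.k (w1 E m)))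
    (((twPack E d d' m y).a1 : ℤ) : ZMod (E.q ^ 2)) ∨
  ¬ red3 E.q ((anc E.n (w2 E m) : ℤ) : ZMod (E.q ^ 2))
    (((twPack E d d' m y).a2 : ℤ) : ZMod (E.q ^ 2))
    (pcl E (twPack E d d' m y) (nbm E.n E.k (w2 E m)))

open Classical in
private theorem cnt_zero {α : Type} (s : Finset α) {P : α → Prop} (h : ∀ y, ¬ P y) {x : ℝ} (hx : 0 ≤ x) :
    cnt s P ≤ x := by
  unfold cnt
  have : s.filter P = ∅ := by
    rw [filter_eq_empty_iff]
    intro y _
    exact h y
  rw [this]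
  simpa using hx

private theorem bad_count {κ1 ρ c1 : ℝ} (hO : E.Ok κ1 ρ c1) {P3 : Finset ℕ} (L3 D3 : Finset ℤ)
    (T : ℝ) (Ps : Finset Pack) (hgen : Gen0 E P3) (d d' : ℤ) {m : ℕ} (hm : E.pureItem m)
    (hball : Disjoint (ball E m) P3) :
    cnt (Icc (0 : ℤ) (3 * E.n)) (BadY E L3 D3 T Ps d d' m) ≤
      4 * (UL L3 Ps).card + 6 * (UD E D3 Ps).card +
      ((Bl E T Ps 2).card + (Bl E T Ps 3).card + (Bl E T Ps 4).card + (Bl E T Ps 5).card) *
        (3 * E.n / (E.q : ℝ) ^ 2 + 2) + 6 * (3 * E.n / (E.q : ℝ) + 2) := by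
  classical
  have hB := E.base
  obtain ⟨hmn, hsp, hw1, hw2, hs1, hs2⟩ := pure_facts E hB hO.col hm
  have hk := hB.k_pos
  have hk2 := hB.k_lt
  set I : Finset ℤ := Icc (0 : ℤ) (3 * E.n) with hI
  have uQ : IsUnit (2 : ZMod (E.q ^ 2)) := two_unit hB.q_prime hB.q_big (Or.inr rfl)
  have uq : IsUnit (2 : ZMod E.q) := two_unit hB.q_prime hB.q_big (Or.inl rfl)
  -- neighbours
  have hn1 : nbp E.n E.k (w1 E m) ≠ nbp E.n E.k m :=
    nbp2_ne hk hk2 (nbp_lt hk2 m)
  have hn2 : nbm E.n E.k (w2 E m) ≠ nbm E.n E.k m :=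
    nbm2_ne hk hk2 (nbm_lt hk2 m)
  have hP1 : nbp E.n E.k (w1 E m) ∉ P3 := by
    intro h
    exact (Finset.disjoint_left.mp hball) (by simp [ball, w1]) h
  have hP2 : nbm E.n E.k (w2 E m) ∉ P3 := by
    intro h
    exact (Finset.disjoint_left.mp hball) (by simp [ball, w2]) h
  have g1 := hgen _ hw1 (Or.inl hP1)
  have g2 := hgen _ hw2 (Or.inr hP2)
  -- values of pcl
  have hpc1 : ∀ y, pcl E (twPack E d d' m y) (nbp E.n E.k (w1 E m)) =
      if nbp E.n E.k (w1 E m) = nbm E.n E.k m then ((y : ℤ) : ZMod (E.q ^ 2))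
      else cls0 E.n E.q (nbp E.n E.k (w1 E m)) := by
    intro y
    unfold pcl
    rw [if_neg (show ¬ nbp E.n E.k (w1 E m) = nbp E.n E.k (twPack E d d' m y).m from hn1)]
    rfl
  have hpc2 : ∀ y, pcl E (twPack E d d' m y) (nbm E.n E.k (w2 E m)) =
      if nbm E.n E.k (w2 E m) = nbp E.n E.k m then
        ((2 * y + d + d' - anc E.n m : ℤ) : ZMod (E.q ^ 2))
      else cls0 E.n E.q (nbm E.n E.k (w2 E m)) := by
    intro y
    unfold pcl
    rw [if_neg (show ¬ nbm E.n E.k (w2 E m) = nbm E.n E.k (twPack E d d' m y).m from hn2)]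
    rfl
  -- labels
  have q1 : cnt I (fun y => y ∈ UL L3 Ps) ≤ (UL L3 Ps).card :=
    cnt_inj I _ (fun y => y) (fun _ _ h => h)
  have q2 : cnt I (fun y => 2 * y + d + d' - anc E.n m ∈ UL L3 Ps) ≤ (UL L3 Ps).card :=
    cnt_inj I _ (fun y => 2 * y + d + d' - anc E.n m) (fun _ _ h => by
      have h' := h
      simp only at h'
      omega)
  have q3 : cnt I (fun y => y + d ∈ UL L3 Ps) ≤ (UL L3 Ps).card :=
    cnt_inj I _ (fun y => y + d) (fun _ _ h => by
      have h' := h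
      simp only at h'
      omega)
  have q4 : cnt I (fun y => y + d' ∈ UL L3 Ps) ≤ (UL L3 Ps).card :=
    cnt_inj I _ (fun y => y + d') (fun _ _ h => by
      have h' := h
      simp only at h'
      omega)
  have q5 : cnt I (fun y => anc E.n m - (y + d) ∈ UD E D3 Ps) ≤ (UD E D3 Ps).card :=
    cnt_inj I _ (fun y => anc E.n m - (y + d)) (fun _ _ h => by
      have h' := h
      simp only at h'
      omega)
  have q6 : cnt I (fun y => anc E.n m - (y + d') ∈ UD E D3 Ps) ≤ (UD E D3 Ps).card :=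
    cnt_inj I _ (fun y => anc E.n m - (y + d')) (fun _ _ h => by
      have h' := h
      simp only at h'
      omega)
  have q7 : cnt I (fun y => |2 * y + d + d' - anc E.n m - anc E.n (nbp E.n E.k m)| ∈ UD E D3 Ps) ≤
      2 * (UD E D3 Ps).card :=
    cnt_abs I _ (fun y => 2 * y + d + d' - anc E.n m - anc E.n (nbp E.n E.k m)) (fun _ _ h => by
      have h' := h
      simp only at h'
      omega)
  have q8 : cnt I (fun y => |y - anc E.n (nbm E.n E.k m)| ∈ UD E D3 Ps) ≤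
      2 * (UD E D3 Ps).card :=
    cnt_abs I _ (fun y => y - anc E.n (nbm E.n E.k m)) (fun _ _ h => by
      have h' := h
      simp only at h'
      omega)
  -- tags
  have eQ : (((E.q ^ 2 : ℕ)) : ℝ) = (E.q : ℝ) ^ 2 := by push_cast; rfl
  have q9 : cnt I (fun y => tag E (twPack E d d' m y) 2 ∈ Bl E T Ps 2) ≤
      (Bl E T Ps 2).card * (3 * E.n / (E.q : ℝ) ^ 2 + 2) := by
    rw [← eQ]
    refine cnt_aff E.n (E.q ^ 2) _ (((anc E.n (w1 E m) - (d + d' - anc E.n m) : ℤ)) : ZMod (E.q ^ 2))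
      (-2) uQ.neg _ ?_
    intro y hy
    have e : tag E (twPack E d d' m y) 2 =
        (((anc E.n (w1 E m) - (d + d' - anc E.n m) : ℤ)) : ZMod (E.q ^ 2)) +
          (-2) * ((y : ℤ) : ZMod (E.q ^ 2)) := by
      change ((anc E.n (w1 E m) : ℤ) : ZMod (E.q ^ 2)) -
        ((2 * y + d + d' - anc E.n m : ℤ) : ZMod (E.q ^ 2)) = _
      push_cast
      ring
    rwa [e] at hy
  have q10 : cnt I (fun y => tag E (twPack E d d' m y) 3 ∈ Bl E T Ps 3) ≤
      (Bl E T Ps 3).card * (3 * E.n / (E.q : ℝ) ^ 2 + 2) := by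
    rw [← eQ]
    by_cases hc : nbp E.n E.k (w1 E m) = nbm E.n E.k m
    · refine cnt_aff E.n (E.q ^ 2) _ (((-(d + d' - anc E.n m) : ℤ)) : ZMod (E.q ^ 2))
        (-1) isUnit_one.neg _ ?_
      intro y hy
      have e : tag E (twPack E d d' m y) 3 =
          (((-(d + d' - anc E.n m) : ℤ)) : ZMod (E.q ^ 2)) +
            (-1) * ((y : ℤ) : ZMod (E.q ^ 2)) := by
        change pcl E (twPack E d d' m y) (nbp E.n E.k (w1 E m)) -
          ((2 * y + d + d' - anc E.n m : ℤ) : ZMod (E.q ^ 2)) = _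
        rw [hpc1, if_pos hc]
        push_cast
        ring
      rwa [e] at hy
    · refine cnt_aff E.n (E.q ^ 2) _ (cls0 E.n E.q (nbp E.n E.k (w1 E m)) -
        (((d + d' - anc E.n m : ℤ)) : ZMod (E.q ^ 2))) (-2) uQ.neg _ ?_
      intro y hy
      have e : tag E (twPack E d d' m y) 3 = (cls0 E.n E.q (nbp E.n E.k (w1 E m)) -
          (((d + d' - anc E.n m : ℤ)) : ZMod (E.q ^ 2))) +
            (-2) * ((y : ℤ) : ZMod (E.q ^ 2)) := by
        change pcl E (twPack E d d' m y) (nbp E.n E.k (w1 E m)) -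
          ((2 * y + d + d' - anc E.n m : ℤ) : ZMod (E.q ^ 2)) = _
        rw [hpc1, if_neg hc]
        push_cast
        ring
      rwa [e] at hy
  have q11 : cnt I (fun y => tag E (twPack E d d' m y) 4 ∈ Bl E T Ps 4) ≤
      (Bl E T Ps 4).card * (3 * E.n / (E.q : ℝ) ^ 2 + 2) := by
    rw [← eQ]
    refine cnt_aff E.n (E.q ^ 2) _ ((anc E.n (w2 E m) : ℤ) : ZMod (E.q ^ 2))
      (-1) isUnit_one.neg _ ?_
    intro y hy
    have e : tag E (twPack E d d' m y) 4 =
        ((anc E.n (w2 E m) : ℤ) : ZMod (E.q ^ 2)) + (-1) * ((y : ℤ) : ZMod (E.q ^ 2)) := by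
      change ((anc E.n (w2 E m) : ℤ) : ZMod (E.q ^ 2)) - ((y : ℤ) : ZMod (E.q ^ 2)) = _
      ring
    rwa [e] at hy
  have q12 : cnt I (fun y => tag E (twPack E d d' m y) 5 ∈ Bl E T Ps 5) ≤
      (Bl E T Ps 5).card * (3 * E.n / (E.q : ℝ) ^ 2 + 2) := by
    rw [← eQ]
    by_cases hc : nbm E.n E.k (w2 E m) = nbp E.n E.k m
    · refine cnt_aff E.n (E.q ^ 2) _ (((-(d + d' - anc E.n m) : ℤ)) : ZMod (E.q ^ 2))
        (-1) isUnit_one.neg _ ?_
      intro y hy
      have e : tag E (twPack E d d' m y) 5 =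
          (((-(d + d' - anc E.n m) : ℤ)) : ZMod (E.q ^ 2)) +
            (-1) * ((y : ℤ) : ZMod (E.q ^ 2)) := by
        change ((y : ℤ) : ZMod (E.q ^ 2)) -
          pcl E (twPack E d d' m y) (nbm E.n E.k (w2 E m)) = _
        rw [hpc2, if_pos hc]
        push_cast
        ring
      rwa [e] at hy
    · refine cnt_aff E.n (E.q ^ 2) _ (-cls0 E.n E.q (nbm E.n E.k (w2 E m))) 1 isUnit_one _ ?_
      intro y hy
      have e : tag E (twPack E d d' m y) 5 = (-cls0 E.n E.q (nbm E.n E.k (w2 E m))) +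
            1 * ((y : ℤ) : ZMod (E.q ^ 2)) := by
        change ((y : ℤ) : ZMod (E.q ^ 2)) -
          pcl E (twPack E d d' m y) (nbm E.n E.k (w2 E m)) = _
        rw [hpc2, if_neg hc]
        ring
      rwa [e] at hy
  -- generic
  have hpos : (0 : ℝ) ≤ 3 * E.n / (E.q : ℝ) + 2 := by positivity
  have aff0 : ∀ (A c : ZMod E.q) (hc : IsUnit c) (P : ℤ → Prop),
      (∀ y : ℤ, P y → A + c * (y : ZMod E.q) = 0) → cnt I P ≤ 3 * E.n / (E.q : ℝ) + 2 := by
    intro A c hc P hP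
    have := cnt_aff E.n E.q {0} A c hc P (fun y hy => by
      rw [mem_singleton]
      exact hP y hy)
    rw [card_singleton, Nat.cast_one, one_mul] at this
    exact this
  have rI : ∀ z : ℤ, red E.q ((z : ℤ) : ZMod (E.q ^ 2)) = ((z : ℤ) : ZMod E.q) := fun z =>
    map_intCast (red E.q) z
  have q13 : cnt I (fun y => ¬ red3 E.q ((anc E.n (w1 E m) : ℤ) : ZMod (E.q ^ 2))
      (pcl E (twPack E d d' m y) (nbp E.n E.k (w1 E m)))
      (((twPack E d d' m y).a1 : ℤ) : ZMod (E.q ^ 2))) ≤ 3 * (3 * E.n / (E.q : ℝ) + 2) := by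
    have h1 : cnt I (fun y => red E.q ((anc E.n (w1 E m) : ℤ) : ZMod (E.q ^ 2)) =
        red E.q (pcl E (twPack E d d' m y) (nbp E.n E.k (w1 E m)))) ≤
        3 * E.n / (E.q : ℝ) + 2 := by
      by_cases hc : nbp E.n E.k (w1 E m) = nbm E.n E.k m
      · refine aff0 ((anc E.n (w1 E m) : ℤ) : ZMod E.q) (-1) isUnit_one.neg _ ?_
        intro y hy
        rw [hpc1, if_pos hc, rI, rI] at hy
        rw [hy]
        ring
      · refine cnt_zero I ?_ hpos
        intro y hy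
        rw [hpc1, if_neg hc] at hy
        exact g1.1 hy
    have h2 : cnt I (fun y => red E.q ((anc E.n (w1 E m) : ℤ) : ZMod (E.q ^ 2)) =
        red E.q (((twPack E d d' m y).a1 : ℤ) : ZMod (E.q ^ 2))) ≤
        3 * E.n / (E.q : ℝ) + 2 := by
      refine aff0 (((anc E.n (w1 E m) - (d + d' - anc E.n m) : ℤ)) : ZMod E.q) (-2) uq.neg _ ?_
      intro y hy
      rw [rI, rI] at hy
      have e : (((twPack E d d' m y).a1 : ℤ) : ZMod E.q) =
        ((2 * y + d + d' - anc E.n m : ℤ) : ZMod E.q) := rfl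
      rw [e] at hy
      push_cast at hy ⊢
      rw [hy]
      ring
    have h3 : cnt I (fun y => red E.q (pcl E (twPack E d d' m y) (nbp E.n E.k (w1 E m))) =
        red E.q (((twPack E d d' m y).a1 : ℤ) : ZMod (E.q ^ 2))) ≤
        3 * E.n / (E.q : ℝ) + 2 := by
      by_cases hc : nbp E.n E.k (w1 E m) = nbm E.n E.k m
      · refine aff0 (((-(d + d' - anc E.n m) : ℤ)) : ZMod E.q) (-1) isUnit_one.neg _ ?_
        intro y hy
        rw [hpc1, if_pos hc, rI, rI] at hy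
        have e : (((twPack E d d' m y).a1 : ℤ) : ZMod E.q) =
          ((2 * y + d + d' - anc E.n m : ℤ) : ZMod E.q) := rfl
        rw [e] at hy
        push_cast at hy ⊢
        linear_combination hy
      · refine aff0 (red E.q (cls0 E.n E.q (nbp E.n E.k (w1 E m))) -
          (((d + d' - anc E.n m : ℤ)) : ZMod E.q)) (-2) uq.neg _ ?_
        intro y hy
        rw [hpc1, if_neg hc, rI] at hy
        have e : (((twPack E d d' m y).a1 : ℤ) : ZMod E.q) =
          ((2 * y + d + d' - anc E.n m : ℤ) : ZMod E.q) := rfl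
        rw [e] at hy
        push_cast at hy ⊢
        linear_combination hy
    have h4 := cnt_mono I (P := fun y => ¬ red3 E.q ((anc E.n (w1 E m) : ℤ) : ZMod (E.q ^ 2))
      (pcl E (twPack E d d' m y) (nbp E.n E.k (w1 E m)))
      (((twPack E d d' m y).a1 : ℤ) : ZMod (E.q ^ 2)))
      (Q := fun y => (red E.q ((anc E.n (w1 E m) : ℤ) : ZMod (E.q ^ 2)) =
        red E.q (pcl E (twPack E d d' m y) (nbp E.n E.k (w1 E m)))) ∨
        ((red E.q ((anc E.n (w1 E m) : ℤ) : ZMod (E.q ^ 2)) =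
          red E.q (((twPack E d d' m y).a1 : ℤ) : ZMod (E.q ^ 2))) ∨
        (red E.q (pcl E (twPack E d d' m y) (nbp E.n E.k (w1 E m))) =
        red E.q (((twPack E d d' m y).a1 : ℤ) : ZMod (E.q ^ 2))))) (by
      intro y hy
      unfold red3 at hy
      tauto)
    have h5 := cnt_or I (fun y => (red E.q ((anc E.n (w1 E m) : ℤ) : ZMod (E.q ^ 2)) =
        red E.q (pcl E (twPack E d d' m y) (nbp E.n E.k (w1 E m))))) (fun y =>
        ((red E.q ((anc E.n (w1 E m) : ℤ) : ZMod (E.q ^ 2)) =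
          red E.q (((twPack E d d' m y).a1 : ℤ) : ZMod (E.q ^ 2))) ∨
        (red E.q (pcl E (twPack E d d' m y) (nbp E.n E.k (w1 E m))) =
        red E.q (((twPack E d d' m y).a1 : ℤ) : ZMod (E.q ^ 2)))))
    have h6 := cnt_or I (fun y =>
        (red E.q ((anc E.n (w1 E m) : ℤ) : ZMod (E.q ^ 2)) =
          red E.q (((twPack E d d' m y).a1 : ℤ) : ZMod (E.q ^ 2)))) (fun y =>
        (red E.q (pcl E (twPack E d d' m y) (nbp E.n E.k (w1 E m))) =
        red E.q (((twPack E d d' m y).a1 : ℤ) : ZMod (E.q ^ 2))))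
    linarith
  have q14 : cnt I (fun y => ¬ red3 E.q ((anc E.n (w2 E m) : ℤ) : ZMod (E.q ^ 2))
      (((twPack E d d' m y).a2 : ℤ) : ZMod (E.q ^ 2))
      (pcl E (twPack E d d' m y) (nbm E.n E.k (w2 E m)))) ≤ 3 * (3 * E.n / (E.q : ℝ) + 2) := by
    have h1 : cnt I (fun y => red E.q ((anc E.n (w2 E m) : ℤ) : ZMod (E.q ^ 2)) =
        red E.q (pcl E (twPack E d d' m y) (nbm E.n E.k (w2 E m)))) ≤
        3 * E.n / (E.q : ℝ) + 2 := by
      by_cases hc : nbm E.n E.k (w2 E m) = nbp E.n E.k m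
      · refine aff0 (((anc E.n (w2 E m) - (d + d' - anc E.n m) : ℤ)) : ZMod E.q) (-2) uq.neg _ ?_
        intro y hy
        rw [hpc2, if_pos hc, rI, rI] at hy
        push_cast at hy ⊢
        rw [hy]
        ring
      · refine cnt_zero I ?_ hpos
        intro y hy
        rw [hpc2, if_neg hc] at hy
        exact g2.2.1 hy
    have h2 : cnt I (fun y => red E.q ((anc E.n (w2 E m) : ℤ) : ZMod (E.q ^ 2)) =
        red E.q (((twPack E d d' m y).a2 : ℤ) : ZMod (E.q ^ 2))) ≤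
        3 * E.n / (E.q : ℝ) + 2 := by
      refine aff0 ((anc E.n (w2 E m) : ℤ) : ZMod E.q) (-1) isUnit_one.neg _ ?_
      intro y hy
      rw [rI, rI] at hy
      have e : (((twPack E d d' m y).a2 : ℤ) : ZMod E.q) = ((y : ℤ) : ZMod E.q) := rfl
      rw [e] at hy
      rw [hy]
      ring
    have h3 : cnt I (fun y => red E.q (((twPack E d d' m y).a2 : ℤ) : ZMod (E.q ^ 2)) =
        red E.q (pcl E (twPack E d d' m y) (nbm E.n E.k (w2 E m)))) ≤
        3 * E.n / (E.q : ℝ) + 2 := by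
      by_cases hc : nbm E.n E.k (w2 E m) = nbp E.n E.k m
      · refine aff0 (((-(d + d' - anc E.n m) : ℤ)) : ZMod E.q) (-1) isUnit_one.neg _ ?_
        intro y hy
        rw [hpc2, if_pos hc, rI, rI] at hy
        have e : (((twPack E d d' m y).a2 : ℤ) : ZMod E.q) = ((y : ℤ) : ZMod E.q) := rfl
        rw [e] at hy
        push_cast at hy ⊢
        linear_combination hy
      · refine aff0 (-red E.q (cls0 E.n E.q (nbm E.n E.k (w2 E m)))) 1 isUnit_one _ ?_
        intro y hy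
        rw [hpc2, if_neg hc, rI] at hy
        have e : (((twPack E d d' m y).a2 : ℤ) : ZMod E.q) = ((y : ℤ) : ZMod E.q) := rfl
        rw [e] at hy
        linear_combination hy
    have h4 := cnt_mono I (P := fun y => ¬ red3 E.q ((anc E.n (w2 E m) : ℤ) : ZMod (E.q ^ 2))
      (((twPack E d d' m y).a2 : ℤ) : ZMod (E.q ^ 2))
      (pcl E (twPack E d d' m y) (nbm E.n E.k (w2 E m))))
      (Q := fun y => (red E.q ((anc E.n (w2 E m) : ℤ) : ZMod (E.q ^ 2)) =
        red E.q (pcl E (twPack E d d' m y) (nbm E.n E.k (w2 E m)))) ∨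
        ((red E.q ((anc E.n (w2 E m) : ℤ) : ZMod (E.q ^ 2)) =
        red E.q (((twPack E d d' m y).a2 : ℤ) : ZMod (E.q ^ 2))) ∨
        (red E.q (((twPack E d d' m y).a2 : ℤ) : ZMod (E.q ^ 2)) =
        red E.q (pcl E (twPack E d d' m y) (nbm E.n E.k (w2 E m)))))) (by
      intro y hy
      unfold red3 at hy
      tauto)
    have h5 := cnt_or I (fun y => (red E.q ((anc E.n (w2 E m) : ℤ) : ZMod (E.q ^ 2)) =
        red E.q (pcl E (twPack E d d' m y) (nbm E.n E.k (w2 E m))))) (fun y =>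
        ((red E.q ((anc E.n (w2 E m) : ℤ) : ZMod (E.q ^ 2)) =
        red E.q (((twPack E d d' m y).a2 : ℤ) : ZMod (E.q ^ 2))) ∨
        (red E.q (((twPack E d d' m y).a2 : ℤ) : ZMod (E.q ^ 2)) =
        red E.q (pcl E (twPack E d d' m y) (nbm E.n E.k (w2 E m))))))
    have h6 := cnt_or I (fun y =>
        (red E.q ((anc E.n (w2 E m) : ℤ) : ZMod (E.q ^ 2)) =
        red E.q (((twPack E d d' m y).a2 : ℤ) : ZMod (E.q ^ 2)))) (fun y =>
        (red E.q (((twPack E d d' m y).a2 : ℤ) : ZMod (E.q ^ 2)) =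
        red E.q (pcl E (twPack E d d' m y) (nbm E.n E.k (w2 E m)))))
    linarith
  -- sum
  have hsum : cnt I (BadY E L3 D3 T Ps d d' m) ≤ _ := cnt14 I _ _ _ _ _ _ _ _ _ _ _ _ _ _
  linarith

/-- the conditions on `m` -/
private def BadM (P3 : Finset ℕ) (T : ℝ) (Ps : Finset Pack) (m : ℕ) : Prop :=
  ¬ Disjoint (ball E m) (US E P3 Ps) ∨
  ((¬ spec E.n (nbp E.n E.k m) ∧ un E.n E.q (nbp E.n E.k m) ∈ Bl E T Ps 0) ∨
  (¬ spec E.n (nbm E.n E.k m) ∧ un E.n E.q (nbm E.n E.k m) ∈ Bl E T Ps 1))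

private theorem badM_count (P3 : Finset ℕ) (T : ℝ) (Ps : Finset Pack) :
    cnt (range E.n) (BadM E P3 T Ps) ≤ 7 * (US E P3 Ps).card +
      ((Bl E T Ps 0).card + (Bl E T Ps 1).card) * (E.n / (E.q : ℝ) ^ 2 + 4) := by
  classical
  have h1 := cnt_or (range E.n) (fun m => ¬ Disjoint (ball E m) (US E P3 Ps))
    (fun m => (¬ spec E.n (nbp E.n E.k m) ∧ un E.n E.q (nbp E.n E.k m) ∈ Bl E T Ps 0) ∨
      (¬ spec E.n (nbm E.n E.k m) ∧ un E.n E.q (nbm E.n E.k m) ∈ Bl E T Ps 1))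
  have h2 := cnt_or (range E.n)
    (fun m => (¬ spec E.n (nbp E.n E.k m) ∧ un E.n E.q (nbp E.n E.k m) ∈ Bl E T Ps 0))
    (fun m => (¬ spec E.n (nbm E.n E.k m) ∧ un E.n E.q (nbm E.n E.k m) ∈ Bl E T Ps 1))
  have h3 : cnt (range E.n) (fun m => ¬ Disjoint (ball E m) (US E P3 Ps)) ≤
      7 * (US E P3 Ps).card := by
    rw [cnt_eq]
    have := ball_kill E E.base (US E P3 Ps)
    exact_mod_cast this
  have h4 : cnt (range E.n)
      (fun m => (¬ spec E.n (nbp E.n E.k m) ∧ un E.n E.q (nbp E.n E.k m) ∈ Bl E T Ps 0)) ≤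
      (Bl E T Ps 0).card * (E.n / (E.q : ℝ) ^ 2 + 4) := by
    have := (unit_kill E E.base (Bl E T Ps 0)).1
    rw [cnt_eq]
    refine le_trans (le_of_eq ?_) this
    congr
  have h5 : cnt (range E.n)
      (fun m => (¬ spec E.n (nbm E.n E.k m) ∧ un E.n E.q (nbm E.n E.k m) ∈ Bl E T Ps 1)) ≤
      (Bl E T Ps 1).card * (E.n / (E.q : ℝ) ^ 2 + 4) := by
    have := (unit_kill E E.base (Bl E T Ps 1)).2
    rw [cnt_eq]
    refine le_trans (le_of_eq ?_) this
    congr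
  have h6 : cnt (range E.n) (BadM E P3 T Ps) ≤ _ := h1
  linarith

open Classical in
private theorem pair_count (n : ℕ) (B : Finset ℤ) (G : ℕ × ℤ → Prop) (M : ℕ → Prop) (b : ℝ)
    (hb : 0 ≤ b) (h : ∀ m < n, ¬ M m → cnt B (fun y => G (m, y)) ≤ b) :
    cnt ((range n) ×ˢ B) G ≤ cnt (range n) M * B.card + n * b := by
  have h1 : cnt ((range n) ×ˢ B) G = ∑ m ∈ range n,
      (((((range n) ×ˢ B).filter G).filter (fun p => p.1 = m)).card : ℝ) := by
    unfold cnt
    rw [← Nat.cast_sum]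
    congr 1
    refine Finset.card_eq_sum_card_fiberwise ?_
    intro p hp
    rw [mem_coe, mem_filter, mem_product] at hp
    exact hp.1.1
  have h2 : ∀ m ∈ range n,
      (((((range n) ×ˢ B).filter G).filter (fun p => p.1 = m)).card : ℝ) ≤
      (if M m then (B.card : ℝ) else 0) + b := by
    intro m hm
    have h3 : (((((range n) ×ˢ B).filter G).filter (fun p => p.1 = m)).card : ℝ) ≤
        cnt B (fun y => G (m, y)) := by
      unfold cnt
      refine Nat.cast_le.mpr (card_le_card_of_injOn Prod.snd ?_ ?_)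
      · intro p hp
        rw [mem_coe, mem_filter, mem_filter, mem_product] at hp
        rw [mem_coe, mem_filter]
        refine ⟨hp.1.1.2, ?_⟩
        have : (m, p.2) = p := by rw [← hp.2]
        rw [this]
        exact hp.1.2
      · intro p hp p' hp' e
        rw [mem_coe, mem_filter] at hp hp'
        exact Prod.ext (hp.2.trans hp'.2.symm) e
    by_cases hM : M m
    · rw [if_pos hM]
      have : cnt B (fun y => G (m, y)) ≤ B.card := by
        unfold cnt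
        exact_mod_cast card_filter_le _ _
      linarith
    · rw [if_neg hM]
      have := h m (mem_range.mp hm) hM
      linarith
  calc cnt ((range n) ×ˢ B) G = _ := h1
    _ ≤ ∑ m ∈ range n, ((if M m then (B.card : ℝ) else 0) + b) := sum_le_sum h2
    _ = cnt (range n) M * B.card + n * b := by
      rw [sum_add_distrib, sum_const, card_range, nsmul_eq_mul, ← sum_filter, sum_const,
        nsmul_eq_mul]
      rfl

private theorem good_pair {κ1 ρ c1 : ℝ} (hO : E.Ok κ1 ρ c1) {P3 : Finset ℕ} {L3 D3 : Finset ℤ}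
    {T : ℝ} {Ps : Finset Pack} (hfam : PFam E P3 L3 D3 T Ps) {d d' : ℤ} {m : ℕ} {y : ℤ}
    (htw : E.tw1 d d' m y) (hM : ¬ BadM E P3 T Ps m) (hY : ¬ BadY E L3 D3 T Ps d d' m y) :
    twPack E d d' m y ∉ Ps ∧ PFam E P3 L3 D3 T (insert (twPack E d d' m y) Ps) ∧
      Disjoint ((twPack E d d' m y).F E) (UD E D3 Ps) := by
  classical
  have hB := E.base
  obtain ⟨hm, hi1, hi2, hL, hLn, hD, hDn⟩ := htw
  obtain ⟨hmn, hsp, hw1, hw2, hs1, hs2⟩ := pure_facts E hB hO.col hm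
  unfold BadM at hM
  push Not at hM
  obtain ⟨hM1, hM2, hM3⟩ := hM
  have hM2' := hM2 hs1
  have hM3' := hM3 hs2
  unfold BadY at hY
  push Not at hY
  obtain ⟨y1, y2, y3, y4, y5, y6, y7, y8, y9, y10, y11, y12, y13, y14⟩ := hY
  have hnt : E.nb true m = nbp E.n E.k m := rfl
  have hnf : E.nb false m = nbm E.n E.k m := by simp [Env.nb]
  rw [hnt, hnf] at hD hDn
  simp only [List.mem_cons, List.not_mem_nil, or_false, forall_eq_or_imp, forall_eq] at hL hD
  simp only [List.nodup_cons, List.mem_cons, List.not_mem_nil, or_false, not_or,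
    List.nodup_nil, and_true, not_false_eq_true] at hLn hDn
  have hF : Disjoint ((twPack E d d' m y).F E) (UD E D3 Ps) := by
    rw [Finset.disjoint_left]
    intro x hx
    simp only [Pack.F, Pack.s1, Pack.s2, twPack, mem_insert, mem_singleton] at hx
    rcases hx with rfl | rfl | rfl | rfl
    · exact y7
    · exact y8
    · exact y5
    · exact y6
  have hLd : Disjoint ((twPack E d d' m y).L) (UL L3 Ps) := by
    rw [Finset.disjoint_left]
    intro x hx
    simp only [Pack.L, twPack, mem_insert, mem_singleton] at hx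
    rcases hx with rfl | rfl | rfl | rfl
    · exact y2
    · exact y1
    · exact y3
    · exact y4
  have hball : Disjoint (ball E (twPack E d d' m y).m) (US E P3 Ps) := hM1
  have hn0 : (0 : ℝ) ≤ (E.n : ℝ) := Nat.cast_nonneg _
  have hr : ∀ z : ℤ, inI E.n 1 2 z → inI E.n (9 / 10) 2 z ∧ inI E.n (9 / 10) (21 / 10) z := by
    intro z hz
    unfold inI at hz ⊢
    refine ⟨⟨?_, ?_⟩, ?_, ?_⟩ <;> linarith [hz.1, hz.2]
  have hok : PackOk E P3 (twPack E d d' m y) := by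
    refine ⟨hm, hball.mono_right subset_union_left, ?_, ?_, ?_, ?_, ?_, ?_, ?_, ?_, ?_, ?_,
      (hr _ hi1).2, (hr _ hi2).2, Or.inl ⟨(hr _ hi1).1, (hr _ hi2).1⟩, y13, y14⟩
    · intro x hx
      simp only [Pack.L, twPack, mem_insert, mem_singleton] at hx
      rcases hx with rfl | rfl | rfl | rfl
      · exact hL.1
      · exact hL.2.1
      · exact hL.2.2.1
      · exact hL.2.2.2
    · intro x hx
      simp only [Pack.F, Pack.s1, Pack.s2, twPack, mem_insert, mem_singleton] at hx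
      rcases hx with rfl | rfl | rfl | rfl
      · exact hD.2.2.1
      · exact hD.2.2.2
      · exact hD.1
      · exact hD.2.1
    · exact (card_le_two).trans (by norm_num)
    · exact (card_le_two).trans (by norm_num)
    · exact hLn.1.1
    · simp only [twPack, mem_insert, mem_singleton, not_or]
      exact ⟨hLn.1.2.1, hLn.1.2.2⟩
    · simp only [twPack, mem_insert, mem_singleton, not_or]
      exact hLn.2.1
    · exact hDn.2.2
    · simp only [Pack.s1, twPack, mem_insert, mem_singleton, not_or]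
      exact ⟨fun h => hDn.1.2.1 h.symm, fun h => hDn.2.1.1 h.symm⟩
    · simp only [Pack.s2, twPack, mem_insert, mem_singleton, not_or]
      exact ⟨fun h => hDn.1.2.2 h.symm, fun h => hDn.2.1.2 h.symm⟩
  have htag : ∀ t, tag E (twPack E d d' m y) t ∉ Bl E T Ps t := by
    intro t
    fin_cases t
    · exact hM2'
    · exact hM3'
    · exact y9
    · exact y10
    · exact y11
    · exact y12
  obtain ⟨r1, r2⟩ := fam_insert E hfam hok hball hLd hF htag
  exact ⟨r1, r2, hF⟩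

theorem tw_step (c1 κ : ℝ) (hc1 : 0 < c1) (hκ : 0 < κ) : ∃ ε : ℝ, 0 < ε ∧ ∃ n0 : ℕ,
    ∀ (E : Env) (κ1 ρ : ℝ) (P3 : Finset ℕ) (L3 D3 : Finset ℤ) (Ps : Finset Pack),
      n0 ≤ E.n → E.Ok κ1 ρ c1 → Gen0 E P3 → PFam E P3 L3 D3 (κ * E.n / (E.q : ℝ) ^ 2) Ps →
      (P3.card : ℝ) ≤ ε * E.n → (L3.card : ℝ) ≤ ε * E.n → (D3.card : ℝ) ≤ ε * E.n →
      (Ps.card : ℝ) ≤ ε * E.n → ∀ d d' : ℤ, optOk E d → optOk E d' → ¬ (E.q : ℤ) ∣ d - d' →
      ∃ (m : ℕ) (y2 : ℤ), E.tw1 d d' m y2 ∧ twPack E d d' m y2 ∉ Ps ∧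
        PFam E P3 L3 D3 (κ * E.n / (E.q : ℝ) ^ 2) (insert (twPack E d d' m y2) Ps) ∧
        Disjoint ((twPack E d d' m y2).F E) (UD E D3 Ps) := by
  classical
  obtain ⟨M, hM⟩ := exists_nat_ge (max (90 / c1) (2 / κ))
  refine ⟨c1 / (3 * (240 + 100 / κ)), by positivity, M ^ 8 + 1, ?_⟩
  intro E κ1 ρ P3 L3 D3 Ps hn hO hgen hfam hP3 hL3 hD3 hPs d d' hd hd' hdd
  set ε : ℝ := c1 / (3 * (240 + 100 / κ)) with hε
  have hε0 : 0 < ε := by positivity
  have hB := E.base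
  have hqM : M < E.q := by
    by_contra hc
    push Not at hc
    have h1 := Nat.pow_le_pow_left hc 8
    have h2 := hB.q_low
    omega
  set N : ℝ := (E.n : ℝ) with hN
  set Q : ℝ := (E.q : ℝ) with hQ
  set T : ℝ := κ * N / Q ^ 2 with hT
  have hQ17 : (17 : ℝ) < Q := by
    have := hB.q_big
    rw [hQ]
    exact_mod_cast this
  have hQM : max (90 / c1) (2 / κ) ≤ Q := hM.trans (by
    rw [hQ]
    exact_mod_cast hqM.le)
  have hQ1 : 90 / c1 ≤ Q := (le_max_left _ _).trans hQM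
  have hQ2 : 2 / κ ≤ Q := (le_max_right _ _).trans hQM
  have hNQ : Q ^ 6 ≤ N := by
    have := hB.q_high
    rw [hQ, hN]
    exact_mod_cast this
  have hQ0 : 0 < Q := by linarith
  have hQge1 : 1 ≤ Q := by linarith
  have hNQ2 : Q ^ 4 ≤ N / Q ^ 2 := by
    rw [le_div_iff₀ (by positivity)]
    calc Q ^ 4 * Q ^ 2 = Q ^ 6 := by ring
      _ ≤ N := hNQ
  have hN0 : 0 < N := lt_of_lt_of_le (by positivity) hNQ
  have hQ4 : Q ≤ Q ^ 4 := by
    calc Q = Q ^ 1 := (pow_one Q).symm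
      _ ≤ Q ^ 4 := pow_le_pow_right₀ hQge1 (by norm_num)
  have hQQ : Q ^ 2 ≤ N := (pow_le_pow_right₀ hQge1 (by norm_num)).trans hNQ
  have hQN : Q ≤ N := by
    calc Q = Q ^ 1 := (pow_one Q).symm
      _ ≤ Q ^ 6 := pow_le_pow_right₀ hQge1 (by norm_num)
      _ ≤ N := hNQ
  have hT2 : 2 ≤ T := by
    have h1 : 2 ≤ κ * Q := by
      rw [div_le_iff₀ hκ] at hQ2
      linarith
    have h2 : κ * Q ≤ κ * (N / Q ^ 2) := mul_le_mul_of_nonneg_left (hQ4.trans hNQ2) hκ.le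
    calc (2 : ℝ) ≤ κ * Q := h1
      _ ≤ κ * (N / Q ^ 2) := h2
      _ = T := by rw [hT]; ring
  by_contra hcon
  have hgood : ∀ (m : ℕ) (y : ℤ), E.tw1 d d' m y → ¬ BadM E P3 T Ps m →
      BadY E L3 D3 T Ps d d' m y := by
    intro m y htw hm
    by_contra hy
    exact hcon ⟨m, y, htw, good_pair E hO hfam htw hm hy⟩
  -- sizes
  have cUL : ((UL L3 Ps).card : ℝ) ≤ 6 * ε * N := by
    have := UL_card E hfam
    have h : ((UL L3 Ps).card : ℝ) ≤ L3.card + 5 * Ps.card := by exact_mod_cast this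
    linarith
  have cUD : ((UD E D3 Ps).card : ℝ) ≤ 8 * ε * N := by
    have := UD_card E hfam
    have h : ((UD E D3 Ps).card : ℝ) ≤ D3.card + 7 * Ps.card := by exact_mod_cast this
    linarith
  have cUS : ((US E P3 Ps).card : ℝ) ≤ 8 * ε * N := by
    have := US_card E (P3 := P3) (Ps := Ps)
    have h : ((US E P3 Ps).card : ℝ) ≤ P3.card + 7 * Ps.card := by exact_mod_cast this
    linarith
  have cBl : ∀ t, ((Bl E T Ps t).card : ℝ) ≤ 2 * ε * Q ^ 2 / κ := by
    intro t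
    have h1 := Bl_card E T hT2 Ps t
    have h2 : ((Bl E T Ps t).card : ℝ) * T ≤ 2 * (ε * N) := h1.trans (by linarith)
    rw [le_div_iff₀ hκ]
    have h3 : ((Bl E T Ps t).card : ℝ) * κ = ((Bl E T Ps t).card : ℝ) * T * (Q ^ 2 / N) := by
      rw [hT]
      field_simp
    rw [h3]
    calc ((Bl E T Ps t).card : ℝ) * T * (Q ^ 2 / N) ≤ 2 * (ε * N) * (Q ^ 2 / N) :=
          mul_le_mul_of_nonneg_right h2 (by positivity)
      _ = 2 * ε * Q ^ 2 := by field_simp
  -- bad items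
  have cM : cnt (range E.n) (BadM E P3 T Ps) ≤ (56 * ε + 20 * ε / κ) * N := by
    have h := badM_count E P3 T Ps
    have h1 : ((Bl E T Ps 0).card + (Bl E T Ps 1).card : ℝ) * (N / Q ^ 2 + 4) ≤
        (2 * ε * Q ^ 2 / κ + 2 * ε * Q ^ 2 / κ) * (N / Q ^ 2 + 4) :=
      mul_le_mul_of_nonneg_right (add_le_add (cBl 0) (cBl 1)) (by positivity)
    have h2 : (2 * ε * Q ^ 2 / κ + 2 * ε * Q ^ 2 / κ) * (N / Q ^ 2 + 4) =
        4 * ε / κ * (N + 4 * Q ^ 2) := by
      field_simp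
      ring
    have h3 : 4 * ε / κ * (N + 4 * Q ^ 2) ≤ 4 * ε / κ * (5 * N) :=
      mul_le_mul_of_nonneg_left (by linarith) (by positivity)
    have h4 : 4 * ε / κ * (5 * N) = 20 * ε / κ * N := by ring
    linarith
  -- bad labels
  set b : ℝ := (72 * ε + 40 * ε / κ + 30 / Q) * N with hb
  have hb0 : 0 ≤ b := by positivity
  have hPLI : E.PL ⊆ Icc (0 : ℤ) (3 * E.n) := by
    intro x hx
    rw [mem_Icc]
    exact PL_bd E hx
  have hY : ∀ m < E.n, ¬ BadM E P3 T Ps m →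
      cnt E.PL (fun y => E.tw1 d d' ((m, y) : ℕ × ℤ).1 ((m, y) : ℕ × ℤ).2) ≤ b := by
    intro m hm hbm
    by_cases hp : E.pureItem m
    · have hball : Disjoint (ball E m) P3 := by
        have : Disjoint (ball E m) (US E P3 Ps) := by
          by_contra hc
          exact hbm (Or.inl hc)
        exact this.mono_right subset_union_left
      have h1 := bad_count E hO L3 D3 T Ps hgen d d' hp hball
      have h2 : cnt E.PL (fun y => E.tw1 d d' ((m, y) : ℕ × ℤ).1 ((m, y) : ℕ × ℤ).2) ≤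
          cnt (Icc (0 : ℤ) (3 * E.n)) (BadY E L3 D3 T Ps d d' m) := by
        unfold cnt
        refine Nat.cast_le.mpr (card_le_card ?_)
        intro y hy
        rw [mem_filter] at hy ⊢
        exact ⟨hPLI hy.1, hgood m y hy.2 hbm⟩
      refine h2.trans (h1.trans ?_)
      have h3 : ((Bl E T Ps 2).card + (Bl E T Ps 3).card + (Bl E T Ps 4).card +
          (Bl E T Ps 5).card : ℝ) * (3 * N / Q ^ 2 + 2) ≤
          (4 * (2 * ε * Q ^ 2 / κ)) * (3 * N / Q ^ 2 + 2) :=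
        mul_le_mul_of_nonneg_right (by linarith [cBl 2, cBl 3, cBl 4, cBl 5]) (by positivity)
      have h4 : (4 * (2 * ε * Q ^ 2 / κ)) * (3 * N / Q ^ 2 + 2) =
          8 * ε / κ * (3 * N + 2 * Q ^ 2) := by
        field_simp
        norm_num
      have h5 : 8 * ε / κ * (3 * N + 2 * Q ^ 2) ≤ 8 * ε / κ * (5 * N) :=
        mul_le_mul_of_nonneg_left (by linarith) (by positivity)
      have h6 : 8 * ε / κ * (5 * N) = 40 * ε / κ * N := by ring
      have h7 : 6 * (3 * N / Q + 2) ≤ 30 / Q * N := by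
        have : 2 ≤ 2 * N / Q := by
          rw [le_div_iff₀ hQ0]
          linarith
        have e : 6 * (3 * N / Q + 2 * N / Q) = 30 / Q * N := by ring
        linarith
      rw [hb]
      linarith
    · refine cnt_zero _ ?_ hb0
      intro y hy
      exact hp hy.1
  have hcount := pair_count E.n E.PL (fun p => E.tw1 d d' p.1 p.2) (BadM E P3 T Ps) b hb0 hY
  have hlow : c1 * N ^ 2 ≤ cnt ((range E.n) ×ˢ E.PL) (fun p => E.tw1 d d' p.1 p.2) := by
    have h := hO.t1 d d' hd.1 hd'.1 hd.2 hd'.2 hdd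
    refine h.trans (le_of_eq ?_)
    unfold cnt
    congr
  have hPL : (E.PL.card : ℝ) ≤ 3 * N := by
    have h1 : E.PL.card ≤ (zall E.n).card := card_le_card (filter_subset _ _)
    have h2 : 3 ≤ E.n := by
      have : (17 : ℝ) < N := by linarith
      rw [hN] at this
      have h3 : 17 < E.n := by exact_mod_cast this
      omega
    rw [zall_card h2] at h1
    have h4 : (E.PL.card : ℝ) ≤ 2 * N + 1 := by
      rw [hN]
      exact_mod_cast h1
    linarith
  have h1 : cnt (range E.n) (BadM E P3 T Ps) * E.PL.card ≤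
      (56 * ε + 20 * ε / κ) * N * (3 * N) :=
    mul_le_mul cM hPL (by positivity) (by positivity)
  have h2 : c1 * N ^ 2 ≤ (240 * ε + 100 * ε / κ + 30 / Q) * N ^ 2 := by
    calc c1 * N ^ 2 ≤ _ := hlow
      _ ≤ _ := hcount
      _ ≤ (56 * ε + 20 * ε / κ) * N * (3 * N) + N * b := by linarith
      _ = (240 * ε + 100 * ε / κ + 30 / Q) * N ^ 2 := by
        rw [hb]
        ring
  have h3 : c1 ≤ 240 * ε + 100 * ε / κ + 30 / Q := le_of_mul_le_mul_right h2 (by positivity)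
  have h4 : 240 * ε + 100 * ε / κ = c1 / 3 := by
    rw [hε]
    field_simp
  have h5 : 30 / Q ≤ c1 / 3 := by
    rw [div_le_iff₀ hQ0]
    rw [div_le_iff₀ hc1] at hQ1
    linarith
  linarith

end Pool.Agent.PGr.PPk
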