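import Mathlib
import Pool.Agent.PGr.PTw
import Pool.Agent.PGr.PEo
import Pool.Agent.PGr.PGad

/-!
# PGr-P-Chain: gadgets for arbitrary option sets

Common situation `Sit`: a family `Ps` of packs which is small. `old r`: `r` lies in `AA` or is a used
difference; the private differences of new packs are different from all old numbers: they lie in `PD`
(disjoint from `AA`, `PD_AA`) and are disjoint from `UD`.

PLAN. `tri_step`: apply `eo_step` to `Ps` with `d, r, t`: pack `e` with `al' = eoD 0`, `be = eoD 1`,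
`ga = eoD 2`, `al'' = eoD 3`, `be' = eoD 4` (all `optOk` except `ga`, from `eo`). Then `tw_step` for
`insert e Ps` with the options `r, al'` (`¬ q ∣ r - al'`): pack `t1`; then `tw_step` for
`insert t1 (insert e Ps)` with `be, be'`: pack `t2`. `new = {e, t1, t2}` (three different packs).
By `eo_gad`: `PGad {e, t2} {d, al', al''} ({be, be', ga} ∪ t2.G)`, by `tw_gad`:
`PGad {t1} {r, al'} t1.G`; compose with the shared option `al'` (`gad_comp`, `r := al'`, `O1 = {r}`,
`O2 = {d, al''}`): options `{r, d, al''}`, private `insert al' (t1.G ∪ ({be,be',ga} ∪ t2.G))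
= (e.G ∪ t1.G ∪ t2.G).erase al''` because `e.G = {al', be, ga, al'', be'}` (Nodup). `s := al''`.
The side conditions: the `F`s of different packs are disjoint (`PFam.dj`), `r` and `d` are old or in
`AA`, hence not in the new `G`s.
`chain`: induction on the list `mid`, generalizing `Ps` and `r`: `mid = [d]`: `tri_step`.
`mid = d :: mid'` with `mid' ≠ []`: `tri_step` for `r, d` gives `new1`, `s0`; the induction
hypothesis for `Ps ∪ new1` and `s0` (which is old for `Ps ∪ new1`: `s0 ∈ pGG new1`) gives `new2, s`;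
compose sharing `s0`.
`gad_one`: `H = {d1} ∪ mid ∪ {dK}` with `mid` nonempty (`|H| ≥ 3`, list of the remaining elements,
`Finset.toList`): `chain` with `r := d1`, `t := dK`, then `tw_step` with the options `s, dK`
(`¬ q ∣ s - dK`), compose sharing `s`; elements of `AA` are `optOk` and in `[.1 n, 1.3 n]`. The number
of new packs is `3 (K - 2) + 1 ≤ 3 K`.
`ε` := minimum of the ones of `tw_step`, `eo_step`; the family stays `≤ ε n` by hypothesis.
-/

noncomputable section

namespace Pool.Agent.PGr.PPk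

open Finset

/-- `r` is in `AA` or already used -/
def old (E : Env) (D3 : Finset ℤ) (Ps : Finset Pack) (r : ℤ) : Prop := r ∈ E.AA ∨ r ∈ UD E D3 Ps

private theorem AA_PD {E : Env} {d : ℤ} (h : d ∈ E.AA) : d ∉ E.PD := by
  classical
  intro h2
  rw [Env.AA, mem_filter] at h
  rw [Env.PD, mem_filter] at h2
  have h3 := h.2.2.2.2.1
  rw [h2.2.2.2.2] at h3
  exact absurd h3 (by decide)

private theorem AA_pos {E : Env} {d : ℤ} (h : d ∈ E.AA) : inI E.n (1 / 10) (13 / 10) d ∧
    gd E.n E.k E.q d ∧ optOk E d := by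
  classical
  rw [Env.AA, mem_filter] at h
  have h1 := h.2.1
  refine ⟨h1, h.2.2.2.2.2, ⟨?_, h1.2⟩, h.2.2.2.2.2⟩
  have h2 : (0 : ℝ) ≤ E.n := Nat.cast_nonneg _
  have h3 := h1.1
  linarith

private theorem opt_pos {E : Env} {d : ℤ} (hn : 0 < E.n) (h : optOk E d) : 0 < d := by
  have h2 : (0 : ℝ) < E.n := by exact_mod_cast hn
  have h3 := h.1.1
  have h4 : (0 : ℝ) < (d : ℝ) := by linarith
  exact_mod_cast h4

private theorem G_F (E : Env) (p : Pack) : p.G ⊆ p.F E := fun _ hx =>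
  mem_insert_of_mem (mem_insert_of_mem hx)

private theorem UD_mono {E : Env} {D3 : Finset ℤ} {Ps Qs : Finset Pack} (h : Ps ⊆ Qs) :
    UD E D3 Ps ⊆ UD E D3 Qs := by
  unfold UD
  exact union_subset_union (Subset.refl _) (biUnion_subset_biUnion_of_subset_left _ h)

private theorem F_UD {E : Env} {D3 : Finset ℤ} {Ps : Finset Pack} {p : Pack} (h : p ∈ Ps) :
    p.F E ⊆ UD E D3 Ps := by
  unfold UD
  intro x hx
  exact mem_union_right _ (mem_biUnion.mpr ⟨p, h, hx⟩)

private theorem G_PD {E : Env} {P3 : Finset ℕ} {L3 D3 : Finset ℤ} {T : ℝ} {Ps : Finset Pack}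
    (h : PFam E P3 L3 D3 T Ps) {p : Pack} (hp : p ∈ Ps) : p.G ⊆ E.PD :=
  (G_F E p).trans (h.ok p hp).FPD

private theorem old_G {E : Env} {D3 : Finset ℤ} {Ps : Finset Pack} {r : ℤ} (h : old E D3 Ps r)
    {p : Pack} (hp : p.G ⊆ E.PD) (hd : Disjoint (p.F E) (UD E D3 Ps)) : r ∉ p.G := by
  intro hr
  rcases h with h | h
  · exact AA_PD h (hp hr)
  · exact disjoint_left.mp hd (G_F E p hr) h

private theorem pGG_union (A B : Finset Pack) : pGG (A ∪ B) = pGG A ∪ pGG B := by
  ext x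
  simp only [pGG, mem_biUnion, mem_union]
  constructor
  · rintro ⟨p, hp | hp, hx⟩
    · exact Or.inl ⟨p, hp, hx⟩
    · exact Or.inr ⟨p, hp, hx⟩
  · rintro (⟨p, hp, hx⟩ | ⟨p, hp, hx⟩)
    · exact ⟨p, Or.inl hp, hx⟩
    · exact ⟨p, Or.inr hp, hx⟩

private theorem mem_pGG {A : Finset Pack} {x : ℤ} : x ∈ pGG A ↔ ∃ p ∈ A, x ∈ p.G := by
  simp only [pGG, mem_biUnion]

private theorem fin1 {α : Type} [DecidableEq α] (P : Finset α) (e t1 t2 : α) :
    P ∪ {e, t1, t2} = insert t2 (insert t1 (insert e P)) := by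
  ext p
  simp only [mem_union, mem_insert, mem_singleton]
  tauto

private theorem fin2 {α : Type} [DecidableEq α] (a b c : α) :
    ({b} ∪ {a, c} : Finset α) = {a, b, c} := by
  ext z; simp only [mem_union, mem_insert, mem_singleton]; tauto

private theorem fin4 (r d s : ℤ) (l : List ℤ) :
    ({r, d} ∪ insert s l.toFinset : Finset ℤ) = insert r (insert s (d :: l).toFinset) := by
  ext z
  simp only [mem_insert, mem_union, mem_singleton, List.toFinset_cons]
  tauto

private theorem fin5 (r d s : ℤ) :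
    insert r (insert s [d].toFinset) = ({r, d, s} : Finset ℤ) := by
  ext z
  simp only [mem_insert, List.toFinset_cons, List.toFinset_nil, mem_singleton, insert_empty_eq]
  tauto

private theorem fin6 (P Q : Finset Pack) (t : Pack) : P ∪ (Q ∪ {t}) = insert t (P ∪ Q) := by
  ext z; simp only [mem_insert, mem_union, mem_singleton]; tauto

private theorem fin7 (r d s : ℤ) : ({r, d, s} : Finset ℤ) = insert s {r, d} := by
  ext z; simp only [mem_insert, mem_singleton]; tauto

theorem tri_step (c1 κ : ℝ) (hc1 : 0 < c1) (hκ : 0 < κ) : ∃ ε : ℝ, 0 < ε ∧ ∃ n0 : ℕ,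
    ∀ (E : Env) (κ1 ρ : ℝ) (P3 : Finset ℕ) (L3 D3 : Finset ℤ) (Ps : Finset Pack),
      n0 ≤ E.n → E.Ok κ1 ρ c1 → Gen0 E P3 → PFam E P3 L3 D3 (κ * E.n / (E.q : ℝ) ^ 2) Ps →
      (P3.card : ℝ) ≤ ε * E.n → (L3.card : ℝ) ≤ ε * E.n → (D3.card : ℝ) ≤ ε * E.n →
      ((Ps.card + 3 : ℕ) : ℝ) ≤ ε * E.n → ∀ r d t : ℤ, optOk E r → old E D3 Ps r → d ∈ E.AA →
      r ≠ d →
      ∃ (new : Finset Pack) (s : ℤ), new.card = 3 ∧ Disjoint Ps new ∧
        PFam E P3 L3 D3 (κ * E.n / (E.q : ℝ) ^ 2) (Ps ∪ new) ∧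
        (∀ p ∈ new, Disjoint (p.F E) (UD E D3 Ps)) ∧ optOk E s ∧ ¬ (E.q : ℤ) ∣ s - t ∧
        s ∈ pGG new ∧ PGad E new {r, d, s} ((pGG new).erase s) := by
  obtain ⟨ε1, hε1, n1, h1⟩ := tw_step c1 κ hc1 hκ
  obtain ⟨ε2, hε2, n2, h2⟩ := eo_step c1 κ hc1 hκ
  refine ⟨min ε1 ε2, lt_min hε1 hε2, max n1 (max n2 1), ?_⟩
  intro E κ1 ρ P3 L3 D3 Ps hn hOk hGen hF hP3 hL3 hD3 hPs r d t hr hold hd hrd
  have hn1 : n1 ≤ E.n := by omega
  have hn2 : n2 ≤ E.n := by omega
  have hnp : 0 < E.n := by omega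
  have hnr : (0 : ℝ) ≤ E.n := Nat.cast_nonneg _
  have le1 : min ε1 ε2 * (E.n : ℝ) ≤ ε1 * E.n :=
    mul_le_mul_of_nonneg_right (min_le_left _ _) hnr
  have le2 : min ε1 ε2 * (E.n : ℝ) ≤ ε2 * E.n :=
    mul_le_mul_of_nonneg_right (min_le_right _ _) hnr
  push_cast at hPs
  obtain ⟨hd1, hd2, hd3⟩ := AA_pos hd
  -- the three-way pack
  obtain ⟨m, x, b2, heo, hq0, hq3, heP, hF1, hdE⟩ := h2 E κ1 ρ P3 L3 D3 Ps hn2 hOk hGen hF
    (hP3.trans le2) (hL3.trans le2) (hD3.trans le2) (by linarith) d r t hd1 hd2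
  have heo' := heo
  obtain ⟨_, _, _, _, _, hPDl, hNd, hi0, hg0, hi1, hg1, hi3, hg3, hi4, hg4, hq14⟩ := heo'
  set al := Env.eoD d (anc E.n m) x b2 0 with hal
  set be := Env.eoD d (anc E.n m) x b2 1 with hbe
  set ga := Env.eoD d (anc E.n m) x b2 2 with hga
  set al2 := Env.eoD d (anc E.n m) x b2 3 with hal2
  set be2 := Env.eoD d (anc E.n m) x b2 4 with hbe2
  set e := eoPack E d m x b2 with he
  -- the first two-way pack
  have hc1' : ((insert e Ps).card : ℝ) = Ps.card + 1 := by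
    rw [card_insert_of_notMem heP]; push_cast; ring
  obtain ⟨m1, y1, htw1, ht1P, hF2, hdT1⟩ := h1 E κ1 ρ P3 L3 D3 (insert e Ps) hn1 hOk hGen hF1
    (hP3.trans le1) (hL3.trans le1) (hD3.trans le1) (by rw [hc1']; linarith) r al hr ⟨hi0, hg0⟩
    (fun hh => hq0 (by rw [dvd_sub_comm]; exact hh))
  set t1 := twPack E r al m1 y1 with ht1
  have hc2' : ((insert t1 (insert e Ps)).card : ℝ) = Ps.card + 2 := by
    rw [card_insert_of_notMem ht1P]; push_cast; rw [hc1']; ring
  obtain ⟨m2, y2, htw2, ht2P, hF3, hdT2⟩ := h1 E κ1 ρ P3 L3 D3 (insert t1 (insert e Ps)) hn1 hOk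
    hGen hF2 (hP3.trans le1) (hL3.trans le1) (hD3.trans le1) (by rw [hc2']; linarith) be be2
    ⟨hi1, hg1⟩ ⟨hi4, hg4⟩ hq14
  set t2 := twPack E be be2 m2 y2 with ht2
  -- memberships
  have e1 : t1 ≠ e := fun hh => ht1P (by rw [hh]; exact mem_insert_self _ _)
  have e2 : t2 ≠ t1 := fun hh => ht2P (by rw [hh]; exact mem_insert_self _ _)
  have e3 : t2 ≠ e := fun hh => ht2P (by rw [hh]; exact mem_insert_of_mem (mem_insert_self _ _))
  have hfam : Ps ∪ {e, t1, t2} = insert t2 (insert t1 (insert e Ps)) := fin1 _ _ _ _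
  have me : e ∈ insert t2 (insert t1 (insert e Ps)) :=
    mem_insert_of_mem (mem_insert_of_mem (mem_insert_self _ _))
  have m1' : t1 ∈ insert t2 (insert t1 (insert e Ps)) := mem_insert_of_mem (mem_insert_self _ _)
  have m2' : t2 ∈ insert t2 (insert t1 (insert e Ps)) := mem_insert_self _ _
  have PDe : e.G ⊆ E.PD := G_PD hF3 me
  have PD1 : t1.G ⊆ E.PD := G_PD hF3 m1'
  have PD2 : t2.G ⊆ E.PD := G_PD hF3 m2'
  have de1 : Disjoint e.G t1.G :=
    ((hF3.dj e me t1 m1' e1.symm).2.2).mono (G_F E e) (G_F E t1)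
  have de2 : Disjoint e.G t2.G :=
    ((hF3.dj e me t2 m2' e3.symm).2.2).mono (G_F E e) (G_F E t2)
  have d12 : Disjoint t1.G t2.G :=
    ((hF3.dj t1 m1' t2 m2' e2.symm).2.2).mono (G_F E t1) (G_F E t2)
  have hdT1' : Disjoint (t1.F E) (UD E D3 Ps) :=
    hdT1.mono_right (UD_mono (subset_insert _ _))
  have hdT2' : Disjoint (t2.F E) (UD E D3 Ps) :=
    hdT2.mono_right (UD_mono ((subset_insert _ _).trans (subset_insert _ _)))
  have heG : e.G = {al, be, ga, al2, be2} := by
    rw [he]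
    simp only [eoPack]
    ext z
    simp only [mem_image, mem_univ, true_and, mem_insert, mem_singleton]
    constructor
    · rintro ⟨j, rfl⟩
      fin_cases j
      · exact Or.inl rfl
      · exact Or.inr (Or.inl rfl)
      · exact Or.inr (Or.inr (Or.inl rfl))
      · exact Or.inr (Or.inr (Or.inr (Or.inl rfl)))
      · exact Or.inr (Or.inr (Or.inr (Or.inr rfl)))
    · rintro (h | h | h | h | h)
      · exact ⟨0, h.symm⟩
      · exact ⟨1, h.symm⟩
      · exact ⟨2, h.symm⟩
      · exact ⟨3, h.symm⟩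
      · exact ⟨4, h.symm⟩
  have alG : al ∈ e.G := by rw [heG]; simp
  have beG : be ∈ e.G := by rw [heG]; simp
  have gaG : ga ∈ e.G := by rw [heG]; simp
  have al2G : al2 ∈ e.G := by rw [heG]; simp
  have be2G : be2 ∈ e.G := by rw [heG]; simp
  -- nodup
  have nd : al ≠ al2 ∧ be ≠ al2 ∧ ga ≠ al2 ∧ be2 ≠ al2 ∧ al ≠ be ∧ al ≠ ga ∧ al ≠ be2 := by
    simp only [List.nodup_cons, List.mem_cons, not_or] at hNd
    obtain ⟨⟨a1, a2, a3, a4, _⟩, ⟨b1, b2', b3, _⟩, ⟨c1', c2', _⟩, ⟨d1', _⟩, _⟩ := hNd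
    exact ⟨a3, b2', c1', fun hh => d1' hh.symm, a1, a2, a4⟩
  obtain ⟨nd1, nd2, nd3, nd4, nd5, nd6, nd7⟩ := nd
  -- old numbers are not new
  have re : r ∉ e.G := old_G hold PDe hdE
  have r1 : r ∉ t1.G := old_G hold PD1 hdT1'
  have r2 : r ∉ t2.G := old_G hold PD2 hdT2'
  have dPD : d ∉ E.PD := AA_PD hd
  have dde : d ∉ e.G := fun hh => dPD (PDe hh)
  have dd1 : d ∉ t1.G := fun hh => dPD (PD1 hh)
  have dd2 : d ∉ t2.G := fun hh => dPD (PD2 hh)
  have ral : r ≠ al := fun hh => re (hh ▸ alG)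
  have dal : d ≠ al := fun hh => dde (hh ▸ alG)
  -- gadgets
  have g1 : PGad E {e, t2} {d, al, al2} ({be, ga, be2} ∪ t2.G) :=
    eo_gad E heo htw2 e3.symm de2 (opt_pos hnp hd3) dde dd2
  have g2 : PGad E {t1} {r, al} t1.G :=
    tw_gad E htw1 (opt_pos hnp hr) (opt_pos hnp ⟨hi0, hg0⟩) r1
      (fun hh => disjoint_left.mp de1 alG hh)
  have g3 : PGad E ({t1} ∪ {e, t2}) ({r} ∪ {d, al2})
      (insert al (t1.G ∪ ({be, ga, be2} ∪ t2.G))) := by
    apply gad_comp E (r := al) (O1 := {r}) (O2 := {d, al2})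
    · rw [pair_comm] at g2
      exact g2
    · rw [insert_comm] at g1
      exact g1
    · rw [disjoint_singleton_left]
      simp only [mem_insert, mem_singleton, not_or]
      exact ⟨e1, e2.symm⟩
    · rw [disjoint_union_right]
      refine ⟨?_, d12⟩
      rw [disjoint_left]
      intro z hz hz2
      simp only [mem_insert, mem_singleton] at hz2
      rcases hz2 with rfl | rfl | rfl
      · exact disjoint_left.mp de1 beG hz
      · exact disjoint_left.mp de1 gaG hz
      · exact disjoint_left.mp de1 be2G hz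
    · intro o ho
      rw [mem_singleton] at ho
      subst ho
      refine ⟨?_, ral⟩
      simp only [mem_union, mem_insert, mem_singleton, not_or]
      exact ⟨⟨fun hh => re (hh ▸ beG), fun hh => re (hh ▸ gaG), fun hh => re (hh ▸ be2G)⟩, r2⟩
    · intro o ho
      simp only [mem_insert, mem_singleton] at ho
      rcases ho with rfl | rfl
      · exact ⟨dd1, dal⟩
      · exact ⟨fun hh => disjoint_left.mp de1 al2G hh, nd1.symm⟩
  refine ⟨{e, t1, t2}, al2, ?_, ?_, ?_, ?_, ⟨hi3, hg3⟩, hq3, ?_, ?_⟩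
  · rw [card_insert_of_notMem, card_insert_of_notMem, card_singleton]
    · rw [mem_singleton]; exact e2.symm
    · simp only [mem_insert, mem_singleton, not_or]; exact ⟨e1.symm, e3.symm⟩
  · rw [disjoint_right]
    intro p hp
    simp only [mem_insert, mem_singleton] at hp
    rcases hp with hp | hp | hp
    · rw [hp]; exact heP
    · rw [hp]; exact fun hh => ht1P (mem_insert_of_mem hh)
    · rw [hp]; exact fun hh => ht2P (mem_insert_of_mem (mem_insert_of_mem hh))
  · rw [hfam]; exact hF3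
  · intro p hp
    simp only [mem_insert, mem_singleton] at hp
    rcases hp with hp | hp | hp
    · rw [hp]; exact hdE
    · rw [hp]; exact hdT1'
    · rw [hp]; exact hdT2'
  · rw [mem_pGG]
    exact ⟨e, mem_insert_self _ _, al2G⟩
  · have w1 : ({t1} ∪ {e, t2} : Finset Pack) = {e, t1, t2} := fin2 _ _ _
    have w2 : ({r} ∪ {d, al2} : Finset ℤ) = {r, d, al2} := by
      ext z; simp only [mem_union, mem_insert, mem_singleton]
    have w3 : insert al (t1.G ∪ ({be, ga, be2} ∪ t2.G)) = (pGG {e, t1, t2}).erase al2 := by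
      have w4 : pGG {e, t1, t2} = e.G ∪ (t1.G ∪ t2.G) := by
        ext z
        rw [mem_pGG]
        simp only [mem_union, mem_insert, mem_singleton, exists_eq_or_imp, exists_eq_left]
      have f1 : al2 ∉ t1.G := fun hh => disjoint_left.mp de1 al2G hh
      have f2 : al2 ∉ t2.G := fun hh => disjoint_left.mp de2 al2G hh
      rw [w4, heG]
      ext z
      simp only [mem_union, mem_insert, mem_singleton, mem_erase]
      constructor
      · rintro (hz | hz | (hz | hz | hz) | hz)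
        · exact ⟨by rw [hz]; exact nd1, Or.inl (Or.inl hz)⟩
        · exact ⟨fun hh => f1 (hh ▸ hz), Or.inr (Or.inl hz)⟩
        · exact ⟨by rw [hz]; exact nd2, Or.inl (Or.inr (Or.inl hz))⟩
        · exact ⟨by rw [hz]; exact nd3, Or.inl (Or.inr (Or.inr (Or.inl hz)))⟩
        · exact ⟨by rw [hz]; exact nd4, Or.inl (Or.inr (Or.inr (Or.inr (Or.inr hz))))⟩
        · exact ⟨fun hh => f2 (hh ▸ hz), Or.inr (Or.inr hz)⟩
      · rintro ⟨hz0, (hz | hz | hz | hz | hz) | hz | hz⟩
        · exact Or.inl hz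
        · exact Or.inr (Or.inr (Or.inl (Or.inl hz)))
        · exact Or.inr (Or.inr (Or.inl (Or.inr (Or.inl hz))))
        · exact absurd hz hz0
        · exact Or.inr (Or.inr (Or.inl (Or.inr (Or.inr hz))))
        · exact Or.inr (Or.inl hz)
        · exact Or.inr (Or.inr (Or.inr hz))
    rw [← w3, ← w1, ← w2]
    exact g3


theorem chain (c1 κ : ℝ) (hc1 : 0 < c1) (hκ : 0 < κ) : ∃ ε : ℝ, 0 < ε ∧ ∃ n0 : ℕ,
    ∀ (E : Env) (κ1 ρ : ℝ) (P3 : Finset ℕ) (L3 D3 : Finset ℤ),
      n0 ≤ E.n → E.Ok κ1 ρ c1 → Gen0 E P3 →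
      (P3.card : ℝ) ≤ ε * E.n → (L3.card : ℝ) ≤ ε * E.n → (D3.card : ℝ) ≤ ε * E.n →
      ∀ (mid : List ℤ) (Ps : Finset Pack) (r t : ℤ),
      mid ≠ [] → mid.Nodup → (∀ d ∈ mid, d ∈ E.AA) → r ∉ mid →
      PFam E P3 L3 D3 (κ * E.n / (E.q : ℝ) ^ 2) Ps →
      ((Ps.card + 3 * mid.length : ℕ) : ℝ) ≤ ε * E.n → optOk E r → old E D3 Ps r →
      ∃ (new : Finset Pack) (s : ℤ), new.card = 3 * mid.length ∧ Disjoint Ps new ∧
        PFam E P3 L3 D3 (κ * E.n / (E.q : ℝ) ^ 2) (Ps ∪ new) ∧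
        (∀ p ∈ new, Disjoint (p.F E) (UD E D3 Ps)) ∧ optOk E s ∧ ¬ (E.q : ℤ) ∣ s - t ∧
        s ∈ pGG new ∧ PGad E new (insert r (insert s mid.toFinset)) ((pGG new).erase s) := by
  obtain ⟨ε, hε, n0, h⟩ := tri_step c1 κ hc1 hκ
  refine ⟨ε, hε, n0, ?_⟩
  intro E κ1 ρ P3 L3 D3 hn hOk hGen hP3 hL3 hD3 mid
  induction mid with
  | nil =>
    intro Ps r t h0
    exact absurd rfl h0
  | cons d mid ih =>
    intro Ps r t _ hnd hAA hrm hF hcard hr hold
    have hdA : d ∈ E.AA := hAA d List.mem_cons_self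
    have hrd : r ≠ d := fun hh => hrm (by rw [hh]; exact List.mem_cons_self)
    rw [List.nodup_cons] at hnd
    rw [List.length_cons] at hcard
    push_cast at hcard
    by_cases hm : mid = []
    · subst hm
      obtain ⟨new, s, k1, k2, k3, k4, k5, k6, k7, k8⟩ := h E κ1 ρ P3 L3 D3 Ps hn hOk hGen hF hP3
        hL3 hD3 (by push_cast; simpa using hcard) r d t hr hold hdA hrd
      refine ⟨new, s, by simpa using k1, k2, k3, k4, k5, k6, k7, ?_⟩
      rw [fin5]
      exact k8
    · obtain ⟨new1, s0, k1, k2, k3, k4, k5, k6, k7, k8⟩ := h E κ1 ρ P3 L3 D3 Ps hn hOk hGen hF hP3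
        hL3 hD3 (by
          push_cast
          have : (0 : ℝ) ≤ mid.length := Nat.cast_nonneg _
          linarith) r d t hr hold hdA hrd
      have hPD1 : ∀ p ∈ new1, p.G ⊆ E.PD := fun p hp => G_PD k3 (mem_union_right _ hp)
      have hPG1 : ∀ z ∈ pGG new1, z ∈ E.PD := by
        intro z hz
        rw [mem_pGG] at hz
        obtain ⟨p, hp, hz⟩ := hz
        exact hPD1 p hp hz
      have hs0 : s0 ∉ mid := fun hh =>
        AA_PD (hAA s0 (List.mem_cons_of_mem _ hh)) (hPG1 s0 k7)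
      have hUD1 : ∀ z ∈ pGG new1, z ∈ UD E D3 (Ps ∪ new1) := by
        intro z hz
        rw [mem_pGG] at hz
        obtain ⟨p, hp, hz⟩ := hz
        exact F_UD (mem_union_right _ hp) (G_F E p hz)
      have hc : (Ps ∪ new1).card = Ps.card + 3 := by
        rw [card_union_of_disjoint k2, k1]
      obtain ⟨new2, s, l1, l2, l3, l4, l5, l6, l7, l8⟩ := ih (Ps ∪ new1) s0 t hm hnd.2
        (fun z hz => hAA z (List.mem_cons_of_mem _ hz)) hs0 k3
        (by rw [hc]; push_cast; linarith) k5 (Or.inr (hUD1 s0 k7))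
      rw [disjoint_union_left] at l2
      have l4' : ∀ p ∈ new2, Disjoint (p.F E) (UD E D3 Ps) := fun p hp =>
        (l4 p hp).mono_right (UD_mono subset_union_left)
      have hPD2 : ∀ p ∈ new2, p.G ⊆ E.PD := fun p hp => G_PD l3 (mem_union_right _ hp)
      have hdis : ∀ z ∈ pGG new1, z ∉ pGG new2 := by
        intro z hz hz2
        rw [mem_pGG] at hz2
        obtain ⟨p, hp, hz2⟩ := hz2
        exact disjoint_left.mp (l4 p hp) (G_F E p hz2) (hUD1 z hz)
      have hr1 : r ∉ pGG new1 := by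
        rw [mem_pGG]
        rintro ⟨p, hp, hz⟩
        exact old_G hold (hPD1 p hp) (k4 p hp) hz
      have hr2 : r ∉ pGG new2 := by
        rw [mem_pGG]
        rintro ⟨p, hp, hz⟩
        exact old_G hold (hPD2 p hp) (l4' p hp) hz
      have hA1 : ∀ z ∈ E.AA, z ∉ pGG new1 := fun z hz hz2 => AA_PD hz (hPG1 z hz2)
      have hA2 : ∀ z ∈ E.AA, z ∉ pGG new2 := by
        intro z hz hz2
        rw [mem_pGG] at hz2
        obtain ⟨p, hp, hz2⟩ := hz2
        exact AA_PD hz (hPD2 p hp hz2)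
      have hss : s ≠ s0 := fun hh => hdis s0 k7 (hh ▸ l7)
      have hs1 : s ∉ pGG new1 := fun hh => hdis s hh l7
      refine ⟨new1 ∪ new2, s, ?_, ?_, ?_, ?_, l5, l6, ?_, ?_⟩
      · rw [card_union_of_disjoint l2.2, k1, l1, List.length_cons]
        ring
      · rw [disjoint_union_right]
        exact ⟨k2, l2.1⟩
      · rw [← union_assoc]
        exact l3
      · intro p hp
        rw [mem_union] at hp
        rcases hp with hp | hp
        · exact k4 p hp
        · exact l4' p hp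
      · rw [pGG_union]
        exact mem_union_right _ l7
      · have g := gad_comp E (r := s0) (O1 := {r, d}) (O2 := insert s mid.toFinset)
          (W1 := (pGG new1).erase s0) (W2 := (pGG new2).erase s) (Ps1 := new1) (Ps2 := new2)
          (by rw [← fin7]; exact k8) l8 l2.2
          (by
            rw [disjoint_left]
            intro z hz hz2
            exact hdis z (mem_of_mem_erase hz) (mem_of_mem_erase hz2))
          (by
            intro o ho
            simp only [mem_insert, mem_singleton] at ho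
            rcases ho with rfl | rfl
            · exact ⟨fun hh => hr2 (mem_of_mem_erase hh), fun hh => hr1 (by rw [hh]; exact k7)⟩
            · exact ⟨fun hh => hA2 _ hdA (mem_of_mem_erase hh),
                fun hh => hA1 _ hdA (by rw [hh]; exact k7)⟩)
          (by
            intro o ho
            rw [mem_insert] at ho
            rcases ho with ho | ho
            · rw [ho]
              exact ⟨fun hh => hs1 (mem_of_mem_erase hh), hss⟩
            · rw [List.mem_toFinset] at ho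
              have hoA := hAA o (List.mem_cons_of_mem _ ho)
              exact ⟨fun hh => hA1 _ hoA (mem_of_mem_erase hh),
                fun hh => hA1 _ hoA (by rw [hh]; exact k7)⟩)
        have w1 : insert s0 ((pGG new1).erase s0 ∪ (pGG new2).erase s) =
            (pGG (new1 ∪ new2)).erase s := by
          rw [pGG_union]
          ext z
          simp only [mem_insert, mem_union, mem_erase]
          constructor
          · rintro (hz | ⟨hz, hz2⟩ | ⟨hz, hz2⟩)
            · rw [hz]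
              exact ⟨hss.symm, Or.inl k7⟩
            · exact ⟨fun hh => hs1 (hh ▸ hz2), Or.inl hz2⟩
            · exact ⟨hz, Or.inr hz2⟩
          · rintro ⟨hz, hz2 | hz2⟩
            · by_cases hz3 : z = s0
              · exact Or.inl hz3
              · exact Or.inr (Or.inl ⟨hz3, hz2⟩)
            · exact Or.inr (Or.inr ⟨hz, hz2⟩)
        rw [← w1, ← fin4]
        exact g


theorem gad_one (c1 κ : ℝ) (hc1 : 0 < c1) (hκ : 0 < κ) : ∃ ε : ℝ, 0 < ε ∧ ∃ n0 : ℕ,
    ∀ (E : Env) (κ1 ρ : ℝ) (P3 : Finset ℕ) (L3 D3 : Finset ℤ) (Ps : Finset Pack),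
      n0 ≤ E.n → E.Ok κ1 ρ c1 → Gen0 E P3 → PFam E P3 L3 D3 (κ * E.n / (E.q : ℝ) ^ 2) Ps →
      (P3.card : ℝ) ≤ ε * E.n → (L3.card : ℝ) ≤ ε * E.n → (D3.card : ℝ) ≤ ε * E.n →
      ∀ H : Finset ℤ, H ⊆ E.AA → 3 ≤ H.card → ((Ps.card + 3 * H.card : ℕ) : ℝ) ≤ ε * E.n →
      ∃ new : Finset Pack, new.card ≤ 3 * H.card ∧ Disjoint Ps new ∧
        PFam E P3 L3 D3 (κ * E.n / (E.q : ℝ) ^ 2) (Ps ∪ new) ∧ PGad E new H (pGG new) := by
  obtain ⟨ε1, hε1, n1, h1⟩ := tw_step c1 κ hc1 hκ
  obtain ⟨ε2, hε2, n2, h2⟩ := chain c1 κ hc1 hκ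
  refine ⟨min ε1 ε2, lt_min hε1 hε2, max n1 (max n2 1), ?_⟩
  intro E κ1 ρ P3 L3 D3 Ps hn hOk hGen hF hP3 hL3 hD3 H hH hH3 hPs
  have hn1 : n1 ≤ E.n := by omega
  have hn2 : n2 ≤ E.n := by omega
  have hnp : 0 < E.n := by omega
  have hnr : (0 : ℝ) ≤ E.n := Nat.cast_nonneg _
  have le1 : min ε1 ε2 * (E.n : ℝ) ≤ ε1 * E.n :=
    mul_le_mul_of_nonneg_right (min_le_left _ _) hnr
  have le2 : min ε1 ε2 * (E.n : ℝ) ≤ ε2 * E.n :=
    mul_le_mul_of_nonneg_right (min_le_right _ _) hnr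
  push_cast at hPs
  -- the list of the elements of H
  obtain ⟨L, hLn, hLH⟩ : ∃ L : List ℤ, L.Nodup ∧ L.toFinset = H :=
    ⟨H.toList, H.nodup_toList, H.toList_toFinset⟩
  have hLc : L.length = H.card := by rw [← hLH, List.toFinset_card_of_nodup hLn]
  match L, hLn, hLH, hLc with
  | [], _, _, hLc => simp at hLc; omega
  | [_], _, _, hLc => simp at hLc; omega
  | d1 :: dK :: mid, hLn, hLH, hLc =>
    rw [List.nodup_cons, List.nodup_cons] at hLn
    obtain ⟨hd1, hdK, hmid⟩ := hLn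
    simp only [List.length_cons] at hLc
    have hmem : ∀ z, z ∈ H ↔ z = d1 ∨ z = dK ∨ z ∈ mid := by
      intro z
      rw [← hLH]
      simp
    have hd1A : d1 ∈ E.AA := hH ((hmem d1).mpr (Or.inl rfl))
    have hdKA : dK ∈ E.AA := hH ((hmem dK).mpr (Or.inr (Or.inl rfl)))
    have hmA : ∀ z ∈ mid, z ∈ E.AA := fun z hz => hH ((hmem z).mpr (Or.inr (Or.inr hz)))
    have hm0 : mid ≠ [] := by
      intro hh
      rw [hh] at hLc
      simp at hLc
      omega
    have hLr : (mid.length : ℝ) + 2 = H.card := by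
      rw [← hLc]; push_cast; ring
    have hml : (0 : ℝ) ≤ mid.length := Nat.cast_nonneg _
    obtain ⟨new1, s, k1, k2, k3, k4, k5, k6, k7, k8⟩ := h2 E κ1 ρ P3 L3 D3 hn2 hOk hGen
      (hP3.trans le2) (hL3.trans le2) (hD3.trans le2) mid Ps d1 dK hm0 hmid hmA
      (fun hh => hd1 (List.mem_cons_of_mem _ hh)) hF (by push_cast; nlinarith)
      (AA_pos hd1A).2.2 (Or.inl hd1A)
    have hcu : (Ps ∪ new1).card = Ps.card + 3 * mid.length := by
      rw [card_union_of_disjoint k2, k1]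
    obtain ⟨m, y2, htw, htP, hF2, hdT⟩ := h1 E κ1 ρ P3 L3 D3 (Ps ∪ new1) hn1 hOk hGen k3
      (hP3.trans le1) (hL3.trans le1) (hD3.trans le1) (by rw [hcu]; push_cast; nlinarith) s dK
      k5 (AA_pos hdKA).2.2 k6
    set t1 := twPack E s dK m y2 with ht1
    have hPD1 : ∀ z ∈ pGG new1, z ∈ E.PD := by
      intro z hz
      rw [mem_pGG] at hz
      obtain ⟨p, hp, hz⟩ := hz
      exact G_PD k3 (mem_union_right _ hp) hz
    have hPDt : t1.G ⊆ E.PD := G_PD hF2 (mem_insert_self _ _)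
    have hdis : ∀ z ∈ pGG new1, z ∉ t1.G := by
      intro z hz hz2
      rw [mem_pGG] at hz
      obtain ⟨p, hp, hz⟩ := hz
      exact disjoint_left.mp hdT (G_F E t1 hz2) (F_UD (mem_union_right _ hp) (G_F E p hz))
    have hA1 : ∀ z ∈ E.AA, z ∉ pGG new1 := fun z hz hz2 => AA_PD hz (hPD1 z hz2)
    have hAt : ∀ z ∈ E.AA, z ∉ t1.G := fun z hz hz2 => AA_PD hz (hPDt hz2)
    have g2 : PGad E {t1} {s, dK} t1.G :=
      tw_gad E htw (opt_pos hnp k5) (opt_pos hnp (AA_pos hdKA).2.2) (hdis s k7) (hAt dK hdKA)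
    have ht1n : t1 ∉ new1 := fun hh => htP (mem_union_right _ hh)
    have g := gad_comp E (r := s) (O1 := insert d1 mid.toFinset) (O2 := {dK})
      (W1 := (pGG new1).erase s) (W2 := t1.G) (Ps1 := new1) (Ps2 := {t1})
      (by rw [insert_comm]; exact k8) g2 (by rw [disjoint_singleton_right]; exact ht1n)
      (by
        rw [disjoint_left]
        intro z hz hz2
        exact hdis z (mem_of_mem_erase hz) hz2)
      (by
        intro o ho
        have hoA : o ∈ E.AA := by
          rw [mem_insert, List.mem_toFinset] at ho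
          rcases ho with ho | ho
          · rw [ho]; exact hd1A
          · exact hmA o ho
        exact ⟨hAt o hoA, fun hh => hA1 o hoA (by rw [hh]; exact k7)⟩)
      (by
        intro o ho
        rw [mem_singleton] at ho
        rw [ho]
        exact ⟨fun hh => hA1 dK hdKA (mem_of_mem_erase hh),
          fun hh => hA1 dK hdKA (by rw [hh]; exact k7)⟩)
    refine ⟨new1 ∪ {t1}, ?_, ?_, ?_, ?_⟩
    · refine (card_union_le _ _).trans ?_
      rw [k1, card_singleton]
      omega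
    · rw [disjoint_union_right, disjoint_singleton_right]
      exact ⟨k2, fun hh => htP (mem_union_left _ hh)⟩
    · rw [fin6]
      exact hF2
    · have w1 : insert s ((pGG new1).erase s ∪ t1.G) = pGG (new1 ∪ {t1}) := by
        rw [pGG_union]
        ext z
        simp only [mem_insert, mem_union, mem_erase]
        have e1 : z ∈ pGG ({t1} : Finset Pack) ↔ z ∈ t1.G := by
          rw [mem_pGG]; simp
        rw [e1]
        constructor
        · rintro (hz | ⟨_, hz⟩ | hz)
          · rw [hz]; exact Or.inl k7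
          · exact Or.inl hz
          · exact Or.inr hz
        · rintro (hz | hz)
          · by_cases hz3 : z = s
            · exact Or.inl hz3
            · exact Or.inr (Or.inl ⟨hz3, hz⟩)
          · exact Or.inr (Or.inr hz)
      have w2 : (insert d1 mid.toFinset ∪ {dK} : Finset ℤ) = H := by
        ext z
        rw [hmem, mem_union, mem_insert, mem_singleton, List.mem_toFinset, or_assoc,
          or_comm (a := z ∈ mid)]
      rw [← w1, ← w2]
      exact g


end Pool.Agent.PGr.PPk
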