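import Mathlib
import Pool.Agent.PGr.PChain

/-!
# PGr-P-Abs: gadgets for a sequence of option sets

PLAN. Induction on `N` with `gad_one`: the gadgets `g z`, `z < N`, are already there, apply
`gad_one` to `Ps ∪ (range N).biUnion g` and `H N`, redefine `g` at `N` (`Function.update`). The
cardinalities add up: `((range N).biUnion g).card ≤ 3 ∑_{z < N} |H z|`. `PFam` of a union by
associativity.
-/

noncomputable section

namespace Pool.Agent.PGr.PPk

open Finset

theorem abs_all (c1 κ : ℝ) (hc1 : 0 < c1) (hκ : 0 < κ) : ∃ ε : ℝ, 0 < ε ∧ ∃ n0 : ℕ,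
    ∀ (E : Env) (κ1 ρ : ℝ) (P3 : Finset ℕ) (L3 D3 : Finset ℤ) (Ps : Finset Pack),
      n0 ≤ E.n → E.Ok κ1 ρ c1 → Gen0 E P3 → PFam E P3 L3 D3 (κ * E.n / (E.q : ℝ) ^ 2) Ps →
      (P3.card : ℝ) ≤ ε * E.n → (L3.card : ℝ) ≤ ε * E.n → (D3.card : ℝ) ≤ ε * E.n →
      ∀ (N : ℕ) (H : ℕ → Finset ℤ), (∀ z < N, H z ⊆ E.AA ∧ 3 ≤ (H z).card) →
      ((Ps.card + 3 * ∑ z ∈ range N, (H z).card : ℕ) : ℝ) ≤ ε * E.n →
      ∃ g : ℕ → Finset Pack, (∀ z < N, PGad E (g z) (H z) (pGG (g z))) ∧
        (∀ z < N, ∀ z' < N, z ≠ z' → Disjoint (g z) (g z')) ∧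
        (∀ z < N, Disjoint Ps (g z)) ∧
        PFam E P3 L3 D3 (κ * E.n / (E.q : ℝ) ^ 2) (Ps ∪ (range N).biUnion g) ∧
        ((range N).biUnion g).card ≤ 3 * ∑ z ∈ range N, (H z).card := by
  classical
  obtain ⟨ε, hε, n0, h⟩ := gad_one c1 κ hc1 hκ
  refine ⟨ε, hε, n0, ?_⟩
  intro E κ1 ρ P3 L3 D3 Ps hn hok hgen hfam hP3 hL3 hD3 N
  induction N with
  | zero =>
    intro H _ _
    refine ⟨fun _ => ∅, ?_, ?_, ?_, ?_, ?_⟩
    · intro z hz
      exact absurd hz (Nat.not_lt_zero z)
    · intro z hz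
      exact absurd hz (Nat.not_lt_zero z)
    · intro z hz
      exact absurd hz (Nat.not_lt_zero z)
    · simpa using hfam
    · simp
  | succ N ih =>
    intro H hH hcard
    have hcard' : ((Ps.card + 3 * ∑ z ∈ range N, (H z).card : ℕ) : ℝ) ≤ ε * E.n := by
      refine le_trans ?_ hcard
      have h1 : Ps.card + 3 * ∑ z ∈ range N, (H z).card ≤
          Ps.card + 3 * ∑ z ∈ range (N + 1), (H z).card := by
        rw [Finset.sum_range_succ]
        omega
      exact_mod_cast h1
    obtain ⟨g0, hg1, hg2, hg3, hg4, hg5⟩ := ih H (fun z hz => hH z (Nat.lt_succ_of_lt hz)) hcard'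
    have hc1' : (Ps ∪ (range N).biUnion g0).card ≤ Ps.card + 3 * ∑ z ∈ range N, (H z).card :=
      (Finset.card_union_le _ _).trans (Nat.add_le_add_left hg5 _)
    have hc2 : (((Ps ∪ (range N).biUnion g0).card + 3 * (H N).card : ℕ) : ℝ) ≤ ε * E.n := by
      refine le_trans ?_ hcard
      have h1 : (Ps ∪ (range N).biUnion g0).card + 3 * (H N).card ≤
          Ps.card + 3 * ∑ z ∈ range (N + 1), (H z).card := by
        rw [Finset.sum_range_succ]
        omega
      exact_mod_cast h1
    obtain ⟨new, hn1, hn2, hn3, hn4⟩ := h E κ1 ρ P3 L3 D3 (Ps ∪ (range N).biUnion g0) hn hok hgen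
      hg4 hP3 hL3 hD3 (H N) (hH N (Nat.lt_succ_self N)).1 (hH N (Nat.lt_succ_self N)).2 hc2
    rw [Finset.disjoint_union_left] at hn2
    have hdj : ∀ z < N, Disjoint (g0 z) new := by
      intro z hz
      exact Disjoint.mono_left (Finset.subset_biUnion_of_mem g0 (Finset.mem_range.2 hz)) hn2.2
    have hgN : Function.update g0 N new N = new := Function.update_self _ _ _
    have hgz : ∀ z < N, Function.update g0 N new z = g0 z := by
      intro z hz
      exact Function.update_of_ne (Nat.ne_of_lt hz) _ _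
    have hbi : (range (N + 1)).biUnion (Function.update g0 N new) =
        (range N).biUnion g0 ∪ new := by
      rw [Finset.range_add_one, Finset.biUnion_insert, hgN, Finset.union_comm]
      congr 1
      apply Finset.biUnion_congr rfl
      intro z hz
      exact hgz z (Finset.mem_range.1 hz)
    refine ⟨Function.update g0 N new, ?_, ?_, ?_, ?_, ?_⟩
    · intro z hz
      rcases Nat.lt_succ_iff_lt_or_eq.1 hz with hz | hz
      · rw [hgz z hz]
        exact hg1 z hz
      · subst hz
        rw [hgN]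
        exact hn4
    · intro z hz z' hz' hzz
      rcases Nat.lt_succ_iff_lt_or_eq.1 hz with hz | hz
      · rcases Nat.lt_succ_iff_lt_or_eq.1 hz' with hz' | hz'
        · rw [hgz z hz, hgz z' hz']
          exact hg2 z hz z' hz' hzz
        · rw [hgz z hz, hz', hgN]
          exact hdj z hz
      · rcases Nat.lt_succ_iff_lt_or_eq.1 hz' with hz' | hz'
        · rw [hgz z' hz', hz, hgN]
          exact (hdj z' hz').symm
        · exact absurd (hz.trans hz'.symm) hzz
    · intro z hz
      rcases Nat.lt_succ_iff_lt_or_eq.1 hz with hz | hz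
      · rw [hgz z hz]
        exact hg3 z hz
      · rw [hz, hgN]
        exact hn2.1
    · rw [hbi, ← Finset.union_assoc]
      exact hn3
    · rw [hbi, Finset.sum_range_succ]
      refine (Finset.card_union_le _ _).trans ?_
      omega

end Pool.Agent.PGr.PPk
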