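import Mathlib
import Pool.Agent.PGr.PFm

/-!
# PGr-P-CvS: candidates for the next cover pack

PLAN. As in PTw.lean (read the plan there, same `T, S, A, D, B t` and sizes). Candidates: `u = (m, o, y1,
y2) ∈ range n ×ˢ univ ×ˢ PL ×ˢ PL`, at most `n * 2 * (2n+1)^2 ≤ 9 n^3` of them (`PL ⊆ zall`,
`zall_card`), pack `covPack m o y1 y2`; first neighbour = `nb o m`. Let `Bad` be the set of candidates
with `covB g ..` (so `m` is a pure item) such that one of the following holds: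
BAD `m`: the ball meets `S`; tag 0 or tag 1 blocked: at most `7 |S| + (|B 0|+|B 1|)(n/q^2+4)` values.
For given `m, o` BAD `y2`: `y2 ∈ A`, spoke of `y2` in `D`, `anc m - y2 ∈ V3`, the tags which depend only
on `y2` blocked, mod q: `anc w ≠ y2` for the items `w` next to the neighbour with label `y2`,
`y2 ≠ cls0 (other neighbour of that w)`: at most `|A| + 2 |D| + |V3| + ∑ |B t| (3n/q^2+2) + 6(3n/q+2)`.
For given `m, o, y2` BAD `y1`: the same with `V2` for `anc m - y1`, `y1 - y2 ∈ V1`, and the tags and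
congruences which involve both (only if `nbp (w1 m) = nbm m`): affine in `y1` with slope `±1`.
Altogether `#Bad ≤ c1 n^3 / 2` for small `ε` and large `n`. Let `A` be the set of all candidates with
`covB` which are not bad. For every `d` with `covD g d` at least `c1 n^3 - c1 n^3 / 2` elements of `A` are
good for `d` (`Ok.cov`), and `|A| ≤ 9 n^3`; so the fraction is `≥ c1/18`. `A` is nonempty: choose some
`d ∈ dall` in the range of the group (every real interval `[a n, b n]` with `b - a ≥ 1/10`,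
`.0 ≤ a`, contains an element of `dall` for large `n`; for g = 0 the interval starts at 0, d ≥ 1).
`PackOk` of `covPack`: `L = {a1, a2}`, `F = {s1, s2}`, `J = G = ∅`; `covB` gives `PL, PD`, the
inequality of the spokes, `inc3` (so `y1 ≠ y2`); `r1 r2 r12` from the table `covT` (`fin_cases g`):
only group 0 has `y1 ∈ [2, 2.1]` (`y2 ∈ [1.3,1.4]`), only group 4 has `y1 ∈ [.9,.94]`.
`red3` of the three classes of the item itself: from `inc3` (`red q (x : ZMod (q^2)) = (x : ZMod q)`,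
`ZMod.intCast_zmod_eq_zero_iff_dvd` / `ZMod.intCast_eq_intCast_iff_dvd_sub`).
-/

noncomputable section

namespace Pool.Agent.PGr.PPk

open Finset

/-- the pack of a candidate -/
def cvP (u : ℕ × Bool × ℤ × ℤ) : Pack := covPack u.1 u.2.1 u.2.2.1 u.2.2.2

open Classical in
private theorem cnt_fst {ι : Type} (I : Finset ι) (J : Finset ℤ) (P : ι → Prop) :
    ((I ×ˢ J ×ˢ J).filter (fun t => P t.1)).card ≤ (I.filter P).card * (J.card * J.card) := by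
  rw [← Finset.card_product, ← Finset.card_product]
  apply Finset.card_le_card
  intro t ht
  rw [Finset.mem_filter, Finset.mem_product] at ht
  rw [Finset.mem_product, Finset.mem_filter]
  exact ⟨⟨ht.1.1, ht.2⟩, ht.1.2⟩

open Classical in
private theorem cnt_a {ι : Type} (I : Finset ι) (J : Finset ℤ) (P : ι → ℤ → ℤ → Prop) (K : ℝ)
    (h : ∀ i ∈ I, ∀ y ∈ J, ((J.filter (fun x => P i x y)).card : ℝ) ≤ K) :
    (((I ×ˢ J ×ˢ J).filter (fun t => P t.1 t.2.1 t.2.2)).card : ℝ) ≤ I.card * J.card * K := by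
  have h1 : ((I ×ˢ J ×ˢ J).filter (fun t => P t.1 t.2.1 t.2.2)).card =
      ∑ b ∈ I ×ˢ J, (((I ×ˢ J ×ˢ J).filter (fun t => P t.1 t.2.1 t.2.2)).filter
        (fun t => (t.1, t.2.2) = b)).card := by
    apply Finset.card_eq_sum_card_fiberwise
    intro t ht
    rw [Finset.mem_coe, Finset.mem_filter, Finset.mem_product, Finset.mem_product] at ht
    rw [Finset.mem_coe, Finset.mem_product]
    exact ⟨ht.1.1, ht.1.2.2⟩
  rw [h1]
  push_cast
  have h2 : ∀ b ∈ I ×ˢ J, ((((I ×ˢ J ×ˢ J).filter (fun t => P t.1 t.2.1 t.2.2)).filter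
        (fun t => (t.1, t.2.2) = b)).card : ℝ) ≤ K := by
    intro b hb
    rw [Finset.mem_product] at hb
    refine le_trans ?_ (h b.1 hb.1 b.2 hb.2)
    have h3 : (((I ×ˢ J ×ˢ J).filter (fun t => P t.1 t.2.1 t.2.2)).filter
        (fun t => (t.1, t.2.2) = b)).card ≤ (J.filter (fun x => P b.1 x b.2)).card := by
      apply Finset.card_le_card_of_injOn (fun t => t.2.1)
      · intro t ht
        rw [Finset.mem_coe, Finset.mem_filter, Finset.mem_filter, Finset.mem_product,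
          Finset.mem_product] at ht
        rw [Finset.mem_coe, Finset.mem_filter]
        obtain ⟨⟨⟨h4, h5, h6⟩, h7⟩, h8⟩ := ht
        rw [← h8]
        exact ⟨h5, h7⟩
      · intro t ht s hs hts
        rw [Finset.mem_coe, Finset.mem_filter] at ht hs
        have h8 := ht.2.trans hs.2.symm
        rw [Prod.mk.injEq] at h8
        exact Prod.ext h8.1 (Prod.ext hts h8.2)
    exact_mod_cast h3
  refine (Finset.sum_le_card_nsmul _ _ _ h2).trans (le_of_eq ?_)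
  rw [nsmul_eq_mul, Finset.card_product]
  push_cast
  ring

open Classical in
private theorem cnt_b {ι : Type} (I : Finset ι) (J : Finset ℤ) (P : ι → ℤ → ℤ → Prop) (K : ℝ)
    (h : ∀ i ∈ I, ∀ x ∈ J, ((J.filter (fun y => P i x y)).card : ℝ) ≤ K) :
    (((I ×ˢ J ×ˢ J).filter (fun t => P t.1 t.2.1 t.2.2)).card : ℝ) ≤ I.card * J.card * K := by
  refine le_trans ?_ (cnt_a I J (fun i x y => P i y x) K h)
  have h3 : ((I ×ˢ J ×ˢ J).filter (fun t => P t.1 t.2.1 t.2.2)).card ≤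
      ((I ×ˢ J ×ˢ J).filter (fun t => P t.1 t.2.2 t.2.1)).card := by
    apply Finset.card_le_card_of_injOn (fun t => (t.1, t.2.2, t.2.1))
    · intro t ht
      rw [Finset.mem_coe, Finset.mem_filter, Finset.mem_product, Finset.mem_product] at ht
      rw [Finset.mem_coe, Finset.mem_filter, Finset.mem_product, Finset.mem_product]
      exact ⟨⟨ht.1.1, ht.1.2.2, ht.1.2.1⟩, ht.2⟩
    · intro t _ s _ hts
      rw [Prod.mk.injEq, Prod.mk.injEq] at hts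
      exact Prod.ext hts.1 (Prod.ext hts.2.2 hts.2.1)
  exact_mod_cast h3

variable (E : Env)

open Classical in
/-- values of a label with a bad property, everything else being fixed -/
private theorem side_count (P : ℤ → Prop) (A D : Finset ℤ) (z : ℤ)
    (R1 R2 : Finset (ZMod (E.q ^ 2))) (R3 : Finset (ZMod E.q))
    (hP : ∀ x, P x → x ∈ A ∨ |x - z| ∈ D ∨ ((x : ℤ) : ZMod (E.q ^ 2)) ∈ R1 ∨
      ((x : ℤ) : ZMod (E.q ^ 2)) ∈ R2 ∨ ((x : ℤ) : ZMod E.q) ∈ R3) :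
    ((E.PL.filter P).card : ℝ) ≤
      A.card + 2 * D.card + (R1.card + R2.card) * (3 * E.n / (E.q : ℝ) ^ 2 + 2) +
        R3.card * (3 * E.n / (E.q : ℝ) + 2) := by
  obtain ⟨F1, hF1⟩ : ∃ F1 : Finset ℤ, F1 = (Icc (0 : ℤ) (3 * E.n)).filter
    (fun y : ℤ => ((y : ℤ) : ZMod (E.q ^ 2)) ∈ R1) := ⟨_, rfl⟩
  obtain ⟨F2, hF2⟩ : ∃ F2 : Finset ℤ, F2 = (Icc (0 : ℤ) (3 * E.n)).filter
    (fun y : ℤ => ((y : ℤ) : ZMod (E.q ^ 2)) ∈ R2) := ⟨_, rfl⟩
  obtain ⟨F3, hF3⟩ : ∃ F3 : Finset ℤ, F3 = (Icc (0 : ℤ) (3 * E.n)).filter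
    (fun y : ℤ => ((y : ℤ) : ZMod E.q) ∈ R3) := ⟨_, rfl⟩
  have hsub : E.PL.filter P ⊆
      A ∪ (D.image (fun d => z + d) ∪ D.image (fun d => z - d)) ∪ (F1 ∪ F2) ∪ F3 := by
    intro x hx
    rw [Finset.mem_filter] at hx
    have hI : x ∈ Icc (0 : ℤ) (3 * E.n) := Finset.mem_Icc.2 (PL_bd E hx.1)
    rw [hF1, hF2, hF3]
    simp only [Finset.mem_union, Finset.mem_filter, Finset.mem_image]
    rcases hP x hx.2 with h | h | h | h | h
    · exact Or.inl (Or.inl (Or.inl h))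
    · refine Or.inl (Or.inl (Or.inr ?_))
      rcases abs_choice (x - z) with h1 | h1
      · rw [h1] at h
        exact Or.inl ⟨x - z, h, by ring⟩
      · rw [h1] at h
        exact Or.inr ⟨-(x - z), h, by ring⟩
    · exact Or.inl (Or.inr (Or.inl ⟨hI, h⟩))
    · exact Or.inl (Or.inr (Or.inr ⟨hI, h⟩))
    · exact Or.inr ⟨hI, h⟩
  have h1 := Finset.card_le_card hsub
  have h2 := res_kill E.n (E.q ^ 2) R1
  have h3 := res_kill E.n (E.q ^ 2) R2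
  have h4 := res_kill E.n E.q R3
  rw [← hF1] at h2
  rw [← hF2] at h3
  rw [← hF3] at h4
  push_cast at h2 h3
  have e1 := Finset.card_union_le
    (A ∪ (D.image (fun d => z + d) ∪ D.image (fun d => z - d)) ∪ (F1 ∪ F2)) F3
  have e2 := Finset.card_union_le
    (A ∪ (D.image (fun d => z + d) ∪ D.image (fun d => z - d))) (F1 ∪ F2)
  have e3 := Finset.card_union_le A (D.image (fun d => z + d) ∪ D.image (fun d => z - d))
  have e4 := Finset.card_union_le (D.image (fun d => z + d)) (D.image (fun d => z - d))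
  have e5 : (D.image (fun d => z + d)).card ≤ D.card := Finset.card_image_le
  have e6 : (D.image (fun d => z - d)).card ≤ D.card := Finset.card_image_le
  have e7 := Finset.card_union_le F1 F2
  have e8 : (E.PL.filter P).card ≤ A.card + 2 * D.card + (F1.card + F2.card) + F3.card := by
    omega
  have e9 : ((E.PL.filter P).card : ℝ) ≤
      A.card + 2 * D.card + (F1.card + F2.card) + F3.card := by
    exact_mod_cast e8
  linarith

/-- the pack with planted labels `a1`, `a2` -/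
private def mk3 (m : ℕ) (a1 a2 : ℤ) : Pack := ⟨m, a1, a2, ∅, ∅⟩

/-- base conditions of a candidate -/
private def Bs (m : ℕ) (a1 a2 : ℤ) : Prop :=
  E.pureItem m ∧ a1 ∈ E.PL ∧ a2 ∈ E.PL ∧
  |a1 - anc E.n (nbp E.n E.k m)| ∈ E.PD ∧ |a2 - anc E.n (nbm E.n E.k m)| ∈ E.PD ∧
  |a1 - anc E.n (nbp E.n E.k m)| ≠ |a2 - anc E.n (nbm E.n E.k m)| ∧ a1 ≠ a2 ∧
  inI E.n (9 / 10) (21 / 10) a1 ∧ inI E.n (9 / 10) (21 / 10) a2 ∧
  ((inI E.n (9 / 10) 2 a1 ∧ inI E.n (9 / 10) 2 a2) ∨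
    (inI E.n 1 (21 / 10) a1 ∧ inI E.n 1 (21 / 10) a2))

open Classical in
/-- class of the far neighbour of `w1 m` -/
private def c1f (m : ℕ) (a2 : ℤ) : ZMod (E.q ^ 2) :=
  if nbp E.n E.k (w1 E m) = nbm E.n E.k m then ((a2 : ℤ) : ZMod (E.q ^ 2))
  else cls0 E.n E.q (nbp E.n E.k (w1 E m))

open Classical in
/-- class of the far neighbour of `w2 m` -/
private def c2f (m : ℕ) (a1 : ℤ) : ZMod (E.q ^ 2) :=
  if nbm E.n E.k (w2 E m) = nbp E.n E.k m then ((a1 : ℤ) : ZMod (E.q ^ 2))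
  else cls0 E.n E.q (nbm E.n E.k (w2 E m))

private theorem w1_far (hE : Base E.n E.k E.q E.S E.B0) {m : ℕ} (hm : m < E.n) :
    nbp E.n E.k (w1 E m) ≠ nbp E.n E.k m := by
  intro h
  unfold w1 at h
  have h1 := congrArg (nbm E.n E.k) h
  rw [nbm_nbp hE.k_pos hE.k_lt (nbp_lt hE.k_lt _), nbm_nbp hE.k_pos hE.k_lt hm] at h1
  have h2 := congrArg (nbm E.n E.k) h1
  rw [nbm_nbp hE.k_pos hE.k_lt (nbp_lt hE.k_lt _)] at h2
  exact nbp_ne_nbm hE.k_pos hE.k_lt hm h2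

private theorem w2_far (hE : Base E.n E.k E.q E.S E.B0) {m : ℕ} (hm : m < E.n) :
    nbm E.n E.k (w2 E m) ≠ nbm E.n E.k m := by
  intro h
  unfold w2 at h
  have h1 := congrArg (nbp E.n E.k) h
  rw [nbp_nbm hE.k_pos hE.k_lt (nbm_lt hE.k_lt _), nbp_nbm hE.k_pos hE.k_lt hm] at h1
  have h2 := congrArg (nbp E.n E.k) h1
  rw [nbp_nbm hE.k_pos hE.k_lt (nbm_lt hE.k_lt _)] at h2
  exact nbp_ne_nbm hE.k_pos hE.k_lt hm h2.symm

private theorem pcl_w1 (hE : Base E.n E.k E.q E.S E.B0) {m : ℕ} (hm : m < E.n) (a1 a2 : ℤ) :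
    pcl E (mk3 m a1 a2) (nbp E.n E.k (w1 E m)) = c1f E m a2 := by
  unfold pcl c1f mk3
  simp only
  rw [if_neg (w1_far E hE hm)]

private theorem pcl_w2 (hE : Base E.n E.k E.q E.S E.B0) {m : ℕ} (hm : m < E.n) (a1 a2 : ℤ) :
    pcl E (mk3 m a1 a2) (nbm E.n E.k (w2 E m)) = c2f E m a1 := by
  unfold pcl c2f mk3
  simp only
  by_cases h : nbm E.n E.k (w2 E m) = nbp E.n E.k m
  · rw [if_pos h, if_pos h]
  · rw [if_neg h, if_neg h, if_neg (w2_far E hE hm)]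

variable {P3 : Finset ℕ} {L3 D3 : Finset ℤ} {T : ℝ} {Ps : Finset Pack}

private theorem good_of {κ1 ρ c1 : ℝ} (hOk : E.Ok κ1 ρ c1) (hG : Gen0 E P3)
    (hF : PFam E P3 L3 D3 T Ps) {m : ℕ} {a1 a2 : ℤ} (hB : Bs E m a1 a2)
    (h1 : Disjoint (ball E m) (US E P3 Ps)) (hA1 : a1 ∉ UL L3 Ps) (hA2 : a2 ∉ UL L3 Ps)
    (hD1 : |a1 - anc E.n (nbp E.n E.k m)| ∉ UD E D3 Ps)
    (hD2 : |a2 - anc E.n (nbm E.n E.k m)| ∉ UD E D3 Ps)
    (t0 : un E.n E.q (nbp E.n E.k m) ∉ Bl E T Ps 0)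
    (t1 : un E.n E.q (nbm E.n E.k m) ∉ Bl E T Ps 1)
    (t2 : ((anc E.n (w1 E m) : ℤ) : ZMod (E.q ^ 2)) - ((a1 : ℤ) : ZMod (E.q ^ 2)) ∉ Bl E T Ps 2)
    (t3 : c1f E m a2 - ((a1 : ℤ) : ZMod (E.q ^ 2)) ∉ Bl E T Ps 3)
    (t4 : ((anc E.n (w2 E m) : ℤ) : ZMod (E.q ^ 2)) - ((a2 : ℤ) : ZMod (E.q ^ 2)) ∉ Bl E T Ps 4)
    (t5 : ((a2 : ℤ) : ZMod (E.q ^ 2)) - c2f E m a1 ∉ Bl E T Ps 5)
    (n1 : ((a1 : ℤ) : ZMod E.q) ≠ ((anc E.n (w1 E m) : ℤ) : ZMod E.q))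
    (n2 : ((a1 : ℤ) : ZMod E.q) ≠ red E.q (c1f E m a2))
    (n3 : ((a1 : ℤ) : ZMod E.q) ≠ ((anc E.n (w2 E m) : ℤ) : ZMod E.q))
    (n4 : ((a2 : ℤ) : ZMod E.q) ≠ ((anc E.n (w2 E m) : ℤ) : ZMod E.q))
    (n5 : ((a2 : ℤ) : ZMod E.q) ≠ red E.q (c2f E m a1))
    (n6 : ((a2 : ℤ) : ZMod E.q) ≠ ((anc E.n (w1 E m) : ℤ) : ZMod E.q)) :
    mk3 m a1 a2 ∉ Ps ∧ PFam E P3 L3 D3 T (insert (mk3 m a1 a2) Ps) := by
  obtain ⟨b1, b2, b3, b4, b5, b6, b7, b8, b9, b10⟩ := hB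
  have hE := E.base
  obtain ⟨f1, f2, f3, f4, f5, f6⟩ := pure_facts E hE hOk.col b1
  have hP3 : Disjoint (ball E m) P3 := h1.mono_right (by unfold US; exact Finset.subset_union_left)
  have hb1 : nbp E.n E.k m ∈ ball E m := by unfold ball; simp
  have hb2 : nbm E.n E.k m ∈ ball E m := by unfold ball; simp
  have hr : ∀ z : ℤ, red E.q ((z : ℤ) : ZMod (E.q ^ 2)) = ((z : ℤ) : ZMod E.q) :=
    fun z => map_intCast (red E.q) z
  have g1 : red3 E.q ((anc E.n (w1 E m) : ℤ) : ZMod (E.q ^ 2)) (c1f E m a2)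
      ((a1 : ℤ) : ZMod (E.q ^ 2)) := by
    refine ⟨?_, ?_, ?_⟩
    · rw [hr]
      by_cases h : nbp E.n E.k (w1 E m) = nbm E.n E.k m
      · unfold c1f
        rw [if_pos h, hr]
        exact n6.symm
      · unfold c1f
        rw [if_neg h, ← hr]
        refine (hG (w1 E m) f3 (Or.inr ?_)).1
        unfold w1
        rw [nbm_nbp hE.k_pos hE.k_lt (nbp_lt hE.k_lt _)]
        exact Finset.disjoint_left.1 hP3 hb1
    · rw [hr, hr]
      exact n1.symm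
    · rw [hr]
      exact n2.symm
  have g2 : red3 E.q ((anc E.n (w2 E m) : ℤ) : ZMod (E.q ^ 2)) ((a2 : ℤ) : ZMod (E.q ^ 2))
      (c2f E m a1) := by
    refine ⟨?_, ?_, ?_⟩
    · rw [hr, hr]
      exact n4.symm
    · rw [hr]
      by_cases h : nbm E.n E.k (w2 E m) = nbp E.n E.k m
      · unfold c2f
        rw [if_pos h, hr]
        exact n3.symm
      · unfold c2f
        rw [if_neg h, ← hr]
        refine (hG (w2 E m) f4 (Or.inl ?_)).2.1
        unfold w2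
        rw [nbp_nbm hE.k_pos hE.k_lt (nbm_lt hE.k_lt _)]
        exact Finset.disjoint_left.1 hP3 hb2
    · rw [hr]
      exact n5
  have hok : PackOk E P3 (mk3 m a1 a2) :=
    { item := b1
      fresh := hP3
      LPL := by
        intro x hx
        have hx' : x = a1 ∨ x = a2 := by
          unfold Pack.L mk3 at hx
          simpa using hx
        rcases hx' with rfl | rfl
        · exact b2
        · exact b3
      FPD := by
        intro x hx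
        have hx' : x = |a1 - anc E.n (nbp E.n E.k m)| ∨ x = |a2 - anc E.n (nbm E.n E.k m)| := by
          unfold Pack.F Pack.s1 Pack.s2 mk3 at hx
          simpa using hx
        rcases hx' with rfl | rfl
        · exact b4
        · exact b5
      cJ := by unfold mk3; simp
      cG := by unfold mk3; simp
      a12 := b7
      a1J := by unfold mk3; simp
      a2J := by unfold mk3; simp
      s12 := b6
      s1G := by unfold mk3; simp
      s2G := by unfold mk3; simp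
      r1 := b8
      r2 := b9
      r12 := b10
      g1 := by
        change red3 E.q ((anc E.n (w1 E m) : ℤ) : ZMod (E.q ^ 2))
          (pcl E (mk3 m a1 a2) (nbp E.n E.k (w1 E m))) ((a1 : ℤ) : ZMod (E.q ^ 2))
        rw [pcl_w1 E hE f1]
        exact g1
      g2 := by
        change red3 E.q ((anc E.n (w2 E m) : ℤ) : ZMod (E.q ^ 2)) ((a2 : ℤ) : ZMod (E.q ^ 2))
          (pcl E (mk3 m a1 a2) (nbm E.n E.k (w2 E m)))
        rw [pcl_w2 E hE f1]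
        exact g2 }
  refine fam_insert E hF hok h1 ?_ ?_ ?_
  · rw [Finset.disjoint_left]
    intro x hx
    have hx' : x = a1 ∨ x = a2 := by
      unfold Pack.L mk3 at hx
      simpa using hx
    rcases hx' with rfl | rfl
    · exact hA1
    · exact hA2
  · rw [Finset.disjoint_left]
    intro x hx
    have hx' : x = |a1 - anc E.n (nbp E.n E.k m)| ∨ x = |a2 - anc E.n (nbm E.n E.k m)| := by
      unfold Pack.F Pack.s1 Pack.s2 mk3 at hx
      simpa using hx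
    rcases hx' with rfl | rfl
    · exact hD1
    · exact hD2
  · intro t
    fin_cases t
    · exact t0
    · exact t1
    · exact t2
    · change pcl E (mk3 m a1 a2) (nbp E.n E.k (w1 E m)) - ((a1 : ℤ) : ZMod (E.q ^ 2)) ∉ _
      rw [pcl_w1 E hE f1]
      exact t3
    · exact t4
    · change ((a2 : ℤ) : ZMod (E.q ^ 2)) - pcl E (mk3 m a1 a2) (nbm E.n E.k (w2 E m)) ∉ _
      rw [pcl_w2 E hE f1]
      exact t5


open Classical in
private theorem bad_count {κ1 ρ c1 : ℝ} (hOk : E.Ok κ1 ρ c1) (hG : Gen0 E P3)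
    (hF : PFam E P3 L3 D3 T Ps) :
    ((((range E.n) ×ˢ E.PL ×ˢ E.PL).filter (fun t => Bs E t.1 t.2.1 t.2.2 ∧
      ¬ (mk3 t.1 t.2.1 t.2.2 ∉ Ps ∧ PFam E P3 L3 D3 T (insert (mk3 t.1 t.2.1 t.2.2) Ps)))).card : ℝ)
    ≤ (7 * (US E P3 Ps).card + ((Bl E T Ps 0).card + (Bl E T Ps 1).card) *
        (E.n / (E.q : ℝ) ^ 2 + 4)) * (E.PL.card * E.PL.card) +
      E.n * E.PL.card * ((UL L3 Ps).card + 2 * (UD E D3 Ps).card +
        ((Bl E T Ps 2).card + (Bl E T Ps 3).card) * (3 * E.n / (E.q : ℝ) ^ 2 + 2) +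
        3 * (3 * E.n / (E.q : ℝ) + 2)) +
      E.n * E.PL.card * ((UL L3 Ps).card + 2 * (UD E D3 Ps).card +
        ((Bl E T Ps 4).card + (Bl E T Ps 5).card) * (3 * E.n / (E.q : ℝ) ^ 2 + 2) +
        3 * (3 * E.n / (E.q : ℝ) + 2)) := by
  have hE := E.base
  obtain ⟨PX, hPX⟩ : ∃ PX : ℕ → Prop, PX = fun m => ¬ Disjoint (ball E m) (US E P3 Ps) ∨
      (¬ spec E.n (nbp E.n E.k m) ∧ un E.n E.q (nbp E.n E.k m) ∈ Bl E T Ps 0) ∨
      (¬ spec E.n (nbm E.n E.k m) ∧ un E.n E.q (nbm E.n E.k m) ∈ Bl E T Ps 1) := ⟨_, rfl⟩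
  obtain ⟨P1, hP1⟩ : ∃ P1 : ℕ → ℤ → ℤ → Prop, P1 = fun m a1 a2 => a1 ∈ UL L3 Ps ∨
      |a1 - anc E.n (nbp E.n E.k m)| ∈ UD E D3 Ps ∨
      ((a1 : ℤ) : ZMod (E.q ^ 2)) ∈ (Bl E T Ps 2).image
        (fun b => ((anc E.n (w1 E m) : ℤ) : ZMod (E.q ^ 2)) - b) ∨
      ((a1 : ℤ) : ZMod (E.q ^ 2)) ∈ (Bl E T Ps 3).image (fun b => c1f E m a2 - b) ∨
      ((a1 : ℤ) : ZMod E.q) ∈ ({((anc E.n (w1 E m) : ℤ) : ZMod E.q), red E.q (c1f E m a2),
        ((anc E.n (w2 E m) : ℤ) : ZMod E.q)} : Finset (ZMod E.q)) := ⟨_, rfl⟩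
  obtain ⟨P2, hP2⟩ : ∃ P2 : ℕ → ℤ → ℤ → Prop, P2 = fun m a1 a2 => a2 ∈ UL L3 Ps ∨
      |a2 - anc E.n (nbm E.n E.k m)| ∈ UD E D3 Ps ∨
      ((a2 : ℤ) : ZMod (E.q ^ 2)) ∈ (Bl E T Ps 4).image
        (fun b => ((anc E.n (w2 E m) : ℤ) : ZMod (E.q ^ 2)) - b) ∨
      ((a2 : ℤ) : ZMod (E.q ^ 2)) ∈ (Bl E T Ps 5).image (fun b => c2f E m a1 + b) ∨
      ((a2 : ℤ) : ZMod E.q) ∈ ({((anc E.n (w2 E m) : ℤ) : ZMod E.q), red E.q (c2f E m a1),
        ((anc E.n (w1 E m) : ℤ) : ZMod E.q)} : Finset (ZMod E.q)) := ⟨_, rfl⟩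
  have hsub : ((range E.n) ×ˢ E.PL ×ˢ E.PL).filter (fun t => Bs E t.1 t.2.1 t.2.2 ∧
      ¬ (mk3 t.1 t.2.1 t.2.2 ∉ Ps ∧ PFam E P3 L3 D3 T (insert (mk3 t.1 t.2.1 t.2.2) Ps))) ⊆
      (((range E.n) ×ˢ E.PL ×ˢ E.PL).filter (fun t => PX t.1) ∪
      ((range E.n) ×ˢ E.PL ×ˢ E.PL).filter (fun t => P1 t.1 t.2.1 t.2.2)) ∪
      ((range E.n) ×ˢ E.PL ×ˢ E.PL).filter (fun t => P2 t.1 t.2.1 t.2.2) := by
    rintro ⟨m, a1, a2⟩ ht
    rw [Finset.mem_filter] at ht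
    obtain ⟨hU, hB, hbad⟩ := ht
    simp only at hB hbad
    by_contra hno
    apply hbad
    rw [Finset.mem_union, Finset.mem_union, Finset.mem_filter, Finset.mem_filter,
      Finset.mem_filter] at hno
    simp only [hU, true_and] at hno
    rw [hPX, hP1, hP2] at hno
    simp only [Finset.mem_image, Finset.mem_insert, Finset.mem_singleton] at hno
    push Not at hno
    obtain ⟨⟨⟨x1, x2, x3⟩, y1, y2, y3, y4, y5, y6, y7⟩, z1, z2, z3, z4, z5, z6, z7⟩ := hno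
    obtain ⟨f1, f2, f3, f4, f5, f6⟩ := pure_facts E hE hOk.col hB.1
    refine good_of E hOk hG hF hB x1 y1 z1 y2 z2 (x2 f5) (x3 f6) ?_ ?_ ?_ ?_ y5 y6 y7 z5 z6 z7
    · intro h
      exact y3 _ h (by ring)
    · intro h
      exact y4 _ h (by ring)
    · intro h
      exact z3 _ h (by ring)
    · intro h
      exact z4 _ h (by ring)
  have hX : ((((range E.n) ×ˢ E.PL ×ˢ E.PL).filter (fun t => PX t.1)).card : ℝ) ≤
      (7 * (US E P3 Ps).card + ((Bl E T Ps 0).card + (Bl E T Ps 1).card) *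
        (E.n / (E.q : ℝ) ^ 2 + 4)) * (E.PL.card * E.PL.card) := by
    have h1 := cnt_fst (range E.n) E.PL PX
    have h2 : ((range E.n).filter PX).card ≤
        ((range E.n).filter (fun m => ¬ Disjoint (ball E m) (US E P3 Ps))).card +
        (((range E.n).filter (fun m => ¬ spec E.n (nbp E.n E.k m) ∧
          un E.n E.q (nbp E.n E.k m) ∈ Bl E T Ps 0)).card +
        ((range E.n).filter (fun m => ¬ spec E.n (nbm E.n E.k m) ∧
          un E.n E.q (nbm E.n E.k m) ∈ Bl E T Ps 1)).card) := by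
      refine le_trans (Finset.card_le_card (t :=
        ((range E.n).filter (fun m => ¬ Disjoint (ball E m) (US E P3 Ps))) ∪
        (((range E.n).filter (fun m => ¬ spec E.n (nbp E.n E.k m) ∧
          un E.n E.q (nbp E.n E.k m) ∈ Bl E T Ps 0)) ∪
        ((range E.n).filter (fun m => ¬ spec E.n (nbm E.n E.k m) ∧
          un E.n E.q (nbm E.n E.k m) ∈ Bl E T Ps 1)))) ?_)
        ((Finset.card_union_le _ _).trans (Nat.add_le_add_left (Finset.card_union_le _ _) _))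
      intro m hm
      rw [Finset.mem_filter, hPX] at hm
      rw [Finset.mem_union, Finset.mem_union, Finset.mem_filter, Finset.mem_filter,
        Finset.mem_filter]
      rcases hm.2 with h | h | h
      · exact Or.inl ⟨hm.1, h⟩
      · exact Or.inr (Or.inl ⟨hm.1, h⟩)
      · exact Or.inr (Or.inr ⟨hm.1, h⟩)
    have h3 := ball_kill E hE (US E P3 Ps)
    have h4 := (unit_kill E hE (Bl E T Ps 0)).1
    have h5 := (unit_kill E hE (Bl E T Ps 1)).2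
    have h6 : (((range E.n).filter PX).card : ℝ) ≤ 7 * (US E P3 Ps).card +
        ((Bl E T Ps 0).card + (Bl E T Ps 1).card) * (E.n / (E.q : ℝ) ^ 2 + 4) := by
      have h2' : (((range E.n).filter PX).card : ℝ) ≤
        ((range E.n).filter (fun m => ¬ Disjoint (ball E m) (US E P3 Ps))).card +
        (((range E.n).filter (fun m => ¬ spec E.n (nbp E.n E.k m) ∧
          un E.n E.q (nbp E.n E.k m) ∈ Bl E T Ps 0)).card +
        ((range E.n).filter (fun m => ¬ spec E.n (nbm E.n E.k m) ∧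
          un E.n E.q (nbm E.n E.k m) ∈ Bl E T Ps 1)).card) := by exact_mod_cast h2
      have h3' : (((range E.n).filter (fun m => ¬ Disjoint (ball E m) (US E P3 Ps))).card : ℝ) ≤
        7 * (US E P3 Ps).card := by exact_mod_cast h3
      linarith
    have h7 : ((((range E.n) ×ˢ E.PL ×ˢ E.PL).filter (fun t => PX t.1)).card : ℝ) ≤
        ((range E.n).filter PX).card * (E.PL.card * E.PL.card) := by exact_mod_cast h1
    refine h7.trans ?_
    gcongr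
  have hY1 : ((((range E.n) ×ˢ E.PL ×ˢ E.PL).filter (fun t => P1 t.1 t.2.1 t.2.2)).card : ℝ) ≤
      E.n * E.PL.card * ((UL L3 Ps).card + 2 * (UD E D3 Ps).card +
        ((Bl E T Ps 2).card + (Bl E T Ps 3).card) * (3 * E.n / (E.q : ℝ) ^ 2 + 2) +
        3 * (3 * E.n / (E.q : ℝ) + 2)) := by
    have h1 := cnt_a (range E.n) E.PL P1 ((UL L3 Ps).card + 2 * (UD E D3 Ps).card +
        ((Bl E T Ps 2).card + (Bl E T Ps 3).card) * (3 * E.n / (E.q : ℝ) ^ 2 + 2) +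
        3 * (3 * E.n / (E.q : ℝ) + 2)) ?_
    · rw [Finset.card_range] at h1
      exact h1
    · intro m _ a2 _
      refine (side_count E (fun x => P1 m x a2) (UL L3 Ps) (UD E D3 Ps)
        (anc E.n (nbp E.n E.k m)) ((Bl E T Ps 2).image
        (fun b => ((anc E.n (w1 E m) : ℤ) : ZMod (E.q ^ 2)) - b))
        ((Bl E T Ps 3).image (fun b => c1f E m a2 - b))
        {((anc E.n (w1 E m) : ℤ) : ZMod E.q), red E.q (c1f E m a2),
        ((anc E.n (w2 E m) : ℤ) : ZMod E.q)} ?_).trans ?_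
      · intro x hx
        rw [hP1] at hx
        exact hx
      have i1 : (((Bl E T Ps 2).image
        (fun b => ((anc E.n (w1 E m) : ℤ) : ZMod (E.q ^ 2)) - b)).card : ℝ) ≤
          (Bl E T Ps 2).card := by exact_mod_cast Finset.card_image_le
      have i2 : (((Bl E T Ps 3).image (fun b => c1f E m a2 - b)).card : ℝ) ≤
          (Bl E T Ps 3).card := by exact_mod_cast Finset.card_image_le
      have i3 : ((({((anc E.n (w1 E m) : ℤ) : ZMod E.q), red E.q (c1f E m a2),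
        ((anc E.n (w2 E m) : ℤ) : ZMod E.q)} : Finset (ZMod E.q))).card : ℝ) ≤ 3 := by
        exact_mod_cast Finset.card_le_three
      gcongr
  have hY2 : ((((range E.n) ×ˢ E.PL ×ˢ E.PL).filter (fun t => P2 t.1 t.2.1 t.2.2)).card : ℝ) ≤
      E.n * E.PL.card * ((UL L3 Ps).card + 2 * (UD E D3 Ps).card +
        ((Bl E T Ps 4).card + (Bl E T Ps 5).card) * (3 * E.n / (E.q : ℝ) ^ 2 + 2) +
        3 * (3 * E.n / (E.q : ℝ) + 2)) := by
    have h1 := cnt_b (range E.n) E.PL P2 ((UL L3 Ps).card + 2 * (UD E D3 Ps).card +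
        ((Bl E T Ps 4).card + (Bl E T Ps 5).card) * (3 * E.n / (E.q : ℝ) ^ 2 + 2) +
        3 * (3 * E.n / (E.q : ℝ) + 2)) ?_
    · rw [Finset.card_range] at h1
      exact h1
    · intro m _ a1 _
      refine (side_count E (fun y => P2 m a1 y) (UL L3 Ps) (UD E D3 Ps)
        (anc E.n (nbm E.n E.k m)) ((Bl E T Ps 4).image
        (fun b => ((anc E.n (w2 E m) : ℤ) : ZMod (E.q ^ 2)) - b))
        ((Bl E T Ps 5).image (fun b => c2f E m a1 + b))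
        {((anc E.n (w2 E m) : ℤ) : ZMod E.q), red E.q (c2f E m a1),
        ((anc E.n (w1 E m) : ℤ) : ZMod E.q)} ?_).trans ?_
      · intro x hx
        rw [hP2] at hx
        exact hx
      have i1 : (((Bl E T Ps 4).image
        (fun b => ((anc E.n (w2 E m) : ℤ) : ZMod (E.q ^ 2)) - b)).card : ℝ) ≤
          (Bl E T Ps 4).card := by exact_mod_cast Finset.card_image_le
      have i2 : (((Bl E T Ps 5).image (fun b => c2f E m a1 + b)).card : ℝ) ≤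
          (Bl E T Ps 5).card := by exact_mod_cast Finset.card_image_le
      have i3 : ((({((anc E.n (w2 E m) : ℤ) : ZMod E.q), red E.q (c2f E m a1),
        ((anc E.n (w1 E m) : ℤ) : ZMod E.q)} : Finset (ZMod E.q))).card : ℝ) ≤ 3 := by
        exact_mod_cast Finset.card_le_three
      gcongr
  have h1 := Finset.card_le_card hsub
  have h2 := h1.trans ((Finset.card_union_le _ _).trans
    (Nat.add_le_add_right (Finset.card_union_le _ _) _))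
  have h3 : ((((range E.n) ×ˢ E.PL ×ˢ E.PL).filter (fun t => Bs E t.1 t.2.1 t.2.2 ∧
      ¬ (mk3 t.1 t.2.1 t.2.2 ∉ Ps ∧ PFam E P3 L3 D3 T (insert (mk3 t.1 t.2.1 t.2.2) Ps)))).card : ℝ)
      ≤ (((range E.n) ×ˢ E.PL ×ˢ E.PL).filter (fun t => PX t.1)).card +
      (((range E.n) ×ˢ E.PL ×ˢ E.PL).filter (fun t => P1 t.1 t.2.1 t.2.2)).card +
      (((range E.n) ×ˢ E.PL ×ˢ E.PL).filter (fun t => P2 t.1 t.2.1 t.2.2)).card := by
    exact_mod_cast h2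
  linarith


private theorem arith {n N u a d b0 b1 b2 b3 b4 b5 ε κ x y : ℝ} (hn : 0 ≤ n) (hN0 : 0 ≤ N)
    (hN : N ≤ 3 * n) (hu : u ≤ 8 * ε * n) (ha : a ≤ 6 * ε * n) (hd : d ≤ 8 * ε * n)
    (hκ : 0 < κ) (hε : 0 ≤ ε) (hx : 4 ≤ x) (hy : 2 ≤ y)
    (p0 : 0 ≤ b0) (p1 : 0 ≤ b1) (p2 : 0 ≤ b2) (p3 : 0 ≤ b3) (p4 : 0 ≤ b4) (p5 : 0 ≤ b5)
    (h0 : b0 * (κ * x) ≤ 2 * ε * n) (h1 : b1 * (κ * x) ≤ 2 * ε * n)
    (h2 : b2 * (κ * x) ≤ 2 * ε * n) (h3 : b3 * (κ * x) ≤ 2 * ε * n)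
    (h4 : b4 * (κ * x) ≤ 2 * ε * n) (h5 : b5 * (κ * x) ≤ 2 * ε * n) :
    (7 * u + (b0 + b1) * (x + 4)) * (N * N) +
      n * N * (a + 2 * d + (b2 + b3) * (3 * x + 2) + 3 * (3 * y + 2)) +
      n * N * (a + 2 * d + (b4 + b5) * (3 * x + 2) + 3 * (3 * y + 2)) ≤
    n ^ 3 * (ε * (636 + 168 / κ)) + 72 * n ^ 2 * y := by
  obtain ⟨β, hβ⟩ : ∃ β : ℝ, β = 2 * ε * n / κ := ⟨_, rfl⟩
  have hβ0 : 0 ≤ β := by rw [hβ]; positivity
  have key : ∀ b : ℝ, b * (κ * x) ≤ 2 * ε * n → b * x ≤ β := by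
    intro b hb
    rw [hβ, le_div_iff₀ hκ]
    calc b * x * κ = b * (κ * x) := by ring
      _ ≤ 2 * ε * n := hb
  have k0 := key _ h0
  have k1 := key _ h1
  have k2 := key _ h2
  have k3 := key _ h3
  have k4 := key _ h4
  have k5 := key _ h5
  have m1 : (b0 + b1) * (x + 4) ≤ 4 * β := by nlinarith
  have m2 : (b2 + b3) * (3 * x + 2) ≤ 8 * β := by nlinarith
  have m3 : (b4 + b5) * (3 * x + 2) ≤ 8 * β := by nlinarith
  have m4 : 3 * (3 * y + 2) ≤ 12 * y := by linarith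
  have hεn : 0 ≤ ε * n := by positivity
  have hy0 : 0 ≤ y := by linarith
  have t1 : (7 * u + (b0 + b1) * (x + 4)) * (N * N) ≤
      (56 * (ε * n) + 4 * β) * ((3 * n) * (3 * n)) := by
    have e1 : 7 * u + (b0 + b1) * (x + 4) ≤ 56 * (ε * n) + 4 * β := by nlinarith
    have e2 : N * N ≤ (3 * n) * (3 * n) := by nlinarith
    have e3 : 0 ≤ N * N := by positivity
    have e4 : 0 ≤ 56 * (ε * n) + 4 * β := by positivity
    calc _ ≤ (56 * (ε * n) + 4 * β) * (N * N) := by gcongr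
      _ ≤ _ := by gcongr
  have t2 : n * N * (a + 2 * d + (b2 + b3) * (3 * x + 2) + 3 * (3 * y + 2)) ≤
      n * (3 * n) * (22 * (ε * n) + 8 * β + 12 * y) := by
    have e1 : a + 2 * d + (b2 + b3) * (3 * x + 2) + 3 * (3 * y + 2) ≤
      22 * (ε * n) + 8 * β + 12 * y := by nlinarith
    have e4 : 0 ≤ 22 * (ε * n) + 8 * β + 12 * y := by positivity
    calc _ ≤ n * N * (22 * (ε * n) + 8 * β + 12 * y) := by gcongr
      _ ≤ _ := by gcongr
  have t3 : n * N * (a + 2 * d + (b4 + b5) * (3 * x + 2) + 3 * (3 * y + 2)) ≤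
      n * (3 * n) * (22 * (ε * n) + 8 * β + 12 * y) := by
    have e1 : a + 2 * d + (b4 + b5) * (3 * x + 2) + 3 * (3 * y + 2) ≤
      22 * (ε * n) + 8 * β + 12 * y := by nlinarith
    have e4 : 0 ≤ 22 * (ε * n) + 8 * β + 12 * y := by positivity
    calc _ ≤ n * N * (22 * (ε * n) + 8 * β + 12 * y) := by gcongr
      _ ≤ _ := by gcongr
  have t4 : (56 * (ε * n) + 4 * β) * ((3 * n) * (3 * n)) +
      n * (3 * n) * (22 * (ε * n) + 8 * β + 12 * y) +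
      n * (3 * n) * (22 * (ε * n) + 8 * β + 12 * y) =
      n ^ 3 * (ε * (636 + 168 / κ)) + 72 * n ^ 2 * y := by
    rw [hβ]
    field_simp
    ring
  linarith

private theorem PL_le (hn : 3 ≤ E.n) : (E.PL.card : ℝ) ≤ 3 * E.n := by
  have h1 : E.PL.card ≤ (zall E.n).card := by
    apply Finset.card_le_card
    intro x hx
    simp only [Env.PL, Finset.mem_filter] at hx
    exact hx.1
  rw [zall_card hn] at h1
  have h2 : E.PL.card ≤ 3 * E.n := by omega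
  exact_mod_cast h2

open Classical in
private theorem bad_small {κ1 ρ c1 κ ε : ℝ} (hOk : E.Ok κ1 ρ c1) (hG : Gen0 E P3) (hκ : 0 < κ)
    (hε : 0 ≤ ε) (hF : PFam E P3 L3 D3 (κ * E.n / (E.q : ℝ) ^ 2) Ps)
    (hT : 2 ≤ κ * E.n / (E.q : ℝ) ^ 2)
    (s1 : (P3.card : ℝ) ≤ ε * E.n) (s2 : (L3.card : ℝ) ≤ ε * E.n) (s3 : (D3.card : ℝ) ≤ ε * E.n)
    (s4 : (Ps.card : ℝ) ≤ ε * E.n) :
    ((((range E.n) ×ˢ E.PL ×ˢ E.PL).filter (fun t => Bs E t.1 t.2.1 t.2.2 ∧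
      ¬ (mk3 t.1 t.2.1 t.2.2 ∉ Ps ∧ PFam E P3 L3 D3 (κ * E.n / (E.q : ℝ) ^ 2)
        (insert (mk3 t.1 t.2.1 t.2.2) Ps)))).card : ℝ) ≤
    (E.n : ℝ) ^ 3 * (ε * (636 + 168 / κ) + 72 / E.q) := by
  have hq : 17 < E.q := E.base.q_big
  have hq6 : E.q ^ 6 ≤ E.n := E.base.q_high
  have hqR : (17 : ℝ) < E.q := by exact_mod_cast hq
  have hq6R : (E.q : ℝ) ^ 6 ≤ E.n := by exact_mod_cast hq6
  have hn3 : 3 ≤ E.n := by
    have h1 : 3 ^ 6 ≤ E.q ^ 6 := Nat.pow_le_pow_left (by omega) 6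
    have h2 : (3 : ℕ) ≤ 3 ^ 6 := by norm_num
    omega
  have hx : 4 ≤ (E.n : ℝ) / (E.q : ℝ) ^ 2 := by
    rw [le_div_iff₀ (by positivity)]
    have h1 : 4 * (E.q : ℝ) ^ 2 ≤ (E.q : ℝ) ^ 6 := by
      have h2 : (4 : ℝ) ≤ (E.q : ℝ) ^ 4 := by
        have h3 : (17 : ℝ) ^ 4 ≤ (E.q : ℝ) ^ 4 := by gcongr
        norm_num at h3
        linarith
      calc 4 * (E.q : ℝ) ^ 2 ≤ (E.q : ℝ) ^ 4 * (E.q : ℝ) ^ 2 := by gcongr
        _ = (E.q : ℝ) ^ 6 := by ring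
    linarith
  have hy : 2 ≤ (E.n : ℝ) / (E.q : ℝ) := by
    rw [le_div_iff₀ (by positivity)]
    have h1 : 2 * (E.q : ℝ) ≤ (E.q : ℝ) ^ 6 := by
      have h2 : (2 : ℝ) ≤ (E.q : ℝ) ^ 5 := by
        have h3 : (17 : ℝ) ^ 5 ≤ (E.q : ℝ) ^ 5 := by gcongr
        norm_num at h3
        linarith
      calc 2 * (E.q : ℝ) ≤ (E.q : ℝ) ^ 5 * (E.q : ℝ) := by gcongr
        _ = (E.q : ℝ) ^ 6 := by ring
    linarith
  have hn0 : (0 : ℝ) ≤ E.n := Nat.cast_nonneg _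
  have hb : ∀ t : Fin 6, ((Bl E (κ * E.n / (E.q : ℝ) ^ 2) Ps t).card : ℝ) *
      (κ * (E.n / (E.q : ℝ) ^ 2)) ≤ 2 * ε * E.n := by
    intro t
    have h1 := Bl_card E (κ * E.n / (E.q : ℝ) ^ 2) hT Ps t
    have h2 : κ * ((E.n : ℝ) / (E.q : ℝ) ^ 2) = κ * E.n / (E.q : ℝ) ^ 2 := by ring
    rw [h2]
    linarith
  have hu : ((US E P3 Ps).card : ℝ) ≤ 8 * ε * E.n := by
    have h1 : ((US E P3 Ps).card : ℝ) ≤ P3.card + 7 * Ps.card := by
      exact_mod_cast US_card E (P3 := P3) (Ps := Ps)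
    linarith
  have ha : ((UL L3 Ps).card : ℝ) ≤ 6 * ε * E.n := by
    have h1 : ((UL L3 Ps).card : ℝ) ≤ L3.card + 5 * Ps.card := by
      exact_mod_cast UL_card E hF
    linarith
  have hd : ((UD E D3 Ps).card : ℝ) ≤ 8 * ε * E.n := by
    have h1 : ((UD E D3 Ps).card : ℝ) ≤ D3.card + 7 * Ps.card := by
      exact_mod_cast UD_card E hF
    linarith
  refine (bad_count E hOk hG hF).trans ?_
  have hA := arith (n := (E.n : ℝ)) (N := (E.PL.card : ℝ)) hn0 (Nat.cast_nonneg _) (PL_le E hn3)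
    hu ha hd hκ hε hx hy (Nat.cast_nonneg _) (Nat.cast_nonneg _) (Nat.cast_nonneg _)
    (Nat.cast_nonneg _) (Nat.cast_nonneg _) (Nat.cast_nonneg _) (hb 0) (hb 1) (hb 2) (hb 3)
    (hb 4) (hb 5)
  have e1 : 3 * ((E.n : ℝ) / (E.q : ℝ) ^ 2) = 3 * E.n / (E.q : ℝ) ^ 2 := by ring
  have e2 : 3 * ((E.n : ℝ) / (E.q : ℝ)) = 3 * E.n / (E.q : ℝ) := by ring
  rw [e1, e2] at hA
  refine hA.trans (le_of_eq ?_)
  ring


private theorem dall_mem {n : ℕ} {d : ℤ} (h1 : 1 ≤ d) (h2 : d ≤ 2 * n) (h3 : d ≠ (n : ℤ) + 1)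
    (h4 : d ≠ 3 * ((n / 2 : ℕ) : ℤ)) (h5 : d ≠ (((n - 1) / 2 : ℕ) : ℤ)) : d ∈ dall n := by
  unfold dall
  split_ifs
  · rw [Finset.mem_erase, Finset.mem_erase, Finset.mem_Icc]
    exact ⟨h4, h3, h1, by omega⟩
  · rw [Finset.mem_erase, Finset.mem_Icc]
    exact ⟨h5, h1, by omega⟩

private theorem ex_covD (hn : 1000 ≤ E.n) (g : Fin 6) : ∃ d, E.covD g d := by
  have hnR : (1000 : ℝ) ≤ E.n := by exact_mod_cast hn
  fin_cases g
  · refine ⟨1, dall_mem (by omega) (by omega) (by omega) (by omega) (by omega), ?_⟩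
    change (0 : ℝ) * (E.n : ℝ) ≤ ((1 : ℤ) : ℝ) ∧ ((1 : ℤ) : ℝ) ≤ (35 / 100 : ℝ) * (E.n : ℝ)
    push_cast
    constructor <;> linarith
  · obtain ⟨d, hd1, hd2⟩ : ∃ d : ℤ, 10 * d ≤ 6 * E.n ∧ 6 * (E.n : ℤ) < 10 * d + 10 :=
      ⟨(6 * E.n) / 10, by omega, by omega⟩
    have r1 : 10 * (d : ℝ) ≤ 6 * E.n := by exact_mod_cast hd1
    have r2 : 6 * (E.n : ℝ) < 10 * d + 10 := by exact_mod_cast hd2
    refine ⟨d, dall_mem (by omega) (by omega) (by omega) (by omega) (by omega), ?_⟩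
    change (35 / 100 : ℝ) * (E.n : ℝ) ≤ (d : ℝ) ∧ (d : ℝ) ≤ (8 / 10 : ℝ) * (E.n : ℝ)
    constructor <;> linarith
  · refine ⟨E.n, dall_mem (by omega) (by omega) (by omega) (by omega) (by omega), ?_⟩
    change (8 / 10 : ℝ) * (E.n : ℝ) ≤ ((E.n : ℤ) : ℝ) ∧ ((E.n : ℤ) : ℝ) ≤ (125 / 100 : ℝ) * (E.n : ℝ)
    push_cast
    constructor <;> linarith
  · obtain ⟨d, hd1, hd2⟩ : ∃ d : ℤ, 20 * d ≤ 27 * E.n ∧ 27 * (E.n : ℤ) < 20 * d + 20 :=
      ⟨(27 * E.n) / 20, by omega, by omega⟩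
    have r1 : 20 * (d : ℝ) ≤ 27 * E.n := by exact_mod_cast hd1
    have r2 : 27 * (E.n : ℝ) < 20 * d + 20 := by exact_mod_cast hd2
    refine ⟨d, dall_mem (by omega) (by omega) (by omega) (by omega) (by omega), ?_⟩
    change (125 / 100 : ℝ) * (E.n : ℝ) ≤ (d : ℝ) ∧ (d : ℝ) ≤ (145 / 100 : ℝ) * (E.n : ℝ)
    constructor <;> linarith
  · obtain ⟨d, hd1, hd2⟩ : ∃ d : ℤ, 100 * d ≤ 147 * E.n ∧ 147 * (E.n : ℤ) < 100 * d + 100 :=
      ⟨(147 * E.n) / 100, by omega, by omega⟩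
    have r1 : 100 * (d : ℝ) ≤ 147 * E.n := by exact_mod_cast hd1
    have r2 : 147 * (E.n : ℝ) < 100 * d + 100 := by exact_mod_cast hd2
    refine ⟨d, dall_mem (by omega) (by omega) (by omega) (by omega) (by omega), ?_⟩
    change (145 / 100 : ℝ) * (E.n : ℝ) ≤ (d : ℝ) ∧ (d : ℝ) ≤ (155 / 100 : ℝ) * (E.n : ℝ)
    constructor <;> linarith
  · obtain ⟨d, hd1, hd2⟩ : ∃ d : ℤ, 10 * d ≤ 18 * E.n ∧ 18 * (E.n : ℤ) < 10 * d + 10 :=
      ⟨(18 * E.n) / 10, by omega, by omega⟩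
    have r1 : 10 * (d : ℝ) ≤ 18 * E.n := by exact_mod_cast hd1
    have r2 : 18 * (E.n : ℝ) < 10 * d + 10 := by exact_mod_cast hd2
    refine ⟨d, dall_mem (by omega) (by omega) (by omega) (by omega) (by omega), ?_⟩
    change (155 / 100 : ℝ) * (E.n : ℝ) ≤ (d : ℝ) ∧ (d : ℝ) ≤ (3 : ℝ) * (E.n : ℝ)
    constructor <;> linarith

private theorem covR (g : Fin 6) {y1 y2 : ℤ} (h1 : inI E.n (Env.covT g 2) (Env.covT g 3) y1)
    (h2 : inI E.n (Env.covT g 4) (Env.covT g 5) y2) :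
    inI E.n (9 / 10) (21 / 10) y1 ∧ inI E.n (9 / 10) (21 / 10) y2 ∧
    ((inI E.n (9 / 10) 2 y1 ∧ inI E.n (9 / 10) 2 y2) ∨
      (inI E.n 1 (21 / 10) y1 ∧ inI E.n 1 (21 / 10) y2)) := by
  have hn : (0 : ℝ) ≤ E.n := Nat.cast_nonneg _
  have key : ∀ a b c d : ℝ, ∀ z : ℤ, inI E.n a b z → c ≤ a → b ≤ d → inI E.n c d z := by
    intro a b c d z h hc hd
    refine ⟨le_trans ?_ h.1, le_trans h.2 ?_⟩ <;> gcongr
  fin_cases g
  · have h1' : inI E.n 2 (21 / 10) y1 := h1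
    have h2' : inI E.n (13 / 10) (14 / 10) y2 := h2
    exact ⟨key _ _ _ _ _ h1' (by norm_num) (by norm_num), key _ _ _ _ _ h2' (by norm_num)
      (by norm_num), Or.inr ⟨key _ _ _ _ _ h1' (by norm_num) (by norm_num),
      key _ _ _ _ _ h2' (by norm_num) (by norm_num)⟩⟩
  · have h1' : inI E.n (165 / 100) (168 / 100) y1 := h1
    have h2' : inI E.n (13 / 10) (14 / 10) y2 := h2
    exact ⟨key _ _ _ _ _ h1' (by norm_num) (by norm_num), key _ _ _ _ _ h2' (by norm_num)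
      (by norm_num), Or.inr ⟨key _ _ _ _ _ h1' (by norm_num) (by norm_num),
      key _ _ _ _ _ h2' (by norm_num) (by norm_num)⟩⟩
  · have h1' : inI E.n (12 / 10) (123 / 100) y1 := h1
    have h2' : inI E.n (14 / 10) (15 / 10) y2 := h2
    exact ⟨key _ _ _ _ _ h1' (by norm_num) (by norm_num), key _ _ _ _ _ h2' (by norm_num)
      (by norm_num), Or.inr ⟨key _ _ _ _ _ h1' (by norm_num) (by norm_num),
      key _ _ _ _ _ h2' (by norm_num) (by norm_num)⟩⟩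
  · have h1' : inI E.n 1 (104 / 100) y1 := h1
    have h2' : inI E.n (14 / 10) (15 / 10) y2 := h2
    exact ⟨key _ _ _ _ _ h1' (by norm_num) (by norm_num), key _ _ _ _ _ h2' (by norm_num)
      (by norm_num), Or.inr ⟨key _ _ _ _ _ h1' (by norm_num) (by norm_num),
      key _ _ _ _ _ h2' (by norm_num) (by norm_num)⟩⟩
  · have h1' : inI E.n (9 / 10) (94 / 100) y1 := h1
    have h2' : inI E.n (14 / 10) (15 / 10) y2 := h2
    exact ⟨key _ _ _ _ _ h1' (by norm_num) (by norm_num), key _ _ _ _ _ h2' (by norm_num)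
      (by norm_num), Or.inl ⟨key _ _ _ _ _ h1' (by norm_num) (by norm_num),
      key _ _ _ _ _ h2' (by norm_num) (by norm_num)⟩⟩
  · have h1' : inI E.n (12 / 10) (13 / 10) y1 := h1
    have h2' : inI E.n (16 / 10) (17 / 10) y2 := h2
    exact ⟨key _ _ _ _ _ h1' (by norm_num) (by norm_num), key _ _ _ _ _ h2' (by norm_num)
      (by norm_num), Or.inr ⟨key _ _ _ _ _ h1' (by norm_num) (by norm_num),
      key _ _ _ _ _ h2' (by norm_num) (by norm_num)⟩⟩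

private theorem inc_ne {a b : ℤ} (h : ¬ (E.q : ℤ) ∣ a - b) :
    ((a : ℤ) : ZMod E.q) ≠ ((b : ℤ) : ZMod E.q) := by
  intro h1
  apply h
  have h2 := (ZMod.intCast_eq_intCast_iff_dvd_sub b a E.q).1 h1.symm
  exact h2

private theorem covB_true {g : Fin 6} {m : ℕ} {y1 y2 : ℤ} (h : E.covB g m true y1 y2) :
    Bs E m y1 y2 ∧ red3 E.q ((anc E.n m : ℤ) : ZMod (E.q ^ 2)) ((y1 : ℤ) : ZMod (E.q ^ 2))
      ((y2 : ℤ) : ZMod (E.q ^ 2)) := by
  obtain ⟨c1, c2, c3, c4, c5, c6, c7, c8, c9, c10, c11, c12⟩ := h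
  obtain ⟨d1, d2, d3⟩ := covR E g c3 c4
  have hr : ∀ z : ℤ, red E.q ((z : ℤ) : ZMod (E.q ^ 2)) = ((z : ℤ) : ZMod E.q) :=
    fun z => map_intCast (red E.q) z
  refine ⟨⟨c1, c5, c6, c7, c8, c9, ?_, d1, d2, d3⟩, ?_, ?_, ?_⟩
  · intro h
    apply c12
    rw [h, sub_self]
    exact dvd_zero _
  · rw [hr, hr]
    exact inc_ne E c10
  · rw [hr, hr]
    exact inc_ne E c11
  · rw [hr, hr]
    exact inc_ne E c12

private theorem covB_false {g : Fin 6} {m : ℕ} {y1 y2 : ℤ} (h : E.covB g m false y1 y2) :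
    Bs E m y2 y1 ∧ red3 E.q ((anc E.n m : ℤ) : ZMod (E.q ^ 2)) ((y2 : ℤ) : ZMod (E.q ^ 2))
      ((y1 : ℤ) : ZMod (E.q ^ 2)) := by
  obtain ⟨c1, c2, c3, c4, c5, c6, c7, c8, c9, c10, c11, c12⟩ := h
  obtain ⟨d1, d2, d3⟩ := covR E g c3 c4
  have hr : ∀ z : ℤ, red E.q ((z : ℤ) : ZMod (E.q ^ 2)) = ((z : ℤ) : ZMod E.q) :=
    fun z => map_intCast (red E.q) z
  refine ⟨⟨c1, c6, c5, c8, c7, c9.symm, ?_, d2, d1, ?_⟩, ?_, ?_, ?_⟩
  · intro h
    apply c12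
    rw [h, sub_self]
    exact dvd_zero _
  · rcases d3 with d3 | d3
    · exact Or.inl ⟨d3.2, d3.1⟩
    · exact Or.inr ⟨d3.2, d3.1⟩
  · rw [hr, hr]
    exact inc_ne E c11
  · rw [hr, hr]
    exact inc_ne E c10
  · rw [hr, hr]
    exact (inc_ne E c12).symm


/-- desired property of a candidate -/
private def Des (P3 : Finset ℕ) (L3 D3 : Finset ℤ) (T : ℝ) (Ps : Finset Pack)
    (V1 V2 V3 : Finset ℤ) (u : ℕ × Bool × ℤ × ℤ) : Prop :=
  cvP u ∉ Ps ∧ PFam E P3 L3 D3 T (insert (cvP u) Ps) ∧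
    u.2.2.1 - u.2.2.2 ∉ V1 ∧ anc E.n u.1 - u.2.2.1 ∉ V2 ∧ anc E.n u.1 - u.2.2.2 ∉ V3 ∧
    red3 E.q ((anc E.n u.1 : ℤ) : ZMod (E.q ^ 2)) (((cvP u).a1 : ℤ) : ZMod (E.q ^ 2))
      (((cvP u).a2 : ℤ) : ZMod (E.q ^ 2))

open Classical in
private theorem image_le (J : Finset ℤ) (V : Finset ℤ) (P : ℤ → Prop) (φ : ℤ → ℤ)
    (h : ∀ x, P x → ∃ v ∈ V, x = φ v) : ((J.filter P).card : ℝ) ≤ V.card := by
  have h1 : (J.filter P) ⊆ V.image φ := by
    intro x hx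
    obtain ⟨v, hv, e⟩ := h x (Finset.mem_filter.1 hx).2
    rw [e]
    exact Finset.mem_image_of_mem _ hv
  exact_mod_cast (Finset.card_le_card h1).trans Finset.card_image_le

open Classical in
/-- the bad candidates with a given direction -/
private theorem bad_dir (g : Fin 6) (T : ℝ) (V1 V2 V3 : Finset ℤ) (o : Bool) :
    ((((range E.n) ×ˢ E.PL ×ˢ E.PL).filter (fun t => E.covB g t.1 o t.2.1 t.2.2 ∧
      ¬ Des E P3 L3 D3 T Ps V1 V2 V3 (t.1, o, t.2.1, t.2.2))).card : ℝ) ≤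
    ((((range E.n) ×ˢ E.PL ×ˢ E.PL).filter (fun t => Bs E t.1 t.2.1 t.2.2 ∧
      ¬ (mk3 t.1 t.2.1 t.2.2 ∉ Ps ∧ PFam E P3 L3 D3 T
        (insert (mk3 t.1 t.2.1 t.2.2) Ps)))).card : ℝ) +
      (E.n * E.PL.card * V1.card + E.n * E.PL.card * V2.card + E.n * E.PL.card * V3.card) := by
  obtain ⟨X, hX⟩ : ∃ X : Finset (ℕ × ℤ × ℤ), X = ((range E.n) ×ˢ E.PL ×ˢ E.PL).filter
    (fun t => Bs E t.1 t.2.1 t.2.2 ∧ ¬ (mk3 t.1 t.2.1 t.2.2 ∉ Ps ∧ PFam E P3 L3 D3 T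
        (insert (mk3 t.1 t.2.1 t.2.2) Ps))) := ⟨_, rfl⟩
  rw [← hX]
  obtain ⟨W1, hW1⟩ : ∃ W : Finset (ℕ × ℤ × ℤ), W = ((range E.n) ×ˢ E.PL ×ˢ E.PL).filter
    (fun t => t.2.1 - t.2.2 ∈ V1) := ⟨_, rfl⟩
  obtain ⟨W2, hW2⟩ : ∃ W : Finset (ℕ × ℤ × ℤ), W = ((range E.n) ×ˢ E.PL ×ˢ E.PL).filter
    (fun t => anc E.n t.1 - t.2.1 ∈ V2) := ⟨_, rfl⟩
  obtain ⟨W3, hW3⟩ : ∃ W : Finset (ℕ × ℤ × ℤ), W = ((range E.n) ×ˢ E.PL ×ˢ E.PL).filter
    (fun t => anc E.n t.1 - t.2.2 ∈ V3) := ⟨_, rfl⟩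
  have c1 : (W1.card : ℝ) ≤ E.n * E.PL.card * V1.card := by
    have h := cnt_a (range E.n) E.PL (fun _ x y => x - y ∈ V1) V1.card
      (fun i _ y _ => image_le E.PL V1 _ (fun v => v + y) (fun x hx => ⟨x - y, hx, by ring⟩))
    rw [Finset.card_range] at h
    rw [hW1]
    refine le_trans (le_of_eq ?_) h
    congr 2
    ext t
    simp only [Finset.mem_filter]
  have c2 : (W2.card : ℝ) ≤ E.n * E.PL.card * V2.card := by
    have h := cnt_a (range E.n) E.PL (fun i x _ => anc E.n i - x ∈ V2) V2.card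
      (fun i _ y _ => image_le E.PL V2 _ (fun v => anc E.n i - v)
        (fun x hx => ⟨anc E.n i - x, hx, by ring⟩))
    rw [Finset.card_range] at h
    rw [hW2]
    refine le_trans (le_of_eq ?_) h
    congr 2
    ext t
    simp only [Finset.mem_filter]
  have c3 : (W3.card : ℝ) ≤ E.n * E.PL.card * V3.card := by
    have h := cnt_b (range E.n) E.PL (fun i _ y => anc E.n i - y ∈ V3) V3.card
      (fun i _ x _ => image_le E.PL V3 _ (fun v => anc E.n i - v)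
        (fun y hy => ⟨anc E.n i - y, hy, by ring⟩))
    rw [Finset.card_range] at h
    rw [hW3]
    refine le_trans (le_of_eq ?_) h
    congr 2
    ext t
    simp only [Finset.mem_filter]
  obtain ⟨φ, hφ⟩ : ∃ φ : ℕ × ℤ × ℤ → ℕ × ℤ × ℤ, φ = fun t =>
    (t.1, if o then t.2.1 else t.2.2, if o then t.2.2 else t.2.1) := ⟨_, rfl⟩
  have hφφ : ∀ t, φ (φ t) = t := by
    rintro ⟨m, y1, y2⟩
    rw [hφ]
    cases o <;> rfl
  have hsub : ((range E.n) ×ˢ E.PL ×ˢ E.PL).filter (fun t => E.covB g t.1 o t.2.1 t.2.2 ∧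
      ¬ Des E P3 L3 D3 T Ps V1 V2 V3 (t.1, o, t.2.1, t.2.2)) ⊆
      X.image φ ∪ (W1 ∪ (W2 ∪ W3)) := by
    rintro ⟨m, y1, y2⟩ ht
    rw [Finset.mem_filter] at ht
    obtain ⟨hU, hB, hbad⟩ := ht
    simp only at hB hbad
    by_contra hno
    apply hbad
    rw [Finset.mem_union, Finset.mem_union, Finset.mem_union, hW1, hW2, hW3, Finset.mem_filter,
      Finset.mem_filter, Finset.mem_filter] at hno
    simp only [hU, true_and] at hno
    push Not at hno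
    obtain ⟨x0, x1, x2, x3⟩ := hno
    have x0' : φ (m, y1, y2) ∉ X := by
      intro h
      apply x0
      rw [Finset.mem_image]
      exact ⟨φ (m, y1, y2), h, hφφ _⟩
    rw [Finset.mem_product, Finset.mem_product] at hU
    cases o with
    | true =>
      obtain ⟨k1, k2⟩ := covB_true E hB
      have hmem : ((m, y1, y2) : ℕ × ℤ × ℤ) ∈ ((range E.n) ×ˢ E.PL ×ˢ E.PL) := by
        rw [Finset.mem_product, Finset.mem_product]
        exact hU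
      have x0'' : ((m, y1, y2) : ℕ × ℤ × ℤ) ∉ X := by
        rw [hφ] at x0'
        exact x0'
      rw [hX, Finset.mem_filter] at x0''
      have k3 : mk3 m y1 y2 ∉ Ps ∧ PFam E P3 L3 D3 T (insert (mk3 m y1 y2) Ps) := by
        by_contra hc
        exact x0'' ⟨hmem, k1, hc⟩
      exact ⟨k3.1, k3.2, x1, x2, x3, k2⟩
    | false =>
      obtain ⟨k1, k2⟩ := covB_false E hB
      have hmem : ((m, y2, y1) : ℕ × ℤ × ℤ) ∈ ((range E.n) ×ˢ E.PL ×ˢ E.PL) := by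
        rw [Finset.mem_product, Finset.mem_product]
        exact ⟨hU.1, hU.2.2, hU.2.1⟩
      have x0'' : ((m, y2, y1) : ℕ × ℤ × ℤ) ∉ X := by
        rw [hφ] at x0'
        exact x0'
      rw [hX, Finset.mem_filter] at x0''
      have k3 : mk3 m y2 y1 ∉ Ps ∧ PFam E P3 L3 D3 T (insert (mk3 m y2 y1) Ps) := by
        by_contra hc
        exact x0'' ⟨hmem, k1, hc⟩
      exact ⟨k3.1, k3.2, x1, x2, x3, k2⟩
  have e1 := (Finset.card_le_card hsub).trans (Finset.card_union_le _ _)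
  have e2 := Finset.card_union_le W1 (W2 ∪ W3)
  have e3 := Finset.card_union_le W2 W3
  have e4 : (X.image φ).card ≤ X.card := Finset.card_image_le
  have e5 : (((range E.n) ×ˢ E.PL ×ˢ E.PL).filter (fun t => E.covB g t.1 o t.2.1 t.2.2 ∧
      ¬ Des E P3 L3 D3 T Ps V1 V2 V3 (t.1, o, t.2.1, t.2.2))).card ≤
      X.card + (W1.card + W2.card + W3.card) := by omega
  have e6 : ((((range E.n) ×ˢ E.PL ×ˢ E.PL).filter (fun t => E.covB g t.1 o t.2.1 t.2.2 ∧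
      ¬ Des E P3 L3 D3 T Ps V1 V2 V3 (t.1, o, t.2.1, t.2.2))).card : ℝ) ≤
      X.card + (W1.card + W2.card + W3.card) := by exact_mod_cast e5
  linarith

open Classical in
private theorem bad_all (g : Fin 6) (T : ℝ) (V1 V2 V3 : Finset ℤ) (K : ℝ)
    (hK : ∀ o : Bool, ((((range E.n) ×ˢ E.PL ×ˢ E.PL).filter (fun t =>
      E.covB g t.1 o t.2.1 t.2.2 ∧
      ¬ Des E P3 L3 D3 T Ps V1 V2 V3 (t.1, o, t.2.1, t.2.2))).card : ℝ) ≤ K) :
    ((((range E.n) ×ˢ (univ : Finset Bool) ×ˢ E.PL ×ˢ E.PL).filter (fun u =>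
      E.covB g u.1 u.2.1 u.2.2.1 u.2.2.2 ∧ ¬ Des E P3 L3 D3 T Ps V1 V2 V3 u)).card : ℝ)
      ≤ 2 * K := by
  obtain ⟨X, hX⟩ : ∃ X : Bool → Finset (ℕ × ℤ × ℤ), X = fun o =>
    ((range E.n) ×ˢ E.PL ×ˢ E.PL).filter (fun t => E.covB g t.1 o t.2.1 t.2.2 ∧
      ¬ Des E P3 L3 D3 T Ps V1 V2 V3 (t.1, o, t.2.1, t.2.2)) := ⟨_, rfl⟩
  have hK' : ∀ o, ((X o).card : ℝ) ≤ K := by
    intro o
    rw [hX]
    exact hK o
  have hsub : ((range E.n) ×ˢ (univ : Finset Bool) ×ˢ E.PL ×ˢ E.PL).filter (fun u =>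
      E.covB g u.1 u.2.1 u.2.2.1 u.2.2.2 ∧ ¬ Des E P3 L3 D3 T Ps V1 V2 V3 u) ⊆
      (X true).image (fun t => (t.1, true, t.2)) ∪ (X false).image (fun t => (t.1, false, t.2)) := by
    rintro ⟨m, o, y1, y2⟩ hu
    rw [Finset.mem_filter, Finset.mem_product, Finset.mem_product, Finset.mem_product] at hu
    obtain ⟨⟨h1, -, h2, h3⟩, h4, h5⟩ := hu
    simp only at h1 h2 h3 h4
    have hmem : ((m, y1, y2) : ℕ × ℤ × ℤ) ∈ X o := by
      rw [hX]
      simp only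
      rw [Finset.mem_filter, Finset.mem_product, Finset.mem_product]
      exact ⟨⟨h1, h2, h3⟩, h4, h5⟩
    rw [Finset.mem_union, Finset.mem_image, Finset.mem_image]
    cases o with
    | true => exact Or.inl ⟨(m, y1, y2), hmem, rfl⟩
    | false => exact Or.inr ⟨(m, y1, y2), hmem, rfl⟩
  have e1 := (Finset.card_le_card hsub).trans (Finset.card_union_le _ _)
  have e2 : ((X true).image (fun t => ((t.1, true, t.2) : ℕ × Bool × ℤ × ℤ))).card ≤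
    (X true).card := Finset.card_image_le
  have e3 : ((X false).image (fun t => ((t.1, false, t.2) : ℕ × Bool × ℤ × ℤ))).card ≤
    (X false).card := Finset.card_image_le
  have e4 : (((range E.n) ×ˢ (univ : Finset Bool) ×ˢ E.PL ×ˢ E.PL).filter (fun u =>
      E.covB g u.1 u.2.1 u.2.2.1 u.2.2.2 ∧ ¬ Des E P3 L3 D3 T Ps V1 V2 V3 u)).card ≤
      (X true).card + (X false).card := by omega
  have e5 : ((((range E.n) ×ˢ (univ : Finset Bool) ×ˢ E.PL ×ˢ E.PL).filter (fun u =>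
      E.covB g u.1 u.2.1 u.2.2.1 u.2.2.2 ∧ ¬ Des E P3 L3 D3 T Ps V1 V2 V3 u)).card : ℝ) ≤
      (X true).card + (X false).card := by exact_mod_cast e4
  have e6 := hK' true
  have e7 := hK' false
  linarith


open Classical in
theorem cov_step (c1 κ : ℝ) (hc1 : 0 < c1) (hκ : 0 < κ) : ∃ ε : ℝ, 0 < ε ∧ ∃ n0 : ℕ,
    ∀ (E : Env) (κ1 ρ : ℝ) (P3 : Finset ℕ) (L3 D3 : Finset ℤ) (Ps : Finset Pack),
      n0 ≤ E.n → E.Ok κ1 ρ c1 → Gen0 E P3 → PFam E P3 L3 D3 (κ * E.n / (E.q : ℝ) ^ 2) Ps →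
      (P3.card : ℝ) ≤ ε * E.n → (L3.card : ℝ) ≤ ε * E.n → (D3.card : ℝ) ≤ ε * E.n →
      (Ps.card : ℝ) ≤ ε * E.n → ∀ (g : Fin 6) (V1 V2 V3 : Finset ℤ), (V1.card : ℝ) ≤ ε * E.n →
      (V2.card : ℝ) ≤ ε * E.n → (V3.card : ℝ) ≤ ε * E.n →
      ∃ A : Finset (ℕ × Bool × ℤ × ℤ), A.Nonempty ∧
        (∀ u ∈ A, E.covB g u.1 u.2.1 u.2.2.1 u.2.2.2 ∧ cvP u ∉ Ps ∧
          PFam E P3 L3 D3 (κ * E.n / (E.q : ℝ) ^ 2) (insert (cvP u) Ps) ∧
          u.2.2.1 - u.2.2.2 ∉ V1 ∧ anc E.n u.1 - u.2.2.1 ∉ V2 ∧ anc E.n u.1 - u.2.2.2 ∉ V3 ∧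
          red3 E.q ((anc E.n u.1 : ℤ) : ZMod (E.q ^ 2)) (((cvP u).a1 : ℤ) : ZMod (E.q ^ 2))
            (((cvP u).a2 : ℤ) : ZMod (E.q ^ 2))) ∧
        ∀ d : ℤ, E.covD g d → (c1 / 20) * (A.card : ℝ) ≤
          ((A.filter (fun u => E.covG E.AA g u.1 u.2.2.1 u.2.2.2 d)).card : ℝ) := by
  obtain ⟨w, hw⟩ : ∃ w : ℝ, w = 645 + 168 / κ := ⟨_, rfl⟩
  have hw0 : 0 < w := by rw [hw]; positivity
  obtain ⟨ε, hεd⟩ : ∃ ε : ℝ, ε = c1 / (8 * w) := ⟨_, rfl⟩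
  have hε : 0 < ε := by rw [hεd]; positivity
  obtain ⟨K, hK⟩ : ∃ K : ℕ, K = ⌈2 / κ⌉₊ + ⌈576 / c1⌉₊ := ⟨_, rfl⟩
  refine ⟨ε, hε, K ^ 8 + 1000, ?_⟩
  intro E κ1 ρ P3 L3 D3 Ps hn hOk hG hF s1 s2 s3 s4 g V1 V2 V3 v1 v2 v3
  have hq : 17 < E.q := E.base.q_big
  have hqR : (17 : ℝ) < E.q := by exact_mod_cast hq
  have hqK : K ≤ E.q := by
    by_contra hc
    have h1 : E.q ^ 8 ≤ K ^ 8 := Nat.pow_le_pow_left (by omega) 8
    have h2 := E.base.q_low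
    omega
  have hqK1 : 2 / κ ≤ E.q := by
    have h1 : ⌈2 / κ⌉₊ ≤ E.q := by omega
    exact (Nat.le_ceil _).trans (by exact_mod_cast h1)
  have hqK2 : 576 / c1 ≤ E.q := by
    have h1 : ⌈576 / c1⌉₊ ≤ E.q := by omega
    exact (Nat.le_ceil _).trans (by exact_mod_cast h1)
  have hn1000 : 1000 ≤ E.n := by omega
  have hnR : (1000 : ℝ) ≤ E.n := by exact_mod_cast hn1000
  have hq6R : (E.q : ℝ) ^ 6 ≤ E.n := by exact_mod_cast E.base.q_high
  have hT : 2 ≤ κ * E.n / (E.q : ℝ) ^ 2 := by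
    rw [le_div_iff₀ (by positivity)]
    have h1 : 2 ≤ κ * E.q := by
      rw [div_le_iff₀ hκ] at hqK1
      linarith
    have h2 : (1 : ℝ) ≤ (E.q : ℝ) ^ 3 := by
      apply one_le_pow₀
      linarith
    calc 2 * (E.q : ℝ) ^ 2 ≤ (κ * E.q) * (E.q : ℝ) ^ 2 := by gcongr
      _ = κ * ((E.q : ℝ) ^ 3 * 1) := by ring
      _ ≤ κ * ((E.q : ℝ) ^ 3 * (E.q : ℝ) ^ 3) := by gcongr
      _ = κ * (E.q : ℝ) ^ 6 := by ring
      _ ≤ κ * E.n := by gcongr
  have hN := PL_le E (by omega)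
  have hbad1 := bad_small E hOk hG hκ hε.le hF hT s1 s2 s3 s4
  have hn0 : (0 : ℝ) ≤ E.n := Nat.cast_nonneg _
  have hdir : ∀ o : Bool, ((((range E.n) ×ˢ E.PL ×ˢ E.PL).filter (fun t =>
      E.covB g t.1 o t.2.1 t.2.2 ∧
      ¬ Des E P3 L3 D3 (κ * E.n / (E.q : ℝ) ^ 2) Ps V1 V2 V3 (t.1, o, t.2.1, t.2.2))).card : ℝ) ≤
      c1 / 4 * (E.n : ℝ) ^ 3 := by
    intro o
    refine (bad_dir E g _ V1 V2 V3 o).trans ?_
    have h1 : (E.n : ℝ) * E.PL.card * V1.card + E.n * E.PL.card * V2.card +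
        E.n * E.PL.card * V3.card ≤ (E.n : ℝ) ^ 3 * (9 * ε) := by
      have h2 : (E.n : ℝ) * E.PL.card * V1.card ≤ E.n * (3 * E.n) * (ε * E.n) := by gcongr
      have h3 : (E.n : ℝ) * E.PL.card * V2.card ≤ E.n * (3 * E.n) * (ε * E.n) := by gcongr
      have h4 : (E.n : ℝ) * E.PL.card * V3.card ≤ E.n * (3 * E.n) * (ε * E.n) := by gcongr
      calc _ ≤ E.n * (3 * E.n) * (ε * E.n) + E.n * (3 * E.n) * (ε * E.n) +
          E.n * (3 * E.n) * (ε * E.n) := by linarith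
        _ = (E.n : ℝ) ^ 3 * (9 * ε) := by ring
    have h5 : 72 / (E.q : ℝ) ≤ c1 / 8 := by
      rw [div_le_iff₀ (by linarith)]
      rw [div_le_iff₀ hc1] at hqK2
      linarith
    have h6 : ε * w = c1 / 8 := by
      rw [hεd]
      field_simp
    have h7 : ε * (636 + 168 / κ) + 72 / E.q + 9 * ε ≤ c1 / 4 := by
      have h8 : ε * (636 + 168 / κ) + 9 * ε = ε * w := by
        rw [hw]
        ring
      linarith
    have h9 : (0 : ℝ) ≤ (E.n : ℝ) ^ 3 := by positivity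
    calc _ ≤ (E.n : ℝ) ^ 3 * (ε * (636 + 168 / κ) + 72 / E.q) + (E.n : ℝ) ^ 3 * (9 * ε) :=
          add_le_add hbad1 h1
      _ = (E.n : ℝ) ^ 3 * (ε * (636 + 168 / κ) + 72 / E.q + 9 * ε) := by ring
      _ ≤ (E.n : ℝ) ^ 3 * (c1 / 4) := by gcongr
      _ = c1 / 4 * (E.n : ℝ) ^ 3 := by ring
  have hall := bad_all E g _ V1 V2 V3 _ hdir
  obtain ⟨U, hU⟩ : ∃ U : Finset (ℕ × Bool × ℤ × ℤ),
    U = (range E.n) ×ˢ (univ : Finset Bool) ×ˢ E.PL ×ˢ E.PL := ⟨_, rfl⟩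
  rw [← hU] at hall
  obtain ⟨B, hB⟩ : ∃ B : Finset (ℕ × Bool × ℤ × ℤ), B = U.filter (fun u =>
      E.covB g u.1 u.2.1 u.2.2.1 u.2.2.2 ∧
      ¬ Des E P3 L3 D3 (κ * E.n / (E.q : ℝ) ^ 2) Ps V1 V2 V3 u) := ⟨_, rfl⟩
  rw [← hB] at hall
  obtain ⟨A, hA⟩ : ∃ A : Finset (ℕ × Bool × ℤ × ℤ), A = U.filter (fun u =>
      E.covB g u.1 u.2.1 u.2.2.1 u.2.2.2 ∧
      Des E P3 L3 D3 (κ * E.n / (E.q : ℝ) ^ 2) Ps V1 V2 V3 u) := ⟨_, rfl⟩
  have hkey : ∀ d : ℤ, E.covD g d → c1 / 2 * (E.n : ℝ) ^ 3 ≤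
      ((A.filter (fun u => E.covG E.AA g u.1 u.2.2.1 u.2.2.2 d)).card : ℝ) := by
    intro d hd
    have h1 := hOk.cov g d hd
    rw [← hU] at h1
    have hsub : U.filter (fun p => E.covB g p.1 p.2.1 p.2.2.1 p.2.2.2 ∧
        E.covG E.AA g p.1 p.2.2.1 p.2.2.2 d) ⊆
        A.filter (fun u => E.covG E.AA g u.1 u.2.2.1 u.2.2.2 d) ∪ B := by
      intro u hu
      rw [Finset.mem_filter] at hu
      rw [Finset.mem_union, Finset.mem_filter, hA, hB, Finset.mem_filter, Finset.mem_filter]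
      by_cases hDes : Des E P3 L3 D3 (κ * E.n / (E.q : ℝ) ^ 2) Ps V1 V2 V3 u
      · exact Or.inl ⟨⟨hu.1, hu.2.1, hDes⟩, hu.2.2⟩
      · exact Or.inr ⟨hu.1, hu.2.1, hDes⟩
    have h2 := (Finset.card_le_card hsub).trans (Finset.card_union_le _ _)
    have h3 : ((U.filter (fun p => E.covB g p.1 p.2.1 p.2.2.1 p.2.2.2 ∧
        E.covG E.AA g p.1 p.2.2.1 p.2.2.2 d)).card : ℝ) ≤
        (A.filter (fun u => E.covG E.AA g u.1 u.2.2.1 u.2.2.2 d)).card + B.card := by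
      exact_mod_cast h2
    linarith
  refine ⟨A, ?_, ?_, ?_⟩
  · obtain ⟨d, hd⟩ := ex_covD E hn1000 g
    have h1 := hkey d hd
    have h2 : 0 < c1 / 2 * (E.n : ℝ) ^ 3 := by positivity
    have h3 : (0 : ℝ) < ((A.filter (fun u => E.covG E.AA g u.1 u.2.2.1 u.2.2.2 d)).card : ℝ) := by
      linarith
    have h4 : 0 < (A.filter (fun u => E.covG E.AA g u.1 u.2.2.1 u.2.2.2 d)).card := by
      exact_mod_cast h3
    obtain ⟨u, hu⟩ := Finset.card_pos.1 h4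
    exact ⟨u, (Finset.mem_filter.1 hu).1⟩
  · intro u hu
    rw [hA, Finset.mem_filter] at hu
    exact ⟨hu.2.1, hu.2.2⟩
  · intro d hd
    refine le_trans ?_ (hkey d hd)
    have h1 : A.card ≤ U.card := by
      rw [hA]
      exact Finset.card_filter_le _ _
    have h2 : U.card = E.n * (2 * (E.PL.card * E.PL.card)) := by
      rw [hU, Finset.card_product, Finset.card_product, Finset.card_product, Finset.card_range,
        Finset.card_univ, Fintype.card_bool]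
    have h3 : E.PL.card ≤ 2 * E.n + 1 := by
      rw [← zall_card (n := E.n) (by omega)]
      apply Finset.card_le_card
      intro x hx
      simp only [Env.PL, Finset.mem_filter] at hx
      exact hx.1
    have h3' : (E.PL.card : ℝ) ≤ 2 * E.n + 1 := by exact_mod_cast h3
    have h4 : (A.card : ℝ) ≤ E.n * (2 * (E.PL.card * E.PL.card)) := by
      rw [h2] at h1
      exact_mod_cast h1
    have h5 : (A.card : ℝ) ≤ 9 * (E.n : ℝ) ^ 3 := by
      calc (A.card : ℝ) ≤ E.n * (2 * (E.PL.card * E.PL.card)) := h4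
        _ ≤ E.n * (2 * ((2 * E.n + 1) * (2 * E.n + 1))) := by gcongr
        _ ≤ E.n * (9 * (E.n : ℝ) ^ 2) := by
            have h51 : 2 * ((2 * (E.n : ℝ) + 1) * (2 * E.n + 1)) ≤ 9 * (E.n : ℝ) ^ 2 := by
              nlinarith
            exact mul_le_mul_of_nonneg_left h51 hn0
        _ = 9 * (E.n : ℝ) ^ 3 := by ring
    have h6 : (0 : ℝ) ≤ (E.n : ℝ) ^ 3 := by positivity
    calc c1 / 20 * (A.card : ℝ) ≤ c1 / 20 * (9 * (E.n : ℝ) ^ 3) := by gcongr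
      _ ≤ c1 / 2 * (E.n : ℝ) ^ 3 := by nlinarith

end Pool.Agent.PGr.PPk
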