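import Mathlib
import Pool.Agent.PGr.PCvS
import Pool.Agent.PGr.Sel

/-!
# PGr-P-CvG: the cover packs

PLAN. `cov_group`: apply `selection` (Sel.lean) with `X = ℕ × Bool × ℤ × ℤ`, `D = (dall n).filter
(covD g)` (at most `2n ≤ exp(c N / 8)` elements), `good u d = covG AA g ..`, `c = c1/20` (`≤ 1`:
`c1 ≤ 9` follows from `Ok.cov`, or use `min (c1/20) 1`), `P l :=` the packs `cvP u`, `u ∈ l`, are
pairwise different and not in `Ps`, all `covB` and `red3`, `PFam (Ps ∪ (l.map cvP).toFinset)`, and the three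
lists of values `y1 - y2`, `anc m - y1`, `anc m - y2` are without repetition. Step: `cov_step` for
`Ps ∪ (l.map cvP).toFinset` with `V1, V2, V3` = the values of `l` (at most `N ≤ ε n` elements).
Result: list `l` of length `N`; `new := (l.map cvP).toFinset` (`N` elements).
`CovM` for `d` with `covD g d`: `M` = packs of the `u ∈ l` with `covG ..  d` (at least `c N / 2`,
`List.countP_eq_length_filter`, no repetitions), choose for `p ∈ new` the `u ∈ l` with `cvP u = p`
(unique), `x p := covX g m y1 d`, `(e1, e2) := covD2 ..`.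
`univ.image (pd3 p (x p)) = {d, e1, e2}`: if `g ≠ 5`: `x = y1 + d`, `|x - y1| = d` (`d ≥ 1` because
`d ∈ dall`), if `g = 5`: `x = anc m - d`, `|x - anc m| = d`; `{a1, a2} = {y1, y2}`.
`x` injective: `g ≠ 5`: equal `y1` (a label of both packs, labels of different packs are disjoint);
`g = 5`: `anc m = anc m'`, so `m = m'` (`anc_inj`) and the balls are not disjoint.
Multiplicity: `e1 = |y1 + d - y2| = r` determines `y1 - y2` up to two values, each taken once;
`e2 = |y1 + d - anc m|`: two values of `anc m - y1`; g = 5: `|anc m - d - y1|`, `|anc m - d - y2|`.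
`cov_all`: six times `cov_group` with `Ps := ∅`, then the union of the earlier groups; every `d ∈ dall n`
satisfies `covD g d` for some `g` (the intervals of `covT` cover `[0, 3n]`, `d ≤ 2n + 2`). `CovM` is monotone
in the family.
-/

noncomputable section

namespace Pool.Agent.PGr.PPk

open Finset


/-! ### list facts -/

private theorem inj_of_nodup {α β : Type} {f : α → β} {l : List α} (h : (l.map f).Nodup)
    {x y : α} (hx : x ∈ l) (hy : y ∈ l) (e : f x = f y) : x = y :=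
  List.inj_on_of_nodup_map h hx hy e

open Classical in
private theorem two_le {α : Type} (S : Finset α) (f : α → ℤ)
    (hf : ∀ x ∈ S, ∀ y ∈ S, f x = f y → x = y) (v w : ℤ) :
    (S.filter (fun p => f p = v ∨ f p = w)).card ≤ 2 := by
  have h1 : (S.filter (fun p => f p = v ∨ f p = w)).card ≤ ({v, w} : Finset ℤ).card := by
    apply Finset.card_le_card_of_injOn f
    · intro x hx
      rw [Finset.mem_coe, Finset.mem_filter] at hx
      rw [Finset.mem_coe, Finset.mem_insert, Finset.mem_singleton]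
      exact hx.2
    · intro x hx y hy e
      rw [Finset.mem_coe, Finset.mem_filter] at hx hy
      exact hf x hx.1 y hy.1 e
  exact h1.trans Finset.card_le_two

/-- history of the selection -/
private def Hist (E : Env) (P3 : Finset ℕ) (L3 D3 : Finset ℤ) (T : ℝ) (Ps : Finset Pack)
    (g : Fin 6) (l : List (ℕ × Bool × ℤ × ℤ)) : Prop :=
  (∀ u ∈ l, E.covB g u.1 u.2.1 u.2.2.1 u.2.2.2 ∧
    red3 E.q ((anc E.n u.1 : ℤ) : ZMod (E.q ^ 2)) (((cvP u).a1 : ℤ) : ZMod (E.q ^ 2))
      (((cvP u).a2 : ℤ) : ZMod (E.q ^ 2))) ∧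
  (l.map cvP).Nodup ∧ (∀ u ∈ l, cvP u ∉ Ps) ∧
  PFam E P3 L3 D3 T (Ps ∪ (l.map cvP).toFinset) ∧
  (l.map (fun u => u.2.2.1 - u.2.2.2)).Nodup ∧
  (l.map (fun u => anc E.n u.1 - u.2.2.1)).Nodup ∧
  (l.map (fun u => anc E.n u.1 - u.2.2.2)).Nodup

private theorem cvP_m (u : ℕ × Bool × ℤ × ℤ) : (cvP u).m = u.1 := rfl

private theorem cvP_lab (u : ℕ × Bool × ℤ × ℤ) :
    ((cvP u).a1 = u.2.2.1 ∧ (cvP u).a2 = u.2.2.2) ∨
      ((cvP u).a1 = u.2.2.2 ∧ (cvP u).a2 = u.2.2.1) := by
  obtain ⟨m, o, y1, y2⟩ := u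
  cases o with
  | true => exact Or.inl ⟨rfl, rfl⟩
  | false => exact Or.inr ⟨rfl, rfl⟩

private theorem y1_mem (u : ℕ × Bool × ℤ × ℤ) : u.2.2.1 ∈ (cvP u).L := by
  unfold Pack.L
  rw [Finset.mem_insert, Finset.mem_insert]
  rcases cvP_lab u with h | h
  · exact Or.inl h.1.symm
  · exact Or.inr (Or.inl h.2.symm)

open Classical in
/-- the three differences of a cover item -/
private theorem cov_image (E : Env) (g : Fin 6) (u : ℕ × Bool × ℤ × ℤ) {d : ℤ} (hd : 0 ≤ d) :
    (univ : Finset (Fin 3)).image (pd3 E (cvP u) (E.covX g u.1 u.2.2.1 d)) =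
      {d, (E.covD2 g u.1 u.2.2.1 u.2.2.2 d).1, (E.covD2 g u.1 u.2.2.1 u.2.2.2 d).2} := by
  have h0 : ∀ x : ℤ, (univ : Finset (Fin 3)).image (pd3 E (cvP u) x) =
      {|x - anc E.n u.1|, |x - u.2.2.1|, |x - u.2.2.2|} := by
    intro x
    ext z
    rw [Finset.mem_image]
    simp only [Finset.mem_insert, Finset.mem_singleton, Finset.mem_univ, true_and]
    constructor
    · rintro ⟨j, hj⟩
      rcases cvP_lab u with h | h
      · fin_cases j
        · exact Or.inl hj.symm
        · right; left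
          rw [← hj, ← h.1]
          rfl
        · right; right
          rw [← hj, ← h.2]
          rfl
      · fin_cases j
        · exact Or.inl hj.symm
        · right; right
          rw [← hj, ← h.1]
          rfl
        · right; left
          rw [← hj, ← h.2]
          rfl
    · rintro (hz | hz | hz)
      · exact ⟨0, hz.symm⟩
      · rcases cvP_lab u with h | h
        · refine ⟨1, ?_⟩
          rw [hz, ← h.1]
          rfl
        · refine ⟨2, ?_⟩
          rw [hz, ← h.2]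
          rfl
      · rcases cvP_lab u with h | h
        · refine ⟨2, ?_⟩
          rw [hz, ← h.2]
          rfl
        · refine ⟨1, ?_⟩
          rw [hz, ← h.1]
          rfl
  rw [h0]
  unfold Env.covD2 Env.covX
  by_cases hg : g = 5
  · simp only [if_pos hg]
    have e1 : |anc E.n u.1 - d - anc E.n u.1| = d := by
      rw [show anc E.n u.1 - d - anc E.n u.1 = -d by ring, abs_neg, abs_of_nonneg hd]
    rw [e1]
  · simp only [if_neg hg]
    have e1 : |u.2.2.1 + d - u.2.2.1| = d := by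
      rw [show u.2.2.1 + d - u.2.2.1 = d by ring, abs_of_nonneg hd]
    rw [e1]
    ext z
    simp only [Finset.mem_insert, Finset.mem_singleton]
    tauto

open Classical in
private theorem group_CovM (E : Env) {κ1 ρ c1 T : ℝ} (hOk : E.Ok κ1 ρ c1) {P3 : Finset ℕ}
    {L3 D3 : Finset ℤ} {Ps : Finset Pack} (g : Fin 6) (l : List (ℕ × Bool × ℤ × ℤ))
    (hH : Hist E P3 L3 D3 T Ps g l) (d : ℤ) (hd : 1 ≤ d) (c : ℝ)
    (hc : c ≤ ((l.countP (fun u => E.covG E.AA g u.1 u.2.2.1 u.2.2.2 d) : ℕ) : ℝ)) :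
    CovM E E.AA (l.map cvP).toFinset c d := by
  obtain ⟨hB, hN, -, hF, n1, n2, n3⟩ := hH
  obtain ⟨inv, hinv⟩ : ∃ inv : Pack → ℕ × Bool × ℤ × ℤ, ∀ u ∈ l, inv (cvP u) = u := by
    refine ⟨fun p => if h : ∃ u ∈ l, cvP u = p then h.choose else (0, true, 0, 0), ?_⟩
    intro u hu
    have h : ∃ v ∈ l, cvP v = cvP u := ⟨u, hu, rfl⟩
    beta_reduce
    rw [dif_pos h]
    exact inj_of_nodup hN h.choose_spec.1 hu h.choose_spec.2
  obtain ⟨M, hM⟩ : ∃ M : Finset Pack, M = ((l.filter (fun u =>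
    E.covG E.AA g u.1 u.2.2.1 u.2.2.2 d)).map cvP).toFinset := ⟨_, rfl⟩
  have hmem : ∀ p ∈ M, ∃ u ∈ l, cvP u = p ∧ E.covG E.AA g u.1 u.2.2.1 u.2.2.2 d := by
    intro p hp
    rw [hM, List.mem_toFinset, List.mem_map] at hp
    obtain ⟨u, hu, e⟩ := hp
    rw [List.mem_filter] at hu
    exact ⟨u, hu.1, e, by simpa using hu.2⟩
  have hsub : M ⊆ (l.map cvP).toFinset := by
    intro p hp
    obtain ⟨u, hu, e, -⟩ := hmem p hp
    rw [List.mem_toFinset, List.mem_map]
    exact ⟨u, hu, e⟩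
  have hcard : M.card = l.countP (fun u => E.covG E.AA g u.1 u.2.2.1 u.2.2.2 d) := by
    rw [hM, List.toFinset_card_of_nodup, List.length_map, List.countP_eq_length_filter]
    exact (List.Sublist.map cvP List.filter_sublist).nodup hN
  have injM : ∀ (f : ℕ × Bool × ℤ × ℤ → ℤ), (l.map f).Nodup → ∀ p ∈ M, ∀ p' ∈ M,
      f (inv p) = f (inv p') → p = p' := by
    intro f hf p hp p' hp' e
    obtain ⟨u, hu, e1, -⟩ := hmem p hp
    obtain ⟨u', hu', e2, -⟩ := hmem p' hp'
    rw [← e1, ← e2, hinv u hu, hinv u' hu'] at e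
    rw [← e1, ← e2, inj_of_nodup hf hu hu' e]
  refine ⟨M, fun p => E.covX g (inv p).1 (inv p).2.2.1 d,
    fun p => (E.covD2 g (inv p).1 (inv p).2.2.1 (inv p).2.2.2 d).1,
    fun p => (E.covD2 g (inv p).1 (inv p).2.2.1 (inv p).2.2.2 d).2, hsub, ?_, ?_, ?_, ?_⟩
  · rw [hcard]
    exact hc
  · intro p hp
    obtain ⟨u, hu, e1, h1, h2, h3, h4⟩ := hmem p hp
    have e2 := hinv u hu
    rw [e1] at e2
    simp only [e2]
    refine ⟨h1, h2, h3, h4, ?_⟩
    rw [← e1]
    exact cov_image E g u (by linarith)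
  · intro p hp p' hp' e
    obtain ⟨u, hu, e1, -⟩ := hmem p hp
    obtain ⟨u', hu', e1', -⟩ := hmem p' hp'
    have e2 := hinv u hu
    have e2' := hinv u' hu'
    rw [e1] at e2
    rw [e1'] at e2'
    simp only [e2, e2'] at e
    by_contra hne
    have hc := hF.dj p (Finset.mem_union_right _ (hsub hp)) p'
      (Finset.mem_union_right _ (hsub hp')) hne
    obtain ⟨c1', c2', -⟩ := hc
    rw [← e1, ← e1'] at c1' c2'
    unfold Env.covX at e
    by_cases hg : g = 5
    · rw [if_pos hg, if_pos hg] at e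
      have f1 := (pure_facts E E.base hOk.col (hB u hu).1.1).1
      have f2 := (pure_facts E E.base hOk.col (hB u' hu').1.1).1
      have e3 : u.1 = u'.1 := anc_inj f1 f2 (by linarith)
      have m1 : u.1 ∈ ball E (cvP u).m := by
        unfold ball
        rw [cvP_m]
        exact Finset.mem_insert_self _ _
      have m2 : u.1 ∈ ball E (cvP u').m := by
        unfold ball
        rw [cvP_m, ← e3]
        exact Finset.mem_insert_self _ _
      exact Finset.disjoint_left.1 c1' m1 m2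
    · rw [if_neg hg, if_neg hg] at e
      have e3 : u.2.2.1 = u'.2.2.1 := by linarith
      have m2 := y1_mem u'
      rw [← e3] at m2
      exact Finset.disjoint_left.1 c2' (y1_mem u) m2
  · intro r
    unfold Env.covD2 Env.covX
    by_cases hg : g = 5
    · simp only [if_pos hg]
      have hs : M.filter (fun p => |anc E.n (inv p).1 - d - (inv p).2.2.1| = r ∨
          |anc E.n (inv p).1 - d - (inv p).2.2.2| = r) ⊆
          M.filter (fun p => anc E.n (inv p).1 - (inv p).2.2.1 = d + r ∨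
            anc E.n (inv p).1 - (inv p).2.2.1 = d - r) ∪
          M.filter (fun p => anc E.n (inv p).1 - (inv p).2.2.2 = d + r ∨
            anc E.n (inv p).1 - (inv p).2.2.2 = d - r) := by
        intro p hp
        rw [Finset.mem_filter] at hp
        rw [Finset.mem_union, Finset.mem_filter, Finset.mem_filter]
        rcases hp.2 with h | h
        · left
          refine ⟨hp.1, ?_⟩
          rcases abs_choice (anc E.n (inv p).1 - d - (inv p).2.2.1) with h1 | h1
          · left; linarith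
          · right; linarith
        · right
          refine ⟨hp.1, ?_⟩
          rcases abs_choice (anc E.n (inv p).1 - d - (inv p).2.2.2) with h1 | h1
          · left; linarith
          · right; linarith
      have t1 := two_le M (fun p => anc E.n (inv p).1 - (inv p).2.2.1)
        (injM (fun u => anc E.n u.1 - u.2.2.1) n2) (d + r) (d - r)
      have t2 := two_le M (fun p => anc E.n (inv p).1 - (inv p).2.2.2)
        (injM (fun u => anc E.n u.1 - u.2.2.2) n3) (d + r) (d - r)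
      exact (Finset.card_le_card hs).trans ((Finset.card_union_le _ _).trans (by omega))
    · simp only [if_neg hg]
      have hs : M.filter (fun p => |(inv p).2.2.1 + d - (inv p).2.2.2| = r ∨
          |(inv p).2.2.1 + d - anc E.n (inv p).1| = r) ⊆
          M.filter (fun p => (inv p).2.2.1 - (inv p).2.2.2 = r - d ∨
            (inv p).2.2.1 - (inv p).2.2.2 = - r - d) ∪
          M.filter (fun p => anc E.n (inv p).1 - (inv p).2.2.1 = d - r ∨
            anc E.n (inv p).1 - (inv p).2.2.1 = d + r) := by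
        intro p hp
        rw [Finset.mem_filter] at hp
        rw [Finset.mem_union, Finset.mem_filter, Finset.mem_filter]
        rcases hp.2 with h | h
        · left
          refine ⟨hp.1, ?_⟩
          rcases abs_choice ((inv p).2.2.1 + d - (inv p).2.2.2) with h1 | h1
          · left; linarith
          · right; linarith
        · right
          refine ⟨hp.1, ?_⟩
          rcases abs_choice ((inv p).2.2.1 + d - anc E.n (inv p).1) with h1 | h1
          · left; linarith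
          · right; linarith
      have t1 := two_le M (fun p => (inv p).2.2.1 - (inv p).2.2.2)
        (injM (fun u => u.2.2.1 - u.2.2.2) n1) (r - d) (- r - d)
      have t2 := two_le M (fun p => anc E.n (inv p).1 - (inv p).2.2.1)
        (injM (fun u => anc E.n u.1 - u.2.2.1) n2) (d - r) (d + r)
      exact (Finset.card_le_card hs).trans ((Finset.card_union_le _ _).trans (by omega))

private theorem dall_bd {n : ℕ} {d : ℤ} (h : d ∈ dall n) : 1 ≤ d ∧ d ≤ 2 * n + 2 := by
  unfold dall at h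
  split_ifs at h
  · rw [Finset.mem_erase, Finset.mem_erase, Finset.mem_Icc] at h
    exact h.2.2
  · rw [Finset.mem_erase, Finset.mem_Icc] at h
    exact ⟨h.2.1, by omega⟩

theorem cov_group (c1 κ : ℝ) (hc1 : 0 < c1) (hκ : 0 < κ) : ∃ ε : ℝ, 0 < ε ∧ ∃ n0 : ℕ,
    ∀ (E : Env) (κ1 ρ : ℝ) (P3 : Finset ℕ) (L3 D3 : Finset ℤ) (Ps : Finset Pack),
      n0 ≤ E.n → E.Ok κ1 ρ c1 → Gen0 E P3 → PFam E P3 L3 D3 (κ * E.n / (E.q : ℝ) ^ 2) Ps →
      (P3.card : ℝ) ≤ ε * E.n → (L3.card : ℝ) ≤ ε * E.n → (D3.card : ℝ) ≤ ε * E.n →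
      ∀ (g : Fin 6) (N : ℕ), 0 < N → ((Ps.card + N : ℕ) : ℝ) ≤ ε * E.n →
      (2 * (E.n : ℝ) + 2) ≤ Real.exp (min (c1 / 20) 1 * N / 8) →
      ∃ new : Finset Pack, new.card = N ∧ Disjoint Ps new ∧
        PFam E P3 L3 D3 (κ * E.n / (E.q : ℝ) ^ 2) (Ps ∪ new) ∧ (∀ p ∈ new, CvOk E p) ∧
        ∀ d ∈ dall E.n, E.covD g d → CovM E E.AA new (min (c1 / 20) 1 * N / 2) d := by
  classical
  obtain ⟨ε, hε, n0, hstep⟩ := cov_step c1 κ hc1 hκ
  refine ⟨ε, hε, n0 + 3, ?_⟩
  intro E κ1 ρ P3 L3 D3 Ps hn hOk hG hF s1 s2 s3 g N hN hPN hexp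
  have hc0 : 0 < min (c1 / 20) 1 := lt_min (by positivity) one_pos
  have hDcard : ((((dall E.n).filter (fun d => E.covD g d)).card : ℕ) : ℝ) ≤
      Real.exp (min (c1 / 20) 1 * N / 8) := by
    refine le_trans ?_ hexp
    have h1 : ((dall E.n).filter (fun d => E.covD g d)).card ≤ 2 * E.n := by
      rw [← dall_card (n := E.n) (by omega)]
      exact Finset.card_filter_le _ _
    have h2 : ((((dall E.n).filter (fun d => E.covD g d)).card : ℕ) : ℝ) ≤ 2 * E.n := by
      exact_mod_cast h1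
    linarith
  obtain ⟨l, hl, hP, hgood⟩ := selection ((dall E.n).filter (fun d => E.covD g d))
    (fun (u : ℕ × Bool × ℤ × ℤ) (d : ℤ) => E.covG E.AA g u.1 u.2.2.1 u.2.2.2 d)
    (min (c1 / 20) 1) hc0 (min_le_right _ _) N hDcard hN
    (fun l => Hist E P3 L3 D3 (κ * E.n / (E.q : ℝ) ^ 2) Ps g l)
    (by
      refine ⟨by simp, by simp, by simp, ?_, by simp, by simp, by simp⟩
      simpa using hF)
    (by
      intro l hH hlN
      have hH' := hH
      obtain ⟨hB, hNd, hnot, hFl, n1, n2, n3⟩ := hH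
      have hsz : ((Ps ∪ (l.map cvP).toFinset).card : ℝ) ≤ ε * E.n := by
        refine le_trans ?_ hPN
        have h1 : (Ps ∪ (l.map cvP).toFinset).card ≤ Ps.card + N := by
          refine (Finset.card_union_le _ _).trans (Nat.add_le_add_left ?_ _)
          refine (List.toFinset_card_le _).trans ?_
          rw [List.length_map]
          exact hlN.le
        exact_mod_cast h1
      have hNe : (N : ℝ) ≤ ε * E.n := by
        refine le_trans ?_ hPN
        push_cast
        linarith [Nat.cast_nonneg (α := ℝ) Ps.card]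
      have hV : ∀ f : ℕ × Bool × ℤ × ℤ → ℤ, (((l.map f).toFinset.card : ℕ) : ℝ) ≤ ε * E.n := by
        intro f
        refine le_trans ?_ hNe
        have h1 : (l.map f).toFinset.card ≤ N := by
          refine (List.toFinset_card_le _).trans ?_
          rw [List.length_map]
          exact hlN.le
        exact_mod_cast h1
      obtain ⟨A, hA, hA1, hA2⟩ := hstep E κ1 ρ P3 L3 D3 (Ps ∪ (l.map cvP).toFinset) (by omega)
        hOk hG hFl s1 s2 s3 hsz g (l.map (fun u => u.2.2.1 - u.2.2.2)).toFinset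
        (l.map (fun u => anc E.n u.1 - u.2.2.1)).toFinset
        (l.map (fun u => anc E.n u.1 - u.2.2.2)).toFinset (hV _) (hV _) (hV _)
      refine ⟨A, hA, ?_, ?_⟩
      · intro u hu
        obtain ⟨a1, a2, a3, a4, a5, a6, a7⟩ := hA1 u hu
        rw [Finset.mem_union, not_or, List.mem_toFinset] at a2
        rw [List.mem_toFinset] at a4 a5 a6
        refine ⟨?_, ?_, ?_, ?_, ?_, ?_, ?_⟩
        · intro v hv
          rcases List.mem_cons.1 hv with rfl | hv
          · exact ⟨a1, a7⟩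
          · exact hB v hv
        · rw [List.map_cons, List.nodup_cons]
          exact ⟨a2.2, hNd⟩
        · intro v hv
          rcases List.mem_cons.1 hv with rfl | hv
          · exact a2.1
          · exact hnot v hv
        · rw [List.map_cons, List.toFinset_cons, Finset.union_insert]
          exact a3
        · rw [List.map_cons, List.nodup_cons]
          exact ⟨a4, n1⟩
        · rw [List.map_cons, List.nodup_cons]
          exact ⟨a5, n2⟩
        · rw [List.map_cons, List.nodup_cons]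
          exact ⟨a6, n3⟩
      · intro d hd
        have h1 := hA2 d (Finset.mem_filter.1 hd).2
        refine le_trans ?_ (h1.trans (le_of_eq ?_))
        · gcongr
          exact min_le_left _ _
        · congr 2)
  have hP' := hP
  obtain ⟨hB, hNd, hnot, hFl, -⟩ := hP'
  refine ⟨(l.map cvP).toFinset, ?_, ?_, hFl, ?_, ?_⟩
  · rw [List.toFinset_card_of_nodup hNd, List.length_map, hl]
  · rw [Finset.disjoint_left]
    intro p hp hp'
    rw [List.mem_toFinset, List.mem_map] at hp'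
    obtain ⟨u, hu, e⟩ := hp'
    rw [← e] at hp
    exact hnot u hu hp
  · intro p hp
    rw [List.mem_toFinset, List.mem_map] at hp
    obtain ⟨u, hu, rfl⟩ := hp
    exact ⟨rfl, rfl, (hB u hu).2⟩
  · intro d hd hcd
    have h1 := hgood d (Finset.mem_filter.2 ⟨hd, hcd⟩)
    exact group_CovM E hOk g l hP d (dall_bd hd).1 _ h1

theorem cov_all (c1 κ : ℝ) (hc1 : 0 < c1) (hκ : 0 < κ) : ∃ ε : ℝ, 0 < ε ∧ ∀ ρ2 : ℝ, 0 < ρ2 →
    ρ2 ≤ ε → ∃ c2 : ℝ, 0 < c2 ∧ ∃ n0 : ℕ,
    ∀ (E : Env) (κ1 ρ : ℝ) (P3 : Finset ℕ) (L3 D3 : Finset ℤ),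
      n0 ≤ E.n → E.Ok κ1 ρ c1 → Gen0 E P3 →
      (P3.card : ℝ) ≤ ε * E.n → (L3.card : ℝ) ≤ ε * E.n → (D3.card : ℝ) ≤ ε * E.n →
      ∃ PR : Finset Pack, (PR.card : ℝ) ≤ ρ2 * E.n ∧
        PFam E P3 L3 D3 (κ * E.n / (E.q : ℝ) ^ 2) PR ∧ (∀ p ∈ PR, CvOk E p) ∧
        ∀ d ∈ dall E.n, CovM E E.AA PR (c2 * E.n) d := by
  obtain ⟨ε, hε, n0, hgr⟩ := cov_group c1 κ hc1 hκ
  refine ⟨ε, hε, ?_⟩
  intro ρ2 hρ2 hρε
  obtain ⟨m, hm⟩ : ∃ m : ℝ, m = min (c1 / 20) 1 := ⟨_, rfl⟩
  have hm0 : 0 < m := by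
    rw [hm]
    exact lt_min (by positivity) one_pos
  obtain ⟨γ, hγ⟩ : ∃ γ : ℝ, γ = m * (ρ2 / 12) / 8 := ⟨_, rfl⟩
  have hγ0 : 0 < γ := by
    rw [hγ]
    positivity
  refine ⟨m * (ρ2 / 12) / 2, by positivity, n0 + ⌈12 / ρ2⌉₊ + ⌈8 / γ ^ 2⌉₊ + 10, ?_⟩
  intro E κ1 ρ P3 L3 D3 hn hOk hG s1 s2 s3
  have hnR : (10 : ℝ) ≤ E.n := by
    have h1 : 10 ≤ E.n := by omega
    exact_mod_cast h1
  have hn1 : 12 / ρ2 ≤ E.n := by
    have h1 : ⌈12 / ρ2⌉₊ ≤ E.n := by omega
    exact (Nat.le_ceil _).trans (by exact_mod_cast h1)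
  have hn2 : 8 / γ ^ 2 ≤ E.n := by
    have h1 : ⌈8 / γ ^ 2⌉₊ ≤ E.n := by omega
    exact (Nat.le_ceil _).trans (by exact_mod_cast h1)
  obtain ⟨N, hNd⟩ : ∃ N : ℕ, N = ⌊ρ2 * E.n / 6⌋₊ := ⟨_, rfl⟩
  have hN1 : (N : ℝ) ≤ ρ2 * E.n / 6 := by
    rw [hNd]
    exact Nat.floor_le (by positivity)
  have hN2 : ρ2 * E.n / 12 ≤ N := by
    have h1 : ρ2 * E.n / 6 < N + 1 := by
      rw [hNd]
      exact Nat.lt_floor_add_one _
    have h2 : 12 ≤ ρ2 * E.n := by
      rw [div_le_iff₀ hρ2] at hn1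
      linarith
    linarith
  have hN0 : 0 < N := by
    have h2 : 12 ≤ ρ2 * E.n := by
      rw [div_le_iff₀ hρ2] at hn1
      linarith
    have h3 : (0 : ℝ) < N := by linarith
    exact_mod_cast h3
  have hexp : 2 * (E.n : ℝ) + 2 ≤ Real.exp (m * N / 8) := by
    have h1 : γ * E.n ≤ m * N / 8 := by
      rw [hγ]
      have h2 : m * (ρ2 * E.n / 12) ≤ m * N := by gcongr
      linarith
    have h3 : 0 ≤ γ * E.n := by positivity
    have h4 := Real.quadratic_le_exp_of_nonneg h3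
    have h5 : 2 * (E.n : ℝ) + 2 ≤ (γ * E.n) ^ 2 / 2 := by
      rw [div_le_iff₀ (by positivity)] at hn2
      have h6 : 8 * (E.n : ℝ) ≤ (E.n * γ ^ 2) * E.n := by gcongr
      have h7 : (γ * (E.n : ℝ)) ^ 2 = (E.n * γ ^ 2) * E.n := by ring
      rw [h7]
      linarith
    have h8 := Real.exp_le_exp.2 h1
    linarith
  have hmono : ∀ (Q Q' : Finset Pack) (c c' : ℝ) (d : ℤ), Q ⊆ Q' → c' ≤ c →
      CovM E E.AA Q c d → CovM E E.AA Q' c' d := by
    rintro Q Q' c c' d hQ hcc ⟨M, x, e1, e2, h1, h2, h3⟩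
    exact ⟨M, x, e1, e2, h1.trans hQ, hcc.trans h2, h3⟩
  have hfin : ∀ j : ℕ, j ≤ 6 → ∃ PR : Finset Pack, PR.card = j * N ∧
      PFam E P3 L3 D3 (κ * E.n / (E.q : ℝ) ^ 2) PR ∧ (∀ p ∈ PR, CvOk E p) ∧
      ∀ g : Fin 6, (g : ℕ) < j → ∀ d ∈ dall E.n, E.covD g d →
        CovM E E.AA PR (m * N / 2) d := by
    intro j
    induction j with
    | zero =>
      intro _
      refine ⟨∅, by simp, fam_empty E (by positivity), by simp, ?_⟩
      intro g hg
      exact absurd hg (Nat.not_lt_zero _)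
    | succ j ih =>
      intro hj
      obtain ⟨PR, p1, p2, p3, p4⟩ := ih (by omega)
      have hsz : ((PR.card + N : ℕ) : ℝ) ≤ ε * E.n := by
        rw [p1]
        push_cast
        have h1 : (j : ℝ) + 1 ≤ 6 := by exact_mod_cast hj
        have h2 : (0 : ℝ) ≤ N := Nat.cast_nonneg _
        have h3 : ((j : ℝ) + 1) * N ≤ 6 * N := by gcongr
        have h4 : ρ2 * E.n ≤ ε * E.n := by gcongr
        linarith
      obtain ⟨new, q1, q2, q3, q4, q5⟩ := hgr E κ1 ρ P3 L3 D3 PR (by omega) hOk hG p2 s1 s2 s3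
        ⟨j, by omega⟩ N hN0 hsz (by rw [← hm]; exact hexp)
      refine ⟨PR ∪ new, ?_, q3, ?_, ?_⟩
      · rw [Finset.card_union_of_disjoint q2, p1, q1]
        ring
      · intro p hp
        rcases Finset.mem_union.1 hp with hp | hp
        · exact p3 p hp
        · exact q4 p hp
      · intro g hg d hd hcd
        by_cases hgj : (g : ℕ) = j
        · have hg' : g = ⟨j, by omega⟩ := Fin.ext hgj
          rw [hg'] at hcd
          have h1 := q5 d hd hcd
          rw [← hm] at h1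
          exact hmono new (PR ∪ new) _ _ d Finset.subset_union_right le_rfl h1
        · exact hmono PR (PR ∪ new) _ _ d Finset.subset_union_left le_rfl
            (p4 g (by omega) d hd hcd)
  obtain ⟨PR, p1, p2, p3, p4⟩ := hfin 6 le_rfl
  refine ⟨PR, ?_, p2, p3, ?_⟩
  · rw [p1]
    push_cast
    linarith
  · intro d hd
    obtain ⟨b1, b2⟩ := dall_bd hd
    have r1 : (1 : ℝ) ≤ d := by exact_mod_cast b1
    have r2 : (d : ℝ) ≤ 2 * E.n + 2 := by exact_mod_cast b2
    have hg : ∃ g : Fin 6, E.covD g d := by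
      by_cases c0 : (d : ℝ) ≤ 35 / 100 * E.n
      · refine ⟨0, hd, ?_⟩
        change (0 : ℝ) * (E.n : ℝ) ≤ (d : ℝ) ∧ (d : ℝ) ≤ (35 / 100 : ℝ) * (E.n : ℝ)
        exact ⟨by linarith, c0⟩
      by_cases c2 : (d : ℝ) ≤ 8 / 10 * E.n
      · refine ⟨1, hd, ?_⟩
        change (35 / 100 : ℝ) * (E.n : ℝ) ≤ (d : ℝ) ∧ (d : ℝ) ≤ (8 / 10 : ℝ) * (E.n : ℝ)
        exact ⟨(not_le.1 c0).le, c2⟩
      by_cases c3 : (d : ℝ) ≤ 125 / 100 * E.n
      · refine ⟨2, hd, ?_⟩
        change (8 / 10 : ℝ) * (E.n : ℝ) ≤ (d : ℝ) ∧ (d : ℝ) ≤ (125 / 100 : ℝ) * (E.n : ℝ)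
        exact ⟨(not_le.1 c2).le, c3⟩
      by_cases c4 : (d : ℝ) ≤ 145 / 100 * E.n
      · refine ⟨3, hd, ?_⟩
        change (125 / 100 : ℝ) * (E.n : ℝ) ≤ (d : ℝ) ∧ (d : ℝ) ≤ (145 / 100 : ℝ) * (E.n : ℝ)
        exact ⟨(not_le.1 c3).le, c4⟩
      by_cases c5 : (d : ℝ) ≤ 155 / 100 * E.n
      · refine ⟨4, hd, ?_⟩
        change (145 / 100 : ℝ) * (E.n : ℝ) ≤ (d : ℝ) ∧ (d : ℝ) ≤ (155 / 100 : ℝ) * (E.n : ℝ)
        exact ⟨(not_le.1 c4).le, c5⟩
      · refine ⟨5, hd, ?_⟩
        change (155 / 100 : ℝ) * (E.n : ℝ) ≤ (d : ℝ) ∧ (d : ℝ) ≤ (3 : ℝ) * (E.n : ℝ)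
        exact ⟨(not_le.1 c5).le, by linarith⟩
    obtain ⟨g, hg⟩ := hg
    refine hmono PR PR _ _ d (Finset.Subset.refl _) ?_ (p4 g g.2 d hd hg)
    have h1 : m * (ρ2 * E.n / 12) ≤ m * N := by gcongr
    linarith

end Pool.Agent.PGr.PPk
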