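import Mathlib
import Pool.Agent.PGr.P3D

/-!
# PGr, part P: the parts of a plan, the plan built from them (definitions)
-/

noncomputable section

namespace Pool.Agent.PGr.PPk

open Finset

open Classical in
/-- default items: items next to `P3` or next to the planted neighbours of cover items -/
def EdF (E : Env) (P3 : Finset ℕ) (PR : Finset Pack) : Finset ℕ :=
  E.Ck.filter (fun i => nbp E.n E.k i ∈ P3 ∨ nbm E.n E.k i ∈ P3 ∨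
    ∃ p ∈ PR, i = w1 E p.m ∨ i = w2 E p.m)

/-- all ingredients of a plan -/
structure Parts (E : Env) (κ cD cC : ℝ) (b m : ℕ) (P3 : Finset ℕ) (pl3 : ℕ → ℤ)
    (Bd : Finset (ZMod (E.q ^ 2))) (PR PA : Finset Pack) (R1 X : Finset ℤ) : Prop where
  set : P3Set E P3 Bd (κ / 10)
  lab : P3Lab E P3 pl3
  fam : PFam E P3 (L3 P3 pl3) (D3 E P3 pl3) (κ / 10 * E.n / (E.q : ℝ) ^ 2) (PR ∪ PA)
  dj : Disjoint PR PA
  cvok : ∀ p ∈ PR, CvOk E p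
  R1_sub : R1 ⊆ E.AA
  X_sub : X ⊆ E.AA
  XR : Disjoint X R1
  cov : ∀ d ∈ dall E.n, CovM E R1 PR (cC * E.n) d
  df : ∀ (a z1 z2 : ℤ) (lo hi' : ℝ), E.inc3 a z1 z2 → E.defCase a z1 z2 lo hi' →
    cD * E.n ≤ ((E.defSet R1 lo hi' a z1 z2).card : ℝ)
  abs : ∀ R' ⊆ R1, R'.card = m → ∃ z : Pack → ℤ, (∀ p ∈ PA, z p ∈ p.J) ∧
    DS E PA z = pGG PA ∪ X ∪ R' ∧ (pGG PA ∪ X ∪ R').card = 3 * PA.card
  cnt1 : (pGG PA ∪ X).card + m = 3 * PA.card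
  cnt2 : m + 3 * PR.card + 3 * (EdF E P3 PR).card = R1.card + b
  b_lo : E.n ^ 4 ≤ b ^ 4 * E.q
  b_hi : 200 * (b : ℝ) ≤ cD * E.n ∧ 200 * (b : ℝ) ≤ cC * E.n
  szR : (PR.card : ℝ) ≤ κ / 10 * E.n
  szA : (PA.card : ℝ) ≤ κ / 10 * E.n
  szD : 40 * ((PR.card + (EdF E P3 PR).card : ℕ) : ℝ) ≤ cD * E.n

open Classical in
/-- the labels of all planted vertices -/
def plF (E : Env) (P3 : Finset ℕ) (pl3 : ℕ → ℤ) (Ps : Finset Pack) (v : ℕ) : ℤ :=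
  if v ∈ P3 then pl3 v
  else if h : ∃ p ∈ Ps, nbp E.n E.k p.m = v then h.choose.a1
  else if h : ∃ p ∈ Ps, nbm E.n E.k p.m = v then h.choose.a2
  else 0

/-- the plan built from the parts -/
def mkPlan (E : Env) (P3 : Finset ℕ) (pl3 : ℕ → ℤ) (Bd : Finset (ZMod (E.q ^ 2)))
    (PR PA : Finset Pack) (R1 X : Finset ℤ) : Plan E where
  P := P3 ∪ (PR ∪ PA).image (fun p => nbp E.n E.k p.m) ∪ (PR ∪ PA).image (fun p => nbm E.n E.k p.m)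
  pl := plF E P3 pl3 (PR ∪ PA)
  CR := PR.image (fun p => p.m)
  Ed := EdF E P3 PR
  Ab := PA.image (fun p => p.m)
  R1 := R1
  G := pGG PA ∪ X
  Lb := pJJ PA
  Bd := Bd

variable {E : Env} {κ cD cC : ℝ} {b m : ℕ} {P3 : Finset ℕ} {pl3 : ℕ → ℤ}
    {Bd : Finset (ZMod (E.q ^ 2))} {PR PA : Finset Pack} {R1 X : Finset ℤ}

end Pool.Agent.PGr.PPk
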