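import Mathlib
import Pool.Agent.PGr.PPt
import Pool.Agent.PGr.PVert

/-!
# PGr-P-PtB: basic facts about the planted configuration

PLAN. Everything from `PFam` (disjoint balls), `nbp_nbm`, `nbm_nbp`, `nbp_ne_nbm` (PVert).
`pl_P3`: first branch of `plF`. `pl_nbp`: `nbp p.m ∈ ball p.m`, not in `P3` (`PackOk.fresh`); if `p' ∈ Ps` has
`nbp p'.m = nbp p.m` then the balls meet, so `p' = p`; hence the chosen pack is `p`. `pl_nbm`: the same;
`nbp p'.m = nbm p.m` is impossible: for `p' = p` by `nbp_ne_nbm`, for `p' ≠ p` the balls are disjoint.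
`planted_cases`: membership in the union. `near_item`: an item `i ∈ Ck` with a neighbour `v = nbp p.m`
(`p ∈ Ps`): `nbp i = nbp p.m` gives `i = p.m` (`nbm` of both sides), `nbm i = nbp p.m` gives
`i = nbp (nbp p.m) = w1 p.m`; the same for `nbm p.m`.
`cl_far`: a vertex `v` of `ball p.m` different from `nbp p.m`, `nbm p.m` is not planted: not in `P3`; if
`v = nbp p'.m` or `nbm p'.m`, then `p' = p` by the balls.
`pcl_eq`: for `v ∈ ball p.m`, `pcl E p v` is the class `cl v` of the plan.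
`centre_facts`: `w1 p.m = w1 p'.m` or `w1 p.m = w2 p'.m` implies `p = p'` (the balls).
`EdF_card`: an item `i < n` with `nbp i ∈ P3` is `nbm (nbp i)`, so
`EdF ⊆ P3.image nbm ∪ P3.image nbp ∪ PR.image (w1 ·.m) ∪ PR.image (w2 ·.m)`.
-/

noncomputable section

namespace Pool.Agent.PGr.PPk

open Finset

variable {E : Env} {κ cD cC : ℝ} {b m : ℕ} {P3 : Finset ℕ} {pl3 : ℕ → ℤ}
    {Bd : Finset (ZMod (E.q ^ 2))} {PR PA : Finset Pack} {R1 X : Finset ℤ}

private theorem ptb_ball_eq (h : Parts E κ cD cC b m P3 pl3 Bd PR PA R1 X) {p p' : Pack}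
    (hp : p ∈ PR ∪ PA) (hp' : p' ∈ PR ∪ PA) {v : ℕ} (hv : v ∈ ball E p.m)
    (hv' : v ∈ ball E p'.m) : p = p' := by
  by_contra hne
  exact Finset.disjoint_left.mp (h.fam.dj p hp p' hp' hne).1 hv hv'

private theorem ptb_ball_P3 (h : Parts E κ cD cC b m P3 pl3 Bd PR PA R1 X) {p : Pack}
    (hp : p ∈ PR ∪ PA) {v : ℕ} (hv : v ∈ ball E p.m) : v ∉ P3 :=
  Finset.disjoint_left.mp (h.fam.ok p hp).fresh hv

private theorem ptb_lt (hE : Base E.n E.k E.q E.S E.B0) {ρ : ℝ}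
    (hc : Col E.n E.k E.q ρ E.Bk E.Ck E.Pk)
    (h : Parts E κ cD cC b m P3 pl3 Bd PR PA R1 X) {p : Pack} (hp : p ∈ PR ∪ PA) : p.m < E.n :=
  (pure_facts E hE hc (h.fam.ok p hp).item).1

private theorem ptb_b0 (E : Env) (m : ℕ) : m ∈ ball E m := by
  simp [ball]

private theorem ptb_b1 (E : Env) (m : ℕ) : nbp E.n E.k m ∈ ball E m := by
  simp [ball]

private theorem ptb_b2 (E : Env) (m : ℕ) : nbm E.n E.k m ∈ ball E m := by
  simp [ball]

private theorem ptb_b3 (E : Env) (m : ℕ) : w1 E m ∈ ball E m := by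
  simp [ball, w1]

private theorem ptb_b4 (E : Env) (m : ℕ) : w2 E m ∈ ball E m := by
  simp [ball, w2]

private theorem ptb_b5 (E : Env) (m : ℕ) : nbp E.n E.k (w1 E m) ∈ ball E m := by
  simp [ball, w1]

private theorem ptb_b6 (E : Env) (m : ℕ) : nbm E.n E.k (w2 E m) ∈ ball E m := by
  simp [ball, w2]

private theorem ptb_mem_P {v : ℕ} : v ∈ (mkPlan E P3 pl3 Bd PR PA R1 X).P ↔
    v ∈ P3 ∨ ∃ p ∈ PR ∪ PA, v = nbp E.n E.k p.m ∨ v = nbm E.n E.k p.m := by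
  constructor
  · intro hv
    have hv' : v ∈ P3 ∪ (PR ∪ PA).image (fun p => nbp E.n E.k p.m)
      ∪ (PR ∪ PA).image (fun p => nbm E.n E.k p.m) := hv
    rw [mem_union, mem_union, mem_image, mem_image] at hv'
    rcases hv' with (hv' | ⟨p, hp, rfl⟩) | ⟨p, hp, rfl⟩
    · exact Or.inl hv'
    · exact Or.inr ⟨p, hp, Or.inl rfl⟩
    · exact Or.inr ⟨p, hp, Or.inr rfl⟩
  · intro hv
    change v ∈ P3 ∪ (PR ∪ PA).image (fun p => nbp E.n E.k p.m)
      ∪ (PR ∪ PA).image (fun p => nbm E.n E.k p.m)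
    rw [mem_union, mem_union, mem_image, mem_image]
    rcases hv with hv | ⟨p, hp, rfl | rfl⟩
    · exact Or.inl (Or.inl hv)
    · exact Or.inl (Or.inr ⟨p, hp, rfl⟩)
    · exact Or.inr ⟨p, hp, rfl⟩

theorem pl_P3 {v : ℕ} (hv : v ∈ P3) : (mkPlan E P3 pl3 Bd PR PA R1 X).pl v = pl3 v := by
  change plF E P3 pl3 (PR ∪ PA) v = pl3 v
  unfold plF
  rw [if_pos hv]

theorem pl_nbp (hE : Base E.n E.k E.q E.S E.B0) {ρ : ℝ} (hc : Col E.n E.k E.q ρ E.Bk E.Ck E.Pk)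
    (h : Parts E κ cD cC b m P3 pl3 Bd PR PA R1 X) {p : Pack} (hp : p ∈ PR ∪ PA) :
    (mkPlan E P3 pl3 Bd PR PA R1 X).pl (nbp E.n E.k p.m) = p.a1 := by
  change plF E P3 pl3 (PR ∪ PA) (nbp E.n E.k p.m) = p.a1
  unfold plF
  rw [if_neg (ptb_ball_P3 h hp (ptb_b1 E p.m))]
  have hex : ∃ p' ∈ PR ∪ PA, nbp E.n E.k p'.m = nbp E.n E.k p.m := ⟨p, hp, rfl⟩
  rw [dif_pos hex]
  have h1 := hex.choose_spec
  have h2 : hex.choose = p := by
    refine ptb_ball_eq h h1.1 hp (ptb_b1 E _) ?_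
    rw [h1.2]
    exact ptb_b1 E p.m
  rw [h2]

theorem pl_nbm (hE : Base E.n E.k E.q E.S E.B0) {ρ : ℝ} (hc : Col E.n E.k E.q ρ E.Bk E.Ck E.Pk)
    (h : Parts E κ cD cC b m P3 pl3 Bd PR PA R1 X) {p : Pack} (hp : p ∈ PR ∪ PA) :
    (mkPlan E P3 pl3 Bd PR PA R1 X).pl (nbm E.n E.k p.m) = p.a2 := by
  change plF E P3 pl3 (PR ∪ PA) (nbm E.n E.k p.m) = p.a2
  unfold plF
  rw [if_neg (ptb_ball_P3 h hp (ptb_b2 E p.m))]
  have hno : ¬ ∃ p' ∈ PR ∪ PA, nbp E.n E.k p'.m = nbm E.n E.k p.m := by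
    rintro ⟨p', hp', he⟩
    have h2 : p' = p := by
      refine ptb_ball_eq h hp' hp (ptb_b1 E _) ?_
      rw [he]
      exact ptb_b2 E p.m
    subst h2
    exact nbp_ne_nbm hE.k_pos hE.k_lt (ptb_lt hE hc h hp) he
  have hex : ∃ p' ∈ PR ∪ PA, nbm E.n E.k p'.m = nbm E.n E.k p.m := ⟨p, hp, rfl⟩
  rw [dif_neg hno, dif_pos hex]
  have h1 := hex.choose_spec
  have h2 : hex.choose = p := by
    refine ptb_ball_eq h h1.1 hp (ptb_b2 E _) ?_
    rw [h1.2]
    exact ptb_b2 E p.m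
  rw [h2]

theorem planted_cases {v : ℕ} (hv : v ∈ (mkPlan E P3 pl3 Bd PR PA R1 X).P) :
    v ∈ P3 ∨ ∃ p ∈ PR ∪ PA, v = nbp E.n E.k p.m ∨ v = nbm E.n E.k p.m :=
  ptb_mem_P.mp hv

theorem near_item (hE : Base E.n E.k E.q E.S E.B0) {ρ : ℝ}
    (hc : Col E.n E.k E.q ρ E.Bk E.Ck E.Pk)
    (h : Parts E κ cD cC b m P3 pl3 Bd PR PA R1 X) {p : Pack} (hp : p ∈ PR ∪ PA) {i v : ℕ}
    (hi : i < E.n) (hv : v = nbp E.n E.k i ∨ v = nbm E.n E.k i)
    (hv' : v = nbp E.n E.k p.m ∨ v = nbm E.n E.k p.m) :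
    i = p.m ∨ (i = w1 E p.m ∧ nbm E.n E.k i = nbp E.n E.k p.m) ∨
      (i = w2 E p.m ∧ nbp E.n E.k i = nbm E.n E.k p.m) := by
  have hm := ptb_lt hE hc h hp
  have hk := hE.k_pos
  have hkn := hE.k_lt
  rcases hv with hv | hv <;> rcases hv' with hv' | hv'
  · left
    rw [← nbm_nbp hk hkn hi, ← nbm_nbp hk hkn hm, ← hv, ← hv']
  · right
    right
    refine ⟨?_, hv.symm.trans hv'⟩
    rw [w2, ← hv', hv, nbm_nbp hk hkn hi]
  · right
    left
    refine ⟨?_, hv.symm.trans hv'⟩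
    rw [w1, ← hv', hv, nbp_nbm hk hkn hi]
  · left
    rw [← nbp_nbm hk hkn hi, ← nbp_nbm hk hkn hm, ← hv, ← hv']

theorem pcl_eq (hE : Base E.n E.k E.q E.S E.B0) {ρ : ℝ}
    (hc : Col E.n E.k E.q ρ E.Bk E.Ck E.Pk)
    (h : Parts E κ cD cC b m P3 pl3 Bd PR PA R1 X) {p : Pack} (hp : p ∈ PR ∪ PA) {v : ℕ}
    (hv : v ∈ ball E p.m) : (mkPlan E P3 pl3 Bd PR PA R1 X).cl v = pcl E p v := by
  unfold Plan.cl clw pcl
  by_cases h1 : v = nbp E.n E.k p.m
  · rw [if_pos h1, if_pos (ptb_mem_P.mpr (Or.inr ⟨p, hp, Or.inl h1⟩)), h1, pl_nbp hE hc h hp]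
  · rw [if_neg h1]
    by_cases h2 : v = nbm E.n E.k p.m
    · rw [if_pos h2, if_pos (ptb_mem_P.mpr (Or.inr ⟨p, hp, Or.inr h2⟩)), h2, pl_nbm hE hc h hp]
    · rw [if_neg h2, if_neg]
      intro h3
      rcases planted_cases h3 with h3 | ⟨p', hp', h3⟩
      · exact ptb_ball_P3 h hp hv h3
      · have h4 : p = p' := by
          refine ptb_ball_eq h hp hp' hv ?_
          rcases h3 with h3 | h3
          · rw [h3]
            exact ptb_b1 E _
          · rw [h3]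
            exact ptb_b2 E _
        subst h4
        rcases h3 with h3 | h3
        · exact h1 h3
        · exact h2 h3

/-- items not in `Ab`, not in `CR`, next to a planted vertex: either all planted neighbours are in
`P3`, or the item is `w1 p.m` or `w2 p.m` -/
theorem item_cases (hE : Base E.n E.k E.q E.S E.B0) {ρ : ℝ}
    (hc : Col E.n E.k E.q ρ E.Bk E.Ck E.Pk)
    (h : Parts E κ cD cC b m P3 pl3 Bd PR PA R1 X) {i : ℕ} (hi : i ∈ E.Ck) :
    (∀ v, (v = nbp E.n E.k i ∨ v = nbm E.n E.k i) → v ∈ (mkPlan E P3 pl3 Bd PR PA R1 X).P →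
      v ∈ P3) ∨
    ∃ p ∈ PR ∪ PA, i = p.m ∨
      ((i = w1 E p.m ∨ i = w2 E p.m) ∧ nbp E.n E.k i ∉ P3 ∧ nbm E.n E.k i ∉ P3) := by
  have hin : i < E.n := by
    have : i ∈ range E.n := by
      rw [← hc.cover, mem_union, mem_union]
      exact Or.inl (Or.inr hi)
    exact mem_range.mp this
  by_cases hall : ∀ v, (v = nbp E.n E.k i ∨ v = nbm E.n E.k i) →
      v ∈ (mkPlan E P3 pl3 Bd PR PA R1 X).P → v ∈ P3
  · exact Or.inl hall
  · right
    push Not at hall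
    obtain ⟨v, hv, hvP, hv3⟩ := hall
    rcases planted_cases hvP with h3 | ⟨p, hp, h3⟩
    · exact absurd h3 hv3
    · refine ⟨p, hp, ?_⟩
      rcases near_item hE hc h hp hin hv h3 with h4 | ⟨h4, h5⟩ | ⟨h4, h5⟩
      · exact Or.inl h4
      · right
        refine ⟨Or.inl h4, ptb_ball_P3 h hp ?_, ptb_ball_P3 h hp ?_⟩
        · rw [h4]
          exact ptb_b5 E _
        · rw [h5]
          exact ptb_b1 E _
      · right
        refine ⟨Or.inr h4, ptb_ball_P3 h hp ?_, ptb_ball_P3 h hp ?_⟩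
        · rw [h5]
          exact ptb_b2 E _
        · rw [h4]
          exact ptb_b6 E _

theorem EdF_card (hE : Base E.n E.k E.q E.S E.B0) {ρ : ℝ}
    (hc : Col E.n E.k E.q ρ E.Bk E.Ck E.Pk) (P3 : Finset ℕ) (PR : Finset Pack) :
    (EdF E P3 PR).card ≤ 2 * P3.card + 2 * PR.card := by
  have hsub : EdF E P3 PR ⊆ (P3.image (nbm E.n E.k) ∪ P3.image (nbp E.n E.k)) ∪
      (PR.image (fun p => w1 E p.m) ∪ PR.image (fun p => w2 E p.m)) := by
    intro i hi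
    unfold EdF at hi
    rw [mem_filter] at hi
    obtain ⟨hiC, hi⟩ := hi
    have hin : i < E.n := by
      have : i ∈ range E.n := by
        rw [← hc.cover, mem_union, mem_union]
        exact Or.inl (Or.inr hiC)
      exact mem_range.mp this
    rw [mem_union, mem_union, mem_union, mem_image, mem_image, mem_image, mem_image]
    rcases hi with hi | hi | ⟨p, hp, hi | hi⟩
    · exact Or.inl (Or.inl ⟨_, hi, nbm_nbp hE.k_pos hE.k_lt hin⟩)
    · exact Or.inl (Or.inr ⟨_, hi, nbp_nbm hE.k_pos hE.k_lt hin⟩)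
    · exact Or.inr (Or.inl ⟨p, hp, hi.symm⟩)
    · exact Or.inr (Or.inr ⟨p, hp, hi.symm⟩)
  have h0 := card_le_card hsub
  have h1 := card_union_le (P3.image (nbm E.n E.k) ∪ P3.image (nbp E.n E.k))
    (PR.image (fun p => w1 E p.m) ∪ PR.image (fun p => w2 E p.m))
  have h2 := card_union_le (P3.image (nbm E.n E.k)) (P3.image (nbp E.n E.k))
  have h3 := card_union_le (PR.image (fun p => w1 E p.m)) (PR.image (fun p => w2 E p.m))
  have h4 : (P3.image (nbm E.n E.k)).card ≤ P3.card := card_image_le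
  have h5 : (P3.image (nbp E.n E.k)).card ≤ P3.card := card_image_le
  have h6 : (PR.image (fun p => w1 E p.m)).card ≤ PR.card := card_image_le
  have h7 : (PR.image (fun p => w2 E p.m)).card ≤ PR.card := card_image_le
  omega

/-- the centres of different packs and their items `w1, w2` are different -/
theorem centre_facts (hE : Base E.n E.k E.q E.S E.B0) {ρ : ℝ}
    (hc : Col E.n E.k E.q ρ E.Bk E.Ck E.Pk)
    (h : Parts E κ cD cC b m P3 pl3 Bd PR PA R1 X) {p p' : Pack} (hp : p ∈ PR ∪ PA)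
    (hp' : p' ∈ PR ∪ PA) : (p.m = p'.m → p = p') ∧ p.m ≠ w1 E p'.m ∧ p.m ≠ w2 E p'.m ∧
      (w1 E p.m = w1 E p'.m → p = p') ∧ (w2 E p.m = w2 E p'.m → p = p') ∧
      (w1 E p.m = w2 E p'.m → p = p') ∧ p.m ∉ P3 ∧ nbp E.n E.k p.m ∉ P3 ∧
      nbm E.n E.k p.m ∉ P3 := by
  have hm := ptb_lt hE hc h hp
  have hk := hE.k_pos
  have hkn := hE.k_lt
  refine ⟨?_, ?_, ?_, ?_, ?_, ?_, ptb_ball_P3 h hp (ptb_b0 E _), ptb_ball_P3 h hp (ptb_b1 E _),
    ptb_ball_P3 h hp (ptb_b2 E _)⟩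
  · intro he
    refine ptb_ball_eq h hp hp' (ptb_b0 E _) ?_
    rw [he]
    exact ptb_b0 E _
  · intro he
    have h1 : p = p' := by
      refine ptb_ball_eq h hp hp' (ptb_b0 E _) ?_
      rw [he]
      exact ptb_b3 E _
    subst h1
    apply nbp_ne_nbm hk hkn hm
    have h2 : nbm E.n E.k p.m = nbm E.n E.k (nbp E.n E.k (nbp E.n E.k p.m)) :=
      congrArg (nbm E.n E.k) he
    rw [h2, nbm_nbp hk hkn (nbp_lt hkn _)]
  · intro he
    have h1 : p = p' := by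
      refine ptb_ball_eq h hp hp' (ptb_b0 E _) ?_
      rw [he]
      exact ptb_b4 E _
    subst h1
    apply nbp_ne_nbm hk hkn hm
    have h2 : nbp E.n E.k p.m = nbp E.n E.k (nbm E.n E.k (nbm E.n E.k p.m)) :=
      congrArg (nbp E.n E.k) he
    rw [h2, nbp_nbm hk hkn (nbm_lt hkn _)]
  · intro he
    refine ptb_ball_eq h hp hp' (ptb_b3 E _) ?_
    rw [he]
    exact ptb_b3 E _
  · intro he
    refine ptb_ball_eq h hp hp' (ptb_b4 E _) ?_
    rw [he]
    exact ptb_b4 E _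
  · intro he
    refine ptb_ball_eq h hp hp' (ptb_b3 E _) ?_
    rw [he]
    exact ptb_b4 E _

end Pool.Agent.PGr.PPk
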