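import Mathlib
import Pool.Agent.PGr.PPtB

/-!
# PGr-P-Pt1: the plan: planted vertices, labels and spokes

PLAN. `Pn.P = P3 ∪ nbp centres ∪ nbm centres`. Use `planted_cases`, `pl_P3`, `pl_nbp`, `pl_nbm`,
`centre_facts`. `P_sub`: `P3 ⊆ Pk ∪ Bk` (`P3Set`), `nbp p.m, nbm p.m ∈ B1 ⊆ Bk` (`pureItem`, `B1` is a filter of
`Bk`). `pl_PL`, `rng`: `P3Lab.pl_PL` (`[1.1,1.9] ⊆ [.9,2.1]`, `inI` with `0 ≤ n`), `PackOk.LPL` (`a1, a2 ∈ L`),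
`r1, r2`. `pl_inj`: labels of `P3`: `P3Lab.pl_inj`; `P3` against packs: `PFam.l3` (`pl3 v ∈ L3`); different
packs: `PFam.dj` (disjoint `L`); the same pack: `a12`. `sp_*`: the same with `F`, `D3`, `s12`
(`Pn.sp (nbp p.m) = p.s1`). `ed_*`: `PP ⊆ Pk ⊆ P3` and `nbp v ∈ Pk ⊆ P3`, so `Pn.ed v = ed3 v` and everything
is in `P3Lab`; against the spokes of packs: `PFam.d3`, `ed3 v ∈ D3`.
-/

noncomputable section

namespace Pool.Agent.PGr.PPk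

open Finset

variable {E : Env} {κ cD cC : ℝ} {b m : ℕ} {P3 : Finset ℕ} {pl3 : ℕ → ℤ}
    {Bd : Finset (ZMod (E.q ^ 2))} {PR PA : Finset Pack} {R1 X : Finset ℤ}

private theorem ppt1_nbp (h : Parts E κ cD cC b m P3 pl3 Bd PR PA R1 X) {p : Pack}
    (hp : p ∈ PR ∪ PA) : nbp E.n E.k p.m ∈ E.B1 := by
  have h1 := (h.fam.ok p hp).item
  have h2 := h1.2.2.1
  simpa [Env.nb] using h2

private theorem ppt1_nbm (h : Parts E κ cD cC b m P3 pl3 Bd PR PA R1 X) {p : Pack}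
    (hp : p ∈ PR ∪ PA) : nbm E.n E.k p.m ∈ E.B1 := by
  have h1 := (h.fam.ok p hp).item
  have h2 := h1.2.2.2
  simpa [Env.nb] using h2

private theorem ppt1_B1 : E.B1 ⊆ E.Bk := by
  classical
  intro v hv
  rw [Env.B1, mem_filter] at hv
  exact hv.1

private theorem ppt1_P3 : P3 ⊆ (mkPlan E P3 pl3 Bd PR PA R1 X).P := by
  intro v hv
  simp only [mkPlan, mem_union]
  exact Or.inl (Or.inl hv)

private theorem ppt1_cases (hE : Base E.n E.k E.q E.S E.B0) {ρ : ℝ}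
    (hc : Col E.n E.k E.q ρ E.Bk E.Ck E.Pk)
    (h : Parts E κ cD cC b m P3 pl3 Bd PR PA R1 X) {v : ℕ}
    (hv : v ∈ (mkPlan E P3 pl3 Bd PR PA R1 X).P) :
    (v ∈ P3 ∧ (mkPlan E P3 pl3 Bd PR PA R1 X).pl v = pl3 v ∧
      (mkPlan E P3 pl3 Bd PR PA R1 X).sp v = sp3 E pl3 v) ∨
    (∃ p ∈ PR ∪ PA, v = nbp E.n E.k p.m ∧ (mkPlan E P3 pl3 Bd PR PA R1 X).pl v = p.a1 ∧
      (mkPlan E P3 pl3 Bd PR PA R1 X).sp v = p.s1 E) ∨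
    (∃ p ∈ PR ∪ PA, v = nbm E.n E.k p.m ∧ (mkPlan E P3 pl3 Bd PR PA R1 X).pl v = p.a2 ∧
      (mkPlan E P3 pl3 Bd PR PA R1 X).sp v = p.s2 E) := by
  rcases planted_cases hv with h3 | ⟨p, hp, h1 | h1⟩
  · refine Or.inl ⟨h3, pl_P3 h3, ?_⟩
    unfold Plan.sp sp3
    rw [pl_P3 h3]
  · refine Or.inr (Or.inl ⟨p, hp, h1, ?_, ?_⟩)
    · rw [h1]
      exact pl_nbp hE hc h hp
    · unfold Plan.sp Pack.s1
      rw [h1, pl_nbp hE hc h hp]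
  · refine Or.inr (Or.inr ⟨p, hp, h1, ?_, ?_⟩)
    · rw [h1]
      exact pl_nbm hE hc h hp
    · unfold Plan.sp Pack.s2
      rw [h1, pl_nbm hE hc h hp]

private theorem ppt1_a1 (p : Pack) : p.a1 ∈ p.L := mem_insert_self _ _

private theorem ppt1_a2 (p : Pack) : p.a2 ∈ p.L := mem_insert_of_mem (mem_insert_self _ _)

private theorem ppt1_s1 (p : Pack) : p.s1 E ∈ p.F E := mem_insert_self _ _

private theorem ppt1_s2 (p : Pack) : p.s2 E ∈ p.F E := mem_insert_of_mem (mem_insert_self _ _)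

private theorem ppt1_PP (h : Parts E κ cD cC b m P3 pl3 Bd PR PA R1 X) {v : ℕ} (hv : v ∈ E.PP) :
    (mkPlan E P3 pl3 Bd PR PA R1 X).ed v = ed3 E pl3 v := by
  unfold Env.PP at hv
  rw [mem_filter] at hv
  unfold Plan.ed ed3
  rw [pl_P3 (h.set.Pk_sub hv.1), pl_P3 (h.set.Pk_sub hv.2)]

private theorem ppt1_eq (h : Parts E κ cD cC b m P3 pl3 Bd PR PA R1 X) {p p' : Pack}
    (hp : p ∈ PR ∪ PA) (hp' : p' ∈ PR ∪ PA) {x : ℤ} (hx : x ∈ p.L) (hx' : x ∈ p'.L) : p = p' := by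
  by_contra hne
  exact (disjoint_left.mp (h.fam.dj p hp p' hp' hne).2.1) hx hx'

private theorem ppt1_eqF (h : Parts E κ cD cC b m P3 pl3 Bd PR PA R1 X) {p p' : Pack}
    (hp : p ∈ PR ∪ PA) (hp' : p' ∈ PR ∪ PA) {x : ℤ} (hx : x ∈ p.F E) (hx' : x ∈ p'.F E) :
    p = p' := by
  by_contra hne
  exact (disjoint_left.mp (h.fam.dj p hp p' hp' hne).2.2) hx hx'

private theorem ppt1_L3 (h : Parts E κ cD cC b m P3 pl3 Bd PR PA R1 X) {p : Pack}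
    (hp : p ∈ PR ∪ PA) {v : ℕ} (hv : v ∈ P3) (hx : pl3 v ∈ p.L) : False :=
  (disjoint_left.mp (h.fam.l3 p hp)) hx (mem_image_of_mem _ hv)

private theorem ppt1_D3s (h : Parts E κ cD cC b m P3 pl3 Bd PR PA R1 X) {p : Pack}
    (hp : p ∈ PR ∪ PA) {v : ℕ} (hv : v ∈ P3) (hx : sp3 E pl3 v ∈ p.F E) : False :=
  (disjoint_left.mp (h.fam.d3 p hp)) hx (mem_union_left _ (mem_image_of_mem _ hv))

private theorem ppt1_D3e (h : Parts E κ cD cC b m P3 pl3 Bd PR PA R1 X) {p : Pack}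
    (hp : p ∈ PR ∪ PA) {v : ℕ} (hv : v ∈ E.PP) (hx : ed3 E pl3 v ∈ p.F E) : False :=
  (disjoint_left.mp (h.fam.d3 p hp)) hx (mem_union_right _ (mem_image_of_mem _ hv))

theorem f_P_sub (hE : Base E.n E.k E.q E.S E.B0) {ρ : ℝ}
    (hc : Col E.n E.k E.q ρ E.Bk E.Ck E.Pk)
    (h : Parts E κ cD cC b m P3 pl3 Bd PR PA R1 X) :
    (mkPlan E P3 pl3 Bd PR PA R1 X).P ⊆ E.Pk ∪ E.Bk := by
  intro v hv
  rcases ppt1_cases hE hc h hv with ⟨h3, -⟩ | ⟨p, hp, h1, -⟩ | ⟨p, hp, h1, -⟩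
  · exact h.set.P_sub h3
  · rw [h1]
    exact mem_union_right _ (ppt1_B1 (ppt1_nbp h hp))
  · rw [h1]
    exact mem_union_right _ (ppt1_B1 (ppt1_nbm h hp))

theorem f_Pk_sub (hE : Base E.n E.k E.q E.S E.B0) {ρ : ℝ}
    (hc : Col E.n E.k E.q ρ E.Bk E.Ck E.Pk)
    (h : Parts E κ cD cC b m P3 pl3 Bd PR PA R1 X) :
    E.Pk ⊆ (mkPlan E P3 pl3 Bd PR PA R1 X).P := by
  exact h.set.Pk_sub.trans ppt1_P3

theorem f_B_vs (hE : Base E.n E.k E.q E.S E.B0) {ρ : ℝ}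
    (hc : Col E.n E.k E.q ρ E.Bk E.Ck E.Pk)
    (h : Parts E κ cD cC b m P3 pl3 Bd PR PA R1 X) :
    ∀ v ∈ E.Bk, v ∉ (mkPlan E P3 pl3 Bd PR PA R1 X).P → v ∈ E.B1 := by
  intro v hv hv'
  exact h.set.B_vs v hv (fun h3 => hv' (ppt1_P3 h3))

theorem f_own (hE : Base E.n E.k E.q E.S E.B0) {ρ : ℝ}
    (hc : Col E.n E.k E.q ρ E.Bk E.Ck E.Pk)
    (h : Parts E κ cD cC b m P3 pl3 Bd PR PA R1 X) :
    ∀ v ∈ E.B1, v ∉ (mkPlan E P3 pl3 Bd PR PA R1 X).P → un E.n E.q v ∈ E.Res →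
      E.y0 v ∈ zall E.n ∧ |E.y0 v - anc E.n v| ∈ dall E.n := by
  intro v hv hv' hu
  exact h.set.own v hv (fun h3 => hv' (ppt1_P3 h3)) hu

theorem f_pl_PL (hE : Base E.n E.k E.q E.S E.B0) {ρ : ℝ}
    (hc : Col E.n E.k E.q ρ E.Bk E.Ck E.Pk)
    (h : Parts E κ cD cC b m P3 pl3 Bd PR PA R1 X) :
    ∀ v ∈ (mkPlan E P3 pl3 Bd PR PA R1 X).P, (mkPlan E P3 pl3 Bd PR PA R1 X).pl v ∈ E.PL := by
  intro v hv
  rcases ppt1_cases hE hc h hv with ⟨h3, h1, -⟩ | ⟨p, hp, -, h1, -⟩ | ⟨p, hp, -, h1, -⟩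
  · rw [h1]
    exact (h.lab.pl_PL v h3).1
  · rw [h1]
    exact (h.fam.ok p hp).LPL (ppt1_a1 p)
  · rw [h1]
    exact (h.fam.ok p hp).LPL (ppt1_a2 p)

theorem f_rng (hE : Base E.n E.k E.q E.S E.B0) {ρ : ℝ}
    (hc : Col E.n E.k E.q ρ E.Bk E.Ck E.Pk)
    (h : Parts E κ cD cC b m P3 pl3 Bd PR PA R1 X) :
    ∀ v ∈ (mkPlan E P3 pl3 Bd PR PA R1 X).P, inI E.n (9 / 10) (21 / 10) ((mkPlan E P3 pl3 Bd PR PA R1 X).pl v) := by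
  intro v hv
  rcases ppt1_cases hE hc h hv with ⟨h3, h1, -⟩ | ⟨p, hp, -, h1, -⟩ | ⟨p, hp, -, h1, -⟩
  · rw [h1]
    have h2 := (h.lab.pl_PL v h3).2
    have h0 : (0 : ℝ) ≤ (E.n : ℝ) := Nat.cast_nonneg _
    unfold inI at h2 ⊢
    constructor <;> linarith [h2.1, h2.2]
  · rw [h1]
    exact (h.fam.ok p hp).r1
  · rw [h1]
    exact (h.fam.ok p hp).r2

theorem f_pl_inj (hE : Base E.n E.k E.q E.S E.B0) {ρ : ℝ}
    (hc : Col E.n E.k E.q ρ E.Bk E.Ck E.Pk)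
    (h : Parts E κ cD cC b m P3 pl3 Bd PR PA R1 X) :
    ∀ v ∈ (mkPlan E P3 pl3 Bd PR PA R1 X).P, ∀ v' ∈ (mkPlan E P3 pl3 Bd PR PA R1 X).P,
      (mkPlan E P3 pl3 Bd PR PA R1 X).pl v = (mkPlan E P3 pl3 Bd PR PA R1 X).pl v' → v = v' := by
  intro v hv v' hv' he
  rcases ppt1_cases hE hc h hv with ⟨h3, h1, -⟩ | ⟨p, hp, h2, h1, -⟩ | ⟨p, hp, h2, h1, -⟩ <;>
    rcases ppt1_cases hE hc h hv' with ⟨h3', h1', -⟩ | ⟨p', hp', h2', h1', -⟩ |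
      ⟨p', hp', h2', h1', -⟩ <;> rw [h1, h1'] at he
  · exact h.lab.pl_inj v h3 v' h3' he
  · exact (ppt1_L3 h hp' h3 (he ▸ ppt1_a1 p')).elim
  · exact (ppt1_L3 h hp' h3 (he ▸ ppt1_a2 p')).elim
  · exact (ppt1_L3 h hp h3' (he ▸ ppt1_a1 p)).elim
  · have h5 := ppt1_eq h hp hp' (ppt1_a1 p) (he ▸ ppt1_a1 p')
    rw [h2, h2', h5]
  · have h5 := ppt1_eq h hp hp' (ppt1_a1 p) (he ▸ ppt1_a2 p')
    subst h5
    exact ((h.fam.ok p hp).a12 he).elim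
  · exact (ppt1_L3 h hp h3' (he ▸ ppt1_a2 p)).elim
  · have h5 := ppt1_eq h hp hp' (ppt1_a2 p) (he ▸ ppt1_a1 p')
    subst h5
    exact ((h.fam.ok p hp).a12 he.symm).elim
  · have h5 := ppt1_eq h hp hp' (ppt1_a2 p) (he ▸ ppt1_a2 p')
    rw [h2, h2', h5]

theorem f_sp_PD (hE : Base E.n E.k E.q E.S E.B0) {ρ : ℝ}
    (hc : Col E.n E.k E.q ρ E.Bk E.Ck E.Pk)
    (h : Parts E κ cD cC b m P3 pl3 Bd PR PA R1 X) :
    ∀ v ∈ (mkPlan E P3 pl3 Bd PR PA R1 X).P, (mkPlan E P3 pl3 Bd PR PA R1 X).sp v ∈ E.PD := by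
  intro v hv
  rcases ppt1_cases hE hc h hv with ⟨h3, -, h1⟩ | ⟨p, hp, -, -, h1⟩ | ⟨p, hp, -, -, h1⟩
  · rw [h1]
    exact h.lab.sp_PD v h3
  · rw [h1]
    exact (h.fam.ok p hp).FPD (ppt1_s1 p)
  · rw [h1]
    exact (h.fam.ok p hp).FPD (ppt1_s2 p)

theorem f_sp_inj (hE : Base E.n E.k E.q E.S E.B0) {ρ : ℝ}
    (hc : Col E.n E.k E.q ρ E.Bk E.Ck E.Pk)
    (h : Parts E κ cD cC b m P3 pl3 Bd PR PA R1 X) :
    ∀ v ∈ (mkPlan E P3 pl3 Bd PR PA R1 X).P, ∀ v' ∈ (mkPlan E P3 pl3 Bd PR PA R1 X).P,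
      (mkPlan E P3 pl3 Bd PR PA R1 X).sp v = (mkPlan E P3 pl3 Bd PR PA R1 X).sp v' → v = v' := by
  intro v hv v' hv' he
  rcases ppt1_cases hE hc h hv with ⟨h3, -, h1⟩ | ⟨p, hp, h2, -, h1⟩ | ⟨p, hp, h2, -, h1⟩ <;>
    rcases ppt1_cases hE hc h hv' with ⟨h3', -, h1'⟩ | ⟨p', hp', h2', -, h1'⟩ |
      ⟨p', hp', h2', -, h1'⟩ <;> rw [h1, h1'] at he
  · exact h.lab.sp_inj v h3 v' h3' he
  · exact (ppt1_D3s h hp' h3 (he ▸ ppt1_s1 p')).elim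
  · exact (ppt1_D3s h hp' h3 (he ▸ ppt1_s2 p')).elim
  · exact (ppt1_D3s h hp h3' (he ▸ ppt1_s1 p)).elim
  · have h5 := ppt1_eqF h hp hp' (ppt1_s1 p) (he ▸ ppt1_s1 p')
    rw [h2, h2', h5]
  · have h5 := ppt1_eqF h hp hp' (ppt1_s1 p) (he ▸ ppt1_s2 p')
    subst h5
    exact ((h.fam.ok p hp).s12 he).elim
  · exact (ppt1_D3s h hp h3' (he ▸ ppt1_s2 p)).elim
  · have h5 := ppt1_eqF h hp hp' (ppt1_s2 p) (he ▸ ppt1_s1 p')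
    subst h5
    exact ((h.fam.ok p hp).s12 he.symm).elim
  · have h5 := ppt1_eqF h hp hp' (ppt1_s2 p) (he ▸ ppt1_s2 p')
    rw [h2, h2', h5]

theorem f_ed_PD (hE : Base E.n E.k E.q E.S E.B0) {ρ : ℝ}
    (hc : Col E.n E.k E.q ρ E.Bk E.Ck E.Pk)
    (h : Parts E κ cD cC b m P3 pl3 Bd PR PA R1 X) :
    ∀ v ∈ E.PP, (mkPlan E P3 pl3 Bd PR PA R1 X).ed v ∈ E.PD := by
  intro v hv
  rw [ppt1_PP h hv]
  exact h.lab.ed_PD v hv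

theorem f_ed_inj (hE : Base E.n E.k E.q E.S E.B0) {ρ : ℝ}
    (hc : Col E.n E.k E.q ρ E.Bk E.Ck E.Pk)
    (h : Parts E κ cD cC b m P3 pl3 Bd PR PA R1 X) :
    ∀ v ∈ E.PP, ∀ v' ∈ E.PP, (mkPlan E P3 pl3 Bd PR PA R1 X).ed v = (mkPlan E P3 pl3 Bd PR PA R1 X).ed v' → v = v' := by
  intro v hv v' hv' he
  rw [ppt1_PP h hv, ppt1_PP h hv'] at he
  exact h.lab.ed_inj v hv v' hv' he

theorem f_sp_ed (hE : Base E.n E.k E.q E.S E.B0) {ρ : ℝ}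
    (hc : Col E.n E.k E.q ρ E.Bk E.Ck E.Pk)
    (h : Parts E κ cD cC b m P3 pl3 Bd PR PA R1 X) :
    ∀ v ∈ (mkPlan E P3 pl3 Bd PR PA R1 X).P, ∀ v' ∈ E.PP, (mkPlan E P3 pl3 Bd PR PA R1 X).sp v ≠ (mkPlan E P3 pl3 Bd PR PA R1 X).ed v' := by
  intro v hv v' hv' he
  rw [ppt1_PP h hv'] at he
  rcases ppt1_cases hE hc h hv with ⟨h3, -, h1⟩ | ⟨p, hp, -, -, h1⟩ | ⟨p, hp, -, -, h1⟩ <;>
    rw [h1] at he
  · exact h.lab.sp_ed v h3 v' hv' he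
  · exact ppt1_D3e h hp hv' (he ▸ ppt1_s1 p)
  · exact ppt1_D3e h hp hv' (he ▸ ppt1_s2 p)

end Pool.Agent.PGr.PPk
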