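import Mathlib
import Pool.Agent.PGr.PPtB

/-!
# PGr-P-Pt2: the plan: labels and differences of the absorber, the items

PLAN. `Pn.Lb = pJJ PA`, `Pn.G = pGG PA ∪ X`, `Pn.CR, Pn.Ab` = centres of `PR`, `PA`, `Pn.Ed = EdF`. Use
`planted_cases`, `pl_P3`, `pl_nbp`, `pl_nbm`, `centre_facts` (PPtB). `J ⊆ L ⊆ PL`, `G ⊆ F ⊆ PD`.
`f_Lb_pl`: `pl3 v ∈ L3` is disjoint from `L`; a label `a1` of another pack is in its `L`; of the same pack:
`a1J, a2J`. `f_G_sp`: the same with `F`, `s1G, s2G`; against `X ⊆ AA`: `PD_AA` and `Pn.sp v ∈ PD` (for `P3` by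
`P3Lab`, for packs by `FPD`). `f_G_ed`: `ed3 v ∈ D3`, `∈ PD`. `f_G_R1`: `PD_AA` and `Parts.XR`.
Items: centres are in `Ck` (`pureItem`), `EdF` is a filter of `Ck`; `f_CR_Ed`, `f_Ed_Ab`: a centre `p.m` has no
neighbour in `P3` and is not `w1 p'.m`, `w2 p'.m` (`centre_facts`); `f_CR_Ab`: `p.m = p'.m` implies `p = p'`, and
`PR, PA` are disjoint.
-/

noncomputable section

namespace Pool.Agent.PGr.PPk

open Finset

variable {E : Env} {κ cD cC : ℝ} {b m : ℕ} {P3 : Finset ℕ} {pl3 : ℕ → ℤ}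
    {Bd : Finset (ZMod (E.q ^ 2))} {PR PA : Finset Pack} {R1 X : Finset ℤ}

private theorem J_L (p : Pack) {x : ℤ} (hx : x ∈ p.J) : x ∈ p.L :=
  mem_insert_of_mem (mem_insert_of_mem hx)

private theorem a1_L (p : Pack) : p.a1 ∈ p.L := mem_insert_self _ _

private theorem a2_L (p : Pack) : p.a2 ∈ p.L := mem_insert_of_mem (mem_insert_self _ _)

private theorem G_F (E : Env) (p : Pack) {x : ℤ} (hx : x ∈ p.G) : x ∈ p.F E :=
  mem_insert_of_mem (mem_insert_of_mem hx)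

private theorem s1_F (E : Env) (p : Pack) : p.s1 E ∈ p.F E := mem_insert_self _ _

private theorem s2_F (E : Env) (p : Pack) : p.s2 E ∈ p.F E :=
  mem_insert_of_mem (mem_insert_self _ _)

private theorem pGG_PD (h : Parts E κ cD cC b m P3 pl3 Bd PR PA R1 X) {x : ℤ}
    (hx : x ∈ pGG PA) : x ∈ E.PD := by
  obtain ⟨p, hp, hxp⟩ := mem_biUnion.mp hx
  exact (h.fam.ok p (mem_union_right _ hp)).FPD (G_F E p hxp)

private theorem sp_info (hE : Base E.n E.k E.q E.S E.B0) {ρ : ℝ}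
    (hc : Col E.n E.k E.q ρ E.Bk E.Ck E.Pk)
    (h : Parts E κ cD cC b m P3 pl3 Bd PR PA R1 X) {v : ℕ}
    (hv : v ∈ (mkPlan E P3 pl3 Bd PR PA R1 X).P) :
    (mkPlan E P3 pl3 Bd PR PA R1 X).sp v ∈ E.PD ∧
      (mkPlan E P3 pl3 Bd PR PA R1 X).sp v ∉ pGG PA := by
  rcases planted_cases hv with h3 | ⟨p', hp', h1 | h1⟩
  · have e : (mkPlan E P3 pl3 Bd PR PA R1 X).sp v = sp3 E pl3 v := by
      unfold Plan.sp sp3
      rw [pl_P3 h3]
    rw [e]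
    refine ⟨h.lab.sp_PD v h3, ?_⟩
    intro hx
    obtain ⟨p, hp, hxp⟩ := mem_biUnion.mp hx
    exact disjoint_left.mp (h.fam.d3 p (mem_union_right _ hp)) (G_F E p hxp)
      (mem_union_left _ (mem_image_of_mem _ h3))
  · have e : (mkPlan E P3 pl3 Bd PR PA R1 X).sp v = p'.s1 E := by
      unfold Plan.sp Pack.s1
      rw [h1, pl_nbp hE hc h hp']
    rw [e]
    refine ⟨(h.fam.ok p' hp').FPD (s1_F E p'), ?_⟩
    intro hx
    obtain ⟨p, hp, hxp⟩ := mem_biUnion.mp hx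
    by_cases e2 : p = p'
    · subst e2
      exact (h.fam.ok p hp').s1G hxp
    · exact disjoint_left.mp (h.fam.dj p (mem_union_right _ hp) p' hp' e2).2.2 (G_F E p hxp)
        (s1_F E p')
  · have e : (mkPlan E P3 pl3 Bd PR PA R1 X).sp v = p'.s2 E := by
      unfold Plan.sp Pack.s2
      rw [h1, pl_nbm hE hc h hp']
    rw [e]
    refine ⟨(h.fam.ok p' hp').FPD (s2_F E p'), ?_⟩
    intro hx
    obtain ⟨p, hp, hxp⟩ := mem_biUnion.mp hx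
    by_cases e2 : p = p'
    · subst e2
      exact (h.fam.ok p hp').s2G hxp
    · exact disjoint_left.mp (h.fam.dj p (mem_union_right _ hp) p' hp' e2).2.2 (G_F E p hxp)
        (s2_F E p')

private theorem Ed_no (hE : Base E.n E.k E.q E.S E.B0) {ρ : ℝ}
    (hc : Col E.n E.k E.q ρ E.Bk E.Ck E.Pk)
    (h : Parts E κ cD cC b m P3 pl3 Bd PR PA R1 X) {p : Pack} (hp : p ∈ PR ∪ PA) :
    p.m ∉ (mkPlan E P3 pl3 Bd PR PA R1 X).Ed := by
  classical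
  intro hi
  have hi' : p.m ∈ EdF E P3 PR := hi
  unfold EdF at hi'
  obtain ⟨_, h1 | h1 | ⟨p', hp', h1⟩⟩ := mem_filter.mp hi'
  · exact (centre_facts hE hc h hp hp).2.2.2.2.2.2.2.1 h1
  · exact (centre_facts hE hc h hp hp).2.2.2.2.2.2.2.2 h1
  · have hf := centre_facts hE hc h hp (mem_union_left PA hp')
    rcases h1 with h1 | h1
    · exact hf.2.1 h1
    · exact hf.2.2.1 h1

private theorem nb_P {p : Pack} (hp : p ∈ PR ∪ PA) :
    nbp E.n E.k p.m ∈ (mkPlan E P3 pl3 Bd PR PA R1 X).P ∧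
      nbm E.n E.k p.m ∈ (mkPlan E P3 pl3 Bd PR PA R1 X).P := by
  constructor
  · exact mem_union_left _ (mem_union_right _ (mem_image_of_mem (fun p => nbp E.n E.k p.m) hp))
  · exact mem_union_right _ (mem_image_of_mem (fun p => nbm E.n E.k p.m) hp)

theorem f_Lb_PL (hE : Base E.n E.k E.q E.S E.B0) {ρ : ℝ}
    (hc : Col E.n E.k E.q ρ E.Bk E.Ck E.Pk)
    (h : Parts E κ cD cC b m P3 pl3 Bd PR PA R1 X) :
    (mkPlan E P3 pl3 Bd PR PA R1 X).Lb ⊆ E.PL := by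
  intro x hx
  obtain ⟨p, hp, hxp⟩ := mem_biUnion.mp (show x ∈ pJJ PA from hx)
  exact (h.fam.ok p (mem_union_right _ hp)).LPL (J_L p hxp)

theorem f_Lb_pl (hE : Base E.n E.k E.q E.S E.B0) {ρ : ℝ}
    (hc : Col E.n E.k E.q ρ E.Bk E.Ck E.Pk)
    (h : Parts E κ cD cC b m P3 pl3 Bd PR PA R1 X) :
    ∀ v ∈ (mkPlan E P3 pl3 Bd PR PA R1 X).P, (mkPlan E P3 pl3 Bd PR PA R1 X).pl v ∉ (mkPlan E P3 pl3 Bd PR PA R1 X).Lb := by
  intro v hv hx
  obtain ⟨p, hp, hxp⟩ := mem_biUnion.mp (show _ ∈ pJJ PA from hx)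
  have hp1 : p ∈ PR ∪ PA := mem_union_right _ hp
  rcases planted_cases hv with h3 | ⟨p', hp', h1 | h1⟩
  · rw [pl_P3 h3] at hxp
    exact disjoint_left.mp (h.fam.l3 p hp1) (J_L p hxp) (mem_image_of_mem _ h3)
  · rw [h1, pl_nbp hE hc h hp'] at hxp
    by_cases e : p = p'
    · subst e
      exact (h.fam.ok p hp1).a1J hxp
    · exact disjoint_left.mp (h.fam.dj p hp1 p' hp' e).2.1 (J_L p hxp) (a1_L p')
  · rw [h1, pl_nbm hE hc h hp'] at hxp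
    by_cases e : p = p'
    · subst e
      exact (h.fam.ok p hp1).a2J hxp
    · exact disjoint_left.mp (h.fam.dj p hp1 p' hp' e).2.1 (J_L p hxp) (a2_L p')

theorem f_G_sub (hE : Base E.n E.k E.q E.S E.B0) {ρ : ℝ}
    (hc : Col E.n E.k E.q ρ E.Bk E.Ck E.Pk)
    (h : Parts E κ cD cC b m P3 pl3 Bd PR PA R1 X) :
    (mkPlan E P3 pl3 Bd PR PA R1 X).G ⊆ E.PD ∪ E.AA := by
  intro x hx
  rcases mem_union.mp (show x ∈ pGG PA ∪ X from hx) with h1 | h1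
  · exact mem_union_left _ (pGG_PD h h1)
  · exact mem_union_right _ (h.X_sub h1)

theorem f_G_sp (hE : Base E.n E.k E.q E.S E.B0) {ρ : ℝ}
    (hc : Col E.n E.k E.q ρ E.Bk E.Ck E.Pk)
    (h : Parts E κ cD cC b m P3 pl3 Bd PR PA R1 X) :
    ∀ v ∈ (mkPlan E P3 pl3 Bd PR PA R1 X).P, (mkPlan E P3 pl3 Bd PR PA R1 X).sp v ∉ (mkPlan E P3 pl3 Bd PR PA R1 X).G := by
  intro v hv hx
  obtain ⟨hPD, hno⟩ := sp_info hE hc h hv
  rcases mem_union.mp (show _ ∈ pGG PA ∪ X from hx) with h1 | h1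
  · exact hno h1
  · exact disjoint_left.mp (PD_AA E) hPD (h.X_sub h1)

theorem f_G_ed (hE : Base E.n E.k E.q E.S E.B0) {ρ : ℝ}
    (hc : Col E.n E.k E.q ρ E.Bk E.Ck E.Pk)
    (h : Parts E κ cD cC b m P3 pl3 Bd PR PA R1 X) :
    ∀ v ∈ E.PP, (mkPlan E P3 pl3 Bd PR PA R1 X).ed v ∉ (mkPlan E P3 pl3 Bd PR PA R1 X).G := by
  intro v hv hx
  have hPP := mem_filter.mp (show v ∈ E.Pk.filter (fun v => nbp E.n E.k v ∈ E.Pk) from hv)
  have e : (mkPlan E P3 pl3 Bd PR PA R1 X).ed v = ed3 E pl3 v := by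
    unfold Plan.ed ed3
    rw [pl_P3 (h.set.Pk_sub hPP.1), pl_P3 (h.set.Pk_sub hPP.2)]
  rw [e] at hx
  rcases mem_union.mp (show _ ∈ pGG PA ∪ X from hx) with h1 | h1
  · obtain ⟨p, hp, hxp⟩ := mem_biUnion.mp h1
    exact disjoint_left.mp (h.fam.d3 p (mem_union_right _ hp)) (G_F E p hxp)
      (mem_union_right _ (mem_image_of_mem _ hv))
  · exact disjoint_left.mp (PD_AA E) (h.lab.ed_PD v hv) (h.X_sub h1)

theorem f_G_R1 (hE : Base E.n E.k E.q E.S E.B0) {ρ : ℝ}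
    (hc : Col E.n E.k E.q ρ E.Bk E.Ck E.Pk)
    (h : Parts E κ cD cC b m P3 pl3 Bd PR PA R1 X) :
    Disjoint (mkPlan E P3 pl3 Bd PR PA R1 X).G (mkPlan E P3 pl3 Bd PR PA R1 X).R1 := by
  rw [disjoint_left]
  intro x hx hx1
  rcases mem_union.mp (show x ∈ pGG PA ∪ X from hx) with h1 | h1
  · exact disjoint_left.mp (PD_AA E) (pGG_PD h h1) (h.R1_sub hx1)
  · exact disjoint_left.mp h.XR h1 hx1

theorem f_CR_sub (hE : Base E.n E.k E.q E.S E.B0) {ρ : ℝ}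
    (hc : Col E.n E.k E.q ρ E.Bk E.Ck E.Pk)
    (h : Parts E κ cD cC b m P3 pl3 Bd PR PA R1 X) :
    (mkPlan E P3 pl3 Bd PR PA R1 X).CR ⊆ E.Ck := by
  intro i hi
  obtain ⟨p, hp, rfl⟩ := mem_image.mp (show i ∈ PR.image (fun p => p.m) from hi)
  exact (h.fam.ok p (mem_union_left _ hp)).item.1

theorem f_Ed_sub (hE : Base E.n E.k E.q E.S E.B0) {ρ : ℝ}
    (hc : Col E.n E.k E.q ρ E.Bk E.Ck E.Pk)
    (h : Parts E κ cD cC b m P3 pl3 Bd PR PA R1 X) :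
    (mkPlan E P3 pl3 Bd PR PA R1 X).Ed ⊆ E.Ck := by
  exact filter_subset _ _

theorem f_Ab_sub (hE : Base E.n E.k E.q E.S E.B0) {ρ : ℝ}
    (hc : Col E.n E.k E.q ρ E.Bk E.Ck E.Pk)
    (h : Parts E κ cD cC b m P3 pl3 Bd PR PA R1 X) :
    (mkPlan E P3 pl3 Bd PR PA R1 X).Ab ⊆ E.Ck := by
  intro i hi
  obtain ⟨p, hp, rfl⟩ := mem_image.mp (show i ∈ PA.image (fun p => p.m) from hi)
  exact (h.fam.ok p (mem_union_right _ hp)).item.1

theorem f_CR_Ed (hE : Base E.n E.k E.q E.S E.B0) {ρ : ℝ}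
    (hc : Col E.n E.k E.q ρ E.Bk E.Ck E.Pk)
    (h : Parts E κ cD cC b m P3 pl3 Bd PR PA R1 X) :
    Disjoint (mkPlan E P3 pl3 Bd PR PA R1 X).CR (mkPlan E P3 pl3 Bd PR PA R1 X).Ed := by
  rw [disjoint_left]
  intro i hi hi2
  obtain ⟨p, hp, rfl⟩ := mem_image.mp (show i ∈ PR.image (fun p => p.m) from hi)
  exact Ed_no hE hc h (mem_union_left _ hp) hi2

theorem f_CR_Ab (hE : Base E.n E.k E.q E.S E.B0) {ρ : ℝ}
    (hc : Col E.n E.k E.q ρ E.Bk E.Ck E.Pk)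
    (h : Parts E κ cD cC b m P3 pl3 Bd PR PA R1 X) :
    Disjoint (mkPlan E P3 pl3 Bd PR PA R1 X).CR (mkPlan E P3 pl3 Bd PR PA R1 X).Ab := by
  rw [disjoint_left]
  intro i hi hi2
  obtain ⟨p, hp, rfl⟩ := mem_image.mp (show i ∈ PR.image (fun p => p.m) from hi)
  obtain ⟨p', hp', e⟩ := mem_image.mp (show p.m ∈ PA.image (fun p => p.m) from hi2)
  have h1 := (centre_facts hE hc h (mem_union_right PR hp') (mem_union_left PA hp)).1 e
  rw [h1] at hp'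
  exact disjoint_left.mp h.dj hp hp'

theorem f_Ed_Ab (hE : Base E.n E.k E.q E.S E.B0) {ρ : ℝ}
    (hc : Col E.n E.k E.q ρ E.Bk E.Ck E.Pk)
    (h : Parts E κ cD cC b m P3 pl3 Bd PR PA R1 X) :
    Disjoint (mkPlan E P3 pl3 Bd PR PA R1 X).Ed (mkPlan E P3 pl3 Bd PR PA R1 X).Ab := by
  rw [disjoint_left]
  intro i hi hi2
  obtain ⟨p, hp, rfl⟩ := mem_image.mp (show i ∈ PA.image (fun p => p.m) from hi2)
  exact Ed_no hE hc h (mem_union_right _ hp) hi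

theorem f_CR_nb (hE : Base E.n E.k E.q E.S E.B0) {ρ : ℝ}
    (hc : Col E.n E.k E.q ρ E.Bk E.Ck E.Pk)
    (h : Parts E κ cD cC b m P3 pl3 Bd PR PA R1 X) :
    ∀ i ∈ (mkPlan E P3 pl3 Bd PR PA R1 X).CR, nbp E.n E.k i ∈ (mkPlan E P3 pl3 Bd PR PA R1 X).P ∧
      nbm E.n E.k i ∈ (mkPlan E P3 pl3 Bd PR PA R1 X).P := by
  intro i hi
  obtain ⟨p, hp, rfl⟩ := mem_image.mp (show i ∈ PR.image (fun p => p.m) from hi)
  exact nb_P (mem_union_left _ hp)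

theorem f_Ab_nb (hE : Base E.n E.k E.q E.S E.B0) {ρ : ℝ}
    (hc : Col E.n E.k E.q ρ E.Bk E.Ck E.Pk)
    (h : Parts E κ cD cC b m P3 pl3 Bd PR PA R1 X) :
    ∀ i ∈ (mkPlan E P3 pl3 Bd PR PA R1 X).Ab, nbp E.n E.k i ∈ (mkPlan E P3 pl3 Bd PR PA R1 X).P ∧
      nbm E.n E.k i ∈ (mkPlan E P3 pl3 Bd PR PA R1 X).P := by
  intro i hi
  obtain ⟨p, hp, rfl⟩ := mem_image.mp (show i ∈ PA.image (fun p => p.m) from hi)
  exact nb_P (mem_union_right _ hp)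

end Pool.Agent.PGr.PPk
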