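import Mathlib
import Pool.Agent.PGr.PPtB

/-!
# PGr-P-Pt3: the plan: generic items, ranges of the labels of the neighbours

PLAN. `i ∈ Ck`, `i ∉ Ab`. `item_cases` (PPtB): either all planted neighbours of `i` lie in `P3`: then the class
`Pn.cl` of both neighbours is `clw E P3 pl3` (a neighbour not in `P3` is not planted), `P3Lab.gen`; ranges:
`[1.1, 1.9] ⊆ [.9, 2]`. Or `i = p.m`: then `p ∈ PR` (otherwise `i ∈ Ab`), `cvok` gives `red3` for `a1, a2`
(`pl_nbp`, `pl_nbm`: `Pn.cl (nbp p.m)` is the class of `a1`), ranges: `r12`. Or `i = w1 p.m`: `g1` with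
`pcl_eq` (`nbp (w1 m), nbm (w1 m) = nbp m` are in the ball; `pcl E p (nbp m)` is the class of `a1`); `i = w2 p.m`:
`g2` (`nbp (w2 m) = nbm m`). Ranges for `i = w1 p.m`: the planted neighbours of `i`: `nbm i = nbp p.m` has
label `a1`; the other neighbour `nbp (w1 m)` is either not planted, or equal to `nbm m` (then the label is `a2`,
use `r12`); if it is not planted: `a1 ≤ 2n` gives the first alternative, otherwise the second one (`r1`).
(`pcl_eq` for the vertex `nbp (w1 m)`: planted implies equal to `nbp m` or `nbm m`: by `planted_cases` and the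
disjoint balls; `nbp (w1 m) = nbp m` would give `nbp (nbp m) = m`, excluded by `nbp_ne_nbm`.)
-/

noncomputable section

namespace Pool.Agent.PGr.PPk

open Finset

variable {E : Env} {κ cD cC : ℝ} {b m : ℕ} {P3 : Finset ℕ} {pl3 : ℕ → ℤ}
    {Bd : Finset (ZMod (E.q ^ 2))} {PR PA : Finset Pack} {R1 X : Finset ℤ}

private theorem ball_planted (h : Parts E κ cD cC b m P3 pl3 Bd PR PA R1 X) {p : Pack}
    (hp : p ∈ PR ∪ PA) {v : ℕ} (hv : v ∈ ball E p.m)
    (hv' : v ∈ (mkPlan E P3 pl3 Bd PR PA R1 X).P) :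
    v = nbp E.n E.k p.m ∨ v = nbm E.n E.k p.m := by
  rcases planted_cases hv' with h3 | ⟨p', hp', h'⟩
  · exact absurd h3 (Finset.disjoint_left.mp (h.fam.ok p hp).fresh hv)
  · by_cases e : p = p'
    · subst e
      exact h'
    · exfalso
      refine Finset.disjoint_left.mp (h.fam.dj p hp p' hp' e).1 hv ?_
      rcases h' with h' | h' <;> rw [h'] <;> simp [ball]

private theorem cl_P3 {v : ℕ} (hv : v ∈ (mkPlan E P3 pl3 Bd PR PA R1 X).P → v ∈ P3) :
    (mkPlan E P3 pl3 Bd PR PA R1 X).cl v = clw E P3 pl3 v := by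
  unfold Plan.cl clw
  by_cases h3 : v ∈ P3
  · have hP : v ∈ (mkPlan E P3 pl3 Bd PR PA R1 X).P := by
      show v ∈ P3 ∪ _ ∪ _
      rw [mem_union, mem_union]
      exact Or.inl (Or.inl h3)
    rw [if_pos h3, if_pos hP, pl_P3 h3]
  · rw [if_neg h3, if_neg (fun hP => h3 (hv hP))]

private theorem pm_lt (hE : Base E.n E.k E.q E.S E.B0) {ρ : ℝ}
    (hc : Col E.n E.k E.q ρ E.Bk E.Ck E.Pk)
    (h : Parts E κ cD cC b m P3 pl3 Bd PR PA R1 X) {p : Pack} (hp : p ∈ PR ∪ PA) :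
    p.m < E.n := (pure_facts E hE hc (h.fam.ok p hp).item).1

private theorem cl_nbp (hE : Base E.n E.k E.q E.S E.B0) {ρ : ℝ}
    (hc : Col E.n E.k E.q ρ E.Bk E.Ck E.Pk)
    (h : Parts E κ cD cC b m P3 pl3 Bd PR PA R1 X) {p : Pack} (hp : p ∈ PR ∪ PA) :
    (mkPlan E P3 pl3 Bd PR PA R1 X).cl (nbp E.n E.k p.m) = ((p.a1 : ℤ) : ZMod (E.q ^ 2)) := by
  rw [pcl_eq hE hc h hp (by simp [ball])]
  unfold pcl
  rw [if_pos rfl]

private theorem cl_nbm (hE : Base E.n E.k E.q E.S E.B0) {ρ : ℝ}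
    (hc : Col E.n E.k E.q ρ E.Bk E.Ck E.Pk)
    (h : Parts E κ cD cC b m P3 pl3 Bd PR PA R1 X) {p : Pack} (hp : p ∈ PR ∪ PA) :
    (mkPlan E P3 pl3 Bd PR PA R1 X).cl (nbm E.n E.k p.m) = ((p.a2 : ℤ) : ZMod (E.q ^ 2)) := by
  rw [pcl_eq hE hc h hp (by simp [ball])]
  unfold pcl
  rw [if_neg (nbp_ne_nbm hE.k_pos hE.k_lt (pm_lt hE hc h hp)).symm, if_pos rfl]

private theorem not_PA {i : ℕ} {p : Pack} (hp : p ∈ PR ∪ PA)
    (hi : i ∉ (mkPlan E P3 pl3 Bd PR PA R1 X).Ab) (hip : i = p.m) : p ∈ PR := by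
  rcases mem_union.mp hp with hR | hA
  · exact hR
  · exfalso
    apply hi
    show i ∈ PA.image (fun p => p.m)
    exact mem_image.mpr ⟨p, hA, hip.symm⟩

theorem f_gen (hE : Base E.n E.k E.q E.S E.B0) {ρ : ℝ}
    (hc : Col E.n E.k E.q ρ E.Bk E.Ck E.Pk)
    (h : Parts E κ cD cC b m P3 pl3 Bd PR PA R1 X) :
    ∀ i ∈ E.Ck, i ∉ (mkPlan E P3 pl3 Bd PR PA R1 X).Ab →
      red3 E.q ((anc E.n i : ℤ) : ZMod (E.q ^ 2)) ((mkPlan E P3 pl3 Bd PR PA R1 X).cl (nbp E.n E.k i))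
        ((mkPlan E P3 pl3 Bd PR PA R1 X).cl (nbm E.n E.k i)) := by
  intro i hi hiA
  have hk := hE.k_pos
  have hn := hE.k_lt
  rcases item_cases hE hc h hi with hA | ⟨p, hp, hB | ⟨hB | hB, -, -⟩⟩
  · rw [cl_P3 (hA _ (Or.inl rfl)), cl_P3 (hA _ (Or.inr rfl))]
    exact h.lab.gen i hi
  · have hR := not_PA hp hiA hB
    subst hB
    rw [cl_nbp hE hc h hp, cl_nbm hE hc h hp]
    exact (h.cvok p hR).2.2
  · subst hB
    have e1 : nbm E.n E.k (w1 E p.m) = nbp E.n E.k p.m := by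
      unfold w1
      exact nbm_nbp hk hn (nbp_lt hn _)
    rw [e1, cl_nbp hE hc h hp, pcl_eq hE hc h hp (by simp [ball, w1])]
    exact (h.fam.ok p hp).g1
  · subst hB
    have e1 : nbp E.n E.k (w2 E p.m) = nbm E.n E.k p.m := by
      unfold w2
      exact nbp_nbm hk hn (nbm_lt hn _)
    rw [e1, cl_nbm hE hc h hp, pcl_eq hE hc h hp (by simp [ball, w2])]
    exact (h.fam.ok p hp).g2

theorem f_rng2 (hE : Base E.n E.k E.q E.S E.B0) {ρ : ℝ}
    (hc : Col E.n E.k E.q ρ E.Bk E.Ck E.Pk)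
    (h : Parts E κ cD cC b m P3 pl3 Bd PR PA R1 X) :
    ∀ i ∈ E.Ck, i ∉ (mkPlan E P3 pl3 Bd PR PA R1 X).Ab →
      (∀ v, (v = nbp E.n E.k i ∨ v = nbm E.n E.k i) → v ∈ (mkPlan E P3 pl3 Bd PR PA R1 X).P →
        inI E.n (9 / 10) 2 ((mkPlan E P3 pl3 Bd PR PA R1 X).pl v)) ∨
      (∀ v, (v = nbp E.n E.k i ∨ v = nbm E.n E.k i) → v ∈ (mkPlan E P3 pl3 Bd PR PA R1 X).P →
        inI E.n 1 (21 / 10) ((mkPlan E P3 pl3 Bd PR PA R1 X).pl v)) := by
  intro i hi hiA
  have hk := hE.k_pos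
  have hn := hE.k_lt
  have hn0 : (0 : ℝ) ≤ (E.n : ℝ) := Nat.cast_nonneg _
  rcases item_cases hE hc h hi with hA | ⟨p, hp, hB | ⟨hB, -, -⟩⟩
  · left
    intro v hv hvP
    have h3 := hA v hv hvP
    rw [pl_P3 h3]
    obtain ⟨u1, u2⟩ := (h.lab.pl_PL v h3).2
    constructor
    · nlinarith
    · nlinarith
  · subst hB
    rcases (h.fam.ok p hp).r12 with hr | hr
    · left
      rintro v (hv | hv) -
      · rw [hv, pl_nbp hE hc h hp]
        exact hr.1
      · rw [hv, pl_nbm hE hc h hp]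
        exact hr.2
    · right
      rintro v (hv | hv) -
      · rw [hv, pl_nbp hE hc h hp]
        exact hr.1
      · rw [hv, pl_nbm hE hc h hp]
        exact hr.2
  · -- the neighbours of `w1 p.m`, `w2 p.m` lie in the ball of `p.m`
    have hball : ∀ v, (v = nbp E.n E.k i ∨ v = nbm E.n E.k i) → v ∈ ball E p.m := by
      rcases hB with hB | hB
      · subst hB
        have e1 : nbm E.n E.k (w1 E p.m) = nbp E.n E.k p.m := by
          unfold w1
          exact nbm_nbp hk hn (nbp_lt hn _)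
        rintro v (hv | hv)
        · rw [hv]
          simp [ball, w1]
        · rw [hv, e1]
          simp [ball]
      · subst hB
        have e1 : nbp E.n E.k (w2 E p.m) = nbm E.n E.k p.m := by
          unfold w2
          exact nbp_nbm hk hn (nbm_lt hn _)
        rintro v (hv | hv)
        · rw [hv, e1]
          simp [ball]
        · rw [hv]
          simp [ball, w2]
    rcases (h.fam.ok p hp).r12 with hr | hr
    · left
      intro v hv hvP
      rcases ball_planted h hp (hball v hv) hvP with h1 | h1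
      · rw [h1, pl_nbp hE hc h hp]
        exact hr.1
      · rw [h1, pl_nbm hE hc h hp]
        exact hr.2
    · right
      intro v hv hvP
      rcases ball_planted h hp (hball v hv) hvP with h1 | h1
      · rw [h1, pl_nbp hE hc h hp]
        exact hr.1
      · rw [h1, pl_nbm hE hc h hp]
        exact hr.2

end Pool.Agent.PGr.PPk
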