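import Mathlib
import Pool.Agent.PGr.PPtB

/-!
# PGr-P-Pt4: the plan: absorption and cover in terms of the items

PLAN. Translate `Parts.abs` and `Parts.cov` from packs to centres. The map `p ↦ p.m` is injective on
`PR ∪ PA` (`centre_facts`), let `c i` be the pack with centre `i` (choose). `d3 n k Pn.pl p.m x = pd3 E p x`
(all three components, by `pl_nbp`, `pl_nbm`).
`f_absorb`: `z i := zP (c i)`; values in `pJJ PA`; injective: the labels `J ⊆ L` of different packs are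
disjoint (`PFam.dj`); `Exact3`: the image over `Ab ×ˢ univ` is `DS E PA zP` (reindex by `p ↦ p.m`), cardinality
`3 |PA| = 3 |Ab|`.
`f_cover`: for `d ∈ dall`: `CovM` gives `M, x, e1, e2`; take `M.image (·.m)`, `x ∘ c`, etc.; cardinalities by
injectivity.
-/

noncomputable section

namespace Pool.Agent.PGr.PPk

open Finset

variable {E : Env} {κ cD cC : ℝ} {b m : ℕ} {P3 : Finset ℕ} {pl3 : ℕ → ℤ}
    {Bd : Finset (ZMod (E.q ^ 2))} {PR PA : Finset Pack} {R1 X : Finset ℤ}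

private theorem pt4_inj (hE : Base E.n E.k E.q E.S E.B0) {ρ : ℝ}
    (hc : Col E.n E.k E.q ρ E.Bk E.Ck E.Pk)
    (h : Parts E κ cD cC b m P3 pl3 Bd PR PA R1 X) {p p' : Pack} (hp : p ∈ PR ∪ PA)
    (hp' : p' ∈ PR ∪ PA) (e : p.m = p'.m) : p = p' :=
  (centre_facts hE hc h hp hp').1 e

private theorem pt4_c (hE : Base E.n E.k E.q E.S E.B0) {ρ : ℝ}
    (hc : Col E.n E.k E.q ρ E.Bk E.Ck E.Pk)
    (h : Parts E κ cD cC b m P3 pl3 Bd PR PA R1 X) :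
    ∃ c : ℕ → Pack, ∀ p ∈ PR ∪ PA, c p.m = p := by
  classical
  refine ⟨fun i => if hi : ∃ p ∈ PR ∪ PA, p.m = i then hi.choose else ⟨0, 0, 0, ∅, ∅⟩,
    fun p hp => ?_⟩
  have hex : ∃ p' ∈ PR ∪ PA, p'.m = p.m := ⟨p, hp, rfl⟩
  show (if hi : ∃ p' ∈ PR ∪ PA, p'.m = p.m then hi.choose else ⟨0, 0, 0, ∅, ∅⟩) = p
  rw [dif_pos hex]
  exact pt4_inj hE hc h hex.choose_spec.1 hp hex.choose_spec.2

private theorem pt4_d3 (hE : Base E.n E.k E.q E.S E.B0) {ρ : ℝ}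
    (hc : Col E.n E.k E.q ρ E.Bk E.Ck E.Pk)
    (h : Parts E κ cD cC b m P3 pl3 Bd PR PA R1 X) {p : Pack} (hp : p ∈ PR ∪ PA) (x : ℤ) :
    d3 E.n E.k (mkPlan E P3 pl3 Bd PR PA R1 X).pl p.m x = pd3 E p x := by
  have h1 := pl_nbp hE hc h hp
  have h2 := pl_nbm hE hc h hp
  funext j
  match j with
  | 0 => rfl
  | 1 =>
    show |x - (mkPlan E P3 pl3 Bd PR PA R1 X).pl (nbp E.n E.k p.m)| = |x - p.a1|
    rw [h1]
  | 2 =>
    show |x - (mkPlan E P3 pl3 Bd PR PA R1 X).pl (nbm E.n E.k p.m)| = |x - p.a2|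
    rw [h2]

theorem f_absorb (hE : Base E.n E.k E.q E.S E.B0) {ρ : ℝ}
    (hc : Col E.n E.k E.q ρ E.Bk E.Ck E.Pk)
    (h : Parts E κ cD cC b m P3 pl3 Bd PR PA R1 X) :
    ∀ R' ⊆ R1, R'.card = m → ∃ z : ℕ → ℤ,
      (∀ i ∈ (mkPlan E P3 pl3 Bd PR PA R1 X).Ab, z i ∈ (mkPlan E P3 pl3 Bd PR PA R1 X).Lb) ∧
      (∀ i ∈ (mkPlan E P3 pl3 Bd PR PA R1 X).Ab, ∀ i' ∈ (mkPlan E P3 pl3 Bd PR PA R1 X).Ab,
        z i = z i' → i = i') ∧
      Exact3 E.n E.k (mkPlan E P3 pl3 Bd PR PA R1 X).pl (mkPlan E P3 pl3 Bd PR PA R1 X).Ab z ((mkPlan E P3 pl3 Bd PR PA R1 X).G ∪ R') := by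
  intro R' hR' hcard
  obtain ⟨z, hz1, hz2, hz3⟩ := h.abs R' hR' hcard
  obtain ⟨c, hcc⟩ := pt4_c hE hc h
  have hu : ∀ p ∈ PA, p ∈ PR ∪ PA := fun p hp => mem_union_right _ hp
  have hAb : ∀ i, i ∈ (mkPlan E P3 pl3 Bd PR PA R1 X).Ab → ∃ p ∈ PA, p.m = i := by
    intro i hi
    exact mem_image.1 hi
  refine ⟨fun i => z (c i), ?_, ?_, ?_, ?_⟩
  · intro i hi
    obtain ⟨p, hp, rfl⟩ := hAb i hi
    show z (c p.m) ∈ pJJ PA
    rw [hcc p (hu p hp)]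
    exact mem_biUnion.2 ⟨p, hp, hz1 p hp⟩
  · intro i hi i' hi' e
    obtain ⟨p, hp, rfl⟩ := hAb i hi
    obtain ⟨p', hp', rfl⟩ := hAb i' hi'
    have e' : z p = z p' := by
      have e2 : z (c p.m) = z (c p'.m) := e
      rw [hcc p (hu p hp), hcc p' (hu p' hp')] at e2
      exact e2
    by_contra hne
    have hne' : p ≠ p' := fun h0 => hne (by rw [h0])
    have hd := (h.fam.dj p (hu p hp) p' (hu p' hp') hne').2.1
    have m1 : z p ∈ p.L := mem_insert_of_mem (mem_insert_of_mem (hz1 p hp))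
    have m2 : z p ∈ p'.L := by
      rw [e']
      exact mem_insert_of_mem (mem_insert_of_mem (hz1 p' hp'))
    exact Finset.disjoint_left.1 hd m1 m2
  · have hG : (mkPlan E P3 pl3 Bd PR PA R1 X).G ∪ R' = pGG PA ∪ X ∪ R' := rfl
    rw [hG, ← hz2]
    ext d
    unfold DS
    rw [mem_image, mem_image]
    constructor
    · rintro ⟨⟨i, j⟩, hu1, hu2⟩
      obtain ⟨p, hp, rfl⟩ := hAb i (mem_product.1 hu1).1
      refine ⟨(p, j), mem_product.2 ⟨hp, mem_univ _⟩, ?_⟩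
      have hu3 : d3 E.n E.k (mkPlan E P3 pl3 Bd PR PA R1 X).pl p.m (z (c p.m)) j = d := hu2
      rw [hcc p (hu p hp), pt4_d3 hE hc h (hu p hp)] at hu3
      exact hu3
    · rintro ⟨⟨p, j⟩, hu1, hu2⟩
      have hp : p ∈ PA := (mem_product.1 hu1).1
      refine ⟨(p.m, j), mem_product.2 ⟨mem_image_of_mem _ hp, mem_univ _⟩, ?_⟩
      show d3 E.n E.k (mkPlan E P3 pl3 Bd PR PA R1 X).pl p.m (z (c p.m)) j = d
      rw [hcc p (hu p hp), pt4_d3 hE hc h (hu p hp)]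
      exact hu2
  · have hG : (mkPlan E P3 pl3 Bd PR PA R1 X).G ∪ R' = pGG PA ∪ X ∪ R' := rfl
    have hA : (mkPlan E P3 pl3 Bd PR PA R1 X).Ab = PA.image (fun p => p.m) := rfl
    rw [hG, hz3, hA, card_image_of_injOn]
    intro p hp p' hp' e
    exact pt4_inj hE hc h (hu p hp) (hu p' hp') e

theorem f_cover (hE : Base E.n E.k E.q E.S E.B0) {ρ : ℝ}
    (hc : Col E.n E.k E.q ρ E.Bk E.Ck E.Pk)
    (h : Parts E κ cD cC b m P3 pl3 Bd PR PA R1 X) :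
    ∀ d ∈ dall E.n, ∃ (M : Finset ℕ) (x e1 e2 : ℕ → ℤ), M ⊆ (mkPlan E P3 pl3 Bd PR PA R1 X).CR ∧
    cC * E.n ≤ (M.card : ℝ) ∧
    (∀ i ∈ M, x i ∈ E.LAM ∧ e1 i ∈ R1 ∧ e2 i ∈ R1 ∧ e1 i ≠ e2 i ∧
      (univ : Finset (Fin 3)).image (d3 E.n E.k (mkPlan E P3 pl3 Bd PR PA R1 X).pl i (x i)) = {d, e1 i, e2 i}) ∧
    (∀ i ∈ M, ∀ i' ∈ M, x i = x i' → i = i') ∧
    ∀ r : ℤ, (M.filter (fun i => e1 i = r ∨ e2 i = r)).card ≤ 4 := by
  intro d hd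
  obtain ⟨M, x, e1, e2, hM, hcard, hprop, hinj, hr⟩ := h.cov d hd
  obtain ⟨c, hcc⟩ := pt4_c hE hc h
  have hu : ∀ p ∈ M, p ∈ PR ∪ PA := fun p hp => mem_union_left _ (hM hp)
  refine ⟨M.image (fun p => p.m), fun i => x (c i), fun i => e1 (c i), fun i => e2 (c i),
    image_subset_image hM, ?_, ?_, ?_, ?_⟩
  · rw [card_image_of_injOn]
    · exact hcard
    · intro p hp p' hp' e
      exact pt4_inj hE hc h (hu p hp) (hu p' hp') e
  · intro i hi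
    obtain ⟨p, hp, rfl⟩ := mem_image.1 hi
    obtain ⟨h1, h2, h3, h4, h5⟩ := hprop p hp
    have hcp := hcc p (hu p hp)
    show x (c p.m) ∈ E.LAM ∧ e1 (c p.m) ∈ R1 ∧ e2 (c p.m) ∈ R1 ∧ e1 (c p.m) ≠ e2 (c p.m) ∧
      (univ : Finset (Fin 3)).image (d3 E.n E.k (mkPlan E P3 pl3 Bd PR PA R1 X).pl p.m
        (x (c p.m))) = {d, e1 (c p.m), e2 (c p.m)}
    rw [hcp, pt4_d3 hE hc h (hu p hp)]
    exact ⟨h1, h2, h3, h4, h5⟩
  · intro i hi i' hi' e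
    obtain ⟨p, hp, rfl⟩ := mem_image.1 hi
    obtain ⟨p', hp', rfl⟩ := mem_image.1 hi'
    have e2 : x (c p.m) = x (c p'.m) := e
    rw [hcc p (hu p hp), hcc p' (hu p' hp')] at e2
    rw [hinj p hp p' hp' e2]
  · intro r
    refine le_trans ?_ (hr r)
    refine le_trans (card_le_card (t := image (fun p : Pack => p.m) _) ?_) card_image_le
    intro i hi
    obtain ⟨hi1, hi2⟩ := mem_filter.1 hi
    obtain ⟨p, hp, rfl⟩ := mem_image.1 hi1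
    have hi3 : e1 (c p.m) = r ∨ e2 (c p.m) = r := hi2
    rw [hcc p (hu p hp)] at hi3
    exact mem_image.2 ⟨p, mem_filter.2 ⟨hp, hi3⟩, rfl⟩

end Pool.Agent.PGr.PPk
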