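import Mathlib
import Pool.Agent.PGr.PPtB

/-!
# PGr-P-Pt5: the plan: sizes, loads, tags

PLAN. Sizes: `|P| ≤ |P3| + 2 |PR ∪ PA| ≤ (κ/10 + 4 κ/10) n`; `|Ab| = |PA|`, `|CR| = |PR|` (centres are different,
`centre_facts`); for `f_szI` use `EdF_card` (PPtB): `|EdF| ≤ 2 |P3| + 2 |PR| ≤ 4 κ/10 n`, total
`≤ (1 + 4 + 1) κ/10 n`.
`f_load`: `Bk ∩ P ⊆ (Bk ∩ P3) ∪ nbp centres ∪ nbm centres`; the packs with `un (nbp p.m) = u` have tag 0 equal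
to `u`: at most `T = κ/10 n/q^2`, the same for tag 1: total `≤ 3 κ/10 n/q^2`.
`f_tg5`: `i ∈ It`, `nbp i ∈ P`: `item_cases`: if `nbp i ∈ P3` then `i ∈ Ed`, excluded. Otherwise `i = p.m` is excluded
(`i ∉ CR, Ab`), and `p ∈ PR` is excluded (`i ∈ Ed`), so `p ∈ PA` and `i = w1 p.m` or `i = w2 p.m`. By `near_item` for
`v = nbp i` (`planted_cases` gives the pack): `i = w2 p.m`, `nbp i = nbm p.m` of class `a2`: the value
`anc i - cl (nbp i)` is `tag p 4`; different `i` give different `p`: at most `T` (multiplicity of tag 4).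
(If `nbp i = nbp p.m` then `i = p.m`.) `f_tg6`: `nbm i ∈ P`: `i = w1 p.m`, `tag p 2`. `f_tg7`: `i = w1 p.m`:
`cl (nbp i) - cl (nbm i) = pcl (nbp (w1 m)) - a1 = tag p 3` (`pcl_eq`), `i = w2 p.m`:
`cl (nbp i) - cl (nbm i) = a2 - pcl (nbm (w2 m)) = tag p 5`: at most `2 T`.
-/

noncomputable section

namespace Pool.Agent.PGr.PPk

open Finset

variable {E : Env} {κ cD cC : ℝ} {b m : ℕ} {P3 : Finset ℕ} {pl3 : ℕ → ℤ}
    {Bd : Finset (ZMod (E.q ^ 2))} {PR PA : Finset Pack} {R1 X : Finset ℤ}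

private theorem lt_n (hE : Base E.n E.k E.q E.S E.B0) {ρ : ℝ}
    (hc : Col E.n E.k E.q ρ E.Bk E.Ck E.Pk)
    (h : Parts E κ cD cC b m P3 pl3 Bd PR PA R1 X) {p : Pack} (hp : p ∈ PR ∪ PA) :
    p.m < E.n := (pure_facts E hE hc (h.fam.ok p hp).item).1

private theorem kn_nonneg (h : Parts E κ cD cC b m P3 pl3 Bd PR PA R1 X) : 0 ≤ κ * E.n := by
  have h1 := h.szR
  have h2 : (0 : ℝ) ≤ (PR.card : ℝ) := Nat.cast_nonneg _
  nlinarith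

private theorem knq_nonneg (h : Parts E κ cD cC b m P3 pl3 Bd PR PA R1 X) :
    0 ≤ κ * E.n / (E.q : ℝ) ^ 2 := div_nonneg (kn_nonneg h) (by positivity)

private theorem card_Ps (h : Parts E κ cD cC b m P3 pl3 Bd PR PA R1 X) :
    ((PR ∪ PA).card : ℝ) ≤ 2 * (κ / 10 * E.n) := by
  have h1 : ((PR ∪ PA).card : ℝ) ≤ (PR.card : ℝ) + (PA.card : ℝ) := by
    exact_mod_cast card_union_le PR PA
  have h2 := h.szR
  have h3 := h.szA
  linarith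

private theorem mk_P : (mkPlan E P3 pl3 Bd PR PA R1 X).P =
    P3 ∪ (PR ∪ PA).image (fun p => nbp E.n E.k p.m) ∪
      (PR ∪ PA).image (fun p => nbm E.n E.k p.m) := rfl

private theorem memP_p {p : Pack} (hp : p ∈ PR ∪ PA) :
    nbp E.n E.k p.m ∈ (mkPlan E P3 pl3 Bd PR PA R1 X).P := by
  rw [mk_P]
  exact mem_union_left _ (mem_union_right _ (mem_image_of_mem _ hp))

private theorem memP_m {p : Pack} (hp : p ∈ PR ∪ PA) :
    nbm E.n E.k p.m ∈ (mkPlan E P3 pl3 Bd PR PA R1 X).P := by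
  rw [mk_P]
  exact mem_union_right _ (mem_image_of_mem _ hp)

private theorem cl_p (hE : Base E.n E.k E.q E.S E.B0) {ρ : ℝ}
    (hc : Col E.n E.k E.q ρ E.Bk E.Ck E.Pk)
    (h : Parts E κ cD cC b m P3 pl3 Bd PR PA R1 X) {p : Pack} (hp : p ∈ PR ∪ PA) :
    (mkPlan E P3 pl3 Bd PR PA R1 X).cl (nbp E.n E.k p.m) = ((p.a1 : ℤ) : ZMod (E.q ^ 2)) := by
  unfold Plan.cl clw
  rw [if_pos (memP_p hp), pl_nbp hE hc h hp]

private theorem cl_m (hE : Base E.n E.k E.q E.S E.B0) {ρ : ℝ}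
    (hc : Col E.n E.k E.q ρ E.Bk E.Ck E.Pk)
    (h : Parts E κ cD cC b m P3 pl3 Bd PR PA R1 X) {p : Pack} (hp : p ∈ PR ∪ PA) :
    (mkPlan E P3 pl3 Bd PR PA R1 X).cl (nbm E.n E.k p.m) = ((p.a2 : ℤ) : ZMod (E.q ^ 2)) := by
  unfold Plan.cl clw
  rw [if_pos (memP_m hp), pl_nbm hE hc h hp]

private theorem it_facts (hc' : E.Bk ∪ E.Ck ∪ E.Pk = range E.n) {i : ℕ}
    (hi : i ∈ (mkPlan E P3 pl3 Bd PR PA R1 X).It) :
    i < E.n ∧ (∀ p ∈ PR ∪ PA, i ≠ p.m) ∧ nbp E.n E.k i ∉ P3 ∧ nbm E.n E.k i ∉ P3 := by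
  have h0 : i ∈ E.Ck \ (PR.image (fun p => p.m) ∪ EdF E P3 PR ∪ PA.image (fun p => p.m)) := hi
  rw [mem_sdiff, mem_union, mem_union, not_or, not_or] at h0
  obtain ⟨h1, ⟨h2, h3⟩, h4⟩ := h0
  refine ⟨?_, ?_, ?_, ?_⟩
  · rw [← mem_range, ← hc']
    exact mem_union_left _ (mem_union_right _ h1)
  · intro p hp hpi
    rcases mem_union.1 hp with hp | hp
    · exact h2 (by rw [hpi]; exact mem_image_of_mem _ hp)
    · exact h4 (by rw [hpi]; exact mem_image_of_mem _ hp)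
  · intro h5
    apply h3
    unfold EdF
    exact mem_filter.2 ⟨h1, Or.inl h5⟩
  · intro h5
    apply h3
    unfold EdF
    exact mem_filter.2 ⟨h1, Or.inr (Or.inl h5)⟩

private theorem case_p (hE : Base E.n E.k E.q E.S E.B0) {ρ : ℝ}
    (hc : Col E.n E.k E.q ρ E.Bk E.Ck E.Pk)
    (h : Parts E κ cD cC b m P3 pl3 Bd PR PA R1 X) {i : ℕ}
    (hi : i ∈ (mkPlan E P3 pl3 Bd PR PA R1 X).It)
    (hP : nbp E.n E.k i ∈ (mkPlan E P3 pl3 Bd PR PA R1 X).P) :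
    ∃ p ∈ PR ∪ PA, i = w2 E p.m ∧
      (mkPlan E P3 pl3 Bd PR PA R1 X).cl (nbp E.n E.k i) = ((p.a2 : ℤ) : ZMod (E.q ^ 2)) := by
  obtain ⟨h1, h2, h3, h4⟩ := it_facts hc.cover hi
  rcases planted_cases hP with h5 | ⟨p, hp, h5 | h5⟩
  · exact absurd h5 h3
  · exfalso
    apply h2 p hp
    rw [← nbm_nbp hE.k_pos hE.k_lt h1, h5, nbm_nbp hE.k_pos hE.k_lt (lt_n hE hc h hp)]
  · refine ⟨p, hp, ?_, ?_⟩
    · unfold w2
      rw [← h5, nbm_nbp hE.k_pos hE.k_lt h1]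
    · rw [h5, cl_m hE hc h hp]

private theorem case_m (hE : Base E.n E.k E.q E.S E.B0) {ρ : ℝ}
    (hc : Col E.n E.k E.q ρ E.Bk E.Ck E.Pk)
    (h : Parts E κ cD cC b m P3 pl3 Bd PR PA R1 X) {i : ℕ}
    (hi : i ∈ (mkPlan E P3 pl3 Bd PR PA R1 X).It)
    (hP : nbm E.n E.k i ∈ (mkPlan E P3 pl3 Bd PR PA R1 X).P) :
    ∃ p ∈ PR ∪ PA, i = w1 E p.m ∧
      (mkPlan E P3 pl3 Bd PR PA R1 X).cl (nbm E.n E.k i) = ((p.a1 : ℤ) : ZMod (E.q ^ 2)) := by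
  obtain ⟨h1, h2, h3, h4⟩ := it_facts hc.cover hi
  rcases planted_cases hP with h5 | ⟨p, hp, h5 | h5⟩
  · exact absurd h5 h4
  · refine ⟨p, hp, ?_, ?_⟩
    · unfold w1
      rw [← h5, nbp_nbm hE.k_pos hE.k_lt h1]
    · rw [h5, cl_p hE hc h hp]
  · exfalso
    apply h2 p hp
    rw [← nbp_nbm hE.k_pos hE.k_lt h1, h5, nbp_nbm hE.k_pos hE.k_lt (lt_n hE hc h hp)]

private def TG (E : Env) (Ps : Finset Pack) (t : Fin 6) (v : ZMod (E.q ^ 2)) : Finset Pack :=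
  Ps.filter (fun p => tag E p t = v)

private theorem mem_TG {Ps : Finset Pack} {t : Fin 6} {v : ZMod (E.q ^ 2)} {p : Pack} :
    p ∈ TG E Ps t v ↔ p ∈ Ps ∧ tag E p t = v := mem_filter

private theorem card_TG (h : Parts E κ cD cC b m P3 pl3 Bd PR PA R1 X) (t : Fin 6)
    (v : ZMod (E.q ^ 2)) : ((TG E (PR ∪ PA) t v).card : ℝ) ≤ κ / 10 * E.n / (E.q : ℝ) ^ 2 :=
  h.fam.tg t v

private theorem tenth (h : Parts E κ cD cC b m P3 pl3 Bd PR PA R1 X) (j : ℝ) (hj : j ≤ 10) :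
    j * (κ / 10 * E.n / (E.q : ℝ) ^ 2) ≤ κ * E.n / (E.q : ℝ) ^ 2 := by
  have h1 := knq_nonneg h
  have h2 : κ / 10 * E.n / (E.q : ℝ) ^ 2 = (κ * E.n / (E.q : ℝ) ^ 2) / 10 := by ring
  rw [h2]
  nlinarith

private theorem le_one {s : Finset ℕ} (h : Parts E κ cD cC b m P3 pl3 Bd PR PA R1 X) (t : Fin 6)
    (v : ZMod (E.q ^ 2)) (w : ℕ → ℕ) (hs : s ⊆ (TG E (PR ∪ PA) t v).image (fun p => w p.m)) :
    (s.card : ℝ) ≤ κ * E.n / (E.q : ℝ) ^ 2 := by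
  have h1 : (s.card : ℝ) ≤ ((TG E (PR ∪ PA) t v).card : ℝ) := by
    exact_mod_cast (card_le_card hs).trans card_image_le
  have h2 := card_TG h t v
  have h3 := tenth h 1 (by norm_num)
  linarith

theorem f_szP (hE : Base E.n E.k E.q E.S E.B0) {ρ : ℝ}
    (hc : Col E.n E.k E.q ρ E.Bk E.Ck E.Pk)
    (h : Parts E κ cD cC b m P3 pl3 Bd PR PA R1 X) :
    ((mkPlan E P3 pl3 Bd PR PA R1 X).P.card : ℝ) ≤ κ * E.n := by
  have h1 : (mkPlan E P3 pl3 Bd PR PA R1 X).P.card ≤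
      P3.card + (PR ∪ PA).card + (PR ∪ PA).card := by
    rw [mk_P]
    refine (card_union_le _ _).trans ?_
    refine Nat.add_le_add ((card_union_le _ _).trans ?_) card_image_le
    exact Nat.add_le_add le_rfl card_image_le
  have h2 : ((mkPlan E P3 pl3 Bd PR PA R1 X).P.card : ℝ) ≤
      (P3.card : ℝ) + ((PR ∪ PA).card : ℝ) + ((PR ∪ PA).card : ℝ) := by exact_mod_cast h1
  have h3 := card_Ps h
  have h4 := h.set.card
  have h5 := kn_nonneg h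
  have h6 : κ / 10 * (E.n : ℝ) = κ * E.n / 10 := by ring
  rw [h6] at h3 h4
  linarith

theorem f_cards (hE : Base E.n E.k E.q E.S E.B0) {ρ : ℝ}
    (hc : Col E.n E.k E.q ρ E.Bk E.Ck E.Pk)
    (h : Parts E κ cD cC b m P3 pl3 Bd PR PA R1 X) :
    (mkPlan E P3 pl3 Bd PR PA R1 X).CR.card = PR.card ∧
    (mkPlan E P3 pl3 Bd PR PA R1 X).Ab.card = PA.card := by
  constructor
  · refine card_image_of_injOn ?_
    intro p hp p' hp' hpp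
    exact (centre_facts hE hc h (mem_union_left _ hp) (mem_union_left _ hp')).1 hpp
  · refine card_image_of_injOn ?_
    intro p hp p' hp' hpp
    exact (centre_facts hE hc h (mem_union_right _ hp) (mem_union_right _ hp')).1 hpp

theorem f_szI (hE : Base E.n E.k E.q E.S E.B0) {ρ : ℝ}
    (hc : Col E.n E.k E.q ρ E.Bk E.Ck E.Pk)
    (h : Parts E κ cD cC b m P3 pl3 Bd PR PA R1 X) :
    (((mkPlan E P3 pl3 Bd PR PA R1 X).CR.card + (mkPlan E P3 pl3 Bd PR PA R1 X).Ed.card +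
      (mkPlan E P3 pl3 Bd PR PA R1 X).Ab.card : ℕ) : ℝ) ≤ κ * E.n := by
  obtain ⟨h1, h2⟩ := f_cards hE hc h
  have h3 : (mkPlan E P3 pl3 Bd PR PA R1 X).Ed.card ≤ 2 * P3.card + 2 * PR.card :=
    EdF_card hE hc P3 PR
  rw [h1, h2]
  have h4 : (((mkPlan E P3 pl3 Bd PR PA R1 X).Ed.card : ℕ) : ℝ) ≤
      2 * (P3.card : ℝ) + 2 * (PR.card : ℝ) := by exact_mod_cast h3
  have h5 := h.set.card
  have h6 := h.szR
  have h7 := h.szA
  have h8 := kn_nonneg h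
  have h9 : κ / 10 * (E.n : ℝ) = κ * E.n / 10 := by ring
  rw [h9] at h5 h6 h7
  push_cast
  linarith

open Classical in
theorem f_load (hE : Base E.n E.k E.q E.S E.B0) {ρ : ℝ}
    (hc : Col E.n E.k E.q ρ E.Bk E.Ck E.Pk)
    (h : Parts E κ cD cC b m P3 pl3 Bd PR PA R1 X) :
    ∀ u, u ∉ (mkPlan E P3 pl3 Bd PR PA R1 X).Bd →
    (((E.Bk ∩ (mkPlan E P3 pl3 Bd PR PA R1 X).P).filter (fun v => un E.n E.q v = u)).card : ℝ)
      ≤ κ * E.n / (E.q : ℝ) ^ 2 := by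
  intro u hu
  have h1 : (E.Bk ∩ (mkPlan E P3 pl3 Bd PR PA R1 X).P).filter (fun v => un E.n E.q v = u) ⊆
      (E.Bk ∩ P3).filter (fun v => un E.n E.q v = u) ∪
      ((TG E (PR ∪ PA) 0 u).image (fun p => nbp E.n E.k p.m) ∪
        (TG E (PR ∪ PA) 1 u).image (fun p => nbm E.n E.k p.m)) := by
    intro v hv
    obtain ⟨hv1, hv2⟩ := mem_filter.1 hv
    obtain ⟨hv3, hv4⟩ := mem_inter.1 hv1
    rcases planted_cases hv4 with h5 | ⟨p, hp, h5 | h5⟩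
    · exact mem_union_left _ (mem_filter.2 ⟨mem_inter.2 ⟨hv3, h5⟩, hv2⟩)
    · refine mem_union_right _ (mem_union_left _ (mem_image.2 ⟨p, mem_TG.2 ⟨hp, ?_⟩, h5.symm⟩))
      change un E.n E.q (nbp E.n E.k p.m) = u
      rw [← h5, hv2]
    · refine mem_union_right _ (mem_union_right _ (mem_image.2 ⟨p, mem_TG.2 ⟨hp, ?_⟩, h5.symm⟩))
      change un E.n E.q (nbm E.n E.k p.m) = u
      rw [← h5, hv2]
  have h2 : ((E.Bk ∩ (mkPlan E P3 pl3 Bd PR PA R1 X).P).filter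
      (fun v => un E.n E.q v = u)).card ≤
      ((E.Bk ∩ P3).filter (fun v => un E.n E.q v = u)).card +
        ((TG E (PR ∪ PA) 0 u).card + (TG E (PR ∪ PA) 1 u).card) := by
    refine (card_le_card h1).trans ((card_union_le _ _).trans ?_)
    refine Nat.add_le_add le_rfl ((card_union_le _ _).trans ?_)
    exact Nat.add_le_add card_image_le card_image_le
  have h3 : (((E.Bk ∩ (mkPlan E P3 pl3 Bd PR PA R1 X).P).filter
      (fun v => un E.n E.q v = u)).card : ℝ) ≤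
      (((E.Bk ∩ P3).filter (fun v => un E.n E.q v = u)).card : ℝ) +
        (((TG E (PR ∪ PA) 0 u).card : ℝ) + ((TG E (PR ∪ PA) 1 u).card : ℝ)) := by
    exact_mod_cast h2
  have h4 := h.set.load u hu
  have h5 := card_TG h 0 u
  have h6 := card_TG h 1 u
  have h7 := tenth h 3 (by norm_num)
  linarith

open Classical in
theorem f_tg5 (hE : Base E.n E.k E.q E.S E.B0) {ρ : ℝ}
    (hc : Col E.n E.k E.q ρ E.Bk E.Ck E.Pk)
    (h : Parts E κ cD cC b m P3 pl3 Bd PR PA R1 X) :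
    ∀ v, (((mkPlan E P3 pl3 Bd PR PA R1 X).It.filter (fun i => nbp E.n E.k i ∈ (mkPlan E P3 pl3 Bd PR PA R1 X).P ∧
      ((anc E.n i : ℤ) : ZMod (E.q ^ 2)) - (mkPlan E P3 pl3 Bd PR PA R1 X).cl (nbp E.n E.k i) = v)).card : ℝ)
        ≤ κ * E.n / (E.q : ℝ) ^ 2 := by
  intro v
  refine le_one h 4 v (w2 E) ?_
  intro i hi
  obtain ⟨hi1, hi2, hi3⟩ := mem_filter.1 hi
  obtain ⟨p, hp, h1, h2⟩ := case_p hE hc h hi1 hi2
  refine mem_image.2 ⟨p, mem_TG.2 ⟨hp, ?_⟩, h1.symm⟩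
  change ((anc E.n (w2 E p.m) : ℤ) : ZMod (E.q ^ 2)) - ((p.a2 : ℤ) : ZMod (E.q ^ 2)) = v
  rw [← h1, ← h2, hi3]

open Classical in
theorem f_tg6 (hE : Base E.n E.k E.q E.S E.B0) {ρ : ℝ}
    (hc : Col E.n E.k E.q ρ E.Bk E.Ck E.Pk)
    (h : Parts E κ cD cC b m P3 pl3 Bd PR PA R1 X) :
    ∀ v, (((mkPlan E P3 pl3 Bd PR PA R1 X).It.filter (fun i => nbm E.n E.k i ∈ (mkPlan E P3 pl3 Bd PR PA R1 X).P ∧
      ((anc E.n i : ℤ) : ZMod (E.q ^ 2)) - (mkPlan E P3 pl3 Bd PR PA R1 X).cl (nbm E.n E.k i) = v)).card : ℝ)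
        ≤ κ * E.n / (E.q : ℝ) ^ 2 := by
  intro v
  refine le_one h 2 v (w1 E) ?_
  intro i hi
  obtain ⟨hi1, hi2, hi3⟩ := mem_filter.1 hi
  obtain ⟨p, hp, h1, h2⟩ := case_m hE hc h hi1 hi2
  refine mem_image.2 ⟨p, mem_TG.2 ⟨hp, ?_⟩, h1.symm⟩
  change ((anc E.n (w1 E p.m) : ℤ) : ZMod (E.q ^ 2)) - ((p.a1 : ℤ) : ZMod (E.q ^ 2)) = v
  rw [← h1, ← h2, hi3]

open Classical in
theorem f_tg7 (hE : Base E.n E.k E.q E.S E.B0) {ρ : ℝ}
    (hc : Col E.n E.k E.q ρ E.Bk E.Ck E.Pk)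
    (h : Parts E κ cD cC b m P3 pl3 Bd PR PA R1 X) :
    ∀ v, (((mkPlan E P3 pl3 Bd PR PA R1 X).It.filter (fun i => (nbp E.n E.k i ∈ (mkPlan E P3 pl3 Bd PR PA R1 X).P ∨
      nbm E.n E.k i ∈ (mkPlan E P3 pl3 Bd PR PA R1 X).P) ∧
      (mkPlan E P3 pl3 Bd PR PA R1 X).cl (nbp E.n E.k i) - (mkPlan E P3 pl3 Bd PR PA R1 X).cl (nbm E.n E.k i) = v)).card : ℝ)
        ≤ κ * E.n / (E.q : ℝ) ^ 2 := by
  intro v
  have hs : (mkPlan E P3 pl3 Bd PR PA R1 X).It.filter (fun i => (nbp E.n E.k i ∈ (mkPlan E P3 pl3 Bd PR PA R1 X).P ∨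
      nbm E.n E.k i ∈ (mkPlan E P3 pl3 Bd PR PA R1 X).P) ∧
      (mkPlan E P3 pl3 Bd PR PA R1 X).cl (nbp E.n E.k i) - (mkPlan E P3 pl3 Bd PR PA R1 X).cl (nbm E.n E.k i) = v) ⊆
      (TG E (PR ∪ PA) 5 v).image (fun p => w2 E p.m) ∪
        (TG E (PR ∪ PA) 3 v).image (fun p => w1 E p.m) := by
    intro i hi
    obtain ⟨hi1, hi2 | hi2, hi3⟩ := mem_filter.1 hi
    · obtain ⟨p, hp, h1, h2⟩ := case_p hE hc h hi1 hi2
      refine mem_union_left _ (mem_image.2 ⟨p, mem_TG.2 ⟨hp, ?_⟩, h1.symm⟩)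
      change ((p.a2 : ℤ) : ZMod (E.q ^ 2)) - pcl E p (nbm E.n E.k (w2 E p.m)) = v
      rw [← pcl_eq hE hc h hp, ← h1, ← h2, hi3]
      unfold ball w2
      simp
    · obtain ⟨p, hp, h1, h2⟩ := case_m hE hc h hi1 hi2
      refine mem_union_right _ (mem_image.2 ⟨p, mem_TG.2 ⟨hp, ?_⟩, h1.symm⟩)
      change pcl E p (nbp E.n E.k (w1 E p.m)) - ((p.a1 : ℤ) : ZMod (E.q ^ 2)) = v
      rw [← pcl_eq hE hc h hp, ← h1, ← h2, hi3]
      unfold ball w1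
      simp
  have h2 := (card_le_card hs).trans ((card_union_le _ _).trans
    (Nat.add_le_add card_image_le card_image_le))
  have h3 : (((mkPlan E P3 pl3 Bd PR PA R1 X).It.filter (fun i => (nbp E.n E.k i ∈ (mkPlan E P3 pl3 Bd PR PA R1 X).P ∨
      nbm E.n E.k i ∈ (mkPlan E P3 pl3 Bd PR PA R1 X).P) ∧
      (mkPlan E P3 pl3 Bd PR PA R1 X).cl (nbp E.n E.k i) - (mkPlan E P3 pl3 Bd PR PA R1 X).cl (nbm E.n E.k i) = v)).card : ℝ) ≤
      ((TG E (PR ∪ PA) 5 v).card : ℝ) + ((TG E (PR ∪ PA) 3 v).card : ℝ) := by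
    exact_mod_cast h2
  have h5 := card_TG h 5 v
  have h6 := card_TG h 3 v
  have h7 := tenth h 2 (by norm_num)
  linarith

end Pool.Agent.PGr.PPk
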