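import Mathlib
import Pool.Agent.PGr.PPt1
import Pool.Agent.PGr.PPt2
import Pool.Agent.PGr.PPt3
import Pool.Agent.PGr.PPt4
import Pool.Agent.PGr.PPt5

/-!
# PGr, part P: the plan built from the parts satisfies `Plan.Ok`
-/

noncomputable section

namespace Pool.Agent.PGr.PPk

open Finset

variable {E : Env} {κ cD cC : ℝ} {b m : ℕ} {P3 : Finset ℕ} {pl3 : ℕ → ℤ}
    {Bd : Finset (ZMod (E.q ^ 2))} {PR PA : Finset Pack} {R1 X : Finset ℤ}

theorem mkPlan_ok (hE : Base E.n E.k E.q E.S E.B0) {ρ : ℝ}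
    (hc : Col E.n E.k E.q ρ E.Bk E.Ck E.Pk)
    (h : Parts E κ cD cC b m P3 pl3 Bd PR PA R1 X) :
    (mkPlan E P3 pl3 Bd PR PA R1 X).Ok κ cD cC b m where
  P_sub := f_P_sub hE hc h
  Pk_sub := f_Pk_sub hE hc h
  B_vs := f_B_vs hE hc h
  own := f_own hE hc h
  pl_PL := f_pl_PL hE hc h
  pl_inj := f_pl_inj hE hc h
  sp_PD := f_sp_PD hE hc h
  sp_inj := f_sp_inj hE hc h
  ed_PD := f_ed_PD hE hc h
  ed_inj := f_ed_inj hE hc h
  sp_ed := f_sp_ed hE hc h
  Lb_PL := f_Lb_PL hE hc h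
  Lb_pl := f_Lb_pl hE hc h
  G_sub := f_G_sub hE hc h
  G_sp := f_G_sp hE hc h
  G_ed := f_G_ed hE hc h
  R1_sub := h.R1_sub
  G_R1 := f_G_R1 hE hc h
  CR_sub := f_CR_sub hE hc h
  Ed_sub := f_Ed_sub hE hc h
  Ab_sub := f_Ab_sub hE hc h
  CR_Ed := f_CR_Ed hE hc h
  CR_Ab := f_CR_Ab hE hc h
  Ed_Ab := f_Ed_Ab hE hc h
  CR_nb := f_CR_nb hE hc h
  Ab_nb := f_Ab_nb hE hc h
  gen := f_gen hE hc h
  rng := f_rng hE hc h
  rng2 := f_rng2 hE hc h
  absorb := f_absorb hE hc h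
  cover := f_cover hE hc h
  deflt := h.df
  szP := f_szP hE hc h
  szI := f_szI hE hc h
  szD := by
    have h1 := (f_cards hE hc h).1
    rw [h1]
    exact h.szD
  cnt1 := by
    have h2 := (f_cards hE hc h).2
    rw [h2]
    exact h.cnt1
  cnt2 := by
    have h1 := (f_cards hE hc h).1
    rw [h1]
    exact h.cnt2
  b_lo := h.b_lo
  b_hi := h.b_hi
  bdc := h.set.bdc
  load := by
    classical
    intro u hu
    convert f_load hE hc h u hu using 3
  tg5 := by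
    classical
    intro v
    convert f_tg5 hE hc h v using 3
  tg6 := by
    classical
    intro v
    convert f_tg6 hE hc h v using 3
  tg7 := by
    classical
    intro v
    convert f_tg7 hE hc h v using 3

end Pool.Agent.PGr.PPk
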