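import Pool.Agent.PGr.McDSub

/-!
# PGr tools: existence of a random-like subset
-/

namespace Pool.Agent.PGr

open Finset

/-- Members of size at most `k`: the number of members inside the random subset of density `1 / K`
is at least half of `|S| / K ^ k`. -/
theorem Pr_subset_lower' {ι J : Type*} [Fintype ι] [DecidableEq ι] [DecidableEq J]
    (K : ℕ) (hK : 0 < K) (S : Finset J) (T : J → Finset ι) (k m : ℕ) (hk : 0 < k) (hm0 : 0 < m)
    (hT : ∀ j ∈ S, (T j).card ≤ k) (hm : ∀ i, (S.filter fun j => i ∈ T j).card ≤ m)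
    (hS : S.Nonempty) :
    Pr (fun ω : ι → Fin K => ((S.filter fun j => ∀ i ∈ T j, (ω i).val = 0).card : ℝ) ≤
        S.card / (2 * (K : ℝ) ^ k)) ≤
      2 * Real.exp (-((S.card : ℝ) / (8 * k * m * (K : ℝ) ^ (2 * k)))) := by
  classical
  have : Nonempty (Fin K) := ⟨⟨0, hK⟩⟩
  have hK0 : (0 : ℝ) < K := by exact_mod_cast hK
  have hK1 : (1 : ℝ) ≤ K := by exact_mod_cast hK
  have hS0 : (0 : ℝ) < S.card := by exact_mod_cast hS.card_pos
  have hk0 : (0 : ℝ) < k := by exact_mod_cast hk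
  have hm1 : (0 : ℝ) < m := by exact_mod_cast hm0
  have h := Pr_cntFam (Ω := Fin K) S T (fun _ _ a => a.val = 0) k m
    hT hm ((k * m : ℝ) * S.card) (by positivity) le_rfl
    (S.card / (2 * (K : ℝ) ^ k)) (by positivity)
  have hmean : S.card / (K : ℝ) ^ k ≤ ∑ j ∈ S, ∏ i ∈ T j, Pr (fun a : Fin K => a.val = 0) := by
    have h1 : ∀ j ∈ S, 1 / (K : ℝ) ^ k ≤ ∏ i ∈ T j, Pr (fun a : Fin K => a.val = 0) := by
      intro j hj
      rw [prod_const, Pr_fin_zero K hK, one_div, one_div, inv_pow]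
      exact inv_anti₀ (by positivity) (pow_le_pow_right₀ hK1 (hT j hj))
    have h2 := sum_le_sum h1
    rw [sum_const, nsmul_eq_mul] at h2
    refine le_trans (le_of_eq ?_) h2
    ring
  refine (Pr_mono fun ω hω => ?_).trans (h.trans (le_of_eq ?_))
  · have e3 : cntFam (Ω := Fin K) S T (fun _ _ a => a.val = 0) ω =
        ((S.filter fun j => ∀ i ∈ T j, (ω i).val = 0).card : ℝ) := by
      unfold cntFam
      congr 2
      ext j
      simp
    rw [e3, le_abs]
    right
    have e : (S.card : ℝ) / (K : ℝ) ^ k = 2 * (S.card / (2 * (K : ℝ) ^ k)) := by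
      field_simp
    linarith
  · congr 2
    rw [pow_mul']
    field_simp
    ring

/-- Exponential beats polynomial, in the form needed below. -/
private theorem exists_n0 (b : ℝ) (hb : 0 < b) :
    ∃ n₀ : ℕ, ∀ n : ℕ, n₀ ≤ n → ((n : ℝ) ^ 4 + 1) * (2 * Real.exp (-(b * n))) < 1 := by
  have h1 : Filter.Tendsto (fun x : ℝ => (x ^ 4 + 1) * (2 * Real.exp (-(b * x)))) Filter.atTop
      (nhds 0) := by
    have h2 := Real.tendsto_pow_mul_exp_neg_atTop_nhds_zero 4
    have h3 : Filter.Tendsto (fun x : ℝ => b * x) Filter.atTop Filter.atTop :=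
      Filter.tendsto_id.const_mul_atTop hb
    have h4 := h2.comp h3
    have h5 := (Real.tendsto_exp_neg_atTop_nhds_zero).comp h3
    have h6 := (h4.const_mul (2 / b ^ 4)).add (h5.const_mul 2)
    simp only [mul_zero, add_zero] at h6
    refine h6.congr fun x => ?_
    simp only [Function.comp_apply]
    field_simp
  have h2 : ∀ᶠ x : ℝ in Filter.atTop, (x ^ 4 + 1) * (2 * Real.exp (-(b * x))) < 1 :=
    h1.eventually_lt_const one_pos
  obtain ⟨x₀, hx₀⟩ := Filter.eventually_atTop.1 h2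
  obtain ⟨n₀, hn₀⟩ := exists_nat_ge x₀
  refine ⟨n₀, fun n hn => hx₀ n (hn₀.trans ?_)⟩
  exact_mod_cast hn

/-- **Random subset (RS).** For `n` large: in a finite set `A` with at least `c n` elements and for
at most `n ^ 4` families, each of at least `c n` subsets of `A` of size at most 3, no element in
more than 20 sets of one family, there is `R ⊆ A` of size between `|A| / (2 K)` and
`3 |A| / (2 K)` such that in every family at least the fraction `1 / (2 K ^ 3)` of the sets lies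
in `R`. -/
theorem random_subset {α : Type*} [DecidableEq α] (K : ℕ) (hK : 0 < K) (c : ℝ) (hc : 0 < c) :
    ∃ n₀ : ℕ, ∀ n : ℕ, n₀ ≤ n → ∀ A : Finset α, c * n ≤ (A.card : ℝ) →
      ∀ {F J : Type*} (Fam : Finset F) (S : F → Finset J) (e : F → J → Finset α),
        (Fam.card : ℝ) ≤ (n : ℝ) ^ 4 →
        (∀ f ∈ Fam, ∀ j ∈ S f, e f j ⊆ A ∧ (e f j).card ≤ 3) →
        (∀ f ∈ Fam, ∀ a, ((S f).filter fun j => a ∈ e f j).card ≤ 20) →
        (∀ f ∈ Fam, c * n ≤ ((S f).card : ℝ)) →
        ∃ R ⊆ A, (A.card : ℝ) / (2 * K) ≤ (R.card : ℝ) ∧ (R.card : ℝ) ≤ 3 * (A.card : ℝ) / (2 * K) ∧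
          ∀ f ∈ Fam, ((S f).card : ℝ) / (2 * (K : ℝ) ^ 3) ≤
            (((S f).filter fun j => e f j ⊆ R).card : ℝ) := by
  classical
  have hK0 : (0 : ℝ) < K := by exact_mod_cast hK
  have hK1 : (1 : ℝ) ≤ K := by exact_mod_cast hK
  set b : ℝ := c / (480 * (K : ℝ) ^ 6) with hb
  have hb0 : 0 < b := by positivity
  obtain ⟨n₁, hn₁⟩ := exists_n0 b hb0
  refine ⟨max n₁ 1, fun n hn A hA F J Fam S e hFam he hdeg hS => ?_⟩
  have hn1 : n₁ ≤ n := le_trans (le_max_left _ _) hn
  have hn0 : (0 : ℝ) < n := by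
    have : 1 ≤ n := le_trans (le_max_right _ _) hn
    exact_mod_cast this
  have hcn : 0 < c * n := by positivity
  have hAne : A.Nonempty := by
    rw [← card_pos]
    have : (0 : ℝ) < A.card := lt_of_lt_of_le hcn hA
    exact_mod_cast this
  have : Nonempty (Fin K) := ⟨⟨0, hK⟩⟩
  -- the sets as subsets of the subtype
  set T : F → J → Finset ↥A := fun f j => (univ : Finset ↥A).filter fun a => (a : α) ∈ e f j with hT
  have hTc : ∀ f ∈ Fam, ∀ j ∈ S f, (T f j).card ≤ 3 := by
    intro f hf j hj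
    refine le_trans ?_ (he f hf j hj).2
    rw [← card_image_of_injective (T f j) Subtype.val_injective]
    refine card_le_card fun a ha => ?_
    obtain ⟨x, hx, rfl⟩ := mem_image.1 ha
    exact (mem_filter.1 hx).2
  have hTd : ∀ f ∈ Fam, ∀ a, ((S f).filter fun j => a ∈ T f j).card ≤ 20 := by
    intro f hf a
    refine le_trans (card_le_card fun j hj => ?_) (hdeg f hf a)
    rw [mem_filter] at hj ⊢
    exact ⟨hj.1, (mem_filter.1 hj.2).2⟩
  set bad1 : (↥A → Fin K) → Prop := fun ω => ¬ (((univ : Finset ↥A).card : ℝ) / (2 * K) ≤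
        (((univ : Finset ↥A).filter fun x => (ω x).val = 0).card : ℝ) ∧
        (((univ : Finset ↥A).filter fun x => (ω x).val = 0).card : ℝ) ≤
          3 * ((univ : Finset ↥A).card : ℝ) / (2 * K)) with hbad1
  set bad2 : F → (↥A → Fin K) → Prop := fun f ω =>
    (((S f).filter fun j => ∀ i ∈ T f j, (ω i).val = 0).card : ℝ) ≤
        (S f).card / (2 * (K : ℝ) ^ 3) with hbad2
  have huniv : ((univ : Finset ↥A).card : ℝ) = A.card := by
    rw [card_univ, Fintype.card_coe]
  have h1 : Pr bad1 ≤ 2 * Real.exp (-(b * n)) := by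
    have hne : (univ : Finset ↥A).Nonempty := by
      rw [← card_pos, card_univ, Fintype.card_coe]
      exact hAne.card_pos
    refine (Pr_card_two_sided K hK univ hne).trans ?_
    refine mul_le_mul_of_nonneg_left (Real.exp_le_exp.2 (neg_le_neg ?_)) (by norm_num)
    rw [huniv, hb, le_div_iff₀ (by positivity), div_mul_eq_mul_div, div_mul_eq_mul_div,
      div_le_iff₀ (by positivity)]
    have h2 : (K : ℝ) ^ 2 ≤ (K : ℝ) ^ 6 := pow_le_pow_right₀ hK1 (by norm_num)
    have h3 : 0 < (K : ℝ) ^ 2 := by positivity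
    nlinarith [mul_le_mul hA h2 h3.le (Nat.cast_nonneg _), Nat.cast_nonneg (α := ℝ) A.card]
  have h2 : ∀ f ∈ Fam, Pr (bad2 f) ≤ 2 * Real.exp (-(b * n)) := by
    intro f hf
    have hSne : (S f).Nonempty := by
      rw [← card_pos]
      have : (0 : ℝ) < (S f).card := lt_of_lt_of_le hcn (hS f hf)
      exact_mod_cast this
    refine (Pr_subset_lower' K hK (S f) (T f) 3 20 (by norm_num) (by norm_num) (hTc f hf)
      (hTd f hf) hSne).trans ?_
    refine mul_le_mul_of_nonneg_left (Real.exp_le_exp.2 (neg_le_neg ?_)) (by norm_num)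
    have h3 := hS f hf
    rw [hb]
    push_cast
    rw [div_mul_eq_mul_div, div_le_div_iff₀ (by positivity) (by positivity)]
    have h4 : (0 : ℝ) < (K : ℝ) ^ 6 := by positivity
    nlinarith [mul_le_mul_of_nonneg_right h3 h4.le]
  have h3 : Pr (fun ω => bad1 ω ∨ ∃ f ∈ Fam, bad2 f ω) < 1 := by
    refine (Pr_or_le _ _).trans_lt ?_
    have h4 : Pr (fun ω => ∃ f ∈ Fam, bad2 f ω) ≤ Fam.card * (2 * Real.exp (-(b * n))) := by
      refine (Pr_exists_le _ _).trans ((sum_le_sum h2).trans ?_)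
      rw [sum_const, nsmul_eq_mul]
    have h5 : (Fam.card : ℝ) * (2 * Real.exp (-(b * n))) ≤
        (n : ℝ) ^ 4 * (2 * Real.exp (-(b * n))) :=
      mul_le_mul_of_nonneg_right hFam (by positivity)
    have h6 := hn₁ n hn1
    linarith
  obtain ⟨ω, hω⟩ := exists_not_of_Pr_lt_one h3
  rw [not_or] at hω
  have hω1 : ((univ : Finset ↥A).card : ℝ) / (2 * K) ≤
        (((univ : Finset ↥A).filter fun x => (ω x).val = 0).card : ℝ) ∧
        (((univ : Finset ↥A).filter fun x => (ω x).val = 0).card : ℝ) ≤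
          3 * ((univ : Finset ↥A).card : ℝ) / (2 * K) := by
    by_contra hcon
    exact hω.1 hcon
  rw [huniv] at hω1
  set R : Finset α := ((univ : Finset ↥A).filter fun x => (ω x).val = 0).image Subtype.val with hR
  have hRc : R.card = ((univ : Finset ↥A).filter fun x => (ω x).val = 0).card :=
    card_image_of_injective _ Subtype.val_injective
  refine ⟨R, ?_, ?_, ?_, ?_⟩
  · intro a ha
    obtain ⟨x, _, rfl⟩ := mem_image.1 ha
    exact x.2
  · rw [hRc]
    exact hω1.1
  · rw [hRc]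
    exact hω1.2
  · intro f hf
    have h4 : ¬ bad2 f ω := fun h => hω.2 ⟨f, hf, h⟩
    simp only [hbad2, not_le] at h4
    refine h4.le.trans ?_
    norm_cast
    refine card_le_card fun j hj => ?_
    rw [mem_filter] at hj ⊢
    refine ⟨hj.1, fun a ha => ?_⟩
    have haA := (he f hf j hj.1).1 ha
    refine mem_image.2 ⟨⟨a, haA⟩, ?_, rfl⟩
    rw [mem_filter]
    refine ⟨mem_univ _, hj.2 ⟨a, haA⟩ ?_⟩
    simp only [hT, mem_filter]
    exact ⟨mem_univ _, ha⟩

end Pool.Agent.PGr
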