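import Mathlib
import Pool.Agent.PGr.PVert
import Pool.Agent.PGr.RS

/-!
# PGr-P-R1: the random set R1 of reserved differences

PLAN. `aa_card`: take a high anchor `a` (for example `a = 3n`, i.e. the number `3n`; `isAnc` is not needed) and
`z1, z2 ∈ [n, 2n]` pairwise incongruent mod q: `Ok.df` gives `≥ c1 n` labels `x` with `|x - a| ∈ AA`, and
`x ↦ |x - a| = a - x` is injective on `x ≤ a`.
`r1_exists`: `random_subset` (RS.lean) with `A = AA`, index type of the families `ℤ ⊕ (ℤ × ℤ × ℤ × Fin 4)`: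
`inl d` for `d ∈ dall n`: index set `M_d` (from `CovM`, choose), `e p = {e1 p, e2 p}`;
`inr (a, z1, z2, j)` for `a, z1, z2 ∈ [0, 3n]` pairwise incongruent and satisfying the j-th case of `defCase`:
index set `defSet AA lo hi a z1 z2`, `e x = {|x-a|, |x-z1|, |x-z2|}`. So `J = Pack ⊕ ℤ`. At most
`2n + 4 (3n+1)^3 ≤ n^4` families of size `≥ min c1 c2 * n`; multiplicities: `≤ 4` by `CovM`; for the
default families `≤ 6` (`|x - a| = r` has two solutions). Result `R`: the sets with `e ⊆ R` give `CovM E R PR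
(c2 n / (2K^3))` (subset of `M_d`, same `x, e1, e2`) and `defSet R ⊇ {x ∈ defSet AA : e x ⊆ R}`.
(`z1, z2` in `defCase` lie in `[.9n, 2.1n]`, `a ∈ [0, 3n]`.)
-/

noncomputable section

namespace Pool.Agent.PGr.PPk

open Finset

private def loF (j : Fin 4) : ℝ := ![211 / 100, 221 / 100, 81 / 100, 71 / 100] j

private def hiF (j : Fin 4) : ℝ := ![219 / 100, 229 / 100, 89 / 100, 79 / 100] j

private theorem case_j {E : Env} {a z1 z2 : ℤ} {lo hi' : ℝ} (h : E.defCase a z1 z2 lo hi') :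
    ∃ j : Fin 4, lo = loF j ∧ hi' = hiF j := by
  rcases h with h | h | h | h
  · exact ⟨0, h.2.2.2.2.1, h.2.2.2.2.2⟩
  · exact ⟨1, h.2.2.2.2.1, h.2.2.2.2.2⟩
  · exact ⟨2, h.2.2.2.2.1, h.2.2.2.2.2⟩
  · exact ⟨3, h.2.2.2.2.1, h.2.2.2.2.2⟩

private theorem inI_bd {n : ℕ} {a b : ℝ} (ha : 0 ≤ a) (hb : b ≤ 3) {z : ℤ} (h : inI n a b z) :
    z ∈ Icc (0 : ℤ) (3 * n) := by
  obtain ⟨h1, h2⟩ := h
  have hn : (0 : ℝ) ≤ n := Nat.cast_nonneg n
  rw [mem_Icc]
  constructor
  · have : (0 : ℝ) ≤ (z : ℝ) := le_trans (mul_nonneg ha hn) h1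
    exact_mod_cast this
  · have : (z : ℝ) ≤ 3 * (n : ℝ) := le_trans h2 (mul_le_mul_of_nonneg_right hb hn)
    exact_mod_cast this

private theorem case_bd {E : Env} {a z1 z2 : ℤ} {lo hi' : ℝ} (h : E.defCase a z1 z2 lo hi') :
    a ∈ Icc (0 : ℤ) (3 * E.n) ∧ z1 ∈ Icc (0 : ℤ) (3 * E.n) ∧ z2 ∈ Icc (0 : ℤ) (3 * E.n) := by
  have hn : (0 : ℤ) ≤ (E.n : ℤ) := Int.natCast_nonneg _
  rcases h with h | h | h | h
  · refine ⟨mem_Icc.mpr ⟨?_, h.2.1⟩, inI_bd (by norm_num) (by norm_num) h.2.2.1,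
      inI_bd (by norm_num) (by norm_num) h.2.2.2.1⟩
    have := h.1
    omega
  · refine ⟨mem_Icc.mpr ⟨?_, h.2.1⟩, inI_bd (by norm_num) (by norm_num) h.2.2.1,
      inI_bd (by norm_num) (by norm_num) h.2.2.2.1⟩
    have := h.1
    omega
  · refine ⟨mem_Icc.mpr ⟨h.1, ?_⟩, inI_bd (by norm_num) (by norm_num) h.2.2.1,
      inI_bd (by norm_num) (by norm_num) h.2.2.2.1⟩
    have := h.2.1
    omega
  · refine ⟨mem_Icc.mpr ⟨h.1, ?_⟩, inI_bd (by norm_num) (by norm_num) h.2.2.1,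
      inI_bd (by norm_num) (by norm_num) h.2.2.2.1⟩
    have := h.2.1
    omega

open Classical in
private theorem mem_defSet' {E : Env} {R : Finset ℤ} {lo hi' : ℝ} {a z1 z2 x : ℤ} :
    x ∈ E.defSet R lo hi' a z1 z2 ↔ x ∈ E.LAM ∧ inI E.n lo hi' x ∧ |x - a| ∈ R ∧ |x - z1| ∈ R ∧
      |x - z2| ∈ R ∧ |x - a| ≠ |x - z1| ∧ |x - a| ≠ |x - z2| ∧ |x - z1| ≠ |x - z2| := by
  unfold Env.defSet
  exact mem_filter

/-- among three consecutive integers one is incongruent to two given ones -/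
private theorem avoid2 {q : ℤ} (hq : 3 ≤ q) (u v w : ℤ) :
    ∃ z, u ≤ z ∧ z ≤ u + 2 ∧ ¬ q ∣ v - z ∧ ¬ q ∣ w - z := by
  by_contra hcon
  push Not at hcon
  have h0 := hcon u le_rfl (by omega)
  have h1 := hcon (u + 1) (by omega) (by omega)
  have h2 := hcon (u + 2) (by omega) le_rfl
  have key : ∀ t i j : ℤ, i < j → j - i < q → q ∣ t - i → q ∣ t - j → False := by
    intro t i j hij hlt hi hj
    have h3 : q ∣ j - i := by
      have h4 := dvd_sub hi hj
      have e : (t - i) - (t - j) = j - i := by ring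
      rwa [e] at h4
    have h5 := Int.le_of_dvd (by omega) h3
    omega
  by_cases a0 : q ∣ v - u
  · by_cases a1 : q ∣ v - (u + 1)
    · exact key v u (u + 1) (by omega) (by omega) a0 a1
    · by_cases a2 : q ∣ v - (u + 2)
      · exact key v u (u + 2) (by omega) (by omega) a0 a2
      · exact key w (u + 1) (u + 2) (by omega) (by omega) (h1 a1) (h2 a2)
  · by_cases a1 : q ∣ v - (u + 1)
    · by_cases a2 : q ∣ v - (u + 2)
      · exact key v (u + 1) (u + 2) (by omega) (by omega) a1 a2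
      · exact key w u (u + 2) (by omega) (by omega) (h0 a0) (h2 a2)
    · exact key w u (u + 1) (by omega) (by omega) (h0 a0) (h1 a1)

theorem aa_card (c1 : ℝ) (hc1 : 0 < c1) : ∃ n0 : ℕ, ∀ (E : Env) (κ1 ρ : ℝ), n0 ≤ E.n →
    E.Ok κ1 ρ c1 → c1 * E.n ≤ (E.AA.card : ℝ) := by
  refine ⟨10, fun E κ1 ρ hn hE => ?_⟩
  have hq : (3 : ℤ) ≤ E.q := by
    have := E.base.q_big
    omega
  obtain ⟨z1, l1, u1, a1, -⟩ := avoid2 hq (E.n : ℤ) (3 * E.n) (3 * E.n)
  obtain ⟨z2, l2, u2, a2, b2⟩ := avoid2 hq (E.n : ℤ) (3 * E.n) z1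
  have hnR : (10 : ℝ) ≤ (E.n : ℝ) := by exact_mod_cast hn
  have hz : ∀ z : ℤ, (E.n : ℤ) ≤ z → z ≤ E.n + 2 → inI E.n (9 / 10) 2 z := by
    intro z h1 h2
    have h1' : (E.n : ℝ) ≤ (z : ℝ) := by exact_mod_cast h1
    have h2' : (z : ℝ) ≤ (E.n : ℝ) + 2 := by exact_mod_cast h2
    constructor <;> linarith
  have hcase : E.defCase (3 * E.n) z1 z2 (211 / 100) (219 / 100) := by
    left
    exact ⟨by omega, le_rfl, hz z1 l1 u1, hz z2 l2 u2, rfl, rfl⟩
  have h := hE.df (3 * E.n) z1 z2 (211 / 100) (219 / 100) ⟨a1, a2, b2⟩ hcase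
  refine h.trans ?_
  have hcard : (E.defSet E.AA (211 / 100) (219 / 100) (3 * E.n) z1 z2).card ≤ E.AA.card := by
    refine card_le_card_of_injOn (fun x => |x - 3 * (E.n : ℤ)|) ?_ ?_
    · intro x hx
      rw [mem_coe, mem_defSet'] at hx
      exact hx.2.2.1
    · have hle : ∀ x ∈ E.defSet E.AA (211 / 100) (219 / 100) (3 * E.n) z1 z2,
          x ≤ 3 * (E.n : ℤ) := by
        intro x hx
        rw [mem_defSet'] at hx
        exact (mem_Icc.mp (inI_bd (n := E.n) (a := 211 / 100) (b := 219 / 100) (by norm_num)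
          (by norm_num) hx.2.1)).2
      intro x hx y hy hxy
      have h1 := hle x hx
      have h2 := hle y hy
      simp only at hxy
      rw [abs_of_nonpos (by omega), abs_of_nonpos (by omega)] at hxy
      omega
  exact_mod_cast hcard

/-- the sets of the families -/
private def eF (e1 e2 : ℤ → Pack → ℤ) : ℤ ⊕ (ℤ × ℤ × ℤ × Fin 4) → Pack ⊕ ℤ → Finset ℤ
  | Sum.inl d, Sum.inl p => {e1 d p, e2 d p}
  | Sum.inr t, Sum.inr x => {|x - t.1|, |x - t.2.1|, |x - t.2.2.1|}
  | _, _ => ∅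

/-- the index sets of the families -/
private def sF (E : Env) (M : ℤ → Finset Pack) : ℤ ⊕ (ℤ × ℤ × ℤ × Fin 4) → Finset (Pack ⊕ ℤ)
  | Sum.inl d => (M d).image Sum.inl
  | Sum.inr t => (E.defSet E.AA (loF t.2.2.2) (hiF t.2.2.2) t.1 t.2.1 t.2.2.1).image Sum.inr

open Classical in
/-- the families -/
private def famF (E : Env) : Finset (ℤ ⊕ (ℤ × ℤ × ℤ × Fin 4)) :=
  (dall E.n).disjSum (((Icc (0 : ℤ) (3 * E.n)) ×ˢ (Icc (0 : ℤ) (3 * E.n)) ×ˢ
    (Icc (0 : ℤ) (3 * E.n)) ×ˢ (univ : Finset (Fin 4))).filter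
      (fun t => E.inc3 t.1 t.2.1 t.2.2.1 ∧
        E.defCase t.1 t.2.1 t.2.2.1 (loF t.2.2.2) (hiF t.2.2.2)))

open Classical in
private theorem famF_card (E : Env) (hn : 300 ≤ E.n) :
    ((famF E).card : ℝ) ≤ (E.n : ℝ) ^ 4 := by
  have h1 : (famF E).card ≤ 2 * E.n + (3 * E.n + 1) * ((3 * E.n + 1) * ((3 * E.n + 1) * 4)) := by
    unfold famF
    rw [card_disjSum, dall_card (by omega)]
    refine Nat.add_le_add_left ((card_filter_le _ _).trans ?_) _
    rw [card_product, card_product, card_product, Int.card_Icc, card_univ, Fintype.card_fin]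
    have : (3 * (E.n : ℤ) + 1 - 0).toNat = 3 * E.n + 1 := by omega
    rw [this]
  have h2 : 2 * E.n + (3 * E.n + 1) * ((3 * E.n + 1) * ((3 * E.n + 1) * 4)) ≤ E.n ^ 4 := by
    have h3 : (3 * E.n + 1) ≤ 4 * E.n := by omega
    calc 2 * E.n + (3 * E.n + 1) * ((3 * E.n + 1) * ((3 * E.n + 1) * 4))
        ≤ 2 * E.n + (4 * E.n) * ((4 * E.n) * ((4 * E.n) * 4)) := by gcongr
      _ = 2 * E.n + 256 * E.n ^ 3 := by ring
      _ ≤ 2 * E.n ^ 3 + 256 * E.n ^ 3 := by
          have : E.n ≤ E.n ^ 3 := Nat.le_self_pow (by norm_num) _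
          omega
      _ = 258 * E.n ^ 3 := by ring
      _ ≤ E.n * E.n ^ 3 := Nat.mul_le_mul_right _ (by omega)
      _ = E.n ^ 4 := by ring
  calc ((famF E).card : ℝ) ≤ ((E.n ^ 4 : ℕ) : ℝ) := by exact_mod_cast h1.trans h2
    _ = (E.n : ℝ) ^ 4 := by push_cast; ring

theorem r1_exists (c1 c2 : ℝ) (hc1 : 0 < c1) (hc2 : 0 < c2) (K : ℕ) (hK : 0 < K) : ∃ n0 : ℕ,
    ∀ (E : Env) (κ1 ρ : ℝ) (PR : Finset Pack), n0 ≤ E.n → E.Ok κ1 ρ c1 →
      (∀ d ∈ dall E.n, CovM E E.AA PR (c2 * E.n) d) →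
      ∃ R1 ⊆ E.AA, (E.AA.card : ℝ) / (2 * K) ≤ (R1.card : ℝ) ∧
        (R1.card : ℝ) ≤ 3 * (E.AA.card : ℝ) / (2 * K) ∧
        (∀ d ∈ dall E.n, CovM E R1 PR (c2 / (2 * (K : ℝ) ^ 3) * E.n) d) ∧
        ∀ (a z1 z2 : ℤ) (lo hi' : ℝ), E.inc3 a z1 z2 → E.defCase a z1 z2 lo hi' →
          c1 / (2 * (K : ℝ) ^ 3) * E.n ≤ ((E.defSet R1 lo hi' a z1 z2).card : ℝ) := by
  obtain ⟨n1, h1⟩ := aa_card c1 hc1
  obtain ⟨n2, h2⟩ := random_subset (α := ℤ) K hK (min c1 c2) (lt_min hc1 hc2)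
  refine ⟨max 300 (max n1 n2), fun E κ1 ρ PR hn hE hcov => ?_⟩
  classical
  have hn300 : 300 ≤ E.n := le_trans (le_max_left _ _) hn
  have hn1 : n1 ≤ E.n := le_trans ((le_max_left _ _).trans (le_max_right _ _)) hn
  have hn2 : n2 ≤ E.n := le_trans ((le_max_right _ _).trans (le_max_right _ _)) hn
  have hnR : (0 : ℝ) ≤ (E.n : ℝ) := Nat.cast_nonneg _
  have hKR : (0 : ℝ) < (K : ℝ) := by exact_mod_cast hK
  have hcov' : ∀ d : ℤ, ∃ (M : Finset Pack) (x e1 e2 : Pack → ℤ), d ∈ dall E.n →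
      M ⊆ PR ∧ c2 * E.n ≤ (M.card : ℝ) ∧
      (∀ p ∈ M, x p ∈ E.LAM ∧ e1 p ∈ E.AA ∧ e2 p ∈ E.AA ∧ e1 p ≠ e2 p ∧
        (univ : Finset (Fin 3)).image (pd3 E p (x p)) = {d, e1 p, e2 p}) ∧
      (∀ p ∈ M, ∀ p' ∈ M, x p = x p' → p = p') ∧
      ∀ r : ℤ, (M.filter (fun p => e1 p = r ∨ e2 p = r)).card ≤ 4 := by
    intro d
    by_cases hd : d ∈ dall E.n
    · obtain ⟨M, x, e1, e2, g1, g2, g3, g4, g5⟩ := hcov d hd
      refine ⟨M, x, e1, e2, fun _ => ⟨g1, g2, g3, g4, fun r => ?_⟩⟩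
      refine le_trans (card_le_card ?_) (g5 r)
      intro p hp
      rw [mem_filter] at hp ⊢
      exact hp
    · exact ⟨∅, fun _ => 0, fun _ => 0, fun _ => 0, fun h => absurd h hd⟩
  choose M x e1 e2 hM using hcov'
  have hAA : min c1 c2 * E.n ≤ (E.AA.card : ℝ) :=
    le_trans (mul_le_mul_of_nonneg_right (min_le_left _ _) hnR) (h1 E κ1 ρ hn1 hE)
  have hmemL : ∀ d, Sum.inl d ∈ famF E ↔ d ∈ dall E.n := by
    intro d
    unfold famF
    rw [inl_mem_disjSum]
  have hmemR : ∀ t : ℤ × ℤ × ℤ × Fin 4, Sum.inr t ∈ famF E ↔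
      (t.1 ∈ Icc (0 : ℤ) (3 * E.n) ∧ t.2.1 ∈ Icc (0 : ℤ) (3 * E.n) ∧
        t.2.2.1 ∈ Icc (0 : ℤ) (3 * E.n)) ∧ E.inc3 t.1 t.2.1 t.2.2.1 ∧
        E.defCase t.1 t.2.1 t.2.2.1 (loF t.2.2.2) (hiF t.2.2.2) := by
    intro t
    unfold famF
    rw [inr_mem_disjSum, mem_filter, mem_product, mem_product, mem_product]
    simp only [mem_univ, and_true]
  obtain ⟨R, hR1, hR2, hR3, hR4⟩ := h2 E.n hn2 E.AA hAA (famF E) (sF E M) (eF e1 e2)
    (famF_card E hn300) (by
      intro f hf j hj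
      rcases f with d | t
      · rw [hmemL] at hf
        obtain ⟨g1, g2, g3, g4, g5⟩ := hM d hf
        simp only [sF, mem_image] at hj
        obtain ⟨p, hp, rfl⟩ := hj
        simp only [eF]
        obtain ⟨k1, k2, k3, k4, k5⟩ := g3 p hp
        refine ⟨?_, card_le_two.trans (by norm_num)⟩
        intro y hy
        rw [mem_insert, mem_singleton] at hy
        rcases hy with rfl | rfl
        · exact k2
        · exact k3
      · simp only [sF, mem_image] at hj
        obtain ⟨y, hy, rfl⟩ := hj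
        simp only [eF]
        rw [mem_defSet'] at hy
        refine ⟨?_, card_le_three⟩
        intro w hw
        rw [mem_insert, mem_insert, mem_singleton] at hw
        rcases hw with rfl | rfl | rfl
        · exact hy.2.2.1
        · exact hy.2.2.2.1
        · exact hy.2.2.2.2.1) (by
      intro f hf a
      rcases f with d | t
      · rw [hmemL] at hf
        obtain ⟨g1, g2, g3, g4, g5⟩ := hM d hf
        refine le_trans ?_ ((g5 a).trans (by norm_num))
        rw [← card_image_of_injective (f := (Sum.inl : Pack → Pack ⊕ ℤ)) _ Sum.inl_injective]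
        refine card_le_card ?_
        intro j hj
        rw [mem_filter] at hj
        obtain ⟨hj1, hj2⟩ := hj
        simp only [sF, mem_image] at hj1
        obtain ⟨p, hp, rfl⟩ := hj1
        simp only [eF, mem_insert, mem_singleton] at hj2
        rw [mem_image]
        refine ⟨p, ?_, rfl⟩
        rw [mem_filter]
        refine ⟨hp, ?_⟩
        rcases hj2 with h' | h'
        · exact Or.inl h'.symm
        · exact Or.inr h'.symm
      · have hsub : ((sF E M (Sum.inr t)).filter fun j => a ∈ eF e1 e2 (Sum.inr t) j) ⊆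
            ({t.1 + a, t.1 - a, t.2.1 + a, t.2.1 - a, t.2.2.1 + a, t.2.2.1 - a} :
              Finset ℤ).image Sum.inr := by
          intro j hj
          rw [mem_filter] at hj
          obtain ⟨hj1, hj2⟩ := hj
          simp only [sF, mem_image] at hj1
          obtain ⟨y, hy, rfl⟩ := hj1
          simp only [eF, mem_insert, mem_singleton] at hj2
          rw [mem_image]
          refine ⟨y, ?_, rfl⟩
          simp only [mem_insert, mem_singleton]
          rcases hj2 with h' | h' | h'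
          · rcases abs_cases (y - t.1) with hh | hh <;> omega
          · rcases abs_cases (y - t.2.1) with hh | hh <;> omega
          · rcases abs_cases (y - t.2.2.1) with hh | hh <;> omega
        refine (card_le_card hsub).trans (card_image_le.trans (card_le_six.trans (by norm_num))))
    (by
      intro f hf
      rcases f with d | t
      · rw [hmemL] at hf
        obtain ⟨g1, g2, g3, g4, g5⟩ := hM d hf
        simp only [sF]
        rw [card_image_of_injective _ Sum.inl_injective]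
        exact le_trans (mul_le_mul_of_nonneg_right (min_le_right _ _) hnR) g2
      · rw [hmemR] at hf
        simp only [sF]
        rw [card_image_of_injective _ Sum.inr_injective]
        exact le_trans (mul_le_mul_of_nonneg_right (min_le_left _ _) hnR)
          (hE.df _ _ _ _ _ hf.2.1 hf.2.2))
  refine ⟨R, hR1, hR2, hR3, ?_, ?_⟩
  · intro d hd
    obtain ⟨g1, g2, g3, g4, g5⟩ := hM d hd
    have hmain := hR4 (Sum.inl d) ((hmemL d).mpr hd)
    refine ⟨(M d).filter (fun p => e1 d p ∈ R ∧ e2 d p ∈ R), x d, e1 d, e2 d,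
      (filter_subset _ _).trans g1, ?_, ?_, ?_, ?_⟩
    · have e0 : ((sF E M (Sum.inl d)).filter fun j => eF e1 e2 (Sum.inl d) j ⊆ R) =
          ((M d).filter (fun p => e1 d p ∈ R ∧ e2 d p ∈ R)).image Sum.inl := by
        ext j
        rw [mem_filter, mem_image]
        constructor
        · rintro ⟨hj1, hj2⟩
          simp only [sF, mem_image] at hj1
          obtain ⟨p, hp, rfl⟩ := hj1
          simp only [eF] at hj2
          refine ⟨p, mem_filter.mpr ⟨hp, hj2 (by simp), hj2 (by simp)⟩, rfl⟩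
        · rintro ⟨p, hp, rfl⟩
          rw [mem_filter] at hp
          refine ⟨?_, ?_⟩
          · simp only [sF, mem_image]
            exact ⟨p, hp.1, rfl⟩
          · simp only [eF]
            intro y hy
            rw [mem_insert, mem_singleton] at hy
            rcases hy with rfl | rfl
            · exact hp.2.1
            · exact hp.2.2
      rw [e0, card_image_of_injective _ Sum.inl_injective] at hmain
      refine le_trans ?_ hmain
      simp only [sF]
      rw [card_image_of_injective _ Sum.inl_injective, div_mul_eq_mul_div]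
      exact div_le_div_of_nonneg_right g2 (by positivity)
    · intro p hp
      rw [mem_filter] at hp
      obtain ⟨k1, k2, k3, k4, k5⟩ := g3 p hp.1
      exact ⟨k1, hp.2.1, hp.2.2, k4, k5⟩
    · intro p hp p' hp' hxx
      rw [mem_filter] at hp hp'
      exact g4 p hp.1 p' hp'.1 hxx
    · intro r
      refine le_trans (card_le_card ?_) (g5 r)
      intro p hp
      rw [mem_filter] at hp ⊢
      exact ⟨(mem_filter.mp hp.1).1, hp.2⟩
  · intro a z1 z2 lo hi' hinc hcase
    obtain ⟨j, rfl, rfl⟩ := case_j hcase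
    have hmain := hR4 (Sum.inr (a, z1, z2, j)) ((hmemR _).mpr ⟨case_bd hcase, hinc, hcase⟩)
    have hsub : ((sF E M (Sum.inr (a, z1, z2, j))).filter
        fun i => eF e1 e2 (Sum.inr (a, z1, z2, j)) i ⊆ R) ⊆
        (E.defSet R (loF j) (hiF j) a z1 z2).image Sum.inr := by
      intro i hi
      rw [mem_filter] at hi
      obtain ⟨hj1, hj2⟩ := hi
      simp only [sF, mem_image] at hj1
      obtain ⟨y, hy, rfl⟩ := hj1
      simp only [eF] at hj2
      rw [mem_image]
      refine ⟨y, ?_, rfl⟩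
      rw [mem_defSet'] at hy ⊢
      exact ⟨hy.1, hy.2.1, hj2 (by simp), hj2 (by simp), hj2 (by simp), hy.2.2.2.2.2⟩
    have h3 : (((sF E M (Sum.inr (a, z1, z2, j))).filter
        fun i => eF e1 e2 (Sum.inr (a, z1, z2, j)) i ⊆ R).card : ℝ) ≤
        ((E.defSet R (loF j) (hiF j) a z1 z2).card : ℝ) := by
      have h4 := card_le_card hsub
      rw [card_image_of_injective _ Sum.inr_injective] at h4
      exact_mod_cast h4
    refine le_trans ?_ (hmain.trans h3)
    simp only [sF]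
    rw [card_image_of_injective _ Sum.inr_injective, div_mul_eq_mul_div]
    exact div_le_div_of_nonneg_right (hE.df _ _ _ _ _ hinc hcase) (by positivity)

end Pool.Agent.PGr.PPk
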