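import Mathlib
import Pool.Agent.PGr.PGad

/-!
# PGr-P-Tm: absorption by the gadgets along the template

PLAN. `PA = ⋃ g z`. For `R'` take `f` from the template; for `z < 3m` let `Z z : Pack → ℤ` be the
labelling of the gadget `g z` for the option `f z ∈ H z` (`PGad`); `zz p := Z (the z with p ∈ g z) p`.
`DS E PA zz = ⋃_z DS E (g z) (Z z) = ⋃_z insert (f z) (pGG (g z)) = pGG PA ∪ (X ∪ R')`.
Cardinalities: `pGG PA` is the disjoint union of the `pGG (g z)` (different packs have disjoint `F ⊇ G`,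
`PFam.dj`; `pGG (g z)` has `3 |g z| - 1` elements by `PGad`), so `|pGG PA| + 3m = 3 |PA|`; `pGG PA ⊆ PD`
is disjoint from `X ∪ R' ⊆ AA` (`PD_AA`), `|X ∪ R'| = 3 m`.
-/

noncomputable section

namespace Pool.Agent.PGr.PPk

open Finset

private theorem G_sub_F (E : Env) (p : Pack) : p.G ⊆ p.F E := by
  intro x hx
  unfold Pack.F
  exact mem_insert_of_mem (mem_insert_of_mem hx)

private theorem PD_AA' (E : Env) : Disjoint E.PD E.AA := by
  classical
  rw [disjoint_left]
  intro d h1 h2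
  unfold Env.PD at h1
  unfold Env.AA at h2
  rw [mem_filter] at h1 h2
  have e1 := h1.2.2.2.2
  have e2 := h2.2.2.2.2.1
  rw [e1] at e2
  exact absurd e2 (by simp)

private theorem mem_pGG (Ps : Finset Pack) (d : ℤ) : d ∈ pGG Ps ↔ ∃ p ∈ Ps, d ∈ p.G := by
  unfold pGG
  rw [mem_biUnion]

private theorem mem_DS (E : Env) (Ps : Finset Pack) (z : Pack → ℤ) (d : ℤ) :
    d ∈ DS E Ps z ↔ ∃ p ∈ Ps, ∃ j, pd3 E p (z p) j = d := by
  unfold DS
  rw [mem_image]
  constructor
  · rintro ⟨⟨p, j⟩, hu, rfl⟩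
    rw [mem_product] at hu
    exact ⟨p, hu.1, j, rfl⟩
  · rintro ⟨p, hp, j, rfl⟩
    exact ⟨(p, j), mem_product.2 ⟨hp, mem_univ _⟩, rfl⟩

theorem absorb_packs (E : Env) {P3 : Finset ℕ} {L3 D3 : Finset ℤ} {T : ℝ} {m : ℕ}
    {g : ℕ → Finset Pack} {H : ℕ → Finset ℤ} {X R1 : Finset ℤ}
    (hF : PFam E P3 L3 D3 T ((range (3 * m)).biUnion g))
    (hg : ∀ z < 3 * m, PGad E (g z) (H z) (pGG (g z)))
    (hd : ∀ z < 3 * m, ∀ z' < 3 * m, z ≠ z' → Disjoint (g z) (g z'))
    (hX : X ⊆ E.AA) (hXc : X.card = 2 * m) (hR : R1 ⊆ E.AA) (hXR : Disjoint X R1)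
    (hT : ∀ R' ⊆ R1, R'.card = m → ∃ f : ℕ → ℤ, (∀ z < 3 * m, f z ∈ H z) ∧
      Set.InjOn f (Set.Iio (3 * m)) ∧ (range (3 * m)).image f = X ∪ R') :
    (pGG ((range (3 * m)).biUnion g) ∪ X).card + m = 3 * ((range (3 * m)).biUnion g).card ∧
    ∀ R' ⊆ R1, R'.card = m → ∃ z : Pack → ℤ,
      (∀ p ∈ (range (3 * m)).biUnion g, z p ∈ p.J) ∧
      DS E ((range (3 * m)).biUnion g) z = pGG ((range (3 * m)).biUnion g) ∪ X ∪ R' ∧
      (pGG ((range (3 * m)).biUnion g) ∪ X ∪ R').card =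
        3 * ((range (3 * m)).biUnion g).card := by
  classical
  set PA : Finset Pack := (range (3 * m)).biUnion g with hPA
  have hmem : ∀ z < 3 * m, ∀ p ∈ g z, p ∈ PA := by
    intro z hz p hp
    rw [hPA, mem_biUnion]
    exact ⟨z, mem_range.2 hz, hp⟩
  -- the private differences
  have hGG : pGG PA = (range (3 * m)).biUnion (fun z => pGG (g z)) := by
    ext d
    rw [mem_pGG, mem_biUnion]
    constructor
    · rintro ⟨p, hp, hd⟩
      rw [hPA, mem_biUnion] at hp
      obtain ⟨z, hz, hpz⟩ := hp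
      exact ⟨z, hz, (mem_pGG _ _).2 ⟨p, hpz, hd⟩⟩
    · rintro ⟨z, hz, hd⟩
      obtain ⟨p, hp, hdp⟩ := (mem_pGG _ _).1 hd
      exact ⟨p, hmem z (mem_range.1 hz) p hp, hdp⟩
  have hdisj : ∀ z < 3 * m, ∀ z' < 3 * m, z ≠ z' → Disjoint (pGG (g z)) (pGG (g z')) := by
    intro z hz z' hz' hne
    rw [disjoint_left]
    intro d h1 h2
    obtain ⟨p, hp, hdp⟩ := (mem_pGG _ _).1 h1
    obtain ⟨p', hp', hdp'⟩ := (mem_pGG _ _).1 h2
    have hpp : p ≠ p' := by
      rintro rfl
      exact (disjoint_left.1 (hd z hz z' hz' hne)) hp hp'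
    have hc := hF.dj p (hmem z hz p hp) p' (hmem z' hz' p' hp') hpp
    exact (disjoint_left.1 hc.2.2) (G_sub_F E p hdp) (G_sub_F E p' hdp')
  have hc1 : (pGG PA).card = ∑ z ∈ range (3 * m), (pGG (g z)).card := by
    rw [hGG]
    apply card_biUnion
    intro z hz z' hz' hne
    exact hdisj z (mem_range.1 hz) z' (mem_range.1 hz') hne
  have hc2 : PA.card = ∑ z ∈ range (3 * m), (g z).card := by
    rw [hPA]
    apply card_biUnion
    intro z hz z' hz' hne
    exact hd z (mem_range.1 hz) z' (mem_range.1 hz') hne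
  have hc3 : (pGG PA).card + 3 * m = 3 * PA.card := by
    rw [hc1, hc2, mul_sum]
    have : ∑ z ∈ range (3 * m), (pGG (g z)).card + 3 * m =
        ∑ z ∈ range (3 * m), ((pGG (g z)).card + 1) := by
      rw [sum_add_distrib, sum_const, card_range, smul_eq_mul, mul_one]
    rw [this]
    exact sum_congr rfl fun z hz => (hg z (mem_range.1 hz)).1
  have hPD : pGG PA ⊆ E.PD := by
    intro d hd
    obtain ⟨p, hp, hdp⟩ := (mem_pGG _ _).1 hd
    exact (hF.ok p hp).FPD (G_sub_F E p hdp)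
  have hdAA : Disjoint (pGG PA) E.AA := (PD_AA' E).mono_left hPD
  refine ⟨?_, ?_⟩
  · rw [card_union_of_disjoint (hdAA.mono_right hX), hXc]
    omega
  · intro R' hR' hRc
    obtain ⟨f, hf, _, hfi⟩ := hT R' hR' hRc
    have hZ : ∀ z, ∃ Z : Pack → ℤ, z < 3 * m →
        (∀ p ∈ g z, Z p ∈ p.J) ∧ DS E (g z) Z = insert (f z) (pGG (g z)) := by
      intro z
      by_cases hz : z < 3 * m
      · obtain ⟨Z, hZ1, hZ2⟩ := (hg z hz).2.2 (f z) (hf z hz)
        exact ⟨Z, fun _ => ⟨hZ1, hZ2⟩⟩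
      · exact ⟨fun _ => 0, fun h => absurd h hz⟩
    choose Z hZ using hZ
    set zz : Pack → ℤ := fun p =>
      if h : ∃ z, z < 3 * m ∧ p ∈ g z then Z h.choose p else 0 with hzz
    have hzv : ∀ z < 3 * m, ∀ p ∈ g z, zz p = Z z p := by
      intro z hz p hp
      have hex : ∃ z, z < 3 * m ∧ p ∈ g z := ⟨z, hz, hp⟩
      have hs := hex.choose_spec
      have he : hex.choose = z := by
        by_contra hne
        exact (disjoint_left.1 (hd _ hs.1 z hz hne)) hs.2 hp
      rw [hzz]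
      simp only [dif_pos hex]
      rw [he]
    refine ⟨zz, ?_, ?_, ?_⟩
    · intro p hp
      rw [hPA, mem_biUnion] at hp
      obtain ⟨z, hz, hpz⟩ := hp
      rw [mem_range] at hz
      rw [hzv z hz p hpz]
      exact (hZ z hz).1 p hpz
    · have hDS : DS E PA zz = (range (3 * m)).biUnion (fun z => insert (f z) (pGG (g z))) := by
        ext d
        rw [mem_DS, mem_biUnion]
        constructor
        · rintro ⟨p, hp, j, hj⟩
          rw [hPA, mem_biUnion] at hp
          obtain ⟨z, hz, hpz⟩ := hp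
          refine ⟨z, hz, ?_⟩
          rw [mem_range] at hz
          rw [← (hZ z hz).2, mem_DS]
          rw [hzv z hz p hpz] at hj
          exact ⟨p, hpz, j, hj⟩
        · rintro ⟨z, hz, hdz⟩
          rw [mem_range] at hz
          rw [← (hZ z hz).2, mem_DS] at hdz
          obtain ⟨p, hp, j, hj⟩ := hdz
          refine ⟨p, hmem z hz p hp, j, ?_⟩
          rw [hzv z hz p hp]
          exact hj
      rw [hDS, union_assoc, ← hfi, hGG]
      ext d
      simp only [mem_biUnion, mem_insert, mem_union, mem_image]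
      constructor
      · rintro ⟨z, hz, h1 | h1⟩
        · exact Or.inr ⟨z, hz, h1.symm⟩
        · exact Or.inl ⟨z, hz, h1⟩
      · rintro (⟨z, hz, h1⟩ | ⟨z, hz, h1⟩)
        · exact ⟨z, hz, Or.inr h1⟩
        · exact ⟨z, hz, Or.inl h1.symm⟩
    · have hXR' : Disjoint X R' := hXR.mono_right hR'
      have hsub : X ∪ R' ⊆ E.AA := union_subset hX (hR'.trans hR)
      rw [union_assoc, card_union_of_disjoint (hdAA.mono_right hsub),
        card_union_of_disjoint hXR', hXc, hRc]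
      omega

end Pool.Agent.PGr.PPk
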