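import Mathlib
import Pool.Agent.PGr.PMk
import Pool.Agent.PGr.PCvG
import Pool.Agent.PGr.PAbs
import Pool.Agent.PGr.PTm
import Pool.Agent.PGr.P3S
import Pool.Agent.PGr.P3L
import Pool.Agent.PGr.PR1
import Pool.Agent.PGr.Tmp

/-!
# PGr, part P: existence of the plan (`PExThm`)
-/

noncomputable section

namespace Pool.Agent.PGr.PPk

open Finset

private theorem p3set_mono {E : Env} {P3 : Finset ℕ} {Bd : Finset (ZMod (E.q ^ 2))} {κ κ' : ℝ}
    (h : P3Set E P3 Bd κ) (hκ : κ ≤ κ') : P3Set E P3 Bd κ' where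
  P_sub := h.P_sub
  Pk_sub := h.Pk_sub
  B_vs := h.B_vs
  own := h.own
  gen0 := h.gen0
  card := h.card.trans (mul_le_mul_of_nonneg_right hκ (Nat.cast_nonneg _))
  bdc := h.bdc
  load := fun u hu => (h.load u hu).trans (by gcongr)

private theorem D3_card {E : Env} {P3 : Finset ℕ} {Bd : Finset (ZMod (E.q ^ 2))} {κ : ℝ}
    (h : P3Set E P3 Bd κ) (pl3 : ℕ → ℤ) : (D3 E P3 pl3).card ≤ 2 * P3.card := by
  have h1 : (E.PP.image (ed3 E pl3)).card ≤ P3.card := by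
    refine card_image_le.trans (card_le_card ?_)
    intro v hv
    exact h.Pk_sub (mem_filter.1 hv).1
  have h2 : (P3.image (sp3 E pl3)).card ≤ P3.card := card_image_le
  have h3 := card_union_le (P3.image (sp3 E pl3)) (E.PP.image (ed3 E pl3))
  unfold D3
  omega

private theorem big_q (X : ℝ) : ∃ n0 : ℕ, ∀ E : Env, n0 ≤ E.n → X ≤ E.q := by
  obtain ⟨N, hN⟩ := exists_nat_ge X
  refine ⟨N ^ 8 + 1, fun E hE => hN.trans ?_⟩
  have h1 := E.base.q_low
  have h2 : N ^ 8 < E.q ^ 8 := by omega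
  have h3 : N < E.q := lt_of_pow_lt_pow_left₀ 8 (Nat.zero_le _) h2
  exact_mod_cast h3.le

/-- the choice of the surplus -/
private theorem b_exists (β : ℝ) (hβ : 0 < β) : ∃ n0 : ℕ, ∀ E : Env, n0 ≤ E.n →
    ∃ b : ℕ, E.n ^ 4 ≤ b ^ 4 * E.q ∧ (b : ℝ) ≤ β * E.n := by
  obtain ⟨n1, hn1⟩ := big_q (16 / β ^ 4)
  obtain ⟨n2, hn2⟩ := exists_nat_ge (2 / β)
  refine ⟨max n1 n2, fun E hE => ⟨⌊β * E.n⌋₊, ?_, Nat.floor_le (by positivity)⟩⟩
  have h1 := hn1 E ((le_max_left _ _).trans hE)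
  have h2 : 2 / β ≤ (E.n : ℝ) := hn2.trans (by exact_mod_cast (le_max_right _ _).trans hE)
  have h3 : 2 ≤ β * E.n := by
    rw [div_le_iff₀ hβ] at h2
    linarith
  have h4 : β * E.n / 2 ≤ (⌊β * E.n⌋₊ : ℝ) := by
    have := Nat.lt_floor_add_one (β * E.n)
    linarith
  have h5 : 16 ≤ β ^ 4 * E.q := by
    rw [div_le_iff₀ (by positivity)] at h1
    linarith
  have h6 : (E.n : ℝ) ^ 4 ≤ (⌊β * E.n⌋₊ : ℝ) ^ 4 * E.q := by
    calc (E.n : ℝ) ^ 4 = 16 * ((E.n : ℝ) ^ 4 / 16) := by ring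
      _ ≤ (β ^ 4 * E.q) * ((E.n : ℝ) ^ 4 / 16) := by gcongr
      _ = (β * E.n / 2) ^ 4 * E.q := by ring
      _ ≤ (⌊β * E.n⌋₊ : ℝ) ^ 4 * E.q := by gcongr
  exact_mod_cast h6

theorem pExThm : PExThm := by
  intro κ1 c1 hκ1 hc1
  obtain ⟨ε1, hε1, n1, h1⟩ := p3lab_exists c1 hc1
  obtain ⟨ε2, hε2, n2, h2⟩ := abs_all c1 (κ1 / 10) hc1 (by positivity)
  obtain ⟨ε3, hε3, h3⟩ := cov_all c1 (κ1 / 10) hc1 (by positivity)
  obtain ⟨ε, hε0, hεa, hεb, hεc, hεd⟩ : ∃ ε : ℝ, 0 < ε ∧ ε ≤ ε1 ∧ ε ≤ ε2 ∧ ε ≤ ε3 ∧ ε ≤ κ1 / 10 := by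
    refine ⟨min (min ε1 ε2) (min ε3 (κ1 / 10)), ?_, ?_, ?_, ?_, ?_⟩
    · exact lt_min (lt_min hε1 hε2) (lt_min hε3 (by positivity))
    · exact (min_le_left _ _).trans (min_le_left _ _)
    · exact (min_le_left _ _).trans (min_le_right _ _)
    · exact (min_le_right _ _).trans (min_le_left _ _)
    · exact (min_le_right _ _).trans (min_le_right _ _)
  obtain ⟨K, hK1, hK2⟩ : ∃ K : ℕ, 4000 / ε ≤ (K : ℝ) ∧ 40 / c1 ≤ (K : ℝ) := by
    obtain ⟨K, hK⟩ := exists_nat_ge (max (4000 / ε) (40 / c1))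
    exact ⟨K, (le_max_left _ _).trans hK, (le_max_right _ _).trans hK⟩
  have hK0 : (0 : ℝ) < K := lt_of_lt_of_le (by positivity) hK1
  have hKn : 0 < K := by exact_mod_cast hK0
  have hK1' : (1 : ℝ) ≤ K := by exact_mod_cast hKn
  have hKε : 4000 ≤ ε * K := by rw [div_le_iff₀ hε0] at hK1; linarith
  have hKc : 40 ≤ c1 * K := by rw [div_le_iff₀ hc1] at hK2; linarith
  obtain ⟨ρ2, hρ0, hρa, hρb⟩ : ∃ ρ2 : ℝ, 0 < ρ2 ∧ ρ2 ≤ ε / 8 ∧ ρ2 ≤ c1 / (400 * (K : ℝ) ^ 3) :=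
    ⟨min (ε / 8) (c1 / (400 * (K : ℝ) ^ 3)), lt_min (by positivity) (by positivity),
      min_le_left _ _, min_le_right _ _⟩
  obtain ⟨c2, hc2, n3, h3⟩ := h3 ρ2 hρ0 (by linarith)
  obtain ⟨ρ, hρ, hρκ, n4, h4⟩ := p3set_exists ρ2 hρ0
  obtain ⟨n5, h5⟩ := r1_exists c1 c2 hc1 hc2 K hKn
  obtain ⟨n6, h6⟩ := aa_card c1 hc1
  set cD : ℝ := c1 / (2 * (K : ℝ) ^ 3) with hcD
  set cC : ℝ := c2 / (2 * (K : ℝ) ^ 3) with hcC
  have hcD0 : 0 < cD := by positivity
  have hcC0 : 0 < cC := by positivity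
  obtain ⟨β, hβ0, hβa, hβb, hβc, hβd⟩ : ∃ β : ℝ, 0 < β ∧ β ≤ cD / 200 ∧ β ≤ cC / 200 ∧
      β ≤ ε / 4000 ∧ β ≤ c1 / 40 := by
    refine ⟨min (min (cD / 200) (cC / 200)) (min (ε / 4000) (c1 / 40)), ?_, ?_, ?_, ?_, ?_⟩
    · exact lt_min (lt_min (by positivity) (by positivity)) (lt_min (by positivity) (by positivity))
    · exact (min_le_left _ _).trans (min_le_left _ _)
    · exact (min_le_left _ _).trans (min_le_right _ _)
    · exact (min_le_right _ _).trans (min_le_left _ _)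
    · exact (min_le_right _ _).trans (min_le_right _ _)
  obtain ⟨n7, h7⟩ := b_exists β hβ0
  obtain ⟨n8, h8⟩ := exists_nat_ge (8 * K / c1)
  have hρ3 : ρ2 * (400 * (K : ℝ) ^ 3) ≤ c1 := by
    rwa [le_div_iff₀ (by positivity)] at hρb
  have hρK : 400 * ρ2 * K ≤ c1 := by
    have : (K : ℝ) ≤ (K : ℝ) ^ 3 := le_self_pow₀ hK1' (by norm_num)
    have : ρ2 * K ≤ ρ2 * (K : ℝ) ^ 3 := by gcongr
    linarith
  have hρD : 200 * ρ2 ≤ cD := by
    rw [hcD, le_div_iff₀ (by positivity)]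
    linarith
  refine ⟨cD, cC, ρ, hcD0, hcC0, hρ, by linarith,
    n1 + n2 + n3 + n4 + n5 + n6 + n7 + n8 + 3, ?_⟩
  intro E hn hOk
  have hcol := hOk.col
  have hbase := E.base
  have hnR : (0 : ℝ) < E.n := by
    have : 0 < E.n := by omega
    exact_mod_cast this
  obtain ⟨P3, Bd, hS⟩ := h4 E κ1 c1 (by omega) hOk
  obtain ⟨pl3, hL⟩ := h1 E κ1 ρ P3 Bd (by omega) hOk (p3set_mono hS (by linarith))
  have hP3 : (P3.card : ℝ) ≤ ρ2 * E.n := hS.card
  have hP3ε : (P3.card : ℝ) ≤ ε / 8 * E.n := hP3.trans (by gcongr)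
  have hεn : 0 < ε * E.n := by positivity
  have hε2n : ε * E.n ≤ ε2 * E.n := by gcongr
  have hε3n : ε * E.n ≤ ε3 * E.n := by gcongr
  have hL3 : ((L3 P3 pl3).card : ℝ) ≤ ε / 8 * E.n := by
    refine le_trans ?_ hP3ε
    exact_mod_cast card_image_le
  have hD3 : ((D3 E P3 pl3).card : ℝ) ≤ ε / 4 * E.n := by
    have : ((D3 E P3 pl3).card : ℝ) ≤ 2 * P3.card := by exact_mod_cast D3_card hS pl3
    linarith
  obtain ⟨PR, hPRc, hPRf, hPRok, hPRcov⟩ := h3 E κ1 ρ P3 (L3 P3 pl3) (D3 E P3 pl3) (by omega) hOk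
    hS.gen0 (by linarith) (by linarith) (by linarith)
  obtain ⟨R1, hR1, hR1lo, hR1hi, hcov, hdf⟩ := h5 E κ1 ρ PR (by omega) hOk hPRcov
  have haa := h6 E κ1 ρ (by omega) hOk
  have haa2 : (E.AA.card : ℝ) ≤ 2 * E.n := by
    have : E.AA.card ≤ 2 * E.n := by
      rw [← dall_card (n := E.n) (by omega)]
      classical
      exact card_le_card (fun d hd => (mem_filter.1 hd).1)
    exact_mod_cast this
  obtain ⟨b, hb1, hb2⟩ := h7 E (by omega)
  have hEd : ((EdF E P3 PR).card : ℝ) ≤ 2 * P3.card + 2 * PR.card := by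
    exact_mod_cast EdF_card hbase hcol P3 PR
  have hR1lo' : c1 * E.n / (2 * K) ≤ (R1.card : ℝ) := le_trans (by gcongr) hR1lo
  have hR1hi' : (R1.card : ℝ) ≤ 3 * E.n / K := by
    refine hR1hi.trans ?_
    rw [div_le_div_iff₀ (by positivity) hK0]
    have : (E.AA.card : ℝ) * K ≤ 2 * E.n * K := by gcongr
    linarith
  have hsmall : (3 * PR.card + 3 * (EdF E P3 PR).card : ℝ) ≤ 15 * ρ2 * E.n := by
    linarith
  have hhalf : 15 * ρ2 * E.n ≤ (R1.card : ℝ) / 2 := by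
    have : 15 * ρ2 * E.n ≤ c1 * E.n / (2 * K) / 2 := by
      rw [le_div_iff₀ (by norm_num), le_div_iff₀ (by positivity)]
      have h : 60 * (ρ2 * K) * E.n ≤ c1 * E.n := by
        have : 60 * (ρ2 * K) ≤ c1 := by
          have := mul_pos hρ0 hK0
          linarith
        gcongr
      linarith
    linarith
  have hnat : 2 * (3 * PR.card + 3 * (EdF E P3 PR).card) ≤ R1.card := by
    have : (2 * (3 * PR.card + 3 * (EdF E P3 PR).card) : ℝ) ≤ R1.card := by linarith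
    exact_mod_cast this
  obtain ⟨m, hm⟩ : ∃ m : ℕ, m + 3 * PR.card + 3 * (EdF E P3 PR).card = R1.card + b :=
    ⟨R1.card + b - (3 * PR.card + 3 * (EdF E P3 PR).card), by omega⟩
  have hR1m : R1.card ≤ 2 * m := by omega
  have hmR : m ≤ R1.card + b := by omega
  have hmR' : (m : ℝ) ≤ 3 * E.n / K + β * E.n := by
    have : (m : ℝ) ≤ R1.card + b := by exact_mod_cast hmR
    linarith
  have hm2 : 2 ≤ m := by
    have e1 : 8 * K / c1 ≤ (E.n : ℝ) := h8.trans (by exact_mod_cast (by omega : n8 ≤ E.n))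
    have e2 : (4 : ℝ) ≤ c1 * E.n / (2 * K) := by
      rw [div_le_iff₀ hc1] at e1
      rw [le_div_iff₀ (by positivity)]
      linarith
    have e3 : (4 : ℝ) ≤ R1.card := by linarith
    have e4 : 4 ≤ R1.card := by exact_mod_cast e3
    omega
  have hK3 : 3 * (E.n : ℝ) / K ≤ 3 * ε / 4000 * E.n := by
    rw [div_le_iff₀ hK0]
    have : 4000 * (E.n : ℝ) ≤ ε * K * E.n := by gcongr
    linarith
  have hK4 : 3 * (E.n : ℝ) / K ≤ 3 * c1 / 40 * E.n := by
    rw [div_le_iff₀ hK0]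
    have : 40 * (E.n : ℝ) ≤ c1 * K * E.n := by gcongr
    linarith
  have hβn : β * E.n ≤ ε / 4000 * E.n := by gcongr
  have hβn' : β * E.n ≤ c1 / 40 * E.n := by gcongr
  have hmε : (321 : ℝ) * m ≤ ε / 2 * E.n := by linarith
  have hm4 : 4 * m ≤ E.AA.card := by
    have : (4 * m : ℝ) ≤ E.AA.card := by
      have : 0 < c1 * E.n := by positivity
      linarith
    exact_mod_cast this
  -- the sets of the template
  obtain ⟨R, hR1R, hRAA, hRc⟩ := exists_subsuperset_card_eq hR1 hR1m (by omega)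
  obtain ⟨X, hX, hXc⟩ := exists_subset_card_eq (s := E.AA \ R) (n := 2 * m) (by
    rw [card_sdiff_of_subset hRAA]
    omega)
  have hXAA : X ⊆ E.AA := hX.trans sdiff_subset
  have hXR : Disjoint X R := disjoint_of_subset_left hX sdiff_disjoint
  have hXR1 : Disjoint X R1 := disjoint_of_subset_right hR1R hXR
  obtain ⟨H, hH, hHs, hT⟩ := template m hm2 X R hXR hXc hRc
  have hHs' : ((∑ z ∈ range (3 * m), (H z).card : ℕ) : ℝ) ≤ 107 * m := by exact_mod_cast hHs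
  obtain ⟨g, hg1, hg2, hg3, hg4, hg5⟩ := h2 E κ1 ρ P3 (L3 P3 pl3) (D3 E P3 pl3) PR (by omega) hOk
    hS.gen0 hPRf (by linarith) (by linarith) (by linarith) (3 * m) H
    (fun z hz => ⟨(hH z hz).1.trans (union_subset hXAA hRAA), (hH z hz).2⟩)
    (by
      push_cast at hHs' ⊢
      have : ρ2 * E.n ≤ ε / 8 * E.n := by gcongr
      linarith)
  obtain ⟨ha1, ha2⟩ := absorb_packs E (fam_mono E hg4 subset_union_right) hg1 hg2 hXAA hXc hR1 hXR1
    (fun R' hR' hc => hT R' (hR'.trans hR1R) hc)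
  refine ⟨mkPlan E P3 pl3 Bd PR ((range (3 * m)).biUnion g) R1 X, b, m,
    mkPlan_ok hbase hcol (κ := κ1) (cD := cD) (cC := cC) ?_⟩
  exact
    { set := p3set_mono hS (by linarith)
      lab := hL
      fam := hg4
      dj := by
        rw [disjoint_biUnion_right]
        intro z hz
        exact hg3 z (mem_range.1 hz)
      cvok := hPRok
      R1_sub := hR1
      X_sub := hXAA
      XR := hXR1
      cov := hcov
      df := hdf
      abs := ha2
      cnt1 := ha1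
      cnt2 := hm
      b_lo := hb1
      b_hi := by
        have e1 : β * E.n ≤ cD / 200 * E.n := by gcongr
        have e2 : β * E.n ≤ cC / 200 * E.n := by gcongr
        constructor <;> linarith
      szR := hPRc.trans (by gcongr; linarith)
      szA := by
        have e1 : (((range (3 * m)).biUnion g).card : ℝ) ≤
            3 * ((∑ z ∈ range (3 * m), (H z).card : ℕ) : ℝ) := by exact_mod_cast hg5
        have e2 : ε * E.n ≤ κ1 / 10 * E.n := by gcongr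
        linarith
      szD := by
        push_cast
        have e1 : 200 * ρ2 * E.n ≤ cD * E.n := by gcongr
        linarith }

end Pool.Agent.PGr.PPk
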