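import Pool.Agent.PGr.PReg
import Pool.Agent.PGr.PCMain
import Pool.Agent.PGr.PEx

/-!
# PGr: part P is complete (`PlantThm`)
-/

namespace Pool.Agent.PGr

theorem plantThm : PlantThm := plantThm_of pRegThm pCompThm PPk.pExThm

end Pool.Agent.PGr
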