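import Pool.Agent.PGr.RTW1

/-!
# PGr-R-COV5: the family COV, group 5 (large differences)

WORKED EXAMPLE: RTW1.lean does exactly the same for the type I gadgets: `twF/twT/twX` (resources,
table of doubled slopes, extra forms), `tw1_fam` (hypotheses `Fam` of the counting lemma `gc`),
`tw1_of_good` (a good parameter is a gadget), `tw1_pr` (injection + size of the box), `r_tw1`.
Copy its structure (it compiles) and change the data.

STATEMENT. For `d ∈ dall n`, `d ≥ 1.55 n`: with probability at least `1 - 2 exp(-dG q)` there are at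
least `c1R n^3` quadruples `(m, o, y1, y2)` counted in `covN 5 d`. We use only `o = true`.

PLAN. Zone: `zoneP` with `a0 = 253n/100 + 1`, `a1 = 254n/100` (`k ≤ 2(3n - a1) + 1` holds). Parameter
`(A, y1, y2)`, box `A ∈ [a, b]`, `y1 ∈ [12n/10 + 1, 13n/10]`, `y2 ∈ [16n/10 + 1, 17n/10]` (integer
divisions; `C.n ≥ 10^24`). With `nb true m = nbp`, `nb false m = nbm`, types `s1, s2`, shifts `τ1, τ2`.
Resources:
 0 `⟨true, ⟨0,1,0,0⟩⟩` (y1), 1 `⟨true, ⟨0,0,1,0⟩⟩` (y2), 2 `⟨true, ⟨1,0,0,-d⟩⟩` (X = A - d),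
 3 `⟨false, ⟨-1,1,0,d⟩⟩` (y1 - X), 4 `⟨false, ⟨-1,0,1,d⟩⟩` (y2 - X),
 5 `⟨false, ⟨1,-s1,0,-τ1⟩⟩` (spoke of y1), 6 `⟨false, ⟨1,0,-s2,-τ2⟩⟩` (spoke of y2).
`β = ![true, true, false, false, false, true, true]` (y1, y2 ∈ PL; X ∈ LAM; y1-X, y2-X ∈ AA; spokes ∈ PD),
`mate = id`, `φ = 51/100`. Table
 `![(0,1,0), (0,0,1), (1,0,0), (-2,2,0), (-2,0,2), (2,2*(-s1),0), (2,0,2*(-s2))]`: no two equal for
 all signs. (Here all three sides of the box are long; `Fit` directly.)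
Extra forms: `exL` of 0, 1, 2; `exD` of 3, 4, 5, 6; `gdL` of 3, 4 (AA needs `gd`: `gd_of`); and for
`inc3 A y1 y2`: `⟨1,-1,0,0⟩`, `⟨1,0,-1,0⟩`, `⟨0,1,-1,0⟩`.
Ranges: X ∈ [.529 n, .99 n] (d ≤ 2n+2 from `dall`); y1 - X ∈ [.21n, .78n], y2 - X ∈ [.61n, 1.18n];
spokes: `spoke_eq`, in [1, 2n]. `covX 5 m y1 d = anc m - d`, `covD2 5` = `(|X - y1|, |X - y2|)`.
Injection into `range n ×ˢ univ ×ˢ PL ×ˢ PL`: `(A, y1, y2) ↦ (mOf n A, true, y1, y2)`.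
Size of the box: `(n/1000) * (n/100)^2 ≥ n^3/10^7`.
-/

noncomputable section

namespace Pool.Agent.PGr

open Finset

/-- The resources of the group 5, parameter `(A, y1, y2)`. -/
private def cvF (d s1 τ1 s2 τ2 : ℤ) : Fin 7 → RF :=
  ![⟨true, ⟨0, 1, 0, 0⟩⟩, ⟨true, ⟨0, 0, 1, 0⟩⟩, ⟨true, ⟨1, 0, 0, -d⟩⟩,
    ⟨false, ⟨-1, 1, 0, d⟩⟩, ⟨false, ⟨-1, 0, 1, d⟩⟩,
    ⟨false, ⟨1, -s1, 0, -τ1⟩⟩, ⟨false, ⟨1, 0, -s2, -τ2⟩⟩]

/-- table of doubled slopes -/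
private def cvT (s1 s2 : ℤ) : Fin 7 → ℤ × ℤ × ℤ :=
  ![(0, 1, 0), (0, 0, 1), (1, 0, 0), (-2, 2, 0), (-2, 0, 2), (2, 2 * (-s1), 0),
    (2, 0, 2 * (-s2))]

/-- the bits -/
private def cvB : Fin 7 → Bool := ![true, true, false, false, false, true, true]

/-- the extra forms -/
private def cvX (n k : ℕ) (d s1 τ1 s2 τ2 : ℤ) : List AF :=
  exL n (cvF d s1 τ1 s2 τ2 0).f ++ exL n (cvF d s1 τ1 s2 τ2 1).f ++
  exL n (cvF d s1 τ1 s2 τ2 2).f ++ exD n (cvF d s1 τ1 s2 τ2 3).f ++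
  exD n (cvF d s1 τ1 s2 τ2 4).f ++ exD n (cvF d s1 τ1 s2 τ2 5).f ++
  exD n (cvF d s1 τ1 s2 τ2 6).f ++ gdL n k (cvF d s1 τ1 s2 τ2 3).f ++
  gdL n k (cvF d s1 τ1 s2 τ2 4).f ++ [⟨1, -1, 0, 0⟩, ⟨1, 0, -1, 0⟩, ⟨0, 1, -1, 0⟩]

/-- `Fit` from closed slopes and three long sides. -/
private theorem cv_fit3 {q : ℕ} {B : ℤ} {l h t : ℤ × ℤ × ℤ}
    (ht : t ≠ 0 ∧ |t.1| ≤ B ∧ |t.2.1| ≤ B ∧ |t.2.2| ≤ B)
    (h1 : (q : ℤ) ≤ h.1 - l.1 + 1) (h2 : (q : ℤ) ≤ h.2.1 - l.2.1 + 1)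
    (h3 : (q : ℤ) ≤ h.2.2 - l.2.2 + 1) :
    Fit q B l h t :=
  ⟨ht.1, ht.2.1, ht.2.2.1, ht.2.2.2, fun _ => h1, fun _ => h2, fun _ => h3⟩

private theorem cv_fam (C : RCtx) (d a b c1 e1 c2 e2 s1 τ1 s2 τ2 : ℤ)
    (hs1 : s1 = 1 ∨ s1 = -1) (hs2 : s2 = 1 ∨ s2 = -1)
    (hnb : ∀ A ∈ Icc a b, A ∈ C.It →
      NbT C.n (nbp C.n C.k (mOf C.n A)) A s1 τ1 ∧ NbT C.n (nbm C.n C.k (mOf C.n A)) A s2 τ2)
    (ha : 253 * (C.n : ℤ) ≤ 100 * a) (hb : 100 * b ≤ 254 * C.n)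
    (hab : (C.n : ℤ) ≤ 1000 * (b - a + 1))
    (hc1 : 12 * (C.n : ℤ) ≤ 10 * c1) (he1 : 10 * e1 ≤ 13 * C.n)
    (hce1 : (C.n : ℤ) ≤ 100 * (e1 - c1 + 1))
    (hc2 : 16 * (C.n : ℤ) ≤ 10 * c2) (he2 : 10 * e2 ≤ 17 * C.n)
    (hce2 : (C.n : ℤ) ≤ 100 * (e2 - c2 + 1))
    (hd1 : 155 * (C.n : ℤ) ≤ 100 * d) (hd2 : d ≤ 2 * C.n + 2) :
    Fam C.q C.S C.E C.bad (a, c1, c2) (b, e1, e2) C.It (cvF d s1 τ1 s2 τ2) id
      (cvX C.n C.k d s1 τ1 s2 τ2) (cvT s1 s2) (fun _ => 51 / 100) := by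
  have hqp := C.q_prime
  have hnq := C.n_big
  have hn := C.n_big'
  have hqb := C.q_big
  have hE := C.E_big
  have hq0 : (0 : ℤ) < C.q := by exact_mod_cast hqp.pos
  have side1 : (C.q : ℤ) ≤ b - a + 1 := by
    by_contra hcon
    push Not at hcon
    nlinarith
  have side2 : (C.q : ℤ) ≤ e1 - c1 + 1 := by
    by_contra hcon
    push Not at hcon
    nlinarith
  have side3 : (C.q : ℤ) ≤ e2 - c2 + 1 := by
    by_contra hcon
    push Not at hcon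
    nlinarith
  -- values of the forms
  have hv : ∀ p ∈ bx (a, c1, c2) (b, e1, e2), p.1 ∈ C.It → ∀ i : Fin 7,
      1 ≤ (cvF d s1 τ1 s2 τ2 i).f.ev p ∧ (cvF d s1 τ1 s2 τ2 i).f.ev p ≤ 3 * C.n := by
    intro p hp hI i
    rw [mem_bx] at hp
    obtain ⟨⟨hp1, hp2⟩, ⟨hp3, hp4⟩, hp5, hp6⟩ := hp
    obtain ⟨A, y, z⟩ := p
    simp only at hp1 hp2 hp3 hp4 hp5 hp6 hI
    obtain ⟨hN1, hN2⟩ := hnb A (mem_Icc.2 ⟨hp1, hp2⟩) hI
    have hsp1 := spoke_eq (y := y) hN1 (by omega) (by omega)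
    have hsp2 := spoke_eq (y := z) hN2 (by omega) (by omega)
    rcases hs1 with rfl | rfl <;> rcases hs2 with rfl | rfl <;> fin_cases i <;>
      simp [cvF, AF.ev] <;> constructor <;> omega
  constructor
  · norm_num
  · norm_num
  · simp [cvX, exL, exD, gdL]
  · show a ≤ b; omega
  · show c1 ≤ e1; omega
  · show c2 ≤ e2; omega
  · exact item_count C a b (by omega) (by omega) hab
  · intro i
    rcases hs1 with rfl | rfl <;> rcases hs2 with rfl | rfl <;> fin_cases i <;> rfl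
  · intro i
    refine cv_fit3 ?_ side1 side2 side3
    rcases hs1 with rfl | rfl <;> rcases hs2 with rfl | rfl <;> revert i <;> decide
  · have h4 : ∀ i, Fit C.q 4 (a, c1, c2) (b, e1, e2) (cvF d s1 τ1 s2 τ2 i).f.sl := by
      intro i
      refine cv_fit3 ?_ side1 side2 side3
      rcases hs1 with rfl | rfl <;> rcases hs2 with rfl | rfl <;> fin_cases i <;>
        simp [cvF, AF.sl]
    have h8 : ∀ X ∈ ([⟨1, -1, 0, 0⟩, ⟨1, 0, -1, 0⟩, ⟨0, 1, -1, 0⟩] : List AF),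
        Fit C.q 8 (a, c1, c2) (b, e1, e2) X.sl := by
      intro X hX
      refine cv_fit3 ?_ side1 side2 side3
      simp only [List.mem_cons, List.not_mem_nil, or_false] at hX
      rcases hX with rfl | rfl | rfl <;> simp [AF.sl]
    intro X hX
    simp only [cvX, List.mem_append] at hX
    rcases hX with ((((((((hX | hX) | hX) | hX) | hX) | hX) | hX) | hX) | hX) | hX
    · exact fit_exL (h4 0) X hX
    · exact fit_exL (h4 1) X hX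
    · exact fit_exL (h4 2) X hX
    · exact fit_exD (h4 3) X hX
    · exact fit_exD (h4 4) X hX
    · exact fit_exD (h4 5) X hX
    · exact fit_exD (h4 6) X hX
    · exact fit_gdL (h4 3) X hX
    · exact fit_gdL (h4 4) X hX
    · exact h8 X hX
  · intro i; rfl
  · -- no equal slopes
    intro i j hij hT _
    exfalso
    rcases hs1 with rfl | rfl <;> rcases hs2 with rfl | rfl <;> revert i j <;> decide
  · intro p hp hI i
    have := hv p hp hI i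
    exact ⟨by omega, by omega⟩
  · intro p _ _ i hi
    exact absurd rfl hi
  · intro i; norm_num
  · intro i; norm_num
  · intro i hi
    exact absurd rfl hi
  · intro p _ _ i
    cases hl : (cvF d s1 τ1 s2 τ2 i).lab
    · exact bad_diff C _
    · exact bad_label C _

/-- A good parameter is counted. -/
private theorem cv_of_good (C : RCtx) (ω : C.Om) (d a b c1 e1 c2 e2 s1 τ1 s2 τ2 : ℤ)
    (hs1 : s1 = 1 ∨ s1 = -1) (hs2 : s2 = 1 ∨ s2 = -1)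
    (hnb : ∀ A ∈ Icc a b, A ∈ C.It →
      NbT C.n (nbp C.n C.k (mOf C.n A)) A s1 τ1 ∧ NbT C.n (nbm C.n C.k (mOf C.n A)) A s2 τ2)
    (ha : 253 * (C.n : ℤ) ≤ 100 * a) (hb : 100 * b ≤ 254 * C.n)
    (hc1 : 12 * (C.n : ℤ) ≤ 10 * c1) (he1 : 10 * e1 ≤ 13 * C.n)
    (hc2 : 16 * (C.n : ℤ) ≤ 10 * c2) (he2 : 10 * e2 ≤ 17 * C.n)
    (hd1 : 155 * (C.n : ℤ) ≤ 100 * d) (hd2 : d ≤ 2 * C.n + 2)
    (p : ℤ × ℤ × ℤ)
    (hp : p ∈ C.good (a, c1, c2) (b, e1, e2) C.It (cvF d s1 τ1 s2 τ2) cvB id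
      (cvX C.n C.k d s1 τ1 s2 τ2) ω) :
    ((C.env ω).covB 5 (mOf C.n p.1) true p.2.1 p.2.2 ∧
      (C.env ω).covG (C.env ω).AA 5 (mOf C.n p.1) p.2.1 p.2.2 d) ∧
      mOf C.n p.1 < C.n ∧ anc C.n (mOf C.n p.1) = p.1 ∧
      p.2.1 ∈ (C.env ω).PL ∧ p.2.2 ∈ (C.env ω).PL := by
  classical
  have hn := C.n_big'
  rw [RCtx.good, goodP, mem_filter, mem_bx] at hp
  obtain ⟨⟨⟨hp1, hp2⟩, ⟨hp3, hp4⟩, hp5, hp6⟩, hI, hex, hsub, hres⟩ := hp
  obtain ⟨A, y, z⟩ := p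
  simp only at hp1 hp2 hp3 hp4 hp5 hp6 hI
  obtain ⟨hN1, hN2⟩ := hnb A (mem_Icc.2 ⟨hp1, hp2⟩) hI
  obtain ⟨h1a, h1b, h1c, h1d⟩ := spoke_eq (y := y) hN1 (by omega) (by omega)
  obtain ⟨h2a, h2b, h2c, h2d⟩ := spoke_eq (y := z) hN2 (by omega) (by omega)
  have hIt := (C.mem_It A).1 hI
  have hA := hIt.2.2.1
  -- values
  have e0 : (cvF d s1 τ1 s2 τ2 0).f.ev (A, y, z) = y := by simp [cvF, AF.ev]
  have e1 : (cvF d s1 τ1 s2 τ2 1).f.ev (A, y, z) = z := by simp [cvF, AF.ev]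
  have e2 : (cvF d s1 τ1 s2 τ2 2).f.ev (A, y, z) = A - d := by simp [cvF, AF.ev]; ring
  have e3 : (cvF d s1 τ1 s2 τ2 3).f.ev (A, y, z) = y - (A - d) := by
    simp [cvF, AF.ev]; ring
  have e4 : (cvF d s1 τ1 s2 τ2 4).f.ev (A, y, z) = z - (A - d) := by
    simp [cvF, AF.ev]; ring
  have e5 : (cvF d s1 τ1 s2 τ2 5).f.ev (A, y, z) =
      |y - anc C.n (nbp C.n C.k (mOf C.n A))| := by
    rw [h1a]
    simp [cvF, AF.ev]; ring
  have e6 : (cvF d s1 τ1 s2 τ2 6).f.ev (A, y, z) =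
      |z - anc C.n (nbm C.n C.k (mOf C.n A))| := by
    rw [h2a]
    simp [cvF, AF.ev]; ring
  have hd1' : ∀ i j : Fin 7, (cvF d s1 τ1 s2 τ2 i).lab = (cvF d s1 τ1 s2 τ2 j).lab →
      i ≠ j → (cvF d s1 τ1 s2 τ2 i).f.ev (A, y, z) ≠ (cvF d s1 τ1 s2 τ2 j).f.ev (A, y, z) :=
    fun i j hl hij => ne_of_sub hl (hsub i j hij hij)
  have hexm : ∀ L : List AF, (∀ X ∈ L, X ∈ cvX C.n C.k d s1 τ1 s2 τ2) →
      ∀ X ∈ L, ¬ (C.q : ℤ) ∣ X.ev (A, y, z) := fun L hL X hX => hex X (hL X hX)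
  -- labels
  have hZ : ∀ i : Fin 7,
      (∀ X ∈ exL C.n (cvF d s1 τ1 s2 τ2 i).f, X ∈ cvX C.n C.k d s1 τ1 s2 τ2) →
      505 * (C.n : ℤ) ≤ 1000 * (cvF d s1 τ1 s2 τ2 i).f.ev (A, y, z) →
      1000 * (cvF d s1 τ1 s2 τ2 i).f.ev (A, y, z) ≤ 2495 * C.n →
      (cvF d s1 τ1 s2 τ2 i).f.ev (A, y, z) ∈ zall C.n := by
    intro i hX hlo hhi
    exact zall_of C.n (by omega) _ hlo hhi (ne_of_exL (hexm _ hX))
  have hD : ∀ i : Fin 7,
      (∀ X ∈ exD C.n (cvF d s1 τ1 s2 τ2 i).f, X ∈ cvX C.n C.k d s1 τ1 s2 τ2) →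
      1 ≤ (cvF d s1 τ1 s2 τ2 i).f.ev (A, y, z) →
      (cvF d s1 τ1 s2 τ2 i).f.ev (A, y, z) ≤ 2 * C.n →
      (cvF d s1 τ1 s2 τ2 i).f.ev (A, y, z) ∈ dall C.n := by
    intro i hX hlo hhi
    obtain ⟨x1, x2, x3⟩ := ne_of_exD (hexm _ hX)
    exact dall_of C.n _ hlo hhi x1 x2 x3
  have hnr : (0 : ℝ) < C.n := by
    have : (0 : ℤ) < C.n := by omega
    exact_mod_cast this
  have m0 : y ∈ (C.env ω).PL := by
    have hz := hZ 0 (by simp +contextual [cvX]) (by rw [e0]; omega) (by rw [e0]; omega)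
    have hr := hres 0
    rw [e0] at hz hr
    exact mem_PL C ω _ hz hr
  have m1 : z ∈ (C.env ω).PL := by
    have hz := hZ 1 (by simp +contextual [cvX]) (by rw [e1]; omega) (by rw [e1]; omega)
    have hr := hres 1
    rw [e1] at hz hr
    exact mem_PL C ω _ hz hr
  have m2 : A - d ∈ (C.env ω).LAM := by
    have hz := hZ 2 (by simp +contextual [cvX]) (by rw [e2]; omega) (by rw [e2]; omega)
    have hr := hres 2
    rw [e2] at hz hr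
    refine mem_LAM C ω _ hz (Or.inl ⟨?_, ?_⟩) hr
    · have : 505 * (C.n : ℤ) ≤ 1000 * (A - d) := by omega
      have h3 : 505 * (C.n : ℝ) ≤ 1000 * ((A - d : ℤ) : ℝ) := by exact_mod_cast this
      linarith
    · have : 100 * (A - d) ≤ 99 * (C.n : ℤ) := by omega
      have h3 : 100 * ((A - d : ℤ) : ℝ) ≤ 99 * (C.n : ℝ) := by exact_mod_cast this
      linarith
  have m3 : y - (A - d) ∈ (C.env ω).AA := by
    have hz := hD 3 (by simp +contextual [cvX]) (by rw [e3]; omega) (by rw [e3]; omega)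
    have hr := hres 3
    have hg := gd_of (q := C.q) (hexm (gdL C.n C.k (cvF d s1 τ1 s2 τ2 3).f)
      (by simp +contextual [cvX]))
    rw [e3] at hz hr hg
    refine mem_AA C ω _ hz ⟨?_, ?_⟩ hg hr
    · have : (C.n : ℤ) ≤ 10 * (y - (A - d)) := by omega
      have h3 : (C.n : ℝ) ≤ 10 * ((y - (A - d) : ℤ) : ℝ) := by exact_mod_cast this
      linarith
    · have : 10 * (y - (A - d)) ≤ 13 * (C.n : ℤ) := by omega
      have h3 : 10 * ((y - (A - d) : ℤ) : ℝ) ≤ 13 * (C.n : ℝ) := by exact_mod_cast this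
      linarith
  have m4 : z - (A - d) ∈ (C.env ω).AA := by
    have hz := hD 4 (by simp +contextual [cvX]) (by rw [e4]; omega) (by rw [e4]; omega)
    have hr := hres 4
    have hg := gd_of (q := C.q) (hexm (gdL C.n C.k (cvF d s1 τ1 s2 τ2 4).f)
      (by simp +contextual [cvX]))
    rw [e4] at hz hr hg
    refine mem_AA C ω _ hz ⟨?_, ?_⟩ hg hr
    · have : (C.n : ℤ) ≤ 10 * (z - (A - d)) := by omega
      have h3 : (C.n : ℝ) ≤ 10 * ((z - (A - d) : ℤ) : ℝ) := by exact_mod_cast this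
      linarith
    · have : 10 * (z - (A - d)) ≤ 13 * (C.n : ℤ) := by omega
      have h3 : 10 * ((z - (A - d) : ℤ) : ℝ) ≤ 13 * (C.n : ℝ) := by exact_mod_cast this
      linarith
  have m5 : |y - anc C.n (nbp C.n C.k (mOf C.n A))| ∈ (C.env ω).PD := by
    have hup : |y - anc C.n (nbp C.n C.k (mOf C.n A))| ≤ 2 * C.n := by
      rw [h1a]
      rcases hs1 with hs | hs
      · have := h1c hs; omega
      · have := h1d hs; omega
    have hz := hD 5 (by simp +contextual [cvX]) (by rw [e5, h1a]; omega) (by rw [e5]; exact hup)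
    have hr := hres 5
    rw [e5] at hz hr
    exact mem_PD C ω _ hz hup hr
  have m6 : |z - anc C.n (nbm C.n C.k (mOf C.n A))| ∈ (C.env ω).PD := by
    have hup : |z - anc C.n (nbm C.n C.k (mOf C.n A))| ≤ 2 * C.n := by
      rw [h2a]
      rcases hs2 with hs | hs
      · have := h2c hs; omega
      · have := h2d hs; omega
    have hz := hD 6 (by simp +contextual [cvX]) (by rw [e6, h2a]; omega) (by rw [e6]; exact hup)
    have hr := hres 6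
    rw [e6] at hz hr
    exact mem_PD C ω _ hz hup hr
  have n56 := hd1' 5 6 rfl (by decide)
  have n34 := hd1' 3 4 rfl (by decide)
  rw [e5, e6] at n56
  rw [e3, e4] at n34
  have x1 : ¬ (C.q : ℤ) ∣ A - y := by
    have := hex ⟨1, -1, 0, 0⟩ (by simp [cvX])
    simpa [AF.ev, sub_eq_add_neg] using this
  have x2 : ¬ (C.q : ℤ) ∣ A - z := by
    have := hex ⟨1, 0, -1, 0⟩ (by simp [cvX])
    simpa [AF.ev, sub_eq_add_neg] using this
  have x3 : ¬ (C.q : ℤ) ∣ y - z := by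
    have := hex ⟨0, 1, -1, 0⟩ (by simp [cvX])
    simpa [AF.ev, sub_eq_add_neg] using this
  have a3 : |A - d - y| = y - (A - d) := by
    rw [abs_of_nonpos (by omega)]; ring
  have a4 : |A - d - z| = z - (A - d) := by
    rw [abs_of_nonpos (by omega)]; ring
  refine ⟨⟨?_, ?_⟩, hIt.2.2.2.1, hA, m0, m1⟩
  · refine ⟨C.pureItem_of_It ω A hI, ?_, ?_, ?_, m0, m1, m5, m6, n56, ?_⟩
    · show inI C.n (252 / 100) (254 / 100) (anc C.n (mOf C.n A))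
      rw [hA]
      constructor
      · have : 252 * (C.n : ℤ) ≤ 100 * A := by omega
        have h3 : 252 * (C.n : ℝ) ≤ 100 * (A : ℝ) := by exact_mod_cast this
        linarith
      · have : 100 * A ≤ 254 * (C.n : ℤ) := by omega
        have h3 : 100 * (A : ℝ) ≤ 254 * (C.n : ℝ) := by exact_mod_cast this
        linarith
    · show inI C.n (12 / 10) (13 / 10) y
      constructor
      · have : 12 * (C.n : ℤ) ≤ 10 * y := by omega
        have h3 : 12 * (C.n : ℝ) ≤ 10 * (y : ℝ) := by exact_mod_cast this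
        linarith
      · have : 10 * y ≤ 13 * (C.n : ℤ) := by omega
        have h3 : 10 * (y : ℝ) ≤ 13 * (C.n : ℝ) := by exact_mod_cast this
        linarith
    · show inI C.n (16 / 10) (17 / 10) z
      constructor
      · have : 16 * (C.n : ℤ) ≤ 10 * z := by omega
        have h3 : 16 * (C.n : ℝ) ≤ 10 * (z : ℝ) := by exact_mod_cast this
        linarith
      · have : 10 * z ≤ 17 * (C.n : ℤ) := by omega
        have h3 : 10 * (z : ℝ) ≤ 17 * (C.n : ℝ) := by exact_mod_cast this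
        linarith
    · show ¬ (C.q : ℤ) ∣ anc C.n (mOf C.n A) - y ∧ ¬ (C.q : ℤ) ∣ anc C.n (mOf C.n A) - z ∧
        ¬ (C.q : ℤ) ∣ y - z
      rw [hA]
      exact ⟨x1, x2, x3⟩
  · have hX : (C.env ω).covX 5 (mOf C.n A) y d = A - d := by
      unfold Env.covX
      rw [if_pos rfl]
      show anc C.n (mOf C.n A) - d = A - d
      rw [hA]
    have hD2 : (C.env ω).covD2 5 (mOf C.n A) y z d = (y - (A - d), z - (A - d)) := by
      unfold Env.covD2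
      rw [if_pos rfl, hX, a3, a4]
    show (C.env ω).covX 5 (mOf C.n A) y d ∈ (C.env ω).LAM ∧
      ((C.env ω).covD2 5 (mOf C.n A) y z d).1 ∈ (C.env ω).AA ∧
      ((C.env ω).covD2 5 (mOf C.n A) y z d).2 ∈ (C.env ω).AA ∧
      ((C.env ω).covD2 5 (mOf C.n A) y z d).1 ≠ ((C.env ω).covD2 5 (mOf C.n A) y z d).2
    rw [hX, hD2]
    exact ⟨m2, m3, m4, n34⟩

/-- The probability bound for explicit intervals. -/
private theorem cv_pr (C : RCtx) (d a b c1 e1 c2 e2 s1 τ1 s2 τ2 : ℤ)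
    (hs1 : s1 = 1 ∨ s1 = -1) (hs2 : s2 = 1 ∨ s2 = -1)
    (hnb : ∀ A ∈ Icc a b, A ∈ C.It →
      NbT C.n (nbp C.n C.k (mOf C.n A)) A s1 τ1 ∧ NbT C.n (nbm C.n C.k (mOf C.n A)) A s2 τ2)
    (ha : 253 * (C.n : ℤ) ≤ 100 * a) (hb : 100 * b ≤ 254 * C.n)
    (hab : (C.n : ℤ) ≤ 1000 * (b - a + 1))
    (hc1 : 12 * (C.n : ℤ) ≤ 10 * c1) (he1 : 10 * e1 ≤ 13 * C.n)
    (hce1 : (C.n : ℤ) ≤ 100 * (e1 - c1 + 1))
    (hc2 : 16 * (C.n : ℤ) ≤ 10 * c2) (he2 : 10 * e2 ≤ 17 * C.n)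
    (hce2 : (C.n : ℤ) ≤ 100 * (e2 - c2 + 1))
    (hd1 : 155 * (C.n : ℤ) ≤ 100 * d) (hd2 : d ≤ 2 * C.n + 2) :
    Pr (fun ω : C.Om => ((C.env ω).covN 5 d : ℝ) < c1R C.K0 * (C.n : ℝ) ^ 3)
      ≤ 2 * Real.exp (-(dG C.K0 * C.q)) := by
  classical
  have H := cv_fam C d a b c1 e1 c2 e2 s1 τ1 s2 τ2 hs1 hs2 hnb ha hb hab hc1 he1 hce1 hc2 he2
    hce2 hd1 hd2
  have G := gc C.q C.K0 C.S C.E C.q_prime C.q_big C.bad (a, c1, c2) (b, e1, e2) C.It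
    (cvF d s1 τ1 s2 τ2) cvB id (cvX C.n C.k d s1 τ1 s2 τ2) (cvT s1 s2)
    (fun _ => 51 / 100) H
  refine le_trans (Pr_mono ?_) G
  intro ω hω
  refine lt_of_le_of_lt ?_ (lt_of_lt_of_le hω ?_)
  · -- the injection
    norm_cast
    refine Finset.card_le_card_of_injOn (fun p => (mOf C.n p.1, true, p.2.1, p.2.2)) ?_ ?_
    · intro p hp
      obtain ⟨h1, h2, h3, h4, h5⟩ := cv_of_good C ω d a b c1 e1 c2 e2 s1 τ1 s2 τ2 hs1 hs2 hnb
        ha hb hc1 he1 hc2 he2 hd1 hd2 p hp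
      rw [mem_coe, mem_filter, mem_product, mem_product, mem_product]
      exact ⟨⟨mem_range.2 h2, mem_univ _, h4, h5⟩, h1⟩
    · intro p hp p' hp' hpp
      obtain ⟨-, -, h3, -⟩ := cv_of_good C ω d a b c1 e1 c2 e2 s1 τ1 s2 τ2 hs1 hs2 hnb
        ha hb hc1 he1 hc2 he2 hd1 hd2 p hp
      obtain ⟨-, -, h3', -⟩ := cv_of_good C ω d a b c1 e1 c2 e2 s1 τ1 s2 τ2 hs1 hs2 hnb
        ha hb hc1 he1 hc2 he2 hd1 hd2 p' hp'
      simp only [Prod.mk.injEq] at hpp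
      have q1 : p.1 = p'.1 := by rw [← h3, ← h3', hpp.1]
      exact Prod.ext q1 (Prod.ext hpp.2.2.1 hpp.2.2.2)
  · rw [card_bx _ _ H.le1 H.le2 H.le3]
    have hK : (0 : ℝ) < C.K0 := by exact_mod_cast Nat.pos_of_ne_zero C.nK.out
    have hg : 0 < cG C.K0 := by unfold cG gam; positivity
    have r1 : (C.n : ℝ) / 1000 ≤ ((b - a + 1 : ℤ) : ℝ) := by
      have : (C.n : ℝ) ≤ 1000 * ((b - a + 1 : ℤ) : ℝ) := by exact_mod_cast hab
      linarith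
    have r2 : (C.n : ℝ) / 100 ≤ ((e1 - c1 + 1 : ℤ) : ℝ) := by
      have : (C.n : ℝ) ≤ 100 * ((e1 - c1 + 1 : ℤ) : ℝ) := by exact_mod_cast hce1
      linarith
    have r2' : (C.n : ℝ) / 100 ≤ ((e2 - c2 + 1 : ℤ) : ℝ) := by
      have : (C.n : ℝ) ≤ 100 * ((e2 - c2 + 1 : ℤ) : ℝ) := by exact_mod_cast hce2
      linarith
    have r3 : (C.n : ℝ) / 1000 * ((C.n : ℝ) / 100) * ((C.n : ℝ) / 100) ≤
        ((b - a + 1 : ℤ) : ℝ) * ((e1 - c1 + 1 : ℤ) : ℝ) * ((e2 - c2 + 1 : ℤ) : ℝ) := by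
      have r4 : (C.n : ℝ) / 1000 * ((C.n : ℝ) / 100) ≤
          ((b - a + 1 : ℤ) : ℝ) * ((e1 - c1 + 1 : ℤ) : ℝ) := mul_le_mul r1 r2 (by positivity)
            (le_trans (by positivity) r1)
      exact mul_le_mul r4 r2' (by positivity) (le_trans (by positivity) r4)
    have r4 : c1R C.K0 * (C.n : ℝ) ^ 3 ≤
        cG C.K0 * ((C.n : ℝ) / 1000 * ((C.n : ℝ) / 100) * ((C.n : ℝ) / 100)) := by
      unfold c1R
      have : 0 ≤ cG C.K0 * (C.n : ℝ) ^ 3 := by positivity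
      nlinarith
    refine r4.trans (mul_le_mul_of_nonneg_left ?_ hg.le)
    simpa using r3

theorem r_cov5 (C : RCtx) (d : ℤ) (hd : d ∈ dall C.n) (hd1 : inI C.n (155 / 100) 3 d) :
    Pr (fun ω : C.Om => ((C.env ω).covN 5 d : ℝ) < c1R C.K0 * (C.n : ℝ) ^ 3)
      ≤ 2 * Real.exp (-(dG C.K0 * C.q)) := by
  have hn := C.n_big'
  have hk1 := C.base.k_pos
  have hk2 := C.base.k_lt
  obtain ⟨h1a, h1b⟩ := hd1
  have i1 : 155 * (C.n : ℤ) ≤ 100 * d := by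
    have : (155 : ℝ) * C.n ≤ 100 * d := by linarith
    exact_mod_cast this
  have i2 : d ≤ 2 * (C.n : ℤ) + 2 := by
    unfold dall at hd
    split_ifs at hd with hp
    · exact (mem_Icc.1 (mem_of_mem_erase (mem_of_mem_erase hd))).2
    · have := (mem_Icc.1 (mem_of_mem_erase hd)).2
      omega
  obtain ⟨a, b, s1, τ1, s2, τ2, ha0, hab, hb1, hlen, hs1, hs2, hτ1, hτ2, -, hN⟩ :=
    zoneP C.n C.k hk1 hk2 (253 * (C.n : ℤ) / 100 + 1) (254 * (C.n : ℤ) / 100) (by omega)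
      (by omega) (by omega) (by omega)
  refine cv_pr C d a b (12 * (C.n : ℤ) / 10 + 1) (13 * (C.n : ℤ) / 10)
    (16 * (C.n : ℤ) / 10 + 1) (17 * (C.n : ℤ) / 10)
    s1 τ1 s2 τ2 hs1 hs2 ?_ (by omega) (by omega) (by omega) (by omega)
    (by omega) (by omega) (by omega) (by omega) (by omega) i1 i2
  intro A hA hI
  obtain ⟨-, -, n1, n2⟩ := hN A hA
  obtain ⟨p1, p2⟩ := C.not_spec_of_It A hI
  exact ⟨n1 p1, n2 p2⟩

end Pool.Agent.PGr
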