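import Pool.Agent.PGr.RDefs

/-!
# PGr-R-Class: the reserved units are well distributed modulo q

STATEMENT. With probability at least `1 - 2 q exp(-q / (2 K0^2))` every class modulo `q` contains at
most `2 q / K0` units of type 0.

PLAN. For one class `r`: `A := univ.filter (fun u => red q u = r)` has at most `q` elements
(`red q u = r` determines `u.val % q`, so `u ↦ u.val / q` is injective on `A` with values in
`range q`; `red = ZMod.castHom`, `ZMod.castHom_apply`, `ZMod.natCast_val`/`ZMod.cast_eq_val`...).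
`Pr_cntFam A (fun u => {u}) (fun _ _ w => w.1 = 0) 1 1 q` (`V = q`, `t = q / K0`): the mean is
`|A| * Pr(w.1 = 0) = |A| / K0 ≤ q / K0` (`Pr (fun w : Om0 .. => w.1 = 0) = 1 / K0`: `Pr_eq_card` and
cardinality of the product, or `Ex_prod` + `Pr_fin_zero`), so `count > 2 q / K0` implies
`|count - mean| ≥ q / K0 = t`, of probability at most `2 exp(-t^2/(2V)) = 2 exp(-q/(2 K0^2))`.
Union bound over `r : ZMod q` (`Pr_exists_le` with `s = univ`, `ZMod.card`).
-/

namespace Pool.Agent.PGr

open Finset

private theorem classU_card (q : ℕ) [NeZero q] (r : ZMod q) :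
    ((univ : Finset (ZMod (q ^ 2))).filter (fun u => red q u = r)).card ≤ q := by
  classical
  have hq : 0 < q := Nat.pos_of_ne_zero (NeZero.ne q)
  have key : ((univ : Finset (ZMod (q ^ 2))).filter (fun u => red q u = r)).card ≤
      (range q).card := by
    refine card_le_card_of_injOn (fun u => u.val / q) ?_ ?_
    · intro u _
      rw [Finset.mem_coe, mem_range]
      have h1 : u.val < q ^ 2 := ZMod.val_lt u
      exact Nat.div_lt_of_lt_mul (h1.trans_eq (sq q))
    · intro u hu v hv huv
      have hu' : red q u = r := (mem_filter.1 (Finset.mem_coe.1 hu)).2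
      have hv' : red q v = r := (mem_filter.1 (Finset.mem_coe.1 hv)).2
      have e1 : ((u.val : ℕ) : ZMod q) = ((v.val : ℕ) : ZMod q) := by
        have h2 : ∀ w : ZMod (q ^ 2), ((w.val : ℕ) : ZMod q) = red q w := by
          intro w
          unfold red
          rw [ZMod.castHom_apply, ZMod.natCast_val]
        rw [h2, h2, hu', hv']
      have e2 : u.val % q = v.val % q := (ZMod.natCast_eq_natCast_iff' _ _ _).1 e1
      have e3 : u.val / q = v.val / q := huv
      have e4 : u.val = v.val := by
        rw [← Nat.div_add_mod u.val q, ← Nat.div_add_mod v.val q, e2, e3]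
      exact ZMod.val_injective _ e4
  rwa [card_range] at key

private theorem Pr_om0 (K0 S E : ℕ) [NeZero K0] [NeZero S] :
    Pr (fun w : Om0 K0 S E => w.1 = 0) = 1 / K0 := by
  classical
  have hK : 0 < K0 := Nat.pos_of_ne_zero (NeZero.ne K0)
  rw [← Pr_fin_zero K0 hK]
  unfold Pr
  rw [Ex_prod]
  refine Ex_congr fun a => ?_
  by_cases h : a = 0
  · have h' : a.val = 0 := by rw [h]; simp
    simp only [h, if_true]
    rw [Ex_const]
    simp
  · have h' : ¬ a.val = 0 := fun hh => h (Fin.ext (by simpa using hh))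
    simp only [h, h', if_false]
    rw [Ex_const]

open Classical in
theorem class_bound (C : RCtx) :
    Pr (fun ω : C.Om => ¬ ∀ r : ZMod C.q,
      (((univ : Finset (ZMod (C.q ^ 2))).filter (fun u => (ω u).1 = 0 ∧ red C.q u = r)).card : ℝ)
        ≤ 2 * C.q / C.K0)
      ≤ C.q * (2 * Real.exp (-(C.q / (2 * (C.K0 : ℝ) ^ 2)))) := by
  have hq : 0 < C.q := Nat.pos_of_ne_zero (NeZero.ne C.q)
  have hq0 : (0 : ℝ) < C.q := by exact_mod_cast hq
  have hK : 0 < C.K0 := Nat.pos_of_ne_zero (NeZero.ne C.K0)
  have hK0 : (0 : ℝ) < C.K0 := by exact_mod_cast hK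
  have hne : Nonempty (Om0 C.K0 C.S C.E) := ⟨(0, 0, fun _ => false)⟩
  have one : ∀ r : ZMod C.q, Pr (fun ω : C.Om =>
      (2 * C.q / C.K0 : ℝ) < (((univ : Finset (ZMod (C.q ^ 2))).filter
        (fun u => (ω u).1 = 0 ∧ red C.q u = r)).card : ℝ)) ≤
      2 * Real.exp (-(C.q / (2 * (C.K0 : ℝ) ^ 2))) := by
    intro r
    set A : Finset (ZMod (C.q ^ 2)) := univ.filter (fun u => red C.q u = r) with hA
    have hAc : (A.card : ℝ) ≤ C.q := by exact_mod_cast classU_card C.q r
    have h := Pr_cntFam (Ω := Om0 C.K0 C.S C.E) A (fun u : ZMod (C.q ^ 2) => {u})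
      (fun _ _ w => w.1 = 0) 1 1
      (fun j _ => by simp) (fun i => by
        refine (card_le_card (t := {i}) fun j hj => ?_).trans (by simp)
        rw [mem_filter, mem_singleton] at hj
        rw [mem_singleton]
        exact hj.2.symm) (C.q : ℝ) hq0 (by simpa using hAc)
      ((C.q : ℝ) / C.K0) (by positivity)
    have hmean : ∑ j ∈ A, ∏ i ∈ ({j} : Finset (ZMod (C.q ^ 2))),
        Pr (fun w : Om0 C.K0 C.S C.E => w.1 = 0) = A.card / (C.K0 : ℝ) := by
      simp only [prod_singleton, Pr_om0, sum_const, nsmul_eq_mul]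
      ring
    rw [hmean] at h
    refine (Pr_mono fun ω hω => ?_).trans (h.trans (le_of_eq ?_))
    · have e3 : cntFam (Ω := Om0 C.K0 C.S C.E) A (fun u : ZMod (C.q ^ 2) => {u})
          (fun _ _ w => w.1 = 0) ω =
          (((univ : Finset (ZMod (C.q ^ 2))).filter
            (fun u => (ω u).1 = 0 ∧ red C.q u = r)).card : ℝ) := by
        unfold cntFam
        congr 2
        ext x
        simp [hA, and_comm]
      rw [e3, le_abs]
      left
      have e4 : (A.card : ℝ) / C.K0 ≤ C.q / C.K0 := by gcongr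
      have e5 : (2 * C.q / C.K0 : ℝ) = C.q / C.K0 + C.q / C.K0 := by ring
      linarith
    · congr 2
      field_simp
  refine (Pr_mono (p' := fun ω : C.Om => ∃ r ∈ (univ : Finset (ZMod C.q)),
      (2 * C.q / C.K0 : ℝ) < (((univ : Finset (ZMod (C.q ^ 2))).filter
        (fun u => (ω u).1 = 0 ∧ red C.q u = r)).card : ℝ)) fun ω hω => ?_).trans
    ((Pr_exists_le univ _).trans ?_)
  · push Not at hω
    obtain ⟨r, hr⟩ := hω
    exact ⟨r, mem_univ _, hr⟩
  · refine (sum_le_sum fun r _ => one r).trans (le_of_eq ?_)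
    rw [sum_const, card_univ, ZMod.card, nsmul_eq_mul]

end Pool.Agent.PGr
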