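import Pool.Agent.PGr.RTW1

/-!
# PGr-R-DEF: the family DEF (default labels of an item)

WORKED EXAMPLE: RTW1.lean does exactly the same for the type I gadgets: `twF/twT/twX` (resources,
table of doubled slopes, extra forms), `tw1_fam` (hypotheses `Fam` of the counting lemma `gc`),
`tw1_of_good` (a good parameter is a gadget), `tw1_pr` (injection + size of the box), `r_tw1`.
Copy its structure (it compiles) and change the data.

STATEMENT. In each of the four default cases (`defCase`): with probability at least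
`1 - 2 exp(-dG q)` there are at least `c1R n` labels `x ∈ LAM ∩ [lo n, hi n]` whose three differences
with `a, z1, z2` are distinct and lie in `AA`.

PLAN. Parameter `(0, x, 0)`: box `l = (0, u, 0)`, `h = (0, v, 0)`, `It = {0}` (`Fam.it` is `2/5 ≤ 1`),
`[u, v]` = the integers of `[lo n, hi n]` (e.g. for 2.11..2.19: `u = 211n/100 + 1`, `v = 219n/100`;
length about .08 n). Put `s = 1` for a high anchor (`5n ≤ 2a`, the first two cases) and `s = -1` for a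
low anchor. Resources (`β = fun _ => false`, `mate = id`, `φ = 51/100`):
  `![⟨true, ⟨0,1,0,0⟩⟩, ⟨false, ⟨0,-s,0,s*a⟩⟩, ⟨false, ⟨0,s,0,-s*z1⟩⟩, ⟨false, ⟨0,s,0,-s*z2⟩⟩]`
(values `x`, `s(a-x) = |x-a|`, `s(x-z1) = |x-z1|`, `s(x-z2) = |x-z2|`); table
`![(0,1,0), (0,-2*s,0), (0,2*s,0), (0,2*s,0)]`; the only pair of equal slopes is `(2,3)`, constant
`2(-s z1) - 2(-s z2) = ∓2(z1 - z2)`, not divisible by `q` (hypothesis, `dvd_two_mul`).
Extra forms: `exL` of resource 0, `exD` and `gdL` of resources 1, 2, 3 (membership in `AA` needs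
`gd`: `gd_of`). The three differences lie in `[n/10, 13n/10]`:
 case 1: x in [2.11,2.19], a in [2.5,3]: a-x in [.31,.89]; z in [.9,2]: x-z in [.11,1.29];
 case 2: x in [2.21,2.29]: a-x in [.21,.79]; z in [1,2.1]: x-z in [.11,1.29];
 case 3: x in [.81,.89], a in [0,.5]: x-a in [.31,.89]; z in [1,2.1]: z-x in [.11,1.29];
 case 4: x in [.71,.79]: x-a in [.21,.79]; z in [.9,2]: z-x in [.11,1.29].
`LAM` ranges: [.505,.99] or [2.01,2.495] (`mem_LAM`). Size of the box: `≥ n/20`.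
-/

noncomputable section

namespace Pool.Agent.PGr

open Finset

/-- The resources, parameter `(0, x, 0)`. -/
private def dfF (s a z1 z2 : ℤ) : Fin 4 → RF :=
  ![⟨true, ⟨0, 1, 0, 0⟩⟩, ⟨false, ⟨0, -s, 0, s * a⟩⟩, ⟨false, ⟨0, s, 0, -s * z1⟩⟩,
    ⟨false, ⟨0, s, 0, -s * z2⟩⟩]

/-- table of doubled slopes -/
private def dfT (s : ℤ) : Fin 4 → ℤ × ℤ × ℤ :=
  ![(0, 1, 0), (0, 2 * (-s), 0), (0, 2 * s, 0), (0, 2 * s, 0)]

/-- the extra forms -/
private def dfX (n k : ℕ) (s a z1 z2 : ℤ) : List AF :=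
  exL n (dfF s a z1 z2 0).f ++ exD n (dfF s a z1 z2 1).f ++ gdL n k (dfF s a z1 z2 1).f ++
  exD n (dfF s a z1 z2 2).f ++ gdL n k (dfF s a z1 z2 2).f ++
  exD n (dfF s a z1 z2 3).f ++ gdL n k (dfF s a z1 z2 3).f

private theorem df_ev0 (s a z1 z2 : ℤ) (p : ℤ × ℤ × ℤ) :
    (dfF s a z1 z2 0).f.ev p = p.2.1 := by
  show 0 * p.1 + 1 * p.2.1 + 0 * p.2.2 + 0 = p.2.1
  ring

private theorem df_ev1 (s a z1 z2 : ℤ) (p : ℤ × ℤ × ℤ) :
    (dfF s a z1 z2 1).f.ev p = s * (a - p.2.1) := by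
  show 0 * p.1 + (-s) * p.2.1 + 0 * p.2.2 + s * a = s * (a - p.2.1)
  ring

private theorem df_ev2 (s a z1 z2 : ℤ) (p : ℤ × ℤ × ℤ) :
    (dfF s a z1 z2 2).f.ev p = s * (p.2.1 - z1) := by
  show 0 * p.1 + s * p.2.1 + 0 * p.2.2 + -s * z1 = s * (p.2.1 - z1)
  ring

private theorem df_ev3 (s a z1 z2 : ℤ) (p : ℤ × ℤ × ℤ) :
    (dfF s a z1 z2 3).f.ev p = s * (p.2.1 - z2) := by
  show 0 * p.1 + s * p.2.1 + 0 * p.2.2 + -s * z2 = s * (p.2.1 - z2)
  ring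

/-- `Fit` from slopes in the second coordinate only. -/
private theorem fit_mid {q : ℕ} {B : ℤ} {l h t : ℤ × ℤ × ℤ}
    (ht : t.1 = 0 ∧ t.2.1 ≠ 0 ∧ |t.2.1| ≤ B ∧ t.2.2 = 0)
    (hB : 0 ≤ B) (h2 : (q : ℤ) ≤ h.2.1 - l.2.1 + 1) : Fit q B l h t :=
  ⟨fun h0 => ht.2.1 (by rw [h0]; rfl), by rw [ht.1]; simpa using hB, ht.2.2.1,
    by rw [ht.2.2.2]; simpa using hB, fun h => absurd ht.1 h, fun _ => h2,
    fun h => absurd ht.2.2.2 h⟩

private theorem df_fam (C : RCtx) (a z1 z2 u v s : ℤ) (hs : s = 1 ∨ s = -1)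
    (hz : ¬ (C.q : ℤ) ∣ z1 - z2) (hlen : (C.n : ℤ) ≤ 1000 * (v - u + 1))
    (hu : 0 ≤ u) (hv : v ≤ 3 * C.n)
    (hd1 : ∀ x, u ≤ x → x ≤ v → 0 ≤ s * (a - x) ∧ s * (a - x) ≤ 3 * C.n)
    (hd2 : ∀ x, u ≤ x → x ≤ v → 0 ≤ s * (x - z1) ∧ s * (x - z1) ≤ 3 * C.n)
    (hd3 : ∀ x, u ≤ x → x ≤ v → 0 ≤ s * (x - z2) ∧ s * (x - z2) ≤ 3 * C.n) :
    Fam C.q C.S C.E C.bad (0, u, 0) (0, v, 0) {0} (dfF s a z1 z2) id
      (dfX C.n C.k s a z1 z2) (dfT s) (fun _ => 51 / 100) := by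
  have hqp := C.q_prime
  have hnq := C.n_big
  have hn := C.n_big'
  have hqb := C.q_big
  have hE := C.E_big
  have hq0 : (0 : ℤ) < C.q := by exact_mod_cast hqp.pos
  have side : (C.q : ℤ) ≤ v - u + 1 := by
    by_contra hcon
    push Not at hcon
    nlinarith
  have hval : ∀ p ∈ bx (0, u, 0) (0, v, 0), ∀ i : Fin 4,
      0 ≤ (dfF s a z1 z2 i).f.ev p ∧ (dfF s a z1 z2 i).f.ev p ≤ 3 * C.n := by
    intro p hp i
    rw [mem_bx] at hp
    obtain ⟨-, ⟨hp3, hp4⟩, -⟩ := hp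
    have hp3' : u ≤ p.2.1 := hp3
    have hp4' : p.2.1 ≤ v := hp4
    have r0 : 0 ≤ (dfF s a z1 z2 0).f.ev p ∧ (dfF s a z1 z2 0).f.ev p ≤ 3 * C.n := by
      rw [df_ev0]; exact ⟨by omega, by omega⟩
    have r1 : 0 ≤ (dfF s a z1 z2 1).f.ev p ∧ (dfF s a z1 z2 1).f.ev p ≤ 3 * C.n := by
      rw [df_ev1]; exact hd1 _ hp3' hp4'
    have r2 : 0 ≤ (dfF s a z1 z2 2).f.ev p ∧ (dfF s a z1 z2 2).f.ev p ≤ 3 * C.n := by
      rw [df_ev2]; exact hd2 _ hp3' hp4'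
    have r3 : 0 ≤ (dfF s a z1 z2 3).f.ev p ∧ (dfF s a z1 z2 3).f.ev p ≤ 3 * C.n := by
      rw [df_ev3]; exact hd3 _ hp3' hp4'
    fin_cases i
    · exact r0
    · exact r1
    · exact r2
    · exact r3
  have f4 : ∀ i, Fit C.q 4 (0, u, 0) (0, v, 0) (dfF s a z1 z2 i).f.sl := by
    intro i
    refine fit_mid ?_ (by norm_num) side
    rcases hs with rfl | rfl <;> fin_cases i <;> simp [dfF, AF.sl]
  constructor
  · norm_num
  · norm_num
  · simp [dfX, exL, exD, gdL]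
  · show (0 : ℤ) ≤ 0; norm_num
  · show u ≤ v; omega
  · show (0 : ℤ) ≤ 0; norm_num
  · show (2 / 5 : ℝ) * (((0 : ℤ) - 0 + 1 : ℤ) : ℝ) ≤
      (((Icc (0 : ℤ) 0).filter (· ∈ ({0} : Finset ℤ))).card : ℝ)
    have h1 : ((Icc (0 : ℤ) 0).filter (· ∈ ({0} : Finset ℤ))) = {0} := by
      ext x
      simp
    rw [h1]
    norm_num
  · intro i
    rcases hs with rfl | rfl <;> fin_cases i <;> rfl
  · intro i
    refine fit_mid ?_ (by norm_num) side
    rcases hs with rfl | rfl <;> fin_cases i <;> simp [dfT]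
  · intro X hX
    simp only [dfX, List.mem_append] at hX
    rcases hX with (((((hX | hX) | hX) | hX) | hX) | hX) | hX
    · exact fit_exL (f4 0) X hX
    · exact fit_exD (f4 1) X hX
    · exact fit_gdL (f4 1) X hX
    · exact fit_exD (f4 2) X hX
    · exact fit_gdL (f4 2) X hX
    · exact fit_exD (f4 3) X hX
    · exact fit_gdL (f4 3) X hX
  · intro i; rfl
  · have n1 : ¬ (C.q : ℤ) ∣ 2 * (-s * z1) - 2 * (-s * z2) := by
      intro h
      apply hz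
      refine dvd_two_mul hqp (by omega) (t := z1 - z2) ?_
      rcases hs with rfl | rfl
      · have := (dvd_neg).2 h
        rwa [show -(2 * (-1 * z1) - 2 * (-1 * z2)) = 2 * (z1 - z2) by ring] at this
      · rwa [show (2 * (- -1 * z1) - 2 * (- -1 * z2)) = 2 * (z1 - z2) by ring] at h
    intro i j hij hT _
    have key : i = 2 ∧ j = 3 := by
      rcases hs with rfl | rfl <;> revert i j <;> decide
    obtain ⟨rfl, rfl⟩ := key
    exact n1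
  · intro p hp _ i
    have := hval p hp i
    exact ⟨by omega, by omega⟩
  · intro p _ _ i hi
    exact absurd rfl hi
  · intro i; norm_num
  · intro i; norm_num
  · intro i hi
    exact absurd rfl hi
  · intro p _ _ i
    cases hl : (dfF s a z1 z2 i).lab
    · exact bad_diff C _
    · exact bad_label C _

/-- A good parameter is a label of the default set. -/
private theorem df_of_good (C : RCtx) (ω : C.Om) (a z1 z2 u v s : ℤ) (lo hi' : ℝ)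
    (hs : s = 1 ∨ s = -1)
    (hlo : lo * (C.n : ℝ) ≤ (u : ℝ)) (hhi : (v : ℝ) ≤ hi' * (C.n : ℝ))
    (hL : (505 * (C.n : ℤ) ≤ 1000 * u ∧ 100 * v ≤ 99 * (C.n : ℤ)) ∨
      (201 * (C.n : ℤ) ≤ 100 * u ∧ 1000 * v ≤ 2495 * (C.n : ℤ)))
    (hd1 : ∀ x, u ≤ x → x ≤ v → (C.n : ℤ) ≤ 10 * (s * (a - x)) ∧ 10 * (s * (a - x)) ≤ 13 * C.n)
    (hd2 : ∀ x, u ≤ x → x ≤ v → (C.n : ℤ) ≤ 10 * (s * (x - z1)) ∧ 10 * (s * (x - z1)) ≤ 13 * C.n)
    (hd3 : ∀ x, u ≤ x → x ≤ v → (C.n : ℤ) ≤ 10 * (s * (x - z2)) ∧ 10 * (s * (x - z2)) ≤ 13 * C.n)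
    (p : ℤ × ℤ × ℤ)
    (hp : p ∈ C.good (0, u, 0) (0, v, 0) {0} (dfF s a z1 z2) (fun _ => false) id
      (dfX C.n C.k s a z1 z2) ω) :
    p.1 = 0 ∧ p.2.2 = 0 ∧ p.2.1 ∈ (C.env ω).defSet (C.env ω).AA lo hi' a z1 z2 := by
  classical
  have hn := C.n_big'
  rw [RCtx.good, goodP, mem_filter, mem_bx] at hp
  obtain ⟨⟨-, ⟨hp3, hp4⟩, ⟨hp5, hp6⟩⟩, hI, hex, hsub, hres⟩ := hp
  obtain ⟨A, x, z⟩ := p
  simp only [mem_singleton] at hp3 hp4 hp5 hp6 hI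
  subst hI
  obtain rfl : z = 0 := by omega
  have e0 : (dfF s a z1 z2 0).f.ev (0, x, 0) = x := df_ev0 s a z1 z2 _
  have e1 : (dfF s a z1 z2 1).f.ev (0, x, 0) = s * (a - x) := df_ev1 s a z1 z2 _
  have e2 : (dfF s a z1 z2 2).f.ev (0, x, 0) = s * (x - z1) := df_ev2 s a z1 z2 _
  have e3 : (dfF s a z1 z2 3).f.ev (0, x, 0) = s * (x - z2) := df_ev3 s a z1 z2 _
  obtain ⟨g1a, g1b⟩ := hd1 x hp3 hp4
  obtain ⟨g2a, g2b⟩ := hd2 x hp3 hp4
  obtain ⟨g3a, g3b⟩ := hd3 x hp3 hp4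
  have a1 : |x - a| = s * (a - x) := by
    rcases hs with rfl | rfl
    · rw [abs_of_nonpos (by omega)]; ring
    · rw [abs_of_nonneg (by omega)]; ring
  have a2 : |x - z1| = s * (x - z1) := by
    rcases hs with rfl | rfl
    · rw [abs_of_nonneg (by omega)]; ring
    · rw [abs_of_nonpos (by omega)]; ring
  have a3 : |x - z2| = s * (x - z2) := by
    rcases hs with rfl | rfl
    · rw [abs_of_nonneg (by omega)]; ring
    · rw [abs_of_nonpos (by omega)]; ring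
  have hdne : ∀ i j : Fin 4, (dfF s a z1 z2 i).lab = (dfF s a z1 z2 j).lab →
      i ≠ j → (dfF s a z1 z2 i).f.ev (0, x, 0) ≠ (dfF s a z1 z2 j).f.ev (0, x, 0) :=
    fun i j hl hij => ne_of_sub hl (hsub i j hij hij)
  have hexm : ∀ L : List AF, (∀ X ∈ L, X ∈ dfX C.n C.k s a z1 z2) →
      ∀ X ∈ L, ¬ (C.q : ℤ) ∣ X.ev (0, x, 0) := fun L hL X hX => hex X (hL X hX)
  have hinI : ∀ d : ℤ, (C.n : ℤ) ≤ 10 * d → 10 * d ≤ 13 * (C.n : ℤ) →
      inI C.n (1 / 10) (13 / 10) d := by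
    intro d h1 h2
    have h3 : (C.n : ℝ) ≤ 10 * (d : ℝ) := by exact_mod_cast h1
    have h4 : 10 * (d : ℝ) ≤ 13 * (C.n : ℝ) := by exact_mod_cast h2
    exact ⟨by linarith, by linarith⟩
  have hAA : ∀ i : Fin 4, (dfF s a z1 z2 i).lab = false →
      (∀ X ∈ exD C.n (dfF s a z1 z2 i).f, X ∈ dfX C.n C.k s a z1 z2) →
      (∀ X ∈ gdL C.n C.k (dfF s a z1 z2 i).f, X ∈ dfX C.n C.k s a z1 z2) →
      (C.n : ℤ) ≤ 10 * (dfF s a z1 z2 i).f.ev (0, x, 0) →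
      10 * (dfF s a z1 z2 i).f.ev (0, x, 0) ≤ 13 * (C.n : ℤ) →
      (dfF s a z1 z2 i).f.ev (0, x, 0) ∈ (C.env ω).AA := by
    intro i hl hX hG hlo hhi
    obtain ⟨x1, x2, x3⟩ := ne_of_exD (hexm _ hX)
    refine mem_AA C ω _ (dall_of C.n _ (by omega) (by omega) x1 x2 x3) (hinI _ hlo hhi)
      (gd_of (hexm _ hG)) ?_
    have := hres i
    rwa [hl] at this
  have m1 := hAA 1 rfl (by simp +contextual [dfX]) (by simp +contextual [dfX])
    (by rw [e1]; exact g1a) (by rw [e1]; exact g1b)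
  have m2 := hAA 2 rfl (by simp +contextual [dfX]) (by simp +contextual [dfX])
    (by rw [e2]; exact g2a) (by rw [e2]; exact g2b)
  have m3 := hAA 3 rfl (by simp +contextual [dfX]) (by simp +contextual [dfX])
    (by rw [e3]; exact g3a) (by rw [e3]; exact g3b)
  have n12 := hdne 1 2 rfl (by decide)
  have n13 := hdne 1 3 rfl (by decide)
  have n23 := hdne 2 3 rfl (by decide)
  have hur : (u : ℝ) ≤ (x : ℝ) := by exact_mod_cast hp3
  have hvr : (x : ℝ) ≤ (v : ℝ) := by exact_mod_cast hp4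
  have m0 : x ∈ (C.env ω).LAM := by
    refine mem_LAM C ω _ (zall_of C.n (by omega) _ (by rcases hL with h | h <;> omega)
      (by rcases hL with h | h <;> omega) ?_) ?_ ?_
    · have := ne_of_exL (n := C.n) (F := (dfF s a z1 z2 0).f) (p := (0, x, 0))
        (hexm _ (by simp +contextual [dfX]))
      rwa [e0] at this
    · rcases hL with ⟨h1, h2⟩ | ⟨h1, h2⟩
      · left
        have h3 : 505 * (C.n : ℝ) ≤ 1000 * (u : ℝ) := by exact_mod_cast h1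
        have h4 : 100 * (v : ℝ) ≤ 99 * (C.n : ℝ) := by exact_mod_cast h2
        exact ⟨by linarith, by linarith⟩
      · right
        have h3 : 201 * (C.n : ℝ) ≤ 100 * (u : ℝ) := by exact_mod_cast h1
        have h4 : 1000 * (v : ℝ) ≤ 2495 * (C.n : ℝ) := by exact_mod_cast h2
        exact ⟨by linarith, by linarith⟩
    · have := hres 0
      rwa [e0] at this
  rw [e1] at m1 n12 n13
  rw [e2] at m2 n12 n23
  rw [e3] at m3 n13 n23
  refine ⟨rfl, rfl, ?_⟩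
  unfold Env.defSet
  rw [mem_filter]
  refine ⟨m0, ⟨hlo.trans hur, hvr.trans hhi⟩, ?_⟩
  show |x - a| ∈ _ ∧ |x - z1| ∈ _ ∧ |x - z2| ∈ _ ∧ |x - a| ≠ |x - z1| ∧ |x - a| ≠ |x - z2| ∧
    |x - z1| ≠ |x - z2|
  rw [a1, a2, a3]
  exact ⟨m1, m2, m3, n12, n13, n23⟩

/-- The probability bound for explicit intervals. -/
private theorem df_pr (C : RCtx) (a z1 z2 u v s : ℤ) (lo hi' : ℝ)
    (hs : s = 1 ∨ s = -1) (hz : ¬ (C.q : ℤ) ∣ z1 - z2) (hlen : (C.n : ℤ) ≤ 1000 * (v - u + 1))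
    (hlo : lo * (C.n : ℝ) ≤ (u : ℝ)) (hhi : (v : ℝ) ≤ hi' * (C.n : ℝ))
    (hL : (505 * (C.n : ℤ) ≤ 1000 * u ∧ 100 * v ≤ 99 * (C.n : ℤ)) ∨
      (201 * (C.n : ℤ) ≤ 100 * u ∧ 1000 * v ≤ 2495 * (C.n : ℤ)))
    (hd1 : ∀ x, u ≤ x → x ≤ v → (C.n : ℤ) ≤ 10 * (s * (a - x)) ∧ 10 * (s * (a - x)) ≤ 13 * C.n)
    (hd2 : ∀ x, u ≤ x → x ≤ v → (C.n : ℤ) ≤ 10 * (s * (x - z1)) ∧ 10 * (s * (x - z1)) ≤ 13 * C.n)
    (hd3 : ∀ x, u ≤ x → x ≤ v → (C.n : ℤ) ≤ 10 * (s * (x - z2)) ∧ 10 * (s * (x - z2)) ≤ 13 * C.n) :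
    Pr (fun ω : C.Om => ((C.env ω).dfN a z1 z2 lo hi' : ℝ) < c1R C.K0 * (C.n : ℝ))
      ≤ 2 * Real.exp (-(dG C.K0 * C.q)) := by
  classical
  have hn := C.n_big'
  have H := df_fam C a z1 z2 u v s hs hz hlen (by rcases hL with h | h <;> omega)
    (by rcases hL with h | h <;> omega)
    (fun x h1 h2 => by obtain ⟨h3, h4⟩ := hd1 x h1 h2; exact ⟨by omega, by omega⟩)
    (fun x h1 h2 => by obtain ⟨h3, h4⟩ := hd2 x h1 h2; exact ⟨by omega, by omega⟩)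
    (fun x h1 h2 => by obtain ⟨h3, h4⟩ := hd3 x h1 h2; exact ⟨by omega, by omega⟩)
  have G := gc C.q C.K0 C.S C.E C.q_prime C.q_big C.bad (0, u, 0) (0, v, 0) {0}
    (dfF s a z1 z2) (fun _ => false) id (dfX C.n C.k s a z1 z2) (dfT s)
    (fun _ => 51 / 100) H
  refine le_trans (Pr_mono ?_) G
  intro ω hω
  refine lt_of_le_of_lt ?_ (lt_of_lt_of_le hω ?_)
  · norm_cast
    refine Finset.card_le_card_of_injOn (fun p => p.2.1) ?_ ?_
    · intro p hp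
      exact (df_of_good C ω a z1 z2 u v s lo hi' hs hlo hhi hL hd1 hd2 hd3 p hp).2.2
    · intro p hp p' hp' hpp
      obtain ⟨h1, h2, -⟩ := df_of_good C ω a z1 z2 u v s lo hi' hs hlo hhi hL hd1 hd2 hd3 p hp
      obtain ⟨h1', h2', -⟩ :=
        df_of_good C ω a z1 z2 u v s lo hi' hs hlo hhi hL hd1 hd2 hd3 p' hp'
      exact Prod.ext (by rw [h1, h1']) (Prod.ext hpp (by rw [h2, h2']))
  · rw [card_bx _ _ H.le1 H.le2 H.le3]
    have hK : (0 : ℝ) < C.K0 := by exact_mod_cast Nat.pos_of_ne_zero C.nK.out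
    have hg : 0 < cG C.K0 := by unfold cG gam; positivity
    have r1 : (C.n : ℝ) / 1000 ≤ ((v - u + 1 : ℤ) : ℝ) := by
      have : (C.n : ℝ) ≤ 1000 * ((v - u + 1 : ℤ) : ℝ) := by exact_mod_cast hlen
      linarith
    have r4 : c1R C.K0 * (C.n : ℝ) ≤ cG C.K0 * ((C.n : ℝ) / 1000) := by
      unfold c1R
      have : 0 ≤ cG C.K0 * (C.n : ℝ) := by positivity
      linarith
    refine r4.trans (mul_le_mul_of_nonneg_left ?_ hg.le)
    simpa using r1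

theorem r_def (C : RCtx) (a z1 z2 : ℤ) (lo hi' : ℝ)
    (hinc : ¬ (C.q : ℤ) ∣ a - z1 ∧ ¬ (C.q : ℤ) ∣ a - z2 ∧ ¬ (C.q : ℤ) ∣ z1 - z2)
    (hcase : ∀ ω : C.Om, (C.env ω).defCase a z1 z2 lo hi') :
    Pr (fun ω : C.Om => ((C.env ω).dfN a z1 z2 lo hi' : ℝ) < c1R C.K0 * (C.n : ℝ))
      ≤ 2 * Real.exp (-(dG C.K0 * C.q)) := by
  have hn := C.n_big'
  have hz := hinc.2.2
  have ω0 : C.Om := fun _ => (0, 0, fun _ => false)
  have hc := hcase ω0
  -- real inequalities to integer ones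
  have cl : ∀ (m : ℤ) (z : ℤ) (t : ℝ), t * 10 = m → t * (C.n : ℝ) ≤ z →
      m * (C.n : ℤ) ≤ 10 * z := by
    intro m z t ht h
    have h1 : (m : ℝ) * (C.n : ℝ) ≤ 10 * (z : ℝ) := by
      rw [← ht]; linarith
    exact_mod_cast h1
  have cu : ∀ (m : ℤ) (z : ℤ) (t : ℝ), t * 10 = m → (z : ℝ) ≤ t * (C.n : ℝ) →
      10 * z ≤ m * (C.n : ℤ) := by
    intro m z t ht h
    have h1 : 10 * (z : ℝ) ≤ (m : ℝ) * (C.n : ℝ) := by
      rw [← ht]; linarith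
    exact_mod_cast h1
  have dl : ∀ (m : ℤ) (w : ℤ) (t : ℝ), t * 100 = m → m * (C.n : ℤ) ≤ 100 * w →
      t * (C.n : ℝ) ≤ (w : ℝ) := by
    intro m w t ht h
    have h1 : (m : ℝ) * (C.n : ℝ) ≤ 100 * (w : ℝ) := by exact_mod_cast h
    rw [← ht] at h1
    linarith
  have du : ∀ (m : ℤ) (w : ℤ) (t : ℝ), t * 100 = m → 100 * w ≤ m * (C.n : ℤ) →
      (w : ℝ) ≤ t * (C.n : ℝ) := by
    intro m w t ht h
    have h1 : 100 * (w : ℝ) ≤ (m : ℝ) * (C.n : ℝ) := by exact_mod_cast h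
    rw [← ht] at h1
    linarith
  rcases hc with ⟨h1, h2, ⟨h3, h4⟩, ⟨h5, h6⟩, rfl, rfl⟩ | ⟨h1, h2, ⟨h3, h4⟩, ⟨h5, h6⟩, rfl, rfl⟩ |
    ⟨h1, h2, ⟨h3, h4⟩, ⟨h5, h6⟩, rfl, rfl⟩ | ⟨h1, h2, ⟨h3, h4⟩, ⟨h5, h6⟩, rfl, rfl⟩
  · replace h1 : 5 * (C.n : ℤ) ≤ 2 * a := h1
    replace h2 : a ≤ 3 * (C.n : ℤ) := h2
    have i3 := cl 9 z1 (9 / 10) (by norm_num) h3
    have i4 := cu 20 z1 2 (by norm_num) h4
    have i5 := cl 9 z2 (9 / 10) (by norm_num) h5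
    have i6 := cu 20 z2 2 (by norm_num) h6
    refine df_pr C a z1 z2 (211 * (C.n : ℤ) / 100 + 1) (219 * (C.n : ℤ) / 100) 1 _ _ (Or.inl rfl)
      hz (by omega) (dl 211 _ _ (by norm_num) (by omega)) (du 219 _ _ (by norm_num) (by omega))
      (Or.inr ⟨by omega, by omega⟩) ?_ ?_ ?_
    · intro x hx hx'; constructor <;> omega
    · intro x hx hx'; constructor <;> omega
    · intro x hx hx'; constructor <;> omega
  · replace h1 : 5 * (C.n : ℤ) ≤ 2 * a := h1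
    replace h2 : a ≤ 3 * (C.n : ℤ) := h2
    have i3 := cl 10 z1 1 (by norm_num) h3
    have i4 := cu 21 z1 (21 / 10) (by norm_num) h4
    have i5 := cl 10 z2 1 (by norm_num) h5
    have i6 := cu 21 z2 (21 / 10) (by norm_num) h6
    refine df_pr C a z1 z2 (221 * (C.n : ℤ) / 100 + 1) (229 * (C.n : ℤ) / 100) 1 _ _ (Or.inl rfl)
      hz (by omega) (dl 221 _ _ (by norm_num) (by omega)) (du 229 _ _ (by norm_num) (by omega))
      (Or.inr ⟨by omega, by omega⟩) ?_ ?_ ?_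
    · intro x hx hx'; constructor <;> omega
    · intro x hx hx'; constructor <;> omega
    · intro x hx hx'; constructor <;> omega
  · replace h2 : 2 * a ≤ (C.n : ℤ) := h2
    have i3 := cl 10 z1 1 (by norm_num) h3
    have i4 := cu 21 z1 (21 / 10) (by norm_num) h4
    have i5 := cl 10 z2 1 (by norm_num) h5
    have i6 := cu 21 z2 (21 / 10) (by norm_num) h6
    refine df_pr C a z1 z2 (81 * (C.n : ℤ) / 100 + 1) (89 * (C.n : ℤ) / 100) (-1) _ _ (Or.inr rfl)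
      hz (by omega) (dl 81 _ _ (by norm_num) (by omega)) (du 89 _ _ (by norm_num) (by omega))
      (Or.inl ⟨by omega, by omega⟩) ?_ ?_ ?_
    · intro x hx hx'; constructor <;> omega
    · intro x hx hx'; constructor <;> omega
    · intro x hx hx'; constructor <;> omega
  · replace h2 : 2 * a ≤ (C.n : ℤ) := h2
    have i3 := cl 9 z1 (9 / 10) (by norm_num) h3
    have i4 := cu 20 z1 2 (by norm_num) h4
    have i5 := cl 9 z2 (9 / 10) (by norm_num) h5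
    have i6 := cu 20 z2 2 (by norm_num) h6
    refine df_pr C a z1 z2 (71 * (C.n : ℤ) / 100 + 1) (79 * (C.n : ℤ) / 100) (-1) _ _ (Or.inr rfl)
      hz (by omega) (dl 71 _ _ (by norm_num) (by omega)) (du 79 _ _ (by norm_num) (by omega))
      (Or.inl ⟨by omega, by omega⟩) ?_ ?_ ?_
    · intro x hx hx'; constructor <;> omega
    · intro x hx hx'; constructor <;> omega
    · intro x hx hx'; constructor <;> omega

end Pool.Agent.PGr
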