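import Pool.Agent.PGr.RTW1

/-!
# PGr-R-EO: the family of three-way gadgets
-/

noncomputable section

namespace Pool.Agent.PGr

open Finset

/-- The resources of a three-way gadget, parameter `(A, x, b2)`; `s3` = sign of `A - b2 - d`. -/
def eoF (d s1 τ1 s2 τ2 s3 : ℤ) : Fin 12 → RF :=
  ![⟨true, ⟨0, 1, 0, -d⟩⟩, ⟨true, ⟨0, 0, 1, 0⟩⟩, ⟨true, ⟨0, 1, 0, 0⟩⟩, ⟨true, ⟨1, -1, 1, 0⟩⟩,
    ⟨true, ⟨-1, 1, 1, 0⟩⟩,
    ⟨false, ⟨1, -2, 1, d⟩⟩, ⟨false, ⟨0, 1, -1, 0⟩⟩, ⟨false, ⟨1, -1, 0, 0⟩⟩,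
    ⟨false, ⟨2, -1, -1, 0⟩⟩, ⟨false, ⟨s3, 0, -s3, -s3 * d⟩⟩,
    ⟨false, ⟨1, -s1, 0, s1 * d - τ1⟩⟩, ⟨false, ⟨1, 0, -s2, -τ2⟩⟩]

/-- table of doubled slopes -/
def eoT (s1 s2 s3 : ℤ) : Fin 12 → ℤ × ℤ × ℤ :=
  ![(0, 1, 0), (0, 0, 1), (0, 1, 0), (1, -1, 1), (-1, 1, 1),
    (2, -4, 2), (0, 2, -2), (2, -2, 0), (4, -2, -2), (2 * s3, 0, 2 * (-s3)),
    (2, 2 * (-s1), 0), (2, 0, 2 * (-s2))]

/-- the extra forms -/
def eoX (n k : ℕ) (d s1 τ1 s2 τ2 s3 : ℤ) : List AF :=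
  exL n (eoF d s1 τ1 s2 τ2 s3 0).f ++ exL n (eoF d s1 τ1 s2 τ2 s3 1).f ++
  exL n (eoF d s1 τ1 s2 τ2 s3 2).f ++ exL n (eoF d s1 τ1 s2 τ2 s3 3).f ++
  exL n (eoF d s1 τ1 s2 τ2 s3 4).f ++
  exD n (eoF d s1 τ1 s2 τ2 s3 5).f ++ exD n (eoF d s1 τ1 s2 τ2 s3 6).f ++
  exD n (eoF d s1 τ1 s2 τ2 s3 7).f ++ exD n (eoF d s1 τ1 s2 τ2 s3 8).f ++
  exD n (eoF d s1 τ1 s2 τ2 s3 9).f ++ exD n (eoF d s1 τ1 s2 τ2 s3 10).f ++
  exD n (eoF d s1 τ1 s2 τ2 s3 11).f ++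
  gdL n k (eoF d s1 τ1 s2 τ2 s3 5).f ++ gdL n k (eoF d s1 τ1 s2 τ2 s3 6).f ++
  gdL n k (eoF d s1 τ1 s2 τ2 s3 8).f ++ gdL n k (eoF d s1 τ1 s2 τ2 s3 9).f ++
  [⟨-s3, 1, -1 + s3, s3 * d⟩]

/-- `Fit` from closed slopes and three long sides. -/
theorem Fit.three {q : ℕ} {B : ℤ} {l h t : ℤ × ℤ × ℤ}
    (ht : t ≠ 0 ∧ |t.1| ≤ B ∧ |t.2.1| ≤ B ∧ |t.2.2| ≤ B)
    (h1 : (q : ℤ) ≤ h.1 - l.1 + 1) (h2 : (q : ℤ) ≤ h.2.1 - l.2.1 + 1)
    (h3 : (q : ℤ) ≤ h.2.2 - l.2.2 + 1) :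
    Fit q B l h t :=
  ⟨ht.1, ht.2.1, ht.2.2.1, ht.2.2.2, fun _ => h1, fun _ => h2, fun _ => h3⟩

/-- The ranges of a three-way family. -/
structure EoR (n : ℕ) (d a b xl xh bl bh s3 : ℤ) : Prop where
  ha : 251 * (n : ℤ) ≤ 100 * a
  hb : b ≤ 3 * n
  hab : (n : ℤ) ≤ 1000 * (b - a + 1)
  hx : (n : ℤ) ≤ 100 * (xh - xl + 1)
  hbb : (n : ℤ) ≤ 100 * (bh - bl + 1)
  b1l : (n : ℤ) ≤ xl - d
  b1h : xh - d ≤ 2 * n
  b2l : (n : ℤ) ≤ bl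
  b2h : bh ≤ 2 * n
  x1l : 505 * (n : ℤ) ≤ 1000 * xl
  x1h : 1000 * xh ≤ 2495 * n
  x2l : 505 * (n : ℤ) ≤ 1000 * (bl + a - xh)
  x2h : 1000 * (bh + b - xl) ≤ 2495 * n
  x3l : 505 * (n : ℤ) ≤ 1000 * (xl + bl - b)
  x3h : 1000 * (xh + bh - a) ≤ 2495 * n
  al : 7 * (n : ℤ) ≤ 100 * (a + bl - 2 * xh + d)
  al' : 10 * (b + bh - 2 * xl + d) ≤ 13 * n
  be : 7 * (n : ℤ) ≤ 100 * (xl - bh)
  be' : 10 * (xh - bl) ≤ 13 * n
  ga : 1 ≤ a - xh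
  ga' : b - xl ≤ 2 * n
  aa : 7 * (n : ℤ) ≤ 100 * (2 * a - bh - xh)
  aa' : 10 * (2 * b - bl - xl) ≤ 13 * n
  bp : s3 = 1 → 7 * (n : ℤ) ≤ 100 * (a - bh - d) ∧ 10 * (b - bl - d) ≤ 13 * n
  bm : s3 = -1 → 7 * (n : ℤ) ≤ 100 * (bl - b + d) ∧ 10 * (bh - a + d) ≤ 13 * n

/-- The values of the resources. -/
theorem eo_ev (d s1 τ1 s2 τ2 s3 A x z : ℤ) (i : Fin 12) :
    (eoF d s1 τ1 s2 τ2 s3 i).f.ev (A, x, z) =
      (![x - d, z, x, A - x + z, x + z - A, A + z - 2 * x + d, x - z, A - x, 2 * A - x - z,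
        s3 * (A - z - d), A - s1 * (x - d) - τ1, A - s2 * z - τ2] : Fin 12 → ℤ) i := by
  fin_cases i <;> simp [eoF, AF.ev] <;> ring

/-- The ranges of the values. -/
theorem eo_val {n : ℕ} (hn : 1000 ≤ (n : ℤ)) {v1 v2 : ℕ} {d a b xl xh bl bh s1 τ1 s2 τ2 s3 A x z : ℤ}
    (hs1 : s1 = 1 ∨ s1 = -1) (hs2 : s2 = 1 ∨ s2 = -1) (hs3 : s3 = 1 ∨ s3 = -1)
    (hR : EoR n d a b xl xh bl bh s3) (hN1 : NbT n v1 A s1 τ1) (hN2 : NbT n v2 A s2 τ2)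
    (hp1 : a ≤ A) (hp2 : A ≤ b) (hp3 : xl ≤ x) (hp4 : x ≤ xh) (hp5 : bl ≤ z) (hp6 : z ≤ bh) :
    ((n : ℤ) ≤ x - d ∧ x - d ≤ 2 * n) ∧ ((n : ℤ) ≤ z ∧ z ≤ 2 * n) ∧
    (505 * (n : ℤ) ≤ 1000 * x ∧ 1000 * x ≤ 2495 * n) ∧
    (505 * (n : ℤ) ≤ 1000 * (A - x + z) ∧ 1000 * (A - x + z) ≤ 2495 * n) ∧
    (505 * (n : ℤ) ≤ 1000 * (x + z - A) ∧ 1000 * (x + z - A) ≤ 2495 * n) ∧
    (7 * (n : ℤ) ≤ 100 * (A + z - 2 * x + d) ∧ 10 * (A + z - 2 * x + d) ≤ 13 * n) ∧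
    (7 * (n : ℤ) ≤ 100 * (x - z) ∧ 10 * (x - z) ≤ 13 * n) ∧
    (1 ≤ A - x ∧ A - x ≤ 2 * n) ∧
    (7 * (n : ℤ) ≤ 100 * (2 * A - x - z) ∧ 10 * (2 * A - x - z) ≤ 13 * n) ∧
    (7 * (n : ℤ) ≤ 100 * (s3 * (A - z - d)) ∧ 10 * (s3 * (A - z - d)) ≤ 13 * n) ∧
    (1 ≤ A - s1 * (x - d) - τ1 ∧ A - s1 * (x - d) - τ1 ≤ 2 * n ∧
      |x - d - anc n v1| = A - s1 * (x - d) - τ1) ∧
    (1 ≤ A - s2 * z - τ2 ∧ A - s2 * z - τ2 ≤ 2 * n ∧ |z - anc n v2| = A - s2 * z - τ2) := by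
  have hR' := hR
  obtain ⟨ha, hb, hab, hx, hbb, b1l, b1h, b2l, b2h, x1l, x1h, x2l, x2h, x3l, x3h, al, al', be, be',
    ga, ga', aa, aa', bp, bm⟩ := hR'
  obtain ⟨q1, q2, q3, q4⟩ := spoke_eq (y := x - d) hN1 (by linarith) (by linarith)
  obtain ⟨w1, w2, w3, w4⟩ := spoke_eq (y := z) hN2 (by linarith) (by linarith)
  refine ⟨⟨by linarith, by linarith⟩, ⟨by linarith, by linarith⟩, ⟨by linarith, by linarith⟩,
    ⟨by linarith, by linarith⟩, ⟨by linarith, by linarith⟩, ⟨by linarith, by linarith⟩,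
    ⟨by linarith, by linarith⟩, ⟨by linarith, by linarith⟩, ⟨by linarith, by linarith⟩, ?_,
    ⟨q2, ?_, q1⟩, ⟨w2, ?_, w1⟩⟩
  · rcases hs3 with rfl | rfl
    · obtain ⟨r1, r2⟩ := bp rfl
      constructor <;> linarith
    · obtain ⟨r1, r2⟩ := bm rfl
      constructor <;> linarith
  · rcases hs1 with hs | hs
    · have := q3 hs; linarith
    · have := q4 hs; linarith
  · rcases hs2 with hs | hs
    · have := w3 hs; linarith
    · have := w4 hs; linarith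

theorem eo_fam (C : RCtx) (d a b xl xh bl bh s1 τ1 s2 τ2 s3 : ℤ)
    (hs1 : s1 = 1 ∨ s1 = -1) (hs2 : s2 = 1 ∨ s2 = -1) (hs3 : s3 = 1 ∨ s3 = -1)
    (hτ1 : s1 = 1 → TauOK C.n C.k τ1) (hτ2 : s2 = 1 → TauOK C.n C.k τ2)
    (hd : gd C.n C.k C.q d) (hd0 : 0 ≤ d)
    (hnb : ∀ A ∈ Icc a b, A ∈ C.It →
      NbT C.n (nbp C.n C.k (mOf C.n A)) A s1 τ1 ∧ NbT C.n (nbm C.n C.k (mOf C.n A)) A s2 τ2)
    (hR : EoR C.n d a b xl xh bl bh s3) :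
    Fam C.q C.S C.E C.bad (a, xl, bl) (b, xh, bh) C.It (eoF d s1 τ1 s2 τ2 s3) id
      (eoX C.n C.k d s1 τ1 s2 τ2 s3) (eoT s1 s2 s3) (fun _ => 51 / 100) := by
  have hqp := C.q_prime
  have hnq := C.n_big
  have hn := C.n_big'
  have hqb := C.q_big
  have hE := C.E_big
  have hq0 : (0 : ℤ) < C.q := by exact_mod_cast hqp.pos
  have side1 : (C.q : ℤ) ≤ b - a + 1 := by
    have := hR.hab
    by_contra hcon
    push Not at hcon
    nlinarith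
  have side2 : (C.q : ℤ) ≤ xh - xl + 1 := by
    have := hR.hx
    by_contra hcon
    push Not at hcon
    nlinarith
  have side3 : (C.q : ℤ) ≤ bh - bl + 1 := by
    have := hR.hbb
    by_contra hcon
    push Not at hcon
    nlinarith
  -- values of the forms
  have hv : ∀ p ∈ bx (a, xl, bl) (b, xh, bh), p.1 ∈ C.It → ∀ i : Fin 12,
      1 ≤ (eoF d s1 τ1 s2 τ2 s3 i).f.ev p ∧ (eoF d s1 τ1 s2 τ2 s3 i).f.ev p ≤ 3 * C.n := by
    intro p hp hI i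
    rw [mem_bx] at hp
    obtain ⟨⟨hp1, hp2⟩, ⟨hp3, hp4⟩, hp5, hp6⟩ := hp
    obtain ⟨A, x, z⟩ := p
    simp only at hp1 hp2 hp3 hp4 hp5 hp6 hI
    obtain ⟨hN1, hN2⟩ := hnb A (mem_Icc.2 ⟨hp1, hp2⟩) hI
    obtain ⟨v0, v1, v2, v3, v4, v5, v6, v7, v8, v9, v10, v11⟩ := eo_val (by omega) hs1 hs2 hs3 hR
      hN1 hN2 hp1 hp2 hp3 hp4 hp5 hp6
    rw [eo_ev]
    have hn' : (1 : ℤ) ≤ C.n := by omega
    clear hR hnb hN1 hN2 hp1 hp2 hp3 hp4 hp5 hp6 hnq hn hqb hE hq0 side1 side2 side3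
    fin_cases i
    · exact ⟨by show (1:ℤ) ≤ x - d; linarith [v0.1], by show x - d ≤ _; linarith [v0.2]⟩
    · exact ⟨by show (1:ℤ) ≤ z; linarith [v1.1], by show z ≤ _; linarith [v1.2]⟩
    · exact ⟨by show (1:ℤ) ≤ x; linarith [v0.1, v2.1], by show x ≤ _; linarith [v2.2]⟩
    · exact ⟨by show (1:ℤ) ≤ A - x + z; linarith [v7.1, v1.1], by
        show A - x + z ≤ _; linarith [v3.2]⟩
    · exact ⟨by show (1:ℤ) ≤ x + z - A; omega, by show x + z - A ≤ _; linarith [v4.2]⟩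
    · exact ⟨by show (1:ℤ) ≤ A + z - 2 * x + d; omega, by
        show A + z - 2 * x + d ≤ _; linarith [v5.2]⟩
    · exact ⟨by show (1:ℤ) ≤ x - z; omega, by show x - z ≤ _; linarith [v6.2]⟩
    · exact ⟨v7.1, by show A - x ≤ _; linarith [v7.2]⟩
    · exact ⟨by show (1:ℤ) ≤ 2 * A - x - z; omega, by show 2 * A - x - z ≤ _; linarith [v8.2]⟩
    · refine ⟨?_, ?_⟩
      · show (1:ℤ) ≤ s3 * (A - z - d)
        have := v9.1
        generalize s3 * (A - z - d) = w at this ⊢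
        omega
      · show s3 * (A - z - d) ≤ _; linarith [v9.2]
    · exact ⟨v10.1, by show A - s1 * (x - d) - τ1 ≤ _; linarith [v10.2.1]⟩
    · exact ⟨v11.1, by show A - s2 * z - τ2 ≤ _; linarith [v11.2.1]⟩
  constructor
  · norm_num
  · norm_num
  · simp [eoX, exL, exD, gdL]
  · show a ≤ b; omega
  · show xl ≤ xh; omega
  · show bl ≤ bh; omega
  · exact item_count C a b hR.ha hR.hb hR.hab
  · intro i
    rcases hs1 with rfl | rfl <;> rcases hs2 with rfl | rfl <;> rcases hs3 with rfl | rfl <;>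
      fin_cases i <;> rfl
  · intro i
    refine Fit.three ?_ side1 side2 side3
    rcases hs1 with rfl | rfl <;> rcases hs2 with rfl | rfl <;> rcases hs3 with rfl | rfl <;>
      revert i <;> decide
  · have h4 : ∀ i, i ≠ 8 → Fit C.q 4 (a, xl, bl) (b, xh, bh) (eoF d s1 τ1 s2 τ2 s3 i).f.sl := by
      intro i _
      refine Fit.three ?_ side1 side2 side3
      rcases hs1 with rfl | rfl <;> rcases hs2 with rfl | rfl <;> rcases hs3 with rfl | rfl <;>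
        fin_cases i <;> simp [eoF, AF.sl]
    have h8 : Fit C.q 4 (a, xl, bl) (b, xh, bh) (eoF d s1 τ1 s2 τ2 s3 8).f.sl := by
      refine Fit.three ?_ side1 side2 side3
      simp [eoF, AF.sl]
    intro X hX
    simp only [eoX, List.mem_append] at hX
    rcases hX with (((((((((((((((hX | hX) | hX) | hX) | hX) | hX) | hX) | hX) | hX) | hX) | hX) |
      hX) | hX) | hX) | hX) | hX) | hX
    · exact fit_exL (h4 0 (by decide)) X hX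
    · exact fit_exL (h4 1 (by decide)) X hX
    · exact fit_exL (h4 2 (by decide)) X hX
    · exact fit_exL (h4 3 (by decide)) X hX
    · exact fit_exL (h4 4 (by decide)) X hX
    · exact fit_exD (h4 5 (by decide)) X hX
    · exact fit_exD (h4 6 (by decide)) X hX
    · exact fit_exD (h4 7 (by decide)) X hX
    · exact fit_exD h8 X hX
    · exact fit_exD (h4 9 (by decide)) X hX
    · exact fit_exD (h4 10 (by decide)) X hX
    · exact fit_exD (h4 11 (by decide)) X hX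
    · exact fit_gdL (h4 5 (by decide)) X hX
    · exact fit_gdL (h4 6 (by decide)) X hX
    · exact fit_gdL h8 X hX
    · exact fit_gdL (h4 9 (by decide)) X hX
    · simp only [List.mem_cons, List.not_mem_nil, or_false] at hX
      subst hX
      refine Fit.three ?_ side1 side2 side3
      rcases hs3 with rfl | rfl <;> simp [AF.sl]
  · intro i; rfl
  · -- pairs of equal slopes
    have n1 : ¬ (C.q : ℤ) ∣ -d := fun h => hd.1 ((dvd_neg).1 h)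
    have n2 : s1 = 1 → ¬ (C.q : ℤ) ∣ 2 * 0 - 2 * (1 * d - τ1) := fun hs h =>
      gd_tau hd (hτ1 hs) (by
        have h2 := (dvd_neg).2 h
        rwa [show -(2 * 0 - 2 * (1 * d - τ1)) = 2 * d - 2 * τ1 by ring] at h2)
    have n3 : s2 = 1 → ¬ (C.q : ℤ) ∣ 2 * (-1 * d) - 2 * (-τ2) := fun hs h =>
      gd_tau hd (hτ2 hs) (by
        have h2 := (dvd_neg).2 h
        rwa [show -(2 * (-1 * d) - 2 * (-τ2)) = 2 * d - 2 * τ2 by ring] at h2)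
    intro i j hij hT _
    have key : (i, j) = ((0 : Fin 12), (2 : Fin 12)) ∨
        (s1 = 1 ∧ (i, j) = ((7 : Fin 12), (10 : Fin 12))) ∨
        (s3 = 1 ∧ s2 = 1 ∧ (i, j) = ((9 : Fin 12), (11 : Fin 12))) := by
      rcases hs1 with rfl | rfl <;> rcases hs2 with rfl | rfl <;> rcases hs3 with rfl | rfl <;>
        revert i j <;> decide
    simp only [Prod.mk.injEq] at key
    rcases key with ⟨rfl, rfl⟩ | ⟨rfl, rfl, rfl⟩ | ⟨rfl, rfl, rfl, rfl⟩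
    · simpa [eoF, RF.sub, wt] using n1
    · exact n2 rfl
    · exact n3 rfl
  · intro p hp hI i
    have := hv p hp hI i
    exact ⟨by omega, by omega⟩
  · intro p _ _ i hi
    exact absurd rfl hi
  · intro i; norm_num
  · intro i; norm_num
  · intro i hi
    exact absurd rfl hi
  · intro p _ _ i
    cases hl : (eoF d s1 τ1 s2 τ2 s3 i).lab
    · exact bad_diff C _
    · exact bad_label C _

/-- A good parameter is a gadget. -/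
theorem eo_of_good (C : RCtx) (ω : C.Om) (d a b xl xh bl bh s1 τ1 s2 τ2 s3 : ℤ)
    (hs1 : s1 = 1 ∨ s1 = -1) (hs2 : s2 = 1 ∨ s2 = -1) (hs3 : s3 = 1 ∨ s3 = -1)
    (hnb : ∀ A ∈ Icc a b, A ∈ C.It →
      NbT C.n (nbp C.n C.k (mOf C.n A)) A s1 τ1 ∧ NbT C.n (nbm C.n C.k (mOf C.n A)) A s2 τ2)
    (hR : EoR C.n d a b xl xh bl bh s3)
    (p : ℤ × ℤ × ℤ)
    (hp : p ∈ C.good (a, xl, bl) (b, xh, bh) C.It (eoF d s1 τ1 s2 τ2 s3) (fun _ => true) id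
      (eoX C.n C.k d s1 τ1 s2 τ2 s3) ω) :
    (C.env ω).eo d (mOf C.n p.1) p.2.1 p.2.2 ∧ mOf C.n p.1 < C.n ∧ anc C.n (mOf C.n p.1) = p.1 ∧
      p.2.1 ∈ (C.env ω).PL ∧ p.2.2 ∈ (C.env ω).PL := by
  classical
  have hn := C.n_big'
  rw [RCtx.good, goodP, mem_filter, mem_bx] at hp
  obtain ⟨⟨⟨hp1, hp2⟩, ⟨hp3, hp4⟩, hp5, hp6⟩, hI, hex, hsub, hres⟩ := hp
  obtain ⟨A, x, z⟩ := p
  simp only at hp1 hp2 hp3 hp4 hp5 hp6 hI
  obtain ⟨hN1, hN2⟩ := hnb A (mem_Icc.2 ⟨hp1, hp2⟩) hI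
  obtain ⟨v0, v1, v2, v3, v4, v5, v6, v7, v8, v9, v10, v11⟩ := eo_val (by omega) hs1 hs2 hs3 hR
    hN1 hN2 hp1 hp2 hp3 hp4 hp5 hp6
  have hIt := (C.mem_It A).1 hI
  have hA := hIt.2.2.1
  have hn' : (1000 : ℤ) ≤ C.n := by omega
  clear hnb hN1 hN2 hp1 hp2 hp3 hp4 hp5 hp6 hR
  -- values
  have ev : ∀ i : Fin 12, (eoF d s1 τ1 s2 τ2 s3 i).f.ev (A, x, z) =
      (![x - d, z, x, A - x + z, x + z - A, A + z - 2 * x + d, x - z, A - x, 2 * A - x - z,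
        s3 * (A - z - d), A - s1 * (x - d) - τ1, A - s2 * z - τ2] : Fin 12 → ℤ) i :=
    fun i => eo_ev d s1 τ1 s2 τ2 s3 A x z i
  have hd1 : ∀ i j : Fin 12, (eoF d s1 τ1 s2 τ2 s3 i).lab = (eoF d s1 τ1 s2 τ2 s3 j).lab →
      i ≠ j → (eoF d s1 τ1 s2 τ2 s3 i).f.ev (A, x, z) ≠ (eoF d s1 τ1 s2 τ2 s3 j).f.ev (A, x, z) :=
    fun i j hl hij => ne_of_sub hl (hsub i j hij hij)
  have hexm : ∀ L : List AF, (∀ X ∈ L, X ∈ eoX C.n C.k d s1 τ1 s2 τ2 s3) →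
      ∀ X ∈ L, ¬ (C.q : ℤ) ∣ X.ev (A, x, z) := fun L hL X hX => hex X (hL X hX)
  -- labels
  have hPL : ∀ (i : Fin 12) (w : ℤ), (eoF d s1 τ1 s2 τ2 s3 i).lab = true →
      (eoF d s1 τ1 s2 τ2 s3 i).f.ev (A, x, z) = w →
      (∀ X ∈ exL C.n (eoF d s1 τ1 s2 τ2 s3 i).f, X ∈ eoX C.n C.k d s1 τ1 s2 τ2 s3) →
      505 * (C.n : ℤ) ≤ 1000 * w → 1000 * w ≤ 2495 * C.n → w ∈ (C.env ω).PL := by
    intro i w hl hw hX hlo hhi
    have h3 := ne_of_exL (hexm _ hX)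
    rw [hw] at h3
    refine mem_PL C ω _ (zall_of C.n (by omega) _ hlo hhi h3) ?_
    have := hres i
    rwa [hl, hw] at this
  have hPD : ∀ (i : Fin 12) (w : ℤ), (eoF d s1 τ1 s2 τ2 s3 i).lab = false →
      (eoF d s1 τ1 s2 τ2 s3 i).f.ev (A, x, z) = w →
      (∀ X ∈ exD C.n (eoF d s1 τ1 s2 τ2 s3 i).f, X ∈ eoX C.n C.k d s1 τ1 s2 τ2 s3) →
      1 ≤ w → w ≤ 2 * C.n → w ∈ (C.env ω).PD := by
    intro i w hl hw hX hlo hhi
    obtain ⟨x1, x2, x3⟩ := ne_of_exD (hexm _ hX)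
    rw [hw] at x1 x2 x3
    refine mem_PD C ω _ (dall_of C.n _ hlo hhi x1 x2 x3) hhi ?_
    have := hres i
    rwa [hl, hw] at this
  have hgd : ∀ (i : Fin 12) (w : ℤ), (eoF d s1 τ1 s2 τ2 s3 i).f.ev (A, x, z) = w →
      (∀ X ∈ gdL C.n C.k (eoF d s1 τ1 s2 τ2 s3 i).f, X ∈ eoX C.n C.k d s1 τ1 s2 τ2 s3) →
      gd C.n C.k C.q w := by
    intro i w hw hX
    have := gd_of (hexm _ hX)
    rwa [hw] at this
  have m0 := hPL 0 (x - d) rfl (ev 0) (by simp +contextual [eoX]) (by linarith [v0.1])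
    (by linarith [v0.2])
  have m1 := hPL 1 z rfl (ev 1) (by simp +contextual [eoX]) (by linarith [v1.1])
    (by linarith [v1.2])
  have m2 := hPL 2 x rfl (ev 2) (by simp +contextual [eoX]) v2.1 v2.2
  have m3 := hPL 3 (A - x + z) rfl (ev 3) (by simp +contextual [eoX]) v3.1 v3.2
  have m4 := hPL 4 (x + z - A) rfl (ev 4) (by simp +contextual [eoX]) v4.1 v4.2
  have m5 := hPD 5 (A + z - 2 * x + d) rfl (ev 5) (by simp +contextual [eoX]) (by omega)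
    (by linarith [v5.2])
  have m6 := hPD 6 (x - z) rfl (ev 6) (by simp +contextual [eoX]) (by omega) (by linarith [v6.2])
  have m7 := hPD 7 (A - x) rfl (ev 7) (by simp +contextual [eoX]) v7.1 v7.2
  have m8 := hPD 8 (2 * A - x - z) rfl (ev 8) (by simp +contextual [eoX]) (by omega)
    (by linarith [v8.2])
  have m9 := hPD 9 (s3 * (A - z - d)) rfl (ev 9) (by simp +contextual [eoX])
    (by have := v9.1; generalize s3 * (A - z - d) = w at this ⊢; omega) (by linarith [v9.2])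
  have m10 := hPD 10 (A - s1 * (x - d) - τ1) rfl (ev 10) (by simp +contextual [eoX]) v10.1 v10.2.1
  have m11 := hPD 11 (A - s2 * z - τ2) rfl (ev 11) (by simp +contextual [eoX]) v11.1 v11.2.1
  have g5 := hgd 5 _ (ev 5) (by simp +contextual [eoX])
  have g6 := hgd 6 _ (ev 6) (by simp +contextual [eoX])
  have g8 := hgd 8 _ (ev 8) (by simp +contextual [eoX])
  have g9 := hgd 9 _ (ev 9) (by simp +contextual [eoX])
  have hlast : ¬ (C.q : ℤ) ∣ x - z - s3 * (A - z - d) := by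
    have := hex ⟨-s3, 1, -1 + s3, s3 * d⟩ (by simp [eoX])
    rwa [show (AF.ev ⟨-s3, 1, -1 + s3, s3 * d⟩ (A, x, z)) = x - z - s3 * (A - z - d) by
      simp only [AF.ev]; ring] at this
  have ne : ∀ (i j : Fin 12) (w w' : ℤ), (eoF d s1 τ1 s2 τ2 s3 i).lab =
      (eoF d s1 τ1 s2 τ2 s3 j).lab → i ≠ j → (eoF d s1 τ1 s2 τ2 s3 i).f.ev (A, x, z) = w →
      (eoF d s1 τ1 s2 τ2 s3 j).f.ev (A, x, z) = w' → w ≠ w' := by
    intro i j w w' hl hij hw hw'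
    rw [← hw, ← hw']
    exact hd1 i j hl hij
  -- the differences in the form of `eoD`
  have d0 : Env.eoD d A x z 0 = A + z - 2 * x + d := by
    show |z + A - x - (x - d)| = _
    rw [abs_of_nonneg (by omega)]; ring
  have d1 : Env.eoD d A x z 1 = x - z := rfl
  have d2 : Env.eoD d A x z 2 = A - x := rfl
  have d3 : Env.eoD d A x z 3 = 2 * A - x - z := by
    show 2 * A - z - x = _
    ring
  have d4 : Env.eoD d A x z 4 = s3 * (A - z - d) := by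
    show |x + z - A - (x - d)| = _
    have h9 := v9.1
    rcases hs3 with rfl | rfl
    · rw [abs_of_nonpos (by omega)]; ring
    · rw [abs_of_nonneg (by omega)]; ring
  have l3 : z + A - x = A - x + z := by ring
  have inr : ∀ w : ℤ, 7 * (C.n : ℤ) ≤ 100 * w → 10 * w ≤ 13 * C.n →
      inI C.n (7 / 100) (13 / 10) w := by
    intro w h1 h2
    have h3 : (7 : ℝ) * C.n ≤ 100 * w := by exact_mod_cast h1
    have h4 : (10 : ℝ) * w ≤ 13 * C.n := by exact_mod_cast h2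
    exact ⟨by linarith, by linarith⟩
  have in12 : ∀ w : ℤ, (C.n : ℤ) ≤ w → w ≤ 2 * C.n → inI C.n 1 2 w := by
    intro w h1 h2
    have h3 : (C.n : ℝ) ≤ w := by exact_mod_cast h1
    have h4 : (w : ℝ) ≤ 2 * C.n := by exact_mod_cast h2
    exact ⟨by linarith, by linarith⟩
  refine ⟨?_, hIt.2.2.2.1, hA, m2, m1⟩
  simp only [Env.eo]
  rw [show (C.env ω).n = C.n from rfl, hA]
  rw [show (C.env ω).k = C.k from rfl, show (C.env ω).q = C.q from rfl]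
  rw [show (C.env ω).nb true (mOf C.n A) = nbp C.n C.k (mOf C.n A) from rfl,
    show (C.env ω).nb false (mOf C.n A) = nbm C.n C.k (mOf C.n A) from rfl]
  rw [d0, d1, d2, d3, d4, v10.2.2, v11.2.2, l3]
  refine ⟨C.pureItem_of_It ω A hI, in12 _ v0.1 v0.2, in12 _ v1.1 v1.2, ?_, ?_, ?_, ?_,
    inr _ v5.1 v5.2, g5, inr _ v6.1 v6.2, g6, inr _ v8.1 v8.2, g8, inr _ v9.1 v9.2, g9, hlast⟩
  · intro w hw
    simp only [List.mem_cons, List.not_mem_nil, or_false] at hw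
    rcases hw with rfl | rfl | rfl | rfl | rfl
    · exact m0
    · exact m1
    · exact m2
    · exact m3
    · exact m4
  · simp only [List.nodup_cons, List.mem_cons, List.not_mem_nil, or_false, not_or,
      not_false_eq_true, List.nodup_nil, and_true]
    exact ⟨⟨ne 0 1 _ _ rfl (by decide) (ev 0) (ev 1), ne 0 2 _ _ rfl (by decide) (ev 0) (ev 2),
        ne 0 3 _ _ rfl (by decide) (ev 0) (ev 3), ne 0 4 _ _ rfl (by decide) (ev 0) (ev 4)⟩,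
      ⟨ne 1 2 _ _ rfl (by decide) (ev 1) (ev 2), ne 1 3 _ _ rfl (by decide) (ev 1) (ev 3),
        ne 1 4 _ _ rfl (by decide) (ev 1) (ev 4)⟩,
      ⟨ne 2 3 _ _ rfl (by decide) (ev 2) (ev 3), ne 2 4 _ _ rfl (by decide) (ev 2) (ev 4)⟩,
      ne 3 4 _ _ rfl (by decide) (ev 3) (ev 4)⟩
  · intro w hw
    simp only [List.mem_cons, List.not_mem_nil, or_false] at hw
    rcases hw with rfl | rfl | rfl | rfl | rfl | rfl | rfl
    · exact m5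
    · exact m6
    · exact m7
    · exact m8
    · exact m9
    · exact m10
    · exact m11
  · simp only [List.nodup_cons, List.mem_cons, List.not_mem_nil, or_false, not_or,
      not_false_eq_true, List.nodup_nil, and_true]
    exact ⟨⟨ne 5 6 _ _ rfl (by decide) (ev 5) (ev 6), ne 5 7 _ _ rfl (by decide) (ev 5) (ev 7),
        ne 5 8 _ _ rfl (by decide) (ev 5) (ev 8), ne 5 9 _ _ rfl (by decide) (ev 5) (ev 9),
        ne 5 10 _ _ rfl (by decide) (ev 5) (ev 10), ne 5 11 _ _ rfl (by decide) (ev 5) (ev 11)⟩,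
      ⟨ne 6 7 _ _ rfl (by decide) (ev 6) (ev 7),
        ne 6 8 _ _ rfl (by decide) (ev 6) (ev 8), ne 6 9 _ _ rfl (by decide) (ev 6) (ev 9),
        ne 6 10 _ _ rfl (by decide) (ev 6) (ev 10), ne 6 11 _ _ rfl (by decide) (ev 6) (ev 11)⟩,
      ⟨ne 7 8 _ _ rfl (by decide) (ev 7) (ev 8), ne 7 9 _ _ rfl (by decide) (ev 7) (ev 9),
        ne 7 10 _ _ rfl (by decide) (ev 7) (ev 10), ne 7 11 _ _ rfl (by decide) (ev 7) (ev 11)⟩,
      ⟨ne 8 9 _ _ rfl (by decide) (ev 8) (ev 9),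
        ne 8 10 _ _ rfl (by decide) (ev 8) (ev 10), ne 8 11 _ _ rfl (by decide) (ev 8) (ev 11)⟩,
      ⟨ne 9 10 _ _ rfl (by decide) (ev 9) (ev 10), ne 9 11 _ _ rfl (by decide) (ev 9) (ev 11)⟩,
      ne 10 11 _ _ rfl (by decide) (ev 10) (ev 11)⟩

/-- The probability bound for explicit intervals. -/
theorem eo_pr (C : RCtx) (d a b xl xh bl bh s1 τ1 s2 τ2 s3 : ℤ)
    (hs1 : s1 = 1 ∨ s1 = -1) (hs2 : s2 = 1 ∨ s2 = -1) (hs3 : s3 = 1 ∨ s3 = -1)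
    (hτ1 : s1 = 1 → TauOK C.n C.k τ1) (hτ2 : s2 = 1 → TauOK C.n C.k τ2)
    (hd : gd C.n C.k C.q d) (hd0 : 0 ≤ d)
    (hnb : ∀ A ∈ Icc a b, A ∈ C.It →
      NbT C.n (nbp C.n C.k (mOf C.n A)) A s1 τ1 ∧ NbT C.n (nbm C.n C.k (mOf C.n A)) A s2 τ2)
    (hR : EoR C.n d a b xl xh bl bh s3) :
    Pr (fun ω : C.Om => ((C.env ω).eoN d : ℝ) < c1R C.K0 * (C.n : ℝ) ^ 3)
      ≤ 2 * Real.exp (-(dG C.K0 * C.q)) := by
  classical
  have H := eo_fam C d a b xl xh bl bh s1 τ1 s2 τ2 s3 hs1 hs2 hs3 hτ1 hτ2 hd hd0 hnb hR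
  have G := gc C.q C.K0 C.S C.E C.q_prime C.q_big C.bad (a, xl, bl) (b, xh, bh) C.It
    (eoF d s1 τ1 s2 τ2 s3) (fun _ => true) id (eoX C.n C.k d s1 τ1 s2 τ2 s3) (eoT s1 s2 s3)
    (fun _ => 51 / 100) H
  refine le_trans (Pr_mono ?_) G
  intro ω hω
  refine lt_of_le_of_lt ?_ (lt_of_lt_of_le hω ?_)
  · -- the injection
    norm_cast
    refine Finset.card_le_card_of_injOn (fun p => (mOf C.n p.1, p.2.1, p.2.2)) ?_ ?_
    · intro p hp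
      obtain ⟨h1, h2, h3, h4, h5⟩ := eo_of_good C ω d a b xl xh bl bh s1 τ1 s2 τ2 s3 hs1 hs2 hs3
        hnb hR p hp
      rw [mem_coe, mem_filter, mem_product, mem_product]
      exact ⟨⟨mem_range.2 h2, h4, h5⟩, h1⟩
    · intro p hp p' hp' hpp
      obtain ⟨-, -, h3, -⟩ := eo_of_good C ω d a b xl xh bl bh s1 τ1 s2 τ2 s3 hs1 hs2 hs3
        hnb hR p hp
      obtain ⟨-, -, h3', -⟩ := eo_of_good C ω d a b xl xh bl bh s1 τ1 s2 τ2 s3 hs1 hs2 hs3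
        hnb hR p' hp'
      simp only [Prod.mk.injEq] at hpp
      have q1 : p.1 = p'.1 := by rw [← h3, ← h3', hpp.1]
      exact Prod.ext q1 (Prod.ext hpp.2.1 hpp.2.2)
  · rw [card_bx _ _ H.le1 H.le2 H.le3]
    have hK : (0 : ℝ) < C.K0 := by exact_mod_cast Nat.pos_of_ne_zero C.nK.out
    have hg : 0 < cG C.K0 := by unfold cG gam; positivity
    have r1 : (C.n : ℝ) / 1000 ≤ ((b - a + 1 : ℤ) : ℝ) := by
      have : (C.n : ℝ) ≤ 1000 * ((b - a + 1 : ℤ) : ℝ) := by exact_mod_cast hR.hab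
      linarith
    have r2 : (C.n : ℝ) / 100 ≤ ((xh - xl + 1 : ℤ) : ℝ) := by
      have : (C.n : ℝ) ≤ 100 * ((xh - xl + 1 : ℤ) : ℝ) := by exact_mod_cast hR.hx
      linarith
    have r2' : (C.n : ℝ) / 100 ≤ ((bh - bl + 1 : ℤ) : ℝ) := by
      have : (C.n : ℝ) ≤ 100 * ((bh - bl + 1 : ℤ) : ℝ) := by exact_mod_cast hR.hbb
      linarith
    have r3 : (C.n : ℝ) / 1000 * ((C.n : ℝ) / 100) * ((C.n : ℝ) / 100) ≤
        ((b - a + 1 : ℤ) : ℝ) * ((xh - xl + 1 : ℤ) : ℝ) * ((bh - bl + 1 : ℤ) : ℝ) := by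
      have p1 : 0 ≤ ((b - a + 1 : ℤ) : ℝ) := le_trans (by positivity) r1
      have p2 : 0 ≤ ((xh - xl + 1 : ℤ) : ℝ) := le_trans (by positivity) r2
      exact mul_le_mul (mul_le_mul r1 r2 (by positivity) p1) r2' (by positivity)
        (mul_nonneg p1 p2)
    have r4 : c1R C.K0 * (C.n : ℝ) ^ 3 ≤
        cG C.K0 * ((C.n : ℝ) / 1000 * ((C.n : ℝ) / 100) * ((C.n : ℝ) / 100)) := by
      unfold c1R
      have : 0 ≤ cG C.K0 * (C.n : ℝ) ^ 3 := by positivity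
      nlinarith
    exact r4.trans (mul_le_mul_of_nonneg_left r3 hg.le)

theorem r_eo (C : RCtx) (d : ℤ) (h1 : inI C.n (1 / 10) (13 / 10) d) (hd : gd C.n C.k C.q d) :
    Pr (fun ω : C.Om => ((C.env ω).eoN d : ℝ) < c1R C.K0 * (C.n : ℝ) ^ 3)
      ≤ 2 * Real.exp (-(dG C.K0 * C.q)) := by
  have hn := C.n_big'
  have hk1 := C.base.k_pos
  have hk2 := C.base.k_lt
  obtain ⟨h1a, h1b⟩ := h1
  have i1 : (C.n : ℤ) ≤ 10 * d := by
    have : (C.n : ℝ) ≤ 10 * d := by linarith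
    exact_mod_cast this
  have i2 : 10 * d ≤ 13 * (C.n : ℤ) := by
    have : (10 : ℝ) * d ≤ 13 * C.n := by linarith
    exact_mod_cast this
  obtain ⟨a, b, s1, τ1, s2, τ2, ha0, hab, hb1, hlen, hs1, hs2, hτ1, hτ2, -, hN⟩ :=
    zoneP C.n C.k hk1 hk2 (253 * (C.n : ℤ) / 100 + 1) (255 * (C.n : ℤ) / 100) (by omega)
      (by omega) (by omega) (by omega)
  have hnb : ∀ A ∈ Icc a b, A ∈ C.It →
      NbT C.n (nbp C.n C.k (mOf C.n A)) A s1 τ1 ∧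
        NbT C.n (nbm C.n C.k (mOf C.n A)) A s2 τ2 := by
    intro A hA hI
    obtain ⟨-, -, n1, n2⟩ := hN A hA
    obtain ⟨p1, p2⟩ := C.not_spec_of_It A hI
    exact ⟨n1 p1, n2 p2⟩
  clear hN
  by_cases hc1 : 10 * d ≤ 6 * (C.n : ℤ)
  · refine eo_pr C d a b (204 * (C.n : ℤ) / 100 + 1) (206 * (C.n : ℤ) / 100)
      (179 * (C.n : ℤ) / 100 + 1) (181 * (C.n : ℤ) / 100) s1 τ1 s2 τ2 1 hs1 hs2 (Or.inl rfl) hτ1 hτ2
      hd (by omega) hnb ?_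
    constructor
    all_goals omega
  · by_cases hc2 : 100 * d ≤ 75 * (C.n : ℤ)
    · refine eo_pr C d a b (215 * (C.n : ℤ) / 100 + 1) (217 * (C.n : ℤ) / 100)
        (165 * (C.n : ℤ) / 100 + 1) (167 * (C.n : ℤ) / 100) s1 τ1 s2 τ2 1 hs1 hs2 (Or.inl rfl) hτ1
        hτ2 hd (by omega) hnb ?_
      constructor
      all_goals omega
    · refine eo_pr C d a b (231 * (C.n : ℤ) / 100 + 1) (233 * (C.n : ℤ) / 100)
        (195 * (C.n : ℤ) / 100 + 1) (197 * (C.n : ℤ) / 100) s1 τ1 s2 τ2 (-1) hs1 hs2 (Or.inr rfl)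
        hτ1 hτ2 hd (by omega) hnb ?_
      constructor
      all_goals omega

end Pool.Agent.PGr
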