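import Pool.Agent.PGr.RTW1

/-!
# PGr-R-SV: the family SV (labels for a planted vertex)

WORKED EXAMPLE: RTW1.lean does exactly the same for the type I gadgets: `twF/twT/twX` (resources,
table of doubled slopes, extra forms), `tw1_fam` (hypotheses `Fam` of the counting lemma `gc`),
`tw1_of_good` (a good parameter is a gadget), `tw1_pr` (injection + size of the box), `r_tw1`.
Copy its structure (it compiles) and change the data.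

STATEMENT. `a` an anchor, `z1, z2 ∈ [.9n, 2.1n]`, `a, z1, z2` pairwise incongruent mod q. With
probability at least `1 - 2 exp(-dG q)` there are at least `c1R n` labels `y ∈ PL ∩ [1.1n, 1.9n]` whose
three differences `|y - a|, |y - z1|, |y - z2|` are distinct and lie in `PD`.

PLAN. Parameter `(0, y, 0)`: box `l = (0, u, 0)`, `h = (0, v, 0)`, `It = {0}` (so `Fam.it` is
`2/5 ≤ 1`). Resources (`β = fun _ => true`, `mate = id`, `φ = 51/100`):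
  `![⟨true, ⟨0,1,0,0⟩⟩, ⟨false, ⟨0,s0,0,-s0*a⟩⟩, ⟨false, ⟨0,s1,0,-s1*z1⟩⟩, ⟨false, ⟨0,s2,0,-s2*z2⟩⟩]`
with signs `s0, s1, s2 ∈ {1,-1}`; table `![(0,1,0), (0,2*s0,0), (0,2*s1,0), (0,2*s2,0)]`.
Extra forms: `exL` of resource 0, `exD` of resources 1, 2, 3.
Choice of `[u, v]`: the interval `[1.1n, 1.9n]` (length .8n) is cut by `a, z1, z2` into at most four
pieces (only `a = 3n/2` of the anchors lies inside), so there is `[u, v] ⊆ [11n/10, 19n/10]` with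
`n ≤ 10 * (v - u)` on which `y - a`, `y - z1`, `y - z2` are nonzero with constant signs. Simple way:
prove the little lemma: for integers `x < y` and a point `t` there are `x ≤ u`, `v ≤ y`,
`v - u ≥ (y - x)/2 - 1` with `t < u` or `v < t`, and apply it three times (.8n -> .4n -> .2n -> .1n).
Values: `1 ≤ |y - t| ≤ 2n` for `t = a, z1, z2` (`a ∈ [0, n/2] ∪ [5n/2, 3n] ∪ {3n/2}`, so
`|y - a| ≤ 1.9 n`; `|y - z| ≤ n`).
Pairs of equal slopes: `(1,2)` if `s0 = s1`: the constant is `2*(-s0*a) - 2*(-s1*z1) = ∓2(a - z1)`, not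
divisible by `q` by hypothesis and `dvd_two_mul`; similarly `(1,3)`, `(2,3)`. (Resource 0 has
slope 1, the others ±2.) Distinctness of the differences: `ne_of_sub` as in RTW1.
Size of the box: `v - u + 1 ≥ n/10`, `c1R n ≤ cG n/10`.
-/

noncomputable section

namespace Pool.Agent.PGr

open Finset

/-- The resources: the label `y` and the three differences. -/
def svF (t0 t1 t2 s0 s1 s2 : ℤ) : Fin 4 → RF :=
  ![⟨true, ⟨0, 1, 0, 0⟩⟩, ⟨false, ⟨0, s0, 0, -s0 * t0⟩⟩, ⟨false, ⟨0, s1, 0, -s1 * t1⟩⟩,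
    ⟨false, ⟨0, s2, 0, -s2 * t2⟩⟩]

/-- table of doubled slopes -/
def svT (s0 s1 s2 : ℤ) : Fin 4 → ℤ × ℤ × ℤ :=
  ![(0, 1, 0), (0, 2 * s0, 0), (0, 2 * s1, 0), (0, 2 * s2, 0)]

/-- the extra forms -/
def svX (n : ℕ) (t0 t1 t2 s0 s1 s2 : ℤ) : List AF :=
  exL n (svF t0 t1 t2 s0 s1 s2 0).f ++ exD n (svF t0 t1 t2 s0 s1 s2 1).f ++
  exD n (svF t0 t1 t2 s0 s1 s2 2).f ++ exD n (svF t0 t1 t2 s0 s1 s2 3).f

private theorem sv_fit {q : ℕ} {B u v b : ℤ} (hb : b ≠ 0) (hB : |b| ≤ B)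
    (hs : (q : ℤ) ≤ v - u + 1) : Fit q B (0, u, 0) (0, v, 0) (0, b, 0) := by
  have h0 : 0 ≤ B := (abs_nonneg b).trans hB
  refine ⟨?_, ?_, hB, ?_, fun h => absurd rfl h, fun _ => hs, fun h => absurd rfl h⟩
  · intro h
    simp only [Prod.mk_eq_zero] at h
    exact hb h.2.1
  · simpa using h0
  · simpa using h0

private theorem sv_ev (t0 t1 t2 s0 s1 s2 y : ℤ) :
    (svF t0 t1 t2 s0 s1 s2 0).f.ev (0, y, 0) = y ∧
    (svF t0 t1 t2 s0 s1 s2 1).f.ev (0, y, 0) = s0 * (y - t0) ∧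
    (svF t0 t1 t2 s0 s1 s2 2).f.ev (0, y, 0) = s1 * (y - t1) ∧
    (svF t0 t1 t2 s0 s1 s2 3).f.ev (0, y, 0) = s2 * (y - t2) := by
  refine ⟨?_, ?_, ?_, ?_⟩ <;> simp [svF, AF.ev] <;> ring

private theorem sv_pair {q : ℕ} (hq : q.Prime) (h2 : 2 < q) {s s' t t' : ℤ} (hs : s = 1 ∨ s = -1)
    (hss : s = s') (ht : ¬ (q : ℤ) ∣ t - t') : ¬ (q : ℤ) ∣ 2 * (-s * t) - 2 * (-s' * t') := by
  subst hss
  intro h
  apply ht
  rcases hs with rfl | rfl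
  · have h1 := dvd_two_mul hq h2 (t := -(t - t'))
      (by rwa [show 2 * -(t - t') = 2 * (-1 * t) - 2 * (-1 * t') by ring])
    exact (dvd_neg).1 h1
  · exact dvd_two_mul hq h2
      (by rwa [show 2 * (t - t') = 2 * (- -1 * t) - 2 * (- -1 * t') by ring])

private theorem sv_fam (C : RCtx) (t0 t1 t2 u v s0 s1 s2 : ℤ)
    (hs0 : s0 = 1 ∨ s0 = -1) (hs1 : s1 = 1 ∨ s1 = -1) (hs2 : s2 = 1 ∨ s2 = -1)
    (hinc : ¬ (C.q : ℤ) ∣ t0 - t1 ∧ ¬ (C.q : ℤ) ∣ t0 - t2 ∧ ¬ (C.q : ℤ) ∣ t1 - t2)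
    (hu : 11 * (C.n : ℤ) ≤ 10 * u) (hv : 10 * v ≤ 19 * (C.n : ℤ))
    (huv : (C.n : ℤ) ≤ 100 * (v - u + 1))
    (hval : ∀ y, u ≤ y → y ≤ v → (1 ≤ s0 * (y - t0) ∧ s0 * (y - t0) ≤ 2 * C.n) ∧
      (1 ≤ s1 * (y - t1) ∧ s1 * (y - t1) ≤ 2 * C.n) ∧
      (1 ≤ s2 * (y - t2) ∧ s2 * (y - t2) ≤ 2 * C.n)) :
    Fam C.q C.S C.E C.bad (0, u, 0) (0, v, 0) {0} (svF t0 t1 t2 s0 s1 s2) id
      (svX C.n t0 t1 t2 s0 s1 s2) (svT s0 s1 s2) (fun _ => 51 / 100) := by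
  have hqp := C.q_prime
  have hnq := C.n_big
  have hn := C.n_big'
  have hqb := C.q_big
  have hE := C.E_big
  have hq0 : (0 : ℤ) < C.q := by exact_mod_cast hqp.pos
  have h2q : 2 < C.q := by omega
  have side : (C.q : ℤ) ≤ v - u + 1 := by
    by_contra hcon
    push Not at hcon
    nlinarith
  -- values of the forms
  have hv' : ∀ p ∈ bx (0, u, 0) (0, v, 0), ∀ i : Fin 4,
      1 ≤ (svF t0 t1 t2 s0 s1 s2 i).f.ev p ∧ (svF t0 t1 t2 s0 s1 s2 i).f.ev p ≤ 3 * C.n := by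
    intro p hp i
    rw [mem_bx] at hp
    obtain ⟨⟨hp1, hp2⟩, ⟨hp3, hp4⟩, hp5, hp6⟩ := hp
    obtain ⟨A, y, z⟩ := p
    simp only at hp1 hp2 hp3 hp4 hp5 hp6
    obtain rfl : A = 0 := by omega
    obtain rfl : z = 0 := by omega
    obtain ⟨e0, e1, e2, e3⟩ := sv_ev t0 t1 t2 s0 s1 s2 y
    obtain ⟨w0, w1, w2⟩ := hval y hp3 hp4
    fin_cases i
    · show 1 ≤ (svF t0 t1 t2 s0 s1 s2 0).f.ev (0, y, 0) ∧ _
      constructor
      · rw [e0]; omega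
      · show (svF t0 t1 t2 s0 s1 s2 0).f.ev (0, y, 0) ≤ _
        rw [e0]; omega
    · constructor
      · show 1 ≤ (svF t0 t1 t2 s0 s1 s2 1).f.ev (0, y, 0)
        rw [e1]; omega
      · show (svF t0 t1 t2 s0 s1 s2 1).f.ev (0, y, 0) ≤ _
        rw [e1]; omega
    · constructor
      · show 1 ≤ (svF t0 t1 t2 s0 s1 s2 2).f.ev (0, y, 0)
        rw [e2]; omega
      · show (svF t0 t1 t2 s0 s1 s2 2).f.ev (0, y, 0) ≤ _
        rw [e2]; omega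
    · constructor
      · show 1 ≤ (svF t0 t1 t2 s0 s1 s2 3).f.ev (0, y, 0)
        rw [e3]; omega
      · show (svF t0 t1 t2 s0 s1 s2 3).f.ev (0, y, 0) ≤ _
        rw [e3]; omega
  have hsn : ∀ {s : ℤ}, s = 1 ∨ s = -1 → s ≠ 0 ∧ |s| ≤ 1 := by
    rintro s (rfl | rfl) <;> simp
  have hsn2 : ∀ {s : ℤ}, s = 1 ∨ s = -1 → 2 * s ≠ 0 ∧ |2 * s| ≤ 2 := by
    rintro s (rfl | rfl) <;> simp
  have hb3 : ∀ i : Fin 4, ∃ b : ℤ, svT s0 s1 s2 i = (0, b, 0) ∧ b ≠ 0 ∧ |b| ≤ 2 := by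
    intro i
    fin_cases i
    · exact ⟨1, rfl, by norm_num, by norm_num⟩
    · exact ⟨2 * s0, rfl, (hsn2 hs0).1, (hsn2 hs0).2⟩
    · exact ⟨2 * s1, rfl, (hsn2 hs1).1, (hsn2 hs1).2⟩
    · exact ⟨2 * s2, rfl, (hsn2 hs2).1, (hsn2 hs2).2⟩
  have hb4 : ∀ i : Fin 4, ∃ b : ℤ, (svF t0 t1 t2 s0 s1 s2 i).f.sl = (0, b, 0) ∧ b ≠ 0 ∧
      |b| ≤ 1 := by
    intro i
    fin_cases i
    · exact ⟨1, rfl, by norm_num, by norm_num⟩
    · exact ⟨s0, rfl, (hsn hs0).1, (hsn hs0).2⟩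
    · exact ⟨s1, rfl, (hsn hs1).1, (hsn hs1).2⟩
    · exact ⟨s2, rfl, (hsn hs2).1, (hsn hs2).2⟩
  constructor
  · norm_num
  · norm_num
  · simp [svX, exL, exD]
  · show (0 : ℤ) ≤ 0; norm_num
  · show u ≤ v; omega
  · show (0 : ℤ) ≤ 0; norm_num
  · have hc : ((Icc (0 : ℤ) 0).filter (· ∈ ({0} : Finset ℤ))) = {0} := by decide
    show (2 / 5 : ℝ) * (((0 : ℤ) - 0 + 1 : ℤ) : ℝ) ≤
      ((((Icc (0 : ℤ) 0).filter (· ∈ ({0} : Finset ℤ))).card : ℕ) : ℝ)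
    rw [hc]
    norm_num
  · intro i
    rcases hs0 with rfl | rfl <;> rcases hs1 with rfl | rfl <;> rcases hs2 with rfl | rfl <;>
      fin_cases i <;> rfl
  · intro i
    obtain ⟨b, hb, hb0, hb1⟩ := hb3 i
    rw [hb]
    exact sv_fit hb0 (by omega) side
  · have h4 : ∀ i, Fit C.q 4 (0, u, 0) (0, v, 0) (svF t0 t1 t2 s0 s1 s2 i).f.sl := by
      intro i
      obtain ⟨b, hb, hb0, hb1⟩ := hb4 i
      rw [hb]
      exact sv_fit hb0 (by omega) side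
    intro X hX
    simp only [svX, List.mem_append] at hX
    rcases hX with ((hX | hX) | hX) | hX
    · exact fit_exL (h4 0) X hX
    · exact fit_exD (h4 1) X hX
    · exact fit_exD (h4 2) X hX
    · exact fit_exD (h4 3) X hX
  · intro i; rfl
  · intro i j hij hT _
    have hT2 : (svT s0 s1 s2 i).2.1 = (svT s0 s1 s2 j).2.1 := by rw [hT]
    fin_cases i <;> fin_cases j <;>
      first
      | exact absurd hij (by decide)
      | (exfalso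
         have hT3 : (1 : ℤ) = 2 * _ := hT2
         rcases hs0 with rfl | rfl <;> rcases hs1 with rfl | rfl <;> rcases hs2 with rfl | rfl <;>
           omega)
      | skip
    · exact sv_pair hqp h2q hs0 (by have : 2 * s0 = 2 * s1 := hT2; omega) hinc.1
    · exact sv_pair hqp h2q hs0 (by have : 2 * s0 = 2 * s2 := hT2; omega) hinc.2.1
    · exact sv_pair hqp h2q hs1 (by have : 2 * s1 = 2 * s2 := hT2; omega) hinc.2.2
  · intro p hp _ i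
    have := hv' p hp i
    exact ⟨by omega, by omega⟩
  · intro p _ _ i hi
    exact absurd rfl hi
  · intro i; norm_num
  · intro i; norm_num
  · intro i hi
    exact absurd rfl hi
  · intro p _ _ i
    cases hl : (svF t0 t1 t2 s0 s1 s2 i).lab
    · exact bad_diff C _
    · exact bad_label C _

/-- A good parameter is a label counted in `svN`. -/
private theorem sv_of_good (C : RCtx) (ω : C.Om) (t0 t1 t2 u v s0 s1 s2 : ℤ)
    (hu : 11 * (C.n : ℤ) ≤ 10 * u) (hv : 10 * v ≤ 19 * (C.n : ℤ))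
    (hs0 : s0 = 1 ∨ s0 = -1) (hs1 : s1 = 1 ∨ s1 = -1) (hs2 : s2 = 1 ∨ s2 = -1)
    (hval : ∀ y, u ≤ y → y ≤ v → (1 ≤ s0 * (y - t0) ∧ s0 * (y - t0) ≤ 2 * C.n) ∧
      (1 ≤ s1 * (y - t1) ∧ s1 * (y - t1) ≤ 2 * C.n) ∧
      (1 ≤ s2 * (y - t2) ∧ s2 * (y - t2) ≤ 2 * C.n))
    (p : ℤ × ℤ × ℤ)
    (hp : p ∈ C.good (0, u, 0) (0, v, 0) {0} (svF t0 t1 t2 s0 s1 s2) (fun _ => true) id
      (svX C.n t0 t1 t2 s0 s1 s2) ω) :
    p.1 = 0 ∧ p.2.2 = 0 ∧ p.2.1 ∈ (C.env ω).PL ∧ inI C.n (11 / 10) (19 / 10) p.2.1 ∧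
      |p.2.1 - t0| ∈ (C.env ω).PD ∧ |p.2.1 - t1| ∈ (C.env ω).PD ∧ |p.2.1 - t2| ∈ (C.env ω).PD ∧
      |p.2.1 - t0| ≠ |p.2.1 - t1| ∧ |p.2.1 - t0| ≠ |p.2.1 - t2| ∧
      |p.2.1 - t1| ≠ |p.2.1 - t2| := by
  classical
  have hn := C.n_big'
  rw [RCtx.good, goodP, mem_filter, mem_bx] at hp
  obtain ⟨⟨⟨hp1, hp2⟩, ⟨hp3, hp4⟩, hp5, hp6⟩, -, hex, hsub, hres⟩ := hp
  obtain ⟨A, y, z⟩ := p
  simp only at hp1 hp2 hp3 hp4 hp5 hp6
  obtain rfl : A = 0 := by omega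
  obtain rfl : z = 0 := by omega
  obtain ⟨e0, e1, e2, e3⟩ := sv_ev t0 t1 t2 s0 s1 s2 y
  obtain ⟨⟨w0, w0'⟩, ⟨w1, w1'⟩, ⟨w2, w2'⟩⟩ := hval y hp3 hp4
  have habs : ∀ {s t : ℤ}, s = 1 ∨ s = -1 → 1 ≤ s * (y - t) → s * (y - t) = |y - t| := by
    rintro s t (rfl | rfl) h
    · rw [abs_of_pos (by omega)]; ring
    · rw [abs_of_neg (by omega)]; ring
  have a0 := habs hs0 w0
  have a1 := habs hs1 w1
  have a2 := habs hs2 w2
  rw [a0] at e1 w0 w0'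
  rw [a1] at e2 w1 w1'
  rw [a2] at e3 w2 w2'
  have hd1 : ∀ i j : Fin 4, (svF t0 t1 t2 s0 s1 s2 i).lab = (svF t0 t1 t2 s0 s1 s2 j).lab →
      i ≠ j → (svF t0 t1 t2 s0 s1 s2 i).f.ev (0, y, 0) ≠ (svF t0 t1 t2 s0 s1 s2 j).f.ev (0, y, 0) :=
    fun i j hl hij => ne_of_sub hl (hsub i j hij hij)
  have hexm : ∀ L : List AF, (∀ X ∈ L, X ∈ svX C.n t0 t1 t2 s0 s1 s2) →
      ∀ X ∈ L, ¬ (C.q : ℤ) ∣ X.ev (0, y, 0) := fun L hL X hX => hex X (hL X hX)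
  have hPL : y ∈ (C.env ω).PL := by
    have hx := ne_of_exL (hexm (exL C.n (svF t0 t1 t2 s0 s1 s2 0).f) (by simp +contextual [svX]))
    rw [e0] at hx
    refine mem_PL C ω _ (zall_of C.n (by omega) _ (by omega) (by omega) hx) ?_
    have := hres 0
    rw [e0] at this
    exact this
  have hPD : ∀ i : Fin 4, (svF t0 t1 t2 s0 s1 s2 i).lab = false →
      (∀ X ∈ exD C.n (svF t0 t1 t2 s0 s1 s2 i).f, X ∈ svX C.n t0 t1 t2 s0 s1 s2) →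
      1 ≤ (svF t0 t1 t2 s0 s1 s2 i).f.ev (0, y, 0) →
      (svF t0 t1 t2 s0 s1 s2 i).f.ev (0, y, 0) ≤ 2 * C.n →
      (svF t0 t1 t2 s0 s1 s2 i).f.ev (0, y, 0) ∈ (C.env ω).PD := by
    intro i hl hX hlo hhi
    obtain ⟨x1, x2, x3⟩ := ne_of_exD (hexm _ hX)
    refine mem_PD C ω _ (dall_of C.n _ hlo hhi x1 x2 x3) hhi ?_
    have := hres i
    rwa [hl] at this
  have m1 := hPD 1 rfl (by simp +contextual [svX]) (by rw [e1]; omega) (by rw [e1]; omega)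
  have m2 := hPD 2 rfl (by simp +contextual [svX]) (by rw [e2]; omega) (by rw [e2]; omega)
  have m3 := hPD 3 rfl (by simp +contextual [svX]) (by rw [e3]; omega) (by rw [e3]; omega)
  have n12 := hd1 1 2 rfl (by decide)
  have n13 := hd1 1 3 rfl (by decide)
  have n23 := hd1 2 3 rfl (by decide)
  rw [e1] at m1 n12 n13
  rw [e2] at m2 n12 n23
  rw [e3] at m3 n13 n23
  refine ⟨rfl, rfl, hPL, ?_, m1, m2, m3, n12, n13, n23⟩
  constructor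
  · have : 11 * (C.n : ℤ) ≤ 10 * y := by omega
    have h3 : 11 * (C.n : ℝ) ≤ 10 * (y : ℝ) := by exact_mod_cast this
    show (11 / 10 : ℝ) * C.n ≤ (y : ℝ)
    linarith
  · have : 10 * y ≤ 19 * (C.n : ℤ) := by omega
    have h3 : 10 * (y : ℝ) ≤ 19 * (C.n : ℝ) := by exact_mod_cast this
    show (y : ℝ) ≤ (19 / 10 : ℝ) * C.n
    linarith

/-- The probability bound for an explicit interval. -/
private theorem sv_pr (C : RCtx) (t0 t1 t2 u v s0 s1 s2 : ℤ)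
    (hs0 : s0 = 1 ∨ s0 = -1) (hs1 : s1 = 1 ∨ s1 = -1) (hs2 : s2 = 1 ∨ s2 = -1)
    (hinc : ¬ (C.q : ℤ) ∣ t0 - t1 ∧ ¬ (C.q : ℤ) ∣ t0 - t2 ∧ ¬ (C.q : ℤ) ∣ t1 - t2)
    (hu : 11 * (C.n : ℤ) ≤ 10 * u) (hv : 10 * v ≤ 19 * (C.n : ℤ))
    (huv : (C.n : ℤ) ≤ 100 * (v - u + 1))
    (hval : ∀ y, u ≤ y → y ≤ v → (1 ≤ s0 * (y - t0) ∧ s0 * (y - t0) ≤ 2 * C.n) ∧
      (1 ≤ s1 * (y - t1) ∧ s1 * (y - t1) ≤ 2 * C.n) ∧
      (1 ≤ s2 * (y - t2) ∧ s2 * (y - t2) ≤ 2 * C.n)) :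
    Pr (fun ω : C.Om => ((C.env ω).svN t0 t1 t2 : ℝ) < c1R C.K0 * (C.n : ℝ))
      ≤ 2 * Real.exp (-(dG C.K0 * C.q)) := by
  classical
  have H := sv_fam C t0 t1 t2 u v s0 s1 s2 hs0 hs1 hs2 hinc hu hv huv hval
  have G := gc C.q C.K0 C.S C.E C.q_prime C.q_big C.bad (0, u, 0) (0, v, 0) {0}
    (svF t0 t1 t2 s0 s1 s2) (fun _ => true) id (svX C.n t0 t1 t2 s0 s1 s2) (svT s0 s1 s2)
    (fun _ => 51 / 100) H
  refine le_trans (Pr_mono ?_) G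
  intro ω hω
  refine lt_of_le_of_lt ?_ (lt_of_lt_of_le hω ?_)
  · -- the injection
    norm_cast
    refine Finset.card_le_card_of_injOn (fun p => p.2.1) ?_ ?_
    · intro p hp
      obtain ⟨-, -, h3, h4⟩ := sv_of_good C ω t0 t1 t2 u v s0 s1 s2 hu hv hs0 hs1 hs2 hval p hp
      rw [mem_coe, mem_filter]
      exact ⟨h3, h4⟩
    · intro p hp p' hp' hpp
      obtain ⟨h1, h2, -⟩ := sv_of_good C ω t0 t1 t2 u v s0 s1 s2 hu hv hs0 hs1 hs2 hval p hp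
      obtain ⟨h1', h2', -⟩ := sv_of_good C ω t0 t1 t2 u v s0 s1 s2 hu hv hs0 hs1 hs2 hval p' hp'
      exact Prod.ext (h1.trans h1'.symm) (Prod.ext hpp (h2.trans h2'.symm))
  · rw [card_bx _ _ H.le1 H.le2 H.le3]
    have hK : (0 : ℝ) < C.K0 := by exact_mod_cast Nat.pos_of_ne_zero C.nK.out
    have hg : 0 < cG C.K0 := by unfold cG gam; positivity
    have hn0 : (0 : ℝ) ≤ C.n := Nat.cast_nonneg _
    have r1 : (C.n : ℝ) / 100 ≤ ((v - u + 1 : ℤ) : ℝ) := by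
      have : (C.n : ℝ) ≤ 100 * ((v - u + 1 : ℤ) : ℝ) := by exact_mod_cast huv
      linarith
    have r4 : c1R C.K0 * (C.n : ℝ) ≤ cG C.K0 * ((C.n : ℝ) / 100) := by
      unfold c1R
      have : 0 ≤ cG C.K0 * (C.n : ℝ) := by positivity
      nlinarith
    refine r4.trans (mul_le_mul_of_nonneg_left ?_ hg.le)
    simpa using r1

private theorem sv_cut (x y t : ℤ) (hxy : x ≤ y) :
    ∃ u v s : ℤ, x ≤ u ∧ v ≤ y ∧ y - x ≤ 2 * (v - u) + 2 ∧ (s = 1 ∨ s = -1) ∧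
      ∀ z, u ≤ z → z ≤ v → 1 ≤ s * (z - t) := by
  by_cases h : t ≤ (x + y) / 2
  · exact ⟨(x + y) / 2 + 1, y, 1, by omega, le_refl _, by omega, Or.inl rfl,
      fun z h1 h2 => by omega⟩
  · exact ⟨x, (x + y) / 2, -1, le_refl _, by omega, by omega, Or.inr rfl,
      fun z h1 h2 => by omega⟩

theorem r_sv (C : RCtx) (a z1 z2 : ℤ) (ha : isAnc C.n a) (h1 : inI C.n (9 / 10) (21 / 10) z1)
    (h2 : inI C.n (9 / 10) (21 / 10) z2)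
    (hinc : ¬ (C.q : ℤ) ∣ a - z1 ∧ ¬ (C.q : ℤ) ∣ a - z2 ∧ ¬ (C.q : ℤ) ∣ z1 - z2) :
    Pr (fun ω : C.Om => ((C.env ω).svN a z1 z2 : ℝ) < c1R C.K0 * (C.n : ℝ))
      ≤ 2 * Real.exp (-(dG C.K0 * C.q)) := by
  have hn := C.n_big'
  obtain ⟨h1a, h1b⟩ := h1
  obtain ⟨h2a, h2b⟩ := h2
  have i1 : 9 * (C.n : ℤ) ≤ 10 * z1 := by
    have : (9 : ℝ) * C.n ≤ 10 * z1 := by linarith
    exact_mod_cast this
  have i2 : 10 * z1 ≤ 21 * (C.n : ℤ) := by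
    have : (10 : ℝ) * z1 ≤ 21 * C.n := by linarith
    exact_mod_cast this
  have i3 : 9 * (C.n : ℤ) ≤ 10 * z2 := by
    have : (9 : ℝ) * C.n ≤ 10 * z2 := by linarith
    exact_mod_cast this
  have i4 : 10 * z2 ≤ 21 * (C.n : ℤ) := by
    have : (10 : ℝ) * z2 ≤ 21 * C.n := by linarith
    exact_mod_cast this
  obtain ⟨u0, v0, s0, x0, y0, l0, hs0, c0⟩ := sv_cut ((11 * (C.n : ℤ) + 9) / 10) (19 * (C.n : ℤ) / 10) a
    (by omega)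
  obtain ⟨u1, v1, s1, x1, y1, l1, hs1, c1⟩ := sv_cut u0 v0 z1 (by omega)
  obtain ⟨u2, v2, s2, x2, y2, l2, hs2, c2⟩ := sv_cut u1 v1 z2 (by omega)
  have hb : 0 ≤ a ∧ a ≤ 3 * C.n := by
    rcases ha with h | h | h <;> omega
  have hup : ∀ {s t y : ℤ}, s = 1 ∨ s = -1 → 0 ≤ t → t ≤ 3 * C.n → 11 * (C.n : ℤ) ≤ 10 * y →
      10 * y ≤ 19 * (C.n : ℤ) → s * (y - t) ≤ 2 * C.n := by
    rintro s t y (rfl | rfl) h1 h2 h3 h4 <;> omega
  refine sv_pr C a z1 z2 u2 v2 s0 s1 s2 hs0 hs1 hs2 hinc (by omega) (by omega) (by omega) ?_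
  intro y hy1 hy2
  exact ⟨⟨c0 y (by omega) (by omega), hup hs0 hb.1 hb.2 (by omega) (by omega)⟩,
    ⟨c1 y (by omega) (by omega), hup hs1 (by omega) (by omega) (by omega) (by omega)⟩,
    ⟨c2 y hy1 hy2, hup hs2 (by omega) (by omega) (by omega) (by omega)⟩⟩

end Pool.Agent.PGr
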