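import Pool.Agent.PGr.SColZ

/-!
# PGr, part S, colouring: `colThm : ColThm`
-/

namespace Pool.Agent.PGr.SC

open Finset

variable {n k q : ℕ}

/-- the probability bound -/
theorem prob_bound {S B0 : ℕ} (hp : Base n k q S B0) {ρ : ℝ} (hρ : 0 < ρ) {l : ℕ} (hl : 0 < l)
    (hq : 40 * (q : ℝ) ^ 18 * Real.exp (-(ρ ^ 2 / (256 * l) * (q : ℝ) ^ 2)) < 1) :
    4 * ((AFam n q).card : ℝ) *
      Real.exp (-((ρ * n / (4 * (q : ℝ) ^ 2)) ^ 2 / (4 * ((4 * l : ℕ) : ℝ) * n))) < 1 := by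
  have hq0 : (0 : ℝ) < q := by exact_mod_cast hp.q_prime.pos
  have hq1 : (1 : ℝ) ≤ q := by exact_mod_cast hp.q_prime.one_lt.le
  have hnR : (0 : ℝ) < n := by
    have := hp.k_lt
    exact_mod_cast (by omega : 0 < n)
  have hlR : (0 : ℝ) < l := by exact_mod_cast hl
  have hn6 : (q : ℝ) ^ 6 ≤ n := by exact_mod_cast hp.q_high
  have hn8 : (n : ℝ) ≤ (q : ℝ) ^ 8 := by exact_mod_cast hp.q_low
  have hcard : ((AFam n q).card : ℝ) ≤ 9 * (q : ℝ) ^ 18 := by
    have h1 : ((AFam n q).card : ℝ) ≤ ((2 * (q ^ 2 * ((n + 1) * (n + 1))) + 1 : ℕ) : ℝ) := by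
      exact_mod_cast AFam_card
    push_cast at h1
    have h8 : (1 : ℝ) ≤ (q : ℝ) ^ 8 := one_le_pow₀ hq1
    have h2 : ((n : ℝ) + 1) * ((n : ℝ) + 1) ≤ (2 * (q : ℝ) ^ 8) * (2 * (q : ℝ) ^ 8) := by
      apply mul_le_mul (by linarith) (by linarith) (by positivity) (by positivity)
    have h3 : 2 * ((q : ℝ) ^ 2 * (((n : ℝ) + 1) * ((n : ℝ) + 1))) ≤ 8 * (q : ℝ) ^ 18 := by
      calc 2 * ((q : ℝ) ^ 2 * (((n : ℝ) + 1) * ((n : ℝ) + 1)))
          ≤ 2 * ((q : ℝ) ^ 2 * ((2 * (q : ℝ) ^ 8) * (2 * (q : ℝ) ^ 8))) := by gcongr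
        _ = 8 * (q : ℝ) ^ 18 := by ring
    have h4 : (1 : ℝ) ≤ (q : ℝ) ^ 18 := one_le_pow₀ hq1
    linarith
  have hexp : ρ ^ 2 / (256 * l) * (q : ℝ) ^ 2 ≤
      (ρ * n / (4 * (q : ℝ) ^ 2)) ^ 2 / (4 * ((4 * l : ℕ) : ℝ) * n) := by
    have h1 : (ρ * n / (4 * (q : ℝ) ^ 2)) ^ 2 / (4 * ((4 * l : ℕ) : ℝ) * n)
        = ρ ^ 2 / (256 * l) * (n / (q : ℝ) ^ 4) := by
      push_cast
      field_simp
      ring
    rw [h1]
    apply mul_le_mul_of_nonneg_left _ (by positivity)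
    rw [le_div_iff₀ (by positivity), ← pow_add]
    exact hn6
  calc _ ≤ 4 * (9 * (q : ℝ) ^ 18) * Real.exp (-(ρ ^ 2 / (256 * l) * (q : ℝ) ^ 2)) := by
        apply mul_le_mul (by linarith) (Real.exp_le_exp.mpr (by linarith)) (Real.exp_pos _).le
          (by positivity)
    _ ≤ 40 * (q : ℝ) ^ 18 * Real.exp (-(ρ ^ 2 / (256 * l) * (q : ℝ) ^ 2)) := by
        apply mul_le_mul_of_nonneg_right _ (Real.exp_pos _).le
        have : (0 : ℝ) ≤ (q : ℝ) ^ 18 := by positivity
        linarith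
    _ < 1 := hq

theorem _root_.Pool.Agent.PGr.colThm : ColThm := by
  classical
  intro ρ hρ
  -- the block length
  obtain ⟨l, hl⟩ := exists_nat_gt (24 / ρ + 3)
  have hl3R : (3 : ℝ) < l := by
    have : 0 < 24 / ρ := by positivity
    linarith
  have hl3 : 3 ≤ l := by exact_mod_cast hl3R.le
  have hlρ : 3 / ((l : ℝ) - 2) ≤ ρ / 8 := by
    rw [div_le_div_iff₀ (by linarith) (by norm_num)]
    have h1 : 24 / ρ < (l : ℝ) - 2 := by linarith
    rw [div_lt_iff₀ hρ] at h1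
    linarith
  have hlR : (0 : ℝ) < l := by linarith
  obtain ⟨q0, hq0⟩ := exists_q0 (ρ ^ 2 / (256 * l)) (by positivity)
  obtain ⟨q1, hq1⟩ := exists_nat_gt (12 / ρ)
  refine ⟨2 * l, (max q0 (max q1 3)) ^ 8, ?_⟩
  intro n k q S B0 hn hp hL
  have hqm : max q0 (max q1 3) ≤ q := by
    have h1 : (max q0 (max q1 3)) ^ 8 ≤ q ^ 8 := hn.trans hp.q_low
    exact (Nat.pow_le_pow_iff_left (by norm_num)).mp h1
  have hqq0 : q0 ≤ q := le_trans (le_max_left _ _) hqm
  have hqq1 : q1 ≤ q := le_trans (le_trans (le_max_left _ _) (le_max_right _ _)) hqm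
  have hq3 : 3 ≤ q := le_trans (le_trans (le_max_right _ _) (le_max_right _ _)) hqm
  have hqpos : (0 : ℝ) < q := by exact_mod_cast hp.q_prime.pos
  have hqone : (1 : ℝ) ≤ q := by exact_mod_cast hp.q_prime.one_lt.le
  have hn6 : (q : ℝ) ^ 6 ≤ n := by exact_mod_cast hp.q_high
  have hk2 := hp.k_lt
  have hk1 := hp.k_pos
  have hn0 : 0 < n := by omega
  have hnR : (0 : ℝ) < n := by exact_mod_cast hn0
  have hn4 : (q : ℝ) ^ 4 ≤ (n : ℝ) / (q : ℝ) ^ 2 := by
    rw [le_div_iff₀ (by positivity), ← pow_add]; exact hn6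
  have hnq : 12 / ρ ≤ (n : ℝ) / (q : ℝ) ^ 2 := by
    have h1 : (q1 : ℝ) ≤ q := by exact_mod_cast hqq1
    have h2 : (q : ℝ) ≤ (q : ℝ) ^ 4 := le_self_pow₀ hqone (by norm_num)
    linarith
  have hq2n : (q : ℝ) ^ 2 * 2 ≤ n := by
    have h1 : (2 : ℝ) ≤ (q : ℝ) ^ 4 := by
      have h2 : (3 : ℝ) ≤ q := by exact_mod_cast hq3
      have h3 : (q : ℝ) ≤ (q : ℝ) ^ 4 := le_self_pow₀ hqone (by norm_num)
      linarith
    have h2 : (q : ℝ) ^ 2 * 2 ≤ (q : ℝ) ^ 2 * (q : ℝ) ^ 4 := by gcongr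
    have h3 : (q : ℝ) ^ 2 * (q : ℝ) ^ 4 = (q : ℝ) ^ 6 := by ring
    linarith
  have hprob := prob_bound hp hρ (l := l) (by omega) (hq0 q hqq0)
  obtain ⟨t, ht1, ht2, ht3, ht4, ht5⟩ := exists_pos hk1 hk2
  set g := Nat.gcd n k with hg
  set L := n / g with hLd
  have hg0 : 0 < g := Nat.gcd_pos_of_pos_right _ hk1
  have hgN : NeZero g := ⟨hg0.ne'⟩
  have hbal0 : ∀ A : Finset ℕ, ρ / 8 * (A.card : ℝ) + ρ * n / (4 * (q : ℝ) ^ 2)
      ≤ ρ / 8 * (A.card : ℝ) + ρ * n / (4 * (q : ℝ) ^ 2) := fun _ => le_rfl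
  by_cases hLl : 2 * l ≤ L
  · -- long cycles
    set h := L / l with hh
    have hh2 : 2 ≤ h := by rw [hh, Nat.le_div_iff_mul_le (by omega)]; exact hLl
    have hhN : NeZero h := ⟨by omega⟩
    have hLh : l * h ≤ L := Nat.mul_div_le L l
    have hLh2 : L < l * h + l := by
      have := Nat.lt_mul_div_succ L (b := l) (by omega)
      rw [Nat.mul_add, Nat.mul_one] at this
      exact this
    have hl2 : NeZero (l - 2) := ⟨by omega⟩
    obtain ⟨ω, hω⟩ := col_exists (ι := Fin g × Fin h) (Ω := Bool × Fin (l - 2)) (n := n)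
      (D := 4 * l) (by omega) hn0 (fun i ω => cB (g := g) (h := h) (l := l) t L i ω)
      (fun i ω => cC (g := g) (h := h) (l := l) t L i ω) (dep g h l t)
      (fun i _ ω β a hβ => cB_update t i ω β a hβ) (fun i _ ω β a hβ => cC_update t i ω β a hβ)
      (dep_count t (by omega) hLh2 hh2 ht1 ht4) (fun i _ => dep_card t i) (ε := ρ / 8)
      (fun i _ => (Pr_cB t hl3 i).trans hlρ) (fun i _ => (Pr_cC t hl3 i).trans hlρ)
      (AFam n q) AFam_sub (t := ρ * n / (4 * (q : ℝ) ^ 2)) (by positivity) hprob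
    refine col_of hk2 hq3 hρ hnq hq2n (fun i => cB (g := g) (h := h) (l := l) t L i ω)
      (fun i => cC (g := g) (h := h) (l := l) t L i ω) ?_ ?_ ?_ hω
    · intro i hi hB
      have h1 := colours_step t hl3 hh2 hLh (ht1 i) (ht2 i hi) (ht3 i hi) ω
      have hm := nbm_lt (k := k) hn0 i
      have h3 := ht2 (nbm n k i) hm
      have h4 := ht3 (nbm n k i) hm
      rw [nbp_nbm (by omega) hi] at h3 h4
      have h2 := colours_step t hl3 hh2 hLh (ht1 (nbm n k i)) h3 h4 ω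
      exact ⟨h1.1 hB, h2.2.1 hB⟩
    · intro i hi hC
      have h1 := colours_step t hl3 hh2 hLh (ht1 i) (ht2 i hi) (ht3 i hi) ω
      exact h1.2.2 hC
    · rintro i ⟨hB, hC⟩
      have h1 := hB.2.2
      rw [hC.2] at h1
      exact Bool.false_ne_true h1
  · -- short even cycles
    have hLe : L % 2 = 0 := by
      rcases hL with h1 | h1
      · exact Nat.even_iff.mp h1
      · omega
    have h0 : (0 : ℝ) ≤ ρ / 8 := by positivity
    obtain ⟨ω, hω⟩ := col_exists (ι := Fin g) (Ω := Bool) (n := n)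
      (D := 4 * l) (by omega) hn0 (fun i ω => bitE (g := g) t ω i = true)
      (fun i ω => bitE (g := g) t ω i = false) (fun i => {Fin.ofNat g i})
      (fun i _ ω β a hβ => by
        rw [Finset.mem_singleton] at hβ
        unfold bitE
        rw [Function.update_of_ne (Ne.symm hβ)])
      (fun i _ ω β a hβ => by
        rw [Finset.mem_singleton] at hβ
        unfold bitE
        rw [Function.update_of_ne (Ne.symm hβ)])
      (fun β => by
        have h1 : ((range n).filter (fun i => β ∈ ({Fin.ofNat g i} : Finset (Fin g)))).card ≤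
            (range L).card := by
          apply Finset.card_le_card_of_injOn t
          · intro i _
            rw [Finset.mem_coe, Finset.mem_range]
            exact ht1 i
          · intro i hi j hj hij
            rw [Finset.mem_coe, Finset.mem_filter, Finset.mem_range, Finset.mem_singleton] at hi hj
            apply ht4 i hi.1 j hj.1 _ hij
            have h9 := congrArg Fin.val (hi.2.symm.trans hj.2)
            simpa [Fin.ofNat] using h9
        rw [Finset.card_range] at h1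
        omega)
      (fun i _ => by simp) (ε := ρ / 8)
      (fun i _ => by rw [(Pr_bitE t i).1]; simpa using h0)
      (fun i _ => by rw [(Pr_bitE t i).2]; simpa using h0)
      (AFam n q) AFam_sub (t := ρ * n / (4 * (q : ℝ) ^ 2)) (by positivity) hprob
    refine col_of hk2 hq3 hρ hnq hq2n (fun i => bitE (g := g) t ω i = true)
      (fun i => bitE (g := g) t ω i = false) ?_ ?_ ?_ hω
    · intro i hi hB
      have h1 := stepE t hLe (ht2 i hi) (ht3 i hi) ω
      have hm := nbm_lt (k := k) hn0 i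
      have h3 := ht2 (nbm n k i) hm
      have h4 := ht3 (nbm n k i) hm
      rw [nbp_nbm (by omega) hi] at h3 h4
      have h2 := stepE t hLe h3 h4 ω
      constructor
      · rw [h1, hB]; rfl
      · rw [hB] at h2
        cases hb : bitE t ω (nbm n k i)
        · rfl
        · rw [hb] at h2; simp at h2
    · intro i hi hC
      have h1 := stepE t hLe (ht2 i hi) (ht3 i hi) ω
      rw [h1, hC]; simp
    · rintro i ⟨hB, hC⟩
      rw [hB] at hC
      exact Bool.false_ne_true hC.symm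

end Pool.Agent.PGr.SC
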