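import Pool.Agent.PGr.RCOV
import Pool.Agent.PGr.RCOV5
import Pool.Agent.PGr.RSV
import Pool.Agent.PGr.RDEF
import Pool.Agent.PGr.REO
import Pool.Agent.PGr.RClass
import Pool.Agent.PGr.SCol
import Pool.Agent.PGr.SBase

/-!
# PGr part R: assembly (ResThm)
-/

noncomputable section

namespace Pool.Agent.PGr

open Finset Filter Topology

theorem Col.mono {n k q : ℕ} {ρ ρ' : ℝ} {Bk Ck Pk : Finset ℕ} (h : Col n k q ρ Bk Ck Pk)
    (hρ : ρ ≤ ρ') : Col n k q ρ' Bk Ck Pk := by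
  have h1 : ρ * n ≤ ρ' * n := mul_le_mul_of_nonneg_right hρ (Nat.cast_nonneg _)
  have h2 : ρ * n / (q : ℝ) ^ 2 ≤ ρ' * n / (q : ℝ) ^ 2 :=
    div_le_div_of_nonneg_right h1 (by positivity)
  exact ⟨h.cover, h.BC, h.BP, h.CP, h.nB, h.nC, h.special, h.cardP.trans h1,
    fun e he r hr x y => (h.balB e he r hr x y).trans h2,
    fun e he r hr x y => (h.balC e he r hr x y).trans h2⟩

/-- union bound with side conditions -/
theorem union_cond {Ω J : Type*} [Fintype Ω] (s : Finset J) (V : J → Prop) (p : J → Ω → Prop)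
    (b : ℝ) (hb : 0 ≤ b) (h : ∀ j ∈ s, V j → Pr (p j) ≤ b) :
    Pr (fun ω => ∃ j ∈ s, V j ∧ p j ω) ≤ s.card * b := by
  classical
  refine (Pr_exists_le s (fun j ω => V j ∧ p j ω)).trans ?_
  rw [← nsmul_eq_mul, ← sum_const]
  refine sum_le_sum fun j hj => ?_
  by_cases hV : V j
  · refine (Pr_mono fun ω hω => hω.2).trans (h j hj hV)
  · refine le_trans (le_of_eq ?_) hb
    unfold Pr Ex
    simp [hV]

/-- polynomials against exponentials -/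
theorem exists_q0 (D D' : ℝ) (hD : 0 < D) (hD' : 0 < D') (m : ℕ) (T : ℝ) :
    ∃ q0 : ℕ, ∀ q : ℕ, q0 ≤ q → T ≤ q ∧
      (q : ℝ) ^ m * (2 * Real.exp (-(D * q))) + q * (2 * Real.exp (-(D' * q))) < 1 := by
  have key : ∀ (E : ℝ) (m : ℕ), 0 < E →
      Tendsto (fun x : ℝ => x ^ m * (2 * Real.exp (-(E * x)))) atTop (𝓝 0) := by
    intro E m hE
    have h1 := (Real.tendsto_pow_mul_exp_neg_atTop_nhds_zero m).comp
      (tendsto_id.const_mul_atTop hE)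
    have h2 := h1.const_mul (2 / E ^ m)
    rw [mul_zero] at h2
    refine h2.congr fun x => ?_
    simp only [Function.comp, id]
    rw [mul_pow]
    field_simp
  have h1 := key D m hD
  have h2 := key D' 1 hD'
  have h3 := h1.add h2
  rw [add_zero] at h3
  have h4 := (h3.comp tendsto_natCast_atTop_atTop).eventually (gt_mem_nhds (zero_lt_one))
  have h5 : ∀ᶠ q : ℕ in atTop, T ≤ (q : ℝ) := tendsto_natCast_atTop_atTop.eventually_ge_atTop T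
  obtain ⟨q0, hq0⟩ := (h4.and h5).exists_forall_of_atTop
  refine ⟨q0, fun q hq => ?_⟩
  obtain ⟨a1, a2⟩ := hq0 q hq
  refine ⟨a2, ?_⟩
  simpa using a1

/-- table of the default ranges -/
def dfLo : Fin 4 → ℝ := ![211 / 100, 221 / 100, 81 / 100, 71 / 100]
/-- table of the default ranges -/
def dfHi : Fin 4 → ℝ := ![219 / 100, 229 / 100, 89 / 100, 79 / 100]

theorem defCase_tab {E : Env} {a z1 z2 : ℤ} {lo hi' : ℝ} (h : E.defCase a z1 z2 lo hi') :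
    ∃ t : Fin 4, lo = dfLo t ∧ hi' = dfHi t := by
  rcases h with ⟨-, -, -, -, h1, h2⟩ | ⟨-, -, -, -, h1, h2⟩ | ⟨-, -, -, -, h1, h2⟩ |
    ⟨-, -, -, -, h1, h2⟩
  · exact ⟨0, h1, h2⟩
  · exact ⟨1, h1, h2⟩
  · exact ⟨2, h1, h2⟩
  · exact ⟨3, h1, h2⟩

/-- `x ∈ [a n, b n]` with `0 ≤ a`, `b ≤ 3` -/
theorem inI_mem {n : ℕ} {a b : ℝ} {x : ℤ} (h : inI n a b x) (ha : 0 ≤ a) (hb : b ≤ 3) :
    x ∈ Icc (0 : ℤ) (3 * (n : ℤ)) := by
  obtain ⟨h1, h2⟩ := h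
  have hn : (0 : ℝ) ≤ n := Nat.cast_nonneg _
  have h3 : (0 : ℝ) ≤ x := le_trans (by positivity) h1
  have h4 : (x : ℝ) ≤ 3 * n := h2.trans (mul_le_mul_of_nonneg_right hb hn)
  rw [mem_Icc]
  exact ⟨by exact_mod_cast h3, by exact_mod_cast h4⟩

theorem isAnc_mem {n : ℕ} {a : ℤ} (h : isAnc n a) : a ∈ Icc (0 : ℤ) (3 * (n : ℤ)) := by
  rw [mem_Icc]
  rcases h with h | h | h <;> constructor <;> omega

theorem excU_card (n q : ℕ) : (excU n q).card ≤ 4 := by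
  unfold excU
  exact Finset.card_le_four

/-- A good outcome. -/
theorem exists_outcome (C : RCtx)
    (hq : (C.q : ℝ) ^ 40 * (2 * Real.exp (-(dG C.K0 * C.q))) +
      C.q * (2 * Real.exp (-(1 / (2 * (C.K0 : ℝ) ^ 2) * C.q))) < 1) :
    ∃ ω : C.Om, (C.env ω).SV (c1R C.K0) ∧ (C.env ω).DEF (c1R C.K0) ∧ (C.env ω).COV (c1R C.K0) ∧
      (C.env ω).TW1 (c1R C.K0) ∧ (C.env ω).EO (c1R C.K0) ∧
      ∀ r : ZMod C.q, (((univ : Finset (ZMod (C.q ^ 2))).filter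
        (fun u => (ω u).1 = 0 ∧ red C.q u = r)).card : ℝ) ≤ 2 * C.q / C.K0 := by
  classical
  set B : ℝ := 2 * Real.exp (-(dG C.K0 * C.q)) with hB
  have hB0 : 0 ≤ B := by positivity
  set I : Finset ℤ := Icc (0 : ℤ) (3 * (C.n : ℤ)) with hI
  have hnq : (C.n : ℝ) ≤ (C.q : ℝ) ^ 8 := by exact_mod_cast C.base.q_low
  have hq4 : (10 : ℝ) ^ 4 ≤ C.q := by exact_mod_cast C.q_big
  have hIc : (I.card : ℝ) ≤ (C.q : ℝ) ^ 9 := by
    rw [hI, Int.card_Icc]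
    have h1 : (((3 * (C.n : ℤ) + 1 - 0).toNat : ℕ) : ℝ) = 3 * C.n + 1 := by
      have : (3 * (C.n : ℤ) + 1 - 0).toNat = 3 * C.n + 1 := by omega
      rw [this]; push_cast; ring
    rw [h1]
    have h2 : (1 : ℝ) ≤ (C.q : ℝ) ^ 8 := one_le_pow₀ (by linarith)
    calc 3 * (C.n : ℝ) + 1 ≤ 4 * (C.q : ℝ) ^ 8 := by linarith
      _ ≤ (C.q : ℝ) * (C.q : ℝ) ^ 8 := by
        apply mul_le_mul_of_nonneg_right (by linarith) (by positivity)
      _ = (C.q : ℝ) ^ 9 := by ring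
  -- SV
  have e1 := union_cond (Ω := C.Om) (I ×ˢ I ×ˢ I)
    (fun j => isAnc C.n j.1 ∧ inI C.n (9 / 10) (21 / 10) j.2.1 ∧ inI C.n (9 / 10) (21 / 10) j.2.2 ∧
      (¬ (C.q : ℤ) ∣ j.1 - j.2.1 ∧ ¬ (C.q : ℤ) ∣ j.1 - j.2.2 ∧ ¬ (C.q : ℤ) ∣ j.2.1 - j.2.2))
    (fun j ω => ((C.env ω).svN j.1 j.2.1 j.2.2 : ℝ) < c1R C.K0 * (C.n : ℝ)) B hB0
    (fun j _ hV => r_sv C j.1 j.2.1 j.2.2 hV.1 hV.2.1 hV.2.2.1 hV.2.2.2)
  -- DEF
  have e2 := union_cond (Ω := C.Om) ((I ×ˢ I ×ˢ I) ×ˢ (univ : Finset (Fin 4)))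
    (fun j => (¬ (C.q : ℤ) ∣ j.1.1 - j.1.2.1 ∧ ¬ (C.q : ℤ) ∣ j.1.1 - j.1.2.2 ∧
        ¬ (C.q : ℤ) ∣ j.1.2.1 - j.1.2.2) ∧
      ∀ ω : C.Om, (C.env ω).defCase j.1.1 j.1.2.1 j.1.2.2 (dfLo j.2) (dfHi j.2))
    (fun j ω => ((C.env ω).dfN j.1.1 j.1.2.1 j.1.2.2 (dfLo j.2) (dfHi j.2) : ℝ)
      < c1R C.K0 * (C.n : ℝ)) B hB0
    (fun j _ hV => r_def C j.1.1 j.1.2.1 j.1.2.2 (dfLo j.2) (dfHi j.2) hV.1 hV.2)
  -- COV
  have e3 := union_cond (Ω := C.Om) ((univ : Finset (Fin 6)) ×ˢ I)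
    (fun j => j.2 ∈ dall C.n ∧ inI C.n (Env.covT j.1 0) (Env.covT j.1 1) j.2)
    (fun j ω => ((C.env ω).covN j.1 j.2 : ℝ) < c1R C.K0 * (C.n : ℝ) ^ 3) B hB0
    (fun j _ hV => by
      by_cases hg : j.1 = 5
      · have h2 := hV.2
        rw [hg] at h2 ⊢
        exact r_cov5 C j.2 hV.1 (by simpa [Env.covT] using h2)
      · exact r_cov C j.1 hg j.2 hV.1 hV.2)
  -- TW1
  have e4 := union_cond (Ω := C.Om) (I ×ˢ I)
    (fun j => inI C.n (7 / 100) (13 / 10) j.1 ∧ inI C.n (7 / 100) (13 / 10) j.2 ∧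
      gd C.n C.k C.q j.1 ∧ gd C.n C.k C.q j.2 ∧ ¬ (C.q : ℤ) ∣ j.1 - j.2)
    (fun j ω => ((C.env ω).twN j.1 j.2 : ℝ) < c1R C.K0 * (C.n : ℝ) ^ 2) B hB0
    (fun j _ hV => r_tw1 C j.1 j.2 hV.1 hV.2.1 hV.2.2.1 hV.2.2.2.1 hV.2.2.2.2)
  -- EO
  have e5 := union_cond (Ω := C.Om) I
    (fun d => inI C.n (1 / 10) (13 / 10) d ∧ gd C.n C.k C.q d)
    (fun d ω => ((C.env ω).eoN d : ℝ) < c1R C.K0 * (C.n : ℝ) ^ 3) B hB0
    (fun d _ hV => r_eo C d hV.1 hV.2)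
  have e6 := class_bound C
  -- sizes
  have hq1 : (1 : ℝ) ≤ C.q := by linarith
  have c0 : 0 ≤ (I.card : ℝ) := Nat.cast_nonneg _
  have s1 : (((I ×ˢ I ×ˢ I).card : ℕ) : ℝ) ≤ (C.q : ℝ) ^ 27 := by
    rw [card_product, card_product]
    push_cast
    calc (I.card : ℝ) * ((I.card : ℝ) * (I.card : ℝ))
        ≤ (C.q : ℝ) ^ 9 * ((C.q : ℝ) ^ 9 * (C.q : ℝ) ^ 9) := by gcongr
      _ = (C.q : ℝ) ^ 27 := by ring
  have s2 : ((((I ×ˢ I ×ˢ I) ×ˢ (univ : Finset (Fin 4))).card : ℕ) : ℝ) ≤ 4 * (C.q : ℝ) ^ 27 := by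
    rw [card_product, card_univ, Fintype.card_fin]
    push_cast
    linarith
  have s3 : ((((univ : Finset (Fin 6)) ×ˢ I).card : ℕ) : ℝ) ≤ 6 * (C.q : ℝ) ^ 27 := by
    rw [card_product, card_univ, Fintype.card_fin]
    push_cast
    have : (C.q : ℝ) ^ 9 ≤ (C.q : ℝ) ^ 27 := pow_le_pow_right₀ hq1 (by norm_num)
    linarith
  have s4 : (((I ×ˢ I).card : ℕ) : ℝ) ≤ (C.q : ℝ) ^ 27 := by
    rw [card_product]
    push_cast
    calc (I.card : ℝ) * (I.card : ℝ) ≤ (C.q : ℝ) ^ 9 * (C.q : ℝ) ^ 9 := by gcongr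
      _ = (C.q : ℝ) ^ 18 := by ring
      _ ≤ (C.q : ℝ) ^ 27 := pow_le_pow_right₀ hq1 (by norm_num)
  have s5 : (I.card : ℝ) ≤ (C.q : ℝ) ^ 27 :=
    hIc.trans (pow_le_pow_right₀ hq1 (by norm_num))
  have htot : (C.q : ℝ) ^ 27 * B + 4 * (C.q : ℝ) ^ 27 * B + 6 * (C.q : ℝ) ^ 27 * B +
      (C.q : ℝ) ^ 27 * B + (C.q : ℝ) ^ 27 * B ≤ (C.q : ℝ) ^ 40 * B := by
    have h1 : 13 * (C.q : ℝ) ^ 27 ≤ (C.q : ℝ) ^ 40 := by
      calc 13 * (C.q : ℝ) ^ 27 ≤ (C.q : ℝ) * (C.q : ℝ) ^ 27 :=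
            mul_le_mul_of_nonneg_right (by linarith) (by positivity)
        _ = (C.q : ℝ) ^ 28 := by ring
        _ ≤ (C.q : ℝ) ^ 40 := pow_le_pow_right₀ hq1 (by norm_num)
    nlinarith [mul_le_mul_of_nonneg_right h1 hB0]
  have e6' : (C.q : ℝ) * (2 * Real.exp (-(C.q / (2 * (C.K0 : ℝ) ^ 2)))) =
      C.q * (2 * Real.exp (-(1 / (2 * (C.K0 : ℝ) ^ 2) * C.q))) := by
    congr 4
    ring
  rw [e6'] at e6
  -- the union
  set P1 : C.Om → Prop := fun ω => ∃ j ∈ (I ×ˢ I ×ˢ I), (isAnc C.n j.1 ∧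
      inI C.n (9 / 10) (21 / 10) j.2.1 ∧ inI C.n (9 / 10) (21 / 10) j.2.2 ∧
      (¬ (C.q : ℤ) ∣ j.1 - j.2.1 ∧ ¬ (C.q : ℤ) ∣ j.1 - j.2.2 ∧ ¬ (C.q : ℤ) ∣ j.2.1 - j.2.2)) ∧
      ((C.env ω).svN j.1 j.2.1 j.2.2 : ℝ) < c1R C.K0 * (C.n : ℝ) with hP1
  set P2 : C.Om → Prop := fun ω => ∃ j ∈ ((I ×ˢ I ×ˢ I) ×ˢ (univ : Finset (Fin 4))),
      ((¬ (C.q : ℤ) ∣ j.1.1 - j.1.2.1 ∧ ¬ (C.q : ℤ) ∣ j.1.1 - j.1.2.2 ∧
        ¬ (C.q : ℤ) ∣ j.1.2.1 - j.1.2.2) ∧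
      ∀ ω : C.Om, (C.env ω).defCase j.1.1 j.1.2.1 j.1.2.2 (dfLo j.2) (dfHi j.2)) ∧
      ((C.env ω).dfN j.1.1 j.1.2.1 j.1.2.2 (dfLo j.2) (dfHi j.2) : ℝ)
      < c1R C.K0 * (C.n : ℝ) with hP2
  set P3 : C.Om → Prop := fun ω => ∃ j ∈ ((univ : Finset (Fin 6)) ×ˢ I),
      (j.2 ∈ dall C.n ∧ inI C.n (Env.covT j.1 0) (Env.covT j.1 1) j.2) ∧
      ((C.env ω).covN j.1 j.2 : ℝ) < c1R C.K0 * (C.n : ℝ) ^ 3 with hP3
  set P4 : C.Om → Prop := fun ω => ∃ j ∈ (I ×ˢ I),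
      (inI C.n (7 / 100) (13 / 10) j.1 ∧ inI C.n (7 / 100) (13 / 10) j.2 ∧
      gd C.n C.k C.q j.1 ∧ gd C.n C.k C.q j.2 ∧ ¬ (C.q : ℤ) ∣ j.1 - j.2) ∧
      ((C.env ω).twN j.1 j.2 : ℝ) < c1R C.K0 * (C.n : ℝ) ^ 2 with hP4
  set P5 : C.Om → Prop := fun ω => ∃ d ∈ I,
      (inI C.n (1 / 10) (13 / 10) d ∧ gd C.n C.k C.q d) ∧
      ((C.env ω).eoN d : ℝ) < c1R C.K0 * (C.n : ℝ) ^ 3 with hP5
  set P6 : C.Om → Prop := fun ω => ¬ ∀ r : ZMod C.q,
      (((univ : Finset (ZMod (C.q ^ 2))).filter (fun u => (ω u).1 = 0 ∧ red C.q u = r)).card : ℝ)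
        ≤ 2 * C.q / C.K0 with hP6
  have hlt : Pr (fun ω => P1 ω ∨ P2 ω ∨ P3 ω ∨ P4 ω ∨ P5 ω ∨ P6 ω) < 1 := by
    have u1 := Pr_or_le P1 (fun ω => P2 ω ∨ P3 ω ∨ P4 ω ∨ P5 ω ∨ P6 ω)
    have u2 := Pr_or_le P2 (fun ω => P3 ω ∨ P4 ω ∨ P5 ω ∨ P6 ω)
    have u3 := Pr_or_le P3 (fun ω => P4 ω ∨ P5 ω ∨ P6 ω)
    have u4 := Pr_or_le P4 (fun ω => P5 ω ∨ P6 ω)
    have u5 := Pr_or_le P5 P6
    have f1 := mul_le_mul_of_nonneg_right s1 hB0
    have f2 := mul_le_mul_of_nonneg_right s2 hB0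
    have f3 := mul_le_mul_of_nonneg_right s3 hB0
    have f4 := mul_le_mul_of_nonneg_right s4 hB0
    have f5 := mul_le_mul_of_nonneg_right s5 hB0
    linarith
  obtain ⟨ω, hω⟩ := exists_not_of_Pr_lt_one hlt
  push Not at hω
  obtain ⟨g1, g2, g3, g4, g5, g6⟩ := hω
  refine ⟨ω, ?_, ?_, ?_, ?_, ?_, ?_⟩
  · rw [Env.SV_iff]
    intro a z1 z2 ha h1 h2 hinc
    by_contra hcon
    push Not at hcon
    exact g1 ⟨(a, z1, z2), mem_product.2 ⟨isAnc_mem ha, mem_product.2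
      ⟨inI_mem h1 (by norm_num) (by norm_num), inI_mem h2 (by norm_num) (by norm_num)⟩⟩,
      ⟨ha, h1, h2, hinc⟩, hcon⟩
  · rw [Env.DEF_iff]
    intro a z1 z2 lo hi' hinc hcase
    by_contra hcon
    push Not at hcon
    obtain ⟨t, rfl, rfl⟩ := defCase_tab hcase
    have hm : a ∈ I ∧ z1 ∈ I ∧ z2 ∈ I := by
      rcases hcase with ⟨p1, p2, p3, p4, -⟩ | ⟨p1, p2, p3, p4, -⟩ | ⟨p1, p2, p3, p4, -⟩ |
        ⟨p1, p2, p3, p4, -⟩
      all_goals
        refine ⟨?_, inI_mem p3 (by norm_num) (by norm_num), inI_mem p4 (by norm_num) (by norm_num)⟩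
        have hnn : (C.env ω).n = C.n := rfl
        simp only [hnn] at p1 p2
        rw [hI, mem_Icc]
        constructor <;> omega
    exact g2 ⟨((a, z1, z2), t), mem_product.2 ⟨mem_product.2 ⟨hm.1, mem_product.2 ⟨hm.2.1, hm.2.2⟩⟩,
      mem_univ _⟩, ⟨hinc, fun _ => hcase⟩, hcon⟩
  · rw [Env.COV_iff]
    intro g d hd
    by_contra hcon
    push Not at hcon
    refine g3 ⟨(g, d), mem_product.2 ⟨mem_univ _, ?_⟩, hd, hcon⟩
    refine inI_mem hd.2 ?_ ?_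
    · fin_cases g <;> simp [Env.covT] <;> norm_num
    · fin_cases g <;> simp [Env.covT] <;> norm_num
  · rw [Env.TW1_iff]
    intro d d' h1 h2 h3 h4 h5
    by_contra hcon
    push Not at hcon
    exact g4 ⟨(d, d'), mem_product.2 ⟨inI_mem h1 (by norm_num) (by norm_num),
      inI_mem h2 (by norm_num) (by norm_num)⟩, ⟨h1, h2, h3, h4, h5⟩, hcon⟩
  · rw [Env.EO_iff]
    intro d h1 h2
    by_contra hcon
    push Not at hcon
    exact g5 ⟨d, inI_mem h1 (by norm_num) (by norm_num), ⟨h1, h2⟩, hcon⟩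
  · exact g6

theorem excL_mem (n q : ℕ) (x : ℤ) (h1 : (n : ℤ) < 2 * x) (h2 : 2 * x < 5 * n)
    (h3 : x ∉ zall n) : unL q x ∈ excU n q := by
  unfold zall at h3
  unfold excU
  split_ifs at h3 with h
  · rw [mem_erase, mem_Icc, not_and_or, not_not] at h3
    rcases h3 with h3 | h3
    · rw [h3]; simp
    · exfalso
      apply h3
      constructor <;> omega
  · exfalso
    rw [mem_Icc] at h3
    apply h3
    constructor <;> omega

theorem excD_mem (n q : ℕ) (d : ℤ) (h1 : 1 ≤ d) (h2 : d ≤ 2 * n) (h3 : d ∉ dall n) :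
    unD q d ∈ excU n q := by
  unfold dall at h3
  unfold excU
  split_ifs at h3 with h
  · rw [mem_erase, mem_erase, mem_Icc, not_and_or, not_and_or, not_not, not_not] at h3
    rcases h3 with h3 | h3 | h3
    · rw [h3]; simp
    · rw [h3]; simp
    · exfalso
      apply h3
      constructor <;> omega
  · rw [mem_erase, mem_Icc, not_and_or, not_not] at h3
    rcases h3 with h3 | h3
    · rw [h3]; simp
    · exfalso
      apply h3
      constructor <;> omega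

/-- **ResThm**: output of part R, from the colouring theorem and the existence of the basic
numbers. -/
theorem resThm_of (hC : ColThm) (hB : BaseThm) : ResThm := by
  classical
  intro κ hκ
  obtain ⟨K0, hK⟩ := exists_nat_ge (4 / κ)
  have hKpos : 0 < K0 := by
    rcases Nat.eq_zero_or_pos K0 with h | h
    · exfalso
      rw [h, Nat.cast_zero] at hK
      have : 0 < 4 / κ := by positivity
      linarith
    · exact h
  have hK0r : (0 : ℝ) < K0 := by exact_mod_cast hKpos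
  have hg : 0 < gam K0 := by unfold gam; positivity
  have hcG : 0 < cG K0 := by unfold cG; positivity
  have hdG : 0 < dG K0 := by unfold dG; positivity
  refine ⟨c1R K0, by unfold c1R; positivity, ?_⟩
  intro ρ hρ
  obtain ⟨l0, n1, hcol⟩ := hC (min ρ (1 / 10 ^ 6)) (lt_min hρ (by norm_num))
  obtain ⟨n2, hbase⟩ := hB
  obtain ⟨q0, hq0⟩ := exists_q0 (dG K0) (1 / (2 * (K0 : ℝ) ^ 2)) hdG (by positivity) 40
    (max (10 ^ 4) (8 / κ))
  refine ⟨l0, max n1 (max n2 (q0 ^ 8 + 1)), ?_⟩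
  intro n k hn hk1 hk2 hL
  obtain ⟨q, S, B0, hbs⟩ := hbase n k (by omega) hk1 hk2
  obtain ⟨Bk, Ck, Pk, hcl⟩ := hcol n k q S B0 (by omega) hbs hL
  have hqq : q0 ≤ q := by
    by_contra hcon
    push Not at hcon
    have h1 : q ^ 8 ≤ q0 ^ 8 := Nat.pow_le_pow_left hcon.le 8
    have h2 := hbs.q_low
    omega
  obtain ⟨hT, hexp⟩ := hq0 q hqq
  have hq4 : (10 : ℝ) ^ 4 ≤ q := (le_max_left _ _).trans hT
  have hqκ : 8 / κ ≤ q := (le_max_right _ _).trans hT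
  have hq4n : 10 ^ 4 ≤ q := by exact_mod_cast hq4
  have hqpos : 0 < q := by omega
  have hSpos : 0 < S := by
    rcases Nat.eq_zero_or_pos S with h | h
    · exfalso
      have h1 := hbs.S_low
      have h2 := hbs.q_high
      rw [h] at h1
      have h3 : q ^ 2 * 10 ^ 16 ≤ q ^ 6 := by
        calc q ^ 2 * 10 ^ 16 = q ^ 2 * (10 ^ 4) ^ 4 := by norm_num
          _ ≤ q ^ 2 * q ^ 4 := Nat.mul_le_mul_left _ (Nat.pow_le_pow_left hq4n 4)
          _ = q ^ 6 := by ring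
      have h4 : 0 < q ^ 2 := by positivity
      omega
    · exact h
  have hE : 3 * (n : ℤ) + 3 < ((3 * n / q ^ 2 + 2 : ℕ) : ℤ) * (q : ℤ) ^ 2 := by
    have h4 : 4 ≤ q ^ 2 := by nlinarith
    have h1 : 3 * n < (3 * n / q ^ 2 + 1) * q ^ 2 := by
      have := Nat.lt_div_mul_add (a := 3 * n) (b := q ^ 2) (by omega)
      calc 3 * n < 3 * n / q ^ 2 * q ^ 2 + q ^ 2 := this
        _ = (3 * n / q ^ 2 + 1) * q ^ 2 := by ring
    have h2 : 3 * n + 3 < (3 * n / q ^ 2 + 2) * q ^ 2 := by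
      calc 3 * n + 3 < (3 * n / q ^ 2 + 1) * q ^ 2 + q ^ 2 := by omega
        _ = (3 * n / q ^ 2 + 2) * q ^ 2 := by ring
    exact_mod_cast h2
  have : NeZero q := ⟨hqpos.ne'⟩
  have : NeZero K0 := ⟨hKpos.ne'⟩
  let C : RCtx :=
    { n := n, k := k, q := q, S := S, B0 := B0, K0 := K0, E := 3 * n / q ^ 2 + 2
      nq := ⟨hqpos.ne'⟩, nS := ⟨hSpos.ne'⟩, nK := ⟨hKpos.ne'⟩, nE := ⟨Nat.succ_ne_zero _⟩
      base := hbs, Bk := Bk, Ck := Ck, Pk := Pk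
      col := hcl.mono (min_le_right _ _)
      E_big := hE, q_big := hq4n }
  obtain ⟨ω, hsv, hdf, hcv, htw, heo, hcls⟩ := exists_outcome C hexp
  refine ⟨C.env ω, rfl, rfl, ?_⟩
  have hexc : ((excU n q).card : ℝ) ≤ 4 := by exact_mod_cast excU_card n q
  have hqr : (0 : ℝ) < q := by exact_mod_cast hqpos
  have hκq : 8 ≤ κ * q := by
    rw [div_le_iff₀ hκ] at hqκ
    linarith
  have hKκ : 2 / (K0 : ℝ) ≤ κ / 2 := by
    rw [div_le_iff₀ hκ] at hK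
    rw [div_le_div_iff₀ hK0r (by norm_num)]
    linarith
  have hcl2 : 2 * (q : ℝ) / K0 ≤ κ / 2 * q := by
    calc 2 * (q : ℝ) / K0 = 2 / K0 * q := by ring
      _ ≤ κ / 2 * q := mul_le_mul_of_nonneg_right hKκ hqr.le
  have hR : (C.env ω).Res = (univ : Finset (ZMod (q ^ 2))).filter (fun u => (ω u).1 = 0) ∪
    excU n q := rfl
  constructor
  · exact hcl.mono (min_le_left _ _)
  · -- number of reserved units
    rw [hR]
    have h1 := card_union_le ((univ : Finset (ZMod (q ^ 2))).filter (fun u => (ω u).1 = 0))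
      (excU n q)
    have h2 : (((univ : Finset (ZMod (q ^ 2))).filter (fun u => (ω u).1 = 0)).card : ℝ) ≤
        κ / 2 * q * q := by
      have h3 := card_eq_sum_card_fiberwise
        (s := (univ : Finset (ZMod (q ^ 2))).filter (fun u => (ω u).1 = 0))
        (t := (univ : Finset (ZMod q))) (f := fun u => red q u) (fun _ _ => mem_coe.2 (mem_univ _))
      rw [h3]
      push_cast
      have h4 : ∀ r ∈ (univ : Finset (ZMod q)),
          ((((univ : Finset (ZMod (q ^ 2))).filter (fun u => (ω u).1 = 0)).filter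
            (fun u => red q u = r)).card : ℝ) ≤ κ / 2 * q := by
        intro r _
        rw [filter_filter]
        exact (hcls r).trans hcl2
      refine (sum_le_sum h4).trans ?_
      rw [sum_const, card_univ, ZMod.card, nsmul_eq_mul]
      linarith
    have h1' : ((((univ : Finset (ZMod (q ^ 2))).filter (fun u => (ω u).1 = 0)) ∪
        excU n q).card : ℝ) ≤ κ / 2 * q * q + 4 := by
      have : ((((univ : Finset (ZMod (q ^ 2))).filter (fun u => (ω u).1 = 0)) ∪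
        excU n q).card : ℝ) ≤ (((univ : Finset (ZMod (q ^ 2))).filter
          (fun u => (ω u).1 = 0)).card : ℝ) + ((excU n q).card : ℝ) := by exact_mod_cast h1
      linarith
    refine h1'.trans ?_
    show κ / 2 * q * q + 4 ≤ κ * (q : ℝ) ^ 2
    nlinarith
  · intro r
    have hsub : ((C.env ω).Res.filter (fun u => red (C.env ω).q u = r)) ⊆
        (((univ : Finset (ZMod (q ^ 2))).filter
          (fun u => (ω u).1 = 0)).filter (fun u => red q u = r)) ∪ ((excU n q).filter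
          (fun u => red q u = r)) := by
      intro u hu
      rw [mem_filter] at hu
      obtain ⟨hu1, hu2⟩ := hu
      rw [hR] at hu1
      rcases mem_union.1 hu1 with h | h
      · exact mem_union_left _ (mem_filter.2 ⟨h, hu2⟩)
      · exact mem_union_right _ (mem_filter.2 ⟨h, hu2⟩)
    refine le_trans (Nat.cast_le.2 (card_le_card hsub)) ?_
    have h1 := card_union_le (((univ : Finset (ZMod (q ^ 2))).filter
      (fun u => (ω u).1 = 0)).filter (fun u => red q u = r)) ((excU n q).filter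
      (fun u => red q u = r))
    have h2 : ((((univ : Finset (ZMod (q ^ 2))).filter (fun u => (ω u).1 = 0)).filter
        (fun u => red q u = r)).card : ℝ) ≤ κ / 2 * q := by
      rw [filter_filter]
      refine le_trans (Nat.cast_le.2 (card_le_card fun u hu => ?_)) ((hcls r).trans hcl2)
      have hu2 := (Finset.mem_filter.1 hu).2
      refine @Finset.mem_filter _ _ (_) _ _ |>.2 ⟨Finset.mem_univ _, hu2⟩
    have h3 : (((excU n q).filter (fun u => red q u = r)).card : ℝ) ≤ 4 :=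
      le_trans (by exact_mod_cast card_filter_le _ _) hexc
    have h1' := (Nat.cast_le (α := ℝ)).2 h1
    push_cast at h1'
    refine h1'.trans ?_
    show _ ≤ κ * (q : ℝ)
    linarith
  · intro x h1 h2 h3
    rw [hR]
    exact mem_union_right _ (excL_mem n q x h1 h2 h3)
  · intro d h1 h2 h3
    rw [hR]
    exact mem_union_right _ (excD_mem n q d h1 h2 h3)
  · exact hsv
  · exact hdf
  · exact hcv
  · exact htw
  · exact heo

/-- **ResThm**. -/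
theorem resThm : ResThm := resThm_of colThm baseThm

end Pool.Agent.PGr
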