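import Pool.Agent.PGr.Main
import Pool.Agent.PGr.PFin
import Pool.Agent.PGr.RFin
import Pool.Agent.PGr.CMain
import Pool.Agent.PGr.E1
import Pool.Agent.PGr.E2
import Pool.Agent.PGr.E3
import Pool.Agent.PGr.E4Sf

/-!
# PGr: final assembly
-/

namespace Pool.Agent.PGr

open Pool.Agent.Helper20.Graceful

theorem thmI : ThmI := thmI_of resThm plantThm

theorem thmII : ThmII := thmII_of E1_holds E2_holds E3_holds e4Stmt

/-- For all large `n` the graph `P(n,k)` is graceful whenever `n / gcd(n,k)` is even or large. -/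
theorem almost_all :
    ∃ l0 n0 : ℕ, ∀ n k : ℕ, n0 ≤ n → 1 ≤ k → 2 * k < n →
      (Even (n / Nat.gcd n k) ∨ l0 ≤ n / Nat.gcd n k) → IsGraceful (genPetersen n k) :=
  main_of thmI thmII

end Pool.Agent.PGr
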