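import Mathlib
import Pool.Agent.PGr.E1

/-!
# PGr, module E4c: the size of the hub `JJ`
-/

noncomputable section

namespace Pool.Agent.PGr

open Finset

namespace Dat

variable {D : Dat} {κ c : ℝ}

open Classical in
/-- positive integers up to `2n` with reserved unit -/
theorem cnt_unD_int (h : D.Reg κ c) :
    (((Zr D.n).filter (fun d : ℤ => unD D.q d ∈ D.Res)).card : ℝ) ≤ 4 * κ * D.n := by
  have h3 : 3 < D.q := lt_trans (by norm_num) h.q_big
  have hq0 : (0 : ℝ) < D.q := by exact_mod_cast D.q_pos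
  have hn0 : (0 : ℝ) ≤ D.n := Nat.cast_nonneg _
  have h1 := cnt_cls h D.Res (del D.q)
  refine le_trans (cnt_mono (t := Zr D.n) ?_) (h1.trans ?_)
  · intro x hx hd
    refine ⟨hx, unD D.q x, hd, ?_⟩
    unfold unD
    rw [del_delI]
  · have h2 := h.resc
    calc (D.Res.card : ℝ) * (4 * D.n / (D.q : ℝ) ^ 2)
        ≤ (κ * (D.q : ℝ) ^ 2) * (4 * D.n / (D.q : ℝ) ^ 2) :=
          mul_le_mul_of_nonneg_right h2 (by positivity)
      _ = 4 * κ * D.n := by field_simp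

theorem JJ_card (h : D.Reg κ c) (hκ : κ ≤ 1 / 4) :
    (10 / 100 : ℝ) * D.n - 2 - 4 * κ * D.n - 10 * D.n / √(D.q : ℝ) ≤ D.JJ.card := by
  classical
  have hn : (0 : ℝ) < D.n := by exact_mod_cast h.n_pos
  have hnz : 0 < D.n := h.n_pos
  have hq0 : (0 : ℝ) < D.q := by exact_mod_cast D.q_pos
  have hsq : 0 < √(D.q : ℝ) := Real.sqrt_pos.2 hq0
  obtain ⟨I, hI⟩ : ∃ I : Finset ℤ, I = Finset.Icc ⌈(95 / 100 : ℝ) * D.n⌉ ⌊(105 / 100 : ℝ) * D.n⌋ :=
    ⟨_, rfl⟩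
  have hmem : ∀ d ∈ I, (95 / 100 : ℝ) * D.n ≤ d ∧ (d : ℝ) ≤ (105 / 100) * D.n := by
    intro d hd
    rw [hI, Finset.mem_Icc] at hd
    exact ⟨Int.ceil_le.1 hd.1, Int.le_floor.1 hd.2⟩
  have hIc : (10 / 100 : ℝ) * D.n - 1 ≤ I.card := by
    rw [hI, Int.card_Icc]
    have h1 := Int.ceil_lt_add_one ((95 / 100 : ℝ) * D.n)
    have h2 := Int.lt_floor_add_one ((105 / 100 : ℝ) * D.n)
    have h3 : ((⌊(105 / 100 : ℝ) * D.n⌋ + 1 - ⌈(95 / 100 : ℝ) * D.n⌉ : ℤ) : ℝ) ≤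
        ((⌊(105 / 100 : ℝ) * D.n⌋ + 1 - ⌈(95 / 100 : ℝ) * D.n⌉).toNat : ℝ) := by
      exact_mod_cast Int.self_le_toNat _
    refine le_trans ?_ h3
    push_cast
    linarith
  have hsub : I ⊆ D.JJ ∪ (((Zr D.n).filter (fun d : ℤ => unD D.q d ∈ D.Res)) ∪ D.Ddef) := by
    intro d hd
    obtain ⟨h1, h2⟩ := hmem d hd
    have hd1 : 1 ≤ d := by
      by_contra hcon
      have : d ≤ 0 := by omega
      have : (d : ℝ) ≤ 0 := by exact_mod_cast this
      linarith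
    have hd2 : d ≤ 2 * D.n := by
      have : (d : ℝ) ≤ 2 * D.n := by linarith
      exact_mod_cast this
    have hZ : d ∈ Zr D.n := by
      rw [mem_Zr]
      constructor
      · have : (D.n : ℝ) < 2 * (d : ℝ) := by linarith
        exact_mod_cast this
      · have : 2 * (d : ℝ) < 5 * (D.n : ℝ) := by linarith
        exact_mod_cast this
    rw [Finset.mem_union, Finset.mem_union, Finset.mem_filter]
    by_cases hR : unD D.q d ∈ D.Res
    · exact Or.inr (Or.inl ⟨hZ, hR⟩)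
    · by_cases hdd : d ∈ D.Ddef
      · exact Or.inr (Or.inr hdd)
      · left
        unfold JJ D2
        rw [Finset.mem_filter, Finset.mem_filter]
        have hp := pD_ge h hκ hR hd1
        exact ⟨⟨h.D0_mem d hd1 hd2 hR, hdd, by linarith⟩, h1, h2⟩
  have hc1 := Finset.card_le_card hsub
  have hc2 := Finset.card_union_le D.JJ
    (((Zr D.n).filter (fun d : ℤ => unD D.q d ∈ D.Res)) ∪ D.Ddef)
  have hc3 := Finset.card_union_le ((Zr D.n).filter (fun d : ℤ => unD D.q d ∈ D.Res)) D.Ddef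
  have hc4 : (I.card : ℝ) ≤ (D.JJ.card : ℝ) +
      (((Zr D.n).filter (fun d : ℤ => unD D.q d ∈ D.Res)).card : ℝ) + (D.Ddef.card : ℝ) := by
    have : I.card ≤ D.JJ.card + ((Zr D.n).filter (fun d : ℤ => unD D.q d ∈ D.Res)).card +
      D.Ddef.card := by omega
    exact_mod_cast this
  have hc5 := cnt_unD_int h
  have hc6 : (D.Ddef.card : ℝ) ≤ 10 * D.n / √(D.q : ℝ) := by
    rw [le_div_iff₀ hsq]
    exact Ddef_card h
  linarith

end Dat

/-- third part of (E4) -/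
theorem E4c_holds : ∃ κ0 : ℝ, 0 < κ0 ∧ ∃ n0 : ℕ, ∀ (D : Dat) (κ c : ℝ), κ ≤ κ0 → n0 ≤ D.n →
    D.Reg κ c → (9 / 100 : ℝ) * D.n ≤ D.JJ.card := by
  refine ⟨1 / 1000, by norm_num, (10000 ^ 2) ^ 8, ?_⟩
  intro D κ c hκ hn h
  obtain ⟨s1, s2, s3, s4⟩ := Dat.small_of 10000 (by norm_num) h hn
  have h1 := Dat.JJ_card h (by linarith)
  have hn0 : (0 : ℝ) < D.n := by exact_mod_cast h.n_pos
  have e1 : 10 * (D.n : ℝ) / √(D.q : ℝ) = 10 * D.n * (1 / √(D.q : ℝ)) := by ring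
  have h2 : 10 * (D.n : ℝ) * (1 / √(D.q : ℝ)) ≤ 10 * D.n * (1 / 10000) := by
    apply mul_le_mul_of_nonneg_left _ (by positivity)
    exact_mod_cast s3
  have h3 : (10000 : ℝ) ≤ D.n := by
    have : (10000 : ℕ) ≤ D.n := le_trans (by norm_num) hn
    exact_mod_cast this
  rw [e1] at h1
  nlinarith

end Pool.Agent.PGr
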