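import Pool.Agent.PGr.KCap
set_option autoImplicit false

/-!
Part K of project PGr: averages of the kernel over the two neighbour labels, and sums over items.
-/

open MeasureTheory intervalIntegral Set

namespace PGrK

/-- the kernel number for the (normalised, reflected for low items) neighbour labels. -/
noncomputable def cc (y1 y2 : ℝ) : ℕ := if y1 < 5 / 4 ∧ y2 < 5 / 4 then 0 else 1

theorem cc_lt (y1 y2 : ℝ) : cc y1 y2 < 2 := by unfold cc; split_ifs <;> norm_num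

/-- `del ≥ 0` for any discrepancy. -/
theorem Disc.nonneg {ι : Type*} {s : Finset ι} {pt : ι → ℝ} {w rho al be del : ℝ}
    (h : Disc s pt w rho al be del) : 0 ≤ del :=
  le_trans (abs_nonneg _) (h ∅ ordConnected_empty)

/-- the kernel along a line in normalised coordinates, restricted to `J`. -/
noncomputable def kn (p : ℕ) (a0 a1 s0 s1 : ℝ) (J : Set ℝ) (x : ℝ) : ℝ :=
  J.indicator (fun x => kern p (a0 + a1 * x) (s0 + s1 * x)) x

theorem kn_eq (p : ℕ) (a0 a1 s0 s1 : ℝ) (J : Set ℝ) (x : ℝ) :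
    kn p a0 a1 s0 s1 J x = kl p (4 * a0 - 10) (4 * a1) (4 * s0 - 2) (4 * s1) J x := by
  unfold kn kl kern
  congr 1
  funext x
  congr 1 <;> ring

theorem quad_kn {ι : Type*} (s : Finset ι) (pt : ι → ℝ) {w rho al be del : ℝ} (hab : al ≤ be)
    (hd : Disc s pt w rho al be del) {p : ℕ} (hp : p < 2) (a0 a1 s0 s1 : ℝ) {J : Set ℝ}
    (hJ : J.OrdConnected) :
    |w * (∑ i ∈ s, kn p a0 a1 s0 s1 J (pt i)) - rho * ∫ x in al..be, kn p a0 a1 s0 s1 J x|
      ≤ 250 * del := by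
  simp only [kn_eq]
  exact quad_kl s pt hab hd hp _ _ _ _ hJ

theorem kn_ii {p : ℕ} (hp : p < 2) (a0 a1 s0 s1 : ℝ) {J : Set ℝ} (hJ : J.OrdConnected)
    (a b : ℝ) : IntervalIntegrable (kn p a0 a1 s0 s1 J) volume a b := by
  apply ii_of_bdd (C := 77 / 10)
  · refine Measurable.indicator ?_ hJ.measurableSet
    exact kern_meas_comp hp (by fun_prop) (by fun_prop)
  · intro x
    unfold kn
    by_cases hx : x ∈ J
    · rw [indicator_of_mem hx]; exact kern_abs hp _ _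
    · rw [indicator_of_notMem hx]; norm_num

/-- `qk` along a line in `y` as a combination of `kn`. -/
theorem qk_kn (A t y : ℝ) : qk y A (y + t) =
    kn 0 A 0 t 1 (Iio (5/4)) y / 4 + 3 / 4 * kn 1 A 0 t 1 (Iio (5/4)) y
      + kn 1 A 0 t 1 (Ici (5/4)) y := by
  unfold qk kn
  have e1 : A + 0 * y = A := by ring
  have e2 : t + 1 * y = y + t := by ring
  by_cases hy : y < 5 / 4
  · rw [if_pos hy, indicator_of_mem (show y ∈ Iio (5/4 : ℝ) from hy),
      indicator_of_mem (show y ∈ Iio (5/4 : ℝ) from hy),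
      indicator_of_notMem (show y ∉ Ici (5/4 : ℝ) from not_le.2 hy), e1, e2]
    ring
  · rw [if_neg hy, indicator_of_notMem (show y ∉ Iio (5/4 : ℝ) from hy),
      indicator_of_notMem (show y ∉ Iio (5/4 : ℝ) from hy),
      indicator_of_mem (show y ∈ Ici (5/4 : ℝ) from not_lt.1 hy), e1, e2]
    ring

theorem qk_ii_y (A t a b : ℝ) : IntervalIntegrable (fun y => qk y A (y + t)) volume a b := by
  simp only [qk_kn]
  exact (((kn_ii (by norm_num) _ _ _ _ ordConnected_Iio a b).div_const 4).add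
    ((kn_ii (by norm_num) _ _ _ _ ordConnected_Iio a b).const_mul _)).add
    (kn_ii (by norm_num) _ _ _ _ ordConnected_Ici a b)

theorem quad_qk_y {ι : Type*} (s : Finset ι) (Y : ι → ℝ) {w del : ℝ}
    (hd : Disc s Y w 1 1 2 del) (A t : ℝ) :
    |w * (∑ i ∈ s, qk (Y i) A (Y i + t)) - ∫ y in (1:ℝ)..2, qk y A (y + t)| ≤ 500 * del := by
  have q0 := quad_kn s Y (by norm_num : (1:ℝ) ≤ 2) hd (p := 0) (by norm_num) A 0 t 1
    (J := Iio (5/4)) ordConnected_Iio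
  have q1 := quad_kn s Y (by norm_num : (1:ℝ) ≤ 2) hd (p := 1) (by norm_num) A 0 t 1
    (J := Iio (5/4)) ordConnected_Iio
  have q2 := quad_kn s Y (by norm_num : (1:ℝ) ≤ 2) hd (p := 1) (by norm_num) A 0 t 1
    (J := Ici (5/4)) ordConnected_Ici
  have i0 := kn_ii (p := 0) (by norm_num) A 0 t 1 (J := Iio (5/4)) ordConnected_Iio 1 2
  have i1 := kn_ii (p := 1) (by norm_num) A 0 t 1 (J := Iio (5/4)) ordConnected_Iio 1 2
  have i2 := kn_ii (p := 1) (by norm_num) A 0 t 1 (J := Ici (5/4)) ordConnected_Ici 1 2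
  have e1 : w * (∑ i ∈ s, qk (Y i) A (Y i + t)) =
      (w * (∑ i ∈ s, kn 0 A 0 t 1 (Iio (5/4)) (Y i))) / 4
      + 3 / 4 * (w * (∑ i ∈ s, kn 1 A 0 t 1 (Iio (5/4)) (Y i)))
      + w * (∑ i ∈ s, kn 1 A 0 t 1 (Ici (5/4)) (Y i)) := by
    simp only [qk_kn]
    rw [Finset.sum_add_distrib, Finset.sum_add_distrib, ← Finset.sum_div, ← Finset.mul_sum]
    ring
  have e2 : ∫ y in (1:ℝ)..2, qk y A (y + t) =
      (∫ y in (1:ℝ)..2, kn 0 A 0 t 1 (Iio (5/4)) y) / 4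
      + 3 / 4 * (∫ y in (1:ℝ)..2, kn 1 A 0 t 1 (Iio (5/4)) y)
      + ∫ y in (1:ℝ)..2, kn 1 A 0 t 1 (Ici (5/4)) y := by
    simp only [qk_kn]
    rw [intervalIntegral.integral_add ((i0.div_const 4).add (i1.const_mul _)) i2,
      intervalIntegral.integral_add (i0.div_const 4) (i1.const_mul _),
      intervalIntegral.integral_div, intervalIntegral.integral_const_mul]
  rw [e1, e2]
  rw [abs_le] at q0 q1 q2 ⊢
  constructor <;> linarith [q0.1, q0.2, q1.1, q1.2, q2.1, q2.2]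

/-- fraction of the points below `5/4`. -/
theorem frac_bd {ι : Type*} (s : Finset ι) (Y : ι → ℝ) {w del : ℝ}
    (hd : Disc s Y w 1 1 2 del) :
    |w * (∑ i ∈ s, (Iio (5/4 : ℝ)).indicator (fun _ => (1 : ℝ)) (Y i)) - 1 / 4| ≤ del := by
  have h := hd (Iio (5/4)) ordConnected_Iio
  have e : volume.real (Iio (5/4 : ℝ) ∩ Icc 1 2) = 1 / 4 := by
    have : Iio (5/4 : ℝ) ∩ Icc 1 2 = Ico 1 (5/4) := by
      ext x
      simp only [mem_inter_iff, mem_Iio, mem_Icc, mem_Ico]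
      constructor
      · rintro ⟨h1, h2, _⟩; exact ⟨h2, h1⟩
      · rintro ⟨h1, h2⟩; exact ⟨h2, h1, by linarith⟩
    rw [this]
    simp only [Measure.real, Real.volume_Ico]
    rw [ENNReal.toReal_ofReal (by norm_num)]
    norm_num
  rw [e, one_mul] at h
  exact h

/-- the double average of the kernel at a point which does not depend on the second label. -/
theorem cc_sum {Θ : Type*} [Fintype Θ] (y1 : ℝ) (Y2 : Θ → ℝ) {w : ℝ}
    (hw : w * (Fintype.card Θ : ℝ) = 1) (A X : ℝ) :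
    w * (∑ b, kern (cc y1 (Y2 b)) A X) =
      kern 1 A X + (Iio (5/4 : ℝ)).indicator (fun _ => (1 : ℝ)) y1
        * (w * (∑ b, (Iio (5/4 : ℝ)).indicator (fun _ => (1 : ℝ)) (Y2 b)))
          * (kern 0 A X - kern 1 A X) := by
  have h : ∀ b, kern (cc y1 (Y2 b)) A X = kern 1 A X
      + (Iio (5/4 : ℝ)).indicator (fun _ => (1 : ℝ)) y1
        * (Iio (5/4 : ℝ)).indicator (fun _ => (1 : ℝ)) (Y2 b) * (kern 0 A X - kern 1 A X) := by
    intro b
    unfold cc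
    by_cases h1 : y1 < 5 / 4
    · rw [indicator_of_mem (show y1 ∈ Iio (5/4 : ℝ) from h1)]
      by_cases h2 : Y2 b < 5 / 4
      · rw [indicator_of_mem (show Y2 b ∈ Iio (5/4 : ℝ) from h2), if_pos ⟨h1, h2⟩]; ring
      · rw [indicator_of_notMem (show Y2 b ∉ Iio (5/4 : ℝ) from h2),
          if_neg (fun h => h2 h.2)]; ring
    · rw [indicator_of_notMem (show y1 ∉ Iio (5/4 : ℝ) from h1), if_neg (fun h => h1 h.1)]; ring
  simp only [h]
  rw [Finset.sum_add_distrib, ← Finset.sum_mul, ← Finset.mul_sum]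
  simp only [Finset.sum_const, Finset.card_univ, nsmul_eq_mul]
  linear_combination (kern 1 A X) * hw

theorem ind_bd (J : Set ℝ) (y : ℝ) :
    0 ≤ J.indicator (fun _ => (1 : ℝ)) y ∧ J.indicator (fun _ => (1 : ℝ)) y ≤ 1 := by
  by_cases h : y ∈ J
  · rw [indicator_of_mem h]; norm_num
  · rw [indicator_of_notMem h]; norm_num

theorem kern_diff (A X : ℝ) : |kern 0 A X - kern 1 A X| ≤ 77 / 10 := by
  have h0 := kern_bd (p := 0) (by norm_num) A X
  have h1 := kern_bd (p := 1) (by norm_num) A X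
  rw [abs_le]; constructor <;> linarith [h0.1, h0.2, h1.1, h1.2]

/-- role of the anchor: double average at a fixed label `X`. -/
theorem avg_const {Θ : Type*} [Fintype Θ] (Y1 Y2 : Θ → ℝ) {w del : ℝ} (hw0 : 0 ≤ w)
    (hw : w * (Fintype.card Θ : ℝ) = 1) (h1 : Disc Finset.univ Y1 w 1 1 2 del)
    (h2 : Disc Finset.univ Y2 w 1 1 2 del) (A X : ℝ) :
    |w * (∑ a, w * (∑ b, kern (cc (Y1 a) (Y2 b)) A X)) - pbar A X| ≤ 10 * del := by
  have f1 := frac_bd _ _ h1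
  have f2 := frac_bd _ _ h2
  set p1 := w * (∑ i, (Iio (5/4 : ℝ)).indicator (fun _ => (1 : ℝ)) (Y1 i)) with hp1
  set p2 := w * (∑ i, (Iio (5/4 : ℝ)).indicator (fun _ => (1 : ℝ)) (Y2 i)) with hp2
  have e : w * (∑ a, w * (∑ b, kern (cc (Y1 a) (Y2 b)) A X)) =
      kern 1 A X + p1 * p2 * (kern 0 A X - kern 1 A X) := by
    simp only [cc_sum _ Y2 hw A X]
    rw [Finset.sum_add_distrib, ← Finset.sum_mul, ← Finset.sum_mul]
    simp only [Finset.sum_const, Finset.card_univ, nsmul_eq_mul]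
    rw [← hp2]
    have : w * ((Fintype.card Θ : ℝ) * kern 1 A X) = kern 1 A X := by
      rw [← mul_assoc, hw, one_mul]
    rw [mul_add, this]
    rw [hp1]; ring
  have hp2b : 0 ≤ p2 ∧ p2 ≤ 1 := by
    constructor
    · exact mul_nonneg hw0 (Finset.sum_nonneg (fun i _ => (ind_bd _ _).1))
    · rw [← hw, hp2]
      apply mul_le_mul_of_nonneg_left _ hw0
      calc (∑ i, (Iio (5/4 : ℝ)).indicator (fun _ => (1 : ℝ)) (Y2 i)) ≤ ∑ _i : Θ, (1 : ℝ) :=
            Finset.sum_le_sum (fun i _ => (ind_bd _ _).2)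
        _ = (Fintype.card Θ : ℝ) := by simp
  have e2 : kern 1 A X + p1 * p2 * (kern 0 A X - kern 1 A X) - pbar A X
      = ((p1 - 1 / 4) * p2 + 1 / 4 * (p2 - 1 / 4)) * (kern 0 A X - kern 1 A X) := by
    unfold pbar; ring
  rw [e, e2, abs_mul]
  have h3 : |(p1 - 1 / 4) * p2 + 1 / 4 * (p2 - 1 / 4)| ≤ del + 1 / 4 * del := by
    refine le_trans (abs_add_le _ _) ?_
    rw [abs_mul (p1 - 1 / 4) p2, abs_mul (1 / 4 : ℝ) (p2 - 1 / 4), abs_of_nonneg hp2b.1,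
      abs_of_nonneg (by norm_num : (0:ℝ) ≤ 1/4)]
    have : |p1 - 1 / 4| * p2 ≤ del * 1 :=
      mul_le_mul f1 hp2b.2 hp2b.1 h1.nonneg
    linarith
  have h4 := kern_diff A X
  calc |(p1 - 1 / 4) * p2 + 1 / 4 * (p2 - 1 / 4)| * |kern 0 A X - kern 1 A X|
      ≤ (del + 1 / 4 * del) * (77 / 10) :=
        mul_le_mul h3 h4 (abs_nonneg _) (by linarith [h1.nonneg])
    _ ≤ 10 * del := by linarith [h1.nonneg]

/-- role of the first neighbour: double average at the label `y1 + t`. -/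
theorem avg_nb {Θ : Type*} [Fintype Θ] (Y1 Y2 : Θ → ℝ) {w del : ℝ} (hw0 : 0 ≤ w)
    (hw : w * (Fintype.card Θ : ℝ) = 1) (h1 : Disc Finset.univ Y1 w 1 1 2 del)
    (h2 : Disc Finset.univ Y2 w 1 1 2 del) (A t : ℝ) :
    |w * (∑ a, w * (∑ b, kern (cc (Y1 a) (Y2 b)) A (Y1 a + t)))
      - ∫ y in (1:ℝ)..2, qk y A (y + t)| ≤ 510 * del := by
  have f2 := frac_bd _ _ h2
  set p2 := w * (∑ i, (Iio (5/4 : ℝ)).indicator (fun _ => (1 : ℝ)) (Y2 i)) with hp2
  have q := quad_qk_y _ _ h1 A t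
  have e : ∀ a, w * (∑ b, kern (cc (Y1 a) (Y2 b)) A (Y1 a + t)) - qk (Y1 a) A (Y1 a + t)
      = (Iio (5/4 : ℝ)).indicator (fun _ => (1 : ℝ)) (Y1 a) * (p2 - 1 / 4)
        * (kern 0 A (Y1 a + t) - kern 1 A (Y1 a + t)) := by
    intro a
    rw [cc_sum _ Y2 hw A (Y1 a + t), ← hp2]
    unfold qk
    by_cases h : Y1 a < 5 / 4
    · rw [if_pos h, indicator_of_mem (show Y1 a ∈ Iio (5/4 : ℝ) from h)]; ring
    · rw [if_neg h, indicator_of_notMem (show Y1 a ∉ Iio (5/4 : ℝ) from h)]; ring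
  have hb : |w * (∑ a, w * (∑ b, kern (cc (Y1 a) (Y2 b)) A (Y1 a + t)))
      - w * (∑ a, qk (Y1 a) A (Y1 a + t))| ≤ 8 * del := by
    rw [← mul_sub, ← Finset.sum_sub_distrib]
    simp only [e]
    rw [abs_mul, abs_of_nonneg hw0]
    have hs : |∑ a, (Iio (5/4 : ℝ)).indicator (fun _ => (1 : ℝ)) (Y1 a) * (p2 - 1 / 4)
        * (kern 0 A (Y1 a + t) - kern 1 A (Y1 a + t))| ≤ ∑ _a : Θ, (8 * del) := by
      refine le_trans (Finset.abs_sum_le_sum_abs _ _) ?_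
      apply Finset.sum_le_sum
      intro a _
      rw [abs_mul, abs_mul, abs_of_nonneg (ind_bd _ _).1]
      have h3 : (Iio (5/4 : ℝ)).indicator (fun _ => (1 : ℝ)) (Y1 a) * |p2 - 1 / 4| ≤ 1 * del :=
        mul_le_mul (ind_bd _ _).2 f2 (abs_nonneg _) (by norm_num)
      have h4 := kern_diff A (Y1 a + t)
      calc _ ≤ (1 * del) * (77 / 10) :=
            mul_le_mul h3 h4 (abs_nonneg _) (by linarith [h1.nonneg])
        _ ≤ 8 * del := by linarith [h1.nonneg]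
    calc w * _ ≤ w * ∑ _a : Θ, (8 * del) := mul_le_mul_of_nonneg_left hs hw0
      _ = (w * (Fintype.card Θ : ℝ)) * (8 * del) := by
          simp only [Finset.sum_const, Finset.card_univ, nsmul_eq_mul]; ring
      _ = 8 * del := by rw [hw, one_mul]
  rw [abs_le] at q hb ⊢
  constructor <;> linarith [q.1, q.2, hb.1, hb.2, h1.nonneg]

theorem cc_comm (y1 y2 : ℝ) : cc y1 y2 = cc y2 y1 := by
  unfold cc
  by_cases h : y1 < 5 / 4 ∧ y2 < 5 / 4
  · rw [if_pos h, if_pos ⟨h.2, h.1⟩]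
  · rw [if_neg h, if_neg (fun h' => h ⟨h'.2, h'.1⟩)]

/-- role of the second neighbour. -/
theorem avg_nb2 {Θ : Type*} [Fintype Θ] (Y1 Y2 : Θ → ℝ) {w del : ℝ} (hw0 : 0 ≤ w)
    (hw : w * (Fintype.card Θ : ℝ) = 1) (h1 : Disc Finset.univ Y1 w 1 1 2 del)
    (h2 : Disc Finset.univ Y2 w 1 1 2 del) (A t : ℝ) :
    |w * (∑ a, w * (∑ b, kern (cc (Y1 a) (Y2 b)) A (Y2 b + t)))
      - ∫ y in (1:ℝ)..2, qk y A (y + t)| ≤ 510 * del := by
  have h := avg_nb Y2 Y1 hw0 hw h2 h1 A t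
  have e : w * (∑ a, w * (∑ b, kern (cc (Y1 a) (Y2 b)) A (Y2 b + t)))
      = w * (∑ b, w * (∑ a, kern (cc (Y2 b) (Y1 a)) A (Y2 b + t))) := by
    simp only [← Finset.mul_sum]
    rw [Finset.sum_comm]
    simp only [cc_comm]
  rw [e]
  exact h

/-- the five roles of an item with a difference `t`. -/
noncomputable def roles (A y1 y2 t : ℝ) : ℝ :=
  kern (cc y1 y2) A (A - t) + (kern (cc y1 y2) A (y1 + t) + kern (cc y1 y2) A (y1 - t))
    + (kern (cc y1 y2) A (y2 + t) + kern (cc y1 y2) A (y2 - t))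

/-- the limit of the double average of `roles`. -/
noncomputable def rl (A t : ℝ) : ℝ :=
  pbar A (A - t) + 2 * ∫ y in (1:ℝ)..2, (qk y A (y + t) + qk y A (y - t))

theorem avg_roles {Θ : Type*} [Fintype Θ] (Y1 Y2 : Θ → ℝ) {w del : ℝ} (hw0 : 0 ≤ w)
    (hw : w * (Fintype.card Θ : ℝ) = 1) (h1 : Disc Finset.univ Y1 w 1 1 2 del)
    (h2 : Disc Finset.univ Y2 w 1 1 2 del) (A t : ℝ) :
    |w * (∑ a, w * (∑ b, roles A (Y1 a) (Y2 b) t)) - rl A t| ≤ 2050 * del := by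
  have a0 := avg_const Y1 Y2 hw0 hw h1 h2 A (A - t)
  have a1 := avg_nb Y1 Y2 hw0 hw h1 h2 A t
  have a2 := avg_nb Y1 Y2 hw0 hw h1 h2 A (-t)
  have a3 := avg_nb2 Y1 Y2 hw0 hw h1 h2 A t
  have a4 := avg_nb2 Y1 Y2 hw0 hw h1 h2 A (-t)
  have e : w * (∑ a, w * (∑ b, roles A (Y1 a) (Y2 b) t)) =
      w * (∑ a, w * (∑ b, kern (cc (Y1 a) (Y2 b)) A (A - t)))
      + (w * (∑ a, w * (∑ b, kern (cc (Y1 a) (Y2 b)) A (Y1 a + t)))
        + w * (∑ a, w * (∑ b, kern (cc (Y1 a) (Y2 b)) A (Y1 a + -t))))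
      + (w * (∑ a, w * (∑ b, kern (cc (Y1 a) (Y2 b)) A (Y2 b + t)))
        + w * (∑ a, w * (∑ b, kern (cc (Y1 a) (Y2 b)) A (Y2 b + -t)))) := by
    unfold roles
    simp only [Finset.sum_add_distrib, mul_add, ← sub_eq_add_neg]
  have e2 : rl A t = pbar A (A - t) + 2 * ((∫ y in (1:ℝ)..2, qk y A (y + t))
      + ∫ y in (1:ℝ)..2, qk y A (y + -t)) := by
    unfold rl
    rw [← intervalIntegral.integral_add (qk_ii_y A t 1 2) (qk_ii_y A (-t) 1 2)]
    rfl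
  rw [e, e2]
  rw [abs_le] at a0 a1 a2 a3 a4 ⊢
  constructor <;>
    linarith [a0.1, a0.2, a1.1, a1.2, a2.1, a2.2, a3.1, a3.2, a4.1, a4.2, h1.nonneg]

end PGrK
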