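import Pool.Agent.PGr.KMain
set_option autoImplicit false

/-!
Part K of project PGr: identity (K3), the capacity of the labels.
-/

open MeasureTheory intervalIntegral Set

namespace PGrK

/-- fraction of the free labels. -/
noncomputable def phi (X : ℝ) : ℝ := if 1 ≤ X ∧ X ≤ 2 then 1 / 2 else 1

theorem cap_mesh : ∀ z : ℕ, z < 9 →
    10 * (I0z 0 z + 15 * I0z 1 z + I0z 0 (8 - z) + 15 * I0z 1 (8 - z))
      ≤ (if 2 ≤ z ∧ z ≤ 6 then 768 else 1536) * 797832264000 := by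
  decide +kernel

theorem cap_cell : ∀ z : ℕ, z < 8 →
    10 * (I0z 0 z + 15 * I0z 1 z + I1z 0 (7 - z) + 15 * I1z 1 (7 - z))
      ≤ (if 2 ≤ z ∧ z ≤ 5 then 768 else 1536) * 797832264000 ∧
    10 * (I1z 0 z + 15 * I1z 1 z + I0z 0 (7 - z) + 15 * I0z 1 (7 - z))
      ≤ (if 2 ≤ z ∧ z ≤ 5 then 768 else 1536) * 797832264000 := by
  decide +kernel

theorem pbar_horiz (X : ℝ) : ∫ A in (5/2:ℝ)..3, pbar A X =
    (1 / 64) * (io 0 (4 * X - 2) + 15 * io 1 (4 * X - 2)) := by
  have hk : ∀ (p : ℕ) (_ : p < 2),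
      IntervalIntegrable (fun A => kern p A X) volume (5/2) 3 :=
    fun p hp => kern_ii hp measurable_id measurable_const _ _
  unfold pbar
  rw [intervalIntegral.integral_add ((hk 0 (by norm_num)).div_const 16)
    ((hk 1 (by norm_num)).const_mul _), intervalIntegral.integral_div,
    intervalIntegral.integral_const_mul, horiz_scale, horiz_scale]
  ring

theorem cap_s {s : ℝ} (h0 : 0 ≤ s) (h8 : s ≤ 8) :
    io 0 s + 15 * io 1 s + io 0 (8 - s) + 15 * io 1 (8 - s)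
      ≤ (if 2 ≤ s ∧ s ≤ 6 then 384 / 10 else 768 / 10) := by
  have hz9 : ⌊s⌋₊ < 9 := by
    apply (Nat.floor_lt' (by norm_num)).2
    push_cast; linarith
  have hz1 := Nat.floor_le h0
  have hz2 := Nat.lt_floor_add_one s
  obtain ⟨z, hz⟩ : ∃ z : ℕ, z = ⌊s⌋₊ := ⟨_, rfl⟩
  rw [← hz] at hz9 hz1 hz2
  by_cases hs : s = (z : ℝ)
  · have h1 : ∀ p, p < 2 → io p s = iotz p z 0 := by
      intro p hp
      rw [io_cell hp (z : ℤ) (by exact_mod_cast hz1) (by exact_mod_cast hz2)]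
      congr 1
      rw [hs]; push_cast; ring
    have h2 : ∀ p, p < 2 → io p (8 - s) = iotz p (8 - z) 0 := by
      intro p hp
      rw [io_cell hp ((8 : ℤ) - z) (by rw [hs]; push_cast; linarith)
        (by rw [hs]; push_cast; linarith)]
      congr 1
      rw [hs]; push_cast; ring
    rw [h1 0 (by norm_num), h1 1 (by norm_num), h2 0 (by norm_num), h2 1 (by norm_num)]
    have hc := cap_mesh z hz9
    have hc' : (10 : ℝ) * ((I0z 0 z : ℝ) + 15 * (I0z 1 z : ℝ) + (I0z 0 (8 - z) : ℝ)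
        + 15 * (I0z 1 (8 - z) : ℝ))
        ≤ (((if 2 ≤ z ∧ z ≤ 6 then 768 else 1536 : ℤ)) : ℝ) * 797832264000 := by
      exact_mod_cast hc
    unfold iotz
    by_cases hm : 2 ≤ z ∧ z ≤ 6
    · have h26 : 2 ≤ s ∧ s ≤ 6 := by
        rw [hs]; exact ⟨by exact_mod_cast hm.1, by exact_mod_cast hm.2⟩
      rw [if_pos hm] at hc'
      rw [if_pos h26]
      push_cast at hc'
      linarith
    · have h26 : ¬ (2 ≤ s ∧ s ≤ 6) := by
        rw [hs]; rintro ⟨ha, hb⟩; exact hm ⟨by exact_mod_cast ha, by exact_mod_cast hb⟩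
      rw [if_neg hm] at hc'
      rw [if_neg h26]
      push_cast at hc'
      linarith
  · have hlt : (z : ℝ) < s := lt_of_le_of_ne hz1 (Ne.symm hs)
    have hz8 : z < 8 := by
      have : (z : ℝ) < 8 := lt_of_lt_of_le hlt h8
      exact_mod_cast this
    obtain ⟨v, hv⟩ : ∃ v : ℝ, v = s - z := ⟨_, rfl⟩
    have hv0 : 0 ≤ v := by rw [hv]; linarith
    have hv1 : v ≤ 1 := by rw [hv]; linarith
    have h1 : ∀ p, p < 2 → io p s = iotz p z v := by
      intro p hp
      rw [io_cell hp (z : ℤ) (by exact_mod_cast hz1) (by exact_mod_cast hz2)]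
      congr 1
      rw [hv]; push_cast; ring
    have h2 : ∀ p, p < 2 → io p (8 - s) = iotz p (7 - z) (1 - v) := by
      intro p hp
      rw [io_cell hp ((7 : ℤ) - z) (by push_cast; linarith) (by push_cast; linarith)]
      congr 1
      rw [hv]; push_cast; ring
    rw [h1 0 (by norm_num), h1 1 (by norm_num), h2 0 (by norm_num), h2 1 (by norm_num)]
    obtain ⟨hc, hd⟩ := cap_cell z hz8
    have hc' : (10 : ℝ) * ((I0z 0 z : ℝ) + 15 * (I0z 1 z : ℝ) + (I1z 0 (7 - z) : ℝ)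
        + 15 * (I1z 1 (7 - z) : ℝ))
        ≤ (((if 2 ≤ z ∧ z ≤ 5 then 768 else 1536 : ℤ)) : ℝ) * 797832264000 := by
      exact_mod_cast hc
    have hd' : (10 : ℝ) * ((I1z 0 z : ℝ) + 15 * (I1z 1 z : ℝ) + (I0z 0 (7 - z) : ℝ)
        + 15 * (I0z 1 (7 - z) : ℝ))
        ≤ (((if 2 ≤ z ∧ z ≤ 5 then 768 else 1536 : ℤ)) : ℝ) * 797832264000 := by
      exact_mod_cast hd
    have hkey : ∀ K : ℝ, (10 : ℝ) * ((I0z 0 z : ℝ) + 15 * (I0z 1 z : ℝ) + (I1z 0 (7 - z) : ℝ)
        + 15 * (I1z 1 (7 - z) : ℝ)) ≤ K → (10 : ℝ) * ((I1z 0 z : ℝ) + 15 * (I1z 1 z : ℝ)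
        + (I0z 0 (7 - z) : ℝ) + 15 * (I0z 1 (7 - z) : ℝ)) ≤ K →
        iotz 0 z v + 15 * iotz 1 z v + iotz 0 (7 - z) (1 - v) + 15 * iotz 1 (7 - z) (1 - v)
          ≤ K / (20 * 797832264000) := by
      intro K hK1 hK2
      have h3 := mul_le_mul_of_nonneg_right hK1 (sub_nonneg.2 hv1)
      have h4 := mul_le_mul_of_nonneg_right hK2 hv0
      unfold iotz
      rw [le_div_iff₀ (by norm_num)]
      have e : K * (1 - v) + K * v = K := by ring
      refine le_trans (le_of_eq ?_) (le_trans (add_le_add h3 h4) (le_of_eq e))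
      field_simp
      ring
    by_cases hm : 2 ≤ z ∧ z ≤ 5
    · have h26 : 2 ≤ s ∧ s ≤ 6 := by
        have h2 : (2:ℝ) ≤ z := by exact_mod_cast hm.1
        have h5 : (z:ℝ) ≤ 5 := by exact_mod_cast hm.2
        exact ⟨by linarith, by linarith⟩
      rw [if_pos hm] at hc' hd'
      rw [if_pos h26]
      refine le_trans (hkey _ hc' hd') ?_
      push_cast
      norm_num
    · have h26 : ¬ (2 ≤ s ∧ s ≤ 6) := by
        rintro ⟨ha, hb⟩
        apply hm
        constructor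
        · by_contra hcon
          have : z + 1 ≤ 2 := by omega
          have : (z : ℝ) + 1 ≤ 2 := by exact_mod_cast this
          linarith
        · by_contra hcon
          have : 6 ≤ z := by omega
          have : (6 : ℝ) ≤ z := by exact_mod_cast this
          linarith
      rw [if_neg hm] at hc' hd'
      rw [if_neg h26]
      refine le_trans (hkey _ hc' hd') ?_
      push_cast
      norm_num

/-- inequality (K3). -/
theorem K3 {X : ℝ} (h0 : 1 / 2 ≤ X) (h2 : X ≤ 5 / 2) :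
    ((∫ A in (5/2:ℝ)..3, pbar A X) + ∫ A in (5/2:ℝ)..3, pbar A (3 - X)) / 2
      ≤ 6 / 10 * phi X := by
  rw [pbar_horiz, pbar_horiz]
  have h := cap_s (s := 4 * X - 2) (by linarith) (by linarith)
  have e : 4 * (3 - X) - 2 = 8 - (4 * X - 2) := by ring
  rw [e]
  unfold phi
  by_cases hX : 1 ≤ X ∧ X ≤ 2
  · rw [if_pos hX]
    rw [if_pos ⟨by linarith [hX.1], by linarith [hX.2]⟩] at h
    linarith
  · rw [if_neg hX]
    rw [if_neg (by rintro ⟨ha, hb⟩; exact hX ⟨by linarith, by linarith⟩)] at h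
    linarith

end PGrK
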