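import Pool.Agent.PGr.KBase
set_option autoImplicit false

/-!
Part K of project PGr: the three line integrals of the kernel in mesh coordinates.
-/

open MeasureTheory intervalIntegral Set

namespace PGrK

/-! ### vertical lines: identity (K1) -/

/-- contribution of one cell to the vertical line integral at `u`. -/
noncomputable def vcell (p c x : ℕ) (u : ℝ) : ℝ :=
  u * Lw p c x u (u / 2) + (1 - u) * Up p c x u ((u + 1) / 2)

theorem HI_vcell {p x : ℕ} (hx : x < 8) {a : ℝ} (ha0 : 0 ≤ a) (ha2 : a ≤ 2) :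
    HI (fun s => ker p a s) (x : ℝ) ((x : ℝ) + 1) (vcell p (col a) x (a - (col a : ℝ))) := by
  set u := a - (col a : ℝ) with hu
  have hb := col_bd ha0 ha2
  have h1 : HI (fun s => ker p a s) (x : ℝ) ((x : ℝ) + u)
      (((x : ℝ) + u - x) * Lw p (col a) x u (((x : ℝ) + ((x : ℝ) + u)) / 2 - x)) := by
    refine HI.of_affine (by linarith [hb.1]) (fun s => Lw p (col a) x u (s - x))
      (- T p (col a) x 1 + T p (col a) x 2)
      (T p (col a) x 0 * (1 - u) + T p (col a) x 1 * (u + x) - T p (col a) x 2 * x) ?_ ?_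
    · intro s; unfold Lw; ring
    · intro s hs
      rw [ker_cell hx ha0 ha2 hs.1.le (by linarith [hs.2, hb.2])]
      unfold cellv
      rw [if_pos (by linarith [hs.2])]
  have h2 : HI (fun s => ker p a s) ((x : ℝ) + u) ((x : ℝ) + 1)
      (((x : ℝ) + 1 - (x + u)) * Up p (col a) x u ((((x : ℝ) + u) + ((x : ℝ) + 1)) / 2 - x)) := by
    refine HI.of_affine (by linarith [hb.2]) (fun s => Up p (col a) x u (s - x))
      (- T p (col a) x 3 + T p (col a) x 4)
      (T p (col a) x 3 * (1 + x) - T p (col a) x 4 * (u + x) + T p (col a) x 5 * u) ?_ ?_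
    · intro s; unfold Up; ring
    · intro s hs
      rw [ker_cell hx ha0 ha2 (by linarith [hs.1, hb.1]) hs.2]
      unfold cellv
      rw [if_neg (by linarith [hs.1])]
  refine (h1.trans h2).of_eq ?_
  unfold vcell
  congr 1
  · congr 1
    · ring
    · congr 1; ring
  · congr 1
    · ring
    · congr 1; ring

theorem vcell_eq (p c x : ℕ) (u : ℝ) : vcell p c x u =
    ((N p c x 3 + N p c x 4 : ℤ) : ℝ) / (2 * 797832264000)
    + ((N p c x 0 - N p c x 3 - N p c x 4 + N p c x 5 : ℤ) : ℝ) / 797832264000 * u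
    + ((-2 * N p c x 0 + N p c x 1 + N p c x 2 + N p c x 3 + N p c x 4 - 2 * N p c x 5 : ℤ) : ℝ)
        / (2 * 797832264000) * u ^ 2 := by
  unfold vcell Lw Up T
  push_cast
  ring

theorem vert_facts : ∀ p < 2, ∀ c < 2,
    (∑ x ∈ Finset.range 8, (N p c x 3 + N p c x 4)) = 8 * 797832264000 ∧
    (∑ x ∈ Finset.range 8, (N p c x 0 - N p c x 3 - N p c x 4 + N p c x 5)) = 0 ∧
    (∑ x ∈ Finset.range 8, (-2 * N p c x 0 + N p c x 1 + N p c x 2 + N p c x 3 + N p c x 4
      - 2 * N p c x 5)) = 0 := by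
  decide +kernel

theorem HI_vert {p : ℕ} (hp : p < 2) {a : ℝ} (ha0 : 0 ≤ a) (ha2 : a ≤ 2) :
    HI (fun s => ker p a s) 0 8 4 := by
  have h := HI.sum_cells (fun x => vcell p (col a) x (a - (col a : ℝ))) 8
    (fun x hx => HI_vcell (p := p) hx ha0 ha2)
  have h8 : ((8 : ℕ) : ℝ) = 8 := by norm_num
  rw [h8] at h
  refine h.of_eq ?_
  simp only [vcell_eq]
  rw [Finset.sum_add_distrib, Finset.sum_add_distrib, ← Finset.sum_mul, ← Finset.sum_mul,
    ← Finset.sum_div, ← Finset.sum_div, ← Finset.sum_div, ← Int.cast_sum, ← Int.cast_sum,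
    ← Int.cast_sum]
  obtain ⟨h1, h2, h3⟩ := vert_facts p hp (col a) (col_lt a)
  rw [h1, h2, h3]
  norm_num

/-! ### horizontal lines: `iota` -/

/-- twice the left value of the horizontal integral in the cell `x` (times `den`). -/
def I0 (p x : ℕ) : ℤ := ∑ c ∈ Finset.range 2, (N p c x 0 + N p c x 1)
/-- twice the right value of the horizontal integral in the cell `x` (times `den`). -/
def I1 (p x : ℕ) : ℤ := ∑ c ∈ Finset.range 2, (N p c x 4 + N p c x 5)

theorem horiz_facts : ∀ p < 2, ∀ x < 8,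
    2 * (∑ c ∈ Finset.range 2, (N p c x 2 + N p c x 3)) = I0 p x + I1 p x := by
  decide +kernel

/-- contribution of one cell to the horizontal line integral at `v`. -/
noncomputable def hcell (p c x : ℕ) (v : ℝ) : ℝ :=
  v * Up p c x (v / 2) v + (1 - v) * Lw p c x ((v + 1) / 2) v

theorem HI_hcell {p c x : ℕ} (hc : c < 2) (hx : x < 8) {s : ℝ} (hs : (x : ℝ) ≤ s)
    (hs' : s < (x : ℝ) + 1) :
    HI (fun a => ker p a s) (c : ℝ) ((c : ℝ) + 1) (hcell p c x (s - (x : ℝ))) := by
  set v := s - (x : ℝ) with hv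
  have hv0 : 0 ≤ v := by linarith
  have hv1 : v < 1 := by linarith
  have h1 : HI (fun a => ker p a s) (c : ℝ) ((c : ℝ) + v)
      (((c : ℝ) + v - c) * Up p c x (((c : ℝ) + ((c : ℝ) + v)) / 2 - c) v) := by
    refine HI.of_affine (by linarith) (fun a => Up p c x (a - c) v)
      (- T p c x 4 + T p c x 5)
      (T p c x 3 * (1 - v) + T p c x 4 * (v + c) - T p c x 5 * c) ?_ ?_
    · intro a; unfold Up; ring
    · intro a ha
      rw [ker_cell' hc hx ⟨ha.1, by linarith [ha.2]⟩ hs hs']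
      unfold cellv
      rw [if_neg (by linarith [ha.2])]
  have h2 : HI (fun a => ker p a s) ((c : ℝ) + v) ((c : ℝ) + 1)
      (((c : ℝ) + 1 - (c + v)) * Lw p c x ((((c : ℝ) + v) + ((c : ℝ) + 1)) / 2 - c) v) := by
    refine HI.of_affine (by linarith) (fun a => Lw p c x (a - c) v)
      (- T p c x 0 + T p c x 1)
      (T p c x 0 * (1 + c) - T p c x 1 * (c + v) + T p c x 2 * v) ?_ ?_
    · intro a; unfold Lw; ring
    · intro a ha
      rw [ker_cell' hc hx ⟨by linarith [ha.1], ha.2⟩ hs hs']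
      unfold cellv
      rw [if_pos (by linarith [ha.1])]
  refine (h1.trans h2).of_eq ?_
  unfold hcell
  congr 1
  · congr 1
    · ring
    · congr 1; ring
  · congr 1
    · ring
    · congr 1; ring

theorem hcell_eq (p c x : ℕ) (v : ℝ) : hcell p c x v =
    ((N p c x 0 + N p c x 1 : ℤ) : ℝ) / (2 * 797832264000) * (1 - v) ^ 2
    + ((N p c x 2 + N p c x 3 : ℤ) : ℝ) / 797832264000 * (v * (1 - v))
    + ((N p c x 4 + N p c x 5 : ℤ) : ℝ) / (2 * 797832264000) * v ^ 2 := by
  unfold hcell Lw Up T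
  push_cast
  ring

/-- the horizontal integral as a function of `s` in the cell `x`. -/
noncomputable def iot (p x : ℕ) (v : ℝ) : ℝ :=
  ((I0 p x : ℤ) : ℝ) / (2 * 797832264000) * (1 - v) + ((I1 p x : ℤ) : ℝ) / (2 * 797832264000) * v

theorem HI_horiz {p x : ℕ} (hp : p < 2) (hx : x < 8) {s : ℝ} (hs : (x : ℝ) ≤ s)
    (hs' : s < (x : ℝ) + 1) :
    HI (fun a => ker p a s) 0 2 (iot p x (s - (x : ℝ))) := by
  have h := HI.sum_cells (fun c => hcell p c x (s - (x : ℝ))) 2
    (fun c hc => HI_hcell (p := p) hc hx hs hs')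
  have h2 : ((2 : ℕ) : ℝ) = 2 := by norm_num
  rw [h2] at h
  refine h.of_eq ?_
  simp only [hcell_eq]
  rw [Finset.sum_add_distrib, Finset.sum_add_distrib, ← Finset.sum_mul, ← Finset.sum_mul,
    ← Finset.sum_mul,
    ← Finset.sum_div, ← Finset.sum_div, ← Finset.sum_div, ← Int.cast_sum, ← Int.cast_sum,
    ← Int.cast_sum]
  have h3 := horiz_facts p hp x hx
  have h4 : (2 : ℝ) * ((∑ c ∈ Finset.range 2, (N p c x 2 + N p c x 3) : ℤ) : ℝ)
      = (I0 p x : ℝ) + (I1 p x : ℝ) := by exact_mod_cast h3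
  have h5 : ((∑ c ∈ Finset.range 2, (N p c x 2 + N p c x 3) : ℤ) : ℝ)
      = ((I0 p x : ℝ) + (I1 p x : ℝ)) / 2 := by linarith
  rw [h5]
  unfold iot
  change ((I0 p x : ℤ) : ℝ) / (2 * 797832264000) * _ + _ + ((I1 p x : ℤ) : ℝ) / _ * _ = _
  ring

/-! ### diagonal lines -/

/-- contribution of the column `c` to the diagonal `s = a + 8 - k - d`. -/
noncomputable def dcell (p k c : ℕ) (d : ℝ) : ℝ :=
  d * (if c ≤ k then Up p c (7 + c - k) (d / 2) (1 - d / 2) else 0)
  + (1 - d) * (if c < k then Lw p c (8 + c - k) ((1 + d) / 2) ((1 - d) / 2) else 0)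

theorem HI_dcell {p k c : ℕ} (hk : k < 8) (hc : c < 2) {d : ℝ} (hd0 : 0 ≤ d) (hd1 : d ≤ 1)
    (hdk : 0 < d ∨ k = 0) :
    HI (fun a => ker p a (a + 8 - ((k : ℝ) + d))) (c : ℝ) ((c : ℝ) + 1) (dcell p k c d) := by
  have h1 : HI (fun a => ker p a (a + 8 - ((k : ℝ) + d))) (c : ℝ) ((c : ℝ) + d)
      (d * (if c ≤ k then Up p c (7 + c - k) (d / 2) (1 - d / 2) else 0)) := by
    by_cases hck : c ≤ k
    · rw [if_pos hck]
      have hx : 7 + c - k < 8 := by omega
      have hxr : ((7 + c - k : ℕ) : ℝ) = 7 + c - k := by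
        rw [Nat.cast_sub (by omega)]; push_cast; ring
      refine HI.of_eq (HI.of_affine (by linarith)
        (fun a => Up p c (7 + c - k) (a - c) (a - c + 1 - d))
        (- T p c (7 + c - k) 3 + T p c (7 + c - k) 5)
        (T p c (7 + c - k) 3 * (c + d) + T p c (7 + c - k) 4 * (1 - d)
          - T p c (7 + c - k) 5 * c) ?_ ?_) ?_
      · intro a; unfold Up; ring
      · intro a ha
        have := ker_cell' (p := p) hc hx (a := a) (s := a + 8 - ((k : ℝ) + d))
          ⟨ha.1, by linarith [ha.2]⟩ (by rw [hxr]; linarith [ha.1]) (by rw [hxr]; linarith [ha.2])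
        rw [this]
        unfold cellv
        rw [if_neg (by rw [hxr]; linarith), hxr]
        congr 1; ring
      · congr 1
        · ring
        · congr 1 <;> ring
    · rw [if_neg hck]
      refine (HI.zero (by linarith) ?_).of_eq (by ring)
      intro a ha
      apply ker_outside
      right
      have : (k : ℝ) + 1 ≤ (c : ℝ) := by exact_mod_cast not_le.1 hck
      linarith [ha.1]
  have h2 : HI (fun a => ker p a (a + 8 - ((k : ℝ) + d))) ((c : ℝ) + d) ((c : ℝ) + 1)
      ((1 - d) * (if c < k then Lw p c (8 + c - k) ((1 + d) / 2) ((1 - d) / 2) else 0)) := by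
    by_cases hck : c < k
    · rw [if_pos hck]
      have hx : 8 + c - k < 8 := by omega
      have hxr : ((8 + c - k : ℕ) : ℝ) = 8 + c - k := by
        rw [Nat.cast_sub (by omega)]; push_cast; ring
      refine HI.of_eq (HI.of_affine (by linarith)
        (fun a => Lw p c (8 + c - k) (a - c) (a - c - d))
        (- T p c (8 + c - k) 0 + T p c (8 + c - k) 2)
        (T p c (8 + c - k) 0 * (1 + c) + T p c (8 + c - k) 1 * d
          - T p c (8 + c - k) 2 * (c + d)) ?_ ?_) ?_
      · intro a; unfold Lw; ring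
      · intro a ha
        have := ker_cell' (p := p) hc hx (a := a) (s := a + 8 - ((k : ℝ) + d))
          ⟨by linarith [ha.1], ha.2⟩ (by rw [hxr]; linarith [ha.1]) (by rw [hxr]; linarith [ha.2])
        rw [this]
        unfold cellv
        have hd : 0 < d := by
          rcases hdk with h | h
          · exact h
          · omega
        rw [if_pos (by rw [hxr]; linarith), hxr]
        congr 1; ring
      · congr 1
        · ring
        · congr 1 <;> ring
    · rw [if_neg hck]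
      refine (HI.zero (by linarith) ?_).of_eq (by ring)
      intro a ha
      apply ker_outside
      right
      have : (k : ℝ) ≤ (c : ℝ) := by exact_mod_cast not_lt.1 hck
      linarith [ha.1]
  exact (h1.trans h2).of_eq rfl

/-- coefficients (times `2 * den`) of the diagonal contribution of a column. -/
def dq0 (p k c : ℕ) : ℤ :=
  if c < k then N p c (8 + c - k) 0 + N p c (8 + c - k) 2 else 0
def dq1 (p k c : ℕ) : ℤ :=
  (if c ≤ k then 2 * N p c (7 + c - k) 4 else 0)
  + (if c < k then 2 * N p c (8 + c - k) 1 - 2 * N p c (8 + c - k) 0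
      - 2 * N p c (8 + c - k) 2 else 0)
def dq2 (p k c : ℕ) : ℤ :=
  (if c ≤ k then N p c (7 + c - k) 3 + N p c (7 + c - k) 5 - 2 * N p c (7 + c - k) 4 else 0)
  + (if c < k then N p c (8 + c - k) 0 + N p c (8 + c - k) 2
      - 2 * N p c (8 + c - k) 1 else 0)

theorem dcell_eq (p k c : ℕ) (d : ℝ) : dcell p k c d =
    ((dq0 p k c : ℝ) + (dq1 p k c : ℝ) * d + (dq2 p k c : ℝ) * d ^ 2) / (2 * 797832264000) := by
  unfold dcell dq0 dq1 dq2 Up Lw T
  split_ifs <;> push_cast <;> ring

theorem HI_diag {p k : ℕ} (hk : k < 8) {d : ℝ} (hd0 : 0 ≤ d) (hd1 : d ≤ 1)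
    (hdk : 0 < d ∨ k = 0) :
    HI (fun a => ker p a (a + 8 - ((k : ℝ) + d))) 0 2
      ((((∑ c ∈ Finset.range 2, dq0 p k c : ℤ) : ℝ) + ((∑ c ∈ Finset.range 2, dq1 p k c : ℤ) : ℝ) * d
        + ((∑ c ∈ Finset.range 2, dq2 p k c : ℤ) : ℝ) * d ^ 2) / (2 * 797832264000)) := by
  have h := HI.sum_cells (fun c => dcell p k c d) 2
    (fun c hc => HI_dcell (p := p) hk hc hd0 hd1 hdk)
  have h2 : ((2 : ℕ) : ℝ) = 2 := by norm_num
  rw [h2] at h
  refine h.of_eq ?_
  simp only [dcell_eq]
  rw [← Finset.sum_div, Finset.sum_add_distrib, Finset.sum_add_distrib, ← Finset.sum_mul,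
    ← Finset.sum_mul, ← Int.cast_sum, ← Int.cast_sum, ← Int.cast_sum]

end PGrK
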