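import Pool.Agent.PGr.KAvg
set_option autoImplicit false

/-!
Part K of project PGr: sums over items.
-/

open MeasureTheory intervalIntegral Set

namespace PGrK

theorem qk_abs (y A X : ℝ) : |qk y A X| ≤ 77 / 10 := by
  have h0 := kern_bd (p := 0) (by norm_num) A X
  have h1 := kern_bd (p := 1) (by norm_num) A X
  unfold qk
  split_ifs
  · rw [abs_le]; constructor <;> linarith [h0.1, h0.2, h1.1, h1.2]
  · rw [abs_le]; constructor <;> linarith [h0.1, h0.2, h1.1, h1.2]

theorem qk_nonneg (y A X : ℝ) : 0 ≤ qk y A X := by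
  have h0 := kern_bd (p := 0) (by norm_num) A X
  have h1 := kern_bd (p := 1) (by norm_num) A X
  unfold qk
  split_ifs <;> linarith [h0.1, h1.1]

theorem qk_meas2 (t : ℝ) : Measurable (fun z : ℝ × ℝ => qk z.1 z.2 (z.1 + t)) := by
  unfold qk
  refine Measurable.ite ?_ ?_ ?_
  · exact measurableSet_lt measurable_fst measurable_const
  · exact ((kern_meas_comp (by norm_num) measurable_snd (measurable_fst.add_const t)).div_const 4).add
      ((kern_meas_comp (by norm_num) measurable_snd (measurable_fst.add_const t)).const_mul _)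
  · exact kern_meas_comp (by norm_num) measurable_snd (measurable_fst.add_const t)

theorem inner_meas (t : ℝ) : Measurable (fun y : ℝ => ∫ A in (5/2:ℝ)..3, qk y A (y + t)) := by
  have h := (qk_meas2 t).stronglyMeasurable.integral_prod_right'
    (ν := (volume : Measure ℝ).restrict (Ioc (5/2) 3))
  have e : (fun y : ℝ => ∫ A in (5/2:ℝ)..3, qk y A (y + t))
      = fun y => ∫ A, qk y A (y + t) ∂((volume : Measure ℝ).restrict (Ioc (5/2) 3)) := by
    funext y
    rw [intervalIntegral.integral_of_le (by norm_num)]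
  rw [e]
  exact h.measurable

theorem inner_ii (t a b : ℝ) :
    IntervalIntegrable (fun y : ℝ => ∫ A in (5/2:ℝ)..3, qk y A (y + t)) volume a b := by
  apply ii_of_bdd (inner_meas t) (C := 4)
  intro y
  have := intervalIntegral.norm_integral_le_of_norm_le_const (a := (5/2:ℝ)) (b := 3) (C := 77/10)
    (f := fun A => qk y A (y + t)) (fun A _ => by
      rw [Real.norm_eq_abs]; exact qk_abs _ _ _)
  rw [Real.norm_eq_abs] at this
  refine le_trans this ?_
  rw [abs_of_nonneg (by norm_num)]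
  norm_num

/-- quadrature over the items for a fixed `y` and a fixed label. -/
theorem quad_qk_A {ι : Type*} (s : Finset ι) (A : ι → ℝ) {w del : ℝ}
    (hd : Disc s A w (1 / 2) (5/2) 3 del) (y X : ℝ) :
    |w * (∑ i ∈ s, qk y (A i) X) - 1 / 2 * ∫ a in (5/2:ℝ)..3, qk y a X| ≤ 250 * del := by
  have q0 := quad_kn s A (by norm_num : (5/2:ℝ) ≤ 3) hd (p := 0) (by norm_num) 0 1 X 0
    (J := univ) ordConnected_univ
  have q1 := quad_kn s A (by norm_num : (5/2:ℝ) ≤ 3) hd (p := 1) (by norm_num) 0 1 X 0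
    (J := univ) ordConnected_univ
  have hkn : ∀ p a, kn p 0 1 X 0 univ a = kern p a X := by
    intro p a
    unfold kn
    rw [indicator_univ]
    congr 1 <;> ring
  simp only [hkn] at q0 q1
  have hk : ∀ (p : ℕ) (_ : p < 2), IntervalIntegrable (fun A => kern p A X) volume (5/2) 3 :=
    fun p hp => kern_ii hp measurable_id measurable_const _ _
  unfold qk
  by_cases hy : y < 5 / 4
  · simp only [if_pos hy]
    rw [intervalIntegral.integral_add ((hk 0 (by norm_num)).div_const 4)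
      ((hk 1 (by norm_num)).const_mul _), intervalIntegral.integral_div,
      intervalIntegral.integral_const_mul, Finset.sum_add_distrib, ← Finset.sum_div,
      ← Finset.mul_sum]
    rw [abs_le] at q0 q1 ⊢
    constructor <;> linarith [q0.1, q0.2, q1.1, q1.2]
  · simp only [if_neg hy]
    exact q1

/-- quadrature over the items for the anchor role. -/
theorem quad_pbar_diag {ι : Type*} (s : Finset ι) (A : ι → ℝ) {w del : ℝ}
    (hd : Disc s A w (1 / 2) (5/2) 3 del) (t : ℝ) :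
    |w * (∑ i ∈ s, pbar (A i) (A i - t)) - 1 / 2 * ∫ a in (5/2:ℝ)..3, pbar a (a - t)|
      ≤ 250 * del := by
  have q0 := quad_kn s A (by norm_num : (5/2:ℝ) ≤ 3) hd (p := 0) (by norm_num) 0 1 (-t) 1
    (J := univ) ordConnected_univ
  have q1 := quad_kn s A (by norm_num : (5/2:ℝ) ≤ 3) hd (p := 1) (by norm_num) 0 1 (-t) 1
    (J := univ) ordConnected_univ
  have hkn : ∀ p a, kn p 0 1 (-t) 1 univ a = kern p a (a - t) := by
    intro p a
    unfold kn
    rw [indicator_univ]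
    congr 1 <;> ring
  simp only [hkn] at q0 q1
  have hk : ∀ (p : ℕ) (_ : p < 2),
      IntervalIntegrable (fun A => kern p A (A - t)) volume (5/2) 3 :=
    fun p hp => kern_ii hp measurable_id (measurable_id.sub_const t) _ _
  unfold pbar
  rw [intervalIntegral.integral_add ((hk 0 (by norm_num)).div_const 16)
    ((hk 1 (by norm_num)).const_mul _), intervalIntegral.integral_div,
    intervalIntegral.integral_const_mul, Finset.sum_add_distrib, ← Finset.sum_div,
    ← Finset.mul_sum]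
  rw [abs_le] at q0 q1 ⊢
  constructor <;> linarith [q0.1, q0.2, q1.1, q1.2]

/-- quadrature over the items for a fixed label. -/
theorem quad_pbar {ι : Type*} (s : Finset ι) (A : ι → ℝ) {w del : ℝ}
    (hd : Disc s A w (1 / 2) (5/2) 3 del) (X : ℝ) :
    |w * (∑ i ∈ s, pbar (A i) X) - 1 / 2 * ∫ a in (5/2:ℝ)..3, pbar a X|
      ≤ 250 * del := by
  have q0 := quad_kn s A (by norm_num : (5/2:ℝ) ≤ 3) hd (p := 0) (by norm_num) 0 1 X 0
    (J := univ) ordConnected_univ
  have q1 := quad_kn s A (by norm_num : (5/2:ℝ) ≤ 3) hd (p := 1) (by norm_num) 0 1 X 0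
    (J := univ) ordConnected_univ
  have hkn : ∀ p a, kn p 0 1 X 0 univ a = kern p a X := by
    intro p a
    unfold kn
    rw [indicator_univ]
    congr 1 <;> ring
  simp only [hkn] at q0 q1
  have hk : ∀ (p : ℕ) (_ : p < 2), IntervalIntegrable (fun A => kern p A X) volume (5/2) 3 :=
    fun p hp => kern_ii hp measurable_id measurable_const _ _
  unfold pbar
  rw [intervalIntegral.integral_add ((hk 0 (by norm_num)).div_const 16)
    ((hk 1 (by norm_num)).const_mul _), intervalIntegral.integral_div,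
    intervalIntegral.integral_const_mul, Finset.sum_add_distrib, ← Finset.sum_div,
    ← Finset.mul_sum]
  rw [abs_le] at q0 q1 ⊢
  constructor <;> linarith [q0.1, q0.2, q1.1, q1.2]

theorem sum_nb {ι : Type*} (s : Finset ι) (A : ι → ℝ) {w del : ℝ}
    (hd : Disc s A w (1 / 2) (5/2) 3 del) (t : ℝ) :
    |w * (∑ i ∈ s, ∫ y in (1:ℝ)..2, qk y (A i) (y + t))
      - 1 / 2 * ∫ y in (1:ℝ)..2, ∫ a in (5/2:ℝ)..3, qk y a (y + t)| ≤ 250 * del := by
  have e1 : w * (∑ i ∈ s, ∫ y in (1:ℝ)..2, qk y (A i) (y + t)) =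
      ∫ y in (1:ℝ)..2, w * (∑ i ∈ s, qk y (A i) (y + t)) := by
    rw [intervalIntegral.integral_const_mul, intervalIntegral.integral_finsetSum]
    intro i _
    exact qk_ii_y (A i) t 1 2
  have e2 : 1 / 2 * ∫ y in (1:ℝ)..2, (∫ a in (5/2:ℝ)..3, qk y a (y + t)) =
      ∫ y in (1:ℝ)..2, 1 / 2 * (∫ a in (5/2:ℝ)..3, qk y a (y + t)) := by
    rw [intervalIntegral.integral_const_mul]
  rw [e1, e2, ← intervalIntegral.integral_sub]
  · have := intervalIntegral.norm_integral_le_of_norm_le_const (a := (1:ℝ)) (b := 2)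
      (C := 250 * del)
      (f := fun y => w * (∑ i ∈ s, qk y (A i) (y + t))
        - 1 / 2 * (∫ a in (5/2:ℝ)..3, qk y a (y + t)))
      (fun y _ => by rw [Real.norm_eq_abs]; exact quad_qk_A s A hd y (y + t))
    rw [Real.norm_eq_abs] at this
    norm_num at this
    exact this
  · apply IntervalIntegrable.const_mul
    have hs := IntervalIntegrable.sum (μ := volume) (a := (1:ℝ)) (b := 2) s
      (f := fun i y => qk y (A i) (y + t)) (fun i _ => qk_ii_y (A i) t 1 2)
    have he : (∑ i ∈ s, fun y => qk y (A i) (y + t)) = fun y => ∑ i ∈ s, qk y (A i) (y + t) := by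
      funext y; simp
    rw [he] at hs
    exact hs
  · exact (inner_ii t 1 2).const_mul _

/-- the sum over the items of one type of the limits of the roles: half of (K2). -/
theorem sum_rl {ι : Type*} (s : Finset ι) (A : ι → ℝ) {w del : ℝ}
    (hd : Disc s A w (1 / 2) (5/2) 3 del) {t : ℝ} (h0 : 0 ≤ t) (h2 : t ≤ 2) :
    |w * (∑ i ∈ s, rl (A i) t) - ff t / 2| ≤ 1250 * del := by
  have q0 := quad_pbar_diag s A hd t
  have q1 := sum_nb s A hd t
  have q2 := sum_nb s A hd (-t)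
  have hK := K2 h0 h2
  have e : w * (∑ i ∈ s, rl (A i) t) = w * (∑ i ∈ s, pbar (A i) (A i - t))
      + 2 * (w * (∑ i ∈ s, ∫ y in (1:ℝ)..2, qk y (A i) (y + t))
        + w * (∑ i ∈ s, ∫ y in (1:ℝ)..2, qk y (A i) (y + -t))) := by
    have : ∀ i, rl (A i) t = pbar (A i) (A i - t) + 2 * ((∫ y in (1:ℝ)..2, qk y (A i) (y + t))
        + ∫ y in (1:ℝ)..2, qk y (A i) (y + -t)) := by
      intro i
      unfold rl
      rw [← intervalIntegral.integral_add (qk_ii_y (A i) t 1 2) (qk_ii_y (A i) (-t) 1 2)]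
      rfl
    simp only [this]
    rw [Finset.sum_add_distrib, ← Finset.mul_sum, Finset.sum_add_distrib]
    ring
  have e2 : ∫ y in (1:ℝ)..2, ((∫ A in (5/2:ℝ)..3, qk y A (y + t))
          + ∫ A in (5/2:ℝ)..3, qk y A (y - t))
      = (∫ y in (1:ℝ)..2, ∫ A in (5/2:ℝ)..3, qk y A (y + t))
        + ∫ y in (1:ℝ)..2, ∫ A in (5/2:ℝ)..3, qk y A (y + -t) := by
    rw [← intervalIntegral.integral_add (inner_ii t 1 2) (inner_ii (-t) 1 2)]
    rfl
  rw [e2] at hK
  rw [e]
  rw [abs_le] at q0 q1 q2 ⊢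
  constructor <;> linarith [q0.1, q0.2, q1.1, q1.2, q2.1, q2.2]

/-- (E3), deterministic part, one type of items. -/
theorem deg_sum {ι : Type*} (s : Finset ι) (A : ι → ℝ) {wn delA : ℝ} (hwn : 0 ≤ wn)
    (hcard : wn * (s.card : ℝ) ≤ 1)
    (hd : Disc s A wn (1 / 2) (5/2) 3 delA)
    {Θ : Type*} [Fintype Θ] (Y1 Y2 : ι → Θ → ℝ) {w delY : ℝ} (hw0 : 0 ≤ w)
    (hw : w * (Fintype.card Θ : ℝ) = 1) (hY0 : 0 ≤ delY)
    (h1 : ∀ i ∈ s, Disc Finset.univ (Y1 i) w 1 1 2 delY)
    (h2 : ∀ i ∈ s, Disc Finset.univ (Y2 i) w 1 1 2 delY)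
    {t : ℝ} (ht0 : 0 ≤ t) (ht2 : t ≤ 2) :
    |wn * (∑ i ∈ s, w * (∑ a, w * (∑ b, roles (A i) (Y1 i a) (Y2 i b) t))) - ff t / 2|
      ≤ 1250 * delA + 2050 * delY := by
  have q := sum_rl s A hd ht0 ht2
  have hb : |wn * (∑ i ∈ s, w * (∑ a, w * (∑ b, roles (A i) (Y1 i a) (Y2 i b) t)))
      - wn * (∑ i ∈ s, rl (A i) t)| ≤ 2050 * delY := by
    rw [← mul_sub, ← Finset.sum_sub_distrib, abs_mul, abs_of_nonneg hwn]
    have hs : |∑ i ∈ s, (w * (∑ a, w * (∑ b, roles (A i) (Y1 i a) (Y2 i b) t)) - rl (A i) t)|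
        ≤ ∑ _i ∈ s, (2050 * delY) := by
      refine le_trans (Finset.abs_sum_le_sum_abs _ _) (Finset.sum_le_sum ?_)
      intro i hi
      exact avg_roles (Y1 i) (Y2 i) hw0 hw (h1 i hi) (h2 i hi) (A i) t
    calc wn * _ ≤ wn * ∑ _i ∈ s, (2050 * delY) := mul_le_mul_of_nonneg_left hs hwn
      _ = (wn * (s.card : ℝ)) * (2050 * delY) := by
          simp only [Finset.sum_const, nsmul_eq_mul]; ring
      _ ≤ 1 * (2050 * delY) := mul_le_mul_of_nonneg_right hcard (by linarith)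
      _ = 2050 * delY := one_mul _
  rw [abs_le] at q hb ⊢
  constructor <;> linarith [q.1, q.2, hb.1, hb.2]

/-- (E2), deterministic part, one type of items. -/
theorem lab_sum {ι : Type*} (s : Finset ι) (A : ι → ℝ) {wn delA : ℝ} (hwn : 0 ≤ wn)
    (hcard : wn * (s.card : ℝ) ≤ 1)
    (hd : Disc s A wn (1 / 2) (5/2) 3 delA)
    {Θ : Type*} [Fintype Θ] (Y1 Y2 : ι → Θ → ℝ) {w delY : ℝ} (hw0 : 0 ≤ w)
    (hw : w * (Fintype.card Θ : ℝ) = 1) (hY0 : 0 ≤ delY)
    (h1 : ∀ i ∈ s, Disc Finset.univ (Y1 i) w 1 1 2 delY)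
    (h2 : ∀ i ∈ s, Disc Finset.univ (Y2 i) w 1 1 2 delY) (X : ℝ) :
    |wn * (∑ i ∈ s, w * (∑ a, w * (∑ b, kern (cc (Y1 i a) (Y2 i b)) (A i) X)))
      - 1 / 2 * ∫ a in (5/2:ℝ)..3, pbar a X| ≤ 250 * delA + 10 * delY := by
  have q := quad_pbar s A hd X
  have hb : |wn * (∑ i ∈ s, w * (∑ a, w * (∑ b, kern (cc (Y1 i a) (Y2 i b)) (A i) X)))
      - wn * (∑ i ∈ s, pbar (A i) X)| ≤ 10 * delY := by
    rw [← mul_sub, ← Finset.sum_sub_distrib, abs_mul, abs_of_nonneg hwn]
    have hs : |∑ i ∈ s, (w * (∑ a, w * (∑ b, kern (cc (Y1 i a) (Y2 i b)) (A i) X))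
        - pbar (A i) X)| ≤ ∑ _i ∈ s, (10 * delY) := by
      refine le_trans (Finset.abs_sum_le_sum_abs _ _) (Finset.sum_le_sum ?_)
      intro i hi
      exact avg_const (Y1 i) (Y2 i) hw0 hw (h1 i hi) (h2 i hi) (A i) X
    calc wn * _ ≤ wn * ∑ _i ∈ s, (10 * delY) := mul_le_mul_of_nonneg_left hs hwn
      _ = (wn * (s.card : ℝ)) * (10 * delY) := by
          simp only [Finset.sum_const, nsmul_eq_mul]; ring
      _ ≤ 1 * (10 * delY) := mul_le_mul_of_nonneg_right hcard (by linarith)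
      _ = 10 * delY := one_mul _
  rw [abs_le] at q hb ⊢
  constructor <;> linarith [q.1, q.2, hb.1, hb.2]

end PGrK
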