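import Pool.Agent.PGr.KBase
set_option autoImplicit false

/-!
Part K of project PGr: the kernel is a sum of 32 bounded quasi-concave functions.
-/

open MeasureTheory Set

namespace PGrK

/-- bounded nonnegative quasi-concave functions on the plane. -/
structure QC (F : ℝ × ℝ → ℝ) (B : ℝ) : Prop where
  nonneg : ∀ z, 0 ≤ F z
  le : ∀ z, F z ≤ B
  conv : ∀ r : ℝ, 0 ≤ r → Convex ℝ {z | r < F z}
  meas : Measurable F

/-- the half plane `l1 a + l2 s + l0 ≥ 0`. -/
theorem convex_half (l1 l2 l0 : ℝ) : Convex ℝ {z : ℝ × ℝ | 0 ≤ l1 * z.1 + l2 * z.2 + l0} := by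
  intro x hx y hy u v hu hv huv
  simp only [mem_ofPred_eq, Prod.fst_add, Prod.smul_fst, Prod.snd_add, Prod.smul_snd,
    smul_eq_mul] at *
  have : l1 * (u * x.1 + v * y.1) + l2 * (u * x.2 + v * y.2) + l0
      = u * (l1 * x.1 + l2 * x.2 + l0) + v * (l1 * y.1 + l2 * y.2 + l0) := by
    have : l0 = (u + v) * l0 := by rw [huv, one_mul]
    linear_combination this
  rw [this]
  positivity

/-- the open half plane `l1 a + l2 s + l0 > 0`. -/
theorem convex_half' (l1 l2 l0 : ℝ) : Convex ℝ {z : ℝ × ℝ | 0 < l1 * z.1 + l2 * z.2 + l0} := by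
  intro x hx y hy u v hu hv huv
  simp only [mem_ofPred_eq, Prod.fst_add, Prod.smul_fst, Prod.snd_add, Prod.smul_snd,
    smul_eq_mul] at *
  have : l1 * (u * x.1 + v * y.1) + l2 * (u * x.2 + v * y.2) + l0
      = u * (l1 * x.1 + l2 * x.2 + l0) + v * (l1 * y.1 + l2 * y.2 + l0) := by
    have : l0 = (u + v) * l0 := by rw [huv, one_mul]
    linear_combination this
  rw [this]
  rcases eq_or_lt_of_le hu with h | h
  · subst h
    have hv1 : v = 1 := by linarith
    subst hv1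
    simpa using hy
  · have : 0 < u * (l1 * x.1 + l2 * x.2 + l0) := mul_pos h hx
    have : 0 ≤ v * (l1 * y.1 + l2 * y.2 + l0) := mul_nonneg hv hy.le
    linarith

/-- the strip of the column `c`. -/
def strip (c : ℕ) : Set (ℝ × ℝ) := {z | (c : ℝ) ≤ z.1 ∧ (if c = 0 then z.1 < 1 else z.1 ≤ 2)}

/-- the rectangle of the cell `(c,x)`. -/
def rect (c x : ℕ) : Set (ℝ × ℝ) := strip c ∩ {z | (x : ℝ) ≤ z.2 ∧ z.2 < (x : ℝ) + 1}

def triL (c x : ℕ) : Set (ℝ × ℝ) := rect c x ∩ {z | z.2 - (x : ℝ) < z.1 - (c : ℝ)}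
def triU (c x : ℕ) : Set (ℝ × ℝ) := rect c x ∩ {z | z.1 - (c : ℝ) ≤ z.2 - (x : ℝ)}

theorem conv_of {S T : Set (ℝ × ℝ)} (h : Convex ℝ T) (e : ∀ z, z ∈ S ↔ z ∈ T) : Convex ℝ S := by
  rw [Set.ext e]; exact h

theorem convex_strip (c : ℕ) : Convex ℝ (strip c) := by
  have h1 : Convex ℝ {z : ℝ × ℝ | (c : ℝ) ≤ z.1} := by
    refine conv_of (convex_half 1 0 (-(c : ℝ))) (fun z => ⟨fun h => ?_, fun h => ?_⟩)
    · change (c : ℝ) ≤ z.1 at h; change 0 ≤ 1 * z.1 + 0 * z.2 + -(c : ℝ); linarith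
    · change 0 ≤ 1 * z.1 + 0 * z.2 + -(c : ℝ) at h; change (c : ℝ) ≤ z.1; linarith
  have h2 : Convex ℝ {z : ℝ × ℝ | (if c = 0 then z.1 < 1 else z.1 ≤ 2)} := by
    by_cases hc : c = 0
    · refine conv_of (convex_half' (-1) 0 1) (fun z => ⟨fun h => ?_, fun h => ?_⟩)
      · change (if c = 0 then z.1 < 1 else z.1 ≤ 2) at h
        rw [if_pos hc] at h
        change 0 < -1 * z.1 + 0 * z.2 + 1; linarith
      · change 0 < -1 * z.1 + 0 * z.2 + 1 at h
        change (if c = 0 then z.1 < 1 else z.1 ≤ 2)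
        rw [if_pos hc]; linarith
    · refine conv_of (convex_half (-1) 0 2) (fun z => ⟨fun h => ?_, fun h => ?_⟩)
      · change (if c = 0 then z.1 < 1 else z.1 ≤ 2) at h
        rw [if_neg hc] at h
        change 0 ≤ -1 * z.1 + 0 * z.2 + 2; linarith
      · change 0 ≤ -1 * z.1 + 0 * z.2 + 2 at h
        change (if c = 0 then z.1 < 1 else z.1 ≤ 2)
        rw [if_neg hc]; linarith
  exact h1.inter h2

theorem convex_rect (c x : ℕ) : Convex ℝ (rect c x) := by
  refine (convex_strip c).inter ?_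
  have h1 : Convex ℝ {z : ℝ × ℝ | (x : ℝ) ≤ z.2} := by
    refine conv_of (convex_half 0 1 (-(x : ℝ))) (fun z => ⟨fun h => ?_, fun h => ?_⟩)
    · change (x : ℝ) ≤ z.2 at h; change 0 ≤ 0 * z.1 + 1 * z.2 + -(x : ℝ); linarith
    · change 0 ≤ 0 * z.1 + 1 * z.2 + -(x : ℝ) at h; change (x : ℝ) ≤ z.2; linarith
  have h2 : Convex ℝ {z : ℝ × ℝ | z.2 < (x : ℝ) + 1} := by
    refine conv_of (convex_half' 0 (-1) ((x : ℝ) + 1)) (fun z => ⟨fun h => ?_, fun h => ?_⟩)
    · change z.2 < (x : ℝ) + 1 at h; change 0 < 0 * z.1 + -1 * z.2 + ((x : ℝ) + 1); linarith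
    · change 0 < 0 * z.1 + -1 * z.2 + ((x : ℝ) + 1) at h; change z.2 < (x : ℝ) + 1; linarith
  exact h1.inter h2

theorem convex_triL (c x : ℕ) : Convex ℝ (triL c x) := by
  refine (convex_rect c x).inter ?_
  refine conv_of (convex_half' 1 (-1) ((x : ℝ) - c)) (fun z => ⟨fun h => ?_, fun h => ?_⟩)
  · change z.2 - (x : ℝ) < z.1 - (c : ℝ) at h
    change 0 < 1 * z.1 + -1 * z.2 + ((x : ℝ) - c); linarith
  · change 0 < 1 * z.1 + -1 * z.2 + ((x : ℝ) - c) at h
    change z.2 - (x : ℝ) < z.1 - (c : ℝ); linarith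

theorem convex_triU (c x : ℕ) : Convex ℝ (triU c x) := by
  refine (convex_rect c x).inter ?_
  refine conv_of (convex_half (-1) 1 ((c : ℝ) - x)) (fun z => ⟨fun h => ?_, fun h => ?_⟩)
  · change z.1 - (c : ℝ) ≤ z.2 - (x : ℝ) at h
    change 0 ≤ -1 * z.1 + 1 * z.2 + ((c : ℝ) - x); linarith
  · change 0 ≤ -1 * z.1 + 1 * z.2 + ((c : ℝ) - x) at h
    change z.1 - (c : ℝ) ≤ z.2 - (x : ℝ); linarith

theorem meas_strip (c : ℕ) : MeasurableSet (strip c) := by
  have h1 : MeasurableSet {z : ℝ × ℝ | (c : ℝ) ≤ z.1} :=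
    measurableSet_le measurable_const measurable_fst
  have h2 : MeasurableSet {z : ℝ × ℝ | (if c = 0 then z.1 < 1 else z.1 ≤ 2)} := by
    by_cases hc : c = 0
    · simp only [hc, if_true]
      exact measurableSet_lt measurable_fst measurable_const
    · simp only [hc, if_false]
      exact measurableSet_le measurable_fst measurable_const
  exact h1.inter h2

theorem meas_rect (c x : ℕ) : MeasurableSet (rect c x) :=
  (meas_strip c).inter ((measurableSet_le measurable_const measurable_snd).inter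
    (measurableSet_lt measurable_snd measurable_const))

theorem meas_triL (c x : ℕ) : MeasurableSet (triL c x) :=
  (meas_rect c x).inter (measurableSet_lt (measurable_snd.sub_const _) (measurable_fst.sub_const _))

theorem meas_triU (c x : ℕ) : MeasurableSet (triU c x) :=
  (meas_rect c x).inter (measurableSet_le (measurable_fst.sub_const _) (measurable_snd.sub_const _))

noncomputable def pcL (p c x : ℕ) : ℝ × ℝ → ℝ :=
  (triL c x).indicator (fun z => Lw p c x (z.1 - c) (z.2 - x))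
noncomputable def pcU (p c x : ℕ) : ℝ × ℝ → ℝ :=
  (triU c x).indicator (fun z => Up p c x (z.1 - c) (z.2 - x))

theorem strip_bd {c : ℕ} (hc : c < 2) {z : ℝ × ℝ} (h : z ∈ strip c) :
    0 ≤ z.1 - (c : ℝ) ∧ z.1 - (c : ℝ) ≤ 1 := by
  obtain ⟨h1, h2⟩ := h
  refine ⟨by linarith, ?_⟩
  interval_cases c
  · simp only [if_true] at h2; push_cast; linarith
  · simp only [one_ne_zero, if_false] at h2; push_cast; linarith

theorem qc_ind {S : Set (ℝ × ℝ)} (hS : Convex ℝ S) (hm : MeasurableSet S) {B : ℝ} (hB : 0 ≤ B)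
    (l1 l2 l0 : ℝ) (F : ℝ × ℝ → ℝ) (hF : ∀ z, F z = l1 * z.1 + l2 * z.2 + l0)
    (h0 : ∀ z ∈ S, 0 ≤ F z) (h1 : ∀ z ∈ S, F z ≤ B) : QC (S.indicator F) B := by
  refine ⟨?_, ?_, ?_, ?_⟩
  · intro z
    by_cases hz : z ∈ S
    · rw [indicator_of_mem hz]; exact h0 z hz
    · rw [indicator_of_notMem hz]
  · intro z
    by_cases hz : z ∈ S
    · rw [indicator_of_mem hz]; exact h1 z hz
    · rw [indicator_of_notMem hz]; exact hB
  · intro r hr
    have : {z | r < S.indicator F z} = S ∩ {z | 0 < l1 * z.1 + l2 * z.2 + (l0 - r)} := by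
      ext z
      simp only [mem_ofPred_eq, mem_inter_iff]
      by_cases hz : z ∈ S
      · rw [indicator_of_mem hz, hF]
        constructor
        · intro h; exact ⟨hz, by linarith⟩
        · rintro ⟨_, h⟩; linarith
      · rw [indicator_of_notMem hz]
        constructor
        · intro h; linarith
        · rintro ⟨h, _⟩; exact absurd h hz
    rw [this]
    exact hS.inter (convex_half' _ _ _)
  · refine Measurable.indicator ?_ hm
    have : F = fun z => l1 * z.1 + l2 * z.2 + l0 := funext hF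
    rw [this]
    fun_prop

theorem qc_L {p c x : ℕ} (hp : p < 2) (hc : c < 2) (hx : x < 8) : QC (pcL p c x) (77 / 10) := by
  refine qc_ind (convex_triL c x) (meas_triL c x) (by norm_num)
    (- T p c x 0 + T p c x 1) (- T p c x 1 + T p c x 2)
    (T p c x 0 * (1 + c) + T p c x 1 * (x - c) - T p c x 2 * x) _ ?_ ?_ ?_
  · intro z; unfold Lw; ring
  · rintro z ⟨⟨h1, h2⟩, h3⟩
    have := strip_bd hc h1
    exact (Lw_bd hp hc hx this.2 (sub_nonneg.2 h2.1) (le_of_lt h3)).1
  · rintro z ⟨⟨h1, h2⟩, h3⟩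
    have := strip_bd hc h1
    exact (Lw_bd hp hc hx this.2 (sub_nonneg.2 h2.1) (le_of_lt h3)).2

theorem qc_U {p c x : ℕ} (hp : p < 2) (hc : c < 2) (hx : x < 8) : QC (pcU p c x) (77 / 10) := by
  refine qc_ind (convex_triU c x) (meas_triU c x) (by norm_num)
    (- T p c x 4 + T p c x 5) (- T p c x 3 + T p c x 4)
    (T p c x 3 * (1 + x) + T p c x 4 * (c - x) - T p c x 5 * c) _ ?_ ?_ ?_
  · intro z; unfold Up; ring
  · rintro z ⟨⟨h1, h2⟩, h3⟩
    have := strip_bd hc h1
    exact (Up_bd hp hc hx this.1 (by linarith [h2.2]) h3).1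
  · rintro z ⟨⟨h1, h2⟩, h3⟩
    have := strip_bd hc h1
    exact (Up_bd hp hc hx this.1 (by linarith [h2.2]) h3).2

theorem mem_strip_iff {c : ℕ} (hc : c < 2) {z : ℝ × ℝ} :
    z ∈ strip c ↔ 0 ≤ z.1 ∧ z.1 ≤ 2 ∧ col z.1 = c := by
  unfold strip col
  simp only [mem_ofPred_eq]
  interval_cases c
  · simp only [if_true]
    push_cast
    constructor
    · rintro ⟨h1, h2⟩; exact ⟨h1, by linarith, by rw [if_pos h2]⟩
    · rintro ⟨h1, h2, h3⟩
      refine ⟨h1, ?_⟩
      by_contra hcon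
      rw [if_neg hcon] at h3
      omega
  · simp only [one_ne_zero, if_false]
    push_cast
    constructor
    · rintro ⟨h1, h2⟩; exact ⟨by linarith, h2, by rw [if_neg (by linarith)]⟩
    · rintro ⟨h1, h2, h3⟩
      refine ⟨?_, h2⟩
      by_contra hcon
      rw [if_pos (not_le.1 hcon)] at h3
      omega

theorem mem_rect_iff {c x : ℕ} (hc : c < 2) {z : ℝ × ℝ} :
    z ∈ rect c x ↔ (0 ≤ z.1 ∧ z.1 ≤ 2 ∧ col z.1 = c) ∧ (0 ≤ z.2 ∧ ⌊z.2⌋₊ = x) := by
  unfold rect
  rw [mem_inter_iff, mem_strip_iff hc]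
  refine and_congr Iff.rfl ?_
  simp only [mem_ofPred_eq]
  constructor
  · rintro ⟨h1, h2⟩
    exact ⟨le_trans (Nat.cast_nonneg x) h1, floor_of h1 h2⟩
  · rintro ⟨h1, h2⟩
    subst h2
    exact ⟨Nat.floor_le h1, Nat.lt_floor_add_one _⟩

/-- the kernel is the sum of the 32 pieces. -/
theorem ker_eq_sum (p : ℕ) (z : ℝ × ℝ) : ker p z.1 z.2 =
    ∑ c ∈ Finset.range 2, ∑ x ∈ Finset.range 8, (pcL p c x z + pcU p c x z) := by
  by_cases h : 0 ≤ z.1 ∧ z.1 ≤ 2 ∧ 0 ≤ z.2 ∧ z.2 < 8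
  · obtain ⟨h1, h2, h3, h4⟩ := h
    rw [Finset.sum_eq_single_of_mem (col z.1) (Finset.mem_range.2 (col_lt _))]
    · rw [Finset.sum_eq_single_of_mem ⌊z.2⌋₊ (Finset.mem_range.2 (floor_lt8 h4))]
      · have hr : z ∈ rect (col z.1) ⌊z.2⌋₊ :=
          (mem_rect_iff (col_lt _)).2 ⟨⟨h1, h2, rfl⟩, h3, rfl⟩
        unfold ker cellv pcL pcU
        rw [if_pos ⟨h1, h2, h3, h4⟩]
        split_ifs with h5
        · rw [indicator_of_mem (show z ∈ triL _ _ from ⟨hr, h5⟩),
            indicator_of_notMem (show z ∉ triU _ _ from fun h6 => absurd h5 (not_lt.2 h6.2))]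
          simp
        · rw [indicator_of_notMem (show z ∉ triL _ _ from fun h6 => h5 h6.2),
            indicator_of_mem (show z ∈ triU _ _ from ⟨hr, not_lt.1 h5⟩)]
          simp
      · intro x _ hne
        have hr : z ∉ rect (col z.1) x := fun hcon =>
          hne ((mem_rect_iff (col_lt _)).1 hcon).2.2.symm
        unfold pcL pcU
        rw [indicator_of_notMem (fun h => hr h.1), indicator_of_notMem (fun h => hr h.1)]
        simp
    · intro c hc hne
      apply Finset.sum_eq_zero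
      intro x _
      have hr : z ∉ rect c x := fun hcon =>
        hne ((mem_rect_iff (Finset.mem_range.1 hc)).1 hcon).1.2.2.symm
      unfold pcL pcU
      rw [indicator_of_notMem (fun h => hr h.1), indicator_of_notMem (fun h => hr h.1)]
      simp
  · unfold ker
    rw [if_neg h]
    symm
    apply Finset.sum_eq_zero
    intro c hc
    apply Finset.sum_eq_zero
    intro x hx
    have hr : z ∉ rect c x := fun hcon => by
      have := (mem_rect_iff (Finset.mem_range.1 hc)).1 hcon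
      apply h
      refine ⟨this.1.1, this.1.2.1, this.2.1, ?_⟩
      have h9 : ⌊z.2⌋₊ < 8 := by rw [this.2.2]; exact Finset.mem_range.1 hx
      have := (Nat.floor_lt' (by norm_num : (8:ℕ) ≠ 0)).1 h9
      exact_mod_cast this
    unfold pcL pcU
    rw [indicator_of_notMem (fun h => hr h.1), indicator_of_notMem (fun h => hr h.1)]
    simp

theorem ker_meas {p : ℕ} (hp : p < 2) : Measurable (fun z : ℝ × ℝ => ker p z.1 z.2) := by
  have : (fun z : ℝ × ℝ => ker p z.1 z.2) = fun z =>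
      ∑ c ∈ Finset.range 2, ∑ x ∈ Finset.range 8, (pcL p c x z + pcU p c x z) :=
    funext (ker_eq_sum p)
  rw [this]
  apply Finset.measurable_fun_sum
  intro c hc
  apply Finset.measurable_fun_sum
  intro x hx
  exact (qc_L hp (Finset.mem_range.1 hc) (Finset.mem_range.1 hx)).meas.add
    (qc_U hp (Finset.mem_range.1 hc) (Finset.mem_range.1 hx)).meas

end PGrK
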