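import Pool.Agent.PGr.KForm
set_option autoImplicit false

/-!
Part K of project PGr: identity (K2) in mesh coordinates.
-/

open MeasureTheory intervalIntegral Set

namespace PGrK

/-- horizontal integral of the kernel. -/
noncomputable def io (p : ℕ) (s : ℝ) : ℝ := ∫ a in (0:ℝ)..2, ker p a s

def I0z (p : ℕ) (z : ℤ) : ℤ := if 0 ≤ z ∧ z < 8 then I0 p z.toNat else 0
def I1z (p : ℕ) (z : ℤ) : ℤ := if 0 ≤ z ∧ z < 8 then I1 p z.toNat else 0

noncomputable def iotz (p : ℕ) (z : ℤ) (v : ℝ) : ℝ :=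
  ((I0z p z : ℤ) : ℝ) / (2 * 797832264000) * (1 - v)
    + ((I1z p z : ℤ) : ℝ) / (2 * 797832264000) * v

theorem io_cell {p : ℕ} (hp : p < 2) (z : ℤ) {s : ℝ} (h1 : (z : ℝ) ≤ s) (h2 : s < (z : ℝ) + 1) :
    io p s = iotz p z (s - z) := by
  by_cases hz : 0 ≤ z ∧ z < 8
  · obtain ⟨x, rfl⟩ := Int.eq_ofNat_of_zero_le hz.1
    have hx : x < 8 := by exact_mod_cast hz.2
    have h1' : (x : ℝ) ≤ s := by exact_mod_cast h1
    have h2' : s < (x : ℝ) + 1 := by exact_mod_cast h2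
    have := (HI_horiz hp hx h1' h2').integral
    unfold io
    rw [this]
    unfold iot iotz I0z I1z
    rw [if_pos hz, if_pos hz]
    simp
  · have hz' : s < 0 ∨ 8 ≤ s := by
      by_cases h0 : 0 ≤ z
      · right
        have : 8 ≤ z := by
          by_contra hcon
          exact hz ⟨h0, by omega⟩
        have : (8 : ℝ) ≤ (z : ℝ) := by exact_mod_cast this
        linarith
      · left
        have : z + 1 ≤ 0 := by omega
        have : (z : ℝ) + 1 ≤ 0 := by exact_mod_cast this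
        linarith
    unfold io
    have : ∀ a, ker p a s = 0 := fun a => ker_outside hz'
    simp only [this]
    unfold iotz I0z I1z
    rw [if_neg hz, if_neg hz]
    simp

theorem HI_io {p : ℕ} (hp : p < 2) (z : ℤ) {lo hi : ℝ} (h0 : 0 ≤ lo) (h1 : lo ≤ hi)
    (h2 : hi ≤ 1) :
    HI (io p) ((z : ℝ) + lo) ((z : ℝ) + hi) ((hi - lo) * iotz p z ((lo + hi) / 2)) := by
  refine HI.of_eq (HI.of_affine (by linarith) (fun s => iotz p z (s - z))
    (- (((I0z p z : ℤ) : ℝ) / (2 * 797832264000)) + ((I1z p z : ℤ) : ℝ) / (2 * 797832264000))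
    (((I0z p z : ℤ) : ℝ) / (2 * 797832264000) * (1 + z)
      - ((I1z p z : ℤ) : ℝ) / (2 * 797832264000) * z) ?_ ?_) ?_
  · intro s; unfold iotz; ring
  · intro s hs
    exact io_cell hp z (by linarith [hs.1]) (by linarith [hs.2])
  · congr 1
    · ring
    · congr 1; ring

def gp0 (p : ℕ) (z : ℤ) : ℤ := I0z p z + I1z p z
def gp1 (p : ℕ) (z : ℤ) : ℤ := - 2 * I0z p z + 2 * I0z p (z + 1)
def gp2 (p : ℕ) (z : ℤ) : ℤ := I0z p z - I1z p z - I0z p (z + 1) + I1z p (z + 1)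
def gm0 (p : ℕ) (w : ℤ) : ℤ := I0z p (w + 1) + I1z p (w + 1)
def gm1 (p : ℕ) (w : ℤ) : ℤ := 2 * I1z p w - 2 * I1z p (w + 1)
def gm2 (p : ℕ) (w : ℤ) : ℤ := I0z p w - I1z p w - I0z p (w + 1) + I1z p (w + 1)

theorem HI_plus {p : ℕ} (hp : p < 2) (z : ℤ) {d : ℝ} (hd0 : 0 ≤ d) (hd1 : d ≤ 1) :
    HI (io p) ((z : ℝ) + d) ((z : ℝ) + 1 + d)
      (((gp0 p z : ℝ) + (gp1 p z : ℝ) * d + (gp2 p z : ℝ) * d ^ 2) / (4 * 797832264000)) := by
  have h1 := HI_io hp z hd0 hd1 le_rfl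
  have h2 := HI_io hp (z + 1) le_rfl hd0 hd1
  have e : (((z + 1 : ℤ) : ℝ) + 0) = (z : ℝ) + 1 := by push_cast; ring
  have e' : (((z + 1 : ℤ) : ℝ) + d) = (z : ℝ) + 1 + d := by push_cast; ring
  rw [e, e'] at h2
  refine (h1.trans h2).of_eq ?_
  unfold iotz gp0 gp1 gp2
  push_cast
  ring

theorem HI_minus {p : ℕ} (hp : p < 2) (w : ℤ) {d : ℝ} (hd0 : 0 ≤ d) (hd1 : d ≤ 1) :
    HI (io p) ((w : ℝ) + 1 - d) ((w : ℝ) + 1 + 1 - d)
      (((gm0 p w : ℝ) + (gm1 p w : ℝ) * d + (gm2 p w : ℝ) * d ^ 2) / (4 * 797832264000)) := by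
  have h1 := HI_io hp w (lo := 1 - d) (hi := 1) (by linarith) (by linarith) le_rfl
  have h2 := HI_io hp (w + 1) (lo := 0) (hi := 1 - d) le_rfl (by linarith) (by linarith)
  have e : (((w + 1 : ℤ) : ℝ) + 0) = (w : ℝ) + 1 := by push_cast; ring
  have e' : (((w + 1 : ℤ) : ℝ) + (1 - d)) = (w : ℝ) + 1 + 1 - d := by push_cast; ring
  have e'' : (w : ℝ) + (1 - d) = (w : ℝ) + 1 - d := by ring
  rw [e, e'] at h2
  rw [e''] at h1
  refine (h1.trans h2).of_eq ?_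
  unfold iotz gm0 gm1 gm2
  push_cast
  ring

/-- weights (times 4) of the two kernels for a neighbour label in the cell `j`. -/
def w4 (p j : ℕ) : ℤ := if j < 3 then (if p = 0 then 1 else 3) else (if p = 0 then 0 else 4)

/-- coefficients of `128 * f`. -/
def fq0 (k : ℕ) : ℤ :=
  if k < 2 then 128 else if k < 4 then 192 - 32 * k else if k < 6 then 64 else 32 * k - 128
def fq1 (k : ℕ) : ℤ :=
  if k < 2 then 0 else if k < 4 then - 32 else if k < 6 then 0 else 32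

theorem deg_facts : ∀ k < 8,
    (∑ c ∈ Finset.range 2, dq0 0 k c) + 15 * (∑ c ∈ Finset.range 2, dq0 1 k c)
      + ∑ j ∈ Finset.range 4, ∑ p ∈ Finset.range 2,
          w4 p (j + 2) * (gp0 p (j + 2 + k) + gm0 p (j + 1 - k)) = fq0 k * 797832264000 ∧
    (∑ c ∈ Finset.range 2, dq1 0 k c) + 15 * (∑ c ∈ Finset.range 2, dq1 1 k c)
      + ∑ j ∈ Finset.range 4, ∑ p ∈ Finset.range 2,
          w4 p (j + 2) * (gp1 p (j + 2 + k) + gm1 p (j + 1 - k)) = fq1 k * 797832264000 ∧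
    (∑ c ∈ Finset.range 2, dq2 0 k c) + 15 * (∑ c ∈ Finset.range 2, dq2 1 k c)
      + ∑ j ∈ Finset.range 4, ∑ p ∈ Finset.range 2,
          w4 p (j + 2) * (gp2 p (j + 2 + k) + gm2 p (j + 1 - k)) = 0 := by
  decide +kernel

theorem plus_val {p k : ℕ} (hp : p < 2) (j : ℕ) {d : ℝ} (hd0 : 0 ≤ d) (hd1 : d ≤ 1) :
    ∫ s in ((j : ℝ) + 2)..((j : ℝ) + 3), io p (s + ((k : ℝ) + d)) =
      ((gp0 p (j + 2 + k) : ℝ) + (gp1 p (j + 2 + k) : ℝ) * d + (gp2 p (j + 2 + k) : ℝ) * d ^ 2)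
        / (4 * 797832264000) := by
  rw [intervalIntegral.integral_comp_add_right (fun s => io p s)]
  have h := (HI_plus hp ((j : ℤ) + 2 + k) hd0 hd1).integral
  have e1 : (((j : ℤ) + 2 + k : ℤ) : ℝ) + d = (j : ℝ) + 2 + ((k : ℝ) + d) := by push_cast; ring
  have e2 : (((j : ℤ) + 2 + k : ℤ) : ℝ) + 1 + d = (j : ℝ) + 3 + ((k : ℝ) + d) := by
    push_cast; ring
  rw [e1, e2] at h
  exact h

theorem minus_val {p k : ℕ} (hp : p < 2) (j : ℕ) {d : ℝ} (hd0 : 0 ≤ d) (hd1 : d ≤ 1) :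
    ∫ s in ((j : ℝ) + 2)..((j : ℝ) + 3), io p (s - ((k : ℝ) + d)) =
      ((gm0 p (j + 1 - k) : ℝ) + (gm1 p (j + 1 - k) : ℝ) * d + (gm2 p (j + 1 - k) : ℝ) * d ^ 2)
        / (4 * 797832264000) := by
  rw [intervalIntegral.integral_comp_sub_right (fun s => io p s)]
  have h := (HI_minus hp ((j : ℤ) + 1 - k) hd0 hd1).integral
  have e1 : (((j : ℤ) + 1 - k : ℤ) : ℝ) + 1 - d = (j : ℝ) + 2 - ((k : ℝ) + d) := by
    push_cast; ring
  have e2 : (((j : ℤ) + 1 - k : ℤ) : ℝ) + 1 + 1 - d = (j : ℝ) + 3 - ((k : ℝ) + d) := by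
    push_cast; ring
  rw [e1, e2] at h
  exact h

/-- identity (K2) in mesh coordinates. -/
theorem K2_mesh {k : ℕ} (hk : k < 8) {d : ℝ} (hd0 : 0 ≤ d) (hd1 : d ≤ 1)
    (hdk : 0 < d ∨ k = 0) :
    (1 / 64) * ((∫ a in (0:ℝ)..2, ker 0 a (a + 8 - ((k : ℝ) + d)))
        + 15 * (∫ a in (0:ℝ)..2, ker 1 a (a + 8 - ((k : ℝ) + d))))
      + (1 / 8) * ∑ j ∈ Finset.range 4, ∑ p ∈ Finset.range 2, (w4 p (j + 2) : ℝ) / 4 *
          ((∫ s in ((j : ℝ) + 2)..((j : ℝ) + 3), io p (s + ((k : ℝ) + d)))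
            + ∫ s in ((j : ℝ) + 2)..((j : ℝ) + 3), io p (s - ((k : ℝ) + d)))
      = ((fq0 k : ℝ) + (fq1 k : ℝ) * d) / 128 := by
  have hs : ∑ j ∈ Finset.range 4, ∑ p ∈ Finset.range 2, (w4 p (j + 2) : ℝ) / 4 *
          ((∫ s in ((j : ℝ) + 2)..((j : ℝ) + 3), io p (s + ((k : ℝ) + d)))
            + ∫ s in ((j : ℝ) + 2)..((j : ℝ) + 3), io p (s - ((k : ℝ) + d)))
      = ((∑ j ∈ Finset.range 4, ∑ p ∈ Finset.range 2,
          w4 p (j + 2) * (gp0 p (j + 2 + k) + gm0 p (j + 1 - k)) : ℤ) : ℝ) / (16 * 797832264000)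
        + ((∑ j ∈ Finset.range 4, ∑ p ∈ Finset.range 2,
          w4 p (j + 2) * (gp1 p (j + 2 + k) + gm1 p (j + 1 - k)) : ℤ) : ℝ) * d
            / (16 * 797832264000)
        + ((∑ j ∈ Finset.range 4, ∑ p ∈ Finset.range 2,
          w4 p (j + 2) * (gp2 p (j + 2 + k) + gm2 p (j + 1 - k)) : ℤ) : ℝ) * d ^ 2
            / (16 * 797832264000) := by
    push_cast
    simp only [Finset.sum_mul, Finset.sum_div]
    rw [← Finset.sum_add_distrib, ← Finset.sum_add_distrib]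
    apply Finset.sum_congr rfl
    intro j _
    rw [← Finset.sum_add_distrib, ← Finset.sum_add_distrib]
    apply Finset.sum_congr rfl
    intro p hp
    rw [plus_val (Finset.mem_range.1 hp) j hd0 hd1, minus_val (Finset.mem_range.1 hp) j hd0 hd1]
    ring
  rw [hs, (HI_diag (p := 0) hk hd0 hd1 hdk).integral, (HI_diag (p := 1) hk hd0 hd1 hdk).integral]
  obtain ⟨h0, h1, h2⟩ := deg_facts k hk
  have h0' : ((∑ c ∈ Finset.range 2, dq0 0 k c : ℤ) : ℝ)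
      + 15 * ((∑ c ∈ Finset.range 2, dq0 1 k c : ℤ) : ℝ)
      + ((∑ j ∈ Finset.range 4, ∑ p ∈ Finset.range 2,
          w4 p (j + 2) * (gp0 p (j + 2 + k) + gm0 p (j + 1 - k)) : ℤ) : ℝ)
        = (fq0 k : ℝ) * 797832264000 := by exact_mod_cast h0
  have h1' : ((∑ c ∈ Finset.range 2, dq1 0 k c : ℤ) : ℝ)
      + 15 * ((∑ c ∈ Finset.range 2, dq1 1 k c : ℤ) : ℝ)
      + ((∑ j ∈ Finset.range 4, ∑ p ∈ Finset.range 2,
          w4 p (j + 2) * (gp1 p (j + 2 + k) + gm1 p (j + 1 - k)) : ℤ) : ℝ)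
        = (fq1 k : ℝ) * 797832264000 := by exact_mod_cast h1
  have h2' : ((∑ c ∈ Finset.range 2, dq2 0 k c : ℤ) : ℝ)
      + 15 * ((∑ c ∈ Finset.range 2, dq2 1 k c : ℤ) : ℝ)
      + ((∑ j ∈ Finset.range 4, ∑ p ∈ Finset.range 2,
          w4 p (j + 2) * (gp2 p (j + 2 + k) + gm2 p (j + 1 - k)) : ℤ) : ℝ)
        = 0 := by exact_mod_cast h2
  linear_combination (1 / (128 * 797832264000)) * h0' + (d / (128 * 797832264000)) * h1'
    + (d ^ 2 / (128 * 797832264000)) * h2'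

end PGrK
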