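import Mathlib
import Pool.Agent.PGr.Defs
import Pool.Agent.Helper20.GracefulCore

/-!
# PGr, module Red: reduction to the inner labels
-/

namespace Pool.Agent.PGr

open Pool.Agent.Helper20.Graceful

private theorem anc_cases (n i : ℕ) :
    (i % 2 = 0 ∧ anc n i = ((i / 2 : ℕ) : ℤ)) ∨
    (i % 2 = 1 ∧ n % 2 = 0 ∧ i + 1 = n ∧ anc n i = 3 * ((n / 2 : ℕ) : ℤ)) ∨
    (i % 2 = 1 ∧ ¬ (n % 2 = 0 ∧ i + 1 = n) ∧ anc n i = 3 * (n : ℤ) - ((i / 2 : ℕ) : ℤ)) := by
  unfold anc
  by_cases h1 : i % 2 = 0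
  · left
    rw [if_pos h1]
    exact ⟨h1, rfl⟩
  · right
    have h1' : i % 2 = 1 := by omega
    rw [if_neg h1]
    by_cases h2 : n % 2 = 0 ∧ i + 1 = n
    · left
      rw [if_pos h2]
      exact ⟨h1', h2.1, h2.2, rfl⟩
    · right
      rw [if_neg h2]
      exact ⟨h1', h2, rfl⟩

private theorem mem_zall {n : ℕ} {x : ℤ} (h : x ∈ zall n) :
    (n % 2 = 0 ∧ x ≠ 3 * ((n / 2 : ℕ) : ℤ) ∧ ((n / 2 : ℕ) : ℤ) ≤ x ∧
      x ≤ 5 * ((n / 2 : ℕ) : ℤ) + 1) ∨
    (n % 2 = 1 ∧ (((n + 1) / 2 : ℕ) : ℤ) ≤ x ∧ x ≤ (((5 * n + 1) / 2 : ℕ) : ℤ)) := by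
  unfold zall at h
  by_cases h1 : n % 2 = 0
  · rw [if_pos h1, Finset.mem_erase, Finset.mem_Icc] at h
    exact Or.inl ⟨h1, h.1, h.2.1, h.2.2⟩
  · rw [if_neg h1, Finset.mem_Icc] at h
    exact Or.inr ⟨by omega, h.1, h.2⟩

private theorem not_mem_dall {n : ℕ} {d : ℕ} (h1 : 1 ≤ d) (h : (d : ℤ) ∉ dall n) :
    (n % 2 = 0 ∧ (2 * n + 3 ≤ d ∨ d = n + 1 ∨ d = 3 * (n / 2))) ∨
    (n % 2 = 1 ∧ (2 * n + 2 ≤ d ∨ d = (n - 1) / 2)) := by
  unfold dall at h
  by_cases hn : n % 2 = 0
  · rw [if_pos hn, Finset.mem_erase, Finset.mem_erase, Finset.mem_Icc] at h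
    refine Or.inl ⟨hn, ?_⟩
    by_contra hc
    push Not at hc
    apply h
    refine ⟨?_, ?_, ?_, ?_⟩
    · intro h'
      exact hc.2.2 (by omega)
    · intro h'
      exact hc.2.1 (by omega)
    · omega
    · omega
  · rw [if_neg hn, Finset.mem_erase, Finset.mem_Icc] at h
    refine Or.inr ⟨by omega, ?_⟩
    by_contra hc
    push Not at hc
    apply h
    refine ⟨?_, ?_, ?_⟩
    · intro h'
      exact hc.2 (by omega)
    · omega
    · omega

private theorem shift_mod {n k i : ℕ} (hi : i < n) (hk : k < n) :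
    shiftIdx n k i = (i + k) % n := by
  unfold shiftIdx
  split_ifs with h
  · exact (Nat.mod_eq_of_lt h).symm
  · rw [Nat.mod_eq_sub_mod (by omega)]
    exact (Nat.mod_eq_of_lt (by omega)).symm

theorem good_graceful (n k : ℕ) (hn : 3 ≤ n) (hk1 : 1 ≤ k) (hk : 2 * k < n) (z : ℕ → ℤ)
    (h : Good n k z) : IsGraceful (genPetersen n k) := by
  obtain ⟨hz, hinj, hd⟩ := h
  have a0 : ∀ i < n, 0 ≤ anc n i := by
    intro i hi
    rcases anc_cases n i with h | h | h <;> omega
  have z0 : ∀ i < n, 0 ≤ z i := by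
    intro i hi
    rcases mem_zall (hz i hi) with h | h <;> omega
  have ac : ∀ i < n, (((anc n i).toNat : ℕ) : ℤ) = anc n i := fun i hi => Int.toNat_of_nonneg (a0 i hi)
  have zc : ∀ i < n, (((z i).toNat : ℕ) : ℤ) = z i := fun i hi => Int.toNat_of_nonneg (z0 i hi)
  refine graceful_of_labels n k (by omega) (by omega) (fun i => (anc n i).toNat)
    (fun i => (z i).toNat) ?_ ?_ ?_ ?_ ?_ ?_
  · intro i hi j hj hij
    have e : anc n i = anc n j := by
      rw [← ac i hi, ← ac j hj]
      exact_mod_cast hij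
    rcases anc_cases n i with h | h | h <;> rcases anc_cases n j with h' | h' | h' <;> omega
  · intro i hi j hj hij
    refine hinj i hi j hj ?_
    rw [← zc i hi, ← zc j hj]
    exact_mod_cast hij
  · intro i hi j hj hij
    have e : anc n i = z j := by
      rw [← ac i hi, ← zc j hj]
      exact_mod_cast hij
    rcases anc_cases n i with h | h | h <;> rcases mem_zall (hz j hj) with h' | h' <;> omega
  · intro i hi
    have := ac i hi
    rcases anc_cases n i with h | h | h <;> omega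
  · intro i hi
    have := zc i hi
    rcases mem_zall (hz i hi) with h | h <;> omega
  · intro d hd1 hd2
    by_cases hm : (d : ℤ) ∈ dall n
    · rcases hd d hm with ⟨i, hi, e⟩ | ⟨i, hi, e⟩
      · refine ⟨1, i, hi, ?_⟩
        change ((((anc n i).toNat : ℕ) : ℤ) - (((z i).toNat : ℕ) : ℤ)).natAbs = d
        rw [ac i hi, zc i hi]
        rw [abs_sub_comm] at e
        have e2 := congrArg Int.natAbs e
        rw [Int.natAbs_abs] at e2
        omega
      · refine ⟨2, i, hi, ?_⟩
        change ((((z i).toNat : ℕ) : ℤ) - (((z (shiftIdx n k i)).toNat : ℕ) : ℤ)).natAbs = d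
        rw [zc i hi, zc _ (shiftIdx_lt hi (by omega)), shift_mod hi (by omega)]
        have e2 := congrArg Int.natAbs e
        rw [Int.natAbs_abs] at e2
        omega
    · have key : ∀ i, i + 1 < n → (anc n i - anc n (i + 1)).natAbs = d →
          ∃ t : Fin 3, ∃ i < n, dif (fun i => (anc n i).toNat) (fun i => (z i).toNat) n k t i = d := by
        intro i hi e
        refine ⟨0, i, by omega, ?_⟩
        have hs : shiftIdx n 1 i = i + 1 := by
          unfold shiftIdx
          rw [if_pos hi]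
        change ((((anc n i).toNat : ℕ) : ℤ) - (((anc n (shiftIdx n 1 i)).toNat : ℕ) : ℤ)).natAbs = d
        rw [hs, ac i (by omega), ac (i + 1) hi]
        exact e
      have key2 : (anc n (n - 1) - anc n 0).natAbs = d →
          ∃ t : Fin 3, ∃ i < n, dif (fun i => (anc n i).toNat) (fun i => (z i).toNat) n k t i = d := by
        intro e
        refine ⟨0, n - 1, by omega, ?_⟩
        have hs : shiftIdx n 1 (n - 1) = 0 := by
          unfold shiftIdx
          rw [if_neg (by omega)]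
          omega
        change ((((anc n (n - 1)).toNat : ℕ) : ℤ) -
          (((anc n (shiftIdx n 1 (n - 1))).toNat : ℕ) : ℤ)).natAbs = d
        rw [hs, ac (n - 1) (by omega), ac 0 (by omega)]
        exact e
      rcases not_mem_dall hd1 hm with ⟨hn2, h | h | h⟩ | ⟨hn2, h | h⟩
      · refine key (3 * n - d) (by omega) ?_
        rcases anc_cases n (3 * n - d) with h1 | h1 | h1 <;>
          rcases anc_cases n (3 * n - d + 1) with h2 | h2 | h2 <;> omega
      · refine key (n - 2) (by omega) ?_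
        rcases anc_cases n (n - 2) with h1 | h1 | h1 <;>
          rcases anc_cases n (n - 2 + 1) with h2 | h2 | h2 <;> omega
      · refine key2 ?_
        rcases anc_cases n (n - 1) with h1 | h1 | h1 <;>
          rcases anc_cases n 0 with h2 | h2 | h2 <;> omega
      · refine key (3 * n - d) (by omega) ?_
        rcases anc_cases n (3 * n - d) with h1 | h1 | h1 <;>
          rcases anc_cases n (3 * n - d + 1) with h2 | h2 | h2 <;> omega
      · refine key2 ?_
        rcases anc_cases n (n - 1) with h1 | h1 | h1 <;>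
          rcases anc_cases n 0 with h2 | h2 | h2 <;> omega

end Pool.Agent.PGr
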