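import Mathlib
import Pool.Agent.PGr.Dat
import Pool.Agent.PGr.Red

/-!
# PGr: the main theorem from Theorem I and Theorem II
-/

namespace Pool.Agent.PGr

open Pool.Agent.Helper20.Graceful

theorem main_of (hI : ThmI) (hII : ThmII) :
    ∃ l0 n0 : ℕ, ∀ n k : ℕ, n0 ≤ n → 1 ≤ k → 2 * k < n →
      (Even (n / Nat.gcd n k) ∨ l0 ≤ n / Nat.gcd n k) → IsGraceful (genPetersen n k) := by
  obtain ⟨c, hc, hI⟩ := hI
  obtain ⟨κ, hκ, hII⟩ := hII c hc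
  obtain ⟨η, hη, l0, n1, hI⟩ := hI κ hκ
  obtain ⟨n2, hII⟩ := hII η hη
  refine ⟨l0, max 3 (max n1 n2), ?_⟩
  intro n k hn hk1 hk hL
  obtain ⟨D, hDn, hReg, hComp⟩ := hI n k (by omega) hk1 hk hL
  obtain ⟨θ, I', z, hI', hcard, hz⟩ := hII D (by omega) hReg
  obtain ⟨z', hz'⟩ := hComp θ I' z hI' hcard hz
  rw [hDn] at hz'
  exact good_graceful n k (by omega) hk1 hk z' hz'

end Pool.Agent.PGr
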