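import Pool.Agent.PGr.McD

/-!
# PGr tools: sums of products of indicators in a product space

`N(ω) = #{j ∈ S : ∀ i ∈ T j, ω i ∈ G j i}` for a finite family of index sets `T j` of size `k`
(or at most `k`), no index in more than `m` of them.

The random subset of density `1 / K` of a finite type `α` is `{x | (ω x).val = 0}` with
`ω : α → Fin K`.
-/

namespace Pool.Agent.PGr

open Finset

/-- Number of successful members of a family. -/
noncomputable def cntFam {ι Ω J : Type*} (S : Finset J) (T : J → Finset ι)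
    (G : J → ι → Ω → Prop) (ω : ι → Ω) : ℝ := by
  classical
  exact ((S.filter fun j => ∀ i ∈ T j, G j i (ω i)).card : ℝ)

/-- The mean of the number of successes. -/
theorem Ex_cntFam {ι Ω J : Type*} [Fintype ι] [DecidableEq ι] [Fintype Ω] [Nonempty Ω]
    (S : Finset J) (T : J → Finset ι) (G : J → ι → Ω → Prop) :
    Ex (cntFam S T G) = ∑ j ∈ S, ∏ i ∈ T j, Pr (G j i) := by
  classical
  have h1 : ∀ ω : ι → Ω, cntFam S T G ω =
      ∑ j ∈ S, if (∀ i ∈ T j, G j i (ω i)) then (1 : ℝ) else 0 := by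
    intro ω
    unfold cntFam
    rw [Finset.card_filter]
    push_cast
    rfl
  rw [Ex_congr h1, Ex_sum]
  refine sum_congr rfl fun j _ => ?_
  rw [← Pr_pi_forall]
  unfold Pr
  refine Ex_congr fun ω => ?_
  by_cases h : ∀ i ∈ T j, G j i (ω i)
  · rw [if_pos h, if_pos h]
  · rw [if_neg h, if_neg h]

/-- Changing one coordinate changes the number of successes by at most the number of members
containing it. -/
theorem cntFam_update {ι Ω J : Type*} [DecidableEq ι]
    (S : Finset J) (T : J → Finset ι) (G : J → ι → Ω → Prop) (ω : ι → Ω) (i : ι) (a : Ω) :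
    |cntFam S T G (Function.update ω i a) - cntFam S T G ω| ≤
      ((S.filter fun j => i ∈ T j).card : ℝ) := by
  classical
  have h1 : ∀ ω : ι → Ω, cntFam S T G ω =
      ∑ j ∈ S, if (∀ i ∈ T j, G j i (ω i)) then (1 : ℝ) else 0 := by
    intro ω
    unfold cntFam
    rw [Finset.card_filter]
    push_cast
    rfl
  rw [h1, h1, ← sum_sub_distrib, Finset.card_filter]
  push_cast
  refine (abs_sum_le_sum_abs _ _).trans (sum_le_sum fun j _ => ?_)
  by_cases hi : i ∈ T j
  · rw [if_pos hi]
    split_ifs <;> norm_num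
  · rw [if_neg hi]
    have h2 : (∀ i' ∈ T j, G j i' (Function.update ω i a i')) ↔ ∀ i' ∈ T j, G j i' (ω i') := by
      refine forall₂_congr fun i' hi' => ?_
      have : i' ≠ i := fun h => hi (h ▸ hi')
      rw [Function.update_of_ne this]
    simp only [h2, sub_self, abs_zero, le_refl]

/-- Deviation of the number of successes. -/
theorem Pr_cntFam {ι Ω J : Type*} [Fintype ι] [DecidableEq ι] [Fintype Ω] [Nonempty Ω]
    (S : Finset J) (T : J → Finset ι) (G : J → ι → Ω → Prop) [DecidableEq J]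
    (k m : ℕ) (hT : ∀ j ∈ S, (T j).card ≤ k)
    (hm : ∀ i, (S.filter fun j => i ∈ T j).card ≤ m) (V : ℝ) (hV0 : 0 < V)
    (hV : (k * m : ℝ) * S.card ≤ V) (t : ℝ) (ht : 0 ≤ t) :
    Pr (fun ω => t ≤ |cntFam S T G ω - ∑ j ∈ S, ∏ i ∈ T j, Pr (G j i)|) ≤
      2 * Real.exp (-(t ^ 2 / (2 * V))) := by
  classical
  have h := mcdiarmid (cntFam S T G) (fun i => ((S.filter fun j => i ∈ T j).card : ℝ))
    (fun ω i a => cntFam_update S T G ω i a) V (le_trans ?_ hV) hV0 t ht
  · rw [Ex_cntFam] at h
    exact h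
  · have h1 : ∑ i, ((S.filter fun j => i ∈ T j).card : ℝ) ^ 2 ≤
        ∑ i, (m : ℝ) * ((S.filter fun j => i ∈ T j).card : ℝ) := by
      refine sum_le_sum fun i _ => ?_
      rw [sq]
      refine mul_le_mul_of_nonneg_right ?_ (Nat.cast_nonneg _)
      exact_mod_cast hm i
    refine h1.trans ?_
    rw [← mul_sum]
    have h2 : ∑ i, ((S.filter fun j => i ∈ T j).card : ℝ) = ∑ j ∈ S, ((T j).card : ℝ) := by
      simp only [Finset.card_filter]
      push_cast
      rw [Finset.sum_comm]
      refine sum_congr rfl fun j _ => ?_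
      rw [Finset.sum_boole, Finset.filter_mem_eq_inter, univ_inter]
    rw [h2]
    have h3 : ∑ j ∈ S, ((T j).card : ℝ) ≤ ∑ _j ∈ S, (k : ℝ) :=
      sum_le_sum fun j hj => by exact_mod_cast hT j hj
    rw [sum_const, nsmul_eq_mul] at h3
    calc (m : ℝ) * ∑ j ∈ S, ((T j).card : ℝ) ≤ m * (S.card * k) :=
          mul_le_mul_of_nonneg_left h3 (Nat.cast_nonneg _)
      _ = (k * m : ℝ) * S.card := by ring

/-- Random subsets of density `1 / K`: `k`-subsets `T j`, every element in at most `m` of them: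
the number of `j` with `T j` inside the random subset is at least half its mean. -/
theorem Pr_subset_lower {ι J : Type*} [Fintype ι] [DecidableEq ι] [DecidableEq J]
    (K : ℕ) (hK : 0 < K) (S : Finset J) (T : J → Finset ι) (k m : ℕ) (hk : 0 < k) (hm0 : 0 < m)
    (hT : ∀ j ∈ S, (T j).card = k) (hm : ∀ i, (S.filter fun j => i ∈ T j).card ≤ m)
    (hS : S.Nonempty) :
    Pr (fun ω : ι → Fin K => ((S.filter fun j => ∀ i ∈ T j, (ω i).val = 0).card : ℝ) ≤
        S.card / (2 * (K : ℝ) ^ k)) ≤
      2 * Real.exp (-((S.card : ℝ) / (8 * k * m * (K : ℝ) ^ (2 * k)))) := by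
  classical
  have : Nonempty (Fin K) := ⟨⟨0, hK⟩⟩
  have hK0 : (0 : ℝ) < K := by exact_mod_cast hK
  have hS0 : (0 : ℝ) < S.card := by exact_mod_cast hS.card_pos
  have hk0 : (0 : ℝ) < k := by exact_mod_cast hk
  have hm1 : (0 : ℝ) < m := by exact_mod_cast hm0
  have h := Pr_cntFam (Ω := Fin K) S T (fun _ _ a => a.val = 0) k m
    (fun j hj => (hT j hj).le) hm ((k * m : ℝ) * S.card) (by positivity) le_rfl
    (S.card / (2 * (K : ℝ) ^ k)) (by positivity)
  have hmean : ∑ j ∈ S, ∏ i ∈ T j, Pr (fun a : Fin K => a.val = 0) = S.card / (K : ℝ) ^ k := by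
    have : ∀ j ∈ S, ∏ i ∈ T j, Pr (fun a : Fin K => a.val = 0) = 1 / (K : ℝ) ^ k := by
      intro j hj
      rw [prod_const, hT j hj, Pr_fin_zero K hK, one_div, one_div, inv_pow]
    rw [sum_congr rfl this, sum_const, nsmul_eq_mul]
    ring
  rw [hmean] at h
  refine (Pr_mono fun ω hω => ?_).trans (h.trans (le_of_eq ?_))
  · have e3 : cntFam (Ω := Fin K) S T (fun _ _ a => a.val = 0) ω =
        ((S.filter fun j => ∀ i ∈ T j, (ω i).val = 0).card : ℝ) := by
      unfold cntFam
      congr 2
      ext j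
      simp
    rw [e3, le_abs]
    right
    have e : (S.card : ℝ) / (K : ℝ) ^ k = 2 * (S.card / (2 * (K : ℝ) ^ k)) := by
      field_simp
    rw [e]
    linarith
  · congr 2
    rw [pow_mul']
    field_simp
    ring

/-- The size of a random subset of density `1 / K` inside a finset `A`. -/
theorem Pr_card_two_sided {ι : Type*} [Fintype ι] [DecidableEq ι]
    (K : ℕ) (hK : 0 < K) (A : Finset ι) (hA : A.Nonempty) :
    Pr (fun ω : ι → Fin K => ¬ ((A.card : ℝ) / (2 * K) ≤
        ((A.filter fun x => (ω x).val = 0).card : ℝ) ∧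
        ((A.filter fun x => (ω x).val = 0).card : ℝ) ≤ 3 * (A.card : ℝ) / (2 * K))) ≤
      2 * Real.exp (-((A.card : ℝ) / (8 * (K : ℝ) ^ 2))) := by
  classical
  have : Nonempty (Fin K) := ⟨⟨0, hK⟩⟩
  have hK0 : (0 : ℝ) < K := by exact_mod_cast hK
  have hS0 : (0 : ℝ) < A.card := by exact_mod_cast hA.card_pos
  have h := Pr_cntFam (Ω := Fin K) A (fun x : ι => {x}) (fun _ _ a => a.val = 0) 1 1
    (fun j _ => by simp) (fun i => by
      refine (card_le_card (t := {i}) fun j hj => ?_).trans (by simp)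
      rw [mem_filter, mem_singleton] at hj
      rw [mem_singleton]
      exact hj.2.symm) (A.card : ℝ) hS0 (by simp)
    ((A.card : ℝ) / (2 * K)) (by positivity)
  have hmean : ∑ j ∈ A, ∏ i ∈ ({j} : Finset ι), Pr (fun a : Fin K => a.val = 0) = A.card / (K : ℝ) := by
    simp only [prod_singleton, Pr_fin_zero K hK, sum_const, nsmul_eq_mul]
    ring
  rw [hmean] at h
  refine (Pr_mono fun ω hω => ?_).trans (h.trans (le_of_eq ?_))
  · have e : (A.card : ℝ) / K = 2 * (A.card / (2 * K)) := by field_simp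
    have e2 : 3 * (A.card : ℝ) / (2 * K) = 3 * (A.card / (2 * K)) := by ring
    have e3 : cntFam (Ω := Fin K) A (fun x : ι => {x}) (fun _ _ a => a.val = 0) ω =
        ((A.filter fun x => (ω x).val = 0).card : ℝ) := by
      unfold cntFam
      congr 2
      ext x
      simp
    rw [e3, e]
    rw [e2, not_and_or, not_le, not_le] at hω
    rcases hω with hω | hω
    · rw [le_abs]
      right
      linarith
    · rw [le_abs]
      left
      linarith
  · congr 2
    field_simp
    ring

end Pool.Agent.PGr
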