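import Mathlib

/-!
# PGr tools: weighted nibble, definitions

A weighted hypergraph is given by a finset `E` of indices, the edges `S j`, `j ∈ E`, and weights `w`.
-/

namespace Pool.Agent.PGr.Nib

open Finset

/-- Mean of `f` over the random subset `T` of `A` which contains `i` with probability `p i`,
independently. -/
noncomputable def EW {I : Type*} [DecidableEq I] (A : Finset I) (p : I → ℝ)
    (f : Finset I → ℝ) : ℝ :=
  ∑ T ∈ A.powerset, ((∏ i ∈ T, p i) * ∏ i ∈ A \ T, (1 - p i)) * f T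

variable {V J : Type*} [DecidableEq V]

/-- Weighted degree. -/
noncomputable def deg (E : Finset J) (S : J → Finset V) (w : J → ℝ) (v : V) : ℝ :=
  ∑ j ∈ E.filter (fun j => v ∈ S j), w j

/-- Weighted pair degree. -/
noncomputable def codeg (E : Finset J) (S : J → Finset V) (w : J → ℝ) (u v : V) : ℝ :=
  ∑ j ∈ E.filter (fun j => u ∈ S j ∧ v ∈ S j), w j

/-- A weighted `r`-uniform hypergraph with degrees at most one and pair degrees at most `δ`. -/
structure OK (r : ℕ) (δ : ℝ) (E : Finset J) (S : J → Finset V) (w : J → ℝ) : Prop where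
  card : ∀ j ∈ E, (S j).card = r
  nonneg : ∀ j ∈ E, 0 ≤ w j
  deg_le : ∀ v, deg E S w v ≤ 1
  codeg_le : ∀ u v, u ≠ v → codeg E S w u v ≤ δ

/-- The vertices. -/
def VS (E : Finset J) (S : J → Finset V) : Finset V := E.biUnion S

/-- Probability that no edge containing `v` is chosen. -/
noncomputable def sv (ε : ℝ) (E : Finset J) (S : J → Finset V) (w : J → ℝ) (v : V) : ℝ :=
  ∏ j ∈ E.filter (fun j => v ∈ S j), (1 - ε * w j)

/-- The probabilities of one round: the edge `j` is chosen with probability `ε w j`, the vertex `v`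
is killed with probability `1 - (1 - ε) / sv v`. -/
noncomputable def pr (ε : ℝ) (E : Finset J) (S : J → Finset V) (w : J → ℝ) : J ⊕ V → ℝ
  | Sum.inl j => ε * w j
  | Sum.inr v => 1 - (1 - ε) / sv ε E S w v

/-- The index set of the round. -/
def AI (E : Finset J) (S : J → Finset V) : Finset (J ⊕ V) := E.disjSum (VS E S)

/-- The indices which must not be chosen if all vertices of `X` survive. -/
def hit (E : Finset J) (S : J → Finset V) (X : Finset V) : Finset (J ⊕ V) :=
  (E.filter fun j => ¬ Disjoint (S j) X).disjSum X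

/-- The vertices of `X` survive. -/
def Surv (E : Finset J) (S : J → Finset V) (X : Finset V) (T : Finset (J ⊕ V)) : Prop :=
  Disjoint T (hit E S X)

instance [DecidableEq J] (E : Finset J) (S : J → Finset V) (X : Finset V) (T : Finset (J ⊕ V)) :
    Decidable (Surv E S X T) := inferInstanceAs (Decidable (Disjoint T (hit E S X)))

/-- The new weight of an edge after the round. -/
noncomputable def wn [DecidableEq J] (r : ℕ) (ε : ℝ) (E : Finset J) (S : J → Finset V) (w : J → ℝ)
    (T : Finset (J ⊕ V)) (j : J) : ℝ :=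
  w j / (1 - ε) ^ (r - 1) * (if Surv E S (S j) T then 1 else 0)

/-- The new degree. -/
noncomputable def Dn [DecidableEq J] (r : ℕ) (ε : ℝ) (E : Finset J) (S : J → Finset V) (w : J → ℝ)
    (T : Finset (J ⊕ V)) (v : V) : ℝ :=
  ∑ j ∈ E.filter (fun j => v ∈ S j), wn r ε E S w T j

/-- The isolated chosen edges. -/
def iso [DecidableEq J] (E : Finset J) (S : J → Finset V) (T : Finset (J ⊕ V)) : Finset J :=
  E.filter fun j => Sum.inl j ∈ T ∧ ∀ i ∈ E, i ≠ j → Sum.inl i ∈ T → Disjoint (S i) (S j)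

theorem deg_nonneg {r : ℕ} {δ : ℝ} {E : Finset J} {S : J → Finset V} {w : J → ℝ}
    (h : OK r δ E S w) (v : V) : 0 ≤ deg E S w v :=
  sum_nonneg fun j hj => h.nonneg j (mem_filter.1 hj).1

theorem w_le_codeg {r : ℕ} {δ : ℝ} {E : Finset J} {S : J → Finset V} {w : J → ℝ}
    (h : OK r δ E S w) {j : J} (hj : j ∈ E) {u v : V} (hu : u ∈ S j) (hv : v ∈ S j) :
    w j ≤ codeg E S w u v :=
  single_le_sum (f := w) (fun i hi => h.nonneg i (mem_filter.1 hi).1)
    (mem_filter.2 ⟨hj, hu, hv⟩)

theorem w_le_deg {r : ℕ} {δ : ℝ} {E : Finset J} {S : J → Finset V} {w : J → ℝ}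
    (h : OK r δ E S w) {j : J} (hj : j ∈ E) {v : V} (hv : v ∈ S j) :
    w j ≤ deg E S w v :=
  single_le_sum (f := w) (fun i hi => h.nonneg i (mem_filter.1 hi).1)
    (mem_filter.2 ⟨hj, hv⟩)

theorem w_le_one {r : ℕ} (hr : 1 ≤ r) {δ : ℝ} {E : Finset J} {S : J → Finset V} {w : J → ℝ}
    (h : OK r δ E S w) {j : J} (hj : j ∈ E) : w j ≤ 1 := by
  have h1 : 0 < (S j).card := by rw [h.card j hj]; omega
  obtain ⟨v, hv⟩ := card_pos.1 h1
  exact (w_le_deg h hj hv).trans (h.deg_le v)

/-- The sum of the degrees. -/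
theorem sum_deg {r : ℕ} {δ : ℝ} {E : Finset J} {S : J → Finset V} {w : J → ℝ}
    (h : OK r δ E S w) : ∑ v ∈ VS E S, deg E S w v = r * ∑ j ∈ E, w j := by
  unfold deg
  simp only [Finset.sum_filter]
  rw [sum_comm, mul_sum]
  refine sum_congr rfl fun j hj => ?_
  rw [← Finset.sum_filter, sum_const, nsmul_eq_mul]
  congr 2
  rw [← h.card j hj]
  congr 1
  ext v
  rw [mem_filter]
  exact ⟨fun hv => hv.2, fun hv => ⟨mem_biUnion.2 ⟨j, hj, hv⟩, hv⟩⟩

end Pool.Agent.PGr.Nib
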