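import Pool.Agent.PGr.NibSurv

/-!
# PGr tools: expected number of isolated chosen edges
-/

namespace Pool.Agent.PGr.Nib

open Finset

variable {V J : Type*} [DecidableEq V] [DecidableEq J]
variable {r : ℕ} {δ ε : ℝ} {E : Finset J} {S : J → Finset V} {w : J → ℝ}

omit [DecidableEq J] in
/-- The total weight of the edges meeting a given edge. -/
theorem sum_meet (h : OK r δ E S w) {j : J} (hj : j ∈ E) :
    ∑ i ∈ E.filter (fun i => ¬ Disjoint (S i) (S j)), w i ≤ r := by
  have h1 : ∑ i ∈ E.filter (fun i => ¬ Disjoint (S i) (S j)), w i ≤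
      ∑ i ∈ E, ∑ u ∈ S j, (if u ∈ S i then w i else 0) := by
    rw [Finset.sum_filter]
    refine sum_le_sum fun i hi => ?_
    by_cases hd : Disjoint (S i) (S j)
    · rw [if_neg (not_not.2 hd)]
      refine sum_nonneg fun u _ => ?_
      split_ifs
      · exact h.nonneg i hi
      · exact le_rfl
    · rw [if_pos hd]
      obtain ⟨u, hu1, hu2⟩ := not_disjoint_iff.1 hd
      refine le_trans ?_ (single_le_sum (f := fun u => if u ∈ S i then w i else 0)
        (fun u _ => ?_) hu2)
      · simp [hu1]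
      · split_ifs
        · exact h.nonneg i hi
        · exact le_rfl
  refine h1.trans ?_
  rw [sum_comm]
  have h2 : ∀ u ∈ S j, ∑ i ∈ E, (if u ∈ S i then w i else 0) ≤ 1 := by
    intro u _
    rw [← Finset.sum_filter]
    exact h.deg_le u
  refine (sum_le_sum h2).trans ?_
  rw [sum_const, nsmul_eq_mul, mul_one, h.card j hj]

theorem iso_bound (hr : 1 ≤ r) (h : OK r δ E S w) (hε0 : 0 ≤ ε) (hε1 : ε ≤ 1 / 2) :
    ε * (1 - r * ε) * ∑ j ∈ E, w j ≤
      EW (AI E S) (pr ε E S w) (fun T => ((iso E S T).card : ℝ)) := by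
  classical
  set C : J → Finset (J ⊕ V) := fun j =>
    (E.filter fun i => i ≠ j ∧ ¬ Disjoint (S i) (S j)).disjSum ∅ with hC
  have e1 : ∀ T ⊆ AI E S, ((iso E S T).card : ℝ) =
      ∑ j ∈ E, (if Sum.inl j ∈ T ∧ Disjoint T (C j) then (1 : ℝ) else 0) := by
    intro T _
    unfold iso
    rw [Finset.card_filter]
    push_cast
    refine sum_congr rfl fun j _ => ?_
    have : (Sum.inl j ∈ T ∧ ∀ i ∈ E, i ≠ j → Sum.inl i ∈ T → Disjoint (S i) (S j)) ↔
        (Sum.inl j ∈ T ∧ Disjoint T (C j)) := by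
      refine and_congr_right fun _ => ?_
      constructor
      · intro h1
        rw [disjoint_left]
        rintro (i | v) hi hi2
        · simp only [hC, inl_mem_disjSum, mem_filter] at hi2
          exact hi2.2.2 (h1 i hi2.1 hi2.2.1 hi)
        · simp [hC] at hi2
      · intro h1 i hi hij hiT
        by_contra hd
        refine disjoint_left.1 h1 hiT ?_
        simp only [hC, inl_mem_disjSum, mem_filter]
        exact ⟨hi, hij, hd⟩
    simp only [this]
  rw [EW_congr e1, EW_sum, mul_sum]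
  refine sum_le_sum fun j hj => ?_
  have hCA : C j ⊆ AI E S := by
    simp only [hC]
    unfold AI
    exact Finset.disjSum_mono (filter_subset _ _) (empty_subset _)
  have hjA : Sum.inl j ∈ AI E S := by
    unfold AI
    simpa using hj
  have hjC : Sum.inl j ∉ C j := by simp [hC]
  rw [EW_mem_disj (AI E S) (pr ε E S w) (Sum.inl j) hjA (C j) hCA hjC]
  have e2 : ∏ i ∈ C j, (1 - pr ε E S w i) =
      ∏ i ∈ E.filter (fun i => i ≠ j ∧ ¬ Disjoint (S i) (S j)), (1 - ε * w i) := by
    simp only [hC]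
    rw [Finset.prod_disjSum, prod_empty, mul_one]
    rfl
  rw [e2]
  have h3 := prod_ge (E.filter fun i => i ≠ j ∧ ¬ Disjoint (S i) (S j)) (fun i => ε * w i)
    (fun i hi => mul_nonneg hε0 (h.nonneg i (mem_filter.1 hi).1))
    (fun i hi => by have := q_pos hr h hε0 hε1 (mem_filter.1 hi).1; linarith)
  have h4 : ∑ i ∈ E.filter (fun i => i ≠ j ∧ ¬ Disjoint (S i) (S j)), ε * w i ≤ ε * r := by
    rw [← mul_sum]
    refine mul_le_mul_of_nonneg_left ?_ hε0
    refine le_trans ?_ (sum_meet h hj)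
    refine sum_le_sum_of_subset_of_nonneg (fun i hi => ?_) fun i hi _ =>
      h.nonneg i (mem_filter.1 hi).1
    rw [mem_filter] at hi ⊢
    exact ⟨hi.1, hi.2.2⟩
  have h5 : pr ε E S w (Sum.inl j) = ε * w j := rfl
  rw [h5]
  have h6 : 0 ≤ ε * w j := mul_nonneg hε0 (h.nonneg j hj)
  calc ε * (1 - r * ε) * w j = ε * w j * (1 - ε * r) := by ring
    _ ≤ ε * w j * _ := mul_le_mul_of_nonneg_left (by linarith) h6

/-- The isolated chosen edges form a matching. -/
theorem iso_matching (T : Finset (J ⊕ V)) :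
    ∀ i ∈ iso E S T, ∀ j ∈ iso E S T, i ≠ j → Disjoint (S i) (S j) := by
  intro i hi j hj hij
  unfold iso at hi hj
  rw [mem_filter] at hi hj
  exact hj.2.2 i hi.1 hij hi.2.1

/-- Surviving edges are disjoint from the chosen edges. -/
theorem iso_disjoint_surv {T : Finset (J ⊕ V)} {X : Finset V} (h : Surv E S X T) :
    ∀ i ∈ iso E S T, Disjoint (S i) X := by
  intro i hi
  unfold iso at hi
  rw [mem_filter] at hi
  by_contra hd
  unfold Surv at h
  refine disjoint_left.1 h hi.2.1 ?_
  unfold hit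
  simpa using ⟨hi.1, hd⟩

end Pool.Agent.PGr.Nib
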