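import Pool.Agent.PGr.NibSurv

/-!
# PGr tools: second moment of the new degrees
-/

namespace Pool.Agent.PGr.Nib

open Finset

variable {V J : Type*} [DecidableEq V] [DecidableEq J]
variable {r : ℕ} {δ ε : ℝ} {E : Finset J} {S : J → Finset V} {w : J → ℝ}

/-- The weight of the edges through `v` meeting `S i` in a further vertex. -/
theorem sum_two (hδ0 : 0 ≤ δ) (h : OK r δ E S w) {i : J} (hi : i ∈ E) (v : V) :
    ∑ j ∈ E.filter (fun j => v ∈ S j),
      w j * (if ∃ u ∈ S i, u ∈ S j ∧ u ≠ v then (1 : ℝ) else 0) ≤ r * δ := by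
  have h1 : ∑ j ∈ E.filter (fun j => v ∈ S j),
      w j * (if ∃ u ∈ S i, u ∈ S j ∧ u ≠ v then (1 : ℝ) else 0) ≤
      ∑ j ∈ E, ∑ u ∈ (S i).erase v, (if u ∈ S j ∧ v ∈ S j then w j else 0) := by
    rw [Finset.sum_filter]
    refine sum_le_sum fun j hj => ?_
    have h0 : 0 ≤ ∑ u ∈ (S i).erase v, (if u ∈ S j ∧ v ∈ S j then w j else 0) := by
      refine sum_nonneg fun u _ => ?_
      split_ifs
      · exact h.nonneg j hj
      · exact le_rfl
    by_cases hv : v ∈ S j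
    · rw [if_pos hv]
      by_cases hu : ∃ u ∈ S i, u ∈ S j ∧ u ≠ v
      · rw [if_pos hu, mul_one]
        obtain ⟨u, hu1, hu2, hu3⟩ := hu
        refine le_trans ?_ (single_le_sum (f := fun u => if u ∈ S j ∧ v ∈ S j then w j else 0)
          (fun u _ => ?_) (mem_erase.2 ⟨hu3, hu1⟩))
        · simp [hu2, hv]
        · split_ifs
          · exact h.nonneg j hj
          · exact le_rfl
      · rw [if_neg hu, mul_zero]
        exact h0
    · rw [if_neg hv]
      exact h0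
  refine h1.trans ?_
  rw [sum_comm]
  have h2 : ∀ u ∈ (S i).erase v, ∑ j ∈ E, (if u ∈ S j ∧ v ∈ S j then w j else 0) ≤ δ := by
    intro u hu
    rw [← Finset.sum_filter]
    exact h.codeg_le u v (mem_erase.1 hu).1
  refine (sum_le_sum h2).trans ?_
  rw [sum_const, nsmul_eq_mul]
  refine mul_le_mul_of_nonneg_right ?_ hδ0
  have h3 := card_erase_le (s := S i) (a := v)
  rw [h.card i hi] at h3
  exact_mod_cast h3

/-- The mean of the new degree is at least `(1 - ε)` times the old degree. -/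
theorem mean_Dn (hr : 1 ≤ r) (h : OK r δ E S w) (hε0 : 0 ≤ ε) (hε1 : ε ≤ 1 / 2) (v : V) :
    (1 - ε) * deg E S w v ≤ EW (AI E S) (pr ε E S w) (fun T => Dn r ε E S w T v) := by
  unfold Dn deg wn
  rw [EW_sum, mul_sum]
  refine sum_le_sum fun j hj => ?_
  rw [mem_filter] at hj
  rw [EW_const_mul]
  have hX : S j ⊆ VS E S := subset_biUnion_of_mem S hj.1
  have h1 := surv_ge hr h hε0 hε1 (S j) hX
  rw [h.card j hj.1] at h1
  have h2 : (0 : ℝ) < (1 - ε) ^ (r - 1) := pow_pos (by linarith) _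
  have h3 := h.nonneg j hj.1
  have h4 : 0 ≤ w j / (1 - ε) ^ (r - 1) := div_nonneg h3 h2.le
  refine le_trans (le_of_eq ?_) (mul_le_mul_of_nonneg_left h1 h4)
  obtain ⟨n, rfl⟩ : ∃ n, r = n + 1 := ⟨r - 1, by omega⟩
  rw [Nat.add_sub_cancel] at h2 ⊢
  rw [pow_succ]
  field_simp

/-- Total new weight. -/
theorem mean_total (hr : 1 ≤ r) (h : OK r δ E S w) (hε0 : 0 ≤ ε) (hε1 : ε ≤ 1 / 2) :
    (1 - ε) * ∑ j ∈ E, w j ≤
      EW (AI E S) (pr ε E S w) (fun T => ∑ j ∈ E, wn r ε E S w T j) := by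
  unfold wn
  rw [EW_sum, mul_sum]
  refine sum_le_sum fun j hj => ?_
  rw [EW_const_mul]
  have hX : S j ⊆ VS E S := subset_biUnion_of_mem S hj
  have h1 := surv_ge hr h hε0 hε1 (S j) hX
  rw [h.card j hj] at h1
  have h2 : (0 : ℝ) < (1 - ε) ^ (r - 1) := pow_pos (by linarith) _
  have h3 := h.nonneg j hj
  have h4 : 0 ≤ w j / (1 - ε) ^ (r - 1) := div_nonneg h3 h2.le
  refine le_trans (le_of_eq ?_) (mul_le_mul_of_nonneg_left h1 h4)
  obtain ⟨n, rfl⟩ : ∃ n, r = n + 1 := ⟨r - 1, by omega⟩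
  rw [Nat.add_sub_cancel] at h2 ⊢
  rw [pow_succ]
  field_simp

/-- The second moment of the new degree. -/
theorem second_Dn (hr : 2 ≤ r) (h : OK r δ E S w) (hε0 : 0 ≤ ε) (hε1 : ε ≤ 1 / 2)
    (hδ0 : 0 ≤ δ) (hδ : 8 * (r : ℝ) ^ 2 * δ ≤ 1) (v : V) :
    EW (AI E S) (pr ε E S w) (fun T => Dn r ε E S w T v ^ 2) ≤
      (1 - ε) * (1 + 16 * (r : ℝ) ^ 2 * δ) * deg E S w v ^ 2 + 4 ^ r * r * δ * deg E S w v := by
  have hr1 : 1 ≤ r := by omega
  set N := E.filter (fun j => v ∈ S j) with hN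
  set a : ℝ := ((1 - ε) ^ (r - 1))⁻¹ with ha
  have hq : (0 : ℝ) < 1 - ε := by linarith
  have ha0 : 0 < a := inv_pos.2 (pow_pos hq _)
  have hP0 : ∀ X : Finset V, 0 ≤ EW (AI E S) (pr ε E S w)
      (fun T => if Surv E S X T then (1 : ℝ) else 0) := by
    intro X
    have h1 := EW_mono (pr_nonneg hr1 h hε0 hε1) (pr_le_one hr1 h hε0 hε1)
      (f := fun _ => 0) (g := fun T => if Surv E S X T then (1 : ℝ) else 0)
      (fun T _ => by beta_reduce; split_ifs <;> norm_num)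
    have h2 : EW (AI E S) (pr ε E S w) (fun _ => 0) = 0 := by
      unfold EW
      simp
    linarith
  have hP1 : ∀ X : Finset V, EW (AI E S) (pr ε E S w)
      (fun T => if Surv E S X T then (1 : ℝ) else 0) ≤ 1 := by
    intro X
    have h1 := EW_mono (pr_nonneg hr1 h hε0 hε1) (pr_le_one hr1 h hε0 hε1)
      (f := fun T => if Surv E S X T then (1 : ℝ) else 0) (g := fun _ => 1)
      (fun T _ => by beta_reduce; split_ifs <;> norm_num)
    rwa [EW_one] at h1
  -- expand the square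
  have e1 : ∀ T ⊆ AI E S, Dn r ε E S w T v ^ 2 =
      ∑ i ∈ N, ∑ j ∈ N, (w i * w j * a ^ 2) * (if Surv E S (S i ∪ S j) T then 1 else 0) := by
    intro T _
    unfold Dn
    rw [sq, sum_mul_sum]
    refine sum_congr rfl fun i _ => sum_congr rfl fun j _ => ?_
    unfold wn
    have h1 : (if Surv E S (S i ∪ S j) T then (1 : ℝ) else 0) =
        (if Surv E S (S i) T then 1 else 0) * (if Surv E S (S j) T then 1 else 0) := by
      by_cases h1 : Surv E S (S i) T
      · by_cases h2 : Surv E S (S j) T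
        · rw [if_pos h1, if_pos h2, if_pos (surv_union.2 ⟨h1, h2⟩), mul_one]
        · rw [if_neg h2, if_neg (fun h3 => h2 (surv_union.1 h3).2), mul_zero]
      · rw [if_neg h1, if_neg (fun h3 => h1 (surv_union.1 h3).1), zero_mul]
    rw [h1, ha]
    ring
  rw [EW_congr e1, EW_sum]
  have e2 : ∀ i ∈ N, EW (AI E S) (pr ε E S w) (fun T => ∑ j ∈ N, (w i * w j * a ^ 2) *
      (if Surv E S (S i ∪ S j) T then 1 else 0)) =
      ∑ j ∈ N, (w i * w j) * (a ^ 2 * EW (AI E S) (pr ε E S w)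
        (fun T => if Surv E S (S i ∪ S j) T then (1 : ℝ) else 0)) := by
    intro i _
    rw [EW_sum]
    refine sum_congr rfl fun j _ => ?_
    rw [EW_const_mul]
    ring
  rw [sum_congr rfl e2]
  -- the bound for a pair
  have e3 : ∀ i ∈ N, ∀ j ∈ N, a ^ 2 * EW (AI E S) (pr ε E S w)
      (fun T => if Surv E S (S i ∪ S j) T then (1 : ℝ) else 0) ≤
      (1 - ε) * (1 + 16 * (r : ℝ) ^ 2 * δ) +
        4 ^ r * (if ∃ u ∈ S i, u ∈ S j ∧ u ≠ v then (1 : ℝ) else 0) := by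
    intro i hi j hj
    rw [hN, mem_filter] at hi hj
    by_cases hu : ∃ u ∈ S i, u ∈ S j ∧ u ≠ v
    · rw [if_pos hu, mul_one]
      have h1 : a ^ 2 ≤ 4 ^ r := by
        have h2 : a ≤ 2 ^ (r - 1) := by
          rw [ha, ← inv_pow]
          refine pow_le_pow_left₀ (inv_nonneg.2 hq.le) ?_ _
          rw [inv_le_comm₀ hq (by norm_num)]
          linarith
        calc a ^ 2 ≤ (2 ^ (r - 1)) ^ 2 := pow_le_pow_left₀ ha0.le h2 2
          _ = 4 ^ (r - 1) := by rw [← pow_mul, mul_comm, pow_mul]; norm_num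
          _ ≤ 4 ^ r := pow_le_pow_right₀ (by norm_num) (by omega)
      have h3 : a ^ 2 * EW (AI E S) (pr ε E S w)
          (fun T => if Surv E S (S i ∪ S j) T then (1 : ℝ) else 0) ≤ a ^ 2 * 1 :=
        mul_le_mul_of_nonneg_left (hP1 _) (sq_nonneg a)
      have h4 : 0 ≤ (1 - ε) * (1 + 16 * (r : ℝ) ^ 2 * δ) := by positivity
      linarith
    · rw [if_neg hu, mul_zero, add_zero]
      have h5 : S i ∩ S j = {v} := by
        ext u
        rw [mem_inter, mem_singleton]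
        constructor
        · rintro ⟨h6, h7⟩
          by_contra h8
          exact hu ⟨u, h6, h7, h8⟩
        · rintro rfl
          exact ⟨hi.2, hj.2⟩
      have h6 : (S i ∪ S j).card = 2 * r - 1 := by
        have := card_union_add_card_inter (S i) (S j)
        rw [h5, card_singleton, h.card i hi.1, h.card j hj.1] at this
        omega
      have hX : S i ∪ S j ⊆ VS E S :=
        union_subset (subset_biUnion_of_mem S hi.1) (subset_biUnion_of_mem S hj.1)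
      have h7 := surv_le hr1 h hε0 hε1 hδ0 hδ (S i ∪ S j) hX (by omega)
      rw [h6] at h7
      have h8 : a ^ 2 * (1 - ε) ^ (2 * r - 1) = 1 - ε := by
        obtain ⟨n, rfl⟩ : ∃ n, r = n + 1 := ⟨r - 1, by omega⟩
        rw [ha, Nat.add_sub_cancel, inv_pow, ← pow_mul,
          show 2 * (n + 1) - 1 = n * 2 + 1 by omega, pow_succ]
        have : (0 : ℝ) < (1 - ε) ^ (n * 2) := pow_pos hq _
        field_simp
      calc a ^ 2 * EW (AI E S) (pr ε E S w)
            (fun T => if Surv E S (S i ∪ S j) T then (1 : ℝ) else 0)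
          ≤ a ^ 2 * ((1 - ε) ^ (2 * r - 1) * (1 + 16 * (r : ℝ) ^ 2 * δ)) :=
            mul_le_mul_of_nonneg_left h7 (sq_nonneg a)
        _ = (a ^ 2 * (1 - ε) ^ (2 * r - 1)) * (1 + 16 * (r : ℝ) ^ 2 * δ) := by ring
        _ = (1 - ε) * (1 + 16 * (r : ℝ) ^ 2 * δ) := by rw [h8]
  have hw : ∀ i ∈ N, 0 ≤ w i := fun i hi => h.nonneg i (mem_filter.1 hi).1
  calc ∑ i ∈ N, ∑ j ∈ N, (w i * w j) * (a ^ 2 * EW (AI E S) (pr ε E S w)
        (fun T => if Surv E S (S i ∪ S j) T then (1 : ℝ) else 0))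
      ≤ ∑ i ∈ N, ∑ j ∈ N, (w i * w j) * ((1 - ε) * (1 + 16 * (r : ℝ) ^ 2 * δ) +
        4 ^ r * (if ∃ u ∈ S i, u ∈ S j ∧ u ≠ v then (1 : ℝ) else 0)) :=
        sum_le_sum fun i hi => sum_le_sum fun j hj =>
          mul_le_mul_of_nonneg_left (e3 i hi j hj) (mul_nonneg (hw i hi) (hw j hj))
    _ = (1 - ε) * (1 + 16 * (r : ℝ) ^ 2 * δ) * (∑ i ∈ N, w i) ^ 2 +
        ∑ i ∈ N, 4 ^ r * w i *
          ∑ j ∈ N, w j * (if ∃ u ∈ S i, u ∈ S j ∧ u ≠ v then (1 : ℝ) else 0) := by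
        have e4 : ∀ i ∈ N, ∑ j ∈ N, (w i * w j) * ((1 - ε) * (1 + 16 * (r : ℝ) ^ 2 * δ) +
            4 ^ r * (if ∃ u ∈ S i, u ∈ S j ∧ u ≠ v then (1 : ℝ) else 0)) =
            (1 - ε) * (1 + 16 * (r : ℝ) ^ 2 * δ) * (w i * ∑ j ∈ N, w j) +
            4 ^ r * w i *
              ∑ j ∈ N, w j * (if ∃ u ∈ S i, u ∈ S j ∧ u ≠ v then (1 : ℝ) else 0) := by
          intro i _
          rw [mul_sum, mul_sum, mul_sum, ← sum_add_distrib]
          exact sum_congr rfl fun j _ => by ring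
        rw [sum_congr rfl e4, sum_add_distrib, ← mul_sum, ← sum_mul, ← sq]
    _ ≤ (1 - ε) * (1 + 16 * (r : ℝ) ^ 2 * δ) * (∑ i ∈ N, w i) ^ 2 +
        ∑ i ∈ N, 4 ^ r * w i * (r * δ) := by
        refine add_le_add le_rfl (sum_le_sum fun i hi => ?_)
        refine mul_le_mul_of_nonneg_left (sum_two hδ0 h (mem_filter.1 hi).1 v) ?_
        have := hw i hi
        positivity
    _ = _ := by
        unfold deg
        rw [← sum_mul, ← mul_sum]
        ring

/-- The variance bound. -/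
theorem var_bound (hr : 2 ≤ r) (h : OK r δ E S w) (hε0 : 0 ≤ ε) (hε1 : ε ≤ 1 / 2)
    (hδ0 : 0 ≤ δ) (hδ : 8 * (r : ℝ) ^ 2 * δ ≤ 1) (v : V) (hv : v ∈ VS E S) :
    EW (AI E S) (pr ε E S w)
      (fun T => (Dn r ε E S w T v - deg E S w v * (if Surv E S {v} T then 1 else 0)) ^ 2) ≤
      (16 * (r : ℝ) ^ 2 + 4 ^ r * r) * δ * deg E S w v := by
  have hr1 : 1 ≤ r := by omega
  have e1 : ∀ T ⊆ AI E S,
      (Dn r ε E S w T v - deg E S w v * (if Surv E S {v} T then 1 else 0)) ^ 2 =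
      (Dn r ε E S w T v ^ 2 - (2 * deg E S w v) * Dn r ε E S w T v) +
        (deg E S w v ^ 2) * (if Surv E S {v} T then 1 else 0) := by
    intro T _
    by_cases hs : Surv E S {v} T
    · rw [if_pos hs]
      ring
    · have h0 : Dn r ε E S w T v = 0 := by
        unfold Dn
        refine sum_eq_zero fun j hj => ?_
        unfold wn
        rw [if_neg, mul_zero]
        intro h1
        exact hs (surv_mono (singleton_subset_iff.2 (mem_filter.1 hj).2) h1)
      rw [if_neg hs, h0]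
      ring
  rw [EW_congr e1, EW_add, EW_sub, EW_const_mul, EW_const_mul, surv_single hr1 h hε0 hε1 v hv]
  have h1 := second_Dn hr h hε0 hε1 hδ0 hδ v
  have h2 := mean_Dn hr1 h hε0 hε1 v
  have h3 := deg_nonneg h v
  have h4 := h.deg_le v
  have h5 : 2 * deg E S w v * ((1 - ε) * deg E S w v) ≤ 2 * deg E S w v *
      EW (AI E S) (pr ε E S w) (fun T => Dn r ε E S w T v) :=
    mul_le_mul_of_nonneg_left h2 (by linarith)
  have h6 : deg E S w v ^ 2 ≤ deg E S w v := by nlinarith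
  have h7 : (1 - ε) * (16 * (r : ℝ) ^ 2 * δ) * deg E S w v ^ 2 ≤
      16 * (r : ℝ) ^ 2 * δ * deg E S w v := by
    have h8 : 0 ≤ 16 * (r : ℝ) ^ 2 * δ := by positivity
    have h9 : (1 - ε) * (16 * (r : ℝ) ^ 2 * δ) ≤ 16 * (r : ℝ) ^ 2 * δ := by nlinarith
    calc (1 - ε) * (16 * (r : ℝ) ^ 2 * δ) * deg E S w v ^ 2
        ≤ 16 * (r : ℝ) ^ 2 * δ * deg E S w v ^ 2 :=
          mul_le_mul_of_nonneg_right h9 (sq_nonneg _)
      _ ≤ _ := mul_le_mul_of_nonneg_left h6 h8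
  nlinarith [h1, h5, h7]

end Pool.Agent.PGr.Nib
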