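import Pool.Agent.PGr.NibIso
import Pool.Agent.PGr.NibVar

/-!
# PGr tools: one round of the nibble
-/

namespace Pool.Agent.PGr.Nib

open Finset

variable {V J : Type*} [DecidableEq V] [DecidableEq J]
variable {r : ℕ} {δ ε : ℝ} {E : Finset J} {S : J → Finset V} {w : J → ℝ}

private theorem wn_nonneg (h : OK r δ E S w) (hε1 : ε ≤ 1 / 2) (T : Finset (J ⊕ V)) {j : J}
    (hj : j ∈ E) : 0 ≤ wn r ε E S w T j := by
  unfold wn
  have h1 := h.nonneg j hj
  have h2 : (0 : ℝ) < (1 - ε) ^ (r - 1) := pow_pos (by linarith) _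
  split_ifs
  · positivity
  · rw [mul_zero]

private theorem wn_le (h : OK r δ E S w) (hε0 : 0 ≤ ε) (hε1 : ε ≤ 1 / 2) (T : Finset (J ⊕ V))
    {j : J} (hj : j ∈ E) : wn r ε E S w T j ≤ 2 ^ r * w j := by
  unfold wn
  have h1 := h.nonneg j hj
  have hq : (0 : ℝ) < 1 - ε := by linarith
  have h2 : (0 : ℝ) < (1 - ε) ^ (r - 1) := pow_pos hq _
  have h3 : w j / (1 - ε) ^ (r - 1) ≤ 2 ^ r * w j := by
    rw [div_eq_mul_inv, mul_comm, ← inv_pow]
    refine mul_le_mul_of_nonneg_right ?_ h1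
    calc ((1 - ε)⁻¹) ^ (r - 1) ≤ 2 ^ (r - 1) := by
          refine pow_le_pow_left₀ (inv_nonneg.2 hq.le) ?_ _
          rw [inv_le_comm₀ hq (by norm_num)]
          linarith
      _ ≤ 2 ^ r := pow_le_pow_right₀ (by norm_num) (by omega)
  split_ifs
  · rw [mul_one]
    exact h3
  · rw [mul_zero]
    positivity

/-- The truncated part of a degree. -/
private theorem trunc {D d s γ : ℝ} (hγ0 : 0 < γ) (hγ1 : γ ≤ 1) (hd1 : d ≤ 1) (hd0 : 0 ≤ d)
    (hs0 : 0 ≤ s) (hs1 : s ≤ 1) :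
    (if 1 + γ < D then D else 0) ≤ 2 / γ ^ 2 * (D - d * s) ^ 2 := by
  have hγ2 : 0 < γ ^ 2 := by positivity
  split_ifs with h
  · have hds : d * s ≤ 1 := by nlinarith
    set y := D - d * s with hy
    have hyγ : γ < y := by linarith
    have h1 : D ≤ y + 1 := by linarith
    rw [div_mul_eq_mul_div, le_div_iff₀ hγ2]
    have h2 : γ ^ 2 ≤ y ^ 2 := pow_le_pow_left₀ hγ0.le hyγ.le 2
    have h3 : γ ^ 2 * y ≤ y ^ 2 := by
      have : γ ^ 2 ≤ y := by nlinarith
      nlinarith
    nlinarith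
  · positivity

theorem round {γ c : ℝ} (hr : 2 ≤ r) (hγ0 : 0 < γ) (hγ1 : γ ≤ 1) (hc0 : 0 ≤ c) (hε0 : 0 ≤ ε)
    (hε1 : ε ≤ 1 / 2) (hδ0 : 0 ≤ δ) (hδ1 : 8 * (r : ℝ) ^ 2 * δ ≤ 1)
    (hδ2 : 8 * (16 * (r : ℝ) ^ 2 + 4 ^ r * r) * r * δ ≤ γ ^ 3) (h : OK r δ E S w) :
    ∃ M ⊆ E, (∀ i ∈ M, ∀ j ∈ M, i ≠ j → Disjoint (S i) (S j)) ∧
      ∃ E' ⊆ E, ∃ w' : J → ℝ, OK r (2 ^ r * δ) E' S w' ∧
        (∀ i ∈ M, ∀ j ∈ E', Disjoint (S i) (S j)) ∧
        (ε * (1 - r * ε) + c * ((1 - ε) * (1 - 2 * γ))) * ∑ j ∈ E, w j ≤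
          (M.card : ℝ) + c * ∑ j ∈ E', w' j := by
  have hr1 : 1 ≤ r := by omega
  set K : ℝ := 16 * (r : ℝ) ^ 2 + 4 ^ r * r with hK
  have hK0 : 0 ≤ K := by positivity
  set W : ℝ := ∑ j ∈ E, w j with hW
  have hW0 : 0 ≤ W := sum_nonneg h.nonneg
  have hγ2 : 0 < γ ^ 2 := by positivity
  have hp0 := pr_nonneg hr1 h hε0 hε1
  have hp1 := pr_le_one hr1 h hε0 hε1
  set R : Finset (J ⊕ V) → ℝ := fun T =>
    ∑ v ∈ VS E S, (if 1 + γ < Dn r ε E S w T v then Dn r ε E S w T v else 0) with hR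
  -- the mean of the truncated part
  have hRE : EW (AI E S) (pr ε E S w) R ≤ 2 / γ ^ 2 * (K * δ) * (r * W) := by
    have h1 : EW (AI E S) (pr ε E S w) R ≤ EW (AI E S) (pr ε E S w) (fun T =>
        ∑ v ∈ VS E S, 2 / γ ^ 2 * (Dn r ε E S w T v -
          deg E S w v * (if Surv E S {v} T then 1 else 0)) ^ 2) := by
      refine EW_mono hp0 hp1 fun T _ => ?_
      simp only [hR]
      refine sum_le_sum fun v _ => ?_
      refine trunc hγ0 hγ1 (h.deg_le v) (deg_nonneg h v) ?_ ?_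
      · split_ifs <;> norm_num
      · split_ifs <;> norm_num
    refine h1.trans ?_
    rw [EW_sum]
    have h2 : ∀ v ∈ VS E S, EW (AI E S) (pr ε E S w) (fun T => 2 / γ ^ 2 * (Dn r ε E S w T v -
        deg E S w v * (if Surv E S {v} T then 1 else 0)) ^ 2) ≤
        2 / γ ^ 2 * (K * δ) * deg E S w v := by
      intro v hv
      rw [EW_const_mul, mul_assoc]
      refine mul_le_mul_of_nonneg_left ?_ (by positivity)
      exact var_bound hr h hε0 hε1 hδ0 hδ1 v hv
    refine (sum_le_sum h2).trans (le_of_eq ?_)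
    rw [← mul_sum, sum_deg h]
  set f : Finset (J ⊕ V) → ℝ := fun T => ((iso E S T).card : ℝ) +
    c / (1 + γ) * ((∑ j ∈ E, wn r ε E S w T j) - R T) with hf
  obtain ⟨T, hT, hTf⟩ := exists_EW_le hp0 hp1 f
  have hfE : (ε * (1 - r * ε) + c * ((1 - ε) * (1 - 2 * γ))) * W ≤
      EW (AI E S) (pr ε E S w) f := by
    have h1 : EW (AI E S) (pr ε E S w) f =
        EW (AI E S) (pr ε E S w) (fun T => ((iso E S T).card : ℝ)) +
        c / (1 + γ) * (EW (AI E S) (pr ε E S w) (fun T => ∑ j ∈ E, wn r ε E S w T j) -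
          EW (AI E S) (pr ε E S w) R) := by
      rw [← EW_sub, ← EW_const_mul, ← EW_add]
    rw [h1]
    have h2 := iso_bound hr1 h hε0 hε1
    have h3 := mean_total hr1 h hε0 hε1
    have h4 : (1 - ε) * (1 - 2 * γ) * W * (1 + γ) ≤
        EW (AI E S) (pr ε E S w) (fun T => ∑ j ∈ E, wn r ε E S w T j) -
          EW (AI E S) (pr ε E S w) R := by
      have h5 : 2 / γ ^ 2 * (K * δ) * (r * W) ≤ γ / 4 * W := by
        have h6 : 2 / γ ^ 2 * (K * δ) * r ≤ γ / 4 := by
          rw [div_mul_eq_mul_div, div_mul_eq_mul_div, div_le_iff₀ hγ2]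
          nlinarith
        calc 2 / γ ^ 2 * (K * δ) * (r * W) = (2 / γ ^ 2 * (K * δ) * r) * W := by ring
          _ ≤ γ / 4 * W := mul_le_mul_of_nonneg_right h6 hW0
      have h7 : (1 - ε) * (1 - 2 * γ) * W * (1 + γ) ≤ (1 - ε) * W - γ / 4 * W := by
        have h8 : (1 - ε) * (1 - 2 * γ) * (1 + γ) ≤ (1 - ε) - γ / 4 := by nlinarith
        calc (1 - ε) * (1 - 2 * γ) * W * (1 + γ) = ((1 - ε) * (1 - 2 * γ) * (1 + γ)) * W := by ring
          _ ≤ ((1 - ε) - γ / 4) * W := mul_le_mul_of_nonneg_right h8 hW0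
          _ = _ := by ring
      linarith
    have h9 : c * ((1 - ε) * (1 - 2 * γ)) * W ≤
        c / (1 + γ) * (EW (AI E S) (pr ε E S w) (fun T => ∑ j ∈ E, wn r ε E S w T j) -
          EW (AI E S) (pr ε E S w) R) := by
      have h10 : 0 ≤ c / (1 + γ) := by positivity
      refine le_trans (le_of_eq ?_) (mul_le_mul_of_nonneg_left h4 h10)
      field_simp
    linarith
  refine ⟨iso E S T, ?_, iso_matching T, ?_⟩
  · unfold iso
    exact filter_subset _ _
  refine ⟨E.filter (fun j => Surv E S (S j) T ∧ ∀ v ∈ S j, Dn r ε E S w T v ≤ 1 + γ),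
    filter_subset _ _, fun j => wn r ε E S w T j / (1 + γ), ?_, ?_, ?_⟩
  · refine ⟨fun j hj => h.card j (mem_filter.1 hj).1, fun j hj => ?_, fun v => ?_, ?_⟩
    · exact div_nonneg (wn_nonneg h hε1 T (mem_filter.1 hj).1) (by linarith)
    · unfold deg
      by_cases hv : ∃ j ∈ E, (Surv E S (S j) T ∧ ∀ v ∈ S j, Dn r ε E S w T v ≤ 1 + γ) ∧ v ∈ S j
      · obtain ⟨j, _, hj2, hj3⟩ := hv
        have h1 := hj2.2 v hj3
        rw [← sum_div, div_le_one (by linarith)]
        refine le_trans ?_ h1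
        unfold Dn
        refine sum_le_sum_of_subset_of_nonneg (fun i hi => ?_) fun i hi _ =>
          wn_nonneg h hε1 T (mem_filter.1 hi).1
        rw [mem_filter, mem_filter] at hi
        exact mem_filter.2 ⟨hi.1.1, hi.2⟩
      · rw [sum_eq_zero]
        · exact zero_le_one
        · intro j hj
          rw [mem_filter, mem_filter] at hj
          exact absurd ⟨j, hj.1.1, hj.1.2, hj.2⟩ hv
    · intro u v huv
      unfold codeg
      have h1 := h.codeg_le u v huv
      calc ∑ j ∈ (E.filter _).filter (fun j => u ∈ S j ∧ v ∈ S j), wn r ε E S w T j / (1 + γ)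
          ≤ ∑ j ∈ E.filter (fun j => u ∈ S j ∧ v ∈ S j), 2 ^ r * w j := by
            refine (sum_le_sum (g := fun j => 2 ^ r * w j) fun j hj => ?_).trans
              (sum_le_sum_of_subset_of_nonneg (fun i hi => ?_) fun i hi _ => ?_)
            · have hjE := (mem_filter.1 (mem_filter.1 hj).1).1
              refine le_trans (div_le_self (wn_nonneg h hε1 T hjE) (by linarith)) ?_
              exact wn_le h hε0 hε1 T hjE
            · rw [mem_filter, mem_filter] at hi
              exact mem_filter.2 ⟨hi.1.1, hi.2⟩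
            · have := h.nonneg i (mem_filter.1 hi).1
              positivity
        _ = 2 ^ r * codeg E S w u v := by
            unfold codeg
            rw [← mul_sum]
        _ ≤ 2 ^ r * δ := mul_le_mul_of_nonneg_left h1 (by positivity)
  · intro i hi j hj
    exact iso_disjoint_surv (mem_filter.1 hj).2.1 i hi
  · refine hfE.trans (hTf.trans ?_)
    simp only [hf]
    refine add_le_add le_rfl ?_
    rw [← sum_div, div_mul_eq_mul_div, mul_div_assoc]
    refine mul_le_mul_of_nonneg_left ?_ hc0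
    refine div_le_div_of_nonneg_right ?_ (by linarith)
    -- the weight of the removed edges
    rw [sub_le_iff_le_add]
    have h1 : ∑ j ∈ E, wn r ε E S w T j =
        ∑ j ∈ E.filter (fun j => Surv E S (S j) T ∧ ∀ v ∈ S j, Dn r ε E S w T v ≤ 1 + γ),
          wn r ε E S w T j +
        ∑ j ∈ E.filter (fun j => ¬ (Surv E S (S j) T ∧ ∀ v ∈ S j, Dn r ε E S w T v ≤ 1 + γ)),
          wn r ε E S w T j := (sum_filter_add_sum_filter_not _ _ _).symm
    rw [h1]
    refine add_le_add le_rfl ?_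
    simp only [hR]
    have h2 : ∑ j ∈ E.filter (fun j => ¬ (Surv E S (S j) T ∧
        ∀ v ∈ S j, Dn r ε E S w T v ≤ 1 + γ)), wn r ε E S w T j ≤
        ∑ j ∈ E, ∑ v ∈ VS E S, (if 1 + γ < Dn r ε E S w T v then
          (if v ∈ S j then wn r ε E S w T j else 0) else 0) := by
      rw [Finset.sum_filter]
      refine sum_le_sum fun j hj => ?_
      have hnn : ∀ v ∈ VS E S, 0 ≤ (if 1 + γ < Dn r ε E S w T v then
          (if v ∈ S j then wn r ε E S w T j else 0) else 0) := by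
        intro v _
        split_ifs
        · exact wn_nonneg h hε1 T hj
        · exact le_rfl
        · exact le_rfl
      by_cases hb : Surv E S (S j) T ∧ ∀ v ∈ S j, Dn r ε E S w T v ≤ 1 + γ
      · rw [if_neg (not_not.2 hb)]
        exact sum_nonneg hnn
      · rw [if_pos hb]
        by_cases hs : Surv E S (S j) T
        · have hb' : ¬ ∀ v ∈ S j, Dn r ε E S w T v ≤ 1 + γ := fun hall => hb ⟨hs, hall⟩
          push Not at hb'
          obtain ⟨v, hv, hv2⟩ := hb'
          have hvV : v ∈ VS E S := mem_biUnion.2 ⟨j, hj, hv⟩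
          refine le_trans ?_ (single_le_sum hnn hvV)
          rw [if_pos hv2, if_pos hv]
        · have : wn r ε E S w T j = 0 := by
            unfold wn
            rw [if_neg hs, mul_zero]
          rw [this]
          exact sum_nonneg fun v hv => by
            split_ifs <;> simp
    refine h2.trans (le_of_eq ?_)
    rw [sum_comm]
    refine sum_congr rfl fun v _ => ?_
    by_cases hv : 1 + γ < Dn r ε E S w T v
    · simp only [if_pos hv]
      unfold Dn
      rw [Finset.sum_filter]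
    · simp only [if_neg hv, sum_const_zero]

end Pool.Agent.PGr.Nib
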