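import Pool.Agent.PGr.NibProb

/-!
# PGr tools: survival probabilities in one round of the nibble
-/

namespace Pool.Agent.PGr.Nib

open Finset

variable {V J : Type*} [DecidableEq V] [DecidableEq J]

private theorem one_sub_sum_le_prod {I : Type*} [DecidableEq I] (s : Finset I) (x : I → ℝ)
    (h0 : ∀ i ∈ s, 0 ≤ x i) (h1 : ∀ i ∈ s, x i ≤ 1) :
    1 - ∑ i ∈ s, x i ≤ ∏ i ∈ s, (1 - x i) := by
  induction s using Finset.induction_on with
  | empty => simp
  | insert a s ha ih =>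
    rw [sum_insert ha, prod_insert ha]
    have h2 := ih (fun i hi => h0 i (mem_insert_of_mem hi)) (fun i hi => h1 i (mem_insert_of_mem hi))
    have h3 : ∏ i ∈ s, (1 - x i) ≤ 1 := prod_le_one
      (fun i hi => sub_nonneg.2 (h1 i (mem_insert_of_mem hi)))
      (fun i hi => by linarith [h0 i (mem_insert_of_mem hi)])
    have h4 := h0 a (mem_insert_self a s)
    nlinarith

theorem prod_ge {I : Type*} [DecidableEq I] (s : Finset I) (x : I → ℝ)
    (h0 : ∀ i ∈ s, 0 ≤ x i) (h1 : ∀ i ∈ s, x i ≤ 1) :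
    1 - ∑ i ∈ s, x i ≤ ∏ i ∈ s, (1 - x i) := one_sub_sum_le_prod s x h0 h1

variable {r : ℕ} {δ ε : ℝ} {E : Finset J} {S : J → Finset V} {w : J → ℝ}

omit [DecidableEq J] in
theorem q_pos (hr : 1 ≤ r) (h : OK r δ E S w) (hε0 : 0 ≤ ε) (hε1 : ε ≤ 1 / 2) {j : J}
    (hj : j ∈ E) : 0 < 1 - ε * w j := by
  have h1 := w_le_one hr h hj
  have h2 := h.nonneg j hj
  nlinarith

omit [DecidableEq J] in
theorem sv_pos (hr : 1 ≤ r) (h : OK r δ E S w) (hε0 : 0 ≤ ε) (hε1 : ε ≤ 1 / 2) (v : V) :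
    0 < sv ε E S w v :=
  prod_pos fun _ hj => q_pos hr h hε0 hε1 (mem_filter.1 hj).1

theorem sv_ge (hr : 1 ≤ r) (h : OK r δ E S w) (hε0 : 0 ≤ ε) (hε1 : ε ≤ 1 / 2) (v : V) :
    1 - ε ≤ sv ε E S w v := by
  have h1 := one_sub_sum_le_prod (E.filter fun j => v ∈ S j) (fun j => ε * w j)
    (fun j hj => mul_nonneg hε0 (h.nonneg j (mem_filter.1 hj).1))
    (fun j hj => by have := q_pos hr h hε0 hε1 (mem_filter.1 hj).1; linarith)
  rw [← mul_sum] at h1
  have h2 : ε * ∑ j ∈ E.filter (fun j => v ∈ S j), w j ≤ ε * 1 :=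
    mul_le_mul_of_nonneg_left (h.deg_le v) hε0
  unfold sv
  linarith

theorem pr_nonneg (hr : 1 ≤ r) (h : OK r δ E S w) (hε0 : 0 ≤ ε) (hε1 : ε ≤ 1 / 2) :
    ∀ i ∈ AI E S, 0 ≤ pr ε E S w i := by
  rintro (j | v) hi
  · have hj : j ∈ E := by
      unfold AI at hi
      simpa using hi
    exact mul_nonneg hε0 (h.nonneg j hj)
  · have h1 := sv_ge hr h hε0 hε1 v
    have h2 := sv_pos hr h hε0 hε1 v
    show 0 ≤ 1 - (1 - ε) / sv ε E S w v
    rw [sub_nonneg, div_le_one h2]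
    exact h1

theorem pr_le_one (hr : 1 ≤ r) (h : OK r δ E S w) (hε0 : 0 ≤ ε) (hε1 : ε ≤ 1 / 2) :
    ∀ i ∈ AI E S, pr ε E S w i ≤ 1 := by
  rintro (j | v) hi
  · have hj : j ∈ E := by
      unfold AI at hi
      simpa using hi
    have := q_pos hr h hε0 hε1 hj
    show ε * w j ≤ 1
    linarith
  · have h2 := sv_pos hr h hε0 hε1 v
    show 1 - (1 - ε) / sv ε E S w v ≤ 1
    have : 0 ≤ (1 - ε) / sv ε E S w v := div_nonneg (by linarith) h2.le
    linarith

theorem hit_subset {X : Finset V} (hX : X ⊆ VS E S) : hit E S X ⊆ AI E S := by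
  unfold hit AI
  exact Finset.disjSum_mono (filter_subset _ _) hX

/-- The exact survival probability. -/
theorem surv_eq (X : Finset V) (hX : X ⊆ VS E S) :
    EW (AI E S) (pr ε E S w) (fun T => if Surv E S X T then 1 else 0) =
      (∏ j ∈ E.filter (fun j => ¬ Disjoint (S j) X), (1 - ε * w j)) *
        ∏ v ∈ X, ((1 - ε) / sv ε E S w v) := by
  have h := EW_disj (AI E S) (pr ε E S w) (hit E S X) (hit_subset hX)
  have h2 : EW (AI E S) (pr ε E S w) (fun T => if Surv E S X T then 1 else 0) =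
      EW (AI E S) (pr ε E S w) (fun T => if Disjoint T (hit E S X) then 1 else 0) := by
    refine EW_congr fun T _ => ?_
    unfold Surv
    rfl
  rw [h2, h]
  unfold hit
  rw [Finset.prod_disjSum]
  congr 1
  refine prod_congr rfl fun v _ => ?_
  show 1 - (1 - (1 - ε) / sv ε E S w v) = _
  ring

/-- The product of the `sv v` over `v ∈ X`. -/
theorem prod_sv (X : Finset V) :
    ∏ v ∈ X, sv ε E S w v =
      ∏ j ∈ E.filter (fun j => ¬ Disjoint (S j) X), (1 - ε * w j) ^ ((S j ∩ X).card) := by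
  have h1 : ∏ v ∈ X, sv ε E S w v = ∏ j ∈ E, (1 - ε * w j) ^ ((S j ∩ X).card) := by
    unfold sv
    simp only [Finset.prod_filter]
    rw [prod_comm]
    refine prod_congr rfl fun j _ => ?_
    rw [← Finset.prod_filter, prod_const]
    congr 2
    ext v
    simp only [mem_filter, mem_inter]
    tauto
  rw [h1, Finset.prod_filter]
  refine prod_congr rfl fun j _ => ?_
  by_cases h : Disjoint (S j) X
  · rw [if_neg (not_not.2 h), disjoint_iff_inter_eq_empty.1 h, card_empty, pow_zero]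
  · rw [if_pos h]

/-- The excess factor. -/
theorem surv_eq' (hr : 1 ≤ r) (h : OK r δ E S w) (hε0 : 0 ≤ ε) (hε1 : ε ≤ 1 / 2)
    (X : Finset V) (hX : X ⊆ VS E S) :
    EW (AI E S) (pr ε E S w) (fun T => if Surv E S X T then 1 else 0) =
      (1 - ε) ^ X.card * ∏ j ∈ E.filter (fun j => ¬ Disjoint (S j) X),
        ((1 - ε * w j) ^ ((S j ∩ X).card - 1))⁻¹ := by
  rw [surv_eq X hX, prod_div_distrib, prod_const, prod_sv, mul_comm, div_mul_eq_mul_div,
    mul_div_assoc, ← prod_div_distrib]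
  congr 1
  refine prod_congr rfl fun j hj => ?_
  rw [mem_filter] at hj
  have h1 : 0 < (S j ∩ X).card := by
    rw [card_pos]
    rw [disjoint_iff_inter_eq_empty] at hj
    exact nonempty_iff_ne_empty.2 hj.2
  have h2 := q_pos hr h hε0 hε1 hj.1
  obtain ⟨n, hn⟩ : ∃ n, (S j ∩ X).card = n + 1 := ⟨(S j ∩ X).card - 1, by omega⟩
  rw [hn, Nat.add_sub_cancel, pow_succ]
  field_simp

theorem surv_ge (hr : 1 ≤ r) (h : OK r δ E S w) (hε0 : 0 ≤ ε) (hε1 : ε ≤ 1 / 2)
    (X : Finset V) (hX : X ⊆ VS E S) :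
    (1 - ε) ^ X.card ≤ EW (AI E S) (pr ε E S w) (fun T => if Surv E S X T then 1 else 0) := by
  rw [surv_eq' hr h hε0 hε1 X hX]
  refine le_mul_of_one_le_right (pow_nonneg (by linarith) _) ?_
  have key : ∀ j ∈ E.filter (fun j => ¬ Disjoint (S j) X),
      (1 : ℝ) ≤ ((1 - ε * w j) ^ ((S j ∩ X).card - 1))⁻¹ := by
    intro j hj
    rw [mem_filter] at hj
    have h2 := q_pos hr h hε0 hε1 hj.1
    have h3 := h.nonneg j hj.1
    refine (one_le_inv₀ (pow_pos h2 _)).2 (pow_le_one₀ h2.le ?_)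
    nlinarith
  calc (1 : ℝ) = ∏ _j ∈ E.filter (fun j => ¬ Disjoint (S j) X), (1 : ℝ) := by rw [prod_const_one]
    _ ≤ _ := prod_le_prod (fun _ _ => zero_le_one) key

/-- The sum over pairs. -/
theorem sum_pairs (h : OK r δ E S w) (X : Finset V) :
    ∑ j ∈ E, w j * (((S j ∩ X).card : ℝ) * (((S j ∩ X).card : ℝ) - 1)) ≤
      (X.card : ℝ) ^ 2 * δ ∨ X.card ≤ 1 := by
  by_cases hX : X.card ≤ 1
  · exact Or.inr hX
  left
  have hδ : 0 ≤ δ := by
    obtain ⟨u, hu, v, hv, huv⟩ := Finset.one_lt_card.1 (by omega : 1 < X.card)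
    exact (sum_nonneg fun j hj => h.nonneg j (mem_filter.1 hj).1).trans (h.codeg_le u v huv)
  have e1 : ∀ j ∈ E, w j * (((S j ∩ X).card : ℝ) * (((S j ∩ X).card : ℝ) - 1)) =
      ∑ a ∈ X.offDiag, (if a.1 ∈ S j ∧ a.2 ∈ S j then w j else 0) := by
    intro j _
    rw [← Finset.sum_filter, sum_const, nsmul_eq_mul, mul_comm]
    congr 1
    have e2 : (X.offDiag.filter fun a => a.1 ∈ S j ∧ a.2 ∈ S j) = (S j ∩ X).offDiag := by
      ext ⟨a, b⟩
      simp only [mem_filter, mem_offDiag, mem_inter]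
      tauto
    rw [e2, offDiag_card]
    have : (S j ∩ X).card ≤ (S j ∩ X).card * (S j ∩ X).card := Nat.le_mul_self _
    rw [Nat.cast_sub this]
    push_cast
    ring
  rw [sum_congr rfl e1, sum_comm]
  have e3 : ∀ a ∈ X.offDiag, ∑ j ∈ E, (if a.1 ∈ S j ∧ a.2 ∈ S j then w j else 0) ≤ δ := by
    intro a ha
    rw [← Finset.sum_filter]
    exact h.codeg_le a.1 a.2 (mem_offDiag.1 ha).2.2
  refine (sum_le_sum e3).trans ?_
  rw [sum_const, nsmul_eq_mul]
  refine mul_le_mul_of_nonneg_right ?_ hδ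
  rw [offDiag_card]
  have : ((X.card * X.card - X.card : ℕ) : ℝ) ≤ ((X.card * X.card : ℕ) : ℝ) := by
    exact_mod_cast Nat.sub_le _ _
  refine this.trans ?_
  push_cast
  rw [sq]

theorem surv_le (hr : 1 ≤ r) (h : OK r δ E S w) (hε0 : 0 ≤ ε) (hε1 : ε ≤ 1 / 2)
    (hδ0 : 0 ≤ δ) (hδ : 8 * (r : ℝ) ^ 2 * δ ≤ 1)
    (X : Finset V) (hX : X ⊆ VS E S) (hXr : X.card ≤ 2 * r) :
    EW (AI E S) (pr ε E S w) (fun T => if Surv E S X T then 1 else 0) ≤
      (1 - ε) ^ X.card * (1 + 16 * (r : ℝ) ^ 2 * δ) := by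
  rw [surv_eq' hr h hε0 hε1 X hX]
  refine mul_le_mul_of_nonneg_left ?_ (pow_nonneg (by linarith) _)
  -- each factor is at most exp (2 ε w n (n-1))
  have h1 : ∀ j ∈ E.filter (fun j => ¬ Disjoint (S j) X),
      ((1 - ε * w j) ^ ((S j ∩ X).card - 1))⁻¹ ≤
        Real.exp (2 * ε * (w j * (((S j ∩ X).card : ℝ) * (((S j ∩ X).card : ℝ) - 1)))) := by
    intro j hj
    rw [mem_filter] at hj
    have h2 := q_pos hr h hε0 hε1 hj.1
    have h3 := h.nonneg j hj.1
    have h4 := w_le_one hr h hj.1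
    have hn : 0 < (S j ∩ X).card := by
      rw [card_pos]
      rw [disjoint_iff_inter_eq_empty] at hj
      exact nonempty_iff_ne_empty.2 hj.2
    obtain ⟨n, hn⟩ : ∃ n, (S j ∩ X).card = n + 1 := ⟨(S j ∩ X).card - 1, by omega⟩
    rw [hn, Nat.add_sub_cancel]
    have h5 : (1 - ε * w j)⁻¹ ≤ Real.exp (2 * (ε * w j)) := by
      have h6 := Real.add_one_le_exp (2 * (ε * w j))
      refine le_trans ?_ h6
      rw [inv_le_iff_one_le_mul₀ h2]
      have h7 : 0 ≤ ε * w j := mul_nonneg hε0 h3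
      have h8 : ε * w j ≤ 1 / 2 := by nlinarith
      nlinarith
    calc ((1 - ε * w j) ^ n)⁻¹ = ((1 - ε * w j)⁻¹) ^ n := by rw [inv_pow]
      _ ≤ (Real.exp (2 * (ε * w j))) ^ n := pow_le_pow_left₀ (inv_nonneg.2 h2.le) h5 n
      _ = Real.exp (n * (2 * (ε * w j))) := by rw [← Real.exp_nat_mul]
      _ ≤ _ := by
          refine Real.exp_le_exp.2 ?_
          push_cast
          have h7 : 0 ≤ ε * w j := mul_nonneg hε0 h3
          have h9 : (0 : ℝ) ≤ n := Nat.cast_nonneg n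
          have h10 : 0 ≤ (n : ℝ) * (n : ℝ) * (ε * w j) := by positivity
          nlinarith
  have h1' : ∏ j ∈ E.filter (fun j => ¬ Disjoint (S j) X),
      ((1 - ε * w j) ^ ((S j ∩ X).card - 1))⁻¹ ≤
        Real.exp (∑ j ∈ E.filter (fun j => ¬ Disjoint (S j) X),
          2 * ε * (w j * (((S j ∩ X).card : ℝ) * (((S j ∩ X).card : ℝ) - 1)))) := by
    rw [Real.exp_sum]
    refine prod_le_prod (fun j hj => ?_) h1
    exact inv_nonneg.2 (pow_nonneg (q_pos hr h hε0 hε1 (mem_filter.1 hj).1).le _)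
  refine h1'.trans ?_
  have h11 : ∑ j ∈ E.filter (fun j => ¬ Disjoint (S j) X),
      2 * ε * (w j * (((S j ∩ X).card : ℝ) * (((S j ∩ X).card : ℝ) - 1))) ≤
        8 * (r : ℝ) ^ 2 * δ := by
    have hterm : ∀ j ∈ E, 0 ≤ w j * (((S j ∩ X).card : ℝ) * (((S j ∩ X).card : ℝ) - 1)) := by
      intro j hj
      refine mul_nonneg (h.nonneg j hj) ?_
      rcases Nat.eq_zero_or_pos (S j ∩ X).card with h0 | h0
      · rw [h0]; simp
      · have : (1 : ℝ) ≤ ((S j ∩ X).card : ℝ) := by exact_mod_cast h0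
        exact mul_nonneg (Nat.cast_nonneg _) (by linarith)
    have h12 : ∑ j ∈ E.filter (fun j => ¬ Disjoint (S j) X),
        2 * ε * (w j * (((S j ∩ X).card : ℝ) * (((S j ∩ X).card : ℝ) - 1))) ≤
        ∑ j ∈ E, 2 * ε * (w j * (((S j ∩ X).card : ℝ) * (((S j ∩ X).card : ℝ) - 1))) :=
      sum_le_sum_of_subset_of_nonneg (filter_subset _ _) fun j hj _ =>
        mul_nonneg (by linarith) (hterm j hj)
    refine h12.trans ?_
    rw [← mul_sum]
    have h13 : 0 ≤ ∑ j ∈ E, w j * (((S j ∩ X).card : ℝ) * (((S j ∩ X).card : ℝ) - 1)) :=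
      sum_nonneg hterm
    have h14 : ∑ j ∈ E, w j * (((S j ∩ X).card : ℝ) * (((S j ∩ X).card : ℝ) - 1)) ≤
        4 * (r : ℝ) ^ 2 * δ := by
      rcases sum_pairs h X with h15 | h15
      · refine h15.trans ?_
        have h16 : (X.card : ℝ) ≤ 2 * r := by exact_mod_cast hXr
        have h17 : (X.card : ℝ) ^ 2 ≤ (2 * r) ^ 2 := pow_le_pow_left₀ (Nat.cast_nonneg _) h16 2
        nlinarith
      · have h16 : ∀ j ∈ E, w j * (((S j ∩ X).card : ℝ) * (((S j ∩ X).card : ℝ) - 1)) = 0 := by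
          intro j _
          have h17 : (S j ∩ X).card ≤ 1 := (card_le_card inter_subset_right).trans h15
          interval_cases hh : (S j ∩ X).card <;> simp
        rw [sum_eq_zero h16]
        positivity
    nlinarith
  refine (Real.exp_le_exp.2 h11).trans ?_
  have h20 : |8 * (r : ℝ) ^ 2 * δ| ≤ 1 := by
    rw [abs_of_nonneg (by positivity)]
    exact hδ
  have h21 := (abs_le.1 (Real.abs_exp_sub_one_sub_id_le h20)).2
  have h22 : 0 ≤ 8 * (r : ℝ) ^ 2 * δ := by positivity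
  nlinarith

/-- A single vertex survives with probability exactly `1 - ε`. -/
theorem surv_single (hr : 1 ≤ r) (h : OK r δ E S w) (hε0 : 0 ≤ ε) (hε1 : ε ≤ 1 / 2)
    (v : V) (hv : v ∈ VS E S) :
    EW (AI E S) (pr ε E S w) (fun T => if Surv E S {v} T then 1 else 0) = 1 - ε := by
  rw [surv_eq' hr h hε0 hε1 {v} (singleton_subset_iff.2 hv), card_singleton, pow_one]
  refine (congrArg _ (prod_eq_one fun j hj => ?_)).trans (mul_one _)
  have h1 : (S j ∩ {v}).card ≤ 1 := (card_le_card inter_subset_right).trans (by simp)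
  have h2 : (S j ∩ {v}).card - 1 = 0 := by omega
  rw [h2, pow_zero, inv_one]

theorem surv_mono {X Y : Finset V} (hXY : X ⊆ Y) {T : Finset (J ⊕ V)} (h : Surv E S Y T) :
    Surv E S X T := by
  unfold Surv at *
  refine h.mono_right ?_
  unfold hit
  refine Finset.disjSum_mono (fun j hj => ?_) hXY
  rw [mem_filter] at hj ⊢
  exact ⟨hj.1, fun hd => hj.2 (hd.mono_right hXY)⟩

theorem surv_union {X Y : Finset V} {T : Finset (J ⊕ V)} :
    Surv E S (X ∪ Y) T ↔ Surv E S X T ∧ Surv E S Y T := by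
  constructor
  · intro h
    exact ⟨surv_mono subset_union_left h, surv_mono subset_union_right h⟩
  · rintro ⟨h1, h2⟩
    unfold Surv at *
    rw [disjoint_left] at *
    intro i hi hi2
    unfold hit at *
    rcases i with j | v
    · simp only [inl_mem_disjSum, mem_filter, disjoint_union_right, not_and_or] at hi2 h1 h2
      rcases hi2.2 with h3 | h3
      · exact h1 hi (by simpa using ⟨hi2.1, h3⟩)
      · exact h2 hi (by simpa using ⟨hi2.1, h3⟩)
    · simp only [inr_mem_disjSum, mem_union] at hi2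
      rcases hi2 with h3 | h3
      · exact h1 hi (by simpa using h3)
      · exact h2 hi (by simpa using h3)

end Pool.Agent.PGr.Nib
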