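import Pool.Agent.PGr.PCBase

/-!
# PGr, part P, completion: the counting identity of section 10.6
-/

noncomputable section

namespace Pool.Agent.PGr

open Finset

namespace PC

variable {E : Env} {Pn : Plan E} {κ ρ c1 κ' cD cC : ℝ} {b m : ℕ}

theorem card_dall {n : ℕ} (hn : 3 ≤ n) : (dall n).card = 2 * n := by
  unfold dall
  split_ifs with h
  · rw [card_erase_of_mem, card_erase_of_mem]
    · rw [Int.card_Icc]
      omega
    · rw [mem_Icc]
      omega
    · rw [mem_erase, mem_Icc]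
      omega
  · rw [card_erase_of_mem]
    · rw [Int.card_Icc]
      omega
    · rw [mem_Icc]
      omega

/-- the main items -/
theorem It_eq : Pn.dat.It = E.Ck \ (Pn.CR ∪ Pn.Ed ∪ Pn.Ab) := rfl

theorem card_Ck (hP : Pn.Ok κ' cD cC b m) :
    E.Ck.card = Pn.dat.It.card + Pn.CR.card + Pn.Ed.card + Pn.Ab.card := by
  have h1 : (Pn.CR ∪ Pn.Ed ∪ Pn.Ab) ⊆ E.Ck :=
    union_subset (union_subset hP.CR_sub hP.Ed_sub) hP.Ab_sub
  have h2 : (Pn.CR ∪ Pn.Ed ∪ Pn.Ab).card = Pn.CR.card + Pn.Ed.card + Pn.Ab.card := by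
    rw [card_union_of_disjoint (disjoint_union_left.2 ⟨hP.CR_Ab, hP.Ed_Ab⟩),
      card_union_of_disjoint hP.CR_Ed]
  have h3 := card_sdiff_add_card_eq_card h1
  rw [It_eq]
  omega

theorem card_n1 (hE : E.Ok κ ρ c1) (hP : Pn.Ok κ' cD cC b m) :
    E.n = (E.Bk \ Pn.P).card + Pn.P.card + E.Ck.card := by
  have h := congrArg card (range_eq hE hP)
  rw [card_range, card_union_of_disjoint, card_union_of_disjoint] at h
  · exact h
  · exact sdiff_disjoint
  · rw [disjoint_union_left]
    exact ⟨disjoint_left.2 fun v hv => Sv_not_C hE hv,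
      disjoint_left.2 fun v hv => P_not_C hE hP hv⟩

theorem card_n2 (hE : E.Ok κ ρ c1) : E.n = 2 * E.Ck.card + E.PP.card := by
  classical
  have hk := hk E
  have hk1 := E.base.k_pos
  -- the three kinds of edges
  have h1 : range E.n = (E.Ck ∪ (range E.n).filter (fun v => nbp E.n E.k v ∈ E.Ck)) ∪ E.PP := by
    ext v
    simp only [mem_union, mem_filter, mem_range]
    constructor
    · intro hv
      rcases mem_cases hE hv with h | h | h
      · exact Or.inl (Or.inr ⟨hv, (hE.col.nB v h).1⟩)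
      · exact Or.inl (Or.inl h)
      · have hw := nbp_lt hk v
        rcases mem_cases hE hw with h2 | h2 | h2
        · have h3 := (hE.col.nB _ h2).2
          rw [nbm_nbp hv hk] at h3
          exact absurd h (fun h4 => disjoint_left.1 hE.col.CP h3 h4)
        · exact Or.inl (Or.inr ⟨hv, h2⟩)
        · right
          unfold Env.PP
          exact mem_filter.2 ⟨h, h2⟩
    · rintro ((h | h) | h)
      · exact lt_C hE h
      · exact h.1
      · unfold Env.PP at h
        exact lt_Pk hE (mem_filter.1 h).1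
  have h2 : ((range E.n).filter (fun v => nbp E.n E.k v ∈ E.Ck)).card = E.Ck.card := by
    refine card_bij (fun v _ => nbp E.n E.k v) ?_ ?_ ?_
    · intro v hv
      exact (mem_filter.1 hv).2
    · intro v hv w hw h
      exact nbp_inj (mem_range.1 (mem_filter.1 hv).1) (mem_range.1 (mem_filter.1 hw).1) hk h
    · intro w hw
      have hwn := lt_C hE hw
      refine ⟨nbm E.n E.k w, ?_, nbp_nbm hwn hk⟩
      rw [mem_filter, mem_range, nbp_nbm hwn hk]
      exact ⟨nbm_lt hk w, hw⟩
  have h3 := congrArg card h1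
  rw [card_range, card_union_of_disjoint, card_union_of_disjoint, h2] at h3
  · omega
  · rw [disjoint_left]
    intro v hv hv2
    have h4 := (hE.col.nC v hv).1
    have h5 := (mem_filter.1 hv2).2
    rcases mem_union.1 h4 with h6 | h6
    · exact disjoint_left.1 hE.col.BC h6 h5
    · exact disjoint_left.1 hE.col.CP h5 h6
  · rw [disjoint_union_left]
    constructor
    · rw [disjoint_left]
      intro v hv hv2
      unfold Env.PP at hv2
      exact disjoint_left.1 hE.col.CP hv (mem_filter.1 hv2).1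
    · rw [disjoint_left]
      intro v hv hv2
      unfold Env.PP at hv2
      exact disjoint_left.1 hE.col.CP (mem_filter.1 hv).2 (mem_filter.1 hv2).2

theorem PP_P (hP : Pn.Ok κ' cD cC b m) {v : ℕ} (hv : v ∈ E.PP) :
    v ∈ Pn.P ∧ nbp E.n E.k v ∈ Pn.P := by
  unfold Env.PP at hv
  have h := mem_filter.1 hv
  exact ⟨hP.Pk_sub h.1, hP.Pk_sub h.2⟩

theorem UD_prop (hP : Pn.Ok κ' cD cC b m) {d : ℤ} (hd : d ∈ Pn.UD) : d ∈ E.PD ∨ d ∈ E.AA := by
  unfold Plan.UD at hd
  rw [mem_union, mem_union, mem_image, mem_image] at hd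
  rcases hd with (⟨v, hv, rfl⟩ | ⟨v, hv, rfl⟩) | hd
  · exact Or.inl (hP.sp_PD v hv)
  · exact Or.inl (hP.ed_PD v hv)
  · exact mem_union.1 (hP.G_sub hd)

theorem UD_R1 (hP : Pn.Ok κ' cD cC b m) : Disjoint Pn.UD Pn.R1 := by
  rw [disjoint_left]
  intro d hd hd2
  have h2 := hP.R1_sub hd2
  unfold Plan.UD at hd
  rw [mem_union, mem_union, mem_image, mem_image] at hd
  rcases hd with (⟨v, hv, rfl⟩ | ⟨v, hv, rfl⟩) | hd
  · exact PD_AA (hP.sp_PD v hv) h2
  · exact PD_AA (hP.ed_PD v hv) h2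
  · exact disjoint_left.1 hP.G_R1 hd hd2

theorem UDR_dall (hP : Pn.Ok κ' cD cC b m) : Pn.UD ∪ Pn.R1 ⊆ dall E.n := by
  intro d hd
  rcases mem_union.1 hd with h | h
  · rcases UD_prop hP h with h | h
    · exact (PD_prop h).1
    · exact (AA_prop h).1
  · exact (AA_prop (hP.R1_sub h)).1

theorem card_UD (hP : Pn.Ok κ' cD cC b m) : Pn.UD.card = Pn.P.card + E.PP.card + Pn.G.card := by
  unfold Plan.UD
  rw [card_union_of_disjoint, card_union_of_disjoint, card_image_of_injOn, card_image_of_injOn]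
  · exact fun v hv v' hv' h => hP.ed_inj v hv v' hv' h
  · exact fun v hv v' hv' h => hP.sp_inj v hv v' hv' h
  · rw [disjoint_left]
    intro d hd hd2
    obtain ⟨v, hv, rfl⟩ := mem_image.1 hd
    obtain ⟨v', hv', h⟩ := mem_image.1 hd2
    exact hP.sp_ed v hv v' hv' h.symm
  · rw [disjoint_union_left]
    constructor
    · rw [disjoint_left]
      intro d hd hd2
      obtain ⟨v, hv, rfl⟩ := mem_image.1 hd
      exact hP.G_sp v hv hd2
    · rw [disjoint_left]
      intro d hd hd2
      obtain ⟨v, hv, rfl⟩ := mem_image.1 hd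
      exact hP.G_ed v hv hd2

theorem D0_eq : Pn.dat.D0 = dall E.n \ (Pn.UD ∪ Pn.R1) := rfl

/-- scheme spokes are available differences -/
theorem spoke_D0 (hE : E.Ok κ ρ c1) (hP : Pn.Ok κ' cD cC b m) {θ : Pn.dat.Om} {v : ℕ}
    (hv : v ∈ E.Bk \ Pn.P) : |Pn.dat.lab θ v - anc E.n v| ∈ Pn.dat.D0 := by
  rw [D0_eq, mem_sdiff, mem_union, not_or]
  refine ⟨spoke_dall hE hP hv, ?_, ?_⟩
  · intro h
    rcases UD_prop hP h with h | h
    · exact spoke_PD hP hv h
    · exact spoke_AA hP hv h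
  · intro h
    exact spoke_AA hP hv (hP.R1_sub h)

open Classical in
/-- **The counting identity.** -/
theorem count_free (hn : 3 ≤ E.n) (hE : E.Ok κ ρ c1) (hP : Pn.Ok κ' cD cC b m)
    (θ : Pn.dat.Om) :
    (Pn.dat.D0.filter (fun d => ¬ Pn.dat.used θ d)).card = 3 * Pn.dat.It.card + b := by
  have h1 := card_n1 hE hP
  have h2 := card_n2 hE
  have h3 := card_Ck hP
  have h4 := card_UD hP
  have h5 : Pn.dat.D0.card + (Pn.UD.card + Pn.R1.card) = 2 * E.n := by
    rw [D0_eq, ← card_union_of_disjoint (UD_R1 hP), card_sdiff_add_card_eq_card (UDR_dall hP),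
      card_dall hn]
  have h6 : (Pn.dat.D0.filter (fun d => Pn.dat.used θ d)).card = (E.Bk \ Pn.P).card := by
    symm
    refine card_bij (fun v _ => |Pn.dat.lab θ v - anc E.n v|) ?_ ?_ ?_
    · intro v hv
      rw [mem_filter]
      exact ⟨spoke_D0 hE hP hv, v, hv, rfl⟩
    · intro v hv v' hv' h
      exact spoke_inj hP hv hv' h
    · intro d hd
      rw [mem_filter] at hd
      obtain ⟨v, hv, h⟩ := hd.2
      exact ⟨v, hv, h⟩
  have h7 := card_filter_add_card_filter_not (s := Pn.dat.D0) (fun d => Pn.dat.used θ d)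
  have h8 := hP.cnt1
  have h9 := hP.cnt2
  omega

end PC

end Pool.Agent.PGr
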