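import Pool.Agent.PGr.PCGreedy

/-!
# PGr, part P, completion: covering the unused differences
-/

noncomputable section

namespace Pool.Agent.PGr

open Finset

namespace PC

variable {E : Env} {Pn : Plan E} {κ ρ c1 κ' cD cC : ℝ} {b m : ℕ}

/-- for an item with planted neighbours the differences do not depend on `θ` -/
theorem dif_planted {θ : Pn.dat.Om} {i : ℕ} (h1 : nbp E.n E.k i ∈ Pn.P)
    (h2 : nbm E.n E.k i ∈ Pn.P) (x : ℤ) (j : Fin 3) :
    Pn.dat.dif θ i x j = d3 E.n E.k Pn.pl i x j := by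
  unfold Dat.dif d3
  have e1 : Pn.dat.lab θ (Pn.dat.nb1 i) = Pn.pl (nbp E.n E.k i) := lab_P h1
  have e2 : Pn.dat.lab θ (Pn.dat.nb2 i) = Pn.pl (nbm E.n E.k i) := lab_P h2
  rw [e1, e2]
  rfl

/-- the conflict relation of the cover step -/
def cvC (o o' : ℕ × ℤ × ℤ × ℤ) : Prop :=
  o.1 = o'.1 ∨ o.2.1 = o'.2.1 ∨ o.2.2.1 = o'.2.2.1 ∨ o.2.2.1 = o'.2.2.2 ∨
    o.2.2.2 = o'.2.2.1 ∨ o.2.2.2 = o'.2.2.2

theorem cvC_symm (o o' : ℕ × ℤ × ℤ × ℤ) (h : cvC o o') : cvC o' o := by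
  unfold cvC at *
  rcases h with h | h | h | h | h | h
  · exact Or.inl h.symm
  · exact Or.inr (Or.inl h.symm)
  · exact Or.inr (Or.inr (Or.inl h.symm))
  · exact Or.inr (Or.inr (Or.inr (Or.inr (Or.inl h.symm))))
  · exact Or.inr (Or.inr (Or.inr (Or.inl h.symm)))
  · exact Or.inr (Or.inr (Or.inr (Or.inr (Or.inr h.symm))))

/-- The cover step: the differences of `Dp` are covered by different cover items `ci d`, with
different labels `cx d` and different further differences `r1 d`, `r2 d`. -/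
theorem cover_step (hP : Pn.Ok κ' cD cC b m) (Dp : Finset ℤ) (hDp : Dp ⊆ dall E.n)
    (hsz : 10 * (Dp.card : ℝ) < cC * E.n) :
    ∃ (ci : ℤ → ℕ) (cx r1 r2 : ℤ → ℤ),
      (∀ d ∈ Dp, ci d ∈ Pn.CR ∧ cx d ∈ E.LAM ∧ r1 d ∈ Pn.R1 ∧ r2 d ∈ Pn.R1 ∧ r1 d ≠ r2 d ∧
        (univ : Finset (Fin 3)).image (d3 E.n E.k Pn.pl (ci d) (cx d)) = {d, r1 d, r2 d}) ∧
      ∀ d ∈ Dp, ∀ d' ∈ Dp, d ≠ d' → ci d ≠ ci d' ∧ cx d ≠ cx d' ∧ r1 d ≠ r1 d' ∧
        r1 d ≠ r2 d' ∧ r2 d ≠ r1 d' ∧ r2 d ≠ r2 d' := by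
  classical
  have hcov : ∀ d : ℤ, ∃ (M : Finset ℕ) (x e1 e2 : ℕ → ℤ), d ∈ dall E.n → (M ⊆ Pn.CR ∧
    cC * E.n ≤ (M.card : ℝ) ∧
    (∀ i ∈ M, x i ∈ E.LAM ∧ e1 i ∈ Pn.R1 ∧ e2 i ∈ Pn.R1 ∧ e1 i ≠ e2 i ∧
      (univ : Finset (Fin 3)).image (d3 E.n E.k Pn.pl i (x i)) = {d, e1 i, e2 i}) ∧
    (∀ i ∈ M, ∀ i' ∈ M, x i = x i' → i = i') ∧
    ∀ r : ℤ, (M.filter (fun i => e1 i = r ∨ e2 i = r)).card ≤ 4) := by
    intro d
    by_cases hd : d ∈ dall E.n
    · obtain ⟨M, x, e1, e2, h⟩ := hP.cover d hd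
      refine ⟨M, x, e1, e2, fun _ => ⟨h.1, h.2.1, ?_, h.2.2.2.1, ?_⟩⟩
      · intro i hi
        have := h.2.2.1 i hi
        refine ⟨this.1, this.2.1, this.2.2.1, this.2.2.2.1, ?_⟩
        convert this.2.2.2.2
      · intro r
        convert h.2.2.2.2 r
    · exact ⟨∅, 0, 0, 0, fun h => absurd h hd⟩
  choose M x e1 e2 hM using hcov
  set O : ℤ → Finset (ℕ × ℤ × ℤ × ℤ) := fun d =>
    (M d).image fun i => (i, x d i, e1 d i, e2 d i) with hO
  have hOc : ∀ d, (O d).card = (M d).card := by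
    intro d
    simp only [hO]
    refine card_image_of_injective _ fun i i' h => ?_
    exact congrArg Prod.fst h
  obtain ⟨f, hf, hf2⟩ := greedy Dp O cvC 10 cvC_symm (by
    intro d hd d' _ o' _
    have h := hM d (hDp hd)
    have hsub : ((O d).filter fun o => cvC o' o) ⊆
        (((M d).filter fun i => i = o'.1) ∪ ((M d).filter fun i => x d i = o'.2.1) ∪
          ((M d).filter fun i => e1 d i = o'.2.2.1 ∨ e2 d i = o'.2.2.1) ∪
          ((M d).filter fun i => e1 d i = o'.2.2.2 ∨ e2 d i = o'.2.2.2)).image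
          (fun i => (i, x d i, e1 d i, e2 d i)) := by
      intro o ho
      rw [mem_filter] at ho
      obtain ⟨i, hi, rfl⟩ := mem_image.1 ho.1
      refine mem_image.2 ⟨i, ?_, rfl⟩
      have hc := ho.2
      unfold cvC at hc
      simp only [mem_union, mem_filter]
      rcases hc with h1 | h1 | h1 | h1 | h1 | h1
      · exact Or.inl (Or.inl (Or.inl ⟨hi, h1.symm⟩))
      · exact Or.inl (Or.inl (Or.inr ⟨hi, h1.symm⟩))
      · exact Or.inl (Or.inr ⟨hi, Or.inl h1.symm⟩)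
      · exact Or.inl (Or.inr ⟨hi, Or.inr h1.symm⟩)
      · exact Or.inr ⟨hi, Or.inl h1.symm⟩
      · exact Or.inr ⟨hi, Or.inr h1.symm⟩
    refine (card_le_card hsub).trans (card_image_le.trans ?_)
    have c1 : ((M d).filter fun i => i = o'.1).card ≤ 1 := by
      rw [card_le_one]
      intro a ha a' ha'
      rw [(mem_filter.1 ha).2, (mem_filter.1 ha').2]
    have c2 : ((M d).filter fun i => x d i = o'.2.1).card ≤ 1 := by
      rw [card_le_one]
      intro a ha a' ha'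
      rw [mem_filter] at ha ha'
      exact h.2.2.2.1 a ha.1 a' ha'.1 (by rw [ha.2, ha'.2])
    have c3 := h.2.2.2.2 o'.2.2.1
    have c4 := h.2.2.2.2 o'.2.2.2
    refine (card_union_le _ _).trans ?_
    refine (Nat.add_le_add_right (card_union_le _ _) _).trans ?_
    refine (Nat.add_le_add_right (Nat.add_le_add_right (card_union_le _ _) _) _).trans ?_
    omega) (by
    intro d hd
    rw [hOc]
    have h := (hM d (hDp hd)).2.1
    have h2 : (10 * (Dp.card : ℝ)) < (M d).card := lt_of_lt_of_le hsz h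
    exact_mod_cast h2)
  have hfi : ∀ d ∈ Dp, ∃ i ∈ M d, f d = (i, x d i, e1 d i, e2 d i) := by
    intro d hd
    obtain ⟨i, hi, h⟩ := mem_image.1 (hf d hd)
    exact ⟨i, hi, h.symm⟩
  refine ⟨fun d => (f d).1, fun d => (f d).2.1, fun d => (f d).2.2.1, fun d => (f d).2.2.2, ?_, ?_⟩
  · intro d hd
    obtain ⟨i, hi, h⟩ := hfi d hd
    have h2 := hM d (hDp hd)
    have h3 := h2.2.2.1 i hi
    simp only [h]
    exact ⟨h2.1 hi, h3.1, h3.2.1, h3.2.2.1, h3.2.2.2.1, h3.2.2.2.2⟩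
  · intro d hd d' hd' hdd
    have h := hf2 d hd d' hd' hdd
    unfold cvC at h
    push Not at h
    exact ⟨h.1, h.2.1, h.2.2.1, h.2.2.2.1, h.2.2.2.2.1, h.2.2.2.2.2⟩

/-- The piece of the labelling given by the cover step. -/
theorem cover_piece (hP : Pn.Ok κ' cD cC b m) (θ : Pn.dat.Om) (Dp : Finset ℤ)
    (hDp : Dp ⊆ dall E.n) (hsz : 10 * (Dp.card : ℝ) < cC * E.n) :
    ∃ (s : Finset ℕ) (y : ℕ → ℤ) (X RC : Finset ℤ), s ⊆ Pn.CR ∧ s.card = Dp.card ∧
      X ⊆ E.LAM ∧ X.card ≤ Dp.card ∧ RC ⊆ Pn.R1 ∧ RC.card = 2 * Dp.card ∧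
      Pc Pn.dat θ s y X (Dp ∪ RC) := by
  classical
  obtain ⟨ci, cx, r1, r2, h1, h2⟩ := cover_step hP Dp hDp hsz
  have hci : ∀ d ∈ Dp, ∀ d' ∈ Dp, ci d = ci d' → d = d' := by
    intro d hd d' hd' h
    by_contra hne
    exact (h2 d hd d' hd' hne).1 h
  set inv : ℕ → ℤ := fun i => if h : ∃ d ∈ Dp, ci d = i then Classical.choose h else 0 with hinv
  have hinv1 : ∀ d ∈ Dp, inv (ci d) = d := by
    intro d hd
    have hex : ∃ d' ∈ Dp, ci d' = ci d := ⟨d, hd, rfl⟩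
    have h3 := Classical.choose_spec hex
    have h4 : inv (ci d) = Classical.choose hex := by
      simp only [hinv]
      rw [dif_pos hex]
    rw [h4]
    exact hci _ h3.1 _ hd h3.2
  refine ⟨Dp.image ci, fun i => cx (inv i), Dp.image cx, Dp.image r1 ∪ Dp.image r2,
    ?_, ?_, ?_, card_image_le, ?_, ?_, ?_, ?_, ?_⟩
  · intro i hi
    obtain ⟨d, hd, rfl⟩ := mem_image.1 hi
    exact (h1 d hd).1
  · exact card_image_of_injOn fun d hd d' hd' h => hci d hd d' hd' h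
  · intro x hx
    obtain ⟨d, hd, rfl⟩ := mem_image.1 hx
    exact (h1 d hd).2.1
  · intro r hr
    rcases mem_union.1 hr with hr | hr
    · obtain ⟨d, hd, rfl⟩ := mem_image.1 hr
      exact (h1 d hd).2.2.1
    · obtain ⟨d, hd, rfl⟩ := mem_image.1 hr
      exact (h1 d hd).2.2.2.1
  · rw [card_union_of_disjoint, card_image_of_injOn, card_image_of_injOn]
    · omega
    · intro d hd d' hd' h
      by_contra hne
      exact (h2 d hd d' hd' hne).2.2.2.2.2 h
    · intro d hd d' hd' h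
      by_contra hne
      exact (h2 d hd d' hd' hne).2.2.1 h
    · rw [disjoint_left]
      intro r hr hr'
      obtain ⟨d, hd, rfl⟩ := mem_image.1 hr
      obtain ⟨d', hd', h⟩ := mem_image.1 hr'
      by_cases hne : d = d'
      · subst hne
        exact (h1 d hd).2.2.2.2.1 h.symm
      · exact (h2 d hd d' hd' hne).2.2.2.1 h.symm
  · intro i hi
    obtain ⟨d, hd, rfl⟩ := mem_image.1 hi
    beta_reduce
    rw [hinv1 d hd]
    exact mem_image_of_mem _ hd
  · intro i hi i' hi' h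
    obtain ⟨d, hd, rfl⟩ := mem_image.1 hi
    obtain ⟨d', hd', rfl⟩ := mem_image.1 hi'
    beta_reduce at h
    rw [hinv1 d hd, hinv1 d' hd'] at h
    by_contra hne
    have hdd : d ≠ d' := fun h3 => hne (by rw [h3])
    exact (h2 d hd d' hd' hdd).2.1 h
  · intro t ht
    have key : ∃ d ∈ Dp, t ∈ ({d, r1 d, r2 d} : Finset ℤ) := by
      rcases mem_union.1 ht with ht | ht
      · exact ⟨t, ht, by simp⟩
      · rcases mem_union.1 ht with ht | ht
        · obtain ⟨d, hd, rfl⟩ := mem_image.1 ht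
          exact ⟨d, hd, by simp⟩
        · obtain ⟨d, hd, rfl⟩ := mem_image.1 ht
          exact ⟨d, hd, by simp⟩
    obtain ⟨d, hd, htd⟩ := key
    have h3 := h1 d hd
    rw [← h3.2.2.2.2.2] at htd
    obtain ⟨j, _, hj⟩ := mem_image.1 htd
    refine ⟨ci d, mem_image_of_mem _ hd, j, ?_⟩
    beta_reduce
    rw [hinv1 d hd]
    have hn := hP.CR_nb _ h3.1
    rw [dif_planted hn.1 hn.2]
    exact hj

end PC

end Pool.Agent.PGr
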