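import Pool.Agent.PGr.PCCover
import Pool.Agent.PGr.Alg

/-!
# PGr, part P, completion: the default step
-/

noncomputable section

namespace Pool.Agent.PGr

open Finset

namespace PC

variable {E : Env} {Pn : Plan E} {κ ρ c1 κ' cD cC : ℝ} {b m : ℕ}

/-- the class of the label of a vertex which is not an item -/
theorem cl_lab (θ : Pn.dat.Om) {v : ℕ} (hv : v ∈ E.Bk \ Pn.P ∨ v ∈ Pn.P) :
    Pn.cl v = ((Pn.dat.lab θ v : ℤ) : ZMod (E.q ^ 2)) := by
  unfold Plan.cl clw
  rcases hv with hv | hv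
  · rw [if_neg (mem_sdiff.1 hv).2, lab_Sv hv, s_Y_res E.base]
    rfl
  · rw [if_pos hv, lab_P hv]

theorem not_dvd_of_red {q : ℕ} {x y : ℤ}
    (h : red q ((x : ℤ) : ZMod (q ^ 2)) ≠ red q ((y : ℤ) : ZMod (q ^ 2))) : ¬ (q : ℤ) ∣ x - y := by
  rw [red_int, red_int] at h
  intro h2
  apply h
  symm
  exact (ZMod.intCast_eq_intCast_iff_dvd_sub y x q).2 h2

/-- the three labels around an item are incongruent -/
theorem inc3_item (hE : E.Ok κ ρ c1) (hP : Pn.Ok κ' cD cC b m) (θ : Pn.dat.Om) {i : ℕ}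
    (hi : i ∈ E.Ck) (hA : i ∉ Pn.Ab) :
    E.inc3 (anc E.n i) (Pn.dat.lab θ (nbp E.n E.k i)) (Pn.dat.lab θ (nbm E.n E.k i)) := by
  have h := hP.gen i hi hA
  have hnb := nb_C hE hP hi
  rw [cl_lab θ hnb.1, cl_lab θ hnb.2] at h
  exact ⟨not_dvd_of_red h.1, not_dvd_of_red h.2.1, not_dvd_of_red h.2.2⟩

/-- the label of a neighbour lies in one of the two ranges -/
theorem lab_rng (θ : Pn.dat.Om) {v : ℕ} (hv : v ∈ E.Bk \ Pn.P) :
    inI E.n (9 / 10) 2 (Pn.dat.lab θ v) ∧ inI E.n 1 (21 / 10) (Pn.dat.lab θ v) := by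
  have h2 := lab_Sv_range (θ := θ) hv
  have hn : (0 : ℝ) < E.n := by exact_mod_cast n_pos E
  have h3 : ((E.n : ℕ) : ℝ) ≤ (Pn.dat.lab θ v : ℝ) := by exact_mod_cast h2.1
  have h4 : (Pn.dat.lab θ v : ℝ) + 3 ≤ 2 * (E.n : ℝ) := by exact_mod_cast h2.2
  unfold inI
  refine ⟨⟨by linarith, by linarith⟩, by linarith, by linarith⟩

theorem defCase_item (hE : E.Ok κ ρ c1) (hP : Pn.Ok κ' cD cC b m) (θ : Pn.dat.Om) {i : ℕ}
    (hi : i ∈ E.Ck) (hA : i ∉ Pn.Ab) :
    ∃ lo hi' : ℝ, E.defCase (anc E.n i) (Pn.dat.lab θ (nbp E.n E.k i))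
      (Pn.dat.lab θ (nbm E.n E.k i)) lo hi' := by
  have hnb := nb_C hE hP hi
  have hs := C_not_spec hE hi
  have hin := lt_C hE hi
  -- the ranges of the labels
  have key : (inI E.n (9 / 10) 2 (Pn.dat.lab θ (nbp E.n E.k i)) ∧
      inI E.n (9 / 10) 2 (Pn.dat.lab θ (nbm E.n E.k i))) ∨
      (inI E.n 1 (21 / 10) (Pn.dat.lab θ (nbp E.n E.k i)) ∧
      inI E.n 1 (21 / 10) (Pn.dat.lab θ (nbm E.n E.k i))) := by
    rcases hP.rng2 i hi hA with h | h
    · left
      constructor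
      · rcases hnb.1 with h1 | h1
        · exact (lab_rng θ h1).1
        · rw [lab_P h1]
          exact h _ (Or.inl rfl) h1
      · rcases hnb.2 with h1 | h1
        · exact (lab_rng θ h1).1
        · rw [lab_P h1]
          exact h _ (Or.inr rfl) h1
    · right
      constructor
      · rcases hnb.1 with h1 | h1
        · exact (lab_rng θ h1).2
        · rw [lab_P h1]
          exact h _ (Or.inl rfl) h1
      · rcases hnb.2 with h1 | h1
        · exact (lab_rng θ h1).2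
        · rw [lab_P h1]
          exact h _ (Or.inr rfl) h1
  by_cases hpar : i % 2 = 0
  · have ha : anc E.n i = (i / 2 : ℕ) := SS.anc_low hpar
    have h1 : 0 ≤ anc E.n i ∧ 2 * anc E.n i ≤ E.n := by
      rw [ha]
      omega
    rcases key with h | h
    · exact ⟨71 / 100, 79 / 100, Or.inr (Or.inr (Or.inr ⟨h1.1, h1.2, h.1, h.2, rfl, rfl⟩))⟩
    · exact ⟨81 / 100, 89 / 100, Or.inr (Or.inr (Or.inl ⟨h1.1, h1.2, h.1, h.2, rfl, rfl⟩))⟩
  · have ha : anc E.n i = 3 * (E.n : ℤ) - (i / 2 : ℕ) := SS.anc_high hpar hs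
    have h1 : 5 * (E.n : ℤ) ≤ 2 * anc E.n i ∧ anc E.n i ≤ 3 * E.n := by
      rw [ha]
      omega
    rcases key with h | h
    · exact ⟨211 / 100, 219 / 100, Or.inl ⟨h1.1, h1.2, h.1, h.2, rfl, rfl⟩⟩
    · exact ⟨221 / 100, 229 / 100, Or.inr (Or.inl ⟨h1.1, h1.2, h.1, h.2, rfl, rfl⟩)⟩

/-- few labels have the distance to `c` in `R` -/
theorem card_dist_le (A R : Finset ℤ) (c : ℤ) :
    (A.filter fun x => |x - c| ∈ R).card ≤ 2 * R.card := by
  have h1 : (A.filter fun x => |x - c| ∈ R) ⊆ R.image (fun r => c + r) ∪ R.image (fun r => c - r) := by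
    intro x hx
    rw [mem_filter] at hx
    rcases abs_choice (x - c) with h | h
    · refine mem_union_left _ (mem_image.2 ⟨|x - c|, hx.2, ?_⟩)
      rw [h]
      ring
    · refine mem_union_right _ (mem_image.2 ⟨|x - c|, hx.2, ?_⟩)
      rw [h]
      ring
  refine (card_le_card h1).trans ((card_union_le _ _).trans ?_)
  have h2 := card_image_le (s := R) (f := fun r : ℤ => c + r)
  have h3 := card_image_le (s := R) (f := fun r : ℤ => c - r)
  omega

/-- the centre of the `j`-th difference of an item -/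
def cen (D : Dat) (θ : D.Om) (i : ℕ) (j : Fin 3) : ℤ :=
  match j with
  | 0 => D.anc i
  | 1 => D.lab θ (D.nb1 i)
  | 2 => D.lab θ (D.nb2 i)

theorem dif_cen (D : Dat) (θ : D.Om) (i : ℕ) (x : ℤ) (j : Fin 3) :
    D.dif θ i x j = |x - cen D θ i j| := by
  unfold Dat.dif cen
  fin_cases j <;> rfl

/-- the conflict relation of the default step -/
def dfC (o o' : ℤ × (Fin 3 → ℤ)) : Prop := o.1 = o'.1 ∨ ∃ j k, o.2 j = o'.2 k

theorem dfC_symm (o o' : ℤ × (Fin 3 → ℤ)) (h : dfC o o') : dfC o' o := by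
  rcases h with h | ⟨j, k, h⟩
  · exact Or.inl h.symm
  · exact Or.inr ⟨k, j, h.symm⟩

/-- The default step. -/
theorem deflt_piece (hE : E.Ok κ ρ c1) (hP : Pn.Ok κ' cD cC b m) (θ : Pn.dat.Om)
    (Df : Finset ℕ) (hDf : Df ⊆ E.Ck) (hDA : Disjoint Df Pn.Ab) (XC RC : Finset ℤ)
    (hsz : 19 * (Df.card : ℝ) + XC.card + 6 * RC.card < cD * E.n) :
    ∃ (y : ℕ → ℤ) (X RD : Finset ℤ), X ⊆ E.LAM ∧ Disjoint X XC ∧ RD ⊆ Pn.R1 ∧ Disjoint RD RC ∧
      RD.card = 3 * Df.card ∧ Pc Pn.dat θ Df y X RD := by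
  classical
  have hcase : ∀ i : ℕ, ∃ lo hi' : ℝ, i ∈ Df → E.defCase (anc E.n i)
      (Pn.dat.lab θ (nbp E.n E.k i)) (Pn.dat.lab θ (nbm E.n E.k i)) lo hi' := by
    intro i
    by_cases hi : i ∈ Df
    · obtain ⟨lo, hi', h⟩ := defCase_item hE hP θ (hDf hi) (disjoint_left.1 hDA hi)
      exact ⟨lo, hi', fun _ => h⟩
    · exact ⟨0, 0, fun h => absurd h hi⟩
  choose lo hi' hcase using hcase
  set Sx : ℕ → Finset ℤ := fun i => E.defSet Pn.R1 (lo i) (hi' i) (anc E.n i)
    (Pn.dat.lab θ (nbp E.n E.k i)) (Pn.dat.lab θ (nbm E.n E.k i)) with hSx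
  have hSc : ∀ i ∈ Df, cD * E.n ≤ ((Sx i).card : ℝ) := by
    intro i hi
    exact hP.deflt _ _ _ _ _ (inc3_item hE hP θ (hDf hi) (disjoint_left.1 hDA hi)) (hcase i hi)
  have hSm : ∀ i, ∀ x ∈ Sx i, x ∈ E.LAM ∧ (∀ j, Pn.dat.dif θ i x j ∈ Pn.R1) ∧
      ∀ j j', Pn.dat.dif θ i x j = Pn.dat.dif θ i x j' → j = j' := by
    intro i x hx
    simp only [hSx] at hx
    unfold Env.defSet at hx
    rw [mem_filter] at hx
    obtain ⟨h1, _, h3, h4, h5, h6, h7, h8⟩ := hx
    have e0 : Pn.dat.dif θ i x 0 = |x - anc E.n i| := rfl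
    have e1 : Pn.dat.dif θ i x 1 = |x - Pn.dat.lab θ (nbp E.n E.k i)| := rfl
    have e2 : Pn.dat.dif θ i x 2 = |x - Pn.dat.lab θ (nbm E.n E.k i)| := rfl
    refine ⟨h1, ?_, ?_⟩
    · intro j
      fin_cases j
      · exact h3
      · exact h4
      · exact h5
    · intro j j' hjj
      rw [← e0, ← e1] at h6
      rw [← e0, ← e2] at h7
      rw [← e1, ← e2] at h8
      fin_cases j <;> fin_cases j'
      · rfl
      · exact absurd hjj h6
      · exact absurd hjj h7
      · exact absurd hjj.symm h6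
      · rfl
      · exact absurd hjj h8
      · exact absurd hjj.symm h7
      · exact absurd hjj.symm h8
      · rfl
  set S' : ℕ → Finset ℤ := fun i =>
    (Sx i).filter fun x => x ∉ XC ∧ ∀ j, Pn.dat.dif θ i x j ∉ RC with hS'
  have hS'c : ∀ i, (Sx i).card ≤ (S' i).card + (XC.card + 6 * RC.card) := by
    intro i
    have h1 : Sx i ⊆ S' i ∪ ((XC ∩ Sx i) ∪ ((univ : Finset (Fin 3)).biUnion fun j =>
        (Sx i).filter fun x => |x - cen Pn.dat θ i j| ∈ RC)) := by
      intro x hx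
      by_cases h2 : x ∈ XC
      · exact mem_union_right _ (mem_union_left _ (mem_inter.2 ⟨h2, hx⟩))
      · by_cases h3 : ∀ j, Pn.dat.dif θ i x j ∉ RC
        · exact mem_union_left _ (mem_filter.2 ⟨hx, h2, h3⟩)
        · push Not at h3
          obtain ⟨j, hj⟩ := h3
          refine mem_union_right _ (mem_union_right _ (mem_biUnion.2 ⟨j, mem_univ _, ?_⟩))
          rw [mem_filter]
          rw [dif_cen] at hj
          exact ⟨hx, hj⟩
    have h4 : ((univ : Finset (Fin 3)).biUnion fun j =>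
        (Sx i).filter fun x => |x - cen Pn.dat θ i j| ∈ RC).card ≤ 6 * RC.card := by
      refine card_biUnion_le.trans ?_
      refine (sum_le_sum fun j _ => card_dist_le (Sx i) RC (cen Pn.dat θ i j)).trans ?_
      rw [sum_const, card_univ, Fintype.card_fin, smul_eq_mul]
      omega
    have h5 := (card_le_card h1).trans (card_union_le _ _)
    have h6 := card_union_le (XC ∩ Sx i) ((univ : Finset (Fin 3)).biUnion fun j =>
        (Sx i).filter fun x => |x - cen Pn.dat θ i j| ∈ RC)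
    have h7 : (XC ∩ Sx i).card ≤ XC.card := card_le_card inter_subset_left
    omega
  set O : ℕ → Finset (ℤ × (Fin 3 → ℤ)) := fun i =>
    (S' i).image fun x => (x, fun j => Pn.dat.dif θ i x j) with hO
  have hOc : ∀ i, (O i).card = (S' i).card := by
    intro i
    simp only [hO]
    refine card_image_of_injective _ fun x x' h => ?_
    exact congrArg Prod.fst h
  obtain ⟨f, hf, hf2⟩ := greedy Df O dfC 19 dfC_symm (by
    intro i hi i' _ o' _
    have hsub : ((O i).filter fun o => dfC o' o) ⊆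
        (((S' i).filter fun x => x = o'.1) ∪ ((univ : Finset (Fin 3)).biUnion fun j =>
          (S' i).filter fun x => |x - cen Pn.dat θ i j| ∈ (univ : Finset (Fin 3)).image o'.2)).image
          (fun x => (x, fun j => Pn.dat.dif θ i x j)) := by
      intro o ho
      rw [mem_filter] at ho
      obtain ⟨x, hx, rfl⟩ := mem_image.1 ho.1
      refine mem_image.2 ⟨x, ?_, rfl⟩
      rcases ho.2 with h1 | ⟨k, j, h1⟩
      · exact mem_union_left _ (mem_filter.2 ⟨hx, h1.symm⟩)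
      · refine mem_union_right _ (mem_biUnion.2 ⟨j, mem_univ _, mem_filter.2 ⟨hx, ?_⟩⟩)
        rw [← dif_cen]
        exact mem_image.2 ⟨k, mem_univ _, h1⟩
    refine (card_le_card hsub).trans (card_image_le.trans ?_)
    have c1 : ((S' i).filter fun x => x = o'.1).card ≤ 1 := by
      rw [card_le_one]
      intro a ha a' ha'
      rw [(mem_filter.1 ha).2, (mem_filter.1 ha').2]
    have c2 : ((univ : Finset (Fin 3)).biUnion fun j => (S' i).filter fun x =>
        |x - cen Pn.dat θ i j| ∈ (univ : Finset (Fin 3)).image o'.2).card ≤ 18 := by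
      refine card_biUnion_le.trans ?_
      refine (sum_le_sum fun j _ => card_dist_le (S' i) ((univ : Finset (Fin 3)).image o'.2)
        (cen Pn.dat θ i j)).trans ?_
      have c3 : ((univ : Finset (Fin 3)).image o'.2).card ≤ 3 :=
        card_image_le.trans (by rw [card_univ, Fintype.card_fin])
      rw [sum_const, card_univ, Fintype.card_fin, smul_eq_mul]
      omega
    have c4 := card_union_le ((S' i).filter fun x => x = o'.1) ((univ : Finset (Fin 3)).biUnion
      fun j => (S' i).filter fun x =>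
        |x - cen Pn.dat θ i j| ∈ (univ : Finset (Fin 3)).image o'.2)
    omega) (by
    intro i hi
    rw [hOc]
    have h := hSc i hi
    have h2 : ((Sx i).card : ℝ) ≤ (S' i).card + (XC.card + 6 * RC.card) := by
      exact_mod_cast hS'c i
    have h3 : 19 * (Df.card : ℝ) < (S' i).card := by linarith
    exact_mod_cast h3)
  have hfx : ∀ i ∈ Df, (f i).1 ∈ S' i ∧ ∀ j, (f i).2 j = Pn.dat.dif θ i (f i).1 j := by
    intro i hi
    obtain ⟨x, hx, h⟩ := mem_image.1 (hf i hi)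
    rw [← h]
    exact ⟨hx, fun j => rfl⟩
  have hS'm : ∀ i, ∀ x ∈ S' i, x ∈ Sx i ∧ x ∉ XC ∧ ∀ j, Pn.dat.dif θ i x j ∉ RC := by
    intro i x hx
    exact ⟨(mem_filter.1 hx).1, (mem_filter.1 hx).2.1, (mem_filter.1 hx).2.2⟩
  refine ⟨fun i => (f i).1, Df.image fun i => (f i).1,
    (Df ×ˢ (univ : Finset (Fin 3))).image fun u => (f u.1).2 u.2, ?_, ?_, ?_, ?_, ?_, ?_, ?_, ?_⟩
  · intro x hx
    obtain ⟨i, hi, rfl⟩ := mem_image.1 hx
    exact (hSm i _ (hS'm i _ (hfx i hi).1).1).1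
  · rw [disjoint_left]
    intro x hx
    obtain ⟨i, hi, rfl⟩ := mem_image.1 hx
    exact (hS'm i _ (hfx i hi).1).2.1
  · intro r hr
    obtain ⟨⟨i, j⟩, hij, rfl⟩ := mem_image.1 hr
    have hi := (mem_product.1 hij).1
    beta_reduce
    rw [(hfx i hi).2 j]
    exact (hSm i _ (hS'm i _ (hfx i hi).1).1).2.1 j
  · rw [disjoint_left]
    intro r hr
    obtain ⟨⟨i, j⟩, hij, rfl⟩ := mem_image.1 hr
    have hi := (mem_product.1 hij).1
    beta_reduce
    rw [(hfx i hi).2 j]
    exact (hS'm i _ (hfx i hi).1).2.2 j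
  · rw [card_image_of_injOn, card_product, card_univ, Fintype.card_fin]
    · omega
    · rintro ⟨i, j⟩ hij ⟨i', j'⟩ hij' h
      rw [mem_coe, mem_product] at hij hij'
      beta_reduce at h
      by_cases hne : i = i'
      · subst hne
        have h1 := hfx i hij.1
        rw [h1.2 j, h1.2 j'] at h
        have h2 := (hSm i _ (hS'm i _ h1.1).1).2.2 j j' h
        rw [h2]
      · exact absurd (Or.inr ⟨j, j', h⟩) (hf2 i hij.1 i' hij'.1 hne)
  · intro i hi
    exact mem_image_of_mem _ hi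
  · intro i hi i' hi' h
    by_contra hne
    exact hf2 i hi i' hi' hne (Or.inl h)
  · intro d hd
    obtain ⟨⟨i, j⟩, hij, rfl⟩ := mem_image.1 hd
    have hi := (mem_product.1 hij).1
    refine ⟨i, hi, j, ?_⟩
    beta_reduce
    rw [(hfx i hi).2 j]

end PC

end Pool.Agent.PGr
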