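import Pool.Agent.PGr.PCCount

/-!
# PGr, part P, completion: greedy choice, pieces of labellings
-/

noncomputable section

namespace Pool.Agent.PGr

open Finset

namespace PC

/-- Greedy choice of pairwise compatible options. -/
theorem greedy {T Ω : Type*} [DecidableEq T] [Nonempty Ω] (s : Finset T) (O : T → Finset Ω)
    (C : Ω → Ω → Prop) [∀ a b, Decidable (C a b)] (c : ℕ) (hsymm : ∀ a b, C a b → C b a)
    (h1 : ∀ t ∈ s, ∀ t' ∈ s, ∀ o' ∈ O t', ((O t).filter fun o => C o' o).card ≤ c)
    (h2 : ∀ t ∈ s, c * s.card < (O t).card) :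
    ∃ f : T → Ω, (∀ t ∈ s, f t ∈ O t) ∧ ∀ t ∈ s, ∀ t' ∈ s, t ≠ t' → ¬ C (f t) (f t') := by
  classical
  suffices H : ∀ s' : Finset T, s' ⊆ s → ∃ f : T → Ω, (∀ t ∈ s', f t ∈ O t) ∧
      ∀ t ∈ s', ∀ t' ∈ s', t ≠ t' → ¬ C (f t) (f t') from H s subset_rfl
  intro s'
  induction s' using Finset.induction_on with
  | empty =>
    intro _
    obtain ⟨o⟩ := ‹Nonempty Ω›
    exact ⟨fun _ => o, by simp, by simp⟩
  | insert a s' ha ih =>
    intro hs
    obtain ⟨f, hf, hf2⟩ := ih (fun t ht => hs (mem_insert_of_mem ht))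
    have has : a ∈ s := hs (mem_insert_self a s')
    -- the forbidden options
    set F : Finset Ω := s'.biUnion fun t' => (O a).filter fun o => C (f t') o with hF
    have hFc : F.card ≤ c * s'.card := by
      refine card_biUnion_le.trans ?_
      refine (sum_le_card_nsmul s' _ c fun t' ht' => ?_).trans (le_of_eq ?_)
      · have ht's : t' ∈ s := hs (mem_insert_of_mem ht')
        exact h1 a has t' ht's (f t') (hf t' ht')
      · rw [smul_eq_mul, mul_comm]
    have hlt : F.card < (O a).card := by
      have h3 : s'.card ≤ s.card := card_le_card fun t ht => hs (mem_insert_of_mem ht)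
      exact lt_of_le_of_lt (hFc.trans (Nat.mul_le_mul_left c h3)) (h2 a has)
    obtain ⟨o, ho, hoF⟩ := exists_mem_notMem_of_card_lt_card hlt
    have hno : ∀ t' ∈ s', ¬ C (f t') o := by
      intro t' ht' hC
      exact hoF (mem_biUnion.2 ⟨t', ht', mem_filter.2 ⟨ho, hC⟩⟩)
    refine ⟨Function.update f a o, ?_, ?_⟩
    · intro t ht
      by_cases hta : t = a
      · subst hta
        rw [Function.update_self]
        exact ho
      · rw [Function.update_of_ne hta]
        exact hf t ((mem_insert.1 ht).resolve_left hta)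
    · intro t ht t' ht' htt
      by_cases hta : t = a
      · subst hta
        have ht'a : t' ≠ t := fun h => htt h.symm
        rw [Function.update_self, Function.update_of_ne ht'a]
        exact fun hC => hno t' ((mem_insert.1 ht').resolve_left ht'a) (hsymm _ _ hC)
      · by_cases ht'a : t' = a
        · subst ht'a
          rw [Function.update_self, Function.update_of_ne hta]
          exact hno t ((mem_insert.1 ht).resolve_left hta)
        · rw [Function.update_of_ne hta, Function.update_of_ne ht'a]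
          exact hf2 t ((mem_insert.1 ht).resolve_left hta) t' ((mem_insert.1 ht').resolve_left ht'a)
            htt

/-- A piece of a labelling: the items of `s` have distinct labels in `X` and realise the
differences `T`. -/
def Pc (D : Dat) (θ : D.Om) (s : Finset ℕ) (y : ℕ → ℤ) (X T : Finset ℤ) : Prop :=
  (∀ i ∈ s, y i ∈ X) ∧ (∀ i ∈ s, ∀ i' ∈ s, y i = y i' → i = i') ∧
    ∀ d ∈ T, ∃ i ∈ s, ∃ j, D.dif θ i (y i) j = d

theorem Pc.union {D : Dat} {θ : D.Om} {s s' : Finset ℕ} {y y' : ℕ → ℤ} {X X' T T' : Finset ℤ}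
    (h : Pc D θ s y X T) (h' : Pc D θ s' y' X' T') (hs : Disjoint s s') (hX : Disjoint X X') :
    ∃ y'' : ℕ → ℤ, Pc D θ (s ∪ s') y'' (X ∪ X') (T ∪ T') := by
  classical
  set y'' : ℕ → ℤ := fun i => if i ∈ s then y i else y' i with hy''
  have e1 : ∀ i ∈ s, y'' i = y i := fun i hi => by simp only [hy'']; rw [if_pos hi]
  have e2 : ∀ i ∈ s', y'' i = y' i := by
    intro i hi
    simp only [hy'']
    rw [if_neg (fun h3 => disjoint_left.1 hs h3 hi)]
  refine ⟨y'', ?_, ?_, ?_⟩
  · intro i hi
    rcases mem_union.1 hi with hi | hi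
    · rw [e1 i hi]
      exact mem_union_left _ (h.1 i hi)
    · rw [e2 i hi]
      exact mem_union_right _ (h'.1 i hi)
  · intro i hi i' hi' hii
    rcases mem_union.1 hi with hi | hi <;> rcases mem_union.1 hi' with hi' | hi'
    · rw [e1 i hi, e1 i' hi'] at hii
      exact h.2.1 i hi i' hi' hii
    · rw [e1 i hi, e2 i' hi'] at hii
      have := h.1 i hi
      rw [hii] at this
      exact absurd (h'.1 i' hi') (disjoint_left.1 hX this)
    · rw [e2 i hi, e1 i' hi'] at hii
      have := h'.1 i hi
      rw [hii] at this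
      exact absurd this (disjoint_left.1 hX (h.1 i' hi'))
    · rw [e2 i hi, e2 i' hi'] at hii
      exact h'.2.1 i hi i' hi' hii
  · intro d hd
    rcases mem_union.1 hd with hd | hd
    · obtain ⟨i, hi, j, hj⟩ := h.2.2 d hd
      exact ⟨i, mem_union_left _ hi, j, by rw [e1 i hi]; exact hj⟩
    · obtain ⟨i, hi, j, hj⟩ := h'.2.2 d hd
      exact ⟨i, mem_union_right _ hi, j, by rw [e2 i hi]; exact hj⟩

end PC

end Pool.Agent.PGr
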