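import Pool.Agent.PGr.PCDef

/-!
# PGr, part P, completion: labels of all items
-/

noncomputable section

namespace Pool.Agent.PGr

open Finset

namespace PC

variable {E : Env} {Pn : Plan E} {κ ρ c1 κ' cD cC : ℝ} {b m : ℕ}

/-- labels allowed for items -/
def goodX (θ : Pn.dat.Om) (X : Finset ℤ) : Prop :=
  ∀ x ∈ X, x ∈ zall E.n ∧ ∀ v, (v ∈ E.Bk \ Pn.P ∨ v ∈ Pn.P) → Pn.dat.lab θ v ≠ x

theorem goodX_union {θ : Pn.dat.Om} {X X' : Finset ℤ} (h : goodX θ X) (h' : goodX θ X') :
    goodX θ (X ∪ X') := by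
  intro x hx
  rcases mem_union.1 hx with hx | hx
  · exact h x hx
  · exact h' x hx

theorem goodX_LAM (hP : Pn.Ok κ' cD cC b m) {θ : Pn.dat.Om} {X : Finset ℤ} (hX : X ⊆ E.LAM) :
    goodX θ X := by
  intro x hx
  refine ⟨(LAM_prop (hX hx)).1, ?_⟩
  rintro v (hv | hv) h
  · rw [← h] at hx
    exact lab_Sv_LAM hv (hX hx)
  · rw [lab_P hv] at h
    rw [← h] at hx
    exact PL_LAM (hP.pl_PL v hv) (hX hx)

theorem goodX_Lb (hP : Pn.Ok κ' cD cC b m) {θ : Pn.dat.Om} : goodX θ Pn.Lb := by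
  intro x hx
  refine ⟨(PL_prop (hP.Lb_PL hx)).1, ?_⟩
  rintro v (hv | hv) h
  · rw [← h] at hx
    exact lab_Sv_PL hP hv (hP.Lb_PL hx)
  · rw [lab_P hv] at h
    rw [← h] at hx
    exact hP.Lb_pl v hv hx

/-- Labels of all items, given the labels of almost all main items. -/
theorem items (hE : E.Ok κ ρ c1) (hP : Pn.Ok κ' cD cC b m) (hn : 3 ≤ E.n) (θ : Pn.dat.Om)
    (I' : Finset ℕ) (z : ℕ → ℤ) (hI' : I' ⊆ Pn.dat.It)
    (hPL : Pn.dat.PartLab θ (Pn.dat.It \ I') z)
    (hs1 : 60 * (I'.card : ℝ) ≤ cC * E.n) (hs2 : 240 * (I'.card : ℝ) ≤ cD * E.n)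
    (hcC : 0 < cC) (hcD : 0 < cD) :
    ∃ (y : ℕ → ℤ) (X T : Finset ℤ), goodX θ X ∧ Pc Pn.dat θ E.Ck y X T ∧
      (∀ d ∈ Pn.dat.D0, ¬ Pn.dat.used θ d → d ∈ T) ∧ Pn.G ⊆ T ∧ Pn.R1 ⊆ T := by
  classical
  have hn0 : (0 : ℝ) < E.n := by exact_mod_cast n_pos E
  have hCn : 0 < cC * E.n := by positivity
  have hDn : 0 < cD * E.n := by positivity
  -- the labelled main items
  set s1 := Pn.dat.It \ I' with hs1'
  set U1 : Finset ℤ := (s1 ×ˢ (univ : Finset (Fin 3))).image
    (fun u => Pn.dat.dif θ u.1 (z u.1) u.2) with hU1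
  have hU1c : U1.card = 3 * s1.card := by
    rw [hU1, card_image_of_injOn, card_product, card_univ, Fintype.card_fin]
    · omega
    · rintro ⟨i, j⟩ hij ⟨i', j'⟩ hij' h
      rw [mem_coe, mem_product] at hij hij'
      have h2 := hPL.2.2.2 i hij.1 i' hij'.1 j j' h
      rw [h2.1, h2.2]
  set Fr := Pn.dat.D0.filter (fun d => ¬ Pn.dat.used θ d) with hFr
  have hU1s : U1 ⊆ Fr := by
    intro d hd
    obtain ⟨⟨i, j⟩, hij, rfl⟩ := mem_image.1 hd
    rw [mem_product] at hij
    exact mem_filter.2 (hPL.2.2.1 i hij.1 j)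
  have hFrc : Fr.card = 3 * Pn.dat.It.card + b := count_free hn hE hP θ
  have hs1c : s1.card + I'.card = Pn.dat.It.card := card_sdiff_add_card_eq_card hI'
  set Dp := Fr \ U1 with hDp
  have hDpc : Dp.card = 3 * I'.card + b := by
    have h1 := card_sdiff_add_card_eq_card hU1s
    rw [← hDp] at h1
    omega
  have hDpd : Dp ⊆ dall E.n := by
    intro d hd
    have h1 := (mem_filter.1 (mem_sdiff.1 hd).1).1
    rw [D0_eq] at h1
    exact (mem_sdiff.1 h1).1
  have hDpr : (Dp.card : ℝ) = 3 * I'.card + b := by exact_mod_cast hDpc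
  have hb := hP.b_hi
  -- cover
  obtain ⟨s2, y2, X2, RC, hs2C, hs2c, hX2, hX2c, hRC, hRCc, hPc2⟩ :=
    cover_piece hP θ Dp hDpd (by rw [hDpr]; linarith)
  -- default
  set Df := I' ∪ Pn.Ed ∪ (Pn.CR \ s2) with hDf
  have hItC : Pn.dat.It ⊆ E.Ck := sdiff_subset
  have hIt_not : ∀ i ∈ Pn.dat.It, i ∉ Pn.CR ∧ i ∉ Pn.Ed ∧ i ∉ Pn.Ab := by
    intro i hi
    rw [It_eq, mem_sdiff, mem_union, mem_union] at hi
    tauto
  have hDfC : Df ⊆ E.Ck := by
    intro i hi
    rw [hDf, mem_union, mem_union] at hi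
    rcases hi with (hi | hi) | hi
    · exact hItC (hI' hi)
    · exact hP.Ed_sub hi
    · exact hP.CR_sub (mem_sdiff.1 hi).1
  have hDfA : Disjoint Df Pn.Ab := by
    rw [disjoint_left]
    intro i hi hiA
    rw [hDf, mem_union, mem_union] at hi
    rcases hi with (hi | hi) | hi
    · exact (hIt_not i (hI' hi)).2.2 hiA
    · exact disjoint_left.1 hP.Ed_Ab hi hiA
    · exact disjoint_left.1 hP.CR_Ab (mem_sdiff.1 hi).1 hiA
  have hDfc : Df.card + Dp.card = I'.card + Pn.Ed.card + Pn.CR.card := by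
    have h1 := card_sdiff_add_card_eq_card hs2C
    have h2 : Df.card = I'.card + Pn.Ed.card + (Pn.CR \ s2).card := by
      rw [hDf, card_union_of_disjoint, card_union_of_disjoint]
      · rw [disjoint_left]
        intro i hi hi2
        exact (hIt_not i (hI' hi)).2.1 hi2
      · rw [disjoint_left]
        intro i hi hi2
        have h3 := (mem_sdiff.1 hi2).1
        rcases mem_union.1 hi with hi | hi
        · exact (hIt_not i (hI' hi)).1 h3
        · exact disjoint_left.1 hP.CR_Ed h3 hi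
    omega
  have hDfr : (Df.card : ℝ) ≤ I'.card + Pn.Ed.card + Pn.CR.card := by
    have : Df.card ≤ I'.card + Pn.Ed.card + Pn.CR.card := by omega
    exact_mod_cast this
  have hszD := hP.szD
  push_cast at hszD
  have hX2r : (X2.card : ℝ) ≤ Dp.card := by exact_mod_cast hX2c
  have hRCr : (RC.card : ℝ) = 2 * Dp.card := by exact_mod_cast hRCc
  obtain ⟨y3, X3, RD, hX3, hX32, hRD, hRDC, hRDc, hPc3⟩ :=
    deflt_piece hE hP θ Df hDfC hDfA X2 RC (by rw [hRCr]; rw [hDpr] at hX2r ⊢; linarith)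
  -- absorb
  set R' := Pn.R1 \ (RC ∪ RD) with hR'
  have hR'c : R'.card = m := by
    have h1 : (RC ∪ RD).card = RC.card + RD.card := card_union_of_disjoint hRDC.symm
    have h2 := card_sdiff_add_card_eq_card (union_subset hRC hRD)
    have h3 := hP.cnt2
    rw [h1] at h2
    rw [hR']
    omega
  obtain ⟨z4, hz4, hz4i, hz4d⟩ := hP.absorb R' sdiff_subset hR'c
  have hPc4 : Pc Pn.dat θ Pn.Ab z4 Pn.Lb (Pn.G ∪ R') := by
    refine ⟨hz4, hz4i, ?_⟩
    intro d hd
    have h1 := hz4d.1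
    rw [← h1] at hd
    obtain ⟨⟨i, j⟩, hij, hd2⟩ := mem_image.1 hd
    have hi := (mem_product.1 hij).1
    refine ⟨i, hi, j, ?_⟩
    have hnb := hP.Ab_nb i hi
    rw [dif_planted hnb.1 hnb.2]
    exact hd2
  -- the main items
  have hPc1 : Pc Pn.dat θ s1 z (s1.image z) U1 := by
    refine ⟨fun i hi => mem_image_of_mem _ hi, hPL.2.1, ?_⟩
    intro d hd
    obtain ⟨⟨i, j⟩, hij, rfl⟩ := mem_image.1 hd
    exact ⟨i, (mem_product.1 hij).1, j, rfl⟩
  have hX1Z : ∀ x ∈ s1.image z, x ∈ Pn.dat.Z0 ∧ ¬ Pn.dat.occ θ x := by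
    intro x hx
    obtain ⟨i, hi, rfl⟩ := mem_image.1 hx
    exact hPL.1 i hi
  have hgood1 : goodX θ (s1.image z) := by
    intro x hx
    have h1 := hX1Z x hx
    refine ⟨Z0_zall hE h1.1, ?_⟩
    rintro v (hv | hv) h
    · exact h1.2 ⟨v, hv, h⟩
    · rw [lab_P hv] at h
      rw [← h] at h1
      exact Z0_PL h1.1 (hP.pl_PL v hv)
  -- unions
  obtain ⟨ya, hPca⟩ := hPc2.union hPc3 (by
    rw [disjoint_left]
    intro i hi hi3
    have hiC := hs2C hi
    rw [hDf, mem_union, mem_union] at hi3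
    rcases hi3 with (hi3 | hi3) | hi3
    · exact (hIt_not i (hI' hi3)).1 hiC
    · exact disjoint_left.1 hP.CR_Ed hiC hi3
    · exact (mem_sdiff.1 hi3).2 hi) hX32.symm
  obtain ⟨yb, hPcb⟩ := hPca.union hPc4 (by
    rw [disjoint_union_left]
    refine ⟨?_, hDfA⟩
    rw [disjoint_left]
    intro i hi hiA
    exact disjoint_left.1 hP.CR_Ab (hs2C hi) hiA) (by
    rw [disjoint_left]
    intro x hx hxL
    have hxLAM : x ∈ E.LAM := by
      rcases mem_union.1 hx with hx | hx
      · exact hX2 hx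
      · exact hX3 hx
    exact PL_LAM (hP.Lb_PL hxL) hxLAM)
  obtain ⟨yc, hPcc⟩ := hPc1.union hPcb (by
    rw [disjoint_left]
    intro i hi hi2
    rw [hs1', mem_sdiff] at hi
    have h1 := hIt_not i hi.1
    rcases mem_union.1 hi2 with hi2 | hi2
    · rcases mem_union.1 hi2 with hi2 | hi2
      · exact h1.1 (hs2C hi2)
      · rw [hDf, mem_union, mem_union] at hi2
        rcases hi2 with (hi2 | hi2) | hi2
        · exact hi.2 hi2
        · exact h1.2.1 hi2
        · exact h1.1 (mem_sdiff.1 hi2).1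
    · exact h1.2.2 hi2) (by
    rw [disjoint_left]
    intro x hx hx2
    have h1 := (hX1Z x hx).1
    rcases mem_union.1 hx2 with hx2 | hx2
    · rcases mem_union.1 hx2 with hx2 | hx2
      · exact Z0_LAM h1 (hX2 hx2)
      · exact Z0_LAM h1 (hX3 hx2)
    · exact Z0_PL h1 (hP.Lb_PL hx2))
  have hset : s1 ∪ (s2 ∪ Df ∪ Pn.Ab) = E.Ck := by
    ext i
    constructor
    · intro hi
      rcases mem_union.1 hi with hi | hi
      · exact hItC (mem_sdiff.1 hi).1
      · rcases mem_union.1 hi with hi | hi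
        · rcases mem_union.1 hi with hi | hi
          · exact hP.CR_sub (hs2C hi)
          · exact hDfC hi
        · exact hP.Ab_sub hi
    · intro hi
      by_cases hA : i ∈ Pn.Ab
      · exact mem_union_right _ (mem_union_right _ hA)
      · by_cases h2 : i ∈ s2
        · exact mem_union_right _ (mem_union_left _ (mem_union_left _ h2))
        · by_cases h3 : i ∈ Df
          · exact mem_union_right _ (mem_union_left _ (mem_union_right _ h3))
          · refine mem_union_left _ (mem_sdiff.2 ⟨?_, ?_⟩)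
            · rw [It_eq, mem_sdiff, mem_union, mem_union]
              refine ⟨hi, ?_⟩
              rintro ((h4 | h4) | h4)
              · exact h3 (by rw [hDf]; exact mem_union_right _ (mem_sdiff.2 ⟨h4, h2⟩))
              · exact h3 (by rw [hDf]; exact mem_union_left _ (mem_union_right _ h4))
              · exact hA h4
            · intro h4
              exact h3 (by rw [hDf]; exact mem_union_left _ (mem_union_left _ h4))
  rw [hset] at hPcc
  refine ⟨yc, _, _, ?_, hPcc, ?_, ?_, ?_⟩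
  · exact goodX_union hgood1 (goodX_union (goodX_union (goodX_LAM hP hX2) (goodX_LAM hP hX3))
      (goodX_Lb hP))
  · intro d hd hu
    by_cases h1 : d ∈ U1
    · exact mem_union_left _ h1
    · have h2 : d ∈ Dp := mem_sdiff.2 ⟨mem_filter.2 ⟨hd, hu⟩, h1⟩
      exact mem_union_right _ (mem_union_left _ (mem_union_left _ (mem_union_left _ h2)))
  · intro d hd
    exact mem_union_right _ (mem_union_right _ (mem_union_left _ hd))
  · intro d hd
    by_cases h1 : d ∈ RC
    · exact mem_union_right _ (mem_union_left _ (mem_union_left _ (mem_union_right _ h1)))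
    · by_cases h2 : d ∈ RD
      · exact mem_union_right _ (mem_union_left _ (mem_union_right _ h2))
      · refine mem_union_right _ (mem_union_right _ (mem_union_right _ ?_))
        rw [hR', mem_sdiff, mem_union]
        exact ⟨hd, fun h3 => h3.elim h1 h2⟩

end PC

end Pool.Agent.PGr
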