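import Pool.Agent.PGr.PRegE

/-!
# PGr, part P: PRegThm
-/

namespace Pool.Agent.PGr.PR

open Finset

variable {E : Env} {Pn : Plan E} {κ ρ c1 cD cC : ℝ} {b m : ℕ}

/-- numerical conditions -/
structure Num (E : Env) (κ κ1 : ℝ) : Prop where
  pos : 0 < κ1
  le1 : κ1 ≤ 1 / 10000
  leκ : 10000 * κ1 ≤ κ
  q1000 : 1000 ≤ (E.q : ℝ)
  κq : 100 ≤ κ * E.q

namespace Num

variable {κ1 : ℝ}

theorem q6 (E : Env) : (E.q : ℝ) ^ 6 ≤ E.n := by exact_mod_cast E.base.q_high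

theorem ratio (h : Num E κ κ1) : (E.q : ℝ) ≤ (E.n : ℝ) / (E.q : ℝ) ^ 2 := by
  have hq := h.q1000
  have hq0 : (0 : ℝ) < E.q := by linarith
  rw [le_div_iff₀ (by positivity)]
  refine le_trans ?_ (q6 E)
  have : (E.q : ℝ) ^ 6 = E.q * (E.q : ℝ) ^ 2 * (E.q : ℝ) ^ 3 := by ring
  rw [this]
  have h3 : (1 : ℝ) ≤ (E.q : ℝ) ^ 3 := one_le_pow₀ (by linarith)
  exact le_mul_of_one_le_right (by positivity) h3

theorem κpos (h : Num E κ κ1) : 0 < κ := by
  have := h.pos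
  have := h.leκ
  linarith

theorem κratio (h : Num E κ κ1) : 100 ≤ κ * ((E.n : ℝ) / (E.q : ℝ) ^ 2) :=
  h.κq.trans (mul_le_mul_of_nonneg_left h.ratio h.κpos.le)

theorem κn (h : Num E κ κ1) : 100 ≤ κ * E.n := by
  refine h.κratio.trans (mul_le_mul_of_nonneg_left ?_ h.κpos.le)
  have hq := h.q1000
  exact div_le_self (by positivity) (one_le_pow₀ (by linarith))

theorem q2n (h : Num E κ κ1) : 100 * (E.q : ℝ) ^ 2 ≤ κ * E.n := by
  have h1 := h.κratio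
  have hq := h.q1000
  have hq0 : (0 : ℝ) < E.q := by linarith
  have e : κ * ((E.n : ℝ) / (E.q : ℝ) ^ 2) = κ * E.n / (E.q : ℝ) ^ 2 := by ring
  rw [e, le_div_iff₀ (by positivity)] at h1
  exact h1

theorem nq (h : Num E κ κ1) : 1000 ≤ (E.n : ℝ) / E.q := by
  have h1 := h.ratio
  have hq := h.q1000
  have hq0 : (0 : ℝ) < E.q := by linarith
  refine (hq.trans h1).trans ?_
  apply div_le_div_of_nonneg_left (by positivity) hq0
  nlinarith

end Num

theorem S_ge (E : Env) : (E.n : ℝ) ≤ 2 * (E.q : ℝ) ^ 2 * ((E.S : ℝ) + 5) + 2 := by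
  exact_mod_cast E.base.S_low

theorem reg_of {κ1 : ℝ} (h : Num E κ κ1) (hρ : ρ ≤ κ1) (hE : E.Ok κ1 ρ c1)
    (hP : Pn.Ok κ1 cD cC b m) : Pn.dat.Reg κ (1 / 100) := by
  have hκ := h.κpos
  have hκ1 := h.pos
  have hq1000 := h.q1000
  have hq0 : (0 : ℝ) < E.q := by linarith
  have hq2 : (0 : ℝ) < (E.q : ℝ) ^ 2 := by positivity
  have hn0 : (0 : ℝ) < E.n := n_pos E
  have hratio := h.ratio
  have hκr := h.κratio
  have hk := E.base.k_lt
  have hkp := E.base.k_pos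
  have hρn : ρ * E.n ≤ κ1 * E.n := mul_le_mul_of_nonneg_right hρ hn0.le
  have hρr : ρ * E.n / (E.q : ℝ) ^ 2 ≤ κ1 * E.n / (E.q : ℝ) ^ 2 :=
    div_le_div_of_nonneg_right hρn hq2.le
  have eκ1 : κ1 * E.n / (E.q : ℝ) ^ 2 = κ1 * ((E.n : ℝ) / (E.q : ℝ) ^ 2) := by ring
  have eκ : κ * E.n / (E.q : ℝ) ^ 2 = κ * ((E.n : ℝ) / (E.q : ℝ) ^ 2) := by ring
  have hκκ1 : 10000 * (κ1 * ((E.n : ℝ) / (E.q : ℝ) ^ 2)) ≤ κ * ((E.n : ℝ) / (E.q : ℝ) ^ 2) := by
    have := mul_le_mul_of_nonneg_right h.leκ (by positivity : 0 ≤ (E.n : ℝ) / (E.q : ℝ) ^ 2)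
    linarith
  have hκκn : 10000 * (κ1 * E.n) ≤ κ * E.n := by
    have := mul_le_mul_of_nonneg_right h.leκ hn0.le
    linarith
  refine {
    q_prime := E.base.q_prime
    q_big := E.base.q_big
    q_low := E.base.q_low
    q_high := E.base.q_high
    S_low := ?_
    B0_dvd := E.base.B0_dvd
    B0_low := E.base.B0_low
    B0_high := ?_
    Y_mem := fun v _ t => s_Y_mem E.base v t
    Y_res := fun v _ t => s_Y_res E.base v t
    Y_inj := fun v _ => s_Y_inj E.base v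
    Y_ne := fun v hv v' hv' hu hne t =>
      s_Y_ne E.base (Sv_inVS hP hv) (Sv_inVS hP hv') hu hne t
    sp_res := fun v hv t => s_sp_res E.base (Sv_inVS hP hv) t
    sp_ne := fun v hv v' hv' hu hne t =>
      s_sp_ne E.base (Sv_inVS hP hv) (Sv_inVS hP hv') hu hne t
    sp_hi := fun v hv hh t => s_sp_hi E.base (Sv_inVS hP hv) hh t
    sp_lo := fun v hv hh t => s_sp_lo E.base (Sv_inVS hP hv) hh t
    sp_le := fun v hv t => s_sp_le E.base (Sv_inVS hP hv) t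
    anc_A := ?_
    anc_inj := ?_
    nb_ne := ?_
    nb1_inj := ?_
    nb2_inj := ?_
    pl_mem := ?_
    lab_inj := lab_inj hE hP
    gen := ?_
    inf := ?_
    infR := ?_
    res := ?_
    resc := ?_
    balc := ?_
    bals := ?_
    bals_up := ?_
    bdc := hP.bdc
    svc := ?_
    pure_most := ?_
    IR_sub := ?_
    IR_pure := ?_
    IR_hi := ?_
    IR_A := ?_
    sw_up := ?_
    sw_lo := ?_
    Z0_def := Z0_def Pn
    D0_mem := D0_mem hE hP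
    D0_sub := D0_sub Pn
    count := ⟨b, hP.b_lo, fun θ => (count hE hP θ).trans (le_of_eq (by congr))⟩
    anc_injS := fun v hv v' hv' hh =>
      s_anc_inj (n_ge E) (Sv_inVS hP hv).1 (Sv_inVS hP hv').1 hh }
  · -- S_low
    show (1 - κ) * (E.n : ℝ) ≤ 2 * (E.S : ℝ) * (E.q : ℝ) ^ 2
    have h1 := S_ge E
    have h2 := h.q2n
    have h3 : (1 : ℝ) ≤ (E.q : ℝ) ^ 2 := one_le_pow₀ (by linarith)
    linarith
  · -- B0_high
    show E.B0 + 2 * E.S * E.q ^ 2 ≤ 2 * E.n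
    have h1 := E.base.B0_high
    have h2 := E.base.S_high
    have e : 2 * E.q ^ 2 * (E.S + 1) = 2 * E.S * E.q ^ 2 + 2 * E.q ^ 2 := by ring
    omega
  · -- anc_A
    intro v hv
    rw [Finset.mem_union] at hv
    have hs : v < E.n ∧ ¬ spec E.n v := by
      rcases hv with hv | hv
      · have h1 : v ∈ E.Bk := (Finset.mem_sdiff.mp (show v ∈ E.Bk \ Pn.P from hv)).1
        exact ⟨Bk_lt hE h1, Bk_not_spec hE h1⟩
      · have h1 : v ∈ E.Ck := It_Ck (show v ∈ Pn.It from hv)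
        exact ⟨Ck_lt hE h1, Ck_not_spec hE h1⟩
    exact s_norm_bounds hs.1 hs.2
  · -- anc_inj
    intro i hi j hj hij
    exact s_anc_inj (n_ge E) (Ck_lt hE (It_Ck hi)) (Ck_lt hE (It_Ck hj)) hij
  · -- nb_ne
    intro i hi
    exact nbp_ne_nbm hkp hk (Ck_lt hE (It_Ck hi))
  · intro i hi j hj hij
    exact nbp_inj hE (It_Ck hi) (It_Ck hj) hij
  · intro i hi j hj hij
    exact nbm_inj hE (It_Ck hi) (It_Ck hj) hij
  · -- pl_mem
    intro i hi v hv hvS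
    have h1 : v ∈ Pn.P := by
      by_contra h2
      exact hvS ((nb_Sv_iff hE hP (It_Ck hi) hv).mpr h2)
    exact hP.rng v h1
  · -- gen
    intro i hi
    have hC := It_Ck (show i ∈ Pn.It from hi)
    have h1 := hP.gen i hC (It_not_Ab hi)
    rw [← cls_eq hE hP hC (isNb_p E i), ← cls_eq hE hP hC (isNb_m E i)] at h1
    exact h1
  · -- inf
    intro j hj v
    have h1 := inf_bound hE hP hκ1.le j hj v
    have h2 := inf_num2 (n := (E.n : ℝ)) (q := (E.q : ℝ)) (κ := κ1) (by linarith [h.le1])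
      (by linarith) (Num.q6 E)
    exact inf_num (n := (E.n : ℝ)) (q := (E.q : ℝ)) (by linarith) (Nat.cast_nonneg _) (h1.trans h2)
  · -- infR
    intro j v
    have h1 := infR_bound hE hP j v
    have h2 : 3 * (E.n : ℝ) / E.q + 6 ≤ 4 * E.n / E.q := by
      have h3 := h.nq
      have e1 : 4 * (E.n : ℝ) / E.q = 3 * (E.n : ℝ) / E.q + E.n / E.q := by ring
      linarith
    exact inf_num (n := (E.n : ℝ)) (q := (E.q : ℝ)) (by linarith) (Nat.cast_nonneg _) (h1.trans h2)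
  · -- res
    intro j e w he
    refine (res_bound hE hP j e w he).trans ?_
    show 18 * κ1 * E.n ≤ κ * E.n
    nlinarith
  · -- resc
    refine hE.resc.trans ?_
    exact mul_le_mul_of_nonneg_right (by linarith [h.leκ]) hq2.le
  · -- balc
    intro bb x y hx hxy hy
    refine (balc hE hP bb x y hx hxy hy).trans ?_
    show ρ * E.n + κ1 * E.n + 1 ≤ κ * E.n
    have := h.κn
    nlinarith
  · -- bals
    intro u _ hu bb x y hx hxy hy
    refine (bals hE hP u hu bb x y hx hxy hy).trans ?_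
    show ρ * E.n / (E.q : ℝ) ^ 2 + 1 + κ1 * E.n / (E.q : ℝ) ^ 2 ≤ κ * E.n / (E.q : ℝ) ^ 2
    rw [eκ]
    rw [eκ1] at hρr ⊢
    linarith
  · -- bals_up
    intro u _ bb x y hx hxy hy
    refine (bals_up hE u bb x y hx hxy hy).trans ?_
    show ((y : ℝ) - x) / (2 * (E.q : ℝ) ^ 2) + (ρ * E.n / (E.q : ℝ) ^ 2 + 1)
      ≤ ((y : ℝ) - x) / (2 * (E.q : ℝ) ^ 2) + κ * E.n / (E.q : ℝ) ^ 2
    rw [eκ]
    rw [eκ1] at hρr
    linarith
  · -- svc
    intro u
    refine (svc_aux hE u).trans ?_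
    show (E.n : ℝ) / (2 * (E.q : ℝ) ^ 2) + 2 * (ρ * E.n / (E.q : ℝ) ^ 2) + 3 ≤ (1 + κ) * E.S
    have h1 := S_ge E
    have h2 : (E.n : ℝ) / (E.q : ℝ) ^ 2 ≤ 2 * ((E.S : ℝ) + 5) + 2 := by
      rw [div_le_iff₀ hq2]
      have h3 : (1 : ℝ) ≤ (E.q : ℝ) ^ 2 := one_le_pow₀ (by linarith)
      nlinarith
    have e1 : (E.n : ℝ) / (2 * (E.q : ℝ) ^ 2) = (E.n : ℝ) / (E.q : ℝ) ^ 2 / 2 := by
      field_simp
    rw [e1]
    rw [eκ1] at hρr
    have h4 : (E.n : ℝ) / (E.q : ℝ) ^ 2 / 2 - 6 ≤ E.S := by linarith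
    have h5 : κ * ((E.n : ℝ) / (E.q : ℝ) ^ 2 / 2 - 6) ≤ κ * E.S :=
      mul_le_mul_of_nonneg_left h4 hκ.le
    have h6 : κ * 1000 ≤ κ * ((E.n : ℝ) / (E.q : ℝ) ^ 2) :=
      mul_le_mul_of_nonneg_left (by linarith) hκ.le
    have h7 : κ * ((E.n : ℝ) / (E.q : ℝ) ^ 2 / 2 - 6) =
      κ * ((E.n : ℝ) / (E.q : ℝ) ^ 2) / 2 - κ * 1000 * (6 / 1000) := by ring
    rw [h7] at h5
    linarith
  · -- pure_most
    refine (pure_most hE hP).trans ?_
    show 38 * κ1 * E.n ≤ κ * E.n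
    nlinarith
  · intro i hi
    exact ((mem_IR i).mp (show i ∈ Pn.IR from hi)).1
  · -- IR_pure
    intro i hi
    have h1 := (mem_IR i).mp (show i ∈ Pn.IR from hi)
    have hC := It_Ck h1.1
    rw [pure_iff]
    exact ⟨(nb_Sv_iff hE hP hC (isNb_p E i)).mpr h1.2.2.1,
      (nb_Sv_iff hE hP hC (isNb_m E i)).mpr h1.2.2.2.1, h1.2.2.2.2.1, h1.2.2.2.2.2.1⟩
  · intro i hi
    exact ((mem_IR i).mp (show i ∈ Pn.IR from hi)).2.1
  · intro i hi
    exact ((mem_IR i).mp (show i ∈ Pn.IR from hi)).2.2.2.2.2.2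
  · -- sw_up
    intro j hj v
    refine (sw_up_bound hE hP j (by rcases hj with rfl | rfl <;> decide) v).trans ?_
    show 3 * ((E.n : ℝ) / (2 * (E.q : ℝ) ^ 2) + 1) ≤ 2 * E.n / (E.q : ℝ) ^ 2
    have e1 : (E.n : ℝ) / (2 * (E.q : ℝ) ^ 2) = (E.n : ℝ) / (E.q : ℝ) ^ 2 / 2 := by field_simp
    have e2 : 2 * (E.n : ℝ) / (E.q : ℝ) ^ 2 = 2 * ((E.n : ℝ) / (E.q : ℝ) ^ 2) := by ring
    rw [e1, e2]
    linarith
  · -- sw_lo
    intro j hj
    refine (sw_lo_bound hE hP ?_ (by linarith [h.le1]) (by linarith) j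
      (by rcases hj with rfl | rfl <;> decide)).trans ?_
    · have h1 : (E.q : ℝ) ^ 6 ≤ E.n := Num.q6 E
      have h2 : (1000 : ℝ) ≤ (E.q : ℝ) ^ 6 := by
        calc (1000 : ℝ) ≤ E.q := hq1000
          _ ≤ (E.q : ℝ) ^ 6 := le_self_pow₀ (by linarith) (by norm_num)
      have h3 : (100 : ℝ) ≤ E.n := by linarith
      exact_mod_cast h3
    · show 7800 * κ1 * (E.q : ℝ) ^ 2 ≤ κ * (E.q : ℝ) ^ 2
      exact mul_le_mul_of_nonneg_right (by linarith [h.leκ]) hq2.le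

theorem _root_.Pool.Agent.PGr.pRegThm : PRegThm := by
  refine ⟨1 / 100, by norm_num, ?_⟩
  intro κ hκ
  refine ⟨min κ 1 / 10000, by positivity, ?_⟩
  intro c1 cD cC _ _ _
  obtain ⟨N, hN⟩ := exists_nat_ge (max 1000 (100 / κ))
  refine ⟨N ^ 8, ?_⟩
  intro E Pn ρ b m hn hρ hE hP
  have hqN : N ≤ E.q := by
    by_contra hlt
    push Not at hlt
    have h1 : E.q ^ 8 < N ^ 8 := Nat.pow_lt_pow_left hlt (by norm_num)
    have h2 := E.base.q_low
    omega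
  have hqN' : (N : ℝ) ≤ E.q := by exact_mod_cast hqN
  have hq1 : (1000 : ℝ) ≤ E.q := (le_max_left _ _).trans (hN.trans hqN')
  have hq2 : 100 / κ ≤ E.q := (le_max_right _ _).trans (hN.trans hqN')
  have hnum : Num E κ (min κ 1 / 10000) := {
    pos := by positivity
    le1 := by
      have := min_le_right κ 1
      linarith
    leκ := by
      have := min_le_left κ 1
      linarith
    q1000 := hq1
    κq := by
      rw [div_le_iff₀ hκ] at hq2
      linarith }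
  exact reg_of hnum hρ hE hP

end Pool.Agent.PGr.PR
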