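import Pool.Agent.PGr.Env

/-!
# PGr, part S, colouring: coordinates on the inner cycles
-/

namespace Pool.Agent.PGr.SC

open Finset

variable {n k : ℕ}

theorem nbp_lt (hn : 0 < n) (i : ℕ) : nbp n k i < n := Nat.mod_lt _ hn

theorem nbm_lt (hn : 0 < n) (i : ℕ) : nbm n k i < n := Nat.mod_lt _ hn

theorem nbp_nbm (hk : k ≤ n) {i : ℕ} (hi : i < n) : nbp n k (nbm n k i) = i := by
  unfold nbp nbm
  rw [Nat.mod_add_mod]
  have : i + (n - k) + k = i + n := by omega
  rw [this, Nat.add_mod_right, Nat.mod_eq_of_lt hi]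

theorem nbm_nbp (hk : k ≤ n) {i : ℕ} (hi : i < n) : nbm n k (nbp n k i) = i := by
  unfold nbp nbm
  rw [Nat.mod_add_mod]
  have : i + k + (n - k) = i + n := by omega
  rw [this, Nat.add_mod_right, Nat.mod_eq_of_lt hi]

/-- coordinates on the inner cycles: `t i` is the position on the cycle `i % gcd n k` -/
theorem exists_pos (hk : 1 ≤ k) (hk2 : 2 * k < n) :
    ∃ t : ℕ → ℕ, (∀ i, t i < n / Nat.gcd n k) ∧
      (∀ i < n, t (nbp n k i) = (t i + 1) % (n / Nat.gcd n k)) ∧
      (∀ i < n, nbp n k i % Nat.gcd n k = i % Nat.gcd n k) ∧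
      (∀ i < n, ∀ j < n, i % Nat.gcd n k = j % Nat.gcd n k → t i = t j → i = j) ∧
      3 ≤ n / Nat.gcd n k := by
  set g := Nat.gcd n k with hg
  have hg0 : 0 < g := Nat.gcd_pos_of_pos_right _ hk
  obtain ⟨L, hL⟩ : g ∣ n := Nat.gcd_dvd_left n k
  obtain ⟨kk, hkk⟩ : g ∣ k := Nat.gcd_dvd_right n k
  have hLdef : n / g = L := by rw [hL, Nat.mul_div_cancel_left _ hg0]
  have hgk : g ≤ k := Nat.le_of_dvd hk (Nat.gcd_dvd_right n k)
  have hL3 : 3 ≤ L := by
    by_contra hlt
    push Not at hlt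
    have : g * L ≤ g * 2 := Nat.mul_le_mul_left _ (by omega)
    omega
  have hcop : Nat.Coprime kk L := by
    have h1 : Nat.Coprime (n / g) (k / g) := Nat.coprime_div_gcd_div_gcd (by rw [← hg]; exact hg0)
    have h2 : k / g = kk := by rw [hkk]; exact Nat.mul_div_cancel_left _ hg0
    rw [hLdef, h2] at h1
    exact h1.symm
  obtain ⟨w, -, hw⟩ := Nat.exists_mul_mod_eq_one_of_coprime hcop (by omega)
  have hwc : Nat.Coprime L w := by
    have h1 : Nat.Coprime (kk * w) L := by
      have h2 : Nat.Coprime (kk * w % L) L := by rw [hw]; exact Nat.coprime_one_left L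
      unfold Nat.Coprime at h2 ⊢
      rw [← h2, Nat.gcd_comm (kk * w) L, Nat.gcd_rec L (kk * w)]
    exact (Nat.Coprime.coprime_mul_left h1).symm
  rw [hLdef]
  refine ⟨fun i => (i / g * w) % L, fun i => Nat.mod_lt _ (by omega), ?_, ?_, ?_, hL3⟩
  · intro i hi
    have h1 : nbp n k i / g = (i / g + kk) % L := by
      unfold nbp
      rw [hL, Nat.mod_mul_right_div_self, hkk, Nat.add_mul_div_left _ _ hg0]
    simp only
    rw [h1, Nat.mod_mul_mod]
    rw [Nat.add_mul, Nat.add_mod, hw]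
  · intro i hi
    unfold nbp
    rw [hL, Nat.mod_mul_right_mod]
    rw [hkk]
    simp
  · intro i hi j hj hc ht
    simp only at ht
    have h1 : i / g < L := by
      rw [Nat.div_lt_iff_lt_mul hg0, mul_comm, ← hL]; exact hi
    have h2 : j / g < L := by
      rw [Nat.div_lt_iff_lt_mul hg0, mul_comm, ← hL]; exact hj
    have h3 : i / g ≡ j / g [MOD L] := Nat.ModEq.cancel_right_of_coprime hwc ht
    have h4 : i / g = j / g := by
      unfold Nat.ModEq at h3
      rwa [Nat.mod_eq_of_lt h1, Nat.mod_eq_of_lt h2] at h3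
    have h5 := Nat.div_add_mod i g
    have h6 := Nat.div_add_mod j g
    rw [h4, hc] at h5
    omega

end Pool.Agent.PGr.SC
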