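import Pool.Agent.PGr.PBase
import Pool.Agent.PGr.SApi
import Pool.Agent.PGr.SColT

/-!
# PGr, part P, PRegThm: structural fields of `Reg`
-/

namespace Pool.Agent.PGr.PR

open Finset

variable {E : Env} {Pn : Plan E} {κ ρ c1 cD cC : ℝ} {b m : ℕ}

theorem col_lt (hE : E.Ok κ ρ c1) {v : ℕ} (hv : v ∈ E.Bk ∪ E.Ck ∪ E.Pk) : v < E.n := by
  have := hE.col.cover
  rw [this, Finset.mem_range] at hv
  exact hv

theorem Bk_lt (hE : E.Ok κ ρ c1) {v : ℕ} (hv : v ∈ E.Bk) : v < E.n :=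
  col_lt hE (by simp [hv])

theorem Ck_lt (hE : E.Ok κ ρ c1) {v : ℕ} (hv : v ∈ E.Ck) : v < E.n :=
  col_lt hE (by simp [hv])

theorem Pk_lt (hE : E.Ok κ ρ c1) {v : ℕ} (hv : v ∈ E.Pk) : v < E.n :=
  col_lt hE (by simp [hv])

theorem Ck_not_spec (hE : E.Ok κ ρ c1) {v : ℕ} (hv : v ∈ E.Ck) : ¬ spec E.n v := by
  rintro ⟨h1, h2⟩
  have h3 := hE.col.special h1
  have h4 : v = E.n - 1 := by omega
  rw [← h4] at h3
  exact (Finset.disjoint_left.mp hE.col.CP) hv h3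

theorem Bk_not_spec (hE : E.Ok κ ρ c1) {v : ℕ} (hv : v ∈ E.Bk) : ¬ spec E.n v := by
  rintro ⟨h1, h2⟩
  have h3 := hE.col.special h1
  have h4 : v = E.n - 1 := by omega
  rw [← h4] at h3
  exact (Finset.disjoint_left.mp hE.col.BP) hv h3

theorem Sv_inVS (hP : Pn.Ok κ cD cC b m) {v : ℕ} (hv : v ∈ E.Bk \ Pn.P) :
    inVS E.n E.q E.S E.B0 v := by
  classical
  rw [Finset.mem_sdiff] at hv
  have h1 := hP.B_vs v hv.1 hv.2
  unfold Env.B1 at h1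
  rw [Finset.mem_filter] at h1
  exact h1.2

theorem Sv_B1 (hP : Pn.Ok κ cD cC b m) {v : ℕ} (hv : v ∈ E.Bk \ Pn.P) : v ∈ E.B1 := by
  rw [Finset.mem_sdiff] at hv
  exact hP.B_vs v hv.1 hv.2

theorem It_Ck {v : ℕ} (hv : v ∈ Pn.It) : v ∈ E.Ck := by
  unfold Plan.It at hv
  exact (Finset.mem_sdiff.mp hv).1

theorem It_not_Ab {v : ℕ} (hv : v ∈ Pn.It) : v ∉ Pn.Ab := by
  unfold Plan.It at hv
  rw [Finset.mem_sdiff, Finset.mem_union] at hv
  exact fun h => hv.2 (Or.inr h)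

/-- the two neighbours of an item -/
def isNb (E : Env) (i v : ℕ) : Prop := v = nbp E.n E.k i ∨ v = nbm E.n E.k i

theorem nb_BP (hE : E.Ok κ ρ c1) {i v : ℕ} (hi : i ∈ E.Ck) (hv : isNb E i v) :
    v ∈ E.Bk ∪ E.Pk := by
  rcases hv with h | h
  · rw [h]; exact (hE.col.nC i hi).1
  · rw [h]; exact (hE.col.nC i hi).2

/-- a neighbour of an item is a scheme vertex or planted, not both -/
theorem nb_Sv_iff (hE : E.Ok κ ρ c1) (hP : Pn.Ok κ cD cC b m) {i v : ℕ} (hi : i ∈ E.Ck)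
    (hv : isNb E i v) : v ∈ E.Bk \ Pn.P ↔ v ∉ Pn.P := by
  rw [Finset.mem_sdiff]
  constructor
  · exact fun h => h.2
  · intro h
    have h1 := nb_BP hE hi hv
    rw [Finset.mem_union] at h1
    rcases h1 with h1 | h1
    · exact ⟨h1, h⟩
    · exact absurd (hP.Pk_sub h1) h

theorem nb_not_spec (hE : E.Ok κ ρ c1) (hP : Pn.Ok κ cD cC b m) {i v : ℕ} (hi : i ∈ E.Ck)
    (hv : isNb E i v) (hv' : v ∉ Pn.P) : ¬ spec E.n v := by
  have h1 := (nb_Sv_iff hE hP hi hv).mpr hv'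
  exact Bk_not_spec hE (Finset.mem_sdiff.mp h1).1

theorem isNb_p (E : Env) (i : ℕ) : isNb E i (nbp E.n E.k i) := Or.inl rfl
theorem isNb_m (E : Env) (i : ℕ) : isNb E i (nbm E.n E.k i) := Or.inr rfl

/-- items with unplanted neighbours are far from the special vertex -/
theorem NS_of (hE : E.Ok κ ρ c1) (hP : Pn.Ok κ cD cC b m) {i : ℕ} (hi : i ∈ E.Ck)
    (h1 : nbp E.n E.k i ∉ Pn.P) (h2 : nbm E.n E.k i ∉ Pn.P) : SS.NS E.n E.k i :=
  ⟨Ck_not_spec hE hi, nb_not_spec hE hP hi (isNb_p E i) h1, nb_not_spec hE hP hi (isNb_m E i) h2⟩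

/-- the class function of the data equals `Pn.cl` on the neighbours of items -/
theorem cls_eq (hE : E.Ok κ ρ c1) (hP : Pn.Ok κ cD cC b m) {i v : ℕ} (hi : i ∈ E.Ck)
    (hv : isNb E i v) : Pn.dat.cls v = Pn.cl v := by
  have h1 := nb_Sv_iff hE hP hi hv
  unfold Dat.cls Plan.cl clw
  by_cases h : v ∈ Pn.P
  · rw [if_pos h, if_neg (show v ∉ Pn.dat.Sv from fun h2 => (h1.mp h2) h)]
    rfl
  · rw [if_neg h, if_pos (show v ∈ Pn.dat.Sv from h1.mpr h)]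
    rfl

theorem cl_unplanted {v : ℕ} (hv : v ∉ Pn.P) : Pn.cl v = cls0 E.n E.q v := by
  unfold Plan.cl clw; rw [if_neg hv]

theorem cl_planted {v : ℕ} (hv : v ∈ Pn.P) : Pn.cl v = ((Pn.pl v : ℤ) : ZMod (E.q ^ 2)) := by
  unfold Plan.cl clw; rw [if_pos hv]

theorem lab_Sv {v : ℕ} (hv : v ∈ E.Bk \ Pn.P) (θ : Pn.dat.Om) :
    Pn.dat.lab θ v = Yl E.n E.q E.S E.B0 v (Pn.dat.sh θ (un E.n E.q v)) := by
  unfold Dat.lab
  rw [if_pos (show v ∈ Pn.dat.Sv from hv)]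
  rfl

theorem lab_P (_hP : Pn.Ok κ cD cC b m) {v : ℕ} (hv : v ∈ Pn.P) (θ : Pn.dat.Om) :
    Pn.dat.lab θ v = Pn.pl v := by
  unfold Dat.lab
  rw [if_neg (show v ∉ Pn.dat.Sv from fun h => (Finset.mem_sdiff.mp h).2 hv)]
  rfl

theorem Nb_cases (hE : E.Ok κ ρ c1) (hP : Pn.Ok κ cD cC b m) {v : ℕ} (hv : v ∈ Pn.dat.Nb) :
    v ∈ E.Bk \ Pn.P ∨ v ∈ Pn.P := by
  unfold Dat.Nb at hv
  rw [Finset.mem_union, Finset.mem_union, Finset.mem_image, Finset.mem_image] at hv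
  rcases hv with (hv | ⟨i, hi, rfl⟩) | ⟨i, hi, rfl⟩
  · exact Or.inl hv
  · by_cases h : nbp E.n E.k i ∈ Pn.P
    · exact Or.inr h
    · exact Or.inl ((nb_Sv_iff hE hP (It_Ck hi) (isNb_p E i)).mpr h)
  · by_cases h : nbm E.n E.k i ∈ Pn.P
    · exact Or.inr h
    · exact Or.inl ((nb_Sv_iff hE hP (It_Ck hi) (isNb_m E i)).mpr h)

theorem unL_lam {x : ℤ} {u : ZMod (E.q ^ 2)}
    (h : ((x : ℤ) : ZMod (E.q ^ 2)) = lam E.q u) : unL E.q x = u := by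
  unfold unL
  rw [h, SS.lamI_lam E.base.q_prime E.base.q_big]

/-- a scheme label never is a label of `PL` -/
theorem lab_not_PL (hP : Pn.Ok κ cD cC b m) {v : ℕ} (hv : v ∈ E.Bk \ Pn.P) (θ : Pn.dat.Om) :
    Pn.dat.lab θ v ∉ E.PL := by
  classical
  intro hpl
  rw [lab_Sv hv] at hpl
  unfold Env.PL at hpl
  rw [Finset.mem_filter] at hpl
  obtain ⟨-, h1, h2, -⟩ := hpl
  have h3 : unL E.q (Yl E.n E.q E.S E.B0 v (Pn.dat.sh θ (un E.n E.q v))) = un E.n E.q v :=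
    unL_lam (s_Y_res E.base v _)
  rw [h3] at h1
  apply h2
  refine ⟨v, Sv_B1 hP hv, ?_⟩
  unfold Env.y0
  have h4 : Pn.dat.sh θ (un E.n E.q v) = E.th0 (un E.n E.q v) := by
    unfold Dat.sh
    exact if_pos h1
  rw [h4]

/-- labels of scheme vertices and planted vertices are distinct -/
theorem lab_inj (hE : E.Ok κ ρ c1) (hP : Pn.Ok κ cD cC b m) (θ : Pn.dat.Om) :
    ∀ v ∈ Pn.dat.Nb, ∀ v' ∈ Pn.dat.Nb, Pn.dat.lab θ v = Pn.dat.lab θ v' → v = v' := by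
  intro v hv v' hv' h
  rcases Nb_cases hE hP hv with h1 | h1 <;> rcases Nb_cases hE hP hv' with h2 | h2
  · by_contra hne
    rw [lab_Sv h1, lab_Sv h2] at h
    exact s_Y_ne' E.base (Sv_inVS hP h1) (Sv_inVS hP h2) hne (Pn.dat.sh θ) h
  · exfalso
    apply lab_not_PL hP h1 θ
    rw [h, lab_P hP h2]
    exact hP.pl_PL v' h2
  · exfalso
    apply lab_not_PL hP h2 θ
    rw [← h, lab_P hP h1]
    exact hP.pl_PL v h1
  · rw [lab_P hP h1, lab_P hP h2] at h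
    exact hP.pl_inj v h1 v' h2 h

theorem nbp_ne_nbm {n k i : ℕ} (hk : 1 ≤ k) (hk2 : 2 * k < n) (hi : i < n) :
    nbp n k i ≠ nbm n k i := by
  unfold nbp nbm
  intro h
  by_cases h1 : i + k < n
  · rw [Nat.mod_eq_of_lt h1] at h
    by_cases h2 : i + (n - k) < n
    · rw [Nat.mod_eq_of_lt h2] at h; omega
    · rw [Nat.mod_eq_sub_mod (by omega), Nat.mod_eq_of_lt (by omega)] at h; omega
  · rw [Nat.mod_eq_sub_mod (by omega), Nat.mod_eq_of_lt (by omega)] at h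
    by_cases h2 : i + (n - k) < n
    · rw [Nat.mod_eq_of_lt h2] at h; omega
    · rw [Nat.mod_eq_sub_mod (by omega), Nat.mod_eq_of_lt (by omega)] at h; omega

end Pool.Agent.PGr.PR
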