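import Pool.Agent.PGr.PRegB

/-!
# PGr, part P, PRegThm: the fields `inf`, `infR`, `res`
-/

namespace Pool.Agent.PGr.PR

open Finset

variable {E : Env} {Pn : Plan E} {κ ρ c1 cD cC : ℝ} {b m : ℕ}

/-- congruent values of an injective function in `[0, 3n]` -/
theorem card_class {M n : ℕ} (hM : 0 < M) (T : Finset ℕ) (f : ℕ → ℤ)
    (hinj : ∀ i ∈ T, ∀ j ∈ T, f i = f j → i = j)
    (h0 : ∀ i ∈ T, 0 ≤ f i) (h1 : ∀ i ∈ T, f i ≤ 3 * n)
    (hc : ∀ i ∈ T, ∀ j ∈ T, ((f i : ℤ) : ZMod M) = ((f j : ℤ) : ZMod M)) :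
    (T.card : ℝ) ≤ 3 * (n : ℝ) / M + 1 := by
  have hMz : (0 : ℤ) < M := by exact_mod_cast hM
  have h2 : T.card ≤ (range (3 * n / M + 1)).card := by
    apply Finset.card_le_card_of_injOn (fun i => (f i / M).toNat)
    · intro i hi
      rw [Finset.mem_coe] at hi
      rw [Finset.mem_coe, Finset.mem_range]
      have a1 : f i / M ≤ (3 * (n : ℤ)) / M := Int.ediv_le_ediv hMz (h1 i hi)
      have a2 : (3 * (n : ℤ)) / M = ((3 * n / M : ℕ) : ℤ) := by push_cast; rfl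
      have a3 : 0 ≤ f i / M := Int.ediv_nonneg (h0 i hi) hMz.le
      simp only
      omega
    · intro i hi j hj hij
      rw [Finset.mem_coe] at hi hj
      simp only at hij
      have a3 : 0 ≤ f i / M := Int.ediv_nonneg (h0 i hi) hMz.le
      have a4 : 0 ≤ f j / M := Int.ediv_nonneg (h0 j hj) hMz.le
      have a5 : f i / M = f j / M := by omega
      have a6 := hc i hi j hj
      rw [ZMod.intCast_eq_intCast_iff_dvd_sub] at a6
      obtain ⟨z, hz⟩ := a6
      apply hinj i hi j hj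
      have a7 := Int.emod_add_mul_ediv (f i) M
      have a8 := Int.emod_add_mul_ediv (f j) M
      have a9 : f i % M = f j % M := by
        have : f j = f i + M * z := by linarith
        rw [this, Int.add_mul_emod_self_left]
      rw [← a7, ← a8, a9, a5]
  rw [Finset.card_range] at h2
  have h3 : ((3 * n / M : ℕ) : ℝ) ≤ ((3 * n : ℕ) : ℝ) / M := Nat.cast_div_le
  have h4 : (T.card : ℝ) ≤ ((3 * n / M + 1 : ℕ) : ℝ) := by exact_mod_cast h2
  push_cast at h3 h4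
  linarith

theorem n_pos (E : Env) : (0 : ℝ) < E.n := by
  have := n_ge E
  exact_mod_cast (by omega : 0 < E.n)

theorem q_pos (E : Env) : (0 : ℝ) < E.q := by exact_mod_cast E.base.q_prime.pos

theorem PL_class_range (hP : Pn.Ok κ cD cC b m) {v : ℕ} (hv : v ∈ Pn.P) :
    0 ≤ Pn.pl v ∧ Pn.pl v ≤ 3 * E.n := by
  have h1 := hP.rng v hv
  unfold inI at h1
  have hn := n_pos E
  constructor
  · have : (0 : ℝ) ≤ (Pn.pl v : ℝ) := by linarith [h1.1]
    exact_mod_cast this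
  · have : (Pn.pl v : ℝ) ≤ 3 * E.n := by linarith [h1.2]
    exact_mod_cast this

/-- the labels of the vertices next to the items lie in `[0, 3n]` -/
theorem lab_range (hE : E.Ok κ ρ c1) (hP : Pn.Ok κ cD cC b m) (θ : Pn.dat.Om) {v : ℕ}
    (hv : v ∈ Pn.dat.Nb) : 0 ≤ Pn.dat.lab θ v ∧ Pn.dat.lab θ v ≤ 3 * E.n := by
  rcases Nb_cases hE hP hv with h1 | h1
  · rw [lab_Sv h1]
    have h2 := s_Y_mem E.base v (Pn.dat.sh θ (un E.n E.q v))
    have h3 := SS.Yl_le E.base v (Pn.dat.sh θ (un E.n E.q v))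
    have hn := n_ge E
    constructor
    · exact (Int.natCast_nonneg _).trans h2.1
    · have : Yl E.n E.q E.S E.B0 v (Pn.dat.sh θ (un E.n E.q v)) ≤ 2 * (E.n : ℤ) := by linarith
      linarith
  · rw [lab_P hP h1]
    exact PL_class_range hP h1

theorem lab_cls (hE : E.Ok κ ρ c1) (hP : Pn.Ok κ cD cC b m) (θ : Pn.dat.Om) {v : ℕ}
    (hv : v ∈ Pn.dat.Nb) : ((Pn.dat.lab θ v : ℤ) : ZMod (E.q ^ 2)) = Pn.dat.cls v := by
  rcases Nb_cases hE hP hv with h1 | h1
  · have e1 : Pn.dat.cls v = lam E.q (un E.n E.q v) := by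
      unfold Dat.cls
      rw [if_pos (show v ∈ Pn.dat.Sv from h1)]
      rfl
    rw [lab_Sv h1]
    exact (s_Y_res E.base v _).trans e1.symm
  · rw [lab_P hP h1]
    unfold Dat.cls
    rw [if_neg (show v ∉ Pn.dat.Sv from fun h => (Finset.mem_sdiff.mp h).2 h1)]
    rfl

theorem nb1_mem_Nb {i : ℕ} (hi : i ∈ Pn.It) : nbp E.n E.k i ∈ Pn.dat.Nb := by
  unfold Dat.Nb
  rw [Finset.mem_union, Finset.mem_union]
  exact Or.inl (Or.inr (Finset.mem_image_of_mem _ hi))

theorem nb2_mem_Nb {i : ℕ} (hi : i ∈ Pn.It) : nbm E.n E.k i ∈ Pn.dat.Nb := by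
  unfold Dat.Nb
  rw [Finset.mem_union]
  exact Or.inr (Finset.mem_image_of_mem _ hi)

theorem nbp_inj (hE : E.Ok κ ρ c1) {i j : ℕ} (hi : i ∈ E.Ck) (hj : j ∈ E.Ck)
    (h : nbp E.n E.k i = nbp E.n E.k j) : i = j := by
  have hk := E.base.k_lt
  have h1 := SC.nbm_nbp (n := E.n) (k := E.k) (by omega) (Ck_lt hE hi)
  have h2 := SC.nbm_nbp (n := E.n) (k := E.k) (by omega) (Ck_lt hE hj)
  rw [h] at h1
  exact h1.symm.trans h2

theorem nbm_inj (hE : E.Ok κ ρ c1) {i j : ℕ} (hi : i ∈ E.Ck) (hj : j ∈ E.Ck)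
    (h : nbm E.n E.k i = nbm E.n E.k j) : i = j := by
  have hk := E.base.k_lt
  have h1 := SC.nbp_nbm (n := E.n) (k := E.k) (by omega) (Ck_lt hE hi)
  have h2 := SC.nbp_nbm (n := E.n) (k := E.k) (by omega) (Ck_lt hE hj)
  rw [h] at h1
  exact h1.symm.trans h2

open Classical in
theorem card_cls1 (hE : E.Ok κ ρ c1) (hP : Pn.Ok κ cD cC b m) (v : ZMod (E.q ^ 2)) :
    ((Pn.It.filter (fun i => Pn.dat.cls (nbp E.n E.k i) = v)).card : ℝ)
      ≤ 3 * (E.n : ℝ) / (E.q : ℝ) ^ 2 + 1 := by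
  have hM : 0 < E.q ^ 2 := E.base.q2pos
  obtain ⟨θ⟩ : Nonempty Pn.dat.Om := ⟨fun _ => 0⟩
  have h := card_class (n := E.n) hM (Pn.It.filter (fun i => Pn.dat.cls (nbp E.n E.k i) = v))
    (fun i => Pn.dat.lab θ (nbp E.n E.k i)) ?_ ?_ ?_ ?_
  · push_cast at h; exact h
  · intro i hi j hj hij
    rw [Finset.mem_filter] at hi hj
    exact nbp_inj hE (It_Ck hi.1) (It_Ck hj.1)
      (lab_inj hE hP θ _ (nb1_mem_Nb hi.1) _ (nb1_mem_Nb hj.1) hij)
  · intro i hi
    rw [Finset.mem_filter] at hi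
    exact (lab_range hE hP θ (nb1_mem_Nb hi.1)).1
  · intro i hi
    rw [Finset.mem_filter] at hi
    exact (lab_range hE hP θ (nb1_mem_Nb hi.1)).2
  · intro i hi j hj
    rw [Finset.mem_filter] at hi hj
    exact (lab_cls hE hP θ (nb1_mem_Nb hi.1)).trans
      ((hi.2.trans hj.2.symm).trans (lab_cls hE hP θ (nb1_mem_Nb hj.1)).symm)

open Classical in
theorem card_cls2 (hE : E.Ok κ ρ c1) (hP : Pn.Ok κ cD cC b m) (v : ZMod (E.q ^ 2)) :
    ((Pn.It.filter (fun i => Pn.dat.cls (nbm E.n E.k i) = v)).card : ℝ)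
      ≤ 3 * (E.n : ℝ) / (E.q : ℝ) ^ 2 + 1 := by
  have hM : 0 < E.q ^ 2 := E.base.q2pos
  obtain ⟨θ⟩ : Nonempty Pn.dat.Om := ⟨fun _ => 0⟩
  have h := card_class (n := E.n) hM (Pn.It.filter (fun i => Pn.dat.cls (nbm E.n E.k i) = v))
    (fun i => Pn.dat.lab θ (nbm E.n E.k i)) ?_ ?_ ?_ ?_
  · push_cast at h; exact h
  · intro i hi j hj hij
    rw [Finset.mem_filter] at hi hj
    exact nbm_inj hE (It_Ck hi.1) (It_Ck hj.1)
      (lab_inj hE hP θ _ (nb2_mem_Nb hi.1) _ (nb2_mem_Nb hj.1) hij)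
  · intro i hi
    rw [Finset.mem_filter] at hi
    exact (lab_range hE hP θ (nb2_mem_Nb hi.1)).1
  · intro i hi
    rw [Finset.mem_filter] at hi
    exact (lab_range hE hP θ (nb2_mem_Nb hi.1)).2
  · intro i hi j hj
    rw [Finset.mem_filter] at hi hj
    exact (lab_cls hE hP θ (nb2_mem_Nb hi.1)).trans
      ((hi.2.trans hj.2.symm).trans (lab_cls hE hP θ (nb2_mem_Nb hj.1)).symm)

open Classical in
theorem card_anc (hE : E.Ok κ ρ c1) (v : ZMod (E.q ^ 2)) :
    ((Pn.It.filter (fun i => ((anc E.n i : ℤ) : ZMod (E.q ^ 2)) = v)).card : ℝ)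
      ≤ 3 * (E.n : ℝ) / (E.q : ℝ) ^ 2 + 1 := by
  have hM : 0 < E.q ^ 2 := E.base.q2pos
  have h := card_class (n := E.n) hM
    (Pn.It.filter (fun i => ((anc E.n i : ℤ) : ZMod (E.q ^ 2)) = v)) (fun i => anc E.n i) ?_ ?_ ?_ ?_
  · push_cast at h; exact h
  · intro i hi j hj hij
    rw [Finset.mem_filter] at hi hj
    exact s_anc_inj (n_ge E) (Ck_lt hE (It_Ck hi.1)) (Ck_lt hE (It_Ck hj.1)) hij
  · intro i hi
    rw [Finset.mem_filter] at hi
    exact SS.anc_nonneg _ _ (Ck_lt hE (It_Ck hi.1))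
  · intro i hi
    rw [Finset.mem_filter] at hi
    exact SS.anc_le _ _ (Ck_lt hE (It_Ck hi.1))
  · intro i hi j hj
    rw [Finset.mem_filter] at hi hj
    exact hi.2.trans hj.2.symm

/-- for items with unplanted neighbours the combinations are those of section 8 -/
theorem cmb_unplanted (hE : E.Ok κ ρ c1) (hP : Pn.Ok κ cD cC b m) (j : Fin 10) {i : ℕ}
    (hi : i ∈ E.Ck) (h1 : nbp E.n E.k i ∉ Pn.P) (h2 : nbm E.n E.k i ∉ Pn.P) :
    Pn.dat.cmb j i = cmbS E.n E.k E.q j i := by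
  have e1 := cls_eq hE hP hi (isNb_p E i)
  have e2 := cls_eq hE hP hi (isNb_m E i)
  rw [cl_unplanted h1] at e1
  rw [cl_unplanted h2] at e2
  unfold Dat.cmb cmbS
  exact congrArg₂ (comb j ((anc E.n i : ℤ) : ZMod (E.q ^ 2))) e1 e2

open Classical in
/-- items next to the special vertex -/
theorem card_notNS (hE : E.Ok κ ρ c1) :
    (((E.Ck.filter (fun i => ¬ SS.NS E.n E.k i)).card : ℕ) : ℝ) ≤ 3 := by
  have hk := E.base.k_lt
  have h1 : E.Ck.filter (fun i => ¬ SS.NS E.n E.k i) ⊆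
      ({E.n - 1, nbm E.n E.k (E.n - 1), nbp E.n E.k (E.n - 1)} : Finset ℕ) := by
    intro i hi
    rw [Finset.mem_filter] at hi
    rw [Finset.mem_insert, Finset.mem_insert, Finset.mem_singleton]
    obtain ⟨hi1, hi2⟩ := hi
    have hin := Ck_lt hE hi1
    unfold SS.NS at hi2
    by_cases a1 : spec E.n i
    · left; unfold spec at a1; omega
    by_cases a2 : spec E.n (nbp E.n E.k i)
    · right; left
      have a4 : nbp E.n E.k i = E.n - 1 := by unfold spec at a2; omega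
      rw [← a4, SC.nbm_nbp (by omega) hin]
    by_cases a3 : spec E.n (nbm E.n E.k i)
    · right; right
      have a4 : nbm E.n E.k i = E.n - 1 := by unfold spec at a3; omega
      rw [← a4, SC.nbp_nbm (by omega) hin]
    exact absurd ⟨a1, a2, a3⟩ hi2
  have h2 := (Finset.card_le_card h1).trans Finset.card_le_three
  exact_mod_cast h2

open Classical in
/-- a bound for all the counts in `inf` -/
theorem inf_bound (hE : E.Ok κ ρ c1) (hP : Pn.Ok κ cD cC b m) (hκ : 0 ≤ κ) (j : Fin 10)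
    (hj : j = 0 ∨ j = 1 ∨ j = 2 ∨ j = 5 ∨ j = 6 ∨ j = 7) (v : ZMod (E.q ^ 2)) :
    ((Pn.It.filter (fun i => Pn.dat.cmb j i = v)).card : ℝ)
      ≤ (3 * (E.n : ℝ) / E.q + 6) + (3 * (E.n : ℝ) / (E.q : ℝ) ^ 2 + 1)
        + κ * E.n / (E.q : ℝ) ^ 2 + 3 := by
  have hn := n_pos E
  have hq := q_pos E
  have a1 : 0 ≤ 3 * (E.n : ℝ) / E.q := by positivity
  have a2 : 0 ≤ 3 * (E.n : ℝ) / (E.q : ℝ) ^ 2 := by positivity
  have a3 : 0 ≤ κ * E.n / (E.q : ℝ) ^ 2 := by positivity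
  have hcmb : ∀ i, Pn.dat.cmb j i = comb j ((anc E.n i : ℤ) : ZMod (E.q ^ 2))
    (Pn.dat.cls (nbp E.n E.k i)) (Pn.dat.cls (nbm E.n E.k i)) := fun i => rfl
  -- the generic splitting
  have split : ∀ (Q : ℕ → Prop) [DecidablePred Q] (B : ℝ),
      (∀ i ∈ Pn.It, ¬ Q i → SS.NS E.n E.k i → Pn.dat.cmb j i = cmbS E.n E.k E.q j i) →
      ((Pn.It.filter (fun i => Q i ∧ Pn.dat.cmb j i = v)).card : ℝ) ≤ B →
      ((Pn.It.filter (fun i => Pn.dat.cmb j i = v)).card : ℝ)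
        ≤ (3 * (E.n : ℝ) / E.q + 6) + B + 3 := by
    intro Q _ B h1 h2
    have h3 : Pn.It.filter (fun i => Pn.dat.cmb j i = v) ⊆
        ((range E.n).filter (fun i => SS.NS E.n E.k i ∧ cmbS E.n E.k E.q j i = v) ∪
        Pn.It.filter (fun i => Q i ∧ Pn.dat.cmb j i = v)) ∪
        E.Ck.filter (fun i => ¬ SS.NS E.n E.k i) := by
      intro i hi
      rw [Finset.mem_filter] at hi
      rw [Finset.mem_union, Finset.mem_union, Finset.mem_filter, Finset.mem_filter,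
        Finset.mem_filter, Finset.mem_range]
      by_cases hNS : SS.NS E.n E.k i
      · left
        by_cases hQ : Q i
        · right; exact ⟨hi.1, hQ, hi.2⟩
        · left
          exact ⟨Ck_lt hE (It_Ck hi.1), hNS, by rw [← h1 i hi.1 hQ hNS]; exact hi.2⟩
      · right
        exact ⟨It_Ck hi.1, hNS⟩
    have h4 := (Finset.card_le_card h3).trans ((Finset.card_union_le _ _).trans
      (Nat.add_le_add_right (Finset.card_union_le _ _) _))
    have h5 : ((Pn.It.filter (fun i => Pn.dat.cmb j i = v)).card : ℝ) ≤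
        (((range E.n).filter (fun i => SS.NS E.n E.k i ∧ cmbS E.n E.k E.q j i = v)).card : ℝ) +
        ((Pn.It.filter (fun i => Q i ∧ Pn.dat.cmb j i = v)).card : ℝ) +
        ((E.Ck.filter (fun i => ¬ SS.NS E.n E.k i)).card : ℝ) := by exact_mod_cast h4
    have h6 := s_F1' E.base j v
    have h7 := card_notNS (E := E) hE
    have h8 : (((range E.n).filter (fun i => SS.NS E.n E.k i ∧ cmbS E.n E.k E.q j i = v)).card : ℝ)
      ≤ 3 * (E.n : ℝ) / E.q + 6 := h6
    linarith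
  rcases hj with rfl | rfl | rfl | rfl | rfl | rfl
  · have h := card_anc (Pn := Pn) hE v
    have e : Pn.It.filter (fun i => Pn.dat.cmb 0 i = v)
        = Pn.It.filter (fun i => ((anc E.n i : ℤ) : ZMod (E.q ^ 2)) = v) :=
      Finset.filter_congr fun i _ => by rw [hcmb]; rfl
    rw [e]; linarith
  · have h := card_cls1 hE hP v
    have e : Pn.It.filter (fun i => Pn.dat.cmb 1 i = v)
        = Pn.It.filter (fun i => Pn.dat.cls (nbp E.n E.k i) = v) :=
      Finset.filter_congr fun i _ => by rw [hcmb]; rfl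
    rw [e]; linarith
  · have h := card_cls2 hE hP v
    have e : Pn.It.filter (fun i => Pn.dat.cmb 2 i = v)
        = Pn.It.filter (fun i => Pn.dat.cls (nbm E.n E.k i) = v) :=
      Finset.filter_congr fun i _ => by rw [hcmb]; rfl
    rw [e]; linarith
  · have h := split (fun i => nbp E.n E.k i ∈ Pn.P) (κ * E.n / (E.q : ℝ) ^ 2) ?_ ?_
    · linarith
    · intro i hi hQ hNS
      have e1 := cls_eq hE hP (It_Ck hi) (isNb_p E i)
      rw [cl_unplanted hQ] at e1
      rw [hcmb]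
      unfold cmbS
      simp only [comb]
      rw [e1]
    · have h5 := hP.tg5 v
      refine le_trans (Nat.cast_le.mpr (Finset.card_le_card ?_)) h5
      intro i hi
      rw [Finset.mem_filter] at hi ⊢
      obtain ⟨hi1, hi2, hi3⟩ := hi
      refine ⟨hi1, hi2, ?_⟩
      rw [hcmb, cls_eq hE hP (It_Ck hi1) (isNb_p E i), cls_eq hE hP (It_Ck hi1) (isNb_m E i)] at hi3
      exact hi3
  · have h := split (fun i => nbm E.n E.k i ∈ Pn.P) (κ * E.n / (E.q : ℝ) ^ 2) ?_ ?_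
    · linarith
    · intro i hi hQ hNS
      have e1 := cls_eq hE hP (It_Ck hi) (isNb_m E i)
      rw [cl_unplanted hQ] at e1
      rw [hcmb]
      unfold cmbS
      simp only [comb]
      rw [e1]
    · have h5 := hP.tg6 v
      refine le_trans (Nat.cast_le.mpr (Finset.card_le_card ?_)) h5
      intro i hi
      rw [Finset.mem_filter] at hi ⊢
      obtain ⟨hi1, hi2, hi3⟩ := hi
      refine ⟨hi1, hi2, ?_⟩
      rw [hcmb, cls_eq hE hP (It_Ck hi1) (isNb_p E i), cls_eq hE hP (It_Ck hi1) (isNb_m E i)] at hi3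
      exact hi3
  · have h := split (fun i => nbp E.n E.k i ∈ Pn.P ∨ nbm E.n E.k i ∈ Pn.P)
      (κ * E.n / (E.q : ℝ) ^ 2) ?_ ?_
    · linarith
    · intro i hi hQ hNS
      rw [not_or] at hQ
      exact cmb_unplanted hE hP 7 (It_Ck hi) hQ.1 hQ.2
    · have h5 := hP.tg7 v
      refine le_trans (Nat.cast_le.mpr (Finset.card_le_card ?_)) h5
      intro i hi
      rw [Finset.mem_filter] at hi ⊢
      obtain ⟨hi1, hi2, hi3⟩ := hi
      refine ⟨hi1, hi2, ?_⟩
      rw [hcmb, cls_eq hE hP (It_Ck hi1) (isNb_p E i), cls_eq hE hP (It_Ck hi1) (isNb_m E i)] at hi3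
      exact hi3

/-- numerical step: a count of at most `4 n / q` satisfies the `inf` inequality -/
theorem inf_num {n q : ℝ} (hq : 16 ≤ q) {x : ℝ} (hx0 : 0 ≤ x) (hx : x ≤ 4 * n / q) :
    x * √q ≤ n := by
  have hq0 : 0 < q := by linarith
  have h1 : 4 ≤ √q := by
    rw [show (4 : ℝ) = √16 by
      rw [show (16 : ℝ) = 4 ^ 2 by norm_num, Real.sqrt_sq (by norm_num)]]
    exact Real.sqrt_le_sqrt hq
  have h2 : √q * √q = q := Real.mul_self_sqrt hq0.le
  have h3 : x * q ≤ 4 * n := by rwa [le_div_iff₀ hq0] at hx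
  have h4 : x * √q * √q ≤ 4 * n := by rw [mul_assoc, h2]; exact h3
  have h5 : 0 ≤ x * √q := by positivity
  have h6 : x * √q * 4 ≤ x * √q * √q := mul_le_mul_of_nonneg_left h1 h5
  linarith

theorem inf_num2 {n q κ : ℝ} (hκ : κ ≤ 1) (hq : 20 ≤ q) (hn : q ^ 6 ≤ n) :
    (3 * n / q + 6) + (3 * n / q ^ 2 + 1) + κ * n / q ^ 2 + 3 ≤ 4 * n / q := by
  have hq0 : 0 < q := by linarith
  have hn0 : 0 < n := lt_of_lt_of_le (by positivity) hn
  have e1 : 4 * n / q = 3 * n / q + n / q := by ring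
  have h1 : 3 * n / q ^ 2 + κ * n / q ^ 2 ≤ 4 * n / q ^ 2 := by
    rw [← add_div]
    apply div_le_div_of_nonneg_right _ (by positivity)
    nlinarith
  have h2 : 4 * n / q ^ 2 ≤ n / q / 2 := by
    rw [div_div, div_le_div_iff₀ (by positivity) (by positivity)]
    nlinarith [mul_nonneg hn0.le hq0.le, mul_nonneg (mul_nonneg hn0.le hq0.le)
      (by linarith : (0 : ℝ) ≤ q - 20)]
  have h3 : 10 ≤ n / q / 2 := by
    rw [div_div, le_div_iff₀ (by positivity)]
    have : q ^ 6 = q * q ^ 5 := by ring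
    have h5 : (20 : ℝ) ≤ q ^ 5 := by
      calc (20 : ℝ) ≤ 20 ^ 5 := by norm_num
        _ ≤ q ^ 5 := pow_le_pow_left₀ (by norm_num) hq 5
    nlinarith
  linarith

end Pool.Agent.PGr.PR
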