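import Pool.Agent.PGr.PRegC

/-!
# PGr, part P, PRegThm: the balance fields
-/

namespace Pool.Agent.PGr.PR

open Finset

variable {E : Env} {Pn : Plan E} {κ ρ c1 cD cC : ℝ} {b m : ℕ}

/-- numbers in a residue class in an interval -/
theorem card_Ico_mod {M r X Y : ℕ} (hM : 0 < M) (hr : r < M) (hXY : X ≤ Y) :
    ((Y : ℝ) - X) / M - 1 ≤ (((Ico X Y).filter (fun a => a % M = r)).card : ℝ) ∧
      (((Ico X Y).filter (fun a => a % M = r)).card : ℝ) ≤ ((Y : ℝ) - X) / M + 1 := by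
  have h1 := Nat.Ico_filter_modEq_card X Y hM r
  have h2 : (Ico X Y).filter (fun a => a ≡ r [MOD M]) = (Ico X Y).filter (fun a => a % M = r) := by
    apply Finset.filter_congr
    intro a _
    unfold Nat.ModEq
    rw [Nat.mod_eq_of_lt hr]
  rw [h2] at h1
  have h3 : ((((Ico X Y).filter (fun a => a % M = r)).card : ℤ) : ℝ) =
      ((max (⌈((Y : ℚ) - r) / M⌉ - ⌈((X : ℚ) - r) / M⌉) 0 : ℤ) : ℝ) := by rw [h1]
  have hMq : (0 : ℚ) < M := by exact_mod_cast hM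
  have hMr : (0 : ℝ) < M := by exact_mod_cast hM
  have a1 := Int.le_ceil (((Y : ℚ) - r) / M)
  have a2 := Int.ceil_lt_add_one (((Y : ℚ) - r) / M)
  have a3 := Int.le_ceil (((X : ℚ) - r) / M)
  have a4 := Int.ceil_lt_add_one (((X : ℚ) - r) / M)
  have e1 : ((Y : ℚ) - r) / M - ((X : ℚ) - r) / M = ((Y : ℚ) - X) / M := by
    rw [← sub_div]; ring
  have hnn : (0 : ℚ) ≤ ((Y : ℚ) - X) / M := by
    apply div_nonneg _ hMq.le
    have : (X : ℚ) ≤ Y := by exact_mod_cast hXY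
    linarith
  set P := ⌈((Y : ℚ) - r) / M⌉ with hP
  set R := ⌈((X : ℚ) - r) / M⌉ with hR
  have b1 : ((Y : ℚ) - X) / M - 1 ≤ ((max (P - R) 0 : ℤ) : ℚ) := by
    have : ((P - R : ℤ) : ℚ) ≤ ((max (P - R) 0 : ℤ) : ℚ) := by exact_mod_cast le_max_left _ _
    push_cast at this ⊢
    linarith
  have b2 : ((max (P - R) 0 : ℤ) : ℚ) ≤ ((Y : ℚ) - X) / M + 1 := by
    rcases max_cases (P - R) 0 with h | h
    · rw [h.1]; push_cast; linarith
    · rw [h.1]; push_cast; linarith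
  have b1' : ((Y : ℝ) - X) / M - 1 ≤ ((max (P - R) 0 : ℤ) : ℝ) := by
    have h := (Rat.cast_le (K := ℝ)).mpr b1
    push_cast at h ⊢
    exact h
  have b2' : ((max (P - R) 0 : ℤ) : ℝ) ≤ ((Y : ℝ) - X) / M + 1 := by
    have h := (Rat.cast_le (K := ℝ)).mpr b2
    push_cast at h ⊢
    exact h
  rw [← h3] at b1' b2'
  exact ⟨by exact_mod_cast b1', by exact_mod_cast b2'⟩

/-- vertices of one parity and one residue class with idx in an interval -/
theorem card_cls_range {n M r X Y e : ℕ} (hM : 0 < M) (hr : r < M) (hXY : X ≤ Y) (he : e < 2)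
    (hY : 2 * Y ≤ n + 2) :
    ((Y : ℝ) - X) / M - 2 ≤ (((range n).filter
        (fun i => i % 2 = e ∧ (i / 2) % M = r ∧ X ≤ i / 2 ∧ i / 2 < Y)).card : ℝ) ∧
      (((range n).filter
        (fun i => i % 2 = e ∧ (i / 2) % M = r ∧ X ≤ i / 2 ∧ i / 2 < Y)).card : ℝ)
      ≤ ((Y : ℝ) - X) / M + 1 := by
  have hMr : (1 : ℝ) ≤ M := by exact_mod_cast hM
  constructor
  · by_cases hX : X < Y
    · have h1 := (card_Ico_mod (Y := Y - 1) hM hr (by omega : X ≤ Y - 1)).1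
      have h2 : ((Ico X (Y - 1)).filter (fun a => a % M = r)).card ≤ ((range n).filter
        (fun i => i % 2 = e ∧ (i / 2) % M = r ∧ X ≤ i / 2 ∧ i / 2 < Y)).card := by
        apply Finset.card_le_card_of_injOn (fun a => 2 * a + e)
        · intro a ha
          rw [Finset.mem_coe, Finset.mem_filter, Finset.mem_Ico] at ha
          rw [Finset.mem_coe, Finset.mem_filter, Finset.mem_range]
          have e1 : (2 * a + e) / 2 = a := by omega
          simp only [e1]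
          refine ⟨by omega, by omega, ha.2, ha.1.1, by omega⟩
        · intro a _ a' _ haa
          simp only at haa
          omega
      have h3 : (((Ico X (Y - 1)).filter (fun a => a % M = r)).card : ℝ) ≤ (((range n).filter
        (fun i => i % 2 = e ∧ (i / 2) % M = r ∧ X ≤ i / 2 ∧ i / 2 < Y)).card : ℝ) := by
        exact_mod_cast h2
      have h4 : ((Y - 1 : ℕ) : ℝ) = (Y : ℝ) - 1 := by
        rw [Nat.cast_sub (by omega)]; norm_num
      rw [h4] at h1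
      have h5 : ((Y : ℝ) - 1 - X) / M = ((Y : ℝ) - X) / M - 1 / M := by
        rw [← sub_div]; ring
      have h6 : 1 / (M : ℝ) ≤ 1 := by
        rw [div_le_one (by linarith)]; exact hMr
      linarith
    · have h1 : (Y : ℝ) = X := by exact_mod_cast (by omega : Y = X)
      rw [h1, sub_self, zero_div]
      have : (0 : ℝ) ≤ (((range n).filter
        (fun i => i % 2 = e ∧ (i / 2) % M = r ∧ X ≤ i / 2 ∧ i / 2 < Y)).card : ℝ) := by positivity
      linarith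
  · have h1 := (card_Ico_mod hM hr hXY).2
    have h2 : ((range n).filter
        (fun i => i % 2 = e ∧ (i / 2) % M = r ∧ X ≤ i / 2 ∧ i / 2 < Y)).card ≤
        ((Ico X Y).filter (fun a => a % M = r)).card := by
      apply Finset.card_le_card_of_injOn (fun i => i / 2)
      · intro i hi
        rw [Finset.mem_coe, Finset.mem_filter] at hi
        rw [Finset.mem_coe, Finset.mem_filter, Finset.mem_Ico]
        exact ⟨⟨hi.2.2.2.1, hi.2.2.2.2⟩, hi.2.2.1⟩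
      · intro i hi i' hi' hii
        rw [Finset.mem_coe, Finset.mem_filter] at hi hi'
        simp only at hii
        omega
    have h3 : (((range n).filter
        (fun i => i % 2 = e ∧ (i / 2) % M = r ∧ X ≤ i / 2 ∧ i / 2 < Y)).card : ℝ) ≤
        (((Ico X Y).filter (fun a => a % M = r)).card : ℝ) := by exact_mod_cast h2
    linarith

/-- vertices of one parity with idx in an interval -/
theorem card_par_range {n X Y e : ℕ} (hXY : X ≤ Y) (he : e < 2) (hY : 2 * Y ≤ n + 2) :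
    ((Y : ℝ) - X) - 2 ≤ (((range n).filter
        (fun i => i % 2 = e ∧ X ≤ i / 2 ∧ i / 2 < Y)).card : ℝ) ∧
      (((range n).filter (fun i => i % 2 = e ∧ X ≤ i / 2 ∧ i / 2 < Y)).card : ℝ)
      ≤ ((Y : ℝ) - X) + 1 := by
  have h := card_cls_range (n := n) (M := 1) (r := 0) (by norm_num) (by norm_num) hXY he hY
  have e1 : (range n).filter (fun i => i % 2 = e ∧ (i / 2) % 1 = 0 ∧ X ≤ i / 2 ∧ i / 2 < Y) =
      (range n).filter (fun i => i % 2 = e ∧ X ≤ i / 2 ∧ i / 2 < Y) := by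
    apply Finset.filter_congr
    intro i _
    rw [Nat.mod_one]
    tauto
  rw [e1] at h
  simpa using h

/-- normalised anchors of the data -/
theorem A_eq {v : ℕ} (hs : ¬ spec E.n v) : Pn.dat.A v = 3 * (E.n : ℤ) - (v / 2 : ℕ) :=
  s_norm hs

theorem hi_par {v : ℕ} (hs : ¬ spec E.n v) (bb : Bool) :
    hi E.n v = bb ↔ v % 2 = (if bb then 1 else 0) := by
  cases bb
  · rw [SS.hi_eq_false_iff hs]; simp
  · rw [SS.hi_iff hs]; simp

/-- the interval of idx belonging to an interval of normalised anchors -/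
theorem A_range {v : ℕ} (hs : ¬ spec E.n v) {x y : ℤ} (hy : y ≤ 3 * E.n) (hxy : x ≤ y) :
    (x ≤ Pn.dat.A v ∧ Pn.dat.A v < y) ↔
      ((3 * (E.n : ℤ) - y + 1).toNat ≤ v / 2 ∧ v / 2 < (3 * (E.n : ℤ) - x + 1).toNat) := by
  rw [A_eq hs]
  omega

/-- sum over the residue classes -/
theorem balC_sum (hE : E.Ok κ ρ c1) (e : ℕ) (he : e < 2) (X Y : ℕ) :
    |((E.Ck.filter (fun i => i % 2 = e ∧ X ≤ i / 2 ∧ i / 2 < Y)).card : ℝ)
      - (1 / 2) * (((range E.n).filter (fun i => i % 2 = e ∧ X ≤ i / 2 ∧ i / 2 < Y)).card : ℝ)|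
      ≤ ρ * E.n := by
  have hM : 0 < E.q ^ 2 := E.base.q2pos
  have key : ∀ T : Finset ℕ, ((T.filter (fun i => i % 2 = e ∧ X ≤ i / 2 ∧ i / 2 < Y)).card : ℝ) =
      ∑ r ∈ range (E.q ^ 2), ((T.filter
        (fun i => i % 2 = e ∧ (i / 2) % E.q ^ 2 = r ∧ X ≤ i / 2 ∧ i / 2 < Y)).card : ℝ) := by
    intro T
    have h1 : ∀ i ∈ T.filter (fun i => i % 2 = e ∧ X ≤ i / 2 ∧ i / 2 < Y),
        (i / 2) % E.q ^ 2 ∈ range (E.q ^ 2) := fun i _ => by
      rw [Finset.mem_range]; exact Nat.mod_lt _ hM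
    rw [Finset.card_eq_sum_card_fiberwise h1]
    push_cast
    apply Finset.sum_congr rfl
    intro r _
    rw [Finset.filter_filter]
    congr 2
    apply Finset.filter_congr
    intro i _
    tauto
  rw [key, key, Finset.mul_sum, ← Finset.sum_sub_distrib]
  refine (Finset.abs_sum_le_sum_abs _ _).trans ?_
  have h2 : ∀ r ∈ range (E.q ^ 2), |((E.Ck.filter
      (fun i => i % 2 = e ∧ (i / 2) % E.q ^ 2 = r ∧ X ≤ i / 2 ∧ i / 2 < Y)).card : ℝ) -
      1 / 2 * (((range E.n).filter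
        (fun i => i % 2 = e ∧ (i / 2) % E.q ^ 2 = r ∧ X ≤ i / 2 ∧ i / 2 < Y)).card : ℝ)|
      ≤ ρ * E.n / (E.q : ℝ) ^ 2 := fun r hr =>
    hE.col.balC e he r (Finset.mem_range.mp hr) X Y
  refine (Finset.sum_le_sum h2).trans ?_
  rw [Finset.sum_const, Finset.card_range, nsmul_eq_mul]
  have hq := q_pos E
  push_cast
  rw [mul_div_cancel₀ _ (by positivity)]

theorem It_sdiff_card (hP : Pn.Ok κ cD cC b m) : ((E.Ck \ Pn.It).card : ℝ) ≤ κ * E.n := by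
  have h1 : E.Ck \ Pn.It ⊆ Pn.CR ∪ Pn.Ed ∪ Pn.Ab := by
    intro i hi
    rw [Finset.mem_sdiff] at hi
    by_contra h
    exact hi.2 (by unfold Plan.It; rw [Finset.mem_sdiff]; exact ⟨hi.1, h⟩)
  have h2 : (E.Ck \ Pn.It).card ≤ Pn.CR.card + Pn.Ed.card + Pn.Ab.card :=
    (Finset.card_le_card h1).trans ((Finset.card_union_le _ _).trans
      (Nat.add_le_add_right (Finset.card_union_le _ _) _))
  have h3 : ((E.Ck \ Pn.It).card : ℝ) ≤ ((Pn.CR.card + Pn.Ed.card + Pn.Ab.card : ℕ) : ℝ) := by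
    exact_mod_cast h2
  exact h3.trans hP.szI

theorem balc (hE : E.Ok κ ρ c1) (hP : Pn.Ok κ cD cC b m) (bb : Bool) (x y : ℤ)
    (hx : 5 * (E.n : ℤ) ≤ 2 * x) (hxy : x ≤ y) (hy : y ≤ 3 * E.n) :
    |((Pn.It.filter (fun i => hi E.n i = bb ∧ x ≤ Pn.dat.A i ∧ Pn.dat.A i < y)).card : ℝ)
      - ((y : ℝ) - x) / 2| ≤ ρ * E.n + κ * E.n + 1 := by
  set X := (3 * (E.n : ℤ) - y + 1).toNat with hX
  set Y := (3 * (E.n : ℤ) - x + 1).toNat with hY
  set e := (if bb then 1 else 0 : ℕ) with he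
  have he2 : e < 2 := by rw [he]; split_ifs <;> norm_num
  have hXY : X ≤ Y := by omega
  have hYn : 2 * Y ≤ E.n + 2 := by omega
  have hdiff : (Y : ℝ) - X = (y : ℝ) - x := by
    have : (Y : ℤ) - X = y - x := by omega
    exact_mod_cast this
  have h1 := balC_sum hE e he2 X Y
  have h2 := card_par_range (n := E.n) hXY he2 hYn
  rw [hdiff] at h2
  have e1 : Pn.It.filter (fun i => hi E.n i = bb ∧ x ≤ Pn.dat.A i ∧ Pn.dat.A i < y) =
      Pn.It.filter (fun i => i % 2 = e ∧ X ≤ i / 2 ∧ i / 2 < Y) := by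
    apply Finset.filter_congr
    intro i hi
    have hs := Ck_not_spec hE (It_Ck hi)
    rw [hi_par hs, A_range hs hy hxy]
  rw [e1]
  have h3 : Pn.It.filter (fun i => i % 2 = e ∧ X ≤ i / 2 ∧ i / 2 < Y) ⊆
      E.Ck.filter (fun i => i % 2 = e ∧ X ≤ i / 2 ∧ i / 2 < Y) :=
    Finset.filter_subset_filter _ (fun i hi => It_Ck hi)
  have h4 : E.Ck.filter (fun i => i % 2 = e ∧ X ≤ i / 2 ∧ i / 2 < Y) ⊆
      Pn.It.filter (fun i => i % 2 = e ∧ X ≤ i / 2 ∧ i / 2 < Y) ∪ (E.Ck \ Pn.It) := by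
    intro i hi
    rw [Finset.mem_filter] at hi
    rw [Finset.mem_union, Finset.mem_filter, Finset.mem_sdiff]
    by_cases h : i ∈ Pn.It
    · exact Or.inl ⟨h, hi.2⟩
    · exact Or.inr ⟨hi.1, h⟩
  have h5 : ((Pn.It.filter (fun i => i % 2 = e ∧ X ≤ i / 2 ∧ i / 2 < Y)).card : ℝ) ≤
      ((E.Ck.filter (fun i => i % 2 = e ∧ X ≤ i / 2 ∧ i / 2 < Y)).card : ℝ) := by
    exact_mod_cast Finset.card_le_card h3
  have h6 : ((E.Ck.filter (fun i => i % 2 = e ∧ X ≤ i / 2 ∧ i / 2 < Y)).card : ℝ) ≤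
      ((Pn.It.filter (fun i => i % 2 = e ∧ X ≤ i / 2 ∧ i / 2 < Y)).card : ℝ) +
      ((E.Ck \ Pn.It).card : ℝ) := by
    exact_mod_cast (Finset.card_le_card h4).trans (Finset.card_union_le _ _)
  have h7 := It_sdiff_card (E := E) hP
  rw [abs_le] at h1 ⊢
  have hκ : 0 ≤ κ * E.n := (Nat.cast_nonneg _).trans h7
  constructor
  · linarith [h1.1, h2.1]
  · linarith [h1.2, h2.2]

/-- the residue of the idx of the vertices of a unit -/
def rU (E : Env) (u : ZMod (E.q ^ 2)) (bb : Bool) : ℕ :=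
  if bb then rr E.n E.q u else u.val

theorem rU_lt (E : Env) (u : ZMod (E.q ^ 2)) (bb : Bool) : rU E u bb < E.q ^ 2 := by
  unfold rU
  split_ifs
  · exact s_rr_lt E.base u
  · have : NeZero (E.q ^ 2) := ⟨E.base.q2pos.ne'⟩
    exact ZMod.val_lt u

theorem un_par {v : ℕ} (hs : ¬ spec E.n v) (u : ZMod (E.q ^ 2)) (bb : Bool) :
    (un E.n E.q v = u ∧ hi E.n v = bb) ↔
      (v % 2 = (if bb then 1 else 0) ∧ v / 2 % E.q ^ 2 = rU E u bb) := by
  rw [hi_par hs]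
  cases bb
  · simp only [Bool.false_eq_true, ↓reduceIte, rU]
    constructor
    · rintro ⟨h1, h2⟩; exact ⟨h2, (s_un_low E.base h2 u).mp h1⟩
    · rintro ⟨h1, h2⟩; exact ⟨(s_un_low E.base h1 u).mpr h2, h1⟩
  · simp only [↓reduceIte, rU]
    constructor
    · rintro ⟨h1, h2⟩; exact ⟨h2, (s_un_high E.base (by omega) hs u).mp h1⟩
    · rintro ⟨h1, h2⟩; exact ⟨(s_un_high E.base (by omega) hs u).mpr h2, h1⟩

/-- black vertices of a unit and a type -/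
theorem Bk_count (hE : E.Ok κ ρ c1) (u : ZMod (E.q ^ 2)) (bb : Bool) (X Y : ℕ) (hXY : X ≤ Y)
    (hYn : 2 * Y ≤ E.n + 2) :
    |((E.Bk.filter (fun v => v % 2 = (if bb then 1 else 0) ∧ v / 2 % E.q ^ 2 = rU E u bb ∧
      X ≤ v / 2 ∧ v / 2 < Y)).card : ℝ) - ((Y : ℝ) - X) / (2 * (E.q : ℝ) ^ 2)|
      ≤ ρ * E.n / (E.q : ℝ) ^ 2 + 1 := by
  have he2 : (if bb then 1 else 0 : ℕ) < 2 := by split_ifs <;> norm_num
  have h1 := hE.col.balB _ he2 (rU E u bb) (rU_lt E u bb) X Y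
  have h2 := card_cls_range (n := E.n) E.base.q2pos (rU_lt E u bb) hXY he2 hYn
  push_cast at h2
  have hq := q_pos E
  have e : ((Y : ℝ) - X) / (2 * (E.q : ℝ) ^ 2) = (1 / 2) * (((Y : ℝ) - X) / (E.q : ℝ) ^ 2) := by
    field_simp
  rw [e]
  rw [abs_le] at h1 ⊢
  constructor
  · linarith [h1.1, h2.1]
  · linarith [h1.2, h2.2]

theorem bals_aux (hE : E.Ok κ ρ c1) (u : ZMod (E.q ^ 2)) (bb : Bool) (x y : ℤ)
    (hx : 5 * (E.n : ℤ) ≤ 2 * x) (hxy : x ≤ y) (hy : y ≤ 3 * E.n) :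
    |((E.Bk.filter (fun v => un E.n E.q v = u ∧ hi E.n v = bb ∧ x ≤ Pn.dat.A v ∧
      Pn.dat.A v < y)).card : ℝ) - ((y : ℝ) - x) / (2 * (E.q : ℝ) ^ 2)|
      ≤ ρ * E.n / (E.q : ℝ) ^ 2 + 1 := by
  have hdiff : (((3 * (E.n : ℤ) - x + 1).toNat : ℕ) : ℝ) - ((3 * (E.n : ℤ) - y + 1).toNat : ℕ)
      = (y : ℝ) - x := by
    have : (((3 * (E.n : ℤ) - x + 1).toNat : ℕ) : ℤ) - ((3 * (E.n : ℤ) - y + 1).toNat : ℕ)
      = y - x := by omega
    exact_mod_cast this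
  have h1 := Bk_count hE u bb (3 * (E.n : ℤ) - y + 1).toNat (3 * (E.n : ℤ) - x + 1).toNat
    (by omega) (by omega)
  rw [hdiff] at h1
  have e1 : E.Bk.filter (fun v => un E.n E.q v = u ∧ hi E.n v = bb ∧ x ≤ Pn.dat.A v ∧
      Pn.dat.A v < y) = E.Bk.filter (fun v => v % 2 = (if bb then 1 else 0) ∧
      v / 2 % E.q ^ 2 = rU E u bb ∧
      (3 * (E.n : ℤ) - y + 1).toNat ≤ v / 2 ∧ v / 2 < (3 * (E.n : ℤ) - x + 1).toNat) := by
    apply Finset.filter_congr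
    intro v hv
    have hs := Bk_not_spec hE hv
    rw [← and_assoc, un_par hs, A_range hs hy hxy]
    tauto
  rw [e1]; exact h1

theorem bals_up (hE : E.Ok κ ρ c1) (u : ZMod (E.q ^ 2)) (bb : Bool) (x y : ℤ)
    (hx : 5 * (E.n : ℤ) ≤ 2 * x) (hxy : x ≤ y) (hy : y ≤ 3 * E.n) :
    (((E.Bk \ Pn.P).filter (fun v => un E.n E.q v = u ∧ hi E.n v = bb ∧ x ≤ Pn.dat.A v ∧
      Pn.dat.A v < y)).card : ℝ) ≤ ((y : ℝ) - x) / (2 * (E.q : ℝ) ^ 2)
      + (ρ * E.n / (E.q : ℝ) ^ 2 + 1) := by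
  have h1 := bals_aux (Pn := Pn) hE u bb x y hx hxy hy
  have h2 : (((E.Bk \ Pn.P).filter (fun v => un E.n E.q v = u ∧ hi E.n v = bb ∧ x ≤ Pn.dat.A v ∧
      Pn.dat.A v < y)).card : ℝ) ≤ ((E.Bk.filter (fun v => un E.n E.q v = u ∧ hi E.n v = bb ∧
      x ≤ Pn.dat.A v ∧ Pn.dat.A v < y)).card : ℝ) := by
    exact_mod_cast Finset.card_le_card (Finset.filter_subset_filter _ Finset.sdiff_subset)
  rw [abs_le] at h1
  linarith [h1.2]

open Classical in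
theorem bals (hE : E.Ok κ ρ c1) (hP : Pn.Ok κ cD cC b m) (u : ZMod (E.q ^ 2)) (hu : u ∉ Pn.Bd)
    (bb : Bool) (x y : ℤ) (hx : 5 * (E.n : ℤ) ≤ 2 * x) (hxy : x ≤ y) (hy : y ≤ 3 * E.n) :
    |(((E.Bk \ Pn.P).filter (fun v => un E.n E.q v = u ∧ hi E.n v = bb ∧ x ≤ Pn.dat.A v ∧
      Pn.dat.A v < y)).card : ℝ) - ((y : ℝ) - x) / (2 * (E.q : ℝ) ^ 2)|
      ≤ ρ * E.n / (E.q : ℝ) ^ 2 + 1 + κ * E.n / (E.q : ℝ) ^ 2 := by
  have h1 := bals_aux (Pn := Pn) hE u bb x y hx hxy hy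
  have h2 : (((E.Bk \ Pn.P).filter (fun v => un E.n E.q v = u ∧ hi E.n v = bb ∧ x ≤ Pn.dat.A v ∧
      Pn.dat.A v < y)).card : ℝ) ≤ ((E.Bk.filter (fun v => un E.n E.q v = u ∧ hi E.n v = bb ∧
      x ≤ Pn.dat.A v ∧ Pn.dat.A v < y)).card : ℝ) := by
    exact_mod_cast Finset.card_le_card (Finset.filter_subset_filter _ Finset.sdiff_subset)
  have h3 : E.Bk.filter (fun v => un E.n E.q v = u ∧ hi E.n v = bb ∧
      x ≤ Pn.dat.A v ∧ Pn.dat.A v < y) ⊆ ((E.Bk \ Pn.P).filter (fun v => un E.n E.q v = u ∧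
      hi E.n v = bb ∧ x ≤ Pn.dat.A v ∧ Pn.dat.A v < y)) ∪
      ((E.Bk ∩ Pn.P).filter (fun v => un E.n E.q v = u)) := by
    intro v hv
    rw [Finset.mem_filter] at hv
    rw [Finset.mem_union, Finset.mem_filter, Finset.mem_filter, Finset.mem_sdiff,
      Finset.mem_inter]
    by_cases h : v ∈ Pn.P
    · exact Or.inr ⟨⟨hv.1, h⟩, hv.2.1⟩
    · exact Or.inl ⟨⟨hv.1, h⟩, hv.2⟩
  have h4 : ((E.Bk.filter (fun v => un E.n E.q v = u ∧ hi E.n v = bb ∧
      x ≤ Pn.dat.A v ∧ Pn.dat.A v < y)).card : ℝ) ≤ (((E.Bk \ Pn.P).filter (fun v =>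
      un E.n E.q v = u ∧ hi E.n v = bb ∧ x ≤ Pn.dat.A v ∧ Pn.dat.A v < y)).card : ℝ) +
      (((E.Bk ∩ Pn.P).filter (fun v => un E.n E.q v = u)).card : ℝ) := by
    exact_mod_cast (Finset.card_le_card h3).trans (Finset.card_union_le _ _)
  have h5 := hP.load u hu
  have hκ : 0 ≤ κ * E.n / (E.q : ℝ) ^ 2 := (Nat.cast_nonneg _).trans h5
  rw [abs_le] at h1 ⊢
  constructor
  · linarith [h1.1]
  · linarith [h1.2]

/-- number of scheme vertices of a unit -/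
theorem svc_aux (hE : E.Ok κ ρ c1) (u : ZMod (E.q ^ 2)) :
    (((E.Bk \ Pn.P).filter (fun v => un E.n E.q v = u)).card : ℝ)
      ≤ (E.n : ℝ) / (2 * (E.q : ℝ) ^ 2) + 2 * (ρ * E.n / (E.q : ℝ) ^ 2) + 3 := by
  have hlt := n_ge E
  have h1 := Bk_count hE u true 0 (E.n / 2 + 1) (by omega) (by omega)
  have h2 := Bk_count hE u false 0 (E.n / 2 + 1) (by omega) (by omega)
  have h3 : (E.Bk \ Pn.P).filter (fun v => un E.n E.q v = u) ⊆
      (E.Bk.filter (fun v => v % 2 = (if true then 1 else 0) ∧ v / 2 % E.q ^ 2 = rU E u true ∧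
      0 ≤ v / 2 ∧ v / 2 < E.n / 2 + 1)) ∪
      (E.Bk.filter (fun v => v % 2 = (if false then 1 else 0) ∧ v / 2 % E.q ^ 2 = rU E u false ∧
      0 ≤ v / 2 ∧ v / 2 < E.n / 2 + 1)) := by
    intro v hv
    rw [Finset.mem_filter, Finset.mem_sdiff] at hv
    have hs := Bk_not_spec hE hv.1.1
    have hvn := Bk_lt hE hv.1.1
    rw [Finset.mem_union, Finset.mem_filter, Finset.mem_filter]
    rcases Bool.eq_false_or_eq_true (hi E.n v) with h | h
    · left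
      have h4 := (un_par hs u true).mp ⟨hv.2, h⟩
      exact ⟨hv.1.1, h4.1, h4.2, Nat.zero_le _, by omega⟩
    · right
      have h4 := (un_par hs u false).mp ⟨hv.2, h⟩
      exact ⟨hv.1.1, h4.1, h4.2, Nat.zero_le _, by omega⟩
  have h4 := (Finset.card_le_card h3).trans (Finset.card_union_le _ _)
  have h5 : (((E.Bk \ Pn.P).filter (fun v => un E.n E.q v = u)).card : ℝ) ≤
      ((E.Bk.filter (fun v => v % 2 = (if true then 1 else 0) ∧ v / 2 % E.q ^ 2 = rU E u true ∧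
      0 ≤ v / 2 ∧ v / 2 < E.n / 2 + 1)).card : ℝ) +
      ((E.Bk.filter (fun v => v % 2 = (if false then 1 else 0) ∧ v / 2 % E.q ^ 2 = rU E u false ∧
      0 ≤ v / 2 ∧ v / 2 < E.n / 2 + 1)).card : ℝ) := by exact_mod_cast h4
  have hq := q_pos E
  have hq1 : (1 : ℝ) ≤ (E.q : ℝ) ^ 2 := by
    have := E.base.q2pos
    exact_mod_cast this
  have h6 : (((E.n / 2 + 1 : ℕ) : ℝ) - (0 : ℕ)) / (2 * (E.q : ℝ) ^ 2)
      ≤ (E.n : ℝ) / (2 * (E.q : ℝ) ^ 2) / 2 + 1 / 2 := by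
    have a1 : ((E.n / 2 : ℕ) : ℝ) ≤ (E.n : ℝ) / 2 := Nat.cast_div_le
    have a2 : (((E.n / 2 + 1 : ℕ) : ℝ) - (0 : ℕ)) ≤ (E.n : ℝ) / 2 + 1 := by push_cast; linarith
    calc _ ≤ ((E.n : ℝ) / 2 + 1) / (2 * (E.q : ℝ) ^ 2) :=
          div_le_div_of_nonneg_right a2 (by positivity)
      _ = (E.n : ℝ) / (2 * (E.q : ℝ) ^ 2) / 2 + 1 / (2 * (E.q : ℝ) ^ 2) := by field_simp
      _ ≤ (E.n : ℝ) / (2 * (E.q : ℝ) ^ 2) / 2 + 1 / 2 := by
          have : 1 / (2 * (E.q : ℝ) ^ 2) ≤ 1 / 2 :=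
            div_le_div_of_nonneg_left (by norm_num) (by norm_num) (by linarith)
          linarith
  rw [abs_le] at h1 h2
  linarith [h1.2, h2.2]

end Pool.Agent.PGr.PR
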