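import Pool.Agent.PGr.PRegD

/-!
# PGr, part P, PRegThm: the fields `infR`, `res`, `pure_most`, `sw_up`, `sw_lo`
-/

namespace Pool.Agent.PGr.PR

open Finset

variable {E : Env} {Pn : Plan E} {κ ρ c1 cD cC : ℝ} {b m : ℕ}

theorem pure_iff (i : ℕ) : Pn.dat.pure i ↔ (nbp E.n E.k i ∈ E.Bk \ Pn.P ∧
    nbm E.n E.k i ∈ E.Bk \ Pn.P ∧ un E.n E.q (nbp E.n E.k i) ∉ E.Res ∧
    un E.n E.q (nbm E.n E.k i) ∉ E.Res) := Iff.rfl

theorem mem_IR (i : ℕ) : i ∈ Pn.IR ↔ (i ∈ Pn.It ∧ hi E.n i = true ∧ nbp E.n E.k i ∉ Pn.P ∧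
    nbm E.n E.k i ∉ Pn.P ∧ un E.n E.q (nbp E.n E.k i) ∉ E.Res ∧
    un E.n E.q (nbm E.n E.k i) ∉ E.Res ∧ inI E.n (255 / 100) (280 / 100) (anc E.n i)) := by
  classical
  unfold Plan.IR
  rw [Finset.mem_filter]

theorem IR_NS (hE : E.Ok κ ρ c1) (hP : Pn.Ok κ cD cC b m) {i : ℕ} (hi : i ∈ Pn.IR) :
    SS.NS E.n E.k i := by
  rw [mem_IR] at hi
  exact NS_of hE hP (It_Ck hi.1) hi.2.2.1 hi.2.2.2.1

/-- the combinations of the data, with the type of `E` -/
noncomputable def cmbP (Pn : Plan E) (j : Fin 10) (i : ℕ) : ZMod (E.q ^ 2) := Pn.dat.cmb j i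

theorem IR_cmb (hE : E.Ok κ ρ c1) (hP : Pn.Ok κ cD cC b m) {i : ℕ} (hi : i ∈ Pn.IR) (j : Fin 10) :
    cmbP Pn j i = cmbS E.n E.k E.q j i := by
  rw [mem_IR] at hi
  exact cmb_unplanted hE hP j (It_Ck hi.1) hi.2.2.1 hi.2.2.2.1

open Classical in
theorem infR_bound (hE : E.Ok κ ρ c1) (hP : Pn.Ok κ cD cC b m) (j : Fin 10) (v : ZMod (E.q ^ 2)) :
    ((Pn.IR.filter (fun i => cmbP Pn j i = v)).card : ℝ) ≤ 3 * (E.n : ℝ) / E.q + 6 := by
  refine le_trans (Nat.cast_le.mpr (Finset.card_le_card ?_)) (s_F1' E.base j v)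
  intro i hi
  rw [Finset.mem_filter] at hi
  rw [Finset.mem_filter, Finset.mem_range]
  exact ⟨Ck_lt hE (It_Ck ((mem_IR i).mp hi.1).1), IR_NS hE hP hi.1,
    (IR_cmb hE hP hi.1 j).symm.trans hi.2⟩

theorem pure_NS (hE : E.Ok κ ρ c1) (hP : Pn.Ok κ cD cC b m) {i : ℕ} (hi : i ∈ Pn.It)
    (h : Pn.dat.pure i) : SS.NS E.n E.k i := by
  rw [pure_iff] at h
  exact NS_of hE hP (It_Ck hi) (Finset.mem_sdiff.mp h.1).2 (Finset.mem_sdiff.mp h.2.1).2

theorem pure_cmb (hE : E.Ok κ ρ c1) (hP : Pn.Ok κ cD cC b m) {i : ℕ} (hi : i ∈ Pn.It)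
    (h : Pn.dat.pure i) (j : Fin 10) : cmbP Pn j i = cmbS E.n E.k E.q j i := by
  rw [pure_iff] at h
  exact cmb_unplanted hE hP j (It_Ck hi) (Finset.mem_sdiff.mp h.1).2 (Finset.mem_sdiff.mp h.2.1).2

theorem κ_nonneg (hE : E.Ok κ ρ c1) : 0 ≤ κ := by
  have h := hE.resc
  have hq := q_pos E
  have h0 : (0 : ℝ) ≤ κ * (E.q : ℝ) ^ 2 := (Nat.cast_nonneg _).trans h
  by_contra hlt
  push Not at hlt
  have : κ * (E.q : ℝ) ^ 2 < 0 := mul_neg_of_neg_of_pos hlt (by positivity)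
  linarith

open Classical in
theorem res_bound (hE : E.Ok κ ρ c1) (hP : Pn.Ok κ cD cC b m) (j : Fin 10)
    (e w : ZMod (E.q ^ 2)) (he : pm e) :
    ((Pn.It.filter (fun i => Pn.dat.pure i ∧ (lamI E.q (e * cmbP Pn j i + w) ∈ E.Res ∨
      delI E.q (e * cmbP Pn j i + w) ∈ E.Res))).card : ℝ) ≤ 18 * κ * E.n := by
  refine le_trans (Nat.cast_le.mpr (Finset.card_le_card ?_))
    (s_F2 E.base j e w he E.Res (κ_nonneg hE) hE.resc hE.resq)
  intro i hi
  rw [Finset.mem_filter] at hi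
  rw [Finset.mem_filter, Finset.mem_range]
  obtain ⟨hi1, hi2, hi3⟩ := hi
  refine ⟨Ck_lt hE (It_Ck hi1), pure_NS hE hP hi1 hi2, ?_⟩
  have h1 := pure_cmb hE hP hi1 hi2 j
  rw [h1] at hi3
  exact hi3

open Classical in
/-- vertices of `Ck` far from the special vertex with a neighbour in a reserved unit -/
theorem card_resnb (hE : E.Ok κ ρ c1) :
    ((E.Ck.filter (fun i => SS.NS E.n E.k i ∧ (un E.n E.q (nbp E.n E.k i) ∈ E.Res ∨
      un E.n E.q (nbm E.n E.k i) ∈ E.Res))).card : ℝ) ≤ 36 * κ * E.n := by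
  have h1 := s_F2 E.base 1 1 0 (Or.inl rfl) E.Res (κ_nonneg hE) hE.resc hE.resq
  have h2 := s_F2 E.base 2 1 0 (Or.inl rfl) E.Res (κ_nonneg hE) hE.resc hE.resq
  have e1 : ∀ v, lamI E.q (1 * cls0 E.n E.q v + 0) = un E.n E.q v := fun v => by
    rw [one_mul, add_zero]
    exact SS.lamI_lam E.base.q_prime E.base.q_big _
  have h3 : E.Ck.filter (fun i => SS.NS E.n E.k i ∧ (un E.n E.q (nbp E.n E.k i) ∈ E.Res ∨
      un E.n E.q (nbm E.n E.k i) ∈ E.Res)) ⊆
      ((range E.n).filter (fun i => SS.NS E.n E.k i ∧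
        (lamI E.q (1 * cmbS E.n E.k E.q 1 i + 0) ∈ E.Res ∨
        delI E.q (1 * cmbS E.n E.k E.q 1 i + 0) ∈ E.Res))) ∪
      ((range E.n).filter (fun i => SS.NS E.n E.k i ∧
        (lamI E.q (1 * cmbS E.n E.k E.q 2 i + 0) ∈ E.Res ∨
        delI E.q (1 * cmbS E.n E.k E.q 2 i + 0) ∈ E.Res))) := by
    intro i hi
    rw [Finset.mem_filter] at hi
    rw [Finset.mem_union, Finset.mem_filter, Finset.mem_filter, Finset.mem_range]
    rcases hi.2.2 with h | h
    · left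
      refine ⟨Ck_lt hE hi.1, hi.2.1, Or.inl ?_⟩
      have e2 : lamI E.q (1 * cmbS E.n E.k E.q 1 i + 0) = un E.n E.q (nbp E.n E.k i) := e1 _
      rw [e2]; exact h
    · right
      refine ⟨Ck_lt hE hi.1, hi.2.1, Or.inl ?_⟩
      have e2 : lamI E.q (1 * cmbS E.n E.k E.q 2 i + 0) = un E.n E.q (nbm E.n E.k i) := e1 _
      rw [e2]; exact h
  have h4 := (Finset.card_le_card h3).trans (Finset.card_union_le _ _)
  have h5 : ((E.Ck.filter (fun i => SS.NS E.n E.k i ∧ (un E.n E.q (nbp E.n E.k i) ∈ E.Res ∨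
      un E.n E.q (nbm E.n E.k i) ∈ E.Res))).card : ℝ) ≤
      (((range E.n).filter (fun i => SS.NS E.n E.k i ∧
        (lamI E.q (1 * cmbS E.n E.k E.q 1 i + 0) ∈ E.Res ∨
        delI E.q (1 * cmbS E.n E.k E.q 1 i + 0) ∈ E.Res))).card : ℝ) +
      (((range E.n).filter (fun i => SS.NS E.n E.k i ∧
        (lamI E.q (1 * cmbS E.n E.k E.q 2 i + 0) ∈ E.Res ∨
        delI E.q (1 * cmbS E.n E.k E.q 2 i + 0) ∈ E.Res))).card : ℝ) := by exact_mod_cast h4
  linarith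

open Classical in
/-- vertices of `Ck` next to planted vertices -/
theorem card_plnb (hE : E.Ok κ ρ c1) (hP : Pn.Ok κ cD cC b m) :
    ((E.Ck.filter (fun i => nbp E.n E.k i ∈ Pn.P ∨ nbm E.n E.k i ∈ Pn.P)).card : ℝ)
      ≤ 2 * (κ * E.n) := by
  have h1 : (E.Ck.filter (fun i => nbp E.n E.k i ∈ Pn.P)).card ≤ Pn.P.card := by
    apply Finset.card_le_card_of_injOn (nbp E.n E.k)
    · intro i hi
      rw [Finset.mem_coe, Finset.mem_filter] at hi
      exact hi.2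
    · intro i hi j hj hij
      rw [Finset.mem_coe, Finset.mem_filter] at hi hj
      exact nbp_inj hE hi.1 hj.1 hij
  have h2 : (E.Ck.filter (fun i => nbm E.n E.k i ∈ Pn.P)).card ≤ Pn.P.card := by
    apply Finset.card_le_card_of_injOn (nbm E.n E.k)
    · intro i hi
      rw [Finset.mem_coe, Finset.mem_filter] at hi
      exact hi.2
    · intro i hi j hj hij
      rw [Finset.mem_coe, Finset.mem_filter] at hi hj
      exact nbm_inj hE hi.1 hj.1 hij
  have h3 : E.Ck.filter (fun i => nbp E.n E.k i ∈ Pn.P ∨ nbm E.n E.k i ∈ Pn.P) ⊆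
      E.Ck.filter (fun i => nbp E.n E.k i ∈ Pn.P) ∪
      E.Ck.filter (fun i => nbm E.n E.k i ∈ Pn.P) := by
    intro i hi
    rw [Finset.mem_filter] at hi
    rw [Finset.mem_union, Finset.mem_filter, Finset.mem_filter]
    tauto
  have h4 := (Finset.card_le_card h3).trans (Finset.card_union_le _ _)
  have h5 : ((E.Ck.filter (fun i => nbp E.n E.k i ∈ Pn.P ∨ nbm E.n E.k i ∈ Pn.P)).card : ℝ)
      ≤ Pn.P.card + Pn.P.card := by
    exact_mod_cast h4.trans (Nat.add_le_add h1 h2)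
  have h6 := hP.szP
  linarith

open Classical in
theorem pure_most (hE : E.Ok κ ρ c1) (hP : Pn.Ok κ cD cC b m) :
    ((Pn.It.filter (fun i => ¬ Pn.dat.pure i)).card : ℝ) ≤ 38 * κ * E.n := by
  have h1 : Pn.It.filter (fun i => ¬ Pn.dat.pure i) ⊆
      E.Ck.filter (fun i => nbp E.n E.k i ∈ Pn.P ∨ nbm E.n E.k i ∈ Pn.P) ∪
      E.Ck.filter (fun i => SS.NS E.n E.k i ∧ (un E.n E.q (nbp E.n E.k i) ∈ E.Res ∨
      un E.n E.q (nbm E.n E.k i) ∈ E.Res)) := by
    intro i hi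
    rw [Finset.mem_filter, pure_iff] at hi
    rw [Finset.mem_union, Finset.mem_filter, Finset.mem_filter]
    have hC := It_Ck hi.1
    by_cases a1 : nbp E.n E.k i ∈ Pn.P
    · exact Or.inl ⟨hC, Or.inl a1⟩
    by_cases a2 : nbm E.n E.k i ∈ Pn.P
    · exact Or.inl ⟨hC, Or.inr a2⟩
    right
    refine ⟨hC, NS_of hE hP hC a1 a2, ?_⟩
    by_contra hcon
    rw [not_or] at hcon
    exact hi.2 ⟨(nb_Sv_iff hE hP hC (isNb_p E i)).mpr a1, (nb_Sv_iff hE hP hC (isNb_m E i)).mpr a2,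
      hcon.1, hcon.2⟩
  have h2 := (Finset.card_le_card h1).trans (Finset.card_union_le _ _)
  have h3 : ((Pn.It.filter (fun i => ¬ Pn.dat.pure i)).card : ℝ) ≤
      ((E.Ck.filter (fun i => nbp E.n E.k i ∈ Pn.P ∨ nbm E.n E.k i ∈ Pn.P)).card : ℝ) +
      ((E.Ck.filter (fun i => SS.NS E.n E.k i ∧ (un E.n E.q (nbp E.n E.k i) ∈ E.Res ∨
      un E.n E.q (nbm E.n E.k i) ∈ E.Res))).card : ℝ) := by exact_mod_cast h2
  have h4 := card_resnb (E := E) hE
  have h5 := card_plnb hE hP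
  linarith

/-- three keys of odd items -/
theorem card_keys3 {n k : ℕ} (P : ℕ → Prop) [DecidablePred P] (bd : ℝ)
    (hodd : ∀ i < n, P i → i % 2 = 1)
    (h : ∀ t : ℕ, (((range n).filter (fun i => P i ∧ SS.fkey n k i = (1, t))).card : ℝ) ≤ bd) :
    (((range n).filter P).card : ℝ) ≤ 3 * bd := by
  have hmap : ∀ i ∈ (range n).filter P, (SS.fkey n k i).2 ∈ range 3 := by
    intro i _
    unfold SS.fkey
    rw [Finset.mem_range]
    simp only; split_ifs <;> omega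
  rw [Finset.card_eq_sum_card_fiberwise hmap]
  push_cast
  calc ∑ x ∈ range 3,
        ((((range n).filter P).filter (fun i => (SS.fkey n k i).2 = x)).card : ℝ)
      ≤ ∑ x ∈ range 3, bd := by
        apply Finset.sum_le_sum
        intro x _
        rw [Finset.filter_filter]
        refine le_trans (Nat.cast_le.mpr (Finset.card_le_card ?_)) (h x)
        intro i hi
        rw [Finset.mem_filter, Finset.mem_range] at hi ⊢
        refine ⟨hi.1, hi.2.1, ?_⟩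
        have h1 := hodd i hi.1 hi.2.1
        apply Prod.ext
        · exact h1
        · exact hi.2.2
    _ = 3 * bd := by
        rw [Finset.sum_const, Finset.card_range]
        norm_num

theorem IR_odd (hE : E.Ok κ ρ c1) {i : ℕ} (hi : i ∈ Pn.IR) : i % 2 = 1 := by
  rw [mem_IR] at hi
  have hs := Ck_not_spec hE (It_Ck hi.1)
  have := (SS.hi_iff hs).mp hi.2.1
  omega

open Classical in
theorem sw_up_bound (hE : E.Ok κ ρ c1) (hP : Pn.Ok κ cD cC b m) (j : Fin 10) (hj : j ≠ 7)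
    (v : ZMod (E.q ^ 2)) :
    ((Pn.IR.filter (fun i => cmbP Pn j i = v)).card : ℝ)
      ≤ 3 * ((E.n : ℝ) / (2 * (E.q : ℝ) ^ 2) + 1) := by
  have h0 : ((Pn.IR.filter (fun i => cmbP Pn j i = v)).card : ℝ) ≤
      (((range E.n).filter (fun i => i % 2 = 1 ∧ SS.NS E.n E.k i ∧
        SS.cmb0 E.n E.k E.q true j i = v)).card : ℝ) := by
    refine Nat.cast_le.mpr (Finset.card_le_card ?_)
    intro i hi
    rw [Finset.mem_filter] at hi
    rw [Finset.mem_filter, Finset.mem_range]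
    exact ⟨Ck_lt hE (It_Ck ((mem_IR i).mp hi.1).1), IR_odd hE hi.1, IR_NS hE hP hi.1,
      (IR_cmb hE hP hi.1 j).symm.trans hi.2⟩
  refine h0.trans ?_
  refine card_keys3 (k := E.k) _ _ (fun i _ h => h.1) ?_
  intro t
  have h1 := SS.card_fibre_inj E.base (SS.Fm_inj E.base j hj 1 (SS.sgn E.n E.k true t)
    (SS.sgn E.n E.k (!true) t)) (1, t) v
  have h2 : ((range E.n).filter (fun i => (i % 2 = 1 ∧ SS.NS E.n E.k i ∧
      SS.cmb0 E.n E.k E.q true j i = v) ∧ SS.fkey E.n E.k i = (1, t))).card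
      ≤ E.n / (2 * E.q ^ 2) + 1 := by
    refine (Finset.card_le_card ?_).trans h1
    intro i hi'
    rw [Finset.mem_filter, Finset.mem_range] at hi' ⊢
    refine ⟨hi'.1, ?_, hi'.2.2⟩
    have h3 := SS.cmb0_eq E.base hi'.1 hi'.2.1.2.1 true j
    rw [hi'.2.2] at h3
    rw [← h3]; exact hi'.2.1.2.2
  calc (((range E.n).filter (fun i => (i % 2 = 1 ∧ SS.NS E.n E.k i ∧
      SS.cmb0 E.n E.k E.q true j i = v) ∧ SS.fkey E.n E.k i = (1, t))).card : ℝ)
      ≤ ((E.n / (2 * E.q ^ 2) + 1 : ℕ) : ℝ) := by exact_mod_cast h2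
    _ ≤ (E.n : ℝ) / (2 * (E.q : ℝ) ^ 2) + 1 := by
        push_cast
        have := Nat.cast_div_le (α := ℝ) (m := E.n) (n := 2 * E.q ^ 2)
        push_cast at this
        linarith

open Classical in
/-- the switch items: all values except few are taken often -/
theorem sw_lo_bound (hE : E.Ok κ ρ c1) (hP : Pn.Ok κ cD cC b m) (hn : 100 ≤ E.n)
    (hρ : ρ ≤ 1 / 1000) (hbig : 1000 ≤ (E.n : ℝ) / (E.q : ℝ) ^ 2) (j : Fin 10) (hj : j ≠ 7) :
    (((univ : Finset (ZMod (E.q ^ 2))).filter (fun v =>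
      ((Pn.IR.filter (fun i => cmbP Pn j i = v)).card : ℝ) <
        (1 / 100) * E.n / (E.q : ℝ) ^ 2)).card : ℝ) ≤ 7800 * κ * (E.q : ℝ) ^ 2 := by
  obtain ⟨x, y, hx, hy, hxy, hsw⟩ := s_sw E.base hn
  have hsw := hsw j hj
  have hq := q_pos E
  have hq2 : (0 : ℝ) < (E.q : ℝ) ^ 2 := by positivity
  have hnr : (0 : ℝ) < E.n := n_pos E
  set Bad := (univ : Finset (ZMod (E.q ^ 2))).filter (fun v =>
      ((Pn.IR.filter (fun i => cmbP Pn j i = v)).card : ℝ) <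
        (1 / 100) * E.n / (E.q : ℝ) ^ 2) with hBad
  set Xb := E.Ck.filter (fun i => SS.NS E.n E.k i ∧ i % 2 = 1 ∧ x ≤ i / 2 ∧ i / 2 < y ∧
    i ∉ Pn.IR) with hXb
  -- few bad items
  have hXcard : (Xb.card : ℝ) ≤ 39 * κ * E.n := by
    have h1 : Xb ⊆ (E.Ck \ Pn.It ∪
        E.Ck.filter (fun i => nbp E.n E.k i ∈ Pn.P ∨ nbm E.n E.k i ∈ Pn.P)) ∪
        E.Ck.filter (fun i => SS.NS E.n E.k i ∧ (un E.n E.q (nbp E.n E.k i) ∈ E.Res ∨
        un E.n E.q (nbm E.n E.k i) ∈ E.Res)) := by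
      intro i hi
      rw [hXb, Finset.mem_filter] at hi
      obtain ⟨hC, hNS, hodd, hxi, hyi, hIR⟩ := hi
      rw [Finset.mem_union, Finset.mem_union, Finset.mem_filter, Finset.mem_filter,
        Finset.mem_sdiff]
      by_cases a0 : i ∈ Pn.It
      swap
      · exact Or.inl (Or.inl ⟨hC, a0⟩)
      by_cases a1 : nbp E.n E.k i ∈ Pn.P
      · exact Or.inl (Or.inr ⟨hC, Or.inl a1⟩)
      by_cases a2 : nbm E.n E.k i ∈ Pn.P
      · exact Or.inl (Or.inr ⟨hC, Or.inr a2⟩)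
      right
      refine ⟨hC, hNS, ?_⟩
      by_contra hcon
      rw [not_or] at hcon
      apply hIR
      rw [mem_IR]
      refine ⟨a0, (SS.hi_iff hNS.1).mpr (by omega), a1, a2, hcon.1, hcon.2, ?_⟩
      have e1 := SS.anc_high (n := E.n) (i := i) (by omega) hNS.1
      unfold inI
      rw [e1]
      have b1 : (21 : ℝ) * E.n ≤ 100 * ((i / 2 : ℕ) : ℝ) := by
        have : 21 * E.n ≤ 100 * (i / 2) := by omega
        exact_mod_cast this
      have b2 : (100 : ℝ) * ((i / 2 : ℕ) : ℝ) ≤ 44 * E.n := by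
        have : 100 * (i / 2) ≤ 44 * E.n := by omega
        exact_mod_cast this
      rw [Int.cast_sub, Int.cast_mul, Int.cast_natCast, Int.cast_natCast]
      constructor
      · norm_num; linarith
      · norm_num; linarith
    have h2 := (Finset.card_le_card h1).trans ((Finset.card_union_le _ _).trans
      (Nat.add_le_add_right (Finset.card_union_le _ _) _))
    have h3 : (Xb.card : ℝ) ≤ ((E.Ck \ Pn.It).card : ℝ) +
        ((E.Ck.filter (fun i => nbp E.n E.k i ∈ Pn.P ∨ nbm E.n E.k i ∈ Pn.P)).card : ℝ) +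
        ((E.Ck.filter (fun i => SS.NS E.n E.k i ∧ (un E.n E.q (nbp E.n E.k i) ∈ E.Res ∨
        un E.n E.q (nbm E.n E.k i) ∈ E.Res))).card : ℝ) := by exact_mod_cast h2
    have h4 := It_sdiff_card (E := E) hP
    have h5 := card_plnb hE hP
    have h6 := card_resnb (E := E) hE
    linarith
  -- a bad value has many bad items
  have hmany : ∀ v ∈ Bad, (E.n : ℝ) / (E.q : ℝ) ^ 2 / 200 ≤
      ((Xb.filter (fun i => cmbS E.n E.k E.q j i = v)).card : ℝ) := by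
    intro v hv
    rw [hBad, Finset.mem_filter] at hv
    obtain ⟨r, hr, hrv⟩ := hsw v
    have h1 := hE.col.balC 1 (by norm_num) r hr x y
    have h2 := (card_cls_range (n := E.n) E.base.q2pos hr (by omega : x ≤ y)
      (by norm_num : 1 < 2) (by omega)).1
    have h3 : E.Ck.filter (fun i => i % 2 = 1 ∧ (i / 2) % E.q ^ 2 = r ∧ x ≤ i / 2 ∧ i / 2 < y) ⊆
        (Pn.IR.filter (fun i => cmbP Pn j i = v) ∪
        Xb.filter (fun i => cmbS E.n E.k E.q j i = v)) ∪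
        E.Ck.filter (fun i => ¬ SS.NS E.n E.k i) := by
      intro i hi
      rw [Finset.mem_filter] at hi
      obtain ⟨hC, hodd, hir, hxi, hyi⟩ := hi
      rw [Finset.mem_union, Finset.mem_union, Finset.mem_filter, Finset.mem_filter, hXb,
        Finset.mem_filter, Finset.mem_filter]
      by_cases hNS : SS.NS E.n E.k i
      · left
        have h4 := (hrv i (Ck_lt hE hC) hodd hNS hxi hyi).mpr hir
        by_cases hIR : i ∈ Pn.IR
        · left
          exact ⟨hIR, (IR_cmb hE hP hIR j).trans h4⟩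
        · right
          exact ⟨⟨hC, hNS, hodd, hxi, hyi, hIR⟩, h4⟩
      · right
        exact ⟨hC, hNS⟩
    have h4 := (Finset.card_le_card h3).trans ((Finset.card_union_le _ _).trans
      (Nat.add_le_add_right (Finset.card_union_le _ _) _))
    have h5 : ((E.Ck.filter (fun i => i % 2 = 1 ∧ (i / 2) % E.q ^ 2 = r ∧
        x ≤ i / 2 ∧ i / 2 < y)).card : ℝ) ≤
        ((Pn.IR.filter (fun i => cmbP Pn j i = v)).card : ℝ) +
        ((Xb.filter (fun i => cmbS E.n E.k E.q j i = v)).card : ℝ) +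
        ((E.Ck.filter (fun i => ¬ SS.NS E.n E.k i)).card : ℝ) := by exact_mod_cast h4
    have h6 := card_notNS (E := E) hE
    have h7 : (E.n : ℝ) / (E.q : ℝ) ^ 2 / 20 ≤ ((y : ℝ) - x) / ((E.q ^ 2 : ℕ) : ℝ) := by
      push_cast
      rw [div_div, mul_comm, ← div_div]
      apply div_le_div_of_nonneg_right _ hq2.le
      have h8 : E.n ≤ 20 * (y - x) := hxy
      have h9 : (E.n : ℝ) ≤ 20 * ((y - x : ℕ) : ℝ) := by exact_mod_cast h8
      rw [Nat.cast_sub (by omega)] at h9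
      linarith
    have h8 : ρ * E.n / (E.q : ℝ) ^ 2 ≤ (E.n : ℝ) / (E.q : ℝ) ^ 2 / 1000 := by
      have : ρ * E.n / (E.q : ℝ) ^ 2 = ρ * ((E.n : ℝ) / (E.q : ℝ) ^ 2) := by ring
      rw [this]
      have h9 : ρ * ((E.n : ℝ) / (E.q : ℝ) ^ 2) ≤ 1 / 1000 * ((E.n : ℝ) / (E.q : ℝ) ^ 2) :=
        mul_le_mul_of_nonneg_right hρ (by positivity)
      linarith
    have h9 := hv.2
    have h10 : (1 / 100) * (E.n : ℝ) / (E.q : ℝ) ^ 2 = (E.n : ℝ) / (E.q : ℝ) ^ 2 / 100 := by ring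
    rw [h10] at h9
    rw [abs_le] at h1
    have h11 := h1.1
    set N := (E.n : ℝ) / (E.q : ℝ) ^ 2 with hN
    linarith
  -- disjointness
  have hsum : ∑ v ∈ Bad, ((Xb.filter (fun i => cmbS E.n E.k E.q j i = v)).card : ℝ) ≤ Xb.card := by
    have hmap : ∀ i ∈ Xb.filter (fun i => cmbS E.n E.k E.q j i ∈ Bad),
        cmbS E.n E.k E.q j i ∈ Bad := fun i hi => (Finset.mem_filter.mp hi).2
    have h1 := Finset.card_eq_sum_card_fiberwise hmap
    have h2 : (Xb.filter (fun i => cmbS E.n E.k E.q j i ∈ Bad)).card ≤ Xb.card :=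
      Finset.card_filter_le _ _
    rw [h1] at h2
    have h3 : ∑ v ∈ Bad, (Xb.filter (fun i => cmbS E.n E.k E.q j i = v)).card ≤ Xb.card := by
      refine le_trans (le_of_eq ?_) h2
      apply Finset.sum_congr rfl
      intro v hv
      congr 1
      ext i
      constructor
      · intro h
        have h' := Finset.mem_filter.mp h
        exact Finset.mem_filter.mpr ⟨Finset.mem_filter.mpr ⟨h'.1, by rw [h'.2]; exact hv⟩, h'.2⟩
      · intro h
        have h' := Finset.mem_filter.mp h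
        exact Finset.mem_filter.mpr ⟨(Finset.mem_filter.mp h'.1).1, h'.2⟩
    exact_mod_cast h3
  have hfin : (Bad.card : ℝ) * ((E.n : ℝ) / (E.q : ℝ) ^ 2 / 200) ≤ 39 * κ * E.n := by
    calc (Bad.card : ℝ) * ((E.n : ℝ) / (E.q : ℝ) ^ 2 / 200)
        = ∑ v ∈ Bad, (E.n : ℝ) / (E.q : ℝ) ^ 2 / 200 := by
          rw [Finset.sum_const, nsmul_eq_mul]
      _ ≤ ∑ v ∈ Bad, ((Xb.filter (fun i => cmbS E.n E.k E.q j i = v)).card : ℝ) :=
          Finset.sum_le_sum hmany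
      _ ≤ Xb.card := hsum
      _ ≤ 39 * κ * E.n := hXcard
  have hfin2 : (Bad.card : ℝ) * E.n ≤ 7800 * κ * (E.q : ℝ) ^ 2 * E.n := by
    have e1 : (Bad.card : ℝ) * ((E.n : ℝ) / (E.q : ℝ) ^ 2 / 200) * (200 * (E.q : ℝ) ^ 2) =
        (Bad.card : ℝ) * E.n := by field_simp
    have e2 := mul_le_mul_of_nonneg_right hfin (by positivity : (0 : ℝ) ≤ 200 * (E.q : ℝ) ^ 2)
    rw [e1] at e2
    linarith
  exact le_of_mul_le_mul_right hfin2 hnr

end Pool.Agent.PGr.PR
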