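import Pool.Agent.PGr.RDefs

/-!
# PGr part R: small lemmas for the families (all proved)
-/

noncomputable section

namespace Pool.Agent.PGr

open Finset

/-- the constant of the counts -/
def c1R (K0 : ℕ) : ℝ := cG K0 / 10 ^ 7

theorem AF.ev_lin (F : AF) (m c : ℤ) (p : ℤ × ℤ × ℤ) : (F.lin m c).ev p = m * F.ev p + c := by
  simp only [AF.ev, AF.lin]; ring

theorem RF.ev_sub (F G : RF) (p : ℤ × ℤ × ℤ) :
    (F.sub G).ev p = wt F.lab * F.f.ev p - wt G.lab * G.f.ev p := by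
  simp only [AF.ev, RF.sub]; ring

theorem mem_bx (l h p : ℤ × ℤ × ℤ) : p ∈ bx l h ↔
    (l.1 ≤ p.1 ∧ p.1 ≤ h.1) ∧ (l.2.1 ≤ p.2.1 ∧ p.2.1 ≤ h.2.1) ∧
      (l.2.2 ≤ p.2.2 ∧ p.2.2 ≤ h.2.2) := by
  simp [bx, mem_product, mem_Icc]

theorem card_bx (l h : ℤ × ℤ × ℤ) (h1 : l.1 ≤ h.1) (h2 : l.2.1 ≤ h.2.1) (h3 : l.2.2 ≤ h.2.2) :
    ((bx l h).card : ℝ) = ((h.1 - l.1 + 1 : ℤ) : ℝ) * ((h.2.1 - l.2.1 + 1 : ℤ) : ℝ) *
      ((h.2.2 - l.2.2 + 1 : ℤ) : ℝ) := by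
  unfold bx
  rw [card_product, card_product, Int.card_Icc, Int.card_Icc, Int.card_Icc]
  push_cast
  rw [show ((h.1 + 1 - l.1).toNat : ℝ) = (((h.1 + 1 - l.1).toNat : ℤ) : ℝ) by norm_cast,
    show ((h.2.1 + 1 - l.2.1).toNat : ℝ) = (((h.2.1 + 1 - l.2.1).toNat : ℤ) : ℝ) by norm_cast,
    show ((h.2.2 + 1 - l.2.2).toNat : ℝ) = (((h.2.2 + 1 - l.2.2).toNat : ℤ) : ℝ) by norm_cast,
    Int.toNat_of_nonneg (by omega), Int.toNat_of_nonneg (by omega),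
    Int.toNat_of_nonneg (by omega)]
  push_cast
  ring

/-- `Fit` for multiples. -/
theorem Fit.lin {q : ℕ} {l h : ℤ × ℤ × ℤ} {F : AF} (hF : Fit q 4 l h F.sl) (m c : ℤ)
    (hm : m = 1 ∨ m = 2) : Fit q 8 l h (F.lin m c).sl := by
  obtain ⟨h0, h1, h2, h3, s1, s2, s3⟩ := hF
  simp only [AF.sl, AF.lin, Prod.mk.injEq, ne_eq, Prod.mk_eq_zero] at *
  rw [abs_le] at h1 h2 h3
  rcases hm with rfl | rfl
  · refine ⟨?_, ?_, ?_, ?_, ?_, ?_, ?_⟩
    · simpa using h0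
    · rw [abs_le]; constructor <;> simp <;> omega
    · rw [abs_le]; constructor <;> simp <;> omega
    · rw [abs_le]; constructor <;> simp <;> omega
    · intro hh; exact s1 (by simpa using hh)
    · intro hh; exact s2 (by simpa using hh)
    · intro hh; exact s3 (by simpa using hh)
  · refine ⟨?_, ?_, ?_, ?_, ?_, ?_, ?_⟩
    · simpa using h0
    · rw [abs_le]; constructor <;> simp <;> omega
    · rw [abs_le]; constructor <;> simp <;> omega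
    · rw [abs_le]; constructor <;> simp <;> omega
    · intro hh; exact s1 (by simpa using hh)
    · intro hh; exact s2 (by simpa using hh)
    · intro hh; exact s3 (by simpa using hh)

theorem Fit.mono {q : ℕ} {B B' : ℤ} {l h t : ℤ × ℤ × ℤ} (hF : Fit q B l h t) (hB : B ≤ B') :
    Fit q B' l h t :=
  ⟨hF.ne, hF.b1.trans hB, hF.b2.trans hB, hF.b3.trans hB, hF.s1, hF.s2, hF.s3⟩

theorem fit_gdL {q n k : ℕ} {l h : ℤ × ℤ × ℤ} {F : AF} (hF : Fit q 4 l h F.sl) :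
    ∀ X ∈ gdL n k F, Fit q 8 l h X.sl := by
  intro X hX
  simp only [gdL, List.mem_cons, List.not_mem_nil, or_false] at hX
  rcases hX with rfl | rfl | rfl | rfl | rfl
  · exact hF.mono (by norm_num)
  all_goals exact hF.lin _ _ (Or.inr rfl)

theorem fit_exD {q n : ℕ} {l h : ℤ × ℤ × ℤ} {F : AF} (hF : Fit q 4 l h F.sl) :
    ∀ X ∈ exD n F, Fit q 8 l h X.sl := by
  intro X hX
  simp only [exD, List.mem_cons, List.not_mem_nil, or_false] at hX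
  rcases hX with rfl | rfl | rfl
  all_goals exact hF.lin _ _ (Or.inl rfl)

theorem fit_exL {q n : ℕ} {l h : ℤ × ℤ × ℤ} {F : AF} (hF : Fit q 4 l h F.sl) :
    ∀ X ∈ exL n F, Fit q 8 l h X.sl := by
  intro X hX
  simp only [exL, List.mem_cons, List.not_mem_nil, or_false] at hX
  subst hX
  exact hF.lin _ _ (Or.inl rfl)

theorem gd_of {q n k : ℕ} {F : AF} {p : ℤ × ℤ × ℤ}
    (h : ∀ X ∈ gdL n k F, ¬ (q : ℤ) ∣ X.ev p) : gd n k q (F.ev p) := by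
  refine ⟨h _ (by simp [gdL]), ?_, ?_, ?_, ?_⟩
  · have := h (F.lin 2 (-k)) (by simp [gdL])
    rwa [AF.ev_lin, ← sub_eq_add_neg] at this
  · have := h (F.lin 2 k) (by simp [gdL])
    rwa [AF.ev_lin] at this
  · have := h (F.lin 2 (-((n : ℤ) - k))) (by simp [gdL])
    rwa [AF.ev_lin, ← sub_eq_add_neg] at this
  · have := h (F.lin 2 ((n : ℤ) - k)) (by simp [gdL])
    rwa [AF.ev_lin] at this

theorem ne_of_exD {q n : ℕ} {F : AF} {p : ℤ × ℤ × ℤ}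
    (h : ∀ X ∈ exD n F, ¬ (q : ℤ) ∣ X.ev p) :
    F.ev p ≠ (n : ℤ) + 1 ∧ F.ev p ≠ 3 * ((n / 2 : ℕ) : ℤ) ∧ F.ev p ≠ (((n - 1) / 2 : ℕ) : ℤ) := by
  refine ⟨?_, ?_, ?_⟩
  · intro he
    have := h (F.lin 1 (-((n : ℤ) + 1))) (by simp [exD])
    rw [AF.ev_lin, he] at this
    exact this (by simp)
  · intro he
    have := h (F.lin 1 (-(3 * ((n / 2 : ℕ) : ℤ)))) (by simp [exD])
    rw [AF.ev_lin, he] at this
    exact this (by simp)
  · intro he
    have := h (F.lin 1 (-(((n - 1) / 2 : ℕ) : ℤ))) (by simp [exD])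
    rw [AF.ev_lin, he] at this
    exact this (by simp)

theorem ne_of_exL {q n : ℕ} {F : AF} {p : ℤ × ℤ × ℤ}
    (h : ∀ X ∈ exL n F, ¬ (q : ℤ) ∣ X.ev p) : F.ev p ≠ 3 * ((n / 2 : ℕ) : ℤ) := by
  intro he
  have := h (F.lin 1 (-(3 * ((n / 2 : ℕ) : ℤ)))) (by simp [exL])
  rw [AF.ev_lin, he] at this
  exact this (by simp)

/-- Equal kinds and incongruent units: the values are different. -/
theorem ne_of_sub {q : ℕ} {F G : RF} {p : ℤ × ℤ × ℤ} (hl : F.lab = G.lab)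
    (h : ¬ (q : ℤ) ∣ (F.sub G).ev p) : F.f.ev p ≠ G.f.ev p := by
  intro he
  apply h
  rw [RF.ev_sub, hl, he, sub_self]
  exact dvd_zero _

/-- generic differences avoid the shifts -/
theorem gd_tau {q n k : ℕ} {d τ : ℤ} (hd : gd n k q d) (hτ : TauOK n k τ) :
    ¬ (q : ℤ) ∣ 2 * d - 2 * τ := by
  obtain ⟨-, h1, h2, h3, h4⟩ := hd
  rcases hτ with h | h | h | h
  · rwa [h]
  · rwa [h, sub_neg_eq_add]
  · rwa [h]
  · rwa [h, sub_neg_eq_add]

/-- `q` odd: `q ∣ 2 t` iff `q ∣ t`. -/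
theorem dvd_two_mul {q : ℕ} (hq : q.Prime) (h2 : 2 < q) {t : ℤ} (h : (q : ℤ) ∣ 2 * t) :
    (q : ℤ) ∣ t := by
  have hc : IsCoprime (q : ℤ) (2 : ℤ) := by
    rw [Int.isCoprime_iff_gcd_eq_one]
    have : Nat.Coprime q 2 := by
      rw [Nat.coprime_primes hq Nat.prime_two]
      omega
    exact_mod_cast this
  exact hc.dvd_of_dvd_mul_left h

/-- The value of a spoke. -/
theorem spoke_eq {n v : ℕ} {A s τ y : ℤ} (h : NbT n v A s τ) (h1 : (n : ℤ) < 2 * y)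
    (h2 : 2 * y < 5 * n) :
    |y - anc n v| = A - s * y - τ ∧ 1 ≤ A - s * y - τ ∧
      (s = 1 → A - s * y - τ ≤ 3 * n - y) ∧ (s = -1 → A - s * y - τ ≤ y) := by
  rcases h with ⟨rfl, ha, hb, hc⟩ | ⟨rfl, ha, hb, hc⟩
  · rw [ha]
    refine ⟨?_, by omega, fun _ => by omega, fun h => by omega⟩
    rw [abs_of_nonpos (by omega)]; ring
  · rw [ha]
    refine ⟨?_, by omega, fun h => by omega, fun _ => by omega⟩
    rw [abs_of_nonneg (by omega)]; ring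

namespace RCtx

variable (C : RCtx)

theorem q_prime : C.q.Prime := C.base.q_prime

theorem n_big : (C.q : ℤ) * 10 ^ 20 ≤ C.n := by
  have h1 := C.base.q_high
  have h2 := C.q_big
  have h3 : C.q * 10 ^ 20 ≤ C.q ^ 6 := by
    calc C.q * 10 ^ 20 = C.q * (10 ^ 4) ^ 5 := by norm_num
      _ ≤ C.q * C.q ^ 5 := Nat.mul_le_mul_left _ (Nat.pow_le_pow_left h2 5)
      _ = C.q ^ 6 := by ring
  exact_mod_cast h3.trans h1

theorem n_big' : (10 : ℤ) ^ 24 ≤ C.n := by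
  have h1 := C.n_big
  have h2 : (10 : ℤ) ^ 4 ≤ C.q := by exact_mod_cast C.q_big
  nlinarith

/-- membership in `It` -/
theorem mem_It (A : ℤ) : A ∈ C.It ↔ (0 ≤ A ∧ A ≤ 3 * (C.n : ℤ)) ∧ 5 * (C.n : ℤ) ≤ 2 * A ∧
    anc C.n (mOf C.n A) = A ∧ mOf C.n A < C.n ∧ C.pit (mOf C.n A) := by
  classical
  simp [It]

/-- members of `It` are anchors of pure items -/
theorem pureItem_of_It (ω : C.Om) (A : ℤ) (h : A ∈ C.It) :
    (C.env ω).pureItem (mOf C.n A) := by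
  have := ((C.mem_It A).1 h).2.2.2.2
  exact this

/-- neighbours of pure items are not special -/
theorem not_spec_of_It (A : ℤ) (h : A ∈ C.It) :
    ¬ spec C.n (nbp C.n C.k (mOf C.n A)) ∧ ¬ spec C.n (nbm C.n C.k (mOf C.n A)) := by
  classical
  have h1 := ((C.mem_It A).1 h).2.2.2.2
  obtain ⟨-, -, hp, hm⟩ := h1
  have key : ∀ i ∈ C.B1, ¬ spec C.n i := by
    intro i hi hs
    have h2 := (Finset.mem_filter.1 hi).2
    have h3 := hs
    obtain ⟨h4, h5⟩ := h3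
    have h6 : i % 2 = 1 := by omega
    obtain ⟨-, h7⟩ := h2
    rw [if_neg (by omega)] at h7
    exact h7.1 hs
  exact ⟨key _ hp, key _ hm⟩

end RCtx

end Pool.Agent.PGr
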