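import Pool.Agent.PGr.RVS

/-!
# PGr-R-Bad: probability that a label or a difference is occupied

STATEMENTS. `bad` = shifts of the unit for which the label (difference) is occupied (used) by a
scheme vertex of `B1`.
* labels: never occupied outside `[n, 2n]`, always at most `.51 * 2S` shifts;
* differences: at most `.51 * 2S` shifts, at most `.36 * 2S` if `d ≤ .84 n`.

PLAN. Facts for `i ∈ B1` (`inVS`): `Yl .. i t = B0 + Lab + Q * ((t + 3 sidx).val)` with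
`Lab < Q`, `val < 2S`; so `n ≤ B0 ≤ Yl < B0 + 2 S Q ≤ 2 n` (`Base`: `B0 < n + Q`,
`2 Q (S+1) + 2 ≤ n`), and `t ↦ Yl .. i t` is injective.
Low `i` (even): `anc = i/2 < n/2 < Yl`, so `|Yl - anc| = Yl - anc`. High `i` (odd, not special as
`inVS`): `anc = 3n - i/2 ≥ 5n/2 > Yl`, so `|Yl - anc| = anc - Yl`. Hence for every `i ∈ B1` and every
`x` at most one shift `t` has `Yl .. i t = x`, at most one has `|Yl .. i t - anc| = x`, therefore
`#bad ≤ #{i ∈ B1 : un i = u, (extra condition)}` (`Finset.card_le_card_of_injOn` or biUnion bound: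
`bad ⊆ (the finset of i).biUnion (fun i => {t | ..})`, each of card ≤ 1).
(U) For every unit `u` and `w : ℕ`: `#{i ∈ Bk : ¬ spec, un i = u, w ≤ i/2} ≤ (n/2 - w)/Q + 2 + 2 * 10^(-6) n/Q`
    (as a real number, for `w ≤ n/2`):
    even `i`: `un i = (i/2 : ZMod Q) = u` iff `(i/2) % Q = u.val`: `col.balB 0 u.val w n`, and the
    number of `i < n` even with `(i/2) % Q = r`, `w ≤ i/2` is at most `(n/2 + 1 - w)/Q + 1`
    (`Nat.count`/injection `i ↦ (i/2)/Q`...).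
    odd non special `i`: `un i = hhI (3n - i/2) = u` iff `3n - i/2 = hh u` in `ZMod Q`
    (`hh (hhI x) = x`, `hhI (hh u) = u` for `q > 3` prime, `linear_combination` as in RUnit) iff
    `(i/2) % Q = r'` for a fixed `r' < Q`: `col.balB 1 r' w n`.
    Each of the two contributes at most half of its total number plus `10^(-6) n / Q`.
With `w = 0`: `≤ (1/2) n/Q + 3 + 2*10^(-6) n/Q ≤ .505 n/Q ≤ .51 * 2S` (`S_size`; `n/Q ≥ q^4` is huge).
For `d ≤ .84 n`: `i` low with `Yl - anc = d`: `i/2 = anc = Yl - d ≥ n - .84 n = .16 n`;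
`i` high with `anc - Yl = d`: `3n - i/2 = Yl + d < 2n + .84n`, so `i/2 > .16 n`. Use (U) with
`w = ⌈.16 n⌉`: `≤ .34 n/Q + small ≤ .36 * 2S`.
-/

namespace Pool.Agent.PGr

open Finset

private theorem rb_hh (q : ℕ) (hq : q.Prime) (h3 : 3 < q) (x : ZMod (q ^ 2)) :
    hh q (hhI q x) = x := by
  have hc : (3 : ZMod (q ^ 2)) * 3⁻¹ = 1 := by
    have hcop : Nat.Coprime 3 (q ^ 2) := by
      apply Nat.Coprime.pow_right
      rw [Nat.coprime_primes Nat.prime_three hq]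
      omega
    have := ZMod.coe_mul_inv_eq_one 3 hcop
    simpa using this
  have hq2 : (q : ZMod (q ^ 2)) ^ 2 = 0 := by
    have := ZMod.natCast_self (q ^ 2)
    push_cast at this
    exact this
  unfold hh hhI
  generalize (3 : ZMod (q ^ 2))⁻¹ = c at hc ⊢
  linear_combination (x - 2 * q * c ^ 2 * x ^ 2) * hc + (-8 * c ^ 4 * x ^ 3 + 8 * q * c ^ 6 * x ^ 4) * hq2

private theorem rb_mem (C : RCtx) {i : ℕ} (hi : i ∈ C.B1) :
    i ∈ C.Bk ∧ inVS C.n C.q C.S C.B0 i := by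
  classical
  have := hi
  unfold RCtx.B1 at this
  exact Finset.mem_filter.1 this

private theorem rb_Yl (C : RCtx) (i : ℕ) (t : ZMod (2 * C.S)) :
    (C.n : ℤ) ≤ Yl C.n C.q C.S C.B0 i t ∧ Yl C.n C.q C.S C.B0 i t < 2 * C.n := by
  have h1 := C.base.B0_low
  have h2 := C.base.B0_high
  have h3 := C.base.S_high
  have h4 : Lab C.q (un C.n C.q i) < C.q ^ 2 := ZMod.val_lt _
  have h5 : (t + 3 * (sidx C.n C.q C.S C.B0 i : ZMod (2 * C.S))).val < 2 * C.S := ZMod.val_lt _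
  unfold Yl
  set L := Lab C.q (un C.n C.q i)
  set v := (t + 3 * (sidx C.n C.q C.S C.B0 i : ZMod (2 * C.S))).val
  have h6 : C.q ^ 2 * (v + 1) ≤ C.q ^ 2 * (2 * C.S) := Nat.mul_le_mul_left _ h5
  have h7 : 0 ≤ (C.q : ℤ) ^ 2 * (v : ℤ) := by positivity
  have h8 : (C.q : ℤ) ^ 2 * ((v : ℤ) + 1) ≤ (C.q : ℤ) ^ 2 * (2 * C.S) := by exact_mod_cast h6
  have h9 : 2 * (C.q : ℤ) ^ 2 * (C.S + 1) + 2 ≤ C.n := by exact_mod_cast h3
  have h10 : (C.B0 : ℤ) < C.n + (C.q : ℤ) ^ 2 := by exact_mod_cast h2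
  have h11 : (L : ℤ) < (C.q : ℤ) ^ 2 := by exact_mod_cast h4
  have h12 : (C.n : ℤ) ≤ C.B0 := by exact_mod_cast h1
  constructor
  · linarith [Int.natCast_nonneg L]
  · nlinarith

private theorem rb_Yl_inj (C : RCtx) (i : ℕ) : Function.Injective (Yl C.n C.q C.S C.B0 i) := by
  intro t t' h
  unfold Yl at h
  have hq : (0 : ℤ) < (C.q : ℤ) ^ 2 := by
    have := C.base.q_prime.pos
    positivity
  have h1 : (C.q : ℤ) ^ 2 * (((t + 3 * (sidx C.n C.q C.S C.B0 i : ZMod (2 * C.S))).val : ℕ) : ℤ) =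
      (C.q : ℤ) ^ 2 * (((t' + 3 * (sidx C.n C.q C.S C.B0 i : ZMod (2 * C.S))).val : ℕ) : ℤ) := by
    linarith
  have h2 := mul_left_cancel₀ hq.ne' h1
  have h3 : (t + 3 * (sidx C.n C.q C.S C.B0 i : ZMod (2 * C.S))).val =
      (t' + 3 * (sidx C.n C.q C.S C.B0 i : ZMod (2 * C.S))).val := by exact_mod_cast h2
  exact add_right_cancel (ZMod.val_injective _ h3)

private theorem rb_anc (C : RCtx) {i : ℕ} (hi : i ∈ C.B1) :
    (i % 2 = 0 ∧ anc C.n i = ((i / 2 : ℕ) : ℤ) ∧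
      ∀ t, |Yl C.n C.q C.S C.B0 i t - anc C.n i| =
        Yl C.n C.q C.S C.B0 i t - ((i / 2 : ℕ) : ℤ)) ∨
    (i % 2 = 1 ∧ anc C.n i = 3 * (C.n : ℤ) - ((i / 2 : ℕ) : ℤ) ∧
      ∀ t, |Yl C.n C.q C.S C.B0 i t - anc C.n i| =
        3 * (C.n : ℤ) - ((i / 2 : ℕ) : ℤ) - Yl C.n C.q C.S C.B0 i t) := by
  obtain ⟨-, h1, h2⟩ := rb_mem C hi
  rcases Nat.mod_two_eq_zero_or_one i with h | h
  · left
    have ha : anc C.n i = ((i / 2 : ℕ) : ℤ) := by
      unfold anc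
      rw [if_pos h]
    refine ⟨h, ha, fun t => ?_⟩
    rw [ha]
    have := (rb_Yl C i t).1
    rw [abs_of_nonneg (by omega)]
  · right
    rw [if_neg (by omega)] at h2
    have ha : anc C.n i = 3 * (C.n : ℤ) - ((i / 2 : ℕ) : ℤ) := by
      unfold anc
      rw [if_neg (by omega)]
      exact if_neg h2.1
    refine ⟨h, ha, fun t => ?_⟩
    rw [ha]
    have := (rb_Yl C i t).2
    rw [abs_of_nonpos (by omega)]
    ring

/-- the residue class of the vertices of a unit -/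
private theorem rb_cls (C : RCtx) {i : ℕ} (hi : i ∈ C.B1) (u : ZMod (C.q ^ 2))
    (hu : un C.n C.q i = u) :
    (i % 2 = 0 ∧ (i / 2) % C.q ^ 2 = u.val) ∨ (i % 2 = 1 ∧ (i / 2) % C.q ^ 2 = rr C.n C.q u) := by
  have hq := C.base.q_prime
  have hq3 : 3 < C.q := by
    have := C.base.q_big
    omega
  rcases rb_anc C hi with ⟨h, ha, -⟩ | ⟨h, ha, -⟩
  · left
    refine ⟨h, ?_⟩
    unfold un at hu
    rw [if_pos h] at hu
    rw [← hu, ZMod.val_natCast]
  · right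
    refine ⟨h, ?_⟩
    unfold un at hu
    rw [if_neg (by omega)] at hu
    have h1 : hh C.q u = ((anc C.n i : ℤ) : ZMod (C.q ^ 2)) := by
      rw [← hu, rb_hh C.q hq hq3]
    unfold rr
    rw [h1, ha]
    have h2 : ((3 * C.n : ℕ) : ZMod (C.q ^ 2)) -
        ((3 * (C.n : ℤ) - ((i / 2 : ℕ) : ℤ) : ℤ) : ZMod (C.q ^ 2)) =
        ((i / 2 : ℕ) : ZMod (C.q ^ 2)) := by
      generalize i / 2 = j
      push_cast
      ring
    rw [h2, ZMod.val_natCast]

/-- counting a residue class -/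
private theorem rb_cnt (n Q e r w y : ℕ) (hQ : 0 < Q) (hw : w ≤ n / 2) :
    (((range n).filter (fun i => i % 2 = e ∧ (i / 2) % Q = r ∧ w ≤ i / 2 ∧ i / 2 < y)).card : ℝ) ≤
      ((n : ℝ) / 2 - w) / Q + 1 := by
  have h1 : ((range n).filter
      (fun i => i % 2 = e ∧ (i / 2) % Q = r ∧ w ≤ i / 2 ∧ i / 2 < y)).card ≤
      (range ((n / 2 - w) / Q + 1)).card := by
    apply Finset.card_le_card_of_injOn (fun i => (i / 2 - w) / Q)
    · intro i hi
      have hi' := Finset.mem_filter.1 hi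
      have h2 := Finset.mem_range.1 hi'.1
      simp only [Finset.coe_range, Set.mem_Iio]
      apply Nat.lt_succ_of_le
      apply Nat.div_le_div_right
      omega
    · intro i hi j hj hij
      obtain ⟨-, hi1, hi2, hi3, -⟩ := Finset.mem_filter.1 hi
      obtain ⟨-, hj1, hj2, hj3, -⟩ := Finset.mem_filter.1 hj
      simp only at hij
      have h3 : (i / 2 - w) % Q = (j / 2 - w) % Q := by
        have h4 : (i / 2 - w) + w ≡ (j / 2 - w) + w [MOD Q] := by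
          rw [Nat.sub_add_cancel hi3, Nat.sub_add_cancel hj3]
          exact hi2.trans hj2.symm
        exact Nat.ModEq.add_right_cancel' w h4
      have h5 : i / 2 - w = j / 2 - w := by
        rw [← Nat.div_add_mod (i / 2 - w) Q, ← Nat.div_add_mod (j / 2 - w) Q, hij, h3]
      omega
  rw [Finset.card_range] at h1
  have h2 : (((n / 2 - w) / Q : ℕ) : ℝ) ≤ ((n : ℝ) / 2 - w) / Q := by
    refine Nat.cast_div_le.trans ?_
    have hQ' : (0 : ℝ) < Q := by exact_mod_cast hQ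
    apply div_le_div_of_nonneg_right _ hQ'.le
    rw [Nat.cast_sub hw]
    have : ((n / 2 : ℕ) : ℝ) ≤ (n : ℝ) / 2 := by
      have := @Nat.cast_div_le ℝ _ _ _ n 2
      simpa using this
    linarith
  calc _ ≤ (((n / 2 - w) / Q + 1 : ℕ) : ℝ) := by exact_mod_cast h1
    _ = (((n / 2 - w) / Q : ℕ) : ℝ) + 1 := by push_cast; rfl
    _ ≤ _ := by linarith

open Classical in
private theorem rb_U (C : RCtx) (u : ZMod (C.q ^ 2)) (w : ℕ) (hw : w ≤ C.n / 2) :
    ((C.B1.filter (fun i => un C.n C.q i = u ∧ w ≤ i / 2)).card : ℝ) ≤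
      ((C.n : ℝ) / 2 - w) / (C.q : ℝ) ^ 2 + 1 + 2 / 10 ^ 6 * C.n / (C.q : ℝ) ^ 2 := by
  have hq0 : 0 < C.q ^ 2 := by
    have := C.base.q_prime.pos
    positivity
  have hsub : C.B1.filter (fun i => un C.n C.q i = u ∧ w ≤ i / 2) ⊆
      (C.Bk.filter (fun i => i % 2 = 0 ∧ (i / 2) % C.q ^ 2 = u.val ∧ w ≤ i / 2 ∧ i / 2 < C.n)) ∪
      (C.Bk.filter (fun i => i % 2 = 1 ∧ (i / 2) % C.q ^ 2 = rr C.n C.q u ∧ w ≤ i / 2 ∧
        i / 2 < C.n)) := by
    intro i hi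
    obtain ⟨hiB, hu, hwi⟩ := Finset.mem_filter.1 hi
    obtain ⟨hBk, hin, -⟩ := rb_mem C hiB
    have hlt : i / 2 < C.n := by omega
    rw [Finset.mem_union, Finset.mem_filter, Finset.mem_filter]
    rcases rb_cls C hiB u hu with ⟨h1, h2⟩ | ⟨h1, h2⟩
    · exact Or.inl ⟨hBk, h1, h2, hwi, hlt⟩
    · exact Or.inr ⟨hBk, h1, h2, hwi, hlt⟩
  have h1 : ((C.B1.filter (fun i => un C.n C.q i = u ∧ w ≤ i / 2)).card : ℝ) ≤
      ((C.Bk.filter (fun i => i % 2 = 0 ∧ (i / 2) % C.q ^ 2 = u.val ∧ w ≤ i / 2 ∧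
        i / 2 < C.n)).card : ℝ) +
      ((C.Bk.filter (fun i => i % 2 = 1 ∧ (i / 2) % C.q ^ 2 = rr C.n C.q u ∧ w ≤ i / 2 ∧
        i / 2 < C.n)).card : ℝ) := by
    have := (Finset.card_le_card hsub).trans (Finset.card_union_le _ _)
    exact_mod_cast this
  have hv1 : u.val < C.q ^ 2 := ZMod.val_lt u
  have hv2 : rr C.n C.q u < C.q ^ 2 := ZMod.val_lt _
  have b1 := abs_le.1 (C.col.balB 0 (by norm_num) u.val hv1 w C.n)
  have b2 := abs_le.1 (C.col.balB 1 (by norm_num) (rr C.n C.q u) hv2 w C.n)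
  have c1 := rb_cnt C.n (C.q ^ 2) 0 u.val w C.n hq0 hw
  have c2 := rb_cnt C.n (C.q ^ 2) 1 (rr C.n C.q u) w C.n hq0 hw
  push_cast at c1 c2
  have d1 := b1.2
  have d2 := b2.2
  have e1 : (1 / 10 ^ 6 : ℝ) * C.n / (C.q : ℝ) ^ 2 + 1 / 10 ^ 6 * C.n / (C.q : ℝ) ^ 2 =
      2 / 10 ^ 6 * C.n / (C.q : ℝ) ^ 2 := by ring
  linarith

open Classical in
private theorem rb_card (C : RCtx) (l : Bool) (x : ℤ) (w : ℕ)
    (hw : ∀ i ∈ C.B1, ∀ t : ZMod (2 * C.S), (if l then Yl C.n C.q C.S C.B0 i t = x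
      else |Yl C.n C.q C.S C.B0 i t - anc C.n i| = x) → w ≤ i / 2) :
    (C.bad l x).card ≤ (C.B1.filter (fun i => un C.n C.q i = uOf C.q l x ∧ w ≤ i / 2)).card := by
  have hsub : C.bad l x ⊆ (C.B1.filter (fun i => un C.n C.q i = uOf C.q l x ∧ w ≤ i / 2)).biUnion
      (fun i => univ.filter (fun t : ZMod (2 * C.S) => if l then Yl C.n C.q C.S C.B0 i t = x
      else |Yl C.n C.q C.S C.B0 i t - anc C.n i| = x)) := by
    intro t ht
    unfold RCtx.bad at ht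
    obtain ⟨-, i, hi, hu, hc⟩ := Finset.mem_filter.1 ht
    rw [Finset.mem_biUnion]
    refine ⟨i, Finset.mem_filter.2 ⟨hi, hu, hw i hi t hc⟩, ?_⟩
    exact Finset.mem_filter.2 ⟨Finset.mem_univ _, hc⟩
  refine (Finset.card_le_card hsub).trans ?_
  have := Finset.card_biUnion_le_card_mul
    (C.B1.filter (fun i => un C.n C.q i = uOf C.q l x ∧ w ≤ i / 2))
    (fun i => univ.filter (fun t : ZMod (2 * C.S) => if l then Yl C.n C.q C.S C.B0 i t = x
      else |Yl C.n C.q C.S C.B0 i t - anc C.n i| = x)) 1 (by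
    intro i hi
    have hiB := (Finset.mem_filter.1 hi).1
    rw [Finset.card_le_one]
    intro t ht t' ht'
    have h1 := (Finset.mem_filter.1 ht).2
    have h2 := (Finset.mem_filter.1 ht').2
    apply rb_Yl_inj C i
    cases l with
    | true =>
      simp only [if_true] at h1 h2
      rw [h1, h2]
    | false =>
      simp only [Bool.false_eq_true, if_false] at h1 h2
      rcases rb_anc C hiB with ⟨-, -, h3⟩ | ⟨-, -, h3⟩
      · rw [h3] at h1 h2
        linarith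
      · rw [h3] at h1 h2
        linarith)
  rwa [mul_one] at this

private theorem rb_num (C : RCtx) : (999 / 1000 : ℝ) * C.n / (C.q : ℝ) ^ 2 ≤ 2 * C.S ∧
    (10 : ℝ) ^ 6 ≤ C.n / (C.q : ℝ) ^ 2 := by
  have hq0 : (0 : ℝ) < C.q := by
    have := C.base.q_prime.pos
    exact_mod_cast this
  have hq2 : (0 : ℝ) < (C.q : ℝ) ^ 2 := by positivity
  have h1 := S_size C.n C.k C.q C.S C.B0 C.base C.q_big
  have h2 : (C.q : ℝ) ^ 6 ≤ C.n := by exact_mod_cast C.base.q_high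
  have h3 : (10 : ℝ) ^ 4 ≤ C.q := by exact_mod_cast C.q_big
  constructor
  · rw [div_le_iff₀ hq2]
    exact h1
  · rw [le_div_iff₀ hq2]
    have h4 : (10 : ℝ) ^ 6 ≤ (C.q : ℝ) ^ 4 := by
      calc (10 : ℝ) ^ 6 ≤ ((10 : ℝ) ^ 4) ^ 4 := by norm_num
        _ ≤ (C.q : ℝ) ^ 4 := pow_le_pow_left₀ (by positivity) h3 4
    calc (10 : ℝ) ^ 6 * (C.q : ℝ) ^ 2 ≤ (C.q : ℝ) ^ 4 * (C.q : ℝ) ^ 2 :=
          mul_le_mul_of_nonneg_right h4 hq2.le
      _ = (C.q : ℝ) ^ 6 := by ring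
      _ ≤ _ := h2

private theorem rb_all (C : RCtx) (l : Bool) (x : ℤ) :
    ((C.bad l x).card : ℝ) ≤ (51 / 100) * (2 * C.S) := by
  classical
  have h1 := rb_card C l x 0 (fun i _ t _ => Nat.zero_le _)
  have h2 := rb_U C (uOf C.q l x) 0 (Nat.zero_le _)
  obtain ⟨h3, h4⟩ := rb_num C
  have h5 : ((C.bad l x).card : ℝ) ≤
      ((C.B1.filter (fun i => un C.n C.q i = uOf C.q l x ∧ 0 ≤ i / 2)).card : ℝ) := by
    exact_mod_cast h1
  have e1 : (((C.n : ℝ) / 2 - (0 : ℕ)) / (C.q : ℝ) ^ 2 + 1 + 2 / 10 ^ 6 * C.n / (C.q : ℝ) ^ 2) =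
      (1 / 2 + 2 / 10 ^ 6) * (C.n / (C.q : ℝ) ^ 2) + 1 := by
    push_cast
    ring
  rw [e1] at h2
  have e2 : (999 / 1000 : ℝ) * C.n / (C.q : ℝ) ^ 2 = 999 / 1000 * (C.n / (C.q : ℝ) ^ 2) := by ring
  rw [e2] at h3
  nlinarith

theorem bad_label0 (C : RCtx) (x : ℤ) (hx : x < C.n ∨ 2 * (C.n : ℤ) < x) :
    (C.bad true x).card = 0 := by
  classical
  rw [Finset.card_eq_zero, Finset.eq_empty_iff_forall_notMem]
  intro t ht
  unfold RCtx.bad at ht
  obtain ⟨-, i, -, -, hc⟩ := Finset.mem_filter.1 ht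
  simp only [if_true] at hc
  have h1 := rb_Yl C i t
  rw [hc] at h1
  omega

theorem bad_label (C : RCtx) (x : ℤ) : ((C.bad true x).card : ℝ) ≤ (51 / 100) * (2 * C.S) :=
  rb_all C true x

theorem bad_diff (C : RCtx) (x : ℤ) : ((C.bad false x).card : ℝ) ≤ (51 / 100) * (2 * C.S) :=
  rb_all C false x

theorem bad_diff_low (C : RCtx) (x : ℤ) (hx : 100 * x ≤ 84 * (C.n : ℤ)) :
    ((C.bad false x).card : ℝ) ≤ (36 / 100) * (2 * C.S) := by
  classical
  set w : ℕ := (16 * C.n + 99) / 100 with hw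
  have hn : 1000 ≤ C.n := by
    have h1 := C.base.q_high
    have h2 := C.q_big
    have h3 : (10 ^ 4) ^ 6 ≤ C.q ^ 6 := Nat.pow_le_pow_left h2 6
    have h4 : 1000 ≤ (10 ^ 4) ^ 6 := by norm_num
    omega
  have h1 := rb_card C false x w (by
    intro i hi t hc
    simp only [Bool.false_eq_true, if_false] at hc
    have hY := rb_Yl C i t
    rcases rb_anc C hi with ⟨-, -, h3⟩ | ⟨-, -, h3⟩
    · rw [h3] at hc
      omega
    · rw [h3] at hc
      omega)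
  have h2 := rb_U C (uOf C.q false x) w (by omega)
  obtain ⟨h3, h4⟩ := rb_num C
  have hq2 : (0 : ℝ) < (C.q : ℝ) ^ 2 := by
    have : (0 : ℝ) < C.q := by
      have := C.base.q_prime.pos
      exact_mod_cast this
    positivity
  have h5 : ((C.bad false x).card : ℝ) ≤
      ((C.B1.filter (fun i => un C.n C.q i = uOf C.q false x ∧ w ≤ i / 2)).card : ℝ) := by
    exact_mod_cast h1
  have hwr : (16 : ℝ) / 100 * C.n ≤ w := by
    have : 16 * C.n ≤ 100 * w := by omega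
    have : (16 : ℝ) * C.n ≤ 100 * w := by exact_mod_cast this
    linarith
  have h6 : ((C.n : ℝ) / 2 - w) / (C.q : ℝ) ^ 2 ≤ 34 / 100 * (C.n / (C.q : ℝ) ^ 2) := by
    rw [← mul_div_assoc]
    apply div_le_div_of_nonneg_right _ hq2.le
    linarith
  have e1 : 2 / 10 ^ 6 * (C.n : ℝ) / (C.q : ℝ) ^ 2 = 2 / 10 ^ 6 * (C.n / (C.q : ℝ) ^ 2) := by ring
  rw [e1] at h2
  have e2 : (999 / 1000 : ℝ) * C.n / (C.q : ℝ) ^ 2 = 999 / 1000 * (C.n / (C.q : ℝ) ^ 2) := by ring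
  rw [e2] at h3
  nlinarith

end Pool.Agent.PGr
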