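import Pool.Agent.PGr.RTW1

/-!
# PGr-R-COV: the family COV, groups 0..4

WORKED EXAMPLES: RTW1.lean (type I gadgets) and RCOV5.lean (group 5, landed) do exactly the same.

STATEMENT. For `d` in the range of the group `g ≠ 5`: with probability at least
`1 - 2 exp(-dG q)` there are at least `c1R n^3` quadruples `(m, o, y1, y2)` counted in `covN g d`.

PLAN.
(A) Core lemma `cov_pr` for explicit data: `o : Bool`, intervals `A ∈ [a,b]`, `y1 ∈ [y1l, y1h]`,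
`y2 ∈ [y2l, y2h]`, types `s1, s2`, shifts `τ1, τ2` of the FIRST neighbour `nb o m` and the second
`nb (!o) m` (hypothesis `hnb` : for `A ∈ [a,b] ∩ It`: `NbT n (nb o) A s1 τ1`, `NbT n (nb (!o)) A s2 τ2`
where `nb true = nbp`, `nb false = nbm`). Resources (parameter `(A, y1, y2)`, `X = y1 + d`):
 0 `⟨true, ⟨0,1,0,0⟩⟩` (y1), 1 `⟨true, ⟨0,0,1,0⟩⟩` (y2), 2 `⟨true, ⟨0,1,0,d⟩⟩` (X),
 3 `⟨false, ⟨0,1,-1,d⟩⟩` (X - y2), 4 `⟨false, ⟨1,-1,0,-d⟩⟩` (A - X),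
 5 `⟨false, ⟨1,-s1,0,-τ1⟩⟩` (spoke of y1), 6 `⟨false, ⟨1,0,-s2,-τ2⟩⟩` (spoke of y2).
`β = ![true, true, false, false, false, true, true]`. Table
 `![(0,1,0), (0,0,1), (0,1,0), (0,2,-2), (2,-2,0), (2,2*(-s1),0), (2,0,2*(-s2))]`.
 Equal slopes: (0,2) always, (4,5) iff `s1 = 1`. Here coincidences are ALLOWED (d may be divisible by
 q, or ≡ τ1): `mate` = the involution exchanging 0 and 2, and 4 and 5 if `s1 = 1` (if `s1 = -1` it
 fixes 4 and 5). `Fam.pair` is then vacuous (the only pairs of equal slopes are mates).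
 `φ = ![51/100, 51/100, 0, 51/100, 36/100, 51/100, 51/100]`: X is outside `[n, 2n]`
 (`bad_label0`), `A - X ≤ .84 n` (`bad_diff_low`); sums of mates: 51/100, 87/100 ≤ 97/100.
 `Fam.mval`: 0, 2: `d ≥ 1`; 4, 5 (s1 = 1): values `A - y1 - d`, `A - y1 - τ1`, different because of the
 hypothesis `s1 = 1 → d ≠ τ1`.
 Extra forms: `exL` of 0, 1, 2; `exD` of 3, 4, 5, 6; `gdL` of 3, 4; `⟨1,-1,0,0⟩`, `⟨1,0,-1,0⟩`,
 `⟨0,1,-1,0⟩` (for `inc3 A y1 y2`).
 Distinctness needed in `covB`/`covG`: spokes 5 ≠ 6 and 3 ≠ 4: not mates, `ne_of_sub`.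
 Numerical hypotheses of the core lemma (all linear, integers; check the box by omega/linarith):
 `251n ≤ 100a`, `b ≤ 3n`, `n ≤ 1000(b-a+1)`, `n ≤ 100(y1h-y1l+1)`, `n ≤ 100(y2h-y2l+1)`, `1 ≤ d`,
 `9n ≤ 10 y1l`, `10 y1h ≤ 21n`, `n ≤ y2l`, `y2h ≤ 2n`, `201n ≤ 100(y1l+d)`, `1000(y1h+d) ≤ 2495n`,
 `n ≤ 10(y1l+d-y2h)`, `10(y1h+d-y2l) ≤ 13n`, `n ≤ 10(a-y1h-d)`, `100(b-y1l-d) ≤ 84n`,
 `s1 = 1 → b-τ1-y1l ≤ 2n`, `s1 = -1 → b+y1h-τ1 ≤ 2n` (spoke of y1 at most 2n), and the real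
 inequalities `inI n (covT g 6) (covT g 7) A`, `inI n (covT g 2) (covT g 3) y1`,
 `inI n (covT g 4) (covT g 5) y2` for all points of the box.
 Injection `(A, y1, y2) ↦ (mOf n A, o, y1, y2)`. Size: `(n/1000)(n/100)^2 ≥ n^3/10^7`.
(B) Instances (A-zones inside [2.6n, 2.85n]; integer divisions as in RTW1; `C.n ≥ 10^24`):
 * g = 1,2,3,4, and g = 0 with `k` odd: `o = true`, `zoneM` with `a0 = 276n/100 + 1`,
   `a1 = 285n/100` (`2(3n-a0)+1+k < n` holds since `2(3n - a0) + 1 ≤ .48n`, `2k < n`). By the extra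
   information of `zoneM`: either `s1 = 1`, `2 τ1 = k` (so `0 ≤ τ1`, `τ1 < n/4`, `d ≠ τ1` because
   `d ≥ .35 n` for g ≥ 1; for g = 0 this case is excluded, k odd) or `s1 = -1`, `3n ≤ τ1`.
 * g = 0 with `k` even: `o = false`, `zoneP` with `a0 = 260n/100 + 1`, `a1 = 275n/100`
   (`k ≤ 2(3n - a1) + 1`); the first neighbour is `nbm` with `s = 1`, `2τ = -k` (extra information of
   `zoneP`: its data are called `s2 τ2` there, swap the roles), so `τ < 0 < d` and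
   `b - τ - y1l ≤ 2.75n + .25n - 2.01n`.
 * y1-intervals: g=0: [201n/100+1, 21n/10]; g=1: [166n/100+1, 168n/100]; g=2: [121n/100+1, 123n/100];
   g=3: [n+1, 104n/100]; g=4: [9n/10+1, 94n/100].  y2-intervals: g=0,1: [13n/10+1, 14n/10];
   g=2,3,4: [14n/10+1, 15n/10]. d-ranges from `covT`: g=0: [1,.35n], 1: [.35,.8], 2: [.8,1.25],
   3: [1.25,1.45], 4: [1.45,1.55] (turn the real inequalities into integer ones).
 (`exact_mod_cast`/`linarith` for the real inequalities; `covT g i` by `simp [covT]` after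
 `fin_cases g`.)
-/

noncomputable section

namespace Pool.Agent.PGr

open Finset

/-- The resources of the groups 0..4, parameter `(A, y1, y2)`. -/
private def cwF (d s1 τ1 s2 τ2 : ℤ) : Fin 7 → RF :=
  ![⟨true, ⟨0, 1, 0, 0⟩⟩, ⟨true, ⟨0, 0, 1, 0⟩⟩, ⟨true, ⟨0, 1, 0, d⟩⟩,
    ⟨false, ⟨0, 1, -1, d⟩⟩, ⟨false, ⟨1, -1, 0, -d⟩⟩,
    ⟨false, ⟨1, -s1, 0, -τ1⟩⟩, ⟨false, ⟨1, 0, -s2, -τ2⟩⟩]

/-- table of doubled slopes -/
private def cwT (s1 s2 : ℤ) : Fin 7 → ℤ × ℤ × ℤ :=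
  ![(0, 1, 0), (0, 0, 1), (0, 1, 0), (0, 2, -2), (2, -2, 0), (2, 2 * (-s1), 0),
    (2, 0, 2 * (-s2))]

/-- the bits -/
private def cwB : Fin 7 → Bool := ![true, true, false, false, false, true, true]

/-- the mates -/
private def cwM (s1 : ℤ) : Fin 7 → Fin 7 :=
  if s1 = 1 then ![2, 1, 0, 3, 5, 4, 6] else ![2, 1, 0, 3, 4, 5, 6]

/-- the probabilities of being occupied -/
private def cwP : Fin 7 → ℝ := ![51 / 100, 51 / 100, 0, 51 / 100, 36 / 100, 51 / 100, 51 / 100]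

/-- the extra forms -/
private def cwX (n k : ℕ) (d s1 τ1 s2 τ2 : ℤ) : List AF :=
  exL n (cwF d s1 τ1 s2 τ2 0).f ++ exL n (cwF d s1 τ1 s2 τ2 1).f ++
  exL n (cwF d s1 τ1 s2 τ2 2).f ++ exD n (cwF d s1 τ1 s2 τ2 3).f ++
  exD n (cwF d s1 τ1 s2 τ2 4).f ++ exD n (cwF d s1 τ1 s2 τ2 5).f ++
  exD n (cwF d s1 τ1 s2 τ2 6).f ++ gdL n k (cwF d s1 τ1 s2 τ2 3).f ++
  gdL n k (cwF d s1 τ1 s2 τ2 4).f ++ [⟨1, -1, 0, 0⟩, ⟨1, 0, -1, 0⟩, ⟨0, 1, -1, 0⟩]

/-- `Fit` from closed slopes and three long sides. -/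
private theorem cw_fit3 {q : ℕ} {B : ℤ} {l h t : ℤ × ℤ × ℤ}
    (ht : t ≠ 0 ∧ |t.1| ≤ B ∧ |t.2.1| ≤ B ∧ |t.2.2| ≤ B)
    (h1 : (q : ℤ) ≤ h.1 - l.1 + 1) (h2 : (q : ℤ) ≤ h.2.1 - l.2.1 + 1)
    (h3 : (q : ℤ) ≤ h.2.2 - l.2.2 + 1) :
    Fit q B l h t :=
  ⟨ht.1, ht.2.1, ht.2.2.1, ht.2.2.2, fun _ => h1, fun _ => h2, fun _ => h3⟩

/-- the neighbour in the direction `o` -/
private def nbo (C : RCtx) (o : Bool) (m : ℕ) : ℕ :=
  if o then nbp C.n C.k m else nbm C.n C.k m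

private theorem cw_fam (C : RCtx) (o : Bool) (d a b c1 e1 c2 e2 s1 τ1 s2 τ2 : ℤ)
    (hs1 : s1 = 1 ∨ s1 = -1) (hs2 : s2 = 1 ∨ s2 = -1)
    (hnb : ∀ A ∈ Icc a b, A ∈ C.It →
      NbT C.n (nbo C o (mOf C.n A)) A s1 τ1 ∧ NbT C.n (nbo C (!o) (mOf C.n A)) A s2 τ2)
    (ha : 251 * (C.n : ℤ) ≤ 100 * a) (hb : b ≤ 3 * C.n)
    (hab : (C.n : ℤ) ≤ 1000 * (b - a + 1))
    (hc1 : 9 * (C.n : ℤ) ≤ 10 * c1) (he1 : 10 * e1 ≤ 21 * C.n)
    (hce1 : (C.n : ℤ) ≤ 100 * (e1 - c1 + 1))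
    (hc2 : (C.n : ℤ) ≤ c2) (he2 : e2 ≤ 2 * C.n)
    (hce2 : (C.n : ℤ) ≤ 100 * (e2 - c2 + 1))
    (hd1 : 1 ≤ d) (hX1 : 201 * (C.n : ℤ) ≤ 100 * (c1 + d)) (hX2 : 1000 * (e1 + d) ≤ 2495 * C.n)
    (h3a : (C.n : ℤ) ≤ 10 * (c1 + d - e2)) (h3b : 10 * (e1 + d - c2) ≤ 13 * C.n)
    (h4a : (C.n : ℤ) ≤ 10 * (a - e1 - d)) (h4b : 100 * (b - c1 - d) ≤ 84 * C.n)
    (hτ : s1 = 1 → d ≠ τ1) :
    Fam C.q C.S C.E C.bad (a, c1, c2) (b, e1, e2) C.It (cwF d s1 τ1 s2 τ2) (cwM s1)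
      (cwX C.n C.k d s1 τ1 s2 τ2) (cwT s1 s2) cwP := by
  have hqp := C.q_prime
  have hnq := C.n_big
  have hn := C.n_big'
  have hqb := C.q_big
  have hE := C.E_big
  have hq0 : (0 : ℤ) < C.q := by exact_mod_cast hqp.pos
  have side1 : (C.q : ℤ) ≤ b - a + 1 := by
    by_contra hcon
    push Not at hcon
    nlinarith
  have side2 : (C.q : ℤ) ≤ e1 - c1 + 1 := by
    by_contra hcon
    push Not at hcon
    nlinarith
  have side3 : (C.q : ℤ) ≤ e2 - c2 + 1 := by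
    by_contra hcon
    push Not at hcon
    nlinarith
  -- values of the forms
  have hv : ∀ p ∈ bx (a, c1, c2) (b, e1, e2), p.1 ∈ C.It → ∀ i : Fin 7,
      1 ≤ (cwF d s1 τ1 s2 τ2 i).f.ev p ∧ (cwF d s1 τ1 s2 τ2 i).f.ev p ≤ 3 * C.n := by
    intro p hp hI i
    rw [mem_bx] at hp
    obtain ⟨⟨hp1, hp2⟩, ⟨hp3, hp4⟩, hp5, hp6⟩ := hp
    obtain ⟨A, y, z⟩ := p
    simp only at hp1 hp2 hp3 hp4 hp5 hp6 hI
    obtain ⟨hN1, hN2⟩ := hnb A (mem_Icc.2 ⟨hp1, hp2⟩) hI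
    have hsp1 := spoke_eq (y := y) hN1 (by omega) (by omega)
    have hsp2 := spoke_eq (y := z) hN2 (by omega) (by omega)
    rcases hs1 with rfl | rfl <;> rcases hs2 with rfl | rfl <;> fin_cases i <;>
      simp [cwF, AF.ev] <;> constructor <;> omega
  constructor
  · norm_num
  · norm_num
  · simp [cwX, exL, exD, gdL]
  · show a ≤ b; omega
  · show c1 ≤ e1; omega
  · show c2 ≤ e2; omega
  · exact item_count C a b (by omega) (by omega) hab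
  · intro i
    rcases hs1 with rfl | rfl <;> rcases hs2 with rfl | rfl <;> fin_cases i <;> rfl
  · intro i
    refine cw_fit3 ?_ side1 side2 side3
    rcases hs1 with rfl | rfl <;> rcases hs2 with rfl | rfl <;> revert i <;> decide
  · have h4 : ∀ i, Fit C.q 4 (a, c1, c2) (b, e1, e2) (cwF d s1 τ1 s2 τ2 i).f.sl := by
      intro i
      refine cw_fit3 ?_ side1 side2 side3
      rcases hs1 with rfl | rfl <;> rcases hs2 with rfl | rfl <;> fin_cases i <;>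
        simp [cwF, AF.sl]
    have h8 : ∀ X ∈ ([⟨1, -1, 0, 0⟩, ⟨1, 0, -1, 0⟩, ⟨0, 1, -1, 0⟩] : List AF),
        Fit C.q 8 (a, c1, c2) (b, e1, e2) X.sl := by
      intro X hX
      refine cw_fit3 ?_ side1 side2 side3
      simp only [List.mem_cons, List.not_mem_nil, or_false] at hX
      rcases hX with rfl | rfl | rfl <;> simp [AF.sl]
    intro X hX
    simp only [cwX, List.mem_append] at hX
    rcases hX with ((((((((hX | hX) | hX) | hX) | hX) | hX) | hX) | hX) | hX) | hX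
    · exact fit_exL (h4 0) X hX
    · exact fit_exL (h4 1) X hX
    · exact fit_exL (h4 2) X hX
    · exact fit_exD (h4 3) X hX
    · exact fit_exD (h4 4) X hX
    · exact fit_exD (h4 5) X hX
    · exact fit_exD (h4 6) X hX
    · exact fit_gdL (h4 3) X hX
    · exact fit_gdL (h4 4) X hX
    · exact h8 X hX
  · intro i
    rcases hs1 with rfl | rfl <;> revert i <;> decide
  · -- equal slopes are mates
    intro i j hij hT hm
    exfalso
    rcases hs1 with rfl | rfl <;> rcases hs2 with rfl | rfl <;> revert i j <;> decide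
  · intro p hp hI i
    have := hv p hp hI i
    exact ⟨by omega, by omega⟩
  · -- values of mates
    intro p hp hI i hi
    right
    obtain ⟨A, y, z⟩ := p
    have key : (i, cwM s1 i) ∈ [((0 : Fin 7), (2 : Fin 7)), (2, 0)] ∨
        (s1 = 1 ∧ (i, cwM s1 i) ∈ [((4 : Fin 7), (5 : Fin 7)), (5, 4)]) := by
      rcases hs1 with rfl | rfl <;> revert i <;> decide
    simp only [List.mem_cons, Prod.mk.injEq, List.not_mem_nil, or_false] at key
    rcases key with (⟨hi1, hi2⟩ | ⟨hi1, hi2⟩) | ⟨hs, ⟨hi1, hi2⟩ | ⟨hi1, hi2⟩⟩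
    · rw [hi2, hi1]
      simp [cwF, AF.ev]
      omega
    · rw [hi2, hi1]
      simp [cwF, AF.ev]
      omega
    · rw [hi2, hi1]
      have := hτ hs
      subst hs
      simp [cwF, AF.ev]
      omega
    · rw [hi2, hi1]
      have := hτ hs
      subst hs
      simp [cwF, AF.ev]
      omega
  · intro i
    fin_cases i <;> simp [cwP] <;> norm_num
  · intro i
    fin_cases i <;> simp [cwP] <;> norm_num
  · intro i hi
    have key : (i, cwM s1 i) ∈ [((0 : Fin 7), (2 : Fin 7)), (2, 0)] ∨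
        (s1 = 1 ∧ (i, cwM s1 i) ∈ [((4 : Fin 7), (5 : Fin 7)), (5, 4)]) := by
      rcases hs1 with rfl | rfl <;> revert i <;> decide
    simp only [List.mem_cons, Prod.mk.injEq, List.not_mem_nil, or_false] at key
    rcases key with (⟨hi1, hi2⟩ | ⟨hi1, hi2⟩) | ⟨hs, ⟨hi1, hi2⟩ | ⟨hi1, hi2⟩⟩ <;>
      rw [hi2, hi1] <;> simp [cwP] <;> norm_num
  · intro p hp hI i
    rw [mem_bx] at hp
    obtain ⟨⟨hp1, hp2⟩, ⟨hp3, hp4⟩, hp5, hp6⟩ := hp
    obtain ⟨A, y, z⟩ := p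
    simp only at hp1 hp2 hp3 hp4 hp5 hp6 hI
    have g2 : ((C.bad true ((cwF d s1 τ1 s2 τ2 2).f.ev (A, y, z))).card : ℝ) ≤ 0 * (2 * C.S) := by
      have e2 : (cwF d s1 τ1 s2 τ2 2).f.ev (A, y, z) = y + d := by simp [cwF, AF.ev]
      rw [e2, bad_label0 C _ (Or.inr (by omega))]
      simp
    have g4 : ((C.bad false ((cwF d s1 τ1 s2 τ2 4).f.ev (A, y, z))).card : ℝ) ≤
        (36 / 100) * (2 * C.S) := by
      have e4 : (cwF d s1 τ1 s2 τ2 4).f.ev (A, y, z) = A - (y + d) := by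
        simp [cwF, AF.ev]; ring
      rw [e4]
      exact bad_diff_low C _ (by omega)
    fin_cases i
    · exact bad_label C _
    · exact bad_label C _
    · exact g2
    · exact bad_diff C _
    · exact g4
    · exact bad_diff C _
    · exact bad_diff C _

/-- A good parameter is counted. -/
private theorem cw_of_good (C : RCtx) (ω : C.Om) (g : Fin 6) (hg : g ≠ 5) (o : Bool)
    (d a b c1 e1 c2 e2 s1 τ1 s2 τ2 : ℤ)
    (hs1 : s1 = 1 ∨ s1 = -1) (hs2 : s2 = 1 ∨ s2 = -1)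
    (hnb : ∀ A ∈ Icc a b, A ∈ C.It →
      NbT C.n (nbo C o (mOf C.n A)) A s1 τ1 ∧ NbT C.n (nbo C (!o) (mOf C.n A)) A s2 τ2)
    (ha : 251 * (C.n : ℤ) ≤ 100 * a) (hb : b ≤ 3 * C.n)
    (hc1 : 9 * (C.n : ℤ) ≤ 10 * c1) (he1 : 10 * e1 ≤ 21 * C.n)
    (hc2 : (C.n : ℤ) ≤ c2) (he2 : e2 ≤ 2 * C.n)
    (hd1 : 1 ≤ d) (hX1 : 201 * (C.n : ℤ) ≤ 100 * (c1 + d)) (hX2 : 1000 * (e1 + d) ≤ 2495 * C.n)
    (h3a : (C.n : ℤ) ≤ 10 * (c1 + d - e2)) (h3b : 10 * (e1 + d - c2) ≤ 13 * C.n)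
    (h4a : (C.n : ℤ) ≤ 10 * (a - e1 - d)) (h4b : 100 * (b - c1 - d) ≤ 84 * C.n)
    (h5a : s1 = 1 → b - τ1 - c1 ≤ 2 * C.n) (h5b : s1 = -1 → b + e1 - τ1 ≤ 2 * C.n)
    (hIA : ∀ A ∈ Icc a b, inI C.n (Env.covT g 6) (Env.covT g 7) A)
    (hIy : ∀ y ∈ Icc c1 e1, inI C.n (Env.covT g 2) (Env.covT g 3) y)
    (hIz : ∀ z ∈ Icc c2 e2, inI C.n (Env.covT g 4) (Env.covT g 5) z)
    (p : ℤ × ℤ × ℤ)
    (hp : p ∈ C.good (a, c1, c2) (b, e1, e2) C.It (cwF d s1 τ1 s2 τ2) cwB (cwM s1)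
      (cwX C.n C.k d s1 τ1 s2 τ2) ω) :
    ((C.env ω).covB g (mOf C.n p.1) o p.2.1 p.2.2 ∧
      (C.env ω).covG (C.env ω).AA g (mOf C.n p.1) p.2.1 p.2.2 d) ∧
      mOf C.n p.1 < C.n ∧ anc C.n (mOf C.n p.1) = p.1 ∧
      p.2.1 ∈ (C.env ω).PL ∧ p.2.2 ∈ (C.env ω).PL := by
  classical
  have hn := C.n_big'
  rw [RCtx.good, goodP, mem_filter, mem_bx] at hp
  obtain ⟨⟨⟨hp1, hp2⟩, ⟨hp3, hp4⟩, hp5, hp6⟩, hI, hex, hsub, hres⟩ := hp
  obtain ⟨A, y, z⟩ := p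
  simp only at hp1 hp2 hp3 hp4 hp5 hp6 hI
  obtain ⟨hN1, hN2⟩ := hnb A (mem_Icc.2 ⟨hp1, hp2⟩) hI
  obtain ⟨h1a, h1b, h1c, h1d⟩ := spoke_eq (y := y) hN1 (by omega) (by omega)
  obtain ⟨h2a, h2b, h2c, h2d⟩ := spoke_eq (y := z) hN2 (by omega) (by omega)
  have hIt := (C.mem_It A).1 hI
  have hA := hIt.2.2.1
  -- values
  have e0 : (cwF d s1 τ1 s2 τ2 0).f.ev (A, y, z) = y := by simp [cwF, AF.ev]
  have e1' : (cwF d s1 τ1 s2 τ2 1).f.ev (A, y, z) = z := by simp [cwF, AF.ev]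
  have e2' : (cwF d s1 τ1 s2 τ2 2).f.ev (A, y, z) = y + d := by simp [cwF, AF.ev]
  have e3 : (cwF d s1 τ1 s2 τ2 3).f.ev (A, y, z) = y + d - z := by
    simp [cwF, AF.ev]; ring
  have e4 : (cwF d s1 τ1 s2 τ2 4).f.ev (A, y, z) = A - (y + d) := by
    simp [cwF, AF.ev]; ring
  have e5 : (cwF d s1 τ1 s2 τ2 5).f.ev (A, y, z) =
      |y - anc C.n (nbo C o (mOf C.n A))| := by
    rw [h1a]
    simp [cwF, AF.ev]; ring
  have e6 : (cwF d s1 τ1 s2 τ2 6).f.ev (A, y, z) =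
      |z - anc C.n (nbo C (!o) (mOf C.n A))| := by
    rw [h2a]
    simp [cwF, AF.ev]; ring
  have hm56 : cwM s1 5 ≠ 6 := by rcases hs1 with rfl | rfl <;> decide
  have hm34 : cwM s1 3 ≠ 4 := by rcases hs1 with rfl | rfl <;> decide
  have hexm : ∀ L : List AF, (∀ X ∈ L, X ∈ cwX C.n C.k d s1 τ1 s2 τ2) →
      ∀ X ∈ L, ¬ (C.q : ℤ) ∣ X.ev (A, y, z) := fun L hL X hX => hex X (hL X hX)
  -- labels
  have hZ : ∀ i : Fin 7,
      (∀ X ∈ exL C.n (cwF d s1 τ1 s2 τ2 i).f, X ∈ cwX C.n C.k d s1 τ1 s2 τ2) →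
      505 * (C.n : ℤ) ≤ 1000 * (cwF d s1 τ1 s2 τ2 i).f.ev (A, y, z) →
      1000 * (cwF d s1 τ1 s2 τ2 i).f.ev (A, y, z) ≤ 2495 * C.n →
      (cwF d s1 τ1 s2 τ2 i).f.ev (A, y, z) ∈ zall C.n := by
    intro i hX hlo hhi
    exact zall_of C.n (by omega) _ hlo hhi (ne_of_exL (hexm _ hX))
  have hD : ∀ i : Fin 7,
      (∀ X ∈ exD C.n (cwF d s1 τ1 s2 τ2 i).f, X ∈ cwX C.n C.k d s1 τ1 s2 τ2) →
      1 ≤ (cwF d s1 τ1 s2 τ2 i).f.ev (A, y, z) →
      (cwF d s1 τ1 s2 τ2 i).f.ev (A, y, z) ≤ 2 * C.n →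
      (cwF d s1 τ1 s2 τ2 i).f.ev (A, y, z) ∈ dall C.n := by
    intro i hX hlo hhi
    obtain ⟨x1, x2, x3⟩ := ne_of_exD (hexm _ hX)
    exact dall_of C.n _ hlo hhi x1 x2 x3
  have hnr : (0 : ℝ) < C.n := by
    have : (0 : ℤ) < C.n := by omega
    exact_mod_cast this
  have m0 : y ∈ (C.env ω).PL := by
    have hz := hZ 0 (by simp +contextual [cwX]) (by rw [e0]; omega) (by rw [e0]; omega)
    have hr := hres 0
    rw [e0] at hz hr
    exact mem_PL C ω _ hz hr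
  have m1 : z ∈ (C.env ω).PL := by
    have hz := hZ 1 (by simp +contextual [cwX]) (by rw [e1']; omega) (by rw [e1']; omega)
    have hr := hres 1
    rw [e1'] at hz hr
    exact mem_PL C ω _ hz hr
  have m2 : y + d ∈ (C.env ω).LAM := by
    have hz := hZ 2 (by simp +contextual [cwX]) (by rw [e2']; omega) (by rw [e2']; omega)
    have hr := hres 2
    rw [e2'] at hz hr
    refine mem_LAM C ω _ hz (Or.inr ⟨?_, ?_⟩) hr
    · have : 201 * (C.n : ℤ) ≤ 100 * (y + d) := by omega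
      have h3 : 201 * (C.n : ℝ) ≤ 100 * ((y + d : ℤ) : ℝ) := by exact_mod_cast this
      linarith
    · have : 1000 * (y + d) ≤ 2495 * (C.n : ℤ) := by omega
      have h3 : 1000 * ((y + d : ℤ) : ℝ) ≤ 2495 * (C.n : ℝ) := by exact_mod_cast this
      linarith
  have m3 : y + d - z ∈ (C.env ω).AA := by
    have hz := hD 3 (by simp +contextual [cwX]) (by rw [e3]; omega) (by rw [e3]; omega)
    have hr := hres 3
    have hg := gd_of (q := C.q) (hexm (gdL C.n C.k (cwF d s1 τ1 s2 τ2 3).f)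
      (by simp +contextual [cwX]))
    rw [e3] at hz hr hg
    refine mem_AA C ω _ hz ⟨?_, ?_⟩ hg hr
    · have : (C.n : ℤ) ≤ 10 * (y + d - z) := by omega
      have h3 : (C.n : ℝ) ≤ 10 * ((y + d - z : ℤ) : ℝ) := by exact_mod_cast this
      linarith
    · have : 10 * (y + d - z) ≤ 13 * (C.n : ℤ) := by omega
      have h3 : 10 * ((y + d - z : ℤ) : ℝ) ≤ 13 * (C.n : ℝ) := by exact_mod_cast this
      linarith
  have m4 : A - (y + d) ∈ (C.env ω).AA := by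
    have hz := hD 4 (by simp +contextual [cwX]) (by rw [e4]; omega) (by rw [e4]; omega)
    have hr := hres 4
    have hg := gd_of (q := C.q) (hexm (gdL C.n C.k (cwF d s1 τ1 s2 τ2 4).f)
      (by simp +contextual [cwX]))
    rw [e4] at hz hr hg
    refine mem_AA C ω _ hz ⟨?_, ?_⟩ hg hr
    · have : (C.n : ℤ) ≤ 10 * (A - (y + d)) := by omega
      have h3 : (C.n : ℝ) ≤ 10 * ((A - (y + d) : ℤ) : ℝ) := by exact_mod_cast this
      linarith
    · have : 10 * (A - (y + d)) ≤ 13 * (C.n : ℤ) := by omega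
      have h3 : 10 * ((A - (y + d) : ℤ) : ℝ) ≤ 13 * (C.n : ℝ) := by exact_mod_cast this
      linarith
  have m5 : |y - anc C.n (nbo C o (mOf C.n A))| ∈ (C.env ω).PD := by
    have hup : |y - anc C.n (nbo C o (mOf C.n A))| ≤ 2 * C.n := by
      rw [h1a]
      rcases hs1 with rfl | rfl
      · have := h5a rfl; omega
      · have := h5b rfl; omega
    have hz := hD 5 (by simp +contextual [cwX]) (by rw [e5, h1a]; omega) (by rw [e5]; exact hup)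
    have hr := hres 5
    rw [e5] at hz hr
    exact mem_PD C ω _ hz hup hr
  have m6 : |z - anc C.n (nbo C (!o) (mOf C.n A))| ∈ (C.env ω).PD := by
    have hup : |z - anc C.n (nbo C (!o) (mOf C.n A))| ≤ 2 * C.n := by
      rw [h2a]
      rcases hs2 with hs | hs
      · have := h2c hs; omega
      · have := h2d hs; omega
    have hz := hD 6 (by simp +contextual [cwX]) (by rw [e6, h2a]; omega) (by rw [e6]; exact hup)
    have hr := hres 6
    rw [e6] at hz hr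
    exact mem_PD C ω _ hz hup hr
  have n56 : (cwF d s1 τ1 s2 τ2 5).f.ev (A, y, z) ≠ (cwF d s1 τ1 s2 τ2 6).f.ev (A, y, z) :=
    ne_of_sub rfl (hsub 5 6 (by decide) hm56)
  have n34 : (cwF d s1 τ1 s2 τ2 3).f.ev (A, y, z) ≠ (cwF d s1 τ1 s2 τ2 4).f.ev (A, y, z) :=
    ne_of_sub rfl (hsub 3 4 (by decide) hm34)
  rw [e5, e6] at n56
  rw [e3, e4] at n34
  have x1 : ¬ (C.q : ℤ) ∣ A - y := by
    have := hex ⟨1, -1, 0, 0⟩ (by simp [cwX])
    simpa [AF.ev, sub_eq_add_neg] using this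
  have x2 : ¬ (C.q : ℤ) ∣ A - z := by
    have := hex ⟨1, 0, -1, 0⟩ (by simp [cwX])
    simpa [AF.ev, sub_eq_add_neg] using this
  have x3 : ¬ (C.q : ℤ) ∣ y - z := by
    have := hex ⟨0, 1, -1, 0⟩ (by simp [cwX])
    simpa [AF.ev, sub_eq_add_neg] using this
  have a3 : |y + d - z| = y + d - z := abs_of_nonneg (by omega)
  have a4 : |y + d - A| = A - (y + d) := by
    rw [abs_of_nonpos (by omega)]; ring
  refine ⟨⟨?_, ?_⟩, hIt.2.2.2.1, hA, m0, m1⟩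
  · refine ⟨C.pureItem_of_It ω A hI, ?_, hIy y (mem_Icc.2 ⟨hp3, hp4⟩),
      hIz z (mem_Icc.2 ⟨hp5, hp6⟩), m0, m1, m5, m6, n56, ?_⟩
    · show inI C.n (Env.covT g 6) (Env.covT g 7) (anc C.n (mOf C.n A))
      rw [hA]
      exact hIA A (mem_Icc.2 ⟨hp1, hp2⟩)
    · show ¬ (C.q : ℤ) ∣ anc C.n (mOf C.n A) - y ∧ ¬ (C.q : ℤ) ∣ anc C.n (mOf C.n A) - z ∧
        ¬ (C.q : ℤ) ∣ y - z
      rw [hA]
      exact ⟨x1, x2, x3⟩
  · have hX : (C.env ω).covX g (mOf C.n A) y d = y + d := by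
      unfold Env.covX
      rw [if_neg hg]
    have hD2 : (C.env ω).covD2 g (mOf C.n A) y z d = (y + d - z, A - (y + d)) := by
      unfold Env.covD2
      rw [if_neg hg, hX]
      show (|y + d - z|, |y + d - anc C.n (mOf C.n A)|) = _
      rw [hA, a3, a4]
    show (C.env ω).covX g (mOf C.n A) y d ∈ (C.env ω).LAM ∧
      ((C.env ω).covD2 g (mOf C.n A) y z d).1 ∈ (C.env ω).AA ∧
      ((C.env ω).covD2 g (mOf C.n A) y z d).2 ∈ (C.env ω).AA ∧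
      ((C.env ω).covD2 g (mOf C.n A) y z d).1 ≠ ((C.env ω).covD2 g (mOf C.n A) y z d).2
    rw [hX, hD2]
    exact ⟨m2, m3, m4, n34⟩

/-- The probability bound for explicit intervals. -/
private theorem cw_pr (C : RCtx) (g : Fin 6) (hg : g ≠ 5) (o : Bool)
    (d a b c1 e1 c2 e2 s1 τ1 s2 τ2 : ℤ)
    (hs1 : s1 = 1 ∨ s1 = -1) (hs2 : s2 = 1 ∨ s2 = -1)
    (hnb : ∀ A ∈ Icc a b, A ∈ C.It →
      NbT C.n (nbo C o (mOf C.n A)) A s1 τ1 ∧ NbT C.n (nbo C (!o) (mOf C.n A)) A s2 τ2)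
    (ha : 251 * (C.n : ℤ) ≤ 100 * a) (hb : b ≤ 3 * C.n)
    (hab : (C.n : ℤ) ≤ 1000 * (b - a + 1))
    (hc1 : 9 * (C.n : ℤ) ≤ 10 * c1) (he1 : 10 * e1 ≤ 21 * C.n)
    (hce1 : (C.n : ℤ) ≤ 100 * (e1 - c1 + 1))
    (hc2 : (C.n : ℤ) ≤ c2) (he2 : e2 ≤ 2 * C.n)
    (hce2 : (C.n : ℤ) ≤ 100 * (e2 - c2 + 1))
    (hd1 : 1 ≤ d) (hX1 : 201 * (C.n : ℤ) ≤ 100 * (c1 + d)) (hX2 : 1000 * (e1 + d) ≤ 2495 * C.n)
    (h3a : (C.n : ℤ) ≤ 10 * (c1 + d - e2)) (h3b : 10 * (e1 + d - c2) ≤ 13 * C.n)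
    (h4a : (C.n : ℤ) ≤ 10 * (a - e1 - d)) (h4b : 100 * (b - c1 - d) ≤ 84 * C.n)
    (h5a : s1 = 1 → b - τ1 - c1 ≤ 2 * C.n) (h5b : s1 = -1 → b + e1 - τ1 ≤ 2 * C.n)
    (hτ : s1 = 1 → d ≠ τ1)
    (hIA : ∀ A ∈ Icc a b, inI C.n (Env.covT g 6) (Env.covT g 7) A)
    (hIy : ∀ y ∈ Icc c1 e1, inI C.n (Env.covT g 2) (Env.covT g 3) y)
    (hIz : ∀ z ∈ Icc c2 e2, inI C.n (Env.covT g 4) (Env.covT g 5) z) :
    Pr (fun ω : C.Om => ((C.env ω).covN g d : ℝ) < c1R C.K0 * (C.n : ℝ) ^ 3)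
      ≤ 2 * Real.exp (-(dG C.K0 * C.q)) := by
  classical
  have H := cw_fam C o d a b c1 e1 c2 e2 s1 τ1 s2 τ2 hs1 hs2 hnb ha hb hab hc1 he1 hce1 hc2 he2
    hce2 hd1 hX1 hX2 h3a h3b h4a h4b hτ
  have G := gc C.q C.K0 C.S C.E C.q_prime C.q_big C.bad (a, c1, c2) (b, e1, e2) C.It
    (cwF d s1 τ1 s2 τ2) cwB (cwM s1) (cwX C.n C.k d s1 τ1 s2 τ2) (cwT s1 s2) cwP H
  refine le_trans (Pr_mono ?_) G
  intro ω hω
  refine lt_of_le_of_lt ?_ (lt_of_lt_of_le hω ?_)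
  · -- the injection
    norm_cast
    refine Finset.card_le_card_of_injOn (fun p => (mOf C.n p.1, o, p.2.1, p.2.2)) ?_ ?_
    · intro p hp
      obtain ⟨h1, h2, h3, h4, h5⟩ := cw_of_good C ω g hg o d a b c1 e1 c2 e2 s1 τ1 s2 τ2 hs1 hs2
        hnb ha hb hc1 he1 hc2 he2 hd1 hX1 hX2 h3a h3b h4a h4b h5a h5b hIA hIy hIz p hp
      rw [mem_coe, mem_filter, mem_product, mem_product, mem_product]
      exact ⟨⟨mem_range.2 h2, mem_univ _, h4, h5⟩, h1⟩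
    · intro p hp p' hp' hpp
      obtain ⟨-, -, h3, -⟩ := cw_of_good C ω g hg o d a b c1 e1 c2 e2 s1 τ1 s2 τ2 hs1 hs2
        hnb ha hb hc1 he1 hc2 he2 hd1 hX1 hX2 h3a h3b h4a h4b h5a h5b hIA hIy hIz p hp
      obtain ⟨-, -, h3', -⟩ := cw_of_good C ω g hg o d a b c1 e1 c2 e2 s1 τ1 s2 τ2 hs1 hs2
        hnb ha hb hc1 he1 hc2 he2 hd1 hX1 hX2 h3a h3b h4a h4b h5a h5b hIA hIy hIz p' hp'
      simp only [Prod.mk.injEq] at hpp
      have q1 : p.1 = p'.1 := by rw [← h3, ← h3', hpp.1]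
      exact Prod.ext q1 (Prod.ext hpp.2.2.1 hpp.2.2.2)
  · rw [card_bx _ _ H.le1 H.le2 H.le3]
    have hK : (0 : ℝ) < C.K0 := by exact_mod_cast Nat.pos_of_ne_zero C.nK.out
    have hg : 0 < cG C.K0 := by unfold cG gam; positivity
    have r1 : (C.n : ℝ) / 1000 ≤ ((b - a + 1 : ℤ) : ℝ) := by
      have : (C.n : ℝ) ≤ 1000 * ((b - a + 1 : ℤ) : ℝ) := by exact_mod_cast hab
      linarith
    have r2 : (C.n : ℝ) / 100 ≤ ((e1 - c1 + 1 : ℤ) : ℝ) := by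
      have : (C.n : ℝ) ≤ 100 * ((e1 - c1 + 1 : ℤ) : ℝ) := by exact_mod_cast hce1
      linarith
    have r2' : (C.n : ℝ) / 100 ≤ ((e2 - c2 + 1 : ℤ) : ℝ) := by
      have : (C.n : ℝ) ≤ 100 * ((e2 - c2 + 1 : ℤ) : ℝ) := by exact_mod_cast hce2
      linarith
    have r3 : (C.n : ℝ) / 1000 * ((C.n : ℝ) / 100) * ((C.n : ℝ) / 100) ≤
        ((b - a + 1 : ℤ) : ℝ) * ((e1 - c1 + 1 : ℤ) : ℝ) * ((e2 - c2 + 1 : ℤ) : ℝ) := by
      have r4 : (C.n : ℝ) / 1000 * ((C.n : ℝ) / 100) ≤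
          ((b - a + 1 : ℤ) : ℝ) * ((e1 - c1 + 1 : ℤ) : ℝ) := mul_le_mul r1 r2 (by positivity)
            (le_trans (by positivity) r1)
      exact mul_le_mul r4 r2' (by positivity) (le_trans (by positivity) r4)
    have r4 : c1R C.K0 * (C.n : ℝ) ^ 3 ≤
        cG C.K0 * ((C.n : ℝ) / 1000 * ((C.n : ℝ) / 100) * ((C.n : ℝ) / 100)) := by
      unfold c1R
      have : 0 ≤ cG C.K0 * (C.n : ℝ) ^ 3 := by positivity
      nlinarith
    refine r4.trans (mul_le_mul_of_nonneg_left ?_ hg.le)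
    simpa using r3

/-- real interval conditions from integer ones -/
private theorem inI_of {n : ℕ} {a b : ℝ} {x : ℤ} (p q r : ℤ) (hr : 0 < r) (ha : a * r = p)
    (hb : b * r = q) (h1 : p * (n : ℤ) ≤ r * x) (h2 : r * x ≤ q * (n : ℤ)) : inI n a b x := by
  have hr' : (0 : ℝ) < r := by exact_mod_cast hr
  have h1' : (p : ℝ) * n ≤ r * x := by exact_mod_cast h1
  have h2' : (r : ℝ) * x ≤ q * n := by exact_mod_cast h2
  constructor
  · rw [← ha] at h1'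
    have : (r : ℝ) * (a * n) ≤ r * x := by linarith
    exact le_of_mul_le_mul_left this hr'
  · rw [← hb] at h2'
    have : (r : ℝ) * x ≤ r * (b * n) := by linarith
    exact le_of_mul_le_mul_left this hr'

/-- integer conditions from real intervals -/
private theorem int_of {n : ℕ} {a b : ℝ} {x : ℤ} (p q r : ℤ) (hr : 0 < r) (ha : a * r = p)
    (hb : b * r = q) (h : inI n a b x) : p * (n : ℤ) ≤ r * x ∧ r * x ≤ q * (n : ℤ) := by
  have hr' : (0 : ℝ) < r := by exact_mod_cast hr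
  obtain ⟨h1, h2⟩ := h
  constructor
  · have : (p : ℝ) * n ≤ r * x := by
      rw [← ha]
      have := mul_le_mul_of_nonneg_left h1 hr'.le
      linarith
    exact_mod_cast this
  · have : (r : ℝ) * x ≤ q * n := by
      rw [← hb]
      have := mul_le_mul_of_nonneg_left h2 hr'.le
      linarith
    exact_mod_cast this

/-- the zone `o = true` -/
private theorem cw_M (C : RCtx) (g : Fin 6) (hg : g ≠ 5) (d c1 e1 c2 e2 : ℤ)
    (hc1 : 9 * (C.n : ℤ) ≤ 10 * c1) (he1 : 10 * e1 ≤ 21 * C.n)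
    (hce1 : (C.n : ℤ) ≤ 100 * (e1 - c1 + 1))
    (hc2 : (C.n : ℤ) ≤ c2) (he2 : e2 ≤ 2 * C.n)
    (hce2 : (C.n : ℤ) ≤ 100 * (e2 - c2 + 1))
    (hd1 : 1 ≤ d) (hX1 : 201 * (C.n : ℤ) ≤ 100 * (c1 + d)) (hX2 : 1000 * (e1 + d) ≤ 2495 * C.n)
    (h3a : (C.n : ℤ) ≤ 10 * (c1 + d - e2)) (h3b : 10 * (e1 + d - c2) ≤ 13 * C.n)
    (hk : C.k % 2 = 1 ∨ 35 * (C.n : ℤ) ≤ 100 * d)
    (hIA : ∀ A : ℤ, 260 * (C.n : ℤ) ≤ 100 * A → 100 * A ≤ 285 * C.n →
      inI C.n (Env.covT g 6) (Env.covT g 7) A)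
    (hIy : ∀ y ∈ Icc c1 e1, inI C.n (Env.covT g 2) (Env.covT g 3) y)
    (hIz : ∀ z ∈ Icc c2 e2, inI C.n (Env.covT g 4) (Env.covT g 5) z) :
    Pr (fun ω : C.Om => ((C.env ω).covN g d : ℝ) < c1R C.K0 * (C.n : ℝ) ^ 3)
      ≤ 2 * Real.exp (-(dG C.K0 * C.q)) := by
  have hn := C.n_big'
  have hk1 := C.base.k_pos
  have hk2 := C.base.k_lt
  obtain ⟨a, b, s1, τ1, s2, τ2, ha0, hab, hb1, hlen, hs1, hs2, hτ1, hτ2, hex, hN⟩ :=
    zoneM C.n C.k hk1 hk2 (276 * (C.n : ℤ) / 100 + 1) (285 * (C.n : ℤ) / 100) (by omega)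
      (by omega) (by omega) (by omega)
  refine cw_pr C g hg true d a b c1 e1 c2 e2 s1 τ1 s2 τ2 hs1 hs2 ?_ (by omega) (by omega)
    (by omega) hc1 he1 hce1 hc2 he2 hce2 hd1 hX1 hX2 h3a h3b (by omega) (by omega)
    (by omega) (by omega) (by omega) ?_ hIy hIz
  · intro A hA hI
    obtain ⟨-, -, n1, n2⟩ := hN A hA
    obtain ⟨p1, p2⟩ := C.not_spec_of_It A hI
    exact ⟨n1 p1, n2 p2⟩
  · intro A hA
    rw [mem_Icc] at hA
    exact hIA A (by omega) (by omega)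

/-- the zone `o = false`, `k` even -/
private theorem cw_P (C : RCtx) (g : Fin 6) (hg : g ≠ 5) (d c1 e1 c2 e2 : ℤ)
    (hc1 : 201 * (C.n : ℤ) ≤ 100 * c1) (he1 : 10 * e1 ≤ 21 * C.n)
    (hce1 : (C.n : ℤ) ≤ 100 * (e1 - c1 + 1))
    (hc2 : 13 * (C.n : ℤ) ≤ 10 * c2) (he2 : 10 * e2 ≤ 14 * C.n)
    (hce2 : (C.n : ℤ) ≤ 100 * (e2 - c2 + 1))
    (hd1 : 1 ≤ d) (hd2 : 100 * d ≤ 35 * (C.n : ℤ)) (hk : C.k % 2 = 0)
    (hIA : ∀ A : ℤ, 260 * (C.n : ℤ) ≤ 100 * A → 100 * A ≤ 285 * C.n →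
      inI C.n (Env.covT g 6) (Env.covT g 7) A)
    (hIy : ∀ y ∈ Icc c1 e1, inI C.n (Env.covT g 2) (Env.covT g 3) y)
    (hIz : ∀ z ∈ Icc c2 e2, inI C.n (Env.covT g 4) (Env.covT g 5) z) :
    Pr (fun ω : C.Om => ((C.env ω).covN g d : ℝ) < c1R C.K0 * (C.n : ℝ) ^ 3)
      ≤ 2 * Real.exp (-(dG C.K0 * C.q)) := by
  have hn := C.n_big'
  have hk1 := C.base.k_pos
  have hk2 := C.base.k_lt
  obtain ⟨a, b, s1, τ1, s2, τ2, ha0, hab, hb1, hlen, hs1, hs2, hτ1, hτ2, hex, hN⟩ :=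
    zoneP C.n C.k hk1 hk2 (260 * (C.n : ℤ) / 100 + 1) (275 * (C.n : ℤ) / 100) (by omega)
      (by omega) (by omega) (by omega)
  refine cw_pr C g hg false d a b c1 e1 c2 e2 s2 τ2 s1 τ1 hs2 hs1 ?_ (by omega) (by omega)
    (by omega) (by omega) he1 hce1 (by omega) (by omega) hce2 hd1 (by omega) (by omega)
    (by omega) (by omega) (by omega) (by omega)
    (by omega) (by omega) (by omega) ?_ hIy hIz
  · intro A hA hI
    obtain ⟨-, -, n1, n2⟩ := hN A hA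
    obtain ⟨p1, p2⟩ := C.not_spec_of_It A hI
    exact ⟨n2 p2, n1 p1⟩
  · intro A hA
    rw [mem_Icc] at hA
    exact hIA A (by omega) (by omega)

theorem r_cov (C : RCtx) (g : Fin 6) (hg : g ≠ 5) (d : ℤ) (hd : d ∈ dall C.n)
    (hd1 : inI C.n (Env.covT g 0) (Env.covT g 1) d) :
    Pr (fun ω : C.Om => ((C.env ω).covN g d : ℝ) < c1R C.K0 * (C.n : ℝ) ^ 3)
      ≤ 2 * Real.exp (-(dG C.K0 * C.q)) := by
  have hn := C.n_big'
  have i1 : 1 ≤ d := by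
    unfold dall at hd
    split_ifs at hd with hp
    · exact (mem_Icc.1 (mem_of_mem_erase (mem_of_mem_erase hd))).1
    · exact (mem_Icc.1 (mem_of_mem_erase hd)).1
  have hIA : ∀ A : ℤ, 260 * (C.n : ℤ) ≤ 100 * A → 100 * A ≤ 285 * C.n →
      inI C.n (26 / 10) (285 / 100) A := fun A h1 h2 =>
    inI_of 260 285 100 (by norm_num) (by norm_num) (by norm_num) h1 h2
  match g, hg, hd1 with
  | 0, _, hd1 =>
    have hd2 : inI C.n 0 (35 / 100) d := hd1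
    obtain ⟨j1, j2⟩ := int_of 0 35 100 (by norm_num) (by norm_num) (by norm_num) hd2
    have hIy : ∀ y ∈ Icc (201 * (C.n : ℤ) / 100 + 1) (21 * (C.n : ℤ) / 10),
        inI C.n 2 (21 / 10) y := fun y hy => by
      rw [mem_Icc] at hy
      exact inI_of 20 21 10 (by norm_num) (by norm_num) (by norm_num) (by omega) (by omega)
    have hIz : ∀ y ∈ Icc (13 * (C.n : ℤ) / 10 + 1) (14 * (C.n : ℤ) / 10),
        inI C.n (13 / 10) (14 / 10) y := fun y hy => by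
      rw [mem_Icc] at hy
      exact inI_of 13 14 10 (by norm_num) (by norm_num) (by norm_num) (by omega) (by omega)
    rcases Nat.mod_two_eq_zero_or_one C.k with hk | hk
    · exact cw_P C 0 (by decide) d _ _ _ _ (by omega) (by omega) (by omega) (by omega) (by omega)
        (by omega) i1 (by omega) hk hIA hIy hIz
    · exact cw_M C 0 (by decide) d _ _ _ _ (by omega) (by omega) (by omega) (by omega) (by omega)
        (by omega) i1 (by omega) (by omega) (by omega) (by omega) (Or.inl hk) hIA hIy hIz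
  | 1, _, hd1 =>
    have hd2 : inI C.n (35 / 100) (8 / 10) d := hd1
    obtain ⟨j1, j2⟩ := int_of 35 80 100 (by norm_num) (by norm_num) (by norm_num) hd2
    have hIy : ∀ y ∈ Icc (166 * (C.n : ℤ) / 100 + 1) (168 * (C.n : ℤ) / 100),
        inI C.n (165 / 100) (168 / 100) y := fun y hy => by
      rw [mem_Icc] at hy
      exact inI_of 165 168 100 (by norm_num) (by norm_num) (by norm_num) (by omega) (by omega)
    have hIz : ∀ y ∈ Icc (13 * (C.n : ℤ) / 10 + 1) (14 * (C.n : ℤ) / 10),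
        inI C.n (13 / 10) (14 / 10) y := fun y hy => by
      rw [mem_Icc] at hy
      exact inI_of 13 14 10 (by norm_num) (by norm_num) (by norm_num) (by omega) (by omega)
    exact cw_M C 1 (by decide) d _ _ _ _ (by omega) (by omega) (by omega) (by omega) (by omega)
        (by omega) i1 (by omega) (by omega) (by omega) (by omega) (Or.inr (by omega)) hIA hIy hIz
  | 2, _, hd1 =>
    have hd2 : inI C.n (8 / 10) (125 / 100) d := hd1
    obtain ⟨j1, j2⟩ := int_of 80 125 100 (by norm_num) (by norm_num) (by norm_num) hd2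
    have hIy : ∀ y ∈ Icc (121 * (C.n : ℤ) / 100 + 1) (123 * (C.n : ℤ) / 100),
        inI C.n (12 / 10) (123 / 100) y := fun y hy => by
      rw [mem_Icc] at hy
      exact inI_of 120 123 100 (by norm_num) (by norm_num) (by norm_num) (by omega) (by omega)
    have hIz : ∀ y ∈ Icc (14 * (C.n : ℤ) / 10 + 1) (15 * (C.n : ℤ) / 10),
        inI C.n (14 / 10) (15 / 10) y := fun y hy => by
      rw [mem_Icc] at hy
      exact inI_of 14 15 10 (by norm_num) (by norm_num) (by norm_num) (by omega) (by omega)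
    exact cw_M C 2 (by decide) d _ _ _ _ (by omega) (by omega) (by omega) (by omega) (by omega)
        (by omega) i1 (by omega) (by omega) (by omega) (by omega) (Or.inr (by omega)) hIA hIy hIz
  | 3, _, hd1 =>
    have hd2 : inI C.n (125 / 100) (145 / 100) d := hd1
    obtain ⟨j1, j2⟩ := int_of 125 145 100 (by norm_num) (by norm_num) (by norm_num) hd2
    have hIy : ∀ y ∈ Icc ((C.n : ℤ) + 1) (104 * (C.n : ℤ) / 100),
        inI C.n 1 (104 / 100) y := fun y hy => by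
      rw [mem_Icc] at hy
      exact inI_of 100 104 100 (by norm_num) (by norm_num) (by norm_num) (by omega) (by omega)
    have hIz : ∀ y ∈ Icc (14 * (C.n : ℤ) / 10 + 1) (15 * (C.n : ℤ) / 10),
        inI C.n (14 / 10) (15 / 10) y := fun y hy => by
      rw [mem_Icc] at hy
      exact inI_of 14 15 10 (by norm_num) (by norm_num) (by norm_num) (by omega) (by omega)
    exact cw_M C 3 (by decide) d _ _ _ _ (by omega) (by omega) (by omega) (by omega) (by omega)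
        (by omega) i1 (by omega) (by omega) (by omega) (by omega) (Or.inr (by omega)) hIA hIy hIz
  | 4, _, hd1 =>
    have hd2 : inI C.n (145 / 100) (155 / 100) d := hd1
    obtain ⟨j1, j2⟩ := int_of 145 155 100 (by norm_num) (by norm_num) (by norm_num) hd2
    have hIy : ∀ y ∈ Icc (9 * (C.n : ℤ) / 10 + 1) (94 * (C.n : ℤ) / 100),
        inI C.n (9 / 10) (94 / 100) y := fun y hy => by
      rw [mem_Icc] at hy
      exact inI_of 90 94 100 (by norm_num) (by norm_num) (by norm_num) (by omega) (by omega)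
    have hIz : ∀ y ∈ Icc (14 * (C.n : ℤ) / 10 + 1) (15 * (C.n : ℤ) / 10),
        inI C.n (14 / 10) (15 / 10) y := fun y hy => by
      rw [mem_Icc] at hy
      exact inI_of 14 15 10 (by norm_num) (by norm_num) (by norm_num) (by omega) (by omega)
    exact cw_M C 4 (by decide) d _ _ _ _ (by omega) (by omega) (by omega) (by omega) (by omega)
        (by omega) i1 (by omega) (by omega) (by omega) (by omega) (Or.inr (by omega)) hIA hIy hIz
  | 5, hg, _ => exact absurd rfl hg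

end Pool.Agent.PGr
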