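import Pool.Agent.PGr.RAux

/-!
# PGr part R: the counts of Env.lean as numbers (all proved)
-/

noncomputable section

namespace Pool.Agent.PGr

open Finset

namespace Env

variable (E : Env)

open Classical in
/-- number of labels counted in `SV` -/
def svN (a z1 z2 : ℤ) : ℕ :=
  (E.PL.filter (fun y => inI E.n (11 / 10) (19 / 10) y ∧
      |y - a| ∈ E.PD ∧ |y - z1| ∈ E.PD ∧ |y - z2| ∈ E.PD ∧
      |y - a| ≠ |y - z1| ∧ |y - a| ≠ |y - z2| ∧ |y - z1| ≠ |y - z2|)).card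

theorem SV_iff (c1 : ℝ) : E.SV c1 ↔ ∀ a z1 z2 : ℤ, isAnc E.n a → inI E.n (9 / 10) (21 / 10) z1 →
    inI E.n (9 / 10) (21 / 10) z2 → E.inc3 a z1 z2 → c1 * E.n ≤ (E.svN a z1 z2 : ℝ) := Iff.rfl

/-- number of labels counted in `DEF` -/
def dfN (a z1 z2 : ℤ) (lo hi' : ℝ) : ℕ := (E.defSet E.AA lo hi' a z1 z2).card

theorem DEF_iff (c1 : ℝ) : E.DEF c1 ↔ ∀ (a z1 z2 : ℤ) (lo hi' : ℝ), E.inc3 a z1 z2 →
    E.defCase a z1 z2 lo hi' → c1 * E.n ≤ (E.dfN a z1 z2 lo hi' : ℝ) := Iff.rfl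

open Classical in
/-- number of parameters counted in `COV` -/
def covN (g : Fin 6) (d : ℤ) : ℕ :=
  (((range E.n) ×ˢ (univ : Finset Bool) ×ˢ E.PL ×ˢ E.PL).filter
      (fun p => E.covB g p.1 p.2.1 p.2.2.1 p.2.2.2 ∧
        E.covG E.AA g p.1 p.2.2.1 p.2.2.2 d)).card

theorem COV_iff (c1 : ℝ) : E.COV c1 ↔ ∀ (g : Fin 6) (d : ℤ), E.covD g d →
    c1 * (E.n : ℝ) ^ 3 ≤ (E.covN g d : ℝ) := Iff.rfl

open Classical in
/-- number of parameters counted in `TW1` -/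
def twN (d d' : ℤ) : ℕ := (((range E.n) ×ˢ E.PL).filter (fun p => E.tw1 d d' p.1 p.2)).card

theorem TW1_iff (c1 : ℝ) : E.TW1 c1 ↔ ∀ d d' : ℤ, inI E.n (7 / 100) (13 / 10) d →
    inI E.n (7 / 100) (13 / 10) d' → gd E.n E.k E.q d → gd E.n E.k E.q d' →
    ¬ (E.q : ℤ) ∣ d - d' → c1 * (E.n : ℝ) ^ 2 ≤ (E.twN d d' : ℝ) := Iff.rfl

open Classical in
/-- number of parameters counted in `EO` -/
def eoN (d : ℤ) : ℕ :=
  (((range E.n) ×ˢ E.PL ×ˢ E.PL).filter (fun p => E.eo d p.1 p.2.1 p.2.2)).card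

theorem EO_iff (c1 : ℝ) : E.EO c1 ↔ ∀ d : ℤ, inI E.n (1 / 10) (13 / 10) d → gd E.n E.k E.q d →
    c1 * (E.n : ℝ) ^ 3 ≤ (E.eoN d : ℝ) := Iff.rfl

end Env

end Pool.Agent.PGr
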