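import Mathlib
import Pool.Agent.PGr.Env
import Pool.Agent.PGr.McDSub

/-!
# PGr part R (random reservation, counting lemma): definitions

Parameters of a family = points of a box in `ℤ × ℤ × ℤ` (anchor of the item, two labels); labels and
differences of a gadget are affine forms of the parameter.
-/

noncomputable section

namespace Pool.Agent.PGr

open Finset

/-! ## Affine forms, boxes -/

/-- Affine form `a p₁ + b p₂ + c p₃ + g` on `ℤ × ℤ × ℤ`. -/
structure AF where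
  a : ℤ
  b : ℤ
  c : ℤ
  g : ℤ

/-- value of an affine form -/
def AF.ev (F : AF) (p : ℤ × ℤ × ℤ) : ℤ := F.a * p.1 + F.b * p.2.1 + F.c * p.2.2 + F.g

/-- slopes of an affine form -/
def AF.sl (F : AF) : ℤ × ℤ × ℤ := (F.a, F.b, F.c)

/-- `m F + c` -/
def AF.lin (F : AF) (m c : ℤ) : AF := ⟨m * F.a, m * F.b, m * F.c, m * F.g + c⟩

/-- A resource form: kind (`true` = label, `false` = difference) and an affine form. -/
structure RF where
  lab : Bool
  f : AF

/-- weight `1` for labels, `2` for differences -/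
def wt (l : Bool) : ℤ := if l then 1 else 2

/-- doubled slopes of a resource form: slopes of `2 red(unit)` -/
def RF.dsl (F : RF) : ℤ × ℤ × ℤ := (wt F.lab * F.f.a, wt F.lab * F.f.b, wt F.lab * F.f.c)

/-- the difference `2 red(unit F) - 2 red(unit G)` as an affine form -/
def RF.sub (F G : RF) : AF :=
  ⟨wt F.lab * F.f.a - wt G.lab * G.f.a, wt F.lab * F.f.b - wt G.lab * G.f.b,
    wt F.lab * F.f.c - wt G.lab * G.f.c, wt F.lab * F.f.g - wt G.lab * G.f.g⟩

/-- the box `[l, h]` -/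
def bx (l h : ℤ × ℤ × ℤ) : Finset (ℤ × ℤ × ℤ) := Icc l.1 h.1 ×ˢ Icc l.2.1 h.2.1 ×ˢ Icc l.2.2 h.2.2

/-- The slopes `t` are nonzero, bounded by `B`, and nonzero only in coordinates in which the box has
at least `q` points. -/
structure Fit (q : ℕ) (B : ℤ) (l h t : ℤ × ℤ × ℤ) : Prop where
  ne : t ≠ 0
  b1 : |t.1| ≤ B
  b2 : |t.2.1| ≤ B
  b3 : |t.2.2| ≤ B
  s1 : t.1 ≠ 0 → (q : ℤ) ≤ h.1 - l.1 + 1
  s2 : t.2.1 ≠ 0 → (q : ℤ) ≤ h.2.1 - l.2.1 + 1
  s3 : t.2.2 ≠ 0 → (q : ℤ) ≤ h.2.2 - l.2.2 + 1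

/-! ## The random reservation -/

/-- unit of a label or of a difference -/
def uOf (q : ℕ) (l : Bool) (x : ℤ) : ZMod (q ^ 2) := if l then unL q x else unD q x

/-- The coordinate of one unit: type, shift, bits of its labels and differences. -/
abbrev Om0 (K0 S E : ℕ) : Type := Fin K0 × ZMod (2 * S) × (Bool × Fin E → Bool)

/-- index of the bit of `x` -/
def bix (q E : ℕ) [NeZero E] (l : Bool) (x : ℤ) : Bool × Fin E :=
  (l, Fin.ofNat E (x / (q : ℤ) ^ 2).toNat)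

/-- The resource `(l, x)` is reserved (its unit has type 0), free (`bad l x` = shifts of its unit
for which it is occupied) and has the bit `β`. -/
def resv (q K0 S E : ℕ) [NeZero K0] [NeZero E] (bad : Bool → ℤ → Finset (ZMod (2 * S)))
    (ω : ZMod (q ^ 2) → Om0 K0 S E) (l : Bool) (x : ℤ) (β : Bool) : Prop :=
  (ω (uOf q l x)).1 = 0 ∧ (ω (uOf q l x)).2.1 ∉ bad l x ∧ (ω (uOf q l x)).2.2 (bix q E l x) = β

/-- lower bound for the probability that a unit is good -/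
def gam (K0 : ℕ) : ℝ := (3 / 100) / K0 * (1 / 2) ^ 12

/-- the density constant of the counting lemma -/
def cG (K0 : ℕ) : ℝ := (gam K0) ^ 12 / 10

/-- the rate constant of the counting lemma -/
def dG (K0 : ℕ) : ℝ := (gam K0) ^ 24 / 10000

open Classical in
/-- The generic good parameters of a family for the outcome `ω`: anchor in `It`, extra forms not
divisible by `q`, units of different resources (except mates) incongruent mod `q`, all resources
reserved and free with the prescribed bits. -/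
def goodP (q K0 S E : ℕ) [NeZero K0] [NeZero E] (bad : Bool → ℤ → Finset (ZMod (2 * S)))
    (l h : ℤ × ℤ × ℤ) (It : Finset ℤ) {a : ℕ} (F : Fin a → RF) (β : Fin a → Bool)
    (mate : Fin a → Fin a) (ex : List AF) (ω : ZMod (q ^ 2) → Om0 K0 S E) :
    Finset (ℤ × ℤ × ℤ) :=
  (bx l h).filter (fun p => p.1 ∈ It ∧ (∀ X ∈ ex, ¬ (q : ℤ) ∣ X.ev p) ∧
    (∀ i j, i ≠ j → mate i ≠ j → ¬ (q : ℤ) ∣ ((F i).sub (F j)).ev p) ∧
    ∀ i, resv q K0 S E bad ω (F i).lab ((F i).f.ev p) (β i))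

/-- Hypotheses of the counting lemma on a family. `mate` is an involution: mates are allowed to lie
in the same unit. `T` is the closed table of doubled slopes. `φ i` bounds the probability that the
resource `i` is occupied. -/
structure Fam (q S E : ℕ) (bad : Bool → ℤ → Finset (ZMod (2 * S))) (l h : ℤ × ℤ × ℤ)
    (It : Finset ℤ) {a : ℕ} (F : Fin a → RF) (mate : Fin a → Fin a) (ex : List AF)
    (T : Fin a → ℤ × ℤ × ℤ) (φ : Fin a → ℝ) : Prop where
  a_pos : 1 ≤ a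
  a_le : a ≤ 12
  b_le : ex.length ≤ 100
  le1 : l.1 ≤ h.1
  le2 : l.2.1 ≤ h.2.1
  le3 : l.2.2 ≤ h.2.2
  it : (2 / 5 : ℝ) * ((h.1 - l.1 + 1 : ℤ) : ℝ) ≤ (((Icc l.1 h.1).filter (· ∈ It)).card : ℝ)
  tab : ∀ i, (F i).dsl = T i
  fit : ∀ i, Fit q 8 l h (T i)
  fitx : ∀ X ∈ ex, Fit q 8 l h X.sl
  mm : ∀ i, mate (mate i) = i
  pair : ∀ i j, i < j → T i = T j → mate i ≠ j → ¬ (q : ℤ) ∣ ((F i).sub (F j)).g
  val : ∀ p ∈ bx l h, p.1 ∈ It → ∀ i, 0 ≤ (F i).f.ev p ∧ (F i).f.ev p < E * (q : ℤ) ^ 2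
  mval : ∀ p ∈ bx l h, p.1 ∈ It → ∀ i, mate i ≠ i →
    (F i).lab ≠ (F (mate i)).lab ∨ (F i).f.ev p ≠ (F (mate i)).f.ev p
  phi0 : ∀ i, 0 ≤ φ i
  phi1 : ∀ i, φ i ≤ 97 / 100
  phi2 : ∀ i, mate i ≠ i → φ i + φ (mate i) ≤ 97 / 100
  phib : ∀ p ∈ bx l h, p.1 ∈ It → ∀ i,
    ((bad (F i).lab ((F i).f.ev p)).card : ℝ) ≤ φ i * (2 * S)

/-! ## The context of part R -/

/-- exceptional units: of the exceptional label `3n/2` and of the differences not in `dall` -/
def excU (n q : ℕ) : Finset (ZMod (q ^ 2)) :=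
  {unL q (3 * ((n / 2 : ℕ) : ℤ)), unD q ((n : ℤ) + 1), unD q (3 * ((n / 2 : ℕ) : ℤ)),
    unD q (((n - 1) / 2 : ℕ) : ℤ)}

/-- the high vertex with anchor `A` -/
def mOf (n : ℕ) (A : ℤ) : ℕ := (2 * (3 * (n : ℤ) - A) + 1).toNat

/-- The context of part R. -/
structure RCtx where
  n : ℕ
  k : ℕ
  q : ℕ
  S : ℕ
  B0 : ℕ
  K0 : ℕ
  E : ℕ
  nq : NeZero q
  nS : NeZero S
  nK : NeZero K0
  nE : NeZero E
  base : Base n k q S B0
  Bk : Finset ℕ
  Ck : Finset ℕ
  Pk : Finset ℕ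
  col : Col n k q (1 / 10 ^ 6) Bk Ck Pk
  E_big : 3 * (n : ℤ) + 3 < E * (q : ℤ) ^ 2
  q_big : 10 ^ 4 ≤ q

namespace RCtx

variable (C : RCtx)

instance : NeZero C.q := C.nq
instance : NeZero C.S := C.nS
instance : NeZero C.K0 := C.nK
instance : NeZero C.E := C.nE

/-- the sample space -/
abbrev Om : Type := ZMod (C.q ^ 2) → Om0 C.K0 C.S C.E

open Classical in
/-- black vertices in `V_s` -/
def B1 : Finset ℕ := C.Bk.filter (fun i => inVS C.n C.q C.S C.B0 i)

/-- The environment of an outcome. -/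
def env (ω : C.Om) : Env where
  n := C.n
  k := C.k
  q := C.q
  S := C.S
  B0 := C.B0
  nq := C.nq
  nS := C.nS
  base := C.base
  Bk := C.Bk
  Ck := C.Ck
  Pk := C.Pk
  Res := univ.filter (fun u => (ω u).1 = 0) ∪ excU C.n C.q
  th0 := fun u => (ω u).2.1
  bL := fun x => (ω (unL C.q x)).2.2 (bix C.q C.E true x)
  bD := fun d => (ω (unD C.q d)).2.2 (bix C.q C.E false d)

open Classical in
/-- shifts of the unit of `(l, x)` for which `x` is occupied (used) -/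
def bad (l : Bool) (x : ℤ) : Finset (ZMod (2 * C.S)) :=
  univ.filter (fun t => ∃ i ∈ C.B1, un C.n C.q i = uOf C.q l x ∧
    (if l then Yl C.n C.q C.S C.B0 i t = x
      else |Yl C.n C.q C.S C.B0 i t - anc C.n i| = x))

/-- `m` is a high item with both neighbours in `B1`. -/
def pit (m : ℕ) : Prop :=
  m ∈ C.Ck ∧ hi C.n m = true ∧ nbp C.n C.k m ∈ C.B1 ∧ nbm C.n C.k m ∈ C.B1

open Classical in
/-- the anchors of the high pure items -/
def It : Finset ℤ :=
  (Icc 0 (3 * (C.n : ℤ))).filter (fun A => 5 * (C.n : ℤ) ≤ 2 * A ∧ anc C.n (mOf C.n A) = A ∧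
    mOf C.n A < C.n ∧ C.pit (mOf C.n A))

/-- the good parameters of a family -/
def good (l h : ℤ × ℤ × ℤ) (I : Finset ℤ) {a : ℕ} (F : Fin a → RF) (β : Fin a → Bool)
    (mate : Fin a → Fin a) (ex : List AF) (ω : C.Om) : Finset (ℤ × ℤ × ℤ) :=
  goodP C.q C.K0 C.S C.E C.bad l h I F β mate ex ω

end RCtx

/-! ## Extra forms -/

/-- forms whose nondivisibility gives `gd` for the difference `F` -/
def gdL (n k : ℕ) (F : AF) : List AF :=
  [F, F.lin 2 (-k), F.lin 2 k, F.lin 2 (-((n : ℤ) - k)), F.lin 2 ((n : ℤ) - k)]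

/-- forms whose nondivisibility excludes the exceptional differences -/
def exD (n : ℕ) (F : AF) : List AF :=
  [F.lin 1 (-((n : ℤ) + 1)), F.lin 1 (-(3 * ((n / 2 : ℕ) : ℤ))), F.lin 1 (-(((n - 1) / 2 : ℕ) : ℤ))]

/-- form whose nondivisibility excludes the exceptional label -/
def exL (n : ℕ) (F : AF) : List AF := [F.lin 1 (-(3 * ((n / 2 : ℕ) : ℤ)))]

/-- The neighbour `v` of the item with anchor `A` has type `s` (`1` high, `-1` low) and shift `τ`:
its spoke for the label `y` is `A - s y - τ`. -/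
def NbT (n : ℕ) (v : ℕ) (A s τ : ℤ) : Prop :=
  (s = 1 ∧ anc n v = A - τ ∧ 5 * (n : ℤ) ≤ 2 * (A - τ) ∧ A - τ ≤ 3 * n) ∨
  (s = -1 ∧ anc n v = τ - A ∧ 0 ≤ τ - A ∧ 2 * (τ - A) ≤ n)

/-- shifts of high neighbours -/
def TauOK (n k : ℕ) (τ : ℤ) : Prop :=
  2 * τ = k ∨ 2 * τ = -k ∨ 2 * τ = (n : ℤ) - k ∨ 2 * τ = -((n : ℤ) - k)

end Pool.Agent.PGr
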