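import Pool.Agent.PGr.RDefs

/-!
# PGr-R-Loc: probability that one unit is good

STATEMENT. A coordinate `w = (type, shift, bits)` is uniform in
`Om0 K0 S E = Fin K0 × ZMod (2S) × (Bool × Fin E → Bool)`.
For a set `J` of at most 12 resources of the unit with distinct bit indices and
`∑ |bad i| ≤ .97 * 2S` the probability that the type is 0, the shift avoids all `bad i` and all bits
are as prescribed is at least `gam K0 = (3/100)/K0 * (1/2)^12`.

PLAN. `Pr p = #{..}/card` (`Pr_eq_card` in PrProd). The set contains (equals) the product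
`{0} ×ˢ (univ \ ⋃_{i∈J} bd i) ×ˢ {b | ∀ i ∈ J, b (ix i) = β i}`.
* `#(univ \ J.biUnion bd) ≥ 2S - ∑ |bd i| ≥ (3/100) 2S` (`Finset.card_biUnion_le`,
  `Finset.le_card_sdiff`, `ZMod.card`).
* `#{b : I → Bool | ∀ i ∈ J, b (ix i) = β i} = 2^(|I| - |J|)`: with
  `A x := if ∃ i ∈ J, ix i = x then {β i} else univ` it is `Fintype.piFinset A`
  (`Fintype.card_piFinset`), product of the cardinalities; or use `Pr_pi_forall` for the uniform
  measure on `I → Bool` with the set `J.image ix`: probability `∏ = (1/2)^(#(J.image ix)) ≥ (1/2)^12`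
  (here `ix` injective on `J` makes the prescription consistent: the predicate on coordinate `x` is
  `fun b => ∀ i ∈ J, ix i = x → b = β i`, of probability ≥ 1/2 as at most one `i` matters).
* product of the three factors: `Ex_prod` from PrProd twice (indicator of a product = product of
  indicators), or cardinalities of products.
-/

namespace Pool.Agent.PGr

open Finset

private theorem Pr_prod_and {Ω₁ Ω₂ : Type*} [Fintype Ω₁] [Fintype Ω₂] (p : Ω₁ → Prop)
    (r : Ω₂ → Prop) : Pr (fun w : Ω₁ × Ω₂ => p w.1 ∧ r w.2) = Pr p * Pr r := by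
  classical
  unfold Pr
  rw [Ex_prod, ← Ex_mul_const]
  refine Ex_congr fun a => ?_
  rw [← Ex_const_mul]
  refine Ex_congr fun b => ?_
  by_cases ha : p a <;> by_cases hb : r b <;> simp [ha, hb]

private theorem Pr_fin_eq_zero (K : ℕ) [NeZero K] : Pr (fun a : Fin K => a = 0) = 1 / K := by
  classical
  rw [Pr_eq_card, Fintype.card_fin]
  congr 1
  have : (univ.filter fun a : Fin K => a = 0) = {0} := by
    ext a
    simp
  rw [this]
  simp

private theorem Pr_bool_eq (c : Bool) : Pr (fun v : Bool => v = c) = 1 / 2 := by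
  classical
  rw [Pr_eq_card]
  have : (univ.filter fun a : Bool => a = c) = {c} := by
    ext a
    simp
  rw [this]
  simp

private theorem Pr_bits {I : Type*} [Fintype I] [DecidableEq I] {a : ℕ} (ha : a ≤ 12)
    (J : Finset (Fin a)) (ix : Fin a → I) (β : Fin a → Bool) (hinj : Set.InjOn ix J) :
    (1 / 2 : ℝ) ^ 12 ≤ Pr (fun b : I → Bool => ∀ i ∈ J, b (ix i) = β i) := by
  classical
  have e : (fun b : I → Bool => ∀ i ∈ J, b (ix i) = β i) =
      fun b : I → Bool => ∀ x ∈ J.image ix, ∀ i ∈ J, ix i = x → b x = β i := by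
    funext b
    apply propext
    constructor
    · intro h x _ i hi hx
      rw [← hx]
      exact h i hi
    · intro h i hi
      exact h (ix i) (mem_image_of_mem ix hi) i hi rfl
  rw [e, Pr_pi_forall (J.image ix) (fun x v => ∀ i ∈ J, ix i = x → v = β i)]
  have h1 : ∀ x ∈ J.image ix, (1 / 2 : ℝ) ≤ Pr (fun v : Bool => ∀ i ∈ J, ix i = x → v = β i) := by
    intro x hx
    obtain ⟨i0, hi0, rfl⟩ := mem_image.1 hx
    rw [← Pr_bool_eq (β i0)]
    refine Pr_mono fun v hv i hi hix => ?_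
    rw [hinj hi hi0 hix]
    exact hv
  have h2 : ∏ _x ∈ J.image ix, (1 / 2 : ℝ) ≤
      ∏ x ∈ J.image ix, Pr (fun v : Bool => ∀ i ∈ J, ix i = x → v = β i) :=
    prod_le_prod (fun _ _ => by norm_num) h1
  refine le_trans ?_ h2
  rw [prod_const]
  refine pow_le_pow_of_le_one (by norm_num) (by norm_num) ?_
  calc (J.image ix).card ≤ J.card := card_image_le
    _ ≤ a := by simpa using card_le_univ J
    _ ≤ 12 := ha

private theorem Pr_avoid {S : ℕ} [NeZero S] {a : ℕ}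
    (J : Finset (Fin a)) (bd : Fin a → Finset (ZMod (2 * S)))
    (hs : ∑ i ∈ J, ((bd i).card : ℝ) ≤ (97 / 100) * (2 * S)) :
    (3 / 100 : ℝ) ≤ Pr (fun t : ZMod (2 * S) => ∀ i ∈ J, t ∉ bd i) := by
  classical
  have e : (fun t : ZMod (2 * S) => ∀ i ∈ J, t ∉ bd i) =
      fun t : ZMod (2 * S) => ¬ ∃ i ∈ J, t ∈ bd i := by
    funext t
    apply propext
    push Not
    rfl
  have hS : (0 : ℝ) < S := by
    exact_mod_cast Nat.pos_of_ne_zero (NeZero.ne S)
  rw [e, Pr_not]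
  have h1 := Pr_exists_le J (fun i (t : ZMod (2 * S)) => t ∈ bd i)
  have h2 : ∑ i ∈ J, Pr (fun t : ZMod (2 * S) => t ∈ bd i) ≤ 97 / 100 := by
    have h3 : ∀ i ∈ J, Pr (fun t : ZMod (2 * S) => t ∈ bd i) = ((bd i).card : ℝ) / (2 * S) := by
      intro i _
      rw [Pr_mem, ZMod.card]
      push_cast
      rfl
    rw [sum_congr rfl h3, ← sum_div, div_le_iff₀ (by positivity)]
    exact hs
  linarith

theorem local_pr (K0 S E : ℕ) [NeZero K0] [NeZero S] [NeZero E] {a : ℕ} (ha : a ≤ 12)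
    (J : Finset (Fin a)) (bd : Fin a → Finset (ZMod (2 * S))) (ix : Fin a → Bool × Fin E)
    (β : Fin a → Bool) (hinj : Set.InjOn ix J)
    (hs : ∑ i ∈ J, ((bd i).card : ℝ) ≤ (97 / 100) * (2 * S)) :
    gam K0 ≤ Pr (fun w : Om0 K0 S E => w.1 = 0 ∧ (∀ i ∈ J, w.2.1 ∉ bd i) ∧
      ∀ i ∈ J, w.2.2 (ix i) = β i) := by
  have e1 : Pr (fun w : Om0 K0 S E => w.1 = 0 ∧ (∀ i ∈ J, w.2.1 ∉ bd i) ∧
      ∀ i ∈ J, w.2.2 (ix i) = β i) = Pr (fun k : Fin K0 => k = 0) *
        Pr (fun v : ZMod (2 * S) × (Bool × Fin E → Bool) => (∀ i ∈ J, v.1 ∉ bd i) ∧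
          ∀ i ∈ J, v.2 (ix i) = β i) :=
    Pr_prod_and (fun k : Fin K0 => k = 0)
      (fun v : ZMod (2 * S) × (Bool × Fin E → Bool) => (∀ i ∈ J, v.1 ∉ bd i) ∧
          ∀ i ∈ J, v.2 (ix i) = β i)
  have e2 : Pr (fun v : ZMod (2 * S) × (Bool × Fin E → Bool) => (∀ i ∈ J, v.1 ∉ bd i) ∧
          ∀ i ∈ J, v.2 (ix i) = β i) = Pr (fun t : ZMod (2 * S) => ∀ i ∈ J, t ∉ bd i) *
        Pr (fun b : Bool × Fin E → Bool => ∀ i ∈ J, b (ix i) = β i) :=
    Pr_prod_and (fun t : ZMod (2 * S) => ∀ i ∈ J, t ∉ bd i)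
      (fun b : Bool × Fin E → Bool => ∀ i ∈ J, b (ix i) = β i)
  rw [e1, e2, Pr_fin_eq_zero]
  have h1 := Pr_avoid J bd hs
  have h2 := Pr_bits ha J ix β hinj
  have hK : (0 : ℝ) < K0 := by
    exact_mod_cast Nat.pos_of_ne_zero (NeZero.ne K0)
  have h3 : (3 / 100 : ℝ) * (1 / 2) ^ 12 ≤
      Pr (fun t : ZMod (2 * S) => ∀ i ∈ J, t ∉ bd i) *
        Pr (fun b : Bool × Fin E → Bool => ∀ i ∈ J, b (ix i) = β i) :=
    mul_le_mul h1 h2 (by positivity) (Pr_nonneg _)
  have h4 : gam K0 = 1 / (K0 : ℝ) * ((3 / 100 : ℝ) * (1 / 2) ^ 12) := by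
    unfold gam
    field_simp
  rw [h4]
  exact mul_le_mul_of_nonneg_left h3 (by positivity)

end Pool.Agent.PGr
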