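import Pool.Agent.PGr.RZero

/-!
# PGr-R-P0: almost all parameters are generic

STATEMENT. For a family satisfying `Fam` the generic parameters `P0` (anchor in `It`, no extra
form divisible by `q`, no two non-mates congruent) are at least `3/10` of the box.

PLAN.
* `#{p ∈ bx : p.1 ∈ It} ≥ (2/5) #bx`: `bx` is the product of three intervals, the filter is
  `((Icc l.1 h.1).filter (· ∈ It)) ×ˢ ..`, use `Fam.it` and `Int.card_Icc` (`le1`).
* for `X ∈ ex`: `zero_box` with `B = 8` (8 < q): at most `2 #bx / q` parameters `p` with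
  `q ∣ X.ev p`.
* for `i ≠ j`, `mate i ≠ j`: `((F i).sub (F j)).ev p = - ((F j).sub (F i)).ev p` (unfold, ring) and
  `mate j ≠ i` (from `mm`), so one may assume `i < j`.
  If `T i = T j`, then by `tab` the slopes of `(F i).sub (F j)` vanish, so `ev p = g` for all `p`, and
  `Fam.pair` says `¬ q ∣ g`: no parameter is lost. If `T i ≠ T j`: `Fit q 16 l h` holds for
  `((F i).sub (F j)).sl = T i - T j` (nonzero; bounded by 16 by the triangle inequality; a nonzero
  coordinate of the difference comes from a nonzero coordinate of `T i` or `T j`, then `Fam.fit`):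
  `zero_box` with `B = 16`: at most `2 #bx / q`.
* lost in total at most `(100 + 144) * 2 #bx / q ≤ #bx / 10` since `q ≥ 10^4`
  (union bound: the complement of `P0` inside `{p.1 ∈ It}` is contained in the union over `X ∈ ex`
  and over pairs `(i,j)`; `Finset.card_biUnion_le`; `ex.length ≤ 100` (`List.toFinset` or
  `ex.get : Fin ex.length → AF`), `a ≤ 12`).
-/

noncomputable section

namespace Pool.Agent.PGr

open Finset

private theorem fit_sub {q : ℕ} {l h : ℤ × ℤ × ℤ} {F G : RF} {t u : ℤ × ℤ × ℤ}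
    (hF : F.dsl = t) (hG : G.dsl = u) (ht : Fit q 8 l h t) (hu : Fit q 8 l h u) (hne : t ≠ u) :
    Fit q 16 l h (F.sub G).sl := by
  have e : (F.sub G).sl = (t.1 - u.1, t.2.1 - u.2.1, t.2.2 - u.2.2) := by
    rw [← hF, ← hG]; rfl
  rw [e]
  obtain ⟨-, a1, a2, a3, s1, s2, s3⟩ := ht
  obtain ⟨-, b1, b2, b3, r1, r2, r3⟩ := hu
  refine ⟨?_, ?_, ?_, ?_, ?_, ?_, ?_⟩
  · intro h0
    apply hne
    simp only [Prod.mk_eq_zero] at h0
    refine Prod.ext (by omega) (Prod.ext (by omega) (by omega))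
  · exact (abs_sub _ _).trans (by linarith)
  · exact (abs_sub _ _).trans (by linarith)
  · exact (abs_sub _ _).trans (by linarith)
  · intro h0
    dsimp only at h0
    by_cases h1 : t.1 = 0
    · exact r1 (by omega)
    · exact s1 h1
  · intro h0
    dsimp only at h0
    by_cases h1 : t.2.1 = 0
    · exact r2 (by omega)
    · exact s2 h1
  · intro h0
    dsimp only at h0
    by_cases h1 : t.2.2 = 0
    · exact r3 (by omega)
    · exact s3 h1

private theorem ev_sub_eq {F G : RF} {t : ℤ × ℤ × ℤ} (hF : F.dsl = t) (hG : G.dsl = t)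
    (p : ℤ × ℤ × ℤ) : (F.sub G).ev p = (F.sub G).g := by
  have h := hF.trans hG.symm
  simp only [RF.dsl, Prod.mk.injEq] at h
  obtain ⟨h1, h2, h3⟩ := h
  simp only [AF.ev, RF.sub]
  rw [h1, h2, h3]
  ring

private theorem sub_g_symm (F G : RF) : (F.sub G).g = -(G.sub F).g := by
  simp only [RF.sub]
  ring

open Classical in
/-- the generic parameters -/
def P0 (q : ℕ) (l h : ℤ × ℤ × ℤ) (It : Finset ℤ) {a : ℕ} (F : Fin a → RF)
    (mate : Fin a → Fin a) (ex : List AF) : Finset (ℤ × ℤ × ℤ) :=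
  (bx l h).filter (fun p => p.1 ∈ It ∧ (∀ X ∈ ex, ¬ (q : ℤ) ∣ X.ev p) ∧
    (∀ i j, i ≠ j → mate i ≠ j → ¬ (q : ℤ) ∣ ((F i).sub (F j)).ev p))

theorem p0_card (q S E : ℕ) (hq : q.Prime)
    (hq1 : 10 ^ 4 ≤ q) (bad : Bool → ℤ → Finset (ZMod (2 * S))) (l h : ℤ × ℤ × ℤ)
    (It : Finset ℤ) {a : ℕ} (F : Fin a → RF) (mate : Fin a → Fin a)
    (ex : List AF) (T : Fin a → ℤ × ℤ × ℤ) (φ : Fin a → ℝ)
    (H : Fam q S E bad l h It F mate ex T φ) :
    (3 / 10 : ℝ) * ((bx l h).card : ℝ) ≤ ((P0 q l h It F mate ex).card : ℝ) := by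
  classical
  have hq0 : (0 : ℝ) < q := by exact_mod_cast hq.pos
  have hq1' : (10 ^ 4 : ℝ) ≤ q := by exact_mod_cast hq1
  set N : ℝ := ((bx l h).card : ℝ) with hN
  have hN0 : 0 ≤ N := Nat.cast_nonneg _
  -- anchors in It
  have hA : (2 / 5 : ℝ) * N ≤ (((bx l h).filter (fun p => p.1 ∈ It)).card : ℝ) := by
    have e1 : (bx l h).filter (fun p => p.1 ∈ It) =
        ((Icc l.1 h.1).filter (· ∈ It)) ×ˢ (Icc l.2.1 h.2.1 ×ˢ Icc l.2.2 h.2.2) := by
      ext p
      simp only [bx, mem_filter, mem_product, mem_Icc]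
      tauto
    have e2 : ((Icc l.1 h.1).card : ℝ) = ((h.1 - l.1 + 1 : ℤ) : ℝ) := by
      rw [Int.card_Icc]
      have h1 := H.le1
      have h2 : (((h.1 + 1 - l.1).toNat : ℤ)) = h.1 - l.1 + 1 := by
        rw [Int.toNat_of_nonneg (by omega)]; ring
      exact_mod_cast h2
    rw [hN, e1, card_product]
    unfold bx
    rw [card_product, Nat.cast_mul, Nat.cast_mul, e2, ← mul_assoc]
    exact mul_le_mul_of_nonneg_right H.it (Nat.cast_nonneg _)
  -- the exceptional sets
  set ZX : Fin ex.length → Finset (ℤ × ℤ × ℤ) :=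
    fun i => (bx l h).filter (fun p => (q : ℤ) ∣ (ex.get i).ev p) with hZX
  set ZP : Fin a × Fin a → Finset (ℤ × ℤ × ℤ) :=
    fun ij => (bx l h).filter (fun p => (ij.1 ≠ ij.2 ∧ mate ij.1 ≠ ij.2) ∧
      (q : ℤ) ∣ ((F ij.1).sub (F ij.2)).ev p) with hZP
  have hcX : ∀ i, ((ZX i).card : ℝ) ≤ 2 * N / q := by
    intro i
    rw [le_div_iff₀ hq0]
    have h8 : (8 : ℤ) < q := by
      have : 8 < q := lt_of_lt_of_le (by norm_num) hq1
      exact_mod_cast this
    have h1 : (ZX i).card * q ≤ 2 * (bx l h).card :=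
      zero_box q hq 8 h8 l h (ex.get i) (H.fitx _ (List.get_mem ex i))
    have h2 : (((ZX i).card * q : ℕ) : ℝ) ≤ ((2 * (bx l h).card : ℕ) : ℝ) := Nat.cast_le.2 h1
    rw [Nat.cast_mul, Nat.cast_mul, ← hN] at h2
    exact h2
  have hcP : ∀ ij, ((ZP ij).card : ℝ) ≤ 2 * N / q := by
    rintro ⟨i, j⟩
    by_cases hT : T i = T j
    · have hempty : ZP (i, j) = ∅ := by
        rw [hZP]
        refine filter_eq_empty_iff.2 ?_
        rintro p - ⟨⟨hij, hm⟩, hd⟩
        dsimp only at hij hm hd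
        rcases lt_or_gt_of_ne hij with hlt | hlt
        · rw [ev_sub_eq (H.tab i) ((H.tab j).trans hT.symm)] at hd
          exact H.pair i j hlt hT hm hd
        · rw [ev_sub_eq (H.tab i) ((H.tab j).trans hT.symm), sub_g_symm, dvd_neg] at hd
          refine H.pair j i hlt hT.symm ?_ hd
          intro hmj
          apply hm
          rw [← hmj, H.mm]
      rw [hempty, card_empty, Nat.cast_zero]
      positivity
    · rw [le_div_iff₀ hq0]
      have h16 : (16 : ℤ) < q := by
        have : 16 < q := lt_of_lt_of_le (by norm_num) hq1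
        exact_mod_cast this
      have h1 := zero_box q hq 16 h16 l h ((F i).sub (F j))
        (fit_sub (H.tab i) (H.tab j) (H.fit i) (H.fit j) hT)
      have h2 : (ZP (i, j)).card ≤
          ((bx l h).filter (fun p => (q : ℤ) ∣ ((F i).sub (F j)).ev p)).card := by
        refine card_le_card ?_
        intro p hp
        rw [hZP] at hp
        rw [mem_filter] at hp ⊢
        exact ⟨hp.1, hp.2.2⟩
      have h3 : (ZP (i, j)).card * q ≤ 2 * (bx l h).card :=
        (Nat.mul_le_mul_right q h2).trans h1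
      have h4 : (((ZP (i, j)).card * q : ℕ) : ℝ) ≤ ((2 * (bx l h).card : ℕ) : ℝ) :=
        Nat.cast_le.2 h3
      rw [Nat.cast_mul, Nat.cast_mul, ← hN] at h4
      exact h4
  -- union bound
  have hcov : (bx l h).filter (fun p => p.1 ∈ It) ⊆
      (P0 q l h It F mate ex ∪ univ.biUnion ZX) ∪ univ.biUnion ZP := by
    intro p hp
    rw [mem_filter] at hp
    rw [mem_union, mem_union, mem_biUnion, mem_biUnion]
    by_cases h1 : ∃ i ∈ (univ : Finset (Fin ex.length)), p ∈ ZX i
    · exact Or.inl (Or.inr h1)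
    by_cases h2 : ∃ ij ∈ (univ : Finset (Fin a × Fin a)), p ∈ ZP ij
    · exact Or.inr h2
    refine Or.inl (Or.inl ?_)
    unfold P0
    rw [mem_filter]
    refine ⟨hp.1, hp.2, ?_, ?_⟩
    · intro X hX hd
      obtain ⟨i, hi⟩ := List.get_of_mem hX
      apply h1
      refine ⟨i, mem_univ _, ?_⟩
      rw [hZX, mem_filter]
      exact ⟨hp.1, by rw [hi]; exact hd⟩
    · intro i j hij hm hd
      apply h2
      refine ⟨(i, j), mem_univ _, ?_⟩
      rw [hZP, mem_filter]
      exact ⟨hp.1, ⟨hij, hm⟩, hd⟩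
  have hc1 : (((bx l h).filter (fun p => p.1 ∈ It)).card : ℝ) ≤
      ((P0 q l h It F mate ex).card : ℝ) + (∑ i, ((ZX i).card : ℝ)) +
        ∑ ij, ((ZP ij).card : ℝ) := by
    have h1 := (card_le_card hcov).trans (card_union_le _ _)
    have h2 := card_union_le (P0 q l h It F mate ex) (univ.biUnion ZX)
    have h3 : (univ.biUnion ZX).card ≤ ∑ i, (ZX i).card := card_biUnion_le
    have h4 : (univ.biUnion ZP).card ≤ ∑ ij, (ZP ij).card := card_biUnion_le
    have h5 : ((bx l h).filter (fun p => p.1 ∈ It)).card ≤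
        (P0 q l h It F mate ex).card + (∑ i, (ZX i).card) + ∑ ij, (ZP ij).card := by omega
    exact_mod_cast h5
  have hsX : (∑ i, ((ZX i).card : ℝ)) ≤ 100 * (2 * N / q) := by
    refine (sum_le_sum fun i _ => hcX i).trans ?_
    rw [sum_const, card_univ, Fintype.card_fin, nsmul_eq_mul]
    refine mul_le_mul_of_nonneg_right ?_ (by positivity)
    exact_mod_cast H.b_le
  have hsP : (∑ ij, ((ZP ij).card : ℝ)) ≤ 144 * (2 * N / q) := by
    refine (sum_le_sum fun i _ => hcP i).trans ?_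
    rw [sum_const, card_univ, Fintype.card_prod, Fintype.card_fin, nsmul_eq_mul]
    refine mul_le_mul_of_nonneg_right ?_ (by positivity)
    have h1 := H.a_le
    have h2 : a * a ≤ 144 := (Nat.mul_le_mul h1 h1).trans (by norm_num)
    exact_mod_cast h2
  have hfin : 2 * N / q ≤ 2 * N / 10 ^ 4 :=
    div_le_div_of_nonneg_left (by positivity) (by norm_num) hq1'
  have hfin' : 2 * N / (10 : ℝ) ^ 4 = N / 5000 := by ring
  rw [hfin'] at hfin
  linarith

end Pool.Agent.PGr
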