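import Pool.Agent.PGr.RDefs

/-!
# PGr-R-Unit: units of labels and differences

STATEMENTS (q prime, q > 3):
* `lam_unL' : lam q (unL q x) = x`, `del_unD' : del q (unD q d) = d` in `ZMod (q^2)`;
* `red_uOf : 2 * red q (uOf q l x) = (wt l * x : ℤ)` in `ZMod q`;
* `uOf_inj`: for `0 ≤ x, x' < E q^2`: same unit and same bit index imply same kind and same value.

PLAN. In `ZMod (q^2)` put `(q : ZMod (q^2))^2 = 0` (`ZMod.natCast_self` after `Nat.cast_pow`), 2 is a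
unit (q odd: `ZMod.isUnit_iff_coprime`/`ZMod.coe_mul_inv_eq_one`), so `2 * 2⁻¹ = 1`.
`lam (lamI x) = 2 (x/2 - q x^2/8) + q (x/2 - q x^2/8)^2 = x - q x^2/4 + q x^2/4 + q^2 (...) = x`:
write `c := 2⁻¹`, `hc : 2 * c = 1`, `hq : (q:ZMod (q^2))^2 = 0` and use `linear_combination`
(coefficients of hc and hq; e.g. expand by hand: `2 * (c*x - q*c^3*x^2) + q*(c*x - q*c^3*x^2)^2 - x`).
`del (delI x) = x - q x^2 + q (x - q x^2)^2 = x + q^2(...)`.
`red`: `red q (q : ZMod (q^2)) = 0`, `red q (2⁻¹) = 2⁻¹` is not needed: apply `red` (a ring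
hom) to `lam q (unL q x) = x`: `2 * red (unL) + red q * (..)^2 = x`, so `2 * red(unL) = x`; similarly
`red (unD) = d`, hence `2 * red (unD) = 2 d`. (`red q` of a cast of an integer is the cast:
`map_intCast`.)
`uOf_inj`: `bix` gives `l = l'` (first component). For equal kinds apply `lam` (or `del`) to the
equality of units: `(x : ZMod (q^2)) = x'`, so `q^2 ∣ x - x'`
(`ZMod.intCast_eq_intCast_iff_dvd_sub`); the second components of `bix` give (both quotients are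
in `[0, E)`, so `Fin.ofNat` is faithful) `x / q^2 = x' / q^2`; then `x = x'` by `Int.emod_emod_of_dvd`
/ `Int.ediv_add_emod`: x % q^2 = x' % q^2 and equal quotients.
-/

namespace Pool.Agent.PGr

private theorem qq0 (q : ℕ) : ((q : ZMod (q ^ 2))) ^ 2 = 0 := by
  have h := ZMod.natCast_self (q ^ 2)
  rw [Nat.cast_pow] at h
  exact h

private theorem two_inv (q : ℕ) (hq : q.Prime) (h2 : 3 < q) :
    (2 : ZMod (q ^ 2)) * (2 : ZMod (q ^ 2))⁻¹ = 1 := by
  have h : Nat.Coprime 2 (q ^ 2) := by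
    refine Nat.Coprime.pow_right 2 ?_
    rw [Nat.coprime_primes Nat.prime_two hq]
    omega
  have h3 := ZMod.coe_mul_inv_eq_one 2 h
  exact_mod_cast h3

theorem lam_unL' (q : ℕ) [NeZero q] (hq : q.Prime) (h2 : 3 < q) (x : ℤ) :
    lam q (unL q x) = ((x : ℤ) : ZMod (q ^ 2)) := by
  have h0 := qq0 q
  have hc := two_inv q hq h2
  unfold unL lamI lam
  linear_combination (((x : ℤ) : ZMod (q ^ 2)) - (q : ZMod (q ^ 2)) * (2 : ZMod (q ^ 2))⁻¹ ^ 2 *
    ((x : ℤ) : ZMod (q ^ 2)) ^ 2) * hc +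
    (-2 * (2 : ZMod (q ^ 2))⁻¹ ^ 4 * ((x : ℤ) : ZMod (q ^ 2)) ^ 3 +
      (q : ZMod (q ^ 2)) * (2 : ZMod (q ^ 2))⁻¹ ^ 6 * ((x : ℤ) : ZMod (q ^ 2)) ^ 4) * h0

theorem del_unD' (q : ℕ) [NeZero q] (d : ℤ) : del q (unD q d) = ((d : ℤ) : ZMod (q ^ 2)) := by
  have h0 := qq0 q
  unfold unD delI del
  linear_combination (-2 * ((d : ℤ) : ZMod (q ^ 2)) ^ 3 +
      (q : ZMod (q ^ 2)) * ((d : ℤ) : ZMod (q ^ 2)) ^ 4) * h0

private theorem red_q (q : ℕ) : red q (q : ZMod (q ^ 2)) = 0 := by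
  rw [map_natCast, ZMod.natCast_self]

theorem red_uOf (q : ℕ) [NeZero q] (hq : q.Prime) (h2 : 3 < q) (l : Bool) (x : ℤ) :
    2 * red q (uOf q l x) = ((wt l * x : ℤ) : ZMod q) := by
  cases l with
  | true =>
    have h := congrArg (red q) (lam_unL' q hq h2 x)
    rw [lam, map_add, map_mul, map_mul, red_q, zero_mul, add_zero, map_intCast] at h
    have e : red q (2 : ZMod (q ^ 2)) = 2 := map_ofNat (red q) 2
    rw [e] at h
    have e1 : uOf q true x = unL q x := rfl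
    have e2 : wt true = 1 := rfl
    rw [e1, e2, one_mul]
    exact h
  | false =>
    have h := congrArg (red q) (del_unD' q x)
    rw [del, map_add, map_mul, red_q, zero_mul, add_zero, map_intCast] at h
    have e1 : uOf q false x = unD q x := rfl
    have e2 : wt false = 2 := rfl
    rw [e1, e2, h]
    push_cast
    rfl

private theorem cast_eq (q : ℕ) [NeZero q] (hq : q.Prime) (h2 : 3 < q) (l : Bool) (x x' : ℤ)
    (hu : uOf q l x = uOf q l x') : ((x : ℤ) : ZMod (q ^ 2)) = ((x' : ℤ) : ZMod (q ^ 2)) := by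
  cases l with
  | true =>
    have e1 : unL q x = unL q x' := hu
    rw [← lam_unL' q hq h2 x, ← lam_unL' q hq h2 x', e1]
  | false =>
    have e1 : unD q x = unD q x' := hu
    rw [← del_unD' q x, ← del_unD' q x', e1]

theorem uOf_inj (q E : ℕ) [NeZero q] [NeZero E] (hq : q.Prime) (h2 : 3 < q) (l l' : Bool)
    (x x' : ℤ) (hx0 : 0 ≤ x) (hx : x < E * (q : ℤ) ^ 2) (hx0' : 0 ≤ x')
    (hx' : x' < E * (q : ℤ) ^ 2) (hu : uOf q l x = uOf q l' x') (hb : bix q E l x = bix q E l' x') :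
    l = l' ∧ x = x' := by
  have hl : l = l' := congrArg Prod.fst hb
  subst hl
  refine ⟨rfl, ?_⟩
  have h1 := cast_eq q hq h2 l x x' hu
  have hpos : (0 : ℤ) < (q : ℤ) ^ 2 := by
    have : (0 : ℤ) < (q : ℤ) := by exact_mod_cast hq.pos
    positivity
  have h3 : x % ((q : ℤ) ^ 2) = x' % ((q : ℤ) ^ 2) := by
    rw [ZMod.intCast_eq_intCast_iff] at h1
    have h4 : x ≡ x' [ZMOD ((q : ℤ) ^ 2)] := by
      have e : ((q ^ 2 : ℕ) : ℤ) = (q : ℤ) ^ 2 := by push_cast; rfl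
      rw [← e]
      exact h1
    exact h4
  have hb2 : Fin.ofNat E (x / (q : ℤ) ^ 2).toNat = Fin.ofNat E (x' / (q : ℤ) ^ 2).toNat :=
    congrArg Prod.snd hb
  have key : ∀ y : ℤ, 0 ≤ y → y < E * (q : ℤ) ^ 2 →
      ((Fin.ofNat E (y / (q : ℤ) ^ 2).toNat : Fin E) : ℕ) = (y / (q : ℤ) ^ 2).toNat ∧
        (((y / (q : ℤ) ^ 2).toNat : ℕ) : ℤ) = y / (q : ℤ) ^ 2 := by
    intro y hy0 hy
    have h5 : 0 ≤ y / (q : ℤ) ^ 2 := Int.ediv_nonneg hy0 hpos.le
    have h6 : y / (q : ℤ) ^ 2 < E := Int.ediv_lt_of_lt_mul hpos hy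
    have h7 : (((y / (q : ℤ) ^ 2).toNat : ℕ) : ℤ) = y / (q : ℤ) ^ 2 := Int.toNat_of_nonneg h5
    refine ⟨?_, h7⟩
    rw [Fin.val_ofNat]
    refine Nat.mod_eq_of_lt ?_
    omega
  have k1 := key x hx0 hx
  have k2 := key x' hx0' hx'
  have h8 : x / (q : ℤ) ^ 2 = x' / (q : ℤ) ^ 2 := by
    rw [← k1.2, ← k2.2, ← k1.1, ← k2.1, hb2]
  have h9 := Int.emod_add_mul_ediv x ((q : ℤ) ^ 2)
  have h10 := Int.emod_add_mul_ediv x' ((q : ℤ) ^ 2)
  rw [← h9, ← h10, h3, h8]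

end Pool.Agent.PGr
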