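import Pool.Agent.PGr.RZero
import Pool.Agent.PGr.RP0
import Pool.Agent.PGr.RUnit
import Pool.Agent.PGr.RLoc

/-!
# PGr-R-GC: the counting lemma 9.2

STATEMENT. For a family satisfying `Fam` the number of good parameters is at least
`cG K0 * #box` with probability at least `1 - 2 exp(-dG K0 * q)`.

PLAN. Let `P0` be the set of generic parameters (RP0.lean). `goodP` = those `p ∈ P0` for which all
resources are good (unfold both, `Finset.filter_filter`).
(1) `#P0 ≥ (3/10) #bx` is `p0_card`.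
(2) For `p ∈ P0` put `T' p := univ.image (fun i => uOf q (F i).lab ((F i).f.ev p))` (a finset of
    units, at most `a ≤ 12` elements) and `G p u w := w.1 = 0 ∧ (∀ i ∈ J p u, w.2.1 ∉ bad_i) ∧
    ∀ i ∈ J p u, w.2.2 (bix_i) = β i` with `J p u := {i : uOf.. i = u}`. Then
    `cntFam P0 T' G ω = #(goodP ...)` (for every `i` the unit of `i` is in `T' p`, and `type = 0` is
    required for every unit of `T' p`, each of which is the unit of some `i`).
    `Pr (G p u) ≥ gam K0` for `u ∈ T' p` by `local_pr`: `bix` is injective on `J p u` by `uOf_inj`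
    (equal units + equal index ⇒ equal kind and equal value; for non-mates `i ≠ j` equal kind and value
    would give `q ∣ ((F i).sub (F j)).ev p`; for mates use `Fam.mval`). `∑_{i ∈ J p u} |bad_i| ≤ .97*2S`:
    two different elements `i, j` of `J p u` have the same unit, so
    `2 red(unit i) = 2 red(unit j)`, i.e. (`red_uOf`) `q ∣ ((F i).sub (F j)).ev p`, so `mate i = j`;
    hence `J p u ⊆ {i, mate i}` and the sum is `≤ (φ i + φ (mate i)) 2S` or `≤ φ i * 2S`
    (`phi1`, `phi2`, `phib`).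
    `0 < gam K0 ≤ 1`, so `∏_{u ∈ T' p} Pr ≥ (gam K0)^12` (at most 12 factors, each in [gam,1]).
(3) For a unit `u`: `#{p ∈ P0 : u ∈ T' p} ≤ ∑_i #{p ∈ bx : uOf.. i = u} ≤ 12 * 2 #bx / q`, since
    `uOf = u` implies `((wt * ev p : ℤ) : ZMod q) = 2 red u` (`red_uOf`) and `fib_box`
    (multiplier `wt ∈ {1,2}`, `Fit q 8` for `T i = wt * slopes`; note `fib_box` needs `Fit` for the
    slopes of `f` itself: derive it from the doubled ones: nonzero iff, bounded by 8).
(4) `Pr_cntFam P0 T' G 12 m` with `m := ⌊24 #bx / q⌋₊`, `V := 12 * (24 #bx / q) * #P0`,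
    `t := (gam K0)^12 * #P0 / 2`. If `#good < cG * #bx`, then
    `cntFam < (gam^12/10) #bx ≤ (gam^12/3) #P0 < mean - t`. And
    `t^2/(2V) = gam^24 #P0 q / (8 * 288 * #bx) ≥ gam^24 * (3/10) q / 2304 ≥ dG * q`.
    (`#bx > 0` by le1..le3.)
-/

namespace Pool.Agent.PGr

open Finset

/-- units of the resources of a parameter -/
private noncomputable def TT (q : ℕ) {a : ℕ} (F : Fin a → RF) (p : ℤ × ℤ × ℤ) :
    Finset (ZMod (q ^ 2)) :=
  univ.image (fun i : Fin a => uOf q (F i).lab ((F i).f.ev p))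

/-- resources of a unit -/
private noncomputable def JJ (q : ℕ) {a : ℕ} (F : Fin a → RF) (p : ℤ × ℤ × ℤ)
    (u : ZMod (q ^ 2)) : Finset (Fin a) :=
  univ.filter (fun i => uOf q (F i).lab ((F i).f.ev p) = u)

private theorem mem_JJ {q : ℕ} {a : ℕ} {F : Fin a → RF} {p : ℤ × ℤ × ℤ}
    {u : ZMod (q ^ 2)} {i : Fin a} : i ∈ JJ q F p u ↔ uOf q (F i).lab ((F i).f.ev p) = u := by
  rw [JJ, mem_filter]
  exact ⟨fun h => h.2, fun h => ⟨mem_univ i, h⟩⟩

/-- the unit is good -/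
private def GG (q K0 S E : ℕ) [NeZero K0] [NeZero E] (bad : Bool → ℤ → Finset (ZMod (2 * S)))
    {a : ℕ} (F : Fin a → RF) (β : Fin a → Bool) (p : ℤ × ℤ × ℤ) (u : ZMod (q ^ 2))
    (w : Om0 K0 S E) : Prop :=
  w.1 = 0 ∧ (∀ i ∈ JJ q F p u, w.2.1 ∉ bad (F i).lab ((F i).f.ev p)) ∧
    ∀ i ∈ JJ q F p u, w.2.2 (bix q E (F i).lab ((F i).f.ev p)) = β i

private theorem all_GG (q K0 S E : ℕ) [NeZero K0] [NeZero E]
    (bad : Bool → ℤ → Finset (ZMod (2 * S))) {a : ℕ} (F : Fin a → RF) (β : Fin a → Bool)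
    (p : ℤ × ℤ × ℤ) (ω : ZMod (q ^ 2) → Om0 K0 S E) :
    (∀ u ∈ TT q F p, GG q K0 S E bad F β p u (ω u)) ↔
      ∀ i, resv q K0 S E bad ω (F i).lab ((F i).f.ev p) (β i) := by
  constructor
  · intro h i
    have h1 := h (uOf q (F i).lab ((F i).f.ev p)) (by
      rw [TT, mem_image]
      exact ⟨i, mem_univ i, rfl⟩)
    exact ⟨h1.1, h1.2.1 i (mem_JJ.mpr rfl), h1.2.2 i (mem_JJ.mpr rfl)⟩
  · intro h u hu
    rw [TT, mem_image] at hu
    obtain ⟨i, -, hi⟩ := hu
    refine ⟨?_, ?_, ?_⟩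
    · rw [← hi]
      exact (h i).1
    · intro j hj
      have h1 := (h j).2.1
      rw [mem_JJ.mp hj] at h1
      exact h1
    · intro j hj
      have h1 := (h j).2.2
      rw [mem_JJ.mp hj] at h1
      exact h1

private theorem cnt_eq (q K0 S E : ℕ) [NeZero K0] [NeZero E]
    (bad : Bool → ℤ → Finset (ZMod (2 * S))) (l h : ℤ × ℤ × ℤ) (It : Finset ℤ) {a : ℕ}
    (F : Fin a → RF) (β : Fin a → Bool) (mate : Fin a → Fin a) (ex : List AF)
    (ω : ZMod (q ^ 2) → Om0 K0 S E) :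
    cntFam (P0 q l h It F mate ex) (TT q F) (GG q K0 S E bad F β) ω =
      ((goodP q K0 S E bad l h It F β mate ex ω).card : ℝ) := by
  classical
  unfold cntFam
  refine congrArg (fun s : Finset (ℤ × ℤ × ℤ) => (s.card : ℝ)) ?_
  ext p
  rw [mem_filter, P0, goodP, mem_filter, mem_filter, all_GG]
  constructor
  · rintro ⟨⟨h1, h2, h3, h4⟩, h5⟩
    exact ⟨h1, h2, h3, h4, h5⟩
  · rintro ⟨h1, h2, h3, h4, h5⟩
    exact ⟨⟨h1, h2, h3, h4⟩, h5⟩

private theorem sub_ev (F G : RF) (p : ℤ × ℤ × ℤ) :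
    (F.sub G).ev p = wt F.lab * F.f.ev p - wt G.lab * G.f.ev p := by
  unfold RF.sub AF.ev
  ring

/-- equal units: mates -/
private theorem mate_of (q : ℕ) [NeZero q] (hq : q.Prime) (h2 : 3 < q)
    (l h : ℤ × ℤ × ℤ) (It : Finset ℤ) {a : ℕ}
    (F : Fin a → RF) (mate : Fin a → Fin a) (ex : List AF) {p : ℤ × ℤ × ℤ}
    (hp : p ∈ P0 q l h It F mate ex) {i j : Fin a} (hij : i ≠ j)
    (hu : uOf q (F i).lab ((F i).f.ev p) = uOf q (F j).lab ((F j).f.ev p)) : mate i = j := by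
  by_contra hm
  rw [P0, mem_filter] at hp
  refine hp.2.2.2 i j hij hm ?_
  have h3 := red_uOf q hq h2 (F i).lab ((F i).f.ev p)
  rw [hu, red_uOf q hq h2 (F j).lab ((F j).f.ev p)] at h3
  rw [sub_ev, ← ZMod.intCast_zmod_eq_zero_iff_dvd]
  rw [Int.cast_sub, h3, sub_self]

private theorem gam_pos (K0 : ℕ) [NeZero K0] : 0 < gam K0 := by
  have h : (0 : ℝ) < K0 := by exact_mod_cast Nat.pos_of_ne_zero (NeZero.ne K0)
  unfold gam
  positivity

private theorem gam_le (K0 : ℕ) [NeZero K0] : gam K0 ≤ 1 := by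
  have h : (1 : ℝ) ≤ K0 := by exact_mod_cast Nat.pos_of_ne_zero (NeZero.ne K0)
  have h1 : (3 / 100 : ℝ) / K0 ≤ 3 / 100 := div_le_self (by norm_num) h
  unfold gam
  calc (3 / 100 : ℝ) / K0 * (1 / 2) ^ 12 ≤ (3 / 100) * (1 / 2) ^ 12 :=
        mul_le_mul_of_nonneg_right h1 (by positivity)
    _ ≤ 1 := by norm_num

private theorem pr_GG (q K0 S E : ℕ) [NeZero q] [NeZero K0] [NeZero S] [NeZero E] (hq : q.Prime)
    (h3q : 3 < q) (bad : Bool → ℤ → Finset (ZMod (2 * S))) (l h : ℤ × ℤ × ℤ)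
    (It : Finset ℤ) {a : ℕ} (F : Fin a → RF) (β : Fin a → Bool) (mate : Fin a → Fin a)
    (ex : List AF) (T : Fin a → ℤ × ℤ × ℤ) (φ : Fin a → ℝ)
    (H : Fam q S E bad l h It F mate ex T φ) {p : ℤ × ℤ × ℤ}
    (hp : p ∈ P0 q l h It F mate ex) (u : ZMod (q ^ 2)) :
    gam K0 ≤ Pr (GG q K0 S E bad F β p u) := by
  have hpb : p ∈ bx l h ∧ p.1 ∈ It := by
    have h1 := hp
    rw [P0, mem_filter] at h1
    exact ⟨h1.1, h1.2.1⟩
  have hS : (0 : ℝ) < 2 * S := by
    have h : (0 : ℝ) < S := by exact_mod_cast Nat.pos_of_ne_zero (NeZero.ne S)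
    positivity
  have hmt : ∀ i ∈ JJ q F p u, ∀ j ∈ JJ q F p u, i ≠ j → mate i = j := by
    intro i hi j hj hij
    refine mate_of q hq h3q l h It F mate ex hp hij ?_
    rw [mem_JJ.mp hi, mem_JJ.mp hj]
  refine local_pr K0 S E H.a_le (JJ q F p u) (fun i => bad (F i).lab ((F i).f.ev p))
    (fun i => bix q E (F i).lab ((F i).f.ev p)) β ?_ ?_
  · intro i hi j hj hb
    by_contra hij
    have hm := hmt i hi j hj hij
    have hv1 := H.val p hpb.1 hpb.2 i
    have hv2 := H.val p hpb.1 hpb.2 j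
    have h5 := uOf_inj q E hq h3q (F i).lab (F j).lab ((F i).f.ev p) ((F j).f.ev p)
      hv1.1 hv1.2 hv2.1 hv2.2 (by rw [mem_JJ.mp hi, mem_JJ.mp hj]) hb
    have h6 := H.mval p hpb.1 hpb.2 i (by rw [hm]; exact fun e => hij e.symm)
    rw [hm] at h6
    rcases h6 with h6 | h6
    · exact h6 h5.1
    · exact h6 h5.2
  · rcases (JJ q F p u).eq_empty_or_nonempty with he | ⟨i, hi⟩
    · rw [he, sum_empty]
      positivity
    · have hsub : JJ q F p u ⊆ {i, mate i} := by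
        intro j hj
        rw [mem_insert, mem_singleton]
        by_cases hij : i = j
        · exact Or.inl hij.symm
        · exact Or.inr (hmt i hi j hj hij).symm
      refine (sum_le_sum_of_subset_of_nonneg hsub (fun _ _ _ => Nat.cast_nonneg _)).trans ?_
      by_cases hmi : mate i = i
      · rw [hmi, pair_eq_singleton, sum_singleton]
        exact (H.phib p hpb.1 hpb.2 i).trans (mul_le_mul_of_nonneg_right (H.phi1 i) hS.le)
      · rw [sum_pair (fun e => hmi e.symm)]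
        have h1 := H.phib p hpb.1 hpb.2 i
        have h2 := H.phib p hpb.1 hpb.2 (mate i)
        have h3 := mul_le_mul_of_nonneg_right (H.phi2 i hmi) hS.le
        rw [add_mul] at h3
        linarith

private theorem wt_not_dvd (q : ℕ) (h3q : 3 < q) (b : Bool) : ¬ (q : ℤ) ∣ wt b := by
  intro hd
  cases b with
  | true =>
    have h1 : (q : ℤ) ∣ 1 := hd
    have h2 := Int.le_of_dvd one_pos h1
    omega
  | false =>
    have h1 : (q : ℤ) ∣ 2 := hd
    have h2 := Int.le_of_dvd two_pos h1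
    omega

private theorem abs_le_wt (b : Bool) (x B : ℤ) (hx : |wt b * x| ≤ B) : |x| ≤ B := by
  refine le_trans ?_ hx
  rw [abs_mul]
  have h1 : 1 ≤ |wt b| := by cases b <;> decide
  calc |x| = 1 * |x| := (one_mul _).symm
    _ ≤ |wt b| * |x| := mul_le_mul_of_nonneg_right h1 (abs_nonneg _)

private theorem wt_ne (b : Bool) (x : ℤ) (hx : x ≠ 0) : wt b * x ≠ 0 := by
  refine mul_ne_zero ?_ hx
  cases b <;> decide

private theorem fit_f (q S E : ℕ) (bad : Bool → ℤ → Finset (ZMod (2 * S))) (l h : ℤ × ℤ × ℤ)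
    (It : Finset ℤ) {a : ℕ} (F : Fin a → RF) (mate : Fin a → Fin a)
    (ex : List AF) (T : Fin a → ℤ × ℤ × ℤ) (φ : Fin a → ℝ)
    (H : Fam q S E bad l h It F mate ex T φ) (i : Fin a) : Fit q 8 l h (F i).f.sl := by
  have h1 := H.fit i
  rw [← H.tab i] at h1
  refine ⟨?_, ?_, ?_, ?_, ?_, ?_, ?_⟩
  · intro h0
    refine h1.ne ?_
    have ha : (F i).f.a = 0 := congrArg (fun t : ℤ × ℤ × ℤ => t.1) h0
    have hb : (F i).f.b = 0 := congrArg (fun t : ℤ × ℤ × ℤ => t.2.1) h0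
    have hc : (F i).f.c = 0 := congrArg (fun t : ℤ × ℤ × ℤ => t.2.2) h0
    rw [RF.dsl, ha, hb, hc, mul_zero]
    rfl
  · exact abs_le_wt _ _ _ h1.b1
  · exact abs_le_wt _ _ _ h1.b2
  · exact abs_le_wt _ _ _ h1.b3
  · intro h0
    exact h1.s1 (wt_ne _ _ h0)
  · intro h0
    exact h1.s2 (wt_ne _ _ h0)
  · intro h0
    exact h1.s3 (wt_ne _ _ h0)

private theorem deg_le (q S E : ℕ) [NeZero q] (hq : q.Prime)
    (h8q : 8 < q) (bad : Bool → ℤ → Finset (ZMod (2 * S))) (l h : ℤ × ℤ × ℤ)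
    (It : Finset ℤ) {a : ℕ} (F : Fin a → RF) (mate : Fin a → Fin a)
    (ex : List AF) (T : Fin a → ℤ × ℤ × ℤ) (φ : Fin a → ℝ)
    (H : Fam q S E bad l h It F mate ex T φ) (u : ZMod (q ^ 2)) :
    ((P0 q l h It F mate ex).filter (fun p => u ∈ TT q F p)).card ≤ 24 * (bx l h).card / q := by
  classical
  rw [Nat.le_div_iff_mul_le hq.pos]
  have hsub : (P0 q l h It F mate ex).filter (fun p => u ∈ TT q F p) ⊆
      (univ : Finset (Fin a)).biUnion (fun i => (bx l h).filter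
        (fun p => ((wt (F i).lab * (F i).f.ev p : ℤ) : ZMod q) = 2 * red q u)) := by
    intro p hp
    rw [mem_filter, TT, mem_image] at hp
    obtain ⟨hp1, i, -, hi⟩ := hp
    rw [P0, mem_filter] at hp1
    rw [mem_biUnion]
    refine ⟨i, mem_univ i, ?_⟩
    rw [mem_filter]
    refine ⟨hp1.1, ?_⟩
    rw [← hi, red_uOf q hq (by omega)]
  have hcard := (card_le_card hsub).trans card_biUnion_le
  have hfib : ∀ i : Fin a, ((bx l h).filter
      (fun p => ((wt (F i).lab * (F i).f.ev p : ℤ) : ZMod q) = 2 * red q u)).card * q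
        ≤ 2 * (bx l h).card := by
    intro i
    have h5 := fib_box q hq 8 (by exact_mod_cast h8q) l h (F i).f
      (fit_f q S E bad l h It F mate ex T φ H i) (wt (F i).lab) (wt_not_dvd q (by omega) _)
      (2 * red q u)
    refine le_trans (le_of_eq ?_) h5
    refine congrArg (fun s : Finset (ℤ × ℤ × ℤ) => s.card * q) ?_
    ext p
    simp only [mem_filter]
  calc ((P0 q l h It F mate ex).filter (fun p => u ∈ TT q F p)).card * q
      ≤ (∑ i : Fin a, ((bx l h).filter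
      (fun p => ((wt (F i).lab * (F i).f.ev p : ℤ) : ZMod q) = 2 * red q u)).card) * q :=
        Nat.mul_le_mul_right q hcard
    _ = ∑ i : Fin a, ((bx l h).filter
      (fun p => ((wt (F i).lab * (F i).f.ev p : ℤ) : ZMod q) = 2 * red q u)).card * q :=
        sum_mul _ _ _
    _ ≤ ∑ _i : Fin a, 2 * (bx l h).card := sum_le_sum (fun i _ => hfib i)
    _ = a * (2 * (bx l h).card) := by
        rw [sum_const, card_univ, Fintype.card_fin, smul_eq_mul]
    _ ≤ 12 * (2 * (bx l h).card) := Nat.mul_le_mul_right _ H.a_le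
    _ = 24 * (bx l h).card := by ring

theorem gc (q K0 S E : ℕ) [NeZero q] [NeZero K0] [NeZero S] [NeZero E] (hq : q.Prime)
    (hq1 : 10 ^ 4 ≤ q) (bad : Bool → ℤ → Finset (ZMod (2 * S))) (l h : ℤ × ℤ × ℤ)
    (It : Finset ℤ) {a : ℕ} (F : Fin a → RF) (β : Fin a → Bool) (mate : Fin a → Fin a)
    (ex : List AF) (T : Fin a → ℤ × ℤ × ℤ) (φ : Fin a → ℝ)
    (H : Fam q S E bad l h It F mate ex T φ) :
    Pr (fun ω : ZMod (q ^ 2) → Om0 K0 S E =>
      ((goodP q K0 S E bad l h It F β mate ex ω).card : ℝ) < cG K0 * ((bx l h).card : ℝ))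
      ≤ 2 * Real.exp (-(dG K0 * q)) := by
  classical
  have h3q : 3 < q := by omega
  have hq0 : (0 : ℝ) < q := by exact_mod_cast hq.pos
  set P := P0 q l h It F mate ex with hPdef
  set g := gam K0 with hg
  have hg0 : 0 < g := gam_pos K0
  have hg1 : g ≤ 1 := gam_le K0
  have hbx : (0 : ℝ) < ((bx l h).card : ℝ) := by
    have h1 : 0 < (bx l h).card := by
      rw [card_pos]
      refine ⟨(l.1, l.2.1, l.2.2), ?_⟩
      rw [bx, mem_product, mem_product, mem_Icc, mem_Icc, mem_Icc]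
      exact ⟨⟨le_rfl, H.le1⟩, ⟨le_rfl, H.le2⟩, ⟨le_rfl, H.le3⟩⟩
    exact_mod_cast h1
  have hP : (3 / 10 : ℝ) * ((bx l h).card : ℝ) ≤ (P.card : ℝ) :=
    p0_card q S E hq hq1 bad l h It F mate ex T φ H
  have hPpos : (0 : ℝ) < (P.card : ℝ) := lt_of_lt_of_le (by positivity) hP
  have hTc : ∀ p, (TT q F p).card ≤ 12 := by
    intro p
    refine (card_image_le).trans ?_
    rw [card_univ, Fintype.card_fin]
    exact H.a_le
  have hmean : g ^ 12 * (P.card : ℝ) ≤ ∑ p ∈ P, ∏ u ∈ TT q F p, Pr (GG q K0 S E bad F β p u) := by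
    have h1 : ∀ p ∈ P, g ^ 12 ≤ ∏ u ∈ TT q F p, Pr (GG q K0 S E bad F β p u) := by
      intro p hp
      calc g ^ 12 ≤ g ^ (TT q F p).card := pow_le_pow_of_le_one hg0.le hg1 (hTc p)
        _ = ∏ _u ∈ TT q F p, g := (prod_const g).symm
        _ ≤ ∏ u ∈ TT q F p, Pr (GG q K0 S E bad F β p u) :=
          prod_le_prod (fun _ _ => hg0.le) (fun u _ =>
            pr_GG q K0 S E hq h3q bad l h It F β mate ex T φ H hp u)
    calc g ^ 12 * (P.card : ℝ) = ∑ _p ∈ P, g ^ 12 := by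
          rw [sum_const, nsmul_eq_mul]; ring
      _ ≤ _ := sum_le_sum h1
  set m := 24 * (bx l h).card / q with hm
  have hmr : (m : ℝ) ≤ 24 * ((bx l h).card : ℝ) / q := by
    have h1 : ((24 * (bx l h).card / q : ℕ) : ℝ) ≤ ((24 * (bx l h).card : ℕ) : ℝ) / (q : ℝ) :=
      Nat.cast_div_le
    push_cast at h1
    exact h1
  set V : ℝ := 12 * (24 * ((bx l h).card : ℝ) / q) * (P.card : ℝ) with hV
  have hV0 : 0 < V := by positivity
  have hdev := Pr_cntFam (Ω := Om0 K0 S E) P (TT q F) (GG q K0 S E bad F β) 12 m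
    (fun p _ => hTc p)
    (fun u => by
      refine le_trans (le_of_eq ?_) (deg_le q S E hq (by omega) bad l h It F mate ex T φ H u)
      refine congrArg (fun s : Finset (ℤ × ℤ × ℤ) => s.card) ?_
      ext p
      simp only [mem_filter, hPdef])
    V hV0 (by
      rw [hV]
      refine mul_le_mul_of_nonneg_right ?_ hPpos.le
      have h1 : ((12 : ℕ) : ℝ) = 12 := by norm_num
      rw [h1]
      exact mul_le_mul_of_nonneg_left hmr (by norm_num)) (g ^ 12 * (P.card : ℝ) / 2)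
    (by positivity)
  refine (Pr_mono ?_).trans (hdev.trans ?_)
  · intro ω hω
    rw [cnt_eq]
    rw [cG, ← hg] at hω
    rw [le_abs]
    right
    have h1 : g ^ 12 / 10 * ((bx l h).card : ℝ) ≤ g ^ 12 / 3 * (P.card : ℝ) := by
      have h2 : g ^ 12 / 3 * ((3 / 10 : ℝ) * ((bx l h).card : ℝ)) ≤ g ^ 12 / 3 * (P.card : ℝ) :=
        mul_le_mul_of_nonneg_left hP (by positivity)
      calc g ^ 12 / 10 * ((bx l h).card : ℝ)
          = g ^ 12 / 3 * ((3 / 10 : ℝ) * ((bx l h).card : ℝ)) := by ring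
        _ ≤ _ := h2
    have h3 : 0 < g ^ 12 * (P.card : ℝ) := by positivity
    have h4 : g ^ 12 / 3 * (P.card : ℝ) = g ^ 12 * (P.card : ℝ) / 3 := by ring
    rw [h4] at h1
    linarith
  · refine mul_le_mul_of_nonneg_left (Real.exp_le_exp.mpr ?_) (by norm_num)
    rw [neg_le_neg_iff, dG, ← hg, hV]
    have e1 : (g ^ 12 * (P.card : ℝ) / 2) ^ 2 /
        (2 * (12 * (24 * ((bx l h).card : ℝ) / q) * (P.card : ℝ))) =
        g ^ 24 * q * ((P.card : ℝ) / ((bx l h).card : ℝ)) / 2304 := by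
      field_simp
      ring
    rw [e1]
    have h5 : (3 / 10 : ℝ) ≤ (P.card : ℝ) / ((bx l h).card : ℝ) := by
      rw [le_div_iff₀ hbx]
      exact hP
    have h6 : g ^ 24 * q * (3 / 10 : ℝ) ≤ g ^ 24 * q * ((P.card : ℝ) / ((bx l h).card : ℝ)) :=
      mul_le_mul_of_nonneg_left h5 (by positivity)
    have h7 : 0 < g ^ 24 * (q : ℝ) := by positivity
    have h8 : g ^ 24 / 10000 * (q : ℝ) = g ^ 24 * (q : ℝ) / 10000 := by ring
    rw [h8]
    linarith

end Pool.Agent.PGr
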