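import Pool.Agent.PGr.RVS

/-!
# PGr-R-Item: many high pure items in every interval

STATEMENT. In every interval `[x, y] ⊆ [2.51 n, 3 n]` of at least `n/1000` integers at least `2/5`
of the integers are anchors of high items with both neighbours in `B1`.

PLAN. The high vertex with anchor `A` is `i = 2 j + 1` with `j = 3n - A` (`mOf`), `0 ≤ j ≤ .49 n`, so
`i < n`, `i` is not special (`i + 1 = n` would give `j = n/2 - 1`), `anc n i = A`, `i / 2 = j`.
1. With `C.col.balC` for `e = 1`, every `r < q^2` and the interval `[3n - y, 3n - x + 1)` of `j`: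
   sum over `r < q^2`: `#{i ∈ Ck : i % 2 = 1, i/2 in the interval} ≥ (1/2) (y - x + 1) - 10^(-6) n`.
   (Both sides: the filter over all residues is the disjoint union over `r ∈ range (q^2)`:
   `Finset.card_eq_sum_card_fiberwise` with the map `i ↦ (i/2) % q^2`. `#{i < n : i odd, i/2 in the
   interval} = y - x + 1`: bijection `j ↦ 2j+1`.)
2. Items with a neighbour outside `B1`: by `nC` the neighbours of an item lie in `Bk ∪ Pk`; a
   neighbour outside `B1` lies in `Pk` (at most `10^(-6) n` vertices) or in `Bk` but not in `V_s`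
   (at most `14 q^2 ≤ 10^(-6) n` vertices, `vs_count`, `n ≥ q^6`). `nbp` and `nbm` are injective on
   `i < n`, so at most `2 * (2 * 10^(-6)) n` items are lost.
3. `(1/2) (y-x+1) - 5 * 10^(-6) n ≥ (2/5) (y-x+1)` because `y - x + 1 ≥ n / 1000`.
-/

namespace Pool.Agent.PGr

open Finset

private lemma nb_inj {n c a b : ℕ} (ha : a < n) (hb : b < n) (h : (a + c) % n = (b + c) % n) :
    a = b := by
  have h1 : a ≡ b [MOD n] := Nat.ModEq.add_right_cancel' c h
  exact Nat.ModEq.eq_of_lt_of_lt h1 ha hb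

private lemma sum_fib (T : Finset ℕ) (Q : ℕ) (hQ : 0 < Q) (X Y : ℕ) :
    (T.filter (fun i => i % 2 = 1 ∧ X ≤ i / 2 ∧ i / 2 < Y)).card =
      ∑ r ∈ range Q, (T.filter (fun i => i % 2 = 1 ∧ (i / 2) % Q = r ∧ X ≤ i / 2 ∧ i / 2 < Y)).card := by
  rw [Finset.card_eq_sum_card_fiberwise (f := fun i => (i / 2) % Q) (t := range Q)
    (fun i _ => by
      simp only [Finset.coe_range, Set.mem_Iio]
      exact Nat.mod_lt _ hQ)]
  refine Finset.sum_congr rfl fun r _ => ?_
  congr 1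
  ext i
  simp only [Finset.mem_filter]
  tauto

private lemma odd_card {n X Y : ℕ} (hY : ∀ j, j < Y → 2 * j + 1 < n) :
    Y - X ≤ ((range n).filter (fun i => i % 2 = 1 ∧ X ≤ i / 2 ∧ i / 2 < Y)).card := by
  have h : ((Finset.Ico X Y).image (fun j => 2 * j + 1)).card = Y - X := by
    rw [Finset.card_image_of_injective _ (fun a b h => by simpa using h), Nat.card_Ico]
  rw [← h]
  refine Finset.card_le_card fun i hi => ?_
  rw [Finset.mem_image] at hi
  obtain ⟨j, hj, rfl⟩ := hi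
  rw [Finset.mem_Ico] at hj
  rw [Finset.mem_filter, Finset.mem_range]
  have := hY j hj.2
  refine ⟨this, by omega, by omega, by omega⟩

theorem item_count (C : RCtx) (x y : ℤ) (h1 : 251 * (C.n : ℤ) ≤ 100 * x) (h2 : y ≤ 3 * C.n)
    (hl : (C.n : ℤ) ≤ 1000 * (y - x + 1)) :
    (2 / 5 : ℝ) * ((y - x + 1 : ℤ) : ℝ) ≤ (((Icc x y).filter (· ∈ C.It)).card : ℝ) := by
  classical
  -- sizes
  have hq := C.q_big
  have hqn := C.base.q_high
  have hq2 : 10 ^ 6 * (14 * C.q ^ 2) ≤ C.n := by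
    have h3 : 10 ^ 16 ≤ C.q ^ 4 := by
      calc 10 ^ 16 = (10 ^ 4) ^ 4 := by norm_num
        _ ≤ C.q ^ 4 := Nat.pow_le_pow_left hq 4
    calc 10 ^ 6 * (14 * C.q ^ 2) = (14 * 10 ^ 6) * C.q ^ 2 := by ring
      _ ≤ C.q ^ 4 * C.q ^ 2 := Nat.mul_le_mul_right _ (le_trans (by norm_num) h3)
      _ = C.q ^ 6 := by ring
      _ ≤ C.n := hqn
  have hn : 10 ^ 6 ≤ C.n := by
    have : 1 ≤ 14 * C.q ^ 2 := Nat.succ_le_of_lt (by positivity)
    calc 10 ^ 6 = 10 ^ 6 * 1 := by norm_num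
      _ ≤ 10 ^ 6 * (14 * C.q ^ 2) := Nat.mul_le_mul_left _ this
      _ ≤ C.n := hq2
  have hQ : 0 < C.q ^ 2 := by positivity
  obtain ⟨X, hX⟩ := Int.eq_ofNat_of_zero_le (show 0 ≤ 3 * (C.n : ℤ) - y by linarith)
  have hxy : 0 < y - x + 1 := by
    have : (0 : ℤ) < C.n := by exact_mod_cast (by omega : 0 < C.n)
    omega
  obtain ⟨Y, hY⟩ := Int.eq_ofNat_of_zero_le (show 0 ≤ 3 * (C.n : ℤ) - x + 1 by omega)
  have hYX : (((Y - X : ℕ) : ℤ)) = y - x + 1 := by
    have : X ≤ Y := by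
      have : (X : ℤ) ≤ Y := by rw [← hX, ← hY]; omega
      exact_mod_cast this
    rw [Nat.cast_sub this]
    omega
  have hYn : ∀ j, j < Y → 100 * j ≤ 49 * C.n := by
    intro j hj
    have : (j : ℤ) < Y := by exact_mod_cast hj
    have h3 : (100 : ℤ) * j ≤ 49 * C.n := by omega
    exact_mod_cast h3
  -- the items
  set Cs : Finset ℕ := C.Ck.filter (fun i => i % 2 = 1 ∧ X ≤ i / 2 ∧ i / 2 < Y) with hCs
  have hcov : ∀ i, (i ∈ C.Bk ∨ i ∈ C.Ck ∨ i ∈ C.Pk) → i < C.n := by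
    intro i hi
    have : i ∈ C.Bk ∪ C.Ck ∪ C.Pk := by
      simp only [Finset.mem_union]; tauto
    rw [C.col.cover] at this
    exact Finset.mem_range.1 this
  have hCsn : ∀ i ∈ Cs, i < C.n := fun i hi => hcov i (Or.inr (Or.inl (Finset.mem_filter.1 hi).1))
  have hcount : (1 / 2 : ℝ) * ((y - x + 1 : ℤ) : ℝ) - (1 / 10 ^ 6) * C.n ≤ (Cs.card : ℝ) := by
    have a1 := sum_fib C.Ck (C.q ^ 2) hQ X Y
    have a2 := sum_fib (range C.n) (C.q ^ 2) hQ X Y
    have a3 : Y - X ≤ ((range C.n).filter (fun i => i % 2 = 1 ∧ X ≤ i / 2 ∧ i / 2 < Y)).card :=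
      odd_card fun j hj => by
        have := hYn j hj
        omega
    have a4 : ((y - x + 1 : ℤ) : ℝ) ≤
        (((range C.n).filter (fun i => i % 2 = 1 ∧ X ≤ i / 2 ∧ i / 2 < Y)).card : ℝ) := by
      rw [← hYX]
      exact_mod_cast a3
    rw [a2] at a4
    rw [hCs, a1]
    push_cast at a4 ⊢
    have a5 : ∀ r ∈ range (C.q ^ 2),
        (1 / 2 : ℝ) * ((((range C.n).filter
          (fun i => i % 2 = 1 ∧ (i / 2) % C.q ^ 2 = r ∧ X ≤ i / 2 ∧ i / 2 < Y)).card : ℕ) : ℝ)
          - (1 / 10 ^ 6) * C.n / (C.q : ℝ) ^ 2 ≤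
        ((C.Ck.filter
          (fun i => i % 2 = 1 ∧ (i / 2) % C.q ^ 2 = r ∧ X ≤ i / 2 ∧ i / 2 < Y)).card : ℝ) := by
      intro r hr
      have := C.col.balC 1 (by norm_num) r (Finset.mem_range.1 hr) X Y
      have := (abs_le.1 this).1
      linarith
    have a6 := Finset.sum_le_sum a5
    rw [Finset.sum_sub_distrib, ← Finset.mul_sum, Finset.sum_const, Finset.card_range,
      nsmul_eq_mul] at a6
    have a7 : ((C.q ^ 2 : ℕ) : ℝ) * ((1 / 10 ^ 6) * C.n / (C.q : ℝ) ^ 2) = (1 / 10 ^ 6) * C.n := by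
      have : ((C.q : ℝ)) ^ 2 ≠ 0 := by positivity
      push_cast
      field_simp
    rw [a7] at a6
    linarith
  -- bad neighbours
  set Bad : Finset ℕ := C.Pk ∪ (range C.n).filter (fun i => ¬ inVS C.n C.q C.S C.B0 i) with hBad
  have hBadc : (Bad.card : ℝ) ≤ (2 / 10 ^ 6) * C.n := by
    have b1 := Finset.card_union_le C.Pk ((range C.n).filter (fun i => ¬ inVS C.n C.q C.S C.B0 i))
    have b2 := C.col.cardP
    have b3 := vs_count C.n C.k C.q C.S C.B0 C.base hq
    have b4 : (((range C.n).filter (fun i => ¬ inVS C.n C.q C.S C.B0 i)).card : ℝ) ≤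
        (1 / 10 ^ 6) * C.n := by
      have b5 : 10 ^ 6 * ((range C.n).filter (fun i => ¬ inVS C.n C.q C.S C.B0 i)).card ≤ C.n :=
        (Nat.mul_le_mul_left _ b3).trans hq2
      have b6 : (10 ^ 6 : ℝ) *
          (((range C.n).filter (fun i => ¬ inVS C.n C.q C.S C.B0 i)).card : ℝ) ≤ C.n := by
        exact_mod_cast b5
      linarith
    have b7 : (Bad.card : ℝ) ≤ (C.Pk.card : ℝ) +
        (((range C.n).filter (fun i => ¬ inVS C.n C.q C.S C.B0 i)).card : ℝ) := by
      exact_mod_cast b1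
    linarith
  have hnb : ∀ v, (v ∈ C.Bk ∪ C.Pk) → v ∉ C.B1 → v ∈ Bad := by
    intro v hv hv1
    rw [Finset.mem_union] at hv
    rcases hv with hv | hv
    · refine Finset.mem_union_right _ ?_
      rw [Finset.mem_filter, Finset.mem_range]
      refine ⟨hcov v (Or.inl hv), fun h => hv1 ?_⟩
      rw [RCtx.B1, Finset.mem_filter]
      exact ⟨hv, h⟩
    · exact Finset.mem_union_left _ hv
  set G : Finset ℕ := Cs.filter (fun i => nbp C.n C.k i ∈ C.B1 ∧ nbm C.n C.k i ∈ C.B1) with hG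
  have hGc : (Cs.card : ℝ) ≤ (G.card : ℝ) + 2 * (Bad.card : ℝ) := by
    have c1 : Cs ⊆ G ∪ (Cs.filter (fun i => nbp C.n C.k i ∈ Bad) ∪
        Cs.filter (fun i => nbm C.n C.k i ∈ Bad)) := by
      intro i hi
      have hiC := (Finset.mem_filter.1 hi).1
      have hnC := C.col.nC i hiC
      by_cases hp : nbp C.n C.k i ∈ C.B1
      · by_cases hm : nbm C.n C.k i ∈ C.B1
        · exact Finset.mem_union_left _ (Finset.mem_filter.2 ⟨hi, hp, hm⟩)
        · exact Finset.mem_union_right _ (Finset.mem_union_right _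
            (Finset.mem_filter.2 ⟨hi, hnb _ hnC.2 hm⟩))
      · exact Finset.mem_union_right _ (Finset.mem_union_left _
            (Finset.mem_filter.2 ⟨hi, hnb _ hnC.1 hp⟩))
    have c2 : (Cs.filter (fun i => nbp C.n C.k i ∈ Bad)).card ≤ Bad.card := by
      refine Finset.card_le_card_of_injOn (fun i => nbp C.n C.k i) (fun i hi => ?_) ?_
      · exact (Finset.mem_filter.1 (Finset.mem_coe.1 hi)).2
      · intro a ha b hb hab
        exact nb_inj (hCsn a (Finset.mem_filter.1 (Finset.mem_coe.1 ha)).1)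
          (hCsn b (Finset.mem_filter.1 (Finset.mem_coe.1 hb)).1) hab
    have c3 : (Cs.filter (fun i => nbm C.n C.k i ∈ Bad)).card ≤ Bad.card := by
      refine Finset.card_le_card_of_injOn (fun i => nbm C.n C.k i) (fun i hi => ?_) ?_
      · exact (Finset.mem_filter.1 (Finset.mem_coe.1 hi)).2
      · intro a ha b hb hab
        exact nb_inj (hCsn a (Finset.mem_filter.1 (Finset.mem_coe.1 ha)).1)
          (hCsn b (Finset.mem_filter.1 (Finset.mem_coe.1 hb)).1) hab
    have c4 := (Finset.card_le_card c1).trans (Finset.card_union_le _ _)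
    have c5 := Finset.card_union_le (Cs.filter (fun i => nbp C.n C.k i ∈ Bad))
        (Cs.filter (fun i => nbm C.n C.k i ∈ Bad))
    have c6 : Cs.card ≤ G.card + 2 * Bad.card := by omega
    exact_mod_cast c6
  -- injection into the anchors
  have hinj : G.card ≤ ((Icc x y).filter (· ∈ C.It)).card := by
    refine Finset.card_le_card_of_injOn (fun i => 3 * (C.n : ℤ) - ((i / 2 : ℕ) : ℤ))
      (fun i hi => ?_) ?_
    · have hi := Finset.mem_coe.1 hi
      obtain ⟨hiC, hp, hm⟩ := Finset.mem_filter.1 hi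
      obtain ⟨hiCk, hodd, hXi, hYi⟩ := Finset.mem_filter.1 hiC
      have hin := hCsn i hiC
      have hj := hYn _ hYi
      have hns : ¬ (C.n % 2 = 0 ∧ i + 1 = C.n) := by
        rintro ⟨_, h⟩
        omega
      have hanc : anc C.n i = 3 * (C.n : ℤ) - ((i / 2 : ℕ) : ℤ) := by
        unfold anc
        rw [if_neg (by omega), if_neg hns]
      have hmOf : mOf C.n (3 * (C.n : ℤ) - ((i / 2 : ℕ) : ℤ)) = i := by
        unfold mOf
        have : 2 * (3 * (C.n : ℤ) - (3 * (C.n : ℤ) - ((i / 2 : ℕ) : ℤ))) + 1 = (i : ℤ) := by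
          have : i = 2 * (i / 2) + 1 := by omega
          omega
        rw [this]
        exact Int.toNat_natCast i
      have hXi' : (X : ℤ) ≤ ((i / 2 : ℕ) : ℤ) := by exact_mod_cast hXi
      have hYi' : ((i / 2 : ℕ) : ℤ) < (Y : ℤ) := by exact_mod_cast hYi
      have hj' : (100 : ℤ) * ((i / 2 : ℕ) : ℤ) ≤ 49 * C.n := by exact_mod_cast hj
      change 3 * (C.n : ℤ) - ((i / 2 : ℕ) : ℤ) ∈
        (((Icc x y).filter (· ∈ C.It) : Finset ℤ) : Set ℤ)
      refine Finset.mem_coe.2 (Finset.mem_filter.2 ⟨Finset.mem_Icc.2 ⟨by omega, by omega⟩, ?_⟩)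
      rw [RCtx.It, Finset.mem_filter]
      refine ⟨Finset.mem_Icc.2 ⟨by omega, by omega⟩, by omega, ?_, ?_, ?_⟩
      · rw [hmOf, hanc]
      · rw [hmOf]; exact hin
      · rw [hmOf]
        refine ⟨hiCk, ?_, hp, hm⟩
        unfold Pool.Agent.PGr.hi
        rw [decide_eq_true_eq]
        exact ⟨hodd, hns⟩
    · intro a ha b hb hab
      have ha := (Finset.mem_filter.1 (Finset.mem_filter.1 (Finset.mem_coe.1 ha)).1).2.1
      have hb := (Finset.mem_filter.1 (Finset.mem_filter.1 (Finset.mem_coe.1 hb)).1).2.1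
      simp only at hab
      omega
  have hinj' : (G.card : ℝ) ≤ (((Icc x y).filter (· ∈ C.It)).card : ℝ) := by exact_mod_cast hinj
  have hl' : (C.n : ℝ) ≤ 1000 * ((y - x + 1 : ℤ) : ℝ) := by exact_mod_cast hl
  linarith

end Pool.Agent.PGr
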