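import Pool.Agent.PGr.RDefs

/-!
# PGr-R-Zone: types and shifts of the neighbours are constant on long intervals of anchors

`m = mOf n A = 2j + 1`, `j = 3n - A`. `zoneP`: on the zone `m - k` never wraps (`k ≤ m`); `m + k` may
wrap. `zoneM`: `m + k < n` on the zone, `m - k` may wrap. On a subinterval `[a, b]` of at
least half the length all four data (type and shift of both neighbours) are constant, and there is
extra information on the neighbour that does not wrap.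

PLAN. `mOf n A = (2 (3n - A) + 1).toNat`; for `A ∈ [a0, a1] ⊆ (5n/2, 3n]` it is `< n`, odd, not special
(`5n < 2A`), `anc n m = A` (h0 of zoneP: `5n + 2 < 2 a0`, excludes `m = n` and the special vertex).
zoneP: `nbm n k m = (m + (n-k)) % n = m - k` since `k ≤ m` (`Nat.mod_eq_sub_mod`/`omega` with
`Nat.add_mod_right`). `nbp n k m = (m + k) % n` is `m + k` if `m + k < n` and `m + k - n` otherwise.
`m` decreases when `A` increases, so `{A : m + k < n}` is an upper interval of the zone: one of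
the two parts (no wrap or wrap) has at least half of the points: choose `[a,b]` = this part.
Values: for an odd (high) neighbour `v = m ± k (- n)`: `anc n v = 3n - v/2`, with
`v/2 = (v-1)/2 = j + (± k (- n))/2`, so `τ = ± k/2` or `(k - n)/2` (`s = 1`, `anc = A - τ`); the
number `± k (-n)` is even because `v` and `m` are both odd. For an even (low) neighbour `v`:
`anc n v = v/2 = j + (1 ± k (- n))/2 = τ - A` with `τ = 3n + (1 ± k (-n))/2`.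
Special neighbours (`n` even, `v = n - 1`) are excluded by the hypothesis `¬ spec n v`.
The type `s` is constant on each part since the parity of `v - m` is. Bounds: high:
`5n ≤ 2 (3n - v/2)` because `v < n`; low: `0 ≤ v/2`, `2 (v/2) ≤ n`.
zoneM: the mirror image: `nbp = m + k` on the whole zone, `nbm = m - k` if `k ≤ m`, otherwise
`m + n - k`.
-/

namespace Pool.Agent.PGr

open Finset

private theorem exNb (n : ℕ) (δ : ℤ) : ∃ s τ : ℤ, (s = 1 ∨ s = -1) ∧ (s = 1 → 2 * τ = δ) ∧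
    (s = -1 → 2 * τ = 6 * (n : ℤ) + 1 + δ) ∧ (s = 1 → δ % 2 = 0) ∧ (s = -1 → δ % 2 = 1) ∧
    ∀ (v : ℕ) (A : ℤ), v < n → ¬ spec n v → (v : ℤ) = 2 * (3 * (n : ℤ) - A) + 1 + δ →
      NbT n v A s τ := by
  rcases Int.even_or_odd' δ with ⟨e, he | he⟩
  · refine ⟨1, e, Or.inl rfl, fun _ => by omega, fun h => by omega, fun _ => by omega,
      fun h => by omega, ?_⟩
    intro v A hv hs hvA
    have h1 : v % 2 = 1 := by omega
    have h2 : anc n v = 3 * (n : ℤ) - ((v / 2 : ℕ) : ℤ) := by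
      unfold anc
      rw [if_neg (by omega), if_neg (by intro h; exact hs h)]
    refine Or.inl ⟨rfl, ?_, ?_, ?_⟩
    · rw [h2]; omega
    · omega
    · omega
  · refine ⟨-1, 3 * (n : ℤ) + e + 1, Or.inr rfl, fun h => by omega, fun _ => by omega,
      fun h => by omega, fun _ => by omega, ?_⟩
    intro v A hv hs hvA
    have h1 : v % 2 = 0 := by omega
    have h2 : anc n v = ((v / 2 : ℕ) : ℤ) := by
      unfold anc
      rw [if_pos h1]
    refine Or.inr ⟨rfl, ?_, ?_, ?_⟩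
    · rw [h2]; omega
    · omega
    · omega

private theorem mOf_facts (n : ℕ) (A : ℤ) (h : 5 * (n : ℤ) + 2 < 2 * A) (h2 : A ≤ 3 * n) :
    (mOf n A : ℤ) = 2 * (3 * (n : ℤ) - A) + 1 ∧ mOf n A < n ∧ anc n (mOf n A) = A := by
  have h0 : (mOf n A : ℤ) = 2 * (3 * (n : ℤ) - A) + 1 := by
    unfold mOf
    rw [Int.toNat_of_nonneg (by omega)]
  refine ⟨h0, by omega, ?_⟩
  unfold anc
  rw [if_neg (by omega), if_neg (by omega)]
  omega

private theorem halfI (a0 a1 t : ℤ) (h01 : a0 ≤ a1) : ∃ a b : ℤ, a0 ≤ a ∧ a ≤ b ∧ b ≤ a1 ∧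
    a1 - a0 ≤ 2 * (b - a) + 1 ∧ ((∀ A ∈ Icc a b, t ≤ A) ∨ (∀ A ∈ Icc a b, A < t)) := by
  by_cases c1 : t ≤ a0
  · refine ⟨a0, a1, le_rfl, h01, le_rfl, by omega, Or.inl ?_⟩
    intro A hA; rw [mem_Icc] at hA; omega
  by_cases c2 : a1 < t
  · refine ⟨a0, a1, le_rfl, h01, le_rfl, by omega, Or.inr ?_⟩
    intro A hA; rw [mem_Icc] at hA; omega
  by_cases c3 : a1 - a0 ≤ 2 * (a1 - t) + 1
  · refine ⟨t, a1, by omega, by omega, le_rfl, c3, Or.inl ?_⟩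
    intro A hA; rw [mem_Icc] at hA; omega
  · refine ⟨a0, t - 1, by omega, by omega, by omega, by omega, Or.inr ?_⟩
    intro A hA; rw [mem_Icc] at hA; omega

theorem zoneP (n k : ℕ) (hk : 1 ≤ k) (hk2 : 2 * k < n) (a0 a1 : ℤ) (h0 : 5 * (n : ℤ) + 2 < 2 * a0)
    (h01 : a0 ≤ a1) (h1 : (k : ℤ) ≤ 2 * (3 * (n : ℤ) - a1) + 1) (h2 : a1 ≤ 3 * n) :
    ∃ a b s1 τ1 s2 τ2 : ℤ, a0 ≤ a ∧ a ≤ b ∧ b ≤ a1 ∧ a1 - a0 ≤ 2 * (b - a) + 1 ∧
      (s1 = 1 ∨ s1 = -1) ∧ (s2 = 1 ∨ s2 = -1) ∧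
      (s1 = 1 → TauOK n k τ1) ∧ (s2 = 1 → TauOK n k τ2) ∧
      ((k % 2 = 0 ∧ s2 = 1 ∧ 2 * τ2 = -k) ∨ (k % 2 = 1 ∧ s2 = -1)) ∧
      ∀ A ∈ Icc a b, mOf n A < n ∧ anc n (mOf n A) = A ∧
        (¬ spec n (nbp n k (mOf n A)) → NbT n (nbp n k (mOf n A)) A s1 τ1) ∧
        (¬ spec n (nbm n k (mOf n A)) → NbT n (nbm n k (mOf n A)) A s2 τ2) := by
  obtain ⟨a, b, ha, hab, hb, hlen, hor⟩ := halfI a0 a1 ((5 * (n : ℤ) + 1 + k) / 2 + 1) h01
  obtain ⟨s2, τ2, hs2, h21, h22, h23, h24, hN2⟩ := exNb n (-(k : ℤ))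
  have hm : ∀ A ∈ Icc a b, nbm n k (mOf n A) < n ∧
      ((nbm n k (mOf n A) : ℕ) : ℤ) = 2 * (3 * (n : ℤ) - A) + 1 + (-(k : ℤ)) := by
    intro A hA
    rw [mem_Icc] at hA
    obtain ⟨f1, f2, f3⟩ := mOf_facts n A (by omega) (by omega)
    have e : nbm n k (mOf n A) = mOf n A - k := by
      unfold nbm
      have : mOf n A + (n - k) = (mOf n A - k) + n := by omega
      rw [this, Nat.add_mod_right, Nat.mod_eq_of_lt (by omega)]
    rw [e]
    constructor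
    · omega
    · omega
  have key : ∀ (s1 τ1 δ : ℤ), (s1 = 1 ∨ s1 = -1) → (s1 = 1 → TauOK n k τ1) →
      (∀ (v : ℕ) (A : ℤ), v < n → ¬ spec n v → (v : ℤ) = 2 * (3 * (n : ℤ) - A) + 1 + δ →
        NbT n v A s1 τ1) →
      (∀ A ∈ Icc a b, nbp n k (mOf n A) < n ∧
        ((nbp n k (mOf n A) : ℕ) : ℤ) = 2 * (3 * (n : ℤ) - A) + 1 + δ) →
      ∃ a b s1 τ1 s2 τ2 : ℤ, a0 ≤ a ∧ a ≤ b ∧ b ≤ a1 ∧ a1 - a0 ≤ 2 * (b - a) + 1 ∧
      (s1 = 1 ∨ s1 = -1) ∧ (s2 = 1 ∨ s2 = -1) ∧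
      (s1 = 1 → TauOK n k τ1) ∧ (s2 = 1 → TauOK n k τ2) ∧
      ((k % 2 = 0 ∧ s2 = 1 ∧ 2 * τ2 = -k) ∨ (k % 2 = 1 ∧ s2 = -1)) ∧
      ∀ A ∈ Icc a b, mOf n A < n ∧ anc n (mOf n A) = A ∧
        (¬ spec n (nbp n k (mOf n A)) → NbT n (nbp n k (mOf n A)) A s1 τ1) ∧
        (¬ spec n (nbm n k (mOf n A)) → NbT n (nbm n k (mOf n A)) A s2 τ2) := by
    intro s1 τ1 δ hs1 ht1 hN1 hp
    refine ⟨a, b, s1, τ1, s2, τ2, ha, hab, hb, hlen, hs1, hs2, ht1, ?_, ?_, ?_⟩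
    · intro h; exact Or.inr (Or.inl (h21 h))
    · rcases hs2 with h | h
      · left
        have := h23 h
        exact ⟨by omega, h, h21 h⟩
      · right
        have := h24 h
        exact ⟨by omega, h⟩
    · intro A hA
      have hA2 := mem_Icc.mp hA
      obtain ⟨f1, f2, f3⟩ := mOf_facts n A (by omega) (by omega)
      exact ⟨f2, f3, fun hs => hN1 _ _ (hp A hA).1 hs (hp A hA).2,
        fun hs => hN2 _ _ (hm A hA).1 hs (hm A hA).2⟩
  rcases hor with hno | hwr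
  · obtain ⟨s1, τ1, hs1, h11, h12, h13, h14, hN1⟩ := exNb n (k : ℤ)
    refine key s1 τ1 k hs1 (fun h => Or.inl (h11 h)) hN1 ?_
    intro A hA
    have hA1 := hno A hA
    rw [mem_Icc] at hA
    obtain ⟨f1, f2, f3⟩ := mOf_facts n A (by omega) (by omega)
    have e : nbp n k (mOf n A) = mOf n A + k := by
      unfold nbp
      rw [Nat.mod_eq_of_lt (by omega)]
    rw [e]
    constructor
    · omega
    · push_cast; omega
  · obtain ⟨s1, τ1, hs1, h11, h12, h13, h14, hN1⟩ := exNb n ((k : ℤ) - n)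
    refine key s1 τ1 ((k : ℤ) - n) hs1
      (fun h => Or.inr (Or.inr (Or.inr (by have := h11 h; omega)))) hN1 ?_
    intro A hA
    have hA1 := hwr A hA
    rw [mem_Icc] at hA
    obtain ⟨f1, f2, f3⟩ := mOf_facts n A (by omega) (by omega)
    have e : nbp n k (mOf n A) = mOf n A + k - n := by
      unfold nbp
      rw [Nat.mod_eq_sub_mod (by omega), Nat.mod_eq_of_lt (by omega)]
    rw [e]
    constructor
    · omega
    · omega

theorem zoneM (n k : ℕ) (hk : 1 ≤ k) (hk2 : 2 * k < n) (a0 a1 : ℤ) (h0 : 5 * (n : ℤ) < 2 * a0)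
    (h01 : a0 ≤ a1) (h1 : 2 * (3 * (n : ℤ) - a0) + 1 + k < n) (h2 : a1 ≤ 3 * n) :
    ∃ a b s1 τ1 s2 τ2 : ℤ, a0 ≤ a ∧ a ≤ b ∧ b ≤ a1 ∧ a1 - a0 ≤ 2 * (b - a) + 1 ∧
      (s1 = 1 ∨ s1 = -1) ∧ (s2 = 1 ∨ s2 = -1) ∧
      (s1 = 1 → TauOK n k τ1) ∧ (s2 = 1 → TauOK n k τ2) ∧
      ((k % 2 = 0 ∧ s1 = 1 ∧ 2 * τ1 = k) ∨ (k % 2 = 1 ∧ s1 = -1 ∧ 3 * (n : ℤ) ≤ τ1)) ∧
      ∀ A ∈ Icc a b, mOf n A < n ∧ anc n (mOf n A) = A ∧
        (¬ spec n (nbp n k (mOf n A)) → NbT n (nbp n k (mOf n A)) A s1 τ1) ∧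
        (¬ spec n (nbm n k (mOf n A)) → NbT n (nbm n k (mOf n A)) A s2 τ2) := by
  obtain ⟨a, b, ha, hab, hb, hlen, hor⟩ := halfI a0 a1 ((6 * (n : ℤ) + 1 - k) / 2 + 1) h01
  obtain ⟨s1, τ1, hs1, h11, h12, h13, h14, hN1⟩ := exNb n (k : ℤ)
  have hp : ∀ A ∈ Icc a b, nbp n k (mOf n A) < n ∧
      ((nbp n k (mOf n A) : ℕ) : ℤ) = 2 * (3 * (n : ℤ) - A) + 1 + (k : ℤ) := by
    intro A hA
    rw [mem_Icc] at hA
    obtain ⟨f1, f2, f3⟩ := mOf_facts n A (by omega) (by omega)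
    have e : nbp n k (mOf n A) = mOf n A + k := by
      unfold nbp
      rw [Nat.mod_eq_of_lt (by omega)]
    rw [e]
    constructor
    · omega
    · push_cast; omega
  have key : ∀ (s2 τ2 δ : ℤ), (s2 = 1 ∨ s2 = -1) → (s2 = 1 → TauOK n k τ2) →
      (∀ (v : ℕ) (A : ℤ), v < n → ¬ spec n v → (v : ℤ) = 2 * (3 * (n : ℤ) - A) + 1 + δ →
        NbT n v A s2 τ2) →
      (∀ A ∈ Icc a b, nbm n k (mOf n A) < n ∧
        ((nbm n k (mOf n A) : ℕ) : ℤ) = 2 * (3 * (n : ℤ) - A) + 1 + δ) →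
      ∃ a b s1 τ1 s2 τ2 : ℤ, a0 ≤ a ∧ a ≤ b ∧ b ≤ a1 ∧ a1 - a0 ≤ 2 * (b - a) + 1 ∧
      (s1 = 1 ∨ s1 = -1) ∧ (s2 = 1 ∨ s2 = -1) ∧
      (s1 = 1 → TauOK n k τ1) ∧ (s2 = 1 → TauOK n k τ2) ∧
      ((k % 2 = 0 ∧ s1 = 1 ∧ 2 * τ1 = k) ∨ (k % 2 = 1 ∧ s1 = -1 ∧ 3 * (n : ℤ) ≤ τ1)) ∧
      ∀ A ∈ Icc a b, mOf n A < n ∧ anc n (mOf n A) = A ∧
        (¬ spec n (nbp n k (mOf n A)) → NbT n (nbp n k (mOf n A)) A s1 τ1) ∧
        (¬ spec n (nbm n k (mOf n A)) → NbT n (nbm n k (mOf n A)) A s2 τ2) := by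
    intro s2 τ2 δ hs2 ht2 hN2 hm
    refine ⟨a, b, s1, τ1, s2, τ2, ha, hab, hb, hlen, hs1, hs2, ?_, ht2, ?_, ?_⟩
    · intro h; exact Or.inl (h11 h)
    · rcases hs1 with h | h
      · left
        have := h13 h
        exact ⟨by omega, h, h11 h⟩
      · right
        have := h14 h
        have := h12 h
        exact ⟨by omega, h, by omega⟩
    · intro A hA
      have hA2 := mem_Icc.mp hA
      obtain ⟨f1, f2, f3⟩ := mOf_facts n A (by omega) (by omega)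
      exact ⟨f2, f3, fun hs => hN1 _ _ (hp A hA).1 hs (hp A hA).2,
        fun hs => hN2 _ _ (hm A hA).1 hs (hm A hA).2⟩
  rcases hor with hwr | hno
  · obtain ⟨s2, τ2, hs2, h21, h22, h23, h24, hN2⟩ := exNb n ((n : ℤ) - k)
    refine key s2 τ2 ((n : ℤ) - k) hs2
      (fun h => Or.inr (Or.inr (Or.inl (h21 h)))) hN2 ?_
    intro A hA
    have hA1 := hwr A hA
    rw [mem_Icc] at hA
    obtain ⟨f1, f2, f3⟩ := mOf_facts n A (by omega) (by omega)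
    have e : nbm n k (mOf n A) = mOf n A + (n - k) := by
      unfold nbm
      rw [Nat.mod_eq_of_lt (by omega)]
    rw [e]
    constructor
    · omega
    · omega
  · obtain ⟨s2, τ2, hs2, h21, h22, h23, h24, hN2⟩ := exNb n (-(k : ℤ))
    refine key s2 τ2 (-(k : ℤ)) hs2 (fun h => Or.inr (Or.inl (h21 h))) hN2 ?_
    intro A hA
    have hA1 := hno A hA
    rw [mem_Icc] at hA
    obtain ⟨f1, f2, f3⟩ := mOf_facts n A (by omega) (by omega)
    have e : nbm n k (mOf n A) = mOf n A - k := by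
      unfold nbm
      have : mOf n A + (n - k) = (mOf n A - k) + n := by omega
      rw [this, Nat.add_mod_right, Nat.mod_eq_of_lt (by omega)]
    rw [e]
    constructor
    · omega
    · omega

end Pool.Agent.PGr
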