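import Pool.Agent.PGr.RCnt
import Pool.Agent.PGr.RGC
import Pool.Agent.PGr.RItem
import Pool.Agent.PGr.RBad
import Pool.Agent.PGr.RMem
import Pool.Agent.PGr.RZone

/-!
# PGr-R-TW1: the family of type I two-way gadgets (worked example)
-/

noncomputable section

namespace Pool.Agent.PGr

open Finset

/-- The resources of a type I gadget, parameter `(A, y2, 0)`. -/
def twF (d d' s1 τ1 s2 τ2 : ℤ) : Fin 8 → RF :=
  ![⟨true, ⟨-1, 2, 0, d + d'⟩⟩, ⟨true, ⟨0, 1, 0, 0⟩⟩, ⟨true, ⟨0, 1, 0, d⟩⟩, ⟨true, ⟨0, 1, 0, d'⟩⟩,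
    ⟨false, ⟨1, -1, 0, -d⟩⟩, ⟨false, ⟨1, -1, 0, -d'⟩⟩,
    ⟨false, ⟨1 + s1, -2 * s1, 0, -s1 * (d + d') - τ1⟩⟩, ⟨false, ⟨1, -s2, 0, -τ2⟩⟩]

/-- table of doubled slopes -/
def twT (s1 s2 : ℤ) : Fin 8 → ℤ × ℤ × ℤ :=
  ![(-1, 2, 0), (0, 1, 0), (0, 1, 0), (0, 1, 0), (2, -2, 0), (2, -2, 0),
    (2 * (1 + s1), 2 * (-2 * s1), 0), (2, 2 * (-s2), 0)]

/-- the extra forms -/
def twX (n : ℕ) (d d' s1 τ1 s2 τ2 : ℤ) : List AF :=
  exL n (twF d d' s1 τ1 s2 τ2 0).f ++ exL n (twF d d' s1 τ1 s2 τ2 1).f ++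
  exL n (twF d d' s1 τ1 s2 τ2 2).f ++ exL n (twF d d' s1 τ1 s2 τ2 3).f ++
  exD n (twF d d' s1 τ1 s2 τ2 4).f ++ exD n (twF d d' s1 τ1 s2 τ2 5).f ++
  exD n (twF d d' s1 τ1 s2 τ2 6).f ++ exD n (twF d d' s1 τ1 s2 τ2 7).f

/-- `Fit` from closed slopes and two long sides. -/
theorem Fit.two {q : ℕ} {B : ℤ} {l h t : ℤ × ℤ × ℤ} (ht : t ≠ 0 ∧ |t.1| ≤ B ∧ |t.2.1| ≤ B ∧ t.2.2 = 0)
    (hB : 0 ≤ B) (h1 : (q : ℤ) ≤ h.1 - l.1 + 1) (h2 : (q : ℤ) ≤ h.2.1 - l.2.1 + 1) :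
    Fit q B l h t :=
  ⟨ht.1, ht.2.1, ht.2.2.1, by rw [ht.2.2.2]; simpa using hB, fun _ => h1, fun _ => h2,
    fun h => absurd ht.2.2.2 h⟩

theorem tw1_fam (C : RCtx) (d d' a b c e s1 τ1 s2 τ2 : ℤ)
    (hs1 : s1 = 1 ∨ s1 = -1) (hs2 : s2 = 1 ∨ s2 = -1)
    (hτ2 : s2 = 1 → TauOK C.n C.k τ2)
    (hd : gd C.n C.k C.q d) (hd' : gd C.n C.k C.q d') (hdd : ¬ (C.q : ℤ) ∣ d - d')
    (hnb : ∀ A ∈ Icc a b, A ∈ C.It →
      NbT C.n (nbp C.n C.k (mOf C.n A)) A s1 τ1 ∧ NbT C.n (nbm C.n C.k (mOf C.n A)) A s2 τ2)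
    (ha : 251 * (C.n : ℤ) ≤ 100 * a) (hb : b ≤ 3 * C.n) (hab : (C.n : ℤ) ≤ 1000 * (b - a + 1))
    (hce : (C.n : ℤ) ≤ 1000 * (e - c + 1)) (hc : (C.n : ℤ) ≤ c) (he : e ≤ 2 * C.n)
    (hd0 : 0 ≤ d) (hd0' : 0 ≤ d') (hx : 1000 * (e + d) ≤ 2495 * C.n)
    (hx' : 1000 * (e + d') ≤ 2495 * C.n)
    (hy1 : (C.n : ℤ) ≤ 2 * c + d + d' - b) (hy1' : 2 * e + d + d' - a ≤ 2 * C.n) :
    Fam C.q C.S C.E C.bad (a, c, 0) (b, e, 0) C.It (twF d d' s1 τ1 s2 τ2) id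
      (twX C.n d d' s1 τ1 s2 τ2) (twT s1 s2) (fun _ => 51 / 100) := by
  have hqp := C.q_prime
  have hnq := C.n_big
  have hn := C.n_big'
  have hqb := C.q_big
  have hE := C.E_big
  have hq0 : (0 : ℤ) < C.q := by exact_mod_cast hqp.pos
  have side1 : (C.q : ℤ) ≤ b - a + 1 := by
    by_contra hcon
    push Not at hcon
    nlinarith
  have side2 : (C.q : ℤ) ≤ e - c + 1 := by
    by_contra hcon
    push Not at hcon
    nlinarith
  -- values of the forms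
  have hv : ∀ p ∈ bx (a, c, 0) (b, e, 0), p.1 ∈ C.It → ∀ i : Fin 8,
      1 ≤ (twF d d' s1 τ1 s2 τ2 i).f.ev p ∧ (twF d d' s1 τ1 s2 τ2 i).f.ev p ≤ 3 * C.n := by
    intro p hp hI i
    rw [mem_bx] at hp
    obtain ⟨⟨hp1, hp2⟩, ⟨hp3, hp4⟩, hp5, hp6⟩ := hp
    obtain ⟨A, y, z⟩ := p
    simp only at hp1 hp2 hp3 hp4 hp5 hp6 hI
    obtain ⟨hN1, hN2⟩ := hnb A (mem_Icc.2 ⟨hp1, hp2⟩) hI
    have hsp1 := spoke_eq (y := 2 * y + d + d' - A) hN1 (by omega) (by omega)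
    have hsp2 := spoke_eq (y := y) hN2 (by omega) (by omega)
    rcases hs1 with rfl | rfl <;> rcases hs2 with rfl | rfl <;> fin_cases i <;>
      simp [twF, AF.ev] <;> constructor <;> omega
  constructor
  · norm_num
  · norm_num
  · simp [twX, exL, exD]
  · show a ≤ b; omega
  · show c ≤ e; omega
  · show (0 : ℤ) ≤ 0; norm_num
  · exact item_count C a b ha hb hab
  · intro i
    rcases hs1 with rfl | rfl <;> rcases hs2 with rfl | rfl <;> fin_cases i <;> rfl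
  · intro i
    refine Fit.two ?_ (by norm_num) side1 side2
    rcases hs1 with rfl | rfl <;> rcases hs2 with rfl | rfl <;> revert i <;> decide
  · have h4 : ∀ i, Fit C.q 4 (a, c, 0) (b, e, 0) (twF d d' s1 τ1 s2 τ2 i).f.sl := by
      intro i
      refine Fit.two ?_ (by norm_num) side1 side2
      rcases hs1 with rfl | rfl <;> rcases hs2 with rfl | rfl <;> fin_cases i <;>
        simp [twF, AF.sl]
    intro X hX
    simp only [twX, List.mem_append] at hX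
    rcases hX with ((((((hX | hX) | hX) | hX) | hX) | hX) | hX) | hX
    · exact fit_exL (h4 0) X hX
    · exact fit_exL (h4 1) X hX
    · exact fit_exL (h4 2) X hX
    · exact fit_exL (h4 3) X hX
    · exact fit_exD (h4 4) X hX
    · exact fit_exD (h4 5) X hX
    · exact fit_exD (h4 6) X hX
    · exact fit_exD (h4 7) X hX
  · intro i; rfl
  · -- pairs of equal slopes
    have n1 : ¬ (C.q : ℤ) ∣ -d := fun h => hd.1 ((dvd_neg).1 h)
    have n2 : ¬ (C.q : ℤ) ∣ -d' := fun h => hd'.1 ((dvd_neg).1 h)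
    have n3 : ¬ (C.q : ℤ) ∣ 2 * (-d) - 2 * (-d') := fun h => hdd (by
      have h1 := dvd_two_mul hqp (by omega) (t := -(d - d'))
        (by rwa [show 2 * -(d - d') = 2 * (-d) - 2 * (-d') by ring])
      exact (dvd_neg).1 h1)
    have n4 : s2 = 1 → ¬ (C.q : ℤ) ∣ 2 * (-d) - 2 * (-τ2) := fun hs h =>
      gd_tau hd (hτ2 hs) (by
        have h2 := (dvd_neg).2 h
        rwa [show -(2 * (-d) - 2 * (-τ2)) = 2 * d - 2 * τ2 by ring] at h2)
    have n5 : s2 = 1 → ¬ (C.q : ℤ) ∣ 2 * (-d') - 2 * (-τ2) := fun hs h =>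
      gd_tau hd' (hτ2 hs) (by
        have h2 := (dvd_neg).2 h
        rwa [show -(2 * (-d') - 2 * (-τ2)) = 2 * d' - 2 * τ2 by ring] at h2)
    intro i j hij hT _
    have key : (i, j) ∈ [((1 : Fin 8), (2 : Fin 8)), (1, 3), (2, 3), (4, 5)] ∨
        (s2 = 1 ∧ (i, j) ∈ [((4 : Fin 8), (7 : Fin 8)), (5, 7)]) := by
      rcases hs1 with rfl | rfl <;> rcases hs2 with rfl | rfl <;> revert i j <;> decide
    simp only [List.mem_cons, Prod.mk.injEq, List.not_mem_nil, or_false] at key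
    rcases key with (⟨rfl, rfl⟩ | ⟨rfl, rfl⟩ | ⟨rfl, rfl⟩ | ⟨rfl, rfl⟩) | ⟨hs, ⟨rfl, rfl⟩ | ⟨rfl, rfl⟩⟩
    · simpa [twF, RF.sub, wt] using n1
    · simpa [twF, RF.sub, wt] using n2
    · simpa [twF, RF.sub, wt] using hdd
    · exact n3
    · exact n4 hs
    · exact n5 hs
  · intro p hp hI i
    have := hv p hp hI i
    exact ⟨by omega, by omega⟩
  · intro p _ _ i hi
    exact absurd rfl hi
  · intro i; norm_num
  · intro i; norm_num
  · intro i hi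
    exact absurd rfl hi
  · intro p _ _ i
    cases hl : (twF d d' s1 τ1 s2 τ2 i).lab
    · exact bad_diff C _
    · exact bad_label C _

/-- A good parameter is a gadget. -/
theorem tw1_of_good (C : RCtx) (ω : C.Om) (d d' a b c e s1 τ1 s2 τ2 : ℤ)
    (hs1 : s1 = 1 ∨ s1 = -1) (hs2 : s2 = 1 ∨ s2 = -1)
    (hnb : ∀ A ∈ Icc a b, A ∈ C.It →
      NbT C.n (nbp C.n C.k (mOf C.n A)) A s1 τ1 ∧ NbT C.n (nbm C.n C.k (mOf C.n A)) A s2 τ2)
    (hc : (C.n : ℤ) ≤ c) (he : e ≤ 2 * C.n)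
    (hd0 : 0 ≤ d) (hd0' : 0 ≤ d') (hx : 1000 * (e + d) ≤ 2495 * C.n)
    (hx' : 1000 * (e + d') ≤ 2495 * C.n)
    (hy1 : (C.n : ℤ) ≤ 2 * c + d + d' - b) (hy1' : 2 * e + d + d' - a ≤ 2 * C.n)
    (ha : 251 * (C.n : ℤ) ≤ 100 * a)
    (p : ℤ × ℤ × ℤ)
    (hp : p ∈ C.good (a, c, 0) (b, e, 0) C.It (twF d d' s1 τ1 s2 τ2) (fun _ => true) id
      (twX C.n d d' s1 τ1 s2 τ2) ω) :
    (C.env ω).tw1 d d' (mOf C.n p.1) p.2.1 ∧ mOf C.n p.1 < C.n ∧ anc C.n (mOf C.n p.1) = p.1 ∧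
      p.2.1 ∈ (C.env ω).PL := by
  classical
  have hn := C.n_big'
  rw [RCtx.good, goodP, mem_filter, mem_bx] at hp
  obtain ⟨⟨⟨hp1, hp2⟩, ⟨hp3, hp4⟩, hp5, hp6⟩, hI, hex, hsub, hres⟩ := hp
  obtain ⟨A, y, z⟩ := p
  simp only at hp1 hp2 hp3 hp4 hp5 hp6 hI
  obtain rfl : z = 0 := by omega
  obtain ⟨hN1, hN2⟩ := hnb A (mem_Icc.2 ⟨hp1, hp2⟩) hI
  obtain ⟨h1a, h1b, h1c, h1d⟩ := spoke_eq (y := 2 * y + d + d' - A) hN1 (by omega) (by omega)
  obtain ⟨h2a, h2b, h2c, h2d⟩ := spoke_eq (y := y) hN2 (by omega) (by omega)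
  have hIt := (C.mem_It A).1 hI
  have hA := hIt.2.2.1
  -- values
  have e0 : (twF d d' s1 τ1 s2 τ2 0).f.ev (A, y, 0) = 2 * y + d + d' - A := by
    simp [twF, AF.ev]; ring
  have e1 : (twF d d' s1 τ1 s2 τ2 1).f.ev (A, y, 0) = y := by simp [twF, AF.ev]
  have e2 : (twF d d' s1 τ1 s2 τ2 2).f.ev (A, y, 0) = y + d := by simp [twF, AF.ev]
  have e3 : (twF d d' s1 τ1 s2 τ2 3).f.ev (A, y, 0) = y + d' := by simp [twF, AF.ev]
  have e4 : (twF d d' s1 τ1 s2 τ2 4).f.ev (A, y, 0) = A - (y + d) := by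
    simp [twF, AF.ev]; ring
  have e5 : (twF d d' s1 τ1 s2 τ2 5).f.ev (A, y, 0) = A - (y + d') := by
    simp [twF, AF.ev]; ring
  have e6 : (twF d d' s1 τ1 s2 τ2 6).f.ev (A, y, 0) =
      |2 * y + d + d' - A - anc C.n (nbp C.n C.k (mOf C.n A))| := by
    rw [h1a]
    rcases hs1 with rfl | rfl <;> simp [twF, AF.ev] <;> ring
  have e7 : (twF d d' s1 τ1 s2 τ2 7).f.ev (A, y, 0) =
      |y - anc C.n (nbm C.n C.k (mOf C.n A))| := by
    rw [h2a]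
    simp [twF, AF.ev]; ring
  have hd1 : ∀ i j : Fin 8, (twF d d' s1 τ1 s2 τ2 i).lab = (twF d d' s1 τ1 s2 τ2 j).lab →
      i ≠ j → (twF d d' s1 τ1 s2 τ2 i).f.ev (A, y, 0) ≠ (twF d d' s1 τ1 s2 τ2 j).f.ev (A, y, 0) :=
    fun i j hl hij => ne_of_sub hl (hsub i j hij hij)
  have hexm : ∀ L : List AF, (∀ X ∈ L, X ∈ twX C.n d d' s1 τ1 s2 τ2) →
      ∀ X ∈ L, ¬ (C.q : ℤ) ∣ X.ev (A, y, 0) := fun L hL X hX => hex X (hL X hX)
  -- labels
  have hPL : ∀ i : Fin 8, (twF d d' s1 τ1 s2 τ2 i).lab = true →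
      (∀ X ∈ exL C.n (twF d d' s1 τ1 s2 τ2 i).f, X ∈ twX C.n d d' s1 τ1 s2 τ2) →
      505 * (C.n : ℤ) ≤ 1000 * (twF d d' s1 τ1 s2 τ2 i).f.ev (A, y, 0) →
      1000 * (twF d d' s1 τ1 s2 τ2 i).f.ev (A, y, 0) ≤ 2495 * C.n →
      (twF d d' s1 τ1 s2 τ2 i).f.ev (A, y, 0) ∈ (C.env ω).PL := by
    intro i hl hX hlo hhi
    refine mem_PL C ω _ (zall_of C.n (by omega) _ hlo hhi (ne_of_exL (hexm _ hX))) ?_
    have := hres i
    rwa [hl] at this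
  have hPD : ∀ i : Fin 8, (twF d d' s1 τ1 s2 τ2 i).lab = false →
      (∀ X ∈ exD C.n (twF d d' s1 τ1 s2 τ2 i).f, X ∈ twX C.n d d' s1 τ1 s2 τ2) →
      1 ≤ (twF d d' s1 τ1 s2 τ2 i).f.ev (A, y, 0) →
      (twF d d' s1 τ1 s2 τ2 i).f.ev (A, y, 0) ≤ 2 * C.n →
      (twF d d' s1 τ1 s2 τ2 i).f.ev (A, y, 0) ∈ (C.env ω).PD := by
    intro i hl hX hlo hhi
    obtain ⟨x1, x2, x3⟩ := ne_of_exD (hexm _ hX)
    refine mem_PD C ω _ (dall_of C.n _ hlo hhi x1 x2 x3) hhi ?_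
    have := hres i
    rwa [hl] at this
  have m0 := hPL 0 rfl (by simp +contextual [twX]) (by rw [e0]; omega) (by rw [e0]; omega)
  have m1 := hPL 1 rfl (by simp +contextual [twX]) (by rw [e1]; omega) (by rw [e1]; omega)
  have m2 := hPL 2 rfl (by simp +contextual [twX]) (by rw [e2]; omega) (by rw [e2]; omega)
  have m3 := hPL 3 rfl (by simp +contextual [twX]) (by rw [e3]; omega) (by rw [e3]; omega)
  have m4 := hPD 4 rfl (by simp +contextual [twX]) (by rw [e4]; omega) (by rw [e4]; omega)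
  have m5 := hPD 5 rfl (by simp +contextual [twX]) (by rw [e5]; omega) (by rw [e5]; omega)
  have m6 := hPD 6 rfl (by simp +contextual [twX]) (by rw [e6, h1a]; omega)
    (by rw [e6, h1a]; rcases hs1 with hs | hs
        · have := h1c hs; omega
        · have := h1d hs; omega)
  have m7 := hPD 7 rfl (by simp +contextual [twX]) (by rw [e7, h2a]; omega)
    (by rw [e7, h2a]; rcases hs2 with hs | hs
        · have := h2c hs; omega
        · have := h2d hs; omega)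
  have n01 := hd1 0 1 rfl (by decide)
  have n02 := hd1 0 2 rfl (by decide)
  have n03 := hd1 0 3 rfl (by decide)
  have n12 := hd1 1 2 rfl (by decide)
  have n13 := hd1 1 3 rfl (by decide)
  have n23 := hd1 2 3 rfl (by decide)
  have n45 := hd1 4 5 rfl (by decide)
  have n46 := hd1 4 6 rfl (by decide)
  have n47 := hd1 4 7 rfl (by decide)
  have n56 := hd1 5 6 rfl (by decide)
  have n57 := hd1 5 7 rfl (by decide)
  have n67 := hd1 6 7 rfl (by decide)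
  rw [e0] at m0 n01 n02 n03
  rw [e1] at m1 n01 n12 n13
  rw [e2] at m2 n02 n12 n23
  rw [e3] at m3 n03 n13 n23
  rw [e4] at m4 n45 n46 n47
  rw [e5] at m5 n45 n56 n57
  rw [e6] at m6 n46 n56 n67
  rw [e7] at m7 n47 n57 n67
  have hnr : (0 : ℝ) < C.n := by
    have : (0 : ℤ) < C.n := by omega
    exact_mod_cast this
  refine ⟨?_, hIt.2.2.2.1, hA, m1⟩
  simp only [Env.tw1]
  rw [show (C.env ω).n = C.n from rfl, hA]
  refine ⟨C.pureItem_of_It ω A hI, ?_, ?_, ?_, ?_, ?_, ?_⟩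
  · constructor
    · have : (C.n : ℤ) ≤ 2 * y + d + d' - A := by omega
      have h3 : (C.n : ℝ) ≤ ((2 * y + d + d' - A : ℤ) : ℝ) := by exact_mod_cast this
      linarith
    · have : 2 * y + d + d' - A ≤ 2 * (C.n : ℤ) := by omega
      have h3 : ((2 * y + d + d' - A : ℤ) : ℝ) ≤ 2 * (C.n : ℝ) := by exact_mod_cast this
      linarith
  · constructor
    · have : (C.n : ℤ) ≤ y := by omega
      have h3 : (C.n : ℝ) ≤ (y : ℝ) := by exact_mod_cast this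
      linarith
    · have : y ≤ 2 * (C.n : ℤ) := by omega
      have h3 : (y : ℝ) ≤ 2 * (C.n : ℝ) := by exact_mod_cast this
      linarith
  · intro z hz
    simp only [List.mem_cons, List.not_mem_nil, or_false] at hz
    rcases hz with rfl | rfl | rfl | rfl
    · exact m0
    · exact m1
    · exact m2
    · exact m3
  · simp only [List.nodup_cons, List.mem_cons, List.not_mem_nil, or_false, not_or,
      not_false_eq_true, List.nodup_nil, and_true]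
    exact ⟨⟨n01, n02, n03⟩, ⟨n12, n13⟩, n23⟩
  · intro z hz
    simp only [List.mem_cons, List.not_mem_nil, or_false] at hz
    rcases hz with rfl | rfl | rfl | rfl
    · exact m4
    · exact m5
    · exact m6
    · exact m7
  · simp only [List.nodup_cons, List.mem_cons, List.not_mem_nil, or_false, not_or,
      not_false_eq_true, List.nodup_nil, and_true]
    exact ⟨⟨n45, n46, n47⟩, ⟨n56, n57⟩, n67⟩

/-- The probability bound for explicit intervals. -/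
theorem tw1_pr (C : RCtx) (d d' a b c e s1 τ1 s2 τ2 : ℤ)
    (hs1 : s1 = 1 ∨ s1 = -1) (hs2 : s2 = 1 ∨ s2 = -1)
    (hτ2 : s2 = 1 → TauOK C.n C.k τ2)
    (hd : gd C.n C.k C.q d) (hd' : gd C.n C.k C.q d') (hdd : ¬ (C.q : ℤ) ∣ d - d')
    (hnb : ∀ A ∈ Icc a b, A ∈ C.It →
      NbT C.n (nbp C.n C.k (mOf C.n A)) A s1 τ1 ∧ NbT C.n (nbm C.n C.k (mOf C.n A)) A s2 τ2)
    (ha : 251 * (C.n : ℤ) ≤ 100 * a) (hb : b ≤ 3 * C.n) (hab : (C.n : ℤ) ≤ 1000 * (b - a + 1))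
    (hce : (C.n : ℤ) ≤ 1000 * (e - c + 1)) (hc : (C.n : ℤ) ≤ c) (he : e ≤ 2 * C.n)
    (hd0 : 0 ≤ d) (hd0' : 0 ≤ d') (hx : 1000 * (e + d) ≤ 2495 * C.n)
    (hx' : 1000 * (e + d') ≤ 2495 * C.n)
    (hy1 : (C.n : ℤ) ≤ 2 * c + d + d' - b) (hy1' : 2 * e + d + d' - a ≤ 2 * C.n) :
    Pr (fun ω : C.Om => ((C.env ω).twN d d' : ℝ) < c1R C.K0 * (C.n : ℝ) ^ 2)
      ≤ 2 * Real.exp (-(dG C.K0 * C.q)) := by
  classical
  have H := tw1_fam C d d' a b c e s1 τ1 s2 τ2 hs1 hs2 hτ2 hd hd' hdd hnb ha hb hab hce hc he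
    hd0 hd0' hx hx' hy1 hy1'
  have G := gc C.q C.K0 C.S C.E C.q_prime C.q_big C.bad (a, c, 0) (b, e, 0) C.It
    (twF d d' s1 τ1 s2 τ2) (fun _ => true) id (twX C.n d d' s1 τ1 s2 τ2) (twT s1 s2)
    (fun _ => 51 / 100) H
  refine le_trans (Pr_mono ?_) G
  intro ω hω
  refine lt_of_le_of_lt ?_ (lt_of_lt_of_le hω ?_)
  · -- the injection
    norm_cast
    refine Finset.card_le_card_of_injOn (fun p => (mOf C.n p.1, p.2.1)) ?_ ?_
    · intro p hp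
      obtain ⟨h1, h2, h3, h4⟩ := tw1_of_good C ω d d' a b c e s1 τ1 s2 τ2 hs1 hs2 hnb hc he
        hd0 hd0' hx hx' hy1 hy1' ha p hp
      rw [mem_coe, mem_filter, mem_product]
      exact ⟨⟨mem_range.2 h2, h4⟩, h1⟩
    · intro p hp p' hp' hpp
      obtain ⟨-, -, h3, -⟩ := tw1_of_good C ω d d' a b c e s1 τ1 s2 τ2 hs1 hs2 hnb hc he
        hd0 hd0' hx hx' hy1 hy1' ha p hp
      obtain ⟨-, -, h3', -⟩ := tw1_of_good C ω d d' a b c e s1 τ1 s2 τ2 hs1 hs2 hnb hc he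
        hd0 hd0' hx hx' hy1 hy1' ha p' hp'
      simp only [Prod.mk.injEq] at hpp
      have q1 : p.1 = p'.1 := by rw [← h3, ← h3', hpp.1]
      have b1 := (mem_bx _ _ _).1 (mem_filter.1 hp).1
      have b2 := (mem_bx _ _ _).1 (mem_filter.1 hp').1
      have q3 : p.2.2 = p'.2.2 := by
        have := b1.2.2; have := b2.2.2; simp only at *; omega
      exact Prod.ext q1 (Prod.ext hpp.2 q3)
  · rw [card_bx _ _ H.le1 H.le2 H.le3]
    have hK : (0 : ℝ) < C.K0 := by exact_mod_cast Nat.pos_of_ne_zero C.nK.out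
    have hg : 0 < cG C.K0 := by unfold cG gam; positivity
    have r1 : (C.n : ℝ) / 1000 ≤ ((b - a + 1 : ℤ) : ℝ) := by
      have : (C.n : ℝ) ≤ 1000 * ((b - a + 1 : ℤ) : ℝ) := by exact_mod_cast hab
      linarith
    have r2 : (C.n : ℝ) / 1000 ≤ ((e - c + 1 : ℤ) : ℝ) := by
      have : (C.n : ℝ) ≤ 1000 * ((e - c + 1 : ℤ) : ℝ) := by exact_mod_cast hce
      linarith
    have r3 : (C.n : ℝ) / 1000 * ((C.n : ℝ) / 1000) ≤
        ((b - a + 1 : ℤ) : ℝ) * ((e - c + 1 : ℤ) : ℝ) := mul_le_mul r1 r2 (by positivity)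
          (le_trans (by positivity) r1)
    have r4 : c1R C.K0 * (C.n : ℝ) ^ 2 ≤
        cG C.K0 * ((C.n : ℝ) / 1000 * ((C.n : ℝ) / 1000)) := by
      unfold c1R
      have : 0 ≤ cG C.K0 * (C.n : ℝ) ^ 2 := by positivity
      nlinarith
    refine r4.trans (mul_le_mul_of_nonneg_left ?_ hg.le)
    simpa using r3

theorem r_tw1 (C : RCtx) (d d' : ℤ) (h1 : inI C.n (7 / 100) (13 / 10) d)
    (h2 : inI C.n (7 / 100) (13 / 10) d') (hd : gd C.n C.k C.q d) (hd' : gd C.n C.k C.q d')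
    (hdd : ¬ (C.q : ℤ) ∣ d - d') :
    Pr (fun ω : C.Om => ((C.env ω).twN d d' : ℝ) < c1R C.K0 * (C.n : ℝ) ^ 2)
      ≤ 2 * Real.exp (-(dG C.K0 * C.q)) := by
  have hn := C.n_big'
  have hk1 := C.base.k_pos
  have hk2 := C.base.k_lt
  obtain ⟨h1a, h1b⟩ := h1
  obtain ⟨h2a, h2b⟩ := h2
  have i1 : 7 * (C.n : ℤ) ≤ 100 * d := by
    have : (7 : ℝ) * C.n ≤ 100 * d := by linarith
    exact_mod_cast this
  have i2 : 10 * d ≤ 13 * (C.n : ℤ) := by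
    have : (10 : ℝ) * d ≤ 13 * C.n := by linarith
    exact_mod_cast this
  have i3 : 7 * (C.n : ℤ) ≤ 100 * d' := by
    have : (7 : ℝ) * C.n ≤ 100 * d' := by linarith
    exact_mod_cast this
  have i4 : 10 * d' ≤ 13 * (C.n : ℤ) := by
    have : (10 : ℝ) * d' ≤ 13 * C.n := by linarith
    exact_mod_cast this
  by_cases hσ : 10 * (d + d') ≤ 19 * (C.n : ℤ)
  · obtain ⟨a, b, s1, τ1, s2, τ2, ha0, hab, hb1, hlen, hs1, hs2, hτ1, hτ2, -, hN⟩ :=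
      zoneP C.n C.k hk1 hk2 (253 * (C.n : ℤ) / 100 + 1) (255 * (C.n : ℤ) / 100) (by omega)
        (by omega) (by omega) (by omega)
    refine tw1_pr C d d' a b (max (C.n : ℤ) ((C.n + b - d - d' + 1) / 2))
      (min (2 * (C.n : ℤ)) (min ((2 * C.n + a - d - d') / 2)
        (min ((2495 * (C.n : ℤ) - 1000 * d) / 1000) ((2495 * (C.n : ℤ) - 1000 * d') / 1000))))
      s1 τ1 s2 τ2 hs1 hs2 hτ2 hd hd' hdd ?_ (by omega) (by omega) (by omega) (by omega)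
      (by omega) (by omega) (by omega) (by omega) (by omega) (by omega) (by omega) (by omega)
    intro A hA hI
    obtain ⟨-, -, n1, n2⟩ := hN A hA
    obtain ⟨p1, p2⟩ := C.not_spec_of_It A hI
    exact ⟨n1 p1, n2 p2⟩
  · obtain ⟨a, b, s1, τ1, s2, τ2, ha0, hab, hb1, hlen, hs1, hs2, hτ1, hτ2, -, hN⟩ :=
      zoneM C.n C.k hk1 hk2 (288 * (C.n : ℤ) / 100 + 1) (290 * (C.n : ℤ) / 100) (by omega)
        (by omega) (by omega) (by omega)
    refine tw1_pr C d d' a b (max (C.n : ℤ) ((C.n + b - d - d' + 1) / 2))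
      (min (2 * (C.n : ℤ)) (min ((2 * C.n + a - d - d') / 2)
        (min ((2495 * (C.n : ℤ) - 1000 * d) / 1000) ((2495 * (C.n : ℤ) - 1000 * d') / 1000))))
      s1 τ1 s2 τ2 hs1 hs2 hτ2 hd hd' hdd ?_ (by omega) (by omega) (by omega) (by omega)
      (by omega) (by omega) (by omega) (by omega) (by omega) (by omega) (by omega) (by omega)
    intro A hA hI
    obtain ⟨-, -, n1, n2⟩ := hN A hA
    obtain ⟨p1, p2⟩ := C.not_spec_of_It A hI
    exact ⟨n1 p1, n2 p2⟩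

end Pool.Agent.PGr
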