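import Pool.Agent.PGr.RDefs

/-!
# PGr-R-VS: few vertices outside `V_s`, size of S

STATEMENTS for `Base n k q S B0` with `10^4 ≤ q`:
* `S_size : (n : ℝ) * (999 / 1000) ≤ 2 * S * q^2`;
* `vs_count`: at most `14 q^2` vertices `i < n` are not in `V_s`.

PLAN.
* `S_low : n ≤ 2 q^2 (S+5) + 2`, and `10 q^2 + 2 ≤ n/1000` because `n ≥ q^6 ≥ 10^16 q^2`.
* `inVS n q S B0 i` for `i < n`: even `i`: `(i/2)/q^2 < S`; the others have
  `S q^2 ≤ i/2 < n/2 + 1/2 ≤ q^2 (S+5) + 3/2`, so `i/2` lies in an interval of at most `5 q^2 + 2`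
  integers: at most `5 q^2 + 2` even `i`. Odd `i`, not special: fails only if `(i/2)/q^2 < om ≤ 1`
  (i.e. `i/2 < q^2`: at most `q^2` such `i`; note `om ≤ 1` because it is `(ee % 2).toNat`) or
  `(i/2)/q^2 - om ≥ S`, then `i/2 ≥ S q^2` : at most `5 q^2 + 2` such `i`. One special vertex.
  In total `≤ 11 q^2 + 5 ≤ 14 q^2`.
  (Bound the cardinalities by mapping `i ↦ i/2`, injective on vertices of fixed parity, into an
  interval of natural numbers.)
-/

namespace Pool.Agent.PGr

open Finset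

private theorem rvs_big (n k q S B0 : ℕ) (h : Base n k q S B0) (hq : 10 ^ 4 ≤ q) :
    10 ^ 16 * q ^ 2 ≤ n := by
  have h1 : (10 ^ 4) ^ 4 ≤ q ^ 4 := Nat.pow_le_pow_left hq 4
  have h2 : q ^ 6 = q ^ 4 * q ^ 2 := by ring
  have h3 : (10 ^ 4) ^ 4 * q ^ 2 ≤ q ^ 4 * q ^ 2 := Nat.mul_le_mul_right _ h1
  have h4 := h.q_high
  have h5 : ((10 : ℕ) ^ 4) ^ 4 = 10 ^ 16 := by norm_num
  rw [h5] at h3
  omega

theorem S_size (n k q S B0 : ℕ) (h : Base n k q S B0) (hq : 10 ^ 4 ≤ q) :
    (999 / 1000 : ℝ) * n ≤ 2 * S * (q : ℝ) ^ 2 := by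
  have h1 := rvs_big n k q S B0 h hq
  have h2 := h.S_low
  have h3 : 1 ≤ q ^ 2 := Nat.one_le_pow _ _ (by omega)
  have h1' : (10 : ℝ) ^ 16 * (q : ℝ) ^ 2 ≤ n := by exact_mod_cast h1
  have h2' : (n : ℝ) ≤ 2 * (q : ℝ) ^ 2 * (S + 5) + 2 := by exact_mod_cast h2
  have h3' : (1 : ℝ) ≤ (q : ℝ) ^ 2 := by exact_mod_cast h3
  nlinarith

open Classical in
theorem vs_count (n k q S B0 : ℕ) [NeZero q] (h : Base n k q S B0) (hq : 10 ^ 4 ≤ q) :
    ((range n).filter (fun i => ¬ inVS n q S B0 i)).card ≤ 14 * q ^ 2 := by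
  have hq2 : 0 < q ^ 2 := Nat.pow_pos (by omega)
  have hlow := h.S_low
  have hom : ∀ u, om n q B0 u ≤ 1 := by
    intro u
    unfold om
    have h1 := Int.emod_lt_of_pos (ee n q B0 u) (by norm_num : (0 : ℤ) < 2)
    omega
  obtain ⟨T, hT⟩ : ∃ T : ℕ, T = q ^ 2 := ⟨_, rfl⟩
  have hup : ∀ i, i < n → i / 2 < T * (S + 5) + 1 := by
    intro i hi
    have h1 : i < 2 * (T * (S + 5)) + 2 := by
      rw [hT]
      have : 2 * q ^ 2 * (S + 5) = 2 * (q ^ 2 * (S + 5)) := by ring
      omega
    omega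
  have hsub : (range n).filter (fun i => ¬ inVS n q S B0 i) ⊆
      ((Ico (S * T) (T * (S + 5) + 1)).image (fun m => 2 * m)) ∪
      (((Ico (S * T) (T * (S + 5) + 1)).image (fun m => 2 * m + 1)) ∪
      (((range T).image (fun m => 2 * m + 1)) ∪ {n - 1})) := by
    intro i hi
    rw [mem_filter, mem_range] at hi
    obtain ⟨hin, hnot⟩ := hi
    simp only [mem_union, mem_image, mem_Ico, mem_range, mem_singleton]
    unfold inVS at hnot
    rw [← hT] at hnot
    rw [← hT] at hq2
    have hu := hup i hin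
    by_cases he : i % 2 = 0
    · rw [if_pos he] at hnot
      have h1 : S ≤ i / 2 / T := by
        by_contra hc
        exact hnot ⟨hin, by omega⟩
      have h2 : S * T ≤ i / 2 := (Nat.le_div_iff_mul_le hq2).1 h1
      left
      exact ⟨i / 2, ⟨h2, hu⟩, by omega⟩
    · rw [if_neg he] at hnot
      right
      by_cases hs : spec n i
      · right; right
        unfold spec at hs
        omega
      · by_cases hc : om n q B0 (un n q i) ≤ i / 2 / T
        · left
          have h1 : S ≤ i / 2 / T - om n q B0 (un n q i) := by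
            by_contra hc'
            exact hnot ⟨hin, hs, hc, by omega⟩
          have h2 : S * T ≤ i / 2 := (Nat.le_div_iff_mul_le hq2).1 (by omega)
          exact ⟨i / 2, ⟨h2, hu⟩, by omega⟩
        · right; left
          have h1 := hom (un n q i)
          have h2 : i / 2 / T = 0 := Nat.lt_one_iff.1 (lt_of_lt_of_le (not_le.1 hc) h1)
          have h3 : i / 2 < T := by
            rcases (Nat.div_eq_zero_iff).1 h2 with h4 | h4
            · omega
            · exact h4
          exact ⟨i / 2, h3, by omega⟩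
  have hc1 : ((Ico (S * T) (T * (S + 5) + 1)).image (fun m => 2 * m)).card ≤ 5 * T + 1 := by
    refine card_image_le.trans ?_
    rw [Nat.card_Ico]
    have : T * (S + 5) = S * T + 5 * T := by ring
    omega
  have hc2 : ((Ico (S * T) (T * (S + 5) + 1)).image (fun m => 2 * m + 1)).card ≤ 5 * T + 1 := by
    refine card_image_le.trans ?_
    rw [Nat.card_Ico]
    have : T * (S + 5) = S * T + 5 * T := by ring
    omega
  have hc3 : ((range T).image (fun m => 2 * m + 1)).card ≤ T := by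
    refine card_image_le.trans ?_
    rw [card_range]
  have hc4 : ({n - 1} : Finset ℕ).card = 1 := card_singleton _
  have hT1 : 1 ≤ T := by omega
  calc ((range n).filter (fun i => ¬ inVS n q S B0 i)).card
      ≤ _ := card_le_card hsub
    _ ≤ (5 * T + 1) + ((5 * T + 1) + (T + 1)) := by
        refine (card_union_le _ _).trans (Nat.add_le_add hc1 ?_)
        refine (card_union_le _ _).trans (Nat.add_le_add hc2 ?_)
        refine (card_union_le _ _).trans (Nat.add_le_add hc3 ?_)
        rw [hc4]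
    _ ≤ 14 * q ^ 2 := by rw [← hT]; omega

end Pool.Agent.PGr
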