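import Pool.Agent.PGr.RDefs

/-!
# PGr-R-Zero: an affine form is rarely divisible by q on a box

STATEMENT. `zero_box`: if the slopes of `F` fit the box (`Fit q B l h F.sl`, `B < q`), then
`#{p ∈ bx l h : q ∣ F.ev p} * q ≤ 2 * #(bx l h)`.
Also `fib_box`: the same for a prescribed residue (any `w : ZMod q`, multiplier `m` prime to `q`).

PLAN.
1. One dimension: for integers `x ≤ y`, `q ≤ y - x + 1`, `q ∤ a` (q prime), `s : ℤ`:
   `#{t ∈ Icc x y : q ∣ a t + s} * q ≤ 2 (y - x + 1)`.
   Proof: two such `t, t'` satisfy `q ∣ a (t - t')`, so `q ∣ t - t'`; hence the set is empty or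
   contained in `{t0 + q i}`; its cardinality is at most `(y-x+1)/q + 1`
   (e.g. `Int.Ico_filter_modEq_card` / `Int.card_Ioc_filter_modEq`..., or: the map
   `t ↦ (t - x) / q` is injective on the set with values in `[0, (y-x)/q]`, so the cardinality is at
   most `(y - x) / q + 1`), and `((y-x)/q + 1) * q ≤ (y - x) + q ≤ 2 (y-x+1)`.
2. `bx` is a product of three intervals. If `F.a ≠ 0` (then `|F.a| ≤ B < q`, so `q ∤ F.a`): count
   fibrewise over `(p.2.1, p.2.2)`: the filter is a disjoint union over the second factor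
   `Icc .. ×ˢ Icc ..` (`Finset.card_eq_sum_card_fiberwise` or `Finset.card_filter` + `sum_product`),
   each fibre has `card * q ≤ 2 * #(Icc l.1 h.1)`. Sum up. Similarly if `F.b ≠ 0` or `F.c ≠ 0`
   (one of them is nonzero by `Fit.ne`).
   For the fibrewise count it is convenient to prove first: for finsets `X Y`, a predicate `P` on
   `X × Y` and `N`: (∀ y ∈ Y, #{x ∈ X : P (x,y)} * q ≤ N) → #{p ∈ X ×ˢ Y : P p} * q ≤ N * #Y,
   and its mirror image.
3. `fib_box` : `(m : ℤ) F.ev p ≡ w` is the condition `q ∣ F.ev p - w'` for a suitable integer `w'`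
   (if `q ∤ m`), i.e. `q ∣ (F.lin 1 (-w')).ev p`, same slopes.
-/

namespace Pool.Agent.PGr

open Finset

private theorem one_dim (q : ℕ) (hq : q.Prime) (x y a s : ℤ) (hxy : (q : ℤ) ≤ y - x + 1)
    (ha : ¬ (q : ℤ) ∣ a) (P : ℤ → Prop) [DecidablePred P]
    (hP : ∀ t, P t ↔ (q : ℤ) ∣ a * t + s) :
    ((Icc x y).filter P).card * q ≤ 2 * (Icc x y).card := by
  have hq0 : (0 : ℤ) < q := by exact_mod_cast hq.pos
  have hinj : Set.InjOn (fun t : ℤ => (t - x) / q) ((Icc x y).filter P : Finset ℤ) := by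
    intro t ht t' ht' heq
    have h1 := (hP t).1 (Finset.mem_filter.1 (Finset.mem_coe.1 ht)).2
    have h2 := (hP t').1 (Finset.mem_filter.1 (Finset.mem_coe.1 ht')).2
    have h3 : (q : ℤ) ∣ a * (t - t') := by
      have h4 := dvd_sub h1 h2
      have e : a * t + s - (a * t' + s) = a * (t - t') := by ring
      rwa [e] at h4
    have h5 : (q : ℤ) ∣ t - t' :=
      ((Nat.prime_iff_prime_int.1 hq).dvd_or_dvd h3).resolve_left ha
    obtain ⟨k, hk⟩ := h5
    have h6 : (t - x) / q = (t' - x) / q + k := by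
      rw [show t - x = (t' - x) + q * k by linarith, Int.add_mul_ediv_left _ _ hq0.ne']
    have h7 : (t - x) / q = (t' - x) / q := heq
    have h8 : k = 0 := by linarith
    rw [h8, mul_zero] at hk
    linarith
  have hmaps : Set.MapsTo (fun t : ℤ => (t - x) / q) ((Icc x y).filter P : Finset ℤ)
      (Icc 0 ((y - x) / q) : Finset ℤ) := by
    intro t ht
    have h1 := Finset.mem_Icc.1 (Finset.mem_filter.1 (Finset.mem_coe.1 ht)).1
    refine Finset.mem_coe.2 (Finset.mem_Icc.2 ⟨?_, ?_⟩)
    · exact Int.ediv_nonneg (by linarith [h1.1]) hq0.le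
    · exact Int.ediv_le_ediv hq0 (by linarith [h1.2])
  have hle := Finset.card_le_card_of_injOn _ hmaps hinj
  rw [Int.card_Icc] at hle
  rw [Int.card_Icc]
  have hx0 : 0 ≤ y - x := by
    have : (1 : ℤ) ≤ q := by exact_mod_cast hq.one_lt.le
    linarith
  have hd : 0 ≤ (y - x) / q := Int.ediv_nonneg hx0 hq0.le
  have hm : ((y - x) / q) * q ≤ y - x := Int.ediv_mul_le _ hq0.ne'
  have e1 : (((((y - x) / q + 1 - 0).toNat : ℕ)) : ℤ) = (y - x) / q + 1 := by
    rw [Int.toNat_of_nonneg (by linarith)]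
    ring
  have e2 : ((((y + 1 - x).toNat : ℕ)) : ℤ) = y - x + 1 := by
    rw [Int.toNat_of_nonneg (by linarith)]
    ring
  have h9 : (((Icc x y).filter P).card : ℤ) ≤ (y - x) / q + 1 := by
    rw [← e1]
    exact_mod_cast hle
  have h10 : (((Icc x y).filter P).card : ℤ) * q ≤ 2 * (((y + 1 - x).toNat : ℕ) : ℤ) := by
    rw [e2]
    calc (((Icc x y).filter P).card : ℤ) * q ≤ ((y - x) / q + 1) * q :=
          mul_le_mul_of_nonneg_right h9 hq0.le
      _ ≤ 2 * (y - x + 1) := by linarith
  exact_mod_cast h10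

private theorem fibR {α β : Type*} (X : Finset α) (Y : Finset β) (P : α × β → Prop)
    [DecidablePred P] (N q : ℕ)
    (h : ∀ y ∈ Y, (X.filter (fun x => P (x, y))).card * q ≤ N) :
    ((X ×ˢ Y).filter P).card * q ≤ N * Y.card := by
  have e : ((X ×ˢ Y).filter P).card = ∑ y ∈ Y, (X.filter (fun x => P (x, y))).card := by
    rw [Finset.card_filter, Finset.sum_product_right]
    refine Finset.sum_congr rfl fun y _ => ?_
    rw [Finset.card_filter]
  rw [e, Finset.sum_mul]
  calc ∑ y ∈ Y, (X.filter (fun x => P (x, y))).card * q ≤ ∑ y ∈ Y, N := Finset.sum_le_sum h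
    _ = N * Y.card := by rw [Finset.sum_const, smul_eq_mul, mul_comm]

private theorem fibL {α β : Type*} (X : Finset α) (Y : Finset β) (P : α × β → Prop)
    [DecidablePred P] (N q : ℕ)
    (h : ∀ x ∈ X, (Y.filter (fun y => P (x, y))).card * q ≤ N) :
    ((X ×ˢ Y).filter P).card * q ≤ N * X.card := by
  have e : ((X ×ˢ Y).filter P).card = ∑ x ∈ X, (Y.filter (fun y => P (x, y))).card := by
    rw [Finset.card_filter, Finset.sum_product]
    refine Finset.sum_congr rfl fun y _ => ?_
    rw [Finset.card_filter]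
  rw [e, Finset.sum_mul]
  calc ∑ x ∈ X, (Y.filter (fun y => P (x, y))).card * q ≤ ∑ x ∈ X, N := Finset.sum_le_sum h
    _ = N * X.card := by rw [Finset.sum_const, smul_eq_mul, mul_comm]

private theorem ndvd (q : ℕ) (B : ℤ) (hB : B < q) (a : ℤ) (ha : a ≠ 0) (hb : |a| ≤ B) :
    ¬ (q : ℤ) ∣ a := fun h => ha (Int.eq_zero_of_abs_lt_dvd h (lt_of_le_of_lt hb hB))

open Classical in
theorem zero_box (q : ℕ) (hq : q.Prime) (B : ℤ) (hB : B < q) (l h : ℤ × ℤ × ℤ) (F : AF)
    (hF : Fit q B l h F.sl) :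
    ((bx l h).filter (fun p => (q : ℤ) ∣ F.ev p)).card * q ≤ 2 * (bx l h).card := by
  have hcard : (bx l h).card =
      (Icc l.1 h.1).card * ((Icc l.2.1 h.2.1).card * (Icc l.2.2 h.2.2).card) := by
    unfold bx
    rw [Finset.card_product, Finset.card_product]
  by_cases h1 : F.a = 0
  · by_cases h2 : F.b = 0
    · have h3 : F.c ≠ 0 := by
        intro h3
        apply hF.ne
        unfold AF.sl
        rw [h1, h2, h3]
        rfl
      have key : ((bx l h).filter (fun p => (q : ℤ) ∣ F.ev p)).card * q ≤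
          2 * (Icc l.2.2 h.2.2).card * (Icc l.2.1 h.2.1).card * (Icc l.1 h.1).card := by
        unfold bx
        refine fibL _ _ _ _ q fun x _ => ?_
        refine fibL _ _ _ _ q fun y _ => ?_
        refine one_dim q hq _ _ F.c (F.a * x + F.b * y + F.g) (hF.s3 h3)
          (ndvd q B hB F.c h3 hF.b3) _ ?_
        intro t
        have e : F.ev (x, y, t) = F.c * t + (F.a * x + F.b * y + F.g) := by
          unfold AF.ev
          ring
        rw [e]
      rw [hcard]
      refine key.trans (le_of_eq ?_)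
      ring
    · have key : ((bx l h).filter (fun p => (q : ℤ) ∣ F.ev p)).card * q ≤
          2 * (Icc l.2.1 h.2.1).card * (Icc l.2.2 h.2.2).card * (Icc l.1 h.1).card := by
        unfold bx
        refine fibL _ _ _ _ q fun x _ => ?_
        refine fibR _ _ _ _ q fun z _ => ?_
        refine one_dim q hq _ _ F.b (F.a * x + F.c * z + F.g) (hF.s2 h2)
          (ndvd q B hB F.b h2 hF.b2) _ ?_
        intro t
        have e : F.ev (x, t, z) = F.b * t + (F.a * x + F.c * z + F.g) := by
          unfold AF.ev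
          ring
        rw [e]
      rw [hcard]
      refine key.trans (le_of_eq ?_)
      ring
  · have key : ((bx l h).filter (fun p => (q : ℤ) ∣ F.ev p)).card * q ≤
        2 * (Icc l.1 h.1).card * (Icc l.2.1 h.2.1 ×ˢ Icc l.2.2 h.2.2).card := by
      unfold bx
      refine fibR _ _ _ _ q fun z _ => ?_
      refine one_dim q hq _ _ F.a (F.b * z.1 + F.c * z.2 + F.g) (hF.s1 h1)
        (ndvd q B hB F.a h1 hF.b1) _ ?_
      intro t
      have e : F.ev (t, z) = F.a * t + (F.b * z.1 + F.c * z.2 + F.g) := by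
        unfold AF.ev
        ring
      rw [e]
    rw [hcard]
    refine key.trans (le_of_eq ?_)
    rw [Finset.card_product]
    ring

open Classical in
theorem fib_box (q : ℕ) (hq : q.Prime) (B : ℤ) (hB : B < q) (l h : ℤ × ℤ × ℤ) (F : AF)
    (hF : Fit q B l h F.sl) (m : ℤ) (hm : ¬ (q : ℤ) ∣ m) (w : ZMod q) :
    ((bx l h).filter (fun p => ((m * F.ev p : ℤ) : ZMod q) = w)).card * q
      ≤ 2 * (bx l h).card := by
  have : Fact q.Prime := ⟨hq⟩
  have : NeZero q := ⟨hq.ne_zero⟩
  have hm0 : (m : ZMod q) ≠ 0 := by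
    intro h0
    exact hm ((ZMod.intCast_zmod_eq_zero_iff_dvd m q).1 h0)
  set w' : ℤ := (((m : ZMod q)⁻¹ * w : ZMod q).val : ℤ) with hw'
  have hw1 : ((w' : ℤ) : ZMod q) = (m : ZMod q)⁻¹ * w := by
    rw [hw']
    push_cast
    exact ZMod.natCast_zmod_val _
  have hsl : (F.lin 1 (-w')).sl = F.sl := by
    unfold AF.lin AF.sl
    simp
  have hz := zero_box q hq B hB l h (F.lin 1 (-w')) (by rw [hsl]; exact hF)
  have hset : (bx l h).filter (fun p => ((m * F.ev p : ℤ) : ZMod q) = w) =
      (bx l h).filter (fun p => (q : ℤ) ∣ (F.lin 1 (-w')).ev p) := by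
    refine Finset.filter_congr fun p _ => ?_
    have e : (F.lin 1 (-w')).ev p = F.ev p - w' := by
      unfold AF.lin AF.ev
      simp only
      ring
    rw [e, ← ZMod.intCast_zmod_eq_zero_iff_dvd, Int.cast_sub, Int.cast_mul, sub_eq_zero, hw1]
    constructor
    · intro h1
      rw [← h1, inv_mul_cancel_left₀ hm0]
    · intro h1
      rw [h1, mul_inv_cancel_left₀ hm0]
  rw [hset]
  exact hz

end Pool.Agent.PGr
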