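import Pool.Agent.PGr.Defs

/-!
# PGr, part S: arithmetic modulo `q ^ 2`
-/

namespace Pool.Agent.PGr.SS

theorem qq_zero (q : ℕ) : (q : ZMod (q ^ 2)) * q = 0 := by
  have h : ((q ^ 2 : ℕ) : ZMod (q ^ 2)) = 0 := ZMod.natCast_self _
  rw [← h]; push_cast; ring

theorem isUnit_int {q : ℕ} (hq : q.Prime) {s : ℤ} (hs0 : s ≠ 0) (hs : |s| < q) :
    IsUnit (s : ZMod (q ^ 2)) := by
  have hcop : Nat.Coprime s.natAbs (q ^ 2) := by
    apply Nat.Coprime.pow_right
    rw [Nat.coprime_comm]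
    refine (Nat.Prime.coprime_iff_not_dvd hq).mpr ?_
    intro hd
    have h1 : s.natAbs ≠ 0 := Int.natAbs_ne_zero.mpr hs0
    have h2 := Nat.le_of_dvd (Nat.pos_of_ne_zero h1) hd
    have h3 : (s.natAbs : ℤ) = |s| := Int.natCast_natAbs s
    omega
  have h4 : IsUnit ((s.natAbs : ℕ) : ZMod (q ^ 2)) := (ZMod.isUnit_iff_coprime _ _).mpr hcop
  rcases Int.natAbs_eq s with h | h
  · rw [h]; simpa using h4
  · rw [h]
    have h5 := h4.neg
    simpa using h5

theorem two_mul_inv {q : ℕ} (hq : q.Prime) (h : 17 < q) : (2 : ZMod (q ^ 2)) * 2⁻¹ = 1 := by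
  have h1 := isUnit_int hq (s := 2) (by norm_num) (by norm_num; omega)
  exact ZMod.mul_inv_of_unit _ (by exact_mod_cast h1)

theorem three_mul_inv {q : ℕ} (hq : q.Prime) (h : 17 < q) : (3 : ZMod (q ^ 2)) * 3⁻¹ = 1 := by
  have h1 := isUnit_int hq (s := 3) (by norm_num) (by norm_num; omega)
  exact ZMod.mul_inv_of_unit _ (by exact_mod_cast h1)

theorem quad_right {R : Type*} [CommRing R] {Q a a' b : R} (e1 : Q * Q = 0) (e2 : a * a' = 1)
    (x : R) :
    a * (a' * x - b * Q * a' ^ 3 * x ^ 2) + b * Q * (a' * x - b * Q * a' ^ 3 * x ^ 2) ^ 2 = x := by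
  linear_combination (x - Q * b * x ^ 2 * a' ^ 2) * e2
    + (-2 * b ^ 2 * x ^ 3 * a' ^ 4 + Q * b ^ 3 * x ^ 4 * a' ^ 6) * e1

theorem quad_left {R : Type*} [CommRing R] {Q a a' b : R} (e1 : Q * Q = 0) (e2 : a * a' = 1)
    (u : R) :
    a' * (a * u + b * Q * u ^ 2) - b * Q * a' ^ 3 * (a * u + b * Q * u ^ 2) ^ 2 = u := by
  linear_combination (u - Q * b * u ^ 2 * a' * (a * a' + 1)) * e2
    + (-2 * a * b ^ 2 * u ^ 3 * a' ^ 3 - Q * b ^ 3 * u ^ 4 * a' ^ 3) * e1

theorem lam_lamI {q : ℕ} (hq : q.Prime) (h : 17 < q) (x : ZMod (q ^ 2)) :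
    lam q (lamI q x) = x := by
  have := quad_right (b := 1) (qq_zero q) (two_mul_inv hq h) x
  unfold lam lamI
  simpa using this

theorem lamI_lam {q : ℕ} (hq : q.Prime) (h : 17 < q) (u : ZMod (q ^ 2)) :
    lamI q (lam q u) = u := by
  have := quad_left (b := 1) (qq_zero q) (two_mul_inv hq h) u
  unfold lam lamI
  simpa using this

theorem del_delI {q : ℕ} (x : ZMod (q ^ 2)) : del q (delI q x) = x := by
  have := quad_right (a := 1) (a' := 1) (b := 1) (qq_zero q) (by ring) x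
  unfold del delI
  simpa using this

theorem delI_del {q : ℕ} (u : ZMod (q ^ 2)) : delI q (del q u) = u := by
  have := quad_left (a := 1) (a' := 1) (b := 1) (qq_zero q) (by ring) u
  unfold del delI
  simpa using this

theorem hh_hhI {q : ℕ} (hq : q.Prime) (h : 17 < q) (x : ZMod (q ^ 2)) :
    hh q (hhI q x) = x := by
  have := quad_right (b := 2) (qq_zero q) (three_mul_inv hq h) x
  unfold hh hhI
  simpa using this

theorem hhI_hh {q : ℕ} (hq : q.Prime) (h : 17 < q) (u : ZMod (q ^ 2)) :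
    hhI q (hh q u) = u := by
  have := quad_left (b := 2) (qq_zero q) (three_mul_inv hq h) u
  unfold hh hhI
  simpa using this

theorem lam_inj {q : ℕ} (hq : q.Prime) (h : 17 < q) {u v : ZMod (q ^ 2)} :
    lam q u = lam q v ↔ u = v :=
  ⟨fun e => by rw [← lamI_lam hq h u, ← lamI_lam hq h v, e], fun e => by rw [e]⟩

theorem del_inj {q : ℕ} {u v : ZMod (q ^ 2)} : del q u = del q v ↔ u = v :=
  ⟨fun e => by rw [← delI_del u, ← delI_del v, e], fun e => by rw [e]⟩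

theorem hh_inj {q : ℕ} (hq : q.Prime) (h : 17 < q) {u v : ZMod (q ^ 2)} :
    hh q u = hh q v ↔ u = v :=
  ⟨fun e => by rw [← hhI_hh hq h u, ← hhI_hh hq h v, e], fun e => by rw [e]⟩

theorem lam_eq_iff {q : ℕ} (hq : q.Prime) (h : 17 < q) {u x : ZMod (q ^ 2)} :
    lam q u = x ↔ u = lamI q x :=
  ⟨fun e => by rw [← e, lamI_lam hq h], fun e => by rw [e, lam_lamI hq h]⟩

theorem del_eq_iff {q : ℕ} {u x : ZMod (q ^ 2)} : del q u = x ↔ u = delI q x :=
  ⟨fun e => by rw [← e, delI_del], fun e => by rw [e, del_delI]⟩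

theorem hh_eq (q : ℕ) (u : ZMod (q ^ 2)) : hh q u = 2 * lam q u - u := by
  unfold hh lam; ring

theorem del_eq (q : ℕ) (u : ZMod (q ^ 2)) : del q u = lam q u - u := by
  unfold del lam; ring

theorem del_eq' (q : ℕ) (u : ZMod (q ^ 2)) : del q u = hh q u - lam q u := by
  unfold del lam hh; ring

/-- a unit plus a multiple of `q` is a unit -/
theorem isUnit_add_q {q : ℕ} {x : ZMod (q ^ 2)} (hx : IsUnit x) (y : ZMod (q ^ 2)) :
    IsUnit (x + (q : ZMod (q ^ 2)) * y) := by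
  obtain ⟨w, hw⟩ := hx.exists_right_inv
  have e1 := qq_zero q
  apply IsUnit.of_mul_eq_one (w * (1 - (q : ZMod (q ^ 2)) * y * w))
  linear_combination (1 - (q : ZMod (q ^ 2)) * y * w) * hw - (y ^ 2 * w ^ 2) * e1

end Pool.Agent.PGr.SS
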