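import Pool.Agent.PGr.SColG
import Pool.Agent.PGr.SColT

/-!
# PGr, part S, colouring: the colour functions (block case)
-/

namespace Pool.Agent.PGr.SC

open Finset

/-! ## Blocks -/

/-- block of the position `t` (blocks of length `l`, the last of the `h` blocks is longer) -/
def bl (l h t : ℕ) : ℕ := min (t / l) (h - 1)

theorem bl_mul_le {l h t : ℕ} : l * bl l h t ≤ t :=
  (Nat.mul_le_mul_left _ (min_le_left _ _)).trans (Nat.mul_div_le t l)

theorem bl_le {l h t : ℕ} : bl l h t ≤ h - 1 := min_le_right _ _

theorem lt_bl {l h t : ℕ} (hl : 0 < l) : t < l * bl l h t + l ∨ bl l h t = h - 1 := by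
  unfold bl
  rcases le_total (t / l) (h - 1) with h1 | h1
  · left
    rw [min_eq_left h1]
    have := Nat.lt_mul_div_succ t hl
    rw [Nat.mul_add, Nat.mul_one] at this
    exact this
  · right; exact min_eq_right h1

theorem bl_unique {l h t b : ℕ} (hl : 0 < l) (hb : b ≤ h - 1) (h1 : l * b ≤ t)
    (h2 : t < l * b + l ∨ b = h - 1) : bl l h t = b := by
  have hb1 : b ≤ t / l := by rw [Nat.le_div_iff_mul_le hl, mul_comm]; exact h1
  unfold bl
  rcases h2 with h2 | h2
  · have : t / l < b + 1 := by
      rw [Nat.div_lt_iff_lt_mul hl, mul_comm, Nat.mul_add, Nat.mul_one]; exact h2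
    have : t / l = b := by omega
    rw [this]; exact min_eq_left hb
  · rw [← h2]; exact min_eq_right hb1

/-- offset inside the block -/
def off (l h t : ℕ) : ℕ := t - l * bl l h t

theorem off_add {l h t : ℕ} : l * bl l h t + off l h t = t := by
  unfold off; have := bl_mul_le (l := l) (h := h) (t := t); omega

/-- moving one step inside the cycle -/
theorem bl_step {l h L t : ℕ} (hl : 0 < l) (hh : 2 ≤ h) (hL : l * h ≤ L) (ht : t < L) :
    (t + 1 < L ∧ bl l h (t + 1) = bl l h t ∧ off l h (t + 1) = off l h t + 1) ∨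
    (t + 1 < L ∧ bl l h (t + 1) = bl l h t + 1 ∧ off l h (t + 1) = 0 ∧ off l h t + 1 = l) ∨
    (t + 1 = L ∧ bl l h t = h - 1 ∧ l ≤ off l h t + 1) := by
  have h1 := bl_mul_le (l := l) (h := h) (t := t)
  have h2 := bl_le (l := l) (h := h) (t := t)
  have h3 := lt_bl (h := h) (t := t) hl
  have h4 := off_add (l := l) (h := h) (t := t)
  rcases Nat.lt_or_ge (t + 1) L with h5 | h5
  · by_cases h6 : t + 1 < l * bl l h t + l ∨ bl l h t = h - 1
    · left
      have h7 : bl l h (t + 1) = bl l h t := bl_unique hl h2 (by omega) h6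
      refine ⟨h5, h7, ?_⟩
      unfold off; rw [h7]; omega
    · right; left
      push Not at h6
      have h7 : t + 1 = l * bl l h t + l := by omega
      have h8 : l * (bl l h t + 1) = t + 1 := by rw [Nat.mul_add, Nat.mul_one]; omega
      have h9 : bl l h (t + 1) = bl l h t + 1 :=
        bl_unique hl (by omega) (by omega) (by left; omega)
      refine ⟨h5, h9, ?_, by omega⟩
      unfold off; rw [h9]; omega
  · right; right
    have h6 : t + 1 = L := by omega
    have h7 : l * (h - 1) + l = l * h := by
      have : h = (h - 1) + 1 := by omega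
      conv_rhs => rw [this, Nat.mul_add, Nat.mul_one]
    have h8 : bl l h t = h - 1 := bl_unique hl le_rfl (by omega) (Or.inr rfl)
    refine ⟨h6, h8, ?_⟩
    rw [h8] at h4
    omega

theorem bl_zero {l h : ℕ} (hl : 0 < l) : bl l h 0 = 0 :=
  bl_unique hl (Nat.zero_le _) (by simp) (by left; simpa using hl)

theorem off_zero {l h : ℕ} : off l h 0 = 0 := by unfold off; simp

/-! ## The colour functions -/

variable {g h l L n k : ℕ} [NeZero g] [NeZero h] (t : ℕ → ℕ)

/-- index of the block of `i` -/
def ownI (g h l : ℕ) [NeZero g] [NeZero h] (t : ℕ → ℕ) (i : ℕ) : Fin g × Fin h :=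
  (Fin.ofNat g i, Fin.ofNat h (bl l h (t i)))

/-- index of the previous block -/
def prvI (g h l : ℕ) [NeZero g] [NeZero h] (t : ℕ → ℕ) (i : ℕ) : Fin g × Fin h :=
  (Fin.ofNat g i, Fin.ofNat h (bl l h (t i) + (h - 1)))

/-- the sample space of the block case -/
abbrev Om (g h l : ℕ) : Type := Fin g × Fin h → Bool × Fin (l - 2)

/-- position of the separator in the block of `i` -/
def sp (ω : Om g h l) (i : ℕ) : ℕ := (ω (ownI g h l t i)).2.val + 1

/-- phase -/
def psi (L : ℕ) (ω : Om g h l) (i : ℕ) : Bool :=
  if off l h (t i) < sp t ω i then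
    xor (ω (prvI g h l t i)).1 (decide (bl l h (t i) = 0 ∧ L % 2 = 1))
  else (ω (ownI g h l t i)).1

/-- raw colour -/
def bit (L : ℕ) (ω : Om g h l) (i : ℕ) : Bool := xor (decide (t i % 2 = 1)) (psi t L ω i)

/-- separator -/
def sep (ω : Om g h l) (i : ℕ) : Prop := off l h (t i) = sp t ω i

/-- neighbour of a separator -/
def near (ω : Om g h l) (i : ℕ) : Prop :=
  off l h (t i) + 1 = sp t ω i ∨ off l h (t i) = sp t ω i + 1

/-- black -/
def cB (L : ℕ) (i : ℕ) (ω : Om g h l) : Prop := ¬ sep t ω i ∧ ¬ near t ω i ∧ bit t L ω i = true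

/-- item -/
def cC (L : ℕ) (i : ℕ) (ω : Om g h l) : Prop := ¬ sep t ω i ∧ bit t L ω i = false

theorem ofNat_eq {m : ℕ} [NeZero m] {a b : ℕ} (h : a % m = b % m) : Fin.ofNat m a = Fin.ofNat m b := by
  apply Fin.ext; simpa [Fin.ofNat] using h

theorem sp_le (_hl : 3 ≤ l) (ω : Om g h l) (i : ℕ) : 1 ≤ sp t ω i ∧ sp t ω i ≤ l - 2 := by
  unfold sp
  have := (ω (ownI g h l t i)).2.isLt
  omega

/-- adjacency: everything about one step `i → j` of the cycle -/
theorem step (hl : 3 ≤ l) (hh : 2 ≤ h) (hL : l * h ≤ L) {i j : ℕ} (hti : t i < L)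
    (htj : t j = (t i + 1) % L) (hg : j % g = i % g) (ω : Om g h l) :
    (¬ sep t ω i → ¬ sep t ω j → bit t L ω j = !bit t L ω i) ∧
    (sep t ω j → near t ω i) ∧ (sep t ω i → near t ω j) := by
  have hsi := sp_le t hl ω i
  have hsj := sp_le t hl ω j
  have hgf : Fin.ofNat g j = Fin.ofNat g i := ofNat_eq hg
  rcases bl_step (l := l) (h := h) (by omega) hh hL hti with ⟨h1, h2, h3⟩ | ⟨h1, h2, h3, h4⟩ |
    ⟨h1, h2, h3⟩
  · -- same block
    rw [Nat.mod_eq_of_lt h1] at htj
    have hown : ownI g h l t j = ownI g h l t i := by unfold ownI; rw [hgf, htj, h2]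
    have hprv : prvI g h l t j = prvI g h l t i := by unfold prvI; rw [hgf, htj, h2]
    have hsp : sp t ω j = sp t ω i := by unfold sp; rw [hown]
    have hoff : off l h (t j) = off l h (t i) + 1 := by rw [htj, h3]
    refine ⟨?_, ?_, ?_⟩
    · intro ha hb
      unfold sep at ha hb
      have hpsi : psi t L ω j = psi t L ω i := by
        unfold psi
        rw [hown, hprv, hsp, hoff, htj, h2]
        by_cases hc : off l h (t i) < sp t ω i
        · rw [if_pos hc, if_pos (by rw [hoff, hsp] at hb; omega)]
        · rw [if_neg hc, if_neg (by omega)]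
      unfold bit
      rw [hpsi, htj]
      rcases Nat.mod_two_eq_zero_or_one (t i) with h5 | h5
      · have h6 : (t i + 1) % 2 = 1 := by omega
        simp [h5, h6]
      · have h6 : (t i + 1) % 2 = 0 := by omega
        simp [h5, h6]
    · intro ha
      unfold sep at ha
      left; omega
    · intro ha
      unfold sep at ha
      right; omega
  · -- next block
    rw [Nat.mod_eq_of_lt h1] at htj
    have hoff : off l h (t j) = 0 := by rw [htj, h3]
    have hprv : prvI g h l t j = ownI g h l t i := by
      unfold prvI ownI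
      rw [hgf, htj, h2]
      congr 1
      apply ofNat_eq
      have : bl l h (t i) + 1 + (h - 1) = bl l h (t i) + h := by omega
      rw [this, Nat.add_mod_right]
    refine ⟨?_, ?_, ?_⟩
    · intro ha hb
      have hpj : psi t L ω j = (ω (ownI g h l t i)).1 := by
        unfold psi
        rw [if_pos (by omega), hprv, htj, h2]
        simp
      have hpi : psi t L ω i = (ω (ownI g h l t i)).1 := by
        unfold psi
        rw [if_neg (by omega)]
      unfold bit
      rw [hpj, hpi, htj]
      rcases Nat.mod_two_eq_zero_or_one (t i) with h5 | h5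
      · have h6 : (t i + 1) % 2 = 1 := by omega
        simp [h5, h6]
      · have h6 : (t i + 1) % 2 = 0 := by omega
        simp [h5, h6]
    · intro ha; unfold sep at ha; omega
    · intro ha; unfold sep at ha; omega
  · -- wrap
    rw [h1, Nat.mod_self] at htj
    have hoff : off l h (t j) = 0 := by rw [htj]; exact off_zero
    have hbj : bl l h (t j) = 0 := by rw [htj]; exact bl_zero (by omega)
    have hprv : prvI g h l t j = ownI g h l t i := by
      unfold prvI ownI
      rw [hgf, hbj, h2, Nat.zero_add]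
    refine ⟨?_, ?_, ?_⟩
    · intro ha hb
      have hpj : psi t L ω j = xor (ω (ownI g h l t i)).1 (decide (L % 2 = 1)) := by
        unfold psi
        rw [if_pos (by omega), hprv, hbj]
        simp
      have hpi : psi t L ω i = (ω (ownI g h l t i)).1 := by
        unfold psi
        rw [if_neg (by omega)]
      unfold bit
      rw [hpj, hpi, htj]
      rcases Nat.mod_two_eq_zero_or_one (t i) with h5 | h5
      · have h6 : L % 2 = 1 := by omega
        simp [h5, h6]
      · have h6 : L % 2 = 0 := by omega
        simp [h5, h6]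
    · intro ha; unfold sep at ha; omega
    · intro ha; unfold sep at ha; omega

end Pool.Agent.PGr.SC
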