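import Pool.Agent.PGr.Env
import Pool.Agent.PGr.McD
import Pool.Agent.PGr.PrProd

/-!
# PGr, part S, colouring: a balanced random colouring exists (McDiarmid + union bound)
-/

namespace Pool.Agent.PGr.SC

open Finset

open Classical in
/-- concentration for one set and one event -/
theorem conc_one {ι Ω : Type} [Fintype ι] [DecidableEq ι] [Fintype Ω] [Nonempty Ω] {n D : ℕ}
    (hD0 : 0 < D) (hn : 0 < n) (cB : ℕ → (ι → Ω) → Prop) (dep : ℕ → Finset ι)
    (hB : ∀ i < n, ∀ ω β a, β ∉ dep i → (cB i (Function.update ω β a) ↔ cB i ω))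
    (hD : ∀ β, ((range n).filter (fun i => β ∈ dep i)).card ≤ D)
    (hdep : ∀ i < n, (dep i).card ≤ 2) {ε : ℝ} (pB : ∀ i < n, |Pr (cB i) - 1 / 2| ≤ ε)
    (A : Finset ℕ) (hA : A ⊆ range n) {t : ℝ} (ht : 0 ≤ t) :
    Pr (fun ω => ε * A.card + t ≤ |((A.filter (fun i => cB i ω)).card : ℝ) - (A.card : ℝ) / 2|)
      ≤ 2 * Real.exp (-(t ^ 2 / (4 * D * n))) := by
  set f : (ι → Ω) → ℝ := fun ω => ((A.filter (fun i => cB i ω)).card : ℝ) with hf
  set c : ι → ℝ := fun β => ((A.filter (fun i => β ∈ dep i)).card : ℝ) with hc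
  have hfs : ∀ ω, f ω = ∑ i ∈ A, (if cB i ω then (1 : ℝ) else 0) := by
    intro ω
    rw [hf]
    simp only [Finset.card_filter]
    push_cast
    rfl
  have h1 : ∀ s i a, |f (Function.update s i a) - f s| ≤ c i := by
    intro s β a
    rw [hfs, hfs, ← Finset.sum_sub_distrib]
    have h2 : c β = ∑ i ∈ A, (if β ∈ dep i then (1 : ℝ) else 0) := by
      rw [hc]; simp only [Finset.card_filter]; push_cast; rfl
    rw [h2]
    refine (Finset.abs_sum_le_sum_abs _ _).trans (Finset.sum_le_sum fun i hi => ?_)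
    by_cases hd : β ∈ dep i
    · rw [if_pos hd]
      split_ifs <;> norm_num
    · have h3 := hB i (Finset.mem_range.mp (hA hi)) s β a hd
      simp only [h3, sub_self, abs_zero, if_neg hd, le_refl]
  have hb : ∀ i, c i ≤ D := by
    intro β
    have : (A.filter (fun i => β ∈ dep i)).card ≤ D :=
      (Finset.card_le_card (Finset.filter_subset_filter _ hA)).trans (hD β)
    simp only [hc]
    exact_mod_cast this
  have hC : ∑ i, c i ≤ 2 * n := by
    have h2 : ∑ β, c β = ∑ i ∈ A, ((dep i).card : ℝ) := by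
      rw [hc]
      simp only [Finset.card_filter]
      push_cast
      rw [Finset.sum_comm]
      refine Finset.sum_congr rfl fun i _ => ?_
      rw [Finset.sum_boole]
      congr 1
      congr 1
      ext β; simp
    rw [h2]
    calc ∑ i ∈ A, ((dep i).card : ℝ) ≤ ∑ i ∈ A, (2 : ℝ) := by
          refine Finset.sum_le_sum fun i hi => ?_
          exact_mod_cast hdep i (Finset.mem_range.mp (hA hi))
      _ = 2 * A.card := by rw [Finset.sum_const, nsmul_eq_mul]; ring
      _ ≤ 2 * n := by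
          have : A.card ≤ n := by
            have := Finset.card_le_card hA
            rwa [Finset.card_range] at this
          have : (A.card : ℝ) ≤ n := by exact_mod_cast this
          linarith
  have hmc := mcdiarmid_influence f c h1 (D : ℝ) (2 * n : ℝ) (by exact_mod_cast hD0)
    (by positivity) hb hC t ht
  have hE : |Ex f - (A.card : ℝ) / 2| ≤ ε * A.card := by
    have h2 : Ex f = ∑ i ∈ A, Pr (cB i) := by
      rw [Ex_congr hfs, Ex_sum]
      rfl
    have h3 : (A.card : ℝ) / 2 = ∑ i ∈ A, (1 / 2 : ℝ) := by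
      rw [Finset.sum_const, nsmul_eq_mul]; ring
    rw [h2, h3, ← Finset.sum_sub_distrib]
    refine (Finset.abs_sum_le_sum_abs _ _).trans ?_
    calc ∑ i ∈ A, |Pr (cB i) - 1 / 2| ≤ ∑ i ∈ A, ε :=
          Finset.sum_le_sum fun i hi => pB i (Finset.mem_range.mp (hA hi))
      _ = ε * A.card := by rw [Finset.sum_const, nsmul_eq_mul]; ring
  have hexp : 2 * ((D : ℝ) * (2 * n)) = 4 * D * n := by ring
  rw [hexp] at hmc
  refine le_trans (Pr_mono fun ω hω => ?_) hmc
  have h4 : |f ω - (A.card : ℝ) / 2| ≤ |f ω - Ex f| + |Ex f - (A.card : ℝ) / 2| := abs_sub_le _ _ _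
  have h5 : ε * A.card + t ≤ |f ω - (A.card : ℝ) / 2| := hω
  linarith

open Classical in
/-- a colouring balanced on all sets of a family exists -/
theorem col_exists {ι Ω : Type} [Fintype ι] [DecidableEq ι] [Fintype Ω] [Nonempty Ω] {n D : ℕ}
    (hD0 : 0 < D) (hn : 0 < n) (cB cC : ℕ → (ι → Ω) → Prop) (dep : ℕ → Finset ι)
    (hB : ∀ i < n, ∀ ω β a, β ∉ dep i → (cB i (Function.update ω β a) ↔ cB i ω))
    (hC : ∀ i < n, ∀ ω β a, β ∉ dep i → (cC i (Function.update ω β a) ↔ cC i ω))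
    (hD : ∀ β, ((range n).filter (fun i => β ∈ dep i)).card ≤ D)
    (hdep : ∀ i < n, (dep i).card ≤ 2) {ε : ℝ} (pB : ∀ i < n, |Pr (cB i) - 1 / 2| ≤ ε)
    (pC : ∀ i < n, |Pr (cC i) - 1 / 2| ≤ ε)
    (F : Finset (Finset ℕ)) (hF : ∀ A ∈ F, A ⊆ range n) {t : ℝ} (ht : 0 ≤ t)
    (hprob : 4 * (F.card : ℝ) * Real.exp (-(t ^ 2 / (4 * D * n))) < 1) :
    ∃ ω : ι → Ω, ∀ A ∈ F,
      |((A.filter (fun i => cB i ω)).card : ℝ) - (A.card : ℝ) / 2| ≤ ε * A.card + t ∧
      |((A.filter (fun i => cC i ω)).card : ℝ) - (A.card : ℝ) / 2| ≤ ε * A.card + t := by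
  have h1 : Pr (fun ω : ι → Ω => ∃ A ∈ F,
      ε * A.card + t ≤ |((A.filter (fun i => cB i ω)).card : ℝ) - (A.card : ℝ) / 2| ∨
      ε * A.card + t ≤ |((A.filter (fun i => cC i ω)).card : ℝ) - (A.card : ℝ) / 2|) < 1 := by
    refine lt_of_le_of_lt (Pr_exists_le F _) ?_
    refine lt_of_le_of_lt (Finset.sum_le_sum (g := fun _ => 4 * Real.exp (-(t ^ 2 / (4 * D * n))))
      fun A hA => ?_) ?_
    · refine (Pr_or_le _ _).trans ?_
      have h2 := conc_one hD0 hn cB dep hB hD hdep pB A (hF A hA) ht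
      have h3 := conc_one hD0 hn cC dep hC hD hdep pC A (hF A hA) ht
      linarith
    · rw [Finset.sum_const, nsmul_eq_mul]
      calc (F.card : ℝ) * (4 * Real.exp (-(t ^ 2 / (4 * D * n))))
          = 4 * (F.card : ℝ) * Real.exp (-(t ^ 2 / (4 * D * n))) := by ring
        _ < 1 := hprob
  obtain ⟨ω, hω⟩ := exists_not_of_Pr_lt_one h1
  refine ⟨ω, fun A hA => ?_⟩
  push Not at hω
  have h2 := hω A hA
  exact ⟨h2.1.le, h2.2.le⟩

end Pool.Agent.PGr.SC
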