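import Pool.Agent.PGr.SColF

/-!
# PGr, part S, colouring: adjacency, dependence and probabilities (block case)
-/

namespace Pool.Agent.PGr.SC

open Finset

variable {g h l L n k : ℕ} [NeZero g] [NeZero h] (t : ℕ → ℕ)

/-- a black vertex has item neighbours; items are not adjacent -/
theorem colours_step (hl : 3 ≤ l) (hh : 2 ≤ h) (hL : l * h ≤ L) {i j : ℕ} (hti : t i < L)
    (htj : t j = (t i + 1) % L) (hg : j % g = i % g) (ω : Om g h l) :
    (cB t L i ω → cC t L j ω) ∧ (cB t L j ω → cC t L i ω) ∧ (cC t L i ω → ¬ cC t L j ω) := by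
  obtain ⟨h1, h2, h3⟩ := step t hl hh hL hti htj hg ω
  refine ⟨?_, ?_, ?_⟩
  · rintro ⟨a1, a2, a3⟩
    have b1 : ¬ sep t ω j := fun hs => a2 (h2 hs)
    refine ⟨b1, ?_⟩
    rw [h1 a1 b1, a3]; rfl
  · rintro ⟨a1, a2, a3⟩
    have b1 : ¬ sep t ω i := fun hs => a2 (h3 hs)
    refine ⟨b1, ?_⟩
    have := h1 b1 a1
    rw [a3] at this
    cases hb : bit t L ω i
    · rfl
    · rw [hb] at this; simp at this
  · rintro ⟨a1, a2⟩ ⟨b1, b2⟩
    have := h1 a1 b1
    rw [a2, b2] at this
    simp at this

/-- coordinates on which the colour of `i` depends -/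
def dep (g h l : ℕ) [NeZero g] [NeZero h] (t : ℕ → ℕ) (i : ℕ) : Finset (Fin g × Fin h) :=
  {ownI g h l t i, prvI g h l t i}

theorem dep_card (i : ℕ) : (dep g h l t i).card ≤ 2 := Finset.card_le_two

theorem bit_update (ω : Om g h l) (i : ℕ) (β : Fin g × Fin h) (a : Bool × Fin (l - 2))
    (hβ : β ∉ dep g h l t i) : bit t L (Function.update ω β a) i = bit t L ω i ∧
      sp t (Function.update ω β a) i = sp t ω i := by
  unfold dep at hβ
  rw [Finset.mem_insert, Finset.mem_singleton, not_or] at hβ
  have h1 : Function.update ω β a (ownI g h l t i) = ω (ownI g h l t i) :=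
    Function.update_of_ne (Ne.symm hβ.1) _ _
  have h2 : Function.update ω β a (prvI g h l t i) = ω (prvI g h l t i) :=
    Function.update_of_ne (Ne.symm hβ.2) _ _
  have h3 : sp t (Function.update ω β a) i = sp t ω i := by unfold sp; rw [h1]
  refine ⟨?_, h3⟩
  unfold bit psi
  rw [h1, h2, h3]

theorem cB_update (i : ℕ) (ω : Om g h l) (β : Fin g × Fin h) (a : Bool × Fin (l - 2))
    (hβ : β ∉ dep g h l t i) : cB t L i (Function.update ω β a) ↔ cB t L i ω := by
  obtain ⟨h1, h2⟩ := bit_update (L := L) t ω i β a hβ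
  unfold cB sep near
  rw [h1, h2]

theorem cC_update (i : ℕ) (ω : Om g h l) (β : Fin g × Fin h) (a : Bool × Fin (l - 2))
    (hβ : β ∉ dep g h l t i) : cC t L i (Function.update ω β a) ↔ cC t L i ω := by
  obtain ⟨h1, h2⟩ := bit_update (L := L) t ω i β a hβ
  unfold cC sep
  rw [h1, h2]

/-- a coordinate influences at most `4 l` vertices -/
theorem dep_count (hl : 0 < l) (hL : L < l * h + l) (hh : 2 ≤ h) (ht : ∀ i, t i < L)
    (hinj : ∀ i < n, ∀ j < n, i % g = j % g → t i = t j → i = j) (β : Fin g × Fin h) :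
    ((range n).filter (fun i => β ∈ dep g h l t i)).card ≤ 4 * l := by
  set b := β.2.val with hb
  set b' := (β.2.val + 1) % h with hb'
  have hlen : ∀ i, t i < l * bl l h (t i) + 2 * l := by
    intro i
    rcases lt_bl (l := l) (h := h) (t := t i) hl with h1 | h1
    · omega
    · rw [h1]
      have h2 := ht i
      have h3 : l * (h - 1) + l = l * h := by
        have : h = (h - 1) + 1 := by omega
        conv_rhs => rw [this, Nat.mul_add, Nat.mul_one]
      omega
  have hcard : ((range n).filter (fun i => β ∈ dep g h l t i)).card ≤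
      (Finset.Ico (l * b) (l * b + 2 * l) ∪ Finset.Ico (l * b') (l * b' + 2 * l)).card := by
    apply Finset.card_le_card_of_injOn t
    · intro i hi
      rw [Finset.mem_coe, Finset.mem_filter, Finset.mem_range] at hi
      obtain ⟨-, hi⟩ := hi
      unfold dep at hi
      rw [Finset.mem_insert, Finset.mem_singleton] at hi
      rw [Finset.mem_coe, Finset.mem_union, Finset.mem_Ico, Finset.mem_Ico]
      have hble := bl_le (l := l) (h := h) (t := t i)
      have h4 := hlen i
      have h5 := bl_mul_le (l := l) (h := h) (t := t i)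
      rcases hi with hi | hi
      · left
        have h6 : b = bl l h (t i) := by
          rw [hb, hi]
          simp only [ownI, Fin.ofNat]
          exact Nat.mod_eq_of_lt (by omega)
        rw [h6]
        exact ⟨h5, h4⟩
      · right
        have h6 : b' = bl l h (t i) := by
          rw [hb', hi]
          simp only [prvI, Fin.ofNat]
          rw [Nat.mod_add_mod]
          have : bl l h (t i) + (h - 1) + 1 = bl l h (t i) + h := by omega
          rw [this, Nat.add_mod_right]
          exact Nat.mod_eq_of_lt (by omega)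
        rw [h6]
        exact ⟨h5, h4⟩
    · intro i hi j hj hij
      rw [Finset.mem_coe, Finset.mem_filter, Finset.mem_range] at hi hj
      apply hinj i hi.1 j hj.1 _ hij
      have h7 : ∀ i, β ∈ dep g h l t i → β.1 = Fin.ofNat g i := by
        intro i hi
        unfold dep at hi
        rw [Finset.mem_insert, Finset.mem_singleton] at hi
        rcases hi with hi | hi <;> rw [hi] <;> rfl
      have h8 := (h7 i hi.2).symm.trans (h7 j hj.2)
      have h9 := congrArg Fin.val h8
      simpa [Fin.ofNat] using h9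
  refine hcard.trans ((Finset.card_union_le _ _).trans ?_)
  rw [Nat.card_Ico, Nat.card_Ico]
  omega

/-! ## Probabilities -/

/-- flipping all phases -/
def flip (g h l : ℕ) : Om g h l ≃ Om g h l where
  toFun ω β := (!(ω β).1, (ω β).2)
  invFun ω β := (!(ω β).1, (ω β).2)
  left_inv ω := by funext β; simp
  right_inv ω := by funext β; simp

theorem bit_flip (ω : Om g h l) (i : ℕ) : bit t L (flip g h l ω) i = !bit t L ω i := by
  have h1 : sp t (flip g h l ω) i = sp t ω i := rfl
  unfold bit psi
  rw [h1]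
  split_ifs with hc
  · simp only [flip, Equiv.coe_fn_mk]
    cases (ω (prvI g h l t i)).1 <;> cases decide (bl l h (t i) = 0 ∧ L % 2 = 1) <;>
      cases decide (t i % 2 = 1) <;> rfl
  · simp only [flip, Equiv.coe_fn_mk]
    cases (ω (ownI g h l t i)).1 <;> cases decide (t i % 2 = 1) <;> rfl

theorem Pr_bit (hl : 3 ≤ l) (i : ℕ) :
    Pr (fun ω : Om g h l => bit t L ω i = true) = 1 / 2 ∧
    Pr (fun ω : Om g h l => bit t L ω i = false) = 1 / 2 := by
  have : NeZero (l - 2) := ⟨by omega⟩
  have h1 := Pr_equiv (flip g h l) (fun ω : Om g h l => bit t L ω i = true)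
  have h2 : (fun ω : Om g h l => bit t L (flip g h l ω) i = true)
      = fun ω => bit t L ω i = false := by
    funext ω
    rw [bit_flip]
    cases bit t L ω i <;> simp
  have h3 : (fun ω : Om g h l => bit t L ω i = false) = fun ω => ¬ bit t L ω i = true := by
    funext ω
    cases bit t L ω i <;> simp
  have h4 := Pr_not (fun ω : Om g h l => bit t L ω i = true)
  rw [h2] at h1
  rw [← h3] at h4
  constructor <;> linarith

theorem Pr_near (hl : 3 ≤ l) (i : ℕ) :
    Pr (fun ω : Om g h l => sep t ω i ∨ near t ω i) ≤ 3 / ((l : ℝ) - 2) := by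
  classical
  have : NeZero (l - 2) := ⟨by omega⟩
  set r := off l h (t i) with hr
  set X : Finset (Fin (l - 2)) := univ.filter (fun x => x.val + 1 = r ∨ r + 1 = x.val + 1 ∨
    r = x.val + 1 + 1) with hX
  have hX3 : X.card ≤ 3 := by
    have h1 : X.card ≤ ({r - 1, r, r - 2} : Finset ℕ).card := by
      apply Finset.card_le_card_of_injOn (fun x => x.val)
      · intro x hx
        rw [Finset.mem_coe, hX, Finset.mem_filter] at hx
        rw [Finset.mem_coe, Finset.mem_insert, Finset.mem_insert, Finset.mem_singleton]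
        simp only
        omega
      · intro x _ y _ hxy
        exact Fin.ext hxy
    exact h1.trans Finset.card_le_three
  have h2 : Pr (fun ω : Om g h l => sep t ω i ∨ near t ω i) ≤
      Pr (fun ω : Om g h l => ∀ β ∈ ({ownI g h l t i} : Finset (Fin g × Fin h)),
        ω β ∈ (univ : Finset Bool) ×ˢ X) := by
    refine Pr_mono fun ω hω => ?_
    intro β hβ
    rw [Finset.mem_singleton] at hβ
    subst hβ
    rw [Finset.mem_product]
    refine ⟨Finset.mem_univ _, ?_⟩
    rw [hX, Finset.mem_filter]
    refine ⟨Finset.mem_univ _, ?_⟩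
    unfold sep near sp at hω
    rcases hω with h3 | h3 | h3
    · left; exact h3.symm
    · right; left; exact h3
    · right; right; exact h3
  rw [Pr_pi_forall, Finset.prod_singleton, Pr_mem, Finset.card_product, Finset.card_univ,
    Fintype.card_bool, Fintype.card_prod, Fintype.card_bool, Fintype.card_fin] at h2
  refine h2.trans ?_
  have hl2 : (0 : ℝ) < (l : ℝ) - 2 := by
    have : (3 : ℝ) ≤ l := by exact_mod_cast hl
    linarith
  have hl3 : ((l - 2 : ℕ) : ℝ) = (l : ℝ) - 2 := by
    rw [Nat.cast_sub (by omega)]; norm_num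
  push_cast
  rw [hl3, mul_div_mul_left _ _ (by norm_num : (2 : ℝ) ≠ 0)]
  apply div_le_div_of_nonneg_right _ hl2.le
  exact_mod_cast hX3

theorem Pr_cB (hl : 3 ≤ l) (i : ℕ) :
    |Pr (fun ω : Om g h l => cB t L i ω) - 1 / 2| ≤ 3 / ((l : ℝ) - 2) := by
  have : NeZero (l - 2) := ⟨by omega⟩
  have h1 := (Pr_bit (g := g) (h := h) (l := l) (L := L) t hl i).1
  have h2 := Pr_near (g := g) (h := h) (l := l) t hl i
  have h3 : Pr (fun ω : Om g h l => cB t L i ω) ≤ Pr (fun ω : Om g h l => bit t L ω i = true) :=
    Pr_mono fun ω hω => hω.2.2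
  have h4 : Pr (fun ω : Om g h l => bit t L ω i = true) ≤
      Pr (fun ω : Om g h l => cB t L i ω ∨ (sep t ω i ∨ near t ω i)) := by
    refine Pr_mono fun ω hω => ?_
    by_cases hs : sep t ω i
    · right; left; exact hs
    · by_cases hn : near t ω i
      · right; right; exact hn
      · left; exact ⟨hs, hn, hω⟩
  have h5 := Pr_or_le (fun ω : Om g h l => cB t L i ω) (fun ω => sep t ω i ∨ near t ω i)
  rw [abs_le]
  constructor <;> linarith [Pr_nonneg (fun ω : Om g h l => sep t ω i ∨ near t ω i)]

theorem Pr_cC (hl : 3 ≤ l) (i : ℕ) :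
    |Pr (fun ω : Om g h l => cC t L i ω) - 1 / 2| ≤ 3 / ((l : ℝ) - 2) := by
  have : NeZero (l - 2) := ⟨by omega⟩
  have h1 := (Pr_bit (g := g) (h := h) (l := l) (L := L) t hl i).2
  have h2 := Pr_near (g := g) (h := h) (l := l) t hl i
  have h3 : Pr (fun ω : Om g h l => cC t L i ω) ≤ Pr (fun ω : Om g h l => bit t L ω i = false) :=
    Pr_mono fun ω hω => hω.2
  have h4 : Pr (fun ω : Om g h l => bit t L ω i = false) ≤
      Pr (fun ω : Om g h l => cC t L i ω ∨ (sep t ω i ∨ near t ω i)) := by
    refine Pr_mono fun ω hω => ?_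
    by_cases hs : sep t ω i
    · right; left; exact hs
    · left; exact ⟨hs, hω⟩
  have h5 := Pr_or_le (fun ω : Om g h l => cC t L i ω) (fun ω => sep t ω i ∨ near t ω i)
  rw [abs_le]
  constructor <;> linarith [Pr_nonneg (fun ω : Om g h l => sep t ω i ∨ near t ω i)]

/-! ## The case of short even cycles -/

/-- raw colour for short cycles -/
def bitE (ω : Fin g → Bool) (i : ℕ) : Bool := xor (decide (t i % 2 = 1)) (ω (Fin.ofNat g i))

theorem stepE (hL : L % 2 = 0) {i j : ℕ} (htj : t j = (t i + 1) % L)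
    (hg : j % g = i % g) (ω : Fin g → Bool) : bitE t ω j = !bitE t ω i := by
  have hgf : Fin.ofNat g j = Fin.ofNat g i := ofNat_eq hg
  unfold bitE
  rw [hgf]
  have h1 : t j % 2 = (t i + 1) % 2 := by
    rw [htj]
    exact Nat.mod_mod_of_dvd _ (Nat.dvd_of_mod_eq_zero hL)
  rw [h1]
  rcases Nat.mod_two_eq_zero_or_one (t i) with h5 | h5
  · have h6 : (t i + 1) % 2 = 1 := by omega
    simp [h5, h6]
  · have h6 : (t i + 1) % 2 = 0 := by omega
    simp [h5, h6]

theorem Pr_bitE (i : ℕ) :
    Pr (fun ω : Fin g → Bool => bitE t ω i = true) = 1 / 2 ∧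
    Pr (fun ω : Fin g → Bool => bitE t ω i = false) = 1 / 2 := by
  let e : (Fin g → Bool) ≃ (Fin g → Bool) :=
    { toFun := fun ω β => !(ω β)
      invFun := fun ω β => !(ω β)
      left_inv := fun ω => by funext β; simp
      right_inv := fun ω => by funext β; simp }
  have h1 := Pr_equiv e (fun ω : Fin g → Bool => bitE t ω i = true)
  have h2 : (fun ω : Fin g → Bool => bitE t (e ω) i = true) = fun ω => bitE t ω i = false := by
    funext ω
    unfold bitE
    simp only [e, Equiv.coe_fn_mk]
    cases ω (Fin.ofNat g i) <;> cases decide (t i % 2 = 1) <;> simp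
  have h3 : (fun ω : Fin g → Bool => bitE t ω i = false) = fun ω => ¬ bitE t ω i = true := by
    funext ω
    cases bitE t ω i <;> simp
  have h4 := Pr_not (fun ω : Fin g → Bool => bitE t ω i = true)
  rw [h2] at h1
  rw [← h3] at h4
  constructor <;> linarith

end Pool.Agent.PGr.SC
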