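import Pool.Agent.PGr.SFamC

/-!
# PGr, part S: the counts (F1), (F2), (F3) of section 8
-/

namespace Pool.Agent.PGr.SS

open Finset

variable {n k q S B0 i j : ℕ}

/-- the neighbour in the direction `o` (same as `Env.nb`) -/
def nbo (n k : ℕ) (o : Bool) (i : ℕ) : ℕ := if o then nbp n k i else nbm n k i

/-- no special vertex among `i` and its neighbours -/
def NS (n k i : ℕ) : Prop := ¬ spec n i ∧ ¬ spec n (nbp n k i) ∧ ¬ spec n (nbm n k i)

theorem NS.nb (h : NS n k i) (o : Bool) : ¬ spec n (nbo n k o i) := by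
  cases o
  · exact h.2.2
  · exact h.2.1

/-- key of the family of `i` -/
def fkey (n k i : ℕ) : ℕ × ℕ := (i % 2, if n ≤ i + k then 1 else if i < k then 2 else 0)

/-- signed distance to the neighbour in the direction `o`, as a function of the key -/
def sgn (n k : ℕ) (o : Bool) (t : ℕ) : ℤ :=
  if o then (if t = 1 then (k : ℤ) - n else k) else (if t = 2 then (n : ℤ) - k else -k)

theorem nbo_eq (hk : 2 * k < n) (hi' : i < n) (o : Bool) :
    ((nbo n k o i : ℕ) : ℤ) = i + sgn n k o (fkey n k i).2 := by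
  unfold nbo sgn fkey nbp nbm
  cases o
  · simp only [Bool.false_eq_true, if_false]
    by_cases h1 : n ≤ i + k
    · rw [if_pos h1, if_neg (by norm_num : ¬ (1 : ℕ) = 2), Nat.mod_eq_sub_mod (by omega),
        Nat.mod_eq_of_lt (by omega)]; omega
    · rw [if_neg h1]
      by_cases h2 : i < k
      · rw [if_pos h2, if_pos rfl, Nat.mod_eq_of_lt (by omega)]; omega
      · rw [if_neg h2, if_neg (by norm_num : ¬ (0 : ℕ) = 2), Nat.mod_eq_sub_mod (by omega),
          Nat.mod_eq_of_lt (by omega)]; omega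
  · simp only [if_true]
    by_cases h1 : n ≤ i + k
    · rw [if_pos h1, if_pos rfl, Nat.mod_eq_sub_mod (by omega), Nat.mod_eq_of_lt (by omega)]; omega
    · rw [if_neg h1, Nat.mod_eq_of_lt (by omega)]
      by_cases h2 : i < k
      · rw [if_pos h2, if_neg (by norm_num : ¬ (2 : ℕ) = 1)]; omega
      · rw [if_neg h2, if_neg (by norm_num : ¬ (0 : ℕ) = 1)]; omega

theorem nbo_lt (hn : 0 < n) (o : Bool) (i : ℕ) : nbo n k o i < n := by
  unfold nbo nbp nbm
  split_ifs <;> exact Nat.mod_lt _ hn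

theorem sigOk_sgn (hp : Base n k q S B0) (o : Bool) (t : ℕ) :
    SigOk q (sgn n k o t) (sgn n k (!o) t) := by
  have h2k : ¬ (q : ℤ) ∣ 2 * k := by
    intro h
    have h' : q ∣ 2 * k := by exact_mod_cast h
    rcases (Nat.Prime.dvd_mul hp.q_prime).mp h' with h1 | h1
    · have := Nat.le_of_dvd (by norm_num) h1
      have := hp.q_big
      omega
    · exact hp.q_k h1
  have hnk : ¬ (q : ℤ) ∣ 2 * k - n := by
    intro h
    apply hp.q_nk
    have h1 : (q : ℤ) ∣ (n - 2 * k : ℕ) := by
      have e : ((n - 2 * k : ℕ) : ℤ) = -(2 * k - n) := by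
        have := hp.k_lt
        rw [Nat.cast_sub (by omega)]; push_cast; ring
      rw [e]; exact (dvd_neg).mpr h
    exact_mod_cast h1
  unfold SigOk sgn
  cases o <;> simp only [Bool.false_eq_true, if_false, if_true, Bool.not_false, Bool.not_true]
  · split_ifs with h1 h2 h2
    · omega
    · intro h; apply hnk
      have : (n : ℤ) - k - k = -(2 * k - n) := by ring
      rw [this, dvd_neg] at h; exact h
    · intro h; apply hnk
      have : -(k : ℤ) - (k - n) = -(2 * k - n) := by ring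
      rw [this, dvd_neg] at h; exact h
    · intro h; apply h2k
      have : -(k : ℤ) - k = -(2 * k) := by ring
      rw [this, dvd_neg] at h; exact h
  · split_ifs with h1 h2 h2
    · omega
    · intro h; apply hnk
      have : (k : ℤ) - n - -k = 2 * k - n := by ring
      rw [this] at h; exact h
    · intro h; apply hnk
      have : (k : ℤ) - (n - k) = 2 * k - n := by ring
      rw [this] at h; exact h
    · intro h; apply h2k
      have : (k : ℤ) - -k = 2 * k := by ring
      rw [this] at h; exact h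

/-- the combination of an item with the scheme classes of its neighbours -/
noncomputable def cmb0 (n k q : ℕ) (o : Bool) (j : Fin 10) (i : ℕ) : ZMod (q ^ 2) :=
  comb j ((anc n i : ℤ) : ZMod (q ^ 2)) (cls0 n q (nbo n k o i)) (cls0 n q (nbo n k (!o) i))

theorem cls0_nbo (hp : Base n k q S B0) (hi' : i < n) (hNS : NS n k i) (o : Bool) :
    cls0 n q (nbo n k o i)
      = cNF n q (i % 2) (sgn n k o (fkey n k i).2) ((i / 2 : ℕ) : ZMod (q ^ 2)) :=
  cls0_nb (hNS.nb o) (nbo_eq hp.k_lt hi' o)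

theorem cmb0_eq (hp : Base n k q S B0) (hi' : i < n) (hNS : NS n k i) (o : Bool) (j : Fin 10) :
    cmb0 n k q o j i = Fm n q j (fkey n k i).1 (sgn n k o (fkey n k i).2)
      (sgn n k (!o) (fkey n k i).2) ((i / 2 : ℕ) : ZMod (q ^ 2)) := by
  unfold cmb0 Fm
  rw [cls0_nbo hp hi' hNS, cls0_nbo hp hi' hNS, anc_eq_aF hNS.1]
  rfl

/-! ## Counting in residue classes -/

theorem card_same_class {m : ℕ} (T : Finset ℕ) (hT : ∀ i ∈ T, i < n)
    (h : ∀ i ∈ T, ∀ i' ∈ T, i % 2 = i' % 2 ∧ i / 2 % m = i' / 2 % m) :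
    T.card ≤ n / (2 * m) + 1 := by
  have h1 : T.card ≤ (range (n / (2 * m) + 1)).card := by
    apply Finset.card_le_card_of_injOn (fun i => i / (2 * m))
    · intro i hi
      rw [Finset.mem_coe] at hi
      have h2 := hT i hi
      simp only [Finset.coe_range, Set.mem_Iio]
      have := Nat.div_le_div_right (c := 2 * m) h2.le
      omega
    · intro i hi i' hi' hii
      rw [Finset.mem_coe] at hi hi'
      have h2 := h i hi i' hi'
      have h3 : i % (2 * m) = i' % (2 * m) := by
        rw [Nat.mod_mul, Nat.mod_mul, h2.1, h2.2]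
      have h4 := Nat.div_add_mod i (2 * m)
      have h5 := Nat.div_add_mod i' (2 * m)
      simp only at hii
      rw [hii, h3] at h4
      omega
  rwa [Finset.card_range] at h1

theorem card_keys (P : ℕ → Prop) [DecidablePred P] (b : ℝ)
    (h : ∀ t : ℕ × ℕ, (((range n).filter (fun i => P i ∧ fkey n k i = t)).card : ℝ) ≤ b) :
    (((range n).filter P).card : ℝ) ≤ 6 * b := by
  have hmap : ∀ i ∈ (range n).filter P, fkey n k i ∈ (range 2) ×ˢ (range 3) := by
    intro i _
    unfold fkey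
    rw [Finset.mem_product, Finset.mem_range, Finset.mem_range]
    constructor
    · simp only; omega
    · simp only; split_ifs <;> omega
  rw [Finset.card_eq_sum_card_fiberwise hmap]
  push_cast
  calc ∑ x ∈ (range 2) ×ˢ (range 3),
        ((((range n).filter P).filter (fun i => fkey n k i = x)).card : ℝ)
      ≤ ∑ x ∈ (range 2) ×ˢ (range 3), b := by
        apply Finset.sum_le_sum
        intro x _
        rw [Finset.filter_filter]
        exact h x
    _ = 6 * b := by
        rw [Finset.sum_const, Finset.card_product, Finset.card_range, Finset.card_range]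
        norm_num

theorem natCast_eq_of_mod {m a b : ℕ} : ((a : ZMod m) = (b : ZMod m)) ↔ a % m = b % m :=
  ZMod.natCast_eq_natCast_iff' a b m

theorem fkey_eq {i i' : ℕ} {t : ℕ × ℕ} (h : fkey n k i = t) (h' : fkey n k i' = t) :
    i % 2 = i' % 2 := by
  have h1 : (fkey n k i).1 = (fkey n k i').1 := by rw [h, h']
  exact h1

open Classical in
/-- one value of a nice function in one family -/
theorem card_fibre_nice (_hp : Base n k q S B0) {G : ZMod (q ^ 2) → ZMod (q ^ 2)} (hG : Nice G)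
    (t : ℕ × ℕ) (v : ZMod (q ^ 2)) :
    ((range n).filter (fun i => G ((i / 2 : ℕ) : ZMod (q ^ 2)) = v ∧ fkey n k i = t)).card
      ≤ n / (2 * q) + 1 := by
  apply card_same_class
  · intro i hi'
    rw [Finset.mem_filter, Finset.mem_range] at hi'
    exact hi'.1
  · intro i hi1 i' hi2
    rw [Finset.mem_filter] at hi1 hi2
    refine ⟨fkey_eq hi1.2.2 hi2.2.2, ?_⟩
    have h1 : G ((i / 2 : ℕ) : ZMod (q ^ 2)) = G ((i' / 2 : ℕ) : ZMod (q ^ 2)) := by
      rw [hi1.2.1, hi2.2.1]
    have h2 : red q ((i / 2 : ℕ) : ZMod (q ^ 2)) = red q ((i' / 2 : ℕ) : ZMod (q ^ 2)) := by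
      rcases hG with h | ⟨-, h⟩
      · rw [h h1]
      · exact h _ _ h1
    rw [red_natCast, red_natCast, natCast_eq_of_mod] at h2
    exact h2

open Classical in
/-- one value of an injective function in one family -/
theorem card_fibre_inj (_hp : Base n k q S B0) {G : ZMod (q ^ 2) → ZMod (q ^ 2)}
    (hG : Function.Injective G) (t : ℕ × ℕ) (v : ZMod (q ^ 2)) :
    ((range n).filter (fun i => G ((i / 2 : ℕ) : ZMod (q ^ 2)) = v ∧ fkey n k i = t)).card
      ≤ n / (2 * q ^ 2) + 1 := by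
  apply card_same_class
  · intro i hi'
    rw [Finset.mem_filter, Finset.mem_range] at hi'
    exact hi'.1
  · intro i hi1 i' hi2
    rw [Finset.mem_filter] at hi1 hi2
    refine ⟨fkey_eq hi1.2.2 hi2.2.2, ?_⟩
    have h1 : G ((i / 2 : ℕ) : ZMod (q ^ 2)) = G ((i' / 2 : ℕ) : ZMod (q ^ 2)) := by
      rw [hi1.2.1, hi2.2.1]
    exact natCast_eq_of_mod.mp (hG h1)

open Classical in
/-- (F1) every value of a combination is taken by few items -/
theorem card_cmb0_eq (hp : Base n k q S B0) (o : Bool) (j : Fin 10) (v : ZMod (q ^ 2)) :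
    (((range n).filter (fun i => NS n k i ∧ cmb0 n k q o j i = v)).card : ℝ)
      ≤ 6 * ((n : ℝ) / (2 * q) + 1) := by
  refine card_keys (k := k) _ _ ?_
  intro t
  have h1 := card_fibre_nice hp (Fm_nice hp j t.1 (sgn n k o t.2) (sgn n k (!o) t.2)
    (sigOk_sgn hp o t.2)) t v
  have h2 : ((range n).filter (fun i => (NS n k i ∧ cmb0 n k q o j i = v) ∧ fkey n k i = t)).card
      ≤ n / (2 * q) + 1 := by
    refine (Finset.card_le_card ?_).trans h1
    intro i hi'
    rw [Finset.mem_filter, Finset.mem_range] at hi' ⊢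
    refine ⟨hi'.1, ?_, hi'.2.2⟩
    have h3 := cmb0_eq hp hi'.1 hi'.2.1.1 o j
    rw [hi'.2.2] at h3
    rw [← h3]; exact hi'.2.1.2
  calc (((range n).filter (fun i => (NS n k i ∧ cmb0 n k q o j i = v) ∧ fkey n k i = t)).card : ℝ)
      ≤ ((n / (2 * q) + 1 : ℕ) : ℝ) := by exact_mod_cast h2
    _ ≤ (n : ℝ) / (2 * q) + 1 := by
        push_cast
        have := Nat.cast_div_le (α := ℝ) (m := n) (n := 2 * q)
        push_cast at this
        linarith

open Classical in
/-- (F1) for all combinations except `c1 - c2` -/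
theorem card_cmb0_eq' (hp : Base n k q S B0) (o : Bool) (j : Fin 10) (hj : j ≠ 7)
    (v : ZMod (q ^ 2)) :
    (((range n).filter (fun i => NS n k i ∧ cmb0 n k q o j i = v)).card : ℝ)
      ≤ 6 * ((n : ℝ) / (2 * (q : ℝ) ^ 2) + 1) := by
  refine card_keys (k := k) _ _ ?_
  intro t
  have h1 := card_fibre_inj hp (Fm_inj hp j hj t.1 (sgn n k o t.2) (sgn n k (!o) t.2)) t v
  have h2 : ((range n).filter (fun i => (NS n k i ∧ cmb0 n k q o j i = v) ∧ fkey n k i = t)).card
      ≤ n / (2 * q ^ 2) + 1 := by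
    refine (Finset.card_le_card ?_).trans h1
    intro i hi'
    rw [Finset.mem_filter, Finset.mem_range] at hi' ⊢
    refine ⟨hi'.1, ?_, hi'.2.2⟩
    have h3 := cmb0_eq hp hi'.1 hi'.2.1.1 o j
    rw [hi'.2.2] at h3
    rw [← h3]; exact hi'.2.1.2
  calc (((range n).filter (fun i => (NS n k i ∧ cmb0 n k q o j i = v) ∧ fkey n k i = t)).card : ℝ)
      ≤ ((n / (2 * q ^ 2) + 1 : ℕ) : ℝ) := by exact_mod_cast h2
    _ ≤ (n : ℝ) / (2 * (q : ℝ) ^ 2) + 1 := by
        push_cast
        have := Nat.cast_div_le (α := ℝ) (m := n) (n := 2 * q ^ 2)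
        push_cast at this
        linarith

open Classical in
/-- a nice function with values in a well distributed set, in one family -/
theorem card_fibre_mem (hp : Base n k q S B0) {G : ZMod (q ^ 2) → ZMod (q ^ 2)} (hG : Nice G)
    (t : ℕ × ℕ) (R : Finset (ZMod (q ^ 2))) {κ : ℝ} (hκ : 0 ≤ κ)
    (h1 : (R.card : ℝ) ≤ κ * (q : ℝ) ^ 2)
    (h2 : ∀ r : ZMod q, ((R.filter (fun u => red q u = r)).card : ℝ) ≤ κ * q) :
    (((range n).filter (fun i => G ((i / 2 : ℕ) : ZMod (q ^ 2)) ∈ R ∧ fkey n k i = t)).card : ℝ)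
      ≤ κ * ((n : ℝ) / 2 + (q : ℝ) ^ 2) := by
  have hq0 : (0 : ℝ) < q := by exact_mod_cast hp.q_prime.pos
  have hq1 : (1 : ℝ) ≤ q := by exact_mod_cast hp.q_prime.one_lt.le
  rcases hG with hG | ⟨hG1, hG2⟩
  · -- injective case
    have hb := fun v => card_fibre_inj hp hG t v
    have hsub : (range n).filter (fun i => G ((i / 2 : ℕ) : ZMod (q ^ 2)) ∈ R ∧ fkey n k i = t)
        ⊆ R.biUnion (fun v => (range n).filter
          (fun i => G ((i / 2 : ℕ) : ZMod (q ^ 2)) = v ∧ fkey n k i = t)) := by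
      intro i hi'
      rw [Finset.mem_filter] at hi'
      rw [Finset.mem_biUnion]
      exact ⟨_, hi'.2.1, by rw [Finset.mem_filter]; exact ⟨hi'.1, rfl, hi'.2.2⟩⟩
    have h3 : ((range n).filter (fun i => G ((i / 2 : ℕ) : ZMod (q ^ 2)) ∈ R ∧
        fkey n k i = t)).card ≤ R.card * (n / (2 * q ^ 2) + 1) :=
      (Finset.card_le_card hsub).trans (Finset.card_biUnion_le_card_mul _ _ _ (fun v _ => hb v))
    calc _ ≤ ((R.card * (n / (2 * q ^ 2) + 1) : ℕ) : ℝ) := by exact_mod_cast h3
      _ ≤ (κ * (q : ℝ) ^ 2) * ((n : ℝ) / (2 * (q : ℝ) ^ 2) + 1) := by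
          push_cast
          have h4 := Nat.cast_div_le (α := ℝ) (m := n) (n := 2 * q ^ 2)
          push_cast at h4
          apply mul_le_mul h1 (by linarith) (by positivity) (by positivity)
      _ = κ * ((n : ℝ) / 2 + (q : ℝ) ^ 2) := by field_simp
  · -- constant modulo `q`
    set r : ZMod q := red q (G 0) with hr
    have hb := fun v => card_fibre_nice (k := k) hp (Or.inr ⟨hG1, hG2⟩) t v
    have hsub : (range n).filter (fun i => G ((i / 2 : ℕ) : ZMod (q ^ 2)) ∈ R ∧ fkey n k i = t)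
        ⊆ (R.filter (fun u => red q u = r)).biUnion (fun v => (range n).filter
          (fun i => G ((i / 2 : ℕ) : ZMod (q ^ 2)) = v ∧ fkey n k i = t)) := by
      intro i hi'
      rw [Finset.mem_filter] at hi'
      rw [Finset.mem_biUnion]
      refine ⟨_, ?_, by rw [Finset.mem_filter]; exact ⟨hi'.1, rfl, hi'.2.2⟩⟩
      rw [Finset.mem_filter]
      exact ⟨hi'.2.1, hG1 _ _⟩
    have h3 : ((range n).filter (fun i => G ((i / 2 : ℕ) : ZMod (q ^ 2)) ∈ R ∧
        fkey n k i = t)).card ≤ (R.filter (fun u => red q u = r)).card * (n / (2 * q) + 1) :=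
      (Finset.card_le_card hsub).trans (Finset.card_biUnion_le_card_mul _ _ _ (fun v _ => hb v))
    calc _ ≤ (((R.filter (fun u => red q u = r)).card * (n / (2 * q) + 1) : ℕ) : ℝ) := by
          exact_mod_cast h3
      _ ≤ (κ * q) * ((n : ℝ) / (2 * q) + 1) := by
          push_cast
          have h4 := Nat.cast_div_le (α := ℝ) (m := n) (n := 2 * q)
          push_cast at h4
          apply mul_le_mul (h2 r) (by linarith) (by positivity) (by positivity)
      _ = κ * ((n : ℝ) / 2 + q) := by field_simp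
      _ ≤ κ * ((n : ℝ) / 2 + (q : ℝ) ^ 2) := by
          gcongr
          nlinarith

open Classical in
/-- (F2) few items have a combination in a well distributed set of units -/
theorem card_cmb0_mem (hp : Base n k q S B0) (o : Bool) (j : Fin 10) (e w : ZMod (q ^ 2))
    (he : e = 1 ∨ e = -1) (R : Finset (ZMod (q ^ 2))) {κ : ℝ} (hκ : 0 ≤ κ)
    (h1 : (R.card : ℝ) ≤ κ * (q : ℝ) ^ 2)
    (h2 : ∀ r : ZMod q, ((R.filter (fun u => red q u = r)).card : ℝ) ≤ κ * q) :
    (((range n).filter (fun i => NS n k i ∧ (lamI q (e * cmb0 n k q o j i + w) ∈ R ∨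
      delI q (e * cmb0 n k q o j i + w) ∈ R))).card : ℝ) ≤ 12 * (κ * ((n : ℝ) / 2 + (q : ℝ) ^ 2)) := by
  have h12 : 12 * (κ * ((n : ℝ) / 2 + (q : ℝ) ^ 2)) = 6 * (2 * (κ * ((n : ℝ) / 2 + (q : ℝ) ^ 2))) := by
    ring
  rw [h12]
  refine card_keys (k := k) _ _ ?_
  intro t
  have hN := Fm_nice hp j t.1 (sgn n k o t.2) (sgn n k (!o) t.2) (sigOk_sgn hp o t.2)
  have hA := card_fibre_mem (n := n) (k := k) hp (hN.lamI hp e w he) t R hκ h1 h2
  have hB := card_fibre_mem (n := n) (k := k) hp (hN.delI e w he) t R hκ h1 h2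
  have hsub : (range n).filter (fun i => (NS n k i ∧ (lamI q (e * cmb0 n k q o j i + w) ∈ R ∨
      delI q (e * cmb0 n k q o j i + w) ∈ R)) ∧ fkey n k i = t) ⊆
      (range n).filter (fun i => lamI q (e * Fm n q j t.1 (sgn n k o t.2) (sgn n k (!o) t.2)
        ((i / 2 : ℕ) : ZMod (q ^ 2)) + w) ∈ R ∧ fkey n k i = t) ∪
      (range n).filter (fun i => delI q (e * Fm n q j t.1 (sgn n k o t.2) (sgn n k (!o) t.2)
        ((i / 2 : ℕ) : ZMod (q ^ 2)) + w) ∈ R ∧ fkey n k i = t) := by
    intro i hi'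
    rw [Finset.mem_filter, Finset.mem_range] at hi'
    rw [Finset.mem_union, Finset.mem_filter, Finset.mem_filter, Finset.mem_range]
    have h3 := cmb0_eq hp hi'.1 hi'.2.1.1 o j
    rw [hi'.2.2] at h3
    rw [← h3]
    rcases hi'.2.1.2 with h | h
    · left; exact ⟨hi'.1, h, hi'.2.2⟩
    · right; exact ⟨hi'.1, h, hi'.2.2⟩
  have h3 := (Nat.cast_le (α := ℝ)).mpr ((Finset.card_le_card hsub).trans
    (Finset.card_union_le _ _))
  rw [Nat.cast_add] at h3
  linarith

/-- the item `i` is generic -/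
def GenI (n k q i : ℕ) : Prop :=
  red q ((anc n i : ℤ) : ZMod (q ^ 2)) ≠ red q (cls0 n q (nbp n k i)) ∧
  red q ((anc n i : ℤ) : ZMod (q ^ 2)) ≠ red q (cls0 n q (nbm n k i)) ∧
  red q (cls0 n q (nbp n k i)) ≠ red q (cls0 n q (nbm n k i))

open Classical in
/-- a combination with unit slope vanishes modulo `q` for few items of a family -/
theorem card_fibre_red (_hp : Base n k q S B0) {s : ZMod (q ^ 2)}
    {G : ZMod (q ^ 2) → ZMod (q ^ 2)} (hG : QL s G) (hs : IsUnit s) (t : ℕ × ℕ) (r : ZMod q) :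
    ((range n).filter (fun i => red q (G ((i / 2 : ℕ) : ZMod (q ^ 2))) = r ∧ fkey n k i = t)).card
      ≤ n / (2 * q) + 1 := by
  apply card_same_class
  · intro i hi'
    rw [Finset.mem_filter, Finset.mem_range] at hi'
    exact hi'.1
  · intro i hi1 i' hi2
    rw [Finset.mem_filter] at hi1 hi2
    refine ⟨fkey_eq hi1.2.2 hi2.2.2, ?_⟩
    have h2 := hG.red_inj hs (hi1.2.1.trans hi2.2.1.symm)
    rw [red_natCast, red_natCast, natCast_eq_of_mod] at h2
    exact h2

open Classical in
/-- (F3) few items are not generic -/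
theorem card_not_gen (hp : Base n k q S B0) :
    (((range n).filter (fun i => NS n k i ∧ ¬ GenI n k q i)).card : ℝ)
      ≤ 6 * (3 * ((n : ℝ) / (2 * q) + 1)) := by
  refine card_keys (k := k) _ _ ?_
  intro t
  have hq := fun e1 e2 => isUnit_slope hp 5 (by decide) t.1 e1 e2
  have hq6 := fun e1 e2 => isUnit_slope hp 6 (by decide) t.1 e1 e2
  -- the three combinations
  have h5 := card_fibre_red (n := n) (k := k) hp ((QL_aF (n := n) t.1).comb 5 (QL_cNF (n := n) t.1 (sgn n k true t.2))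
    (QL_cNF (n := n) t.1 (sgn n k false t.2))) (hq _ _) t 0
  have h6 := card_fibre_red (n := n) (k := k) hp ((QL_aF (n := n) t.1).comb 6 (QL_cNF (n := n) t.1 (sgn n k true t.2))
    (QL_cNF (n := n) t.1 (sgn n k false t.2))) (hq6 _ _) t 0
  have h7 : ((range n).filter (fun i => (eN t.1 (sgn n k true t.2) ≠ eN t.1 (sgn n k false t.2) ∧
      red q (comb 7 (aF n q t.1 ((i / 2 : ℕ) : ZMod (q ^ 2)))
        (cNF n q t.1 (sgn n k true t.2) ((i / 2 : ℕ) : ZMod (q ^ 2)))
        (cNF n q t.1 (sgn n k false t.2) ((i / 2 : ℕ) : ZMod (q ^ 2)))) = 0) ∧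
      fkey n k i = t)).card ≤ n / (2 * q) + 1 := by
    by_cases he : eN t.1 (sgn n k true t.2) = eN t.1 (sgn n k false t.2)
    · rw [Finset.filter_false_of_mem]
      · simp
      · intro i _ hcon; exact hcon.1.1 he
    · have h8 := card_fibre_red (n := n) (k := k) hp ((QL_aF (n := n) t.1).comb 7
        (QL_cNF (n := n) t.1 (sgn n k true t.2)) (QL_cNF (n := n) t.1 (sgn n k false t.2)))
        (isUnit_slope7 hp t.1 _ _ (by
          have h1 := eN_lt t.1 (sgn n k true t.2)
          have h2 := eN_lt t.1 (sgn n k false t.2)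
          omega)) t 0
      refine (Finset.card_le_card ?_).trans h8
      intro i hi'
      rw [Finset.mem_filter] at hi' ⊢
      exact ⟨hi'.1, hi'.2.1.2, hi'.2.2⟩
  have hsub : (range n).filter (fun i => (NS n k i ∧ ¬ GenI n k q i) ∧ fkey n k i = t) ⊆
      ((range n).filter (fun i => red q (comb 5 (aF n q t.1 ((i / 2 : ℕ) : ZMod (q ^ 2)))
        (cNF n q t.1 (sgn n k true t.2) ((i / 2 : ℕ) : ZMod (q ^ 2)))
        (cNF n q t.1 (sgn n k false t.2) ((i / 2 : ℕ) : ZMod (q ^ 2)))) = 0 ∧ fkey n k i = t) ∪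
      (range n).filter (fun i => red q (comb 6 (aF n q t.1 ((i / 2 : ℕ) : ZMod (q ^ 2)))
        (cNF n q t.1 (sgn n k true t.2) ((i / 2 : ℕ) : ZMod (q ^ 2)))
        (cNF n q t.1 (sgn n k false t.2) ((i / 2 : ℕ) : ZMod (q ^ 2)))) = 0 ∧ fkey n k i = t)) ∪
      (range n).filter (fun i => (eN t.1 (sgn n k true t.2) ≠ eN t.1 (sgn n k false t.2) ∧
      red q (comb 7 (aF n q t.1 ((i / 2 : ℕ) : ZMod (q ^ 2)))
        (cNF n q t.1 (sgn n k true t.2) ((i / 2 : ℕ) : ZMod (q ^ 2)))
        (cNF n q t.1 (sgn n k false t.2) ((i / 2 : ℕ) : ZMod (q ^ 2)))) = 0) ∧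
      fkey n k i = t) := by
    intro i hi'
    rw [Finset.mem_filter, Finset.mem_range] at hi'
    obtain ⟨hin, ⟨hNS, hg⟩, hkey⟩ := hi'
    have e1 : i % 2 = t.1 := by rw [← hkey]; rfl
    have e2 : (fkey n k i).2 = t.2 := by rw [hkey]
    have c1 : cls0 n q (nbp n k i) = cNF n q t.1 (sgn n k true t.2) ((i / 2 : ℕ) : ZMod (q ^ 2)) := by
      have := cls0_nbo hp hin hNS true
      rw [e1, e2] at this; exact this
    have c2 : cls0 n q (nbm n k i) = cNF n q t.1 (sgn n k false t.2) ((i / 2 : ℕ) : ZMod (q ^ 2)) := by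
      have := cls0_nbo hp hin hNS false
      rw [e1, e2] at this; exact this
    have ca : ((anc n i : ℤ) : ZMod (q ^ 2)) = aF n q t.1 ((i / 2 : ℕ) : ZMod (q ^ 2)) := by
      have := anc_eq_aF (q := q) hNS.1
      rw [e1] at this; exact this
    rw [Finset.mem_union, Finset.mem_union, Finset.mem_filter, Finset.mem_filter, Finset.mem_filter,
      Finset.mem_range]
    rw [← c1, ← c2, ← ca]
    unfold GenI at hg
    simp only [not_and_or, not_not] at hg
    rcases hg with h | h | h
    · left; left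
      refine ⟨hin, ?_, hkey⟩
      simp only [comb]
      rw [map_sub, h, sub_self]
    · left; right
      refine ⟨hin, ?_, hkey⟩
      simp only [comb]
      rw [map_sub, h, sub_self]
    · right
      refine ⟨hin, ⟨?_, ?_⟩, hkey⟩
      · intro he
        apply red_diff_ne hp t.1 _ _ (sigOk_sgn hp true t.2) he ((i / 2 : ℕ) : ZMod (q ^ 2))
        rw [← c1, Bool.not_true, ← c2]; exact h
      · simp only [comb]
        rw [map_sub, h, sub_self]
  have h8 := (Finset.card_le_card hsub).trans ((Finset.card_union_le _ _).trans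
    (Nat.add_le_add_right (Finset.card_union_le _ _) _))
  have h9 : ((range n).filter (fun i => (NS n k i ∧ ¬ GenI n k q i) ∧ fkey n k i = t)).card
      ≤ 3 * (n / (2 * q) + 1) := by omega
  calc _ ≤ ((3 * (n / (2 * q) + 1) : ℕ) : ℝ) := by exact_mod_cast h9
    _ ≤ 3 * ((n : ℝ) / (2 * q) + 1) := by
      push_cast
      have h4 := Nat.cast_div_le (α := ℝ) (m := n) (n := 2 * q)
      push_cast at h4
      linarith

end Pool.Agent.PGr.SS
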