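import Pool.Agent.PGr.SColH
import Pool.Agent.PGr.SCount

/-!
# PGr, part S, colouring: assembly (ColThm)
-/

namespace Pool.Agent.PGr.SC

open Finset

variable {n k q : ℕ}

/-- the test sets -/
def Aset (n q e r x y : ℕ) : Finset ℕ :=
  (range n).filter (fun i => i % 2 = e ∧ (i / 2) % q ^ 2 = r ∧ x ≤ i / 2 ∧ i / 2 < y)

/-- the family of all test sets -/
def AFam (n q : ℕ) : Finset (Finset ℕ) :=
  insert (range n) ((range 2 ×ˢ range (q ^ 2) ×ˢ range (n + 1) ×ˢ range (n + 1)).image
    (fun p => Aset n q p.1 p.2.1 p.2.2.1 p.2.2.2))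

theorem Aset_mem (e r x y : ℕ) (he : e < 2) (hr : r < q ^ 2) : Aset n q e r x y ∈ AFam n q := by
  have h1 : Aset n q e r x y = Aset n q e r (min x n) (min y n) := by
    unfold Aset
    apply Finset.filter_congr
    intro i hi
    rw [Finset.mem_range] at hi
    have h2 : i / 2 < n := by omega
    constructor
    · rintro ⟨a, b, c, d⟩
      exact ⟨a, b, by omega, by omega⟩
    · rintro ⟨a, b, c, d⟩
      refine ⟨a, b, ?_, by omega⟩
      by_contra hlt
      push Not at hlt
      have : min x n = x ∨ min x n = n := by omega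
      omega
  rw [h1]
  unfold AFam
  rw [Finset.mem_insert]
  right
  rw [Finset.mem_image]
  refine ⟨(e, r, min x n, min y n), ?_, rfl⟩
  simp only [Finset.mem_product, Finset.mem_range]
  exact ⟨he, hr, by omega, by omega⟩

theorem AFam_sub : ∀ A ∈ AFam n q, A ⊆ range n := by
  intro A hA
  unfold AFam at hA
  rw [Finset.mem_insert] at hA
  rcases hA with hA | hA
  · rw [hA]
  · rw [Finset.mem_image] at hA
    obtain ⟨p, -, rfl⟩ := hA
    exact Finset.filter_subset _ _

theorem AFam_card : (AFam n q).card ≤ 2 * (q ^ 2 * ((n + 1) * (n + 1))) + 1 := by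
  unfold AFam
  refine (Finset.card_insert_le _ _).trans ?_
  refine Nat.add_le_add_right (Finset.card_image_le.trans ?_) _
  rw [Finset.card_product, Finset.card_product, Finset.card_product, Finset.card_range,
    Finset.card_range, Finset.card_range]

theorem Aset_card (e r x y : ℕ) : (Aset n q e r x y).card ≤ n / (2 * q ^ 2) + 1 := by
  apply SS.card_same_class
  · intro i hi
    unfold Aset at hi
    rw [Finset.mem_filter, Finset.mem_range] at hi
    exact hi.1
  · intro i hi j hj
    unfold Aset at hi hj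
    rw [Finset.mem_filter] at hi hj
    exact ⟨hi.2.1.trans hj.2.1.symm, hi.2.2.1.trans hj.2.2.1.symm⟩

open Classical in
/-- from a balanced colouring to `Col` -/
theorem col_of (hk2 : 2 * k < n) (hq : 3 ≤ q) {ρ : ℝ} (hρ : 0 < ρ)
    (hnq : 12 / ρ ≤ (n : ℝ) / (q : ℝ) ^ 2) (hq2n : (q : ℝ) ^ 2 * 2 ≤ n) (Bl It : ℕ → Prop)
    (P1 : ∀ i < n, Bl i → It (nbp n k i) ∧ It (nbm n k i))
    (P2 : ∀ i < n, It i → ¬ It (nbp n k i)) (P3 : ∀ i, ¬ (Bl i ∧ It i))
    (bal : ∀ A ∈ AFam n q,
      |((A.filter Bl).card : ℝ) - (A.card : ℝ) / 2| ≤ ρ / 8 * A.card + ρ * n / (4 * (q : ℝ) ^ 2) ∧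
      |((A.filter It).card : ℝ) - (A.card : ℝ) / 2| ≤ ρ / 8 * A.card + ρ * n / (4 * (q : ℝ) ^ 2)) :
    ∃ Bk Ck Pk : Finset ℕ, Col n k q ρ Bk Ck Pk := by
  have hn0 : 0 < n := by omega
  have hkn : k ≤ n := by omega
  have hq0 : (0 : ℝ) < (q : ℝ) ^ 2 := by positivity
  have hnR : (0 : ℝ) < n := by exact_mod_cast hn0
  -- the special vertex and its neighbours
  set Sp : ℕ → Prop := fun i => n % 2 = 0 ∧ i = n - 1 with hSp
  set Sq : ℕ → Prop := fun i => n % 2 = 0 ∧ (i = n - 1 ∨ i = nbm n k (n - 1) ∨ i = nbp n k (n - 1))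
    with hSq
  set Bk := (range n).filter (fun i => Bl i ∧ ¬ Sq i) with hBk
  set Ck := (range n).filter (fun i => It i ∧ ¬ Sp i) with hCk
  set Pk := (range n) \ (Bk ∪ Ck) with hPk
  have hBsub : Bk ⊆ range n := Finset.filter_subset _ _
  have hCsub : Ck ⊆ range n := Finset.filter_subset _ _
  have hBC : Disjoint Bk Ck := by
    rw [Finset.disjoint_left]
    intro i hi hi'
    rw [hBk, Finset.mem_filter] at hi
    rw [hCk, Finset.mem_filter] at hi'
    exact P3 i ⟨hi.2.1, hi'.2.1⟩
  -- loss by the special modification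
  have lossB : ∀ A : Finset ℕ, A ⊆ range n →
      ((A.filter Bl).card : ℝ) - 3 ≤ ((A.filter (fun i => i ∈ Bk)).card : ℝ) ∧
      ((A.filter (fun i => i ∈ Bk)).card : ℝ) ≤ ((A.filter Bl).card : ℝ) := by
    intro A hA
    constructor
    · have h1 : A.filter Bl ⊆ A.filter (fun i => i ∈ Bk) ∪
          ({n - 1, nbm n k (n - 1), nbp n k (n - 1)} : Finset ℕ) := by
        intro i hi
        rw [Finset.mem_filter] at hi
        rw [Finset.mem_union, Finset.mem_filter]
        by_cases hs : Sq i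
        · right
          rw [Finset.mem_insert, Finset.mem_insert, Finset.mem_singleton]
          exact hs.2
        · left
          exact ⟨hi.1, by rw [hBk, Finset.mem_filter]; exact ⟨hA hi.1, hi.2, hs⟩⟩
      have h2 := (Finset.card_le_card h1).trans (Finset.card_union_le _ _)
      have h3 : ({n - 1, nbm n k (n - 1), nbp n k (n - 1)} : Finset ℕ).card ≤ 3 :=
        Finset.card_le_three
      have h4 : (A.filter Bl).card ≤ (A.filter (fun i => i ∈ Bk)).card + 3 := by omega
      have h5 : ((A.filter Bl).card : ℝ) ≤ (((A.filter (fun i => i ∈ Bk)).card + 3 : ℕ) : ℝ) := by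
        exact_mod_cast h4
      push_cast at h5
      linarith
    · have h1 : A.filter (fun i => i ∈ Bk) ⊆ A.filter Bl := by
        intro i hi
        rw [Finset.mem_filter] at hi ⊢
        rw [hBk, Finset.mem_filter] at hi
        exact ⟨hi.1, hi.2.2.1⟩
      exact_mod_cast Finset.card_le_card h1
  have lossC : ∀ A : Finset ℕ, A ⊆ range n →
      ((A.filter It).card : ℝ) - 3 ≤ ((A.filter (fun i => i ∈ Ck)).card : ℝ) ∧
      ((A.filter (fun i => i ∈ Ck)).card : ℝ) ≤ ((A.filter It).card : ℝ) := by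
    intro A hA
    constructor
    · have h1 : A.filter It ⊆ A.filter (fun i => i ∈ Ck) ∪ ({n - 1} : Finset ℕ) := by
        intro i hi
        rw [Finset.mem_filter] at hi
        rw [Finset.mem_union, Finset.mem_filter]
        by_cases hs : Sp i
        · right
          rw [Finset.mem_singleton]
          exact hs.2
        · left
          exact ⟨hi.1, by rw [hCk, Finset.mem_filter]; exact ⟨hA hi.1, hi.2, hs⟩⟩
      have h2 := (Finset.card_le_card h1).trans (Finset.card_union_le _ _)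
      rw [Finset.card_singleton] at h2
      have h4 : (A.filter It).card ≤ (A.filter (fun i => i ∈ Ck)).card + 3 := by omega
      have h5 : ((A.filter It).card : ℝ) ≤ (((A.filter (fun i => i ∈ Ck)).card + 3 : ℕ) : ℝ) := by
        exact_mod_cast h4
      push_cast at h5
      linarith
    · have h1 : A.filter (fun i => i ∈ Ck) ⊆ A.filter It := by
        intro i hi
        rw [Finset.mem_filter] at hi ⊢
        rw [hCk, Finset.mem_filter] at hi
        exact ⟨hi.1, hi.2.2.1⟩
      exact_mod_cast Finset.card_le_card h1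
  have h12 : 3 ≤ ρ * n / (4 * (q : ℝ) ^ 2) := by
    rw [div_le_div_iff₀ hρ hq0] at hnq
    rw [le_div_iff₀ (by positivity)]
    linarith
  have hAcard : ∀ e r x y : ℕ, ((Aset n q e r x y).card : ℝ) ≤ (n : ℝ) / (q : ℝ) ^ 2 := by
    intro e r x y
    have h1 : ((Aset n q e r x y).card : ℝ) ≤ ((n / (2 * q ^ 2) + 1 : ℕ) : ℝ) := by
      exact_mod_cast Aset_card e r x y
    have h2 := Nat.cast_div_le (α := ℝ) (m := n) (n := 2 * q ^ 2)
    push_cast at h1 h2
    have h3 : (1 : ℝ) ≤ (n : ℝ) / (2 * (q : ℝ) ^ 2) := by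
      rw [le_div_iff₀ (by positivity)]; linarith
    have h4 : (n : ℝ) / (q : ℝ) ^ 2 = (n : ℝ) / (2 * (q : ℝ) ^ 2) + (n : ℝ) / (2 * (q : ℝ) ^ 2) := by
      field_simp; ring
    linarith
  have hswap : ∀ (X : Finset ℕ), X ⊆ range n → ∀ e r x y : ℕ,
      X.filter (fun i => i % 2 = e ∧ (i / 2) % q ^ 2 = r ∧ x ≤ i / 2 ∧ i / 2 < y)
        = (Aset n q e r x y).filter (fun i => i ∈ X) := by
    intro X hX e r x y
    unfold Aset
    ext i
    simp only [Finset.mem_filter]
    constructor
    · rintro ⟨a, b⟩; exact ⟨⟨hX a, b⟩, a⟩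
    · rintro ⟨⟨-, b⟩, a⟩; exact ⟨a, b⟩
  have hfin : ∀ a : ℝ, 0 ≤ a → a ≤ (n : ℝ) / (q : ℝ) ^ 2 →
      3 + (ρ / 8 * a + ρ * n / (4 * (q : ℝ) ^ 2)) ≤ ρ * n / (q : ℝ) ^ 2 := by
    intro a _ ha
    have h1 : ρ / 8 * a ≤ ρ / 8 * ((n : ℝ) / (q : ℝ) ^ 2) := by gcongr
    have h2 : ρ / 8 * ((n : ℝ) / (q : ℝ) ^ 2) = (ρ * n / (q : ℝ) ^ 2) / 8 := by ring
    have h3 : ρ * n / (4 * (q : ℝ) ^ 2) = (ρ * n / (q : ℝ) ^ 2) / 4 := by
      field_simp
    have h4 : 0 ≤ ρ * n / (q : ℝ) ^ 2 := by positivity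
    rw [h3] at h12 ⊢
    linarith
  refine ⟨Bk, Ck, Pk, ?_⟩
  exact {
    cover := by
      rw [hPk]
      exact Finset.union_sdiff_of_subset (Finset.union_subset hBsub hCsub)
    BC := hBC
    BP := by
      rw [hPk, Finset.disjoint_left]
      intro i hi hi'
      rw [Finset.mem_sdiff, Finset.mem_union] at hi'
      exact hi'.2 (Or.inl hi)
    CP := by
      rw [hPk, Finset.disjoint_left]
      intro i hi hi'
      rw [Finset.mem_sdiff, Finset.mem_union] at hi'
      exact hi'.2 (Or.inr hi)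
    nB := by
      intro i hi
      rw [hBk, Finset.mem_filter, Finset.mem_range] at hi
      obtain ⟨hin, hbl, hsq⟩ := hi
      obtain ⟨h1, h2⟩ := P1 i hin hbl
      constructor
      · rw [hCk, Finset.mem_filter, Finset.mem_range]
        refine ⟨nbp_lt hn0 i, h1, ?_⟩
        rintro ⟨hs1, hs2⟩
        apply hsq
        refine ⟨hs1, Or.inr (Or.inl ?_)⟩
        rw [← hs2, nbm_nbp hkn hin]
      · rw [hCk, Finset.mem_filter, Finset.mem_range]
        refine ⟨nbm_lt hn0 i, h2, ?_⟩
        rintro ⟨hs1, hs2⟩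
        apply hsq
        refine ⟨hs1, Or.inr (Or.inr ?_)⟩
        rw [← hs2, nbp_nbm hkn hin]
    nC := by
      intro i hi
      rw [hCk, Finset.mem_filter, Finset.mem_range] at hi
      obtain ⟨hin, hit, hsp⟩ := hi
      have h1 : nbp n k i ∉ Ck := by
        intro hc
        rw [hCk, Finset.mem_filter] at hc
        exact P2 i hin hit hc.2.1
      have h2 : nbm n k i ∉ Ck := by
        intro hc
        rw [hCk, Finset.mem_filter] at hc
        apply P2 (nbm n k i) (nbm_lt hn0 i) hc.2.1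
        rw [nbp_nbm hkn hin]; exact hit
      constructor
      · rw [Finset.mem_union, hPk, Finset.mem_sdiff, Finset.mem_range, Finset.mem_union]
        by_cases hb : nbp n k i ∈ Bk
        · exact Or.inl hb
        · exact Or.inr ⟨nbp_lt hn0 i, by tauto⟩
      · rw [Finset.mem_union, hPk, Finset.mem_sdiff, Finset.mem_range, Finset.mem_union]
        by_cases hb : nbm n k i ∈ Bk
        · exact Or.inl hb
        · exact Or.inr ⟨nbm_lt hn0 i, by tauto⟩
    special := by
      intro heven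
      rw [hPk, Finset.mem_sdiff, Finset.mem_range, Finset.mem_union]
      refine ⟨by omega, ?_⟩
      rintro (hc | hc)
      · rw [hBk, Finset.mem_filter] at hc
        exact hc.2.2 ⟨heven, Or.inl rfl⟩
      · rw [hCk, Finset.mem_filter] at hc
        exact hc.2.2 ⟨heven, rfl⟩
    cardP := by
      have hr : range n ∈ AFam n q := Finset.mem_insert_self _ _
      obtain ⟨b1, b2⟩ := bal _ hr
      have l1 := (lossB (range n) (Finset.Subset.refl _)).1
      have l2 := (lossC (range n) (Finset.Subset.refl _)).1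
      have e1 : (range n).filter (fun i => i ∈ Bk) = Bk := by
        rw [Finset.filter_mem_eq_inter]; exact Finset.inter_eq_right.mpr hBsub
      have e2 : (range n).filter (fun i => i ∈ Ck) = Ck := by
        rw [Finset.filter_mem_eq_inter]; exact Finset.inter_eq_right.mpr hCsub
      rw [e1] at l1
      rw [e2] at l2
      rw [Finset.card_range] at b1 b2
      have hc1 : Pk.card + (Bk.card + Ck.card) = n := by
        rw [hPk, ← Finset.card_union_of_disjoint hBC,
          Finset.card_sdiff_add_card_eq_card (Finset.union_subset hBsub hCsub), Finset.card_range]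
      have hc2 : (Pk.card : ℝ) + (Bk.card + Ck.card) = n := by exact_mod_cast hc1
      have h3 : ρ * n / (4 * (q : ℝ) ^ 2) ≤ ρ * n / 8 := by
        apply div_le_div_of_nonneg_left (by positivity) (by norm_num)
        have : (3 : ℝ) ≤ q := by exact_mod_cast hq
        nlinarith
      have h4 := (abs_le.mp b1).1
      have h5 := (abs_le.mp b2).1
      linarith
    balB := by
      intro e he r hr x y
      have hA := Aset_mem (n := n) e r x y he hr
      obtain ⟨b1, -⟩ := bal _ hA
      have l1 := lossB _ (AFam_sub _ hA)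
      rw [hswap Bk hBsub e r x y]
      have e3 : (range n).filter (fun i => i % 2 = e ∧ (i / 2) % q ^ 2 = r ∧ x ≤ i / 2 ∧ i / 2 < y)
        = Aset n q e r x y := rfl
      rw [e3]
      have h6 := hfin _ (Nat.cast_nonneg _) (hAcard e r x y)
      rw [abs_le] at b1 ⊢
      constructor <;> linarith [b1.1, b1.2, l1.1, l1.2]
    balC := by
      intro e he r hr x y
      have hA := Aset_mem (n := n) e r x y he hr
      obtain ⟨-, b1⟩ := bal _ hA
      have l1 := lossC _ (AFam_sub _ hA)
      rw [hswap Ck hCsub e r x y]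
      have e3 : (range n).filter (fun i => i % 2 = e ∧ (i / 2) % q ^ 2 = r ∧ x ≤ i / 2 ∧ i / 2 < y)
        = Aset n q e r x y := rfl
      rw [e3]
      have h6 := hfin _ (Nat.cast_nonneg _) (hAcard e r x y)
      rw [abs_le] at b1 ⊢
      constructor <;> linarith [b1.1, b1.2, l1.1, l1.2] }

/-- a power times a Gaussian tail is small -/
theorem exists_q0 (c : ℝ) (hc : 0 < c) : ∃ q0 : ℕ, ∀ q : ℕ, q0 ≤ q →
    40 * (q : ℝ) ^ 18 * Real.exp (-(c * (q : ℝ) ^ 2)) < 1 := by
  have h1 := Real.tendsto_pow_mul_exp_neg_atTop_nhds_zero 9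
  have h2 : Filter.Tendsto (fun q : ℕ => c * (q : ℝ) ^ 2) Filter.atTop Filter.atTop := by
    apply Filter.Tendsto.const_mul_atTop hc
    exact (Filter.tendsto_pow_atTop two_ne_zero).comp tendsto_natCast_atTop_atTop
  have h3 := h1.comp h2
  have h4 : (0 : ℝ) < c ^ 9 / 41 := by positivity
  have h5 := (h3.eventually (gt_mem_nhds h4)).exists_forall_of_atTop
  obtain ⟨q0, h6⟩ := h5
  refine ⟨q0, fun q hq => ?_⟩
  have h7 := h6 q hq
  simp only [Function.comp] at h7
  have h8 : (c * (q : ℝ) ^ 2) ^ 9 = c ^ 9 * (q : ℝ) ^ 18 := by ring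
  rw [h8] at h7
  have h9 : (0 : ℝ) < c ^ 9 := by positivity
  have h10 : c ^ 9 * (40 * (q : ℝ) ^ 18 * Real.exp (-(c * (q : ℝ) ^ 2))) < c ^ 9 * 1 := by
    have : c ^ 9 * (40 * (q : ℝ) ^ 18 * Real.exp (-(c * (q : ℝ) ^ 2)))
        = 40 * (c ^ 9 * (q : ℝ) ^ 18 * Real.exp (-(c * (q : ℝ) ^ 2))) := by ring
    rw [this]
    linarith
  exact lt_of_mul_lt_mul_left h10 h9.le

end Pool.Agent.PGr.SC
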