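import Pool.Agent.PGr.SArith

/-!
# PGr, part S: the facts (S1)-(S4) on the scheme
-/

namespace Pool.Agent.PGr.SS

variable {n k q S B0 i j : ℕ}

theorem _root_.Pool.Agent.PGr.Base.q2pos (hp : Base n k q S B0) : 0 < q ^ 2 := by
  have := hp.q_prime.pos; positivity

theorem _root_.Pool.Agent.PGr.Base.Spos (hp : Base n k q S B0) : 0 < S := by
  rcases Nat.eq_zero_or_pos S with h | h
  · exact absurd (h ▸ dvd_zero 3) hp.S_three
  · exact h

theorem _root_.Pool.Agent.PGr.Base.B0_cast (hp : Base n k q S B0) : ((B0 : ℕ) : ZMod (q ^ 2)) = 0 :=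
  (ZMod.natCast_eq_zero_iff _ _).mpr hp.B0_dvd

theorem _root_.Pool.Agent.PGr.Base.B0_add_le (hp : Base n k q S B0) : B0 + 2 * (q ^ 2 * S) + 3 ≤ 2 * n := by
  have h1 := hp.B0_high
  have h2 := hp.S_high
  have h3 : 2 * q ^ 2 * (S + 1) = 2 * (q ^ 2 * S) + 2 * q ^ 2 := by ring
  have h4 := hp.q2pos
  omega

theorem anc_low (h : i % 2 = 0) : anc n i = (i / 2 : ℕ) := by simp [anc, h]

theorem anc_high (h : i % 2 ≠ 0) (hs : ¬ spec n i) :
    anc n i = 3 * n - (i / 2 : ℕ) := by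
  unfold spec at hs
  unfold anc; rw [if_neg h, if_neg hs]

theorem un_low (h : i % 2 = 0) : un n q i = ((i / 2 : ℕ) : ZMod (q ^ 2)) := by
  simp [un, h]

theorem un_high (h : i % 2 ≠ 0) : un n q i = hhI q ((anc n i : ℤ) : ZMod (q ^ 2)) := by
  simp [un, h]

theorem om_le (u : ZMod (q ^ 2)) : om n q B0 u ≤ 1 := by
  unfold om; omega

theorem om_even (u : ZMod (q ^ 2)) : ∃ w : ℤ, ee n q B0 u - om n q B0 u = 2 * w := by
  unfold om
  refine ⟨ee n q B0 u / 2, ?_⟩
  omega

theorem _root_.Pool.Agent.PGr.inVS.lt (hi : inVS n q S B0 i) : i < n := hi.1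

theorem _root_.Pool.Agent.PGr.inVS.low (hi : inVS n q S B0 i) (h : i % 2 = 0) : i / 2 / q ^ 2 < S := by
  have := hi.2; rwa [if_pos h] at this

theorem _root_.Pool.Agent.PGr.inVS.high (hi : inVS n q S B0 i) (h : i % 2 ≠ 0) :
    om n q B0 (un n q i) ≤ i / 2 / q ^ 2 ∧ i / 2 / q ^ 2 - om n q B0 (un n q i) < S := by
  have := hi.2; rw [if_neg h] at this; exact this.2

theorem _root_.Pool.Agent.PGr.inVS.not_spec (hi : inVS n q S B0 i) : ¬ spec n i := by
  by_cases h : i % 2 = 0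
  · unfold spec; omega
  · have := hi.2; rw [if_neg h] at this; exact this.1

theorem hi_iff (hs : ¬ spec n i) : hi n i = true ↔ i % 2 ≠ 0 := by
  unfold spec at hs
  unfold hi
  rw [decide_eq_true_iff]
  omega

theorem hi_eq_false_iff (hs : ¬ spec n i) : hi n i = false ↔ i % 2 = 0 := by
  unfold spec at hs
  unfold hi
  rw [decide_eq_false_iff_not]
  omega

theorem low_idx (h : i % 2 = 0) :
    i / 2 = (un n q i).val + q ^ 2 * (i / 2 / q ^ 2) := by
  rw [un_low h, ZMod.val_natCast]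
  exact (Nat.mod_add_div _ _).symm

theorem high_hh (hp : Base n k q S B0) (h : i % 2 ≠ 0) :
    hh q (un n q i) = ((anc n i : ℤ) : ZMod (q ^ 2)) := by
  rw [un_high h, hh_hhI hp.q_prime hp.q_big]

theorem high_rr (hp : Base n k q S B0) (h : i % 2 ≠ 0) (hs : ¬ spec n i) :
    rr n q (un n q i) = i / 2 % q ^ 2 := by
  unfold rr
  rw [high_hh hp h, anc_high h hs]
  have : ((3 * n : ℕ) : ZMod (q ^ 2)) - (((3 * n - (i / 2 : ℕ) : ℤ)) : ZMod (q ^ 2))
      = ((i / 2 : ℕ) : ZMod (q ^ 2)) := by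
    generalize i / 2 = z
    push_cast; ring
  rw [this, ZMod.val_natCast]

theorem high_idx (hp : Base n k q S B0) (h : i % 2 ≠ 0) (hs : ¬ spec n i) :
    i / 2 = rr n q (un n q i) + q ^ 2 * (i / 2 / q ^ 2) := by
  rw [high_rr hp h hs]
  exact (Nat.mod_add_div _ _).symm

/-- the quantity defining `e(u)` is divisible by `Q` -/
theorem _root_.Pool.Agent.PGr.Base.ee_mul (hp : Base n k q S B0) (u : ZMod (q ^ 2)) :
    ((q ^ 2 : ℕ) : ℤ) * ee n q B0 u
      = (3 * n : ℤ) - rr n q u - 2 * B0 - 2 * Lab q u + u.val := by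
  have : NeZero (q ^ 2) := ⟨hp.q2pos.ne'⟩
  unfold ee
  push_cast
  apply Int.mul_ediv_cancel'
  have h0 : ((q : ℤ) ^ 2) = ((q ^ 2 : ℕ) : ℤ) := by push_cast; rfl
  rw [h0, ← ZMod.intCast_zmod_eq_zero_iff_dvd]
  push_cast
  rw [hp.B0_cast]
  have h1 : ((rr n q u : ℕ) : ZMod (q ^ 2)) = 3 * n - hh q u := by
    unfold rr; rw [ZMod.natCast_zmod_val]; push_cast; rfl
  have h2 : ((Lab q u : ℕ) : ZMod (q ^ 2)) = lam q u := ZMod.natCast_zmod_val _
  have h3 : ((u.val : ℕ) : ZMod (q ^ 2)) = u := ZMod.natCast_zmod_val _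
  rw [h1, h2, h3, hh_eq]
  ring

/-- (S1) residue of the scheme label -/
theorem Yl_cast (hp : Base n k q S B0) (i : ℕ) (θ : ZMod (2 * S)) :
    ((Yl n q S B0 i θ : ℤ) : ZMod (q ^ 2)) = lam q (un n q i) := by
  have : NeZero (q ^ 2) := ⟨hp.q2pos.ne'⟩
  have h0 : ((q ^ 2 : ℕ) : ZMod (q ^ 2)) = 0 := ZMod.natCast_self _
  have h0' : ((q : ZMod (q ^ 2)) ^ 2) = 0 := by exact_mod_cast h0
  unfold Yl Lab
  push_cast
  rw [hp.B0_cast, ZMod.natCast_zmod_val, h0']
  ring

/-- (S1) the scheme label lies in the window -/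
theorem Yl_mem (hp : Base n k q S B0) (i : ℕ) (θ : ZMod (2 * S)) :
    (B0 : ℤ) ≤ Yl n q S B0 i θ ∧ Yl n q S B0 i θ < B0 + 2 * S * q ^ 2 := by
  have : NeZero (q ^ 2) := ⟨hp.q2pos.ne'⟩
  have : NeZero (2 * S) := ⟨by have := hp.Spos; omega⟩
  unfold Yl Lab
  have h1 := ZMod.val_lt (lam q (un n q i))
  have h2 := ZMod.val_lt (θ + 3 * (sidx n q S B0 i : ZMod (2 * S)))
  generalize (θ + 3 * (sidx n q S B0 i : ZMod (2 * S))).val = t at *
  have h3 : q ^ 2 * (t + 1) ≤ q ^ 2 * (2 * S) := Nat.mul_le_mul_left _ h2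
  have h4 : q ^ 2 * (2 * S) = 2 * S * q ^ 2 := by ring
  rw [Nat.mul_add] at h3
  constructor
  · exact_mod_cast (by omega : B0 ≤ B0 + (lam q (un n q i)).val + q ^ 2 * t)
  · exact_mod_cast (by omega : B0 + (lam q (un n q i)).val + q ^ 2 * t < B0 + 2 * S * q ^ 2)

theorem Yl_ge (hp : Base n k q S B0) (i : ℕ) (θ : ZMod (2 * S)) : (n : ℤ) ≤ Yl n q S B0 i θ := by
  have h1 := (Yl_mem hp i θ).1
  have h2 := hp.B0_low
  omega

theorem Yl_le (hp : Base n k q S B0) (i : ℕ) (θ : ZMod (2 * S)) :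
    Yl n q S B0 i θ + 4 ≤ 2 * n := by
  have h1 := (Yl_mem hp i θ).2
  have h2 : ((B0 + 2 * (q ^ 2 * S) + 3 : ℕ) : ℤ) ≤ ((2 * n : ℕ) : ℤ) := by
    exact_mod_cast hp.B0_add_le
  have h3 : (2 * (S : ℤ) * (q : ℤ) ^ 2) = 2 * (q ^ 2 * S) := by ring
  push_cast at h2
  omega

/-- (S1) the label is a bijection of the shifts onto the residue class in the window -/
theorem Yl_surj (hp : Base n k q S B0) (i : ℕ) {y : ℤ} (h1 : (B0 : ℤ) ≤ y)
    (h2 : y < B0 + 2 * S * q ^ 2)
    (hyc : (y : ZMod (q ^ 2)) = lam q (un n q i)) : ∃ θ : ZMod (2 * S), Yl n q S B0 i θ = y := by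
  have : NeZero (q ^ 2) := ⟨hp.q2pos.ne'⟩
  have : NeZero (2 * S) := ⟨by have := hp.Spos; omega⟩
  have hq0 := hp.q2pos
  have h1' := ZMod.val_lt (lam q (un n q i))
  -- the integer `y - B0 - Lab` is divisible by `Q`
  have hd : ((q ^ 2 : ℕ) : ℤ) ∣ y - B0 - (lam q (un n q i)).val := by
    rw [← ZMod.intCast_zmod_eq_zero_iff_dvd]
    push_cast
    rw [hp.B0_cast, ZMod.natCast_zmod_val, hyc]
    ring
  obtain ⟨t, ht⟩ := hd
  have ht0 : 0 ≤ t := by
    by_contra hneg
    push Not at hneg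
    have h9 : ((q ^ 2 : ℕ) : ℤ) * t ≤ ((q ^ 2 : ℕ) : ℤ) * (-1) :=
      mul_le_mul_of_nonneg_left (by omega) (by positivity)
    rw [← ht] at h9
    omega
  have ht1 : t < 2 * S := by
    by_contra hge
    push Not at hge
    have h9 : ((q ^ 2 : ℕ) : ℤ) * (2 * S) ≤ ((q ^ 2 : ℕ) : ℤ) * t :=
      mul_le_mul_of_nonneg_left hge (by positivity)
    have h5 : ((q ^ 2 : ℕ) : ℤ) * (2 * S) = 2 * S * q ^ 2 := by push_cast; ring
    rw [← ht, h5] at h9
    linarith [Int.natCast_nonneg (lam q (un n q i)).val]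
  refine ⟨((t.toNat : ℕ) : ZMod (2 * S)) - 3 * (sidx n q S B0 i : ZMod (2 * S)), ?_⟩
  unfold Yl Lab
  rw [sub_add_cancel, ZMod.val_natCast, Nat.mod_eq_of_lt (by omega)]
  have h6 : ((t.toNat : ℕ) : ℤ) = t := Int.toNat_of_nonneg ht0
  rw [h6]
  push_cast at ht
  linarith

theorem Yl_inj (hp : Base n k q S B0) (i : ℕ) : Function.Injective (Yl n q S B0 i) := by
  intro θ θ' h
  have : NeZero (2 * S) := ⟨by have := hp.Spos; omega⟩
  unfold Yl at h
  have hq0 : ((q : ℤ) ^ 2) ≠ 0 := by have := hp.q_prime.ne_zero; positivity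
  have h2 := mul_left_cancel₀ hq0 (add_left_cancel h)
  have h3 := ZMod.val_injective _ (Nat.cast_injective h2)
  exact add_right_cancel h3

/-- the shifted index, as an integer -/
theorem val_shift {S : ℕ} (hS : 0 < S) (θ : ZMod (2 * S)) (s : ℕ) :
    ∃ m : ℤ, ((θ + 3 * (s : ZMod (2 * S))).val : ℤ) = θ.val + 3 * s - 2 * (S * m) := by
  have : NeZero (2 * S) := ⟨by omega⟩
  have h1 : (((θ.val + 3 * s : ℤ) - ((θ + 3 * (s : ZMod (2 * S))).val : ℤ) : ℤ) : ZMod (2 * S)) = 0 := by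
    push_cast
    rw [ZMod.natCast_zmod_val, ZMod.natCast_zmod_val]
    ring
  rw [ZMod.intCast_zmod_eq_zero_iff_dvd] at h1
  obtain ⟨m, hm⟩ := h1
  refine ⟨m, ?_⟩
  push_cast at hm ⊢
  linarith

theorem sidx_low (h : i % 2 = 0) : sidx n q S B0 i = i / 2 / q ^ 2 := by simp [sidx, h]

theorem sidx_high (h : i % 2 ≠ 0) :
    sidx n q S B0 i = 2 * S - 1 - (i / 2 / q ^ 2 - om n q B0 (un n q i)) := by
  unfold sidx; rw [if_neg h]

theorem _root_.Pool.Agent.PGr.inVS.sidx_lt (hi : inVS n q S B0 i) : sidx n q S B0 i < 2 * S := by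
  by_cases h : i % 2 = 0
  · rw [sidx_low h]; have := hi.low h; omega
  · rw [sidx_high h]; have := hi.high h; omega

theorem sidx_inj (hp : Base n k q S B0) (hi : inVS n q S B0 i) (hj : inVS n q S B0 j)
    (hu : un n q i = un n q j) (hs : sidx n q S B0 i = sidx n q S B0 j) : i = j := by
  by_cases h : i % 2 = 0 <;> by_cases h' : j % 2 = 0
  · rw [sidx_low h, sidx_low h'] at hs
    have h1 := low_idx (n := n) (q := q) h
    have h2 := low_idx (n := n) (q := q) h'
    rw [hu, hs, ← h2] at h1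
    omega
  · rw [sidx_low h, sidx_high h'] at hs
    have h1 := hi.low h
    have h2 := hj.high h'
    omega
  · rw [sidx_high h, sidx_low h'] at hs
    have h1 := hj.low h'
    have h2 := hi.high h
    omega
  · rw [sidx_high h, sidx_high h', hu] at hs
    have h1 := hi.high h
    have h2 := hj.high h'
    rw [hu] at h1
    have h3 : i / 2 / q ^ 2 = j / 2 / q ^ 2 := by omega
    have h4 := high_idx hp h (hi.not_spec)
    have h5 := high_idx hp h' (hj.not_spec)
    rw [hu, h3, ← h5] at h4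
    omega

/-- (S2) the labels of the vertices of one unit are distinct -/
theorem Yl_ne (hp : Base n k q S B0) (hi : inVS n q S B0 i) (hj : inVS n q S B0 j)
    (hu : un n q i = un n q j) (hij : i ≠ j) (θ : ZMod (2 * S)) :
    Yl n q S B0 i θ ≠ Yl n q S B0 j θ := by
  intro h
  apply hij
  apply sidx_inj hp hi hj hu
  have : NeZero (2 * S) := ⟨by have := hp.Spos; omega⟩
  unfold Yl at h
  rw [hu] at h
  have hq0 : ((q : ℤ) ^ 2) ≠ 0 := by have := hp.q_prime.ne_zero; positivity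
  have h2 := mul_left_cancel₀ hq0 (add_left_cancel h)
  have h3 := add_left_cancel (ZMod.val_injective _ (Nat.cast_injective h2))
  have h4 : ((3 * sidx n q S B0 i : ℕ) : ZMod (2 * S)) = ((3 * sidx n q S B0 j : ℕ) : ZMod (2 * S)) := by
    push_cast; exact h3
  rw [ZMod.natCast_eq_natCast_iff] at h4
  have h5 : Nat.Coprime (2 * S) 3 := by
    rw [Nat.coprime_comm, Nat.Prime.coprime_iff_not_dvd Nat.prime_three]
    intro hd
    rcases (Nat.Prime.dvd_mul Nat.prime_three).mp hd with h6 | h6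
    · omega
    · exact hp.S_three h6
  have h6 := Nat.ModEq.cancel_left_of_coprime h5 h4
  unfold Nat.ModEq at h6
  rwa [Nat.mod_eq_of_lt hi.sidx_lt, Nat.mod_eq_of_lt hj.sidx_lt] at h6

/-- all scheme labels are distinct -/
theorem Yl_ne' (hp : Base n k q S B0) (hi : inVS n q S B0 i) (hj : inVS n q S B0 j)
    (hij : i ≠ j) (θ : ZMod (q ^ 2) → ZMod (2 * S)) :
    Yl n q S B0 i (θ (un n q i)) ≠ Yl n q S B0 j (θ (un n q j)) := by
  by_cases hu : un n q i = un n q j
  · rw [← hu]; exact Yl_ne hp hi hj hu hij _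
  · intro h
    apply hu
    have h1 := Yl_cast hp i (θ (un n q i))
    rw [h, Yl_cast hp j] at h1
    exact ((lam_inj hp.q_prime hp.q_big).mp h1).symm

/-- the common offset of the spokes of a unit -/
def EE (q B0 : ℕ) (u : ZMod (q ^ 2)) : ℤ := (B0 : ℤ) + Lab q u - u.val

/-- spoke of a low vertex -/
theorem spoke_low (h : i % 2 = 0) (θ : ZMod (2 * S)) :
    Yl n q S B0 i θ - anc n i = EE q B0 (un n q i)
      + (q ^ 2 : ℕ) * (((θ + 3 * (sidx n q S B0 i : ZMod (2 * S))).val : ℤ) - sidx n q S B0 i) := by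
  rw [anc_low h]
  have h1 := low_idx (n := n) (q := q) h
  have h2 : ((i / 2 : ℕ) : ℤ) = (un n q i).val + (q ^ 2 : ℕ) * (i / 2 / q ^ 2 : ℕ) := by
    exact_mod_cast h1
  rw [h2]
  unfold Yl EE
  rw [sidx_low h]
  push_cast
  ring

/-- spoke of a high vertex -/
theorem spoke_high (hp : Base n k q S B0) (hi : inVS n q S B0 i) (h : i % 2 ≠ 0)
    (θ : ZMod (2 * S)) :
    anc n i - Yl n q S B0 i θ = EE q B0 (un n q i)
      + (q ^ 2 : ℕ) * ((ee n q B0 (un n q i) - om n q B0 (un n q i))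
        - ((2 * S : ℤ) - 1 - sidx n q S B0 i) - ((θ + 3 * (sidx n q S B0 i : ZMod (2 * S))).val : ℤ)) := by
  have hs := hi.not_spec
  rw [anc_high h hs]
  have h1 := high_idx hp h hs
  have h2 : ((i / 2 : ℕ) : ℤ) = rr n q (un n q i) + (q ^ 2 : ℕ) * (i / 2 / q ^ 2 : ℕ) := by
    exact_mod_cast h1
  have h3 := hp.ee_mul (un n q i)
  have h4 := hi.high h
  have h5 : (sidx n q S B0 i : ℤ) = 2 * S - 1 - ((i / 2 / q ^ 2 : ℕ) - om n q B0 (un n q i)) := by
    rw [sidx_high h]; omega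
  rw [h2]
  unfold Yl EE
  generalize (θ + 3 * (sidx n q S B0 i : ZMod (2 * S))).val = t
  rw [h5]
  push_cast at h3 ⊢
  linear_combination (-1 : ℤ) * h3

theorem anc_nonneg (n i : ℕ) (hi : i < n) : 0 ≤ anc n i := by
  unfold anc; split_ifs <;> omega

theorem anc_le (n i : ℕ) (hi : i < n) : anc n i ≤ 3 * n := by
  unfold anc; split_ifs <;> omega

/-- (S4), low -/
theorem spoke_low_pos (hp : Base n k q S B0) (hin : i < n) (h : i % 2 = 0)
    (θ : ZMod (2 * S)) :
    (n : ℤ) ≤ 2 * (Yl n q S B0 i θ - anc n i) ∧ Yl n q S B0 i θ - anc n i ≤ 2 * n := by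
  have h1 := Yl_ge hp i θ
  have h2 := Yl_le hp i θ
  rw [anc_low h]
  omega

/-- (S4), high -/
theorem spoke_high_pos (hp : Base n k q S B0) (hi : inVS n q S B0 i) (h : i % 2 ≠ 0)
    (θ : ZMod (2 * S)) :
    (n : ℤ) ≤ 2 * (anc n i - Yl n q S B0 i θ) ∧ anc n i - Yl n q S B0 i θ ≤ 2 * n := by
  have h1 := Yl_ge hp i θ
  have h2 := Yl_le hp i θ
  have h4 := hi.1
  rw [anc_high h (hi.not_spec)]
  omega

/-- the residue of the spoke (S3) -/
theorem spoke_cast (hp : Base n k q S B0) (hi : inVS n q S B0 i) (θ : ZMod (2 * S)) :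
    ((|Yl n q S B0 i θ - anc n i| : ℤ) : ZMod (q ^ 2)) = del q (un n q i) := by
  by_cases h : i % 2 = 0
  · have h1 := spoke_low_pos hp hi.1 h θ
    have hn : (0 : ℤ) ≤ n := Int.natCast_nonneg n
    rw [abs_of_nonneg (by omega)]
    rw [Int.cast_sub, Yl_cast hp, anc_low h, del_eq, un_low h, Int.cast_natCast]
  · have h1 := spoke_high_pos hp hi h θ
    have hn : (0 : ℤ) ≤ n := Int.natCast_nonneg n
    rw [abs_sub_comm, abs_of_nonneg (by omega)]
    push_cast
    rw [Yl_cast hp, ← high_hh hp h, del_eq']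

/-- (S3) the spokes of the vertices of one unit are distinct -/
theorem spoke_ne (hp : Base n k q S B0) (hi : inVS n q S B0 i) (hj : inVS n q S B0 j)
    (hu : un n q i = un n q j) (hij : i ≠ j) (θ : ZMod (2 * S)) :
    |Yl n q S B0 i θ - anc n i| ≠ |Yl n q S B0 j θ - anc n j| := by
  intro he
  apply hij
  have hq0 : ((q ^ 2 : ℕ) : ℤ) ≠ 0 := by have := hp.q2pos; positivity
  have hS := hp.Spos
  have hn : (0 : ℤ) ≤ n := Int.natCast_nonneg n
  obtain ⟨m, hm⟩ := val_shift hS θ (sidx n q S B0 i)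
  obtain ⟨m', hm'⟩ := val_shift hS θ (sidx n q S B0 j)
  obtain ⟨w, hw⟩ := om_even (n := n) (B0 := B0) (un n q j)
  have hsi := hi.sidx_lt
  have hsj := hj.sidx_lt
  have key : ∀ z : ℤ, ∀ a b : ℕ, a < S → b < S → (a : ℤ) - b = S * z → a = b := by
    intro z a b ha hb hz
    have hz0 : z = 0 := by
      by_contra hz0
      rcases lt_or_gt_of_ne hz0 with hz1 | hz1
      · have : (S : ℤ) * z ≤ S * (-1) := mul_le_mul_of_nonneg_left (by omega) (by omega)
        omega
      · have : (S : ℤ) * 1 ≤ S * z := mul_le_mul_of_nonneg_left (by omega) (by omega)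
        omega
    rw [hz0] at hz
    omega
  by_cases h : i % 2 = 0 <;> by_cases h' : j % 2 = 0
  · have h1 := spoke_low_pos hp hi.1 h θ
    have h2 := spoke_low_pos hp hj.1 h' θ
    rw [abs_of_nonneg (by omega), abs_of_nonneg (by omega), spoke_low h, spoke_low h', hu] at he
    have h3 := mul_left_cancel₀ hq0 (add_left_cancel he)
    rw [hm, hm'] at h3
    apply sidx_inj hp hi hj hu
    have h4 := hi.low h
    have h5 := hj.low h'
    rw [← sidx_low (n := n) (S := S) (B0 := B0) h] at h4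
    rw [← sidx_low (n := n) (S := S) (B0 := B0) h'] at h5
    apply key (m - m') _ _ h4 h5
    linarith
  · exfalso
    have h1 := spoke_low_pos hp hi.1 h θ
    have h2 := spoke_high_pos hp hj h' θ
    rw [abs_of_nonneg (by omega), abs_sub_comm, abs_of_nonneg (by omega), spoke_low h,
      spoke_high hp hj h', hu] at he
    have h3 := mul_left_cancel₀ hq0 (add_left_cancel he)
    rw [hm, hm', hw] at h3
    generalize (S : ℤ) * m = x at *
    generalize (S : ℤ) * m' = y at *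
    omega
  · exfalso
    obtain ⟨w', hw'⟩ := om_even (n := n) (B0 := B0) (un n q i)
    have h1 := spoke_low_pos hp hj.1 h' θ
    have h2 := spoke_high_pos hp hi h θ
    rw [abs_sub_comm, abs_of_nonneg (by omega), abs_of_nonneg (by omega), spoke_low h',
      spoke_high hp hi h, hu] at he
    have h3 := mul_left_cancel₀ hq0 (add_left_cancel he)
    rw [hm, hm', hw] at h3
    generalize (S : ℤ) * m = x at *
    generalize (S : ℤ) * m' = y at *
    omega
  · have h1 := spoke_high_pos hp hi h θ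
    have h2 := spoke_high_pos hp hj h' θ
    rw [abs_sub_comm, abs_of_nonneg (by omega), abs_sub_comm, abs_of_nonneg (by omega),
      spoke_high hp hi h, spoke_high hp hj h', hu] at he
    have h3 := mul_left_cancel₀ hq0 (add_left_cancel he)
    rw [hm, hm'] at h3
    apply sidx_inj hp hi hj hu
    have h4 := hi.high h
    have h5 := hj.high h'
    have h6 := sidx_high (n := n) (q := q) (S := S) (B0 := B0) h
    have h7 := sidx_high (n := n) (q := q) (S := S) (B0 := B0) h'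
    have h8 := key (m - m') (sidx n q S B0 i - S) (sidx n q S B0 j - S) (by omega) (by omega)
      (by
        have e1 : ((sidx n q S B0 i - S : ℕ) : ℤ) = sidx n q S B0 i - S := by
          rw [Nat.cast_sub]; omega
        have e2 : ((sidx n q S B0 j - S : ℕ) : ℤ) = sidx n q S B0 j - S := by
          rw [Nat.cast_sub]; omega
        rw [e1, e2]
        linarith)
    omega

/-- all scheme spokes are distinct -/
theorem spoke_ne' (hp : Base n k q S B0) (hi : inVS n q S B0 i) (hj : inVS n q S B0 j)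
    (hij : i ≠ j) (θ : ZMod (q ^ 2) → ZMod (2 * S)) :
    |Yl n q S B0 i (θ (un n q i)) - anc n i| ≠ |Yl n q S B0 j (θ (un n q j)) - anc n j| := by
  by_cases hu : un n q i = un n q j
  · rw [← hu]; exact spoke_ne hp hi hj hu hij _
  · intro h
    apply hu
    have h1 := spoke_cast hp hi (θ (un n q i))
    rw [h, spoke_cast hp hj] at h1
    exact (del_inj.mp h1).symm

theorem sp_hi (hp : Base n k q S B0) (hi' : inVS n q S B0 i) (h : hi n i = true)
    (θ : ZMod (2 * S)) : Yl n q S B0 i θ < anc n i := by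
  have h1 := (spoke_high_pos hp hi' ((hi_iff hi'.not_spec).mp h) θ).1
  have h2 := hp.k_lt
  omega

theorem sp_lo (hp : Base n k q S B0) (hi' : inVS n q S B0 i) (h : hi n i = false)
    (θ : ZMod (2 * S)) : anc n i < Yl n q S B0 i θ := by
  have h1 := (spoke_low_pos hp hi'.lt ((hi_eq_false_iff hi'.not_spec).mp h) θ).1
  have h2 := hp.k_lt
  omega

theorem sp_le (hp : Base n k q S B0) (hi' : inVS n q S B0 i) (θ : ZMod (2 * S)) :
    |Yl n q S B0 i θ - anc n i| ≤ 2 * n := by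
  by_cases h : i % 2 = 0
  · have h1 := spoke_low_pos hp hi'.lt h θ
    rw [abs_le]; omega
  · have h1 := spoke_high_pos hp hi' h θ
    rw [abs_le]; omega

/-- distinct vertices have distinct anchors -/
theorem anc_inj {i j : ℕ} (hn : 3 ≤ n) (hi : i < n) (hj : j < n) (h : anc n i = anc n j) :
    i = j := by
  unfold anc at h
  split_ifs at h <;> omega

/-- the normalised anchor -/
theorem norm_anc (hs : ¬ spec n i) :
    (if hi n i then anc n i else 3 * (n : ℤ) - anc n i) = 3 * (n : ℤ) - (i / 2 : ℕ) := by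
  by_cases h : i % 2 = 0
  · have h1 : hi n i = false := (hi_eq_false_iff hs).mpr h
    rw [h1, anc_low h]; simp
  · have h1 : hi n i = true := (hi_iff hs).mpr h
    rw [h1, anc_high h hs]; simp

theorem norm_anc_bounds (hi' : i < n) (hs : ¬ spec n i) :
    5 * (n : ℤ) ≤ 2 * (if hi n i then anc n i else 3 * (n : ℤ) - anc n i) ∧
      (if hi n i then anc n i else 3 * (n : ℤ) - anc n i) ≤ 3 * n := by
  rw [norm_anc hs]
  omega

/-- unit of a low vertex in terms of the residue of its `idx` -/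
theorem un_eq_iff_low (hp : Base n k q S B0) (h : i % 2 = 0) (u : ZMod (q ^ 2)) :
    un n q i = u ↔ i / 2 % q ^ 2 = u.val := by
  have : NeZero (q ^ 2) := ⟨hp.q2pos.ne'⟩
  rw [un_low h]
  constructor
  · intro e; rw [← e, ZMod.val_natCast]
  · intro e; rw [← ZMod.natCast_zmod_val u, ← e, ZMod.natCast_mod]

/-- unit of a high vertex in terms of the residue of its `idx` -/
theorem un_eq_iff_high (hp : Base n k q S B0) (h : i % 2 ≠ 0) (hs : ¬ spec n i)
    (u : ZMod (q ^ 2)) : un n q i = u ↔ i / 2 % q ^ 2 = rr n q u := by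
  have : NeZero (q ^ 2) := ⟨hp.q2pos.ne'⟩
  rw [← high_rr hp h hs]
  constructor
  · intro e; rw [e]
  · intro e
    unfold rr at e
    have h1 := ZMod.val_injective _ e
    have h2 := sub_right_injective h1
    exact (hh_inj hp.q_prime hp.q_big).mp h2

theorem rr_lt (hp : Base n k q S B0) (u : ZMod (q ^ 2)) : rr n q u < q ^ 2 := by
  have : NeZero (q ^ 2) := ⟨hp.q2pos.ne'⟩
  exact ZMod.val_lt _

/-- the vertices outside `V_s` have small or large `idx` -/
theorem not_inVS_cases (hp : Base n k q S B0) (hi' : i < n) (h : ¬ inVS n q S B0 i) :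
    q ^ 2 * S ≤ i / 2 ∨ (i % 2 ≠ 0 ∧ i / 2 < q ^ 2) ∨ spec n i := by
  by_contra hcon
  push Not at hcon
  obtain ⟨h1, h2, h3⟩ := hcon
  apply h
  refine ⟨hi', ?_⟩
  have h4 : i / 2 / q ^ 2 < S := by
    rw [Nat.div_lt_iff_lt_mul hp.q2pos, mul_comm]; exact h1
  split_ifs with h5
  · exact h4
  · refine ⟨h3, ?_, lt_of_le_of_lt (Nat.sub_le _ _) h4⟩
    have h6 := h2 h5
    have h7 : 1 ≤ i / 2 / q ^ 2 := (Nat.one_le_div_iff hp.q2pos).mpr h6
    have := om_le (n := n) (B0 := B0) (un n q i)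
    omega

open Classical in
/-- there are few vertices outside `V_s` -/
theorem card_not_inVS (hp : Base n k q S B0) :
    ((Finset.range n).filter (fun i => ¬ inVS n q S B0 i)).card ≤ 13 * q ^ 2 := by
  have hsub : (Finset.range n).filter (fun i => ¬ inVS n q S B0 i) ⊆
      Finset.Ico (2 * (q ^ 2 * S)) n ∪ Finset.range (2 * q ^ 2) := by
    intro i hi'
    rw [Finset.mem_filter, Finset.mem_range] at hi'
    rw [Finset.mem_union, Finset.mem_Ico, Finset.mem_range]
    rcases not_inVS_cases hp hi'.1 hi'.2 with h | h | h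
    · left; omega
    · right; omega
    · left
      unfold spec at h
      have h1 := hp.S_high
      have h2 : 2 * q ^ 2 * (S + 1) = 2 * (q ^ 2 * S) + 2 * q ^ 2 := by ring
      omega
  refine (Finset.card_le_card hsub).trans ((Finset.card_union_le _ _).trans ?_)
  rw [Nat.card_Ico, Finset.card_range]
  have h1 := hp.S_low
  have h2 : 2 * q ^ 2 * (S + 5) + 2 = 2 * (q ^ 2 * S) + 10 * q ^ 2 + 2 := by ring
  have h3 : 2 ≤ q ^ 2 := by have := hp.q_big; nlinarith
  omega

end Pool.Agent.PGr.SS
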