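import Pool.Agent.PGr.SFacts

/-!
# PGr, part S: families and quasi-linear maps (section 8)
-/

namespace Pool.Agent.PGr.SS

open Finset

variable {n k q S B0 i j : ℕ}

/-! ## Quasi-linear maps -/

/-- `F` is quasi-linear of slope `s`. -/
def QL (s : ZMod (q ^ 2)) (F : ZMod (q ^ 2) → ZMod (q ^ 2)) : Prop :=
  ∀ x x', ∃ y, F x - F x' = (x - x') * (s + (q : ZMod (q ^ 2)) * y)

theorem QL.comp {s t : ZMod (q ^ 2)} {F G : ZMod (q ^ 2) → ZMod (q ^ 2)} (hG : QL t G)
    (hF : QL s F) : QL (t * s) (fun x => G (F x)) := by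
  intro x x'
  obtain ⟨y, hy⟩ := hF x x'
  obtain ⟨z, hz⟩ := hG (F x) (F x')
  refine ⟨s * z + t * y + q * y * z, ?_⟩
  linear_combination hz + (t + (q : ZMod (q ^ 2)) * z) * hy

theorem QL_lam : QL (2 : ZMod (q ^ 2)) (lam q) := by
  intro x x'
  refine ⟨x + x', ?_⟩
  unfold lam; ring

theorem QL_hhI : QL (3⁻¹ : ZMod (q ^ 2)) (hhI q) := by
  intro x x'
  refine ⟨-2 * (3⁻¹) ^ 3 * (x + x'), ?_⟩
  unfold hhI; ring

theorem QL_shift (c : ZMod (q ^ 2)) : QL (1 : ZMod (q ^ 2)) (fun x => x + c) := by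
  intro x x'
  exact ⟨0, by ring⟩

theorem QL_refl (c : ZMod (q ^ 2)) : QL (-1 : ZMod (q ^ 2)) (fun x => c - x) := by
  intro x x'
  exact ⟨0, by ring⟩

theorem QL_id : QL (1 : ZMod (q ^ 2)) (fun x => x) := by
  intro x x'
  exact ⟨0, by ring⟩

theorem QL.comb {sa s1 s2 : ZMod (q ^ 2)} {A C1 C2 : ZMod (q ^ 2) → ZMod (q ^ 2)} (j : Fin 10)
    (ha : QL sa A) (h1 : QL s1 C1) (h2 : QL s2 C2) :
    QL (comb j sa s1 s2) (fun x => PGr.comb j (A x) (C1 x) (C2 x)) := by
  intro x x'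
  obtain ⟨ya, hya⟩ := ha x x'
  obtain ⟨y1, hy1⟩ := h1 x x'
  obtain ⟨y2, hy2⟩ := h2 x x'
  refine ⟨PGr.comb j ya y1 y2, ?_⟩
  fin_cases j <;> simp only [PGr.comb]
  · linear_combination hya
  · linear_combination hy1
  · linear_combination hy2
  · linear_combination -hya + hy1 + hy2
  · linear_combination hya + hy1 - hy2
  · linear_combination hya - hy1
  · linear_combination hya - hy2
  · linear_combination hy1 - hy2
  · linear_combination -2 * hya + hy1 + hy2
  · linear_combination hya + hy1 - 2 * hy2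

theorem QL.inj {s : ZMod (q ^ 2)} {F : ZMod (q ^ 2) → ZMod (q ^ 2)} (hF : QL s F)
    (hs : IsUnit s) : Function.Injective F := by
  intro x x' h
  obtain ⟨y, hy⟩ := hF x x'
  rw [h, sub_self] at hy
  have h1 := isUnit_add_q hs y
  have h2 : x - x' = 0 := by
    rw [← h1.mul_left_eq_zero]
    exact hy.symm
  exact sub_eq_zero.mp h2

theorem red_q : red q (q : ZMod (q ^ 2)) = 0 := by
  rw [map_natCast, ZMod.natCast_self]

theorem QL.red {s : ZMod (q ^ 2)} {F : ZMod (q ^ 2) → ZMod (q ^ 2)} (hF : QL s F)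
    (x x' : ZMod (q ^ 2)) : PGr.red q (F x) - PGr.red q (F x')
      = (PGr.red q x - PGr.red q x') * PGr.red q s := by
  obtain ⟨y, hy⟩ := hF x x'
  have := congrArg (PGr.red q) hy
  simp only [map_sub, map_mul, map_add, red_q, zero_mul, add_zero] at this
  exact this

theorem QL.red_inj {s : ZMod (q ^ 2)} {F : ZMod (q ^ 2) → ZMod (q ^ 2)} (hF : QL s F)
    (hs : IsUnit s) {x x' : ZMod (q ^ 2)} (h : PGr.red q (F x) = PGr.red q (F x')) :
    PGr.red q x = PGr.red q x' := by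
  have h1 := hF.red x x'
  rw [h, sub_self] at h1
  have h2 : IsUnit (PGr.red q s) := hs.map _
  have h3 : PGr.red q x - PGr.red q x' = 0 := by
    rw [← h2.mul_left_eq_zero]
    exact h1.symm
  exact sub_eq_zero.mp h3

/-! ## The family functions -/

/-- anchor as a function of the `idx`; `e` is the parity -/
noncomputable def aF (n q e : ℕ) (x : ZMod (q ^ 2)) : ZMod (q ^ 2) :=
  if e = 0 then x else ((3 * n : ℕ) : ZMod (q ^ 2)) - x

/-- class as a function of the `idx` -/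
noncomputable def cF (n q e : ℕ) (x : ZMod (q ^ 2)) : ZMod (q ^ 2) :=
  lam q (if e = 0 then x else hhI q (((3 * n : ℕ) : ZMod (q ^ 2)) - x))

/-- slope of `aF` -/
noncomputable def sA (q e : ℕ) : ZMod (q ^ 2) := if e = 0 then 1 else -1

/-- slope of `cF` -/
noncomputable def sC (q e : ℕ) : ZMod (q ^ 2) := if e = 0 then 2 else 2 * (3⁻¹ * (-1))

theorem QL_aF (e : ℕ) : QL (sA q e) (aF n q e) := by
  unfold sA
  by_cases h : e = 0
  · subst h
    have : aF n q 0 = fun x => x := by funext x; simp [aF]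
    rw [this, if_pos rfl]; exact QL_id
  · have : aF n q e = fun x => ((3 * n : ℕ) : ZMod (q ^ 2)) - x := by funext x; simp [aF, h]
    rw [this, if_neg h]; exact QL_refl _

theorem QL_cF (e : ℕ) : QL (sC q e) (cF n q e) := by
  unfold sC
  by_cases h : e = 0
  · subst h
    have : cF n q 0 = lam q := by funext x; simp [cF]
    rw [this, if_pos rfl]; exact QL_lam
  · have : cF n q e = fun x => lam q (hhI q (((3 * n : ℕ) : ZMod (q ^ 2)) - x)) := by
      funext x; simp [cF, h]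
    rw [this, if_neg h]
    exact QL_lam.comp (QL_hhI.comp (QL_refl _))

theorem anc_eq_aF (hs : ¬ spec n i) :
    ((anc n i : ℤ) : ZMod (q ^ 2)) = aF n q (i % 2) ((i / 2 : ℕ) : ZMod (q ^ 2)) := by
  unfold aF
  by_cases h : i % 2 = 0
  · rw [if_pos h, anc_low h, Int.cast_natCast]
  · rw [if_neg h, anc_high h hs]
    generalize i / 2 = z
    push_cast; rfl

theorem cls0_eq_cF (hs : ¬ spec n i) :
    cls0 n q i = cF n q (i % 2) ((i / 2 : ℕ) : ZMod (q ^ 2)) := by
  unfold cls0 cF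
  by_cases h : i % 2 = 0
  · rw [if_pos h, un_low h]
  · rw [if_neg h, un_high h, anc_high h hs]
    generalize i / 2 = z
    push_cast; rfl

/-- parity of the neighbour at the signed distance `σ` of a vertex of parity `e` -/
def eN (e : ℕ) (σ : ℤ) : ℕ := (((e : ℤ) + σ) % 2).toNat

/-- shift of the `idx` -/
def cN (e : ℕ) (σ : ℤ) : ℤ := ((e : ℤ) + σ) / 2

/-- class of the neighbour as a function of the `idx` of the vertex -/
noncomputable def cNF (n q e : ℕ) (σ : ℤ) (x : ZMod (q ^ 2)) : ZMod (q ^ 2) :=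
  cF n q (eN e σ) (x + ((cN e σ : ℤ) : ZMod (q ^ 2)))

theorem QL_cNF (e : ℕ) (σ : ℤ) : QL (sC q (eN e σ)) (cNF n q e σ) := by
  have := (QL_cF (n := n) (q := q) (eN e σ)).comp (QL_shift ((cN e σ : ℤ) : ZMod (q ^ 2)))
  rwa [mul_one] at this

theorem cls0_nb {w : ℕ} {σ : ℤ} (hs : ¬ spec n w) (hw : (w : ℤ) = i + σ) :
    cls0 n q w = cNF n q (i % 2) σ ((i / 2 : ℕ) : ZMod (q ^ 2)) := by
  rw [cls0_eq_cF hs]
  unfold cNF
  have h1 : w % 2 = eN (i % 2) σ := by unfold eN; omega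
  have h2 : ((w / 2 : ℕ) : ℤ) = (i / 2 : ℕ) + cN (i % 2) σ := by unfold cN; omega
  have h3 : ((w / 2 : ℕ) : ZMod (q ^ 2)) = ((i / 2 : ℕ) : ZMod (q ^ 2)) + ((cN (i % 2) σ : ℤ)) := by
    have := congrArg (Int.cast (R := ZMod (q ^ 2))) h2
    push_cast [-Nat.cast_ofNat] at this
    simpa only [Int.cast_natCast, Int.cast_add] using congrArg (Int.cast (R := ZMod (q ^ 2))) h2
  rw [h1, h3]

end Pool.Agent.PGr.SS
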