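import Pool.Agent.PGr.SFam

/-!
# PGr, part S: slopes of the combinations, injectivity of the family functions
-/

namespace Pool.Agent.PGr.SS

open Finset

variable {n k q S B0 i j : ℕ}

theorem isUnit_of_three {q : ℕ} (hq : q.Prime) (h17 : 17 < q) {x : ZMod (q ^ 2)} (N : ℤ)
    (hN : N ≠ 0) (hN' : |N| ≤ 18) (h : 3 * x = (N : ZMod (q ^ 2))) : IsUnit x := by
  have hq19 : 19 ≤ q := by
    rcases Nat.lt_or_ge q 19 with h1 | h1
    · have : q = 18 := by omega
      subst this
      exact absurd hq (by norm_num)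
    · exact h1
  have h1 : IsUnit (3 * x) := by
    rw [h]; exact isUnit_int hq hN (by omega)
  exact isUnit_of_mul_isUnit_right h1

/-- the combinations over the integers -/
def combZ (j : Fin 10) (a c1 c2 : ℤ) : ℤ :=
  match j with
  | 0 => a
  | 1 => c1
  | 2 => c2
  | 3 => -a + c1 + c2
  | 4 => a + c1 - c2
  | 5 => a - c1
  | 6 => a - c2
  | 7 => c1 - c2
  | 8 => -2 * a + c1 + c2
  | 9 => a + c1 - 2 * c2

theorem comb_three (j : Fin 10) {x y z : ZMod (q ^ 2)} {a b c : ℤ} (hx : 3 * x = (a : ZMod (q ^ 2)))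
    (hy : 3 * y = (b : ZMod (q ^ 2))) (hz : 3 * z = (c : ZMod (q ^ 2))) :
    3 * comb j x y z = ((combZ j a b c : ℤ) : ZMod (q ^ 2)) := by
  fin_cases j <;> simp only [comb, combZ] <;> push_cast
  · linear_combination hx
  · linear_combination hy
  · linear_combination hz
  · linear_combination -hx + hy + hz
  · linear_combination hx + hy - hz
  · linear_combination hx - hy
  · linear_combination hx - hz
  · linear_combination hy - hz
  · linear_combination -2 * hx + hy + hz
  · linear_combination hx + hy - 2 * hz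

/-- three times the slope of the anchor -/
def tA (e : ℕ) : ℤ := if e = 0 then 3 else -3

/-- three times the slope of the class -/
def tC (e : ℕ) : ℤ := if e = 0 then 6 else -2

theorem three_sA (q e : ℕ) : 3 * sA q e = ((tA e : ℤ) : ZMod (q ^ 2)) := by
  unfold sA tA; split_ifs <;> push_cast <;> ring

theorem three_sC (hp : Base n k q S B0) (e : ℕ) : 3 * sC q e = ((tC e : ℤ) : ZMod (q ^ 2)) := by
  have h3 := three_mul_inv hp.q_prime hp.q_big
  unfold sC tC
  split_ifs
  · push_cast; ring
  · push_cast; linear_combination (-2) * h3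

theorem combZ_ok (j : Fin 10) (hj : j ≠ 7) (e e1 e2 : ℕ) :
    combZ j (tA e) (tC e1) (tC e2) ≠ 0 ∧ |combZ j (tA e) (tC e1) (tC e2)| ≤ 18 := by
  unfold tA tC
  fin_cases j <;> first
    | exact absurd rfl hj
    | (split_ifs <;> simp [combZ])

/-- all combinations except `c1 - c2` have unit slopes -/
theorem isUnit_slope (hp : Base n k q S B0) (j : Fin 10) (hj : j ≠ 7) (e e1 e2 : ℕ) :
    IsUnit (comb j (sA q e) (sC q e1) (sC q e2)) :=
  isUnit_of_three hp.q_prime hp.q_big _ (combZ_ok j hj e e1 e2).1 (combZ_ok j hj e e1 e2).2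
    (comb_three j (three_sA q e) (three_sC hp e1) (three_sC hp e2))

/-- the slope of `c1 - c2` is a unit if the two neighbours have different types -/
theorem isUnit_slope7 (hp : Base n k q S B0) (e e1 e2 : ℕ)
    (h : ¬ (e1 = 0 ↔ e2 = 0)) : IsUnit (comb 7 (sA q e) (sC q e1) (sC q e2)) := by
  refine isUnit_of_three hp.q_prime hp.q_big (combZ 7 (tA e) (tC e1) (tC e2)) ?_ ?_
    (comb_three 7 (three_sA q e) (three_sC hp e1) (three_sC hp e2))
  · unfold tC
    by_cases h1 : e1 = 0 <;> by_cases h2 : e2 = 0 <;> simp [combZ, h1, h2] <;> tauto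
  · unfold tC
    by_cases h1 : e1 = 0 <;> by_cases h2 : e2 = 0 <;> simp [combZ, h1, h2]

end Pool.Agent.PGr.SS
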