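import Pool.Agent.PGr.SFamB

/-!
# PGr, part S: the family functions are nice (section 8)
-/

namespace Pool.Agent.PGr.SS

open Finset

variable {n k q S B0 i j : ℕ}

theorem isUnit_int_of_not_dvd (hq : q.Prime) {c : ℤ} (hc : ¬ (q : ℤ) ∣ c) :
    IsUnit ((c : ℤ) : ZMod (q ^ 2)) := by
  have hcop : Nat.Coprime c.natAbs (q ^ 2) := by
    apply Nat.Coprime.pow_right
    rw [Nat.coprime_comm]
    refine (Nat.Prime.coprime_iff_not_dvd hq).mpr ?_
    intro hd
    exact hc (Int.natCast_dvd.mpr hd)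
  have h4 : IsUnit ((c.natAbs : ℕ) : ZMod (q ^ 2)) := (ZMod.isUnit_iff_coprime _ _).mpr hcop
  rcases Int.natAbs_eq c with h | h
  · rw [h]; simpa using h4
  · rw [h]
    have h5 := h4.neg
    simpa using h5

theorem red_eq_zero_of_q_mul (hq : q.Prime) {z : ZMod (q ^ 2)} (h : (q : ZMod (q ^ 2)) * z = 0) :
    red q z = 0 := by
  have : NeZero (q ^ 2) := ⟨(pow_pos hq.pos 2).ne'⟩
  have h1 : ((q * z.val : ℕ) : ZMod (q ^ 2)) = 0 := by
    push_cast; rw [ZMod.natCast_zmod_val]; exact h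
  rw [ZMod.natCast_eq_zero_iff] at h1
  have h1' : q * q ∣ q * z.val := by
    have e : q ^ 2 = q * q := pow_two q
    generalize z.val = v at h1 ⊢
    rwa [← e]
  have h2 := Nat.dvd_of_mul_dvd_mul_left hq.pos h1'
  rw [← ZMod.natCast_zmod_val z, map_natCast]
  exact (ZMod.natCast_eq_zero_iff _ _).mpr h2

theorem red_eq_zero_iff (hq : q.Prime) (z : ZMod (q ^ 2)) :
    red q z = 0 ↔ ∃ y, z = (q : ZMod (q ^ 2)) * y := by
  have : NeZero (q ^ 2) := ⟨(pow_pos hq.pos 2).ne'⟩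
  constructor
  · intro h
    rw [← ZMod.natCast_zmod_val z, map_natCast, ZMod.natCast_eq_zero_iff] at h
    obtain ⟨y, hy⟩ := h
    refine ⟨(y : ZMod (q ^ 2)), ?_⟩
    rw [← ZMod.natCast_zmod_val z, hy]
    push_cast; ring
  · rintro ⟨y, rfl⟩
    rw [map_mul, red_q, zero_mul]

theorem red_intCast (c : ℤ) : red q ((c : ℤ) : ZMod (q ^ 2)) = (c : ZMod q) := map_intCast _ _

theorem red_natCast (c : ℕ) : red q ((c : ℕ) : ZMod (q ^ 2)) = (c : ZMod q) := map_natCast _ _

/-- `σ1 - σ2` for the two neighbours is not divisible by `q` -/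
def SigOk (q : ℕ) (σ1 σ2 : ℤ) : Prop := ¬ (q : ℤ) ∣ σ1 - σ2

theorem two_mul_cN (e : ℕ) (σ : ℤ) : (e : ℤ) + σ = 2 * cN e σ + eN e σ := by
  unfold cN eN; omega

theorem lam_hhI (hp : Base n k q S B0) (x : ZMod (q ^ 2)) :
    lam q (hhI q x) = 2 * 3⁻¹ * x - q * (3⁻¹) ^ 3 * x ^ 2 := by
  have e1 := qq_zero q
  have e2 := three_mul_inv hp.q_prime hp.q_big
  unfold lam hhI
  linear_combination (-(q : ZMod (q ^ 2)) * (3⁻¹) ^ 2 * x ^ 2) * e2
    + (-4 * (3⁻¹) ^ 4 * x ^ 3 + 4 * (q : ZMod (q ^ 2)) * (3⁻¹) ^ 6 * x ^ 4) * e1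

/-- the difference of the two classes if the two neighbours have the same type -/
theorem diff_same (hp : Base n k q S B0) (e : ℕ) (σ1 σ2 : ℤ) (hσ : SigOk q σ1 σ2)
    (h : eN e σ1 = eN e σ2) :
    ∃ w : ZMod (q ^ 2), IsUnit w ∧ ∀ x x', (cNF n q e σ1 x - cNF n q e σ2 x)
      - (cNF n q e σ1 x' - cNF n q e σ2 x') = (x - x') * ((q : ZMod (q ^ 2)) * w) := by
  have h1 := two_mul_cN e σ1
  have h2 := two_mul_cN e σ2
  have h3 : σ1 - σ2 = 2 * (cN e σ1 - cN e σ2) := by rw [h] at h1; linarith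
  have hu := isUnit_int_of_not_dvd hp.q_prime hσ
  have h4 : ((σ1 - σ2 : ℤ) : ZMod (q ^ 2)) = 2 * ((cN e σ1 : ZMod (q ^ 2)) - cN e σ2) := by
    rw [h3]; push_cast; ring
  have e3 := three_mul_inv hp.q_prime hp.q_big
  have hu3 : IsUnit (3⁻¹ : ZMod (q ^ 2)) := IsUnit.of_mul_eq_one 3 (by rw [mul_comm]; exact e3)
  by_cases h0 : eN e σ2 = 0
  · refine ⟨((σ1 - σ2 : ℤ) : ZMod (q ^ 2)), hu, ?_⟩
    intro x x'
    unfold cNF cF
    rw [h, h0]
    simp only [if_true]
    rw [h4]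
    unfold lam
    ring
  · refine ⟨-((3⁻¹) ^ 3 * ((σ1 - σ2 : ℤ) : ZMod (q ^ 2))), ((hu3.pow 3).mul hu).neg, ?_⟩
    intro x x'
    unfold cNF cF
    rw [h]
    simp only [if_neg h0]
    rw [h4]
    rw [lam_hhI hp, lam_hhI hp, lam_hhI hp, lam_hhI hp]
    ring

/-- the family functions -/
noncomputable def Fm (n q : ℕ) (j : Fin 10) (e : ℕ) (σ1 σ2 : ℤ) (x : ZMod (q ^ 2)) : ZMod (q ^ 2) :=
  comb j (aF n q e x) (cNF n q e σ1 x) (cNF n q e σ2 x)

/-- nice functions: injective, or constant modulo `q` and injective modulo `q` -/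
def Nice (F : ZMod (q ^ 2) → ZMod (q ^ 2)) : Prop :=
  Function.Injective F ∨
    ((∀ x x', red q (F x) = red q (F x')) ∧ ∀ x x', F x = F x' → red q x = red q x')

theorem eN_lt (e : ℕ) (σ : ℤ) : eN e σ < 2 := by unfold eN; omega

theorem Fm_inj (hp : Base n k q S B0) (j : Fin 10) (hj : j ≠ 7) (e : ℕ) (σ1 σ2 : ℤ) :
    Function.Injective (Fm n q j e σ1 σ2) :=
  ((QL_aF e).comb j (QL_cNF e σ1) (QL_cNF e σ2)).inj (isUnit_slope hp j hj _ _ _)

theorem Fm_nice (hp : Base n k q S B0) (j : Fin 10) (e : ℕ) (σ1 σ2 : ℤ) (hσ : SigOk q σ1 σ2) :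
    Nice (Fm n q j e σ1 σ2) := by
  by_cases hj : j = 7
  · by_cases h : eN e σ1 = eN e σ2
    · right
      obtain ⟨w, hw, hF⟩ := diff_same hp e σ1 σ2 hσ h
      have hF' : ∀ x x', Fm n q j e σ1 σ2 x - Fm n q j e σ1 σ2 x'
          = (x - x') * ((q : ZMod (q ^ 2)) * w) := by
        intro x x'
        subst hj
        exact hF x x'
      constructor
      · intro x x'
        have h1 := congrArg (red q) (hF' x x')
        rw [map_sub, map_mul, map_mul, red_q, zero_mul, mul_zero] at h1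
        exact sub_eq_zero.mp h1
      · intro x x' hxx
        have h1 := hF' x x'
        rw [hxx, sub_self] at h1
        have h2 : (q : ZMod (q ^ 2)) * (x - x') = 0 := by
          rw [← hw.mul_left_eq_zero]
          rw [h1]; ring
        have h3 := red_eq_zero_of_q_mul hp.q_prime h2
        rw [map_sub] at h3
        exact sub_eq_zero.mp h3
    · left
      subst hj
      refine ((QL_aF e).comb 7 (QL_cNF e σ1) (QL_cNF e σ2)).inj (isUnit_slope7 hp _ _ _ ?_)
      have h1 := eN_lt e σ1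
      have h2 := eN_lt e σ2
      omega
  · left; exact Fm_inj hp j hj e σ1 σ2

theorem Nice.comp {F G : ZMod (q ^ 2) → ZMod (q ^ 2)} (hF : Nice F) (hG : Function.Injective G)
    (hG' : ∀ x x', red q x = red q x' → red q (G x) = red q (G x')) :
    Nice (fun x => G (F x)) := by
  rcases hF with h | ⟨h1, h2⟩
  · left; exact hG.comp h
  · right; exact ⟨fun x x' => hG' _ _ (h1 x x'), fun x x' h => h2 _ _ (hG h)⟩

theorem lamI_inj (hp : Base n k q S B0) : Function.Injective (lamI q) := by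
  intro x y h
  rw [← lam_lamI hp.q_prime hp.q_big x, h, lam_lamI hp.q_prime hp.q_big]

theorem delI_inj : Function.Injective (delI q) := by
  intro x y h
  rw [← del_delI x, h, del_delI]

theorem red_lamI (x : ZMod (q ^ 2)) : red q (lamI q x) = red q 2⁻¹ * red q x := by
  unfold lamI
  simp [map_sub, map_mul]

theorem red_delI (x : ZMod (q ^ 2)) : red q (delI q x) = red q x := by
  unfold delI
  simp [map_sub, map_mul]

theorem Nice.lamI (hp : Base n k q S B0) {F : ZMod (q ^ 2) → ZMod (q ^ 2)} (hF : Nice F)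
    (e w : ZMod (q ^ 2)) (he : e = 1 ∨ e = -1) : Nice (fun x => lamI q (e * F x + w)) := by
  apply hF.comp (G := fun y => PGr.lamI q (e * y + w))
  · intro x y h
    have h1 := lamI_inj hp h
    have h2 : e * x = e * y := add_right_cancel h1
    rcases he with he | he <;> rw [he] at h2
    · simpa using h2
    · simpa using h2
  · intro x x' h
    rw [red_lamI, red_lamI, map_add, map_add, map_mul, map_mul, h]

theorem Nice.delI {F : ZMod (q ^ 2) → ZMod (q ^ 2)} (hF : Nice F)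
    (e w : ZMod (q ^ 2)) (he : e = 1 ∨ e = -1) : Nice (fun x => delI q (e * F x + w)) := by
  apply hF.comp (G := fun y => PGr.delI q (e * y + w))
  · intro x y h
    have h1 := delI_inj h
    have h2 : e * x = e * y := add_right_cancel h1
    rcases he with he | he <;> rw [he] at h2
    · simpa using h2
    · simpa using h2
  · intro x x' h
    rw [red_delI, red_delI, map_add, map_add, map_mul, map_mul, h]

/-- (F3) for equal types: the classes of the two neighbours are never congruent -/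
theorem red_diff_ne (hp : Base n k q S B0) (e : ℕ) (σ1 σ2 : ℤ) (hσ : SigOk q σ1 σ2)
    (h : eN e σ1 = eN e σ2) (x : ZMod (q ^ 2)) :
    red q (cNF n q e σ1 x) ≠ red q (cNF n q e σ2 x) := by
  intro he
  have h1 := two_mul_cN e σ1
  have h2 := two_mul_cN e σ2
  have h3 : σ1 - σ2 = 2 * (cN e σ1 - cN e σ2) := by rw [h] at h1; linarith
  have hu := isUnit_int_of_not_dvd hp.q_prime hσ
  have h5 := (QL_cF (n := n) (q := q) (eN e σ1)).red (x + ((cN e σ1 : ℤ) : ZMod (q ^ 2)))
    (x + ((cN e σ2 : ℤ) : ZMod (q ^ 2)))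
  unfold cNF at he
  rw [← h] at he
  rw [he, sub_self] at h5
  have h6 : IsUnit (sC q (eN e σ1)) := by
    have := isUnit_slope hp 1 (by decide) 0 (eN e σ1) 0
    simpa [comb] using this
  have h7 : red q (x + ((cN e σ1 : ℤ) : ZMod (q ^ 2))) - red q (x + ((cN e σ2 : ℤ) : ZMod (q ^ 2)))
      = 0 := by
    rw [← (h6.map (red q)).mul_left_eq_zero]
    exact h5.symm
  have h8 : red q ((σ1 - σ2 : ℤ) : ZMod (q ^ 2)) = 0 := by
    rw [h3]
    push_cast
    rw [map_mul, map_sub]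
    rw [map_add, map_add, add_sub_add_left_eq_sub] at h7
    rw [h7, mul_zero]
  have h9 : IsUnit (red q ((σ1 - σ2 : ℤ) : ZMod (q ^ 2))) := hu.map _
  rw [h8] at h9
  have : Fact q.Prime := ⟨hp.q_prime⟩
  exact not_isUnit_zero h9

end Pool.Agent.PGr.SS
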