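import Pool.Agent.PGr.PrProd

/-!
# PGr tools: a bipartite expander
-/

namespace Pool.Agent.PGr

open Finset

/-- The probability that all the choices of the elements of `A` lie in `C`. -/
private theorem Pr_bad {U W : Type*} [Fintype U] [DecidableEq U] [Fintype W] [DecidableEq W]
    [Nonempty W] (D : ℕ) (A : Finset U) (C : Finset W) :
    Pr (fun p : U → Fin D → W => ∀ u ∈ A, ∀ i, p u i ∈ C) =
      ((C.card : ℝ) / Fintype.card W) ^ (D * A.card) := by
  have h1 : Pr (fun p : U → Fin D → W => ∀ u ∈ A, ∀ i, p u i ∈ C) =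
      ∏ _u ∈ A, Pr (fun q : Fin D → W => ∀ i, q i ∈ C) :=
    Pr_pi_forall A (fun _ (q : Fin D → W) => ∀ i, q i ∈ C)
  have h2 : Pr (fun q : Fin D → W => ∀ i, q i ∈ C) = ((C.card : ℝ) / Fintype.card W) ^ D := by
    have h3 : Pr (fun q : Fin D → W => ∀ i ∈ (univ : Finset (Fin D)), q i ∈ C) =
        ∏ _i ∈ (univ : Finset (Fin D)), Pr (fun a : W => a ∈ C) :=
      Pr_pi_forall univ (fun _ a => a ∈ C)
    rw [prod_const, Pr_mem, card_univ, Fintype.card_fin] at h3
    rw [← h3]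
    congr 1
    funext q
    simp
  rw [h1, prod_const, h2, ← pow_mul]

/-- `a ^ a ≤ 3 ^ a a!`. -/
private theorem pow_le_fact (a : ℕ) : (a : ℝ) ^ a ≤ 3 ^ a * (a.factorial : ℝ) := by
  have h1 := Real.pow_div_factorial_le_exp (a : ℝ) (Nat.cast_nonneg a) a
  have h2 : Real.exp (a : ℝ) ≤ 3 ^ a := by
    have h3 : Real.exp 1 ≤ 3 := by
      have := Real.exp_one_lt_d9
      linarith
    calc Real.exp (a : ℝ) = Real.exp 1 ^ a := by rw [← Real.exp_nat_mul, mul_one]
      _ ≤ 3 ^ a := pow_le_pow_left₀ (Real.exp_pos _).le h3 a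
  have h4 : (0 : ℝ) < (a.factorial : ℝ) := by exact_mod_cast a.factorial_pos
  rw [div_le_iff₀ h4] at h1
  exact h1.trans (mul_le_mul_of_nonneg_right h2 h4.le)

/-- The term of the union bound. -/
private theorem term_le (n N a : ℕ) (hN : 0 < N) (hn : 2 * n ≤ 3 * N) (ha0 : 1 ≤ a)
    (ha : 3 * a ≤ 2 * N) :
    (n.choose a : ℝ) * ((N.choose (a - 1) : ℝ) * (((a - 1 : ℕ) : ℝ) / N) ^ (14 * a)) ≤
      (1 / 8 : ℝ) ^ a := by
  obtain ⟨b, rfl⟩ : ∃ b, a = b + 1 := ⟨a - 1, by omega⟩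
  rw [Nat.add_sub_cancel]
  have hN0 : (0 : ℝ) < N := by exact_mod_cast hN
  have hf : (0 : ℝ) < ((b + 1).factorial : ℝ) := by exact_mod_cast (b + 1).factorial_pos
  have hfb : (0 : ℝ) < (b.factorial : ℝ) := by exact_mod_cast b.factorial_pos
  set x : ℝ := ((b + 1 : ℕ) : ℝ) with hx
  have hx0 : 0 < x := by rw [hx]; exact_mod_cast Nat.succ_pos b
  have hxN : x / N ≤ 2 / 3 := by
    rw [div_le_div_iff₀ hN0 (by norm_num), hx]
    have : (3 : ℝ) * ((b + 1 : ℕ) : ℝ) ≤ 2 * N := by exact_mod_cast ha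
    linarith
  have h3a : x ^ (b + 1) ≤ 3 ^ (b + 1) * ((b + 1).factorial : ℝ) := pow_le_fact (b + 1)
  -- binomials
  have hc1 : (n.choose (b + 1) : ℝ) ≤ (3 / 2 * N * 3 / x) ^ (b + 1) := by
    have h1 : (n.choose (b + 1) : ℝ) ≤ (n : ℝ) ^ (b + 1) / ((b + 1).factorial : ℝ) :=
      Nat.choose_le_pow_div (b + 1) n
    have h2 : (n : ℝ) ≤ 3 / 2 * N := by
      have : (2 : ℝ) * n ≤ 3 * N := by exact_mod_cast hn
      linarith
    refine h1.trans ?_
    rw [div_pow, mul_pow, div_le_div_iff₀ hf (by positivity)]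
    calc (n : ℝ) ^ (b + 1) * x ^ (b + 1) ≤
          (3 / 2 * N) ^ (b + 1) * (3 ^ (b + 1) * ((b + 1).factorial : ℝ)) :=
          mul_le_mul (pow_le_pow_left₀ (Nat.cast_nonneg _) h2 _) h3a (by positivity)
            (by positivity)
      _ = _ := by ring
  have hc2 : (N.choose b : ℝ) ≤ (N * 3 / x) ^ (b + 1) := by
    have h1 : (N.choose b : ℝ) ≤ (N : ℝ) ^ b / (b.factorial : ℝ) := Nat.choose_le_pow_div b N
    refine h1.trans ?_
    rw [div_pow, mul_pow, div_le_div_iff₀ hfb (by positivity)]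
    have h4 : ((b + 1).factorial : ℝ) = x * b.factorial := by
      rw [Nat.factorial_succ, hx]
      push_cast
      ring
    rw [h4] at h3a
    have hxN' : x ≤ N := by
      rw [div_le_iff₀ hN0] at hxN
      linarith
    calc (N : ℝ) ^ b * x ^ (b + 1) ≤ (N : ℝ) ^ b * (3 ^ (b + 1) * (x * b.factorial)) :=
          mul_le_mul_of_nonneg_left h3a (by positivity)
      _ ≤ (N : ℝ) ^ b * (3 ^ (b + 1) * (N * b.factorial)) := by gcongr
      _ = _ := by ring
  have hc3 : ((b : ℝ) / N) ^ (14 * (b + 1)) ≤ (x / N) ^ (14 * (b + 1)) := by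
    refine pow_le_pow_left₀ (by positivity) ?_ _
    refine div_le_div_of_nonneg_right ?_ hN0.le
    rw [hx]
    push_cast
    linarith
  have hc4 : (3 / 2 * (N : ℝ) * 3 / x) ^ (b + 1) * ((N * 3 / x) ^ (b + 1) *
      (x / N) ^ (14 * (b + 1))) = (27 / 2 * (x / N) ^ 12) ^ (b + 1) := by
    rw [pow_mul, ← mul_pow, ← mul_pow]
    congr 1
    field_simp
    ring
  have hc5 : 27 / 2 * (x / N) ^ 12 ≤ (1 / 8 : ℝ) := by
    have h1 : (x / N) ^ 12 ≤ (2 / 3 : ℝ) ^ 12 := pow_le_pow_left₀ (by positivity) hxN 12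
    have h2 : (27 / 2 : ℝ) * (2 / 3) ^ 12 ≤ 1 / 8 := by norm_num
    linarith
  calc (n.choose (b + 1) : ℝ) * ((N.choose b : ℝ) * ((b : ℝ) / N) ^ (14 * (b + 1)))
      ≤ (3 / 2 * (N : ℝ) * 3 / x) ^ (b + 1) * ((N * 3 / x) ^ (b + 1) *
          (x / N) ^ (14 * (b + 1))) := by
        refine mul_le_mul hc1 (mul_le_mul hc2 hc3 (by positivity) (by positivity))
          (by positivity) (by positivity)
    _ = (27 / 2 * (x / N) ^ 12) ^ (b + 1) := hc4
    _ ≤ (1 / 8 : ℝ) ^ (b + 1) := pow_le_pow_left₀ (by positivity) hc5 _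

/-- Every element of `U` chooses 14 elements of `W`, `|U| ≤ 3/2 |W|`: for some choice every set of at
most `2/3 |W|` elements has at least as many neighbours as elements. -/
theorem exists_expander (U W : Type*) [Fintype U] [DecidableEq U] [Fintype W] [DecidableEq W]
    [Nonempty W] (h : 2 * Fintype.card U ≤ 3 * Fintype.card W) :
    ∃ p : U → Fin 14 → W, ∀ A : Finset U, 3 * A.card ≤ 2 * Fintype.card W →
      A.card ≤ (A.biUnion fun u => univ.image (p u)).card := by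
  classical
  set N := Fintype.card W with hN
  have hN0 : 0 < N := Fintype.card_pos
  set bad : Finset U → (U → Fin 14 → W) → Prop := fun A p =>
    ∃ C ∈ powersetCard (A.card - 1) (univ : Finset W), ∀ u ∈ A, ∀ i, p u i ∈ C with hbad
  set 𝒜 : Finset (Finset U) := (univ : Finset U).powerset.filter
    (fun A => 1 ≤ A.card ∧ 3 * A.card ≤ 2 * N) with h𝒜
  have hPr : Pr (fun p => ∃ A ∈ 𝒜, bad A p) < 1 := by
    have h1 : ∀ A ∈ 𝒜, Pr (bad A) ≤ (N.choose (A.card - 1) : ℝ) *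
        (((A.card - 1 : ℕ) : ℝ) / N) ^ (14 * A.card) := by
      intro A _
      refine (Pr_exists_le _ _).trans ?_
      have h2 : ∀ C ∈ powersetCard (A.card - 1) (univ : Finset W),
          Pr (fun p : U → Fin 14 → W => ∀ u ∈ A, ∀ i, p u i ∈ C) =
          (((A.card - 1 : ℕ) : ℝ) / N) ^ (14 * A.card) := by
        intro C hC
        rw [Pr_bad, (mem_powersetCard.1 hC).2]
      rw [sum_congr rfl h2, sum_const, card_powersetCard, card_univ, nsmul_eq_mul]
    refine (Pr_exists_le _ _).trans_lt ?_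
    refine (sum_le_sum h1).trans_lt ?_
    rw [h𝒜, Finset.sum_filter]
    rw [Finset.sum_powerset_apply_card (fun a => if 1 ≤ a ∧ 3 * a ≤ 2 * N then
      (N.choose (a - 1) : ℝ) * (((a - 1 : ℕ) : ℝ) / N) ^ (14 * a) else 0)]
    rw [card_univ]
    have h3 : ∀ a ∈ range (Fintype.card U + 1), (Fintype.card U).choose a •
        (if 1 ≤ a ∧ 3 * a ≤ 2 * N then
          (N.choose (a - 1) : ℝ) * (((a - 1 : ℕ) : ℝ) / N) ^ (14 * a) else 0) ≤
        (if a = 0 then (0 : ℝ) else (1 / 8 : ℝ) ^ a) := by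
      intro a _
      rw [nsmul_eq_mul]
      split_ifs with h4 h5 h5
      · omega
      · exact term_le _ _ a hN0 h h4.1 h4.2
      · rw [mul_zero]
      · rw [mul_zero]
        positivity
    refine (sum_le_sum h3).trans_lt ?_
    rw [sum_range_succ']
    simp only [Nat.add_eq_zero_iff, one_ne_zero, and_false, if_false, if_true, add_zero]
    have h6 : ∀ k : ℕ, ∑ a ∈ range k, (1 / 8 : ℝ) ^ (a + 1) ≤ 1 / 7 := by
      intro k
      have h7 : ∑ a ∈ range k, (1 / 8 : ℝ) ^ (a + 1) = (1 / 7) * (1 - (1 / 8) ^ k) := by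
        induction k with
        | zero => simp
        | succ k ih =>
          rw [sum_range_succ, ih, pow_succ]
          ring
      rw [h7]
      have : (0 : ℝ) ≤ (1 / 8) ^ k := by positivity
      linarith
    have := h6 (Fintype.card U)
    linarith
  obtain ⟨p, hp⟩ := exists_not_of_Pr_lt_one hPr
  refine ⟨p, fun A hA => ?_⟩
  by_contra hcon
  push Not at hcon
  apply hp
  have hA1 : 1 ≤ A.card := by omega
  refine ⟨A, ?_, ?_⟩
  · rw [h𝒜, mem_filter, mem_powerset]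
    exact ⟨subset_univ _, hA1, hA⟩
  · have h1 : (A.biUnion fun u => univ.image (p u)).card ≤ A.card - 1 := by omega
    have h2 : A.card - 1 ≤ (univ : Finset W).card := by
      rw [card_univ]
      omega
    obtain ⟨C, hC1, hC2, hC3⟩ := exists_subsuperset_card_eq (subset_univ _) h1 h2
    refine ⟨C, mem_powersetCard.2 ⟨hC2, hC3⟩, fun u hu i => hC1 ?_⟩
    exact mem_biUnion.2 ⟨u, hu, mem_image.2 ⟨i, mem_univ _, rfl⟩⟩

end Pool.Agent.PGr
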