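import Pool.Agent.PGr.Dat
import Pool.Agent.PGr.Nib

/-!
# PGr: from good weights to a partial labelling (end of section 7)

`GoodW D θ w ε`: `w m x ≥ 0` is supported on edges, item sums within `ε` of one, label sums at most
one, difference sums at most `1 + ε`, pair sums at most `ε`.
-/

noncomputable section

namespace Pool.Agent.PGr

open Finset

open Classical in
/-- Good weights. -/
structure GoodW (D : Dat) (θ : D.Om) (w : ℕ → ℤ → ℝ) (ε : ℝ) : Prop where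
  nonneg : ∀ m ∈ D.It, ∀ x ∈ D.Z0, 0 ≤ w m x
  occ : ∀ m ∈ D.It, ∀ x ∈ D.Z0, 0 < w m x → ¬ D.occ θ x
  inj : ∀ m ∈ D.It, ∀ x ∈ D.Z0, 0 < w m x → ∀ j j' : Fin 3, D.dif θ m x j = D.dif θ m x j' → j = j'
  mem : ∀ m ∈ D.It, ∀ x ∈ D.Z0, 0 < w m x → ∀ j : Fin 3, D.dif θ m x j ∈ D.D0
  use : ∀ m ∈ D.It, ∀ x ∈ D.Z0, 0 < w m x → ∀ j : Fin 3, ¬ D.used θ (D.dif θ m x j)
  item_lo : ∀ m ∈ D.It, 1 - ε ≤ ∑ x ∈ D.Z0, w m x
  item_up : ∀ m ∈ D.It, ∑ x ∈ D.Z0, w m x ≤ 1 + ε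
  label : ∀ x ∈ D.Z0, ∑ m ∈ D.It, w m x ≤ 1
  diff : ∀ d ∈ D.D0, ¬ D.used θ d →
    ∑ m ∈ D.It, ∑ x ∈ D.Z0, (if ∃ j : Fin 3, D.dif θ m x j = d then w m x else 0) ≤ 1 + ε
  pmx : ∀ m ∈ D.It, ∀ x ∈ D.Z0, w m x ≤ ε
  pmd : ∀ m ∈ D.It, ∀ d ∈ D.D0,
    ∑ x ∈ D.Z0, (if ∃ j : Fin 3, D.dif θ m x j = d then w m x else 0) ≤ ε
  pxd : ∀ x ∈ D.Z0, ∀ d ∈ D.D0,
    ∑ m ∈ D.It, (if ∃ j : Fin 3, D.dif θ m x j = d then w m x else 0) ≤ ε
  pdd : ∀ d ∈ D.D0, ∀ d' ∈ D.D0, d ≠ d' →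
    ∑ m ∈ D.It, ∑ x ∈ D.Z0,
      (if (∃ j : Fin 3, D.dif θ m x j = d) ∧ (∃ j : Fin 3, D.dif θ m x j = d')
        then w m x else 0) ≤ ε

/-- The five vertices of an edge. -/
def eS (D : Dat) (θ : D.Om) (p : ℕ × ℤ) : Finset (ℕ ⊕ (ℤ ⊕ ℤ)) :=
  insert (Sum.inl p.1) (insert (Sum.inr (Sum.inl p.2))
    ((univ : Finset (Fin 3)).image fun j => Sum.inr (Sum.inr (D.dif θ p.1 p.2 j))))

theorem mem_eS_item {D : Dat} {θ : D.Om} {p : ℕ × ℤ} {m : ℕ} :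
    (Sum.inl m : ℕ ⊕ (ℤ ⊕ ℤ)) ∈ eS D θ p ↔ m = p.1 := by
  unfold eS
  simp

theorem mem_eS_label {D : Dat} {θ : D.Om} {p : ℕ × ℤ} {x : ℤ} :
    (Sum.inr (Sum.inl x) : ℕ ⊕ (ℤ ⊕ ℤ)) ∈ eS D θ p ↔ x = p.2 := by
  unfold eS
  simp

theorem mem_eS_diff {D : Dat} {θ : D.Om} {p : ℕ × ℤ} {d : ℤ} :
    (Sum.inr (Sum.inr d) : ℕ ⊕ (ℤ ⊕ ℤ)) ∈ eS D θ p ↔ ∃ j : Fin 3, D.dif θ p.1 p.2 j = d := by
  unfold eS
  simp

theorem card_eS {D : Dat} {θ : D.Om} {p : ℕ × ℤ}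
    (h : ∀ j j' : Fin 3, D.dif θ p.1 p.2 j = D.dif θ p.1 p.2 j' → j = j') :
    (eS D θ p).card = 5 := by
  unfold eS
  rw [card_insert_of_notMem, card_insert_of_notMem, card_image_of_injective, card_univ,
    Fintype.card_fin]
  · intro j j' hj
    exact h j j' (by simpa using hj)
  · simp
  · simp

open Classical in
/-- The edges. -/
def eE (D : Dat) (w : ℕ → ℤ → ℝ) : Finset (ℕ × ℤ) :=
  (D.It ×ˢ D.Z0).filter fun p => 0 < w p.1 p.2

theorem mem_eE {D : Dat} {w : ℕ → ℤ → ℝ} {p : ℕ × ℤ} (hp : p ∈ eE D w) :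
    p.1 ∈ D.It ∧ p.2 ∈ D.Z0 ∧ 0 < w p.1 p.2 := by
  unfold eE at hp
  rw [mem_filter, mem_product] at hp
  exact ⟨hp.1.1, hp.1.2, hp.2⟩

section

variable {D : Dat} {θ : D.Om} {w : ℕ → ℤ → ℝ} {ε : ℝ}

open Classical in
/-- A sum over the edges is at most the sum over all pairs. -/
private theorem sum_edge_le (h : GoodW D θ w ε) (h1ε : 0 < 1 + ε) (q : ℕ × ℤ → Prop)
    [DecidablePred q] :
    ∑ p ∈ (eE D w).filter q, w p.1 p.2 / (1 + ε) ≤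
      (∑ m ∈ D.It, ∑ x ∈ D.Z0, (if q (m, x) then w m x else 0)) / (1 + ε) := by
  rw [← sum_div]
  refine div_le_div_of_nonneg_right ?_ h1ε.le
  unfold eE
  rw [Finset.sum_filter, Finset.sum_filter, ← Finset.sum_product']
  refine sum_le_sum fun p hp => ?_
  rw [mem_product] at hp
  have := h.nonneg p.1 hp.1 p.2 hp.2
  split_ifs <;> linarith

open Classical in
private theorem sum_edge_zero (q : ℕ × ℤ → Prop) [DecidablePred q] (c : ℝ) (hc : 0 ≤ c)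
    (hq : ∀ p ∈ eE D w, ¬ q p) : ∑ p ∈ (eE D w).filter q, w p.1 p.2 / (1 + ε) ≤ c := by
  rw [Finset.filter_false_of_mem hq, sum_empty]
  exact hc

open Classical in
private theorem deg_bound (h : GoodW D θ w ε) (h1ε : 0 < 1 + ε) (hε0 : 0 < ε)
    (v : ℕ ⊕ (ℤ ⊕ ℤ)) :
    ∑ p ∈ (eE D w).filter (fun p => v ∈ eS D θ p), w p.1 p.2 / (1 + ε) ≤ 1 := by
  have hle1 : ∀ c : ℝ, c ≤ 1 + ε → c / (1 + ε) ≤ 1 := fun c hc => (div_le_one h1ε).2 hc
  rcases v with m | x | d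
  · by_cases hm : m ∈ D.It
    · refine (sum_edge_le h h1ε _).trans (hle1 _ ?_)
      refine le_trans (le_of_eq ?_) (h.item_up m hm)
      rw [sum_eq_single m]
      · refine sum_congr rfl fun x _ => ?_
        rw [if_pos (mem_eS_item.2 rfl)]
      · intro m' _ hmm
        refine sum_eq_zero fun x _ => ?_
        rw [if_neg]
        rw [mem_eS_item]
        exact fun h1 => hmm h1.symm
      · exact fun h1 => absurd hm h1
    · refine sum_edge_zero _ _ zero_le_one fun p hp h1 => ?_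
      rw [mem_eS_item] at h1
      exact hm (h1 ▸ (mem_eE hp).1)
  · by_cases hx : x ∈ D.Z0
    · refine (sum_edge_le h h1ε _).trans (hle1 _ ?_)
      refine le_trans (le_of_eq ?_) ((h.label x hx).trans (by linarith))
      refine sum_congr rfl fun m _ => ?_
      rw [sum_eq_single x]
      · rw [if_pos (mem_eS_label.2 rfl)]
      · intro x' _ hxx
        rw [if_neg]
        rw [mem_eS_label]
        exact fun h1 => hxx h1.symm
      · exact fun h1 => absurd hx h1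
    · refine sum_edge_zero _ _ zero_le_one fun p hp h1 => ?_
      rw [mem_eS_label] at h1
      exact hx (h1 ▸ (mem_eE hp).2.1)
  · by_cases hd : d ∈ D.D0 ∧ ¬ D.used θ d
    · refine (sum_edge_le h h1ε _).trans (hle1 _ ?_)
      refine le_trans (le_of_eq ?_) (h.diff d hd.1 hd.2)
      refine sum_congr rfl fun m _ => sum_congr rfl fun x _ => ?_
      simp only [mem_eS_diff]
    · refine sum_edge_zero _ _ zero_le_one fun p hp h1 => ?_
      rw [mem_eS_diff] at h1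
      obtain ⟨j, hj⟩ := h1
      have h2 := mem_eE hp
      apply hd
      rw [← hj]
      exact ⟨h.mem p.1 h2.1 p.2 h2.2.1 h2.2.2 j, h.use p.1 h2.1 p.2 h2.2.1 h2.2.2 j⟩

open Classical in
private theorem pair_mx (h : GoodW D θ w ε) (h1ε : 0 < 1 + ε) (hε0 : 0 < ε) {δ : ℝ} (hδ : 0 ≤ δ)
    (hεδ : ∀ c : ℝ, c ≤ ε → c / (1 + ε) ≤ δ) (m : ℕ) (x : ℤ) :
    ∑ p ∈ (eE D w).filter (fun p => (Sum.inl m : ℕ ⊕ (ℤ ⊕ ℤ)) ∈ eS D θ p ∧
        Sum.inr (Sum.inl x) ∈ eS D θ p), w p.1 p.2 / (1 + ε) ≤ δ := by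
  by_cases hmx : m ∈ D.It ∧ x ∈ D.Z0
  · refine (sum_edge_le h h1ε _).trans (hεδ _ ?_)
    refine le_trans (le_of_eq ?_) (h.pmx m hmx.1 x hmx.2)
    rw [sum_eq_single m]
    · rw [sum_eq_single x]
      · rw [if_pos ⟨mem_eS_item.2 rfl, mem_eS_label.2 rfl⟩]
      · intro x' _ hxx
        rw [if_neg]
        rintro ⟨_, h1⟩
        rw [mem_eS_label] at h1
        exact hxx h1.symm
      · exact fun h1 => absurd hmx.2 h1
    · intro m' _ hmm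
      refine sum_eq_zero fun x' _ => ?_
      rw [if_neg]
      rintro ⟨h1, _⟩
      rw [mem_eS_item] at h1
      exact hmm h1.symm
    · exact fun h1 => absurd hmx.1 h1
  · refine sum_edge_zero _ _ hδ fun p hp h1 => ?_
    rw [mem_eS_item, mem_eS_label] at h1
    apply hmx
    rw [h1.1, h1.2]
    exact ⟨(mem_eE hp).1, (mem_eE hp).2.1⟩

open Classical in
private theorem pair_md (h : GoodW D θ w ε) (h1ε : 0 < 1 + ε) (hε0 : 0 < ε) {δ : ℝ} (hδ : 0 ≤ δ)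
    (hεδ : ∀ c : ℝ, c ≤ ε → c / (1 + ε) ≤ δ) (m : ℕ) (d : ℤ) :
    ∑ p ∈ (eE D w).filter (fun p => (Sum.inl m : ℕ ⊕ (ℤ ⊕ ℤ)) ∈ eS D θ p ∧
        Sum.inr (Sum.inr d) ∈ eS D θ p), w p.1 p.2 / (1 + ε) ≤ δ := by
  by_cases hmd : m ∈ D.It ∧ d ∈ D.D0
  · refine (sum_edge_le h h1ε _).trans (hεδ _ ?_)
    refine le_trans (le_of_eq ?_) (h.pmd m hmd.1 d hmd.2)
    rw [sum_eq_single m]
    · refine sum_congr rfl fun x _ => ?_
      simp only [mem_eS_item, mem_eS_diff, true_and]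
    · intro m' _ hmm
      refine sum_eq_zero fun x' _ => ?_
      rw [if_neg]
      rintro ⟨h1, _⟩
      rw [mem_eS_item] at h1
      exact hmm h1.symm
    · exact fun h1 => absurd hmd.1 h1
  · refine sum_edge_zero _ _ hδ fun p hp h1 => ?_
    rw [mem_eS_item, mem_eS_diff] at h1
    obtain ⟨h1, j, hj⟩ := h1
    have h2 := mem_eE hp
    apply hmd
    rw [h1, ← hj]
    exact ⟨h2.1, h.mem p.1 h2.1 p.2 h2.2.1 h2.2.2 j⟩

open Classical in
private theorem pair_xd (h : GoodW D θ w ε) (h1ε : 0 < 1 + ε) (hε0 : 0 < ε) {δ : ℝ} (hδ : 0 ≤ δ)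
    (hεδ : ∀ c : ℝ, c ≤ ε → c / (1 + ε) ≤ δ) (x d : ℤ) :
    ∑ p ∈ (eE D w).filter (fun p => (Sum.inr (Sum.inl x) : ℕ ⊕ (ℤ ⊕ ℤ)) ∈ eS D θ p ∧
        Sum.inr (Sum.inr d) ∈ eS D θ p), w p.1 p.2 / (1 + ε) ≤ δ := by
  by_cases hxd : x ∈ D.Z0 ∧ d ∈ D.D0
  · refine (sum_edge_le h h1ε _).trans (hεδ _ ?_)
    refine le_trans (le_of_eq ?_) (h.pxd x hxd.1 d hxd.2)
    refine sum_congr rfl fun m _ => ?_
    rw [sum_eq_single x]
    · simp only [mem_eS_label, mem_eS_diff, true_and]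
    · intro x' _ hxx
      rw [if_neg]
      rintro ⟨h1, _⟩
      rw [mem_eS_label] at h1
      exact hxx h1.symm
    · exact fun h1 => absurd hxd.1 h1
  · refine sum_edge_zero _ _ hδ fun p hp h1 => ?_
    rw [mem_eS_label, mem_eS_diff] at h1
    obtain ⟨h1, j, hj⟩ := h1
    have h2 := mem_eE hp
    apply hxd
    rw [h1, ← hj]
    exact ⟨h2.2.1, h.mem p.1 h2.1 p.2 h2.2.1 h2.2.2 j⟩

open Classical in
private theorem codeg_bound (h : GoodW D θ w ε) (h1ε : 0 < 1 + ε) (hε0 : 0 < ε) {δ : ℝ}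
    (hδ : 0 ≤ δ) (hεδ : ∀ c : ℝ, c ≤ ε → c / (1 + ε) ≤ δ) (a b : ℕ ⊕ (ℤ ⊕ ℤ)) (hab : a ≠ b) :
    ∑ p ∈ (eE D w).filter (fun p => a ∈ eS D θ p ∧ b ∈ eS D θ p), w p.1 p.2 / (1 + ε) ≤ δ := by
  have hcomm : ∀ (a b : ℕ ⊕ (ℤ ⊕ ℤ)),
      ∑ p ∈ (eE D w).filter (fun p => a ∈ eS D θ p ∧ b ∈ eS D θ p), w p.1 p.2 / (1 + ε) =
      ∑ p ∈ (eE D w).filter (fun p => b ∈ eS D θ p ∧ a ∈ eS D θ p), w p.1 p.2 / (1 + ε) := by
    intro a b
    refine sum_congr ?_ fun _ _ => rfl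
    ext p
    simp only [mem_filter]
    tauto
  rcases a with m | x | d <;> rcases b with m' | x' | d'
  · refine sum_edge_zero _ _ hδ fun p hp h1 => hab ?_
    rw [mem_eS_item, mem_eS_item] at h1
    rw [h1.1, h1.2]
  · exact pair_mx h h1ε hε0 hδ hεδ m x'
  · exact pair_md h h1ε hε0 hδ hεδ m d'
  · rw [hcomm]
    exact pair_mx h h1ε hε0 hδ hεδ m' x
  · refine sum_edge_zero _ _ hδ fun p hp h1 => hab ?_
    rw [mem_eS_label, mem_eS_label] at h1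
    rw [h1.1, h1.2]
  · exact pair_xd h h1ε hε0 hδ hεδ x d'
  · rw [hcomm]
    exact pair_md h h1ε hε0 hδ hεδ m' d
  · rw [hcomm]
    exact pair_xd h h1ε hε0 hδ hεδ x' d
  · by_cases hdd : d ∈ D.D0 ∧ d' ∈ D.D0
    · refine (sum_edge_le h h1ε _).trans (hεδ _ ?_)
      refine le_trans (le_of_eq ?_) (h.pdd d hdd.1 d' hdd.2 (fun h1 => hab (by rw [h1])))
      refine sum_congr rfl fun m _ => sum_congr rfl fun x _ => ?_
      simp only [mem_eS_diff]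
    · refine sum_edge_zero _ _ hδ fun p hp h1 => ?_
      rw [mem_eS_diff, mem_eS_diff] at h1
      obtain ⟨⟨j, hj⟩, j', hj'⟩ := h1
      have h2 := mem_eE hp
      apply hdd
      rw [← hj, ← hj']
      exact ⟨h.mem p.1 h2.1 p.2 h2.2.1 h2.2.2 j, h.mem p.1 h2.1 p.2 h2.2.1 h2.2.2 j'⟩

open Classical in
private theorem total_bound (h : GoodW D θ w ε) (hε0 : 0 < ε) (hε1 : ε ≤ 1 / 2) {η : ℝ}
    (hη : 0 < η) (hεη : ε ≤ η / 3) :
    (1 - η) * (D.It.card : ℝ) ≤ (1 - η / 3) * ∑ p ∈ eE D w, w p.1 p.2 / (1 + ε) := by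
  have h1ε : 0 < 1 + ε := by linarith
  have h1 : ∑ p ∈ eE D w, w p.1 p.2 / (1 + ε) =
      (∑ m ∈ D.It, ∑ x ∈ D.Z0, w m x) / (1 + ε) := by
    rw [← sum_div]
    congr 1
    unfold eE
    rw [Finset.sum_filter, ← Finset.sum_product']
    refine sum_congr rfl fun p hp => ?_
    rw [mem_product] at hp
    have := h.nonneg p.1 hp.1 p.2 hp.2
    split_ifs with h2
    · rfl
    · linarith
  rw [h1]
  have hI0 : (0 : ℝ) ≤ D.It.card := Nat.cast_nonneg _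
  set W := ∑ m ∈ D.It, ∑ x ∈ D.Z0, w m x with hW
  have h2 : (1 - ε) * (D.It.card : ℝ) ≤ W := by
    have h3 : ∑ _m ∈ D.It, (1 - ε) ≤ ∑ m ∈ D.It, ∑ x ∈ D.Z0, w m x := sum_le_sum h.item_lo
    rw [sum_const, nsmul_eq_mul] at h3
    linarith
  have h3 : W ≤ (D.It.card : ℝ) * (1 + ε) := by
    have h3 : ∑ m ∈ D.It, ∑ x ∈ D.Z0, w m x ≤ ∑ _m ∈ D.It, (1 + ε) := sum_le_sum h.item_up
    rwa [sum_const, nsmul_eq_mul] at h3
  have h4 : (1 - 2 * ε) * (D.It.card : ℝ) ≤ W / (1 + ε) := by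
    rw [le_div_iff₀ h1ε]
    have h5 : (1 - 2 * ε) * (1 + ε) ≤ 1 - ε := by nlinarith
    calc (1 - 2 * ε) * (D.It.card : ℝ) * (1 + ε) = ((1 - 2 * ε) * (1 + ε)) * D.It.card := by ring
      _ ≤ (1 - ε) * D.It.card := mul_le_mul_of_nonneg_right h5 hI0
      _ ≤ W := h2
  have h6 : W / (1 + ε) ≤ (D.It.card : ℝ) := by
    rw [div_le_iff₀ h1ε]
    exact h3
  rcases le_or_gt 0 (1 - η / 3) with h7 | h7
  · refine le_trans ?_ (mul_le_mul_of_nonneg_left h4 h7)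
    have h8 : 1 - η ≤ (1 - η / 3) * (1 - 2 * ε) := by nlinarith
    calc (1 - η) * (D.It.card : ℝ) ≤ ((1 - η / 3) * (1 - 2 * ε)) * D.It.card :=
          mul_le_mul_of_nonneg_right h8 hI0
      _ = _ := by ring
  · refine le_trans ?_ (mul_le_mul_of_nonpos_left h6 h7.le)
    exact mul_le_mul_of_nonneg_right (by linarith) hI0

open Classical in
/-- A matching gives a partial labelling. -/
private theorem partLab_of_matching (h : GoodW D θ w ε) (M : Finset (ℕ × ℤ)) (hM : M ⊆ eE D w)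
    (hMd : ∀ p ∈ M, ∀ p' ∈ M, p ≠ p' → Disjoint (eS D θ p) (eS D θ p')) :
    ∃ (L : Finset ℕ) (z : ℕ → ℤ), L ⊆ D.It ∧ L.card = M.card ∧ D.PartLab θ L z := by
  set L : Finset ℕ := M.image Prod.fst with hL
  have hfst : ∀ p ∈ M, ∀ p' ∈ M, p.1 = p'.1 → p = p' := by
    intro p hp p' hp' hpp
    by_contra hne
    have := hMd p hp p' hp' hne
    rw [disjoint_left] at this
    exact this (mem_eS_item.2 rfl) (mem_eS_item.2 hpp)
  have hLc : L.card = M.card := card_image_of_injOn fun p hp p' hp' => hfst p hp p' hp'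
  have hLI : L ⊆ D.It := by
    intro m hm
    obtain ⟨p, hp, rfl⟩ := mem_image.1 hm
    exact (mem_eE (hM hp)).1
  set z : ℕ → ℤ := fun m => if hm : ∃ p ∈ M, p.1 = m then (Classical.choose hm).2 else 0 with hz'
  have hzM : ∀ m ∈ L, (m, z m) ∈ M := by
    intro m hm
    obtain ⟨p, hp, hpm⟩ := mem_image.1 hm
    have hex : ∃ p ∈ M, p.1 = m := ⟨p, hp, hpm⟩
    have h1 := Classical.choose_spec hex
    have h2 : z m = (Classical.choose hex).2 := by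
      simp only [hz']
      rw [dif_pos hex]
    have h3 : (m, z m) = Classical.choose hex := by
      rw [h2]
      exact Prod.ext h1.2.symm rfl
    rw [h3]
    exact h1.1
  refine ⟨L, z, hLI, hLc, ?_, ?_, ?_, ?_⟩
  · intro m hm
    have h1 := mem_eE (hM (hzM m hm))
    exact ⟨h1.2.1, h.occ m h1.1 _ h1.2.1 h1.2.2⟩
  · intro m hm m' hm' hmm
    by_contra hne
    have hne' : (m, z m) ≠ (m', z m') := fun h1 => hne (congrArg Prod.fst h1)
    have := hMd _ (hzM m hm) _ (hzM m' hm') hne'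
    rw [disjoint_left] at this
    exact this (mem_eS_label.2 rfl) (mem_eS_label.2 hmm)
  · intro m hm j
    have h1 := mem_eE (hM (hzM m hm))
    exact ⟨h.mem m h1.1 _ h1.2.1 h1.2.2 j, h.use m h1.1 _ h1.2.1 h1.2.2 j⟩
  · intro m hm m' hm' j j' hjj
    have h1 := mem_eE (hM (hzM m hm))
    have hmm : m = m' := by
      by_contra hne
      have hne' : (m, z m) ≠ (m', z m') := fun h1 => hne (congrArg Prod.fst h1)
      have := hMd _ (hzM m hm) _ (hzM m' hm') hne'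
      rw [disjoint_left] at this
      exact this (mem_eS_diff.2 ⟨j, rfl⟩) (mem_eS_diff.2 ⟨j', hjj.symm⟩)
    subst hmm
    exact ⟨rfl, h.inj m h1.1 _ h1.2.1 h1.2.2 j j' hjj⟩

end

/-- Good weights give a labelling of almost all items. -/
theorem partLab_of_goodW (η : ℝ) (hη : 0 < η) : ∃ ε : ℝ, 0 < ε ∧ ∀ (D : Dat) (θ : D.Om)
    (w : ℕ → ℤ → ℝ), GoodW D θ w ε → ∃ (I' : Finset ℕ) (z : ℕ → ℤ), I' ⊆ D.It ∧
      (I'.card : ℝ) ≤ η * D.It.card ∧ D.PartLab θ (D.It \ I') z := by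
  classical
  obtain ⟨δ, hδ, hN⟩ := nibble.{0, 0} 5 (by norm_num) (η / 3) (by positivity)
  set ε : ℝ := min (min δ (η / 3)) (1 / 2) with hε
  have hε0 : 0 < ε := lt_min (lt_min hδ (by positivity)) (by norm_num)
  have hεδ : ε ≤ δ := (min_le_left _ _).trans (min_le_left _ _)
  have hεη : ε ≤ η / 3 := (min_le_left _ _).trans (min_le_right _ _)
  have hε1 : ε ≤ 1 / 2 := min_le_right _ _
  clear_value ε
  refine ⟨ε, hε0, fun D θ w h => ?_⟩
  have h1ε : 0 < 1 + ε := by linarith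
  have hleε : ∀ c : ℝ, c ≤ ε → c / (1 + ε) ≤ δ := by
    intro c hc
    rw [div_le_iff₀ h1ε]
    nlinarith
  obtain ⟨M, hM, hMd, hMc⟩ := hN (ℕ ⊕ (ℤ ⊕ ℤ)) (ℕ × ℤ) (eE D w) (eS D θ)
    (fun p => w p.1 p.2 / (1 + ε))
    (fun p hp => card_eS (h.inj p.1 (mem_eE hp).1 p.2 (mem_eE hp).2.1 (mem_eE hp).2.2))
    (fun p hp => div_nonneg (mem_eE hp).2.2.le h1ε.le)
    (fun v => by convert deg_bound h h1ε hε0 v)
    (fun a b hab => by convert codeg_bound h h1ε hε0 hδ.le hleε a b hab)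
  have htot := (total_bound h hε0 hε1 hη hεη).trans hMc
  obtain ⟨L, z, hLI, hLc, hP⟩ := partLab_of_matching h M hM hMd
  refine ⟨D.It \ L, z, sdiff_subset, ?_, ?_⟩
  · rw [card_sdiff_of_subset hLI, hLc, Nat.cast_sub (by rw [← hLc]; exact card_le_card hLI)]
    linarith
  · rw [sdiff_sdiff_right_self]
    have hinf : D.It ⊓ L = L := inf_eq_right.2 hLI
    rw [hinf]
    exact hP

end Pool.Agent.PGr
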